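import Pool.Agent.Mg.Ff7db47.G47beda
import Pool.Agent.MP_f7db47_al.RegA
import Pool.Agent.MP_f7db47_al.Reg

section

/-!
The argument of Bass: `K_0` of a ring from `K_1` of its Laurent extension.
-/

set_option linter.unusedSectionVars false

namespace Pool.Agent.MP_f7db47_al

open Matrix Function

universe u u' v w

section Lin

variable {L : Type w} [Ring L] {V : Type w} [AddCommGroup V] [Module L V]

lemma exists_ses (f g : V →ₗ[L] V) (hg : Injective g) :
    ∃ (a : (V ⧸ LinearMap.range f) →ₗ[L] (V ⧸ LinearMap.range (g ∘ₗ f)))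
      (b : (V ⧸ LinearMap.range (g ∘ₗ f)) →ₗ[L] (V ⧸ LinearMap.range g)),
      Injective a ∧ Exact a b ∧ Surjective b := by
  refine ⟨Submodule.mapQ _ _ g ?_, Submodule.mapQ _ _ LinearMap.id ?_, ?_, ?_, ?_⟩
  · rintro _ ⟨x, rfl⟩; exact ⟨x, rfl⟩
  · rintro _ ⟨x, rfl⟩; exact ⟨f x, rfl⟩
  · rw [injective_iff_map_eq_zero]
    intro x hx
    obtain ⟨x, rfl⟩ := Submodule.Quotient.mk_surjective _ x
    rw [Submodule.mapQ_apply, Submodule.Quotient.mk_eq_zero] at hx
    obtain ⟨y, hy⟩ := hx
    rw [Submodule.Quotient.mk_eq_zero]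
    exact ⟨y, hg hy⟩
  · intro x
    obtain ⟨x, rfl⟩ := Submodule.Quotient.mk_surjective _ x
    rw [Submodule.mapQ_apply, Submodule.Quotient.mk_eq_zero]
    constructor
    · rintro ⟨y, hy⟩
      exact ⟨Submodule.Quotient.mk y, by rw [Submodule.mapQ_apply, hy]; rfl⟩
    · rintro ⟨y, hy⟩
      obtain ⟨y, rfl⟩ := Submodule.Quotient.mk_surjective _ y
      rw [Submodule.mapQ_apply, Submodule.Quotient.eq] at hy
      obtain ⟨z, hz⟩ := hy
      refine ⟨y - f z, ?_⟩
      rw [map_sub, LinearMap.id_apply, ← LinearMap.comp_apply g f, hz]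
      abel
  · intro x
    obtain ⟨x, rfl⟩ := Submodule.Quotient.mk_surjective _ x
    exact ⟨Submodule.Quotient.mk x, rfl⟩

variable {R : Type v} [Ring R] {ρ : R →+* L}

variable (ρ) in
/-- Stably induced modules. -/
def StInd (M : Type w) [AddCommGroup M] [Module L M] : Prop :=
  ∃ (a : Type) (_ : Fintype a), Ind ρ (M × (a → L))

lemma StInd.iso {M M' : Type w} [AddCommGroup M] [Module L M] [AddCommGroup M'] [Module L M']
    (h : StInd ρ M) (e : M ≃ₗ[L] M') : StInd ρ M' := by
  obtain ⟨a, _, h⟩ := h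
  exact ⟨a, inferInstance, h.iso (e.prodCongr (LinearEquiv.refl _ _))⟩

lemma Ind.stInd {M : Type w} [AddCommGroup M] [Module L M] (h : Ind ρ M) : StInd ρ M :=
  ⟨Empty, inferInstance, h.iso (LinearEquiv.prodUnique (R := L)).symm⟩

lemma StInd.of_ses {M M' M'' : Type w} [AddCommGroup M] [Module L M] [AddCommGroup M']
    [Module L M'] [AddCommGroup M''] [Module L M''] {a : M' →ₗ[L] M} {b : M →ₗ[L] M''}
    (ha : Injective a) (hab : Exact a b) (hb : Surjective b) {J : Type} [Fintype J]
    (e : M'' ≃ₗ[L] (J → L)) (h : StInd ρ M) : StInd ρ M' := by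
  have : Module.Projective L M'' := Module.Projective.of_equiv e.symm
  obtain ⟨s, hs⟩ := Module.projective_lifting_property b LinearMap.id hb
  obtain ⟨c, _, h⟩ := h.iso (hab.splitSurjectiveEquiv ha ⟨s, hs⟩).1
  refine ⟨J ⊕ c, inferInstance, h.iso ?_⟩
  exact (LinearEquiv.prodAssoc L M' M'' (c → L)).trans ((LinearEquiv.refl _ _).prodCongr
    ((e.prodCongr (LinearEquiv.refl _ _)).trans (LinearEquiv.sumArrowLequivProdArrow J c L L).symm))

lemma StInd.idem {n : Type} [Fintype n] [DecidableEq n] (e : Matrix n n L) (he : e * e = e)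
    (h : StInd ρ (LinearMap.range e.vecMulLinear)) :
    ∃ (a m : Type) (_ : Fintype a) (_ : DecidableEq a) (_ : Fintype m) (e₀ : Matrix m m R)
      (X : Matrix (n ⊕ a) m L) (Y : Matrix m (n ⊕ a) L), e₀ * e₀ = e₀ ∧
      X * Y = fromBlocks e 0 0 1 ∧ Y * X = e₀.map ρ := by
  classical
  let M := LinearMap.range e.vecMulLinear
  have hM : ∀ x : M, x.1 ᵥ* e = x.1 := by
    rintro ⟨_, v, rfl⟩
    simp [he]
  obtain ⟨a, _, hI⟩ := h
  obtain ⟨m, _, e₀, i, p, he₀, h1, h2⟩ := hI.split
  let u : (n ⊕ a → L) →ₗ[L] M × (a → L) :=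
    (e.vecMulLinear.rangeRestrict ∘ₗ LinearMap.funLeft L L Sum.inl).prod
      (LinearMap.funLeft L L Sum.inr)
  let v : M × (a → L) →ₗ[L] (n ⊕ a → L) :=
    (LinearEquiv.sumArrowLequivProdArrow n a L L).symm.toLinearMap ∘ₗ
      M.subtype.prodMap LinearMap.id
  have huv : ∀ x, u (v x) = x := fun x => Prod.ext (Subtype.ext (hM x.1)) rfl
  obtain ⟨X, hX⟩ := exists_mat (i ∘ₗ u)
  obtain ⟨Y, hY⟩ := exists_mat (v ∘ₗ p)
  refine ⟨a, m, inferInstance, inferInstance, inferInstance, e₀, X, Y, he₀,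
    ext_vecMul fun w => ?_, ext_vecMul fun w => ?_⟩
  · rw [← vecMul_vecMul, hX, hY, vecMul_fromBlocks]
    simp only [LinearMap.comp_apply, h1]
    ext (j | j)
    · simp [u, v]; rfl
    · simp [u, v]
  · rw [← vecMul_vecMul, hX, hY, ← h2]
    simp [huv]

lemma ind_range {n : Type} [Fintype n] (e : Matrix n n R) (he : e * e = e) :
    Ind ρ (LinearMap.range (e.map ρ).vecMulLinear) :=
  ⟨n, inferInstance, e, (e.map ρ).vecMulLinear.rangeRestrict, he,
    LinearMap.surjective_rangeRestrict _, fun _ => Subtype.ext_iff⟩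

end Lin

variable {R : Type v} [Ring R] {G : Type u} [Group G] {N : Type u} [Group N]

/-- Data of a central Laurent extension. -/
structure Laur (N G : Type u) [Group N] [Group G] where
  f : N →* G
  hf : Injective f
  dg : G → ℤ
  hadd : ∀ a b, dg (a * b) = dg a + dg b
  hr : ∀ g, g ∈ Set.range f ↔ dg g = 0
  t : G
  ht : dg t = 1
  hc : ∀ g, t * g = g * t

namespace Laur

variable (D : Laur N G)

variable (R) in
/-- The inclusion of group rings. -/
noncomputable abbrev φ : MonoidAlgebra R N →+* MonoidAlgebra R G :=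
  MonoidAlgebra.mapDomainRingHom R D.f

lemma range_eq : Set.range D.f = {g | D.dg g = 0} := Set.ext D.hr

lemma sup_φ (x : MonoidAlgebra R N) : Sup {g | D.dg g = 0} (D.φ R x) :=
  D.range_eq ▸ sup_mapDomain D.f x

/-- Degree zero part. -/
noncomputable def c0 (x : MonoidAlgebra R G) : MonoidAlgebra R N :=
  MonoidAlgebra.comapDomain D.f D.hf (pr {g | D.dg g = 0} x)

lemma φ_c0 (x : MonoidAlgebra R G) : D.φ R (D.c0 x) = pr {g | D.dg g = 0} x :=
  MonoidAlgebra.mapDomain_comapDomain
    (fun g hg => D.range_eq ▸ sup_pr _ x g (Finsupp.mem_support_iff.1 hg)) D.hf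

variable (R) in
/-- Vectors over the big ring, as a module over the small ring. -/
def FS (_ : Laur N G) (J : Type) : Type (max u v) := J → MonoidAlgebra R G

noncomputable instance (J : Type) : AddCommGroup (D.FS R J) :=
  inferInstanceAs (AddCommGroup (J → MonoidAlgebra R G))

noncomputable instance (J : Type) : Module (MonoidAlgebra R N) (D.FS R J) :=
  Module.compHom (J → MonoidAlgebra R G) (D.φ R)

variable (R) in
/-- Vectors of nonnegative degree. -/
def Fp (J : Type) : Submodule (MonoidAlgebra R N) (D.FS R J) where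
  carrier := {v | VSup {g | 0 ≤ D.dg g} (show J → MonoidAlgebra R G from v)}
  zero_mem' := fun _ => sup_zero _
  add_mem' := fun hx hy i => (hx i).add (hy i)
  smul_mem' := fun c v hv i => (D.sup_φ c).mul (hv i) fun a ha b hb => by
    simp only [Set.mem_ofPred_eq, D.hadd] at *; omega

variable {J : Type} [Fintype J] [DecidableEq J]

/-- The underlying vector. -/
def vec (v : D.Fp R J) : J → MonoidAlgebra R G := v.1

lemma vec_sup (v : D.Fp R J) : VSup {g | 0 ≤ D.dg g} (D.vec v) := v.2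

lemma vec_injective : Injective (D.vec : D.Fp R J → _) := fun _ _ h => Subtype.ext h

lemma vsup_vecMul {S S' U : Set G} {v : J → MonoidAlgebra R G}
    {A : Matrix J J (MonoidAlgebra R G)} (hv : VSup S v) (hA : MSup S' A)
    (h : ∀ a ∈ S, ∀ b ∈ S', a * b ∈ U) : VSup U (v ᵥ* A) := fun j =>
  sup_sum _ _ fun i _ => (hv i).mul (hA i j) h

/-- Right multiplication by a matrix of nonnegative degree. -/
noncomputable def mulP (A : Matrix J J (MonoidAlgebra R G)) (hA : MSup {g | 0 ≤ D.dg g} A) :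
    D.Fp R J →ₗ[MonoidAlgebra R N] D.Fp R J where
  toFun v := ⟨D.vec v ᵥ* A, vsup_vecMul (D.vec_sup v) hA fun a ha b hb => by
    simp only [Set.mem_ofPred_eq, D.hadd] at *; omega⟩
  map_add' v w := Subtype.ext (add_vecMul A (D.vec v) (D.vec w))
  map_smul' c v := Subtype.ext (smul_vecMul (D.φ R c) (D.vec v) A)

lemma vec_mulP (A : Matrix J J (MonoidAlgebra R G)) (hA : MSup {g | 0 ≤ D.dg g} A)
    (v : D.Fp R J) : D.vec (D.mulP A hA v) = D.vec v ᵥ* A := rfl

lemma msup_mul {A B : Matrix J J (MonoidAlgebra R G)} (hA : MSup {g | 0 ≤ D.dg g} A)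
    (hB : MSup {g | 0 ≤ D.dg g} B) : MSup {g | 0 ≤ D.dg g} (A * B) :=
  hA.mul hB fun a ha b hb => by simp only [Set.mem_ofPred_eq, D.hadd] at *; omega

lemma mulP_mul {A B : Matrix J J (MonoidAlgebra R G)} (hA : MSup {g | 0 ≤ D.dg g} A)
    (hB : MSup {g | 0 ≤ D.dg g} B) :
    D.mulP (A * B) (D.msup_mul hA hB) = D.mulP B hB ∘ₗ D.mulP A hA := by
  ext1 v
  exact D.vec_injective (vecMul_vecMul _ _ _).symm

lemma mulP_injective {B : Matrix J J (MonoidAlgebra R G)} (hB : MSup {g | 0 ≤ D.dg g} B)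
    (hu : IsUnit B) : Injective (D.mulP B hB) := by
  obtain ⟨u, rfl⟩ := hu
  intro v w h
  apply D.vec_injective
  have := congrArg (fun z => D.vec z ᵥ* (u⁻¹ : Units _).val) h
  simpa [vec_mulP] using this

/-- The cokernel. -/
abbrev Cok (A : Matrix J J (MonoidAlgebra R G)) (hA : MSup {g | 0 ≤ D.dg g} A) :=
  D.Fp R J ⧸ LinearMap.range (D.mulP A hA)

/-- The scalar matrix `t`. -/
noncomputable abbrev sc (J : Type) [DecidableEq J] (g : G) : Matrix J J (MonoidAlgebra R G) :=
  (1 : Matrix J J R).map (MonoidAlgebra.single g)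

lemma sc_mul (g h : G) : (sc J g : Matrix J J (MonoidAlgebra R G)) * sc J h = sc J (g * h) := by
  rw [map_single_mul, mul_one]

lemma sc_one : (sc J (1 : G) : Matrix J J (MonoidAlgebra R G)) = 1 := map_single_one_one

lemma sc_comm {g : G} (hg : ∀ x, g * x = x * g) (A : Matrix J J (MonoidAlgebra R G)) :
    sc J g * A = A * sc J g := by
  have : (sc J g : Matrix J J (MonoidAlgebra R G)) =
      diagonal fun _ => MonoidAlgebra.single g 1 := by
    ext1 i j
    by_cases h : i = j
    · subst h; simp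
    · simp [Matrix.one_apply_ne h, diagonal_apply_ne _ h]
  rw [this]
  ext1 i j
  rw [diagonal_mul, mul_diagonal]
  exact MonoidAlgebra.single_commute hg (fun r => Commute.one_left r) _

lemma msup_basic {ε : Matrix J J (MonoidAlgebra R N)} :
    MSup {g | 0 ≤ D.dg g} (1 - ε.map (D.φ R) + ε.map (D.φ R) * sc J D.t) := by
  have h0 : MSup {g | 0 ≤ D.dg g} (ε.map (D.φ R)) := fun i j =>
    (D.sup_φ _).mono fun g hg => le_of_eq (Eq.symm hg)
  exact ((msup_one (by simp [dg_one D.dg D.hadd])).sub h0).add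
    (D.msup_mul h0 (msup_map_single (by simp [D.ht]) _))

lemma basic {ε : Matrix J J (MonoidAlgebra R N)} (hε : ε * ε = ε) :
    Nonempty (D.Cok _ (D.msup_basic (ε := ε)) ≃ₗ[MonoidAlgebra R N]
      LinearMap.range ε.vecMulLinear) := by
  have hinj := mapDomain_inj (R := R) D.f D.hf
  set E := ε.map (D.φ R) with hE
  have hEs : MSup {g | D.dg g = 0} E := fun i j => D.sup_φ _
  have hEE : E * E = E := by rw [hE, ← Matrix.map_mul, hε]
  let c : D.Fp R J →ₗ[MonoidAlgebra R N] (J → MonoidAlgebra R N) :=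
    { toFun := fun v i => D.c0 (D.vec v i)
      map_add' := fun v w => funext fun i => hinj (by
        rw [Pi.add_apply, map_add, φ_c0, φ_c0, φ_c0, ← map_add]; rfl)
      map_smul' := fun a v => funext fun i => hinj (by
        rw [Pi.smul_apply, RingHom.id_apply, smul_eq_mul, map_mul, φ_c0, φ_c0,
          ← pr_mul_left (S := {g | D.dg g = 0}) _ (D.sup_φ a)]
        · rfl
        · intro k hk g
          simp only [Set.mem_ofPred_eq, D.hadd] at *; omega) }
  have hc : ∀ v, (D.φ R) ∘ c v = prv {g | D.dg g = 0} (D.vec v) :=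
    fun v => funext fun i => D.φ_c0 _
  have hker : ∀ v, c v ᵥ* ε = 0 ↔ prv {g | D.dg g = 0} (D.vec v ᵥ* E) = 0 := by
    intro v
    rw [prv_vecMul_right (S₁ := {g | D.dg g = 0}) _ hEs (fun g k hk => by
      simp only [Set.mem_ofPred_eq, D.hadd] at *; omega), ← hc, hE]
    constructor
    · intro h
      funext j
      rw [← RingHom.map_vecMul, h]; simp
    · intro h
      funext j
      apply hinj
      rw [RingHom.map_vecMul, h]; simp
  let p := ε.vecMulLinear.rangeRestrict ∘ₗ c
  have hp : Surjective p := by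
    rintro ⟨_, w, rfl⟩
    refine ⟨⟨(D.φ R) ∘ w, fun i => (D.sup_φ _).mono fun g hg => le_of_eq (Eq.symm hg)⟩,
      Subtype.ext ?_⟩
    change c _ ᵥ* ε = w ᵥ* ε
    congr 1
    funext i
    apply hinj
    exact (D.φ_c0 _).trans (D.sup_φ _).pr_eq
  have hk : LinearMap.range (D.mulP _ (D.msup_basic (ε := ε))) = LinearMap.ker p := by
    ext v
    rw [LinearMap.mem_ker, Subtype.ext_iff]
    change _ ↔ c v ᵥ* ε = 0
    rw [hker]
    constructor
    · rintro ⟨w, rfl⟩
      rw [vec_mulP, vecMul_vecMul, ← hE, add_mul, sub_mul, one_mul, hEE, sub_self, zero_add,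
        mul_assoc, sc_comm D.hc, ← mul_assoc, hEE]
      funext i
      refine (vsup_vecMul (U := {g | 1 ≤ D.dg g}) (D.vec_sup w)
        (hEs.mul (U := {g | D.dg g = 1}) (msup_map_single (S := {D.t}) rfl _) ?_) ?_ i).pr_eq_zero
        ?_
      · rintro a ha b rfl
        simp only [Set.mem_ofPred_eq, D.hadd, D.ht] at *; omega
      · intro a ha b hb
        simp only [Set.mem_ofPred_eq, D.hadd] at *; omega
      · intro g hg
        simp only [Set.mem_ofPred_eq] at *; omega
    · intro h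
      have h1 : VSup {g | 1 ≤ D.dg g} (D.vec v ᵥ* E) := by
        intro i g hg
        have e1 := vsup_vecMul (U := {g | 0 ≤ D.dg g}) (D.vec_sup v) hEs (fun a ha b hb => by
          simp only [Set.mem_ofPred_eq, D.hadd] at *; omega) i g hg
        have e2 := congrArg (fun x => x.coeff g) (congrFun h i)
        simp only [prv, coeff_pr, Set.mem_ofPred_eq, Pi.zero_apply, MonoidAlgebra.coeff_zero,
          Finsupp.coe_zero, ite_eq_right_iff] at e1 e2 ⊢
        by_contra h3
        exact hg (e2 (by omega))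
      refine ⟨⟨D.vec v ᵥ* (1 - E + E * sc J D.t⁻¹), ?_⟩, D.vec_injective ?_⟩
      · change VSup _ (D.vec v ᵥ* (1 - E + E * sc J D.t⁻¹))
        rw [vecMul_add, vecMul_sub, vecMul_one, ← vecMul_vecMul]
        intro i
        refine ((D.vec_sup v i).sub ((h1 i).mono fun g hg => ?_)).add
          (vsup_vecMul h1 (msup_map_single (S := {D.t⁻¹}) rfl _) ?_ i)
        · simp only [Set.mem_ofPred_eq] at *; omega
        · rintro a ha b rfl
          simp only [Set.mem_ofPred_eq, D.hadd, dg_inv D.dg D.hadd, D.ht] at *; omega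
      · rw [vec_mulP]
        change D.vec v ᵥ* (1 - E + E * sc J D.t⁻¹) ᵥ* _ = _
        have hc' : ∀ x, D.t⁻¹ * x = x * D.t⁻¹ := fun x => by
          rw [inv_mul_eq_iff_eq_mul, ← mul_assoc, D.hc, mul_inv_cancel_right]
        have e1 : E * sc J D.t⁻¹ * E = E * sc J D.t⁻¹ := by
          rw [mul_assoc, sc_comm hc', ← mul_assoc, hEE]
        have e2 : (1 - E + E * sc J D.t⁻¹) * (1 - E + E * sc J D.t) = 1 := by
          simp only [mul_add, add_mul, mul_sub, sub_mul, one_mul, mul_one, ← mul_assoc, e1, hEE]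
          rw [mul_assoc E, sc_mul, inv_mul_cancel, sc_one, mul_one]
          abel
        rw [vecMul_vecMul, ← hE, e2, vecMul_one]
  exact ⟨(Submodule.quotEquivOfEq _ _ hk).trans (p.quotKerEquivOfSurjective hp)⟩

variable (R N) in
/-- The constants. -/
noncomputable abbrev ρ : R →+* MonoidAlgebra R N := MonoidAlgebra.singleOneRingHom

/-- The cokernel is induced. -/
def Z0 (A : Matrix J J (MonoidAlgebra R G)) : Prop :=
  ∃ hA : MSup {g | 0 ≤ D.dg g} A, Ind (ρ R N) (D.Cok A hA)

lemma Z0.mul {A B : Matrix J J (MonoidAlgebra R G)} (hA : D.Z0 A) (hB : D.Z0 B)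
    (hu : IsUnit B) : D.Z0 (A * B) := by
  obtain ⟨hA, iA⟩ := hA
  obtain ⟨hB, iB⟩ := hB
  obtain ⟨a, b, h1, h2, h3⟩ := exists_ses (D.mulP A hA) (D.mulP B hB) (D.mulP_injective hB hu)
  refine ⟨D.msup_mul hA hB, ?_⟩
  unfold Cok
  rw [D.mulP_mul hA hB]
  exact Ind.ext h1 h2 h3 iA iB

lemma z0_of_inv {A B : Matrix J J (MonoidAlgebra R G)} (hA : MSup {g | 0 ≤ D.dg g} A)
    (hB : MSup {g | 0 ≤ D.dg g} B) (h : B * A = 1) : D.Z0 A := by
  refine ⟨hA, Empty, inferInstance, 0, 0, by simp, fun x => ⟨0, ?_⟩, fun v => ?_⟩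
  · obtain ⟨x, rfl⟩ := Submodule.Quotient.mk_surjective _ x
    rw [LinearMap.zero_apply, eq_comm, Submodule.Quotient.mk_eq_zero]
    exact ⟨D.mulP B hB x, D.vec_injective (by rw [vec_mulP, vec_mulP, vecMul_vecMul, h,
      vecMul_one])⟩
  · simp [Subsingleton.elim (v ᵥ* _) 0]

lemma z0_idem (e : Matrix J J R) (he : e * e = e) :
    D.Z0 (1 - e.map (MonoidAlgebra.single (1 : G)) + e.map (MonoidAlgebra.single D.t)) := by
  have h1 : (e.map (ρ R N)).map (D.φ R) = e.map (MonoidAlgebra.single (1 : G)) := by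
    ext1 i j; simp
  obtain ⟨i⟩ := D.basic (ε := e.map (ρ R N)) (by rw [← Matrix.map_mul, he])
  have h2 : e.map (MonoidAlgebra.single D.t) = (e.map (ρ R N)).map (D.φ R) * sc J D.t := by
    rw [h1, map_single_mul, mul_one, one_mul]
  rw [h2, ← h1]
  exact ⟨_, (ind_range e he).iso i.symm⟩

/-- The cokernel is induced after multiplying by a power of `t`. -/
def Z (A : Matrix J J (MonoidAlgebra R G)) : Prop := ∃ k : ℕ, D.Z0 (A * sc J (D.t ^ k))

lemma Z0.z {A : Matrix J J (MonoidAlgebra R G)} (h : D.Z0 A) : D.Z A :=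
  ⟨0, by rwa [pow_zero, sc, map_single_one_one, mul_one]⟩

lemma hc_pow (k : ℕ) (x : G) : D.t ^ k * x = x * D.t ^ k :=
  (Commute.pow_left (D.hc x) k).eq

lemma Z.mul {A B : Matrix J J (MonoidAlgebra R G)} (hA : D.Z A) (hB : D.Z B)
    (hu : IsUnit B) : D.Z (A * B) := by
  obtain ⟨k, hk⟩ := hA
  obtain ⟨l, hl⟩ := hB
  refine ⟨k + l, ?_⟩
  have := hk.mul D hl (hu.mul (T_scalar _).isUnit)
  rwa [mul_assoc, ← mul_assoc _ B, sc_comm (D.hc_pow k), mul_assoc, sc_mul, ← pow_add,
    ← mul_assoc] at this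

lemma z_idem_zpow (e : Matrix J J R) (he : e * e = e) (n : ℤ) :
    D.Z (1 - e.map (MonoidAlgebra.single (1 : G)) + e.map (MonoidAlgebra.single (D.t ^ n))) := by
  induction n using Int.induction_on with
  | zero =>
    rw [zpow_zero, sub_add_cancel]
    have := msup_one (R := R) (I := J) (S := {g | 0 ≤ D.dg g}) (by simp [dg_one D.dg D.hadd])
    exact (D.z0_of_inv this this (one_mul _)).z
  | succ n ih =>
    rw [_root_.zpow_add_one, ← idem_mul e he]
    exact ih.mul D (D.z0_idem e he).z (T_gen (Gen.idem e he _)).isUnit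
  | pred n ih =>
    rw [_root_.zpow_sub_one, ← idem_mul e he]
    refine ih.mul D ⟨1, ?_⟩ (T_gen (Gen.idem e he _)).isUnit
    have := D.z0_idem (1 - e) (by simp [sub_mul, mul_sub, he])
    convert this using 1
    rw [pow_one, add_mul, sub_mul, one_mul, map_single_mul, map_single_mul, map_single_sub,
      map_single_sub, map_single_one_one]
    simp only [mul_one, one_mul, inv_mul_cancel]
    abel

lemma decomp (g : G) : ∃ (x : G) (n : ℤ), D.dg x = 0 ∧ g = x * D.t ^ n := by
  refine ⟨g * D.t ^ (-D.dg g), D.dg g, ?_, by group⟩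
  have : ∀ n : ℤ, D.dg (D.t ^ n) = n := by
    intro n
    induction n using Int.induction_on with
    | zero => simpa using dg_one D.dg D.hadd
    | succ n ih => rw [_root_.zpow_add_one, D.hadd, ih, D.ht]
    | pred n ih => rw [_root_.zpow_sub_one, D.hadd, ih, dg_inv D.dg D.hadd, D.ht]; ring
  rw [D.hadd, this]; ring

lemma z_gen {A : Matrix J J (MonoidAlgebra R G)} (h : Gen R G J A) : D.Z A := by
  have h00 : (1 : G) ∈ {g | 0 ≤ D.dg g} := by simp [dg_one D.dg D.hadd]
  cases h with
  | elem i j hij c =>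
    have key : ∀ c d : MonoidAlgebra R G,
        (1 + single i j c) * (1 + single i j d) = (1 + single i j (c + d) : Matrix J J _) := by
      intro c d
      simp only [mul_add, add_mul, one_mul, mul_one, single_mul_single_of_ne _ _ _ _ hij.symm,
        add_zero, single_add, add_assoc]
    induction c using MonoidAlgebra.induction_linear with
    | zero =>
      rw [single_zero, add_zero]
      exact (D.z0_of_inv (msup_one h00) (msup_one h00) (one_mul _)).z
    | add a b ha hb =>
      rw [← key]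
      exact ha.mul D hb (T_gen (Gen.elem i j hij b)).isUnit
    | single g r =>
      obtain ⟨x, n, hx, rfl⟩ := D.decomp g
      have hs : ∀ c : MonoidAlgebra R G, Sup {g | 0 ≤ D.dg g} c →
          MSup {g | 0 ≤ D.dg g} (1 + single i j c : Matrix J J _) := by
        intro c hc
        refine (msup_one h00).add fun a b => ?_
        rw [Matrix.single_apply]
        split_ifs
        exacts [hc, sup_zero _]
      have hx' : Sup {g | 0 ≤ D.dg g} (MonoidAlgebra.single x r) :=
        sup_single (S := {g | 0 ≤ D.dg g}) (le_of_eq hx.symm) r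
      have z1 := (D.z0_of_inv (hs _ hx') (hs _ hx'.neg) (by rw [key]; simp)).z
      have hE : (single j j (1 : R) : Matrix J J R) * single j j 1 = single j j 1 := by simp
      have z2 := (D.z_idem_zpow _ hE (-n)).mul D (z1.mul D (D.z_idem_zpow _ hE n)
        (T_gen (Gen.idem _ hE _)).isUnit)
        ((T_gen (Gen.elem i j hij _)).isUnit.mul (T_gen (Gen.idem _ hE _)).isUnit)
      convert z2 using 1
      rw [add_mul 1, one_mul, mul_add _ _ (single i j _ * _), idem_mul _ hE, ← _root_.zpow_add,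
        neg_add_cancel, zpow_zero, sub_add_cancel]
      congr 1
      have hm : ∀ g : G, (single j j (1 : R) : Matrix J J R).map (MonoidAlgebra.single g) =
          single j j (MonoidAlgebra.single g 1) :=
        fun g => Matrix.map_single _ _ _ (MonoidAlgebra.singleAddHom g)
      simp only [hm, mul_add, add_mul, mul_sub, sub_mul, one_mul, mul_one, single_mul_single_same,
        single_mul_single_of_ne _ _ _ _ hij.symm, MonoidAlgebra.single_mul_single]
      simp
  | base U V hUV hVU =>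
    exact (D.z0_of_inv (msup_map_single h00 U) (msup_map_single h00 V)
      (by rw [map_single_mul, hVU, mul_one, map_single_one_one])).z
  | idem e he g =>
    obtain ⟨x, n, hx, rfl⟩ := D.decomp g
    rw [← idem_mul e he]
    have hs : ∀ y : G, D.dg y = 0 → MSup {g | 0 ≤ D.dg g}
        (1 - e.map (MonoidAlgebra.single (1 : G)) + e.map (MonoidAlgebra.single y)) :=
      fun y hy => ((msup_one h00).sub (msup_map_single h00 e)).add
        (msup_map_single (S := {g | 0 ≤ D.dg g}) (le_of_eq hy.symm) e)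
    refine (D.z0_of_inv (hs x hx) (hs x⁻¹ (by rw [dg_inv D.dg D.hadd, hx, neg_zero])) ?_).z.mul D
      (D.z_idem_zpow e he n) (T_gen (Gen.idem e he _)).isUnit
    rw [idem_mul e he, inv_mul_cancel, sub_add_cancel]

lemma z_of_mem {A : Matrix J J (MonoidAlgebra R G)} (h : A ∈ HG R G J) : D.Z A := by
  induction h using Submonoid.closure_induction with
  | mem x hx => exact D.z_gen hx
  | one =>
    have := msup_one (R := R) (I := J) (S := {g | 0 ≤ D.dg g}) (by simp [dg_one D.dg D.hadd])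
    exact (D.z0_of_inv this this (one_mul _)).z
  | mul x y _ hy ihx ihy => exact ihx.mul D ihy (T_of_mem hy).isUnit

lemma stInd_of_z {A : Matrix J J (MonoidAlgebra R G)} (hA : MSup {g | 0 ≤ D.dg g} A)
    (h : D.Z A) : StInd (ρ R N) (D.Cok A hA) := by
  obtain ⟨k, hk, h'⟩ := h
  have h := h'.stInd
  clear h'
  have hτ : (sc J D.t : Matrix J J (MonoidAlgebra R G)) =
      1 - (1 : Matrix J J (MonoidAlgebra R N)).map (D.φ R) +
        (1 : Matrix J J (MonoidAlgebra R N)).map (D.φ R) * sc J D.t := by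
    rw [Matrix.map_one _ (map_zero _) (map_one _)]; simp
  have hτs : MSup {g | 0 ≤ D.dg g} (sc J D.t : Matrix J J (MonoidAlgebra R G)) :=
    msup_map_single (by simp [D.ht]) _
  have hfree : Nonempty (D.Cok _ hτs ≃ₗ[MonoidAlgebra R N] (J → MonoidAlgebra R N)) := by
    obtain ⟨i⟩ := D.basic (ε := (1 : Matrix J J (MonoidAlgebra R N))) (one_mul _)
    have e1 : LinearMap.range (1 : Matrix J J (MonoidAlgebra R N)).vecMulLinear = ⊤ := by
      rw [LinearMap.range_eq_top]
      intro v; exact ⟨v, by simp⟩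
    have e2 : LinearMap.range (D.mulP _ hτs) =
        LinearMap.range (D.mulP _ (D.msup_basic (ε := (1 : Matrix J J (MonoidAlgebra R N))))) := by
      congr 2
    exact ⟨(Submodule.quotEquivOfEq _ _ e2).trans (i.trans
      ((LinearEquiv.ofEq _ _ e1).trans Submodule.topEquiv))⟩
  obtain ⟨fr⟩ := hfree
  induction k with
  | zero =>
    have e : A * sc J (D.t ^ 0) = A := by rw [pow_zero, sc, map_single_one_one, mul_one]
    have e2 : LinearMap.range (D.mulP _ hk) = LinearMap.range (D.mulP _ hA) := by congr 2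
    exact h.iso (Submodule.quotEquivOfEq _ _ e2)
  | succ k ih =>
    have hk' : MSup {g | 0 ≤ D.dg g} (A * sc J (D.t ^ k)) :=
      D.msup_mul hA (msup_map_single (by simp [dg_pow D.dg D.hadd, D.ht]) _)
    apply ih hk'
    obtain ⟨a, b, h1, h2, h3⟩ := exists_ses (D.mulP _ hk') (D.mulP _ hτs)
      (D.mulP_injective hτs (T_scalar (R := R) _).isUnit)
    refine StInd.of_ses (ρ := ρ R N) h1 h2 h3 fr ?_
    rw [← D.mulP_mul hk' hτs]
    have e : A * sc J (D.t ^ (k + 1)) = A * sc J (D.t ^ k) * sc J D.t := by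
      rw [mul_assoc, sc_mul (R := R), pow_succ]
    have e2 : LinearMap.range (D.mulP _ hk) =
        LinearMap.range (D.mulP _ (D.msup_mul hk' hτs)) := by congr 2
    exact h.iso (Submodule.quotEquivOfEq _ _ e2)

include D in
/-- The argument of Bass. -/
theorem bass (h : G1 R G) : G0 R N := by
  intro J _ _ ε hε
  have hc' : ∀ x, D.t⁻¹ * x = x * D.t⁻¹ := fun x => by
    rw [inv_mul_eq_iff_eq_mul, ← mul_assoc, D.hc, mul_inv_cancel_right]
  set E := ε.map (D.φ R) with hE
  have hEE : E * E = E := by rw [hE, ← Matrix.map_mul, hε]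
  have key : ∀ a b : G, (∀ x, a * x = x * a) → a * b = 1 →
      (1 - E + E * sc J a) * (1 - E + E * sc J b) = 1 := by
    intro a b ha hab
    have e1 : E * sc J a * E = E * sc J a := by rw [mul_assoc, sc_comm ha, ← mul_assoc, hEE]
    simp only [mul_add, add_mul, mul_sub, sub_mul, one_mul, mul_one, ← mul_assoc, e1, hEE]
    rw [mul_assoc E, sc_mul, hab, sc_one, mul_one]
    abel
  obtain ⟨ι, _, _, hM⟩ := h J _ _ (key _ _ D.hc (mul_inv_cancel _)) (key _ _ hc' (inv_mul_cancel _))
  set ε1 : Matrix (J ⊕ ι) (J ⊕ ι) (MonoidAlgebra R N) := fromBlocks ε 0 0 0 with hε1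
  have hε11 : ε1 * ε1 = ε1 := by simp [hε1, fromBlocks_multiply, hε]
  have hM' : fromBlocks (1 - E + E * sc J D.t) 0 0 (1 : Matrix ι ι _) =
      1 - ε1.map (D.φ R) + ε1.map (D.φ R) * sc (J ⊕ ι) D.t := by
    have : (sc (J ⊕ ι) D.t : Matrix _ _ (MonoidAlgebra R G)) =
        fromBlocks (sc J D.t) 0 0 (sc ι D.t) := by
      rw [sc, ← fromBlocks_one, fromBlocks_map, map_single_zero, map_single_zero]
    rw [this, hε1, fromBlocks_map, ← hE, ← fromBlocks_one (l := J) (m := ι), sub_eq_add_neg,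
      sub_eq_add_neg, fromBlocks_multiply, fromBlocks_neg, fromBlocks_add, fromBlocks_add]
    simp
  rw [hM'] at hM
  obtain ⟨i⟩ := D.basic hε11
  obtain ⟨a, m, _, _, _, e, X, Y, he, h1, h2⟩ :=
    ((D.stInd_of_z _ (D.z_of_mem hM)).iso i).idem ε1 hε11
  classical
  let s : J ⊕ a → (J ⊕ ι) ⊕ a := Sum.map Sum.inl id
  have hX : ∀ (k : ι) (c : m), (X * Y * X) (Sum.inl (Sum.inr k)) c = 0 := by
    intro k c
    rw [h1]
    simp [Matrix.mul_apply, hε1]
  refine ⟨a, inferInstance, inferInstance, m, inferInstance, inferInstance, e,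
    (X * Y * X).submatrix s id, Y.submatrix id s, he, ?_, ?_⟩
  · have : (X * Y * X).submatrix s id * Y.submatrix id s = (X * Y * X * Y).submatrix s s :=
      (submatrix_mul _ _ s id s bijective_id).symm
    rw [this, Matrix.mul_assoc, h1]
    simp only [fromBlocks_multiply, Matrix.mul_zero, Matrix.zero_mul, add_zero, zero_add,
      Matrix.mul_one, hε11]
    ext1 x y
    rcases x with x | x <;> rcases y with y | y <;> simp [s, hε1]
  · have e1 : Y * (X * Y * X) = e.map (MonoidAlgebra.single 1) := by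
      rw [← Matrix.mul_assoc, ← Matrix.mul_assoc, h2, Matrix.mul_assoc, h2, ← Matrix.map_mul, he]
      rfl
    rw [← e1]
    ext1 x y
    simp only [Matrix.mul_apply (M := Y), Matrix.mul_apply (M := Y.submatrix id s),
      Fintype.sum_sum_type, submatrix_apply, s, Sum.map_inl, Sum.map_inr, id, hX, mul_zero,
      Finset.sum_const_zero, add_zero]

end Laur

/-- `K_0` of `N` from `K_1` of `N × ℤ`. -/
theorem G0_of_G1_prod (h : G1 R (N × Multiplicative ℤ)) : G0 R N :=
  Laur.bass
    { f := MonoidHom.inl N (Multiplicative ℤ)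
      hf := fun _ _ h => congrArg Prod.fst h
      dg := fun g => g.2.toAdd
      hadd := fun _ _ => rfl
      hr := fun g => ⟨by rintro ⟨n, rfl⟩; rfl, fun h => ⟨g.1, Prod.ext rfl h.symm⟩⟩
      t := (1, Multiplicative.ofAdd 1)
      ht := rfl
      hc := fun g => Prod.ext (by simp) (mul_comm _ _) } h

end Pool.Agent.MP_f7db47_al

end

section

/-!
Assembly: the class `D` satisfies the low degree statements.
-/

set_option linter.unusedSectionVars false

namespace Pool.Agent.MP_f7db47_al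

open Function

universe u v

lemma polyZ_of_injective {G : Type u} [Group G] (hG : PolyZ G) :
    ∀ (H : Type u) [Group H] (f : H →* G), Injective f → PolyZ H := by
  induction hG with
  | triv G h => exact fun H _ f hf => PolyZ.triv H hf.subsingleton
  | ext G h _ ih =>
    intro H _ f hf
    refine PolyZ.ext H (h.comp f) (ih _ ((f.comp (h.comp f).ker.subtype).codRestrict h.ker
      fun x => x.2) fun x y hxy => Subtype.ext (hf (congrArg Subtype.val hxy)))

lemma polyZ_prod {G H : Type u} [Group G] [Group H] (hG : PolyZ G) (hH : PolyZ H) :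
    PolyZ (G × H) := by
  induction hH with
  | triv H h =>
    exact polyZ_of_injective hG _ (MonoidHom.fst G H)
      fun x y hxy => Prod.ext hxy (Subsingleton.elim _ _)
  | ext H h _ ih =>
    refine PolyZ.ext _ (h.comp (MonoidHom.snd G H)) (polyZ_of_injective ih _
      (((MonoidHom.fst G H).comp (Subgroup.subtype _)).prod
        (((MonoidHom.snd G H).comp (Subgroup.subtype _)).codRestrict h.ker fun x => x.2)) ?_)
    intro x y hxy
    exact Subtype.ext (Prod.ext (congrArg (fun z => z.1) hxy)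
      (congrArg (fun z => (z.2 : H)) hxy))

lemma polyZ_int : PolyZ (PUnit.{u + 1} × Multiplicative ℤ) := by
  refine PolyZ.ext _ (MonoidHom.snd _ _) (PolyZ.triv _ ⟨fun x y => Subtype.ext ?_⟩)
  exact Prod.ext rfl (x.2.trans y.2.symm)

variable {R : Type v} [Ring R]

lemma G1_of_subsingleton (G : Type u) [Group G] [Subsingleton G] : G1 R G := by
  intro J _ _ A B h1 h2
  let e : MonoidAlgebra R G ≃+* R := MonoidAlgebra.uniqueRingEquiv G
  have he : ∀ x, MonoidAlgebra.single (1 : G) (e x) = x := fun x => by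
    rw [← MonoidAlgebra.uniqueRingEquiv_symm_apply]; exact e.symm_apply_apply x
  have : A = (A.map e).map (MonoidAlgebra.single (1 : G)) := by
    ext1 i j; exact (he _).symm
  rw [this]
  refine T_gen (Gen.base _ (B.map e) ?_ ?_)
  · rw [← Matrix.map_mul, h1, Matrix.map_one _ (map_zero _) (map_one _)]
  · rw [← Matrix.map_mul, h2, Matrix.map_one _ (map_zero _) (map_one _)]

lemma polyZ_G1 (hR : RegularRing R) {G : Type u} [Group G] (hG : PolyZ G) : G1 R G := by
  induction hG with
  | triv G h => exact G1_of_subsingleton G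
  | ext G h hk ih =>
    exact zext h ih (polyZ_base hR hk).2
      fun J _ _ ν _ _ _ hn => (polyZ_base hR (PolyZ.ext G h hk)).1 J ν hn

lemma G1_local {G : Type u} [Group G]
    (h : ∀ Φ : Finset G, ∃ K : Subgroup G, (Φ : Set G) ⊆ K ∧ G1 R K) : G1 R G := by
  rw [G1_iff]
  intro J _ _ A hA
  obtain ⟨s, hs, -⟩ := exists_finset_msup A
  obtain ⟨K, hK, h⟩ := h s
  exact T_of_isUnit_msup K h (hs.mono hK) hA

variable (R) in
/-- All subgroups of products with poly-`ℤ` groups satisfy `G1`. -/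
def QQ (Γ : Type u) [Group Γ] : Prop :=
  ∀ (P : Type u) [Group P], PolyZ P → ∀ (Δ : Type u) [Group Δ] (f : Δ →* Γ × P),
    Injective f → G1 R Δ

section QQ

variable {Γ Γ' : Type u} [Group Γ] [Group Γ']

lemma QQ.sub (h : QQ R Γ) (f : Γ' →* Γ) (hf : Injective f) : QQ R Γ' := fun P _ hP Δ _ g hg =>
  h P hP Δ ((f.prodMap (MonoidHom.id P)).comp g) ((hf.prodMap injective_id).comp hg)

lemma QQ.g1 (h : QQ R Γ) : G1 R Γ :=
  h PUnit (PolyZ.triv _ inferInstance) Γ (MonoidHom.inl _ _) fun _ _ h => congrArg Prod.fst h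

lemma QQ.g0 (h : QQ R Γ) : G0 R Γ :=
  G0_of_G1_prod (h _ polyZ_int _ ((MonoidHom.id Γ).prodMap (MonoidHom.inr _ _))
    (injective_id.prodMap fun _ _ h => congrArg Prod.snd h))

lemma QQ.prod_poly (h : QQ R Γ) (hP : PolyZ Γ') : QQ R (Γ × Γ') := fun P _ hP' Δ _ g hg =>
  h (Γ' × P) (polyZ_prod hP hP') Δ
    ((MulEquiv.prodAssoc (M := Γ) (N := Γ') (P := P)).toMonoidHom.comp g)
    ((MulEquiv.prodAssoc (M := Γ) (N := Γ') (P := P)).injective.comp hg)

lemma qq_punit (hR : RegularRing R) : QQ R PUnit.{u + 1} := fun _ _ hP _ _ f hf =>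
  polyZ_G1 hR (polyZ_of_injective (polyZ_prod (PolyZ.triv _ inferInstance) hP) _ f hf)

end QQ

variable (R) in
/-- The inductive property. -/
def PS (G : Type u) [Group G] : Prop := ∀ (Γ : Type u) [Group Γ], QQ R Γ → QQ R (Γ × G)

lemma qq_of_le {Γ G P Δ : Type u} [Group Γ] [Group G] [Group P] [Group Δ] (hΓ : QQ R Γ)
    (hP : PolyZ P) (f : Δ →* (Γ × G) × P) (hf : Injective f) (K₀ : Subgroup G) (hK₀ : PS R K₀)
    (K : Subgroup Δ) (hK : ∀ x ∈ K, (f x).1.2 ∈ K₀) : QQ R K := by
  refine ((hK₀ Γ hΓ).prod_poly hP).sub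
    ((((MonoidHom.fst _ _).comp ((MonoidHom.fst _ _).comp (f.comp K.subtype))).prod
      (((MonoidHom.snd _ _).comp ((MonoidHom.fst _ _).comp (f.comp K.subtype))).codRestrict K₀
        fun x => hK x x.2)).prod ((MonoidHom.snd _ _).comp (f.comp K.subtype))) ?_
  intro x y hxy
  exact Subtype.ext (hf (Prod.ext (Prod.ext (congrArg (fun z => z.1.1) hxy)
    (congrArg (fun z => (z.1.2 : G)) hxy)) (congrArg (fun z => z.2) hxy)))

lemma fg_closure_image {G Δ : Type u} [Group G] (p : Δ → G) (Φ : Finset Δ) :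
    (Subgroup.closure (p '' Φ)).FG :=
  (Subgroup.fg_iff _).2 ⟨_, rfl, (Finset.finite_toSet Φ).image p⟩

theorem ClassD.ps {G : Type u} [Group G] (hG : ClassD G) : PS R G := by
  induction hG with
  | poly G h => exact fun Γ _ hΓ => hΓ.prod_poly h
  | sub G H f hf _ ih =>
    exact fun Γ _ hΓ => (ih Γ hΓ).sub ((MonoidHom.id Γ).prodMap f) (injective_id.prodMap hf)
  | prod G H _ _ ihG ihH =>
    exact fun Γ _ hΓ => (ihH _ (ihG Γ hΓ)).sub
      (MulEquiv.prodAssoc (M := Γ) (N := G) (P := H)).symm.toMonoidHom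
      (MulEquiv.prodAssoc (M := Γ) (N := G) (P := H)).symm.injective
  | loc G _ ih =>
    intro Γ _ hΓ P _ hP Δ _ f hf
    let p : Δ →* G := (MonoidHom.snd _ _).comp ((MonoidHom.fst _ _).comp f)
    refine G1_local fun Φ => ⟨(Subgroup.closure (p '' Φ)).comap p,
      fun x hx => Subgroup.subset_closure ⟨x, hx, rfl⟩, ?_⟩
    exact (qq_of_le hΓ hP f hf _ (ih _ (fg_closure_image p Φ)) _ fun x hx => hx).g1
  | ext G h _ ι K r hr hK hcover term _ hstep ihker ihterm =>
    intro Γ _ hΓ P _ hP Δ _ f hf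
    let p : Δ →* G := (MonoidHom.snd _ _).comp ((MonoidHom.fst _ _).comp f)
    have hq : QQ R (h.comp p).ker := qq_of_le hΓ hP f hf _ ihker _ fun x hx => hx
    have tame : ∀ (dg : Δ → ℤ), (∀ a b, dg (a * b) = dg a + dg b) →
        (∀ g, g ∈ (h.comp p).ker ↔ dg g = 0) → ∀ i, TameS R dg ((K i).comap p) := by
      intro dg hadd hdg i
      induction i using hr.induction with
      | _ i ih =>
      refine tameS_step dg hadd (fun k hk => (hdg k).1 (hK i hk)) fun x hx => ?_
      have hx' : p x ∉ h.ker := fun h0 => by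
        have := (hdg x).1 h0
        omega
      rcases hstep i (p x) hx' with h1 | h1 | h1
      · refine Or.inl (qq_of_le hΓ hP f hf _ (ihterm i _ h1) _ ?_).g1
        have : (K i).comap p ⊔ Subgroup.zpowers x ≤ (K i ⊔ Subgroup.zpowers (p x)).comap p := by
          refine sup_le (Subgroup.comap_mono le_sup_left) ?_
          rw [Subgroup.zpowers_le]
          exact Subgroup.mem_sup_right (Subgroup.mem_zpowers _)
        exact fun y hy => this hy
      · refine Or.inr ⟨1, x, one_mul x, fun Φ hΦ => ?_⟩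
        obtain ⟨j, hj, hM⟩ := h1 _ (fg_closure_image p Φ) (by
          rw [Subgroup.closure_le]
          rintro _ ⟨y, hy, rfl⟩
          obtain ⟨e1, e2⟩ := hΦ hy
          exact ⟨by simpa using e1, p (x⁻¹ * y * x), e2, by simp [mul_assoc]⟩)
        exact ⟨_, fun y hy => hM (Subgroup.subset_closure ⟨y, hy, rfl⟩), ih j hj⟩
      · refine Or.inr ⟨x, 1, mul_one x, fun Φ hΦ => ?_⟩
        obtain ⟨j, hj, hM⟩ := h1 _ (fg_closure_image p Φ) (by
          rw [Subgroup.closure_le]
          rintro _ ⟨y, hy, rfl⟩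
          obtain ⟨e1, e2⟩ := hΦ hy
          exact ⟨by simpa using e2, p (x * y * x⁻¹), e1, by simp [mul_assoc]⟩)
        exact ⟨_, fun y hy => hM (Subgroup.subset_closure ⟨y, hy, rfl⟩), ih j hj⟩
    have cover : ∀ Φ : Finset Δ, (Φ : Set Δ) ⊆ (h.comp p).ker →
        ∃ i, (Φ : Set Δ) ⊆ (K i).comap p := by
      intro Φ hΦ
      obtain ⟨i, hi⟩ := hcover _ (fg_closure_image p Φ) (by
        rw [Subgroup.closure_le]
        rintro _ ⟨y, hy, rfl⟩
        exact hΦ hy)
      exact ⟨i, fun y hy => hi (Subgroup.subset_closure ⟨y, hy, rfl⟩)⟩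
    refine zext (h.comp p) hq.g1 hq.g0 fun J _ _ ν d hd hν hn => ?_
    rcases lt_or_gt_of_ne hd with hd | hd
    · have hadd : ∀ a b, -dgOf (h.comp p) (a * b) =
          -dgOf (h.comp p) a + -dgOf (h.comp p) b := fun a b => by rw [dgOf_mul]; ring
      have hdg : ∀ g, g ∈ (h.comp p).ker ↔ -dgOf (h.comp p) g = 0 := fun g => by
        rw [mem_ker_iff_dgOf, neg_eq_zero]
      refine nil_of_tame (fun g => -dgOf (h.comp p) g) hadd _ hdg (fun Φ hΦ => ?_)
        (d := -d) (by omega) (hν.mono fun g hg => ?_) hn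
      · obtain ⟨i, hi⟩ := cover Φ hΦ
        exact ⟨_, hi, tame _ hadd hdg i⟩
      · simp only [Set.mem_ofPred_eq] at hg ⊢
        rw [hg]
    · refine nil_of_tame _ (dgOf_mul _) _ (mem_ker_iff_dgOf _) (fun Φ hΦ => ?_) hd hν hn
      obtain ⟨i, hi⟩ := cover Φ hΦ
      exact ⟨_, hi, tame _ (dgOf_mul _) (mem_ker_iff_dgOf _) i⟩

theorem ClassD.qq (hR : RegularRing R) {G : Type u} [Group G] (hG : ClassD G) : QQ R G :=
  (hG.ps _ (qq_punit hR)).sub (MonoidHom.inr _ _) fun _ _ h => congrArg Prod.snd h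

theorem ClassD.k1Onto (hR : RegularRing R) {G : Type u} [Group G] (hG : ClassD G) :
    K1Onto R G := k1Onto_of_G1 (hG.qq hR).g1

theorem ClassD.k0Onto (hR : RegularRing R) {G : Type u} [Group G] (hG : ClassD G) :
    K0Onto R G := k0Onto_of_G0 (hG.qq hR).g0

end Pool.Agent.MP_f7db47_al

end
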