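import Pool.Agent.Mg.Ff7db47.Ge4b163
import Pool.Agent.Mg.Ff7db47.G42fc5e

section

/-!
The linear case of the splitting theorem for trees.
-/

set_option linter.unusedSectionVars false

namespace Pool.Agent.MP_f7db47_al

open Matrix

universe u v w

namespace TB

variable {R : Type v} [Ring R] {G : Type u} [Group G] {V : Type w} [MulAction G V] (D : TB G V)

variable (R) in
/-- A linear invertible matrix together with its inverse. -/
structure Lin (J : Type) [Fintype J] [DecidableEq J] where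
  e : J → D.E
  z : J → V
  Θ : Bool → Matrix J J (MonoidAlgebra R G)
  Γ : Matrix J J (MonoidAlgebra R G)
  hΘ : ∀ s, MSup2 (fun i j => {x | x • z j = D.ep (e i) s}) (Θ s)
  hΘΓ : ∀ s, (Θ s + Θ (!s)) * Γ = 1
  hΓΘ : ∀ s, Γ * (Θ s + Θ (!s)) = 1

namespace Lin

variable {D} {J : Type} [Fintype J] [DecidableEq J] (L : D.Lin R J)

/-- The idempotents. -/
noncomputable def p (s : Bool) : Matrix J J (MonoidAlgebra R G) := mpr2 (D.Same L.e) (L.Θ s * L.Γ)

/-- Adjacent edges. -/
def Sb (s s' : Bool) : J → J → Set G :=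
  fun i i' => {g | g • D.ep (L.e i') (!s') = D.ep (L.e i) s ∧ g ∉ D.Same L.e i i'}

/-- The nilpotent parts. -/
noncomputable def n (s s' : Bool) : Matrix J J (MonoidAlgebra R G) :=
  -mpr2 (L.Sb s s') (L.Θ s * L.Γ)

/-- The adjacent part of the inverse. -/
noncomputable def U (s : Bool) : Matrix J J (MonoidAlgebra R G) :=
  mpr2 (fun j i => {g | g • D.ep (L.e i) s = L.z j}) L.Γ

lemma msup_p (s : Bool) : MSup2 (D.Same L.e) (L.p s) := msup2_mpr2 _ _

lemma M_add (s : Bool) : L.Θ s * L.Γ + L.Θ (!s) * L.Γ = 1 := by rw [← add_mul, L.hΘΓ]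

lemma p_add (s : Bool) : L.p s + L.p (!s) = 1 := by
  rw [p, p, ← mpr2_add, L.M_add, same_one.mpr2_eq]

lemma row_mul (A B : Matrix J J (MonoidAlgebra R G)) (i : J) : (A * B) i = A i ᵥ* B := rfl

lemma row_vecMul (A : Matrix J J (MonoidAlgebra R G)) (s : Bool) (i : J) :
    (A * L.Γ) i ᵥ* (L.Θ s + L.Θ (!s)) = A i := by
  rw [← row_mul, mul_assoc, L.hΓΘ, mul_one]

lemma hyp_row (s s' : Bool) (i : J) (g : G) (τ : D.E) (h : g⁻¹ • D.ep (L.e i) s ∉ D.H τ s') :
    VSup2 (fun j => {x | (g⁻¹ * x) • L.z j ∉ D.H τ s'})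
      ((L.Θ s * L.Γ) i ᵥ* (L.Θ s' + L.Θ (!s'))) := by
  rw [row_vecMul]
  intro j x hx
  have := L.hΘ s i j x hx
  simp only [Set.mem_ofPred_eq] at this ⊢
  rwa [mul_smul, this]

lemma p_mul_M (s : Bool) : L.p s * (L.Θ (!s) * L.Γ) =
    -mpr2 (fun i => D.Ins L.e 1 (L.e i) (!s)) (L.Θ s * L.Γ) := by
  funext i
  rw [row_mul, p, mpr2_row, ← on_one]
  exact lemB L.hΘ (!s) (L.hΘΓ _) _ 1 _ (L.hyp_row s (!s) i 1 _ (by simpa using D.not_mem' _ s))

lemma p_mul_p (s : Bool) : L.p s * L.p (!s) = 0 := by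
  funext i
  rw [row_mul, p, mpr2_row, ← on_one]
  exact lemB0 L.hΘ (!s) (L.hΘΓ _) _ 1 _ (L.hyp_row s (!s) i 1 _ (by simpa using D.not_mem' _ s))

lemma p_idem (s : Bool) : L.p s * L.p s = L.p s := by
  conv_rhs => rw [← mul_one (L.p s), ← L.p_add s, mul_add, p_mul_p, add_zero]

lemma sb_left (s s' : Bool) (i j k : J) :
    ∀ y ∈ D.Same L.e i j, ∀ g, y * g ∈ L.Sb s s' i k ↔ g ∈ L.Sb s s' j k := by
  rintro y ⟨h1, h2⟩ g
  simp only [Sb, Same, Set.mem_ofPred_eq, h1, mul_smul, D.C_eq_iff h2,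
    (D.C _).mul_mem_cancel_left h2]

lemma sat_sb (s s' : Bool) (i : J) : D.Sat L.e (L.Sb s s' i) := by
  rintro j j' x c h hc ⟨h1, h2⟩
  refine ⟨by rw [h, mul_smul, hc, h1], fun h3 => h2 ⟨h.symm.trans h3.1, ?_⟩⟩
  exact ((D.C _).mul_mem_cancel_right ((h.symm.trans h3.1) ▸ hc)).1 h3.2

lemma mpr2_sb_one (s s' : Bool) : mpr2 (L.Sb s s') (1 : Matrix J J (MonoidAlgebra R G)) = 0 :=
  (same_one (D := D) (e := L.e)).mpr2_eq_zero fun _ _ _ h h' => h'.2 h

lemma p_mul_n (s s' : Bool) : L.p s * L.n s s' = 0 := by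
  have e1 : L.p s * (L.Θ s * L.Γ) =
      L.p s + mpr2 (fun i => D.Ins L.e 1 (L.e i) (!s)) (L.Θ s * L.Γ) := by
    rw [← sub_neg_eq_add, ← p_mul_M, eq_sub_iff_add_eq, ← mul_add, M_add, mul_one]
  rw [n, mul_neg, ← mpr2_mul_left _ (L.msup_p s) (L.sb_left s s'), e1, mpr2_add,
    (L.msup_p s).mpr2_eq_zero fun _ _ _ h h' => h'.2 h,
    (msup2_mpr2 _ _).mpr2_eq_zero, add_zero, neg_zero]
  intro i j g h h'
  have := h (!s')
  rw [inv_one, one_mul, h'.1] at this
  exact D.not_mem' _ s this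

lemma p_mul_n' (s s' : Bool) : L.p (!s) * L.n s s' = L.n s s' := by
  conv_rhs => rw [← one_mul (L.n s s'), ← L.p_add s, add_mul, p_mul_n, zero_add]

lemma n_mul_p (s s' : Bool) : L.n s s' * L.p s' = 0 := by
  rw [n, neg_mul, neg_eq_zero]
  funext i
  rw [row_mul, mpr2_row]
  refine (L.sat_sb s s' i).induction (P := fun z => z ᵥ* L.p s' = 0) (zero_vecMul _)
    (fun a b ha hb => by rw [add_vecMul, ha, hb, add_zero]) _ fun j g hg => ?_
  refine lemB0 L.hΘ s' (L.hΘΓ _) _ g _ (L.hyp_row s s' i g _ ?_)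
  rw [← hg.1, inv_smul_smul]; exact D.not_mem _ _

lemma n_mul_p' (s s' : Bool) : L.n s s' * L.p (!s') = L.n s s' := by
  conv_rhs => rw [← mul_one (L.n s s'), ← L.p_add s', mul_add, n_mul_p, zero_add]

lemma U_mul_p (s : Bool) : L.U s * L.p (!s) = 0 := by
  funext j
  rw [row_mul, U, mpr2_row]
  refine Sat.induction (D := D) (e := L.e) (P := fun z => z ᵥ* L.p (!s) = 0) (zero_vecMul _)
    (fun a b ha hb => by rw [add_vecMul, ha, hb, add_zero]) _ ?_ fun i g hg => ?_
  · intro i i' x c h hc hx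
    simp only [Set.mem_ofPred_eq] at hx ⊢
    rw [h, mul_smul, hc, hx]
  · refine lemB0 L.hΘ (!s) (L.hΘΓ _) _ g _ ?_
    rw [← row_mul, L.hΓΘ]
    refine fun j' => (msup2_one (S := fun j j' => {x : G | x • L.z j' = L.z j})
      (fun _ => one_smul _ _) j j').mono fun x hx => ?_
    simp only [Set.mem_ofPred_eq] at hx hg ⊢
    rw [mul_smul, hx, ← hg, inv_smul_smul]
    exact D.not_mem' _ _

lemma U_mul_p' (s : Bool) : L.U s * L.p s = L.U s := by
  conv_rhs => rw [← mul_one (L.U s), ← L.p_add s, mul_add, U_mul_p, add_zero]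

lemma Θ_mul_U (s s' : Bool) : L.Θ s * L.U s' =
    mpr2 (fun i i' => {g | g • D.ep (L.e i') s' = D.ep (L.e i) s}) (L.Θ s * L.Γ) := by
  refine (mpr2_mul_left _ (L.hΘ s) fun i j k y hy g => ?_).symm
  simp only [Set.mem_ofPred_eq] at hy ⊢
  rw [mul_smul, ← hy, smul_left_cancel_iff]

lemma Θ_mul_U_same (s : Bool) : L.Θ s * L.U s = L.p s - L.n s (!s) := by
  rw [Θ_mul_U, p, n, sub_neg_eq_add]
  refine mpr2_union _ (fun i j g => ⟨fun h => ?_, ?_⟩) fun i j g h h' => h'.2 h
  · by_cases h' : g ∈ D.Same L.e i j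
    · exact Or.inl h'
    · exact Or.inr ⟨by rwa [Bool.not_not], h'⟩
  · rintro (⟨h1, h2⟩ | ⟨h, -⟩)
    · rw [Set.mem_ofPred_eq, h1, h2]
    · rwa [Bool.not_not] at h

lemma Θ_mul_U_opp (s : Bool) : L.Θ s * L.U (!s) = -L.n s s := by
  rw [Θ_mul_U, n, neg_neg]
  congr 1
  funext i j
  ext g
  refine ⟨fun h => ⟨h, fun h' => ?_⟩, fun h => h.1⟩
  rw [Set.mem_ofPred_eq, h'.1, h'.2] at h
  simpa using D.ep_inj h

/-- The split part. -/
noncomputable def W : Matrix J J (MonoidAlgebra R G) :=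
  L.p false * L.Θ false + L.p true * L.Θ true

lemma W_eq (s : Bool) : L.W = L.p s * L.Θ s + L.p (!s) * L.Θ (!s) := by
  cases s
  · rfl
  · exact add_comm _ _

lemma U_mul_W : (L.U false + L.U true) * L.W = 1 := by
  have h1 : ∀ s, L.U s * L.W = L.U s * L.Θ s := fun s => by
    rw [L.W_eq s, mul_add, ← mul_assoc, ← mul_assoc, U_mul_p, U_mul_p', zero_mul, add_zero]
  have h2 : ∀ s, mpr2 (fun j j' => {x | x • L.z j' = L.z j}) (L.Γ * L.Θ s) = L.U s * L.Θ s :=
    fun s => mpr2_mul_right _ (L.hΘ s) fun j i j' g y hy => by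
      simp only [Set.mem_ofPred_eq] at hy ⊢
      rw [mul_smul, hy]
  rw [add_mul, h1, h1, ← h2, ← h2, ← mpr2_add, ← mul_add]
  have := L.hΓΘ false
  rw [Bool.not_false] at this
  rw [this]
  exact (msup2_one fun _ => one_smul _ _).mpr2_eq

lemma Θ_mul_UU (s : Bool) :
    L.Θ s * (L.U false + L.U true) = L.p s - (L.n s false + L.n s true) := by
  have h1 := L.Θ_mul_U_same s
  have h2 := L.Θ_mul_U_opp s
  cases s
  · rw [Bool.not_false] at h1 h2
    rw [mul_add, h1, h2]; abel
  · rw [Bool.not_true] at h1 h2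
    rw [mul_add, h1, h2]; abel

lemma W_mul_U : L.W * (L.U false + L.U true) = 1 := by
  rw [W, add_mul, mul_assoc, mul_assoc, Θ_mul_UU, Θ_mul_UU, mul_sub, mul_sub, mul_add, mul_add,
    p_mul_n, p_mul_n, p_mul_n, p_mul_n, p_idem, p_idem]
  simpa using L.p_add false

lemma n_eq (s s' : Bool) : L.n s s' = mpr2 (L.Sb s s') (L.W * L.Γ) := by
  have e1 : L.Θ (!s) * L.Γ = 1 - L.Θ s * L.Γ := by rw [← L.M_add s]; abel
  have e2 : mpr2 (L.Sb s s') (L.Θ s * L.Γ) = -L.n s s' := by rw [n, neg_neg]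
  rw [L.W_eq s, add_mul, mul_assoc, mul_assoc, mpr2_add,
    mpr2_mul_left _ (L.msup_p s) (L.sb_left s s'),
    mpr2_mul_left _ (L.msup_p (!s)) (L.sb_left s s'), e1, mpr2_sub, mpr2_sb_one, e2, mul_neg,
    p_mul_n, zero_sub, neg_neg, p_mul_n', neg_zero, zero_add]

lemma same_X : mpr2 (D.Same L.e) (L.W * L.Γ) = 1 := by
  have h : ∀ s, mpr2 (D.Same L.e) (L.p s * (L.Θ s * L.Γ)) = L.p s := fun s => by
    rw [mpr2_mul_left (S₁ := D.Same L.e) _ (L.msup_p s)]
    · exact L.p_idem s
    · rintro i j k y ⟨h1, h2⟩ g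
      simp only [Same, Set.mem_ofPred_eq, h1, (D.C _).mul_mem_cancel_left h2]
  rw [W, add_mul, mul_assoc, mul_assoc, mpr2_add, h, h]
  exact L.p_add false

lemma X_inj {f : J → MonoidAlgebra R G} (h : f ᵥ* (L.W * L.Γ) = 0) : f = 0 := by
  have := congrArg (· ᵥ* ((L.Θ false + L.Θ (!false)) * (L.U false + L.U true))) h
  simp only [vecMul_vecMul, zero_vecMul] at this
  rwa [mul_assoc, ← mul_assoc L.Γ, L.hΓΘ, one_mul, W_mul_U, vecMul_one] at this

lemma mem_itV (m : ℕ) : ∀ g₀ τ₀ f, VSup2 (D.On L.e g₀ τ₀) f → vsize (f ᵥ* (L.W * L.Γ)) ≤ m →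
    f ∈ D.itV L.e (fun a : Bool × Bool => L.n a.1 a.2) m := by
  induction m with
  | zero =>
    intro g₀ τ₀ f _ hm
    rw [L.X_inj (eq_zero_of_vsize (Nat.le_zero.1 hm))]; exact zero_mem _
  | succ m ih =>
    intro g₀ τ₀ f hf hm
    by_cases hf0 : f = 0
    · rw [hf0]; exact zero_mem _
    rintro g τ ⟨s, s'⟩
    suffices f ᵥ* L.n s s' ∈ D.itV L.e (fun a : Bool × Bool => L.n a.1 a.2) m by
      rw [← hf.prv2_eq]
      rcases (sat_on g₀ τ₀).prv2_on g τ f with h | ⟨⟨i, x, h1, h2⟩, h⟩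
      · rw [h, zero_vecMul]; exact zero_mem _
      · rw [h, on_eq h1, ← on_eq h2, hf.prv2_eq]; exact this
    set Y := f ᵥ* (L.W * L.Γ) with hY
    have hYf : prv2 (D.On L.e g₀ τ₀) Y = f := by
      rw [hY, prv2_vecMul_left (S₁ := D.Same L.e) _ hf, same_X, vecMul_one]
      rintro i j k ⟨h1, h2⟩ g
      simp only [On, Same, Set.mem_ofPred_eq, h1, ← mul_assoc]
      exact and_congr_right fun _ => (D.C τ₀).mul_mem_cancel_left h2
    have hn : f ᵥ* L.n s s' = prv2 (fun j => {x | (g₀⁻¹ * x) • D.ep (L.e j) (!s') = D.ep τ₀ s ∧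
        x ∉ D.On L.e g₀ τ₀ j}) Y := by
      rw [n_eq, hY]
      refine (prv2_vecMul_left _ hf ?_).symm
      rintro i j k ⟨h1, h2⟩ g
      simp only [On, Same, Sb, Set.mem_ofPred_eq, h1, ← mul_assoc]
      rw [mul_smul, D.C_eq_iff h2, (D.C τ₀).mul_mem_cancel_left h2]
    rw [hn]
    refine Sat.induction (D := D) (e := L.e)
      (P := fun z => z ∈ D.itV L.e (fun a : Bool × Bool => L.n a.1 a.2) m) (zero_mem _)
      (fun a b ha hb => add_mem ha hb) Y ?_ ?_
    · rintro i i' x c h hc ⟨h1, h2⟩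
      exact ⟨by rw [h, ← mul_assoc, mul_smul, hc, h1], (sat_on g₀ τ₀).compl i i' x c h hc h2⟩
    rintro i x ⟨h1, h2⟩
    have hout : ∀ s₁, (x⁻¹ * g₀) • D.ep τ₀ s₁ ∉ D.H (L.e i) s' := by
      intro s₁ h
      rcases D.tri (L.e i) τ₀ (x⁻¹ * g₀) with ⟨h3, h4⟩ | h3
      · refine h2 ⟨h3.symm, ?_⟩
        have := (D.C (L.e i)).inv_mem h4
        rw [h3]; simpa using this
      · have := h3 s' s₁ s h
        rw [← h1, smul_smul] at this
        exact D.not_mem _ s' (by simpa using this)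
    have hyp : VSup2 (fun j => {y | (x⁻¹ * y) • L.z j ∉ D.H (L.e i) s'})
        (Y ᵥ* (L.Θ s' + L.Θ (!s'))) := by
      rw [hY, vecMul_vecMul, mul_assoc, L.hΓΘ, mul_one, W, vecMul_add]
      have : ∀ s₁, VSup2 (fun j => {y | (x⁻¹ * y) • L.z j ∉ D.H (L.e i) s'})
          (f ᵥ* (L.p s₁ * L.Θ s₁)) := by
        intro s₁
        refine hf.vecMul (S' := fun i j => {y | y • L.z j = D.ep (L.e i) s₁})
          ((L.msup_p s₁).mul (L.hΘ s₁) ?_) ?_
        · rintro a b c k ⟨h3, h4⟩ y hy
          simp only [Set.mem_ofPred_eq] at hy ⊢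
          rw [mul_smul, hy, h3, h4]
        · rintro a b k ⟨h3, h4⟩ y hy
          simp only [Set.mem_ofPred_eq] at hy ⊢
          have e : x⁻¹ * (k * y) = x⁻¹ * g₀ * (g₀⁻¹ * k) * y := by group
          rw [e, mul_smul, hy, h3, mul_smul, h4]
          exact hout s₁
      exact fun j => (this false j).add (this true j)
    have hB := lemB L.hΘ s' (L.hΘΓ s') Y x (L.e i) hyp
    have hB0 := lemB0 L.hΘ s' (L.hΘΓ s') Y x (L.e i) hyp
    set f₂ := prv2 (D.On L.e x (L.e i)) Y with hf₂
    have hX : f₂ ᵥ* (L.W * L.Γ) =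
        prv2 (fun j => D.On L.e x (L.e i) j ∪ D.Ins L.e x (L.e i) s' j) Y := by
      have e1 : L.p (!s') = 1 - L.p s' := by rw [← L.p_add s']; abel
      have e2 : L.Θ (!s') * L.Γ = 1 - L.Θ s' * L.Γ := by rw [← L.M_add s']; abel
      have e3 : f₂ ᵥ* L.p s' = 0 := hB0
      rw [L.W_eq s', add_mul, mul_assoc, mul_assoc, vecMul_add, ← vecMul_vecMul, e3, zero_vecMul,
        zero_add, ← vecMul_vecMul, e1, vecMul_sub, e3, vecMul_one, sub_zero, e2, vecMul_sub,
        vecMul_one, hB, sub_neg_eq_add]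
      refine (prv2_union Y (fun _ _ => Iff.rfl) ?_).symm
      rintro j y ⟨h3, h4⟩ h
      have := h (!s')
      rw [h3, h4] at this
      exact D.not_mem _ _ this
    refine ih x (L.e i) f₂ (vsup2_prv2 _ _) ?_
    obtain ⟨j, y, hy⟩ := exists_coeff_ne hf0
    have hy1 : y ∈ D.On L.e g₀ τ₀ j := hf j y hy
    have hy2 : (Y j).coeff y ≠ 0 := by
      intro h0
      apply hy
      rw [← hYf, prv2, coeff_pr, h0, ite_self]
    have := vsize_prv2_lt (S := fun j => D.On L.e x (L.e i) j ∪ D.Ins L.e x (L.e i) s' j) hy2 (by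
      rintro (h | h)
      · exact h2 ((sat_on g₀ τ₀).on_subset h hy1 i (mem_on_self i x))
      · have := h s
        have e : x⁻¹ * y = x⁻¹ * g₀ * (g₀⁻¹ * y) := by group
        rw [hy1.1, e, mul_smul, hy1.2] at this
        exact hout s this)
    rw [hX]
    omega

lemma T_ΘU (S : TS (MonoidAlgebra R G)) (htame : ∀ σ, TameP S (D.Ah σ σ) (D.C σ.1)) :
    S.T ((L.Θ false + L.Θ true) * (L.U false + L.U true)) := by
  classical
  obtain ⟨k, hk⟩ := exists_top (D := D) (e := L.e) (n := fun a : Bool × Bool => L.n a.1 a.2)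
    fun g τ f hf => ⟨_, L.mem_itV _ g τ f hf le_rfl⟩
  set P := proj (MonoidAlgebra R G) L.e with hP
  have hc : ∀ s τ, P τ * L.p s = L.p s * P τ := fun s =>
    proj_comm L.e fun i j h => (L.msup_p s i j).eq_zero (sup_univ _) fun g hg => absurd hg.1.symm h
  have := elim_types S (filtV hk) (fun σ : D.E × Bool => P σ.1 * L.p (!σ.2)) ?_ D.Ah D.ah_mul ?_
    (Finset.univ.image L.e ×ˢ Finset.univ) (fun σ σ' => P σ.1 * L.n σ.2 σ'.2 * P σ'.1) ?_ ?_ ?_ ?_
  · convert this using 1
    have hs : ∑ τ ∈ Finset.univ.image L.e, P τ = 1 :=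
      sum_proj L.e fun i => Finset.mem_image_of_mem _ (Finset.mem_univ i)
    simp only [Finset.sum_product, Fintype.sum_bool, Finset.sum_add_distrib, ← Finset.mul_sum,
      ← Finset.sum_mul, hs, mul_one, one_mul]
    rw [add_mul, Θ_mul_UU, Θ_mul_UU, ← L.p_add false, Bool.not_false]
    abel
  · rintro ⟨τ, s⟩ ⟨τ', s'⟩ h
    dsimp only
    rw [mul_assoc, ← mul_assoc (L.p _), ← hc, ← mul_assoc, ← mul_assoc]
    by_cases hτ : τ = τ'
    · have : s' = !s := Bool.eq_not.2 fun h' => h (by rw [hτ, h'])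
      rw [mul_assoc, this, p_mul_p, mul_zero]
    · rw [proj_mul_ne _ hτ, zero_mul, zero_mul]
  · rintro ⟨τ, s⟩ a ha h1 h2 hl
    refine htame (τ, s) J a ha (pn_of_low hk τ ?_ ?_ hl)
    · rw [← h1, ← mul_assoc, ← mul_assoc, proj_mul_self]
    · rw [← h2, hc, mul_assoc, mul_assoc, proj_mul_self]
  · rintro ⟨τ, s⟩ ⟨τ', s'⟩ i j
    rw [mul_proj_apply, proj_mul_apply]
    split_ifs with h1 h2
    · refine ((msup2_mpr2 _ _).neg i j).mono ?_
      rintro g ⟨h3, h4⟩
      dsimp only at h1 h2 ⊢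
      subst h1 h2
      refine ⟨D.nest _ _ s s' g h3 h4, _, D.hmem _ _, ?_⟩
      rw [← h3, inv_smul_smul]; exact D.not_mem _ _
    · exact sup_zero _
    · exact sup_zero _
  · rintro ⟨τ, s⟩ ⟨τ', s'⟩
    dsimp only
    rw [hc, ← mul_assoc, ← mul_assoc, mul_assoc (L.p _), proj_mul_self, ← hc, mul_assoc (P τ),
      p_mul_n']
  · rintro ⟨τ, s⟩ ⟨τ', s'⟩
    dsimp only
    rw [mul_assoc, ← mul_assoc (P τ'), proj_mul_self, hc, ← mul_assoc, mul_assoc (P τ), n_mul_p']
  · rintro ⟨τ, s⟩ ⟨τ', s'⟩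
    exact ((low_proj hk τ).mul (low_n hk (s, s'))).mul (low_proj hk τ')

end Lin

end TB

end Pool.Agent.MP_f7db47_al

end

section

/-!
The splitting theorem for trees, for an abstract calculus.
-/

set_option linter.unusedSectionVars false

namespace Pool.Agent.MP_f7db47_al

open Matrix

universe u v w

namespace TB

variable {R : Type v} [Ring R] {G : Type u} [Group G] {V : Type w} [MulAction G V] (D : TB G V)

/-- All invertible split matrices are trivial. -/
def SplitT (S : TS (MonoidAlgebra R G)) : Prop :=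
  ∀ (J : Type) [Fintype J] [DecidableEq J] (e : J → D.E) (z : J → V)
    (Θ₀ Θ₁ ε : Matrix J J (MonoidAlgebra R G)),
    MSup2 (fun i j => {x | x • z j = D.ep (e i) false}) Θ₀ →
    MSup2 (fun i j => {x | x • z j = D.ep (e i) true}) Θ₁ → MSup2 (D.Same e) ε → ε * ε = ε →
    IsUnit (ε * Θ₀ + (1 - ε) * Θ₁) → S.T (ε * Θ₀ + (1 - ε) * Θ₁)

variable {D} {S : TS (MonoidAlgebra R G)}

lemma linear (htame : ∀ σ, TameP S (D.Ah σ σ) (D.C σ.1)) (hsplit : D.SplitT S)
    {J : Type} [Fintype J] [DecidableEq J] (e : J → D.E) (z : J → V)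
    {A : Matrix J J (MonoidAlgebra R G)}
    (hA : MSup2 (fun i j => {x | ∃ s, x • z j = D.ep (e i) s}) A) (hu : IsUnit A) : S.T A := by
  obtain ⟨u, rfl⟩ := hu
  let Θ : Bool → Matrix J J (MonoidAlgebra R G) := fun s =>
    mpr2 (fun i j => {x | x • z j = D.ep (e i) s}) u.val
  have hsum : ∀ s, Θ s + Θ (!s) = u.val := by
    intro s
    rw [← hA.mpr2_eq]
    refine (mpr2_union _ (fun i j g => ⟨?_, ?_⟩) fun i j g h h' => ?_).symm
    · rintro ⟨s', h⟩
      by_cases hs : s' = s
      · exact Or.inl (hs ▸ h)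
      · exact Or.inr (Bool.eq_not.2 hs ▸ h)
    · rintro (h | h) <;> exact ⟨_, h⟩
    · simpa using D.ep_inj (h.symm.trans h')
  let L : D.Lin R J := ⟨e, z, Θ, (u⁻¹ : Units _).val, fun s => msup2_mpr2 _ _,
    fun s => by rw [hsum, u.mul_inv], fun s => by rw [hsum, u.inv_mul]⟩
  have h1 := L.T_ΘU S htame
  have hp : L.p true = 1 - L.p false := by rw [← L.p_add false, Bool.not_false]; abel
  have hW : L.W = L.p false * L.Θ false + (1 - L.p false) * L.Θ true := by rw [← hp]; rfl
  have h2 : S.T L.W := by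
    rw [hW]
    refine hsplit J e z _ _ _ (L.hΘ false) (L.hΘ true) (L.msup_p false) (L.p_idem false) ?_
    rw [← hW]
    exact ⟨⟨_, _, L.W_mul_U, L.U_mul_W⟩, rfl⟩
  have := S.mul h1 h2
  rw [mul_assoc, L.U_mul_W, mul_one] at this
  exact hsum false ▸ this

theorem core (htame : ∀ σ, TameP S (D.Ah σ σ) (D.C σ.1)) (hsplit : D.SplitT S) (e₀ : D.E)
    {J : Type} [Fintype J] [DecidableEq J] {A : Matrix J J (MonoidAlgebra R G)}
    (hu : IsUnit A) : S.T A := by
  have hlin : ∀ (τ : D.E) (y : V), ∃ (k : G) (τ' : D.E) (s : Bool), k • D.ep τ' s = y ∧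
      ((¬ ∃ s, y = D.ep τ s) → D.μ τ (k • D.ep τ' (!s)) < D.μ τ y) := by
    intro τ y
    rcases D.lin τ y with ⟨s, h⟩ | ⟨k, τ', s, h1, h2⟩
    · exact ⟨1, τ, s, by rw [one_smul, h], fun h' => absurd ⟨s, h⟩ h'⟩
    · exact ⟨k, τ', s, h1, fun _ => h2⟩
  choose kk tt ss hk1 hk2 using hlin
  have main : ∀ (n : ℕ) (J : Type) [Fintype J] [DecidableEq J] (e : J → D.E) (z : J → V)
      (A : Matrix J J (MonoidAlgebra R G)),
      MSup2 (fun i j => {x | (∃ s, x • z j = D.ep (e i) s) ∨ D.μ (e i) (x • z j) < n}) A →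
      IsUnit A → S.T A := by
    intro n
    induction n with
    | zero =>
      intro J _ _ e z A hA hu
      exact linear htame hsplit e z (hA.mono fun i j x hx => hx.resolve_right (by omega)) hu
    | succ n ih =>
      intro J _ _ e z A hA hu
      classical
      set A' := mpr2 (fun i j => {x | ∃ s, x • z j = D.ep (e i) s}ᶜ) A with hA'
      set A₀ := mpr2 (fun i j => {x | ∃ s, x • z j = D.ep (e i) s}) A with hA₀
      have hsum : A = A₀ + A' := by
        ext1 i j; exact (pr_add_pr_compl _ _).symm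
      obtain ⟨s, hs, -⟩ := exists_finset_msup A'
      let el : Fin s.card → G := fun i => (s.equivFin.symm i : G)
      let y : J × J × Fin s.card → V := fun l => el l.2.2 • z l.2.1
      let k : J × J × Fin s.card → G := fun l => kk (e l.1) (y l)
      let B : Matrix J (J × J × Fin s.card) (MonoidAlgebra R G) := fun i l =>
        if i = l.1 then MonoidAlgebra.single (k l) ((A' l.1 l.2.1).coeff (el l.2.2)) else 0
      let Sm : Matrix (J × J × Fin s.card) J (MonoidAlgebra R G) := fun l j =>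
        if l.2.1 = j then MonoidAlgebra.single ((k l)⁻¹ * el l.2.2) 1 else 0
      have hBS : B * Sm = A' := by
        ext1 i j
        rw [Matrix.mul_apply, Fintype.sum_prod_type, Finset.sum_eq_single i,
          Fintype.sum_prod_type, Finset.sum_eq_single j]
        · simp only [B, Sm, if_true, MonoidAlgebra.single_mul_single, mul_one,
            mul_inv_cancel_left]
          rw [← Equiv.sum_comp s.equivFin]
          simp only [el, Equiv.symm_apply_apply]
          rw [Finset.sum_coe_sort s fun g => MonoidAlgebra.single g ((A' i j).coeff g)]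
          conv_rhs => rw [← MonoidAlgebra.sum_coeff_single (A' i j)]
          rw [Finsupp.sum_of_support_subset _ (s := s)]
          · intro g hg; exact hs i j g (Finsupp.mem_support_iff.1 hg)
          · intro g _; simp
        · intro j' _ hj'
          simp [Sm, hj']
        · simp
        · intro i' _ hi'
          simp [B, Ne.symm hi']
        · simp
      have hprod : fromBlocks 1 (-B) 0 1 * fromBlocks A 0 0 1 * fromBlocks 1 0 Sm 1 =
          fromBlocks A₀ (-B) Sm 1 := by
        simp only [fromBlocks_multiply, fromBlocks_inj, Matrix.one_mul, Matrix.mul_one,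
          Matrix.zero_mul, Matrix.mul_zero, add_zero, zero_add, and_true, Matrix.neg_mul]
        rw [hBS]
        conv_lhs => rw [hsum]
        abel
      have hT : S.T (fromBlocks A₀ (-B) Sm 1) := by
        refine ih _ (Sum.elim e fun l => tt (e l.1) (y l))
          (Sum.elim z fun l => D.ep (tt (e l.1) (y l)) (!ss (e l.1) (y l))) _ ?_ ?_
        · rintro (i | l) (j | l')
          · rw [fromBlocks_apply₁₁, hA₀]
            exact (msup2_mpr2 _ A i j).mono fun x hx => Or.inl hx
          · rw [fromBlocks_apply₁₂, Matrix.neg_apply]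
            refine Sup.neg ?_
            simp only [B]
            split_ifs with h
            · by_cases h0 : (A' l'.1 l'.2.1).coeff (el l'.2.2) = 0
              · rw [h0, MonoidAlgebra.single_zero]; exact sup_zero _
              · have h1 := msup2_mpr2 _ _ _ _ _ h0
                have h2 := (hA.mpr2 _ _ _ h0).resolve_left h1
                have h3 := hk2 (e l'.1) (y l') h1
                refine sup_single ?_ _
                subst h
                exact Or.inr <| lt_of_lt_of_le h3 (Nat.lt_succ_iff.1 h2)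
            · exact sup_zero _
          · simp only [fromBlocks_apply₂₁, Sm]
            split_ifs with h
            · refine sup_single ?_ _
              refine Or.inl ⟨ss (e l.1) (y l), ?_⟩
              subst h
              simp only [Sum.elim_inl, Sum.elim_inr]
              rw [mul_smul, inv_smul_eq_iff]
              exact (hk1 _ _).symm
            · exact sup_zero _
          · exact msup2_one (S := fun l l' => {x : G | (∃ s, x • D.ep (tt (e l'.1) (y l'))
              (!ss (e l'.1) (y l')) = D.ep (tt (e l.1) (y l)) s) ∨ D.μ (tt (e l.1) (y l))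
              (x • D.ep (tt (e l'.1) (y l')) (!ss (e l'.1) (y l'))) < n})
              (fun l => Or.inl ⟨_, one_smul _ _⟩) l l'
        · rw [← hprod]
          exact ((S.isUnit (S.upper _)).mul (isUnit_fromBlocks_diag hu isUnit_one)).mul
            (S.isUnit (S.lower _))
      rw [← hprod] at hT
      exact S.of_stab (S.cancel_left (S.upper _) (S.cancel_right (S.lower _) hT))
  obtain ⟨s, hs, -⟩ := exists_finset_msup A
  refine main (s.sup (fun g => D.μ e₀ (g • D.ep e₀ false)) + 1) J (fun _ => e₀)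
    (fun _ => D.ep e₀ false) A (fun i j => (hs i j).mono fun g hg => Or.inr ?_) hu
  exact Nat.lt_succ_of_le (Finset.le_sup (f := fun g => D.μ e₀ (g • D.ep e₀ false)) hg)

end TB

end Pool.Agent.MP_f7db47_al

end

section

/-!
Split matrices are trivial when the vertex and edge groups behave.
-/

set_option linter.unusedSectionVars false

namespace Pool.Agent.MP_f7db47_al

open Matrix

universe u v w

variable {R : Type v} [Ring R] {G : Type u} [Group G]
variable {J : Type} [Fintype J] [DecidableEq J]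

lemma proj_map {Y : Type*} (c : J → Y) (y : Y) :
    (proj R c y).map (MonoidAlgebra.single (1 : G)) = proj (MonoidAlgebra R G) c y := by
  ext1 i j
  by_cases hij : i = j
  · subst hij
    simp only [proj, map_apply, diagonal_apply_eq]
    split_ifs <;> simp [MonoidAlgebra.one_def]
  · simp [proj, hij]

lemma const_comm {ε : Matrix J J R} {u : J → G} (hu : ∀ i j, u i ≠ u j → ε i j = 0) :
    ε.map (MonoidAlgebra.single (1 : G)) * diagonal (fun i => MonoidAlgebra.single (u i) 1) =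
      diagonal (fun i => MonoidAlgebra.single (u i) 1) * ε.map (MonoidAlgebra.single (1 : G)) := by
  ext1 i j
  rw [mul_diagonal, diagonal_mul, map_apply, MonoidAlgebra.single_mul_single,
    MonoidAlgebra.single_mul_single]
  by_cases h : u i = u j
  · simp [h]
  · simp [hu i j h]

lemma T_idem_diag {ε : Matrix J J R} (hε : ε * ε = ε) {u : J → G}
    (hu : ∀ i j, u i ≠ u j → ε i j = 0) :
    T (1 - ε.map (MonoidAlgebra.single (1 : G)) +
      ε.map (MonoidAlgebra.single (1 : G)) * diagonal fun i => MonoidAlgebra.single (u i) 1) := by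
  refine (stdTS R G).of_blocks u (proj_comm u fun i j h => ?_) fun g => ?_
  · have hij : i ≠ j := fun e => h (congrArg u e)
    simp [mul_diagonal, hu i j h, hij]
  · have hc := proj_comm u hu g
    have hi : (proj R u g * ε) * (proj R u g * ε) = proj R u g * ε := by
      rw [mul_assoc, ← mul_assoc ε, ← hc, mul_assoc, hε, ← mul_assoc, proj_mul_self]
    have := T_gen (Gen.idem (G := G) _ hi g)
    change T _
    convert this using 1
    have e1 : proj (MonoidAlgebra R G) u g * ε.map (MonoidAlgebra.single (1 : G)) =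
        (proj R u g * ε).map (MonoidAlgebra.single (1 : G)) := by
      rw [← proj_map, map_single_mul, mul_one]
    have e2 : proj (MonoidAlgebra R G) u g * (ε.map (MonoidAlgebra.single (1 : G)) *
        diagonal fun i => MonoidAlgebra.single (u i) 1) =
        (proj R u g * ε).map (MonoidAlgebra.single g) := by
      rw [const_comm hu]
      ext1 i j
      rw [proj_mul_apply, map_apply, proj_mul_apply, diagonal_mul]
      split_ifs with h
      · simp [h, MonoidAlgebra.single_mul_single]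
      · simp
    rw [mul_add, mul_sub, mul_one, e1, e2]
    abel

variable {V : Type w} [MulAction G V]

lemma split_rep (h1 : ∀ y : V, G1 R (MulAction.stabilizer G y)) (o t z : J → V)
    {ε : Matrix J J R} (hε : ε * ε = ε) (ho : ∀ i j, o i ≠ o j → ε i j = 0)
    (ht : ∀ i j, t i ≠ t j → ε i j = 0) {A₀ A₁ : Matrix J J (MonoidAlgebra R G)}
    (h₀ : MSup2 (fun i j => {x | z j = o i ∧ x • z j = z j}) A₀)
    (h₁ : MSup2 (fun i j => {x | z j = t i ∧ x • z j = z j}) A₁)
    (hu : IsUnit (ε.map (MonoidAlgebra.single 1) * A₀ +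
      (1 - ε.map (MonoidAlgebra.single 1)) * A₁)) :
    T (ε.map (MonoidAlgebra.single 1) * A₀ + (1 - ε.map (MonoidAlgebra.single 1)) * A₁) := by
  set p : Matrix J J (MonoidAlgebra R G) := ε.map (MonoidAlgebra.single 1) with hp
  have hpp : p * p = p := by rw [hp, map_single_mul, hε, mul_one]
  have hps : MSup {1} p := msup_map_single (S := {1}) rfl _
  obtain ⟨W, hW⟩ := hu
  rw [← hW]
  let φ := (MonoidAlgebra.mapDomainRingHom R (1 : G →* G)).mapMatrix (m := J)
  have hφs : ∀ M, MSup {1} (φ M) := fun M i j =>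
    (sup_mapDomain (1 : G →* G) (M i j)).mono (by rintro _ ⟨x, rfl⟩; rfl)
  have hφc : ∀ M : Matrix J J R, φ (M.map (MonoidAlgebra.single 1)) =
      M.map (MonoidAlgebra.single 1) := fun M => by
    ext1 i j; simp [φ]
  have key : ∀ (c : J → V) (A : Matrix J J (MonoidAlgebra R G)),
      MSup2 (fun i j => {x | z j = c i ∧ x • z j = z j}) A → ∀ y,
      A * proj _ z y = proj _ c y * A := by
    intro c A hA y
    ext1 i j
    rw [mul_proj_apply, proj_mul_apply]
    by_cases h : z j = c i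
    · rw [h]
    · rw [(hA i j).eq_zero (sup_univ _) fun g hg => absurd hg.1 h]; simp
  have hco : ∀ y, proj _ o y * p = p * proj _ o y :=
    proj_comm o fun i j h => by simp [hp, ho i j h]
  have hct : ∀ y, proj _ t y * p = p * proj _ t y :=
    proj_comm t fun i j h => by simp [hp, ht i j h]
  have hWQ : ∀ y, W.val * proj _ z y = (p * proj _ o y + (1 - p) * proj _ t y) * W.val := by
    intro y
    rw [hW, add_mul, mul_assoc, mul_assoc, key o A₀ h₀, key t A₁ h₁]
    have e : (p * proj _ o y + (1 - p) * proj _ t y) * (p * A₀ + (1 - p) * A₁) =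
        p * (proj _ o y * p) * (A₀ - A₁) + p * (proj _ o y * A₁) +
        (1 - p) * (proj _ t y * p) * (A₀ - A₁) + (1 - p) * (proj _ t y * A₁) := by noncomm_ring
    rw [e, hco, hct, ← mul_assoc p p, hpp, ← mul_assoc (1 - p) p, sub_mul 1 p p, one_mul, hpp,
      sub_self]
    noncomm_ring
  have hW0Q : ∀ y, φ W.val * proj _ z y = (p * proj _ o y + (1 - p) * proj _ t y) * φ W.val := by
    intro y
    have := congrArg φ (hWQ y)
    rwa [map_mul, map_mul, map_add, map_mul, map_mul, map_sub, map_one, ← proj_map, ← proj_map,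
      ← proj_map, hφc, hφc, hφc, hφc, proj_map, proj_map, proj_map] at this
  have i1 : φ W.val * φ (W⁻¹ : Units _).val = 1 := by rw [← map_mul, W.mul_inv, map_one]
  have i2 : φ (W⁻¹ : Units _).val * φ W.val = 1 := by rw [← map_mul, W.inv_mul, map_one]
  set Z := φ (W⁻¹ : Units _).val * W.val with hZ
  set Z' := (W⁻¹ : Units _).val * φ W.val with hZ'
  have j1 : Z * Z' = 1 := by rw [hZ, hZ', mul_assoc, ← mul_assoc W.val, W.mul_inv, one_mul, i2]
  have j2 : Z' * Z = 1 := by
    rw [hZ, hZ', mul_assoc, ← mul_assoc (φ W.val), i1, one_mul, W.inv_mul]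
  have hZQ : ∀ y, proj _ z y * Z = Z * proj _ z y := by
    intro y
    rw [hZ, mul_assoc, hWQ, ← mul_assoc, ← mul_assoc]
    congr 1
    have := congrArg (fun M => φ (W⁻¹ : Units _).val * M * φ (W⁻¹ : Units _).val) (hW0Q y)
    simpa only [← mul_assoc, i2, one_mul, mul_assoc _ (φ W.val), i1, mul_one] using this
  have hZQ' : ∀ y, proj _ z y * Z' = Z' * proj _ z y := by
    intro y
    rw [← one_mul (proj _ z y * Z'), ← j2, mul_assoc, ← mul_assoc Z, ← hZQ, mul_assoc _ Z, j1,
      mul_one]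
  have t1 : T (φ W.val) :=
    T_of_isUnit_msup ⊥ (G1_of_subsingleton _) (by simpa using hφs _) ⟨⟨_, _, i1, i2⟩, rfl⟩
  have t2 : T Z := by
    refine (stdTS R G).of_blocks z hZQ fun y => T_of_isUnit_msup _ (h1 y) ?_ ?_
    · have hQ : MSup (MulAction.stabilizer G y : Set G) (proj (MonoidAlgebra R G) z y) := by
        rw [← proj_map]; exact msup_map_single (Subgroup.one_mem _) _
      refine ((msup_one (Subgroup.one_mem _)).sub hQ).add ?_
      rw [hZQ, hZ, mul_assoc]
      refine (hφs _).mul (S' := MulAction.stabilizer G y) ?_ (by rintro _ rfl b hb; simpa using hb)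
      intro i j
      rw [mul_proj_apply]
      split_ifs with h
      · subst h
        have : MSup2 (fun _ j => {x : G | x • z j = z j}) W.val := by
          rw [hW]
          refine MSup2.add (MSup2.mul (S := fun _ _ => {1}) hps h₀ ?_)
            (MSup2.mul (S := fun _ _ => {1}) ((msup_one (S := {1}) rfl).sub hps) h₁ ?_)
          · rintro _ _ _ _ rfl b hb; simpa using hb.2
          · rintro _ _ _ _ rfl b hb; simpa using hb.2
        exact this i j
      · exact sup_zero _
    · have aux : ∀ Z Z' : Matrix J J (MonoidAlgebra R G), Z * Z' = 1 →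
          proj _ z y * Z = Z * proj _ z y →
          (1 - proj _ z y + proj _ z y * Z) * (1 - proj _ z y + proj _ z y * Z') = 1 := by
        intro Z Z' h h'
        have e : (1 - proj _ z y + proj _ z y * Z) * (1 - proj _ z y + proj _ z y * Z') =
            1 - proj _ z y + (proj _ z y - proj _ z y * proj _ z y) * (Z' - 1) +
            (proj _ z y * Z) * (1 - proj _ z y) + proj _ z y * (Z * proj _ z y) * Z' := by
          noncomm_ring
        rw [e, proj_mul_self, sub_self, zero_mul, add_zero, ← h', ← mul_assoc, proj_mul_self,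
          mul_assoc _ Z Z', h, h', mul_assoc Z, mul_sub, proj_mul_self]
        simp
      exact ⟨⟨_, _, aux Z Z' j1 (hZQ y), aux Z' Z j2 (hZQ' y)⟩, rfl⟩
  have := T_mul t1 t2
  rwa [hZ, ← mul_assoc, i1, one_mul] at this

lemma split_const (h1 : ∀ y : V, G1 R (MulAction.stabilizer G y)) (o t z : J → V)
    {ε : Matrix J J R} (hε : ε * ε = ε) (ho : ∀ i j, o i ≠ o j → ε i j = 0)
    (ht : ∀ i j, t i ≠ t j → ε i j = 0) {A₀ A₁ : Matrix J J (MonoidAlgebra R G)}
    (h₀ : MSup2 (fun i j => {x | x • z j = o i}) A₀)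
    (h₁ : MSup2 (fun i j => {x | x • z j = t i}) A₁)
    (hu : IsUnit (ε.map (MonoidAlgebra.single 1) * A₀ +
      (1 - ε.map (MonoidAlgebra.single 1)) * A₁)) :
    T (ε.map (MonoidAlgebra.single 1) * A₀ + (1 - ε.map (MonoidAlgebra.single 1)) * A₁) := by
  let ρ : V → V := fun y => (Quotient.mk (MulAction.orbitRel G V) y).out
  have hρ : ∀ (g : G) y, ρ (g • y) = ρ y := fun g y => by
    have : Quotient.mk (MulAction.orbitRel G V) (g • y) = Quotient.mk _ y :=
      Quotient.sound ⟨g, rfl⟩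
    simp only [ρ, this]
  have : ∀ y, ∃ g : G, g • y = ρ y := fun y => Quotient.mk_out (s := MulAction.orbitRel G V) y
  choose u hu' using this
  have h1ε : (1 - ε) * (1 - ε) = 1 - ε := by
    rw [mul_sub, mul_one, sub_mul, one_mul, hε, sub_self, sub_zero]
  have ho' : ∀ i j, u (o i) ≠ u (o j) → ε i j = 0 := fun i j h => ho i j fun e => h (by rw [e])
  have ht' : ∀ i j, u (t i) ≠ u (t j) → ε i j = 0 := fun i j h => ht i j fun e => h (by rw [e])
  have t1 := T_idem_diag hε ho'
  have t2 := T_idem_diag h1ε (u := fun i => u (t i)) fun i j h => by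
    have hij : i ≠ j := fun e => h (by rw [e])
    simp [ht' i j h, hij]
  have t3 := T_idem_diag (R := R) (ε := 1) (one_mul _) (u := fun i => (u (z i))⁻¹) fun i j h =>
    one_apply_ne fun e => h (by rw [e])
  rw [map_single_sub, map_single_one_one] at t2
  rw [map_single_one_one, sub_self, zero_add, one_mul] at t3
  have c1 := const_comm ho'
  have c2 := const_comm ht'
  set p : Matrix J J (MonoidAlgebra R G) := ε.map (MonoidAlgebra.single 1) with hp
  have hpp : p * p = p := by rw [hp, map_single_mul, hε, mul_one]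
  set d₀ : Matrix J J (MonoidAlgebra R G) := diagonal fun i => MonoidAlgebra.single (u (o i)) 1
  set d₁ : Matrix J J (MonoidAlgebra R G) := diagonal fun i => MonoidAlgebra.single (u (t i)) 1
  set d₂ : Matrix J J (MonoidAlgebra R G) := diagonal fun i => MonoidAlgebra.single (u (z i))⁻¹ 1
  have e : (1 - p + p * d₀) * ((1 - (1 - p) + (1 - p) * d₁) * (p * A₀ + (1 - p) * A₁)) * d₂ =
      p * (d₀ * A₀ * d₂) + (1 - p) * (d₁ * A₁ * d₂) := by
    have e1 : (1 - (1 - p) + (1 - p) * d₁) * (p * A₀ + (1 - p) * A₁) =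
        p * A₀ + (1 - p) * (d₁ * A₁) := by
      have : (1 - (1 - p) + (1 - p) * d₁) * (p * A₀ + (1 - p) * A₁) =
        p * p * (A₀ - A₁) + p * A₁ + (1 - p) * (d₁ * p) * (A₀ - A₁) + (1 - p) * (d₁ * A₁) := by
        noncomm_ring
      rw [this, hpp, ← c2, ← mul_assoc (1 - p) p, sub_mul 1 p p, one_mul, hpp, sub_self]
      noncomm_ring
    have e2 : (1 - p + p * d₀) * (p * A₀ + (1 - p) * (d₁ * A₁)) =
        p * (d₀ * A₀) + (1 - p) * (d₁ * A₁) := by
      have : (1 - p + p * d₀) * (p * A₀ + (1 - p) * (d₁ * A₁)) =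
        (p - p * p) * (A₀ - d₁ * A₁) + (1 - p) * (d₁ * A₁) + p * (d₀ * p) * (A₀ - d₁ * A₁) +
          p * d₀ * (d₁ * A₁) := by noncomm_ring
      rw [this, hpp, ← c1, ← mul_assoc p p, hpp]
      noncomm_ring
    rw [e1, e2]; noncomm_ring
  have sup : ∀ (c : J → V) (A : Matrix J J (MonoidAlgebra R G)),
      MSup2 (fun i j => {x | x • z j = c i}) A →
      MSup2 (fun i j => {x | ρ (z j) = ρ (c i) ∧ x • ρ (z j) = ρ (z j)})
        (diagonal (fun i => MonoidAlgebra.single (u (c i)) (1 : R)) * A * d₂) := by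
    intro c A hA i j
    rw [mul_diagonal, diagonal_mul]
    refine ((sup_single (S := {u (c i)}) rfl _).mul (hA i j) (U := {x | x • z j = ρ (c i) ∧
      ρ (z j) = ρ (c i)}) ?_).mul (sup_single (S := {(u (z j))⁻¹}) rfl _) ?_
    · rintro _ rfl b hb
      simp only [Set.mem_ofPred_eq] at hb ⊢
      exact ⟨by rw [mul_smul, hb, hu'], by rw [← hb, hρ]⟩
    · rintro a ⟨ha, ha'⟩ _ rfl
      exact ⟨ha', by rw [mul_smul, ← hu', inv_smul_smul, ha, hu', ha']⟩
  have := split_rep h1 (fun i => ρ (o i)) (fun i => ρ (t i)) (fun i => ρ (z i)) hε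
    (fun i j h => ho i j fun e => h (by rw [e])) (fun i j h => ht i j fun e => h (by rw [e]))
    (sup o A₀ h₀) (sup t A₁ h₁) (by
      rw [← hp, ← e]; exact (t1.isUnit.mul (t2.isUnit.mul hu)).mul t3.isUnit)
  rw [← hp, ← e] at this
  exact T_cancel_left t2 (T_cancel_left t1 (T_cancel_right t3 this))

end Pool.Agent.MP_f7db47_al

end

section

/-!
Making the idempotent of a split matrix constant.
-/

set_option linter.unusedSectionVars false

namespace Pool.Agent.MP_f7db47_al

open Matrix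

universe u v w

variable {R : Type v} [Ring R] {G : Type u} [Group G]

lemma exists_XY (N : Subgroup G) (h0 : G0 R N) {J : Type} [Fintype J] [DecidableEq J]
    {η : Matrix J J (MonoidAlgebra R G)} (hη : MSup (N : Set G) η) (hηη : η * η = η) :
    ∃ (ι : Type) (_ : Fintype ι) (_ : DecidableEq ι) (κ : Type) (_ : Fintype κ)
      (_ : DecidableEq κ) (e : Matrix κ κ R) (X : Matrix (J ⊕ ι) κ (MonoidAlgebra R G))
      (Y : Matrix κ (J ⊕ ι) (MonoidAlgebra R G)), MSup (N : Set G) X ∧ MSup (N : Set G) Y ∧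
      e * e = e ∧ X * Y = fromBlocks η 0 0 1 ∧ Y * X = e.map (MonoidAlgebra.single 1) := by
  have hr : Set.range N.subtype = (N : Set G) := by simp
  obtain ⟨ε', rfl⟩ := exists_map_of_msup N.subtype N.subtype_injective (hr ▸ hη)
  have hinj : Function.Injective fun M : Matrix J J (MonoidAlgebra R N) =>
      M.map (MonoidAlgebra.mapDomainRingHom R N.subtype) :=
    Matrix.map_injective (mapDomain_inj _ N.subtype_injective)
  obtain ⟨ι, _, _, κ, _, _, e, X', Y', he, hXY, hYX⟩ :=
    h0 J ε' (hinj (by simpa [Matrix.map_mul] using hηη))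
  refine ⟨ι, inferInstance, inferInstance, κ, inferInstance, inferInstance, e,
    X'.map (MonoidAlgebra.mapDomainRingHom R N.subtype),
    Y'.map (MonoidAlgebra.mapDomainRingHom R N.subtype), fun i j => hr ▸ sup_mapDomain _ _,
    fun i j => hr ▸ sup_mapDomain _ _, he, ?_, ?_⟩
  · rw [← Matrix.map_mul, hXY, fromBlocks_map, Matrix.map_zero _ (map_zero _),
      Matrix.map_zero _ (map_zero _), Matrix.map_one _ (map_zero _) (map_one _)]
  · rw [← Matrix.map_mul, hYX]
    ext1 i j; simp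

namespace TB

variable {V : Type w} [MulAction G V] {D : TB G V}

theorem splitT_std (h1 : ∀ y : V, G1 R (MulAction.stabilizer G y)) (h0 : ∀ τ, G0 R (D.C τ)) :
    D.SplitT (stdTS R G) := by
  classical
  have main : ∀ s : Finset D.E, ∀ (J : Type) [Fintype J] [DecidableEq J] (e : J → D.E) (z : J → V)
      (Θ₀ Θ₁ ε : Matrix J J (MonoidAlgebra R G)),
      MSup2 (fun i j => {x | x • z j = D.ep (e i) false}) Θ₀ →
      MSup2 (fun i j => {x | x • z j = D.ep (e i) true}) Θ₁ → MSup2 (D.Same e) ε → ε * ε = ε →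
      (∀ i j, e i ∉ s → Sup {1} (ε i j)) →
      IsUnit (ε * Θ₀ + (1 - ε) * Θ₁) → T (ε * Θ₀ + (1 - ε) * Θ₁) := by
    intro s
    induction s using Finset.induction_on with
    | empty =>
      intro J _ _ e z Θ₀ Θ₁ ε h₀ h₁ hε hεε hc hu
      obtain ⟨ε₀, rfl⟩ : ∃ ε₀ : Matrix J J R, ε₀.map (MonoidAlgebra.single 1) = ε := by
        refine ⟨fun i j => (ε i j).coeff 1, ?_⟩
        ext i j g
        rw [map_apply, MonoidAlgebra.coeff_single, Finsupp.single_apply]
        split_ifs with h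
        · rw [h]
        · by_contra h'
          exact h (hc i j (by simp) g (Ne.symm h')).symm
      have hb : ∀ i j, e i ≠ e j → ε₀ i j = 0 := fun i j h => by
        by_contra h'
        exact h (hε i j 1 (by simpa using h')).1.symm
      refine split_const h1 _ _ z ?_ (fun i j h => hb i j fun e => h (by rw [e]))
        (fun i j h => hb i j fun e => h (by rw [e])) h₀ h₁ hu
      rw [map_single_mul, mul_one] at hεε
      ext i j
      simpa using congrArg (fun M => (M i j).coeff 1) hεε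
    | insert τ s hτ ih =>
      intro J _ _ e z Θ₀ Θ₁ ε h₀ h₁ hε hεε hc hu
      have hcomm : proj _ e τ * ε = ε * proj _ e τ :=
        proj_comm e (fun i j h => (hε i j).eq_zero (sup_univ _) fun g hg => absurd hg.1.symm h) τ
      set η := proj (MonoidAlgebra R G) e τ * ε with hη
      have hηε : η * ε = η := by rw [hη, mul_assoc, hεε]
      have hεη : ε * η = η := by rw [hcomm, ← mul_assoc, hεε]
      have hηη : η * η = η := by
        conv_lhs => rw [hη, mul_assoc, ← hη, hεη, hη, ← mul_assoc, proj_mul_self]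
      have hηs : MSup2 (fun i j => {x | e i = τ ∧ e j = τ ∧ x ∈ D.C τ}) η := by
        intro i j
        rw [hη, proj_mul_apply]
        split_ifs with h
        · exact (hε i j).mono fun x hx => ⟨h, hx.1.trans h, h ▸ hx.2⟩
        · exact sup_zero _
      obtain ⟨ι, _, _, κ, _, _, e₀, X, Y, hX, hY, he₀, hXY, hYX⟩ :=
        exists_XY (D.C τ) (h0 τ) (η := η) (fun i j => (hηs i j).mono fun x hx => hx.2.2) hηη
      set ε1 : Matrix (J ⊕ ι) (J ⊕ ι) (MonoidAlgebra R G) := fromBlocks η 0 0 1 with hε1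
      set e1 : Matrix κ κ (MonoidAlgebra R G) := e₀.map (MonoidAlgebra.single 1) with he1
      have hε11 : ε1 * ε1 = ε1 := by simp [hε1, fromBlocks_multiply, hηη]
      have he11 : e1 * e1 = e1 := by rw [he1, map_single_mul, he₀, mul_one]
      have hXe : ε1 * X * e1 = ε1 * X := by
        rw [← hYX, ← Matrix.mul_assoc, Matrix.mul_assoc ε1, hXY, hε11]
      have heY : e1 * (Y * ε1) = Y * ε1 := by
        rw [← hYX, Matrix.mul_assoc, ← Matrix.mul_assoc X, hXY, hε11]
      have hXY' : ε1 * X * (Y * ε1) = ε1 := by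
        rw [Matrix.mul_assoc, ← Matrix.mul_assoc X, hXY, hε11, hε11]
      have hYX' : Y * ε1 * (ε1 * X) = e1 := by
        rw [Matrix.mul_assoc, ← Matrix.mul_assoc ε1, hε11, ← hXY, Matrix.mul_assoc,
          ← Matrix.mul_assoc, hYX, he11]
      set W : Matrix ((J ⊕ ι) ⊕ κ) ((J ⊕ ι) ⊕ κ) (MonoidAlgebra R G) :=
        fromBlocks (1 - ε1) (ε1 * X) (Y * ε1) (1 - e1) with hW
      have a1 : (1 - ε1) * (ε1 * X) = 0 := by
        rw [← Matrix.mul_assoc, sub_mul, one_mul, hε11, sub_self, Matrix.zero_mul]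
      have a2 : Y * ε1 * (1 - ε1) = 0 := by
        rw [Matrix.mul_assoc, mul_sub, mul_one, hε11, sub_self, Matrix.mul_zero]
      have hWW : W * W = 1 := by
        rw [hW, fromBlocks_multiply, ← fromBlocks_one (l := J ⊕ ι) (m := κ), fromBlocks_inj]
        refine ⟨?_, ?_, ?_, ?_⟩
        · rw [hXY', mul_sub, mul_one, sub_mul, one_mul, hε11]; abel
        · rw [a1, Matrix.mul_sub, Matrix.mul_one, hXe]; abel
        · rw [a2, Matrix.sub_mul, Matrix.one_mul, heY]; abel
        · rw [hYX', mul_sub, mul_one, sub_mul, one_mul, he11]; abel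
      let e' : J ⊕ ι → D.E := Sum.elim e fun _ => τ
      let e'' : (J ⊕ ι) ⊕ κ → D.E := Sum.elim e' fun _ => τ
      let z'' : (J ⊕ ι) ⊕ κ → V := Sum.elim (Sum.elim z fun _ => D.ep τ false) fun _ => D.ep τ true
      have hε1s : MSup2 (fun i j => {x | e' i = τ ∧ e' j = τ ∧ x ∈ D.C τ}) ε1 := by
        rintro (i | i) (j | j)
        · exact hηs i j
        · exact sup_zero _
        · exact sup_zero _
        · exact msup_one (S := {x | τ = τ ∧ τ = τ ∧ x ∈ D.C τ}) ⟨rfl, rfl, (D.C τ).one_mem⟩ i j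
      have hWs : MSup2 (fun i j => {x | x ∈ D.Same e'' i j ∧ x ∈ D.C τ}) W := by
        rintro (i | i) (j | j)
        · refine Sup.sub (msup2_one (S := fun i j => {x | x ∈ D.Same e' i j ∧ x ∈ D.C τ})
            (fun _ => ⟨⟨rfl, Subgroup.one_mem _⟩, Subgroup.one_mem _⟩) i j) ((hε1s i j).mono ?_)
          rintro x ⟨h1, h2, h3⟩
          exact ⟨⟨h2.trans h1.symm, by change x ∈ D.C (e' i); rwa [h1]⟩, h3⟩
        · refine (hε1s.mul (S' := fun _ _ => (D.C τ : Set G))
            (U := fun i _ => {x | e' i = τ ∧ x ∈ D.C τ}) hX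
            (fun _ _ _ a ha b hb => ⟨ha.1, (D.C τ).mul_mem ha.2.2 hb⟩) i j).mono ?_
          rintro x ⟨h1, h3⟩
          exact ⟨⟨h1.symm, by change x ∈ D.C (e' i); rwa [h1]⟩, h3⟩
        · refine (MSup2.mul (S := fun _ _ => (D.C τ : Set G))
            (U := fun _ j => {x | e' j = τ ∧ x ∈ D.C τ})
            hY hε1s (fun _ _ _ a ha b hb => ⟨hb.2.1, (D.C τ).mul_mem ha hb.2.2⟩) i j).mono ?_
          rintro x ⟨h1, h3⟩
          exact ⟨⟨h1, h3⟩, h3⟩
        · exact (((msup_one (D.C τ).one_mem).sub (msup_map_single (D.C τ).one_mem e₀)) i j).mono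
            fun x hx => ⟨⟨rfl, hx⟩, hx⟩
      have hWs' : MSup2 (D.Same e'') W := hWs.mono fun _ _ _ h => h.1
      have hWT : T W := T_of_isUnit_msup _ (h1 (D.ep τ false))
        (fun i j => (hWs i j).mono fun x hx => hx.2 false) ⟨⟨W, W, hWW, hWW⟩, rfl⟩
      set Θ₀' : Matrix ((J ⊕ ι) ⊕ κ) ((J ⊕ ι) ⊕ κ) (MonoidAlgebra R G) :=
        fromBlocks (fromBlocks Θ₀ 0 0 1) 0 0 0 with hΘ₀'
      set Θ₁' : Matrix ((J ⊕ ι) ⊕ κ) ((J ⊕ ι) ⊕ κ) (MonoidAlgebra R G) :=
        fromBlocks (fromBlocks Θ₁ 0 0 0) 0 0 1 with hΘ₁'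
      set ε' : Matrix ((J ⊕ ι) ⊕ κ) ((J ⊕ ι) ⊕ κ) (MonoidAlgebra R G) :=
        fromBlocks (fromBlocks ε 0 0 1) 0 0 0 with hε'
      have hV : ε' * Θ₀' + (1 - ε') * Θ₁' =
          fromBlocks (fromBlocks (ε * Θ₀ + (1 - ε) * Θ₁) 0 0 1) 0 0 1 := by
        rw [sub_mul, one_mul, sub_eq_add_neg, sub_mul, one_mul, sub_eq_add_neg]
        simp [hΘ₀', hΘ₁', hε', fromBlocks_multiply, fromBlocks_add, fromBlocks_neg]
      have hε'' : W * ε' * W = fromBlocks (fromBlocks (ε - η) 0 0 0) 0 0 e1 := by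
        set δ : Matrix (J ⊕ ι) (J ⊕ ι) (MonoidAlgebra R G) := fromBlocks (ε - η) 0 0 0 with hδ
        have b0 : (fromBlocks ε 0 0 1 : Matrix (J ⊕ ι) (J ⊕ ι) _) = ε1 + δ := by
          simp [hε1, hδ, fromBlocks_add]
        have b1 : ε1 * δ = 0 := by simp [hε1, hδ, fromBlocks_multiply, mul_sub, hηε, hηη]
        have b2 : δ * ε1 = 0 := by simp [hε1, hδ, fromBlocks_multiply, sub_mul, hεη, hηη]
        have b3 : (1 - ε1) * (ε1 + δ) = δ := by
          rw [sub_mul, one_mul, mul_add, hε11, b1]; abel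
        have b4 : Y * ε1 * (ε1 + δ) = Y * ε1 := by
          rw [Matrix.mul_assoc, mul_add, hε11, b1, add_zero]
        rw [hW, hε', b0]
        simp only [fromBlocks_multiply, Matrix.mul_zero, Matrix.zero_mul, add_zero, b3, b4, a2,
          hYX', mul_sub, mul_one, b2, sub_zero, ← Matrix.mul_assoc δ]
      have e2 : W * ε' * W * (W * Θ₀') + (1 - W * ε' * W) * (W * Θ₁') =
          W * (ε' * Θ₀' + (1 - ε') * Θ₁') := by
        have : W * ε' * W * (W * Θ₀') + (1 - W * ε' * W) * (W * Θ₁') =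
            W * ε' * (W * W) * (Θ₀' - Θ₁') + W * Θ₁' := by noncomm_ring
        rw [this, hWW]; noncomm_ring
      have hl : ∀ (b : Bool) (Θ : Matrix ((J ⊕ ι) ⊕ κ) ((J ⊕ ι) ⊕ κ) (MonoidAlgebra R G)),
          MSup2 (fun i j => {x | x • z'' j = D.ep (e'' i) b}) Θ →
          MSup2 (fun i j => {x | x • z'' j = D.ep (e'' i) b}) (W * Θ) := by
        intro b Θ hΘ
        refine hWs'.mul hΘ ?_
        rintro i j k x ⟨h2, h3⟩ y hy
        simp only [Set.mem_ofPred_eq] at hy ⊢
        rw [mul_smul, hy, h2, h3]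
      have hε's : MSup2 (D.Same e'') ε' := by
        rintro ((i | i) | i) ((j | j) | j)
        · exact hε i j
        · exact sup_zero _
        · exact sup_zero _
        · exact sup_zero _
        · exact msup_one (S := {x | τ = τ ∧ x ∈ D.C τ}) ⟨rfl, (D.C τ).one_mem⟩ i j
        all_goals exact sup_zero _
      have := ih _ e'' z'' (W * Θ₀') (W * Θ₁') (W * ε' * W) (hl _ _ ?_) (hl _ _ ?_)
        (same_mul (same_mul hWs' hε's) hWs') ?_ ?_ ?_
      · rw [e2, hV] at this
        exact T_of_stab (T_of_stab (T_cancel_left hWT this))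
      · rintro ((i | i) | i) ((j | j) | j)
        · exact h₀ i j
        · exact sup_zero _
        · exact sup_zero _
        · exact sup_zero _
        · exact msup_one (S := {x : G | x • D.ep τ false = D.ep τ false}) (one_smul _ _) i j
        all_goals exact sup_zero _
      · rintro ((i | i) | i) ((j | j) | j)
        · exact h₁ i j
        any_goals exact sup_zero _
        · exact msup_one (S := {x : G | x • D.ep τ true = D.ep τ true}) (one_smul _ _) i j
      · have : ε' * ε' = ε' := by simp [hε', fromBlocks_multiply, hεε]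
        rw [mul_assoc, mul_assoc, ← mul_assoc W (W * ε'), ← mul_assoc W W, hWW, one_mul,
          ← mul_assoc ε', this, ← mul_assoc]
      · rw [hε'']
        rintro ((i | i) | i) ((j | j) | j) h
        · change Sup _ (ε i j - η i j)
          rw [hη, proj_mul_apply]
          split_ifs with h'
          · rw [sub_self]; exact sup_zero _
          · rw [sub_zero]
            exact hc i j fun h2 => (Finset.mem_insert.1 h2).elim h' h
        any_goals exact sup_zero _
        · exact msup_map_single (S := {1}) rfl e₀ i j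
      · rw [e2, hV]
        exact hWT.isUnit.mul (isUnit_fromBlocks_diag (isUnit_fromBlocks_diag hu isUnit_one)
          isUnit_one)
  intro J _ _ e z Θ₀ Θ₁ ε h₀ h₁ hε hεε hu
  exact main (Finset.univ.image e) J e z Θ₀ Θ₁ ε h₀ h₁ hε hεε
    (fun i j h => absurd (Finset.mem_image_of_mem _ (Finset.mem_univ i)) h) hu

end TB

end Pool.Agent.MP_f7db47_al

end
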