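import Pool.Agent.Mg.Ff7db47.Ge8dfd1
import Pool.Agent.MP_f7db47_al.Defs

section

/-! Membership in the class `D` for groups acting on a line. -/

namespace Pool.Agent.MP_f7db47_al

open Equiv

section amb

variable {P : Type} [Group P]

theorem ClassD.of_le {H K : Subgroup P} (h : H ≤ K) (hK : ClassD K) : ClassD H :=
  .sub _ _ (Subgroup.inclusion h) (Subgroup.inclusion_injective h) hK

theorem fg_map {Q : Type} [Group Q] {K : Subgroup P} (h : K.FG) (f : P →* Q) : (K.map f).FG := by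
  classical
  obtain ⟨S, rfl⟩ := h
  exact ⟨S.image f, by rw [MonoidHom.map_closure, Finset.coe_image]⟩

theorem ClassD.of_map {G : Subgroup P} {K : Subgroup G} (h : ClassD (K.map G.subtype)) :
    ClassD K :=
  .sub _ _ (K.equivMapOfInjective _ G.subtype_injective).toMonoidHom (MulEquiv.injective _) h

theorem ClassD.loc_amb (G : Subgroup P) (h : ∀ M, M ≤ G → M.FG → ClassD M) : ClassD G :=
  .loc _ fun K hK => .of_map (h _ (Subgroup.map_subtype_le K) (fg_map hK _))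

theorem ClassD.int : ClassD (Multiplicative ℤ) :=
  .poly _ (.ext _ (MonoidHom.id _) (.triv _ ⟨fun a b => Subtype.ext (a.2.trans b.2.symm)⟩))

theorem ClassD.ext_amb (G : Subgroup P) (h : G →* Multiplicative ℤ)
    (hN : ClassD (h.ker.map G.subtype)) (r : Subgroup P → Subgroup P → Prop) (hr : WellFounded r)
    (step : ∀ K, K ≤ h.ker.map G.subtype → K.FG → ∀ x : G, h x ≠ 1 →
      ClassD (K ⊔ Subgroup.zpowers (x : P) : Subgroup P) ∨
      (∀ M, M.FG → M ≤ K → (∀ y ∈ M, (x : P)⁻¹ * y * x ∈ K) → r M K) ∨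
      (∀ M, M.FG → M ≤ K → (∀ y ∈ M, (x : P) * y * (x : P)⁻¹ ∈ K) → r M K)) : ClassD G := by
  refine .ext _ h (.of_map hN) {K : Subgroup G // K.FG ∧ K ≤ h.ker} Subtype.val
    (fun M L => r (M.1.map G.subtype) (L.1.map G.subtype)) (InvImage.wf _ hr) (fun K => K.2.2)
    (fun M h1 h2 => ⟨⟨M, h1, h2⟩, le_rfl⟩) (fun K x => ClassD ↥(K.1 ⊔ Subgroup.zpowers x))
    (fun _ _ h => h) fun ⟨K, hK, hle⟩ x hx => ?_
  have hD : ∀ x : G, (∀ M, M.FG → M ≤ K.map G.subtype →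
      (∀ y ∈ M, (x : P)⁻¹ * y * x ∈ K.map G.subtype) → r M (K.map G.subtype)) →
      Drops (ι := {K : Subgroup G // K.FG ∧ K ≤ h.ker}) Subtype.val
        (fun M L => r (M.1.map G.subtype) (L.1.map G.subtype)) ⟨K, hK, hle⟩ x := by
    intro x k M hM hM'
    refine ⟨⟨M, hM, (hM'.trans inf_le_left).trans hle⟩,
      k _ (fg_map hM _) (Subgroup.map_mono (hM'.trans inf_le_left)) ?_, le_rfl⟩
    rintro _ ⟨y, hy, rfl⟩
    obtain ⟨z, hz, rfl⟩ := (hM' hy).2
    exact ⟨z, hz, by simp [mul_assoc]⟩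
  rcases step _ (Subgroup.map_mono hle) (fg_map hK _) x hx with k | k | k
  · refine Or.inl (.of_map ?_)
    rwa [Subgroup.map_sup, MonoidHom.map_zpowers]
  · exact Or.inr (Or.inl (hD x k))
  · exact Or.inr (Or.inr (hD x⁻¹ (by simpa using k)))

end amb

variable {X : Type} [ConditionallyCompleteLinearOrder X] {G L M : Subgroup (Perm X)} {a b p q : X}

/-- The restriction homomorphism. -/
noncomputable def resHom (h : L ≤ Fix2 p q) : L →* res L p q :=
  ((cut p q).comp (Subgroup.inclusion h)).codRestrict _ fun g => cut_mem_res g.2 (h g.2)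

theorem resHom_eq_one {h : L ≤ Fix2 p q} {g : L} (e : resHom h g = 1) {x : X} (h1 : p ≤ x)
    (h2 : x ≤ q) : g.1 x = x := by
  have : cutFun p q g.1 x = x := congr(($e).1 x)
  rwa [cutFun_in h1 h2] at this

variable [DenselyOrdered X] [NoMinOrder X] [NoMaxOrder X]

omit [NoMinOrder X] in
theorem Tame.decomp (T : Tame M) (hfin : ∀ g ∈ M, {a | g a = a ∧ ¬ TR g a}.Finite) (hM : M.FG)
    (hq : ∀ g ∈ M, g q = q) (hp : ∀ g ∈ M, g p = p)
    (ih : ∀ a b, Orb M a b → p ≤ a → b ≤ q → ClassD (res M a b)) : ClassD (res M p q) := by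
  have hΦ : {a | ∃ b, Orb M a b}.Finite := by
    obtain ⟨S, rfl⟩ := hM
    refine (S.finite_toSet.biUnion fun g hg => hfin g (Subgroup.subset_closure hg)).subset ?_
    rintro a ⟨b, ho⟩
    by_contra hc
    obtain ⟨c, h1, h2⟩ := TL_closure (X := Xᵒᵈ) S a fun g hg => TR.dual (X := X) (by
      by_contra k
      exact hc (Set.mem_biUnion hg ⟨(ho.2.1 g (Subgroup.subset_closure hg)).1, k⟩))
    obtain ⟨z, z1, z2⟩ := exists_between (lt_min (show a < c from h1) ho.1)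
    obtain ⟨g, hg, e⟩ := ho.2.2 z z1 (z2.trans_le (min_le_right _ _))
    exact e (h2 g hg z (z2.trans_le (min_le_left _ _)) z1)
  generalize hn : {a | (∃ b, Orb M a b) ∧ p ≤ a}.ncard = n
  induction n using Nat.strong_induction_on generalizing p with
  | _ n ihn =>
    have hfp : {a | (∃ b, Orb M a b) ∧ p ≤ a}.Finite := hΦ.subset fun _ h => h.1
    have hmv : ∀ y, p ≤ y → (∃ g ∈ M, g y ≠ y) → ∃ a, a < y ∧ (∃ b, Orb M a b) ∧ p ≤ a := by
      intro y hy h
      obtain ⟨a, b, o1, o2, ho⟩ := T.exists_orb h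
      refine ⟨a, o1, ⟨b, ho⟩, not_lt.1 fun c => ?_⟩
      obtain ⟨g, hg, e⟩ := ho.2.2 p c (hy.trans_lt o2)
      exact e (hp g hg)
    by_cases htriv : ∀ y, p ≤ y → y ≤ q → ∀ g ∈ M, g y = y
    · refine .poly _ (.triv _ ⟨fun σ τ => ?_⟩)
      have : ∀ σ : res M p q, σ = 1 := fun σ => Subtype.ext (Equiv.ext fun x => by
        by_cases hx : p ≤ x ∧ x ≤ q
        · exact res_fix σ.2 (htriv x hx.1 hx.2)
        · exact res_out σ.2 hx)
      rw [this σ, this τ]
    push Not at htriv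
    obtain ⟨y, y1, y2, hy⟩ := htriv
    obtain ⟨a₀, k1, k2⟩ := hmv y y1 hy
    obtain ⟨a, ⟨⟨b, ho⟩, hpa⟩, hmin⟩ := Set.exists_min_image _ id hfp ⟨a₀, k2⟩
    have haq : a < q := ((hmin a₀ k2).trans_lt k1).trans_le y2
    have hbq : b ≤ q := not_lt.1 fun c => by
      obtain ⟨g, hg, e⟩ := ho.2.2 q haq c
      exact e (hq g hg)
    have hpb : p ≤ b := hpa.trans ho.1.le
    have fa : ∀ σ ∈ res M p q, σ a = a := fun σ hσ => res_fix hσ fun g hg => (ho.2.1 g hg).1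
    have fb : ∀ σ ∈ res M p q, σ b = b := fun σ hσ => res_fix hσ fun g hg => (ho.2.1 g hg).2
    have h1 : res M p q ≤ Fix2 a b := fun σ hσ => ⟨res_strictMono hσ, fa σ hσ, fb σ hσ⟩
    have h2 : res M p q ≤ Fix2 b q := fun σ hσ => ⟨res_strictMono hσ, fb σ hσ, res_fix hσ hq⟩
    refine .sub _ _ ((resHom h1).prod (resHom h2)) ((injective_iff_map_eq_one _).2 fun σ e => ?_)
      (.prod _ _ (.of_le (res_res hpa haq.le hpb hbq) (ih a b ho hpa hbq))
        (.of_le (res_res hpb hbq (hpb.trans hbq) le_rfl) (ihn _ ?_ (fun g hg => (ho.2.1 g hg).2)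
          (fun a' b' o l1 l2 => ih a' b' o (hpb.trans l1) l2) rfl)))
    · refine Subtype.ext (Equiv.ext fun x => ?_)
      by_cases hx : p ≤ x ∧ x ≤ q
      swap
      · exact res_out σ.2 hx
      by_cases hxa : x ≤ a
      · refine res_fix σ.2 fun g hg => ?_
        by_contra c
        obtain ⟨a', l1, l2⟩ := hmv x hx.1 ⟨g, hg, c⟩
        exact (l1.trans_le hxa).not_ge (hmin a' l2)
      rcases le_total x b with hxb | hxb
      · exact resHom_eq_one (congrArg Prod.fst e) (not_le.1 hxa).le hxb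
      · exact resHom_eq_one (congrArg Prod.snd e) hxb hx.2
    · rw [← hn]
      refine Set.ncard_lt_ncard ⟨fun z hz => ⟨hz.1, hpb.trans hz.2⟩, fun c => ?_⟩ hfp
      exact ho.1.not_ge (c ⟨⟨b, ho⟩, hpa⟩).2

theorem Tame.ext_step (T : Tame G) (hfin : ∀ g ∈ G, {a | g a = a ∧ ¬ TR g a}.Finite)
    (ho : Orb G a b) (hs : ∀ g ∈ G, ∀ x, x ≤ a ∨ b ≤ x → g x = x)
    (ih : ∀ M a' b', M ≤ G → M.FG → Orb M a' b' → a < a' → b' < b → ClassD (res M a' b'))
    (h : G →* Multiplicative ℤ) (hker : ∀ g : G, h g = 1 ↔ TR g.1 a) : ClassD G := by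
  have inner : ∀ M p q, M ≤ G → M.FG → M ≤ Fix2 p q → a < p → q < b → ClassD (res M p q) :=
    fun M p q h1 h2 h3 h4 h5 => (T.sub h1).decomp (fun g hg => hfin g (h1 hg)) h2
      (fun g hg => (h3 hg).2.2) (fun g hg => (h3 hg).2.1) fun a' b' o l1 l2 =>
        ih M a' b' h1 h2 o (h4.trans_le l1) (l2.trans_lt h5)
  have hNG : h.ker.map G.subtype ≤ G := Subgroup.map_subtype_le _
  have hull : ∀ K, K ≤ h.ker.map G.subtype → K.FG → K ≠ ⊥ →
      a < lo K ∧ hi K < b ∧ K ≤ Fix2 (lo K) (hi K) ∧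
        ∀ g ∈ K, ∀ x, ¬ (lo K ≤ x ∧ x ≤ hi K) → g x = x := by
    intro K h1 h2 h3
    have TK := T.sub (h1.trans hNG)
    have hTR : ∀ g ∈ K, TR g a := fun g hg => by
      obtain ⟨k, hk, rfl⟩ := h1 hg
      exact (hker k).1 hk
    obtain ⟨c, c1, c2⟩ := TR_fg h2 hTR
    obtain ⟨e, e1, e2⟩ := TL_fg h2 fun g hg => T.balanced' ho (hNG (h1 hg)) (hTR g hg)
    refine ⟨c1.trans_le (le_lo h3 fun g hg x hx => ?_), (hi_le h3 fun g hg x hx => ?_).trans_lt e1,
      fun g hg => ⟨TK.mono g hg, TK.lo_fix h3 hg le_rfl, TK.hi_fix h3 hg le_rfl⟩,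
      fun g hg x hx => ?_⟩
    · exact (le_or_gt x a).elim (fun k => hs g (hNG (h1 hg)) x (Or.inl k)) fun k => c2 g hg x k hx
    · exact (le_or_gt b x).elim (fun k => hs g (hNG (h1 hg)) x (Or.inr k)) fun k => e2 g hg x hx k
    · rcases not_and_or.1 hx with k | k
      · exact TK.lo_fix h3 hg (not_le.1 k).le
      · exact TK.hi_fix h3 hg (not_le.1 k).le
  have hpow : ∀ (x : G) (k : ℤ), h x ≠ 1 → h (x ^ k) = 1 → k = 0 := fun x k hx e => by
    have : k * (h x).toAdd = 0 := by simpa using congrArg Multiplicative.toAdd e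
    exact (mul_eq_zero.1 this).resolve_right fun c =>
      hx (Multiplicative.toAdd.injective (by simpa using c))
  refine .ext_amb G h (.loc_amb _ fun M h1 h2 => ?_) (Hull G) T.wf_hull fun K h1 h2 x hx => ?_
  · by_cases h3 : M = ⊥
    · rw [h3]; exact .poly _ (.triv _ inferInstance)
    obtain ⟨k1, k2, k3, k4⟩ := hull M h1 h2 h3
    exact .of_le (le_res k3 k4) (inner M _ _ (h1.trans hNG) h2 k3 k1 k2)
  have hR : K ⊔ Subgroup.zpowers x.1 ≤ G := sup_le (h1.trans hNG) (Subgroup.zpowers_le.2 x.2)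
  by_cases h3 : K = ⊥
  · subst h3
    refine Or.inl (.sub _ _ (h.comp (Subgroup.inclusion hR))
      ((injective_iff_map_eq_one _).2 fun ⟨y, hy⟩ e => ?_) .int)
    obtain ⟨k, rfl⟩ : y ∈ Subgroup.zpowers x.1 := by simpa using hy
    obtain rfl := hpow x k hx e
    exact Subtype.ext (zpow_zero _)
  obtain ⟨k1, k2, k3, k4⟩ := hull K h1 h2 h3
  have TK := T.sub (h1.trans hNG)
  have hD : ∀ x : Perm X, x ∈ G → (lo K < x (lo K) ∨ x (hi K) < hi K) →
      ∀ M : Subgroup (Perm X), M.FG → M ≤ K → (∀ y ∈ M, x⁻¹ * y * x ∈ K) → Hull G M K := by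
    intro x hx c M _ m1 m2
    refine ⟨m1, h1.trans hNG, h2, h3, or_iff_not_imp_left.2 fun m3 => c.imp (fun c => ?_) fun c => ?_⟩
    · refine c.trans_le (le_lo m3 fun g hg z hz => ?_)
      have := TK.lo_fix h3 (m2 g hg) ((inv_lt' (T.mono x hx)).2 hz).le
      simpa using this
    · refine (hi_le m3 fun g hg z hz => ?_).trans_lt c
      have := TK.hi_fix h3 (m2 g hg) ((lt_inv' (T.mono x hx)).2 hz).le
      simpa using this
  have mx := T.mono x x.2
  by_cases c : lo K < x.1 (lo K) ∨ x.1 (hi K) < hi K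
  · exact Or.inr (Or.inl (hD x x.2 c))
  by_cases c' : x.1 (lo K) < lo K ∨ hi K < x.1 (hi K)
  · refine Or.inr (Or.inr ?_)
    simpa using hD x.1⁻¹ (inv_mem x.2) (c'.imp (lt_inv' mx).2 (inv_lt' mx).2)
  push Not at c c'
  have hxF : x.1 ∈ Fix2 (lo K) (hi K) := ⟨mx, le_antisymm c.1 c'.1, le_antisymm c'.2 c.2⟩
  have hRF : K ⊔ Subgroup.zpowers x.1 ≤ Fix2 (lo K) (hi K) := sup_le k3 (Subgroup.zpowers_le.2 hxF)
  refine Or.inl (.sub _ _ ((resHom hRF).prod (h.comp (Subgroup.inclusion hR)))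
    ((injective_iff_map_eq_one _).2 fun y e => ?_) (.prod _ _ (inner _ _ _ hR (h2.sup ?_) hRF k1 k2)
      .int))
  swap
  · rw [Subgroup.zpowers_eq_closure]
    exact (Subgroup.fg_iff _).2 ⟨_, rfl, Set.toFinite _⟩
  let Z : Subgroup (Perm X) :=
    { carrier := {y | ∃ k : ℤ, ∀ z, ¬ (lo K ≤ z ∧ z ≤ hi K) → y z = (x.1 ^ k) z}
      one_mem' := ⟨0, by simp⟩
      mul_mem' := by
        rintro y y' ⟨k, hk⟩ ⟨k', hk'⟩
        refine ⟨k + k', fun z hz => ?_⟩
        rw [Perm.mul_apply, hk' z hz, hk _ (mt (Fix2_mem (zpow_mem hxF k')).1 hz), zpow_add]; rfl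
      inv_mem' := by
        rintro y ⟨k, hk⟩
        refine ⟨-k, fun z hz => ?_⟩
        rw [Perm.inv_eq_iff_eq, hk _ (mt (Fix2_mem (zpow_mem hxF (-k))).1 hz)]; simp }
  have hZ : K ⊔ Subgroup.zpowers x.1 ≤ Z :=
    sup_le (fun g hg => ⟨0, by simpa using k4 g hg⟩) (Subgroup.zpowers_le.2 ⟨1, by simp⟩)
  obtain ⟨k, hk⟩ := hZ y.2
  obtain ⟨d, d1, d2⟩ := (hker _).1 (congrArg Prod.snd e)
  obtain rfl : k = 0 := hpow x k hx ((hker _).2 ⟨_, lt_min d1 k1, fun z z1 z2 => by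
    rw [Subgroup.coe_zpow, ← hk z fun c => (z2.trans_le (min_le_right _ _)).not_ge c.1]
    exact d2 z z1 (z2.trans_le (min_le_left _ _))⟩)
  refine Subtype.ext (Equiv.ext fun z => ?_)
  by_cases hz : lo K ≤ z ∧ z ≤ hi K
  · exact resHom_eq_one (congrArg Prod.fst e) hz.1 hz.2
  · simpa using hk z hz

end Pool.Agent.MP_f7db47_al

end

section

/-! Piecewise linear homeomorphisms: slopes and tameness. -/

namespace Pool.Agent.MP_f7db47_al

open Equiv

variable {g h : Perm ℝ} {a b p q σ l m : ℝ} {G : Subgroup (Perm ℝ)}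

theorem IsPL.lin (hg : IsPL g) (a : ℝ) (hσ : σ = 1 ∨ σ = -1) :
    ∃ ε, 0 < ε ∧ ∃ c d : ℝ, ∀ t, 0 ≤ t → t ≤ ε → g (a + σ * t) = c * (a + σ * t) + d := by
  obtain ⟨-, -, S, hS⟩ := hg
  have : ∃ ε : ℝ, 0 < ε ∧ ∀ s ∈ S, s = a ∨ ε ≤ |s - a| := by
    clear hS
    induction S using Finset.induction_on with
    | empty => exact ⟨1, one_pos, by simp⟩
    | insert s S _ ih =>
      obtain ⟨ε, h1, h2⟩ := ih
      by_cases hs : s = a
      · exact ⟨ε, h1, fun x hx => (Finset.mem_insert.1 hx).elim (fun k => Or.inl (k.trans hs))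
          (h2 x)⟩
      · refine ⟨min ε |s - a|, lt_min h1 (abs_pos.2 (sub_ne_zero.2 hs)), fun x hx => ?_⟩
        rcases Finset.mem_insert.1 hx with rfl | hx
        · exact Or.inr (min_le_right _ _)
        · exact (h2 x hx).imp_right (min_le_left _ _).trans
  obtain ⟨ε, h1, h2⟩ := this
  refine ⟨ε, h1, ?_⟩
  rcases hσ with rfl | rfl
  · obtain ⟨c, d, h⟩ := hS a (a + ε) fun s hs ⟨k1, k2⟩ => by
      rcases h2 s hs with k | k
      · linarith
      · rw [abs_of_pos (by linarith)] at k; linarith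
    exact ⟨c, d, fun t t1 t2 => h _ ⟨by linarith, by linarith⟩⟩
  · obtain ⟨c, d, h⟩ := hS (a - ε) a fun s hs ⟨k1, k2⟩ => by
      rcases h2 s hs with k | k
      · linarith
      · rw [abs_of_neg (by linarith)] at k; linarith
    exact ⟨c, d, fun t t1 t2 => h _ ⟨by linarith, by linarith⟩⟩

theorem IsPL.dich (hg : IsPL g) (a : ℝ) (hσ : σ = 1 ∨ σ = -1) :
    ∃ ε, 0 < ε ∧ ((∀ t, 0 < t → t < ε → g (a + σ * t) = a + σ * t) ∨
      ∀ t, 0 < t → t < ε → g (a + σ * t) ≠ a + σ * t) := by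
  obtain ⟨ε, h1, c, d, h⟩ := hg.lin a hσ
  by_cases hc : ∃ t, 0 < t ∧ t < ε ∧ g (a + σ * t) = a + σ * t
  swap
  · exact ⟨ε, h1, Or.inr fun t t1 t2 k => hc ⟨t, t1, t2, k⟩⟩
  obtain ⟨t₀, t1, t2, k⟩ := hc
  refine ⟨t₀, t1, ?_⟩
  rw [h t₀ t1.le t2.le] at k
  by_cases c1 : c = 1
  · refine Or.inl fun t k1 k2 => ?_
    rw [h t k1.le (k2.trans t2).le]
    rw [c1] at k ⊢
    linarith
  · refine Or.inr fun t k1 k2 k3 => ?_
    rw [h t k1.le (k2.trans t2).le] at k3
    have : (c - 1) * (σ * (t₀ - t)) = 0 := by linear_combination k - k3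
    rcases mul_eq_zero.1 this with e | e
    · exact c1 (by linarith)
    · rcases hσ with rfl | rfl <;> linarith

theorem IsPL.right (hg : IsPL g) (a : ℝ) :
    TR g a ∨ ∃ c, a < c ∧ ∀ x, a < x → x < c → g x ≠ x := by
  obtain ⟨ε, h1, h⟩ := hg.dich a (Or.inl rfl)
  refine h.imp (fun h => ⟨a + ε, by linarith, fun x k1 k2 => ?_⟩)
    fun h => ⟨a + ε, by linarith, fun x k1 k2 => ?_⟩
  all_goals simpa using h (x - a) (by linarith) (by linarith)

theorem IsPL.left (hg : IsPL g) (a : ℝ) :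
    TL g a ∨ ∃ c, c < a ∧ ∀ x, c < x → x < a → g x ≠ x := by
  obtain ⟨ε, h1, h⟩ := hg.dich a (Or.inr rfl)
  refine h.imp (fun h => ⟨a - ε, by linarith, fun x k1 k2 => ?_⟩)
    fun h => ⟨a - ε, by linarith, fun x k1 k2 => ?_⟩
  all_goals simpa using h (a - x) (by linarith) (by linarith)

/-- One sided slope at a fixed point. -/
def Slope (g : Perm ℝ) (a σ l : ℝ) : Prop :=
  0 < l ∧ ∃ ε, 0 < ε ∧ ∀ t, 0 ≤ t → t ≤ ε → g (a + σ * t) = a + σ * (l * t)

theorem IsPL.slope (hg : IsPL g) (ha : g a = a) (hσ : σ = 1 ∨ σ = -1) : ∃ l, Slope g a σ l := by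
  obtain ⟨ε, h1, c, d, h⟩ := hg.lin a hσ
  have h0 := h 0 le_rfl h1.le
  rw [mul_zero, add_zero, ha] at h0
  have key : ∀ t, 0 ≤ t → t ≤ ε → g (a + σ * t) = a + σ * (c * t) := fun t t1 t2 => by
    rw [h t t1 t2]; linear_combination -h0
  refine ⟨c, ?_, ε, h1, key⟩
  have k := key ε h1.le le_rfl
  rcases hσ with rfl | rfl
  · have := hg.1 (show a < a + 1 * ε by linarith)
    rw [k, ha] at this
    exact (mul_pos_iff_of_pos_right h1).1 (by linarith : 0 < c * ε)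
  · have := hg.1 (show a + -1 * ε < a by linarith)
    rw [k, ha] at this
    exact (mul_pos_iff_of_pos_right h1).1 (by linarith : 0 < c * ε)

theorem Slope.mul (h1 : Slope g a σ l) (h2 : Slope h a σ m) : Slope (g * h) a σ (l * m) := by
  obtain ⟨l0, ε, e0, k1⟩ := h1
  obtain ⟨m0, δ, d0, k2⟩ := h2
  refine ⟨mul_pos l0 m0, min δ (ε / m), lt_min d0 (div_pos e0 m0), fun t t1 t2 => ?_⟩
  rw [Perm.mul_apply, k2 t t1 (t2.trans (min_le_left _ _)), k1 _ (by positivity)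
    ((le_div_iff₀' m0).1 (t2.trans (min_le_right _ _))), mul_assoc]

theorem Slope.unique (hσ : σ = 1 ∨ σ = -1) (h1 : Slope g a σ l) (h2 : Slope g a σ m) : l = m := by
  obtain ⟨-, ε, e0, k1⟩ := h1
  obtain ⟨-, δ, d0, k2⟩ := h2
  have t0 := lt_min e0 d0
  have := (k1 _ t0.le (min_le_left _ _)).symm.trans (k2 _ t0.le (min_le_right _ _))
  refine mul_right_cancel₀ t0.ne' ?_
  rcases hσ with rfl | rfl <;> linarith

theorem slope_one (a σ : ℝ) : Slope 1 a σ 1 := ⟨one_pos, 1, one_pos, by simp⟩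

theorem slope_comm (hG : ∀ g ∈ G, IsPL g) (hg : g ∈ G) (hh : h ∈ G) (h1 : g a = a) (h2 : h a = a)
    (hσ : σ = 1 ∨ σ = -1) : Slope (g * h * g⁻¹ * h⁻¹) a σ 1 := by
  obtain ⟨l, k1⟩ := (hG g hg).slope h1 hσ
  obtain ⟨m, k2⟩ := (hG h hh).slope h2 hσ
  obtain ⟨l', k3⟩ := (hG _ (inv_mem hg)).slope (inv_fix h1) hσ
  obtain ⟨m', k4⟩ := (hG _ (inv_mem hh)).slope (inv_fix h2) hσ
  have e1 : l * l' = 1 := Slope.unique hσ (k1.mul k3) (by simpa using slope_one a σ)
  have e2 : m * m' = 1 := Slope.unique hσ (k2.mul k4) (by simpa using slope_one a σ)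
  convert ((k1.mul k2).mul k3).mul k4 using 1
  linear_combination (-1 : ℝ) * (m * m') * e1 - e2

theorem Slope.tr (h : Slope g a 1 1) : TR g a := by
  obtain ⟨-, ε, e0, k⟩ := h
  exact ⟨a + ε, by linarith, fun x k1 k2 => by simpa using k (x - a) (by linarith) (by linarith)⟩

theorem Slope.tl (h : Slope g a (-1) 1) : TL g a := by
  obtain ⟨-, ε, e0, k⟩ := h
  exact ⟨a - ε, by linarith, fun x k1 k2 => by simpa using k (a - x) (by linarith) (by linarith)⟩

theorem TR.slope (h : TR g a) (ha : g a = a) : Slope g a 1 1 := by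
  obtain ⟨c, h1, h2⟩ := h
  refine ⟨one_pos, (c - a) / 2, by linarith, fun t t1 t2 => ?_⟩
  rcases t1.eq_or_lt with rfl | t1
  · simpa using ha
  · simpa using h2 (a + t) (by linarith) (by linarith)

theorem IsPL.fin (hg : IsPL g) : {a | g a = a ∧ ¬ TR g a}.Finite := by
  classical
  obtain ⟨-, -, S, hS⟩ := hg
  have key : ∀ a a' : ℝ, g a = a → ¬ TR g a → g a' = a' → a < a' →
      S.filter (· ≤ a) ≠ S.filter (· ≤ a') := by
    intro a a' h1 h2 h3 h4 e
    obtain ⟨c, d, h⟩ := hS a a' fun s hs k => by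
      have : s ∈ S.filter (· ≤ a) := e ▸ Finset.mem_filter.2 ⟨hs, k.2.le⟩
      exact k.1.not_ge (Finset.mem_filter.1 this).2
    have e1 := h a ⟨le_rfl, h4.le⟩
    have e2 := h a' ⟨h4.le, le_rfl⟩
    rw [h1] at e1
    rw [h3] at e2
    have c1 : c = 1 := mul_right_cancel₀ (sub_pos.2 h4).ne' (by linarith)
    refine h2 ⟨a', h4, fun x k1 k2 => ?_⟩
    rw [h x ⟨k1.le, k2.le⟩]
    rw [c1] at e1 ⊢
    linarith
  refine Set.Finite.of_finite_image (f := fun a => S.filter (· ≤ a))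
    (S.powerset.finite_toSet.subset ?_) fun a ha a' ha' e => ?_
  · rintro _ ⟨a, -, rfl⟩
    exact Finset.mem_powerset.2 (Finset.filter_subset _ _)
  · rcases lt_trichotomy a a' with k | k | k
    · exact absurd e (key a a' ha.1 ha.2 ha'.1 k)
    · exact k
    · exact absurd e.symm (key a' a ha'.1 ha'.2 ha.1 k)

theorem tame_of_PL (hG : ∀ g ∈ G, IsPL g)
    (hacc : ∀ L a b, L ≤ G → L.FG → Orb L a b → Acc Rel (L, a, b)) : Tame G where
  mono g hg := (hG g hg).1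
  bdd := ⟨-1, 2, fun g hg x hx => (hG g hg).2.1 x fun k => by
    rcases hx with hx | hx <;> linarith [k.1, k.2]⟩
  right g hg := (hG g hg).right
  left g hg := (hG g hg).left
  commR _ hg _ hh _ h1 h2 := (slope_comm hG hg hh h1 h2 (Or.inl rfl)).tr
  commL _ hg _ hh _ h1 h2 := (slope_comm hG hg hh h1 h2 (Or.inr rfl)).tl
  acc := hacc

theorem res_PL (hG : ∀ g ∈ G, IsPL g) {τ : Perm ℝ} (h : τ ∈ res G p q) : IsPL τ := by
  classical
  refine ⟨res_strictMono h, fun x hx => res_fix h fun g hg => (hG g hg).2.1 x hx, ?_⟩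
  obtain ⟨g, hg, h1, e⟩ := mem_res.1 h
  obtain ⟨-, -, S, hS⟩ := hG g hg
  refine ⟨insert p (insert q S), fun a b k => ?_⟩
  have hp := k p (by simp)
  have hq := k q (by simp)
  by_cases c : p ≤ a ∧ b ≤ q
  · obtain ⟨c', d, h⟩ := hS a b fun s hs => k s (by simp [hs])
    exact ⟨c', d, fun x hx => by rw [e, cutFun_in (c.1.trans hx.1) (hx.2.trans c.2), h x hx]⟩
  · refine ⟨1, 0, fun x hx => ?_⟩
    rw [one_mul, add_zero, e, cutFun]
    split_ifs with k
    · simp only [Set.mem_Ioo, not_and, not_lt, not_le] at hp hq c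
      by_cases c1 : p ≤ a
      · have : x = q := by
          by_contra c2
          exact (c c1).not_ge (hq (hx.1.trans_lt (lt_of_le_of_ne k.2 c2)))
        rw [this, h1.2.2]
      · rw [le_antisymm (hx.2.trans (hp (not_le.1 c1))) k.1, h1.2.1]
    · rfl

theorem exists_logSlope (hG : ∀ g ∈ G, IsPL g) (ha : ∀ g ∈ G, g a = a) :
    ∃ χ : G →* Multiplicative ℝ, ∀ g : G, Slope g.1 a 1 (Real.exp (χ g).toAdd) := by
  choose s hs using fun g : G => (hG g g.2).slope (ha g g.2) (Or.inl rfl)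
  refine ⟨MonoidHom.mk' (fun g => Multiplicative.ofAdd (Real.log (s g))) fun g h => ?_,
    fun g => by simpa [Real.exp_log (hs g).1] using hs g⟩
  rw [Slope.unique (Or.inl rfl) (hs (g * h)) ((hs g).mul (hs h)),
    Real.log_mul (hs g).1.ne' (hs h).1.ne', ofAdd_add]

theorem polyZ_of_pi (n : ℕ) : ∀ (H : Type) [Group H] (φ : H →* Multiplicative (Fin n → ℤ)),
    Function.Injective φ → PolyZ H := by
  induction n with
  | zero => exact fun H _ φ hφ => .triv _ hφ.subsingleton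
  | succ n ih =>
    intro H _ φ hφ
    refine .ext _ ((Pi.evalAddMonoidHom (fun _ => ℤ) 0).toMultiplicative.comp φ) (ih _
      ((((LinearMap.funLeft ℤ ℤ Fin.succ).toAddMonoidHom.toMultiplicative).comp φ).comp
        (Subgroup.subtype _)) ((injective_iff_map_eq_one _).2 fun x hx => ?_))
    refine Subtype.ext (hφ (Multiplicative.toAdd.injective (funext fun i => ?_)))
    rw [OneMemClass.coe_one, map_one]
    refine Fin.cases ?_ (fun i => ?_) i
    · exact congrArg Multiplicative.toAdd (show _ = 1 from x.2)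
    · exact congrFun (congrArg Multiplicative.toAdd hx) i

theorem polyZ_of_real {H : Type} [Group H] [Group.FG H] (χ : H →* Multiplicative ℝ)
    (hχ : Function.Injective χ) : PolyZ H := by
  let A : AddSubgroup ℝ := AddSubgroup.toSubgroup.symm χ.range
  have : AddGroup.FG A := AddGroup.fg_iff_mul_fg.2 (Group.fg_range χ)
  have : Module.Finite ℤ A := Module.Finite.iff_addGroup_fg.2 this
  let e := (Module.finBasis ℤ A).equivFun
  let ψ : H →* Multiplicative A := χ.rangeRestrict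
  exact polyZ_of_pi _ H (e.toAddEquiv.toAddMonoidHom.toMultiplicative.comp ψ)
    (e.injective.comp (MonoidHom.rangeRestrict_injective_iff.2 hχ))

end Pool.Agent.MP_f7db47_al

end

section

/-! Piecewise linear groups without infinite towers lie in the class `D`. -/

namespace Pool.Agent.MP_f7db47_al

open Equiv

variable {a b : ℝ} {G : Subgroup (Perm ℝ)}

theorem exists_zone {f g : Perm ℝ} (hf : f ∈ G) (hg : g ∈ G) {μ l δ : ℝ} (h0 : 0 < μ) (h1 : μ < 1)
    (hδ : 0 < δ) (hf' : ∀ t, 0 ≤ t → t ≤ δ → f (a + t) = a + μ * t) (hl : Slope g a 1 l)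
    (hl2 : l ≤ 2) : ∃ g' ∈ G, ∀ t, 0 ≤ t → t ≤ δ / 2 → g' (a + t) = a + l * t := by
  obtain ⟨l0, ε, e0, hε⟩ := hl
  have hn : ∀ (n : ℕ) t, 0 ≤ t → t ≤ δ → (f ^ n) (a + t) = a + μ ^ n * t := by
    intro n t t1 t2
    induction n with
    | zero => simp
    | succ n ih =>
      rw [pow_succ', Perm.mul_apply, ih, hf' _ (by positivity)
        ((mul_le_of_le_one_left t1 (pow_le_one₀ h0.le h1.le)).trans t2)]
      ring
  obtain ⟨n, hn'⟩ := exists_pow_lt_of_lt_one (div_pos e0 hδ) h1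
  refine ⟨(f ^ n)⁻¹ * g * f ^ n, mul_mem (mul_mem (inv_mem (pow_mem hf n)) hg) (pow_mem hf n),
    fun t t1 t2 => ?_⟩
  rw [Perm.mul_apply, Perm.mul_apply, Perm.inv_eq_iff_eq, hn n t t1 (by linarith),
    hn n (l * t) (by positivity) (by nlinarith)]
  have : μ ^ n * t ≤ ε := by
    rw [lt_div_iff₀ hδ] at hn'
    have := pow_pos h0 n
    nlinarith
  have := hε _ (by positivity) this
  simp only [one_mul] at this
  rw [this]; ring

theorem not_dense (hG : ∀ g ∈ G, IsPL g) (T : Tame G) (ho : Orb G a b)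
    (hs : ∀ g ∈ G, ∀ x, x ≤ a ∨ b ≤ x → g x = x)
    (hd : ∀ l m : ℝ, 0 < l → l < m → ∃ g ∈ G, ∃ s, l < s ∧ s < m ∧ Slope g a 1 s)
    {u : Perm ℝ} (hu : u ∈ G) (h1 : TR u a) : u = 1 := by
  by_contra hu1
  obtain ⟨f, hf, μ, m1, m2, m0, δ, hδ, hf'⟩ := hd (1 / 2) 1 (by norm_num) (by norm_num)
  simp only [one_mul] at hf'
  obtain ⟨c, c1, c2⟩ := T.balanced' ho hu h1
  obtain ⟨y, y1, y2⟩ := exists_between (max_lt ho.1 c1)
  obtain ⟨g₀, hg₀, k₀⟩ := T.orbit_lt ho ((le_max_left _ _).trans_lt y1) y2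
    (show a < a + δ / 2 by linarith)
  have hu' : g₀ * u * g₀⁻¹ ∈ G := mul_mem (mul_mem hg₀ hu) (inv_mem hg₀)
  have h1' : TR (g₀ * u * g₀⁻¹) a := by
    obtain ⟨d, d1, d2⟩ := h1
    have m := T.mono _ hg₀
    have e := (ho.2.1 _ hg₀).1
    refine ⟨g₀ d, by rw [← e]; exact m d1, fun x x1 x2 => ?_⟩
    rw [Perm.mul_apply, Perm.mul_apply, d2 _ ((lt_inv' m).2 (by rwa [e])) ((inv_lt' m).2 x2)]
    simp
  have h2' : ∀ x, a + δ / 2 < x → (g₀ * u * g₀⁻¹) x = x := fun x hx => by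
    have : c < g₀⁻¹ x := ((le_max_right _ _).trans_lt y1).trans
      ((lt_inv' (T.mono _ hg₀)).2 (k₀.trans hx))
    rw [Perm.mul_apply, Perm.mul_apply, (le_or_gt b (g₀⁻¹ x)).elim
      (fun k => hs u hu _ (Or.inr k)) (c2 _ this)]
    simp
  have hu1' : g₀ * u * g₀⁻¹ ≠ 1 := fun e => hu1 (conj_eq_one_iff.1 e)
  generalize g₀ * u * g₀⁻¹ = w at hu' h1' h2' hu1'
  clear hu1 h1 c2 hu k₀ hg₀ y1 y2 c1 u g₀ y c
  have hU : Subgroup.zpowers w ≤ G := Subgroup.zpowers_le.2 hu'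
  have hU0 : Subgroup.zpowers w ≠ ⊥ := by simpa using hu1'
  have hhi : ∀ y, (∀ x, y < x → w x = x) → hi (Subgroup.zpowers w) ≤ y := fun y hy =>
    hi_le hU0 fun g hg x hx => (Subgroup.zpowers_le (H := fixer (Set.Ioi y))).2 hy hg x hx
  have hfix : ∀ x, hi (Subgroup.zpowers w) ≤ x → w x = x := fun x hx =>
    (T.sub hU).hi_fix hU0 (Subgroup.mem_zpowers w) hx
  have he1 := hhi _ h2'
  have he0 : a ≤ hi (Subgroup.zpowers w) := by
    obtain ⟨x, g, hg, k⟩ := supp_nonempty hU0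
    exact (not_le.1 fun c => k (hs g (hU hg) x (Or.inl c))).le.trans
      ((T.sub hU).lt_hi hU0 ⟨g, hg, k⟩).le
  obtain ⟨c, c1, c2⟩ := (T.left w hu' (hi (Subgroup.zpowers w))).resolve_left (by
    rintro ⟨c, c1, c2⟩
    exact c1.not_ge (hhi c fun x hx => (lt_or_ge x _).elim (c2 x hx) (hfix x)))
  generalize hi (Subgroup.zpowers w) = e at hfix he1 he0 c1 c2
  clear hhi
  have hΦ := (hG w hu').fin
  obtain ⟨η, η0, hη⟩ : ∃ η : ℝ, 0 < η ∧ ∀ s, w s = s → ¬ TR w s → ∀ x, s < x → x < s + η →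
      w x ≠ x := by
    choose! d hd using fun s (hs : ¬ TR w s) => (T.right w hu' s).resolve_left hs
    rcases Set.eq_empty_or_nonempty {s | w s = s ∧ ¬ TR w s} with k | k
    · exact ⟨1, one_pos, fun s s1 s2 => absurd (show s ∈ {s | w s = s ∧ ¬ TR w s} from ⟨s1, s2⟩)
        (by simp [k])⟩
    · obtain ⟨s₀, k1, k2⟩ := Set.exists_min_image _ (fun s => d s - s) hΦ k
      exact ⟨d s₀ - s₀, sub_pos.2 (hd _ k1.2).1, fun s s1 s2 x x1 x2 =>
        (hd s s2).2 x x1 (by linarith [k2 s ⟨s1, s2⟩])⟩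
  obtain ⟨g₁, hg₁, l, l1, l2, hl⟩ := hd 1 (min 2 (1 + η / δ)) one_pos
    (lt_min one_lt_two (by linarith [div_pos η0 hδ]))
  obtain ⟨g, hg, hz⟩ := exists_zone hf hg₁ m0 m2 hδ hf' hl (l2.le.trans (min_le_left _ _))
  have mg := T.mono g hg
  have hz' : ∀ s, a ≤ s → s ≤ e → s ≤ g s ∧ g s < s + η ∧ (a < s → s < g s) := fun s s1 s2 => by
    have := hz (s - a) (by linarith) (by linarith)
    rw [add_sub_cancel] at this
    have l3 : (l - 1) * δ < η := by
      rw [← lt_div_iff₀ hδ]; linarith [min_le_right 2 (1 + η / δ)]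
    rw [this]
    refine ⟨by nlinarith, by nlinarith, fun k => by nlinarith⟩
  have hv : g * w * g⁻¹ ∈ G := mul_mem (mul_mem hg hu') (inv_mem hg)
  have hH : Subgroup.closure {w, g * w * g⁻¹} ≤ G := (Subgroup.closure_le _).2 (by
    rintro _ (rfl | rfl); exacts [hu', hv])
  have hwH : w ∈ Subgroup.closure {w, g * w * g⁻¹} := Subgroup.subset_closure (by simp)
  have hvH : g * w * g⁻¹ ∈ Subgroup.closure {w, g * w * g⁻¹} := Subgroup.subset_closure (by simp)
  have hvx : ∀ x, (g * w * g⁻¹) x = x ↔ w (g⁻¹ x) = g⁻¹ x := fun x => by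
    rw [Perm.mul_apply, Perm.mul_apply, Perm.eq_inv_iff_eq]
  have hmv : ∀ x, g c < x → x < g e → (g * w * g⁻¹) x ≠ x := fun x x1 x2 k =>
    c2 _ ((lt_inv' mg).2 x1) ((inv_lt' mg).2 x2) ((hvx x).1 k)
  obtain ⟨y, y1, y2⟩ := exists_between (mg c1)
  obtain ⟨a', b', o1, o2, ho'⟩ := (T.sub hH).exists_orb ⟨_, hvH, hmv y y1 y2⟩
  obtain rfl : b' = g e := by
    refine le_antisymm (not_lt.1 fun k => ?_) (not_lt.1 fun k => ?_)
    · obtain ⟨k, hk, k'⟩ := ho'.2.2 _ (o1.trans y2) k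
      refine k' ((Subgroup.closure_le (fixer {g e})).2 ?_ hk _ rfl)
      rintro _ (rfl | rfl) _ rfl
      · exact hfix _ (hz' e he0 le_rfl).1
      · exact (hvx _).2 (by simpa using hfix e le_rfl)
    · exact hmv b' (y1.trans o2) k (ho'.2.1 _ hvH).2
  have hnt : ¬ TR (g * w * g⁻¹) a' := fun k => by
    obtain ⟨d, d1, d2⟩ := (T.sub hH).balanced' ho' hvH k
    obtain ⟨z, z1, z2⟩ := exists_between (max_lt d1 y2)
    exact hmv z (y1.trans ((le_max_right _ _).trans_lt z1)) z2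
      (d2 z ((le_max_left _ _).trans_lt z1) z2)
  have s1 : w (g⁻¹ a') = g⁻¹ a' := (hvx _).1 (ho'.2.1 _ hvH).1
  have s2 : ¬ TR w (g⁻¹ a') := fun ⟨d, d1, d2⟩ => hnt ⟨g d, (inv_lt' mg).1 d1, fun x x1 x2 =>
    (hvx x).2 (d2 _ ((lt_inv' mg).2 (by simpa using x1)) ((inv_lt' mg).2 x2))⟩
  have s3 : a < g⁻¹ a' := by
    rcases lt_trichotomy a (g⁻¹ a') with k | k | k
    · exact k
    · exact absurd (k ▸ h1') s2
    · exact absurd ⟨a, k, fun x _ x2 => hs w hu' x (Or.inl x2.le)⟩ s2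
  obtain ⟨-, k1, k2⟩ := hz' _ s3.le ((inv_lt' mg).2 ho'.1).le
  refine hη _ s1 s2 a' (by simpa using k2 s3) (by simpa using k1) (ho'.2.1 _ hwH).1

theorem pl_step (hG : ∀ g ∈ G, IsPL g) (T : Tame G) (hfg : G.FG) (ho : Orb G a b)
    (hs : ∀ g ∈ G, ∀ x, x ≤ a ∨ b ≤ x → g x = x)
    (ih : ∀ M a' b', M ≤ G → M.FG → Orb M a' b' → a < a' → b' < b → ClassD (res M a' b')) :
    ClassD G := by
  obtain ⟨χ, hχ⟩ := exists_logSlope hG fun g hg => (ho.2.1 g hg).1
  have hker : ∀ g : G, χ g = 1 ↔ TR g.1 a := fun g =>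
    ⟨fun h => Slope.tr (by simpa [h] using hχ g), fun h => Multiplicative.toAdd.injective (by
      simpa using Slope.unique (Or.inl rfl) (hχ g) (h.slope (ho.2.1 _ g.2).1))⟩
  rcases AddSubgroup.dense_or_cyclic (AddSubgroup.toSubgroup.symm χ.range) with hd | ⟨τ, hτ⟩
  · have := (Group.fg_iff_subgroup_fg G).2 hfg
    refine .poly _ (polyZ_of_real χ ((injective_iff_map_eq_one _).2 fun u hu => Subtype.ext
      (not_dense hG T ho hs (fun l m l0 lm => ?_) u.2 ((hker u).1 hu))))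
    obtain ⟨x, ⟨g, hg⟩, x1, x2⟩ := hd.exists_between (Real.log_lt_log l0 lm)
    have e : (χ g).toAdd = x := congrArg Multiplicative.toAdd hg
    exact ⟨g, g.2, _, by rwa [e, ← Real.log_lt_iff_lt_exp l0],
      by rwa [e, ← Real.lt_log_iff_exp_lt (l0.trans lm)], hχ g⟩
  · have hk : ∀ g : G, ∃ k : ℤ, (k : ℝ) * τ = (χ g).toAdd ∧ (τ = 0 → k = 0) := fun g => by
      have : (χ g).toAdd ∈ AddSubgroup.closure {τ} := hτ ▸ ⟨g, rfl⟩
      obtain ⟨k, hk⟩ := AddSubgroup.mem_closure_singleton.1 this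
      by_cases h0 : τ = 0
      · exact ⟨0, by rw [← hk, h0]; simp, fun _ => rfl⟩
      · exact ⟨k, by simpa using hk, fun h => absurd h h0⟩
    choose k hk hk0 using hk
    refine T.ext_step (fun g hg => (hG g hg).fin) ho hs ih
      (MonoidHom.mk' (fun g => Multiplicative.ofAdd (k g)) fun g h => ?_) fun g => ?_
    · rw [← ofAdd_add]
      congr 1
      by_cases h0 : τ = 0
      · simp [hk0 _ h0]
      · have : ((k (g * h) : ℤ) : ℝ) = ((k g + k h : ℤ) : ℝ) := mul_right_cancel₀ h0 (by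
          push_cast; rw [add_mul, hk, hk, hk, map_mul, toAdd_mul])
        exact_mod_cast this
    · rw [← hker]
      show Multiplicative.ofAdd (k g) = 1 ↔ _
      rw [ofAdd_eq_one, ← toAdd_eq_zero, ← hk]
      by_cases h0 : τ = 0
      · simp [hk0 _ h0]
      · simp [h0]

/-- A group of piecewise linear homeomorphisms of the interval without infinite towers lies in
the class `D`. -/
theorem pl_classD (G : Subgroup (Equiv.Perm ℝ)) (hPL : ∀ g ∈ G, IsPL g)
    (hG : NoInfiniteTower G) : ClassD G := by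
  have hacc : ∀ L a b, L ≤ G → L.FG → Orb L a b → Acc Rel (L, a, b) := by
    intro L a b h1 h2 h3
    by_contra hc
    obtain ⟨f, f0, hf⟩ := not_acc_iff_exists_descending_chain.1 hc
    have hle : ∀ n, (f n).1 ≤ G := fun n => by
      induction n with
      | zero => rwa [f0]
      | succ n ih => exact (hf n).1.trans ih
    refine hG ⟨fun i => (f (i + 1)).1, fun i => (f (i + 1)).2.1, fun i => (f (i + 1)).2.2,
      fun i => ⟨(hf i).2.1, hle _, (hf (i + 1)).1, ?_, (hf (i + 1)).2.2.2⟩⟩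
    have := (hf i).2.2.1
    exact ⟨this.1, this.2.1, fun x hx => this.2.2 x hx.1 hx.2⟩
  have T := tame_of_PL hPL hacc
  have main : ∀ t : Subgroup (Perm ℝ) × ℝ × ℝ, Acc Rel t → t.1 ≤ G → t.1.FG →
      Orb t.1 t.2.1 t.2.2 → ClassD (res t.1 t.2.1 t.2.2) := by
    intro t ht
    induction ht with
    | intro t _ ih =>
      obtain ⟨L, a, b⟩ := t
      intro h1 h2 h3
      have hF : L ≤ Fix2 a b := fun g hg => ⟨T.mono g (h1 hg), h3.2.1 g hg⟩
      have hP : ∀ g ∈ res L a b, IsPL g := fun g => res_PL fun g hg => hPL g (h1 hg)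
      have ho := h3.res hF le_rfl le_rfl
      refine pl_step hP (tame_of_PL hP fun M' a' b' k1 k2 k3 => ?_) (res_fg hF h2) ho
        (fun g hg x hx => ?_) fun M' a' b' k1 k2 k3 k4 k5 => ?_
      · obtain ⟨M, m1, m2, m3, rfl⟩ := res_lift k1 k2
        exact acc_res (hacc M a' b' (m1.trans h1) m3 (k3.of_res m2).1)
      · by_cases c : a ≤ x ∧ x ≤ b
        · rcases hx with hx | hx
          · rw [le_antisymm hx c.1]; exact (ho.2.1 g hg).1
          · rw [le_antisymm c.2 hx]; exact (ho.2.1 g hg).2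
        · exact res_out hg c
      · obtain ⟨M, m1, m2, m3, rfl⟩ := res_lift k1 k2
        have o := (k3.of_res m2).1
        exact .of_le (res_res k4.le (o.1.trans k5).le (k4.trans o.1).le k5.le)
          (ih (M, a', b') ⟨m1, m3, o, k4, k5⟩ (m1.trans h1) m3 o)
  refine .loc_amb _ fun M h1 h2 => ?_
  have hout : ∀ g ∈ M, ∀ x : ℝ, x ∉ Set.Icc (0 : ℝ) 1 → g x = x := fun g hg => (hPL g (h1 hg)).2.1
  have f1 : ∀ g ∈ M, g (-1) = -1 := fun g hg => hout g hg _ (by norm_num)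
  have f2 : ∀ g ∈ M, g 2 = 2 := fun g hg => hout g hg _ (by norm_num)
  refine .of_le (le_res (p := -1) (q := 2) (fun g hg => ⟨T.mono g (h1 hg), f1 g hg, f2 g hg⟩)
    fun g hg x hx => hout g hg x fun k => hx ⟨by linarith [k.1], by linarith [k.2]⟩)
    ((T.sub h1).decomp (fun g hg => (hPL g (h1 hg)).fin) h2 f2 f1 fun a b o _ _ =>
      main (M, a, b) (hacc M a b h1 h2 o) h1 h2 o)

end Pool.Agent.MP_f7db47_al

end
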