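import Pool.Agent.Mg.Ff7db47.G88cbfa

section

/-!
Working definitions for the theorem on products of trees.
-/

namespace Pool.Agent.MP_f7db47_al.PT

universe u v w

variable (R : Type v) [Ring R] (G : Type u) [Group G]
variable {ι : Type} (V : ι → Type w) [∀ τ, MulAction G (V τ)]

/-- The action on the product is free modulo the kernel. -/
def FreeM : Prop :=
  ∀ (g : G) (x : ∀ τ, V τ), (∀ τ, g • x τ = x τ) → ∀ (τ : ι) (y : V τ), g • y = y

/-- Subgroups acting through an abelian group satisfy `G1`. -/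
def CommG1 : Prop :=
  ∀ H : Subgroup G, (∀ a ∈ H, ∀ b ∈ H, ∀ (τ : ι) (y : V τ), (a * b) • y = (b * a) • y) → G1 R H

/-- Windows: one sequence in each factor. -/
abbrev Win : Type w := ∀ τ, ℤ → V τ

variable {R G V}

/-- `g` carries the window `y` to the window `x` shifted by `d`, on the overlap. -/
def Arr (ρ : ℕ) (x y : Win V) (g : G) (d : ι → ℤ) : Prop :=
  ∀ (τ : ι) (t : ℤ), -(ρ : ℤ) ≤ t → t + d τ ≤ ρ → g • y τ t = x τ (t + d τ)

/-- The cone of degrees. -/
def Cone (r₀ : ℕ) (d : ι → ℤ) : Prop := (∀ τ, 0 ≤ d τ) ∧ ∀ τ σ, d τ ≤ r₀ * d σ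

variable (G) in
/-- The arrows of degree at most `r`. -/
def Sp (ρ r₀ r : ℕ) (x y : Win V) : Set G :=
  {g | ∃ d, Cone r₀ d ∧ (∀ τ, d τ ≤ r) ∧ Arr ρ x y g d}

/-- `γ` translates the central part of radius `S` of the window by `v`. -/
def Per (S : ℕ) (x : Win V) (γ : G) (v : ι → ℤ) : Prop :=
  ∀ (τ : ι) (t : ℤ), |t| ≤ S → |t + v τ| ≤ S → γ • x τ t = x τ (t + v τ)

variable (G) in
/-- The window has a short positive period. -/
def PosPer (S A : ℕ) (x : Win V) : Prop :=
  ∃ (γ : G) (v : ι → ℤ), (∀ τ, 1 ≤ v τ ∧ v τ ≤ A) ∧ Per S x γ v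

/-- The shifted window. -/
def sh (x : Win V) (m : ι → ℤ) : Win V := fun τ t => x τ (m τ + t)

/-- `g` carries the central part of radius `S` of `y` to that of `x`. -/
def Eqv (S : ℕ) (x y : Win V) (g : G) : Prop :=
  ∀ (τ : ι) (t : ℤ), |t| ≤ S → g • y τ t = x τ t

/-- A system of markers: `Mk q x m` says that the position `m` of the window `x` carries a
marker of class `q`. -/
structure Marks (G : Type u) [Group G] (V : ι → Type w) [∀ τ, MulAction G (V τ)]
    (S A L : ℕ) where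
  Mk : ℕ → Win V → (ι → ℤ) → Prop
  npos : ∀ q x m, Mk q x m → ¬ PosPer G S A (sh x m)
  sep : ∀ q x m m', Mk q x m → Mk q x m' → (∀ τ, |m τ - m' τ| ≤ A) →
    ∃ g : G, Eqv S (sh x m') (sh x m) g
  loc : ∀ q x y m m' (g : G), Eqv L (sh x m) (sh y m') g → (Mk q x m ↔ Mk q y m')

/-- The piece of colour `q`: between a marker moved down and a marker moved up. -/
def Marks.piece {S A L : ℕ} (M : Marks G V S A L) (r₀ t q : ℕ) : Set (Win V) :=
  {x | ∃ m m' : ι → ℤ, M.Mk q x m ∧ M.Mk q x m' ∧ (∀ τ, |m τ| ≤ 4 * t * r₀) ∧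
    (∀ τ, |m' τ| ≤ 4 * t * r₀) ∧ Cone r₀ (fun τ => 2 * t - m τ) ∧ Cone r₀ fun τ => m' τ + 2 * t}

/-- An invariant partial order whose intervals are finite chains; `dep x y` is the length of the
interval from `x` down to `y`. -/
structure CS (G : Type u) [Group G] (E : Type w) [MulAction G E] where
  le : E → E → Prop
  dep : E → E → ℕ
  refl : ∀ x, le x x
  trans : ∀ {x y z}, le x y → le y z → le x z
  smul : ∀ (g : G) {x y}, le x y → le (g • x) (g • y)
  dep_smul : ∀ (g : G) x y, dep (g • x) (g • y) = dep x y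
  add : ∀ {x y z}, le z y → le y x → dep x z = dep x y + dep y z
  zero : ∀ {x y}, le y x → dep x y = 0 → y = x
  mid : ∀ {x z} (a : ℕ), le z x → a ≤ dep x z → ∃ y, le z y ∧ le y x ∧ dep x y = a
  lin : ∀ {x y y' z}, le z y → le y x → le z y' → le y' x → dep x y ≤ dep x y' → le y' y

variable (c : ∀ τ, CS G (V τ))

/-- Arrows that are strictly positive in the directions of `I`. -/
def Pos (I : Set ι) {J K : Type} (l : J → ∀ τ, V τ) (l' : K → ∀ τ, V τ) : J → K → Set G :=
  fun i j => {g | (∀ τ, (c τ).le (g • l' j τ) (l i τ)) ∧ ∀ τ ∈ I, g • l' j τ ≠ l i τ}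

variable (R) in
/-- Typed unipotent-like matrices, positive in the directions of `I`, are trivial. -/
def PosT (I : Set ι) : Prop :=
  ∀ (J : Type) [Fintype J] [DecidableEq J] (l : J → ∀ τ, V τ)
    (ν β : Matrix J J (MonoidAlgebra R G)), (1 - ν) * (1 + β) = 1 → (1 + β) * (1 - ν) = 1 →
    MSup2 (Pos c I l l) ν → MSup2 (Pos c I l l) β → T (1 - ν)

variable (R G) in
/-- Automorphisms typed by the relation `le` on the `G`-set `Ω` are trivial. -/
def TypT {Ω : Type w} [MulAction G Ω] (le : Ω → Ω → Prop) : Prop :=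
  ∀ (J : Type) [Fintype J] [DecidableEq J] (l : J → Ω) (a b : Matrix J J (MonoidAlgebra R G)),
    a * b = 1 → b * a = 1 → MSup2 (fun i j => {g | le (g • l j) (l i)}) a →
    MSup2 (fun i j => {g | le (g • l j) (l i)}) b → T a

lemma Cone.add {r₀ : ℕ} {d e : ι → ℤ} (hd : Cone r₀ d) (he : Cone r₀ e) : Cone r₀ (d + e) :=
  ⟨fun τ => add_nonneg (hd.1 τ) (he.1 τ), fun τ σ => by
    have := hd.2 τ σ
    have := he.2 τ σ
    simp only [Pi.add_apply, mul_add]
    omega⟩

lemma Arr.mul {ρ : ℕ} {x y z : Win V} {g h : G} {d e : ι → ℤ} (hd : ∀ τ, 0 ≤ d τ)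
    (he : ∀ τ, 0 ≤ e τ) (h1 : Arr ρ x y g d) (h2 : Arr ρ y z h e) :
    Arr ρ x z (g * h) (d + e) := by
  intro τ t ht ht'
  have := hd τ
  have := he τ
  simp only [Pi.add_apply] at ht' ⊢
  rw [mul_smul, h2 τ t ht (by omega), h1 τ _ (by omega) (by omega)]
  congr 1
  ring

lemma Sp.mono {ρ r₀ r r' : ℕ} (h : r ≤ r') (x y : Win V) : Sp G ρ r₀ r x y ⊆ Sp G ρ r₀ r' x y := by
  rintro g ⟨d, h1, h2, h3⟩
  exact ⟨d, h1, fun τ => (h2 τ).trans (by exact_mod_cast h), h3⟩

lemma Sp.mul {ρ r₀ r r' : ℕ} {x y z : Win V} {a b : G} (ha : a ∈ Sp G ρ r₀ r x y)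
    (hb : b ∈ Sp G ρ r₀ r' y z) : a * b ∈ Sp G ρ r₀ (r + r') x z := by
  obtain ⟨d, h1, h2, h3⟩ := ha
  obtain ⟨e, h4, h5, h6⟩ := hb
  refine ⟨d + e, h1.add h4, fun τ => ?_, h3.mul h1.1 h4.1 h6⟩
  have := h2 τ
  have := h5 τ
  simp only [Pi.add_apply]
  push_cast
  omega

/-- Two elements that agree on one point of the product act in the same way. -/
lemma FreeM.eq (h : FreeM G V) {a b : G} (x : ∀ τ, V τ) (hx : ∀ τ, a • x τ = b • x τ)
    (τ : ι) (y : V τ) : a • y = b • y := by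
  have := h (b⁻¹ * a) x (fun σ => by rw [mul_smul, hx, inv_smul_smul]) τ y
  rwa [mul_smul, inv_smul_eq_iff] at this

end Pool.Agent.MP_f7db47_al.PT

end

section

set_option linter.unusedSectionVars false

namespace Pool.Agent.MP_f7db47_al.PT

open Matrix

universe u v w

variable {R : Type v} [Ring R] {G : Type u} [Group G]

lemma orb_unit {M : Type*} [Ring M] {P Z : M} (hP : P * P = P) (hZ : P * Z = Z * P)
    (hu : IsUnit Z) : IsUnit (1 - P + P * Z) := by
  have aux : ∀ Z Z' : M, Z * Z' = 1 → P * Z = Z * P →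
      (1 - P + P * Z) * (1 - P + P * Z') = 1 := by
    intro Z Z' h h'
    have e : (1 - P + P * Z) * (1 - P + P * Z') =
        1 - P + (P - P * P) * (Z' - 1) + (P * Z) * (1 - P) + P * (Z * P) * Z' := by
      noncomm_ring
    rw [e, hP, sub_self, zero_mul, add_zero, ← h', ← mul_assoc, hP, mul_assoc _ Z Z', h, h',
      mul_assoc Z, mul_sub, hP]
    simp
  obtain ⟨w, rfl⟩ := hu
  have hZ' : P * (w⁻¹ : Mˣ) = (w⁻¹ : Mˣ) * P := ((show Commute P w from hZ).units_inv_right).eq
  exact ⟨⟨_, _, aux _ _ w.mul_inv hZ, aux _ _ w.inv_mul hZ'⟩, rfl⟩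

theorem T_of_groupoid {J : Type} [Fintype J] [DecidableEq J] (rel : J → J → Set G)
    (h1 : ∀ i, (1 : G) ∈ rel i i)
    (hmul : ∀ i j k, ∀ a ∈ rel i j, ∀ b ∈ rel j k, a * b ∈ rel i k)
    (hinv : ∀ i j, ∀ a ∈ rel i j, a⁻¹ ∈ rel j i)
    (hG : ∀ i, ∀ H : Subgroup G, (H : Set G) = rel i i → G1 R H)
    {A : Matrix J J (MonoidAlgebra R G)} (hA : MSup2 rel A) (hu : IsUnit A) : T A := by
  classical
  let s : Setoid J := ⟨fun i j => (rel i j).Nonempty, ⟨fun i => ⟨1, h1 i⟩,
    fun ⟨a, ha⟩ => ⟨a⁻¹, hinv _ _ a ha⟩, fun ⟨a, ha⟩ ⟨b, hb⟩ => ⟨a * b, hmul _ _ _ a ha b hb⟩⟩⟩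
  obtain ⟨c, hc, hcc⟩ : ∃ c : J → J, (∀ i, (rel (c i) i).Nonempty) ∧
      ∀ i j, (rel (c i) (c j)).Nonempty → c i = c j :=
    ⟨fun i => (Quotient.mk s i).out, fun i => Quotient.mk_out (s := s) i, fun i j h => by
      have := Quotient.sound (s := s) h
      simp only [Quotient.out_eq] at this
      simp only [this]⟩
  choose u hu' using hc
  obtain ⟨D, hD⟩ : ∃ D : Matrix J J (MonoidAlgebra R G),
      D = diagonal fun i => MonoidAlgebra.single (u i) 1 := ⟨_, rfl⟩
  obtain ⟨D', hD'⟩ : ∃ D' : Matrix J J (MonoidAlgebra R G),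
      D' = diagonal fun i => MonoidAlgebra.single (u i)⁻¹ 1 := ⟨_, rfl⟩
  have e1 : D * D' = 1 := by
    rw [hD, hD', diagonal_mul_diagonal, ← diagonal_one]
    congr 1; funext i
    rw [MonoidAlgebra.single_mul_single, mul_inv_cancel, one_mul]; rfl
  have e2 : D' * D = 1 := by
    rw [hD, hD', diagonal_mul_diagonal, ← diagonal_one]
    congr 1; funext i
    rw [MonoidAlgebra.single_mul_single, inv_mul_cancel, one_mul]; rfl
  have hZ : MSup2 (fun i j => rel (c i) (c j)) (D * A * D') := by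
    intro i j
    rw [hD, hD', mul_diagonal, diagonal_mul]
    exact ((sup_single (hu' i) 1).mul (hA i j) (hmul _ _ _)).mul
      (sup_single (hinv _ _ _ (hu' j)) 1) (hmul _ _ _)
  have hZ0 : ∀ i j, c i ≠ c j → (D * A * D') i j = 0 := fun i j h =>
    (hZ i j).eq_zero (hZ i j) fun g hg _ => h (hcc i j ⟨g, hg⟩)
  have hZu : IsUnit (D * A * D') :=
    (IsUnit.mul ⟨⟨D, D', e1, e2⟩, rfl⟩ hu).mul ⟨⟨D', D, e2, e1⟩, rfl⟩
  have hT : T (D * A * D') := by
    refine (stdTS R G).of_blocks c (proj_comm c hZ0) fun y => ?_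
    let H : Subgroup G :=
      { carrier := rel y y
        one_mem' := h1 y
        mul_mem' := fun ha hb => hmul _ _ _ _ ha _ hb
        inv_mem' := fun ha => hinv _ _ _ ha }
    refine T_of_isUnit_msup H (hG y H rfl) ?_
      (orb_unit (proj_mul_self c y) (proj_comm c hZ0 y) hZu)
    refine ((msup_one H.one_mem).sub ?_).add fun i j => ?_
    · refine msup2_diagonal (S := fun _ _ => (H : Set G)) fun i => ?_
      split_ifs
      · exact sup_one H.one_mem
      · exact sup_zero _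
    · rw [proj_mul_apply]
      split_ifs with h
      · by_cases h' : c i = c j
        · have := hZ i j
          simp only [← h', h] at this
          exact this
        · rw [hZ0 i j h']; exact sup_zero _
      · exact sup_zero _
  have := T_conj D' D e2 e1 hT
  rwa [← mul_assoc, ← mul_assoc, e2, one_mul, mul_assoc, e2, mul_one] at this

theorem T_of_orbit {J : Type} [Fintype J] [DecidableEq J] {Y : Type w} [MulAction G Y]
    (y : J → Y) (hG : ∀ j, G1 R (MulAction.stabilizer G (y j)))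
    {A : Matrix J J (MonoidAlgebra R G)} (hA : MSup2 (fun i j => {g | g • y j = y i}) A)
    (hu : IsUnit A) : T A := by
  refine T_of_groupoid _ (fun i => one_smul G _) (fun i j k a ha b hb => ?_)
    (fun i j a ha => ?_) (fun i H hH => ?_) hA hu
  · simp only [Set.mem_ofPred_eq] at *
    rw [mul_smul, hb, ha]
  · simp only [Set.mem_ofPred_eq] at *
    rw [← ha, inv_smul_smul]
  · have : H = MulAction.stabilizer G (y i) := SetLike.coe_injective hH
    rw [this]; exact hG i

end Pool.Agent.MP_f7db47_al.PT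

end

section

/-!
Working definitions for linear groups in characteristic zero.
-/

namespace Pool.Agent.MP_f7db47_al.PT

open Matrix

universe u v w

/-- An incidence geometry with an action of `Q`. The model: `Q = GL_2 K`, the points are the
lines in the space of traceless matrices, `ty` marks the nilpotent lines, `Cz` the scalar
matrices, `Un` the non scalar matrices with a double eigenvalue, `om h` is the line through the
traceless part of `h`. -/
structure Geo (Q : Type) [Group Q] (Ω : Type) [MulAction Q Ω] where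
  X : SimpleGraph Ω
  ty : Ω → Prop
  Cz : Q → Prop
  Un : Q → Prop
  om : Q → Ω
  adj_smul : ∀ (g : Q) a b, X.Adj a b → X.Adj (g • a) (g • b)
  ty_smul : ∀ (g : Q) a, ty (g • a) ↔ ty a
  ty_adj : ∀ a b, X.Adj a b → (ty a ↔ ¬ ty b)
  four : ∀ a b b' c, X.Adj a b → X.Adj b c → X.Adj a b' → X.Adj b' c → a ≠ c → b = b'
  rigid : ∀ (g : Q) a b c d, X.Adj a b → X.Adj b c → X.Adj c d → a ≠ c → b ≠ d →
    g • a = a → g • b = b → g • c = c → g • d = d → ∀ z : Ω, g • z = z
  cz_triv : ∀ (g : Q) (a : Ω), Cz g → g • a = a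
  cz_sq : ∀ g, Cz g → Cz (g * g)
  cz_conj : ∀ a h, Cz (a * h * a⁻¹) → Cz h
  un_conj : ∀ a h, Un h → Un (a * h * a⁻¹)
  un_ncz : ∀ h, Un h → ¬ Cz h
  om_conj : ∀ a h, ¬ Cz h → om (a * h * a⁻¹) = a • om h
  om_comm : ∀ a h, ¬ Cz h → Cz (a * h * a⁻¹ * h⁻¹) → a • om h = om h
  om_near : ∀ γ h, ¬ Cz (γ * γ) → ¬ Cz h → γ • om h = om h →
    om γ = om h ∨ (Un h ∧ X.Adj (om γ) (om h))

/-- What is known about two elements whose commutator has trace two. -/
def Geo.Comm2 {Q : Type} [Group Q] {Ω : Type} [MulAction Q Ω] (D : Geo Q Ω) (a b : Q) : Prop :=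
  (D.Un a → D.Un b → D.om a = D.om b) ∧
    (¬ D.Cz a → ¬ D.Cz b → D.Un (a * b * a⁻¹ * b⁻¹) ∨ D.om a = D.om b)

/-- Equal or adjacent. -/
def Near {Ω : Type} (X : SimpleGraph Ω) (a b : Ω) : Prop := a = b ∨ X.Adj a b

/-- An abelian group that measures the failure of `T`. -/
structure WhS (R : Type v) [Ring R] (G : Type u) [Group G] (W : Type w) [AddCommGroup W] where
  cls : ∀ {J : Type} [Fintype J] [DecidableEq J], Matrix J J (MonoidAlgebra R G) → W
  zero_iff : ∀ {J : Type} [Fintype J] [DecidableEq J] {A : Matrix J J (MonoidAlgebra R G)},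
    IsUnit A → (cls A = 0 ↔ T A)
  mul : ∀ {J : Type} [Fintype J] [DecidableEq J] {A B : Matrix J J (MonoidAlgebra R G)},
    IsUnit A → IsUnit B → cls (A * B) = cls A + cls B
  diag : ∀ {J K : Type} [Fintype J] [DecidableEq J] [Fintype K] [DecidableEq K]
    {A : Matrix J J (MonoidAlgebra R G)} {D : Matrix K K (MonoidAlgebra R G)},
    IsUnit A → IsUnit D → cls (fromBlocks A 0 0 D) = cls A + cls D
  reindex : ∀ {J K : Type} [Fintype J] [DecidableEq J] [Fintype K] [DecidableEq K] (e : K ≃ J)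
    {A : Matrix J J (MonoidAlgebra R G)}, IsUnit A → cls (A.submatrix e e) = cls A

variable {R : Type v} [Ring R] {G : Type u} [Group G]

/-- The matrix induced along a permutation representation. -/
noncomputable def permM {X J : Type} (σ : G →* Equiv.Perm X)
    (A : Matrix J J (MonoidAlgebra R G)) : Matrix (J × X) (J × X) (MonoidAlgebra R G) :=
  fun x y => pr {g | σ g y.2 = x.2} (A x.1 y.1)

/-- The linear forms on the plane, one for each direction. -/
def linF {p : ℕ} (k : Option (ZMod p)) (x : ZMod p × ZMod p) : ZMod p :=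
  k.elim x.2 fun a => x.1 + a * x.2

end Pool.Agent.MP_f7db47_al.PT

end
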