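import Pool.Agent.Mg.Ff7db47.G42fc5e
import Pool.Agent.Mg.Ff7db47.G333f86
import Pool.Agent.Mg.Ff7db47.G922e1f

section

namespace Pool.Agent.MP_f7db47_al.PT

universe v

variable {R : Type v} [Ring R]

theorem Ab_le {G P Δ : Type} [Group G] [Group P] [Group Δ] (hP : PolyZ P)
    (f : Δ →* G × P) (hf : Function.Injective f) (K₀ : Subgroup G) (hK₀ : QQ R K₀)
    (K : Subgroup Δ) (hK : ∀ x ∈ K, (f x).1 ∈ K₀) : QQ R K := by
  refine (hK₀.prod_poly hP).sub
    ((((MonoidHom.fst _ _).comp (f.comp K.subtype)).codRestrict K₀ fun x => hK x x.2).prod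
      ((MonoidHom.snd _ _).comp (f.comp K.subtype))) ?_
  intro x y hxy
  exact Subtype.ext (hf (Prod.ext (congrArg (fun z => (z.1 : G)) hxy)
    (congrArg (fun z => z.2) hxy)))

theorem Ab_poly {K : Type} [Group K] [Group.FG K] (hc : ∀ a b : K, a * b = b * a)
    (ht : ∀ g : K, IsOfFinOrder g → g = 1) : PolyZ K := by
  let _ : CommGroup K := { ‹Group K› with mul_comm := hc }
  have : Module.Finite ℤ (Additive K) := Module.Finite.iff_addGroup_fg.2 inferInstance
  have : IsMulTorsionFree K := isMulTorsionFree_iff_not_isOfFinOrder.2 fun g hg h => hg (ht g h)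
  have : Module.Free ℤ (Additive K) := Module.free_of_finite_type_torsion_free'
  let e := (Module.finBasis ℤ (Additive K)).equivFun
  exact polyZ_of_pi _ K (AddMonoidHom.toMultiplicativeRight e.toAddEquiv.toAddMonoidHom)
    e.injective

theorem qq_loc {G : Type} [Group G] (h : ∀ K : Subgroup G, K.FG → QQ R K) : QQ R G := by
  intro P _ hP Δ _ f hf
  let p : Δ →* G := (MonoidHom.fst _ _).comp f
  refine G1_local fun Φ => ⟨(Subgroup.closure (p '' Φ)).comap p,
    fun x hx => Subgroup.subset_closure ⟨x, hx, rfl⟩, ?_⟩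
  exact (Ab_le hP f hf _ (h _ (fg_closure_image p Φ)) _ fun x hx => hx).g1

theorem qq_poly (hR : RegularRing R) {G : Type} [Group G] (h : PolyZ G) : QQ R G := by
  exact (ClassD.poly G h).qq hR

theorem qq_ab (hR : RegularRing R) {G : Type} [Group G] (hc : ∀ a b : G, a * b = b * a)
    (ht : ∀ g : G, IsOfFinOrder g → g = 1) : QQ R G := by
  refine qq_loc fun K hK => qq_poly hR ?_
  have : Group.FG K := (Group.fg_iff_subgroup_fg K).2 hK
  exact Ab_poly (fun a b => Subtype.ext (hc a b)) fun g hg =>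
    Subtype.ext (ht g (K.subtype.isOfFinOrder hg))

end Pool.Agent.MP_f7db47_al.PT

end

section

/-!
Controlled algebra: definitions.
-/

namespace Pool.Agent.MP_f7db47_al.GN

open Matrix

universe v

/-- A filtered relation on a set of labels. `rel k a g b` says that `a` and `g b` are `k`-close. -/
structure FR (G : Type) [Group G] (Λ : Type) where
  rel : ℕ → Λ → G → Λ → Prop
  refl : ∀ a, rel 0 a 1 a
  mono : ∀ {k k' a g b}, k ≤ k' → rel k a g b → rel k' a g b
  comp : ∀ {k k' a g b g' c}, rel k a g b → rel k' b g' c → rel (k + k') a (g * g') c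

/-- Pull back of a filtered relation. -/
def FR.pull {G : Type} [Group G] {Λ Λ' : Type} (F : FR G Λ) (π : Λ' → Λ) : FR G Λ' where
  rel k a g b := F.rel k (π a) g (π b)
  refl _ := F.refl _
  mono h h' := F.mono h h'
  comp h h' := F.comp h h'

/-- A groupoid with arrows labelled by group elements. -/
structure Gpd (G : Type) [Group G] (Λ : Type) where
  r : Λ → G → Λ → Prop
  refl : ∀ a, r a 1 a
  symm : ∀ {a g b}, r a g b → r b g⁻¹ a
  trans : ∀ {a g b g' c}, r a g b → r b g' c → r a (g * g') c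

variable {G : Type} [Group G] {Λ : Type}

/-- The vertex group. -/
def Gpd.grp (B : Gpd G Λ) (a : Λ) : Subgroup G where
  carrier := {g | B.r a g a}
  one_mem' := B.refl a
  mul_mem' h h' := B.trans h h'
  inv_mem' h := B.symm h

/-- Pull back along a map of labels and a homomorphism. -/
def Gpd.pull {G' : Type} [Group G'] {Λ' : Type} (B : Gpd G Λ) (f : G' →* G) (π : Λ' → Λ) :
    Gpd G' Λ' where
  r a g b := B.r (π a) (f g) (π b)
  refl a := by rw [map_one]; exact B.refl _
  symm h := by rw [map_inv]; exact B.symm h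
  trans h h' := by rw [map_mul]; exact B.trans h h'

/-- The full groupoid. -/
def Gpd.full (G : Type) [Group G] (Λ : Type) : Gpd G Λ where
  r _ _ _ := True
  refl _ := trivial
  symm _ := trivial
  trans _ _ := trivial

/-- A map to a spider: a union of rays (legs) glued at their origins. -/
structure Spi (G : Type) [Group G] (Λ : Type) where
  leg : Gpd G Λ
  ht : Λ → ℕ

/-- Pull back of a spider. -/
def Spi.pull {G' : Type} [Group G'] {Λ' : Type} (s : Spi G Λ) (f : G' →* G) (π : Λ' → Λ) :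
    Spi G' Λ' :=
  ⟨s.leg.pull f π, fun a => s.ht (π a)⟩

/-- Distance at most `k` in the spider. -/
def Spi.rel (s : Spi G Λ) (k : ℕ) (a : Λ) (g : G) (b : Λ) : Prop :=
  s.ht a ≤ s.ht b + k ∧ s.ht b ≤ s.ht a + k ∧ (¬ s.leg.r a g b → s.ht a + s.ht b ≤ k)

/-- Same block, and distance at most `k` in all spiders. -/
def CR {N : ℕ} (B : Gpd G Λ) (S : Fin N → Spi G Λ) : FR G Λ where
  rel k a g b := B.r a g b ∧ ∀ i, (S i).rel k a g b
  refl a := ⟨B.refl a, fun i => ⟨le_rfl, le_rfl, fun h => absurd ((S i).leg.refl a) h⟩⟩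
  mono h h' := ⟨h'.1, fun i => ⟨(h'.2 i).1.trans (by omega), (h'.2 i).2.1.trans (by omega),
    fun e => ((h'.2 i).2.2 e).trans h⟩⟩
  comp {k k' a g b g' c} h h' := ⟨B.trans h.1 h'.1, fun i => by
    obtain ⟨a1, a2, a3⟩ := h.2 i
    obtain ⟨b1, b2, b3⟩ := h'.2 i
    refine ⟨by omega, by omega, fun e => ?_⟩
    by_cases e1 : (S i).leg.r a g b
    · have := b3 fun e2 => e ((S i).leg.trans e1 e2)
      omega
    · have := a3 e1
      omega⟩

/-- The height `h` is within `k` of a positive multiple of `w`. -/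
def InZ (w k h : ℕ) : Prop := w ≤ h + k ∧ (h + k) % w < 2 * k

/-- The blocks given by the zones around the cuts. -/
def zoneG (B : Gpd G Λ) (s : Spi G Λ) (w k : ℕ) : Gpd G Λ where
  r a g b := B.r a g b ∧ ((InZ w k (s.ht a) ∧ InZ w k (s.ht b) ∧
    (s.ht a + k) / w = (s.ht b + k) / w ∧ s.leg.r a g b) ∨ (g = 1 ∧ a = b))
  refl a := ⟨B.refl a, Or.inr ⟨rfl, rfl⟩⟩
  symm := by
    rintro a g b ⟨h, ⟨h1, h2, h3, h4⟩ | ⟨rfl, rfl⟩⟩
    · exact ⟨B.symm h, Or.inl ⟨h2, h1, h3.symm, s.leg.symm h4⟩⟩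
    · exact ⟨B.symm h, Or.inr ⟨inv_one, rfl⟩⟩
  trans := by
    rintro a g b g' c ⟨h, h0⟩ ⟨h', h0'⟩
    refine ⟨B.trans h h', ?_⟩
    rcases h0 with ⟨h1, h2, h3, h4⟩ | ⟨rfl, rfl⟩
    · rcases h0' with ⟨b1, b2, b3, b4⟩ | ⟨rfl, rfl⟩
      · exact Or.inl ⟨h1, b2, h3.trans b3, s.leg.trans h4 b4⟩
      · exact Or.inl ⟨h1, h2, h3, by rwa [mul_one]⟩
    · rwa [one_mul]

/-- Labels together with the number of a slab that almost contains them. -/
def Slab (s : Spi G Λ) (w k : ℕ) : Type :=
  {x : Λ × ℕ // x.2 * w ≤ s.ht x.1 + k ∧ s.ht x.1 < (x.2 + 1) * w + k}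

/-- The blocks given by the slabs between the cuts. -/
def slabG (B : Gpd G Λ) (s : Spi G Λ) (w k : ℕ) : Gpd G (Slab s w k) where
  r x g y := B.r x.1.1 g y.1.1 ∧ x.1.2 = y.1.2 ∧ (x.1.2 ≠ 0 → s.leg.r x.1.1 g y.1.1)
  refl x := ⟨B.refl _, rfl, fun _ => s.leg.refl _⟩
  symm h := ⟨B.symm h.1, h.2.1.symm, fun e => s.leg.symm (h.2.2 (h.2.1 ▸ e))⟩
  trans h h' := ⟨B.trans h.1 h'.1, h.2.1.trans h'.2.1,
    fun e => s.leg.trans (h.2.2 e) (h'.2.2 (h.2.1 ▸ e))⟩

variable {R : Type v} [Ring R]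

/-- Control of the support of a matrix through labels. -/
def Ctl {I J : Type} (r : Λ → G → Λ → Prop) (li : I → Λ) (lj : J → Λ)
    (f : Matrix I J (MonoidAlgebra R G)) : Prop :=
  MSup2 (fun i j => {g | r (li i) g (lj j)}) f

/-- Standard idempotents: defined over `R`, and diagonal for the labels. -/
def Std {J : Type} [Fintype J] (l : J → Λ) (p : Matrix J J (MonoidAlgebra R G)) : Prop :=
  ∃ e : Matrix J J R, e * e = e ∧ p = e.map (MonoidAlgebra.single 1) ∧
    ∀ i j, e i j ≠ 0 → l i = l j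

/-- A controlled isomorphism from the image of `p` to the image of `p'`. -/
structure Iso {I J : Type} [Fintype I] [Fintype J] (r : Λ → G → Λ → Prop) (l : I → Λ)
    (l' : J → Λ) (p : Matrix I I (MonoidAlgebra R G)) (p' : Matrix J J (MonoidAlgebra R G))
    (f : Matrix J I (MonoidAlgebra R G)) (g : Matrix I J (MonoidAlgebra R G)) : Prop where
  gf : g * f = p
  fg : f * g = p'
  fp : f * p = f
  pg : p * g = g
  cf : Ctl r l' l f
  cg : Ctl r l l' g

/-- Stably standard, with control. -/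
def SS {J : Type} [Fintype J] (r : Λ → G → Λ → Prop) (l : J → Λ)
    (p : Matrix J J (MonoidAlgebra R G)) : Prop :=
  ∃ (E M : Type) (_ : Fintype E) (_ : DecidableEq E) (_ : Fintype M) (_ : DecidableEq M)
    (lE : E → Λ) (lM : M → Λ) (eE : Matrix E E (MonoidAlgebra R G))
    (eM : Matrix M M (MonoidAlgebra R G)) (f : Matrix M (J ⊕ E) (MonoidAlgebra R G))
    (g : Matrix (J ⊕ E) M (MonoidAlgebra R G)),
    Std lE eE ∧ Std lM eM ∧ Iso r (Sum.elim l lE) lM (fromBlocks p 0 0 eE) eM f g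

/-- The augmentation, as an endomorphism of the group ring. -/
noncomputable def aug (R : Type v) [Ring R] (G : Type) [Group G] :
    MonoidAlgebra R G →+* MonoidAlgebra R G :=
  MonoidAlgebra.mapDomainRingHom R (1 : G →* G)

/-- The isomorphism `f` with inverse `g` has trivial torsion. -/
def Triv {I J : Type} [Fintype I] [DecidableEq I] [Fintype J]
    (e : Matrix I I (MonoidAlgebra R G)) (f : Matrix J I (MonoidAlgebra R G))
    (g : Matrix I J (MonoidAlgebra R G)) : Prop :=
  T (g.map (aug R G) * f + (1 - e))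

variable (R) in
/-- Controlled vanishing of the reduced projective class group over `N` spiders. -/
def Q0 (N k k' : ℕ) : Prop :=
  ∀ (G : Type) [Group G] (Λ : Type) (B : Gpd G Λ) (S : Fin N → Spi G Λ),
    (∀ a, QQ R (B.grp a)) → ∀ (J : Type) [Fintype J] [DecidableEq J] (l : J → Λ)
    (p : Matrix J J (MonoidAlgebra R G)), p * p = p → Ctl ((CR B S).rel k) l l p →
    SS ((CR B S).rel k') l p

/-- The infinite cyclic group. -/
abbrev MZ : Type := Multiplicative ℤ

/-- The coefficient of `t ^ a`. -/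
noncomputable def cf (a : ℤ) : MonoidAlgebra R (G × MZ) →+ MonoidAlgebra R G :=
  MonoidAlgebra.comapDomainAddMonoidHom (fun g => (g, Multiplicative.ofAdd a))
    fun _ _ h => congrArg Prod.fst h

/-- The element `t ^ b`. -/
noncomputable def tp (R : Type v) [Ring R] (G : Type) [Group G] (b : ℤ) :
    MonoidAlgebra R (G × MZ) :=
  MonoidAlgebra.single (1, Multiplicative.ofAdd b) 1

/-- The part of degree at least `c`. -/
noncomputable def chi {J : Type} (c : ℤ) (w : J → MonoidAlgebra R (G × MZ)) :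
    J → MonoidAlgebra R (G × MZ) :=
  fun j => pr {g | c ≤ Multiplicative.toAdd g.2} (w j)

/-- The projection of the nonnegative part along the image of the part of degree `≥ d`. -/
noncomputable def bop {I J : Type} [Fintype I] [Fintype J] (d : ℕ)
    (u : Matrix J I (MonoidAlgebra R (G × MZ))) (v : Matrix I J (MonoidAlgebra R (G × MZ)))
    (e : Matrix J J (MonoidAlgebra R (G × MZ))) (w : J → MonoidAlgebra R (G × MZ)) :
    J → MonoidAlgebra R (G × MZ) :=
  e *ᵥ chi 0 w - u *ᵥ chi d (v *ᵥ chi 0 w)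

/-- The idempotent of Bass, Heller and Swan. -/
noncomputable def bhs {I J : Type} [Fintype I] [Fintype J] [DecidableEq J] (d L : ℕ)
    (u : Matrix J I (MonoidAlgebra R (G × MZ))) (v : Matrix I J (MonoidAlgebra R (G × MZ)))
    (e : Matrix J J (MonoidAlgebra R (G × MZ))) :
    Matrix (J × Fin L) (J × Fin L) (MonoidAlgebra R G) :=
  fun x y => cf ((x.2 : ℕ) : ℤ) (bop d u v e (Pi.single y.1 (tp R G ((y.2 : ℕ) : ℤ))) x.1)

/-- All degrees are at most `d` in absolute value. -/
def Deg {I J : Type} (d : ℕ) (u : Matrix I J (MonoidAlgebra R (G × MZ))) : Prop :=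
  MSup {g | |Multiplicative.toAdd g.2| ≤ (d : ℤ)} u

/-- A relation for `G`, read as a relation for `G × ℤ`. -/
def up (r : Λ → G → Λ → Prop) : Λ → G × MZ → Λ → Prop := fun a g b => r a g.1 b

variable (R) in
/-- The idempotents of Bass, Heller and Swan are stably standard. -/
def QB (N k k' : ℕ) : Prop :=
  ∀ (G : Type) [Group G] (Λ : Type) (B : Gpd G Λ) (S : Fin N → Spi G Λ),
    (∀ a, QQ R (B.grp a)) → ∀ (I J : Type) [Fintype I] [DecidableEq I] [Fintype J]
    [DecidableEq J] (l : I → Λ) (l' : J → Λ) (e : Matrix I I (MonoidAlgebra R (G × MZ)))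
    (e' : Matrix J J (MonoidAlgebra R (G × MZ))) (u : Matrix J I (MonoidAlgebra R (G × MZ)))
    (v : Matrix I J (MonoidAlgebra R (G × MZ))) (d L : ℕ), Std l e → Std l' e' →
    Iso (up ((CR B S).rel k)) l l' e e' u v → Deg d u → Deg d v → 2 * d ≤ L →
    SS ((CR B S).rel k') (fun x : J × Fin L => l' x.1) (bhs d L u v e')

end Pool.Agent.MP_f7db47_al.GN

end
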