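import Mathlib
import Pool.Agent.MP_f7db47_al.Defs

section

/-!
Clique complexes: definitions.
-/

namespace Pool.Agent.MP_f7db47_al.GN

variable {V : Type}

/-- Cliques inside `B`. The empty set is a clique. -/
def Clq (Adj : V → V → Prop) (B σ : Finset V) : Prop :=
  σ ⊆ B ∧ ∀ x ∈ σ, ∀ y ∈ σ, x ≠ y → Adj x y

/-- Chains of cliques with `n` elements inside `B`. -/
def Ch (Adj : V → V → Prop) (B : Finset V) (n : ℕ) (c : Finset V →₀ ℤ) : Prop :=
  ∀ σ, c σ ≠ 0 → Clq Adj B σ ∧ σ.card = n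

/-- The linear extension of a map defined on simplices. -/
noncomputable def lin {W : Type} (x : Finset V → (Finset W →₀ ℤ)) :
    (Finset V →₀ ℤ) →ₗ[ℤ] (Finset W →₀ ℤ) :=
  Finsupp.linearCombination ℤ x

variable [LinearOrder V]

/-- The boundary of a simplex, in the augmented complex. -/
noncomputable def bd1 (σ : Finset V) : Finset V →₀ ℤ :=
  ∑ v ∈ σ, Finsupp.single (σ.erase v) ((-1) ^ (σ.filter (· < v)).card)

/-- The boundary operator. -/
noncomputable def bd : (Finset V →₀ ℤ) →ₗ[ℤ] (Finset V →₀ ℤ) := lin bd1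

/-- The augmented clique complex is exact. -/
def Acyc (Adj : V → V → Prop) (B : Finset V) : Prop :=
  ∀ n c, Ch Adj B n c → bd c = 0 → ∃ c', Ch Adj B (n + 1) c' ∧ bd c' = c

omit [LinearOrder V] in
/-- A dismantling of the graph. -/
def Dism (Adj : V → V → Prop) (B : Finset V) : Prop :=
  ∃ (rk : V → ℤ) (z₀ : V) (f : V → V), z₀ ∈ B ∧ ∀ z ∈ B, z ≠ z₀ → rk z₀ < rk z ∧ f z ∈ B ∧
    rk (f z) < rk z ∧ ∀ w ∈ B, (w = z ∨ Adj w z) → rk w ≤ rk z → (w = f z ∨ Adj w (f z))

/-- The data for the transfer: acyclic complexes `K j` and acyclic carriers. -/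
structure TrD {G J : Type} [Group G] (r₁ r₂ : J → G → J → Prop) (K : J → Finset V)
    (Adj : J → V → V → Prop) (C₁ C₂ : J → G → J → Finset V → Finset V) (n : ℕ) : Prop where
  r12 : ∀ {i g j}, r₁ i g j → r₂ i g j
  rmul : ∀ {i g j g' k}, r₁ i g j → r₁ j g' k → r₂ i (g * g') k
  symm : ∀ j x y, Adj j x y → Adj j y x
  dim : ∀ j σ, Clq (Adj j) (K j) σ → σ.card ≤ n
  acyc : ∀ j, Acyc (Adj j) (K j)
  sub₁ : ∀ {i g j} σ, r₂ i g j → C₁ i g j σ ⊆ K i
  sub₂ : ∀ {i g j} σ, r₂ i g j → C₂ i g j σ ⊆ K i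
  mono₁ : ∀ {i g j σ τ}, r₂ i g j → τ ⊆ σ → C₁ i g j τ ⊆ C₁ i g j σ
  mono₂ : ∀ {i g j σ τ}, r₂ i g j → τ ⊆ σ → C₂ i g j τ ⊆ C₂ i g j σ
  acyc₁ : ∀ {i g j σ}, r₂ i g j → Clq (Adj j) (K j) σ → σ.Nonempty → Acyc (Adj i) (C₁ i g j σ)
  acyc₂ : ∀ {i g j σ}, r₂ i g j → Clq (Adj j) (K j) σ → σ.Nonempty → Acyc (Adj i) (C₂ i g j σ)
  self : ∀ {j σ}, Clq (Adj j) (K j) σ → σ ⊆ C₁ j 1 j σ
  le₁₂ : ∀ {i g j} σ, r₂ i g j → C₁ i g j σ ⊆ C₂ i g j σ
  comp : ∀ {i g j g' k σ τ}, r₁ i g j → r₁ j g' k → Clq (Adj k) (K k) σ → σ.Nonempty →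
    Clq (Adj j) (K j) τ → τ.Nonempty → τ ⊆ C₁ j g' k σ → C₁ i g j τ ⊆ C₂ i (g * g') k σ

end Pool.Agent.MP_f7db47_al.GN

end

section

/-!
Dismantlable graphs have acyclic clique complexes.
-/

namespace Pool.Agent.MP_f7db47_al.GN

variable {V : Type} [LinearOrder V]

/-- The sign of a vertex with respect to a simplex. -/
def CAcyc_sg (y : V) (σ : Finset V) : ℤ := (-1) ^ (σ.filter (· < y)).card

theorem CAcyc_sg_insert (v : V) {a : V} {σ : Finset V} (h : a ∉ σ) :
    CAcyc_sg v (insert a σ) = (if a < v then -1 else 1) * CAcyc_sg v σ := by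
  unfold CAcyc_sg
  rw [Finset.filter_insert]
  split_ifs
  · rw [Finset.card_insert_of_notMem fun h' => h (Finset.mem_filter.1 h').1, pow_succ']
  · rw [one_mul]

theorem CAcyc_sg_sq (v : V) (σ : Finset V) : CAcyc_sg v σ * CAcyc_sg v σ = 1 := by
  unfold CAcyc_sg
  rw [← mul_pow]
  simp

/-- The cone over a simplex. -/
noncomputable def CAcyc_cone (y : V) (σ : Finset V) : Finset V →₀ ℤ :=
  if y ∈ σ then 0 else Finsupp.single (insert y σ) (CAcyc_sg y σ)

omit [LinearOrder V] in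
theorem CAcyc_lin {W : Type} (x : Finset V → (Finset W →₀ ℤ)) (σ : Finset V) (a : ℤ) :
    lin x (Finsupp.single σ a) = a • x σ := Finsupp.linearCombination_single ℤ a σ

theorem CAcyc_bd1 (σ : Finset V) :
    bd1 σ = ∑ v ∈ σ, Finsupp.single (σ.erase v) (CAcyc_sg v σ) := rfl

theorem CAcyc_hom1 (y : V) (σ : Finset V) :
    bd (CAcyc_cone y σ) + lin (CAcyc_cone y) (bd1 σ) = Finsupp.single σ 1 := by
  rw [CAcyc_bd1, map_sum]
  simp only [CAcyc_lin]
  by_cases h : y ∈ σ
  · rw [CAcyc_cone, if_pos h, map_zero, zero_add, Finset.sum_eq_single_of_mem y h]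
    · have := CAcyc_sg_insert y (Finset.notMem_erase y σ)
      rw [Finset.insert_erase h, if_neg (lt_irrefl y), one_mul] at this
      rw [CAcyc_cone, if_neg (Finset.notMem_erase y σ), Finset.insert_erase h, Finsupp.smul_single,
        smul_eq_mul, ← this, CAcyc_sg_sq]
    · intro v _ hv
      rw [CAcyc_cone, if_pos (Finset.mem_erase.2 ⟨hv.symm, h⟩), smul_zero]
  · rw [CAcyc_cone, if_neg h, bd, CAcyc_lin, CAcyc_bd1, Finset.sum_insert h, smul_add,
      Finset.erase_insert h, CAcyc_sg_insert y h, if_neg (lt_irrefl y), one_mul,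
      Finsupp.smul_single, smul_eq_mul, CAcyc_sg_sq, add_assoc, Finset.smul_sum,
      ← Finset.sum_add_distrib, Finset.sum_eq_zero, add_zero]
    intro v hv
    have hvy : v ≠ y := fun e => h (e ▸ hv)
    have h1 := CAcyc_sg_insert y (Finset.notMem_erase v σ)
    rw [Finset.insert_erase hv] at h1
    rw [CAcyc_cone, if_neg fun h' => h (Finset.mem_of_mem_erase h'), Finsupp.smul_single,
      Finsupp.smul_single, Finset.erase_insert_of_ne hvy.symm, ← Finsupp.single_add,
      CAcyc_sg_insert v h, h1, smul_eq_mul, smul_eq_mul]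
    rcases lt_or_gt_of_ne hvy with h2 | h2
    · rw [if_pos h2, if_neg h2.not_gt]
      exact Finsupp.single_eq_zero.2 (by ring)
    · rw [if_pos h2, if_neg h2.not_gt]
      exact Finsupp.single_eq_zero.2 (by ring)

theorem CAcyc_hom (y : V) (c : Finset V →₀ ℤ) :
    bd (lin (CAcyc_cone y) c) + lin (CAcyc_cone y) (bd c) = c := by
  induction c using Finsupp.induction_linear with
  | zero => simp
  | add a b ha hb =>
    simp only [map_add]
    rw [add_add_add_comm, ha, hb]
  | single σ a =>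
    rw [CAcyc_lin, map_smul]
    conv_lhs => enter [2]; rw [bd, CAcyc_lin, map_smul]
    rw [← smul_add, CAcyc_hom1, Finsupp.smul_single, smul_eq_mul, mul_one]

theorem CAcyc_bd_bd1 (σ : Finset V) : bd (bd1 σ) = 0 := by
  induction σ using Finset.induction_on with
  | empty => simp [bd1]
  | insert y σ h ih =>
    have h1 := congrArg bd (CAcyc_hom1 y σ)
    have h2 := CAcyc_hom y (bd1 σ)
    rw [ih, map_zero, add_zero] at h2
    rw [map_add, h2] at h1
    have h3 : bd (Finsupp.single σ (1 : ℤ)) = bd1 σ := by rw [bd, CAcyc_lin, one_smul]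
    rw [h3, add_eq_right, CAcyc_cone, if_neg h] at h1
    have h4 : bd (Finsupp.single (insert y σ) (CAcyc_sg y σ)) =
        CAcyc_sg y σ • bd1 (insert y σ) := by rw [bd, CAcyc_lin]
    rw [h4, map_smul] at h1
    rw [← one_smul ℤ (bd (bd1 (insert y σ))), ← CAcyc_sg_sq y σ, mul_smul, h1, smul_zero]

theorem bd_bd (c : Finset V →₀ ℤ) : bd (bd c) = 0 := by
  induction c using Finsupp.induction_linear with
  | zero => simp
  | add a b ha hb => rw [map_add, map_add, ha, hb, add_zero]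
  | single σ a =>
    have : bd (Finsupp.single σ a) = a • bd1 σ := CAcyc_lin _ _ _
    rw [this, map_smul, CAcyc_bd_bd1, smul_zero]

omit [LinearOrder V] in
theorem CAcyc_lin_ne {W : Type} {x : Finset V → (Finset W →₀ ℤ)} {c : Finset V →₀ ℤ}
    {τ : Finset W} (h : lin x c τ ≠ 0) : ∃ σ, c σ ≠ 0 ∧ x σ τ ≠ 0 := by
  rw [lin, Finsupp.linearCombination_apply, Finsupp.sum, Finsupp.finsetSum_apply] at h
  obtain ⟨σ, -, h2⟩ := Finset.exists_ne_zero_of_sum_ne_zero h
  rw [Finsupp.smul_apply, smul_eq_mul] at h2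
  exact ⟨σ, mul_ne_zero_iff.1 h2⟩

theorem CAcyc_bd_ne {c : Finset V →₀ ℤ} {τ : Finset V} (h : bd c τ ≠ 0) :
    ∃ σ, c σ ≠ 0 ∧ ∃ v ∈ σ, τ = σ.erase v := by
  obtain ⟨σ, h1, h2⟩ := CAcyc_lin_ne h
  rw [CAcyc_bd1, Finsupp.finsetSum_apply] at h2
  obtain ⟨v, hv, h3⟩ := Finset.exists_ne_zero_of_sum_ne_zero h2
  exact ⟨σ, h1, v, hv, (Finsupp.single_apply_ne_zero.1 h3).1⟩

theorem CAcyc_cone_ne {y : V} {c : Finset V →₀ ℤ} {τ : Finset V}
    (h : lin (CAcyc_cone y) c τ ≠ 0) : ∃ σ, c σ ≠ 0 ∧ y ∉ σ ∧ τ = insert y σ := by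
  obtain ⟨σ, h1, h2⟩ := CAcyc_lin_ne h
  unfold CAcyc_cone at h2
  split_ifs at h2 with h3
  · simp at h2
  · exact ⟨σ, h1, h3, (Finsupp.single_apply_ne_zero.1 h2).1⟩

theorem CAcyc_clq {Adj : V → V → Prop} (hs : ∀ x y, Adj x y → Adj y x) {B σ : Finset V} {y : V}
    (hy : y ∈ B) (h : Clq Adj B σ) (h' : ∀ w ∈ σ, w = y ∨ Adj w y) : Clq Adj B (insert y σ) := by
  refine ⟨Finset.insert_subset hy h.1, fun a ha b hb hab => ?_⟩
  rcases Finset.mem_insert.1 ha with rfl | ha' <;> rcases Finset.mem_insert.1 hb with rfl | hb'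
  · exact absurd rfl hab
  · exact hs _ _ ((h' b hb').resolve_left hab.symm)
  · exact (h' a ha').resolve_left hab
  · exact h.2 a ha' b hb' hab

theorem CAcyc_ch {Adj : V → V → Prop} (hs : ∀ x y, Adj x y → Adj y x) {B : Finset V} {y : V}
    (hy : y ∈ B) {n : ℕ} {c : Finset V →₀ ℤ} (h : Ch Adj B n c)
    (h' : ∀ σ, c σ ≠ 0 → ∀ w ∈ σ, w = y ∨ Adj w y) : Ch Adj B (n + 1) (lin (CAcyc_cone y) c) := by
  intro τ hτ
  obtain ⟨σ, h1, h2, rfl⟩ := CAcyc_cone_ne hτ
  exact ⟨CAcyc_clq hs hy (h σ h1).1 (h' σ h1), by rw [Finset.card_insert_of_notMem h2, (h σ h1).2]⟩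

theorem CAcyc_step {Adj : V → V → Prop} (hs : ∀ x y, Adj x y → Adj y x) {B : Finset V} {y z : V}
    (hy : y ∈ B) (hyz : y ≠ z) (hd : ∀ w ∈ B, (w = z ∨ Adj w z) → (w = y ∨ Adj w y))
    (h : Acyc Adj (B.erase z)) : Acyc Adj B := by
  intro n c hc h0
  obtain ⟨cz, hcz⟩ : ∃ cz, cz = c.filter (z ∈ ·) := ⟨_, rfl⟩
  have a1 : ∀ σ, cz σ ≠ 0 → c σ ≠ 0 ∧ z ∈ σ := fun σ h => by
    rw [hcz, Finsupp.filter_apply] at h
    by_cases h' : z ∈ σ
    · exact ⟨by simpa [h'] using h, h'⟩
    · simp [h'] at h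
  have a2 : ∀ σ, (c - cz) σ ≠ 0 → c σ ≠ 0 ∧ z ∉ σ := fun σ h => by
    rw [hcz, Finsupp.sub_apply, Finsupp.filter_apply] at h
    by_cases h' : z ∈ σ
    · simp [h'] at h
    · exact ⟨by simpa [h'] using h, h'⟩
  have a3 : ∀ σ, cz σ ≠ 0 → ∀ w ∈ σ, w = y ∨ Adj w y := fun σ h w hw => by
    obtain ⟨b1, b2⟩ := a1 σ h
    refine hd w ((hc σ b1).1.1 hw) (or_iff_not_imp_left.2 fun e => (hc σ b1).1.2 w hw z b2 e)
  have a4 : Ch Adj B (n + 1) (lin (CAcyc_cone y) cz) :=
    CAcyc_ch hs hy (fun σ h => hc σ (a1 σ h).1) a3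
  have a5 : c - bd (lin (CAcyc_cone y) cz) = (c - cz) + lin (CAcyc_cone y) (bd cz) := by
    rw [eq_sub_of_add_eq (CAcyc_hom y cz)]
    abel
  have a6 : Ch Adj (B.erase z) n (c - bd (lin (CAcyc_cone y) cz)) := by
    intro τ hτ
    rw [a5, Finsupp.add_apply] at hτ
    by_cases h1 : (c - cz) τ = 0
    · rw [h1, zero_add] at hτ
      obtain ⟨ρ, b1, b2, rfl⟩ := CAcyc_cone_ne hτ
      obtain ⟨σ, b3, v, hv, b4⟩ := CAcyc_bd_ne b1
      have b5 : bd (c - cz) ρ ≠ 0 := by
        rw [map_sub, h0, zero_sub, Finsupp.neg_apply]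
        exact neg_ne_zero.2 b1
      obtain ⟨σ', b6, v', -, b7⟩ := CAcyc_bd_ne b5
      have b8 : z ∉ ρ := fun h' => (a2 σ' b6).2 (Finset.mem_of_mem_erase (b7 ▸ h'))
      have b9 : ρ ⊆ σ := b4 ▸ Finset.erase_subset v σ
      obtain ⟨c1, c2⟩ := hc σ (a1 σ b3).1
      refine ⟨CAcyc_clq hs (Finset.mem_erase.2 ⟨hyz, hy⟩)
        ⟨Finset.subset_erase.2 ⟨b9.trans c1.1, b8⟩, fun a ha b hb => c1.2 a (b9 ha) b (b9 hb)⟩
        fun w hw => a3 σ b3 w (b9 hw), ?_⟩
      rw [Finset.card_insert_of_notMem b2, b4, Finset.card_erase_add_one hv, c2]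
    · obtain ⟨b1, b2⟩ := a2 τ h1
      exact ⟨⟨Finset.subset_erase.2 ⟨(hc τ b1).1.1, b2⟩, (hc τ b1).1.2⟩, (hc τ b1).2⟩
  obtain ⟨e, he1, he2⟩ := h n _ a6 (by rw [map_sub, h0, bd_bd, sub_zero])
  refine ⟨e + lin (CAcyc_cone y) cz, fun τ hτ => ?_, by rw [map_add, he2, sub_add_cancel]⟩
  rw [Finsupp.add_apply] at hτ
  by_cases h1 : e τ = 0
  · rw [h1, zero_add] at hτ
    exact a4 τ hτ
  · exact ⟨⟨(he1 τ h1).1.1.trans (Finset.erase_subset z B), (he1 τ h1).1.2⟩, (he1 τ h1).2⟩

theorem Dism.acyc {Adj : V → V → Prop} (hs : ∀ x y, Adj x y → Adj y x) {B : Finset V}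
    (h : Dism Adj B) : Acyc Adj B := by
  induction B using Finset.strongInduction with
  | H B ih =>
    obtain ⟨rk, z₀, f, h0, H⟩ := h
    obtain ⟨z, hz, hm⟩ := B.exists_max_image rk ⟨z₀, h0⟩
    by_cases e : z = z₀
    · intro n c hc hb
      have h1 := CAcyc_hom z₀ c
      rw [hb, map_zero, add_zero] at h1
      refine ⟨_, CAcyc_ch hs h0 hc fun σ hσ w hw => Or.inl ?_, h1⟩
      by_contra h2
      have hw' := (hc σ hσ).1.1 hw
      exact (H w hw' h2).1.not_ge (e ▸ hm w hw')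
    · obtain ⟨-, a2, a3, a4⟩ := H z hz e
      refine CAcyc_step hs a2 (fun e' => a3.ne (congrArg rk e')) (fun w hw h' => a4 w hw h' (hm w hw))
        (ih _ (Finset.erase_ssubset hz) ⟨rk, z₀, f, Finset.mem_erase.2 ⟨Ne.symm e, h0⟩,
          fun u hu hu0 => ?_⟩)
      have hu' := Finset.mem_of_mem_erase hu
      obtain ⟨b1, b2, b3, b4⟩ := H u hu' hu0
      exact ⟨b1, Finset.mem_erase.2 ⟨fun e' => (b3.trans_le (hm u hu')).ne (congrArg rk e'), b2⟩, b3,
        fun w hw => b4 w (Finset.mem_of_mem_erase hw)⟩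

end Pool.Agent.MP_f7db47_al.GN

end

section

/-!
The acyclic carrier theorem.
-/

namespace Pool.Agent.MP_f7db47_al.GN

variable {V W : Type} [LinearOrder V] [LinearOrder W]

omit [LinearOrder V] [LinearOrder W] in
theorem CExt_lin_single (x : Finset V → (Finset W →₀ ℤ)) (σ : Finset V) :
    lin x (Finsupp.single σ 1) = x σ := by
  simp [lin]

omit [LinearOrder V] [LinearOrder W] in
theorem CExt_lin_eq (x : Finset V → (Finset W →₀ ℤ)) (c : Finset V →₀ ℤ) :
    lin x c = ∑ τ ∈ c.support, c τ • x τ := by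
  simp [lin, Finsupp.linearCombination_apply, Finsupp.sum]

omit [LinearOrder V] [LinearOrder W] in
theorem CExt_lin_congr {x y : Finset V → (Finset W →₀ ℤ)} {c : Finset V →₀ ℤ}
    (h : ∀ τ, c τ ≠ 0 → x τ = y τ) : lin x c = lin y c := by
  rw [CExt_lin_eq, CExt_lin_eq]
  exact Finset.sum_congr rfl fun τ hτ => by rw [h τ (Finsupp.mem_support_iff.1 hτ)]

omit [LinearOrder V] [LinearOrder W] in
theorem CExt_map_lin {U : Type} (f : (Finset W →₀ ℤ) →ₗ[ℤ] (Finset U →₀ ℤ))
    (x : Finset V → (Finset W →₀ ℤ)) (c : Finset V →₀ ℤ) :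
    f (lin x c) = lin (fun τ => f (x τ)) c := by
  simp only [CExt_lin_eq, map_sum, map_smul]

omit [LinearOrder V] [LinearOrder W] in
theorem CExt_lin_add_smul (x y : Finset V → (Finset W →₀ ℤ)) (ε : ℤ) (c : Finset V →₀ ℤ) :
    lin (fun τ => x τ + ε • y τ) c = lin x c + ε • lin y c := by
  simp only [CExt_lin_eq, smul_add, Finset.sum_add_distrib, Finset.smul_sum, smul_comm ε]

omit [LinearOrder V] [LinearOrder W] in
theorem CExt_lin_sub (x y : Finset V → (Finset W →₀ ℤ)) (c : Finset V →₀ ℤ) :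
    lin (fun τ => x τ - y τ) c = lin x c - lin y c := by
  simp only [CExt_lin_eq, smul_sub, Finset.sum_sub_distrib]

omit [LinearOrder V] in
theorem CExt_lin_id (c : Finset V →₀ ℤ) : lin (fun τ => Finsupp.single τ 1) c = c := by
  rw [CExt_lin_eq]
  simp only [Finsupp.smul_single, smul_eq_mul, mul_one]
  exact c.sum_single

theorem CExt_bd_single (σ : Finset V) : bd (Finsupp.single σ 1) = bd1 σ := CExt_lin_single _ _

theorem CExt_bd1_empty : bd1 (∅ : Finset V) = 0 := by simp [bd1]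

theorem CExt_bd1_ne {σ τ : Finset V} (h : bd1 σ τ ≠ 0) : ∃ v ∈ σ, τ = σ.erase v := by
  rw [bd1, Finsupp.finsetSum_apply] at h
  obtain ⟨v, hv, h⟩ := Finset.exists_ne_zero_of_sum_ne_zero h
  exact ⟨v, hv, (Finsupp.single_apply_ne_zero.1 h).1⟩

omit [LinearOrder V] in
theorem CExt_clq_sub {Adj : V → V → Prop} {B σ τ : Finset V} (h : Clq Adj B σ) (hτ : τ ⊆ σ) :
    Clq Adj B τ :=
  ⟨hτ.trans h.1, fun x hx y hy => h.2 x (hτ hx) y (hτ hy)⟩

omit [LinearOrder V] in
theorem CExt_ch_mono {Adj : V → V → Prop} {B B' : Finset V} {n : ℕ} {c : Finset V →₀ ℤ}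
    (h : Ch Adj B n c) (hB : B ⊆ B') : Ch Adj B' n c :=
  fun σ hσ => ⟨⟨(h σ hσ).1.1.trans hB, (h σ hσ).1.2⟩, (h σ hσ).2⟩

omit [LinearOrder V] in
theorem CExt_ch_zero (Adj : V → V → Prop) (B : Finset V) (n : ℕ) : Ch Adj B n 0 :=
  fun _ hσ => absurd rfl hσ

omit [LinearOrder V] in
theorem CExt_ch_add_smul {Adj : V → V → Prop} {B : Finset V} {n : ℕ} {c c' : Finset V →₀ ℤ}
    (h : Ch Adj B n c) (h' : Ch Adj B n c') (ε : ℤ) : Ch Adj B n (c + ε • c') := by
  intro σ hσ
  by_cases h0 : c σ = 0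
  · refine h' σ fun h1 => hσ ?_
    simp [h0, h1]
  · exact h σ h0

omit [LinearOrder V] in
theorem CExt_ch_single {Adj : V → V → Prop} {B σ : Finset V} {n : ℕ} (h : Clq Adj B σ)
    (hn : σ.card = n) : Ch Adj B n (Finsupp.single σ 1) := by
  intro τ hτ
  obtain rfl := (Finsupp.single_apply_ne_zero.1 hτ).1
  exact ⟨h, hn⟩

omit [LinearOrder V] [LinearOrder W] in
theorem CExt_ch_lin {Adj : W → W → Prop} {B : Finset W} {n : ℕ}
    {x : Finset V → (Finset W →₀ ℤ)} {c : Finset V →₀ ℤ} (h : ∀ τ, c τ ≠ 0 → Ch Adj B n (x τ)) :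
    Ch Adj B n (lin x c) := by
  intro σ hσ
  rw [CExt_lin_eq, Finsupp.finsetSum_apply] at hσ
  obtain ⟨τ, hτ, h1⟩ := Finset.exists_ne_zero_of_sum_ne_zero hσ
  refine h τ (Finsupp.mem_support_iff.1 hτ) σ fun h2 => h1 ?_
  simp [h2]

theorem CExt_bd_lin {x ψ : Finset V → (Finset W →₀ ℤ)} {ε : ℤ} {c : Finset V →₀ ℤ}
    (h : ∀ τ, c τ ≠ 0 → bd (x τ) = ψ τ + ε • lin x (bd1 τ)) :
    bd (lin x c) = lin ψ c + ε • lin x (bd c) := by
  rw [CExt_map_lin, CExt_lin_congr h, CExt_lin_add_smul, ← CExt_map_lin]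
  rfl

theorem extend {Adj : V → V → Prop} {K : Finset V} {Adj' : W → W → Prop}
    (Car : Finset V → Finset W) (hmono : ∀ σ τ, τ ⊆ σ → Car τ ⊆ Car σ)
    (hac : ∀ σ, Clq Adj K σ → σ.Nonempty → Acyc Adj' (Car σ)) (sh : ℕ) (ε : ℤ)
    (ψ : Finset V → (Finset W →₀ ℤ)) (x₀ : Finset W →₀ ℤ) (h₀ : bd x₀ = ψ ∅)
    (hx₀ : ∀ σ, Clq Adj K σ → σ.Nonempty → Ch Adj' (Car σ) sh x₀)
    (hψ : ∀ σ n, Clq Adj K σ → σ.card = n + 1 → Ch Adj' (Car σ) (n + sh) (ψ σ))
    (hc : ∀ σ, Clq Adj K σ → bd (ψ σ) + ε • lin ψ (bd1 σ) = 0) :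
    ∃ x : Finset V → (Finset W →₀ ℤ), x ∅ = x₀ ∧ ∀ σ, Clq Adj K σ → σ.Nonempty →
      Ch Adj' (Car σ) (σ.card + sh) (x σ) ∧ bd (x σ) = ψ σ + ε • lin x (bd1 σ) := by
  classical
  have key : ∀ m : ℕ, ∃ x : Finset V → (Finset W →₀ ℤ), x ∅ = x₀ ∧ ∀ σ, Clq Adj K σ →
      σ.Nonempty → σ.card ≤ m →
      Ch Adj' (Car σ) (σ.card + sh) (x σ) ∧ bd (x σ) = ψ σ + ε • lin x (bd1 σ) := by
    intro m
    induction m with
    | zero =>
      exact ⟨fun _ => x₀, rfl, fun σ _ hσ h => absurd hσ.card_pos (by omega)⟩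
    | succ m ih =>
      obtain ⟨x, hx0, hx⟩ := ih
      have fill : ∀ σ, ∃ c, Clq Adj K σ → σ.card = m + 1 →
          Ch Adj' (Car σ) (σ.card + sh) c ∧ bd c = ψ σ + ε • lin x (bd1 σ) := by
        intro σ
        by_cases hσ : Clq Adj K σ ∧ σ.card = m + 1
        swap
        · exact ⟨0, fun h1 h2 => absurd ⟨h1, h2⟩ hσ⟩
        obtain ⟨h1, h2⟩ := hσ
        have hne : σ.Nonempty := Finset.card_pos.1 (by omega)
        have hch : Ch Adj' (Car σ) (m + sh) (ψ σ + ε • lin x (bd1 σ)) := by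
          refine CExt_ch_add_smul (hψ σ m h1 h2) (CExt_ch_lin fun τ hτ => ?_) ε
          obtain ⟨v, hv, rfl⟩ := CExt_bd1_ne hτ
          have hcard : (σ.erase v).card = m := by rw [Finset.card_erase_of_mem hv]; omega
          rcases (σ.erase v).eq_empty_or_nonempty with he | he
          · have hm : m = 0 := by rw [← hcard, he]; rfl
            rw [he, hx0, hm, zero_add]
            exact hx₀ σ h1 hne
          · have := (hx _ (CExt_clq_sub h1 (σ.erase_subset v)) he hcard.le).1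
            rw [hcard] at this
            exact CExt_ch_mono this (hmono _ _ (σ.erase_subset v))
        have hcy : bd (ψ σ + ε • lin x (bd1 σ)) = 0 := by
          have h3 : bd (lin x (bd1 σ)) = lin ψ (bd1 σ) + ε • lin x (bd (bd1 σ)) := by
            refine CExt_bd_lin fun τ hτ => ?_
            obtain ⟨v, hv, rfl⟩ := CExt_bd1_ne hτ
            have hcard : (σ.erase v).card = m := by rw [Finset.card_erase_of_mem hv]; omega
            rcases (σ.erase v).eq_empty_or_nonempty with he | he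
            · rw [he, hx0, h₀, CExt_bd1_empty, map_zero, smul_zero, add_zero]
            · exact (hx _ (CExt_clq_sub h1 (σ.erase_subset v)) he hcard.le).2
          have h4 : bd (bd1 σ) = 0 := by rw [← CExt_bd_single, bd_bd]
          rw [map_add, map_smul, h3, h4, map_zero, smul_zero, add_zero, hc σ h1]
        obtain ⟨c, hc1, hc2⟩ := hac σ h1 hne _ _ hch hcy
        refine ⟨c, fun _ _ => ⟨?_, hc2⟩⟩
        rwa [h2, Nat.add_right_comm]
      choose y hy using fill
      refine ⟨fun σ => if σ.card = m + 1 then y σ else x σ, by simp [hx0], fun σ h1 hne hle => ?_⟩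
      have hl : lin (fun σ => if σ.card = m + 1 then y σ else x σ) (bd1 σ) = lin x (bd1 σ) := by
        refine CExt_lin_congr fun τ hτ => ?_
        obtain ⟨v, hv, rfl⟩ := CExt_bd1_ne hτ
        have := Finset.card_erase_of_mem hv
        have := hne.card_pos
        rw [if_neg (by omega)]
      rw [hl]
      by_cases h2 : σ.card = m + 1
      · simp only [if_pos h2]
        exact hy σ h1 h2
      · simp only [if_neg h2]
        exact hx σ h1 hne (by omega)
  obtain ⟨x, hx0, hx⟩ := key K.card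
  exact ⟨x, hx0, fun σ h1 hne => hx σ h1 hne (Finset.card_le_card h1.1)⟩

/-- Chain maps, homotopies and contractions for the transfer. -/
theorem TrD.chain {G J : Type} [Group G] {r₁ r₂ : J → G → J → Prop} {K : J → Finset V}
    {Adj : J → V → V → Prop} {C₁ C₂ : J → G → J → Finset V → Finset V} {n : ℕ}
    (h : TrD r₁ r₂ K Adj C₁ C₂ n) :
    ∃ (φ : J → G → J → Finset V → (Finset V →₀ ℤ))
      (H : J → G → J → G → J → Finset V → (Finset V →₀ ℤ)) (o : J → V)
      (s : J → Finset V → (Finset V →₀ ℤ)),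
      (∀ j σ, φ j 1 j σ = Finsupp.single σ 1) ∧
      (∀ i g j, φ i g j ∅ = Finsupp.single ∅ 1) ∧
      (∀ i g j σ, r₂ i g j → Clq (Adj j) (K j) σ → σ.Nonempty →
        Ch (Adj i) (C₁ i g j σ) σ.card (φ i g j σ) ∧ bd (φ i g j σ) = lin (φ i g j) (bd1 σ)) ∧
      (∀ i g j g' k, H i g j g' k ∅ = 0) ∧
      (∀ i g j g' k σ, r₁ i g j → r₁ j g' k → Clq (Adj k) (K k) σ → σ.Nonempty →
        Ch (Adj i) (C₂ i (g * g') k σ) (σ.card + 1) (H i g j g' k σ) ∧
        bd (H i g j g' k σ) + lin (H i g j g' k) (bd1 σ) =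
          lin (φ i g j) (φ j g' k σ) - φ i (g * g') k σ) ∧
      (∀ j, o j ∈ K j ∧ s j ∅ = Finsupp.single {o j} 1) ∧
      ∀ j σ, Clq (Adj j) (K j) σ → σ.Nonempty → Ch (Adj j) (K j) (σ.card + 1) (s j σ) ∧
        bd (s j σ) + lin (s j) (bd1 σ) = Finsupp.single σ 1 := by
  have hφ : ∀ i g j, ∃ φ : Finset V → (Finset V →₀ ℤ),
      (g = 1 ∧ i = j → ∀ σ, φ σ = Finsupp.single σ 1) ∧ φ ∅ = Finsupp.single ∅ 1 ∧
      (r₂ i g j → ∀ σ, Clq (Adj j) (K j) σ → σ.Nonempty →
        Ch (Adj i) (C₁ i g j σ) σ.card (φ σ) ∧ bd (φ σ) = lin φ (bd1 σ)) := by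
    intro i g j
    by_cases h1 : g = 1 ∧ i = j
    · obtain ⟨rfl, rfl⟩ := h1
      refine ⟨fun σ => Finsupp.single σ 1, fun _ _ => rfl, rfl, fun _ σ hσ _ => ⟨?_, ?_⟩⟩
      · exact CExt_ch_single ⟨h.self hσ, hσ.2⟩ rfl
      · rw [CExt_bd_single, CExt_lin_id]
    by_cases h2 : r₂ i g j
    · obtain ⟨x, hx0, hx⟩ := extend (Adj := Adj j) (K := K j) (Adj' := Adj i) (C₁ i g j)
        (fun σ τ hτ => h.mono₁ h2 hτ) (fun σ hσ hne => h.acyc₁ h2 hσ hne) 0 1 (fun _ => 0)
        (Finsupp.single ∅ 1) (by rw [CExt_bd_single, CExt_bd1_empty])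
        (fun σ _ _ => CExt_ch_single ⟨Finset.empty_subset _, by simp⟩ rfl)
        (fun σ n _ _ => CExt_ch_zero _ _ _) (fun σ _ => by simp [CExt_lin_eq])
      refine ⟨x, fun h3 => absurd h3 h1, hx0, fun _ σ hσ hne => ?_⟩
      simpa using hx σ hσ hne
    · exact ⟨fun _ => Finsupp.single ∅ 1, fun h3 => absurd h3 h1, rfl, fun h3 => absurd h3 h2⟩
  choose φ hφ1 hφ0 hφ using hφ
  have hH : ∀ i g j g' k, ∃ H : Finset V → (Finset V →₀ ℤ), H ∅ = 0 ∧
      (r₁ i g j → r₁ j g' k → ∀ σ, Clq (Adj k) (K k) σ → σ.Nonempty →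
        Ch (Adj i) (C₂ i (g * g') k σ) (σ.card + 1) (H σ) ∧
        bd (H σ) + lin H (bd1 σ) = lin (φ i g j) (φ j g' k σ) - φ i (g * g') k σ) := by
    intro i g j g' k
    by_cases h1 : r₁ i g j ∧ r₁ j g' k
    swap
    · exact ⟨fun _ => 0, rfl, fun h2 h3 => absurd ⟨h2, h3⟩ h1⟩
    obtain ⟨h1, h2⟩ := h1
    have h3 := h.rmul h1 h2
    have hsup : ∀ σ τ, Clq (Adj k) (K k) σ → σ.Nonempty → φ j g' k σ τ ≠ 0 →
        Clq (Adj j) (K j) τ ∧ τ.Nonempty ∧ τ ⊆ C₁ j g' k σ ∧ τ.card = σ.card := by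
      intro σ τ hσ hne hτ
      obtain ⟨h4, h5⟩ := (hφ j g' k (h.r12 h2) σ hσ hne).1 τ hτ
      exact ⟨⟨h4.1.trans (h.sub₁ σ (h.r12 h2)), h4.2⟩,
        Finset.card_pos.1 (h5 ▸ hne.card_pos), h4.1, h5⟩
    have h0 : lin (φ i g j) (φ j g' k ∅) - φ i (g * g') k ∅ = 0 := by
      rw [hφ0, CExt_lin_single, hφ0, hφ0, sub_self]
    obtain ⟨x, hx0, hx⟩ := extend (Adj := Adj k) (K := K k) (Adj' := Adj i) (C₂ i (g * g') k)
      (fun σ τ hτ => h.mono₂ h3 hτ) (fun σ hσ hne => h.acyc₂ h3 hσ hne) 1 (-1)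
      (fun σ => lin (φ i g j) (φ j g' k σ) - φ i (g * g') k σ) 0 (by rw [map_zero, h0])
      (fun σ _ _ => CExt_ch_zero _ _ _) (fun σ n hσ hn => by
        have hne : σ.Nonempty := Finset.card_pos.1 (by omega)
        rw [sub_eq_add_neg, ← neg_one_smul ℤ (φ i (g * g') k σ), ← hn]
        refine CExt_ch_add_smul (CExt_ch_lin fun τ hτ => ?_)
          (CExt_ch_mono (hφ _ _ _ h3 σ hσ hne).1 (h.le₁₂ σ h3)) _
        obtain ⟨h4, h5, h6, h7⟩ := hsup σ τ hσ hne hτ
        rw [← h7]
        exact CExt_ch_mono (hφ _ _ _ (h.r12 h1) τ h4 h5).1 (h.comp h1 h2 hσ hne h4 h5 h6))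
      (fun σ hσ => by
        rcases σ.eq_empty_or_nonempty with rfl | hne
        · rw [h0, CExt_bd1_empty, map_zero, map_zero, smul_zero, add_zero]
        have h4 : bd (lin (φ i g j) (φ j g' k σ)) =
            lin (fun _ => 0) (φ j g' k σ) + (1 : ℤ) • lin (φ i g j) (bd (φ j g' k σ)) := by
          refine CExt_bd_lin fun τ hτ => ?_
          obtain ⟨h4, h5, -, -⟩ := hsup σ τ hσ hne hτ
          rw [zero_add, one_smul]
          exact (hφ _ _ _ (h.r12 h1) τ h4 h5).2
        rw [map_sub, h4, (hφ _ _ _ (h.r12 h2) σ hσ hne).2, (hφ _ _ _ h3 σ hσ hne).2,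
          CExt_lin_sub, CExt_map_lin]
        simp [CExt_lin_eq (fun _ => 0)])
    refine ⟨x, hx0, fun _ _ σ hσ hne => ⟨(hx σ hσ hne).1, ?_⟩⟩
    rw [(hx σ hσ hne).2, neg_one_smul, neg_add_cancel_right]
  choose H hH0 hH using hH
  have hs : ∀ j, ∃ (o : V) (s : Finset V → (Finset V →₀ ℤ)),
      (o ∈ K j ∧ s ∅ = Finsupp.single {o} 1) ∧
      ∀ σ, Clq (Adj j) (K j) σ → σ.Nonempty → Ch (Adj j) (K j) (σ.card + 1) (s σ) ∧
        bd (s σ) + lin s (bd1 σ) = Finsupp.single σ 1 := by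
    intro j
    obtain ⟨c, hc1, hc2⟩ := h.acyc j 0 (Finsupp.single ∅ 1)
      (CExt_ch_single ⟨Finset.empty_subset _, by simp⟩ rfl)
      (by rw [CExt_bd_single, CExt_bd1_empty])
    have hc0 : c ≠ 0 := by
      rintro rfl
      rw [map_zero] at hc2
      exact one_ne_zero (Finsupp.single_eq_zero.1 hc2.symm)
    obtain ⟨τ, hτ⟩ := Finsupp.ne_iff.1 hc0
    obtain ⟨h1, h2⟩ := hc1 τ hτ
    obtain ⟨o, rfl⟩ := Finset.card_eq_one.1 h2
    obtain ⟨x, hx0, hx⟩ := extend (Adj := Adj j) (K := K j) (Adj' := Adj j) (fun _ => K j)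
      (fun σ τ _ => subset_rfl) (fun σ _ _ => h.acyc j) 1 (-1) (fun σ => Finsupp.single σ 1)
      (Finsupp.single {o} 1) (by rw [CExt_bd_single]; simp [bd1, Finset.filter_singleton])
      (fun σ _ _ => CExt_ch_single h1 rfl) (fun σ n hσ hn => CExt_ch_single hσ hn)
      (fun σ _ => by rw [CExt_bd_single, CExt_lin_id, neg_one_smul, add_neg_cancel])
    refine ⟨o, x, ⟨h1.1 (Finset.mem_singleton_self o), hx0⟩, fun σ hσ hne =>
      ⟨(hx σ hσ hne).1, ?_⟩⟩
    rw [(hx σ hσ hne).2, neg_one_smul, neg_add_cancel_right]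
  choose o s hs0 hs using hs
  exact ⟨φ, H, o, s, fun j σ => hφ1 j 1 j ⟨rfl, rfl⟩ σ, hφ0,
    fun i g j σ h1 h2 h3 => hφ i g j h1 σ h2 h3, hH0,
    fun i g j g' k σ h1 h2 h3 h4 => hH i g j g' k h1 h2 σ h3 h4, hs0, hs⟩

end Pool.Agent.MP_f7db47_al.GN

end

section

/-!
Projective dimension, restriction of scalars and chains with coefficients: definitions.
-/

namespace Pool.Agent.MP_f7db47_al.GS

open MonoidAlgebra

universe v

/-- The projective dimension is at most `k`. -/
def PD (L : Type v) [Ring L] (k : ℕ) (M : Type v) [AddCommGroup M] [Module L M] : Prop :=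
  CategoryTheory.HasProjectiveDimensionLT (ModuleCat.of L M) (k + 1)

/-- Restriction of scalars. -/
def Res {S L : Type v} [Ring S] [Ring L] (_φ : S →+* L) (M : Type v) : Type v := M

section Res

variable {S L : Type v} [Ring S] [Ring L] (φ : S →+* L) (M : Type v) [AddCommGroup M]

instance : AddCommGroup (Res φ M) := ‹_›

/-- The identity map to the restriction. -/
def Res.mk : M ≃+ Res φ M := AddEquiv.refl M

variable [Module L M]

instance : Module S (Res φ M) := Module.compHom M φ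

theorem Res.smul_mk (s : S) (m : M) : s • Res.mk φ M m = Res.mk φ M (φ s • m) := rfl

variable {M}

/-- The restriction of a linear map. -/
def Res.map {N : Type v} [AddCommGroup N] [Module L N] (f : M →ₗ[L] N) :
    Res φ M →ₗ[S] Res φ N where
  toFun := f
  map_add' := f.map_add
  map_smul' s m := f.map_smul (φ s) m

theorem Res.map_mk {N : Type v} [AddCommGroup N] [Module L N] (f : M →ₗ[L] N) (m : M) :
    Res.map φ f (Res.mk φ M m) = Res.mk φ N (f m) := rfl

end Res

/-- Chains on `Y` with coefficients in `K`. -/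
def Dg (Y : Type) (K : Type v) [AddCommGroup K] : Type v := Y →₀ K

section Dg

variable {R : Type v} [Ring R] {Γ Y : Type} [Group Γ] [MulAction Γ Y] {K : Type v}
  [AddCommGroup K]

noncomputable instance : AddCommGroup (Dg Y K) := inferInstanceAs (AddCommGroup (Y →₀ K))

/-- The chain concentrated at a point. -/
noncomputable def Dg.sg (y : Y) : K →+ Dg Y K := Finsupp.singleAddHom y

theorem Dg.hom_ext {A : Type*} [AddCommGroup A] {f g : Dg Y K →+ A}
    (h : ∀ y k, f (Dg.sg y k) = g (Dg.sg y k)) : f = g :=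
  Finsupp.addHom_ext h

/-- The additive map with given values on the points. -/
noncomputable def Dg.lift {A : Type*} [AddCommGroup A] (f : Y → K →+ A) : Dg Y K →+ A :=
  Finsupp.liftAddHom f

theorem Dg.lift_sg {A : Type*} [AddCommGroup A] (f : Y → K →+ A) (y : Y) (k : K) :
    Dg.lift f (Dg.sg y k) = f y k :=
  Finsupp.liftAddHom_apply_single f y k

variable [Module (MonoidAlgebra R Γ) K]

variable (Y K) in
/-- The diagonal action of a monomial. -/
noncomputable def Dg.act (g : Γ) (r : R) : Dg Y K →+ Dg Y K :=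
  Dg.lift fun y => (Dg.sg (g • y)).comp (DistribSMul.toAddMonoidHom K (single g r))

theorem Dg.act_sg (g : Γ) (r : R) (y : Y) (k : K) :
    Dg.act Y K g r (Dg.sg y k) = Dg.sg (g • y) (single g r • k) :=
  Dg.lift_sg _ y k

theorem Dg.act_mul (g h : Γ) (r s : R) :
    Dg.act Y K (g * h) (r * s) = (Dg.act Y K g r).comp (Dg.act Y K h s) :=
  Dg.hom_ext fun y k => by
    rw [AddMonoidHom.comp_apply, Dg.act_sg, Dg.act_sg, Dg.act_sg, mul_smul,
      ← mul_smul (single g r), single_mul_single]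

theorem Dg.act_one : Dg.act Y K (1 : Γ) (1 : R) = AddMonoidHom.id _ :=
  Dg.hom_ext fun y k => by
    rw [Dg.act_sg, one_smul, ← one_def, one_smul]; rfl

theorem Dg.act_zero (g : Γ) : Dg.act Y K g (0 : R) = 0 :=
  Dg.hom_ext fun y k => by
    rw [Dg.act_sg, single_zero, zero_smul, map_zero]; rfl

theorem Dg.act_add (g : Γ) (r s : R) :
    Dg.act Y K g (r + s) = Dg.act Y K g r + Dg.act Y K g s :=
  Dg.hom_ext fun y k => by
    rw [AddMonoidHom.add_apply, Dg.act_sg, Dg.act_sg, Dg.act_sg, single_add, add_smul, map_add]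

variable (R Γ Y K) in
/-- The diagonal action. -/
noncomputable def Dg.rho : MonoidAlgebra R Γ →+* AddMonoid.End (Dg Y K) :=
  liftNCRingHom
    { toFun := fun r => Dg.act Y K (1 : Γ) r
      map_one' := Dg.act_one
      map_mul' := fun r s => (congrArg (Dg.act Y K · (r * s)) (mul_one 1).symm).trans
        (Dg.act_mul 1 1 r s)
      map_zero' := Dg.act_zero 1
      map_add' := Dg.act_add 1 }
    { toFun := fun g => Dg.act Y K g (1 : R)
      map_one' := Dg.act_one
      map_mul' := fun g h => (congrArg (Dg.act Y K (g * h)) (mul_one 1).symm).trans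
        (Dg.act_mul g h 1 1) }
    fun r g => by
      change (Dg.act Y K 1 r).comp (Dg.act Y K g 1) = (Dg.act Y K g 1).comp (Dg.act Y K 1 r)
      rw [← Dg.act_mul, ← Dg.act_mul, mul_one, one_mul, mul_one, one_mul]

noncomputable instance : Module (MonoidAlgebra R Γ) (Dg Y K) :=
  Module.compHom (Dg Y K) (Dg.rho R Γ Y K)

theorem Dg.smul_sg (g : Γ) (r : R) (y : Y) (k : K) :
    single g r • Dg.sg y k = Dg.sg (g • y) (single g r • k) := by
  change Dg.rho R Γ Y K (single g r) (Dg.sg y k) = _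
  rw [Dg.rho, liftNCRingHom_single]
  change ((Dg.act Y K 1 r).comp (Dg.act Y K g 1)) _ = _
  rw [← Dg.act_mul, mul_one, one_mul, Dg.act_sg]

end Dg

/-- Modules over the group ring that are projective over `R` have projective dimension at most
`D`. -/
def CD (R : Type v) [Ring R] (Γ : Type) [Group Γ] (D : ℕ) : Prop :=
  ∀ (K : Type v) [AddCommGroup K] [Module (MonoidAlgebra R Γ) K],
    Module.Projective R (Res (singleOneRingHom : R →+* MonoidAlgebra R Γ) K) →
      PD (MonoidAlgebra R Γ) D K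

/-- Torsion-free groups. -/
def TF (G : Type) [Group G] : Prop := ∀ g : G, IsOfFinOrder g → g = 1

/-- Virtually poly-`ℤ` groups. -/
def VP (G : Type) [Group G] : Prop := ∃ U : Subgroup G, U.FiniteIndex ∧ PolyZ U

/-- An equivariant resolution of length at most `n` by permutation modules. -/
structure Cx (Γ : Type) [Group Γ] (Y : ℕ → Type) [∀ j, MulAction Γ (Y j)]
    (d : ∀ j, Y (j + 1) → (Y j →₀ ℤ)) (n : ℕ) : Prop where
  pt : Nonempty (Unique (Y 0))
  fin : ∀ j, n < j → IsEmpty (Y j)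
  eqv : ∀ j (g : Γ) y, d j (g • y) = (d j y).mapDomain (g • ·)
  onto : Function.Surjective (Finsupp.linearCombination ℤ (d 0))
  exact : ∀ j, Function.Exact (Finsupp.linearCombination ℤ (d (j + 1)))
    (Finsupp.linearCombination ℤ (d j))

end Pool.Agent.MP_f7db47_al.GS

end

section

/-!
Projective dimension: dimension shifting and restriction of scalars.
-/

namespace Pool.Agent.MP_f7db47_al.GS

open Function

universe v

variable {S L : Type v} [Ring S] [Ring L] {M N : Type v} [AddCommGroup M] [Module L M]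
  [AddCommGroup N] [Module L N]

theorem PD_equiv {n : ℕ} (h : PD L n M) (e : M ≃ₗ[L] N) : PD L n N := by
  unfold PD at h ⊢
  exact CategoryTheory.hasProjectiveDimensionLT_of_iso e.toModuleIso (n + 1)

theorem PD_ker (p : (M →₀ L) →ₗ[L] M) :
    Exact (LinearMap.ker p).subtype p := fun x => by
  simp

/-- Multiplication of a fixed element, as a map of restricted modules. -/
def PD_mul (φ : S →+* L) (m : M) : Res φ L →ₗ[S] Res φ M :=
  Res.map φ (LinearMap.toSpanSingleton L M m)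

theorem pd_zero : PD L 0 M ↔ Module.Projective L M :=
  (CategoryTheory.projective_iff_hasProjectiveDimensionLT_one.symm).trans
    (IsProjective.iff_projective M).symm

theorem pd_succ {P : Type v} [AddCommGroup P] [Module L P] (i : N →ₗ[L] P) (p : P →ₗ[L] M)
    (hi : Injective i) (hp : Surjective p) (he : Exact i p) (hP : Module.Projective L P)
    (n : ℕ) : PD L (n + 1) M ↔ PD L n N :=
  (ModuleCat.shortComplex_shortExact
    (ModuleCat.shortComplexOfCompEqZero i p he.linearMap_comp_eq_zero) he hi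
      hp).hasProjectiveDimensionLT_X₃_iff n ((IsProjective.iff_projective P).1 hP)

theorem PD.mono {n m : ℕ} (h : PD L n M) (hn : n ≤ m) : PD L m M := by
  unfold PD at h ⊢
  exact CategoryTheory.hasProjectiveDimensionLT_of_ge _ (n + 1) (m + 1) (by omega)

theorem PD.of_equiv {n : ℕ} (h : PD L n M) (e : M ≃ₗ[L] N) : PD L n N :=
  PD_equiv h e

theorem pd_seq (C : ℕ → Type v) [∀ j, AddCommGroup (C j)] [∀ j, Module L (C j)]
    (d : ∀ j, C (j + 1) →ₗ[L] C j) (h0 : Surjective (d 0)) (he : ∀ j, Exact (d (j + 1)) (d j))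
    (hP : ∀ j, Module.Projective L (C (j + 1))) (n : ℕ)
    (hn : ∀ j, n < j → Subsingleton (C j)) : PD L n (C 0) := by
  have key : ∀ k i, n ≤ i + k → PD L k (LinearMap.range (d i)) := by
    intro k
    induction k with
    | zero =>
      intro i hi
      have := hn (i + 1) (by omega)
      have : Subsingleton (LinearMap.range (d i)) :=
        (d i).surjective_rangeRestrict.subsingleton
      exact pd_zero.2 inferInstance
    | succ k ih =>
      intro i hi
      refine (pd_succ (LinearMap.range (d (i + 1))).subtype (d i).rangeRestrict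
        (Submodule.injective_subtype _) (d i).surjective_rangeRestrict (fun x => ?_)
        (hP i) k).2 (ih (i + 1) (by omega))
      rw [Subtype.ext_iff]
      refine (he i x).trans ?_
      simp
  exact (key n 0 (by omega)).of_equiv
    (LinearEquiv.ofTop _ (LinearMap.range_eq_top.2 h0))

theorem proj_res (φ : S →+* L) (hφ : Module.Projective S (Res φ L))
    (h : Module.Projective L M) : Module.Projective S (Res φ M) := by
  refine Module.Projective.of_lifting_property'' fun f hf => ?_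
  choose g hg using fun m : M => Module.projective_lifting_property f (PD_mul φ m) hf
  obtain ⟨s, hs⟩ := Module.projective_def.1 h
  let G0 : (M →₀ L) →+ (Res φ M →₀ S) :=
    Finsupp.liftAddHom fun m => (g m).toAddMonoidHom.comp (Res.mk φ L).toAddMonoidHom
  have hG0 : ∀ m l, G0 (Finsupp.single m l) = g m (Res.mk φ L l) := fun m l =>
    Finsupp.liftAddHom_apply_single _ m l
  have hsm : ∀ (a : S) (x : M →₀ L), G0 (φ a • x) = a • G0 x := by
    intro a x
    induction x using Finsupp.induction_linear with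
    | zero => simp
    | add x y hx hy => rw [smul_add, map_add, map_add, smul_add, hx, hy]
    | single m l =>
      rw [Finsupp.smul_single, hG0, hG0, ← Res.smul_mk, map_smul]
  have hfG : ∀ x : M →₀ L, f (G0 x) = Res.mk φ M (Finsupp.linearCombination L id x) := by
    intro x
    induction x using Finsupp.induction_linear with
    | zero => simp
    | add x y hx hy => rw [map_add, map_add, hx, hy, map_add, map_add]
    | single m l =>
      rw [hG0, ← LinearMap.comp_apply, hg, Finsupp.linearCombination_single]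
      rfl
  let G : Res φ (M →₀ L) →ₗ[S] (Res φ M →₀ S) :=
    { toFun := G0
      map_add' := G0.map_add
      map_smul' := hsm }
  refine ⟨G.comp (Res.map φ s), LinearMap.ext fun x => ?_⟩
  exact (hfG (s x)).trans (congrArg (Res.mk φ M) (hs x))

theorem PD_res_succ (φ : S →+* L) (hφ : Module.Projective S (Res φ L)) {P : Type v}
    [AddCommGroup P] [Module L P] (i : N →ₗ[L] P) (p : P →ₗ[L] M) (hi : Injective i)
    (hp : Surjective p) (he : Exact i p) (hP : Module.Projective L P) (n : ℕ) :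
    PD S (n + 1) (Res φ M) ↔ PD S n (Res φ N) :=
  pd_succ (Res.map φ i) (Res.map φ p) hi hp he (proj_res φ hφ hP) n

theorem pd_res (φ : S →+* L) (hφ : Module.Projective S (Res φ L)) {n : ℕ} (h : PD L n M) :
    PD S n (Res φ M) := by
  induction n generalizing M with
  | zero => exact pd_zero.2 (proj_res φ hφ (pd_zero.1 h))
  | succ n ih =>
    let p : (M →₀ L) →ₗ[L] M := Finsupp.linearCombination L id
    have hp : Surjective p := Finsupp.linearCombination_surjective _ surjective_id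
    have h1 := (pd_succ _ p (Submodule.injective_subtype _) hp (PD_ker p) inferInstance n).1 h
    exact (PD_res_succ φ hφ _ p (Submodule.injective_subtype _) hp (PD_ker p)
      inferInstance n).2 (ih h1)

theorem pd_of_res {ι : Type} (T : ι → Type v) [∀ i, Ring (T i)] (φ : ∀ i, T i →+* L)
    (hφ : ∀ i, Module.Projective (T i) (Res (φ i) L)) (n : ℕ)
    (h : ∀ (K : Type v) [AddCommGroup K] [Module L K],
      (∀ i, Module.Projective (T i) (Res (φ i) K)) → PD L n K)
    (d : ℕ) (hM : ∀ i, PD (T i) d (Res (φ i) M)) : PD L (n + d) M := by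
  induction d generalizing M with
  | zero => exact h M fun i => pd_zero.1 (hM i)
  | succ d ih =>
    let p : (M →₀ L) →ₗ[L] M := Finsupp.linearCombination L id
    have hp : Surjective p := Finsupp.linearCombination_surjective _ surjective_id
    refine (pd_succ _ p (Submodule.injective_subtype _) hp (PD_ker p) inferInstance
      (n + d)).2 (ih fun i => ?_)
    exact (PD_res_succ (φ i) (hφ i) _ p (Submodule.injective_subtype _) hp (PD_ker p)
      inferInstance d).1 (hM i)

theorem proj_of_surj (φ : S →+* L) (hφ : Surjective φ) (h : Module.Projective S (Res φ M)) :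
    Module.Projective L M := by
  refine Module.Projective.of_lifting_property'' fun f hf => ?_
  obtain ⟨s, hs⟩ := Module.projective_lifting_property (Res.map φ f) LinearMap.id hf
  refine ⟨{ toFun := s, map_add' := s.map_add, map_smul' := fun l x => ?_ },
    LinearMap.ext fun x => LinearMap.congr_fun hs x⟩
  obtain ⟨a, rfl⟩ := hφ l
  exact s.map_smul a x

theorem res_comp {R : Type v} [Ring R] (ψ : R →+* S) (φ : S →+* L) (χ : R →+* L)
    (h : ∀ r, χ r = φ (ψ r)) : Nonempty (Res ψ (Res φ M) ≃ₗ[R] Res χ M) :=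
  ⟨{ toFun := fun x => x
     invFun := fun x => x
     map_add' := fun _ _ => rfl
     map_smul' := fun r x => by
       change φ (ψ r) • (show M from x) = χ r • (show M from x)
       rw [h]
     left_inv := fun _ => rfl
     right_inv := fun _ => rfl }⟩

end Pool.Agent.MP_f7db47_al.GS

end

section

/-!
Chains with coefficients in a module that is projective over the stabilisers.
-/

namespace Pool.Agent.MP_f7db47_al.GS

open MonoidAlgebra

universe v

theorem DgA_rep {Γ Y : Type} [Group Γ] [MulAction Γ Y] :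
    ∃ (rep : Y → Y) (t : Y → Γ), (∀ y, t y • rep y = y) ∧ ∀ (g : Γ) y, rep (g • y) = rep y := by
  let q : Y → Quotient (MulAction.orbitRel Γ Y) := Quotient.mk _
  have h1 : ∀ y, ∃ g : Γ, g • (q y).out = y := fun y => by
    have h2 : (MulAction.orbitRel Γ Y) y (q y).out :=
      Quotient.exact (Quotient.out_eq (q y)).symm
    exact MulAction.mem_orbit_iff.1 (MulAction.orbitRel_apply.1 h2)
  choose t ht using h1
  refine ⟨fun y => (q y).out, t, ht, fun g y => ?_⟩
  have h3 : q (g • y) = q y :=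
    Quotient.sound (MulAction.orbitRel_apply.2 (MulAction.mem_orbit y g))
  simp only [h3]

theorem DgA_loc {R : Type v} [Ring R] {Γ Y : Type} [Group Γ] [MulAction Γ Y] {K : Type v}
    [AddCommGroup K] [Module (MonoidAlgebra R Γ) K] (y : Y)
    (h : Module.Projective (MonoidAlgebra R (MulAction.stabilizer Γ y))
      (Res (mapDomainRingHom R (MulAction.stabilizer Γ y).subtype) K))
    {P : Type v} [AddCommGroup P] [Module (MonoidAlgebra R Γ) P]
    (p : P →ₗ[MonoidAlgebra R Γ] Dg Y K) (hp : Function.Surjective p) :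
    ∃ a : K →+ P, (∀ k, p (a k) = Dg.sg y k) ∧
      ∀ (s : Γ) (r : R) (k : K), s • y = y → a (single s r • k) = single s r • a k := by
  let φ := mapDomainRingHom R (MulAction.stabilizer Γ y).subtype
  have hφ : ∀ (s : MulAction.stabilizer Γ y) (r : R), φ (single s r) = single (s : Γ) r :=
    fun s r => mapDomain_single
  let f : Res φ K →ₗ[MonoidAlgebra R (MulAction.stabilizer Γ y)] Res φ (Dg Y K) :=
    { toFun := fun k => Dg.sg y (show K from k)
      map_add' := fun a b => (Dg.sg y).map_add a b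
      map_smul' := fun s k => by
        change Dg.sg y (φ s • (show K from k)) = φ s • Dg.sg y (show K from k)
        induction s using MonoidAlgebra.induction_linear with
        | zero => rw [map_zero, zero_smul, zero_smul, map_zero]
        | add a b ha hb => rw [map_add, add_smul, add_smul, map_add, ha, hb]
        | single s r => rw [hφ, Dg.smul_sg, s.2] }
  obtain ⟨a, ha⟩ := Module.projective_lifting_property (Res.map φ p) f hp
  refine ⟨a.toAddMonoidHom, fun k => LinearMap.congr_fun ha k, fun s r k hs => ?_⟩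
  have h1 := a.map_smul (single (⟨s, hs⟩ : MulAction.stabilizer Γ y) r) k
  rw [← hφ ⟨s, hs⟩ r]
  exact h1

theorem proj_dg {R : Type v} [Ring R] {Γ Y : Type} [Group Γ] [MulAction Γ Y] {K : Type v}
    [AddCommGroup K] [Module (MonoidAlgebra R Γ) K]
    (h : ∀ y : Y, Module.Projective (MonoidAlgebra R (MulAction.stabilizer Γ y))
      (Res (mapDomainRingHom R (MulAction.stabilizer Γ y).subtype) K)) :
    Module.Projective (MonoidAlgebra R Γ) (Dg Y K) := by
  refine Module.Projective.of_lifting_property'' fun p hp => ?_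
  obtain ⟨rep, t, ht, hrep⟩ := DgA_rep (Γ := Γ) (Y := Y)
  choose a ha hs using fun y => DgA_loc y (h y) p hp
  let σ : Dg Y K →+ (Dg Y K →₀ MonoidAlgebra R Γ) := Dg.lift fun y =>
    (DistribSMul.toAddMonoidHom _ (single (t y) (1 : R))).comp
      ((a (rep y)).comp (DistribSMul.toAddMonoidHom K (single (t y)⁻¹ (1 : R))))
  have hσ : ∀ y k, σ (Dg.sg y k) =
      single (t y) (1 : R) • a (rep y) (single (t y)⁻¹ (1 : R) • k) := fun y k =>
    Dg.lift_sg _ y k
  have hlin : ∀ (g : Γ) (r : R) y k, σ (single g r • Dg.sg y k) = single g r • σ (Dg.sg y k) := by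
    intro g r y k
    have h1 : ((t (g • y))⁻¹ * g * t y) • rep y = rep y := by
      rw [mul_smul, mul_smul, ht, inv_smul_eq_iff, ← hrep g y, ht]
    have h2 : single (t (g • y))⁻¹ (1 : R) • single g r • k =
        single ((t (g • y))⁻¹ * g * t y) r • single (t y)⁻¹ (1 : R) • k := by
      rw [← mul_smul, ← mul_smul, single_mul_single, single_mul_single, one_mul, mul_one,
        mul_inv_cancel_right]
    rw [Dg.smul_sg, hσ, hσ, hrep, h2, hs _ _ _ _ h1, ← mul_smul, ← mul_smul, single_mul_single,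
      single_mul_single, one_mul, mul_one, mul_assoc, mul_inv_cancel_left]
  have hlin' : ∀ (c : MonoidAlgebra R Γ) x, σ (c • x) = c • σ x := by
    intro c x
    induction c using MonoidAlgebra.induction_linear with
    | zero => rw [zero_smul, zero_smul, map_zero]
    | add b c hb hc => rw [add_smul, add_smul, map_add, hb, hc]
    | single g r =>
      exact DFunLike.congr_fun (Dg.hom_ext
        (f := σ.comp (DistribSMul.toAddMonoidHom _ (single g r)))
        (g := (DistribSMul.toAddMonoidHom _ (single g r)).comp σ) (hlin g r)) x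
  refine ⟨⟨⟨σ, σ.map_add⟩, hlin'⟩, LinearMap.ext fun x => ?_⟩
  refine DFunLike.congr_fun (Dg.hom_ext (f := p.toAddMonoidHom.comp σ)
    (g := AddMonoidHom.id _) fun y k => ?_) x
  change p (σ (Dg.sg y k)) = Dg.sg y k
  rw [hσ, map_smul, ha, Dg.smul_sg, ht, ← mul_smul, single_mul_single, mul_inv_cancel, mul_one,
    ← one_def, one_smul]

end Pool.Agent.MP_f7db47_al.GS

end

section

/-!
A resolution by permutation modules bounds the projective dimension.
-/

namespace Pool.Agent.MP_f7db47_al.GS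

open MonoidAlgebra

universe v

/-- An integral chain times a coefficient. -/
noncomputable def DgB_tens (Y : Type) (K : Type v) [AddCommGroup K] :
    (Y →₀ ℤ) →ₗ[ℤ] (K →+ Dg Y K) :=
  Finsupp.linearCombination ℤ fun y => (Dg.sg y : K →+ Dg Y K)

theorem DgB_tens_single {Y : Type} {K : Type v} [AddCommGroup K] (y : Y) (m : ℤ) (k : K) :
    DgB_tens Y K (Finsupp.single y m) k = m • Dg.sg y k := by
  rw [DgB_tens, Finsupp.linearCombination_single]; rfl

/-- The map on chains with coefficients induced by a map of integral chains. -/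
noncomputable def DgB_T {Y Y2 : Type} (K : Type v) [AddCommGroup K] (f : Y → (Y2 →₀ ℤ)) :
    Dg Y K →+ Dg Y2 K :=
  Dg.lift fun y => DgB_tens Y2 K (f y)

theorem DgB_T_sg {Y Y2 : Type} {K : Type v} [AddCommGroup K] (f : Y → (Y2 →₀ ℤ)) (y : Y)
    (k : K) : DgB_T K f (Dg.sg y k) = DgB_tens Y2 K (f y) k :=
  Dg.lift_sg _ y k

theorem DgB_T_tens {Y Y2 : Type} {K : Type v} [AddCommGroup K] (f : Y → (Y2 →₀ ℤ))
    (c : Y →₀ ℤ) (k : K) :
    DgB_T K f (DgB_tens Y K c k) = DgB_tens Y2 K (Finsupp.linearCombination ℤ f c) k := by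
  induction c using Finsupp.induction_linear with
  | zero => simp
  | add a b ha hb => simp only [map_add, AddMonoidHom.add_apply, ha, hb]
  | single y m =>
    rw [DgB_tens_single, map_zsmul, DgB_T_sg, Finsupp.linearCombination_single, map_smul]
    rfl

theorem DgB_smul_tens {R : Type v} [Ring R] {Γ Y : Type} [Group Γ] [MulAction Γ Y] {K : Type v}
    [AddCommGroup K] [Module (MonoidAlgebra R Γ) K] (g : Γ) (r : R) (c : Y →₀ ℤ) (k : K) :
    single g r • DgB_tens Y K c k =
      DgB_tens Y K (c.mapDomain (g • ·)) (single g r • k) := by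
  induction c using Finsupp.induction_linear with
  | zero => simp
  | add a b ha hb =>
    simp only [Finsupp.mapDomain_add, map_add, AddMonoidHom.add_apply, smul_add, ha, hb]
  | single y m =>
    rw [Finsupp.mapDomain_single, DgB_tens_single, DgB_tens_single, smul_comm, Dg.smul_sg]

theorem DgB_lin {R : Type v} [Ring R] {Γ : Type} [Group Γ] {A B : Type v} [AddCommGroup A]
    [AddCommGroup B] [Module (MonoidAlgebra R Γ) A] [Module (MonoidAlgebra R Γ) B] (f : A →+ B)
    (h : ∀ (g : Γ) (r : R) x, f (single g r • x) = single g r • f x)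
    (a : MonoidAlgebra R Γ) (x : A) : f (a • x) = a • f x := by
  induction a using MonoidAlgebra.induction_linear with
  | zero => simp
  | add a b ha hb => simp only [add_smul, map_add, ha, hb]
  | single g r => exact h g r x

theorem DgB_T_smul {R : Type v} [Ring R] {Γ Y Y2 : Type} [Group Γ] [MulAction Γ Y]
    [MulAction Γ Y2] {K : Type v} [AddCommGroup K] [Module (MonoidAlgebra R Γ) K]
    (f : Y → (Y2 →₀ ℤ)) (hf : ∀ (g : Γ) y, f (g • y) = (f y).mapDomain (g • ·))
    (a : MonoidAlgebra R Γ) (x : Dg Y K) : DgB_T K f (a • x) = a • DgB_T K f x := by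
  refine DgB_lin _ (fun g r x => ?_) a x
  have := Dg.hom_ext (f := (DgB_T K f).comp (DistribSMul.toAddMonoidHom _ (single g r)))
    (g := (DistribSMul.toAddMonoidHom _ (single g r)).comp (DgB_T K f)) fun y k => by
      simp only [AddMonoidHom.comp_apply, DistribSMul.toAddMonoidHom_apply]
      rw [Dg.smul_sg, DgB_T_sg, DgB_T_sg, DgB_smul_tens, hf]
  exact DFunLike.congr_fun this x

theorem DgB_step {Γ : Type} [Group Γ] {Y : ℕ → Type} [∀ j, MulAction Γ (Y j)]
    {d : ∀ j, Y (j + 1) → (Y j →₀ ℤ)} {n : ℕ} (hC : Cx Γ Y d n) (j : ℕ)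
    (h : Y j → (Y (j + 1) →₀ ℤ))
    (hh : ∀ y, Finsupp.linearCombination ℤ (d j) (Finsupp.linearCombination ℤ h (d j y)) =
      d j y) :
    ∃ h' : Y (j + 1) → (Y (j + 2) →₀ ℤ), ∀ y, Finsupp.linearCombination ℤ (d (j + 1)) (h' y) =
      Finsupp.single y 1 - Finsupp.linearCombination ℤ h (d j y) := by
  have : ∀ y : Y (j + 1), ∃ c, Finsupp.linearCombination ℤ (d (j + 1)) c =
      Finsupp.single y 1 - Finsupp.linearCombination ℤ h (d j y) := fun y =>
    ((hC.exact j) _).1 (by rw [map_sub, hh, Finsupp.linearCombination_single, one_smul, sub_self])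
  choose h' hh' using this
  exact ⟨h', hh'⟩

theorem DgB_htpy {Γ : Type} [Group Γ] {Y : ℕ → Type} [∀ j, MulAction Γ (Y j)]
    {d : ∀ j, Y (j + 1) → (Y j →₀ ℤ)} {n : ℕ} (hC : Cx Γ Y d n) (j : ℕ) :
    ∃ h : Y j → (Y (j + 1) →₀ ℤ), ∀ y,
      Finsupp.linearCombination ℤ (d j) (Finsupp.linearCombination ℤ h (d j y)) = d j y := by
  induction j with
  | zero =>
    choose h hh using fun y : Y 0 => hC.onto (Finsupp.single y 1)
    refine ⟨h, fun y => ?_⟩
    have : (Finsupp.linearCombination ℤ (d 0)).comp (Finsupp.linearCombination ℤ h) =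
        LinearMap.id := Finsupp.lhom_ext' fun y => LinearMap.ext_ring (by simp [hh])
    exact LinearMap.congr_fun this _
  | succ j ih =>
    obtain ⟨h, hh⟩ := ih
    obtain ⟨h', hh'⟩ := DgB_step hC j h hh
    refine ⟨h', fun y => ?_⟩
    have : (Finsupp.linearCombination ℤ (d (j + 1))).comp (Finsupp.linearCombination ℤ h') =
        LinearMap.id - (Finsupp.linearCombination ℤ h).comp (Finsupp.linearCombination ℤ (d j)) :=
      Finsupp.lhom_ext' fun y => LinearMap.ext_ring (by simp [hh'])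
    have h1 := LinearMap.congr_fun this (d (j + 1) y)
    have h2 := (hC.exact j).apply_apply_eq_zero (Finsupp.single y 1)
    rw [Finsupp.linearCombination_single, one_smul] at h2
    simpa [h2] using h1

theorem pd_cx {R : Type v} [Ring R] {Γ : Type} [Group Γ] {Y : ℕ → Type} [∀ j, MulAction Γ (Y j)]
    {d : ∀ j, Y (j + 1) → (Y j →₀ ℤ)} {n : ℕ} (hC : Cx Γ Y d n) (K : Type v) [AddCommGroup K]
    [Module (MonoidAlgebra R Γ) K]
    (h : ∀ j (y : Y (j + 1)), Module.Projective (MonoidAlgebra R (MulAction.stabilizer Γ y))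
      (Res (mapDomainRingHom R (MulAction.stabilizer Γ y).subtype) K)) :
    PD (MonoidAlgebra R Γ) n K := by
  obtain ⟨u⟩ := hC.pt
  let D : ∀ j, Dg (Y (j + 1)) K →ₗ[MonoidAlgebra R Γ] Dg (Y j) K := fun j =>
    { toFun := DgB_T K (d j)
      map_add' := map_add _
      map_smul' := DgB_T_smul (d j) (hC.eqv j) }
  have hD : ∀ j x, D j x = DgB_T K (d j) x := fun _ _ => rfl
  have h0 : Function.Surjective (D 0) := by
    choose s hs using fun y : Y 0 => hC.onto (Finsupp.single y 1)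
    have := Dg.hom_ext (f := (DgB_T K (d 0)).comp (DgB_T K s)) (g := AddMonoidHom.id _)
      fun y k => by
        rw [AddMonoidHom.comp_apply, DgB_T_sg, DgB_T_tens, hs, DgB_tens_single, one_smul]; rfl
    exact fun x => ⟨DgB_T K s x, DFunLike.congr_fun this x⟩
  have he : ∀ j, Function.Exact (D (j + 1)) (D j) := by
    intro j
    obtain ⟨s, hs⟩ := DgB_htpy hC j
    obtain ⟨s', hs'⟩ := DgB_step hC j s hs
    have h1 := Dg.hom_ext (f := (DgB_T K (d (j + 1))).comp (DgB_T K s'))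
      (g := AddMonoidHom.id _ - (DgB_T K s).comp (DgB_T K (d j))) fun y k => by
        rw [AddMonoidHom.comp_apply, DgB_T_sg, DgB_T_tens, hs', map_sub, AddMonoidHom.sub_apply,
          AddMonoidHom.sub_apply, DgB_tens_single, one_smul, AddMonoidHom.comp_apply, DgB_T_sg,
          DgB_T_tens]
        rfl
    have h2 := Dg.hom_ext (f := (DgB_T K (d j)).comp (DgB_T K (d (j + 1)))) (g := 0)
      fun y k => by
        have h2 := (hC.exact j).apply_apply_eq_zero (Finsupp.single y 1)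
        rw [Finsupp.linearCombination_single, one_smul] at h2
        rw [AddMonoidHom.comp_apply, DgB_T_sg, DgB_T_tens, h2, map_zero]
        rfl
    intro x
    constructor
    · intro hx
      refine ⟨DgB_T K s' x, ?_⟩
      have := DFunLike.congr_fun h1 x
      rw [hD] at hx
      rw [AddMonoidHom.sub_apply, AddMonoidHom.comp_apply, AddMonoidHom.comp_apply, hx, map_zero,
        sub_zero] at this
      exact this
    · rintro ⟨z, rfl⟩
      exact DFunLike.congr_fun h2 z
  have hP := pd_seq (L := MonoidAlgebra R Γ) (fun j => Dg (Y j) K) D h0 he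
    (fun j => proj_dg (h j)) n fun j hj => by
      have := hC.fin j hj
      exact inferInstanceAs (Subsingleton (Y j →₀ K))
  let e : Dg (Y 0) K →+ K := Dg.lift fun _ => AddMonoidHom.id K
  have he' : ∀ y k, e (Dg.sg y k) = k := fun y k => Dg.lift_sg _ y k
  refine hP.of_equiv
    { toFun := e
      map_add' := map_add _
      map_smul' := DgB_lin e fun g r x => ?_
      invFun := Dg.sg default
      left_inv := fun x => ?_
      right_inv := fun k => he' _ k }
  · have := Dg.hom_ext (f := e.comp (DistribSMul.toAddMonoidHom _ (single g r)))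
      (g := (DistribSMul.toAddMonoidHom _ (single g r)).comp e) fun y k => by
        simp only [AddMonoidHom.comp_apply, DistribSMul.toAddMonoidHom_apply]
        rw [Dg.smul_sg, he', he']
    exact DFunLike.congr_fun this x
  · have := Dg.hom_ext (f := (Dg.sg (default : Y 0)).comp e) (g := AddMonoidHom.id _)
      fun y k => by
        rw [AddMonoidHom.comp_apply, he', Subsingleton.elim default y]; rfl
    exact DFunLike.congr_fun this x

end Pool.Agent.MP_f7db47_al.GS

end

section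

/-!
Group rings are projective over the group rings of subgroups.
-/

namespace Pool.Agent.MP_f7db47_al.GS

open MonoidAlgebra

universe v

variable {R : Type v} [Ring R] {Γ S : Type} [Group Γ] [Group S]

theorem Fr_one_mul (r : R) (x : MonoidAlgebra R Γ) : single (1 : Γ) r * x = r • x := by
  induction x using MonoidAlgebra.induction_linear with
  | zero => rw [mul_zero, smul_zero]
  | add a b ha hb => rw [mul_add, smul_add, ha, hb]
  | single g s => rw [single_mul_single, one_mul, smul_single, smul_eq_mul]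

theorem Fr_rep (i : S →* Γ) (hi : Function.Injective i) : ∃ (rep : Γ → Γ) (s : Γ → S),
    (∀ g, i (s g) * rep g = g) ∧ (∀ t g, rep (i t * g) = rep g) ∧
      ∀ t g, s (i t * g) = t * s g := by
  have h1 : ∀ g, ∃ t, i t = g * (Quotient.mk (QuotientGroup.rightRel i.range) g).out⁻¹ :=
    fun g => (QuotientGroup.rightRel_apply (s := i.range)).1
      (Quotient.mk_out (s := QuotientGroup.rightRel i.range) g)
  choose s hs using h1
  have h2 : ∀ t g, (Quotient.mk (QuotientGroup.rightRel i.range) (i t * g)).out =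
      (Quotient.mk (QuotientGroup.rightRel i.range) g).out := fun t g =>
    congrArg Quotient.out (Quotient.sound (QuotientGroup.rightRel_apply.2 ⟨t⁻¹, by simp⟩))
  refine ⟨fun g => (Quotient.mk (QuotientGroup.rightRel i.range) g).out, s, fun g => ?_, h2,
    fun t g => hi ?_⟩
  · rw [hs, inv_mul_cancel_right]
  · rw [map_mul, hs, hs, h2, mul_assoc]

theorem Fr_smul (i : S →* Γ) (t : S) (a : R) (g : Γ) (r : R) :
    single t a • Res.mk (mapDomainRingHom R i) _ (single g r) =
      Res.mk (mapDomainRingHom R i) _ (single (i t * g) (a * r)) := by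
  rw [Res.smul_mk, mapDomainRingHom_apply, mapDomain_single, smul_eq_mul, single_mul_single]

theorem proj_base : Module.Projective R
    (Res (singleOneRingHom : R →+* MonoidAlgebra R Γ) (MonoidAlgebra R Γ)) :=
  haveI : Module.Projective R (MonoidAlgebra R Γ) := .of_basis (MonoidAlgebra.basis Γ R)
  Module.Projective.of_equiv' (M := MonoidAlgebra R Γ)
    { Res.mk _ _ with
      map_smul' := fun r x => congrArg (Res.mk _ _) (Fr_one_mul r x).symm }

theorem proj_grp (i : S →* Γ) (hi : Function.Injective i) :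
    Module.Projective (MonoidAlgebra R S) (Res (mapDomainRingHom R i) (MonoidAlgebra R Γ)) :=
  by
  obtain ⟨rep, s, h1, h2, h3⟩ := Fr_rep i hi
  let c : MonoidAlgebra R Γ →+ (Γ →₀ MonoidAlgebra R S) :=
    (Finsupp.liftAddHom fun g => (Finsupp.singleAddHom (rep g)).comp
      (singleAddHom (s g))).comp coeffAddEquiv.toAddMonoidHom
  have hc : ∀ g r, c (single g r) = Finsupp.single (rep g) (single (s g) r) := fun g r => by
    simp [c, coeffAddEquiv]
  let c' := c.comp (Res.mk (mapDomainRingHom R i) (MonoidAlgebra R Γ)).symm.toAddMonoidHom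
  have hc' : ∀ g r, c' (Res.mk _ _ (single g r)) = Finsupp.single (rep g) (single (s g) r) := hc
  have hl : ∀ (a : MonoidAlgebra R S) x, c' (a • Res.mk _ _ x) = a • c' (Res.mk _ _ x) := by
    intro a x
    induction a using MonoidAlgebra.induction_linear with
    | zero => rw [zero_smul, zero_smul, map_zero]
    | add a b ha hb => rw [add_smul, add_smul, map_add, ha, hb]
    | single t a =>
      induction x using MonoidAlgebra.induction_linear with
      | zero => rw [map_zero, smul_zero, map_zero, smul_zero]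
      | add x y hx hy => rw [map_add, smul_add, map_add, map_add, smul_add, hx, hy]
      | single g r =>
        rw [Fr_smul, hc', hc', h2, h3, Finsupp.smul_single, smul_eq_mul, single_mul_single]
  refine Module.Projective.of_split (M := Γ →₀ MonoidAlgebra R S)
    { c' with map_smul' := hl }
    (Finsupp.linearCombination _ fun g => Res.mk _ _ (single g 1)) (LinearMap.ext fun x => ?_)
  obtain ⟨x, rfl⟩ := (Res.mk _ _).surjective x
  change Finsupp.linearCombination _ _ (c' (Res.mk _ _ x)) = Res.mk _ _ x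
  induction x using MonoidAlgebra.induction_linear with
  | zero => rw [map_zero, map_zero, map_zero]
  | add x y hx hy => rw [map_add, map_add, map_add, hx, hy]
  | single g r => rw [hc', Finsupp.linearCombination_single, Fr_smul, h1, mul_one]

theorem finite_grp (U : Subgroup Γ) [U.FiniteIndex] : Module.Finite (MonoidAlgebra R U)
    (Res (mapDomainRingHom R U.subtype) (MonoidAlgebra R Γ)) :=
  by
  refine Module.Finite.of_surjective (Finsupp.linearCombination (MonoidAlgebra R U)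
    fun q : Γ ⧸ U => Res.mk (mapDomainRingHom R U.subtype) _ (single q.out⁻¹ 1))
    (LinearMap.range_eq_top.1 (eq_top_iff.2 fun x _ => ?_))
  obtain ⟨x, rfl⟩ := (Res.mk _ _).surjective x
  induction x using MonoidAlgebra.induction_linear with
  | zero => rw [map_zero]; exact zero_mem _
  | add x y hx hy => rw [map_add]; exact add_mem (hx trivial) (hy trivial)
  | single g r =>
    obtain ⟨u, hu⟩ := QuotientGroup.mk_out_eq_mul U g⁻¹
    refine ⟨Finsupp.single (g⁻¹ : Γ) (single u r), ?_⟩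
    rw [Finsupp.linearCombination_single, Fr_smul, hu, mul_one]
    simp

theorem finite_res {A L : Type v} [Ring A] [Ring L] (φ : A →+* L)
    (hφ : Module.Finite A (Res φ L)) (M : Type v) [AddCommGroup M] [Module L M]
    [Module.Finite L M] : Module.Finite A (Res φ M) :=
  letI : Module A L := Module.compHom L φ
  letI : Module A M := Module.compHom M φ
  haveI : IsScalarTower A L M := ⟨fun a l m => mul_smul (φ a) l m⟩
  haveI : Module.Finite A L := hφ
  Module.Finite.trans L M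

theorem noeth_of_res {A L : Type v} [Ring A] [Ring L] (φ : A →+* L) [IsNoetherianRing A]
    (hφ : Module.Finite A (Res φ L)) : IsNoetherianRing L :=
  letI : Module A L := Module.compHom L φ
  haveI : IsScalarTower A L L := ⟨fun a l m => mul_assoc (φ a) l m⟩
  haveI : Module.Finite A L := hφ
  isNoetherian_of_tower A (isNoetherian_of_isNoetherianRing_of_finite A L)

end Pool.Agent.MP_f7db47_al.GS

end

section

/-!
The chain complex of an invariant acyclic clique complex.
-/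

namespace Pool.Agent.MP_f7db47_al.GS

section aux

variable {Γ V : Type} [Group Γ] [LinearOrder V] [MulAction Γ V] {Adj : V → V → Prop}

/-- The cliques with `j` elements. -/
abbrev CxP (Adj : V → V → Prop) (j : ℕ) (s : Finset V) : Prop :=
  (∀ x ∈ s, ∀ y ∈ s, x ≠ y → Adj x y) ∧ s.card = j

/-- The action on finite sets. -/
def CxM (g : Γ) (s : Finset V) : Finset V := s.map (MulAction.toPerm g).toEmbedding

omit [LinearOrder V] in
theorem CxM_mem {g : Γ} {s : Finset V} {x : V} : x ∈ CxM g s ↔ ∃ y ∈ s, g • y = x :=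
  Finset.mem_map

/-- The action on cliques. -/
@[reducible] def CxAct (hi : ∀ (g : Γ) x y, Adj x y → Adj (g • x) (g • y)) (j : ℕ) :
    MulAction Γ {s // CxP Adj j s} where
  smul g s := ⟨CxM g s.1, fun x hx y hy hxy => by
    obtain ⟨a, ha, rfl⟩ := CxM_mem.1 hx
    obtain ⟨b, hb, rfl⟩ := CxM_mem.1 hy
    exact hi g a b (s.2.1 a ha b hb fun e => hxy (congrArg _ e)),
    (Finset.card_map _).trans s.2.2⟩
  one_smul s := Subtype.ext (Finset.ext fun x => CxM_mem.trans (by simp))
  mul_smul g h s := Subtype.ext (Finset.ext fun x => CxM_mem.trans (Iff.trans ⟨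
    fun ⟨y, hy, e⟩ => ⟨h • y, CxM_mem.2 ⟨y, hy, rfl⟩, (mul_smul g h y).symm.trans e⟩,
    fun ⟨_, hz, e⟩ => by
      obtain ⟨y, hy, rfl⟩ := CxM_mem.1 hz
      exact ⟨y, hy, (mul_smul g h y).trans e⟩⟩ CxM_mem.symm))

theorem Cx_sub {α : Type} {p : α → Prop} {c : α →₀ ℤ} (h : ∀ a, c a ≠ 0 → p a) :
    (c.subtypeDomain p).mapDomain Subtype.val = c := by
  ext a
  by_cases ha : p a
  · exact Finsupp.mapDomain_apply Subtype.val_injective _ ⟨a, ha⟩
  · rw [Finsupp.mapDomain_notin_range _ _ (by simpa using ha)]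
    exact (not_not.1 (mt (h a) ha)).symm

/-- The boundary of a clique. -/
noncomputable def CxD (Adj : V → V → Prop) (j : ℕ) (y : {s // CxP Adj (j + 1) s}) :
    {s // CxP Adj j s} →₀ ℤ := (GN.bd1 y.1).subtypeDomain _

theorem CxD_val (j : ℕ) (y : {s // CxP Adj (j + 1) s}) :
    (CxD Adj j y).mapDomain Subtype.val = GN.bd1 y.1 := by
  refine Cx_sub fun τ hτ => ?_
  rw [GN.CAcyc_bd1, Finsupp.finsetSum_apply] at hτ
  obtain ⟨v, hv, h3⟩ := Finset.exists_ne_zero_of_sum_ne_zero hτ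
  obtain rfl := (Finsupp.single_apply_ne_zero.1 h3).1
  exact ⟨fun a ha b hb => y.2.1 a (Finset.mem_of_mem_erase ha) b (Finset.mem_of_mem_erase hb),
    by rw [Finset.card_erase_of_mem hv, y.2.2, Nat.add_sub_cancel]⟩

theorem CxD_lc (j : ℕ) (c : {s // CxP Adj (j + 1) s} →₀ ℤ) :
    (Finsupp.linearCombination ℤ (CxD Adj j) c).mapDomain Subtype.val =
      GN.bd (c.mapDomain Subtype.val) := by
  induction c using Finsupp.induction_linear with
  | zero => simp
  | add a b ha hb => simp only [map_add, Finsupp.mapDomain_add, ha, hb]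
  | single σ a =>
    rw [Finsupp.linearCombination_single, Finsupp.mapDomain_smul, CxD_val,
      Finsupp.mapDomain_single, GN.bd, GN.CAcyc_lin]

theorem Cx_ex (ha : ∀ s : Finset V, ∃ B, s ⊆ B ∧ GN.Acyc Adj B) (j : ℕ)
    (c : {s // CxP Adj j s} →₀ ℤ) (h : GN.bd (c.mapDomain Subtype.val) = 0) :
    ∃ c', Finsupp.linearCombination ℤ (CxD Adj j) c' = c := by
  obtain ⟨B, hB, hA⟩ := ha (c.support.biUnion Subtype.val)
  obtain ⟨c', h1, h2⟩ := hA j _ (fun σ hσ => by
    by_cases h3 : σ ∈ Set.range (Subtype.val : {s // CxP Adj j s} → _)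
    · obtain ⟨y, rfl⟩ := h3
      rw [Finsupp.mapDomain_apply Subtype.val_injective] at hσ
      exact ⟨⟨(Finset.subset_biUnion_of_mem _ (Finsupp.mem_support_iff.2 hσ)).trans hB, y.2.1⟩,
        y.2.2⟩
    · exact absurd (Finsupp.mapDomain_notin_range _ _ h3) hσ) h
  refine ⟨c'.subtypeDomain _, Finsupp.mapDomain_injective Subtype.val_injective ?_⟩
  rw [CxD_lc, Cx_sub fun σ hσ => ⟨(h1 σ hσ).1.2, (h1 σ hσ).2⟩, h2]

theorem Cx_lt (ho : ∀ (g : Γ) x y, Adj x y → x < y → g • x < g • y) {s : Finset V}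
    (hs : ∀ x ∈ s, ∀ y ∈ s, x ≠ y → Adj x y) (g : Γ) {x y : V} (hx : x ∈ s) (hy : y ∈ s) :
    g • x < g • y ↔ x < y := by
  refine ⟨fun h => ?_, fun h => ho g x y (hs x hx y hy h.ne) h⟩
  rcases lt_trichotomy x y with h' | rfl | h'
  · exact h'
  · exact absurd h (lt_irrefl _)
  · exact absurd h (ho g y x (hs y hy x hx h'.ne) h').not_gt

theorem Cx_bd1 (ho : ∀ (g : Γ) x y, Adj x y → x < y → g • x < g • y) {s : Finset V}
    (hs : ∀ x ∈ s, ∀ y ∈ s, x ≠ y → Adj x y) (g : Γ) :
    GN.bd1 (CxM g s) = (GN.bd1 s).mapDomain (CxM g) := by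
  rw [GN.bd1, GN.bd1, Finsupp.mapDomain_finsetSum, CxM, Finset.sum_map]
  refine Finset.sum_congr rfl fun v hv => ?_
  rw [Finsupp.mapDomain_single, CxM, Finset.map_erase, Finset.filter_map, Finset.card_map]
  congr 3
  exact Finset.filter_congr fun x hx => Cx_lt ho hs g hx hv

end aux

theorem exists_cx {Γ V : Type} [Group Γ] [LinearOrder V] [MulAction Γ V] (Adj : V → V → Prop)
    (hi : ∀ (g : Γ) x y, Adj x y → Adj (g • x) (g • y))
    (ho : ∀ (g : Γ) x y, Adj x y → x < y → g • x < g • y) (n : ℕ)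
    (hn : ∀ B σ, GN.Clq Adj B σ → σ.card ≤ n)
    (ha : ∀ s : Finset V, ∃ B, s ⊆ B ∧ GN.Acyc Adj B) :
    ∃ (Y : ℕ → Type) (_ : ∀ j, MulAction Γ (Y j)) (d : ∀ j, Y (j + 1) → (Y j →₀ ℤ)),
      Cx Γ Y d n ∧ ∀ j (y : Y (j + 1)), ∃ x : V, ∀ g : Γ, g • y = y → g • x = x := by
  letI := CxAct hi
  refine ⟨fun j => {s // CxP Adj j s}, CxAct hi, CxD Adj, ⟨⟨⟨⟨⟨∅, by simp, rfl⟩⟩, fun s =>
    Subtype.ext (Finset.card_eq_zero.1 s.2.2)⟩⟩, fun j hj => ⟨fun s =>
      (hn s.1 s.1 ⟨subset_rfl, s.2.1⟩).not_gt (s.2.2.symm ▸ hj)⟩, fun j g y => ?_, fun c => ?_,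
    fun j c => ⟨fun h => ?_, ?_⟩⟩, fun j y => ?_⟩
  · refine Finsupp.mapDomain_injective Subtype.val_injective ?_
    rw [CxD_val, ← Finsupp.mapDomain_comp]
    refine (Cx_bd1 ho y.2.1 g).trans ?_
    rw [← CxD_val, ← Finsupp.mapDomain_comp]
    rfl
  · refine Cx_ex ha 0 c ?_
    induction c using Finsupp.induction_linear with
    | zero => simp
    | add a b h1 h2 => rw [Finsupp.mapDomain_add, map_add, h1, h2, add_zero]
    | single σ a =>
      rw [Finsupp.mapDomain_single, GN.bd, GN.CAcyc_lin, Finset.card_eq_zero.1 σ.2.2, GN.bd1,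
        Finset.sum_empty, smul_zero]
  · exact Cx_ex ha _ c (by rw [← CxD_lc, h, Finsupp.mapDomain_zero])
  · rintro ⟨c', rfl⟩
    refine Finsupp.mapDomain_injective Subtype.val_injective ?_
    rw [CxD_lc, CxD_lc, GN.bd_bd, Finsupp.mapDomain_zero]
  · have hne : y.1.Nonempty := Finset.card_pos.1 (y.2.2.symm ▸ Nat.succ_pos j)
    refine ⟨y.1.min' hne, fun g hg => ?_⟩
    have h1 : CxM g y.1 = y.1 := congrArg Subtype.val hg
    have h2 := y.1.min'_mem hne
    obtain ⟨z, hz, e⟩ := CxM_mem.1 (h1.ge h2)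
    refine le_antisymm (not_lt.1 fun h => ?_) (y.1.min'_le _ (h1.le (CxM_mem.2 ⟨_, h2, rfl⟩)))
    exact ((Cx_lt ho y.2.1 g hz h2).1 (e.trans_lt h)).not_ge (y.1.min'_le _ hz)

end Pool.Agent.MP_f7db47_al.GS

end

section

/-!
The action on the Kuhn triangulation that is coinduced from a character.
-/

namespace Pool.Agent.MP_f7db47_al.GS

/-- One step up in the Kuhn triangulation. -/
def Kuhn_R {Q : Type} (x y : Q → ℤ) : Prop := ∀ q, x q ≤ y q ∧ y q ≤ x q + 1

theorem Kuhn_rk {Q : Type} [Fintype Q] {x y : Q → ℤ} (h : Kuhn_R x y) :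
    ∑ q, x q ≤ ∑ q, y q ∧ ∑ q, y q ≤ ∑ q, x q + Fintype.card Q ∧ (∑ q, y q ≤ ∑ q, x q → x = y) := by
  have h1 := Finset.sum_le_sum (s := Finset.univ) fun q _ => (h q).1
  refine ⟨h1, ?_, fun h2 => funext fun q => (Finset.sum_eq_sum_iff_of_le fun q _ => (h q).1).1
    (h1.antisymm h2) q (Finset.mem_univ q)⟩
  simpa [Finset.sum_add_distrib] using Finset.sum_le_sum (s := Finset.univ) fun q _ => (h q).2

section
variable {V Q : Type} [Fintype Q] (e : V ≃ (Q → ℤ))

/-- The edges of the Kuhn triangulation. -/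
def Kuhn_A (x y : V) : Prop := x ≠ y ∧ (Kuhn_R (e x) (e y) ∨ Kuhn_R (e y) (e x))

theorem Kuhn_clq {B σ : Finset V} (h : GN.Clq (Kuhn_A e) B σ) : σ.card ≤ Fintype.card Q + 1 := by
  rcases σ.eq_empty_or_nonempty with rfl | hσ
  · exact Nat.zero_le _
  obtain ⟨x₀, h0, h1⟩ := σ.exists_min_image (fun x => ∑ q, e x q) hσ
  refine (Finset.card_le_card_of_injOn (t := Finset.Icc (∑ q, e x₀ q) (∑ q, e x₀ q + Fintype.card Q))
    (fun x => ∑ q, e x q) (fun y hy => Finset.mem_coe.2 (Finset.mem_Icc.2 ⟨h1 y hy, ?_⟩))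
      fun x hx y hy hxy => by_contra fun hne => ?_).trans (by rw [Int.card_Icc]; omega)
  · by_cases h2 : x₀ = y
    · subst h2
      exact le_add_of_nonneg_right (Nat.cast_nonneg _)
    · exact (h.2 x₀ h0 y hy h2).2.elim (fun h3 => (Kuhn_rk h3).2.1)
        fun h3 => (Kuhn_rk h3).1.trans (le_add_of_nonneg_right (Nat.cast_nonneg _))
  · exact (h.2 x hx y hy hne).2.elim (fun h3 => hne (e.injective ((Kuhn_rk h3).2.2 hxy.ge)))
      fun h3 => hne (e.injective ((Kuhn_rk h3).2.2 hxy.le).symm)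

theorem Kuhn_acyc [LinearOrder V] (s : Finset V) : ∃ B, s ⊆ B ∧ GN.Acyc (Kuhn_A e) B := by
  classical
  obtain ⟨N, hN⟩ : ∃ N : ℕ, ∀ x ∈ s, ∀ q, (e x q).natAbs ≤ N :=
    ⟨s.sup fun x => Finset.univ.sup fun q => (e x q).natAbs, fun x hx q =>
      Finset.le_sup_of_le hx (Finset.le_sup (f := fun q => (e x q).natAbs) (Finset.mem_univ q))⟩
  obtain ⟨B, hB⟩ : ∃ B : Finset V, ∀ x, x ∈ B ↔ ∀ q, -(N : ℤ) ≤ e x q ∧ e x q ≤ N :=
    ⟨(Fintype.piFinset fun _ => Finset.Icc (-(N : ℤ)) N).map e.symm.toEmbedding, fun x => by simp⟩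
  refine ⟨B, fun x hx => (hB x).2 fun q => by have := hN x hx q; omega,
    GN.Dism.acyc (fun x y h => ⟨h.1.symm, h.2.symm⟩) ⟨fun x => ∑ q, e x q, e.symm fun _ => -N,
      fun z => e.symm fun q => max (e z q - 1) (-N), by simp [hB], fun z hz h0 => ?_⟩⟩
  replace hz := (hB z).1 hz
  obtain ⟨q₀, h1⟩ : ∃ q, -(N : ℤ) < e z q := by
    by_contra h
    exact h0 (e.eq_symm_apply.2 (funext fun q => (not_lt.1 fun h' => h ⟨q, h'⟩).antisymm (hz q).1))
  simp only [hB, Equiv.apply_symm_apply]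
  refine ⟨Finset.sum_lt_sum (fun q _ => (hz q).1) ⟨q₀, Finset.mem_univ _, h1⟩,
    fun q => by have := hz q; omega, Finset.sum_lt_sum (fun q _ => by have := hz q; omega)
      ⟨q₀, Finset.mem_univ _, by omega⟩, fun w hw h2 h3 => ?_⟩
  have h4 : Kuhn_R (e w) (e z) := by
    rcases h2 with rfl | ⟨-, h | h⟩
    · exact fun q => ⟨le_rfl, by omega⟩
    · exact h
    · exact (Kuhn_rk h).2.2 h3 ▸ fun q => ⟨le_rfl, by omega⟩
  refine or_iff_not_imp_left.2 fun h5 => ⟨h5, Or.inr fun q => ?_⟩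
  have := h4 q
  have := hw q
  simp only [Equiv.apply_symm_apply]
  omega

end

/-- The cocycle of the action on cosets. -/
noncomputable def Kuhn_c {Γ : Type} [Group Γ] (W : Subgroup Γ) (g : Γ) (q : Γ ⧸ W) : W :=
  ⟨q.out⁻¹ * (g * (g⁻¹ • q).out), QuotientGroup.eq.1 ((QuotientGroup.out_eq' _).trans
    ((MulAction.Quotient.coe_smul_out W g _).trans (smul_inv_smul g q)).symm)⟩

theorem exists_kuhn {Γ : Type} [Group Γ] (W : Subgroup Γ) [W.FiniteIndex]
    (χ : W →* Multiplicative ℤ) :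
    ∃ (V : Type) (_ : LinearOrder V) (_ : MulAction Γ V) (Adj : V → V → Prop),
      (∀ (g : Γ) x y, Adj x y → Adj (g • x) (g • y)) ∧
      (∀ (g : Γ) x y, Adj x y → x < y → g • x < g • y) ∧
      (∀ B σ, GN.Clq Adj B σ → σ.card ≤ W.index + 1) ∧
      (∀ s : Finset V, ∃ B, s ⊆ B ∧ GN.Acyc Adj B) ∧
      ∀ (x : V) (w : W), (w : Γ) • x = x → χ w = 1 := by
  have := Fintype.ofFinite (Γ ⧸ W)
  obtain ⟨V, o, e, he⟩ : ∃ (V : Type) (_ : LinearOrder V) (e : V ≃ (Γ ⧸ W → ℤ)),
      ∀ x y, e x ≤ e y → x ≤ y :=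
    ⟨LinearExtension (Γ ⧸ W → ℤ), inferInstance, Equiv.refl _,
      fun _ _ h => (toLinearExtension (α := Γ ⧸ W → ℤ)).monotone h⟩
  let _ : MulAction Γ V :=
    { smul := fun g x => e.symm fun q => e x (g⁻¹ • q) + (χ (Kuhn_c W g q)).toAdd
      one_smul := fun x => e.symm_apply_eq.2 (funext fun q => by
        have : Kuhn_c W 1 q = 1 := Subtype.ext (by simp [Kuhn_c])
        simp [this])
      mul_smul := fun g h x => congrArg e.symm (funext fun q => by
        have : Kuhn_c W (g * h) q = Kuhn_c W g q * Kuhn_c W h (g⁻¹ • q) :=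
          Subtype.ext (by simp [Kuhn_c, mul_smul, mul_assoc])
        refine Eq.trans ?_ (congrArg (· + _) (congrFun (e.apply_symm_apply _) _)).symm
        rw [this, map_mul, toAdd_mul, mul_inv_rev, mul_smul]
        ring) }
  have hs : ∀ (g : Γ) (x : V) q, e (g • x) q = e x (g⁻¹ • q) + (χ (Kuhn_c W g q)).toAdd :=
    fun g x => congrFun (e.apply_symm_apply _)
  have hR : ∀ (g : Γ) (x y : V), Kuhn_R (e x) (e y) → Kuhn_R (e (g • x)) (e (g • y)) :=
    fun g x y h q => by
      have := h (g⁻¹ • q)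
      rw [hs, hs]
      omega
  refine ⟨V, o, inferInstance, Kuhn_A e, fun g x y h => ⟨(MulAction.injective g).ne h.1,
    h.2.imp (hR g x y) (hR g y x)⟩, fun g x y h hlt => ?_, fun B σ h => ?_, Kuhn_acyc e,
    fun x w h => ?_⟩
  · exact h.2.elim (fun h1 => (he _ _ fun q => (hR g x y h1 q).1).lt_of_ne
      ((MulAction.injective g).ne h.1)) fun h1 => absurd (he _ _ fun q => (h1 q).1) hlt.not_ge
  · rw [Subgroup.index, Nat.card_eq_fintype_card]
    exact Kuhn_clq e h
  · have h1 : (w : Γ)⁻¹ • ((1 : Γ) : Γ ⧸ W) = ((1 : Γ) : Γ ⧸ W) := by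
      rw [MulAction.Quotient.smul_coe, QuotientGroup.eq]
      simp
    have h2 : ((1 : Γ) : Γ ⧸ W).out ∈ W := by
      simpa using QuotientGroup.eq.1 (QuotientGroup.out_eq' ((1 : Γ) : Γ ⧸ W))
    have h3 : Kuhn_c W w ((1 : Γ) : Γ ⧸ W) = ⟨_, h2⟩⁻¹ * (w * ⟨_, h2⟩) :=
      Subtype.ext (by simp [Kuhn_c, h1])
    have h4 := hs w x ((1 : Γ) : Γ ⧸ W)
    rwa [h, h1, left_eq_add, toAdd_eq_zero, h3, map_mul, map_mul, map_inv, mul_comm,
      mul_inv_cancel_right] at h4

end Pool.Agent.MP_f7db47_al.GS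

end
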