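import Pool.Agent.Mg.Ff7db47.Ge4af1c
import Pool.Agent.Mg.Ff7db47.Gf348de

section

/-!
Flow spaces: definitions.
-/

namespace Pool.Agent.MP_f7db47_al.GF

open Metric

/-- Polynomial covering numbers. -/
def Cov {P : Type} [PseudoMetricSpace P] (s : Set P) (m : ℕ) : Prop :=
  ∃ A : ℝ, ∀ ε : ℝ, 0 < ε → ε ≤ 1 →
    ∃ E : Finset P, (E.card : ℝ) * ε ^ m ≤ A ∧ ∀ x ∈ s, ∃ e ∈ E, dist x e ≤ ε

/-- A flow on a proper metric space of finite dimension with a proper isometric action. -/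
structure Flow (Γ : Type) [Group Γ] (Y : Type) [MetricSpace Y] [MulAction Γ Y] where
  Φ : ℝ → Y → Y
  κ : ℝ
  m : ℕ
  hκ : 0 ≤ κ
  zero : ∀ y, Φ 0 y = y
  add : ∀ s t y, Φ (s + t) y = Φ s (Φ t y)
  smul : ∀ (γ : Γ) s y, Φ s (γ • y) = γ • Φ s y
  iso : ∀ (γ : Γ) (y y' : Y), dist (γ • y) (γ • y') = dist y y'
  lip : ∀ s y y', dist (Φ s y) (Φ s y') ≤ Real.exp (κ * |s|) * dist y y'
  spd : ∀ s t y, dist (Φ s y) (Φ t y) ≤ |s - t|
  prp : ∀ (y : Y) (r : ℝ), {γ : Γ | dist (γ • y) y ≤ r}.Finite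
  cpt : ∀ (y : Y) (r : ℝ), IsCompact (closedBall y r)
  cov : ∀ (y : Y) (r : ℝ), Cov (closedBall y r) m

namespace Flow

variable {Γ : Type} [Group Γ] {Y : Type} [MetricSpace Y] [MulAction Γ Y] (F : Flow Γ Y)

/-- The elements that preserve the flow line. -/
def Per (z : Y) : Subgroup Γ where
  carrier := {γ | ∃ t, γ • z = F.Φ t z}
  one_mem' := ⟨0, by rw [one_smul, F.zero]⟩
  mul_mem' := by
    rintro a b ⟨s, hs⟩ ⟨t, ht⟩
    exact ⟨t + s, by rw [mul_smul, ht, ← F.smul, hs, F.add]⟩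
  inv_mem' := by
    rintro a ⟨s, hs⟩
    refine ⟨-s, ?_⟩
    rw [inv_smul_eq_iff, ← F.smul, hs, ← F.add, neg_add_cancel, F.zero]

/-- Closeness up to the flow. -/
def Mv (β ε : ℝ) (y y' : Y) : Prop := ∃ s, |s| ≤ β ∧ dist (F.Φ s y) y' ≤ ε

end Flow

open Classical in
/-- Tropically convex sets of dimension at most `n`. -/
structure TropC {F : Type} (D : Set (F → ℝ)) (n : ℕ) : Prop where
  min : ∀ x ∈ D, ∀ y ∈ D, ∀ c : ℝ, 0 ≤ c → (fun i => min (x i) (y i + c)) ∈ D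
  floor : ∀ Q : ℕ, 0 < Q → ∀ x ∈ D, (fun i => (⌊(Q : ℝ) * x i⌋ : ℝ) / Q) ∈ D
  chain : ∀ Q : ℕ, 0 < Q → ∀ (z : ℕ → F → ℤ) (M : ℕ), Monotone z →
    (∀ j, (fun i => (z j i : ℝ) / Q) ∈ D) → (∀ i, z M i ≤ z 0 i + 1) →
    ((Finset.range M).filter fun j => z (j + 1) ≠ z j).card ≤ n

/-- A metric space with a base point and a set of lines. -/
structure Sp where
  X : Type
  [met : MetricSpace X]
  o : X
  L : Set (ℝ → X)

attribute [instance] Sp.met

namespace Sp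

/-- The lines of speed at most one near the base point form a compact family of finite
dimension. -/
def Par (S : Sp) (κ : ℝ) (m : ℕ) : Prop :=
  ∀ C : ℝ, ∃ (P : Type) (_ : PseudoMetricSpace P) (s : Set P) (π : P → ℝ → S.X) (A : ℝ),
    IsCompact s ∧ Cov s m ∧ (∀ p ∈ s, π p ∈ S.L ∧ dist (π p 0) (π p 1) ≤ 1) ∧
    (∀ p ∈ s, ∀ p' ∈ s, ∀ t, dist (π p t) (π p' t) ≤ A * dist p p' * Real.exp (κ * |t|)) ∧
    ∀ c ∈ S.L, dist (c 0) S.o ≤ C → dist (c 0) (c 1) ≤ 1 → ∃ p ∈ s, π p = c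

/-- Balls are homeomorphic to tropically convex sets of bounded dimension. -/
def Fine (S : Sp) (n : ℕ) : Prop :=
  ∀ r : ℕ, 0 < r → ∃ (F : Type) (_ : Fintype F) (e : S.X → F → ℝ),
    ContinuousOn e (closedBall S.o r) ∧ Set.InjOn e (closedBall S.o r) ∧
    TropC (e '' closedBall S.o r) n

/-- The lines behave like geodesics in a space of nonpositive curvature. -/
structure Geo (S : Sp) : Prop where
  aff : ∀ c ∈ S.L, ∀ a s : ℝ, (fun t => c (a * t + s)) ∈ S.L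
  join : ∀ x y, ∃ c ∈ S.L, c 0 = x ∧ c 1 = y
  conv : ∀ c ∈ S.L, ∀ c' ∈ S.L, ∀ l : ℝ, 0 ≤ l → l ≤ 1 →
    dist (c l) (c' l) ≤ (1 - l) * dist (c 0) (c' 0) + l * dist (c 1) (c' 1)

/-- All the axioms. -/
structure Good (S : Sp) : Prop where
  geo : S.Geo
  par : ∃ κ m, 0 < κ ∧ S.Par κ m
  fine : ∃ n, S.Fine n

/-- Finite products. -/
noncomputable def pi {J : Type} [Fintype J] (S : J → Sp) : Sp where
  X := ∀ j, (S j).X
  o := fun j => (S j).o
  L := {c | ∀ j, (fun t => c t j) ∈ (S j).L}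

end Sp

/-- A proper action by isometries that preserve the lines. -/
structure Act (Γ : Type) [Group Γ] (S : Sp) where
  ρ : Γ →* Equiv.Perm S.X
  iso : ∀ γ x y, dist (ρ γ x) (ρ γ y) = dist x y
  line : ∀ γ, ∀ c ∈ S.L, (fun t => ρ γ (c t)) ∈ S.L
  prp : ∀ r : ℝ, {γ | dist (ρ γ S.o) S.o ≤ r}.Finite

/-- An action that is cocompact away from finitely many types of cusps. -/
structure Pack (Γ : Type) [Group Γ] (S : Sp) (Fam : Set (Subgroup Γ)) extends Act Γ S where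
  ι : Type
  [fin : Fintype ι]
  h : ι → S.X → ℝ
  E : ι → S.X → S.X → Prop
  eqv : ∀ i, Equivalence (E i)
  E_inv : ∀ i γ x y, E i x y → E i (ρ γ x) (ρ γ y)
  h_inv : ∀ i γ x, h i (ρ γ x) = h i x
  h_lip : ∀ i x y, h i x ≤ h i y + dist x y
  near : ∀ i x y, dist x y < h i x → E i x y
  cc : ∀ T : ℝ, ∃ C : ℝ, ∀ x, (∀ i, h i x ≤ T) → ∃ γ, dist (ρ γ x) S.o ≤ C
  cusp : ∀ i x, 0 < h i x → ∃ B ∈ Fam, ∀ γ, E i x (ρ γ x) → γ ∈ B

attribute [instance] Pack.fin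

/-- The group acts on a good space, with cusp groups in the given family. -/
def HasPack (Γ : Type) [Group Γ] (Fam : Set (Subgroup Γ)) : Prop :=
  ∃ S : Sp, S.Good ∧ Nonempty (Pack Γ S Fam)

/-- A homotopy action of the finite set `S₀` on `D`. -/
structure HAct {G X : Type} [Group G] [MetricSpace X] (S₀ : Finset G) (D : Set X)
    (φ : G → X → X) (H : G → G → ℝ → X → X) : Prop where
  one : ∀ y ∈ D, φ 1 y = y
  maps : ∀ g ∈ S₀, ∀ g' ∈ S₀, ∀ u ∈ Set.Icc (0 : ℝ) 1, ∀ y ∈ D, H g g' u y ∈ D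
  cont : ∀ g ∈ S₀, ∀ g' ∈ S₀,
    ContinuousOn (fun p : ℝ × X => H g g' p.1 p.2) (Set.Icc 0 1 ×ˢ D)
  zero : ∀ g ∈ S₀, ∀ g' ∈ S₀, ∀ y ∈ D, H g g' 0 y = φ (g * g') y
  fin : ∀ g ∈ S₀, ∀ g' ∈ S₀, ∀ y ∈ D, H g g' 1 y = φ g (φ g' y)

open GN in
/-- Chain level data for the transfer. -/
structure ChD {G V : Type} [Group G] [LinearOrder V] (S₀ : Finset G) (K : Finset V)
    (Adj : V → V → Prop) (C : G → Finset V → Finset V) (n : ℕ)
    (φ : G → Finset V → (Finset V →₀ ℤ)) (H : G → G → Finset V → (Finset V →₀ ℤ)) : Prop where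
  dim : ∀ σ, Clq Adj K σ → σ.card ≤ n
  acyc : Acyc Adj K
  sub : ∀ g σ, C g σ ⊆ K
  one : ∀ σ, φ 1 σ = Finsupp.single σ 1
  emp : ∀ g, φ g ∅ = Finsupp.single ∅ 1
  chain : ∀ g ∈ S₀, ∀ g' ∈ S₀, ∀ σ, Clq Adj K σ → σ.Nonempty →
    Ch Adj (C (g * g') σ) σ.card (φ (g * g') σ) ∧ bd (φ (g * g') σ) = lin (φ (g * g')) (bd1 σ)
  H0 : ∀ g g', H g g' ∅ = 0
  htpy : ∀ g ∈ S₀, ∀ g' ∈ S₀, ∀ σ, Clq Adj K σ → σ.Nonempty →
    Ch Adj (C (g * g') σ) (σ.card + 1) (H g g' σ) ∧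
    bd (H g g' σ) + lin (H g g') (bd1 σ) = lin (φ g) (φ g' σ) - φ (g * g') σ

/-- Quasi-unipotent matrices. -/
def QU {ι K : Type} [Fintype ι] [DecidableEq ι] [CommRing K] (A : Matrix ι ι K) : Prop :=
  ∃ m : ℕ, 0 < m ∧ IsNilpotent (A ^ m - 1)

end Pool.Agent.MP_f7db47_al.GF

end

section

/-!
Spaces of norms: definitions.
-/

set_option linter.unusedSectionVars false

namespace Pool.Agent.MP_f7db47_al.GF

open Matrix Metric

/-- A normed field, a base for the logarithm, and a way to combine norms of coordinates. -/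
structure Plc (ι : Type) [Fintype ι] where
  k : Type
  [nf : NormedField k]
  b : ℝ
  hb : 1 < b
  ω : (ι → ℝ) → ℝ
  ω_mono : ∀ {x y : ι → ℝ}, 0 ≤ x → x ≤ y → ω x ≤ ω y
  ω_smul : ∀ {c : ℝ} {x : ι → ℝ}, 0 ≤ c → 0 ≤ x → ω (c • x) = c * ω x
  ω_add : ∀ {x y : ι → ℝ}, 0 ≤ x → 0 ≤ y → ω (x + y) ≤ ω x + ω y
  le_ω : ∀ {x : ι → ℝ} (i : ι), 0 ≤ x → x i ≤ ω x
  ω_le : ∀ {x : ι → ℝ}, 0 ≤ x → ω x ≤ ∑ i, x i

attribute [instance] Plc.nf

namespace Plc

variable {ι : Type} [Fintype ι] [DecidableEq ι] (P : Plc ι)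

/-- The norm given by a basis and weights. -/
noncomputable def nrm (g : GL ι P.k) (a : ι → ℝ) (u : ι → P.k) : ℝ :=
  P.ω fun i => ‖(g.val *ᵥ u) i‖ * P.b ^ a i

/-- The space of norms. -/
def X : Type := {ν : (ι → P.k) → ℝ // ∃ g a, ν = P.nrm g a}

/-- Comparison of norms. -/
def Le (r : ℝ) (ν ν' : (ι → P.k) → ℝ) : Prop := ∀ u, ν u ≤ P.b ^ r * ν' u

variable {P}

theorem b_pos : 0 < P.b := zero_lt_one.trans P.hb

theorem co_nonneg (g : GL ι P.k) (a : ι → ℝ) (u : ι → P.k) :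
    (0 : ι → ℝ) ≤ fun i => ‖(g.val *ᵥ u) i‖ * P.b ^ a i :=
  fun _ => mul_nonneg (norm_nonneg _) (Real.rpow_nonneg b_pos.le _)

theorem ω_nonneg {x : ι → ℝ} (hx : 0 ≤ x) : 0 ≤ P.ω x := by
  have h := P.ω_smul (c := 0) le_rfl hx
  rw [zero_smul, zero_mul] at h
  exact h ▸ P.ω_mono le_rfl hx

theorem nrm_nonneg (g : GL ι P.k) (a : ι → ℝ) (u : ι → P.k) : 0 ≤ P.nrm g a u :=
  ω_nonneg (co_nonneg g a u)

theorem X.nonneg (x : P.X) (u : ι → P.k) : 0 ≤ x.1 u := by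
  obtain ⟨_, g, a, rfl⟩ := x
  exact nrm_nonneg g a u

theorem Le.mono {r s : ℝ} {x : (ι → P.k) → ℝ} {y : P.X} (h : P.Le r x y.1) (hrs : r ≤ s) :
    P.Le s x y.1 := fun u => (h u).trans
  (mul_le_mul_of_nonneg_right (Real.rpow_le_rpow_of_exponent_le P.hb.le hrs) (y.nonneg u))

theorem Le.trans {r s : ℝ} {x y z : (ι → P.k) → ℝ} (h : P.Le r x y) (h' : P.Le s y z) :
    P.Le (r + s) x z := fun u => by
  rw [Real.rpow_add b_pos, mul_assoc]
  exact (h u).trans (mul_le_mul_of_nonneg_left (h' u) (Real.rpow_nonneg b_pos.le _))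

theorem le_refl' (x : (ι → P.k) → ℝ) : P.Le 0 x x := fun u => by simp

theorem exists_le (x y : P.X) : ∃ r, 0 ≤ r ∧ P.Le r x.1 y.1 := by
  obtain ⟨_, g, a, rfl⟩ := x
  obtain ⟨_, h, c, rfl⟩ := y
  let M : Matrix ι ι P.k := g.val * (h⁻¹).val
  let A : ℝ := ∑ i, ∑ j, ‖M i j‖ * P.b ^ a i * P.b ^ (-c j)
  have hA : ∀ u, P.nrm g a u ≤ A * P.nrm h c u := fun u => by
    have e : g.val *ᵥ u = M *ᵥ (h.val *ᵥ u) := by
      simp only [M, mulVec_mulVec, mul_assoc, Units.inv_mul, mul_one]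
    refine (P.ω_le (co_nonneg g a u)).trans ?_
    rw [Finset.sum_mul]
    refine Finset.sum_le_sum fun i _ => ?_
    rw [e, Finset.sum_mul]
    refine (mul_le_mul_of_nonneg_right (norm_sum_le _ _) (Real.rpow_nonneg b_pos.le _)).trans ?_
    rw [Finset.sum_mul]
    refine Finset.sum_le_sum fun j _ => ?_
    have h1 := P.le_ω j (co_nonneg h c u)
    have h2 : P.b ^ (-c j) * P.b ^ c j = 1 := by rw [← Real.rpow_add b_pos]; simp
    have h3 : 0 ≤ ‖M i j‖ * P.b ^ a i * P.b ^ (-c j) := by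
      have := b_pos (P := P); positivity
    calc ‖M i j * (h.val *ᵥ u) j‖ * P.b ^ a i
        = ‖M i j‖ * P.b ^ a i * P.b ^ (-c j) * (‖(h.val *ᵥ u) j‖ * P.b ^ c j) := by
          rw [norm_mul]; linear_combination (-(‖M i j‖ * ‖(h.val *ᵥ u) j‖ * P.b ^ a i)) * h2
      _ ≤ _ := mul_le_mul_of_nonneg_left h1 h3
  obtain ⟨n, hn⟩ := pow_unbounded_of_one_lt A P.hb
  refine ⟨n, n.cast_nonneg, fun u => (hA u).trans ?_⟩
  rw [Real.rpow_natCast]
  exact mul_le_mul_of_nonneg_right hn.le (nrm_nonneg _ _ _)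

/-- The set of bounds for the distance. -/
def Bd (x y : P.X) : Set ℝ := {r | 0 ≤ r ∧ P.Le r x.1 y.1 ∧ P.Le r y.1 x.1}

theorem Bd_ne (x y : P.X) : (Bd x y).Nonempty := by
  obtain ⟨r, hr, h⟩ := exists_le x y
  obtain ⟨s, -, h'⟩ := exists_le y x
  exact ⟨max r s, le_max_of_le_left hr, h.mono (le_max_left _ _), h'.mono (le_max_right _ _)⟩

theorem Bd_bdd (x y : P.X) : BddBelow (Bd x y) := ⟨0, fun _ h => h.1⟩

theorem le_of_forall {r : ℝ} {x y : (ι → P.k) → ℝ} (h : ∀ s, r < s → P.Le s x y) :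
    P.Le r x y := fun u => by
  have hc : Continuous fun s : ℝ => P.b ^ s * y u :=
    (continuous_const.rpow continuous_id fun _ => Or.inl b_pos.ne').mul continuous_const
  exact ge_of_tendsto (hc.continuousWithinAt (s := Set.Ioi r) (x := r)).tendsto
    (eventually_nhdsWithin_of_forall fun s hs => h s hs u)

theorem sInf_mem (x y : P.X) : sInf (Bd x y) ∈ Bd x y := by
  refine ⟨le_csInf (Bd_ne x y) fun _ h => h.1, le_of_forall fun s hs => ?_,
    le_of_forall fun s hs => ?_⟩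
  · obtain ⟨r, hr, h⟩ := exists_lt_of_csInf_lt (Bd_ne x y) hs
    exact hr.2.1.mono h.le
  · obtain ⟨r, hr, h⟩ := exists_lt_of_csInf_lt (Bd_ne x y) hs
    exact hr.2.2.mono h.le

noncomputable instance : MetricSpace P.X where
  dist x y := sInf (Bd x y)
  dist_self x := le_antisymm (csInf_le (Bd_bdd x x) ⟨le_rfl, le_refl' _, le_refl' _⟩)
    (sInf_mem x x).1
  dist_comm x y := congrArg sInf (Set.ext fun _ => and_congr_right fun _ => and_comm)
  dist_triangle x y z := csInf_le (Bd_bdd x z)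
    ⟨add_nonneg (sInf_mem x y).1 (sInf_mem y z).1, (sInf_mem x y).2.1.trans (sInf_mem y z).2.1,
      add_comm (sInf (Bd y z)) _ ▸ (sInf_mem y z).2.2.trans (sInf_mem x y).2.2⟩
  eq_of_dist_eq_zero := fun {x y} h => by
    have h1 := sInf_mem x y
    rw [show sInf (Bd x y) = 0 from h] at h1
    exact Subtype.ext (funext fun u => le_antisymm (by simpa using h1.2.1 u)
      (by simpa using h1.2.2 u))

theorem dist_le_iff {x y : P.X} {r : ℝ} (hr : 0 ≤ r) :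
    dist x y ≤ r ↔ P.Le r x.1 y.1 ∧ P.Le r y.1 x.1 :=
  ⟨fun h => ⟨(sInf_mem x y).2.1.mono h, (sInf_mem x y).2.2.mono h⟩,
    fun h => csInf_le (Bd_bdd x y) ⟨hr, h⟩⟩

variable (P)

/-- The space of norms with its lines. -/
noncomputable def sp : Sp where
  X := P.X
  o := ⟨P.nrm 1 0, 1, 0, rfl⟩
  L := {c | ∃ (g : GL ι P.k) (a w : ι → ℝ), ∀ t, (c t).1 = P.nrm g (a + t • w)}

/-- Two norms have a common orthogonal basis. -/
def Join : Prop :=
  ∀ x y : P.X, ∃ (g : GL ι P.k) (a c : ι → ℝ), x.1 = P.nrm g a ∧ y.1 = P.nrm g c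

/-- Interpolation of inequalities between norms. -/
def Interp : Prop :=
  ∀ (g h : GL ι P.k) (a a' c c' : ι → ℝ) (l : ℝ), 0 ≤ l → l ≤ 1 →
    (∀ u, P.nrm g a u ≤ P.nrm h c u) → (∀ u, P.nrm g a' u ≤ P.nrm h c' u) →
    ∀ u, P.nrm g ((1 - l) • a + l • a') u ≤ P.nrm h ((1 - l) • c + l • c') u

/-- The field is locally compact of dimension one. -/
structure Loc : Prop where
  cpt : ∀ r : ℝ, IsCompact (closedBall (0 : P.k) r)
  cov : ∀ r : ℝ, Cov (closedBall (0 : P.k) r) 1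
  gap : ∀ a : ℝ, ∃ d : P.k, d ≠ 0 ∧ ‖d‖ ≤ P.b ^ a ∧ P.b ^ a ≤ P.b * ‖d‖

end Plc

/-- The real place. -/
noncomputable def plcR (ι : Type) [Fintype ι] : Plc ι where
  k := ℝ
  b := 2
  hb := one_lt_two
  ω x := ‖(WithLp.toLp 2 x : EuclideanSpace ℝ ι)‖
  ω_mono := fun {x y} hx hxy => by
    rw [EuclideanSpace.norm_eq, EuclideanSpace.norm_eq]
    refine Real.sqrt_le_sqrt (Finset.sum_le_sum fun i _ => ?_)
    have h1 : 0 ≤ x i := hx i
    have h2 : x i ≤ y i := hxy i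
    simp only [Real.norm_eq_abs, sq_abs]
    nlinarith
  ω_smul := fun {c x} hc _ => by
    rw [WithLp.toLp_smul, norm_smul, Real.norm_of_nonneg hc]
  ω_add := fun {x y} _ _ => by
    rw [WithLp.toLp_add]; exact norm_add_le _ _
  le_ω := fun {x} i _ => (le_abs_self _).trans
    (EuclideanSpace.norm_eq (WithLp.toLp 2 x : EuclideanSpace ℝ ι) ▸ Real.abs_le_sqrt (by
      refine le_trans (le_of_eq ?_) (Finset.single_le_sum
        (f := fun j => ‖(WithLp.toLp 2 x : EuclideanSpace ℝ ι) j‖ ^ 2)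
        (fun j _ => sq_nonneg _) (Finset.mem_univ i))
      simp))
  ω_le := fun {x} hx => by
    rw [EuclideanSpace.norm_eq]
    refine Real.sqrt_le_iff.2 ⟨Finset.sum_nonneg fun i _ => hx i, ?_⟩
    simp only [Real.norm_eq_abs, sq_abs]
    exact Finset.sum_sq_le_sq_sum_of_nonneg fun i _ => hx i

/-- The place given by a prime. -/
noncomputable def plcP (p : ℕ) [hp : Fact p.Prime] (ι : Type) [Fintype ι] : Plc ι where
  k := ℚ_[p]
  b := p
  hb := by exact_mod_cast hp.out.one_lt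
  ω x := ‖x‖
  ω_mono := fun {x y} hx hxy => (pi_norm_le_iff_of_nonneg (norm_nonneg y)).2 fun i => by
    rw [Real.norm_of_nonneg (hx i)]
    exact (hxy i).trans ((le_abs_self _).trans (norm_le_pi_norm y i))
  ω_smul := fun {c x} hc _ => by rw [norm_smul, Real.norm_of_nonneg hc]
  ω_add := fun _ _ => norm_add_le _ _
  le_ω := fun {x} i _ => (le_abs_self _).trans (norm_le_pi_norm x i)
  ω_le := fun {x} hx => (pi_norm_le_iff_of_nonneg (Finset.sum_nonneg fun i _ => hx i)).2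
    fun i => by
      rw [Real.norm_of_nonneg (hx i)]
      exact Finset.single_le_sum (fun j _ => hx j) (Finset.mem_univ i)

/-- A space of norms on a rational vector space, for the absolute value `av`. -/
structure NSp (ι : Type) [Fintype ι] [DecidableEq ι] (av : ℚ → ℝ) (b : ℝ) where
  S : Sp
  good : S.Good
  ν : S.X → (ι → ℚ) → ℝ
  ρ : GL ι ℚ × Multiplicative ℤ →* Equiv.Perm S.X
  line : ∀ γ, ∀ c ∈ S.L, (fun t => ρ γ (c t)) ∈ S.L
  ν_ρ : ∀ γ x u, ν (ρ γ x) (γ.1.val *ᵥ u) = b ^ ((γ.2.toAdd : ℤ) : ℝ) * ν x u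
  dist_le : ∀ x y (r : ℝ), 0 ≤ r →
    (dist x y ≤ r ↔ ∀ u, ν x u ≤ b ^ r * ν y u ∧ ν y u ≤ b ^ r * ν x u)
  add : ∀ x u u', ν x (u + u') ≤ ν x u + ν x u'
  smul : ∀ x (a : ℚ) u, ν x (a • u) = av a * ν x u
  le_o : ∀ u i, av (u i) ≤ ν S.o u
  o_le : ∀ u, ν S.o u ≤ ∑ i, av (u i)

end Pool.Agent.MP_f7db47_al.GF

end

section

/-!
Arithmetic groups: definitions.
-/

namespace Pool.Agent.MP_f7db47_al.GF

open Matrix

universe v

/-- Invertible matrices over a subring. -/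
def GLZ (Z : Subring ℚ) (ι : Type) [Fintype ι] [DecidableEq ι] : Subgroup (GL ι ℚ) where
  carrier := {g | (∀ i j, g.val i j ∈ Z) ∧ ∀ i j, (g⁻¹).val i j ∈ Z}
  one_mem' := by
    have h : ∀ i j : ι, (1 : Matrix ι ι ℚ) i j ∈ Z := fun i j => by
      rw [Matrix.one_apply]
      split_ifs
      · exact Z.one_mem
      · exact Z.zero_mem
    exact ⟨h, h⟩
  mul_mem' := by
    rintro a b ⟨a1, a2⟩ ⟨b1, b2⟩
    refine ⟨fun i j => ?_, fun i j => ?_⟩
    · rw [Units.val_mul, Matrix.mul_apply]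
      exact Z.sum_mem fun k _ => Z.mul_mem (a1 i k) (b1 k j)
    · rw [_root_.mul_inv_rev, Units.val_mul, Matrix.mul_apply]
      exact Z.sum_mem fun k _ => Z.mul_mem (b2 i k) (a2 k j)
  inv_mem' := fun h => ⟨h.2, by rw [inv_inv]; exact h.1⟩

/-- Subgroups that preserve a proper nonzero subspace. -/
def FamZ (Z : Subring ℚ) (ι : Type) [Fintype ι] [DecidableEq ι] :
    Set (Subgroup (GLZ Z ι × GN.MZ)) :=
  {B | ∃ W : Submodule ℚ (ι → ℚ), W ≠ ⊥ ∧ W ≠ ⊤ ∧ ∀ γ ∈ B, ∀ u ∈ W, γ.1.1.val *ᵥ u ∈ W}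

/-- Approximation at one place. -/
def App {J : Type} (av : J → ℚ → ℝ) (Z : Subring ℚ) : Prop :=
  ∀ (ι : Type) [Fintype ι] (ε : ℝ), 0 < ε → ∃ K : ℝ, ∀ (v₀ : J) (w : ι → ℚ),
    (∀ j, av v₀ (w j) ≤ 1) → ∃ (c : ℚ) (z : ι → ℚ), (∀ j, z j ∈ Z) ∧ 1 ≤ av v₀ c ∧
      av v₀ c ≤ K ∧ (∀ j, av v₀ (c * w j - z j) ≤ ε) ∧ ∀ v, v ≠ v₀ → ∀ j, av v (z j) ≤ ε

/-- Existence of bounded bases. -/
def Bas {J : Type} (av : J → ℚ → ℝ) (Z : Subring ℚ) : Prop :=
  ∀ (ι : Type) [Fintype ι] [DecidableEq ι] (ε : ℝ), 0 < ε → ∃ C : ℝ, ∀ U : GL ι ℚ,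
    (∀ i j, U.val i j ∈ Z) →
    (∀ a : ι → ℚ, (∀ i, (U.val *ᵥ a) i ∈ Z) → (∀ v j, av v (a j) ≤ ε) → a = 0) →
    ∃ g ∈ GLZ Z ι, ∀ v i j, av v ((U⁻¹ * g).val i j) ≤ C

/-- A finite set of places, and the ring of numbers that are integral at all other places. -/
structure Plcs where
  J : Type
  [fin : Fintype J]
  av : J → ℚ → ℝ
  b : J → ℝ
  Z : Subring ℚ
  hb : ∀ v, 1 < b v
  av_nonneg : ∀ v a, 0 ≤ av v a
  av_zero : ∀ v, av v 0 = 0
  av_one : ∀ v, av v 1 = 1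
  av_neg : ∀ v a, av v (-a) = av v a
  av_mul : ∀ v a a', av v (a * a') = av v a * av v a'
  disc : ∀ a ∈ Z, (∀ v, av v a < 1) → a = 0
  finite : ∀ C : ℝ, {a | a ∈ Z ∧ ∀ v, av v a ≤ C}.Finite
  app : App av Z
  bas : Bas av Z

attribute [instance] Plcs.fin

/-- The ring `ℤ[1/q]`. -/
def ZQ (q : ℕ) : Subring ℚ where
  carrier := {a | ∃ (e : ℕ) (z : ℤ), (q : ℚ) ^ e * a = z}
  zero_mem' := ⟨0, 0, by simp⟩
  one_mem' := ⟨0, 1, by simp⟩
  add_mem' := by
    rintro a a' ⟨e, z, h⟩ ⟨e', z', h'⟩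
    refine ⟨e + e', q ^ e' * z + q ^ e * z', ?_⟩
    push_cast
    rw [← h, ← h']
    ring
  neg_mem' := by
    rintro a ⟨e, z, h⟩
    exact ⟨e, -z, by rw [mul_neg, h, Int.cast_neg]⟩
  mul_mem' := by
    rintro a a' ⟨e, z, h⟩ ⟨e', z', h'⟩
    refine ⟨e + e', z * z', ?_⟩
    push_cast
    rw [← h, ← h']
    ring

/-- The absolute values at infinity and at the primes dividing `q`. -/
noncomputable def avQ (q : ℕ) : Option q.primeFactors → ℚ → ℝ
  | none => fun a => |(a : ℝ)|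
  | some p => fun a => (padicNorm p.1 a : ℝ)

/-- The bases of the logarithms. -/
noncomputable def bQ (q : ℕ) : Option q.primeFactors → ℝ
  | none => 2
  | some p => (p.1 : ℝ)

namespace Plcs

variable {ι : Type} [Fintype ι] [DecidableEq ι] {D : Plcs} (N : ∀ v, NSp ι (D.av v) (D.b v))

/-- The product of the spaces of norms. -/
noncomputable def sp : Sp := Sp.pi fun v => (N v).S

/-- The diagonal action. -/
noncomputable def act : GLZ D.Z ι × GN.MZ →* Equiv.Perm (sp N).X where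
  toFun γ := Equiv.piCongrRight fun v => (N v).ρ (γ.1.1, γ.2)
  map_one' := Equiv.ext fun x => funext fun v => by
    change (N v).ρ 1 (x v) = x v
    rw [map_one]; rfl
  map_mul' γ γ' := Equiv.ext fun x => funext fun v => by
    change (N v).ρ ((γ.1.1, γ.2) * (γ'.1.1, γ'.2)) (x v) = _
    rw [map_mul]; rfl

/-- Integral vectors of bounded size. -/
def Box (x : (sp N).X) (s : ℝ) : Set (ι → ℚ) :=
  {u | (∀ i, u i ∈ D.Z) ∧ ∀ v, (N v).ν (x v) u ≤ D.b v ^ s}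

/-- The span of the integral vectors of bounded size. -/
def Wd (x : (sp N).X) (s : ℝ) : Submodule ℚ (ι → ℚ) := Submodule.span ℚ (Box N x s)

/-- The successive minima. -/
noncomputable def lam (r : ℕ) (x : (sp N).X) : ℝ :=
  sInf {s | r ≤ Module.finrank ℚ (Wd N x s)}

end Plcs

/-- The statement of the theorem on flow spaces. -/
def FlowStmt (R : Type v) [Ring R] : Prop :=
  ∀ (Γ G : Type) [Group Γ] [Group G] (Fam : Set (Subgroup Γ)), HasPack Γ Fam → ∀ f : G →* Γ,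
    (∀ (B : Subgroup Γ) (φ : B →* GN.MZ), (∀ g, φ g = 1 → IsOfFinOrder g) → QQ R (B.comap f)) →
    (∀ B ∈ Fam, QQ R (B.comap f)) → QQ R G

/-- The statement of reduction theory. -/
def PackStmt : Prop :=
  ∀ (n : ℕ) (F : Finset ℚ), ∃ Z : Subring ℚ, (∀ a ∈ F, a ∈ Z) ∧
    HasPack (GLZ Z (Fin (n + 1)) × GN.MZ) (FamZ Z (Fin (n + 1)))

end Pool.Agent.MP_f7db47_al.GF

end

section

/-!
Polynomial covering numbers.
-/

namespace Pool.Agent.MP_f7db47_al.GF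

open Metric

theorem Cov.subset {P : Type} [PseudoMetricSpace P] {s t : Set P} {m : ℕ} (h : Cov s m)
    (ht : t ⊆ s) : Cov t m := by
  obtain ⟨A, hA⟩ := h
  refine ⟨A, fun ε h0 h1 => ?_⟩
  obtain ⟨E, hE, hc⟩ := hA ε h0 h1
  exact ⟨E, hE, fun x hx => hc x (ht hx)⟩

theorem Cov.mono {P : Type} [PseudoMetricSpace P] {s : Set P} {m m' : ℕ} (h : Cov s m)
    (hm : m ≤ m') : Cov s m' := by
  obtain ⟨A, hA⟩ := h
  refine ⟨A, fun ε h0 h1 => ?_⟩
  obtain ⟨E, hE, hc⟩ := hA ε h0 h1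
  exact ⟨E, (mul_le_mul_of_nonneg_left (pow_le_pow_of_le_one h0.le h1 hm)
    (Nat.cast_nonneg _)).trans hE, hc⟩

theorem Cov.image {P Q : Type} [PseudoMetricSpace P] [PseudoMetricSpace Q] {s : Set P} {m : ℕ}
    (h : Cov s m) (f : P → Q) (A : ℝ) (hf : ∀ x ∈ s, ∀ y ∈ s, dist (f x) (f y) ≤ A * dist x y) :
    Cov (f '' s) m := by
  classical
  obtain ⟨A₀, hA⟩ := h
  have hB : (1 : ℝ) ≤ max A 1 := le_max_right _ _
  have hB2 : (0 : ℝ) < 2 * max A 1 := by linarith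
  refine ⟨A₀ * (2 * max A 1) ^ m, fun ε h0 h1 => ?_⟩
  obtain ⟨E, hE, hc⟩ := hA (ε / (2 * max A 1)) (div_pos h0 hB2)
    ((div_le_one hB2).2 (by linarith))
  have key : ∀ e : P, ∃ y : P, (∃ x ∈ s, dist x e ≤ ε / (2 * max A 1)) →
      y ∈ s ∧ dist y e ≤ ε / (2 * max A 1) := fun e => by
    by_cases he : ∃ x ∈ s, dist x e ≤ ε / (2 * max A 1)
    · exact ⟨he.choose, fun _ => he.choose_spec⟩
    · exact ⟨e, fun h => (he h).elim⟩
  choose c hcs using key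
  refine ⟨E.image fun e => f (c e), ?_, ?_⟩
  · have h2 : ε ^ m = (ε / (2 * max A 1)) ^ m * (2 * max A 1) ^ m := by
      rw [← mul_pow, div_mul_cancel₀ _ hB2.ne']
    calc ((E.image fun e => f (c e)).card : ℝ) * ε ^ m ≤ E.card * ε ^ m :=
          mul_le_mul_of_nonneg_right (Nat.cast_le.2 Finset.card_image_le) (pow_nonneg h0.le _)
      _ ≤ _ := by
          rw [h2, ← mul_assoc]
          exact mul_le_mul_of_nonneg_right hE (pow_nonneg hB2.le _)
  · rintro _ ⟨x, hx, rfl⟩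
    obtain ⟨e, he, hd⟩ := hc x hx
    obtain ⟨h2, h3⟩ := hcs e ⟨x, hx, hd⟩
    refine ⟨f (c e), Finset.mem_image_of_mem _ he, (hf x hx _ h2).trans ?_⟩
    have h4 : dist x (c e) ≤ 2 * (ε / (2 * max A 1)) := by
      linarith [dist_triangle_right x (c e) e]
    calc A * dist x (c e) ≤ max A 1 * (2 * (ε / (2 * max A 1))) :=
          mul_le_mul (le_max_left _ _) h4 dist_nonneg (by linarith)
      _ = ε := by field_simp

theorem Cov.prod {P Q : Type} [PseudoMetricSpace P] [PseudoMetricSpace Q] {s : Set P} {t : Set Q}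
    {m m' : ℕ} (h : Cov s m) (h' : Cov t m') : Cov (s ×ˢ t) (m + m') := by
  obtain ⟨A, hA⟩ := h
  obtain ⟨A', hA'⟩ := h'
  refine ⟨A * A', fun ε h0 h1 => ?_⟩
  obtain ⟨E, hE, hc⟩ := hA ε h0 h1
  obtain ⟨E', hE', hc'⟩ := hA' ε h0 h1
  refine ⟨E ×ˢ E', ?_, fun x hx => ?_⟩
  · rw [Finset.card_product, Nat.cast_mul, pow_add, mul_mul_mul_comm]
    exact mul_le_mul hE hE' (by positivity) (le_trans (by positivity) hE)
  · obtain ⟨e, he, hd⟩ := hc x.1 hx.1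
    obtain ⟨e', he', hd'⟩ := hc' x.2 hx.2
    exact ⟨(e, e'), Finset.mem_product.2 ⟨he, he'⟩, max_le hd hd'⟩

theorem Cov.pi {J : Type} [Fintype J] {P : J → Type} [∀ j, PseudoMetricSpace (P j)]
    {s : ∀ j, Set (P j)} {m : J → ℕ} (h : ∀ j, Cov (s j) (m j)) :
    Cov (Set.univ.pi s) (∑ j, m j) := by
  classical
  choose A hA using h
  refine ⟨∏ j, A j, fun ε h0 h1 => ?_⟩
  choose E hE hc using fun j => hA j ε h0 h1
  refine ⟨Fintype.piFinset E, ?_, fun x hx => ?_⟩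
  · rw [Fintype.card_piFinset, Nat.cast_prod, ← Finset.prod_pow_eq_pow_sum,
      ← Finset.prod_mul_distrib]
    exact Finset.prod_le_prod (fun j _ => by positivity) fun j _ => hE j
  · choose e he hd using fun j => hc j (x j) (hx j trivial)
    exact ⟨e, Fintype.mem_piFinset.2 he, (dist_pi_le_iff h0.le).2 hd⟩

theorem cov_real (r : ℝ) : Cov (closedBall (0 : ℝ) r) 1 := by
  classical
  refine ⟨2 * |r| + 5, fun ε h0 h1 => ?_⟩
  have hq : 0 ≤ |r| / ε := by positivity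
  have h2 := Nat.le_ceil (|r| / ε)
  have h3 := Nat.ceil_lt_add_one hq
  set N := ⌈|r| / ε⌉₊
  refine ⟨(Finset.Icc (-(N + 1 : ℤ)) (N + 1)).image fun j : ℤ => ε * j, ?_, fun x hx => ?_⟩
  · have h4 : ((Finset.Icc (-(N + 1 : ℤ)) (N + 1)).image fun j : ℤ => ε * j).card ≤ 2 * N + 3 := by
      refine Finset.card_image_le.trans ?_
      rw [Int.card_Icc]
      omega
    have h5 : (N : ℝ) * ε ≤ |r| + ε := by
      have := mul_le_mul_of_nonneg_right h3.le h0.le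
      rwa [add_mul, div_mul_cancel₀ _ h0.ne', one_mul] at this
    have h6 := mul_le_mul_of_nonneg_right ((Nat.cast_le (α := ℝ)).2 h4) h0.le
    push_cast at h6
    rw [pow_one]
    nlinarith
  · have h4 : |x / ε| ≤ N := by
      rw [abs_div, abs_of_pos h0]
      refine (div_le_div_of_nonneg_right ?_ h0.le).trans h2
      exact (show |x| ≤ r by simpa using hx).trans (le_abs_self r)
    have h5 := abs_le.1 h4
    have h6 := Int.floor_le (x / ε)
    have h7 := Int.lt_floor_add_one (x / ε)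
    refine ⟨ε * ⌊x / ε⌋, Finset.mem_image_of_mem _ (Finset.mem_Icc.2 ⟨?_, ?_⟩), ?_⟩
    · rw [← Int.cast_le (R := ℝ)]
      push_cast
      linarith [h5.1]
    · rw [← Int.cast_le (R := ℝ)]
      push_cast
      linarith [h5.2]
    · have h8 : x = ε * (x / ε) := by field_simp
      rw [Real.dist_eq, abs_le]
      constructor <;> nlinarith

theorem cov_padic (p : ℕ) [Fact p.Prime] (r : ℝ) : Cov (closedBall (0 : ℚ_[p]) r) 1 := by
  classical
  have hp : (1 : ℝ) < p := Nat.one_lt_cast.2 (Fact.out : p.Prime).one_lt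
  have hp0 : (0 : ℝ) < p := by linarith
  obtain ⟨s, hs⟩ := pow_unbounded_of_one_lt r hp
  refine ⟨(p : ℝ) ^ (s + 1), fun ε h0 h1 => ?_⟩
  obtain ⟨n, h2, h3⟩ := exists_nat_pow_near ((one_le_inv₀ h0).2 h1) hp
  refine ⟨(Finset.range (p ^ (s + (n + 1)))).image fun j : ℕ => (j : ℚ_[p]) / p ^ s, ?_,
    fun x hx => ?_⟩
  · have h4 := (Nat.cast_le (α := ℝ)).2 ((Finset.card_image_le
      (f := fun j : ℕ => (j : ℚ_[p]) / p ^ s)).trans (Finset.card_range (p ^ (s + (n + 1)))).le)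
    have h5 : (p : ℝ) ^ n * ε ≤ 1 := by
      rw [← inv_mul_cancel₀ h0.ne']
      exact mul_le_mul_of_nonneg_right h2 h0.le
    rw [pow_one]
    refine (mul_le_mul_of_nonneg_right h4 h0.le).trans ?_
    rw [Nat.cast_pow, show s + (n + 1) = s + 1 + n by ring, pow_add _ (s + 1), mul_assoc]
    exact mul_le_of_le_one_right (by positivity) h5
  · have hn : ‖(p : ℚ_[p]) ^ s‖ = ((p : ℝ) ^ s)⁻¹ := by
      rw [norm_pow, Padic.norm_p, inv_pow]
    have hx' : ‖x‖ ≤ (p : ℝ) ^ s := (mem_closedBall_zero_iff.1 hx).trans hs.le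
    have h4 : ‖(p : ℚ_[p]) ^ s * x‖ ≤ 1 := by
      rw [norm_mul, hn, inv_mul_le_iff₀ (by positivity), mul_one]
      exact hx'
    let z : ℤ_[p] := ⟨_, h4⟩
    have h5 := (PadicInt.norm_le_pow_iff_mem_span_pow _ _).2 (PadicInt.appr_spec (s + (n + 1)) z)
    refine ⟨_, Finset.mem_image_of_mem _ (Finset.mem_range.2 (PadicInt.appr_lt z (s + (n + 1)))),
      ?_⟩
    have h6 : (p : ℚ_[p]) ^ s ≠ 0 :=
      pow_ne_zero _ (Nat.cast_ne_zero.2 (Fact.out : p.Prime).ne_zero)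
    have h7 : x - (z.appr (s + (n + 1)) : ℚ_[p]) / p ^ s =
        ((z - z.appr (s + (n + 1)) : ℤ_[p]) : ℚ_[p]) / p ^ s := by
      push_cast
      rw [sub_div, show (z : ℚ_[p]) = p ^ s * x from rfl, mul_div_cancel_left₀ _ h6]
    rw [dist_eq_norm, h7, norm_div, hn, div_inv_eq_mul, ← PadicInt.norm_def]
    refine (mul_le_mul_of_nonneg_right h5 (by positivity)).trans ?_
    rw [zpow_neg, zpow_natCast, pow_add, mul_inv, mul_right_comm, inv_mul_cancel₀ (by positivity),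
      one_mul]
    exact inv_le_of_inv_le₀ h0 h3.le

end Pool.Agent.MP_f7db47_al.GF

end

section

/-!
Products of good spaces.
-/

namespace Pool.Agent.MP_f7db47_al.GF

open Metric

variable {J : Type} [Fintype J] {S : J → Sp}

theorem FPi_le (x y : (Sp.pi S).X) {r : ℝ} (hr : 0 ≤ r) (h : ∀ j, dist (x j) (y j) ≤ r) :
    dist x y ≤ r :=
  (dist_pi_le_iff (f := x) (g := y) hr).2 h

theorem FPi_ge (x y : (Sp.pi S).X) (j : J) : dist (x j) (y j) ≤ dist x y :=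
  dist_le_pi_dist (f := x) (g := y) j

theorem Sp.Geo.pi (h : ∀ j, (S j).Geo) : (Sp.pi S).Geo := by
  refine ⟨fun c hc a s j => (h j).aff _ (hc j) a s, fun x y => ?_, ?_⟩
  · choose c hc h0 h1 using fun j => (h j).join (x j) (y j)
    exact ⟨fun t j => c j t, hc, funext h0, funext h1⟩
  · intro c hc c' hc' l h0 h1
    have h2 : 0 ≤ 1 - l := by linarith
    refine FPi_le _ _ (by positivity) fun j => ?_
    refine ((h j).conv _ (hc j) _ (hc' j) l h0 h1).trans ?_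
    exact add_le_add (mul_le_mul_of_nonneg_left (FPi_ge _ _ j) h2)
      (mul_le_mul_of_nonneg_left (FPi_ge _ _ j) h0)

theorem Sp.Par.mono {S : Sp} {κ κ' : ℝ} {m : ℕ} (h : S.Par κ m) (hκ : κ ≤ κ') :
    S.Par κ' m := by
  intro C
  obtain ⟨P, inst, s, π, A, h1, h2, h3, h4, h5⟩ := h C
  refine ⟨P, inst, s, π, max A 0, h1, h2, h3, fun p hp p' hp' t => ?_, h5⟩
  refine (h4 p hp p' hp' t).trans ?_
  have e1 : Real.exp (κ * |t|) ≤ Real.exp (κ' * |t|) :=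
    Real.exp_le_exp.2 (mul_le_mul_of_nonneg_right hκ (abs_nonneg t))
  have e2 : A * dist p p' ≤ max A 0 * dist p p' :=
    mul_le_mul_of_nonneg_right (le_max_left _ _) dist_nonneg
  have e3 : 0 ≤ max A 0 * dist p p' := mul_nonneg (le_max_right _ _) dist_nonneg
  exact mul_le_mul e2 e1 (Real.exp_pos _).le e3

theorem Sp.Par.pi {κ : ℝ} {m : J → ℕ} (h : ∀ j, (S j).Par κ (m j)) :
    (Sp.pi S).Par κ (∑ j, m j) := by
  intro C
  choose P inst s π A h1 h2 h3 h4 h5 using fun j => h j C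
  refine ⟨∀ j, P j, inferInstance, Set.univ.pi s, fun p t j => π j (p j) t, ∑ j, |A j|,
    isCompact_univ_pi h1, Cov.pi h2, fun p hp => ⟨fun j => (h3 j _ (hp j trivial)).1, ?_⟩,
    fun p hp p' hp' t => ?_, fun c hc hC hd => ?_⟩
  · exact FPi_le _ _ zero_le_one fun j => (h3 j _ (hp j trivial)).2
  · have hA : 0 ≤ ∑ j, |A j| := Finset.sum_nonneg fun j _ => abs_nonneg _
    refine FPi_le _ _ (by positivity) fun j => ?_
    refine (h4 j _ (hp j trivial) _ (hp' j trivial) t).trans ?_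
    refine mul_le_mul_of_nonneg_right ?_ (Real.exp_pos _).le
    have e1 : A j ≤ ∑ j, |A j| := (le_abs_self _).trans
      (Finset.single_le_sum (f := fun j => |A j|) (fun j _ => abs_nonneg _) (Finset.mem_univ j))
    exact mul_le_mul e1 (dist_le_pi_dist p p' j) dist_nonneg hA
  · choose p hp e using fun j => h5 j _ (hc j) ((FPi_ge _ _ j).trans hC) ((FPi_ge _ _ j).trans hd)
    exact ⟨p, fun j _ => hp j, funext fun t => funext fun j => congrFun (e j) t⟩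

theorem FPi_trop {F : J → Type} {D : ∀ j, Set (F j → ℝ)} {n : J → ℕ}
    (h : ∀ j, TropC (D j) (n j)) :
    TropC {z : (Σ j, F j) → ℝ | ∀ j, (fun i => z ⟨j, i⟩) ∈ D j} (∑ j, n j) := by
  classical
  refine ⟨fun x hx y hy c hc j => (h j).min _ (hx j) _ (hy j) c hc,
    fun Q hQ x hx j => (h j).floor Q hQ _ (hx j), fun Q hQ z M hz hD hM => ?_⟩
  have key : ∀ j, ((Finset.range M).filter
      fun k => (fun i : F j => z (k + 1) ⟨j, i⟩) ≠ fun i => z k ⟨j, i⟩).card ≤ n j := by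
    intro j
    have := (h j).chain Q hQ (fun k i => z k ⟨j, i⟩) M (fun a b hab i => hz hab ⟨j, i⟩)
      (fun k => hD k j) (fun i => hM ⟨j, i⟩)
    convert this
  refine le_trans (Finset.card_le_card (t := Finset.univ.biUnion fun j => (Finset.range M).filter
      fun k => (fun i : F j => z (k + 1) ⟨j, i⟩) ≠ fun i => z k ⟨j, i⟩) ?_)
    (Finset.card_biUnion_le.trans (Finset.sum_le_sum fun j _ => key j))
  intro k hk
  rw [Finset.mem_filter] at hk
  by_contra hn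
  refine hk.2 (funext fun a => ?_)
  obtain ⟨j, i⟩ := a
  by_contra hne
  exact hn (Finset.mem_biUnion.2 ⟨j, Finset.mem_univ j,
    Finset.mem_filter.2 ⟨hk.1, fun e => hne (congrFun e i)⟩⟩)

theorem Sp.Fine.pi {n : J → ℕ} (h : ∀ j, (S j).Fine (n j)) : (Sp.pi S).Fine (∑ j, n j) := by
  intro r hr
  choose F inst e h1 h2 h3 using fun j => h j r hr
  have hb : ∀ x : (Sp.pi S).X, x ∈ closedBall (Sp.pi S).o (r : ℝ) ↔
      ∀ j, x j ∈ closedBall (S j).o (r : ℝ) := fun x =>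
    ⟨fun hx j => (FPi_ge x _ j).trans hx, fun hx => FPi_le _ _ (Nat.cast_nonneg r) hx⟩
  refine ⟨Σ j, F j, inferInstance, fun x a => e a.1 (x a.1) a.2, ?_, ?_, ?_⟩
  · refine continuousOn_pi.2 fun a => ?_
    have c1 : Continuous fun x : (Sp.pi S).X => x a.1 :=
      (LipschitzWith.of_dist_le_mul (K := 1) fun x y => by
        simpa using FPi_ge x y a.1).continuous
    exact (continuousOn_pi.1 ((h1 a.1).comp c1.continuousOn fun x hx => (hb x).1 hx a.1)) a.2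
  · intro x hx y hy hxy
    exact funext fun j => h2 j ((hb x).1 hx j) ((hb y).1 hy j)
      (funext fun i => congrFun hxy ⟨j, i⟩)
  · convert FPi_trop h3 using 1
    ext z
    constructor
    · rintro ⟨x, hx, rfl⟩ j
      exact ⟨x j, (hb x).1 hx j, rfl⟩
    · intro hz
      choose x hx ex using hz
      exact ⟨x, (hb x).2 hx, funext fun a => congrFun (ex a.1) a.2⟩

theorem Sp.Good.pi (h : ∀ j, (S j).Good) : (Sp.pi S).Good := by
  choose κ m hκ hp using fun j => (h j).par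
  choose n hn using fun j => (h j).fine
  have h0 : 0 ≤ ∑ j, κ j := Finset.sum_nonneg fun j _ => (hκ j).le
  refine ⟨Sp.Geo.pi fun j => (h j).geo, ⟨1 + ∑ j, κ j, ∑ j, m j, by linarith,
    Sp.Par.pi fun j => (hp j).mono ?_⟩, ⟨_, Sp.Fine.pi hn⟩⟩
  have := Finset.single_le_sum (f := κ) (fun j _ => (hκ j).le) (Finset.mem_univ j)
  linarith

end Pool.Agent.MP_f7db47_al.GF

end
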