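import Pool.Agent.Mg.Ff7db47.G922e1f
import Pool.Agent.MP_f7db47_al.TCalc
import Pool.Agent.Mg.Ff7db47.G42fc5e
import Pool.Agent.Mg.Ff7db47.G699c82
import Pool.Agent.Mg.Ff7db47.Ge4601e
import Pool.Agent.Mg.Ff7db47.Ge4af1c
import Pool.Agent.Mg.Ff7db47.Gff0e1c

section

/-!
The abelian group of invertible matrices modulo the trivial ones.
-/

namespace Pool.Agent.MP_f7db47_al.PT

open Matrix

universe u v

/-- Square matrices of all sizes. -/
structure ZWh_U (R : Type v) [Ring R] (G : Type u) [Group G] : Type (max 1 u v) where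
  J : Type
  [fin : Fintype J]
  [dec : DecidableEq J]
  A : Matrix J J (MonoidAlgebra R G)

attribute [instance] ZWh_U.fin ZWh_U.dec

section

variable {R : Type v} [Ring R] {G : Type u} [Group G]

lemma ZWh_white {J : Type} [Fintype J] [DecidableEq J] {A B : Matrix J J (MonoidAlgebra R G)}
    (h : A * B = 1) (h' : B * A = 1) : T (fromBlocks A 0 0 B) := by
  have h1 := T_mul (T_mul (T_mul (T_upper A) (T_lower (-B))) (T_upper A))
    (T_mul (T_mul (T_upper (-1 : Matrix J J (MonoidAlgebra R G))) (T_lower 1)) (T_upper (-1)))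
  simpa [fromBlocks_multiply, h, h'] using h1

noncomputable instance ZWh_add : Add (ZWh_U R G) :=
  ⟨fun x y => ⟨x.J ⊕ y.J, fromBlocks x.A 0 0 y.A⟩⟩

noncomputable instance ZWh_zero : Zero (ZWh_U R G) := ⟨⟨Empty, 1⟩⟩

lemma ZWh_T_equiv {x y : ZWh_U R G} (e : y.J ≃ x.J) (h : y.A = x.A.submatrix e e) :
    T x.A ↔ T y.A := by
  rw [h]
  exact ⟨T_submatrix e, T_of_submatrix e⟩

lemma ZWh_T_assoc (x y z : ZWh_U R G) : T (x + y + z).A ↔ T (x + (y + z)).A := by
  refine ZWh_T_equiv (Equiv.sumAssoc x.J y.J z.J).symm ?_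
  ext (i | i | i) (j | j | j) <;> rfl

lemma ZWh_T_comm (x y : ZWh_U R G) : T (x + y).A ↔ T (y + x).A := by
  refine ZWh_T_equiv (Equiv.sumComm y.J x.J) ?_
  ext (i | i) (j | j) <;> rfl

/-- Two matrices are related if the same block sums are trivial. -/
def ZWh_rel (x y : ZWh_U R G) : Prop := ∀ z : ZWh_U R G, T (x + z).A ↔ T (y + z).A

lemma ZWh_rel_equiv {x y : ZWh_U R G} (e : y.J ≃ x.J) (h : y.A = x.A.submatrix e e) :
    ZWh_rel x y := by
  intro z
  refine ZWh_T_equiv (Equiv.sumCongr e (Equiv.refl z.J)) ?_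
  ext (i | i) (j | j)
  · exact congrFun (congrFun (congrArg (fun M => fun a b => M a b) h) i) j ▸ rfl
  all_goals rfl

lemma ZWh_rel_comm (x y : ZWh_U R G) : ZWh_rel (x + y) (y + x) := by
  refine ZWh_rel_equiv (Equiv.sumComm y.J x.J) ?_
  ext (i | i) (j | j) <;> rfl

lemma ZWh_rel_add {x x' : ZWh_U R G} (h : ZWh_rel x x') (y : ZWh_U R G) :
    ZWh_rel (x + y) (x' + y) := fun z =>
  (ZWh_T_assoc x y z).trans ((h (y + z)).trans (ZWh_T_assoc x' y z).symm)

variable (R G) in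
/-- The congruence. -/
def ZWh_con : AddCon (ZWh_U R G) where
  r := ZWh_rel
  iseqv := ⟨fun _ _ => Iff.rfl, fun h z => (h z).symm, fun h h' z => (h z).trans (h' z)⟩
  add' := fun {_ x y z} h h' t =>
    (ZWh_rel_add h y t).trans ((ZWh_rel_comm x y t).trans
      ((ZWh_rel_add h' x t).trans (ZWh_rel_comm z x t)))

lemma ZWh_eq {x y : ZWh_U R G} : (x : (ZWh_con R G).Quotient) = y ↔ ZWh_rel x y :=
  (ZWh_con R G).eq

noncomputable instance ZWh_zero' : Zero (ZWh_con R G).Quotient := ⟨((0 : ZWh_U R G) : _)⟩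

lemma ZWh_zero_add (x : ZWh_U R G) : ZWh_rel (0 + x) x := by
  refine ZWh_rel_equiv (Equiv.emptySum Empty x.J).symm ?_
  ext i j
  rfl

noncomputable instance ZWh_mon : AddCommMonoid (ZWh_con R G).Quotient where
  add_assoc := fun a b c => Quotient.inductionOn₃' a b c fun x y z => ZWh_eq.2 (by
    refine ZWh_rel_equiv (x := x + y + z) (y := x + (y + z)) (Equiv.sumAssoc x.J y.J z.J).symm ?_
    ext (i | i | i) (j | j | j) <;> rfl)
  zero_add := fun a => Quotient.inductionOn' a fun x => ZWh_eq.2 (ZWh_zero_add x)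
  add_zero := fun a => Quotient.inductionOn' a fun x =>
    (ZWh_eq.2 (ZWh_rel_comm x 0)).trans (ZWh_eq.2 (ZWh_zero_add x))
  add_comm := fun a b => Quotient.inductionOn₂' a b fun x y => ZWh_eq.2 (ZWh_rel_comm x y)
  nsmul := nsmulRec

variable {J K : Type} [Fintype J] [DecidableEq J] [Fintype K] [DecidableEq K]

/-- The class of a matrix. -/
noncomputable def ZWh_mk (A : Matrix J J (MonoidAlgebra R G)) : (ZWh_con R G).Quotient :=
  ((⟨J, A⟩ : ZWh_U R G) : _)

lemma ZWh_mk_diag (A : Matrix J J (MonoidAlgebra R G)) (D : Matrix K K (MonoidAlgebra R G)) :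
    ZWh_mk (fromBlocks A 0 0 D) = ZWh_mk A + ZWh_mk D := rfl

lemma ZWh_mk_zero {A : Matrix J J (MonoidAlgebra R G)} : ZWh_mk A = 0 ↔ T A := by
  refine ZWh_eq.trans ⟨fun h => ?_, fun h z => ?_⟩
  · exact T_of_stab ((h 0).2 (T_stab (K := Empty) (T_one (J := Empty))))
  · exact ⟨fun h' => T_stab' (K := Empty) (T_upper_block_right h' h),
      fun h' => T_upper_block 0 h (T_of_stab' (K := Empty) h')⟩

lemma ZWh_mk_mul_T (A : Matrix J J (MonoidAlgebra R G)) {N : Matrix J J (MonoidAlgebra R G)}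
    (hN : T N) : ZWh_mk (A * N) = ZWh_mk A := by
  refine ZWh_eq.2 fun z => ?_
  have h : fromBlocks (A * N) 0 0 z.A = fromBlocks A 0 0 z.A * fromBlocks N 0 0 1 := by
    simp [fromBlocks_multiply]
  change T (fromBlocks (A * N) 0 0 z.A) ↔ T (fromBlocks A 0 0 z.A)
  rw [h]
  exact ⟨T_cancel_right (T_stab hN), fun h' => T_mul h' (T_stab hN)⟩

lemma ZWh_mk_mul (A : Matrix J J (MonoidAlgebra R G)) {B : Matrix J J (MonoidAlgebra R G)}
    (hB : IsUnit B) : ZWh_mk (A * B) = ZWh_mk A + ZWh_mk B := by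
  obtain ⟨b, rfl⟩ := hB
  have h : fromBlocks A 0 0 b.val =
      fromBlocks (A * b.val) 0 0 1 * fromBlocks b⁻¹.val 0 0 b.val := by
    simp [fromBlocks_multiply]
  rw [← ZWh_mk_diag, h, ZWh_mk_mul_T _ (ZWh_white b.inv_mul b.mul_inv), ZWh_mk_diag,
    ZWh_mk_zero.2 T_one, add_zero]

lemma ZWh_mk_reindex (e : K ≃ J) (A : Matrix J J (MonoidAlgebra R G)) :
    ZWh_mk (A.submatrix e e) = ZWh_mk A :=
  (ZWh_eq.2 (ZWh_rel_equiv (x := ⟨J, A⟩) (y := ⟨K, A.submatrix e e⟩) e rfl)).symm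

lemma ZWh_isAddUnit {A : Matrix J J (MonoidAlgebra R G)} (hA : IsUnit A) :
    IsAddUnit (ZWh_mk A) := by
  obtain ⟨a, rfl⟩ := hA
  refine IsAddUnit.of_add_eq_zero (ZWh_mk a⁻¹.val) ?_
  rw [← ZWh_mk_diag]
  exact ZWh_mk_zero.2 (ZWh_white a.mul_inv a.inv_mul)

open Classical in
/-- The class of a matrix in the group. -/
noncomputable def ZWh_cls (A : Matrix J J (MonoidAlgebra R G)) : AddUnits (ZWh_con R G).Quotient :=
  if h : IsAddUnit (ZWh_mk A) then h.addUnit else 0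

lemma ZWh_cls_val {A : Matrix J J (MonoidAlgebra R G)} (hA : IsAddUnit (ZWh_mk A)) :
    (ZWh_cls A).val = ZWh_mk A := by
  rw [ZWh_cls, dif_pos hA, IsAddUnit.addUnit_spec]

end

theorem exists_WhS (R : Type v) [Ring R] (G : Type u) [Group G] :
    ∃ (W : Type (max 1 u v)) (_ : AddCommGroup W), Nonempty (WhS R G W) := by
  refine ⟨AddUnits (ZWh_con R G).Quotient, inferInstance, ⟨⟨fun A => ZWh_cls A, ?_, ?_, ?_, ?_⟩⟩⟩
  · intro J _ _ A hA
    rw [AddUnits.ext_iff, ZWh_cls_val (ZWh_isAddUnit hA), AddUnits.val_zero, ZWh_mk_zero]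
  · intro J _ _ A B hA hB
    rw [AddUnits.ext_iff, AddUnits.val_add, ZWh_cls_val (ZWh_isAddUnit hA),
      ZWh_cls_val (ZWh_isAddUnit hB), ZWh_cls_val (ZWh_isAddUnit (hA.mul hB)), ZWh_mk_mul A hB]
  · intro J K _ _ _ _ A D hA hD
    rw [AddUnits.ext_iff, AddUnits.val_add, ZWh_cls_val (ZWh_isAddUnit hA),
      ZWh_cls_val (ZWh_isAddUnit hD), ZWh_cls_val, ZWh_mk_diag]
    rw [ZWh_mk_diag]
    exact (ZWh_isAddUnit hA).add (ZWh_isAddUnit hD)
  · intro J K _ _ _ _ e A hA
    rw [AddUnits.ext_iff, ZWh_cls_val (ZWh_isAddUnit hA), ZWh_cls_val, ZWh_mk_reindex]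
    rw [ZWh_mk_reindex]
    exact ZWh_isAddUnit hA

end Pool.Agent.MP_f7db47_al.PT

end

section

/-!
The Radon transform on the affine plane over a prime field, and Thue's lemma.
-/

namespace Pool.Agent.MP_f7db47_al.PT

section

variable {p : ℕ} [Fact p.Prime]

theorem ZRad_add (k : Option (ZMod p)) (x c : ZMod p × ZMod p) :
    linF k (x + c) = linF k x + linF k c := by
  cases k with
  | none => simp [linF]
  | some a => simp only [linF, Option.elim, Prod.fst_add, Prod.snd_add]; ring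

theorem ZRad_sub (k : Option (ZMod p)) (x c : ZMod p × ZMod p) :
    linF k (x - c) = linF k x - linF k c := by
  cases k with
  | none => simp [linF]
  | some a => simp only [linF, Option.elim, Prod.fst_sub, Prod.snd_sub]; ring

theorem ZRad_zero {k k' : Option (ZMod p)} (h : k ≠ k') {w : ZMod p × ZMod p}
    (h1 : linF k w = 0) (h2 : linF k' w = 0) : w = 0 := by
  obtain ⟨u, v⟩ := w
  cases k with
  | none =>
    cases k' with
    | none => exact absurd rfl h
    | some b =>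
      simp only [linF, Option.elim] at h1 h2
      subst h1
      simp only [mul_zero, add_zero] at h2
      subst h2
      rfl
  | some a =>
    cases k' with
    | none =>
      simp only [linF, Option.elim] at h1 h2
      subst h2
      simp only [mul_zero, add_zero] at h1
      subst h1
      rfl
    | some b =>
      simp only [linF, Option.elim] at h1 h2
      have hab : a - b ≠ 0 := fun h0 => h (by rw [sub_eq_zero.mp h0])
      have hv : (a - b) * v = 0 := by linear_combination h1 - h2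
      have hv0 : v = 0 := (mul_eq_zero.mp hv).resolve_left hab
      subst hv0
      simp only [mul_zero, add_zero] at h1
      subst h1
      rfl

theorem ZRad_bij {k k' : Option (ZMod p)} (h : k ≠ k') :
    Function.Bijective (fun x : ZMod p × ZMod p => (linF k x, linF k' x)) := by
  apply Function.Injective.bijective_of_finite
  intro x y hxy
  simp only [Prod.mk.injEq] at hxy
  have := ZRad_zero h (w := x - y) (by rw [ZRad_sub, hxy.1, sub_self])
    (by rw [ZRad_sub, hxy.2, sub_self])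
  exact sub_eq_zero.mp this

theorem ZRad_sum2 {k k' : Option (ZMod p)} (h : k ≠ k') (g : ZMod p → ZMod p → ℤ) :
    ∑ x : ZMod p × ZMod p, g (linF k x) (linF k' x) = ∑ u, ∑ v, g u v := by
  rw [← Fintype.sum_prod_type' g]
  exact (ZRad_bij h).sum_comp (fun z : ZMod p × ZMod p => g z.1 z.2)

theorem ZRad_sum1 (k : Option (ZMod p)) (g : ZMod p → ℤ) :
    ∑ x : ZMod p × ZMod p, g (linF k x) = p * ∑ u, g u := by
  obtain ⟨k', hk⟩ := exists_ne k
  have := ZRad_sum2 hk.symm (fun u _ => g u)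
  rw [this, Finset.mul_sum]
  refine Finset.sum_congr rfl fun u _ => ?_
  simp [ZMod.card]

theorem ZRad_count {w : ZMod p × ZMod p} (hw : w ≠ 0) :
    ∑ k : Option (ZMod p), (if linF k w = 0 then (1 : ℤ) else 0) = 1 := by
  obtain ⟨k0, hk0⟩ : ∃ k0 : Option (ZMod p), linF k0 w = 0 := by
    by_cases h2 : w.2 = 0
    · exact ⟨none, by simpa [linF] using h2⟩
    · refine ⟨some (-w.1 / w.2), ?_⟩
      simp only [linF, Option.elim]
      field_simp
      ring
  rw [Finset.sum_eq_single k0]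
  · simp [hk0]
  · intro k _ hk
    rw [if_neg]
    intro h
    exact hw (ZRad_zero hk h hk0)
  · simp

/-- The Radon transform. -/
def ZRad_f (p : ℕ) [Fact p.Prime] :
    (ZMod p × ZMod p → ℤ) →ₗ[ℤ] (Option (ZMod p) × ZMod p → ℤ) where
  toFun F y := ∑ x, if linF y.1 x = y.2 then F x else 0
  map_add' F G := by
    funext y
    simp only [Pi.add_apply, ← Finset.sum_add_distrib]
    refine Finset.sum_congr rfl fun x _ => ?_
    split_ifs <;> simp
  map_smul' c F := by
    funext y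
    simp only [Pi.smul_apply, RingHom.id_apply, smul_eq_mul, Finset.mul_sum]
    refine Finset.sum_congr rfl fun x _ => ?_
    split_ifs <;> simp

theorem ZRad_f_apply (F : ZMod p × ZMod p → ℤ) (y : Option (ZMod p) × ZMod p) :
    ZRad_f p F y = ∑ x, if linF y.1 x = y.2 then F x else 0 := rfl

theorem ZRad_inj : Function.Injective (ZRad_f p) := by
  rw [injective_iff_map_eq_zero]
  intro F hF
  have hv : ∀ k y, (∑ x, if linF k x = y then F x else 0) = 0 := fun k y =>
    congrFun hF (k, y)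
  have htot : ∑ x, F x = 0 := by
    have h1 : ∑ y : ZMod p, (∑ x, if linF none x = y then F x else 0) = 0 :=
      Finset.sum_eq_zero fun y _ => hv none y
    rw [Finset.sum_comm] at h1
    simpa using h1
  funext x
  have h2 : ∑ k : Option (ZMod p), (∑ z, if linF k z = linF k x then F z else 0) = 0 :=
    Finset.sum_eq_zero fun k _ => hv k _
  rw [Finset.sum_comm] at h2
  have h3 : ∀ z : ZMod p × ZMod p,
      (∑ k : Option (ZMod p), if linF k z = linF k x then F z else 0) =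
        F z + (if z = x then p * F z else 0) := by
    intro z
    by_cases hz : z = x
    · subst hz
      simp only [if_true, Finset.sum_const, Finset.card_univ, Fintype.card_option, ZMod.card,
        nsmul_eq_mul]
      push_cast
      ring
    · have hc := ZRad_count (w := z - x) (sub_ne_zero.mpr hz)
      rw [if_neg hz, add_zero]
      calc (∑ k : Option (ZMod p), if linF k z = linF k x then F z else 0)
          = ∑ k : Option (ZMod p), (if linF k (z - x) = 0 then (1 : ℤ) else 0) * F z := by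
            refine Finset.sum_congr rfl fun k _ => ?_
            rw [ZRad_sub]
            simp only [sub_eq_zero]
            split_ifs <;> simp
        _ = F z := by rw [← Finset.sum_mul, hc, one_mul]
  simp only [h3, Finset.sum_add_distrib, htot, Finset.sum_ite_eq', Finset.mem_univ, if_true,
    zero_add] at h2
  have hp : (p : ℤ) ≠ 0 := by exact_mod_cast (Fact.out : p.Prime).ne_zero
  exact (mul_eq_zero.mp h2).resolve_left hp

theorem ZRad_equiv (c : ZMod p × ZMod p) (F : ZMod p × ZMod p → ℤ) :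
    ZRad_f p (fun x => F (x + c)) = fun y => ZRad_f p F (y.1, y.2 + linF y.1 c) := by
  funext y
  rw [ZRad_f_apply, ZRad_f_apply]
  refine Fintype.sum_equiv (Equiv.addRight c) _ _ fun x => ?_
  simp only [Equiv.coe_addRight, ZRad_add, add_left_inj]

theorem ZRad_range (F : Option (ZMod p) × ZMod p → ℤ) (hF : ∀ k, ∑ y, F (k, y) = 0) :
    (p : ℤ) • F ∈ LinearMap.range (ZRad_f p) := by
  refine ⟨fun x => ∑ k, F (k, linF k x), ?_⟩
  funext y
  obtain ⟨k0, y0⟩ := y
  rw [ZRad_f_apply]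
  have h1 : ∀ x : ZMod p × ZMod p,
      (if linF k0 x = y0 then ∑ k, F (k, linF k x) else 0) =
        ∑ k, (if linF k0 x = y0 then F (k, linF k x) else 0) := by
    intro x
    split_ifs <;> simp
  simp only [h1]
  rw [Finset.sum_comm, Finset.sum_eq_single k0]
  · have := ZRad_sum1 k0 (fun u => if u = y0 then F (k0, u) else 0)
    rw [this]
    simp
  · intro k _ hk
    have := ZRad_sum2 hk.symm (fun u v => if u = y0 then F (k, v) else 0)
    rw [this]
    refine Finset.sum_eq_zero fun u _ => ?_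
    split_ifs
    · exact hF k
    · simp
  · simp

/-- Translation along the fibres. -/
def ZRad_T (p : ℕ) [Fact p.Prime] (t : Option (ZMod p) → ZMod p) :
    Module.End ℤ (Option (ZMod p) × ZMod p → ℤ) where
  toFun F y := F (y.1, y.2 + t y.1)
  map_add' _ _ := rfl
  map_smul' _ _ := rfl

theorem ZRad_T_apply (t : Option (ZMod p) → ZMod p) (F : Option (ZMod p) × ZMod p → ℤ)
    (y : Option (ZMod p) × ZMod p) : ZRad_T p t F y = F (y.1, y.2 + t y.1) := rfl

theorem ZRad_T_comm (s t : Option (ZMod p) → ZMod p) : Commute (ZRad_T p s) (ZRad_T p t) := by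
  refine LinearMap.ext fun F => funext fun y => ?_
  simp only [Module.End.mul_apply, ZRad_T_apply]
  rw [add_right_comm]

theorem ZRad_T_pow (n : ℕ) (F : Option (ZMod p) × ZMod p → ℤ) (y : Option (ZMod p) × ZMod p) :
    (ZRad_T p (fun _ => 1) ^ n) F y = F (y.1, y.2 + n) := by
  induction n generalizing F with
  | zero => simp
  | succ n ih =>
    rw [pow_succ, Module.End.mul_apply, ih, ZRad_T_apply]
    push_cast
    rw [add_assoc]

theorem ZRad_tele (t : Option (ZMod p) → ZMod p) (G : Option (ZMod p) × ZMod p → ℤ) :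
    ∃ H, ZRad_T p t G - G = (ZRad_T p (fun _ => 1) - 1) H := by
  refine ⟨fun y => ∑ i ∈ Finset.range (t y.1).val, G (y.1, y.2 + i), ?_⟩
  funext y
  simp only [Pi.sub_apply, LinearMap.sub_apply, Module.End.one_apply, ZRad_T_apply]
  rw [← Finset.sum_sub_distrib]
  have h := Finset.sum_range_sub (fun i : ℕ => G (y.1, y.2 + i)) (t y.1).val
  simp only [Nat.cast_zero, add_zero, ZMod.natCast_val, ZMod.cast_id', id_eq] at h
  rw [← h]
  refine Finset.sum_congr rfl fun i _ => ?_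
  push_cast
  rw [add_assoc, add_comm 1]

theorem ZRad_nil :
    ∃ E : Module.End ℤ (Option (ZMod p) × ZMod p → ℤ),
      (ZRad_T p (fun _ => 1) - 1) ^ p = (p : ℤ) • E := by
  have hp : p.Prime := Fact.out
  have hc : Commute (ZRad_T p (fun _ => 1)) (-1) := Commute.neg_one_right _
  obtain ⟨r, hr⟩ := hc.exists_add_pow_prime_eq hp
  have h1 : ZRad_T p (fun _ => 1) ^ p = 1 := by
    refine LinearMap.ext fun F => funext fun y => ?_
    rw [ZRad_T_pow]
    simp
  rw [sub_eq_add_neg, hr, h1]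
  rcases hp.eq_two_or_odd' with h2 | hodd
  · refine ⟨1 + ZRad_T p (fun _ => 1) * (-1) * r, ?_⟩
    have h3 : ((-1 : Module.End ℤ (Option (ZMod p) × ZMod p → ℤ))) ^ p = 1 := by
      rw [h2]; exact neg_one_sq
    rw [h3, zsmul_eq_mul, Int.cast_natCast, mul_add, mul_one, mul_assoc, mul_assoc, mul_assoc]
    congr 1
    rw [h2]
    norm_num
  · refine ⟨ZRad_T p (fun _ => 1) * (-1) * r, ?_⟩
    rw [hodd.neg_one_pow, zsmul_eq_mul, Int.cast_natCast, add_neg_cancel, zero_add]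
    simp only [mul_assoc]

end

theorem exists_radon (p : ℕ) [Fact p.Prime] :
    ∃ (f : (ZMod p × ZMod p → ℤ) →ₗ[ℤ] (Option (ZMod p) × ZMod p → ℤ)) (n : ℕ)
      (Kf : ℕ → Submodule ℤ (Option (ZMod p) × ZMod p → ℤ)), Function.Injective f ∧
      (∀ (c : ZMod p × ZMod p) (F : ZMod p × ZMod p → ℤ),
        f (fun x => F (x + c)) = fun y => f F (y.1, y.2 + linF y.1 c)) ∧
      Kf 0 = ⊤ ∧ (∀ j, Kf (j + 1) ≤ Kf j) ∧
      (∀ (j : ℕ) (c : ZMod p × ZMod p) (F : Option (ZMod p) × ZMod p → ℤ), F ∈ Kf j →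
        (fun y => F (y.1, y.2 + linF y.1 c)) - F ∈ Kf (j + 1)) ∧
      Kf n ≤ LinearMap.range f := by
  refine ⟨ZRad_f p, p + 1, fun j => LinearMap.range ((ZRad_T p (fun _ => 1) - 1) ^ j),
    ZRad_inj, ZRad_equiv, ?_, ?_, ?_, ?_⟩
  · simp only [pow_zero]
    exact LinearMap.range_eq_top.mpr fun F => ⟨F, rfl⟩
  · rintro j F ⟨G, rfl⟩
    exact ⟨(ZRad_T p (fun _ => 1) - 1) G, by rw [pow_succ, Module.End.mul_apply]⟩
  · rintro j c F ⟨G, rfl⟩
    obtain ⟨H, hH⟩ := ZRad_tele (fun k => linF k c) G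
    refine ⟨H, ?_⟩
    have hc : Commute (ZRad_T p (fun k => linF k c)) ((ZRad_T p (fun _ => 1) - 1) ^ j) :=
      ((ZRad_T_comm _ _).sub_right (Commute.one_right _)).pow_right j
    rw [pow_succ, Module.End.mul_apply, ← hH, map_sub, ← Module.End.mul_apply, ← hc.eq,
      Module.End.mul_apply]
    rfl
  · rintro F ⟨G, rfl⟩
    obtain ⟨E, hE⟩ := ZRad_nil (p := p)
    rw [pow_succ', Module.End.mul_apply, hE, LinearMap.smul_apply, map_smul]
    refine ZRad_range _ fun k => ?_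
    simp only [LinearMap.sub_apply, Pi.sub_apply, Module.End.one_apply, ZRad_T_apply,
      Finset.sum_sub_distrib]
    rw [sub_eq_zero]
    exact Fintype.sum_equiv (Equiv.addRight 1) _ _ fun y => rfl

theorem exists_thue (p : ℕ) [Fact p.Prime] (k : Option (ZMod p)) :
    ∃ (a b : ℤ) (c : ZMod p), (a ≠ 0 ∨ b ≠ 0) ∧ |a| ≤ Nat.sqrt p ∧ |b| ≤ Nat.sqrt p ∧
      ∀ x : ZMod p × ZMod p, c * linF k x = a * x.1 + b * x.2 := by
  have hp : p.Prime := Fact.out
  cases k with
  | none =>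
    refine ⟨0, 1, 1, Or.inr one_ne_zero, by simp, ?_, fun x => by simp [linF]⟩
    have : 1 ≤ Nat.sqrt p := Nat.le_sqrt.mpr (by have := hp.pos; omega)
    simpa using this
  | some t =>
    have hcard : Fintype.card (ZMod p) <
        Fintype.card (Fin (Nat.sqrt p + 1) × Fin (Nat.sqrt p + 1)) := by
      rw [ZMod.card, Fintype.card_prod, Fintype.card_fin]
      exact Nat.lt_succ_sqrt p
    obtain ⟨u, v, huv, h⟩ := Fintype.exists_ne_map_eq_of_card_lt
      (fun u : Fin (Nat.sqrt p + 1) × Fin (Nat.sqrt p + 1) =>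
        ((u.2 : ℕ) : ZMod p) - t * ((u.1 : ℕ) : ZMod p)) hcard
    refine ⟨(u.1 : ℕ) - (v.1 : ℕ), (u.2 : ℕ) - (v.2 : ℕ), ((u.1 : ℕ) : ZMod p) - (v.1 : ℕ),
      ?_, ?_, ?_, fun x => ?_⟩
    · by_contra hcon
      push Not at hcon
      apply huv
      refine Prod.ext (Fin.ext ?_) (Fin.ext ?_)
      · have := hcon.1; omega
      · have := hcon.2; omega
    · have h1 := u.1.2
      have h2 := v.1.2
      rw [abs_le]
      constructor <;> omega
    · have h1 := u.2.2
      have h2 := v.2.2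
      rw [abs_le]
      constructor <;> omega
    · simp only [linF, Option.elim]
      push_cast
      linear_combination (-x.2) * h

end Pool.Agent.MP_f7db47_al.PT

end

section

/-!
Splitting of matrices that are controlled over a long circle.
-/

namespace Pool.Agent.MP_f7db47_al.PT

universe u v

variable {R : Type v} [Ring R] {G : Type u} [Group G]

section
variable {J : Type} [Fintype J] [DecidableEq J]

lemma ZCsl_diag (u : J → G) :
    T (Matrix.diagonal fun i => (MonoidAlgebra.single (u i) 1 : MonoidAlgebra R G)) := by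
  have := T_idem_diag (R := R) (ε := 1) (one_mul _) (u := u)
    fun i j h => Matrix.one_apply_ne fun e => h (congrArg u e)
  rwa [map_single_one_one, sub_self, zero_add, one_mul] at this

lemma ZCsl_diag_mul (u w : J → G) (h : ∀ i, u i * w i = 1) :
    (Matrix.diagonal fun i => (MonoidAlgebra.single (u i) 1 : MonoidAlgebra R G)) *
      (Matrix.diagonal fun i => MonoidAlgebra.single (w i) 1) = 1 := by
  rw [Matrix.diagonal_mul_diagonal, ← Matrix.diagonal_one]
  congr 1; funext i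
  rw [MonoidAlgebra.single_mul_single, h, one_mul]; rfl

lemma ZCsl_sup {H : Type u} [Group H] (f : H →* G) (hf : Function.Injective f) {S : Set G}
    {x : MonoidAlgebra R H} (h : Sup S (MonoidAlgebra.mapDomainRingHom R f x)) :
    Sup (f ⁻¹' S) x := fun g hg => h (f g) (by
  rw [MonoidAlgebra.mapDomainRingHom_apply, MonoidAlgebra.coeff_mapDomain,
    Finsupp.mapDomain_apply hf]
  exact hg)

variable (dg : G → ℤ) (hadd : ∀ a b, dg (a * b) = dg a + dg b)
include hadd

lemma ZCsl_cmp {a b c d : Matrix J J (MonoidAlgebra R G)} {s : ℤ} (hs : s ≠ 0)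
    (ha : MSup {g | dg g = 0} a) (hb : MSup {g | dg g = s} b) (hc : MSup {g | dg g = 0} c)
    (hd : MSup {g | dg g = -s} d) (h : (a + b) * (c + d) = 1) :
    b * c = 0 ∧ a * d = 0 ∧ a * c + b * d = 1 := by
  have h0 := dg_one dg hadd
  have e1 : b * c = 1 - a * c - b * d - a * d := by rw [← h]; noncomm_ring
  have e2 : a * d = 1 - a * c - b * d - b * c := by rw [← h]; noncomm_ring
  have k1 : b * c = 0 := by
    refine MSup.eq_zero (S := {g | dg g = s}) (S' := {g | dg g ≠ s}) (hb.mul hc ?_) ?_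
      fun g hg hg' => hg' hg
    swap
    · rw [e1]
      refine (((msup_one ?_).sub (ha.mul hc ?_)).sub (hb.mul hd ?_)).sub (ha.mul hd ?_)
      · simp only [Set.mem_ofPred_eq]; omega
      all_goals
        intro x hx y hy
        simp only [Set.mem_ofPred_eq, hadd] at *; omega
    · intro x hx y hy
      simp only [Set.mem_ofPred_eq, hadd] at *; omega
  have k2 : a * d = 0 := by
    refine MSup.eq_zero (S := {g | dg g = -s}) (S' := {g | dg g ≠ -s}) (ha.mul hd ?_) ?_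
      fun g hg hg' => hg' hg
    swap
    · rw [e2]
      refine (((msup_one ?_).sub (ha.mul hc ?_)).sub (hb.mul hd ?_)).sub (hb.mul hc ?_)
      · simp only [Set.mem_ofPred_eq]; omega
      all_goals
        intro x hx y hy
        simp only [Set.mem_ofPred_eq, hadd] at *; omega
    · intro x hx y hy
      simp only [Set.mem_ofPred_eq, hadd] at *; omega
  refine ⟨k1, k2, ?_⟩
  rw [← h, add_mul, mul_add, mul_add, k1, k2, add_zero, zero_add]

omit hadd [Fintype J] [DecidableEq J] in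
lemma ZCsl_parts {A : Matrix J J (MonoidAlgebra R G)} {s : ℤ}
    (hA : MSup {g | dg g = 0 ∨ dg g = s} A) :
    ∃ a b, MSup {g | dg g = 0} a ∧ MSup {g | dg g = s} b ∧ A = a + b :=
  ⟨mpr {g | dg g = 0} A, mpr {g | dg g = 0}ᶜ A, msup_mpr _ _, fun i j g hg =>
    (hA.mpr i j g hg).resolve_left (msup_mpr _ A i j g hg), (mpr_add_mpr_compl _ A).symm⟩

lemma ZCsl_two (N : Subgroup G) (hN : ∀ g, g ∈ N ↔ dg g = 0) (t : G) (ht : dg t = 1)
    (h1 : G1 R N) (h0 : G0 R N) {A C : Matrix J J (MonoidAlgebra R G)} (hAC : A * C = 1)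
    (hCA : C * A = 1) (hA : MSup {g | dg g = 0 ∨ dg g = 1} A)
    (hC : MSup {g | dg g = 0 ∨ dg g = -1} C) : T A := by
  have hu : IsUnit A := ⟨⟨A, C, hAC, hCA⟩, rfl⟩
  obtain ⟨a, b, ha, hb, rfl⟩ := ZCsl_parts dg hA
  obtain ⟨c, d, hc, hd, rfl⟩ := ZCsl_parts dg hC
  obtain ⟨k1, k2, -⟩ := ZCsl_cmp dg hadd one_ne_zero ha hb hc hd hAC
  obtain ⟨k3, -, k4⟩ := ZCsl_cmp dg hadd (s := -1) (by omega) hc hd ha hb hCA
  have k5 : b * d * b = b := by
    rw [mul_assoc, eq_sub_of_add_eq' k4, mul_sub, mul_one, ← mul_assoc, k1, zero_mul, sub_zero]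
  have k6 : (1 - b * d) * a + b * d * b = a + b := by
    rw [k5, sub_mul, one_mul, mul_assoc, k3, mul_zero, sub_zero]
  rw [← k6] at hu ⊢
  refine T_split dg hadd N hN t ht h1 h0 ha hb (hb.mul hd ?_) (by rw [← mul_assoc, k5]) hu
  intro x hx y hy
  simp only [Set.mem_ofPred_eq, hadd] at *; omega

lemma ZCsl_two' (N : Subgroup G) (hN : ∀ g, g ∈ N ↔ dg g = 0) (hQ : QQ R N) (t : G) {q : ℤ}
    (hq : q ≠ 0) (ht : dg t = q) {A C : Matrix J J (MonoidAlgebra R G)} (hAC : A * C = 1)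
    (hCA : C * A = 1) (hA : MSup {g | dg g = 0 ∨ dg g = q} A)
    (hC : MSup {g | dg g = 0 ∨ dg g = -q} C) : T A := by
  let H : Subgroup G :=
    { carrier := {g | q ∣ dg g}
      one_mem' := by simp [dg_one dg hadd]
      mul_mem' := fun {a b} ha hb => by
        simp only [Set.mem_ofPred_eq, hadd] at *; exact dvd_add ha hb
      inv_mem' := fun {a} ha => by
        simp only [Set.mem_ofPred_eq, dg_inv dg hadd] at *; exact dvd_neg.2 ha }
  have hr : ∀ g, q ∣ dg g → g ∈ Set.range H.subtype := fun g hg => ⟨⟨g, hg⟩, rfl⟩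
  obtain ⟨A', rfl⟩ := exists_map_of_msup H.subtype H.subtype_injective (hA.mono fun g hg =>
    hr g (by rcases hg with e | e <;> simp [e]))
  obtain ⟨C', rfl⟩ := exists_map_of_msup H.subtype H.subtype_injective (hC.mono fun g hg =>
    hr g (by rcases hg with e | e <;> simp [e]))
  have hinj : Function.Injective fun M : Matrix J J (MonoidAlgebra R H) =>
      M.map (MonoidAlgebra.mapDomainRingHom R H.subtype) :=
    Matrix.map_injective (mapDomain_inj _ H.subtype_injective)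
  have hQ' : QQ R (N.comap H.subtype) := hQ.sub
    ((H.subtype.comp (N.comap H.subtype).subtype).codRestrict N fun x => x.2)
    fun x y hxy => Subtype.ext (Subtype.ext (congrArg (fun z : N => (z : G)) hxy))
  apply T_map
  refine ZCsl_two (fun g : H => dg g / q) (fun a b => ?_) (N.comap H.subtype) (fun g => ?_)
    ⟨t, by change q ∣ dg t; rw [ht]⟩ ?_ hQ'.g1 hQ'.g0 (C := C') (hinj ?_) (hinj ?_)
    (fun i j => (ZCsl_sup _ H.subtype_injective (hA i j)).mono fun g hg => ?_)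
    fun i j => (ZCsl_sup _ H.subtype_injective (hC i j)).mono fun g hg => ?_
  · rw [Subgroup.coe_mul, hadd, Int.add_ediv_of_dvd_left a.2]
  · rw [Subgroup.mem_comap, hN]
    refine ⟨fun e => ?_, fun e => ?_⟩
    · change dg g = 0 at e
      simp [e]
    · change dg g = 0
      rw [← Int.mul_ediv_cancel' g.2, e, mul_zero]
  · simp only [ht]; exact Int.ediv_self hq
  · simpa [Matrix.map_mul, Matrix.map_one _ (map_zero _) (map_one _)] using hAC
  · simpa [Matrix.map_mul, Matrix.map_one _ (map_zero _) (map_one _)] using hCA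
  · change dg g = 0 ∨ dg g = q at hg
    rcases hg with e | e <;> simp [e, hq]
  · change dg g = 0 ∨ dg g = -q at hg
    rcases hg with e | e <;> simp [e, hq]

omit hadd in
lemma ZCsl_tri {p ε : ℕ} (hε : 2 * ε < p) {a b : ZMod p} {δ : ℤ} (h1 : |δ| ≤ ε)
    (h : a = b + δ) : (a.val < p ∧ b.val < p ∧ -(ε : ℤ) ≤ δ ∧ δ ≤ ε) ∧
      ((b.val : ℤ) + δ - a.val = -p ∨ (b.val : ℤ) + δ - a.val = 0 ∨ (b.val : ℤ) + δ - a.val = p) := by
  have : NeZero p := ⟨by omega⟩
  have ha := a.val_lt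
  have hb := b.val_lt
  obtain ⟨h2, h3⟩ := abs_le.1 h1
  refine ⟨⟨ha, hb, h2, h3⟩, ?_⟩
  obtain ⟨k, hk⟩ := (ZMod.intCast_zmod_eq_zero_iff_dvd ((b.val : ℤ) + δ - a.val) p).1 (by
    push_cast
    rw [ZMod.natCast_zmod_val, ZMod.natCast_zmod_val, ← h, sub_self])
  have k1 : k < 2 := by
    by_contra hc
    have : (p : ℤ) * 2 ≤ p * k := mul_le_mul_of_nonneg_left (by omega) (by omega)
    omega
  have k2 : -2 < k := by
    by_contra hc
    have : (p : ℤ) * k ≤ p * (-2) := mul_le_mul_of_nonneg_left (by omega) (by omega)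
    omega
  interval_cases k <;> omega

lemma ZCsl_one (N : Subgroup G) (hN : ∀ g, g ∈ N ↔ dg g = 0) (hQ : QQ R N) (t : G)
    (ht : dg t = 1) (p ε : ℕ) (hε : 2 * ε < p) (θ : J → ZMod p)
    {A B : Matrix J J (MonoidAlgebra R G)} (hAB : A * B = 1) (hBA : B * A = 1)
    (hA : MSup2 (fun i j => {g | |dg g| ≤ ε ∧ θ i = θ j + (dg g : ZMod p)}) A)
    (hB : MSup2 (fun i j => {g | |dg g| ≤ ε ∧ θ i = θ j + (dg g : ZMod p)}) B) : T A := by
  let m : J → ℕ := fun j => (θ j).val + if (θ j).val < ε then p else 0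
  have hp : ∀ n : ℕ, dg (t ^ n) = n := fun n => by rw [dg_pow dg hadd, ht, mul_one]
  have e1 := ZCsl_diag_mul (R := R) (fun i => (t ^ (θ i).val)⁻¹) (fun i => t ^ (θ i).val)
    fun i => inv_mul_cancel _
  have e2 := ZCsl_diag_mul (R := R) (fun i => t ^ (θ i).val) (fun i => (t ^ (θ i).val)⁻¹)
    fun i => mul_inv_cancel _
  have e3 := ZCsl_diag_mul (R := R) (fun i => (t ^ m i)⁻¹) (fun i => t ^ m i)
    fun i => inv_mul_cancel _
  have e4 := ZCsl_diag_mul (R := R) (fun i => t ^ m i) (fun i => (t ^ m i)⁻¹)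
    fun i => mul_inv_cancel _
  refine T_cancel_left (ZCsl_diag fun i => (t ^ (θ i).val)⁻¹)
    (T_cancel_right (ZCsl_diag fun i => t ^ m i) ?_)
  refine ZCsl_two' dg hadd N hN hQ (t ^ p) (q := p) (by omega) (hp p)
    (C := (Matrix.diagonal fun i => MonoidAlgebra.single (t ^ m i)⁻¹ 1) * B *
      Matrix.diagonal fun i => MonoidAlgebra.single (t ^ (θ i).val) 1) ?_ ?_
    (fun i j => ?_) fun i j => ?_
  · rw [mul_assoc _ B, mul_assoc, ← mul_assoc (Matrix.diagonal _) (Matrix.diagonal _), e4,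
      one_mul, mul_assoc, ← mul_assoc A, hAB, one_mul, e1]
  · rw [mul_assoc _ A, mul_assoc, ← mul_assoc (Matrix.diagonal _) (Matrix.diagonal _), e2,
      one_mul, mul_assoc, ← mul_assoc B, hBA, one_mul, e3]
  · rw [Matrix.mul_diagonal, Matrix.diagonal_mul]
    refine ((sup_single (S := {(t ^ (θ i).val)⁻¹}) rfl 1).mul
      (U := {g | dg g + m j = 0 ∨ dg g + m j = p}) (hA i j) ?_).mul
      (sup_single (S := {t ^ m j}) rfl 1) ?_
    · rintro _ rfl g ⟨h1, h2⟩
      have := ZCsl_tri hε h1 h2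
      simp only [Set.mem_ofPred_eq, hadd, dg_inv dg hadd, hp, m]
      split_ifs <;> omega
    · rintro g hg _ rfl
      simpa only [Set.mem_ofPred_eq, hadd, hp] using hg
  · rw [Matrix.mul_diagonal, Matrix.diagonal_mul]
    refine ((sup_single (S := {(t ^ m i)⁻¹}) rfl 1).mul
      (U := {g | dg g + (θ j).val = 0 ∨ dg g + (θ j).val = -p}) (hB i j) ?_).mul
      (sup_single (S := {t ^ (θ j).val}) rfl 1) ?_
    · rintro _ rfl g ⟨h1, h2⟩
      have := ZCsl_tri hε h1 h2
      simp only [Set.mem_ofPred_eq, hadd, dg_inv dg hadd, hp, m]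
      split_ifs <;> omega
    · rintro g hg _ rfl
      simpa only [Set.mem_ofPred_eq, hadd, hp] using hg

end

theorem T_ctrl (dg : G → ℤ) (hadd : ∀ a b, dg (a * b) = dg a + dg b) (N : Subgroup G)
    (hN : ∀ g, g ∈ N ↔ dg g = 0) (hQ : QQ R N) (p ε : ℕ) (hp : p.Prime) (hε : 2 * ε < p)
    {J : Type} [Fintype J] [DecidableEq J] (θ : J → ZMod p)
    {A B : Matrix J J (MonoidAlgebra R G)} (hAB : A * B = 1) (hBA : B * A = 1)
    (hA : MSup2 (fun i j => {g | |dg g| ≤ ε ∧ θ i = θ j + (dg g : ZMod p)}) A)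
    (hB : MSup2 (fun i j => {g | |dg g| ≤ ε ∧ θ i = θ j + (dg g : ZMod p)}) B) : T A := by
  let I : AddSubgroup ℤ :=
    { carrier := Set.range dg
      zero_mem' := ⟨1, dg_one dg hadd⟩
      add_mem' := by rintro _ _ ⟨a, rfl⟩ ⟨b, rfl⟩; exact ⟨a * b, hadd a b⟩
      neg_mem' := by rintro _ ⟨a, rfl⟩; exact ⟨a⁻¹, dg_inv dg hadd a⟩ }
  obtain ⟨d, hd⟩ := Int.subgroup_cyclic I
  have h1 : ∀ g, d ∣ dg g := fun g => by
    have : dg g ∈ I := ⟨g, rfl⟩
    rw [hd, AddSubgroup.mem_closure_singleton] at this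
    obtain ⟨k, hk⟩ := this
    exact ⟨k, by rw [← hk, smul_eq_mul, mul_comm]⟩
  obtain ⟨t, ht⟩ : d ∈ I := hd ▸ AddSubgroup.mem_closure_singleton_self d
  by_cases h : d ≠ 0 ∧ |d| ≤ ε
  · obtain ⟨h0, h2⟩ := h
    have : Fact p.Prime := ⟨hp⟩
    have hdiv : ∀ g, d * (dg g / d) = dg g := fun g => Int.mul_ediv_cancel' (h1 g)
    have h3 : (d : ZMod p) ≠ 0 := fun e => by
      have := Int.le_of_dvd (abs_pos.2 h0)
        ((dvd_abs _ _).2 ((ZMod.intCast_zmod_eq_zero_iff_dvd d p).1 e))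
      omega
    have h4 : ∀ i j, {g | |dg g| ≤ ε ∧ θ i = θ j + (dg g : ZMod p)} ⊆ {g | |dg g / d| ≤ ε ∧
        (d : ZMod p)⁻¹ * θ i = (d : ZMod p)⁻¹ * θ j + ((dg g / d : ℤ) : ZMod p)} := by
      rintro i j g ⟨a1, a2⟩
      rw [← hdiv g] at a1 a2
      refine ⟨le_trans ?_ a1, ?_⟩
      · rw [abs_mul]
        exact le_mul_of_one_le_left (abs_nonneg _) (Int.one_le_abs h0)
      · rw [a2, Int.cast_mul, mul_add, inv_mul_cancel_left₀ h3]
    refine ZCsl_one (fun g => dg g / d) (fun a b => ?_) N (fun g => ?_) hQ t ?_ p ε hε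
      (fun i => (d : ZMod p)⁻¹ * θ i) hAB hBA (fun i j => (hA i j).mono (h4 i j))
      fun i j => (hB i j).mono (h4 i j)
    · rw [hadd, Int.add_ediv_of_dvd_left (h1 a)]
    · rw [hN]
      refine ⟨fun e => by simp [e], fun e => ?_⟩
      rw [← hdiv g, e, mul_zero]
    · simp only [ht]; exact Int.ediv_self h0
  · refine T_of_isUnit_msup N hQ.g1 (fun i j => (hA i j).mono fun g hg => (hN g).2 ?_)
      ⟨⟨A, B, hAB, hBA⟩, rfl⟩
    by_contra hc
    refine h ⟨fun e => hc (zero_dvd_iff.1 (e ▸ h1 g)), le_trans ?_ hg.1⟩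
    exact Int.le_of_dvd (abs_pos.2 hc) ((abs_dvd_abs _ _).2 (h1 g))

lemma ZCsl_inv {M : Type*} [Ring M] {P Z Z' : M} (hP : P * P = P) (h : Z * Z' = 1)
    (h' : P * Z = Z * P) : (1 - P + P * Z) * (1 - P + P * Z') = 1 := by
  have e : (1 - P + P * Z) * (1 - P + P * Z') =
      1 - P + (P - P * P) * (Z' - 1) + (P * Z) * (1 - P) + P * (Z * P) * Z' := by
    noncomm_ring
  rw [e, hP, sub_self, zero_mul, add_zero, ← h', ← mul_assoc, hP, mul_assoc _ Z Z', h, h',
    mul_assoc Z, mul_sub, hP]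
  simp

/-- Several circles. -/
theorem T_ctrl' {Y : Type} (dg : Y → G → ℤ) (hadd : ∀ y a b, dg y (a * b) = dg y a + dg y b)
    (N : Y → Subgroup G) (hN : ∀ y g, g ∈ N y ↔ dg y g = 0) (hQ : ∀ y, QQ R (N y)) (p ε : ℕ)
    (hp : p.Prime) (hε : 2 * ε < p) {J : Type} [Fintype J] [DecidableEq J] (c : J → Y)
    (θ : J → ZMod p) {A B : Matrix J J (MonoidAlgebra R G)} (hAB : A * B = 1) (hBA : B * A = 1)
    (hA : MSup2 (fun i j =>
      {g | c i = c j ∧ |dg (c i) g| ≤ ε ∧ θ i = θ j + (dg (c i) g : ZMod p)}) A)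
    (hB : MSup2 (fun i j =>
      {g | c i = c j ∧ |dg (c i) g| ≤ ε ∧ θ i = θ j + (dg (c i) g : ZMod p)}) B) : T A := by
  have key : ∀ Z : Matrix J J (MonoidAlgebra R G), MSup2 (fun i j =>
      {g | c i = c j ∧ |dg (c i) g| ≤ ε ∧ θ i = θ j + (dg (c i) g : ZMod p)}) Z → ∀ y,
      proj _ c y * Z = Z * proj _ c y ∧
        MSup2 (fun i j => {g | |dg y g| ≤ ε ∧ θ i = θ j + (dg y g : ZMod p)})
          (1 - proj _ c y + proj _ c y * Z) := by
    intro Z hZ y
    have h1 : ∀ i, (1 : G) ∈ {g | |dg y g| ≤ ε ∧ θ i = θ i + (dg y g : ZMod p)} := fun i => by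
      simp [dg_one (dg y) (hadd y)]
    refine ⟨proj_comm c (fun i j h => (hZ i j).eq_zero (hZ i j) fun g hg _ => h hg.1) y,
      ((msup2_one h1).sub (msup2_diagonal fun i => ?_)).add fun i j => ?_⟩
    · split_ifs
      · exact sup_one (h1 i)
      · exact sup_zero _
    · rw [proj_mul_apply]
      split_ifs with h
      · exact (hZ i j).mono fun g hg => h ▸ hg.2
      · exact sup_zero _
  refine (stdTS R G).of_blocks c (fun y => (key A hA y).1) fun y => ?_
  exact T_ctrl (dg y) (hadd y) (N y) (hN y) (hQ y) p ε hp hε θ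
    (ZCsl_inv (proj_mul_self c y) hAB (key A hA y).1)
    (ZCsl_inv (proj_mul_self c y) hBA (key B hB y).1) (key A hA y).2 (key B hB y).2

end Pool.Agent.MP_f7db47_al.PT

end

section

/-!
The Farrell-Hsiang step for a group over the plane lattice.
-/

namespace Pool.Agent.MP_f7db47_al.PT

universe u v w

variable {R : Type v} [Ring R] {G : Type u} [Group G]

/-- The kernel of an additive degree. -/
def ZFH_ker (dg : G → ℤ) (hadd : ∀ a b, dg (a * b) = dg a + dg b) : Subgroup G where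
  carrier := {g | dg g = 0}
  mul_mem' := fun {a b} ha hb => by
    change dg (a * b) = 0
    rw [hadd, show dg a = 0 from ha, show dg b = 0 from hb, add_zero]
  one_mem' := dg_one dg hadd
  inv_mem' := fun {a} ha => by
    change dg a⁻¹ = 0
    rw [dg_inv dg hadd, show dg a = 0 from ha, neg_zero]

lemma ZFH_linF_add {p : ℕ} (k : Option (ZMod p)) (x y : ZMod p × ZMod p) :
    linF k (x + y) = linF k x + linF k y := by
  cases k with
  | none => rfl
  | some a =>
    simp only [linF, Option.elim, Prod.fst_add, Prod.snd_add]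
    ring

/-- Translations of the plane. -/
def ZFH_sig {p : ℕ} (c : G → ZMod p × ZMod p) (hc : ∀ a b, c (a * b) = c a + c b) :
    G →* Equiv.Perm (ZMod p × ZMod p) :=
  MonoidHom.mk' (fun g => Equiv.addRight (c g)) fun a b => Equiv.ext fun x => by
    change x + c (a * b) = x + c b + c a
    rw [hc]
    abel

/-- Translations of the lines of the plane. -/
def ZFH_tau {p : ℕ} (c : G → ZMod p × ZMod p) (hc : ∀ a b, c (a * b) = c a + c b) :
    G →* Equiv.Perm (Option (ZMod p) × ZMod p) :=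
  MonoidHom.mk' (fun g => Equiv.prodCongrRight fun k => Equiv.addRight (linF k (c g)))
    fun a b => Equiv.ext fun x => by
      change (x.1, x.2 + linF x.1 (c (a * b))) = (x.1, x.2 + linF x.1 (c b) + linF x.1 (c a))
      rw [hc, ZFH_linF_add]
      congr 1
      abel

lemma ZFH_sup {X J : Type} (σ : G →* Equiv.Perm X) {S : Set G}
    {A : Matrix J J (MonoidAlgebra R G)} (hA : MSup S A) {S' : J × X → J × X → Set G}
    (h : ∀ (x y : J × X) (g : G), g ∈ S → σ g y.2 = x.2 → g ∈ S' x y) :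
    MSup2 S' (permM σ A) := fun x y g hg =>
  h x y g ((hA x.1 y.1).pr g hg) (sup_pr {g | σ g y.2 = x.2} _ g hg)

lemma ZFH_inv {X J : Type} [Fintype X] [DecidableEq X] [Fintype J] [DecidableEq J]
    (σ : G →* Equiv.Perm X) {A B : Matrix J J (MonoidAlgebra R G)} (h : A * B = 1) :
    permM σ A * permM σ B = 1 := by
  rw [permM_mul, h, permM_one]

lemma ZFH_prime (φ₀ φ₁ : G → ℤ) (h₀ : ∀ a b, φ₀ (a * b) = φ₀ a + φ₀ b)
    (h₁ : ∀ a b, φ₁ (a * b) = φ₁ a + φ₁ b)
    (hQ : ∀ a b : ℤ, (a ≠ 0 ∨ b ≠ 0) → ∀ N : Subgroup G,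
      (∀ g, g ∈ N ↔ a * φ₀ g + b * φ₁ g = 0) → QQ R N)
    {W : Type w} [AddCommGroup W] (E : WhS R G W) {J : Type} [Fintype J] [DecidableEq J]
    {A B : Matrix J J (MonoidAlgebra R G)} (hAB : A * B = 1) (hBA : B * A = 1) (D : ℕ)
    (hA : MSup {g | |φ₀ g| ≤ D ∧ |φ₁ g| ≤ D} A) (hB : MSup {g | |φ₀ g| ≤ D ∧ |φ₁ g| ≤ D} B)
    (p : ℕ) (hp : p.Prime) (hD : 4 * D < Nat.sqrt p) : p • E.cls A = 0 := by
  have : Fact p.Prime := ⟨hp⟩
  have hsq : Nat.sqrt p * Nat.sqrt p ≤ p := Nat.sqrt_le p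
  have hsp : Nat.sqrt p ≤ p := Nat.sqrt_le_self p
  set c : G → ZMod p × ZMod p := fun g => ((φ₀ g : ZMod p), (φ₁ g : ZMod p)) with hcdef
  have hc : ∀ a b, c (a * b) = c a + c b := fun a b => by
    simp only [hcdef, h₀, h₁, Int.cast_add, Prod.mk_add_mk]
  have hu : IsUnit A := ⟨⟨A, B, hAB, hBA⟩, rfl⟩
  obtain ⟨f, n, Kf, hf, he, h0, hanti, hstep, hn⟩ := exists_radon p
  have key := cls_perm E (ZFH_sig c hc) (ZFH_tau c hc) f hf (fun g F => he (c g) F) n Kf h0 hanti
    (fun j g F hF => hstep j (c g) F hF) hn hu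
  have hT1 : T (permM (ZFH_sig c hc) A) := by
    have hs : ∀ (x y : J × (ZMod p × ZMod p)) (g : G), g ∈ {g | |φ₀ g| ≤ D ∧ |φ₁ g| ≤ D} →
        ZFH_sig c hc g y.2 = x.2 →
        g ∈ {g | |φ₁ g| ≤ D ∧ x.2.2 = y.2.2 + (φ₁ g : ZMod p)} := by
      intro x y g hg hσ
      exact ⟨hg.2, (congrArg Prod.snd hσ).symm⟩
    exact T_ctrl φ₁ h₁ (ZFH_ker φ₁ h₁) (fun _ => Iff.rfl)
      (hQ 0 1 (Or.inr one_ne_zero) _ fun g => by
        rw [zero_mul, one_mul, zero_add]
        rfl) p D hp (by omega) (fun x : J × (ZMod p × ZMod p) => x.2.2)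
      (ZFH_inv _ hAB) (ZFH_inv _ hBA) (ZFH_sup _ hA hs) (ZFH_sup _ hB hs)
  have hT2 : T (permM (ZFH_tau c hc) A) := by
    choose a b e hab ha hb hlin using exists_thue p
    have hadd : ∀ k x y, a k * φ₀ (x * y) + b k * φ₁ (x * y) =
        a k * φ₀ x + b k * φ₁ x + (a k * φ₀ y + b k * φ₁ y) := fun k x y => by
      rw [h₀, h₁]
      ring
    have hs : ∀ (x y : J × (Option (ZMod p) × ZMod p)) (g : G),
        g ∈ {g | |φ₀ g| ≤ D ∧ |φ₁ g| ≤ D} → ZFH_tau c hc g y.2 = x.2 →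
        g ∈ {g | x.2.1 = y.2.1 ∧
          |a x.2.1 * φ₀ g + b x.2.1 * φ₁ g| ≤ (2 * Nat.sqrt p * D : ℕ) ∧
          e x.2.1 * x.2.2 = e y.2.1 * y.2.2 +
            ((a x.2.1 * φ₀ g + b x.2.1 * φ₁ g : ℤ) : ZMod p)} := by
      intro x y g hg hτ
      have e1 : y.2.1 = x.2.1 := (congrArg Prod.fst hτ :)
      have e2 : y.2.2 + linF y.2.1 (c g) = x.2.2 := congrArg Prod.snd hτ
      refine ⟨e1.symm, ?_, ?_⟩
      · have t1 : |a x.2.1 * φ₀ g| ≤ Nat.sqrt p * D := by
          rw [abs_mul]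
          exact mul_le_mul (ha _) hg.1 (abs_nonneg _) (Nat.cast_nonneg _)
        have t2 : |b x.2.1 * φ₁ g| ≤ Nat.sqrt p * D := by
          rw [abs_mul]
          exact mul_le_mul (hb _) hg.2 (abs_nonneg _) (Nat.cast_nonneg _)
        have t3 := abs_add_le (a x.2.1 * φ₀ g) (b x.2.1 * φ₁ g)
        push_cast
        linarith
      · rw [← e2, e1, mul_add, hlin]
        push_cast
        rfl
    exact T_ctrl' (fun k g => a k * φ₀ g + b k * φ₁ g) hadd
      (fun k => ZFH_ker (fun g => a k * φ₀ g + b k * φ₁ g) (hadd k)) (fun _ _ => Iff.rfl)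
      (fun k => hQ (a k) (b k) (hab k) _ fun _ => Iff.rfl) p (2 * Nat.sqrt p * D) hp
      (by nlinarith) (fun x : J × (Option (ZMod p) × ZMod p) => x.2.1)
      (fun x => e x.2.1 * x.2.2)
      (ZFH_inv _ hAB) (ZFH_inv _ hBA) (ZFH_sup _ hA hs) (ZFH_sup _ hB hs)
  rw [(E.zero_iff hT1.isUnit).2 hT1, (E.zero_iff hT2.isUnit).2 hT2, zero_add, zero_add,
    Fintype.card_prod, Fintype.card_prod, Fintype.card_option, ZMod.card, add_mul, one_mul,
    add_nsmul] at key
  exact add_eq_left.1 key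

theorem g1_FH (φ₀ φ₁ : G → ℤ) (h₀ : ∀ a b, φ₀ (a * b) = φ₀ a + φ₀ b)
    (h₁ : ∀ a b, φ₁ (a * b) = φ₁ a + φ₁ b)
    (hQ : ∀ a b : ℤ, (a ≠ 0 ∨ b ≠ 0) → ∀ N : Subgroup G,
      (∀ g, g ∈ N ↔ a * φ₀ g + b * φ₁ g = 0) → QQ R N) : G1 R G := by
  classical
  intro J _ _ A B hAB hBA
  obtain ⟨s, hs, -⟩ := exists_finset_msup A
  obtain ⟨t, ht, -⟩ := exists_finset_msup B
  obtain ⟨W, _, ⟨E⟩⟩ := exists_WhS R G
  set D : ℕ := (s ∪ t).sup fun g => (φ₀ g).natAbs + (φ₁ g).natAbs with hD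
  have hsub : ((s ∪ t : Finset G) : Set G) ⊆ {g | |φ₀ g| ≤ D ∧ |φ₁ g| ≤ D} := by
    intro g hg
    have h1 : (φ₀ g).natAbs + (φ₁ g).natAbs ≤ D :=
      Finset.le_sup (f := fun g => (φ₀ g).natAbs + (φ₁ g).natAbs) hg
    refine ⟨?_, ?_⟩ <;> rw [Int.abs_eq_natAbs] <;> omega
  have hA := hs.mono ((Finset.coe_subset.2 Finset.subset_union_left).trans hsub)
  have hB := ht.mono ((Finset.coe_subset.2 Finset.subset_union_right).trans hsub)
  obtain ⟨p, hp1, hp⟩ := Nat.exists_infinite_primes ((4 * D + 1) ^ 2)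
  obtain ⟨q, hq1, hq⟩ := Nat.exists_infinite_primes (p + 1)
  have e1 := ZFH_prime φ₀ φ₁ h₀ h₁ hQ E hAB hBA D hA hB p hp (Nat.le_sqrt'.2 hp1)
  have e2 := ZFH_prime φ₀ φ₁ h₀ h₁ hQ E hAB hBA D hA hB q hq (Nat.le_sqrt'.2 (hp1.trans (by omega)))
  have hco : Nat.gcd p q = 1 := (Nat.coprime_primes hp hq).2 (by omega)
  have hdv := Nat.dvd_gcd (addOrderOf_dvd_of_nsmul_eq_zero e1) (addOrderOf_dvd_of_nsmul_eq_zero e2)
  rw [hco, Nat.dvd_one, AddMonoid.addOrderOf_eq_one_iff] at hdv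
  exact (E.zero_iff ⟨⟨A, B, hAB, hBA⟩, rfl⟩).1 hdv

end Pool.Agent.MP_f7db47_al.PT

end

section

/-!
Groups over torsion-free abelian groups.
-/

namespace Pool.Agent.MP_f7db47_al.PT

universe v

variable {R : Type v} [Ring R]

theorem ZAbq_top {G : Type} [Group G] (h : QQ R (⊤ : Subgroup G)) : QQ R G :=
  h.sub (Subgroup.topEquiv (G := G)).symm.toMonoidHom (Subgroup.topEquiv (G := G)).symm.injective

theorem ZAbq_res {G Q Q' : Type} [Group G] [Group Q] [Group Q'] (φ : G →* Q)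
    (h : ∀ (H : Subgroup G) (ψ : H →* Multiplicative ℤ),
      (∀ x : H, ψ x = 1 → φ x = 1) → QQ R H) (N : Subgroup G) (φ' : N →* Q')
    (hφ : ∀ x : N, φ' x = 1 → φ x = 1) (H : Subgroup N) (ψ : H →* Multiplicative ℤ)
    (hψ : ∀ x : H, ψ x = 1 → φ' x = 1) : QQ R H := by
  let e : H ≃* H.map N.subtype := H.equivMapOfInjective N.subtype N.subtype_injective
  refine (h (H.map N.subtype) (ψ.comp e.symm.toMonoidHom) fun x hx => ?_).sub
    e.toMonoidHom e.injective
  have h1 := hφ _ (hψ (e.symm x) hx)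
  have h2 : ((e (e.symm x) : H.map N.subtype) : G) = ((e.symm x : H) : N) := rfl
  rw [← h2, e.apply_symm_apply] at h1
  exact h1

/-- Restriction to some of the coordinates. -/
def ZAbq_co {ι κ : Type} (j : κ → ι) : Multiplicative (ι → ℤ) →* Multiplicative (κ → ℤ) where
  toFun x := Multiplicative.ofAdd fun k => x.toAdd (j k)
  map_one' := rfl
  map_mul' _ _ := rfl

/-- One coordinate. -/
def ZAbq_ev {ι : Type} (i : ι) : Multiplicative (ι → ℤ) →* Multiplicative ℤ where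
  toFun x := Multiplicative.ofAdd (x.toAdd i)
  map_one' := rfl
  map_mul' _ _ := rfl

theorem ZAbq_core : ∀ (r : ℕ) (G : Type) [Group G] (φ : G →* Multiplicative (Fin r → ℤ)),
    (∀ (H : Subgroup G) (ψ : H →* Multiplicative ℤ),
      (∀ x : H, ψ x = 1 → φ x = 1) → QQ R H) → QQ R G
  | 0, G, _, φ, h => ZAbq_top (h ⊤ 1 fun _ _ => Subsingleton.elim _ _)
  | 1, G, _, φ, h => by
    refine ZAbq_top (h ⊤ (((ZAbq_ev 0).comp φ).comp (Subgroup.subtype _)) fun x hx => ?_)
    refine Multiplicative.toAdd.injective (funext fun i => ?_)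
    rw [Subsingleton.elim i 0]
    exact congrArg Multiplicative.toAdd hx
  | r + 2, G, _, φ, h => by
    intro P _ hP Δ _ f hf
    refine g1_FH (fun δ => (φ (f δ).1).toAdd 0) (fun δ => (φ (f δ).1).toAdd 1)
      (fun a b => by simp) (fun a b => by simp) fun a b hab N hN => ?_
    let N₀ : Subgroup G :=
      { carrier := {g | a * (φ g).toAdd 0 + b * (φ g).toAdd 1 = 0}
        one_mem' := by simp
        mul_mem' := fun {x y} hx hy => by
          simp only [Set.mem_ofPred_eq, map_mul, toAdd_mul, Pi.add_apply] at hx hy ⊢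
          linear_combination hx + hy
        inv_mem' := fun {x} hx => by
          simp only [Set.mem_ofPred_eq, map_inv, toAdd_inv, Pi.neg_apply] at hx ⊢
          linear_combination -hx }
    refine Ab_le hP f hf N₀ ?_ N fun x hx => (hN x).1 hx
    have key : ∀ i : Fin (r + 2), (∀ x : N₀, (∀ k : Fin (r + 1), (φ x).toAdd (i.succAbove k) = 0) →
        (φ x).toAdd i = 0) → QQ R N₀ := by
      intro i hi
      refine ZAbq_core (r + 1) N₀ (((ZAbq_co i.succAbove).comp φ).comp N₀.subtype)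
        (ZAbq_res φ h N₀ _ fun x hx => ?_)
      have h1 : ∀ k : Fin (r + 1), (φ x).toAdd (i.succAbove k) = 0 := fun k =>
        congrFun (congrArg Multiplicative.toAdd hx) k
      refine Multiplicative.toAdd.injective (funext fun j => ?_)
      rcases Fin.eq_self_or_eq_succAbove i j with rfl | ⟨k, rfl⟩
      · exact hi x h1
      · exact h1 k
    by_cases ha : a = 0
    · refine key 1 fun x _ => ?_
      have hx : a * (φ x).toAdd 0 + b * (φ x).toAdd 1 = 0 := x.2
      rw [ha, zero_mul, zero_add] at hx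
      exact (mul_eq_zero.1 hx).resolve_left (hab.resolve_left fun h => h ha)
    · refine key 0 fun x h1 => ?_
      have hx : a * (φ x).toAdd 0 + b * (φ x).toAdd 1 = 0 := x.2
      have h2 : (φ x).toAdd 1 = 0 := h1 0
      rw [h2, mul_zero, add_zero] at hx
      exact (mul_eq_zero.1 hx).resolve_left ha

theorem ZAbq_emb {K : Type} [CommGroup K] [Group.FG K] (ht : ∀ g : K, IsOfFinOrder g → g = 1) :
    ∃ (r : ℕ) (e : K →* Multiplicative (Fin r → ℤ)), Function.Injective e := by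
  have : Module.Finite ℤ (Additive K) := Module.Finite.iff_addGroup_fg.2 inferInstance
  have : IsMulTorsionFree K := isMulTorsionFree_iff_not_isOfFinOrder.2 fun g hg h => hg (ht g h)
  have : Module.Free ℤ (Additive K) := Module.free_of_finite_type_torsion_free'
  let e := (Module.finBasis ℤ (Additive K)).equivFun
  exact ⟨_, AddMonoidHom.toMultiplicativeRight e.toAddEquiv.toAddMonoidHom, e.injective⟩

theorem qq_abq' {G Q : Type} [Group G] [CommGroup Q] (hQ : ∀ q : Q, IsOfFinOrder q → q = 1)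
    (φ : G →* Q) (h : ∀ (H : Subgroup G) (ψ : H →* Multiplicative ℤ),
      (∀ x : H, ψ x = 1 → φ x = 1) → QQ R H) : QQ R G := by
  refine qq_loc fun K hK => ?_
  have : Group.FG K := (Group.fg_iff_subgroup_fg K).2 hK
  let χ : K →* Q := φ.comp K.subtype
  have : Group.FG χ.range := Group.fg_range χ
  obtain ⟨r, e, he⟩ := ZAbq_emb (K := χ.range) fun g hg =>
    Subtype.ext (hQ g (χ.range.subtype.isOfFinOrder hg))
  refine ZAbq_core r K (e.comp χ.rangeRestrict) (ZAbq_res φ h K _ fun x hx => ?_)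
  have h1 : χ.rangeRestrict x = 1 := he (hx.trans (map_one e).symm)
  exact congrArg Subtype.val h1

theorem qq_abq {G Q : Type} [Group G] [CommGroup Q] (hQ : ∀ q : Q, IsOfFinOrder q → q = 1)
    (φ : G →* Q) (h : ∀ H : Subgroup G, IsCyclic (H.map φ) → QQ R H) : QQ R G := by
  refine qq_abq' hQ φ fun H ψ hψ => h H ?_
  have : IsCyclic ψ.range := Subgroup.isCyclic _
  obtain ⟨⟨_, x, rfl⟩, hx⟩ := IsCyclic.exists_generator (α := ψ.range)
  refine ⟨⟨⟨φ x, x, x.2, rfl⟩, ?_⟩⟩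
  rintro ⟨_, y, hy, rfl⟩
  obtain ⟨n, hn⟩ := hx ⟨ψ ⟨y, hy⟩, ⟨y, hy⟩, rfl⟩
  have h1 : ψ x ^ n = ψ ⟨y, hy⟩ := congrArg Subtype.val hn
  have h2 := hψ (x ^ n * ⟨y, hy⟩⁻¹) (by rw [map_mul, map_zpow, map_inv, h1, mul_inv_cancel])
  refine ⟨n, Subtype.ext ?_⟩
  have h3 : φ x ^ n * (φ y)⁻¹ = 1 := by simpa using h2
  exact mul_inv_eq_one.1 h3

end Pool.Agent.MP_f7db47_al.PT

end

section

/-!
Linear groups over the rational numbers.
-/

namespace Pool.Agent.MP_f7db47_al.GF

open Matrix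

universe v

variable {R : Type v} [Ring R]

/-- Quasi-unipotent elements of a ring. -/
def BMainQ {A : Type} [Ring A] (x : A) : Prop := ∃ m : ℕ, 0 < m ∧ IsNilpotent (x ^ m - 1)

/-- The hypothesis of the induction. -/
def BMainHyp (R : Type v) [Ring R] {G A : Type} [Group G] [Ring A] (ρ : G →* A) : Prop :=
  ∀ (H : Type) [Group H] (j : H →* G), Function.Injective j → ∀ φ : H →* GN.MZ,
    (∀ g, φ g = 1 → BMainQ (ρ (j g))) → QQ R H

theorem BMain_comp {G H A : Type} [Group G] [Group H] [Ring A] {ρ : G →* A} (h : BMainHyp R ρ)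
    (j : H →* G) (hj : Function.Injective j) : BMainHyp R (ρ.comp j) :=
  fun K _ i hi φ hφ => h K (j.comp i) (hj.comp hi) φ hφ

theorem BMain_nil {A : Type} [Ring A] {x : A} (h : IsNilpotent (x - 1)) (k : ℕ) :
    IsNilpotent (x ^ k - 1) := by
  rw [← mul_geom_sum]
  refine Commute.isNilpotent_mul_right ?_ h
  exact Commute.sum_right _ _ _ fun i _ =>
    ((Commute.refl x).sub_left (Commute.one_left x)).pow_right i

theorem BMain_pw {V W : Type} [AddCommGroup V] [Module ℚ V] [AddCommGroup W] [Module ℚ W]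
    (i : V →ₗ[ℚ] W) (A : Module.End ℚ V) (B : Module.End ℚ W) (h : ∀ u, i (A u) = B (i u))
    (k : ℕ) : ∀ u, i ((A ^ k) u) = (B ^ k) (i u) := by
  induction k with
  | zero => intro u; simp
  | succ k ih => intro u; rw [pow_succ, pow_succ, Module.End.mul_apply, Module.End.mul_apply, ih, h]

theorem BMain_int {V W : Type} [AddCommGroup V] [Module ℚ V] [AddCommGroup W] [Module ℚ W]
    (i : V →ₗ[ℚ] W) (A : Module.End ℚ V) (B : Module.End ℚ W) (h : ∀ u, i (A u) = B (i u))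
    (m a : ℕ) : ∀ u, i (((A ^ m - 1) ^ a) u) = ((B ^ m - 1) ^ a) (i u) := by
  refine BMain_pw i _ _ (fun u => ?_) a
  rw [LinearMap.sub_apply, LinearMap.sub_apply, map_sub, BMain_pw i A B h]
  rfl

theorem BMain_blk {V : Type} [AddCommGroup V] [Module ℚ V] (W : Submodule ℚ V)
    (A : Module.End ℚ V) (A₁ : Module.End ℚ W) (A₂ : Module.End ℚ (V ⧸ W))
    (h₁ : ∀ u, W.subtype (A₁ u) = A (W.subtype u)) (h₂ : ∀ u, W.mkQ (A u) = A₂ (W.mkQ u))
    (q₁ : BMainQ A₁) (q₂ : BMainQ A₂) : BMainQ A := by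
  obtain ⟨m₁, p₁, n₁⟩ := q₁
  obtain ⟨m₂, p₂, n₂⟩ := q₂
  have n₃ := BMain_nil n₁ m₂
  have n₄ := BMain_nil n₂ m₁
  rw [← pow_mul] at n₃ n₄
  rw [mul_comm] at n₄
  obtain ⟨a, ha⟩ := n₃
  obtain ⟨b, hb⟩ := n₄
  refine ⟨m₁ * m₂, Nat.mul_pos p₁ p₂, a + b, LinearMap.ext fun u => ?_⟩
  have e₂ := BMain_int W.mkQ A A₂ h₂ (m₁ * m₂) b u
  rw [hb, LinearMap.zero_apply, Submodule.mkQ_apply, Submodule.Quotient.mk_eq_zero] at e₂
  have e₁ := BMain_int W.subtype A₁ A h₁ (m₁ * m₂) a ⟨_, e₂⟩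
  rw [ha, LinearMap.zero_apply, map_zero] at e₁
  rw [pow_add, Module.End.mul_apply]
  exact e₁.symm

theorem BMain_tf (q : GN.MZ × GN.MZ) (hq : IsOfFinOrder q) : q = 1 := by
  have h : ∀ z : GN.MZ, IsOfFinOrder z → z = 1 := fun z hz => by
    obtain ⟨k, hk, e⟩ := isOfFinOrder_iff_pow_eq_one.1 hz
    have e' := congrArg Multiplicative.toAdd e
    rw [toAdd_pow, toAdd_one, smul_eq_zero] at e'
    rcases e' with e' | e'
    · omega
    · exact e'
  exact Prod.ext (h _ ((MonoidHom.fst _ _).isOfFinOrder hq))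
    (h _ ((MonoidHom.snd _ _).isOfFinOrder hq))

theorem BMain_red {d : ℕ}
    (ih : ∀ (V : Type) [AddCommGroup V] [Module ℚ V] [FiniteDimensional ℚ V],
      Module.finrank ℚ V ≤ d → ∀ (G : Type) [Group G] (ρ : G →* Module.End ℚ V),
        BMainHyp R ρ → QQ R G)
    {V : Type} [AddCommGroup V] [Module ℚ V] [FiniteDimensional ℚ V]
    (hV : Module.finrank ℚ V ≤ d + 1) {H : Type} [Group H] (ρ : H →* Module.End ℚ V)
    (hρ : BMainHyp R ρ) (W : Submodule ℚ V) (hb : W ≠ ⊥) (ht : W ≠ ⊤)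
    (hW : ∀ g, W ≤ W.comap (ρ g)) : QQ R H := by
  have d₁ : Module.finrank ℚ W ≤ d := by
    have := Submodule.finrank_lt ht
    omega
  have d₂ : Module.finrank ℚ (V ⧸ W) ≤ d := by
    have h1 := W.finrank_quotient_add_finrank
    have h2 : Module.finrank ℚ W ≠ 0 := fun e => hb (Submodule.finrank_eq_zero.1 e)
    omega
  let ρ₁ : H →* Module.End ℚ W := Representation.subrepresentation ρ W hW
  let ρ₂ : H →* Module.End ℚ (V ⧸ W) := Representation.quotient ρ W hW
  refine ih W d₁ H ρ₁ fun H₁ _ j₁ i₁ φ₁ q₁ => ?_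
  refine ih (V ⧸ W) d₂ H₁ (ρ₂.comp j₁) fun H₂ _ j₂ i₂ φ₂ q₂ => ?_
  refine PT.qq_abq' BMain_tf ((φ₁.comp j₂).prod φ₂) fun H₃ ψ hψ => ?_
  refine hρ H₃ (j₁.comp (j₂.comp H₃.subtype)) (i₁.comp (i₂.comp H₃.subtype_injective)) ψ
    fun g hg => ?_
  have e := hψ g hg
  exact BMain_blk W _ (ρ₁ (j₁ (j₂ g))) (ρ₂ (j₁ (j₂ g))) (fun _ => rfl) (fun _ => rfl)
    (q₁ _ (congrArg Prod.fst e)) (q₂ _ (congrArg Prod.snd e))

theorem BMain_land {K : Type} [Group K] (hK : Group.FG K) {n : ℕ} (f : K →* GL (Fin n) ℚ) :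
    ∃ F : Finset ℚ, ∀ Z : Subring ℚ, (∀ a ∈ F, a ∈ Z) → ∀ g, f g ∈ GLZ Z (Fin n) := by
  classical
  obtain ⟨S, hS⟩ := hK.out
  refine ⟨(S ×ˢ (Finset.univ : Finset (Fin n × Fin n))).image (fun p => (f p.1).val p.2.1 p.2.2) ∪
    (S ×ˢ (Finset.univ : Finset (Fin n × Fin n))).image (fun p => (f p.1)⁻¹.val p.2.1 p.2.2),
    fun Z hZ g => ?_⟩
  have h : Subgroup.closure (S : Set K) ≤ (GLZ Z (Fin n)).comap f := by
    rw [Subgroup.closure_le]
    intro s hs
    refine ⟨fun i j => hZ _ (Finset.mem_union_left _ ?_),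
      fun i j => hZ _ (Finset.mem_union_right _ ?_)⟩
    · exact Finset.mem_image.2 ⟨(s, i, j), Finset.mem_product.2 ⟨hs, Finset.mem_univ _⟩, rfl⟩
    · exact Finset.mem_image.2 ⟨(s, i, j), Finset.mem_product.2 ⟨hs, Finset.mem_univ _⟩, rfl⟩
  rw [hS] at h
  exact h (Subgroup.mem_top g)

theorem BMain_ind (hF : FlowStmt R) (hP : PackStmt) (d : ℕ) :
    ∀ (V : Type) [AddCommGroup V] [Module ℚ V] [FiniteDimensional ℚ V],
      Module.finrank ℚ V ≤ d → ∀ (G : Type) [Group G] (ρ : G →* Module.End ℚ V),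
        BMainHyp R ρ → QQ R G := by
  have z : ∀ (V : Type) [AddCommGroup V] [Module ℚ V] [FiniteDimensional ℚ V],
      Module.finrank ℚ V = 0 → ∀ (G : Type) [Group G] (ρ : G →* Module.End ℚ V),
        BMainHyp R ρ → QQ R G := by
    intro V _ _ _ hV G _ ρ hρ
    have : Subsingleton V := Module.finrank_zero_iff.1 hV
    exact hρ G (MonoidHom.id G) Function.injective_id 1 fun g _ =>
      ⟨1, one_pos, 1, LinearMap.ext fun u => Subsingleton.elim _ _⟩
  induction d with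
  | zero => intro V _ _ _ hV; exact z V (Nat.le_zero.1 hV)
  | succ d ih =>
    intro V _ _ _ hV G _ ρ₀ hρ₀
    rcases Nat.eq_zero_or_pos (Module.finrank ℚ V) with h0 | h0
    · exact z V h0 G ρ₀ hρ₀
    obtain ⟨n, hn⟩ : ∃ n, Module.finrank ℚ V = n + 1 := ⟨_, (Nat.succ_pred_eq_of_pos h0).symm⟩
    refine PT.qq_loc fun K hK => ?_
    have hρ := BMain_comp hρ₀ K.subtype K.subtype_injective
    generalize ρ₀.comp K.subtype = ρ at hρ
    let b : Module.Basis (Fin (n + 1)) ℚ V := Module.finBasisOfFinrankEq ℚ V hn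
    let e := LinearMap.toMatrixAlgEquiv b
    let f₀ : K →* GL (Fin (n + 1)) ℚ :=
      ((e : Module.End ℚ V →* Matrix (Fin (n + 1)) (Fin (n + 1)) ℚ).comp ρ).toHomUnits
    have hf₀ : ∀ g, (f₀ g).val = e (ρ g) := fun g => rfl
    obtain ⟨F, hFZ⟩ := BMain_land ((Group.fg_iff_subgroup_fg K).2 hK) f₀
    obtain ⟨Z, hZ, hpk⟩ := hP n F
    let f : K →* GLZ Z (Fin (n + 1)) × GN.MZ := (f₀.codRestrict _ (hFZ Z hZ)).prod 1
    have hf : ∀ g, (f g).1.1.val = e (ρ g) := fun g => rfl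
    refine hF _ K _ hpk f (fun B φ hφ => ?_) (fun B hB => ?_)
    · let r : B.comap f →* B := (f.comp (B.comap f).subtype).codRestrict B fun g => g.2
      refine hρ _ (B.comap f).subtype (B.comap f).subtype_injective (φ.comp r) fun g hg => ?_
      obtain ⟨k, hk, ek⟩ := isOfFinOrder_iff_pow_eq_one.1 (hφ _ hg)
      have e1 : f (g.1 ^ k) = 1 := by
        rw [map_pow]
        exact congrArg Subtype.val ek
      have e2 : e (ρ (g.1 ^ k)) = e 1 := by
        rw [← hf, e1, map_one]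
        rfl
      refine ⟨k, hk, ?_⟩
      have e3 := e.injective e2
      rw [map_pow] at e3
      change IsNilpotent (ρ g.1 ^ k - 1)
      rw [e3, sub_self]
      exact IsNilpotent.zero
    · obtain ⟨W₀, hb, ht, hW⟩ := hB
      refine BMain_red ih hV (ρ.comp (B.comap f).subtype)
        (BMain_comp hρ _ (B.comap f).subtype_injective)
        (W₀.comap (b.equivFun : V →ₗ[ℚ] (Fin (n + 1) → ℚ))) ?_ ?_ ?_
      · intro h
        apply hb
        rw [eq_bot_iff] at h ⊢
        intro u hu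
        have : b.equivFun.symm u ∈ W₀.comap (b.equivFun : V →ₗ[ℚ] (Fin (n + 1) → ℚ)) := by
          change b.equivFun (b.equivFun.symm u) ∈ W₀
          rwa [LinearEquiv.apply_symm_apply]
        have h2 := h this
        rw [Submodule.mem_bot] at h2 ⊢
        exact b.equivFun.symm.map_eq_zero_iff.1 h2
      · intro h
        apply ht
        rw [eq_top_iff] at h ⊢
        intro u _
        have h2 : b.equivFun (b.equivFun.symm u) ∈ W₀ :=
          h (Submodule.mem_top (x := b.equivFun.symm u))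
        rwa [LinearEquiv.apply_symm_apply] at h2
      · intro g u hu
        have h1 := hW (f g.1) g.2 _ hu
        rw [hf] at h1
        have h2 : e (ρ g.1) *ᵥ b.repr u = b.repr (ρ g.1 u) :=
          LinearMap.toMatrix_mulVec_repr b b _ u
        change b.equivFun (ρ g.1 u) ∈ W₀
        rw [Module.Basis.equivFun_apply, ← h2]
        exact h1

theorem qq_glQ_of (hF : FlowStmt R) (hP : PackStmt) {G : Type} [Group G] {n : ℕ}
    (f : G →* GL (Fin n) ℚ)
    (h : ∀ (H : Subgroup G) (φ : H →* GN.MZ), (∀ g : H, φ g = 1 → QU (f g).val) → QQ R H) :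
    QQ R G := by
  let e : Matrix (Fin n) (Fin n) ℚ ≃ₐ[ℚ] Module.End ℚ (Fin n → ℚ) := Matrix.toLinAlgEquiv'
  let ρ : G →* Module.End ℚ (Fin n → ℚ) :=
    (e : Matrix (Fin n) (Fin n) ℚ →* Module.End ℚ (Fin n → ℚ)).comp ((Units.coeHom _).comp f)
  refine BMain_ind hF hP _ (Fin n → ℚ) le_rfl G ρ fun H _ j hj φ hφ => ?_
  let t := MonoidHom.ofInjective hj
  refine QQ.sub (h j.range (φ.comp t.symm.toMonoidHom) fun g hg => ?_) t.toMonoidHom t.injective
  obtain ⟨m, hm, hn⟩ := hφ _ hg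
  refine ⟨m, hm, ?_⟩
  have e1 : j (t.symm g) = g.1 := MonoidHom.apply_ofInjective_symm hj g
  have e2 : ρ (j (t.symm.toMonoidHom g)) ^ m - 1 = e ((f g).val ^ m - 1) := by
    rw [map_sub, map_pow, map_one]
    change e (f (j (t.symm g))).val ^ m - 1 = _
    rw [e1]
  rw [e2] at hn
  exact (IsNilpotent.map_iff e.injective).1 hn

end Pool.Agent.MP_f7db47_al.GF

end
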