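import Pool.Agent.MP_f7db47_al.TameDefs
import Mathlib

section

/-!
The class of groups used in the final statements.
-/

namespace Pool.Agent.MP_f7db47_al

universe v

/-- The class `G` for the ring `R`: groups of piecewise linear homeomorphisms of `[0,1]` without
infinite towers (in particular the trivial group), closed under subgroups, products with
poly-`ℤ` groups, directed unions and tame actions on trees. -/
inductive ClassG (R : Type v) [Ring R] : (G : Type) → [Group G] → Prop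
  | pl (G : Subgroup (Equiv.Perm ℝ)) (hPL : ∀ g ∈ G, IsPL g) (hG : NoInfiniteTower G) :
      ClassG R G
  | sub (G H : Type) [Group G] [Group H] (f : G →* H) (hf : Function.Injective f)
      (hH : ClassG R H) : ClassG R G
  | prod (G P : Type) [Group G] [Group P] (hG : ClassG R G) (hP : PolyZ P) : ClassG R (G × P)
  | loc (G : Type) [Group G] (h : ∀ K : Subgroup G, K.FG → ClassG R K) : ClassG R G
  | tree (G : Type) [Group G] (V : Type) [MulAction G V] (X : SimpleGraph V)
      (hX : TreeAction G X) (F Z : Set (Subgroup G)) (hT : TameTree G X F Z)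
      (hZ : ∀ K ∈ Z, ∀ (P : Type) [Group P], PolyZ P → ∀ L : Subgroup (K × P),
        RegularCoherent (MonoidAlgebra R L))
      (hV : ∀ v : V, ClassG R (MulAction.stabilizer G v)) (hF : ∀ H ∈ F, ClassG R H) :
      ClassG R G

end Pool.Agent.MP_f7db47_al

end

section

/-!
Generators for the relative statement.
-/

namespace Pool.Agent.MP_f7db47_al

universe u v

/-- Elementary matrices, matrices over the group ring of a member of `F`, and split matrices
`e A + (1 - e) B`: row `i` is labelled by an edge or vertex `(a i, b i)`, column `j` by a vertex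
`z j`; the idempotent `e` preserves the row labels, `A` carries `z j` to `a i` and `B` carries
`z j` to `b i`. -/
inductive RGen (R : Type v) [Ring R] (G : Type u) [Group G] {V : Type u} [MulAction G V]
    (X : SimpleGraph V) (F : Set (Subgroup G)) (ι : Type) [Fintype ι] [DecidableEq ι] :
    Matrix ι ι (MonoidAlgebra R G) → Prop
  | elem (i j : ι) (hij : i ≠ j) (c : MonoidAlgebra R G) :
      RGen R G X F ι (1 + Matrix.single i j c)
  | sub (H : Subgroup G) (hH : H ∈ F) (M : Matrix ι ι (MonoidAlgebra R G))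
      (hM : ∀ i j g, (M i j).coeff g ≠ 0 → g ∈ H) : RGen R G X F ι M
  | split (a b z : ι → V) (hab : ∀ i, a i = b i ∨ X.Adj (a i) (b i))
      (e A B : Matrix ι ι (MonoidAlgebra R G)) (he : e * e = e)
      (he' : ∀ i j g, (e i j).coeff g ≠ 0 → g • a j = a i ∧ g • b j = b i)
      (hA : ∀ i j g, (A i j).coeff g ≠ 0 → g • z j = a i)
      (hB : ∀ i j g, (B i j).coeff g ≠ 0 → g • z j = b i) :
      RGen R G X F ι (e * A + (1 - e) * B)

/-- Every invertible matrix over the group ring is, after stabilisation, a product of invertible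
generators and inverses of invertible generators. -/
def RelOnto (R : Type v) [Ring R] (G : Type u) [Group G] {V : Type u} [MulAction G V]
    (X : SimpleGraph V) (F : Set (Subgroup G)) : Prop :=
  ∀ (n : ℕ) (A B : Matrix (Fin n) (Fin n) (MonoidAlgebra R G)), A * B = 1 → B * A = 1 →
    ∃ m : ℕ, Matrix.fromBlocks A 0 0 (1 : Matrix (Fin m) (Fin m) (MonoidAlgebra R G)) ∈
      Submonoid.closure {M | ∃ N, M * N = 1 ∧ N * M = 1 ∧
        (RGen R G X F (Fin n ⊕ Fin m) M ∨ RGen R G X F (Fin n ⊕ Fin m) N)}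

end Pool.Agent.MP_f7db47_al

end

section

namespace Pool.Agent.MP_f7db47_al.PT

theorem GLa_sq {B : Type} [CommRing B] (M : Matrix (Fin 2) (Fin 2) B) :
    M * M = M.trace • M + (-M.det) • (1 : Matrix (Fin 2) (Fin 2) B) := by
  ext i j
  fin_cases i <;> fin_cases j <;>
    simp [Matrix.mul_apply, Fin.sum_univ_two, Matrix.trace_fin_two, Matrix.det_fin_two] <;> ring

theorem finOrder_of_integral (p : ℕ) [Fact p.Prime] (B : Type) [CommRing B] [Algebra (ZMod p) B]
    (g : GL (Fin 2) B) (h1 : IsIntegral (ZMod p) g.val.trace)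
    (h2 : IsIntegral (ZMod p) g.val.det) : IsOfFinOrder g := by
  set S := Algebra.adjoin (ZMod p) ({g.val.trace, g.val.det} : Set B) with hS
  have hfin : Module.Finite (ZMod p) S := by
    refine Algebra.finite_adjoin_of_finite_of_isIntegral (Set.toFinite _) ?_
    rintro x (rfl | rfl)
    · exact h1
    · exact h2
  have hF : Finite S := Module.finite_of_finite (ZMod p)
  have ht : g.val.trace ∈ S := Algebra.subset_adjoin (by simp)
  have hd : g.val.det ∈ S := Algebra.subset_adjoin (by simp)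
  have key : ∀ n : ℕ, ∃ a b : S, g.val ^ n = (a : B) • g.val + (b : B) • 1 := by
    intro n
    induction n with
    | zero => exact ⟨0, 1, by simp⟩
    | succ n ih =>
      obtain ⟨a, b, h⟩ := ih
      refine ⟨a * ⟨_, ht⟩ + b, -(a * ⟨_, hd⟩), ?_⟩
      rw [pow_succ, h, add_mul, smul_mul_assoc, smul_mul_assoc, one_mul, GLa_sq]
      simp only [MulMemClass.coe_mul, AddMemClass.coe_add, NegMemClass.coe_neg]
      module
  rw [← finite_powers]
  refine Set.Finite.of_finite_image (f := Units.val) ?_ Units.val_injective.injOn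
  refine (Set.finite_range fun c : S × S => (c.1 : B) • g.val + (c.2 : B) • 1).subset ?_
  rintro _ ⟨_, ⟨n, rfl⟩, rfl⟩
  obtain ⟨a, b, h⟩ := key n
  exact ⟨(a, b), by simpa using h.symm⟩

theorem GLa_dvd {C : Type} [CommRing C] (N : ℕ) (hN : 0 < N) (hC : (N : C) = 0) (x : C) (k : ℕ) :
    ∃ n : ℕ, 0 < n ∧ x ^ (k + 1) ∣ (1 + x) ^ n - 1 := by
  induction k with
  | zero => exact ⟨1, one_pos, by simp⟩
  | succ k ih =>
    obtain ⟨n, hn, w, h⟩ := ih
    refine ⟨n * N, Nat.mul_pos hn hN, ?_⟩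
    have h1 : (1 + x) ^ n = 1 + x ^ (k + 1) * w := by rw [← h]; ring
    have h2 := sq_dvd_add_pow_sub_sub (x ^ (k + 1) * w) 1 N
    rw [hC, mul_zero, sub_zero, one_pow] at h2
    rw [pow_mul, h1]
    exact Dvd.dvd.trans ⟨x ^ k * w ^ 2, by ring⟩ h2

theorem finOrder_of_nil (A : Type) [CommRing A] (N : ℕ) (hN : 0 < N) (hA : (N : A) = 0)
    (g : GL (Fin 2) A) (h : ∀ i j, IsNilpotent ((g.val - 1) i j)) : IsOfFinOrder g := by
  set X := g.val - 1 with hX
  have ht : IsNilpotent X.trace := by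
    rw [Matrix.trace_fin_two]
    exact (Commute.all _ _).isNilpotent_add (h 0 0) (h 1 1)
  have hd : IsNilpotent (-X.det) := by
    rw [Matrix.det_fin_two]
    exact ((Commute.all _ _).isNilpotent_sub ((Commute.all _ _).isNilpotent_mul_right (h 0 0))
      ((Commute.all _ _).isNilpotent_mul_right (h 0 1))).neg
  have hs : ∀ (c : A) (M : Matrix (Fin 2) (Fin 2) A), IsNilpotent c → IsNilpotent (c • M) := by
    rintro c M ⟨n, hn⟩
    exact ⟨n, by rw [smul_pow, hn, zero_smul]⟩
  have h2 : IsNilpotent (X ^ 2) := by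
    rw [sq, GLa_sq]
    exact ((Commute.one_right X).smul_left _ |>.smul_right _).isNilpotent_add (hs _ _ ht)
      (hs _ _ hd)
  obtain ⟨k, hk⟩ := h2.of_pow
  have hC : (N : Polynomial A) = 0 := by rw [← Polynomial.C_eq_natCast, hA, map_zero]
  obtain ⟨n, hn, w, hw⟩ := GLa_dvd N hN hC Polynomial.X k
  have h3 := congrArg (Polynomial.aeval X) hw
  simp only [map_sub, map_pow, map_add, map_one, map_mul, Polynomial.aeval_X] at h3
  rw [pow_succ, hk, zero_mul, zero_mul, hX, add_sub_cancel, sub_eq_zero] at h3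
  exact isOfFinOrder_iff_pow_eq_one.2 ⟨n, hn, Units.ext (by simpa using h3)⟩

/-- The invertible matrices defined over a subring. -/
def GLa_sub {A : Type} [CommRing A] (A₀ : Subring A) : Subgroup (GL (Fin 2) A) where
  carrier := {g | (∀ i j, g.val i j ∈ A₀) ∧ ∀ i j, (g⁻¹).val i j ∈ A₀}
  one_mem' := by
    have : ∀ i j : Fin 2, (1 : Matrix (Fin 2) (Fin 2) A) i j ∈ A₀ := fun i j => by
      rw [Matrix.one_apply]
      split_ifs
      · exact A₀.one_mem
      · exact A₀.zero_mem
    exact ⟨this, by simpa using this⟩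
  mul_mem' := by
    rintro a b ⟨h1, h2⟩ ⟨h3, h4⟩
    refine ⟨fun i j => ?_, fun i j => ?_⟩
    · rw [Units.val_mul, Matrix.mul_apply]
      exact A₀.sum_mem fun l _ => A₀.mul_mem (h1 _ _) (h3 _ _)
    · rw [mul_inv_rev, Units.val_mul, Matrix.mul_apply]
      exact A₀.sum_mem fun l _ => A₀.mul_mem (h4 _ _) (h2 _ _)
  inv_mem' := by
    rintro a ⟨h1, h2⟩
    exact ⟨h2, by rw [inv_inv]; exact h1⟩

theorem GLa_inj {A : Type} [CommRing A] (A₀ : Subring A) :
    Function.Injective (Matrix.GeneralLinearGroup.map (n := Fin 2) A₀.subtype) := by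
  intro a b h
  refine Units.ext (Matrix.ext fun i j => Subtype.ext ?_)
  exact congrArg (fun g : GL (Fin 2) A => g.val i j) h

theorem GLa_range {A : Type} [CommRing A] (A₀ : Subring A) (g : GL (Fin 2) A)
    (hg : g ∈ GLa_sub A₀) :
    g ∈ (Matrix.GeneralLinearGroup.map (n := Fin 2) A₀.subtype).range := by
  have hi : Function.Injective (A₀.subtype.mapMatrix (m := Fin 2)) := fun a b h =>
    Matrix.ext fun i j => Subtype.ext (congrArg (fun M : Matrix (Fin 2) (Fin 2) A => M i j) h)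
  let M : Matrix (Fin 2) (Fin 2) A₀ := fun i j => ⟨_, hg.1 i j⟩
  let M' : Matrix (Fin 2) (Fin 2) A₀ := fun i j => ⟨_, hg.2 i j⟩
  have e1 : A₀.subtype.mapMatrix M = g.val := rfl
  have e2 : A₀.subtype.mapMatrix M' = (g⁻¹).val := rfl
  refine ⟨⟨M, M', hi ?_, hi ?_⟩, Units.ext e1⟩
  · rw [map_mul, map_one, e1, e2, Units.mul_inv]
  · rw [map_mul, map_one, e1, e2, Units.inv_mul]

theorem exists_fg_subring {K : Type} [Group K] (hK : Group.FG K) (A : Type) [CommRing A]
    (f : K →* GL (Fin 2) A) :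
    ∃ (A₀ : Subring A) (f₀ : K →* GL (Fin 2) A₀), Algebra.FiniteType ℤ A₀ ∧
      ∀ g, Matrix.GeneralLinearGroup.map A₀.subtype (f₀ g) = f g := by
  obtain ⟨S, hS, hfin⟩ := Group.fg_iff.1 hK
  have := hfin.to_subtype
  let T : Set A := Set.range (fun c : S × Fin 2 × Fin 2 => (f c.1).val c.2.1 c.2.2) ∪
    Set.range (fun c : S × Fin 2 × Fin 2 => ((f c.1)⁻¹).val c.2.1 c.2.2)
  have hT : T.Finite := (Set.finite_range _).union (Set.finite_range _)
  let A₀ : Subring A := (Algebra.adjoin ℤ T).toSubring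
  have hmem : ∀ g, f g ∈ GLa_sub A₀ := by
    have : (⊤ : Subgroup K) ≤ (GLa_sub A₀).comap f := by
      rw [← hS, Subgroup.closure_le]
      intro s hs
      exact ⟨fun i j => Algebra.subset_adjoin (Or.inl ⟨(⟨s, hs⟩, i, j), rfl⟩),
        fun i j => Algebra.subset_adjoin (Or.inr ⟨(⟨s, hs⟩, i, j), rfl⟩)⟩
    exact fun g => this (Subgroup.mem_top g)
  let e := MonoidHom.ofInjective (GLa_inj A₀)
  refine ⟨A₀, e.symm.toMonoidHom.comp (f.codRestrict _ fun g => GLa_range A₀ _ (hmem g)), ?_,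
    fun g => ?_⟩
  · have h1 : (Algebra.adjoin ℤ T).FG := ⟨hT.toFinset, by simp⟩
    have h2 := (Subalgebra.fg_iff_finiteType _).1 h1
    exact h2
  · exact congrArg Subtype.val (e.apply_symm_apply ⟨f g, GLa_range A₀ _ (hmem g)⟩)

end Pool.Agent.MP_f7db47_al.PT

end

section

/-!
Elements of finite order in general linear groups.
-/

namespace Pool.Agent.MP_f7db47_al.GN

theorem GA_nil {A : Type} [CommRing A] {n : ℕ} (X : Matrix (Fin n) (Fin n) A)
    (h : ∀ i j, IsNilpotent (X i j)) : IsNilpotent X := by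
  let I : Ideal A := Ideal.span (Set.range fun c : Fin n × Fin n => X c.1 c.2)
  have h1 : I.FG := Submodule.fg_span (Set.finite_range _)
  obtain ⟨k, hk⟩ := h1.isNilpotent_iff_le_nilradical.2 (Ideal.span_le.2 (by
    rintro _ ⟨c, rfl⟩
    exact h c.1 c.2))
  have h2 : ∀ m i j, (X ^ m) i j ∈ I ^ m := by
    intro m
    induction m with
    | zero => intro i j; simp
    | succ m ih =>
      intro i j
      rw [pow_succ, pow_succ, Matrix.mul_apply]
      exact Ideal.sum_mem _ fun l _ =>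
        Ideal.mul_mem_mul (ih i l) (Ideal.subset_span ⟨(l, j), rfl⟩)
  refine ⟨k, Matrix.ext fun i j => ?_⟩
  have h3 := h2 k i j
  rw [hk] at h3
  exact h3

/-- The invertible matrices defined over a subring. -/
def GA_sub {A : Type} [CommRing A] (n : ℕ) (A₀ : Subring A) : Subgroup (GL (Fin n) A) where
  carrier := {g | (∀ i j, g.val i j ∈ A₀) ∧ ∀ i j, (g⁻¹).val i j ∈ A₀}
  one_mem' := by
    have : ∀ i j : Fin n, (1 : Matrix (Fin n) (Fin n) A) i j ∈ A₀ := fun i j => by
      rw [Matrix.one_apply]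
      split_ifs
      · exact A₀.one_mem
      · exact A₀.zero_mem
    exact ⟨this, by simpa using this⟩
  mul_mem' := by
    rintro a b ⟨h1, h2⟩ ⟨h3, h4⟩
    refine ⟨fun i j => ?_, fun i j => ?_⟩
    · rw [Units.val_mul, Matrix.mul_apply]
      exact A₀.sum_mem fun l _ => A₀.mul_mem (h1 _ _) (h3 _ _)
    · rw [mul_inv_rev, Units.val_mul, Matrix.mul_apply]
      exact A₀.sum_mem fun l _ => A₀.mul_mem (h4 _ _) (h2 _ _)
  inv_mem' := by
    rintro a ⟨h1, h2⟩
    exact ⟨h2, by rw [inv_inv]; exact h1⟩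

theorem GA_inj {A : Type} [CommRing A] (n : ℕ) (A₀ : Subring A) :
    Function.Injective (Matrix.GeneralLinearGroup.map (n := Fin n) A₀.subtype) := by
  intro a b h
  refine Units.ext (Matrix.ext fun i j => Subtype.ext ?_)
  exact congrArg (fun g : GL (Fin n) A => g.val i j) h

theorem GA_range {A : Type} [CommRing A] {n : ℕ} (A₀ : Subring A) (g : GL (Fin n) A)
    (hg : g ∈ GA_sub n A₀) :
    g ∈ (Matrix.GeneralLinearGroup.map (n := Fin n) A₀.subtype).range := by
  have hi : Function.Injective (A₀.subtype.mapMatrix (m := Fin n)) := fun a b h =>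
    Matrix.ext fun i j => Subtype.ext (congrArg (fun M : Matrix (Fin n) (Fin n) A => M i j) h)
  let M : Matrix (Fin n) (Fin n) A₀ := fun i j => ⟨_, hg.1 i j⟩
  let M' : Matrix (Fin n) (Fin n) A₀ := fun i j => ⟨_, hg.2 i j⟩
  have e1 : A₀.subtype.mapMatrix M = g.val := rfl
  have e2 : A₀.subtype.mapMatrix M' = (g⁻¹).val := rfl
  refine ⟨⟨M, M', hi ?_, hi ?_⟩, Units.ext e1⟩
  · rw [map_mul, map_one, e1, e2, Units.mul_inv]
  · rw [map_mul, map_one, e1, e2, Units.inv_mul]

theorem finOrder_of_integral (p : ℕ) [Fact p.Prime] (B : Type) [CommRing B] [Algebra (ZMod p) B]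
    (n : ℕ) (g : GL (Fin n) B) (h : ∀ i, IsIntegral (ZMod p) (g.val.charpoly.coeff i)) :
    IsOfFinOrder g := by
  let S := Algebra.adjoin (ZMod p) (g.val.charpoly.coeffs : Set B)
  have hfin : Module.Finite (ZMod p) S := by
    refine Algebra.finite_adjoin_of_finite_of_isIntegral (Finset.finite_toSet _) fun x hx => ?_
    obtain ⟨i, -, rfl⟩ := Polynomial.mem_coeffs_iff.1 hx
    exact h i
  have hF : Finite S := Module.finite_of_finite (ZMod p)
  obtain ⟨q, h1, -, h2⟩ := Polynomial.lifts_and_natDegree_eq_and_monic (f := algebraMap S B)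
    ((Polynomial.lifts_iff_coeffs_subset_range _).2 fun x hx =>
      ⟨⟨x, Algebra.subset_adjoin hx⟩, rfl⟩) g.val.charpoly_monic
  have h3 : IsIntegral S g.val := ⟨q, h2, by
    rw [← Polynomial.aeval_def, ← Polynomial.aeval_map_algebraMap B, h1,
      Matrix.aeval_self_charpoly]⟩
  have h4 : Module.Finite S (Algebra.adjoin S {g.val}).toSubmodule :=
    Module.Finite.iff_fg.2 h3.fg_adjoin_singleton
  have h5 : Finite (Algebra.adjoin S {g.val}).toSubmodule := Module.finite_of_finite S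
  rw [← finite_powers]
  refine Set.Finite.of_finite_image (f := Units.val) ?_ Units.val_injective.injOn
  refine (Set.toFinite ((Algebra.adjoin S {g.val}).toSubmodule : Set _)).subset ?_
  rintro _ ⟨_, ⟨m, rfl⟩, rfl⟩
  rw [Units.val_pow_eq_pow_val]
  exact pow_mem (Algebra.self_mem_adjoin_singleton S g.val) m

theorem finOrder_of_nil (A : Type) [CommRing A] (N : ℕ) (hN : 0 < N) (hA : (N : A) = 0) (n : ℕ)
    (g : GL (Fin n) A) (h : ∀ i j, IsNilpotent ((g.val - 1) i j)) : IsOfFinOrder g := by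
  obtain ⟨k, hk⟩ := GA_nil _ h
  have hC : (N : Polynomial A) = 0 := by rw [← Polynomial.C_eq_natCast, hA, map_zero]
  obtain ⟨m, hm, w, hw⟩ := PT.GLa_dvd N hN hC Polynomial.X k
  have h3 := congrArg (Polynomial.aeval (g.val - 1)) hw
  simp only [map_sub, map_pow, map_add, map_one, map_mul, Polynomial.aeval_X] at h3
  rw [pow_succ, hk, zero_mul, zero_mul, add_sub_cancel, sub_eq_zero] at h3
  exact isOfFinOrder_iff_pow_eq_one.2 ⟨m, hm, Units.ext (by simpa using h3)⟩

theorem exists_fg_subring {K : Type} [Group K] (hK : Group.FG K) (A : Type) [CommRing A] (n : ℕ)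
    (f : K →* GL (Fin n) A) :
    ∃ (A₀ : Subring A) (f₀ : K →* GL (Fin n) A₀), Algebra.FiniteType ℤ A₀ ∧
      ∀ g, Matrix.GeneralLinearGroup.map A₀.subtype (f₀ g) = f g := by
  obtain ⟨S, hS, hfin⟩ := Group.fg_iff.1 hK
  have := hfin.to_subtype
  let T : Set A := Set.range (fun c : S × Fin n × Fin n => (f c.1).val c.2.1 c.2.2) ∪
    Set.range (fun c : S × Fin n × Fin n => ((f c.1)⁻¹).val c.2.1 c.2.2)
  have hT : T.Finite := (Set.finite_range _).union (Set.finite_range _)
  let A₀ : Subring A := (Algebra.adjoin ℤ T).toSubring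
  have hmem : ∀ g, f g ∈ GA_sub n A₀ := by
    have : (⊤ : Subgroup K) ≤ (GA_sub n A₀).comap f := by
      rw [← hS, Subgroup.closure_le]
      intro s hs
      exact ⟨fun i j => Algebra.subset_adjoin (Or.inl ⟨(⟨s, hs⟩, i, j), rfl⟩),
        fun i j => Algebra.subset_adjoin (Or.inr ⟨(⟨s, hs⟩, i, j), rfl⟩)⟩
    exact fun g => this (Subgroup.mem_top g)
  let e := MonoidHom.ofInjective (GA_inj n A₀)
  refine ⟨A₀, e.symm.toMonoidHom.comp (f.codRestrict _ fun g => GA_range A₀ _ (hmem g)), ?_,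
    fun g => ?_⟩
  · have h1 : (Algebra.adjoin ℤ T).FG := ⟨hT.toFinset, by simp⟩
    have h2 := (Subalgebra.fg_iff_finiteType _).1 h1
    exact h2
  · exact congrArg Subtype.val (e.apply_symm_apply ⟨f g, GA_range A₀ _ (hmem g)⟩)

end Pool.Agent.MP_f7db47_al.GN

end

section

/-!
Finitely generated groups of quasi-unipotent matrices have finitely many traces.
-/

namespace Pool.Agent.MP_f7db47_al.GS

open Polynomial

theorem Uni1_root {E : Type} [Field E] {n m : ℕ} {T : Matrix (Fin n) (Fin n) E}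
    (h : IsNilpotent (T ^ m - 1)) {μ : E} (hμ : μ ∈ T.charpoly.roots) : μ ^ m = 1 := by
  have h1 := Matrix.mem_spectrum_iff_isRoot_charpoly.2 (isRoot_of_mem_roots hμ)
  obtain ⟨k, hk⟩ := h
  have h2 := spectrum.subset_polynomial_aeval T ((X ^ m - 1) ^ k) ⟨μ, h1, rfl⟩
  rcases subsingleton_or_nontrivial (Matrix (Fin n) (Fin n) E) with _ | _
  · simp [spectrum.of_subsingleton] at h1
  · simp only [map_pow, map_sub, aeval_X, map_one, hk, spectrum.zero_eq, eval_pow, eval_sub,
      eval_X, eval_one, Set.mem_singleton_iff] at h2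
    exact sub_eq_zero.1 (pow_eq_zero_iff'.1 h2).1

theorem Uni1_sum {A E : Type} [CommRing A] [Field E] [IsAlgClosed E] (φ : A →+* E) {n m : ℕ}
    {T : Matrix (Fin n) (Fin n) A} (h : IsNilpotent (T ^ m - 1)) :
    ∃ s : Multiset E, φ T.trace = s.sum ∧ s.card ≤ n ∧ ∀ μ ∈ s, μ ^ m = 1 := by
  refine ⟨(T.map φ).charpoly.roots, ?_, ?_, fun μ hμ => Uni1_root ?_ hμ⟩
  · rw [← Matrix.trace_eq_sum_roots_charpoly, AddMonoidHom.map_trace]
  · simpa using card_roots' (T.map φ).charpoly
  · have h1 := h.map φ.mapMatrix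
    rwa [map_sub, map_pow, map_one] at h1

theorem Uni1_int {A E : Type} [CommRing A] [Field E] [IsAlgClosed E] (φ : A →+* E)
    (hφ : Function.Injective φ) {n m : ℕ} (hm : 0 < m) {T : Matrix (Fin n) (Fin n) A}
    (h : IsNilpotent (T ^ m - 1)) : IsIntegral ℤ T.trace := by
  obtain ⟨s, h1, _, h2⟩ := Uni1_sum φ h
  refine (isIntegral_algHom_iff φ.toIntAlgHom hφ).1 ?_
  rw [RingHom.toIntAlgHom_apply, h1]
  exact IsIntegral.multiset_sum fun μ hμ => IsIntegral.of_pow hm (h2 μ hμ ▸ isIntegral_one)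

theorem Uni1_norm {A : Type} [CommRing A] (φ : A →+* ℂ) {n m : ℕ} (hm : 0 < m)
    {T : Matrix (Fin n) (Fin n) A} (h : IsNilpotent (T ^ m - 1)) : ‖φ T.trace‖ ≤ n := by
  obtain ⟨s, h1, h2, h3⟩ := Uni1_sum φ h
  rw [h1]
  refine (norm_multiset_sum_le s).trans ((Multiset.sum_le_card_nsmul _ 1 fun x hx => ?_).trans ?_)
  · obtain ⟨μ, hμ, rfl⟩ := Multiset.mem_map.1 hx
    exact (Complex.norm_eq_one_of_pow_eq_one (h3 μ hμ) hm.ne').le
  · simpa using h2

theorem Uni1_res (B : Type) [CommRing B] [Nontrivial B] [Algebra ℚ B] [Algebra.FiniteType ℚ B] :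
    ∃ (L : Type) (_ : Field L) (_ : NumberField L), Nonempty (B →+* L) := by
  obtain ⟨m, hmax⟩ := Ideal.exists_maximal B
  let _ := Ideal.Quotient.field m
  have h0 : Algebra.FiniteType ℚ (B ⧸ m) :=
    .of_surjective (Ideal.Quotient.mkₐ ℚ m) (Ideal.Quotient.mkₐ_surjective ℚ m)
  have h2 := finite_of_finite_type_of_isJacobsonRing ℚ (B ⧸ m)
  exact ⟨B ⧸ m, inferInstance, .of_module_finite ℚ _, ⟨Ideal.Quotient.mk m⟩⟩

theorem Uni1_ev {K : Type} [Field K] [CharZero K] (A : Subring K) (hA : Algebra.FiniteType ℤ A) :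
    ∃ (L : Type) (_ : Field L) (_ : NumberField L), Nonempty (A →+* L) := by
  obtain ⟨s, hs⟩ := hA.out
  let B : Subalgebra ℚ K := Algebra.adjoin ℚ (A.subtype '' s)
  have _ : Algebra.FiniteType ℚ B := .adjoin_of_finite (s.finite_toSet.image _)
  have hm : ∀ a : A, A.subtype a ∈ B := fun a => by
    have ha : a ∈ Algebra.adjoin ℤ (s : Set A) := hs ▸ Algebra.mem_top
    induction ha using Algebra.adjoin_induction with
    | mem x hx => exact Algebra.subset_adjoin ⟨x, hx, rfl⟩
    | algebraMap r => simp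
    | add x y _ _ hx hy => rw [map_add]; exact add_mem hx hy
    | mul x y _ _ hx hy => rw [map_mul]; exact mul_mem hx hy
  obtain ⟨L, _, _, ⟨φ⟩⟩ := Uni1_res B
  exact ⟨L, inferInstance, inferInstance, ⟨φ.comp (A.subtype.codRestrict B hm)⟩⟩

theorem finite_traces {G K : Type} [Group G] [Group.FG G] [Field K] [CharZero K] {n : ℕ}
    (f : G →* GL (Fin n) K) (h : ∀ g, ∃ m, 0 < m ∧ IsNilpotent ((f g).val ^ m - 1)) :
    (Set.range fun g => (f g).val.trace).Finite := by
  obtain ⟨A, f₀, hA, hf⟩ := GN.exists_fg_subring inferInstance K n f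
  obtain ⟨L, _, _, ⟨ev⟩⟩ := Uni1_ev A hA
  have e : ∀ g, (f g).val = A.subtype.mapMatrix (f₀ g).val := fun g => hf g ▸ rfl
  have h0 : ∀ g, ∃ m, 0 < m ∧ IsNilpotent ((f₀ g).val ^ m - 1) := fun g => by
    obtain ⟨m, hm, h1⟩ := h g
    refine ⟨m, hm, (IsNilpotent.map_iff (f := A.subtype.mapMatrix)
      (Matrix.map_injective A.subtype_injective)).1 ?_⟩
    rwa [map_sub, map_pow, map_one, ← e]
  have hi : ∀ g, IsIntegral ℤ (f₀ g).val.trace := fun g => by
    obtain ⟨m, hm, h1⟩ := h0 g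
    exact Uni1_int ((algebraMap K (AlgebraicClosure K)).comp A.subtype)
      ((algebraMap K _).injective.comp A.subtype_injective) hm h1
  have hfin : (Set.range fun g => (f₀ g).val.trace).Finite := by
    refine Set.Finite.of_finite_image (f := ev)
      ((NumberField.Embeddings.finite_of_norm_le L ℂ n).subset ?_) ?_
    · rintro _ ⟨_, ⟨g, rfl⟩, rfl⟩
      obtain ⟨m, hm, h1⟩ := h0 g
      exact ⟨(hi g).map ev.toIntAlgHom, fun φ => Uni1_norm (φ.comp ev) hm h1⟩
    · rintro _ ⟨g, rfl⟩ _ ⟨g', rfl⟩ h1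
      by_contra h2
      obtain ⟨r, h3, c, h4⟩ := ((hi g).sub (hi g')).isAlgebraic.exists_nonzero_dvd
        (mem_nonZeroDivisors_of_ne_zero (sub_ne_zero.2 h2))
      have h5 := congrArg ev h4
      rw [map_mul, map_sub, sub_eq_zero.2 h1, zero_mul, eq_intCast, map_intCast] at h5
      exact h3 (Int.cast_eq_zero.1 h5)
  refine (hfin.image A.subtype).subset ?_
  rintro _ ⟨g, rfl⟩
  exact ⟨_, ⟨g, rfl⟩, (AddMonoidHom.map_trace _ _).trans (congrArg _ (e g).symm)⟩

end Pool.Agent.MP_f7db47_al.GS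

end

section

/-!
Groups that almost normalise a group of matrices with traces in a subfield.
-/

namespace Pool.Agent.MP_f7db47_al.GZ

open Matrix

variable {G F ι : Type} [Group G] [Field F] [Fintype ι] [DecidableEq ι]

/-- The span of the image of a subgroup. -/
def spn (f : G →* Matrix ι ι F) (K : Subgroup G) : Submodule F (Matrix ι ι F) :=
  Submodule.span F (f '' K)

theorem spn_mono (f : G →* Matrix ι ι F) {K K' : Subgroup G} (h : K' ≤ K) :
    spn f K' ≤ spn f K :=
  Submodule.span_mono (Set.image_mono h)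

theorem mem_spn (f : G →* Matrix ι ι F) {K : Subgroup G} {x : G} (h : x ∈ K) : f x ∈ spn f K :=
  Submodule.subset_span ⟨x, h, rfl⟩

theorem spn_mul (f : G →* Matrix ι ι F) {K : Subgroup G} {a b : Matrix ι ι F}
    (ha : a ∈ spn f K) (hb : b ∈ spn f K) : a * b ∈ spn f K := by
  induction ha using Submodule.span_induction with
  | zero => rw [zero_mul]; exact zero_mem _
  | add x y _ _ hx hy => rw [add_mul]; exact add_mem hx hy
  | smul c x _ hx => rw [smul_mul_assoc]; exact Submodule.smul_mem _ c hx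
  | mem x hx =>
    obtain ⟨x, hx, rfl⟩ := hx
    induction hb using Submodule.span_induction with
    | zero => rw [mul_zero]; exact zero_mem _
    | add x y _ _ hx hy => rw [mul_add]; exact add_mem hx hy
    | smul c x _ hx => rw [mul_smul_comm]; exact Submodule.smul_mem _ c hx
    | mem y hy =>
      obtain ⟨y, hy, rfl⟩ := hy
      rw [← map_mul]
      exact mem_spn f (mul_mem hx hy)

theorem spn_conj (f : G →* Matrix ι ι F) {K K' : Subgroup G} {s t : G}
    (h : ∀ x ∈ K', s * x * t ∈ K) {a : Matrix ι ι F} (ha : a ∈ spn f K') :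
    f s * a * f t ∈ spn f K := by
  induction ha using Submodule.span_induction with
  | zero => rw [mul_zero, zero_mul]; exact zero_mem _
  | add x y _ _ hx hy => rw [mul_add, add_mul]; exact add_mem hx hy
  | smul c x _ hx => rw [mul_smul_comm, smul_mul_assoc]; exact Submodule.smul_mem _ c hx
  | mem x hx =>
    obtain ⟨x, hx, rfl⟩ := hx
    rw [← map_mul, ← map_mul]
    exact mem_spn f (h x hx)

/-- The dimension of the span does not increase under conjugation into a larger group. -/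
theorem finrank_spn_le (f : G →* Matrix ι ι F) {K K' : Subgroup G} {s : G}
    (h : ∀ x ∈ K', s * x * s⁻¹ ∈ K) :
    Module.finrank F (spn f K') ≤ Module.finrank F (spn f K) := by
  let φ : Matrix ι ι F →ₗ[F] Matrix ι ι F :=
    (LinearMap.mulRight F (f s⁻¹)).comp (LinearMap.mulLeft F (f s))
  have hφ : Function.Injective φ := by
    refine Function.LeftInverse.injective (g := fun a => f s⁻¹ * a * f s) fun a => ?_
    show f s⁻¹ * (f s * a * f s⁻¹) * f s = a
    rw [← mul_assoc, ← mul_assoc, ← map_mul, inv_mul_cancel, map_one, one_mul, mul_assoc,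
      ← map_mul, inv_mul_cancel, map_one, mul_one]
  rw [LinearEquiv.finrank_eq (Submodule.equivMapOfInjective φ hφ (spn f K'))]
  refine Submodule.finrank_mono ?_
  rintro _ ⟨a, ha, rfl⟩
  exact spn_conj f h ha

theorem finrank_spn_bound (f : G →* Matrix ι ι F) (K : Subgroup G) :
    Module.finrank F (spn f K) ≤ Fintype.card ι * Fintype.card ι := by
  have h := Submodule.finrank_le (spn f K)
  rwa [Module.finrank_matrix, Module.finrank_self, mul_one] at h

theorem Span_key (k : Subfield F) (f : G →* Matrix ι ι F) {K : Subgroup G}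
    (htr : ∀ g ∈ K, (f g).trace ∈ k) {a b : Matrix ι ι F} (ha : a ∈ spn f K) (hb : b ∈ spn f K)
    (ha' : ∀ x ∈ K, (a * f x).trace ∈ k) (hb' : ∀ x ∈ K, (b * f x).trace ∈ k) :
    (a * b).trace ∈ k := by
  obtain ⟨r, hr⟩ := LinearMap.exists_leftInverse_of_injective (Algebra.linearMap k F)
    (LinearMap.ker_eq_bot.2 (algebraMap k F).injective)
  have hr' : ∀ c : k, r (c : F) = c := fun c => LinearMap.congr_fun hr c
  obtain ⟨m, c, g, rfl⟩ := Submodule.mem_span_set'.1 hb
  have hg : ∀ i, ∃ x ∈ K, f x = (g i : Matrix ι ι F) := fun i => (g i).2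
  choose x hx hx' using hg
  have h1 : ∀ y ∈ spn f K, ((∑ i, c i • (g i : Matrix ι ι F)) * y).trace =
      ((∑ i, ((r (c i) : k) : F) • (g i : Matrix ι ι F)) * y).trace := by
    intro y hy
    induction hy using Submodule.span_induction with
    | zero => rw [mul_zero, mul_zero]
    | add x y _ _ hx hy => rw [mul_add, mul_add, trace_add, trace_add, hx, hy]
    | smul c x _ hx => rw [mul_smul_comm, mul_smul_comm, trace_smul, trace_smul, hx]
    | mem y hy =>
      obtain ⟨y, hy, rfl⟩ := hy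
      have h2 : ∀ i, ((g i : Matrix ι ι F) * f y).trace ∈ k := fun i => by
        rw [← hx', ← map_mul]
        exact htr _ (mul_mem (hx i) hy)
      have h3 : (r ((∑ i, c i • (g i : Matrix ι ι F)) * f y).trace : F) =
          ((∑ i, c i • (g i : Matrix ι ι F)) * f y).trace :=
        congrArg Subtype.val (hr' ⟨_, hb' y hy⟩)
      rw [← h3]
      simp only [Finset.sum_mul, smul_mul_assoc, trace_sum, trace_smul, smul_eq_mul, map_sum]
      push_cast
      refine Finset.sum_congr rfl fun i _ => ?_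
      have h4 : c i * ((g i : Matrix ι ι F) * f y).trace = (⟨_, h2 i⟩ : k) • c i := by
        rw [mul_comm]
        rfl
      rw [h4, map_smul, smul_eq_mul, mul_comm]
      rfl
  rw [trace_mul_comm, h1 a ha, trace_mul_comm, Finset.mul_sum, trace_sum]
  refine sum_mem fun i _ => ?_
  rw [mul_smul_comm, trace_smul, smul_eq_mul, ← hx']
  exact mul_mem (r (c i)).2 (ha' _ (hx i))

/-- The elements whose image lies in the canonical subring. -/
def Span_N (k : Subfield F) (f : G →* Matrix ι ι F) (K : Subgroup G)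
    (htr : ∀ g ∈ K, (f g).trace ∈ k) : Subgroup G where
  carrier := {g | (f g ∈ spn f K ∧ ∀ x ∈ K, (f g * f x).trace ∈ k) ∧
    f g⁻¹ ∈ spn f K ∧ ∀ x ∈ K, (f g⁻¹ * f x).trace ∈ k}
  one_mem' := by
    have h : f 1 ∈ spn f K ∧ ∀ x ∈ K, (f 1 * f x).trace ∈ k :=
      ⟨mem_spn f K.one_mem, fun x hx => by rw [map_one, one_mul]; exact htr x hx⟩
    exact ⟨h, by rwa [inv_one]⟩
  inv_mem' h := ⟨h.2, by rw [inv_inv]; exact h.1⟩
  mul_mem' := by
    have key : ∀ a b : G, (f a ∈ spn f K ∧ ∀ x ∈ K, (f a * f x).trace ∈ k) →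
        (f b ∈ spn f K ∧ ∀ x ∈ K, (f b * f x).trace ∈ k) →
        f (a * b) ∈ spn f K ∧ ∀ x ∈ K, (f (a * b) * f x).trace ∈ k := by
      intro a b ha hb
      rw [map_mul]
      refine ⟨spn_mul f ha.1 hb.1, fun x hx => ?_⟩
      rw [mul_assoc]
      refine Span_key k f htr ha.1 (spn_mul f hb.1 (mem_spn f hx)) ha.2 fun y hy => ?_
      rw [mul_assoc, ← map_mul]
      exact hb.2 _ (mul_mem hx hy)
    intro a b ha hb
    exact ⟨key a b ha.1 hb.1, by rw [_root_.mul_inv_rev]; exact key _ _ hb.2 ha.2⟩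

/-- The commutator subgroup of the group generated by the periods has traces in `k`. -/
theorem trace_commutator (k : Subfield F) (f : G →* Matrix ι ι F) {K K' : Subgroup G}
    (hle : K' ≤ K) (hrk : Module.finrank F (spn f K) ≤ Module.finrank F (spn f K'))
    (htr : ∀ g ∈ K, (f g).trace ∈ k) {S : Set G}
    (h1 : ∀ s ∈ S, ∀ x ∈ K', s * x * s⁻¹ ∈ K) (h2 : ∀ s ∈ S, ∀ x ∈ K', s⁻¹ * x * s ∈ K)
    (h3 : ∀ s ∈ S, ∀ t ∈ S, s * t * s⁻¹ * t⁻¹ ∈ K) :
    ∀ g ∈ ⁅Subgroup.closure S, Subgroup.closure S⁆, (f g).trace ∈ k := by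
  have hsp : spn f K' = spn f K := Submodule.eq_of_le_of_finrank_le (spn_mono f hle) hrk
  have htr' : ∀ g ∈ K', (f g).trace ∈ k := fun g hg => htr g (hle hg)
  let N := Span_N k f K' htr'
  have hK : ∀ y ∈ K, f y ∈ spn f K' ∧ ∀ x ∈ K', (f y * f x).trace ∈ k := fun y hy =>
    ⟨hsp ▸ mem_spn f hy, fun x hx => by
      rw [← map_mul]; exact htr _ (mul_mem hy (hle hx))⟩
  have hKN : K ≤ N := fun y hy => ⟨hK y hy, hK _ (inv_mem hy)⟩
  have conj : ∀ s t : G, (∀ x ∈ K', s * x * t ∈ K) → (∀ x ∈ K', t * x * s ∈ K) → ∀ a : G,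
      (f a ∈ spn f K' ∧ ∀ x ∈ K', (f a * f x).trace ∈ k) →
      f (s * a * t) ∈ spn f K' ∧ ∀ x ∈ K', (f (s * a * t) * f x).trace ∈ k := by
    intro s t hs ht a ha
    rw [map_mul, map_mul]
    refine ⟨hsp ▸ spn_conj f hs ha.1, fun x hx => ?_⟩
    rw [mul_assoc, mul_assoc, trace_mul_comm, mul_assoc, ← map_mul, ← map_mul]
    exact Span_key k f htr' ha.1 (hK _ (ht x hx)).1 ha.2 (hK _ (ht x hx)).2
  have hnorm : Subgroup.closure S ≤ Subgroup.normalizer (N : Set G) := by
    rw [Subgroup.closure_le]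
    intro s hs
    have e1 : ∀ a ∈ N, s * a * s⁻¹ ∈ N := fun a ha =>
      ⟨conj s s⁻¹ (h1 s hs) (h2 s hs) a ha.1, by
        rw [conj_inv]; exact conj s s⁻¹ (h1 s hs) (h2 s hs) _ ha.2⟩
    have e2 : ∀ a ∈ N, s⁻¹ * a * s ∈ N := fun a ha =>
      ⟨conj s⁻¹ s (h2 s hs) (h1 s hs) a ha.1, by
        have e : (s⁻¹ * a * s)⁻¹ = s⁻¹ * a⁻¹ * s := by group
        rw [e]; exact conj s⁻¹ s (h2 s hs) (h1 s hs) _ ha.2⟩
    refine Subgroup.mem_normalizer_iff.2 fun a => ⟨e1 a, fun ha => ?_⟩
    have := e2 _ ha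
    have e : s⁻¹ * (s * a * s⁻¹) * s = a := by group
    rwa [e] at this
  have hcj : ∀ s ∈ Subgroup.closure S, ∀ a ∈ N, s * a * s⁻¹ ∈ N := fun s hs a ha =>
    (Subgroup.mem_normalizer_iff.1 (hnorm hs) a).1 ha
  have hcomm : ⁅Subgroup.closure S, Subgroup.closure S⁆ ≤ N := by
    rw [Subgroup.commutator_le]
    intro a ha b hb
    rw [commutatorElement_def]
    induction ha, hb using Subgroup.closure_induction₂ with
    | mem x y hx hy => exact hKN (h3 x hx y hy)
    | one_left x _ => simp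
    | one_right x _ => simp
    | mul_left x y z hx _ _ e1 e2 =>
      have e : x * y * z * (x * y)⁻¹ * z⁻¹ =
          x * (y * z * y⁻¹ * z⁻¹) * x⁻¹ * (x * z * x⁻¹ * z⁻¹) := by group
      rw [e]
      exact mul_mem (hcj x hx _ e2) e1
    | mul_right y z x hy _ _ e1 e2 =>
      have e : x * (y * z) * x⁻¹ * (y * z)⁻¹ =
          x * y * x⁻¹ * y⁻¹ * (y * (x * z * x⁻¹ * z⁻¹) * y⁻¹) := by group
      rw [e]
      exact mul_mem e1 (hcj y hy _ e2)
    | inv_left x y hx _ e1 =>
      have e : x⁻¹ * y * x⁻¹⁻¹ * y⁻¹ = x⁻¹ * (x * y * x⁻¹ * y⁻¹)⁻¹ * x⁻¹⁻¹ := by group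
      rw [e]
      exact hcj _ (inv_mem hx) _ (inv_mem e1)
    | inv_right x y _ hy e1 =>
      have e : x * y⁻¹ * x⁻¹ * y⁻¹⁻¹ = y⁻¹ * (x * y * x⁻¹ * y⁻¹)⁻¹ * y⁻¹⁻¹ := by group
      rw [e]
      exact hcj _ (inv_mem hy) _ (inv_mem e1)
  intro g hg
  have := (hcomm hg).1.2 1 K'.one_mem
  rwa [map_one, mul_one] at this

end Pool.Agent.MP_f7db47_al.GZ

end

section

/-!
Groups of matrices with finitely many traces are virtually unipotent.
-/

namespace Pool.Agent.MP_f7db47_al.GS

open Polynomial in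
lemma Uni2_nil {K A : Type} [Field K] [Ring A] [Algebra K A] [Module.Finite K A] {a : A}
    (h : ∀ y, IsIdempotentElem (y * a) → y * a = 0) : IsNilpotent a := by
  obtain ⟨q, h1, h2⟩ := exists_eq_pow_rootMultiplicity_mul_and_not_dvd (minpoly K a)
    (minpoly.ne_zero (Algebra.IsIntegral.isIntegral a)) 0
  rw [C_0, sub_zero] at h1 h2
  generalize rootMultiplicity 0 (minpoly K a) = k at h1
  obtain ⟨u, v, huv⟩ := (irreducible_X.coprime_iff_not_dvd.2 h2).pow_left (m := k + 1)
  have h0 : ∀ w : K[X], aeval a (w * (X ^ k * q)) = 0 := fun w => by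
    rw [map_mul, ← h1, minpoly.aeval, mul_zero]
  have h3 : aeval a (u * X ^ k) * a = aeval a (u * X ^ (k + 1)) := by
    simp only [map_mul, aeval_X, pow_succ, mul_assoc]
  have h4 := h (aeval a (u * X ^ k)) (by
    rw [h3, IsIdempotentElem, ← map_mul, ← sub_eq_zero, ← map_sub, ← h0 (-(u * X * v))]
    congr 1
    linear_combination (u * X ^ (k + 1)) * huv)
  refine ⟨k, ?_⟩
  have h5 : (X : K[X]) ^ k = X ^ k * (u * X ^ (k + 1)) + v * (X ^ k * q) := by
    linear_combination -X ^ k * huv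
  rw [← aeval_X_pow (R := K) a, h5, map_add, h0, map_mul, ← h3, h4, mul_zero, add_zero]

theorem exists_unip {G K : Type} [Group G] [Field K] [CharZero K] {n : ℕ}
    (f : G →* Matrix (Fin n) (Fin n) K) (h : (Set.range fun g => (f g).trace).Finite) :
    ∃ (U : Subgroup G) (J : Submodule K (Matrix (Fin n) (Fin n) K)) (c : ℕ), U.FiniteIndex ∧
      (∀ g ∈ U, f g - 1 ∈ J) ∧ (∀ a ∈ J, ∀ b ∈ J, a * b ∈ J) ∧
      ∀ l : List (Matrix (Fin n) (Fin n) K), l.length = c → (∀ a ∈ l, a ∈ J) → l.prod = 0 := by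
  have hf : ∀ g, f g ∈ GZ.spn f ⊤ := fun g => GZ.mem_spn f trivial
  let A : Subalgebra K (Matrix (Fin n) (Fin n) K) :=
    (GZ.spn f ⊤).toSubalgebra (map_one f ▸ hf 1) fun _ _ => GZ.spn_mul f
  let J : Submodule K (Matrix (Fin n) (Fin n) K) :=
    { carrier := {a | a ∈ A ∧ ∀ y ∈ A, (y * a).trace = 0}
      add_mem' := fun ha hb => ⟨add_mem ha.1 hb.1, fun y hy => by
        rw [mul_add, Matrix.trace_add, ha.2 y hy, hb.2 y hy, add_zero]⟩
      zero_mem' := ⟨zero_mem _, fun y _ => by simp⟩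
      smul_mem' := fun c a ha => ⟨A.smul_mem ha.1 c, fun y hy => by
        rw [mul_smul_comm, Matrix.trace_smul, ha.2 y hy, smul_zero]⟩ }
  have hl : ∀ y ∈ A, ∀ a ∈ J, y * a ∈ J := fun y hy a ha =>
    ⟨mul_mem hy ha.1, fun z hz => by rw [← mul_assoc]; exact ha.2 _ (mul_mem hz hy)⟩
  let U : Subgroup G :=
    { carrier := {g | f g - 1 ∈ J}
      mul_mem' := fun {g k} hg hk => by
        have := add_mem (hl _ (hf g) _ hk) hg
        rwa [mul_sub, mul_one, sub_add_sub_cancel, ← map_mul] at this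
      one_mem' := by simp
      inv_mem' := fun {g} hg => by
        have := neg_mem (hl _ (hf g⁻¹) _ hg)
        rwa [mul_sub, mul_one, neg_sub, ← map_mul, inv_mul_cancel, map_one] at this }
  have := IsArtinianRing.of_finite K A
  obtain ⟨c, hc⟩ := IsSemiprimaryRing.isNilpotent (R := A)
  refine ⟨U, J, c, ?_, fun _ => id, fun a ha => hl a ha.1, fun l hlc hJ => ?_⟩
  · obtain ⟨b, hb, hs, hi⟩ := exists_linearIndependent K (f '' (⊤ : Subgroup G))
    have := hi.finite
    have := h.to_subtype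
    have : Finite (G ⧸ U) := by
      refine Finite.of_injective (β := b → Set.range fun g => (f g).trace)
        (fun q x => ⟨(x.1 * f q.out).trace, ?_⟩) fun q q' e => ?_
      · obtain ⟨g, -, e⟩ := hb x.2
        exact ⟨g * q.out, by simp only [map_mul, e]⟩
      · rw [← q.out_eq, ← q'.out_eq, QuotientGroup.eq]
        have h1 : f q'.out - f q.out ∈ J := by
          refine ⟨sub_mem (hf _) (hf _), fun y hy => ?_⟩
          have hy' : y ∈ Submodule.span K b := hs ▸ hy
          clear hy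
          induction hy' using Submodule.span_induction with
          | zero => simp
          | add x y _ _ hx hy => rw [add_mul, Matrix.trace_add, hx, hy, add_zero]
          | smul c x _ hx => rw [smul_mul_assoc, Matrix.trace_smul, hx, smul_zero]
          | mem x hx =>
            rw [mul_sub, Matrix.trace_sub, sub_eq_zero]
            exact (congrArg Subtype.val (congrFun e ⟨x, hx⟩)).symm
        have := hl _ (hf q.out⁻¹) _ h1
        rwa [mul_sub, ← map_mul, ← map_mul, inv_mul_cancel, map_one] at this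
    exact Subgroup.finiteIndex_of_finite_quotient
  · have hj : ∀ a : A, a.1 ∈ J → a ∈ Ring.jacobson A := fun a ha => by
      rw [← Ideal.jacobson_bot, Ideal.mem_jacobson_iff]
      intro y
      have h0 : IsNilpotent (y * a) := Uni2_nil (K := K) fun w hw => by
        have h1 := (hl _ w.2 _ (hl _ y.2 _ ha)).2 1 A.one_mem
        rw [one_mul, ← Matrix.trace_toLin'_eq] at h1
        exact Subtype.ext (Matrix.toLin'.injective
          ((LinearMap.IsIdempotentElem.eq_zero_of_trace_eq_zero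
            ((hw.map A.val).map Matrix.toLinAlgEquiv') h1).trans (map_zero _).symm))
      obtain ⟨z, hz⟩ := h0.isUnit_one_add
      refine ⟨↑z⁻¹, ?_⟩
      rw [Ideal.mem_bot, sub_eq_zero, ← z.inv_mul, hz, mul_add, mul_one, mul_assoc, add_comm]
    have key : ∃ b ∈ Ring.jacobson A ^ l.length, b.1 = l.prod := by
      clear hlc
      induction l with
      | nil => exact ⟨1, by simp [Submodule.pow_zero], rfl⟩
      | cons a l ih =>
        obtain ⟨b, h1, h2⟩ := ih fun x hx => hJ x (List.mem_cons_of_mem _ hx)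
        have h3 := hJ a List.mem_cons_self
        refine ⟨⟨a, h3.1⟩ * b, ?_, by rw [List.prod_cons, ← h2]; rfl⟩
        rw [List.length_cons, Ideal.IsTwoSided.pow_succ]
        exact Ideal.mul_mem_mul (hj _ h3) h1
    obtain ⟨b, h1, h2⟩ := key
    rw [hlc, hc] at h1
    rw [← h2, Ideal.mem_bot.1 h1]
    rfl

end Pool.Agent.MP_f7db47_al.GS

end

section

/-!
Groups of unipotent matrices in any characteristic.
-/

namespace Pool.Agent.MP_f7db47_al.GS

theorem Kol_simple {G K ι : Type} [Group G] [Field K] [Fintype ι] [DecidableEq ι]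
    (φ : G →* Matrix ι ι K) (h : ∀ g, IsNilpotent (φ g - 1))
    (hs : ∀ y, y ∈ Submodule.span K (Set.range φ)) (g : G) : φ g = 1 := by
  have h1 : ∀ k, (φ k).trace = (1 : Matrix ι ι K).trace := fun k => by
    rw [← sub_eq_zero, ← Matrix.trace_sub]
    exact (Matrix.isNilpotent_trace_of_isNilpotent (h k)).eq_zero
  rw [Matrix.ext_iff_trace_mul_right]
  intro y
  induction hs y using Submodule.span_induction with
  | zero => simp
  | add x y _ _ hx hy => rw [mul_add, mul_add, Matrix.trace_add, Matrix.trace_add, hx, hy]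
  | smul c x _ hx => rw [mul_smul_comm, mul_smul_comm, Matrix.trace_smul, Matrix.trace_smul, hx]
  | mem x hx =>
    obtain ⟨k, rfl⟩ := hx
    rw [← map_mul, one_mul, h1, h1]

theorem Kol_jac {G K A : Type} [Group G] [Field K] [IsAlgClosed K] [Ring A] [Algebra K A]
    [Module.Finite K A] (φ : G →* A) (h : ∀ g, IsNilpotent (φ g - 1))
    (hs : ∀ y, y ∈ Submodule.span K (Set.range φ)) (g : G) : φ g - 1 ∈ Ring.jacobson A := by
  have := IsArtinianRing.of_finite K A
  have : Module.Finite K (A ⧸ Ring.jacobson A) :=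
    .of_surjective (Ideal.Quotient.mkₐ K (Ring.jacobson A)).toLinearMap Ideal.Quotient.mk_surjective
  obtain ⟨m, d, -, ⟨e⟩⟩ :=
    IsSemisimpleRing.exists_algEquiv_pi_matrix_of_isAlgClosed K (A ⧸ Ring.jacobson A)
  rw [← Ideal.Quotient.eq_zero_iff_mem, map_sub, map_one, sub_eq_zero]
  refine e.injective ((funext fun i => ?_).trans (map_one e).symm)
  let π : A →ₐ[K] Matrix (Fin (d i)) (Fin (d i)) K :=
    (Pi.evalAlgHom K _ i).comp (e.toAlgHom.comp (Ideal.Quotient.mkₐ K (Ring.jacobson A)))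
  have hπ : Function.Surjective π :=
    (Function.surjective_eval i).comp (e.surjective.comp Ideal.Quotient.mk_surjective)
  refine Kol_simple (π.toMonoidHom.comp φ) (fun k => ?_) (fun y => ?_) g
  · simpa using (h k).map π
  · obtain ⟨a, rfl⟩ := hπ y
    have h1 := Submodule.apply_mem_span_image_of_mem_span π.toLinearMap (hs a)
    rwa [← Set.range_comp] at h1

theorem Kol_closed {G K : Type} [Group G] [Field K] [IsAlgClosed K] {n : ℕ}
    (f : G →* Matrix (Fin n) (Fin n) K) (h : ∀ g, IsNilpotent (f g - 1)) :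
    ∃ (J : AddSubgroup (Matrix (Fin n) (Fin n) K)) (c : ℕ), (∀ g, f g - 1 ∈ J) ∧
      (∀ a ∈ J, ∀ b ∈ J, a * b ∈ J) ∧
      ∀ l : List (Matrix (Fin n) (Fin n) K), l.length = c → (∀ a ∈ l, a ∈ J) → l.prod = 0 := by
  have hf : ∀ g, f g ∈ GZ.spn f ⊤ := fun g => GZ.mem_spn f trivial
  let A : Subalgebra K (Matrix (Fin n) (Fin n) K) :=
    (GZ.spn f ⊤).toSubalgebra (map_one f ▸ hf 1) fun _ _ => GZ.spn_mul f
  let φ : G →* A := f.codRestrict A hf
  have := IsArtinianRing.of_finite K A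
  obtain ⟨c, hc⟩ := IsSemiprimaryRing.isNilpotent (R := A)
  have hj := Kol_jac (K := K) φ (fun g => (h g).imp fun k hk => Subtype.ext hk) fun y => by
    obtain ⟨y, hy⟩ := y
    induction hy using Submodule.span_induction with
    | zero => exact zero_mem _
    | add x y _ _ hx hy => exact add_mem hx hy
    | smul c x _ hx => exact Submodule.smul_mem _ c hx
    | mem x hx =>
      obtain ⟨k, -, rfl⟩ := hx
      exact Submodule.subset_span ⟨k, rfl⟩
  refine ⟨(Ring.jacobson A).toAddSubgroup.map A.val.toAddMonoidHom, c, fun g => ⟨_, hj g, rfl⟩, ?_,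
    fun l hlc hJ => ?_⟩
  · rintro _ ⟨a, -, rfl⟩ _ ⟨b, hb, rfl⟩
    exact ⟨a * b, Ideal.mul_mem_left _ a hb, rfl⟩
  · have key : ∃ b ∈ Ring.jacobson A ^ l.length, b.1 = l.prod := by
      clear hlc
      induction l with
      | nil => exact ⟨1, by simp [Submodule.pow_zero], rfl⟩
      | cons a l ih =>
        obtain ⟨b, h1, h2⟩ := ih fun x hx => hJ x (List.mem_cons_of_mem _ hx)
        obtain ⟨a, h3, rfl⟩ := hJ a List.mem_cons_self
        refine ⟨a * b, ?_, by rw [List.prod_cons, ← h2]; rfl⟩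
        rw [List.length_cons, Ideal.IsTwoSided.pow_succ]
        exact Ideal.mul_mem_mul h3 h1
    obtain ⟨b, h1, h2⟩ := key
    rw [hlc, hc] at h1
    rw [← h2, Ideal.mem_bot.1 h1]
    rfl

theorem kolchin {G K : Type} [Group G] [Field K] {n : ℕ} (f : G →* Matrix (Fin n) (Fin n) K)
    (h : ∀ g, IsNilpotent (f g - 1)) :
    ∃ (J : AddSubgroup (Matrix (Fin n) (Fin n) K)) (c : ℕ), (∀ g, f g - 1 ∈ J) ∧
      (∀ a ∈ J, ∀ b ∈ J, a * b ∈ J) ∧
      ∀ l : List (Matrix (Fin n) (Fin n) K), l.length = c → (∀ a ∈ l, a ∈ J) → l.prod = 0 :=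
  by
  let ψ : Matrix (Fin n) (Fin n) K →+* Matrix (Fin n) (Fin n) (AlgebraicClosure K) :=
    (algebraMap K (AlgebraicClosure K)).mapMatrix
  have hψ : Function.Injective ψ := Matrix.map_injective (algebraMap K _).injective
  obtain ⟨J, c, h1, h2, h3⟩ := Kol_closed (ψ.toMonoidHom.comp f) fun g => by
    simpa using (h g).map ψ
  refine ⟨J.comap ψ.toAddMonoidHom, c, fun g => ?_, fun a ha b hb => ?_, fun l hl hJ => hψ ?_⟩
  · change ψ (f g - 1) ∈ J
    rw [map_sub, map_one]
    exact h1 g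
  · change ψ (a * b) ∈ J
    rw [map_mul]
    exact h2 _ ha _ hb
  · rw [map_list_prod, map_zero]
    refine h3 _ (by rw [List.length_map, hl]) fun a ha => ?_
    obtain ⟨b, hb, rfl⟩ := List.mem_map.1 ha
    exact hJ b hb

end Pool.Agent.MP_f7db47_al.GS

end

section

/-!
Finitely generated groups of quasi-unipotent matrices in prime characteristic.
-/

namespace Pool.Agent.MP_f7db47_al.GS

theorem UniP_core (p : ℕ) [Fact p.Prime] {A k : Type} [CommRing A] [IsDomain A] [CharP A p]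
    [Field k] [CharP k p] (φ : A →+* k) {n m : ℕ} (hm : 0 < m) (x : Matrix (Fin n) (Fin n) A)
    (h1 : φ.mapMatrix x = 1) (h : IsNilpotent (x ^ m - 1)) : IsNilpotent (x - 1) := by
  rcases isEmpty_or_nonempty (Fin n) with hn | hn
  · exact ⟨1, Subsingleton.elim _ _⟩
  obtain ⟨a, r, hr, rfl⟩ := Nat.exists_eq_pow_mul_and_not_dvd hm.ne' p (Fact.out : p.Prime).ne_one
  have h2 : x ^ (p ^ a * r) - 1 = (x ^ r - 1) ^ p ^ a := by
    rw [sub_pow_char_pow_of_commute p a (Commute.one_right _), one_pow, ← pow_mul, mul_comm]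
  rw [h2] at h
  obtain ⟨N, hN⟩ := h.of_pow
  have h3 : Commute (x - 1) (∑ i ∈ Finset.range r, x ^ i) :=
    Commute.sum_right _ _ _ fun i _ =>
      ((Commute.refl x).sub_left (Commute.one_left x)).pow_right i
  rw [← mul_geom_sum, h3.mul_pow] at hN
  have h4 : ((∑ i ∈ Finset.range r, x ^ i) ^ N).det ≠ 0 := fun e => by
    have h5 := congrArg φ e
    rw [RingHom.map_det, map_pow, map_sum, map_zero] at h5
    simp only [map_pow, h1, one_pow, Finset.sum_const, Finset.card_range] at h5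
    rw [Matrix.det_pow, ← Nat.cast_smul_eq_nsmul k, Matrix.det_smul, Matrix.det_one,
      mul_one] at h5
    exact hr ((CharP.cast_eq_zero_iff k p r).1 (eq_zero_of_pow_eq_zero (eq_zero_of_pow_eq_zero h5)))
  refine ⟨N, (smul_eq_zero_iff_right h4).1 ?_⟩
  rw [← mul_one ((x - 1) ^ N), ← Matrix.mul_smul, ← Matrix.mul_adjugate, ← mul_assoc, hN, zero_mul]

theorem exists_unipP (p : ℕ) [Fact p.Prime] {G K : Type} [Group G] [Group.FG G] [Field K]
    [CharP K p] {n : ℕ} (f : G →* GL (Fin n) K)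
    (h : ∀ g, ∃ m, 0 < m ∧ IsNilpotent ((f g).val ^ m - 1)) :
    ∃ U : Subgroup G, U.FiniteIndex ∧ ∀ g ∈ U, IsNilpotent ((f g).val - 1) := by
  obtain ⟨A, f₀, hA, hf⟩ := GN.exists_fg_subring ‹_› K n f
  obtain ⟨Q, hQ⟩ := Ideal.exists_maximal A
  let := Ideal.Quotient.field Q
  have hc : CharP (A ⧸ Q) p := (CharP.charP_iff_prime_eq_zero Fact.out).2 (by
    rw [← map_natCast (Ideal.Quotient.mk Q), CharP.cast_eq_zero, map_zero])
  let := ZMod.algebra (A ⧸ Q) p
  have h1 : Algebra.FiniteType ℤ (A ⧸ Q) :=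
    hA.of_surjective (Ideal.Quotient.mk Q).toIntAlgHom Ideal.Quotient.mk_surjective
  have h2 : Algebra.FiniteType (ZMod p) (A ⧸ Q) :=
    Algebra.FiniteType.of_restrictScalars_finiteType ℤ _ _
  have h3 : Module.Finite (ZMod p) (A ⧸ Q) := finite_of_finite_type_of_isJacobsonRing _ _
  have h4 : Finite (A ⧸ Q) := Module.finite_of_finite (ZMod p)
  have h5 : Function.Injective (A.subtype.mapMatrix (m := Fin n)) :=
    Matrix.map_injective A.subtype_injective
  refine ⟨((Matrix.GeneralLinearGroup.map (Ideal.Quotient.mk Q)).comp f₀).ker, inferInstance,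
    fun g hg => ?_⟩
  obtain ⟨m, hm, h6⟩ := h g
  have h7 : (f g).val = A.subtype.mapMatrix (f₀ g).val := by rw [← hf]; rfl
  rw [h7, ← map_one (A.subtype.mapMatrix (m := Fin n))] at h6 ⊢
  rw [← map_pow, ← map_sub, IsNilpotent.map_iff h5] at h6
  rw [← map_sub, IsNilpotent.map_iff h5]
  exact UniP_core p (Ideal.Quotient.mk Q) hm _ (congrArg Units.val hg) h6

end Pool.Agent.MP_f7db47_al.GS

end
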