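import Pool.Agent.Mg.Ff7db47.Gff0e1c
import Pool.Agent.Mg.Ff7db47.Ge4af1c
import Pool.Agent.Mg.Ff7db47.Gf348de
import Pool.Agent.Mg.Ff7db47.G5f614c

section

/-!
Successive minima.
-/

set_option linter.unusedSectionVars false

namespace Pool.Agent.MP_f7db47_al.GF

open Matrix Module

namespace NSp

variable {ι : Type} [Fintype ι] [DecidableEq ι] {av : ℚ → ℝ} {b : ℝ} (N : NSp ι av b)

theorem iso_le (hb : 1 < b) (γ : GL ι ℚ × Multiplicative ℤ) (x y : N.S.X) :
    dist (N.ρ γ x) (N.ρ γ y) ≤ dist x y := by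
  have hb0 : 0 < b := zero_lt_one.trans hb
  refine (N.dist_le _ _ _ dist_nonneg).2 fun u => ?_
  obtain ⟨w, rfl⟩ : ∃ w, u = γ.1.val *ᵥ w := ⟨(γ.1⁻¹).val *ᵥ u, by
    rw [mulVec_mulVec, Units.mul_inv, one_mulVec]⟩
  obtain ⟨h1, h2⟩ := (N.dist_le x y _ dist_nonneg).1 le_rfl w
  rw [N.ν_ρ, N.ν_ρ]
  have hp : 0 ≤ b ^ ((γ.2.toAdd : ℤ) : ℝ) := Real.rpow_nonneg hb0.le _
  constructor
  · rw [mul_left_comm]; exact mul_le_mul_of_nonneg_left h1 hp
  · rw [mul_left_comm]; exact mul_le_mul_of_nonneg_left h2 hp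

theorem iso (hb : 1 < b) (γ : GL ι ℚ × Multiplicative ℤ) (x y : N.S.X) :
    dist (N.ρ γ x) (N.ρ γ y) = dist x y := by
  refine le_antisymm (N.iso_le hb γ x y) ?_
  have := N.iso_le hb γ⁻¹ (N.ρ γ x) (N.ρ γ y)
  simpa using this

end NSp

namespace Plcs

variable {ι : Type} [Fintype ι] [DecidableEq ι] {D : Plcs} (N : ∀ v, NSp ι (D.av v) (D.b v))

theorem b_pos (D : Plcs) (v : D.J) : 0 < D.b v := zero_lt_one.trans (D.hb v)

theorem act_apply (γ : GLZ D.Z ι × GN.MZ) (x : (sp N).X) (v : D.J) :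
    act N γ x v = (N v).ρ (γ.1.1, γ.2) (x v) := rfl

theorem dist_le {x y : (sp N).X} {r : ℝ} (hr : 0 ≤ r) :
    dist x y ≤ r ↔ ∀ v, dist (x v) (y v) ≤ r := dist_pi_le_iff hr

theorem act_iso (γ : GLZ D.Z ι × GN.MZ) (x y : (sp N).X) :
    dist (act N γ x) (act N γ y) = dist x y := by
  refine le_antisymm ((dist_le N dist_nonneg).2 fun v => ?_) ((dist_le N dist_nonneg).2 fun v => ?_)
  · rw [act_apply, act_apply, (N v).iso (D.hb v)]
    exact (dist_le N dist_nonneg).1 le_rfl v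
  · rw [← (N v).iso (D.hb v) (γ.1.1, γ.2)]
    exact (dist_le N (x := act N γ x) (y := act N γ y) dist_nonneg).1 le_rfl v

theorem box_near {x y : (sp N).X} {r : ℝ} (h : dist x y ≤ r) (s : ℝ) :
    Box N x s ⊆ Box N y (s + r) := by
  rintro u ⟨h1, h2⟩
  have hr : 0 ≤ r := dist_nonneg.trans h
  refine ⟨h1, fun v => ?_⟩
  refine (((N v).dist_le _ _ _ hr).1 ((dist_le N hr).1 h v) u).2.trans ?_
  rw [add_comm s, Real.rpow_add (D.b_pos v)]
  exact mul_le_mul_of_nonneg_left (h2 v) (Real.rpow_nonneg (D.b_pos v).le _)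

theorem wd_near {x y : (sp N).X} {r : ℝ} (h : dist x y ≤ r) (s : ℝ) :
    Wd N x s ≤ Wd N y (s + r) := Submodule.span_mono (box_near N h s)

theorem wd_mono (x : (sp N).X) {s s' : ℝ} (h : s ≤ s') : Wd N x s ≤ Wd N x s' := by
  have := wd_near N (x := x) (y := x) (r := s' - s) (by rw [dist_self]; linarith) s
  rwa [add_sub_cancel] at this

theorem mem_Z {g : Matrix ι ι ℚ} (hg : ∀ i j, g i j ∈ D.Z) {u : ι → ℚ} (hu : ∀ i, u i ∈ D.Z)
    (i : ι) : (g *ᵥ u) i ∈ D.Z :=
  D.Z.sum_mem fun j _ => D.Z.mul_mem (hg i j) (hu j)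

theorem box_act (γ : GLZ D.Z ι × GN.MZ) {x : (sp N).X} {s : ℝ} {u : ι → ℚ} (h : u ∈ Box N x s) :
    γ.1.1.val *ᵥ u ∈ Box N (act N γ x) (s + ((γ.2.toAdd : ℤ) : ℝ)) := by
  refine ⟨mem_Z γ.1.2.1 h.1, fun v => ?_⟩
  rw [act_apply, (N v).ν_ρ (γ.1.1, γ.2), add_comm s, Real.rpow_add (D.b_pos v)]
  exact mul_le_mul_of_nonneg_left (h.2 v) (Real.rpow_nonneg (D.b_pos v).le _)

/-- The linear automorphism given by an element. -/
noncomputable def lin (γ : GLZ D.Z ι × GN.MZ) : (ι → ℚ) ≃ₗ[ℚ] (ι → ℚ) :=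
  Matrix.toLin'OfInv (M := γ.1.1.val) (M' := (γ.1.1⁻¹).val) (Units.mul_inv _) (Units.inv_mul _)
    |>.symm

theorem lin_apply (γ : GLZ D.Z ι × GN.MZ) (u : ι → ℚ) : lin γ u = γ.1.1.val *ᵥ u := rfl

theorem wd_act_le (γ : GLZ D.Z ι × GN.MZ) (x : (sp N).X) (s : ℝ) {u : ι → ℚ}
    (h : u ∈ Wd N x s) : γ.1.1.val *ᵥ u ∈ Wd N (act N γ x) (s + ((γ.2.toAdd : ℤ) : ℝ)) := by
  have : (Wd N x s).map (lin γ).toLinearMap ≤ Wd N (act N γ x) (s + ((γ.2.toAdd : ℤ) : ℝ)) := by
    rw [Wd, Submodule.map_span_le]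
    exact fun w hw => Submodule.subset_span (box_act N γ hw)
  exact this ⟨u, h, rfl⟩

theorem wd_act (γ : GLZ D.Z ι × GN.MZ) (x : (sp N).X) (s : ℝ) :
    Wd N (act N γ x) (s + ((γ.2.toAdd : ℤ) : ℝ)) = (Wd N x s).map (lin γ).toLinearMap := by
  refine le_antisymm (fun u hu => ?_) ?_
  · have h := wd_act_le N γ⁻¹ _ _ hu
    have e1 : act N γ⁻¹ (act N γ x) = x := by simp
    have e2 : s + ((γ.2.toAdd : ℤ) : ℝ) + (((γ⁻¹).2.toAdd : ℤ) : ℝ) = s := by simp
    rw [e1, e2] at h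
    refine ⟨_, h, ?_⟩
    change γ.1.1.val *ᵥ ((γ.1.1⁻¹).val *ᵥ u) = u
    rw [mulVec_mulVec, Units.mul_inv, one_mulVec]
  · rintro _ ⟨u, hu, rfl⟩
    exact wd_act_le N γ x s hu

theorem rk_act (γ : GLZ D.Z ι × GN.MZ) (x : (sp N).X) (s : ℝ) :
    finrank ℚ (Wd N (act N γ x) (s + ((γ.2.toAdd : ℤ) : ℝ))) = finrank ℚ (Wd N x s) := by
  rw [wd_act, LinearEquiv.finrank_map_eq]

theorem box_o (s : ℝ) (hs : s < 0) : Box N (sp N).o s ⊆ {0} := by
  rintro u ⟨h1, h2⟩
  refine funext fun i => D.disc _ (h1 i) fun v => ?_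
  exact (((N v).le_o u i).trans (h2 v)).trans_lt (Real.rpow_lt_one_of_one_lt_of_neg (D.hb v) hs)

theorem wd_bot (x : (sp N).X) : ∃ s, Wd N x s = ⊥ := by
  refine ⟨-1 - dist x (sp N).o, ?_⟩
  rw [Wd, Submodule.span_eq_bot]
  intro u hu
  exact box_o N _ (by linarith) (box_near N le_rfl _ hu)

theorem single_mem (j : ι) : Pi.single j (1 : ℚ) ∈ Box N (sp N).o 0 := by
  refine ⟨fun i => ?_, fun v => ((N v).o_le _).trans ?_⟩
  · rw [Pi.single_apply]
    split_ifs
    · exact D.Z.one_mem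
    · exact D.Z.zero_mem
  · rw [Finset.sum_eq_single j (fun i _ hi => by rw [Pi.single_eq_of_ne hi, D.av_zero])
      (fun h => absurd (Finset.mem_univ j) h), Pi.single_eq_same, D.av_one, Real.rpow_zero]

theorem wd_top (x : (sp N).X) : ∃ s, Wd N x s = ⊤ := by
  refine ⟨0 + dist (sp N).o x, eq_top_iff.2 (le_trans ?_ (wd_near N le_rfl 0))⟩
  rw [← (Pi.basisFun ℚ ι).span_eq]
  refine Submodule.span_mono ?_
  rintro _ ⟨j, rfl⟩
  rw [Pi.basisFun_apply]
  exact single_mem N j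

theorem rk_mono (x : (sp N).X) {s s' : ℝ} (h : s ≤ s') :
    finrank ℚ (Wd N x s) ≤ finrank ℚ (Wd N x s') := Submodule.finrank_mono (wd_mono N x h)

theorem lam_ne {r : ℕ} (hr : r ≤ Fintype.card ι) (x : (sp N).X) :
    {s | r ≤ finrank ℚ (Wd N x s)}.Nonempty := by
  obtain ⟨s, hs⟩ := wd_top N x
  refine ⟨s, ?_⟩
  change r ≤ _
  rw [hs, finrank_top, finrank_fintype_fun_eq_card]
  exact hr

theorem lam_bdd {r : ℕ} (hr : 0 < r) (x : (sp N).X) :
    BddBelow {s | r ≤ finrank ℚ (Wd N x s)} := by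
  obtain ⟨s, hs⟩ := wd_bot N x
  refine ⟨s, fun s' h => le_of_not_gt fun h' => ?_⟩
  have := le_trans h (rk_mono N x h'.le)
  rw [hs, finrank_bot] at this
  omega

theorem le_rk {r : ℕ} (hr : r ≤ Fintype.card ι) {x : (sp N).X} {s : ℝ} (h : lam N r x < s) :
    r ≤ finrank ℚ (Wd N x s) := by
  obtain ⟨s', h1, h2⟩ := exists_lt_of_csInf_lt (lam_ne N hr x) h
  exact le_trans h1 (rk_mono N x h2.le)

theorem lam_le {r : ℕ} (hr : 0 < r) {x : (sp N).X} {s : ℝ} (h : r ≤ finrank ℚ (Wd N x s)) :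
    lam N r x ≤ s := csInf_le (lam_bdd N hr x) h

theorem rk_lt {r : ℕ} (hr : 0 < r) {x : (sp N).X} {s : ℝ} (h : s < lam N r x) :
    finrank ℚ (Wd N x s) < r := lt_of_not_ge fun h' => h.not_ge (lam_le N hr h')

theorem lam_lip {r : ℕ} (h0 : 0 < r) (hr : r ≤ Fintype.card ι) (x y : (sp N).X) :
    lam N r y ≤ lam N r x + dist x y := by
  refine le_of_forall_pos_le_add fun ε hε => ?_
  have h := le_rk N hr (x := x) (s := lam N r x + ε) (by linarith)
  have := lam_le N h0 (h.trans (Submodule.finrank_mono (wd_near N (y := y) le_rfl _)))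
  linarith

theorem lam_act {r : ℕ} (h0 : 0 < r) (hr : r ≤ Fintype.card ι) (γ : GLZ D.Z ι × GN.MZ)
    (x : (sp N).X) : lam N r (act N γ x) = lam N r x + ((γ.2.toAdd : ℤ) : ℝ) := by
  refine le_antisymm (le_of_forall_pos_le_add fun ε hε => ?_)
    (le_of_forall_pos_le_add fun ε hε => ?_)
  · have h := le_rk N hr (x := x) (s := lam N r x + ε) (by linarith)
    rw [← rk_act N γ] at h
    have := lam_le N h0 h
    linarith
  · have h := le_rk N hr (x := act N γ x)
      (s := (lam N r (act N γ x) + ε - ((γ.2.toAdd : ℤ) : ℝ)) + ((γ.2.toAdd : ℤ) : ℝ)) (by linarith)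
    rw [rk_act N γ] at h
    have := lam_le N h0 h
    linarith

theorem rk_eq {r : ℕ} (hr : r ≤ Fintype.card ι) {x : (sp N).X} {s : ℝ} (h1 : lam N r x < s)
    (h2 : s < lam N (r + 1) x) : finrank ℚ (Wd N x s) = r :=
  le_antisymm (Nat.lt_succ_iff.1 (rk_lt N r.succ_pos h2)) (le_rk N hr h1)

theorem wd_eq {r : ℕ} (hr : r ≤ Fintype.card ι) {x : (sp N).X} {s s' : ℝ} (h1 : lam N r x < s)
    (h2 : s < lam N (r + 1) x) (h3 : lam N r x < s') (h4 : s' < lam N (r + 1) x) :
    Wd N x s = Wd N x s' := by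
  have e := (rk_eq N hr h1 h2).trans (rk_eq N hr h3 h4).symm
  rcases le_total s s' with h | h
  · exact Submodule.eq_of_le_of_finrank_eq (wd_mono N x h) e
  · exact (Submodule.eq_of_le_of_finrank_eq (wd_mono N x h) e.symm).symm

theorem box_finite (s : ℝ) : (Box N (sp N).o s).Finite := by
  refine (Set.Finite.pi' fun _ : ι => D.finite (∑ v, D.b v ^ s)).subset ?_
  rintro u ⟨h1, h2⟩ i
  refine ⟨h1 i, fun v => (((N v).le_o u i).trans (h2 v)).trans ?_⟩
  exact Finset.single_le_sum (f := fun v => D.b v ^ s)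
    (fun w _ => Real.rpow_nonneg (D.b_pos w).le _) (Finset.mem_univ v)

theorem act_prp (hι : 1 ≤ Fintype.card ι) (r : ℝ) :
    {γ | dist (act N γ (sp N).o) (sp N).o ≤ r}.Finite := by
  have hk : ∀ γ, dist (act N γ (sp N).o) (sp N).o ≤ r → |((γ.2.toAdd : ℤ) : ℝ)| ≤ r := by
    intro γ h
    have h1 := lam_lip N one_pos hι (act N γ (sp N).o) (sp N).o
    have h2 := lam_lip N one_pos hι (sp N).o (act N γ (sp N).o)
    rw [dist_comm] at h2
    rw [lam_act N one_pos hι] at h1 h2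
    exact abs_le.2 ⟨by linarith, by linarith⟩
  let Φ : GLZ D.Z ι × GN.MZ → (ι → ι → ℚ) × ℤ :=
    fun γ => (fun j => γ.1.1.val *ᵥ Pi.single j 1, γ.2.toAdd)
  have hΦ : Function.Injective Φ := fun γ γ' h => by
    refine Prod.ext (Subtype.ext (Units.ext ?_))
      (congrArg (fun z : (ι → ι → ℚ) × ℤ => Multiplicative.ofAdd z.2) h)
    ext i j
    simpa [Φ] using congrFun (congrFun (congrArg Prod.fst h) j) i
  refine Set.Finite.of_finite_image (f := Φ) ?_ hΦ.injOn
  refine ((Set.Finite.pi' fun _ : ι => box_finite N (r + r)).prod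
    (Set.finite_Icc (-⌈r⌉) ⌈r⌉)).subset ?_
  rintro _ ⟨γ, hγ, rfl⟩
  have h := abs_le.1 (hk γ hγ)
  refine ⟨fun j => ?_, ?_, ?_⟩
  · have h1 := box_near N hγ _ (box_act N γ (single_mem N j))
    have h2 := box_near N (x := (sp N).o) (y := (sp N).o)
      (r := r - ((γ.2.toAdd : ℤ) : ℝ)) (by rw [dist_self]; linarith) _ h1
    convert h2 using 2
    ring
  · have : ((-⌈r⌉ : ℤ) : ℝ) ≤ ((γ.2.toAdd : ℤ) : ℝ) := by
      push_cast
      linarith [Int.le_ceil r]
    exact_mod_cast this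
  · have : ((γ.2.toAdd : ℤ) : ℝ) ≤ ((⌈r⌉ : ℤ) : ℝ) := h.2.trans (Int.le_ceil r)
    exact_mod_cast this

end Plcs

end Pool.Agent.MP_f7db47_al.GF

end

section

/-!
Reduction theory.
-/

namespace Pool.Agent.MP_f7db47_al.GF

open Matrix

theorem ARed_zero (D : Plcs) {ι : Type} {v : D.J} {ν : (ι → ℚ) → ℝ}
    (hs : ∀ (a : ℚ) u, ν (a • u) = D.av v a * ν u) : ν 0 = 0 := by
  have h := hs 0 0
  rwa [zero_smul, D.av_zero, zero_mul] at h

theorem ARed_neg (D : Plcs) {ι : Type} {v : D.J} {ν : (ι → ℚ) → ℝ}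
    (hs : ∀ (a : ℚ) u, ν (a • u) = D.av v a * ν u) (u : ι → ℚ) : ν (-u) = ν u := by
  have h := hs (-1) u
  rwa [neg_one_smul, D.av_neg, D.av_one, one_mul] at h

theorem ARed_nonneg (D : Plcs) {ι : Type} {v : D.J} {ν : (ι → ℚ) → ℝ}
    (ha : ∀ u u', ν (u + u') ≤ ν u + ν u')
    (hs : ∀ (a : ℚ) u, ν (a • u) = D.av v a * ν u) (u : ι → ℚ) : 0 ≤ ν u := by
  have h := ha u (-u)
  rw [add_neg_cancel, ARed_zero D hs, ARed_neg D hs] at h
  linarith

theorem ARed_sum (D : Plcs) {ι κ : Type} {v : D.J} {ν : (ι → ℚ) → ℝ}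
    (ha : ∀ u u', ν (u + u') ≤ ν u + ν u')
    (hs : ∀ (a : ℚ) u, ν (a • u) = D.av v a * ν u) (s : Finset κ) (f : κ → ι → ℚ) :
    ν (∑ k ∈ s, f k) ≤ ∑ k ∈ s, ν (f k) := by
  classical
  induction s using Finset.induction_on with
  | empty => simp [ARed_zero D hs]
  | insert k s hk ih =>
    rw [Finset.sum_insert hk, Finset.sum_insert hk]
    exact (ha _ _).trans (by linarith)

theorem ARed_mulVec {ι : Type} [Fintype ι] (U : Matrix ι ι ℚ) (a : ι → ℚ) :
    U *ᵥ a = ∑ k, a k • fun i => U i k := by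
  funext i
  simp [Matrix.mulVec, dotProduct, Finset.sum_apply, mul_comm]

theorem ARed_basis {ι : Type} [Fintype ι] [DecidableEq ι] {S : Set (ι → ℚ)}
    (h : Submodule.span ℚ S = ⊤) : ∃ U : GL ι ℚ, ∀ k, (fun i => U.val i k) ∈ S := by
  obtain ⟨b, hb, hsp, hli⟩ := exists_linearIndependent ℚ S
  let B : Module.Basis b ℚ (ι → ℚ) := Module.Basis.mk hli (by
    rw [Subtype.range_coe, hsp, h])
  let e : b ≃ ι := B.indexEquiv (Pi.basisFun ℚ ι)
  let B' := B.reindex e
  have := (Pi.basisFun ℚ ι).invertibleToMatrix B'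
  refine ⟨unitOfInvertible ((Pi.basisFun ℚ ι).toMatrix B'), fun k => ?_⟩
  have : (fun i => (unitOfInvertible ((Pi.basisFun ℚ ι).toMatrix B')).val i k) = B' k := by
    funext i
    simp [Module.Basis.toMatrix_apply]
  rw [this]
  simp only [B', B, Module.Basis.reindex_apply, Module.Basis.mk_apply]
  exact hb (e.symm k).2

theorem ARed_pow (D : Plcs) (A : ℝ) : ∃ C : ℝ, 0 ≤ C ∧ ∀ v, A ≤ D.b v ^ C := by
  choose n hn using fun v => pow_unbounded_of_one_lt A (D.hb v)
  refine ⟨((∑ v, n v : ℕ) : ℝ), Nat.cast_nonneg _, fun v => ?_⟩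
  rw [Real.rpow_natCast]
  exact (hn v).le.trans (pow_le_pow_right₀ (D.hb v).le
    (Finset.single_le_sum (fun w _ => Nat.zero_le (n w)) (Finset.mem_univ v)))

theorem ARed_int {Z : Subring ℚ} {ι : Type} [Fintype ι] {U : Matrix ι ι ℚ} {a : ι → ℚ}
    (hU : ∀ i j, U i j ∈ Z) (ha : ∀ j, a j ∈ Z) (i : ι) : (U *ᵥ a) i ∈ Z :=
  Z.sum_mem fun j _ => Z.mul_mem (hU i j) (ha j)

theorem ARed_inj {ι : Type} [Fintype ι] [DecidableEq ι] (U : GL ι ℚ) {a : ι → ℚ}
    (h : U.val *ᵥ a = 0) : a = 0 := by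
  have h2 : (U⁻¹).val *ᵥ (U.val *ᵥ a) = a := by
    rw [Matrix.mulVec_mulVec, ← Units.val_mul, inv_mul_cancel, Units.val_one, Matrix.one_mulVec]
  rw [← h2, h, Matrix.mulVec_zero]

theorem red (D : Plcs) (ι : Type) [Fintype ι] [DecidableEq ι] [Nonempty ι] (T : ℝ) :
    ∃ C : ℝ, 0 ≤ C ∧
    ∀ ν o : D.J → (ι → ℚ) → ℝ, (∀ v u u', ν v (u + u') ≤ ν v u + ν v u') →
      (∀ v (a : ℚ) u, ν v (a • u) = D.av v a * ν v u) → (∀ v u i, D.av v (u i) ≤ o v u) →
      (∀ v u, o v u ≤ ∑ i, D.av v (u i)) →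
      (∀ u : ι → ℚ, (∀ i, u i ∈ D.Z) → (∀ v, ν v u ≤ 1) → u = 0) →
      Submodule.span ℚ {u : ι → ℚ | (∀ i, u i ∈ D.Z) ∧ ∀ v, ν v u ≤ D.b v ^ T} = ⊤ →
      ∃ g ∈ GLZ D.Z ι, ∀ v u, ν v (g.val *ᵥ u) ≤ D.b v ^ C * o v u ∧
        o v u ≤ D.b v ^ C * ν v (g.val *ᵥ u) := by
  set N : ℝ := (Fintype.card ι : ℝ) with hN
  have hN0 : 0 ≤ N := Nat.cast_nonneg _
  set bT : ℝ := ∑ v, D.b v ^ T with hbT
  have hb0 : ∀ v, 0 ≤ D.b v ^ T := fun v => Real.rpow_nonneg (by linarith [D.hb v]) _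
  have hbT0 : 0 ≤ bT := Finset.sum_nonneg fun v _ => hb0 v
  have hbT1 : ∀ v, D.b v ^ T ≤ bT := fun v =>
    Finset.single_le_sum (fun w _ => hb0 w) (Finset.mem_univ v)
  have hNb : 0 ≤ N * bT := mul_nonneg hN0 hbT0
  obtain ⟨C0, hC0⟩ := D.bas ι (1 / (N * bT + 1)) (by positivity)
  set C1 : ℝ := N * |C0| * bT with hC1
  have hC10 : 0 ≤ C1 := by positivity
  have hNC : 0 ≤ N * C1 := mul_nonneg hN0 hC10
  obtain ⟨K, hK⟩ := D.app ι (1 / (2 * (N * C1) + 2)) (by positivity)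
  obtain ⟨C, hC, hCb⟩ := ARed_pow D (max (N * C1) (2 * N * |K|))
  refine ⟨C, hC, fun ν o ha hs ho1 ho2 hd hsp => ?_⟩
  obtain ⟨U, hU⟩ := ARed_basis hsp
  have hcol : ∀ v k, ν v (fun i => U.val i k) ≤ bT := fun v k => ((hU k).2 v).trans (hbT1 v)
  obtain ⟨g, hg, hM⟩ := hC0 U (fun i j => (hU j).1 i) (fun a h1 h2 => by
    refine ARed_inj U (hd _ h1 fun v => ?_)
    rw [ARed_mulVec]
    refine (ARed_sum D (ha v) (hs v) _ _).trans ?_
    calc ∑ k, ν v (a k • fun i => U.val i k) ≤ ∑ _k : ι, 1 / (N * bT + 1) * bT := by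
          refine Finset.sum_le_sum fun k _ => ?_
          rw [hs]
          exact mul_le_mul (h2 v k) (hcol v k) (ARed_nonneg D (ha v) (hs v) _) (by positivity)
      _ = N * bT / (N * bT + 1) := by
          rw [Finset.sum_const, Finset.card_univ, nsmul_eq_mul]; ring
      _ ≤ 1 := by rw [div_le_one (by positivity)]; linarith)
  have hgc : ∀ v j, ν v (fun i => g.val i j) ≤ C1 := fun v j => by
    have e : (fun i => g.val i j) = U.val *ᵥ fun k => (U⁻¹ * g).val k j := by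
      funext i
      change _ = (U.val * (U⁻¹ * g).val) i j
      rw [← Units.val_mul, mul_inv_cancel_left]
    rw [e, ARed_mulVec]
    refine (ARed_sum D (ha v) (hs v) _ _).trans ?_
    calc _ ≤ ∑ _k : ι, |C0| * bT := by
          refine Finset.sum_le_sum fun k _ => ?_
          rw [hs]
          exact mul_le_mul ((hM v k j).trans (le_abs_self _)) (hcol v k)
            (ARed_nonneg D (ha v) (hs v) _) (abs_nonneg _)
      _ = C1 := by rw [Finset.sum_const, Finset.card_univ, nsmul_eq_mul]; ring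
  have hA : ∀ v (u : ι → ℚ) (r : ℝ), (∀ j, D.av v (u j) ≤ r) →
      ν v (g.val *ᵥ u) ≤ N * C1 * r := fun v u r hr => by
    rw [ARed_mulVec]
    refine (ARed_sum D (ha v) (hs v) _ _).trans ?_
    calc _ ≤ ∑ _k : ι, r * C1 := by
          refine Finset.sum_le_sum fun k _ => ?_
          rw [hs]
          exact mul_le_mul (hr k) (hgc v k) (ARed_nonneg D (ha v) (hs v) _)
            ((D.av_nonneg v _).trans (hr k))
      _ = _ := by rw [Finset.sum_const, Finset.card_univ, nsmul_eq_mul]; ring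
  refine ⟨g, hg, fun v u => ⟨?_, ?_⟩⟩
  · refine (hA v u _ (ho1 v u)).trans (mul_le_mul_of_nonneg_right
      ((le_max_left _ _).trans (hCb v)) ?_)
    exact (D.av_nonneg v _).trans (ho1 v u (Classical.arbitrary ι))
  · have hn := ARed_nonneg D (ha v) (hs v) (g.val *ᵥ u)
    refine le_trans ?_ (mul_le_mul_of_nonneg_right ((le_max_right _ _).trans (hCb v)) hn)
    obtain ⟨i, -, hi⟩ := Finset.exists_max_image Finset.univ (fun i => D.av v (u i))
      Finset.univ_nonempty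
    have h1 : o v u ≤ N * D.av v (u i) := (ho2 v u).trans (by
      calc _ ≤ ∑ _k : ι, D.av v (u i) := Finset.sum_le_sum fun k _ => hi k (Finset.mem_univ k)
        _ = _ := by rw [Finset.sum_const, Finset.card_univ, nsmul_eq_mul])
    refine h1.trans ?_
    by_cases hui : u i = 0
    · rw [hui, D.av_zero, mul_zero]; positivity
    have hinv : D.av v (u i)⁻¹ * D.av v (u i) = 1 := by
      rw [← D.av_mul, inv_mul_cancel₀ hui, D.av_one]
    have hw : ∀ j, D.av v (((u i)⁻¹ • u) j) ≤ 1 := fun j => by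
      rw [Pi.smul_apply, smul_eq_mul, D.av_mul, ← hinv]
      exact mul_le_mul_of_nonneg_left (hi j (Finset.mem_univ j)) (D.av_nonneg _ _)
    obtain ⟨c, z, hz, hc1, hcK, hcz, hzv⟩ := hK v _ hw
    have heps : N * C1 * (1 / (2 * (N * C1) + 2)) ≤ 1 / 2 := by
      rw [mul_one_div, div_le_div_iff₀ (by positivity) (by norm_num)]; linarith
    have hz0 : z ≠ 0 := fun h0 => by
      have h2 := hcz i
      rw [h0, Pi.smul_apply, smul_eq_mul, inv_mul_cancel₀ hui, Pi.zero_apply, mul_one,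
        sub_zero] at h2
      have : 1 / (2 * (N * C1) + 2) < 1 := by rw [div_lt_one (by positivity)]; linarith
      linarith
    have hgz : 1 < ν v (g.val *ᵥ z) := by
      by_contra hle
      refine hz0 (ARed_inj g (hd _ (ARed_int hg.1 hz) fun v' => ?_))
      by_cases hv : v' = v
      · rw [hv]; exact not_lt.1 hle
      · exact (hA v' z _ (hzv v' hv)).trans (heps.trans (by norm_num))
    have e : g.val *ᵥ z = (c * (u i)⁻¹) • (g.val *ᵥ u) +
        -(g.val *ᵥ fun j => c * ((u i)⁻¹ • u) j - z j) := by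
      rw [← Matrix.mulVec_smul, ← Matrix.mulVec_neg, ← Matrix.mulVec_add]
      congr 1
      funext j
      simp only [Pi.add_apply, Pi.smul_apply, Pi.neg_apply, smul_eq_mul]
      ring
    have h3 := ha v ((c * (u i)⁻¹) • (g.val *ᵥ u))
      (-(g.val *ᵥ fun j => c * ((u i)⁻¹ • u) j - z j))
    rw [← e, hs, ARed_neg D (hs v), D.av_mul] at h3
    have h4 := (hA v (fun j => c * ((u i)⁻¹ • u) j - z j) _ hcz).trans heps
    have h5 : D.av v c * D.av v (u i)⁻¹ * ν v (g.val *ᵥ u) ≤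
        |K| * D.av v (u i)⁻¹ * ν v (g.val *ᵥ u) :=
      mul_le_mul_of_nonneg_right (mul_le_mul_of_nonneg_right (hcK.trans (le_abs_self _))
        (D.av_nonneg _ _)) hn
    have h6 : 1 / 2 ≤ |K| * D.av v (u i)⁻¹ * ν v (g.val *ᵥ u) := by linarith
    have h7 := mul_le_mul_of_nonneg_left h6 (mul_nonneg hN0 (D.av_nonneg v (u i)))
    have h8 : N * D.av v (u i) * (|K| * D.av v (u i)⁻¹ * ν v (g.val *ᵥ u)) =
        N * |K| * ν v (g.val *ᵥ u) := by
      calc _ = N * |K| * ν v (g.val *ᵥ u) * (D.av v (u i)⁻¹ * D.av v (u i)) := by ring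
        _ = _ := by rw [hinv, mul_one]
    rw [h8] at h7
    linarith

end Pool.Agent.MP_f7db47_al.GF

end

section

/-!
The action of the arithmetic group is cocompact away from the cusps.
-/

namespace Pool.Agent.MP_f7db47_al.GF

open Matrix Module

namespace Plcs

variable {n : ℕ} {D : Plcs} (N : ∀ v, NSp (Fin (n + 1)) (D.av v) (D.b v))

/-- Half the gap between two successive minima. -/
noncomputable def gap (i : Fin n) (x : (sp N).X) : ℝ :=
  (lam N (i + 1 + 1) x - lam N (i + 1) x) / 2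

/-- The subspace spanned by the short vectors. -/
noncomputable def Wm (i : Fin n) (x : (sp N).X) : Submodule ℚ (Fin (n + 1) → ℚ) :=
  Wd N x ((lam N (i + 1) x + lam N (i + 1 + 1) x) / 2)

theorem i1 (i : Fin n) : (i : ℕ) + 1 ≤ Fintype.card (Fin (n + 1)) := by
  rw [Fintype.card_fin]; omega

theorem i2 (i : Fin n) : (i : ℕ) + 1 + 1 ≤ Fintype.card (Fin (n + 1)) := by
  rw [Fintype.card_fin]; omega

theorem Wm_act (i : Fin n) (γ : GLZ D.Z (Fin (n + 1)) × GN.MZ) (x : (sp N).X) :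
    Wm N i (act N γ x) = (Wm N i x).map (lin γ).toLinearMap := by
  rw [Wm, Wm, ← wd_act, lam_act N (by omega) (i1 i), lam_act N (by omega) (i2 i)]
  congr 1
  ring

theorem Wm_near (i : Fin n) (x y : (sp N).X) (h : dist x y < gap N i x) :
    Wm N i x = Wm N i y := by
  unfold gap at h
  have d0 : 0 ≤ dist x y := dist_nonneg
  have h1 := lam_lip N (r := i + 1) (by omega) (i1 i) x y
  have h2 := lam_lip N (r := i + 1 + 1) (by omega) (i2 i) y x
  rw [dist_comm y x] at h2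
  set m := (lam N (i + 1) x + lam N (i + 1 + 1) x) / 2 with hm
  have e1 : Wd N y m = Wm N i y :=
    wd_eq N (i1 i) (by linarith) (by linarith) (by linarith) (by linarith)
  have e2 : Wm N i x = Wd N x (m - dist x y) :=
    wd_eq N (i1 i) (by linarith) (by linarith) (by linarith) (by linarith)
  have e3 : Wm N i x = Wd N x (m + dist x y) :=
    wd_eq N (i1 i) (by linarith) (by linarith) (by linarith) (by linarith)
  rw [← e1]
  refine le_antisymm ?_ ?_
  · have := wd_near N (x := x) (y := y) le_rfl (m - dist x y)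
    rwa [sub_add_cancel, ← e2] at this
  · rw [e3]
    exact wd_near N (dist_comm y x).le m

theorem lam_top {x : (sp N).X} {T : ℝ} (h : ∀ i, gap N i x ≤ T) (k : ℕ) (hk : k ≤ n) :
    lam N (k + 1) x ≤ lam N 1 x + k * (2 * T) := by
  induction k with
  | zero => simp
  | succ k ih =>
    have h1 := ih (by omega)
    have h2 := h ⟨k, hk⟩
    unfold gap at h2
    push_cast at h2 ⊢
    linarith

theorem act_cc (T : ℝ) : ∃ C : ℝ, ∀ x, (∀ i, gap N i x ≤ T) →
    ∃ γ, dist (act N γ x) (sp N).o ≤ C := by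
  obtain ⟨C, hC, hred⟩ := red D (Fin (n + 1)) (3 + n * (2 * T))
  refine ⟨C, fun x hx => ?_⟩
  have c1 : 1 ≤ Fintype.card (Fin (n + 1)) := by rw [Fintype.card_fin]; omega
  let γ₀ : GLZ D.Z (Fin (n + 1)) × GN.MZ := (1, Multiplicative.ofAdd (1 - ⌊lam N 1 x⌋))
  have l1 : ∀ r, 0 < r → r ≤ Fintype.card (Fin (n + 1)) →
      lam N r (act N γ₀ x) = lam N r x + (1 - ⌊lam N 1 x⌋) := fun r h0 hr => by
    rw [lam_act N h0 hr]
    simp [γ₀]
  have f1 := Int.floor_le (lam N 1 x)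
  have f2 := Int.lt_floor_add_one (lam N 1 x)
  obtain ⟨g, hg, H⟩ := hred (fun v => (N v).ν (act N γ₀ x v)) (fun v => (N v).ν (N v).S.o)
    (fun v => (N v).add _) (fun v => (N v).smul _) (fun v => (N v).le_o) (fun v => (N v).o_le)
    (fun u h1 h2 => by
      have h3 : finrank ℚ (Wd N (act N γ₀ x) 0) < 1 :=
        rk_lt N one_pos (by rw [l1 1 one_pos c1]; linarith)
      have h4 : Wd N (act N γ₀ x) 0 = ⊥ := Submodule.finrank_eq_zero.1 (by omega)
      have h5 : u ∈ Wd N (act N γ₀ x) 0 :=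
        Submodule.subset_span ⟨h1, fun v => by rw [Real.rpow_zero]; exact h2 v⟩
      rwa [h4] at h5)
    (by
      have h3 := le_rk N (r := n + 1) (Fintype.card_fin _).ge (x := act N γ₀ x)
        (s := 3 + n * (2 * T)) (by
          rw [l1 _ n.succ_pos (Fintype.card_fin _).ge]
          linarith [lam_top N hx n le_rfl])
      refine Submodule.eq_top_of_finrank_eq (le_antisymm (Submodule.finrank_le _) ?_)
      rw [finrank_fintype_fun_eq_card, Fintype.card_fin]
      exact h3)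
  let γ₁ : GLZ D.Z (Fin (n + 1)) × GN.MZ := (⟨g, hg⟩⁻¹, 1)
  refine ⟨γ₁ * γ₀, (dist_le N hC).2 fun v => ((N v).dist_le _ _ _ hC).2 fun u => ?_⟩
  have e : (N v).ν (act N (γ₁ * γ₀) x v) u = (N v).ν (act N γ₀ x v) (g.val *ᵥ u) := by
    have h := (N v).ν_ρ (γ₁.1.1, γ₁.2) (act N γ₀ x v) (g.val *ᵥ u)
    have e1 : (γ₁.1.1, γ₁.2).1.val *ᵥ (g.val *ᵥ u) = u := by
      change (g⁻¹).val *ᵥ (g.val *ᵥ u) = u
      rw [mulVec_mulVec, Units.inv_mul, one_mulVec]
    rw [e1] at h
    rw [map_mul, Equiv.Perm.mul_apply, act_apply, h]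
    simp [γ₁]
  rw [e]
  exact H v u

theorem hasPack (h : (sp N).Good) :
    HasPack (GLZ D.Z (Fin (n + 1)) × GN.MZ) (FamZ D.Z (Fin (n + 1))) := by
  refine ⟨sp N, h, ⟨{
    ρ := act N
    iso := act_iso N
    line := fun γ c hc v => (N v).line (γ.1.1, γ.2) _ (hc v)
    prp := act_prp N (by rw [Fintype.card_fin]; omega)
    ι := Fin n
    h := gap N
    E := fun i x y => Wm N i x = Wm N i y
    eqv := fun i => ⟨fun _ => rfl, Eq.symm, Eq.trans⟩
    E_inv := fun i γ x y e => by rw [Wm_act, Wm_act, e]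
    h_inv := fun i γ x => by
      rw [gap, gap, lam_act N (by omega) (i1 i), lam_act N (by omega) (i2 i)]
      ring
    h_lip := fun i x y => by
      have h1 := lam_lip N (r := i + 1) (by omega) (i1 i) x y
      have h2 := lam_lip N (r := i + 1 + 1) (by omega) (i2 i) y x
      rw [dist_comm y x] at h2
      unfold gap
      linarith
    near := Wm_near N
    cc := act_cc N
    cusp := fun i x hx => ?_ }⟩⟩
  unfold gap at hx
  have hr : finrank ℚ (Wm N i x) = i + 1 := rk_eq N (i1 i) (by linarith) (by linarith)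
  let B : Subgroup (GLZ D.Z (Fin (n + 1)) × GN.MZ) :=
    { carrier := {γ | Wm N i x = Wm N i (act N γ x)}
      one_mem' := by simp
      mul_mem' := fun {a b} ha hb => by
        change Wm N i x = _
        rw [map_mul, Equiv.Perm.mul_apply, Wm_act, ← hb, ← Wm_act]
        exact ha
      inv_mem' := fun {a} ha => by
        change Wm N i x = _
        rw [Wm_act, ha, ← Wm_act]
        simpa using ha.symm }
  refine ⟨B, ⟨Wm N i x, fun e => ?_, fun e => ?_, fun γ hγ u hu => ?_⟩, fun γ hγ => hγ⟩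
  · rw [e, finrank_bot] at hr
    omega
  · rw [e, finrank_top, finrank_fintype_fun_eq_card, Fintype.card_fin] at hr
    omega
  · have e : Wm N i x = (Wm N i x).map (lin γ).toLinearMap := by rw [← Wm_act]; exact hγ
    rw [e]
    exact ⟨u, hu, rfl⟩

end Plcs

end Pool.Agent.MP_f7db47_al.GF

end

section

/-!
Finitely generated unipotent groups are poly-infinite-cyclic.
-/

namespace Pool.Agent.MP_f7db47_al.GS

theorem Uni3_lat {U K A : Type} [Group U] [Group.FG U] [Field K] [Ring A] [Algebra K A]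
    (f : U →* A) (J : Submodule K A) (c : ℕ) (h1 : ∀ g, f g - 1 ∈ J) (hc : J ^ c = ⊥) :
    ∃ Λ : Submodule ℤ A, Λ.FG ∧ ∀ g, f g - 1 ∈ Λ := by
  obtain ⟨S, hS, hfin⟩ := Group.fg_iff.1 ‹Group.FG U›
  let N : Submodule ℤ A := Submodule.span ℤ ((fun g => f g - 1) '' (S ∪ S⁻¹))
  have hN : N.FG := Submodule.fg_span ((hfin.union hfin.inv).image _)
  have hNJ : ∀ k, N ^ k ≤ (J ^ k).restrictScalars ℤ := fun k => by
    induction k with
    | zero =>
      rw [pow_zero, pow_zero, Submodule.one_le]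
      exact (Submodule.one_le (P := (1 : Submodule K A))).1 le_rfl
    | succ k ih =>
      rw [pow_succ, pow_succ, Submodule.mul_le]
      intro x hx y hy
      have hx' : x ∈ J ^ k := ih hx
      have hy' : y ∈ J := by
        refine (Submodule.span_le (p := J.restrictScalars ℤ)).2 ?_ hy
        rintro _ ⟨g, -, rfl⟩
        exact h1 g
      rw [Submodule.restrictScalars_mem]
      exact Submodule.mul_mem_mul hx' hy'
  have hle : ∀ k, N ^ k ≤ ⨆ i : Fin c, N ^ (i : ℕ) := fun k => by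
    rcases lt_or_ge k c with h | h
    · exact le_iSup (fun i : Fin c => N ^ (i : ℕ)) ⟨k, h⟩
    · obtain ⟨j, rfl⟩ := Nat.exists_eq_add_of_le h
      intro x hx
      have h2 : x ∈ J ^ (c + j) := hNJ _ hx
      rw [pow_add, hc, Submodule.bot_mul, Submodule.mem_bot] at h2
      rw [h2]
      exact zero_mem _
  refine ⟨⨆ i : Fin c, N ^ (i : ℕ), Submodule.fg_iSup _ fun i => hN.pow _, fun g => ?_⟩
  set Λ := ⨆ i : Fin c, N ^ (i : ℕ) with hΛ
  have hNΛ : N * Λ ≤ Λ := by
    conv_lhs => rw [hΛ, Submodule.mul_iSup]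
    exact iSup_le fun i => by
      rw [← pow_succ']
      exact hle _
  have hs : ∀ s ∈ S ∪ S⁻¹, ∀ x ∈ Λ, f s * x ∈ Λ := fun s hs x hx => by
    rw [← sub_add_cancel (f s) 1, add_mul, one_mul]
    exact add_mem (hNΛ (Submodule.mul_mem_mul (Submodule.subset_span ⟨s, hs, rfl⟩) hx)) hx
  have h2 : ∀ x ∈ Λ, f g * x ∈ Λ := by
    have hg : g ∈ Subgroup.closure S := hS ▸ Subgroup.mem_top g
    induction hg using Subgroup.closure_induction'' with
    | mem s h => exact hs s (Or.inl h)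
    | inv_mem s h => exact hs s⁻¹ (Or.inr (Set.inv_mem_inv.2 h))
    | one => simp
    | mul a b _ _ ha hb =>
      intro x hx
      rw [map_mul, mul_assoc]
      exact ha _ (hb x hx)
  have h3 : (1 : A) ∈ Λ := hle 0 (by
    rw [pow_zero]
    exact Submodule.one_le.1 le_rfl)
  exact sub_mem (by simpa using h2 1 h3) h3

theorem polyZ_ext {P : Type} [Group P] (hP : PolyZ P) : ∀ (G : Type) [Group G] (φ : G →* P),
    PolyZ φ.ker → PolyZ G := by
  induction hP with
  | triv P h =>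
    intro G _ φ hk
    exact polyZ_of_injective hk G ((MonoidHom.id G).codRestrict φ.ker fun g =>
      Subsingleton.elim _ _) fun x y hxy => congrArg Subtype.val hxy
  | ext P h _ ih =>
    intro G _ φ hk
    refine PolyZ.ext G (h.comp φ) (ih _ ((φ.comp (h.comp φ).ker.subtype).codRestrict h.ker
      fun x => x.2) (polyZ_of_injective hk _ (((Subgroup.subtype _).comp
        (Subgroup.subtype _)).codRestrict φ.ker fun x => congrArg Subtype.val x.2) ?_))
    intro x y hxy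
    have e := congrArg Subtype.val hxy
    exact Subtype.ext (Subtype.ext e)

theorem PolyZ_tf {P : Type} [Group P] (hP : PolyZ P) (g : P) (hg : IsOfFinOrder g) : g = 1 := by
  induction hP with
  | triv P h => exact Subsingleton.elim _ _
  | ext P h _ ih =>
    have h1 : h g = 1 := (h.isOfFinOrder hg).eq_one'
    exact congrArg Subtype.val (ih ⟨g, h1⟩
      ((h.ker.subtype_injective.isOfFinOrder_iff (f := h.ker.subtype)).1 hg))

theorem polyZ_of_unip {U K : Type} [Group U] [Group.FG U] [Field K] [CharZero K] {n : ℕ}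
    (f : U →* Matrix (Fin n) (Fin n) K) (hf : Function.Injective f)
    (J : Submodule K (Matrix (Fin n) (Fin n) K)) (c : ℕ) (h1 : ∀ g, f g - 1 ∈ J)
    (h2 : ∀ a ∈ J, ∀ b ∈ J, a * b ∈ J)
    (h3 : ∀ l : List (Matrix (Fin n) (Fin n) K), l.length = c → (∀ a ∈ l, a ∈ J) → l.prod = 0) :
    PolyZ U := by
  classical
  have hJ : ∀ i, J ^ (i + 2) ≤ J ^ (i + 1) := fun i => by
    rw [pow_succ J (i + 1), pow_succ J i, mul_assoc]
    exact mul_le_mul_right (Submodule.mul_le.2 h2) _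
  have hc : J ^ c = ⊥ := by
    rw [Submodule.pow_eq_span_pow_set, Submodule.span_eq_bot]
    intro x hx
    obtain ⟨l, rfl⟩ := Set.mem_pow.1 hx
    refine h3 _ List.length_ofFn fun a ha => ?_
    obtain ⟨i, rfl⟩ := List.mem_ofFn.1 ha
    exact (l i).2
  obtain ⟨Λ, hΛ, hm⟩ := Uni3_lat f J c h1 hc
  have hmul : ∀ i (a b : U), f b - 1 ∈ J ^ (i + 1) → (f a - 1) * (f b - 1) ∈ J ^ (i + 2) :=
    fun i a b hb => by
      rw [pow_succ' J (i + 1)]
      exact Submodule.mul_mem_mul (h1 a) hb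
  have hid : ∀ a b : U, f (a * b) - 1 = (f a - 1) * (f b - 1) + ((f a - 1) + (f b - 1)) :=
    fun a b => by
      rw [map_mul]
      noncomm_ring
  let V : ℕ → Subgroup U := fun i =>
    { carrier := {g | f g - 1 ∈ J ^ (i + 1)}
      one_mem' := by simp
      mul_mem' := fun {a b} ha hb => by
        rw [Set.mem_ofPred_eq, hid]
        exact add_mem (hJ i (hmul i a b hb)) (add_mem ha hb)
      inv_mem' := fun {a} ha => by
        have e := hid a⁻¹ a
        rw [inv_mul_cancel, map_one, sub_self, ← add_assoc, add_right_comm, eq_comm,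
          add_eq_zero_iff_neg_eq] at e
        rw [Set.mem_ofPred_eq, ← e]
        exact neg_mem (add_mem (hJ i (hmul i _ a ha)) ha) }
  have key : ∀ k i, i + k = c → PolyZ (V i) := by
    intro k
    induction k with
    | zero =>
      intro i hi
      obtain rfl : i = c := hi
      have h0 : ∀ x : V i, x = 1 := fun x => by
        have hx : f x - 1 ∈ J ^ (i + 1) := x.2
        rw [pow_succ, hc, Submodule.bot_mul, Submodule.mem_bot, sub_eq_zero, ← map_one f] at hx
        exact Subtype.ext (hf hx)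
      exact PolyZ.triv _ ⟨fun x y => (h0 x).trans (h0 y).symm⟩
    | succ k ih =>
      intro i hi
      let T := Λ.map ((J ^ (i + 2)).mkQ.restrictScalars ℤ)
      have hT : Module.Finite ℤ T := Module.Finite.iff_fg.2 (hΛ.map _)
      have hT' : AddGroup.FG T := Module.Finite.iff_addGroup_fg.1 hT
      let φ : V i →* Multiplicative T := MonoidHom.mk'
        (fun g => Multiplicative.ofAdd ⟨(J ^ (i + 2)).mkQ (f g - 1), _, hm g, rfl⟩) fun a b => by
          rw [← ofAdd_add]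
          refine congrArg Multiplicative.ofAdd (Subtype.ext ?_)
          change (J ^ (i + 2)).mkQ (f (a * b) - 1) =
            (J ^ (i + 2)).mkQ (f a - 1) + (J ^ (i + 2)).mkQ (f b - 1)
          rw [hid, map_add, map_add, Submodule.mkQ_apply,
            (Submodule.Quotient.mk_eq_zero _).2 (hmul i a b b.2), zero_add]
      refine polyZ_ext (PT.Ab_poly (K := Multiplicative T) mul_comm fun g hg => ?_) _ φ
        (polyZ_of_injective (ih (i + 1) (by omega)) _ (((Subgroup.subtype _).comp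
          (Subgroup.subtype _)).codRestrict (V (i + 1)) fun x => ?_) fun x y hxy => ?_)
      · obtain ⟨m, hm0, e⟩ := isOfFinOrder_iff_pow_eq_one.1 hg
        have e1 : (m : K) • (g.toAdd : _ ⧸ J ^ (i + 2)) = 0 := by
          rw [Nat.cast_smul_eq_nsmul]
          exact congrArg (fun x : Multiplicative T => (x.toAdd : _ ⧸ J ^ (i + 2))) e
        exact Multiplicative.toAdd.injective (Subtype.ext
          ((smul_eq_zero.1 e1).resolve_left (Nat.cast_ne_zero.2 hm0.ne')))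
      · exact (Submodule.Quotient.mk_eq_zero _).1
          (congrArg (fun x : Multiplicative T => (x.toAdd : _ ⧸ J ^ (i + 2))) x.2)
      · have e := congrArg Subtype.val hxy
        exact Subtype.ext (Subtype.ext e)
  exact polyZ_of_injective (key c 0 (zero_add c)) U ((MonoidHom.id U).codRestrict (V 0) fun g => by
    change f g - 1 ∈ J ^ (0 + 1)
    rw [zero_add, pow_one]
    exact h1 g) fun x y hxy => congrArg Subtype.val hxy

end Pool.Agent.MP_f7db47_al.GS

end

section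

/-!
Finitely generated subgroups of the adjoint group of a nilpotent ring.
-/

namespace Pool.Agent.MP_f7db47_al.GS

section

variable {U S : Type} [Group U] [Ring S]

theorem NilV_id (f : U →* S) (a b : U) :
    f (a * b) - 1 = (f a - 1) * (f b - 1) + ((f a - 1) + (f b - 1)) := by
  rw [map_mul]
  noncomm_ring

/-- The elements congruent to one modulo `W`. -/
def NilV_sub (f : U →* S) (W : Submodule ℤ S) (h : ∀ g, ∀ x ∈ W, (f g - 1) * x ∈ W) :
    Subgroup U where
  carrier := {g | f g - 1 ∈ W}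
  one_mem' := by simp
  mul_mem' := fun {a b} ha hb => by
    rw [Set.mem_ofPred_eq, NilV_id]
    exact add_mem (h a _ hb) (add_mem ha hb)
  inv_mem' := fun {a} ha => by
    have e := NilV_id f a⁻¹ a
    rw [inv_mul_cancel, map_one, sub_self, ← add_assoc, add_right_comm, eq_comm,
      add_eq_zero_iff_neg_eq] at e
    rw [Set.mem_ofPred_eq, ← e]
    exact neg_mem (add_mem (h _ _ ha) ha)

/-- The saturation of a subgroup. -/
def NilV_sat (N : Submodule ℤ S) : Submodule ℤ S where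
  carrier := {x | ∃ m : ℤ, m ≠ 0 ∧ m • x ∈ N}
  add_mem' := by
    rintro a b ⟨m, hm, ha⟩ ⟨n, hn, hb⟩
    refine ⟨m * n, mul_ne_zero hm hn, ?_⟩
    rw [smul_add, mul_smul, mul_smul, smul_comm]
    exact add_mem (N.smul_mem n ha) (N.smul_mem m hb)
  zero_mem' := ⟨1, one_ne_zero, by simp⟩
  smul_mem' := by
    rintro c x ⟨m, hm, hx⟩
    refine ⟨m, hm, ?_⟩
    rw [smul_comm]
    exact N.smul_mem c hx

theorem NilV_poly (f : U →* S) (Λ : Submodule ℤ S) (hΛ : Λ.FG) (hm : ∀ g, f g - 1 ∈ Λ)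
    (W : ℕ → Submodule ℤ S) (c : ℕ) (hmul : ∀ i g, ∀ x ∈ W i, (f g - 1) * x ∈ W (i + 1))
    (hJ : ∀ i, W (i + 1) ≤ W i) (hs : ∀ i (m : ℤ) x, m ≠ 0 → m • x ∈ W i → x ∈ W i)
    (h0 : ∀ g, f g - 1 ∈ W 0) (hc : ∀ g, f g - 1 ∈ W c → g = 1) : PolyZ U := by
  let V : ℕ → Subgroup U := fun i => NilV_sub f (W i) fun g x hx => hJ i (hmul i g x hx)
  have key : ∀ k i, i + k = c → PolyZ (V i) := by
    intro k
    induction k with
    | zero =>
      intro i hi
      obtain rfl : i = c := hi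
      exact PolyZ.triv _ ⟨fun x y => Subtype.ext ((hc x x.2).trans (hc y y.2).symm)⟩
    | succ k ih =>
      intro i hi
      let T := Λ.map (W (i + 1)).mkQ
      have hT : Module.Finite ℤ T := Module.Finite.iff_fg.2 (hΛ.map _)
      have hT' : AddGroup.FG T := Module.Finite.iff_addGroup_fg.1 hT
      let φ : V i →* Multiplicative T := MonoidHom.mk'
        (fun g => Multiplicative.ofAdd ⟨(W (i + 1)).mkQ (f g - 1), _, hm g, rfl⟩) fun a b => by
          rw [← ofAdd_add]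
          refine congrArg Multiplicative.ofAdd (Subtype.ext ?_)
          change (W (i + 1)).mkQ (f (a * b) - 1) =
            (W (i + 1)).mkQ (f a - 1) + (W (i + 1)).mkQ (f b - 1)
          rw [NilV_id, map_add, map_add, Submodule.mkQ_apply,
            (Submodule.Quotient.mk_eq_zero _).2 (hmul i a _ b.2), zero_add]
      refine polyZ_ext (PT.Ab_poly (K := Multiplicative T) mul_comm fun g hg => ?_) _ φ
        (polyZ_of_injective (ih (i + 1) (by omega)) _ (((Subgroup.subtype _).comp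
          (Subgroup.subtype _)).codRestrict (V (i + 1)) fun x => ?_) fun x y hxy => ?_)
      · obtain ⟨m, hm0, e⟩ := isOfFinOrder_iff_pow_eq_one.1 hg
        obtain ⟨x, -, hx⟩ := g.toAdd.2
        have e1 : (m : ℤ) • (g.toAdd : _ ⧸ W (i + 1)) = 0 := by
          rw [natCast_zsmul]
          exact congrArg (fun x : Multiplicative T => (x.toAdd : _ ⧸ W (i + 1))) e
        rw [← hx, ← map_smul, Submodule.mkQ_apply, Submodule.Quotient.mk_eq_zero] at e1
        exact Multiplicative.toAdd.injective (Subtype.ext (hx.symm.trans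
          ((Submodule.Quotient.mk_eq_zero _).2 (hs _ m x (Nat.cast_ne_zero.2 hm0.ne') e1))))
      · exact (Submodule.Quotient.mk_eq_zero _).1
          (congrArg (fun x : Multiplicative T => (x.toAdd : _ ⧸ W (i + 1))) x.2)
      · have e := congrArg Subtype.val hxy
        exact Subtype.ext (Subtype.ext e)
  exact polyZ_of_injective (key c 0 (zero_add c)) U ((MonoidHom.id U).codRestrict (V 0) h0)
    fun x y hxy => congrArg Subtype.val hxy

theorem NilV_lat [Group.FG U] (f : U →* S) (J : Submodule ℤ S) (c : ℕ) (h1 : ∀ g, f g - 1 ∈ J)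
    (h2 : J * J ≤ J) (hc : J ^ c = ⊥) :
    ∃ Λ : Submodule ℤ S, Λ.FG ∧ Λ ≤ J ∧ Λ * Λ ≤ Λ ∧ ∀ g, f g - 1 ∈ Λ := by
  obtain ⟨E, hE, hfin⟩ := Group.fg_iff.1 ‹Group.FG U›
  let N : Submodule ℤ S := Submodule.span ℤ ((fun g => f g - 1) '' (E ∪ E⁻¹))
  have hN : N.FG := Submodule.fg_span ((hfin.union hfin.inv).image _)
  have hNJ : N ≤ J := Submodule.span_le.2 (by
    rintro _ ⟨g, -, rfl⟩
    exact h1 g)
  have hp : ∀ k, N ^ (k + 1) ≤ J := fun k => by
    induction k with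
    | zero => rwa [zero_add, pow_one]
    | succ k ih =>
      rw [pow_succ]
      exact (mul_le_mul' ih hNJ).trans h2
  have hle : ∀ k, N ^ (k + 1) ≤ ⨆ i : Fin (c + 1), N ^ ((i : ℕ) + 1) := fun k => by
    rcases lt_or_ge k (c + 1) with h | h
    · exact le_iSup (fun i : Fin (c + 1) => N ^ ((i : ℕ) + 1)) ⟨k, h⟩
    · obtain ⟨j, hj⟩ := Nat.exists_eq_add_of_le (show c ≤ k + 1 by omega)
      refine (pow_le_pow_left' hNJ _).trans ?_
      rw [hj, pow_add, hc, Submodule.bot_mul]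
      exact bot_le
  have hmul : (⨆ i : Fin (c + 1), N ^ ((i : ℕ) + 1)) * (⨆ i : Fin (c + 1), N ^ ((i : ℕ) + 1)) ≤
      ⨆ i : Fin (c + 1), N ^ ((i : ℕ) + 1) := by
    conv_lhs => rw [Submodule.iSup_mul]
    refine iSup_le fun i => ?_
    conv_lhs => rw [Submodule.mul_iSup]
    refine iSup_le fun j => ?_
    rw [← pow_add, ← add_assoc]
    exact hle _
  refine ⟨⨆ i : Fin (c + 1), N ^ ((i : ℕ) + 1), Submodule.fg_iSup _ fun i => hN.pow _,
    iSup_le fun i => hp i, hmul, fun g => ?_⟩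
  have h3 := hle 0
  rw [zero_add, pow_one] at h3
  have hg : g ∈ Subgroup.closure E := hE ▸ Subgroup.mem_top g
  induction hg using Subgroup.closure_induction'' with
  | mem s h => exact h3 (Submodule.subset_span ⟨s, Or.inl h, rfl⟩)
  | inv_mem s h => exact h3 (Submodule.subset_span ⟨s⁻¹, Or.inr (Set.inv_mem_inv.2 h), rfl⟩)
  | one => simp
  | mul a b _ _ ha hb =>
    rw [NilV_id]
    exact add_mem (hmul (Submodule.mul_mem_mul ha hb)) (add_mem ha hb)

theorem NilV_exp (Λ : Submodule ℤ S) (hΛ : Λ.FG) :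
    ∃ e : ℤ, e ≠ 0 ∧ ∀ y ∈ Λ, ∀ m : ℤ, m ≠ 0 → m • y = 0 → e • y = 0 := by
  have : Module.Finite ℤ Λ := Module.Finite.iff_fg.2 hΛ
  obtain ⟨e, h1, h2⟩ := Submodule.annihilator_top_inter_nonZeroDivisors
    (Submodule.torsion_isTorsion (R := ℤ) (M := Λ))
  refine ⟨e, nonZeroDivisors.ne_zero h2, fun y hy m hm h => ?_⟩
  exact congrArg (fun x : Submodule.torsion ℤ Λ => (x.1 : S))
    (Submodule.mem_annihilator.1 h1 ⟨⟨y, hy⟩, ⟨m, mem_nonZeroDivisors_of_ne_zero hm⟩,
      Subtype.ext h⟩ Submodule.mem_top)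

end

theorem vp_of_nil {U S : Type} [Group U] [Group.FG U] [Ring S] (f : U →* S)
    (hf : Function.Injective f) (J : AddSubgroup S) (c : ℕ) (h1 : ∀ g, f g - 1 ∈ J)
    (h2 : ∀ a ∈ J, ∀ b ∈ J, a * b ∈ J)
    (h3 : ∀ l : List S, l.length = c → (∀ a ∈ l, a ∈ J) → l.prod = 0) : VP U :=
  by
  have hc : J.toIntSubmodule ^ c = ⊥ := by
    rw [Submodule.pow_eq_span_pow_set, Submodule.span_eq_bot]
    intro x hx
    obtain ⟨l, rfl⟩ := Set.mem_pow.1 hx
    refine h3 _ List.length_ofFn fun a ha => ?_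
    obtain ⟨i, rfl⟩ := List.mem_ofFn.1 ha
    exact (l i).2
  obtain ⟨Λ, hΛ, hJ, hmul, hm⟩ := NilV_lat f J.toIntSubmodule c h1 (Submodule.mul_le.2 h2) hc
  obtain ⟨e, he, htor⟩ := NilV_exp Λ hΛ
  let L : Submodule ℤ S := Λ.map (e • LinearMap.id)
  have hL : ∀ g, ∀ x ∈ L, (f g - 1) * x ∈ L := by
    rintro g _ ⟨y, hy, rfl⟩
    exact ⟨_, hmul (Submodule.mul_mem_mul (hm g) hy), (mul_smul_comm e _ y).symm⟩
  refine ⟨NilV_sub f L hL, ?_, NilV_poly (f.comp (Subgroup.subtype _)) Λ hΛ (fun g => hm g)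
    (fun i => NilV_sat (Λ ^ (i + 1))) c ?_ ?_ ?_ (fun g => ⟨1, one_ne_zero, ?_⟩) ?_⟩
  · have hT : Module.Finite ℤ (Λ.map L.mkQ) := Module.Finite.iff_fg.2 (hΛ.map _)
    have hF : Finite (Λ.map L.mkQ) := Module.finite_of_fg_torsion _ (by
      rintro ⟨_, y, hy, rfl⟩
      exact ⟨⟨e, mem_nonZeroDivisors_of_ne_zero he⟩,
        Subtype.ext ((Submodule.Quotient.mk_eq_zero L).2 ⟨y, hy, rfl⟩)⟩)
    have hQ : Finite (U ⧸ NilV_sub f L hL) := by
      refine Finite.of_injective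
        (fun q => (⟨L.mkQ (f q.out - 1), _, hm _, rfl⟩ : Λ.map L.mkQ)) fun q q' h => ?_
      have h4 := (Submodule.Quotient.eq L).1 (congrArg Subtype.val h).symm
      rw [← q.out_eq', ← q'.out_eq']
      refine QuotientGroup.eq.2 ?_
      have h5 := add_mem (hL q.out⁻¹ _ h4) h4
      rwa [sub_sub_sub_cancel_right, sub_mul, one_mul, sub_add_cancel, mul_sub, ← map_mul,
        ← map_mul, inv_mul_cancel, map_one] at h5
    exact Subgroup.finiteIndex_of_finite_quotient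
  · rintro i g x ⟨m, hm0, hx⟩
    refine ⟨m, hm0, ?_⟩
    rw [← mul_smul_comm, pow_succ']
    exact Submodule.mul_mem_mul (hm g) hx
  · rintro i x ⟨m, hm0, hx⟩
    refine ⟨m, hm0, ?_⟩
    rw [pow_succ, pow_succ, mul_assoc] at hx
    rw [pow_succ]
    exact mul_le_mul_right hmul _ hx
  · rintro i m x hm0 ⟨n, hn, hx⟩
    exact ⟨n * m, mul_ne_zero hn hm0, by rwa [mul_smul]⟩
  · rw [one_smul, zero_add, pow_one]
    exact hm g
  · rintro ⟨g, y, hy, hg⟩ ⟨m, hm0, hx⟩
    have h4 : e • y = f g - 1 := hg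
    have h5 : m • (f g - 1) ∈ J.toIntSubmodule ^ (c + 1) := pow_le_pow_left' hJ _ hx
    rw [pow_succ, hc, Submodule.bot_mul, Submodule.mem_bot, ← h4, ← mul_smul] at h5
    rw [htor y hy _ (mul_ne_zero hm0 he) h5, eq_comm, sub_eq_zero, ← map_one f] at h4
    exact Subtype.ext (hf h4)

end Pool.Agent.MP_f7db47_al.GS

end

section

/-!
Finitely generated groups of quasi-unipotent matrices over commutative rings.
-/

namespace Pool.Agent.MP_f7db47_al.GS

theorem UniA_field {G K : Type} [Group G] [Group.FG G] [Field K] {n : ℕ} (f : G →* GL (Fin n) K)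
    (h : ∀ g, ∃ m, 0 < m ∧ IsNilpotent ((f g).val ^ m - 1)) :
    ∃ (U : Subgroup G) (J : AddSubgroup (Matrix (Fin n) (Fin n) K)) (c : ℕ), U.FiniteIndex ∧
      (∀ g ∈ U, (f g).val - 1 ∈ J) ∧ (∀ a ∈ J, ∀ b ∈ J, a * b ∈ J) ∧
      ∀ l : List (Matrix (Fin n) (Fin n) K), l.length = c → (∀ a ∈ l, a ∈ J) → l.prod = 0 := by
  have hc : CharP K (ringChar K) := ringChar.charP _
  rcases CharP.char_is_prime_or_zero K (ringChar K) with hp | hp
  · have : Fact (ringChar K).Prime := ⟨hp⟩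
    obtain ⟨U, hU, h1⟩ := exists_unipP (ringChar K) f h
    obtain ⟨J, c, h2, h3, h4⟩ := kolchin (((Units.coeHom _).comp f).comp U.subtype)
      fun g => h1 g g.2
    exact ⟨U, J, c, hU, fun g hg => h2 ⟨g, hg⟩, h3, h4⟩
  · rw [hp] at hc
    have := CharP.charP_to_charZero K
    obtain ⟨U, J, c, hU, h1, h2, h3⟩ := exists_unip ((Units.coeHom _).comp f) (finite_traces f h)
    exact ⟨U, J.toAddSubgroup, c, hU, h1, h2, h3⟩

theorem UniA_pow {A : Type} [CommRing A] {n c : ℕ} (N : Ideal A)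
    (p : Matrix (Fin n) (Fin n) A → Prop)
    (h : ∀ l : List (Matrix (Fin n) (Fin n) A), l.length = c → (∀ a ∈ l, p a) →
      ∀ i j, l.prod i j ∈ N) (k : ℕ) : ∀ l : List (Matrix (Fin n) (Fin n) A), l.length = c * k →
      (∀ a ∈ l, p a) → ∀ i j, l.prod i j ∈ N ^ k := by
  induction k with
  | zero => simp
  | succ k ih =>
    intro l hl hp i j
    rw [mul_add_one] at hl
    rw [← List.take_append_drop c l, List.prod_append, Matrix.mul_apply, pow_succ']
    exact Ideal.sum_mem _ fun x _ => Ideal.mul_mem_mul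
      (h _ (by rw [List.length_take]; omega) (fun a ha => hp a (List.mem_of_mem_take ha)) i x)
      (ih _ (by rw [List.length_drop]; omega) (fun a ha => hp a (List.mem_of_mem_drop ha)) x j)

theorem UniA_noeth {G A : Type} [Group G] [Group.FG G] [CommRing A] [IsNoetherianRing A] {n : ℕ}
    (f : G →* GL (Fin n) A) (hf : Function.Injective f)
    (h : ∀ g, ∃ m, 0 < m ∧ IsNilpotent ((f g).val ^ m - 1)) : VP G := by
  have hfin : Finite (minimalPrimes A) := (minimalPrimes.finite_of_isNoetherianRing A).to_subtype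
  have := Fintype.ofFinite (minimalPrimes A)
  have hp : ∀ Q : minimalPrimes A, Q.1.IsPrime := fun Q => Ideal.IsMinimalPrime.isPrime Q.2
  let π : ∀ Q : minimalPrimes A, A →+* FractionRing (A ⧸ Q.1) := fun Q =>
    (algebraMap (A ⧸ Q.1) _).comp (Ideal.Quotient.mk Q.1)
  have hπ : ∀ Q x, π Q x = 0 → x ∈ Q.1 := fun Q x hx => Ideal.Quotient.eq_zero_iff_mem.1
    ((map_eq_zero_iff _ (IsFractionRing.injective (A ⧸ Q.1) _)).1 hx)
  have e : ∀ Q g m, (π Q).mapMatrix ((f g).val ^ m - 1) =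
      ((Matrix.GeneralLinearGroup.map (π Q)).comp f g).val ^ m - 1 := fun Q g m => by
    rw [map_sub, map_pow, map_one]
    rfl
  choose U J c hU h1 h2 h3 using fun Q => UniA_field
    ((Matrix.GeneralLinearGroup.map (π Q)).comp f) fun g =>
      (h g).imp fun m hm => ⟨hm.1, e Q g m ▸ hm.2.map _⟩
  have hU' : (⨅ Q, U Q).FiniteIndex := Subgroup.finiteIndex_iInf hU
  obtain ⟨k, hk⟩ := IsNoetherianRing.isNilpotent_nilradical A
  obtain ⟨W, hW, hP⟩ := vp_of_nil (((Units.coeHom _).comp f).comp (⨅ Q, U Q).subtype)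
    ((Units.val_injective.comp hf).comp (Subgroup.subtype_injective _))
    (⨅ Q, (J Q).comap (π Q).mapMatrix.toAddMonoidHom) ((∑ Q, c Q) * k)
    (fun g => AddSubgroup.mem_iInf.2 fun Q => by
      have := h1 Q g (Subgroup.mem_iInf.1 g.2 Q)
      rw [← pow_one (Units.val _), ← e, pow_one] at this
      exact this)
    (fun a ha b hb => AddSubgroup.mem_iInf.2 fun Q => by
      rw [AddSubgroup.mem_iInf] at ha hb
      show (π Q).mapMatrix (a * b) ∈ J Q
      rw [map_mul]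
      exact h2 Q _ (ha Q) _ (hb Q))
    fun l hl hm => Matrix.ext fun i j => by
      have := UniA_pow (nilradical A) _ (fun l hl hm i j => ?_) k l hl hm i j
      · rwa [hk] at this
      rw [nilradical, ← Ideal.sInf_minimalPrimes, Ideal.mem_sInf]
      intro Q hQ
      have h4 := Finset.single_le_sum (f := c) (fun _ _ => Nat.zero_le _) (Finset.mem_univ ⟨Q, hQ⟩)
      have h5 : (π ⟨Q, hQ⟩).mapMatrix l.prod = 0 := by
        rw [← List.take_append_drop (c ⟨Q, hQ⟩) l, List.prod_append, map_mul, map_list_prod,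
          h3 _ _ (by rw [List.length_map, List.length_take]; omega), zero_mul]
        intro a ha
        obtain ⟨b, hb, rfl⟩ := List.mem_map.1 ha
        exact AddSubgroup.mem_iInf.1 (hm b (List.mem_of_mem_take hb)) ⟨Q, hQ⟩
      exact hπ ⟨Q, hQ⟩ _ (congrFun (congrFun h5 i) j)
  refine ⟨W.map (Subgroup.subtype _), ⟨?_⟩, polyZ_of_injective hP _
    (W.equivMapOfInjective _ (Subgroup.subtype_injective _)).symm.toMonoidHom (MulEquiv.injective _)⟩
  rw [Subgroup.index_map_subtype]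
  exact mul_ne_zero hW.index_ne_zero hU'.index_ne_zero

theorem vp_of_quasiA {G A : Type} [Group G] [Group.FG G] [CommRing A] {n : ℕ}
    (f : G →* GL (Fin n) A) (hf : Function.Injective f)
    (h : ∀ g, ∃ m, 0 < m ∧ IsNilpotent ((f g).val ^ m - 1)) : VP G :=
  by
  obtain ⟨A₀, f₀, hfg, hf₀⟩ := GN.exists_fg_subring inferInstance A n f
  have : IsNoetherianRing A₀ := Algebra.FiniteType.isNoetherianRing ℤ A₀
  refine UniA_noeth f₀ (fun a b e => hf (by rw [← hf₀, ← hf₀, e])) fun g =>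
    (h g).imp fun m hm => ⟨hm.1, (IsNilpotent.map_iff (f := A₀.subtype.mapMatrix)
      (Matrix.map_injective A₀.subtype_injective)).1 ?_⟩
  rw [map_sub, map_pow, map_one]
  have := hm.2
  rwa [← hf₀ g] at this

end Pool.Agent.MP_f7db47_al.GS

end
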