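import Pool.Agent.Mg.Ff7db47.G75c999
import Pool.Agent.Mg.Ff7db47.Gff0e1c
import Pool.Agent.Mg.Ff7db47.G30508e
import Pool.Agent.Mg.Ff7db47.G594c02
import Mathlib

section

/-!
Closure properties.
-/

namespace Pool.Agent.MP_f7db47_al.VC

open GN GF Function

variable {Γ Γ' : Type} [Group Γ] [Group Γ']

theorem FJc_fg {K : Subgroup Γ'} (h : K.FG) (f : Γ' →* Γ) : (K.map f).FG := by
  classical
  obtain ⟨S, rfl⟩ := h
  exact ⟨S.image f, by rw [MonoidHom.map_closure, Finset.coe_image]⟩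

theorem FJc_drops {ι : Type} {K : ι → Subgroup Γ} {r : ι → ι → Prop} (f : Γ' →* Γ) {j : ι} {x : Γ'}
    (h : Drops K r j (f x)) : Drops (fun j => (K j).comap f) r j x := by
  intro M hM hle
  obtain ⟨j', hr, hle'⟩ := h (M.map f) (FJc_fg hM f) (by
    rintro _ ⟨m, hm, rfl⟩
    obtain ⟨h1, y, hy, rfl⟩ := hle hm
    exact ⟨h1, f y, hy, by simp⟩)
  exact ⟨j', hr, Subgroup.map_le_iff_le_comap.1 hle'⟩

theorem FJc_qu {A : Type} [CommRing A] {n : ℕ} {u : GL (Fin n) A} {a : ℤ} (ha : a ≠ 0)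
    (h : QU (u ^ a).val) : QU u.val := by
  have hn : ∀ k : ℕ, 0 < k → QU (u ^ k).val → QU u.val := fun k hk ⟨m, hm, h⟩ =>
    ⟨k * m, Nat.mul_pos hk hm, by rwa [Units.val_pow_eq_pow_val, ← pow_mul] at h⟩
  refine hn a.natAbs (Int.natAbs_pos.2 ha) ?_
  rw [← zpow_natCast]
  rcases Int.natAbs_eq_iff.1 (rfl : a.natAbs = a.natAbs) with e | e
  · rwa [← e]
  · rw [← neg_neg (a.natAbs : ℤ), ← e, zpow_neg]
    obtain ⟨m, hm, h⟩ := h
    refine ⟨m, hm, ?_⟩
    rw [← Units.val_pow_eq_pow_val] at h ⊢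
    rw [inv_pow]
    generalize (u ^ a) ^ m = w at h ⊢
    have e1 : (w⁻¹).val - 1 = -((w⁻¹).val * (w.val - 1)) := by
      rw [mul_sub, Units.inv_mul, mul_one, neg_sub]
    rw [e1]
    exact (((Commute.refl w).inv_left.map (Units.coeHom _)).sub_right
      (Commute.one_right _)).isNilpotent_mul_left h |>.neg

theorem FJ.comap {B : Subgroup Γ} (hB : FJ B) {G₀ : Type} [Group G₀] (T : Thy G₀) {G : Type}
    [Group G] (i : G →* G₀) (f : G →* Γ)
    (h : ∀ C : Subgroup Γ, IsVC C → T.Q (C.comap f) (i.comp (C.comap f).subtype)) :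
    T.Q (B.comap f) (i.comp (B.comap f).subtype) := by
  refine hB G₀ T _ _ (f.subgroupComap B) fun C hC => ?_
  let e := (C.equivMapOfInjective B.subtype B.subtype_injective).symm
  exact T.sub' (((B.comap f).subtype.comp (C.comap (f.subgroupComap B)).subtype).codRestrict
    ((C.map B.subtype).comap f) fun x => ⟨f.subgroupComap B x.1, x.2, rfl⟩)
    (fun x y e => Subtype.ext (Subtype.ext (Subtype.ext_iff.1 e :))) (fun _ => rfl)
    (h _ (hC.sub e.toMonoidHom e.injective))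

theorem FJ.sub (j : Γ' →* Γ) (hj : Injective j) (h : FJ Γ) : FJ Γ' := by
  intro G₀ _ T G _ i f H
  exact h G₀ T G i (j.comp f) fun B hB => H (B.comap j) (hB.sub (j.subgroupComap B)
    fun x y e => Subtype.ext (hj (congrArg Subtype.val e)))

theorem FJ.le {K K' : Subgroup Γ} (h : K ≤ K') (h' : FJ K') : FJ K :=
  h'.sub (Subgroup.inclusion h) (Subgroup.inclusion_injective h)

theorem FJ.of_vc (h : IsVC Γ) : FJ Γ := by
  intro G₀ _ T G _ i f H
  exact T.top (K := (⊤ : Subgroup Γ).comap f) (fun _ => trivial)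
    (H ⊤ (h.sub _ (Subgroup.subtype_injective _)))

theorem FJ.ext (p : Γ →* Γ') (h : FJ Γ') (h' : ∀ B : Subgroup Γ', IsVC B → FJ (B.comap p)) :
    FJ Γ := by
  intro G₀ _ T G _ i f H
  exact h G₀ T G i (p.comp f) fun B hB => (h' B hB).comap T i f H

theorem FJ.loc (h : ∀ K : Subgroup Γ, K.FG → FJ K) : FJ Γ := by
  intro G₀ _ T G _ i f H
  exact T.loc fun K hK => T.le (Subgroup.le_comap_map f K) ((h _ (FJc_fg hK f)).comap T i f H)

theorem FJ.flow {Fam : Set (Subgroup Γ)} (hP : HasPack Γ Fam)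
    (hc : ∀ (B : Subgroup Γ) (φ : B →* MZ), (∀ g, φ g = 1 → IsOfFinOrder g) → FJ B)
    (hF : ∀ B ∈ Fam, FJ B) : FJ Γ := by
  intro G₀ _ T G _ i f H
  exact T.flow hP f (fun B φ hφ => (hc B φ hφ).comap T i f H) fun B hB => (hF B hB).comap T i f H

theorem FJ.tame (ψ : Γ →* MZ) (ι : Type) (K : ι → Subgroup Γ) (r : ι → ι → Prop)
    (hr : WellFounded r) (hK : ∀ j, K j ≤ ψ.ker)
    (hM : ∀ M : Subgroup Γ, M.FG → M ≤ ψ.ker → ∃ j, M ≤ K j) (h0 : FJ ψ.ker)
    (h : ∀ j x, x ∉ ψ.ker → FJ ↥(K j ⊔ Subgroup.zpowers x) ∨ Drops K r j x ∨ Drops K r j x⁻¹) :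
    FJ Γ := by
  intro G₀ _ T G _ i f H
  refine T.ext (ψ.comp f) ι (fun j => (K j).comap f) r hr (fun j x hx => hK j hx)
    (fun M hfg hle => ?_) (h0.comap T i f H) fun j x hx => ?_
  · obtain ⟨j, hj⟩ := hM (M.map f) (FJc_fg hfg f) (Subgroup.map_le_iff_le_comap.2 hle)
    exact ⟨j, Subgroup.map_le_iff_le_comap.1 hj⟩
  · rcases h j (f x) hx with h1 | h1 | h1
    · refine Or.inl (T.le (sup_le (Subgroup.comap_mono le_sup_left) ?_) (h1.comap T i f H))
      exact Subgroup.zpowers_le.2 (Subgroup.mem_sup_right (Subgroup.mem_zpowers _))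
    · exact Or.inr (Or.inl (FJc_drops f h1))
    · exact Or.inr (Or.inr (FJc_drops f (by rwa [map_inv])))

theorem FJ.fh (N : ℕ)
    (h : ∀ (r : ℕ) (S₀ : Finset Γ) (π : ℕ), π.Prime → FHD (fun K => FJ K) N r S₀ π) : FJ Γ := by
  intro G₀ _ T G _ i f H
  classical
  obtain ⟨r, hr⟩ := T.fh (T.sub' (1 : PUnit.{1} →* (⊥ : Subgroup Γ).comap f)
    (fun _ _ _ => rfl) (fun _ => (map_one _).symm) (H ⊥ IsVC.of_finite)) N
  exact hr G i fun S₀ π hπ => (h r (S₀.image f) π hπ).pull f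
    (fun _ hg => Finset.mem_image_of_mem f hg) fun _ hK => hK.comap T i f H

theorem FJ.gl {A : Type} [CommRing A] {n : ℕ} (f : Γ →* GL (Fin n) A)
    (h : ∀ (H : Subgroup Γ) (φ : H →* MZ), (∀ g : H, φ g = 1 → QU (f g).val) → FJ H) :
    FJ Γ := by
  intro G₀ _ T G _ i p H
  refine T.gl (f.comp p) fun K φ hφ => T.le (Subgroup.le_comap_map p K) (FJ.comap ?_ T i p H)
  by_cases hk : (p.subgroupMap K).ker ≤ φ.ker
  · have hs := p.subgroupMap_surjective K
    refine h _ ((p.subgroupMap K).liftOfSurjective hs ⟨φ, hk⟩) fun g hg => ?_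
    obtain ⟨x, rfl⟩ := hs g
    rw [MonoidHom.liftOfRightInverse_comp_apply] at hg
    exact hφ x hg
  · obtain ⟨y, hy, hy'⟩ := SetLike.not_le_iff_exists.1 hk
    have e : p y = 1 := congrArg Subtype.val hy
    refine h _ 1 ?_
    rintro ⟨_, x, hx, rfl⟩ -
    refine FJc_qu (a := (φ y).toAdd) hy' ?_
    have := hφ ((⟨x, hx⟩ : K) ^ (φ y).toAdd * y ^ (-(φ ⟨x, hx⟩).toAdd)) (by
      apply Multiplicative.toAdd.injective
      simp [mul_comm])
    simpa [e] using this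

end Pool.Agent.MP_f7db47_al.VC

end

section

/-!
The wreath product acts cocompactly on Euclidean space.
-/

namespace Pool.Agent.MP_f7db47_al.VC

open GN GF Metric

/-- The real line with its affine lines. -/
noncomputable def WrP_line : Sp where
  X := ℝ
  o := 0
  L := {c | ∃ a b : ℝ, c = fun t => a * t + b}

theorem WrP_geo : WrP_line.Geo := by
  refine ⟨?_, fun x y => ?_, ?_⟩
  · rintro c ⟨a, b, rfl⟩ a' s
    exact ⟨a * a', a * s + b, funext fun t => show a * (a' * t + s) + b = _ by ring⟩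
  · change ℝ at x y
    exact ⟨_, ⟨y - x, x, rfl⟩, show (y - x) * 0 + x = x by ring, show (y - x) * 1 + x = y by ring⟩
  · rintro c ⟨a, b, rfl⟩ c' ⟨a', b', rfl⟩ l h0 h1
    show |a * l + b - (a' * l + b')| ≤
      (1 - l) * |a * 0 + b - (a' * 0 + b')| + l * |a * 1 + b - (a' * 1 + b')|
    have e : a * l + b - (a' * l + b') =
        (1 - l) * (a * 0 + b - (a' * 0 + b')) + l * (a * 1 + b - (a' * 1 + b')) := by ring
    rw [e]
    refine (abs_add_le _ _).trans ?_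
    rw [abs_mul, abs_mul, abs_of_nonneg h0, abs_of_nonneg (by linarith : 0 ≤ 1 - l)]

theorem WrP_par : WrP_line.Par 1 (1 + 1) := by
  intro C
  refine ⟨ℝ × ℝ, inferInstance, closedBall 0 1 ×ˢ closedBall 0 C,
    fun p t => (p.1 * t + p.2 : ℝ), 1,
    (isCompact_closedBall _ _).prod (isCompact_closedBall _ _),
    Cov.prod (cov_real 1) (cov_real C), fun p hp => ⟨⟨p.1, p.2, rfl⟩, ?_⟩,
    fun p _ p' _ t => ?_, ?_⟩
  · show |p.1 * 0 + p.2 - (p.1 * 1 + p.2)| ≤ 1
    have h := hp.1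
    rw [mem_closedBall, Real.dist_eq, sub_zero] at h
    have e : p.1 * 0 + p.2 - (p.1 * 1 + p.2) = -p.1 := by ring
    rwa [e, abs_neg]
  · show |p.1 * t + p.2 - (p'.1 * t + p'.2)| ≤ 1 * dist p p' * Real.exp (1 * |t|)
    have h1 : |p.1 - p'.1| ≤ dist p p' := le_max_left (dist p.1 p'.1) (dist p.2 p'.2)
    have h2 : |p.2 - p'.2| ≤ dist p p' := le_max_right (dist p.1 p'.1) (dist p.2 p'.2)
    have e : p.1 * t + p.2 - (p'.1 * t + p'.2) = (p.1 - p'.1) * t + (p.2 - p'.2) := by ring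
    have h3 := Real.add_one_le_exp |t|
    have h4 : 0 ≤ dist p p' := dist_nonneg
    have h5 := mul_le_mul_of_nonneg_right h1 (abs_nonneg t)
    have h6 := mul_le_mul_of_nonneg_left h3 h4
    rw [e, one_mul, one_mul]
    refine (abs_add_le _ _).trans ?_
    rw [abs_mul]
    linarith
  · rintro c ⟨a, b, rfl⟩ hC hd
    refine ⟨(a, b), ⟨?_, ?_⟩, rfl⟩
    · have h : |a * 0 + b - (a * 1 + b)| ≤ 1 := hd
      have e : a * 0 + b - (a * 1 + b) = -a := by ring
      rw [e, abs_neg] at h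
      rwa [mem_closedBall, Real.dist_eq, sub_zero]
    · have h : |a * 0 + b - 0| ≤ C := hC
      rw [mul_zero, zero_add] at h
      exact h

theorem WrP_trop (r : ℕ) : TropC {z : Unit → ℝ | -(r : ℝ) ≤ z () ∧ z () ≤ r} 1 := by
  classical
  refine ⟨fun x hx y hy c hc => ⟨le_min hx.1 (by linarith [hy.1]),
    (min_le_left _ _).trans hx.2⟩, fun Q hQ x hx => ?_, fun Q _ z M hz _ hM => ?_⟩
  · have hQ' : (0 : ℝ) < Q := by exact_mod_cast hQ
    constructor
    · show -(r : ℝ) ≤ (⌊(Q : ℝ) * x ()⌋ : ℝ) / Q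
      rw [le_div_iff₀ hQ']
      have h : (-((r : ℤ) * Q)) ≤ ⌊(Q : ℝ) * x ()⌋ := by
        rw [Int.le_floor]
        push_cast
        nlinarith [hx.1]
      have h' : (((-((r : ℤ) * Q) : ℤ)) : ℝ) ≤ (⌊(Q : ℝ) * x ()⌋ : ℝ) := by exact_mod_cast h
      push_cast at h'
      linarith
    · show (⌊(Q : ℝ) * x ()⌋ : ℝ) / Q ≤ r
      rw [div_le_iff₀ hQ']
      have := Int.floor_le ((Q : ℝ) * x ())
      nlinarith [hx.2]
  · have key : ∀ a b : ℕ, a < b → b < M → z (a + 1) ≠ z a → z (b + 1) ≠ z b → False := by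
      intro a b hab hb ha hb'
      have l1 : z a () < z (a + 1) () :=
        lt_of_le_of_ne (hz (Nat.le_succ a) ()) fun e => ha (funext fun _ => e.symm)
      have l2 : z b () < z (b + 1) () :=
        lt_of_le_of_ne (hz (Nat.le_succ b) ()) fun e => hb' (funext fun _ => e.symm)
      have l3 : z 0 () ≤ z a () := hz (Nat.zero_le a) ()
      have l4 : z (a + 1) () ≤ z b () := hz hab ()
      have l5 : z (b + 1) () ≤ z M () := hz hb ()
      have l6 := hM ()
      omega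
    refine Finset.card_le_one.2 fun a ha b hb => ?_
    simp only [Finset.mem_filter, Finset.mem_range] at ha hb
    rcases lt_trichotomy a b with h | h | h
    · exact (key a b h hb.1 ha.2 hb.2).elim
    · exact h
    · exact (key b a h ha.1 hb.2 ha.2).elim

theorem WrP_fine : WrP_line.Fine 1 := by
  intro r _
  refine ⟨Unit, inferInstance, fun x _ => (x : ℝ), ?_, fun x _ y _ h => congrFun h (), ?_⟩
  · exact (continuous_pi fun _ => continuous_id).continuousOn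
  · convert WrP_trop r using 1
    ext z
    constructor
    · rintro ⟨x, hx, rfl⟩
      change ℝ at x
      have h : |x - (0 : ℝ)| ≤ (r : ℝ) := hx
      rw [sub_zero] at h
      exact abs_le.1 h
    · intro hz
      refine ⟨z (), ?_, funext fun _ => rfl⟩
      show |z () - 0| ≤ r
      rw [sub_zero]
      exact abs_le.2 hz

theorem WrP_good : WrP_line.Good := ⟨WrP_geo, ⟨1, _, one_pos, WrP_par⟩, ⟨1, WrP_fine⟩⟩

/-- The action on Euclidean space. -/
noncomputable def WrP_rho (ι : Type) : Wr ι →* Equiv.Perm (ι → ℝ) :=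
  MonoidHom.toHomPerm
    { toFun := fun x => (fun y i => (x.b i : ℝ) + y (x.σ⁻¹ i) : (ι → ℝ) → ι → ℝ)
      map_one' := funext fun y => funext fun i =>
        show (((1 : Wr ι).b i : ℤ) : ℝ) + y ((1 : Wr ι).σ⁻¹ i) = y i by
          simp [Wr.one_b, Wr.one_σ]
      map_mul' := fun x x' => funext fun y => funext fun i =>
        show (((x * x').b i : ℤ) : ℝ) + y ((x * x').σ⁻¹ i) =
            (x.b i : ℝ) + ((x'.b (x.σ⁻¹ i) : ℝ) + y (x'.σ⁻¹ (x.σ⁻¹ i))) by
          simp [Wr.mul_b, Wr.mul_σ, add_assoc] }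

theorem WrP_rho_apply {ι : Type} (x : Wr ι) (y : ι → ℝ) (i : ι) :
    WrP_rho ι x y i = (x.b i : ℝ) + y (x.σ⁻¹ i) := rfl

theorem WrP_le {ι : Type} [Fintype ι] (x : Wr ι) (y y' : ι → ℝ) :
    dist (WrP_rho ι x y) (WrP_rho ι x y') ≤ dist y y' := by
  refine (dist_pi_le_iff dist_nonneg).2 fun i => ?_
  rw [WrP_rho_apply, WrP_rho_apply, dist_add_left]
  exact dist_le_pi_dist y y' _

theorem WrP_iso {ι : Type} [Fintype ι] (x : Wr ι) (y y' : ι → ℝ) :
    dist (WrP_rho ι x y) (WrP_rho ι x y') = dist y y' := by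
  refine le_antisymm (WrP_le x y y') ?_
  have h := WrP_le x⁻¹ (WrP_rho ι x y) (WrP_rho ι x y')
  rwa [← Equiv.Perm.mul_apply, ← Equiv.Perm.mul_apply, ← map_mul, inv_mul_cancel, map_one] at h

theorem WrP_prp {ι : Type} [Fintype ι] (r : ℝ) :
    {x : Wr ι | dist (WrP_rho ι x 0) (0 : ι → ℝ) ≤ r}.Finite := by
  classical
  have hf : ((Set.univ.pi fun _ : ι => Set.Icc (-⌈r⌉) ⌈r⌉) ×ˢ
      (Set.univ : Set (Equiv.Perm ι))).Finite :=
    (Set.Finite.pi fun _ => Set.finite_Icc _ _).prod Set.finite_univ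
  refine Set.Finite.of_injOn (f := fun x : Wr ι => (x.b, x.σ)) ?_
    (fun x _ y _ h => Wr.ext (congrArg Prod.fst h) (congrArg Prod.snd h)) hf
  intro x hx
  refine ⟨fun i _ => ?_, trivial⟩
  have h := (dist_le_pi_dist (WrP_rho ι x 0) (0 : ι → ℝ) i).trans hx
  rw [WrP_rho_apply, Pi.zero_apply, Pi.zero_apply, add_zero, Real.dist_eq, sub_zero] at h
  have h2 := abs_le.1 (h.trans (Int.le_ceil r))
  exact ⟨by exact_mod_cast h2.1, by exact_mod_cast h2.2⟩

theorem WrP_cc {ι : Type} [Fintype ι] (y : ι → ℝ) :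
    ∃ x : Wr ι, dist (WrP_rho ι x y) (0 : ι → ℝ) ≤ 1 := by
  refine ⟨⟨fun i => -⌊y i⌋, 1⟩, (dist_pi_le_iff zero_le_one).2 fun i => ?_⟩
  rw [WrP_rho_apply, Pi.zero_apply, Real.dist_eq, sub_zero]
  have h1 := Int.floor_le (y i)
  have h2 := Int.lt_floor_add_one (y i)
  simp only [inv_one, Equiv.Perm.one_apply]
  push_cast
  exact abs_le.2 ⟨by linarith, by linarith⟩

theorem wr_pack (ι : Type) [Fintype ι] : HasPack (Wr ι) ∅ := by
  refine ⟨Sp.pi fun _ : ι => WrP_line, Sp.Good.pi fun _ => WrP_good, ⟨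
    { ρ := WrP_rho ι
      iso := WrP_iso
      line := fun γ c hc j => ?_
      prp := WrP_prp
      ι := Empty
      h := fun i => i.elim
      E := fun i => i.elim
      eqv := fun i => i.elim
      E_inv := fun i => i.elim
      h_inv := fun i => i.elim
      h_lip := fun i => i.elim
      near := fun i => i.elim
      cc := fun _ => ⟨1, fun x _ => WrP_cc x⟩
      cusp := fun i => i.elim }⟩⟩
  obtain ⟨a, b, e⟩ := hc (γ.σ⁻¹ j)
  refine ⟨a, (γ.b j : ℝ) + b, funext fun t => ?_⟩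
  change ℝ → ι → ℝ at c
  have e' : c t (γ.σ⁻¹ j) = a * t + b := congrFun e t
  show (γ.b j : ℝ) + c t (γ.σ⁻¹ j) = a * t + ((γ.b j : ℝ) + b)
  rw [e']
  ring

end Pool.Agent.MP_f7db47_al.VC

end

section

/-!
Virtually abelian groups.
-/

namespace Pool.Agent.MP_f7db47_al.VC

open GN GF Function

/-- The permutation part. -/
def Vab_perm (ι : Type) : Wr ι →* Equiv.Perm ι where
  toFun := Wr.σ
  map_one' := rfl
  map_mul' _ _ := rfl

theorem Vab_pow {ι : Type} {x : Wr ι} (h : x.σ = 1) (i : ι) (n : ℕ) :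
    (x ^ n).b i = n * x.b i := by
  induction n with
  | zero => simp [Wr.one_b]
  | succ n ih => rw [pow_succ', Wr.mul_b, h, inv_one, Equiv.Perm.one_apply, ih]; push_cast; ring

theorem Vab_tors {ι : Type} {x : Wr ι} (h : x.σ = 1) (h' : IsOfFinOrder x) : x = 1 := by
  obtain ⟨n, hn, e⟩ := isOfFinOrder_iff_pow_eq_one.1 h'
  refine Wr.ext (funext fun i => ?_) h
  have := Vab_pow h i n
  rw [e, Wr.one_b] at this
  exact (mul_eq_zero.1 this.symm).resolve_left (Nat.cast_ne_zero.2 hn.ne')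

theorem fj_wr (ι : Type) [Fintype ι] : FJ (Wr ι) := by
  refine FJ.flow (wr_pack ι) (fun B φ h => FJ.of_vc ⟨φ, ?_⟩) fun B hB => hB.elim
  refine Finite.of_injective (((Vab_perm ι).comp B.subtype).comp φ.ker.subtype)
    ((injective_iff_map_eq_one _).2 fun x hx => Subtype.ext (Subtype.ext ?_))
  exact Vab_tors hx (B.subtype.isOfFinOrder (h x.1 x.2))

theorem Vab_mem {Γ : Type} [Group Γ] (U : Subgroup Γ) (g : Γ) (c : Γ ⧸ U) :
    c.out⁻¹ * g * (g⁻¹ • c).out ∈ U := by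
  rw [mul_assoc, ← QuotientGroup.eq, QuotientGroup.out_eq', ← smul_eq_mul,
    MulAction.Quotient.mk_smul_out, smul_inv_smul]

theorem exists_wr {Γ : Type} [Group Γ] (U : Subgroup Γ) {n : ℕ}
    (θ : U →* Multiplicative (Fin n → ℤ)) (hθ : Injective θ) (hn : 0 < n) :
    ∃ j : Γ →* Wr ((Γ ⧸ U) × Fin n), Injective j := by
  refine ⟨MonoidHom.mk' (fun g => ⟨fun x => (θ ⟨_, Vab_mem U g x.1⟩).toAdd x.2,
    Equiv.prodCongr (MulAction.toPerm g) (Equiv.refl _)⟩) fun g h => Wr.ext ?_ ?_,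
    (injective_iff_map_eq_one _).2 fun g hg => ?_⟩
  · funext x
    have e : (⟨_, Vab_mem U (g * h) x.1⟩ : U) =
        ⟨_, Vab_mem U g x.1⟩ * ⟨_, Vab_mem U h (g⁻¹ • x.1)⟩ := Subtype.ext (by
      simp only [Subgroup.coe_mul, mul_inv_rev, mul_smul, mul_assoc, mul_inv_cancel_left])
    show (θ ⟨_, Vab_mem U (g * h) x.1⟩).toAdd x.2 = _
    rw [e, map_mul]
    rfl
  · ext x
    · exact mul_smul g h x.1
    · rfl
  · let c : Γ ⧸ U := ((1 : Γ) : Γ ⧸ U)
    have h1 : g • c = c :=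
      congrArg (fun x : Wr ((Γ ⧸ U) × Fin n) => (x.σ (c, ⟨0, hn⟩)).1) hg
    have h2 : θ ⟨_, Vab_mem U g c⟩ = 1 := Multiplicative.toAdd.injective
      (funext fun k => congrArg (fun x : Wr ((Γ ⧸ U) × Fin n) => x.b (c, k)) hg)
    have h3 : c.out⁻¹ * g * (g⁻¹ • c).out = 1 :=
      congrArg Subtype.val ((injective_iff_map_eq_one _).1 hθ _ h2)
    rw [inv_smul_eq_iff.2 h1.symm, mul_assoc, inv_mul_eq_one] at h3
    exact right_eq_mul.1 h3

theorem Vab_ab {M : Type} [Group M] (hM : Group.FG M) (hc : ∀ a b : M, a * b = b * a) :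
    ∃ (V : Subgroup M) (n : ℕ) (θ : V →* Multiplicative (Fin n → ℤ)),
      V.FiniteIndex ∧ Injective θ ∧ 0 < n := by
  let _ : CommGroup M := { ‹Group M› with mul_comm := hc }
  obtain ⟨n, ι, _, p, hp, e, ⟨f⟩⟩ := AddCommGroup.equiv_free_prod_directSum_zmod (Additive M)
  have : ∀ i, NeZero (p i ^ e i) := fun i => ⟨pow_ne_zero _ (hp i).ne_zero⟩
  have : Finite (DirectSum ι fun i => ZMod (p i ^ e i)) :=
    Finite.of_equiv _ (DirectSum.addEquivProd _).symm.toEquiv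
  let s : M →* Multiplicative (DirectSum ι fun i => ZMod (p i ^ e i)) :=
    MonoidHom.mk' (fun x => Multiplicative.ofAdd (f (Additive.ofMul x)).2) fun x y => by simp
  refine ⟨s.ker, n + 1, MonoidHom.mk' (fun x => Multiplicative.ofAdd
    (Fin.cons 0 fun k => (f (Additive.ofMul x.1)).1 k)) fun x y => ?_, inferInstance,
    (injective_iff_map_eq_one _).2 fun x hx => Subtype.ext ?_, n.succ_pos⟩
  · refine Multiplicative.toAdd.injective (funext fun k => ?_)
    refine Fin.cases ?_ (fun k => ?_) k <;> simp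
  · refine Additive.ofMul.injective (f.injective (Eq.trans ?_ (map_zero f).symm))
    exact Prod.ext (Finsupp.ext fun k => congrFun (congrArg Multiplicative.toAdd hx) k.succ)
      (congrArg Multiplicative.toAdd x.2)

theorem fj_vab {Γ : Type} [Group Γ] (U : Subgroup Γ) (hU : U.FiniteIndex)
    (hc : ∀ a ∈ U, ∀ b ∈ U, a * b = b * a) : FJ Γ := by
  refine FJ.loc fun K hK => ?_
  have : Group.FG K := (Group.fg_iff_subgroup_fg K).2 hK
  obtain ⟨V, n, θ, hV, hθ, hn⟩ := Vab_ab (M := U.subgroupOf K) inferInstance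
    fun a b => Subtype.ext (Subtype.ext (hc _ a.2 _ b.2))
  let e := V.equivMapOfInjective _ (U.subgroupOf K).subtype_injective
  have : (V.map (U.subgroupOf K).subtype).FiniteIndex := ⟨by
    rw [Subgroup.index_map_subtype]
    exact mul_ne_zero hV.index_ne_zero Subgroup.FiniteIndex.index_ne_zero⟩
  obtain ⟨j, hj⟩ := exists_wr _ (θ.comp e.symm.toMonoidHom) (hθ.comp e.symm.injective) hn
  have := Fintype.ofFinite ((K ⧸ V.map (U.subgroupOf K).subtype) × Fin n)
  exact FJ.sub j hj (fj_wr _)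

end Pool.Agent.MP_f7db47_al.VC

end

section

/-!
Reduction to finite rank.
-/

namespace Pool.Agent.MP_f7db47_al.VC

open GN GF Function

theorem Lin.fj_ker {Γ U : Type} [Group Γ] [AddCommGroup U] [Module ℚ U] (D : Lin Γ U) :
    FJ D.ψ.ker :=
  fj_vab (D.A.subgroupOf D.ψ.ker) ⟨D.idx⟩ fun _ ha _ hb => Subtype.ext (D.comm ha hb)

section

variable {Γ U : Type} [Group Γ] [AddCommGroup U] [Module ℚ U] (D : Lin Γ U)

/-- The product of a subgroup with a subgroup that it normalises. -/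
def Lin2_prod (M N : Subgroup Γ) (h : ∀ m ∈ M, ∀ a ∈ N, m * a * m⁻¹ ∈ N) : Subgroup Γ where
  carrier := {g | ∃ m ∈ M, m⁻¹ * g ∈ N}
  one_mem' := ⟨1, M.one_mem, by simp⟩
  mul_mem' := by
    rintro g g' ⟨m, hm, hg⟩ ⟨m', hm', hg'⟩
    refine ⟨m * m', M.mul_mem hm hm', ?_⟩
    have := N.mul_mem (h _ (M.inv_mem hm') _ hg) hg'
    convert this using 1
    group
  inv_mem' := by
    rintro g ⟨m, hm, hg⟩
    refine ⟨m⁻¹, M.inv_mem hm, ?_⟩
    have := h _ hm _ (N.inv_mem hg)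
    convert this using 1
    group

theorem Lin2_L (g h : Γ) (u : U) : D.L (g * h) u = D.L g (D.L h u) := by
  rw [map_mul]
  rfl

theorem Lin2_conj {W : Submodule ℚ U} {γ a : Γ} (hγ : ∀ u ∈ W, D.L γ u ∈ W) (ha : a ∈ D.AW W) :
    γ * a * γ⁻¹ ∈ D.AW W :=
  ⟨D.normal.conj_mem a ha.1 γ, by rw [D.conj γ a ha.1]; exact hγ _ ha.2⟩

/-- The family of pairs. -/
def Lin2_ok (p : Submodule ℚ U × Subgroup Γ) : Prop :=
  FiniteDimensional ℚ p.1 ∧ p.2 ≤ D.ψ.ker ∧ D.A ⊓ p.2 = D.AW p.1 ∧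
    ∀ k ∈ p.2, ∀ u ∈ p.1, D.L k u ∈ p.1

/-- The size of a pair. -/
noncomputable def Lin2_sz (p : {p // Lin2_ok D p}) : ℕ × ℕ :=
  (Module.finrank ℚ p.1.1, D.A.relIndex p.1.2)

theorem Lin2_idx {K : Subgroup Γ} (hK : K ≤ D.ψ.ker) : D.A.relIndex K ≠ 0 :=
  fun h => D.idx (Subgroup.relIndex_eq_zero_of_le_right hK h)

theorem Lin2_cover (M : Subgroup Γ) (hM : M.FG) (hle : M ≤ D.ψ.ker) :
    ∃ p : {p // Lin2_ok D p}, M ≤ p.1.2 := by
  have : Group.FG M := (Group.fg_iff_subgroup_fg M).2 hM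
  have : (D.A.subgroupOf M).FiniteIndex := ⟨Lin2_idx D hle⟩
  obtain ⟨S, hS⟩ := (Group.fg_iff_subgroup_fg (D.A.subgroupOf M)).1 inferInstance
  have hS' : Subgroup.closure (M.subtype '' (S : Set M)) = D.A ⊓ M := by
    rw [← MonoidHom.map_closure, hS, Subgroup.subgroupOf_map_subtype]
  set T := M.subtype '' (S : Set M) with hT
  have hTf : T.Finite := S.finite_toSet.image _
  have hT1 : ∀ s ∈ T, s ∈ D.A ⊓ M := fun s hs => hS' ▸ Subgroup.subset_closure hs
  set W := Submodule.span ℚ (D.e '' T) with hW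
  have h1 : D.A ⊓ M ≤ D.AW W := by
    rw [← hS', Subgroup.closure_le]
    exact fun s hs => ⟨(hT1 s hs).1, Submodule.subset_span ⟨s, hs, rfl⟩⟩
  have h2 : ∀ m ∈ M, ∀ u ∈ W, D.L m u ∈ W := by
    intro m hm
    change W ≤ W.comap (D.L m : U →ₗ[ℚ] U)
    conv_lhs => rw [hW]
    rw [Submodule.span_le]
    rintro _ ⟨s, hs, rfl⟩
    have h3 := (h1 ⟨D.normal.conj_mem s (hT1 s hs).1 m,
      M.mul_mem (M.mul_mem hm (hT1 s hs).2) (M.inv_mem hm)⟩).2
    rw [D.conj m s (hT1 s hs).1] at h3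
    exact h3
  refine ⟨⟨(W, Lin2_prod M (D.AW W) fun m hm a ha => Lin2_conj D (h2 m hm) ha),
    FiniteDimensional.span_of_finite ℚ (hTf.image _), ?_, ?_, ?_⟩,
    fun m hm => ⟨m, hm, by simp⟩⟩
  · rintro g ⟨m, hm, hg⟩
    have := D.ψ.ker.mul_mem (hle hm) (D.le hg.1)
    rwa [mul_inv_cancel_left] at this
  · refine le_antisymm ?_ fun a ha => ⟨ha.1, 1, M.one_mem, by simpa using ha⟩
    rintro g ⟨hg1, m, hm, hg⟩
    have h3 : m ∈ D.A := by
      have := D.A.mul_mem hg1 (D.A.inv_mem hg.1)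
      rwa [mul_inv_rev, inv_inv, mul_inv_cancel_left] at this
    have := (D.AW W).mul_mem (h1 ⟨h3, hm⟩) hg
    rwa [mul_inv_cancel_left] at this
  · rintro g ⟨m, hm, hg⟩ u hu
    have e : g = m * (m⁻¹ * g) := by rw [mul_inv_cancel_left]
    rw [e, Lin2_L, D.triv _ hg.1]
    exact h2 m hm u hu

theorem Lin2_mem (K : Subgroup Γ) (x a : Γ) :
    a ∈ K.map (MulAut.conj x).toMonoidHom ↔ x⁻¹ * a * x⁻¹⁻¹ ∈ K := by
  constructor
  · rintro ⟨k, hk, rfl⟩
    have e : x⁻¹ * (x * k * x⁻¹) * x⁻¹⁻¹ = k := by group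
    exact e.symm ▸ hk
  · refine fun h => ⟨_, h, ?_⟩
    change x * (x⁻¹ * a * x⁻¹⁻¹) * x⁻¹ = a
    group

theorem Lin2_step (p : {p // Lin2_ok D p}) (x : Γ) :
    Drops (fun p : {p // Lin2_ok D p} => p.1.2)
      (InvImage (Prod.Lex (· < ·) (· < ·)) (Lin2_sz D)) p x ∨
    ((∀ u ∈ p.1.1, D.L x⁻¹ u ∈ p.1.1) ∧ ∀ k ∈ p.1.2, x⁻¹ * k * x⁻¹⁻¹ ∈ p.1.2) := by
  obtain ⟨⟨W, K⟩, h1, h2, h3, h4⟩ := p
  dsimp only at h1 h2 h3 h4 ⊢
  set W' := W ⊓ W.comap (D.L x⁻¹ : U →ₗ[ℚ] U) with hW'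
  set K' := K ⊓ K.map (MulAut.conj x).toMonoidHom with hK'
  have h3' : D.A ⊓ K' = D.AW W' := by
    ext a
    constructor
    · rintro ⟨ha, hk, hk'⟩
      have hc := D.normal.conj_mem a ha x⁻¹
      have h5 : a ∈ D.AW W := h3 ▸ ⟨ha, hk⟩
      have h6 : x⁻¹ * a * x⁻¹⁻¹ ∈ D.AW W := h3 ▸ ⟨hc, (Lin2_mem K x a).1 hk'⟩
      have h7 := h6.2
      rw [D.conj _ a ha] at h7
      exact ⟨ha, h5.2, h7⟩
    · rintro ⟨ha, hu, hu'⟩
      have hc := D.normal.conj_mem a ha x⁻¹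
      have h5 : a ∈ D.A ⊓ K := h3 ▸ (⟨ha, hu⟩ : a ∈ D.AW W)
      have h6 : x⁻¹ * a * x⁻¹⁻¹ ∈ D.A ⊓ K := by
        rw [h3]
        exact ⟨hc, by rw [D.conj _ a ha]; exact hu'⟩
      exact ⟨ha, h5.2, (Lin2_mem K x a).2 h6.2⟩
  have hok : Lin2_ok D (W', K') := by
    refine ⟨Submodule.finiteDimensional_of_le inf_le_left, inf_le_left.trans h2, h3', ?_⟩
    rintro k ⟨hk, hk'⟩ u ⟨hu, hu'⟩
    refine ⟨h4 k hk u hu, ?_⟩
    have h5 := h4 _ ((Lin2_mem K x k).1 hk') _ hu'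
    change D.L _ (D.L x⁻¹ u) ∈ W at h5
    rw [← Lin2_L, inv_mul_cancel_right, Lin2_L] at h5
    exact h5
  by_cases hW : W' = W
  · by_cases hK : K ≤ K'
    · exact Or.inr ⟨fun u hu => (hW.ge hu).2, fun k hk => (Lin2_mem K x k).1 (hK hk).2⟩
    · refine Or.inl fun M _ hM => ⟨⟨(W', K'), hok⟩, ?_, hM⟩
      change Prod.Lex _ _ (Module.finrank ℚ W', D.A.relIndex K') (Module.finrank ℚ W, D.A.relIndex K)
      rw [hW]
      refine Prod.Lex.right _ ?_
      have hle : K' ≤ K := inf_le_left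
      have h5 := Subgroup.relIndex_inf_mul_relIndex D.A K' K
      rw [inf_of_le_left hle, h3', hW, ← h3, Subgroup.inf_relIndex_right] at h5
      have h6 := Lin2_idx D h2
      have h7 : K'.relIndex K ≠ 1 := fun h => hK (Subgroup.relIndex_eq_one.1 h)
      rw [← h5] at h6 ⊢
      have h8 := Nat.pos_of_ne_zero (left_ne_zero_of_mul h6)
      have h9 := Nat.pos_of_ne_zero (right_ne_zero_of_mul h6)
      exact lt_mul_of_one_lt_right h8 (by omega)
  · exact Or.inl fun M _ hM => ⟨⟨(W', K'), hok⟩,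
      Prod.Lex.left _ _ (Submodule.finrank_lt_finrank_of_lt (lt_of_le_of_ne inf_le_left hW)), hM⟩

/-- The elements that preserve a pair. -/
def Lin2_st (W : Submodule ℚ U) (K : Subgroup Γ) : Subgroup Γ where
  carrier := {g | ((∀ u ∈ W, D.L g u ∈ W) ∧ ∀ k ∈ K, g * k * g⁻¹ ∈ K) ∧
    (∀ u ∈ W, D.L g⁻¹ u ∈ W) ∧ ∀ k ∈ K, g⁻¹ * k * g⁻¹⁻¹ ∈ K}
  one_mem' := by
    rw [Set.mem_ofPred_eq, inv_one]
    simp
  mul_mem' := by
    rintro g g' ⟨⟨a1, a2⟩, a3, a4⟩ ⟨⟨b1, b2⟩, b3, b4⟩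
    refine ⟨⟨fun u hu => ?_, fun k hk => ?_⟩, fun u hu => ?_, fun k hk => ?_⟩
    · rw [Lin2_L]
      exact a1 _ (b1 u hu)
    · convert a2 _ (b2 k hk) using 1
      group
    · rw [mul_inv_rev, Lin2_L]
      exact b3 _ (a3 u hu)
    · convert b4 _ (a4 k hk) using 1
      group
  inv_mem' := by
    rintro g ⟨a, b⟩
    exact ⟨b, by simpa using a⟩

end

theorem fj_lin_of_fin (h : ∀ (Γ U : Type) [Group Γ] [AddCommGroup U] [Module ℚ U]
      [FiniteDimensional ℚ U], Lin Γ U → FJ Γ)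
    {Γ U : Type} [Group Γ] [AddCommGroup U] [Module ℚ U] (D : Lin Γ U) : FJ Γ := by
  refine FJ.tame D.ψ {p // Lin2_ok D p} (fun p => p.1.2)
    (InvImage (Prod.Lex (· < ·) (· < ·)) (Lin2_sz D))
    (InvImage.wf _ (WellFounded.prod_lex wellFounded_lt wellFounded_lt)) (fun p => p.2.2.1)
    (Lin2_cover D) D.fj_ker fun p x hx => ?_
  rcases Lin2_step D p x with h1 | h1
  · exact Or.inr (Or.inl h1)
  rcases Lin2_step D p x⁻¹ with h2 | h2
  · exact Or.inr (Or.inr h2)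
  refine Or.inl ?_
  obtain ⟨⟨W, K⟩, k1, k2, k3, k4⟩ := p
  dsimp only at h1 h2 k1 k2 k3 k4 ⊢
  have hx1 : Subgroup.zpowers x ≤ Lin2_st D W K :=
    Subgroup.zpowers_le.2 ⟨by simpa using h2, h1⟩
  have hK1 : K ≤ Lin2_st D W K := fun k hk =>
    ⟨⟨k4 k hk, fun a ha => K.mul_mem (K.mul_mem hk ha) (K.inv_mem hk)⟩, k4 _ (K.inv_mem hk),
      fun a ha => K.mul_mem (K.mul_mem (K.inv_mem hk) ha) (K.inv_mem (K.inv_mem hk))⟩
  have hP : K ⊔ Subgroup.zpowers x ≤
      Lin2_prod (Subgroup.zpowers x) K fun m hm => (hx1 hm).1.2 :=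
    sup_le (fun k hk => ⟨1, Subgroup.one_mem _, by simpa using hk⟩) fun m hm => ⟨m, hm, by simp⟩
  set H := K ⊔ Subgroup.zpowers x with hH
  have hker : (D.ψ.comp H.subtype).ker.map H.subtype ≤ K := by
    rintro _ ⟨g, hg, rfl⟩
    obtain ⟨_, ⟨n, rfl⟩, hn⟩ := hP g.2
    have h3 : D.ψ g = 1 := hg
    have h4 : D.ψ ((x ^ n)⁻¹ * g) = 1 := k2 hn
    rw [map_mul, h3, mul_one, map_inv, inv_eq_one, map_zpow] at h4
    have h5 : n * (D.ψ x).toAdd = 0 := by simpa using congrArg Multiplicative.toAdd h4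
    rcases mul_eq_zero.1 h5 with h6 | h6
    · simpa [h6] using hn
    · exact (hx (toAdd_eq_zero.1 h6)).elim
  obtain ⟨E⟩ := D.restrict H.subtype H.subtype_injective W
    (fun g => (sup_le hK1 hx1 g.2).1.1) (D.ψ.comp H.subtype) (fun g hg => D.le hg.1) (by
      rw [Subgroup.relIndex_comap]
      refine fun h0 => Lin2_idx D k2 ?_
      have h3 := Subgroup.relIndex_eq_zero_of_le_right hker h0
      rwa [← k3, Subgroup.inf_relIndex_right] at h3)
  exact h H W E

end Pool.Agent.MP_f7db47_al.VC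

end

section

/-!
Lengths of orbits.
-/

namespace Pool.Agent.MP_f7db47_al.VC

open GN GF

theorem Orb_cast (q n : ℕ) {p : ℕ} (hp : 0 < p) :
    ((∏ i : Fin n, (p ^ n - p ^ (i : ℕ)) : ℕ) : ZMod q) =
      ∏ i : Fin n, ((p : ZMod q) ^ n - (p : ZMod q) ^ (i : ℕ)) := by
  rw [Nat.cast_prod]
  refine Finset.prod_congr rfl fun i _ => ?_
  rw [Nat.cast_sub (Nat.pow_le_pow_right hp i.2.le), Nat.cast_pow, Nat.cast_pow]

theorem gl_card (ι : Type) [Fintype ι] [DecidableEq ι] (π : ℕ) (hπ : π.Prime) :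
    ∃ c : ℕ, ∀ p₀ : ℕ, ∃ p : ℕ, p.Prime ∧ p₀ ≤ p ∧ ¬ π ^ c ∣ Nat.card (GL ι (ZMod p)) := by
  obtain ⟨n, hn⟩ : ∃ n, n = Fintype.card ι := ⟨_, rfl⟩
  obtain ⟨N, hN⟩ : ∃ N, N = ∏ i : Fin n, ((π + 1) ^ n - (π + 1) ^ (i : ℕ)) := ⟨_, rfl⟩
  have h0 : 0 < N := by
    rw [hN]
    exact Finset.prod_pos fun i _ =>
      Nat.sub_pos_of_lt (Nat.pow_lt_pow_right (Nat.succ_lt_succ hπ.pos) i.2)
  refine ⟨N, fun p₀ => ?_⟩
  obtain ⟨p, hp, hpp, he⟩ := Nat.forall_exists_prime_gt_and_modEq p₀ (q := π ^ N) (a := π + 1)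
    (pow_ne_zero _ hπ.ne_zero) (Nat.Coprime.pow_right _ (by simp))
  refine ⟨p, hpp, hp.le, fun hd => ?_⟩
  have := Fact.mk hpp
  have e : Nat.card (GL ι (ZMod p)) = Nat.card (GL (Fin n) (ZMod p)) :=
    Nat.card_congr (Units.mapEquiv (Matrix.reindexRingEquiv (R := ZMod p)
      (Fintype.equivFinOfCardEq hn.symm)).toMulEquiv).toEquiv
  rw [e, Matrix.card_GL_field, ZMod.card, ← ZMod.natCast_eq_zero_iff, Orb_cast _ _ hpp.pos,
    (ZMod.natCast_eq_natCast_iff _ _ _).2 he, ← Orb_cast _ _ π.succ_pos, ← hN,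
    ZMod.natCast_eq_zero_iff] at hd
  exact absurd (Nat.le_of_dvd h0 hd) (not_le.2 (Nat.lt_pow_self hπ.one_lt))

theorem orb_abs {V : Type} [Group V] (ψ : V →* MZ) (hψ : Finite ψ.ker) (π : ℕ) (hπ : π.Prime)
    (c l₀ : ℕ) : ∃ T : Finset V, (∀ g ∈ T, ψ g ≠ 1) ∧ ∀ (Q : Type) [Group Q] [Finite Q]
      (f : V →* Q) (Bad : Q → Prop), ¬ π ^ c ∣ Nat.card Q → (∀ x (n : ℕ), Bad x → Bad (x ^ n)) →
      (∀ g ∈ T, ¬ Bad (f g)) → ∃ (s : ℕ) (l : Fin s → ℕ), (∀ i, l₀ ≤ l i ∧ ¬ π ∣ l i) ∧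
        ∀ g, Bad (f g) → ∃ i, (l i : ℤ) ∣ (ψ g).toAdd := by
  classical
  obtain ⟨u, hu⟩ := exists_gen ψ
  have hfin : {g | ψ g ≠ 1 ∧ |dg ψ g| ≤ |dg ψ u| * (π ^ c * l₀ : ℕ)}.Finite :=
    (vc_ball ψ hψ _).subset fun g hg => hg.2
  refine ⟨hfin.toFinset, fun g hg => (hfin.mem_toFinset.1 hg).1, fun Q _ _ f Bad hc hB hT => ?_⟩
  obtain ⟨L, hL⟩ : ∃ L : Finset ℕ, ∀ l, l ∈ L ↔ l < Nat.card Q + π * l₀ + 2 ∧ l₀ ≤ l ∧ ¬ π ∣ l :=
    ⟨(Finset.range (Nat.card Q + π * l₀ + 2)).filter fun l => l₀ ≤ l ∧ ¬ π ∣ l, fun l => by simp⟩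
  refine ⟨L.card, fun i => (L.equivFin.symm i : ℕ), fun i => ((hL _).1 (L.equivFin.symm i).2).2,
    fun g hg => ?_⟩
  suffices h : ∃ l ∈ L, (l : ℤ) ∣ (ψ g).toAdd by
    obtain ⟨l, hl, h⟩ := h
    exact ⟨L.equivFin ⟨l, hl⟩, by simpa using h⟩
  by_cases h1 : ψ g = 1
  · refine ⟨π * l₀ + 1, (hL _).2 ⟨by omega, ?_, fun h => ?_⟩, by simp [h1]⟩
    · exact (Nat.le_mul_of_pos_left _ hπ.pos).trans (Nat.le_succ _)
    · exact hπ.one_lt.ne' (Nat.dvd_one.1 ((Nat.dvd_add_right (dvd_mul_right _ _)).1 h))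
  obtain ⟨n, hn⟩ := hu g
  have hd : (ψ u).toAdd ≠ 0 := fun h => h1 (by rw [hn, show ψ u = 1 from h, one_zpow])
  have ho : 0 < Nat.card Q := Nat.card_pos
  obtain ⟨m, hm⟩ : ∃ m, m = Int.gcd n (Nat.card Q) := ⟨_, rfl⟩
  have hmo : m ∣ Nat.card Q := by
    have : (m : ℤ) ∣ (Nat.card Q : ℕ) := hm ▸ Int.gcd_dvd_right ..
    exact_mod_cast this
  have hmn : (m : ℤ) ∣ n := hm ▸ Int.gcd_dvd_left ..
  have hm0 : 0 < m := Nat.pos_of_dvd_of_pos hmo ho
  obtain ⟨a, b, hab⟩ : ∃ a b : ℤ, (m : ℤ) = n * a + (Nat.card Q : ℕ) * b :=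
    ⟨_, _, hm ▸ Int.gcd_eq_gcd_ab _ _⟩
  have hf : Bad (f (g ^ a * u ^ ((Nat.card Q : ℕ) * b))) := by
    obtain ⟨k, hk⟩ := (mem_powers_iff_mem_zpowers (x := f g) (y := f g ^ a)).2 ⟨a, rfl⟩
    rw [map_mul, map_zpow, map_zpow, zpow_mul, zpow_natCast, pow_card_eq_one', one_zpow, mul_one,
      ← hk]
    exact hB _ _ hg
  have hv : (ψ (g ^ a * u ^ ((Nat.card Q : ℕ) * b))).toAdd = m * (ψ u).toAdd := by
    rw [map_mul, map_zpow, map_zpow, hn, ← zpow_mul, ← zpow_add, ← hab, toAdd_zpow, smul_eq_mul]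
  have hlt : π ^ c * l₀ < m := by
    by_contra hle
    refine hT _ (hfin.mem_toFinset.2 ⟨fun h => ?_, ?_⟩) hf
    · rw [h] at hv
      exact mul_ne_zero (Int.natCast_ne_zero.2 hm0.ne') hd hv.symm
    · rw [dg, hv, Int.cast_mul, abs_mul, mul_comm, Int.cast_natCast, Nat.abs_cast]
      exact mul_le_mul_of_nonneg_left (Nat.cast_le.2 (not_lt.1 hle)) (abs_nonneg _)
  obtain ⟨j, l, hl, e⟩ := Nat.exists_eq_pow_mul_and_not_dvd hm0.ne' π hπ.one_lt.ne'
  have hlm : l ∣ m := ⟨π ^ j, by rw [e, mul_comm]⟩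
  have hj : j ≤ c := by
    by_contra h
    exact hc ((pow_dvd_pow π (not_le.1 h).le).trans ((Dvd.intro l e.symm).trans hmo))
  refine ⟨l, (hL _).2 ⟨?_, ?_, hl⟩, ?_⟩
  · have := Nat.le_of_dvd ho (hlm.trans hmo)
    omega
  · refine (Nat.lt_of_mul_lt_mul_left (a := π ^ j) ?_).le
    rw [← e]
    exact (Nat.mul_le_mul_right _ (Nat.pow_le_pow_right hπ.pos hj)).trans_lt hlt
  · rw [hn, toAdd_zpow, smul_eq_mul]
    exact ((Int.natCast_dvd_natCast.2 hlm).trans hmn).mul_right _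

end Pool.Agent.MP_f7db47_al.VC

end

section

/-!
Hyperbolic affine groups.
-/

namespace Pool.Agent.MP_f7db47_al.VC

open GN GF Matrix

theorem Aff_bad {ι F : Type} [Fintype ι] [DecidableEq ι] [CommRing F] (x : GL ι F) (n : ℕ)
    (h : (x.val - 1).det = 0) : ((x ^ n).val - 1).det = 0 := by
  rw [Units.val_pow_eq_pow_val, ← mul_geom_sum, det_mul, h, zero_mul]

theorem Aff_ker {V ι : Type} [Group V] [Fintype ι] [DecidableEq ι] {Z : Subring ℚ}
    (L : V →* GLZ Z ι) (ψ : V →* MZ) (hψ : Finite ψ.ker) : FJ (ψ.comp (Aff.lin L)).ker := by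
  let φ : (ψ.comp (Aff.lin L)).ker →* ψ.ker :=
    ((Aff.lin L).comp (ψ.comp (Aff.lin L)).ker.subtype).codRestrict ψ.ker fun x => x.2
  refine fj_vab φ.ker inferInstance fun a ha b hb => Subtype.ext ?_
  have ha' : a.1.g = 1 := congrArg Subtype.val ha
  have hb' : b.1.g = 1 := congrArg Subtype.val hb
  refine Aff.ext ?_ ?_
  · change (a.1 * b.1).a = (b.1 * a.1).a
    rw [Aff.mul_a, Aff.mul_a, ha', hb', Aff.mulVec_one, Aff.mulVec_one, add_comm]
  · change (a.1 * b.1).g = (b.1 * a.1).g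
    rw [Aff.mul_g, Aff.mul_g, ha', hb']

theorem fj_aff {q : ℕ} (hq : 0 < q) {V ι : Type} [Group V] [Fintype ι] [DecidableEq ι]
    (L : V →* GLZ (ZQ q) ι) (ψ : V →* MZ) (hψ : Finite ψ.ker)
    (h : ∀ g, ψ g ≠ 1 → ((L g).1.val - 1).det ≠ 0) : FJ (Aff L) := by
  classical
  obtain ⟨N, hN⟩ := aff_deep hq L ψ hψ
  refine FJ.fh (max N 2) fun r S₀ π hπ => ?_
  obtain ⟨l₀, hl₀, hcirc⟩ := circle (ψ.comp (Aff.lin L)) r S₀
  obtain ⟨c, hc⟩ := gl_card ι π hπ
  obtain ⟨T, hT, horb⟩ := orb_abs ψ hψ π hπ c l₀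
  obtain ⟨p₁, hp₁⟩ := red_ne (T.image fun g => ((L g).1.val - 1).det) (by
    intro a ha
    obtain ⟨g, hg, rfl⟩ := Finset.mem_image.1 ha
    exact h g (hT g hg))
  obtain ⟨p₀, hp₀⟩ := hN r S₀
  obtain ⟨p, hp, hle, hcard⟩ := hc (max (max p₀ p₁) (q + 1))
  have : Fact p.Prime := ⟨hp⟩
  have hpq : ¬ p ∣ q := fun hd => by
    have := Nat.le_of_dvd hq hd
    omega
  obtain ⟨f, -, hf⟩ := exists_redL L hpq
  obtain ⟨σ₀, hσ₀⟩ := exists_act L hpq
  obtain ⟨s, l, hl, hbad⟩ := horb (GL ι (ZMod p)) f (fun x => (x.val - 1).det = 0) hcard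
    Aff_bad fun g hg => by
      rw [hf]
      exact hp₁ p (by omega) _ (Finset.mem_image_of_mem _ hg)
  choose σ hσ hσ' using fun i => hcirc (l i) (hl i).1
  refine ⟨s, ι → ZMod p, inferInstance, σ₀, fun i => ZMod (l i), fun i => ?_, σ,
    (hp₀ p (by omega) hpq σ₀ hσ₀).mono (fun K hK => FJ.of_vc hK) (le_max_left _ _),
    fun i => (hσ' i).mono (fun K hK => FJ.le hK (Aff_ker L ψ hψ)) (le_max_right _ _),
    fun i => ?_, fun g => ?_⟩
  · have : NeZero (l i) := ⟨by have := (hl i).1; omega⟩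
    infer_instance
  · rw [Nat.card_zmod]
    exact (hl i).2
  · by_cases hb : ((f g.g).val - 1).det = 0
    · obtain ⟨i, hi⟩ := hbad g.g hb
      exact Or.inr ⟨i, hσ i g hi⟩
    · rw [hf] at hb
      exact Or.inl (act_fix L hpq hσ₀ g hb)

end Pool.Agent.MP_f7db47_al.VC

end

section

/-!
The hyperbolic case.
-/

namespace Pool.Agent.MP_f7db47_al.VC

open GN GF Function

variable {Γ U : Type} [Group Γ] [AddCommGroup U] [Module ℚ U] (D : Lin Γ U)

theorem Hyp_comm {Q : Type} [Group Q] (q x : Q) {i j n : ℕ} (hij : i < j) (hj : j ≤ n)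
    (h : q ^ i * x * (q ^ i)⁻¹ * x⁻¹ = q ^ j * x * (q ^ j)⁻¹ * x⁻¹) :
    q ^ n.factorial * x * (q ^ n.factorial)⁻¹ * x⁻¹ = 1 := by
  obtain ⟨k, rfl⟩ := Nat.exists_eq_add_of_le hij.le
  have h1 : Commute (q ^ k) x := by
    rw [mul_left_inj, pow_add, mul_inv_rev, ← mul_assoc, mul_left_inj, mul_assoc, mul_assoc,
      mul_right_inj, ← mul_assoc, eq_mul_inv_iff_mul_eq] at h
    exact h.symm
  obtain ⟨c, hc⟩ := Nat.dvd_factorial (m := k) (n := n) (by omega) (by omega)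
  rw [hc, pow_mul, (h1.pow_left c).eq, mul_inv_cancel_right, mul_inv_cancel]

/-- The matrices of a linear action. -/
noncomputable def Hyp_mat {ι : Type} [Fintype ι] [DecidableEq ι] (B : Module.Basis ι ℚ U) :
    Γ →* GL ι ℚ :=
  MonoidHom.toHomUnits
    { toFun := fun γ => LinearMap.toMatrix B B (D.L γ : U →ₗ[ℚ] U)
      map_one' := by rw [map_one, LinearEquiv.coe_toLinearMap_one, LinearMap.toMatrix_id]
      map_mul' := fun g h => by
        rw [map_mul, LinearEquiv.coe_toLinearMap_mul, LinearMap.toMatrix_mul] }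

theorem Hyp_mat_mulVec {ι : Type} [Fintype ι] [DecidableEq ι] (B : Module.Basis ι ℚ U) (γ : Γ)
    (u : U) : (Hyp_mat D B γ).val.mulVec (B.repr u) = B.repr (D.L γ u) :=
  LinearMap.toMatrix_mulVec_repr B B (D.L γ : U →ₗ[ℚ] U) u

theorem Hyp_det {ι : Type} [Fintype ι] [DecidableEq ι] (B : Module.Basis ι ℚ U) {γ : Γ}
    (h : ∀ u, D.L γ u = u → u = 0) : ((Hyp_mat D B γ).val - 1).det ≠ 0 := by
  intro e
  obtain ⟨w, hw, e'⟩ := Matrix.exists_mulVec_eq_zero_iff.2 e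
  obtain ⟨u, rfl⟩ := B.equivFun.surjective w
  rw [B.equivFun_apply, Matrix.sub_mulVec, Matrix.one_mulVec, Hyp_mat_mulVec, sub_eq_zero] at e'
  exact hw (by rw [h u (B.repr.injective (DFunLike.coe_injective e')), map_zero])

theorem Lin.central : ∃ m : ℕ, 0 < m ∧ ∀ g γ : Γ, g ^ m * γ * (g ^ m)⁻¹ * γ⁻¹ ∈ D.A := by
  have := D.normal
  have : Finite (D.ψ.ker ⧸ D.A.subgroupOf D.ψ.ker) := Nat.finite_of_card_ne_zero D.idx
  have := Fintype.ofFinite (D.ψ.ker ⧸ D.A.subgroupOf D.ψ.ker)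
  refine ⟨(Fintype.card (D.ψ.ker ⧸ D.A.subgroupOf D.ψ.ker)).factorial, Nat.factorial_pos _,
    fun g γ => ?_⟩
  have hk : ∀ i : ℕ, g ^ i * γ * (g ^ i)⁻¹ * γ⁻¹ ∈ D.ψ.ker := fun i => by
    rw [MonoidHom.mem_ker, map_mul, map_mul, map_mul, map_inv, map_inv, mul_inv_cancel_comm,
      mul_inv_cancel]
  obtain ⟨i, j, hij, e⟩ := Fintype.exists_ne_map_eq_of_card_lt
    (fun i : Fin (Fintype.card (D.ψ.ker ⧸ D.A.subgroupOf D.ψ.ker) + 1) =>
      (QuotientGroup.mk ⟨_, hk i⟩ : D.ψ.ker ⧸ D.A.subgroupOf D.ψ.ker)) (by simp)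
  have e1 : QuotientGroup.mk' D.A _ = QuotientGroup.mk' D.A _ :=
    QuotientGroup.eq.2 (Subgroup.mem_subgroupOf.1 (QuotientGroup.eq.1 e))
  rw [← QuotientGroup.eq_one_iff, ← QuotientGroup.mk'_apply]
  simp only [map_mul, map_inv, map_pow] at e1 ⊢
  rcases lt_or_gt_of_ne hij with h | h
  · exact Hyp_comm _ _ h (Nat.le_of_lt_succ j.2) e1
  · exact Hyp_comm _ _ h (Nat.le_of_lt_succ i.2) e1.symm

theorem Lin.cocycle {t : Γ} (ht : ∀ γ, t * γ * t⁻¹ * γ⁻¹ ∈ D.A)
    (hb : Bijective fun u => D.L t u - u) :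
    ∃ b : Γ → U, (∀ γ δ, b (γ * δ) = b γ + D.L γ (b δ)) ∧ ∀ a ∈ D.A, b a = D.e a := by
  choose b hb' using fun γ => hb.2 (D.e (t * γ * t⁻¹ * γ⁻¹))
  have hc : ∀ γ u, D.L t (D.L γ u) = D.L γ (D.L t u) := fun γ u => by
    have h1 : t * γ = t * γ * t⁻¹ * γ⁻¹ * (γ * t) := by group
    rw [← LinearEquiv.mul_apply, ← map_mul, h1, map_mul, D.triv _ (ht γ), one_mul, map_mul,
      LinearEquiv.mul_apply]
  refine ⟨b, fun γ δ => hb.1 ?_, fun a ha => hb.1 ?_⟩
  · have h1 : t * (γ * δ) * t⁻¹ * (γ * δ)⁻¹ =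
        t * γ * t⁻¹ * γ⁻¹ * (γ * (t * δ * t⁻¹ * δ⁻¹) * γ⁻¹) := by group
    rw [hb', h1, D.add _ (ht γ) _ (D.normal.conj_mem _ (ht δ) γ), D.conj _ _ (ht δ), ← hb', ← hb']
    simp only [map_add, map_sub, hc]
    abel
  · rw [hb', D.add _ (D.normal.conj_mem _ ha t) _ (D.A.inv_mem ha), D.conj _ _ ha, D.e_inv ha]
    exact (sub_eq_add_neg _ _).symm

theorem Lin.fj_hyp [FiniteDimensional ℚ U]
    (h : ∀ g, D.ψ g ≠ 1 → ∀ u, D.L g u = u → u = 0) : FJ Γ := by
  classical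
  by_cases h0 : ∀ g, D.ψ g = 1
  · exact FJ.sub ((MonoidHom.id Γ).codRestrict D.ψ.ker h0)
      (fun _ _ e => congrArg Subtype.val e) D.fj_ker
  obtain ⟨g, hg⟩ := not_forall.1 h0
  obtain ⟨m, hm, hc⟩ := D.central
  have h1 : D.ψ (g ^ m) ≠ 1 := fun e => hg (by
    have e1 := congrArg Multiplicative.toAdd e
    rw [map_pow, toAdd_pow, toAdd_one, smul_eq_zero_iff_right hm.ne'] at e1
    exact toAdd_eq_zero.1 e1)
  have h2 : Injective ((D.L (g ^ m) : U →ₗ[ℚ] U) - LinearMap.id : U →ₗ[ℚ] U) :=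
    (injective_iff_map_eq_zero _).2 fun u hu => h _ h1 u (sub_eq_zero.1 hu)
  obtain ⟨b, b1, b2⟩ := D.cocycle (hc g) ⟨h2, LinearMap.injective_iff_surjective.1 h2⟩
  have b0 : b 1 = 0 := by rw [b2 1 D.A.one_mem, D.e_one]
  have := D.normal
  let B := Module.finBasis ℚ U
  let L := QuotientGroup.lift D.A (Hyp_mat D B) fun a ha => Units.ext (by
    change LinearMap.toMatrix B B (D.L a : U →ₗ[ℚ] U) = 1
    rw [D.triv a ha, LinearEquiv.coe_toLinearMap_one, LinearMap.toMatrix_id])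
  let ψ := QuotientGroup.lift D.A D.ψ D.le
  have hψ : (ψ.ker : Set (Γ ⧸ D.A)).Finite := by
    have : Finite (D.ψ.ker ⧸ D.A.subgroupOf D.ψ.ker) := Nat.finite_of_card_ne_zero D.idx
    refine (Set.finite_range fun x : D.ψ.ker ⧸ D.A.subgroupOf D.ψ.ker =>
      (QuotientGroup.mk x.out.1 : Γ ⧸ D.A)).subset fun y hy => ?_
    obtain ⟨γ, rfl⟩ := QuotientGroup.mk_surjective y
    refine ⟨QuotientGroup.mk ⟨γ, hy⟩, QuotientGroup.eq.2 ?_⟩
    exact Subgroup.mem_subgroupOf.1 (QuotientGroup.eq.1 (QuotientGroup.out_eq'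
      (QuotientGroup.mk ⟨γ, hy⟩ : D.ψ.ker ⧸ D.A.subgroupOf D.ψ.ker)))
  refine FJ.loc fun K hK => ?_
  obtain ⟨F, hF⟩ := BMain_land ((Group.fg_iff_subgroup_fg K).2 hK) ((Hyp_mat D B).comp K.subtype)
  obtain ⟨S, hS⟩ := hK
  obtain ⟨q, hq, hZ⟩ := exists_ZQ (F ∪ (S ×ˢ Finset.univ).image fun p => B.repr (b p.1) p.2)
  have hL : ∀ γ ∈ K, Hyp_mat D B γ ∈ GLZ (ZQ q) _ := fun γ hγ =>
    hF _ (fun a ha => hZ a (Finset.mem_union_left _ ha)) ⟨γ, hγ⟩
  have hv : ∀ γ ∈ K, ∀ u, (∀ i, B.repr u i ∈ ZQ q) → ∀ i, B.repr (D.L γ u) i ∈ ZQ q :=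
    fun γ hγ u hu i => by
      rw [← Hyp_mat_mulVec]
      exact (ZQ q).sum_mem (t := Finset.univ) fun j _ => mul_mem ((hL γ hγ).1 i j) (hu j)
  have hb : ∀ γ ∈ K, ∀ i, B.repr (b γ) i ∈ ZQ q := by
    intro γ hγ
    rw [← hS] at hγ hv
    induction hγ using Subgroup.closure_induction with
    | mem x hx =>
      exact fun i => hZ _ (Finset.mem_union_right _ (Finset.mem_image.2
        ⟨(x, i), Finset.mem_product.2 ⟨hx, Finset.mem_univ _⟩, rfl⟩))
    | one =>
      intro i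
      rw [b0, map_zero]
      exact zero_mem _
    | mul x y hx _ ihx ihy =>
      intro i
      rw [b1, map_add]
      exact add_mem (ihx i) (hv x hx _ ihy i)
    | inv x hx ih =>
      intro i
      have e := b1 x⁻¹ x
      rw [inv_mul_cancel, b0, eq_comm, add_eq_zero_iff_eq_neg] at e
      rw [e, map_neg]
      exact neg_mem (hv _ (inv_mem hx) _ ih i)
  let V := K.map (QuotientGroup.mk' D.A)
  let L' : V →* GLZ (ZQ q) _ := (L.comp V.subtype).codRestrict _ (by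
    rintro ⟨_, γ, hγ, rfl⟩
    exact hL γ hγ)
  let j : K →* Aff L' := MonoidHom.mk'
    (fun γ => ⟨B.repr (b γ), hb γ γ.2, ⟨QuotientGroup.mk γ.1, γ.1, γ.2, rfl⟩⟩) fun γ δ =>
      Aff.ext (by
        change ⇑(B.repr (b (γ * δ))) = B.repr (b γ) + (Hyp_mat D B γ).val.mulVec (B.repr (b δ))
        rw [Hyp_mat_mulVec, b1, map_add]
        rfl) rfl
  refine FJ.sub j ((injective_iff_map_eq_one j).2 fun γ e => ?_)
    (fj_aff hq L' (ψ.comp V.subtype) ?_ ?_)
  · have e1 : γ.1 ∈ D.A := (QuotientGroup.eq_one_iff _).1 (congrArg (fun x => x.g.1) e)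
    have e2 : B.repr (b γ) = 0 := DFunLike.coe_injective (congrArg Aff.a e)
    rw [map_eq_zero_iff _ B.repr.injective, b2 _ e1] at e2
    exact Subtype.ext (D.inj _ e1 e2)
  · have := hψ.to_subtype
    exact Finite.of_injective (fun x : (ψ.comp V.subtype).ker => (⟨x.1.1, x.2⟩ : ψ.ker))
      fun x y e => Subtype.ext (Subtype.ext (Subtype.mk.inj e))
  · rintro ⟨_, γ, hγ, rfl⟩ e
    exact Hyp_det D B (h γ e)

end Pool.Agent.MP_f7db47_al.VC

end

section

/-!
Induction on the rank.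
-/

namespace Pool.Agent.MP_f7db47_al.VC

open GN GF Function

theorem Lin3_zp (x : MZ) (hx : x ≠ 1) : (Subgroup.zpowers x).index ≠ 0 := by
  have h1 : (Subgroup.zpowers x).index = (AddSubgroup.zmultiples x.toAdd).index := by
    rw [← AddSubgroup.index_toSubgroup]
    congr 1
  rw [h1, Int.index_zmultiples]
  simpa using hx

theorem Lin3_top {Γ U : Type} [Group Γ] [AddCommGroup U] [Module ℚ U] (D : Lin Γ U) {t : Γ}
    (h1 : D.ψ t ≠ 1) (ht : ∀ γ, t * γ * t⁻¹ * γ⁻¹ ∈ D.A) (hL : ∀ u, D.L t u = u) : FJ Γ := by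
  have := D.normal
  have hc : ∀ a ∈ D.A, Commute t a := fun a ha => by
    have := D.e_inj (D.normal.conj_mem a ha t) ha (by rw [D.conj t a ha, hL])
    exact mul_inv_eq_iff_eq_mul.1 this
  have hq : ∀ γ : Γ ⧸ D.A, Commute (QuotientGroup.mk' D.A t) γ := fun γ => by
    obtain ⟨γ, rfl⟩ := QuotientGroup.mk'_surjective D.A γ
    have : QuotientGroup.mk' D.A (t * γ * t⁻¹ * γ⁻¹) = 1 := (QuotientGroup.eq_one_iff _).2 (ht γ)
    rw [map_mul, map_mul, map_mul, map_inv, map_inv] at this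
    exact commutatorElement_eq_one_iff_commute.1 this
  have hn : (Subgroup.zpowers (QuotientGroup.mk' D.A t)).Normal := ⟨by
    rintro _ ⟨n, rfl⟩ g
    refine ⟨n, ?_⟩
    simp only
    rw [← ((hq g).zpow_left n).eq, mul_inv_cancel_right]⟩
  set H := (Subgroup.zpowers (QuotientGroup.mk' D.A t)).comap (QuotientGroup.mk' D.A) with hH
  have hm : ∀ x, x ∈ H ↔ ∃ n : ℤ, (t ^ n)⁻¹ * x ∈ D.A := fun x => by
    rw [hH, Subgroup.mem_comap, Subgroup.mem_zpowers_iff]
    refine exists_congr fun n => ?_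
    rw [← map_zpow]
    exact QuotientGroup.eq
  have hAH : D.A ≤ H := fun a ha => (hm a).2 ⟨0, by simpa using ha⟩
  refine fj_vab H ⟨?_⟩ ?_
  · have e1 : H.relIndex D.ψ.ker ≠ 0 :=
      ne_zero_of_dvd_ne_zero D.idx (Subgroup.relIndex_dvd_of_le_left _ hAH)
    have e2 : ((Subgroup.zpowers (D.ψ t)).comap D.ψ).index ≠ 0 := by
      rw [Subgroup.index_comap]
      have : (Subgroup.zpowers (D.ψ t)).FiniteIndex := ⟨Lin3_zp _ h1⟩
      exact Subgroup.FiniteIndex.index_ne_zero (H := Subgroup.subgroupOf _ _)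
    have e3 : (Subgroup.zpowers (D.ψ t)).comap D.ψ ≤ D.ψ.ker ⊔ H := by
      rintro x ⟨n, hn⟩
      have : x = (x * (t ^ n)⁻¹) * t ^ n := by group
      rw [this]
      refine Subgroup.mul_mem_sup ?_ ((hm _).2 ⟨n, by simp⟩)
      rw [MonoidHom.mem_ker, map_mul, map_inv, map_zpow, ← hn]
      simp
    rw [← Subgroup.relIndex_mul_index (le_sup_right : H ≤ D.ψ.ker ⊔ H),
      Subgroup.relIndex_sup_right]
    exact mul_ne_zero e1 (ne_zero_of_dvd_ne_zero e2 (Subgroup.index_dvd_of_le e3))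
  · intro x hx y hy
    obtain ⟨n, hn⟩ := (hm x).1 hx
    obtain ⟨k, hk⟩ := (hm y).1 hy
    have ex : x = t ^ n * ((t ^ n)⁻¹ * x) := by group
    have ey : y = t ^ k * ((t ^ k)⁻¹ * y) := by group
    have : Commute (t ^ n * ((t ^ n)⁻¹ * x)) (t ^ k * ((t ^ k)⁻¹ * y)) :=
      Commute.mul_left
        (Commute.mul_right ((Commute.refl t).zpow_zpow n k) ((hc _ hk).zpow_left n))
        (Commute.mul_right ((hc _ hn).zpow_left k).symm (D.comm hn hk))
    rw [← ex, ← ey] at this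
    exact this

theorem Lin3_res {Γ Γ' U : Type} [Group Γ] [Group Γ'] [AddCommGroup U] [Module ℚ U] (D : Lin Γ U)
    (W : Submodule ℚ U) (hW : ∀ γ, ∀ u ∈ W, D.L γ u ∈ W) (p : Γ →* Γ') (hp : p.ker = D.AW W)
    (B : Subgroup Γ') (hB : IsVC B) : Nonempty (Lin (B.comap p) W) := by
  obtain ⟨φ, hφ⟩ := hB
  have hk : (D.AW W).comap (B.comap p).subtype = (p.subgroupComap B).ker := by
    ext x
    rw [← hp, Subgroup.mem_comap, MonoidHom.mem_ker, MonoidHom.mem_ker, Subtype.ext_iff]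
    rfl
  refine D.restrict (B.comap p).subtype Subtype.val_injective W (fun h => hW _)
    (φ.comp (p.subgroupComap B)) ?_ ?_
  · rw [hk]
    intro x hx
    rw [MonoidHom.mem_ker] at hx ⊢
    rw [MonoidHom.comp_apply, hx, map_one]
  · rw [hk, ← MonoidHom.comap_ker, ← MonoidHom.comap_bot, Subgroup.relIndex_comap,
      Subgroup.relIndex_bot_left]
    have : Finite (Subgroup.map (p.subgroupComap B) (Subgroup.comap (p.subgroupComap B) φ.ker)) :=
      Finite.of_injective _ (Subgroup.inclusion_injective (Subgroup.map_comap_le _ _))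
    exact Nat.card_pos.ne'

theorem Lin3_ind (n : ℕ) : ∀ (Γ U : Type) [Group Γ] [AddCommGroup U] [Module ℚ U]
    [FiniteDimensional ℚ U], Lin Γ U → Module.finrank ℚ U = n → FJ Γ := by
  induction n using Nat.strong_induction_on with
  | _ n ih =>
  intro Γ U _ _ _ _ D hn
  by_cases h : ∀ g, D.ψ g ≠ 1 → ∀ u, D.L g u = u → u = 0
  · exact D.fj_hyp h
  push Not at h
  obtain ⟨g, hg, u, hu, hu0⟩ := h
  obtain ⟨m, hm, hc⟩ := D.central
  have h1 : D.ψ (g ^ m) ≠ 1 := by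
    rw [map_pow]
    intro h
    apply hg
    have := congrArg Multiplicative.toAdd h
    simp only [toAdd_pow, toAdd_one, nsmul_eq_mul, mul_eq_zero, Nat.cast_eq_zero] at this
    exact this.resolve_left hm.ne'
  have hcm : ∀ γ v, D.L (g ^ m) (D.L γ v) = D.L γ (D.L (g ^ m) v) := fun γ v => by
    have h2 := D.triv _ (hc g γ)
    rw [map_mul, map_mul, map_mul, map_inv, map_inv] at h2
    have h3 : Commute (D.L (g ^ m)) (D.L γ) := commutatorElement_eq_one_iff_commute.1 h2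
    exact congrArg (fun f : U ≃ₗ[ℚ] U => f v) h3.eq
  let W : Submodule ℚ U := LinearMap.eqLocus (D.L (g ^ m)).toLinearMap LinearMap.id
  have mW : ∀ v, v ∈ W ↔ D.L (g ^ m) v = v := fun v => Iff.rfl
  have hW : ∀ γ, ∀ v ∈ W, D.L γ v ∈ W := fun γ v hv => by
    rw [mW] at hv ⊢
    rw [hcm, hv]
  have huW : u ∈ W := by
    rw [mW]
    clear h1 hcm hW mW hc hm W
    induction m with
    | zero => simp
    | succ k ihk => rw [pow_succ, map_mul, LinearEquiv.mul_apply, hu, ihk]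
  by_cases hT : W = ⊤
  · exact Lin3_top D h1 (hc g) fun v => (mW v).1 (hT ▸ Submodule.mem_top)
  obtain ⟨Γ', _, p, hp, ⟨D'⟩⟩ := D.quot W hW
  have hpos : 0 < Module.finrank ℚ W :=
    Module.finrank_pos_iff_exists_ne_zero.2 ⟨⟨u, huW⟩, fun h => hu0 (congrArg Subtype.val h)⟩
  refine FJ.ext p (ih _ ?_ Γ' (U ⧸ W) D' rfl) fun B hB => ?_
  · have := Submodule.finrank_quotient_add_finrank W
    omega
  · obtain ⟨D''⟩ := Lin3_res D W hW p hp B hB
    exact ih _ (hn ▸ Submodule.finrank_lt hT) _ W D'' rfl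

theorem fj_lin_fin (Γ U : Type) [Group Γ] [AddCommGroup U] [Module ℚ U] [FiniteDimensional ℚ U]
    (D : Lin Γ U) : FJ Γ :=
  Lin3_ind _ Γ U D rfl

theorem fj_lin {Γ U : Type} [Group Γ] [AddCommGroup U] [Module ℚ U] (D : Lin Γ U) : FJ Γ :=
  fj_lin_of_fin fj_lin_fin D

end Pool.Agent.MP_f7db47_al.VC

end

section

/-!
Locally finite by cyclic groups.
-/

namespace Pool.Agent.MP_f7db47_al.VC

open GN GF Function

theorem Lf_drop {Γ : Type} [Group Γ] (ψ : Γ →* MZ)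
    (j : {K : Subgroup Γ // K ≤ ψ.ker ∧ Finite K}) (x : Γ)
    (hx : ¬ j.1 ≤ j.1.map (MulAut.conj x).toMonoidHom) :
    Drops (fun j : {K : Subgroup Γ // K ≤ ψ.ker ∧ Finite K} => j.1)
      (InvImage (· < ·) fun j => Nat.card j.1) j x := by
  intro M _ hM
  have hf : Finite j.1 := j.2.2
  have hle : j.1 ⊓ j.1.map (MulAut.conj x).toMonoidHom ≤ j.1 := inf_le_left
  refine ⟨⟨j.1 ⊓ j.1.map (MulAut.conj x).toMonoidHom, hle.trans j.2.1,
    Finite.of_injective _ (Subgroup.inclusion_injective hle)⟩, ?_, hM⟩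
  by_contra hc
  have := Subgroup.eq_of_le_of_card_ge hle (not_lt.1 hc)
  exact hx (this.ge.trans inf_le_right)

theorem Lf_vc {Γ : Type} [Group Γ] (ψ : Γ →* MZ) (K : Subgroup Γ) (hK : K ≤ ψ.ker) [Finite K]
    (x : Γ) (hx : x ∉ ψ.ker) (h1 : K ≤ K.map (MulAut.conj x).toMonoidHom)
    (h2 : K ≤ K.map (MulAut.conj x⁻¹).toMonoidHom) : IsVC ↥(K ⊔ Subgroup.zpowers x) := by
  have hn : Subgroup.zpowers x ≤ Subgroup.normalizer (K : Set Γ) := by
    rw [Subgroup.zpowers_le, Subgroup.mem_normalizer_iff]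
    intro k
    constructor
    · intro hk
      obtain ⟨y, hy, e⟩ := h2 hk
      have e' : x⁻¹ * y * x⁻¹⁻¹ = k := e
      rw [← e']
      simpa [mul_assoc] using hy
    · intro hk
      obtain ⟨y, hy, e⟩ := h1 hk
      have e' : x * y * x⁻¹ = x * k * x⁻¹ := e
      have : y = k := mul_left_cancel (mul_right_cancel e')
      exact this ▸ hy
  have key : ∀ g ∈ K ⊔ Subgroup.zpowers x, ψ g = 1 → g ∈ K := by
    intro g hg h0
    have hg' : g ∈ ((K ⊔ Subgroup.zpowers x : Subgroup Γ) : Set Γ) := hg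
    rw [Subgroup.coe_mul_of_right_le_normalizer_left K _ hn] at hg'
    obtain ⟨k, hk, z, ⟨n, rfl⟩, rfl⟩ := hg'
    have hk0 : ψ k = 1 := hK hk
    have hz : ψ x ^ n = 1 := by
      have : ψ (k * x ^ n) = 1 := h0
      rwa [map_mul, hk0, one_mul, map_zpow] at this
    have hn0 : n = 0 := by
      have h3 : n * (ψ x).toAdd = 0 := by
        have := congrArg Multiplicative.toAdd hz
        simpa using this
      rcases mul_eq_zero.1 h3 with h4 | h4
      · exact h4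
      · exact absurd (show ψ x = 1 from Multiplicative.toAdd.injective h4) hx
    subst hn0
    simpa using hk
  refine ⟨ψ.comp (K ⊔ Subgroup.zpowers x).subtype, ?_⟩
  refine Finite.of_injective
    (fun g : (ψ.comp (K ⊔ Subgroup.zpowers x).subtype).ker => (⟨g.1.1, key _ g.1.2 g.2⟩ : K)) ?_
  intro a b e
  exact Subtype.ext (Subtype.ext (congrArg (fun k : K => (k : Γ)) e))

theorem fj_lf {Γ : Type} [Group Γ] (ψ : Γ →* MZ)
    (h : ∀ M : Subgroup Γ, M.FG → M ≤ ψ.ker → Finite M) : FJ Γ := by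
  refine FJ.tame ψ {K : Subgroup Γ // K ≤ ψ.ker ∧ Finite K} (fun j => j.1)
    (InvImage (· < ·) fun j => Nat.card j.1) (InvImage.wf _ wellFounded_lt) (fun j => j.2.1)
    (fun M hM hle => ⟨⟨M, hle, h M hM hle⟩, le_rfl⟩) ?_ ?_
  · refine FJ.loc fun K hK => ?_
    have hfg : (K.map ψ.ker.subtype).FG := by
      obtain ⟨S, hS⟩ := hK
      classical
      refine ⟨S.image ψ.ker.subtype, ?_⟩
      rw [Finset.coe_image, ← MonoidHom.map_closure, hS]
    have hf : Finite (K.map ψ.ker.subtype) := h _ hfg (Subgroup.map_subtype_le K)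
    have hf' : Finite K :=
      Finite.of_equiv _ (K.equivMapOfInjective _ ψ.ker.subtype_injective).symm.toEquiv
    exact FJ.of_vc IsVC.of_finite
  · intro j x hx
    by_cases h1 : j.1 ≤ j.1.map (MulAut.conj x).toMonoidHom
    · by_cases h2 : j.1 ≤ j.1.map (MulAut.conj x⁻¹).toMonoidHom
      · have hf : Finite j.1 := j.2.2
        exact Or.inl (FJ.of_vc (Lf_vc ψ j.1 j.2.1 x hx h1 h2))
      · exact Or.inr (Or.inr (Lf_drop ψ j x⁻¹ h2))
    · exact Or.inr (Or.inl (Lf_drop ψ j x h1))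

theorem fin_of_tors {Γ : Type} [Group Γ] (A M : Subgroup Γ) (hM : M.FG) (hi : A.relIndex M ≠ 0)
    (hc : ∀ a ∈ A, ∀ b ∈ A, a * b = b * a) (ht : ∀ a ∈ A, IsOfFinOrder a) : Finite M := by
  have h1 : Group.FG M := (Group.fg_iff_subgroup_fg M).2 hM
  have h2 : (A.subgroupOf M).FiniteIndex := ⟨hi⟩
  have h3 : Group.FG (A.subgroupOf M) := Subgroup.fg_of_index_ne_zero _
  let _ : CommGroup (A.subgroupOf M) :=
    { (inferInstance : Group (A.subgroupOf M)) with
      mul_comm := fun a b => Subtype.ext (Subtype.ext (hc _ a.2 _ b.2)) }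
  have h4 : Finite (A.subgroupOf M) := by
    refine CommGroup.finite_of_fg_isMulTorsion _ fun a => ?_
    have h5 := ht _ a.2
    rw [isOfFinOrder_iff_pow_eq_one] at h5 ⊢
    obtain ⟨n, hn, e⟩ := h5
    exact ⟨n, hn, Subtype.ext (Subtype.ext e)⟩
  exact Finite.of_subgroup_quotient (A.subgroupOf M)

end Pool.Agent.MP_f7db47_al.VC

end

section

/-!
Extensions with solvable kernel.
-/

namespace Pool.Agent.MP_f7db47_al.VC

open GN GF Function

variable {Γ Γ' : Type} [Group Γ] [Group Γ']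

theorem ker_idx (p : Γ →* Γ') (φ : Γ' →* MZ) (hφ : Finite φ.ker) :
    p.ker.relIndex (φ.comp p).ker ≠ 0 := by
  let f : (φ.comp p).ker →* φ.ker := (p.comp (Subgroup.subtype _)).codRestrict _ fun x => x.2
  have h : p.ker.subgroupOf (φ.comp p).ker = f.ker := by
    ext x
    exact ⟨fun h => Subtype.ext h, fun h => congrArg Subtype.val h⟩
  rw [Subgroup.relIndex, h]
  exact Subgroup.FiniteIndex.index_ne_zero

theorem ker_res (p : Γ →* Γ') (B : Subgroup Γ') :
    (p.subgroupComap B).ker = p.ker.subgroupOf (B.comap p) := by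
  ext x
  exact ⟨fun h => congrArg Subtype.val h, fun h => Subtype.ext h⟩

theorem idx_quot (N A K : Subgroup Γ) [N.Normal] (ψ : Γ ⧸ N →* MZ)
    (hK : K = (ψ.comp (QuotientGroup.mk' N)).ker) (hi : A.relIndex K ≠ 0) :
    (A.map (QuotientGroup.mk' N)).relIndex ψ.ker ≠ 0 := by
  have h1 : ψ.ker = K.map (QuotientGroup.mk' N) := by
    rw [hK, ← MonoidHom.comap_ker, Subgroup.map_comap_eq_self_of_surjective
      (QuotientGroup.mk'_surjective N)]
  rw [h1, ← Subgroup.relIndex_comap]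
  exact fun h => hi (Subgroup.relIndex_eq_zero_of_le_left (Subgroup.le_comap_map _ _) h)

theorem fj_abvc (p : Γ →* Γ') (h : IsVC Γ') (hc : ∀ a ∈ p.ker, ∀ b ∈ p.ker, a * b = b * a) :
    FJ Γ := by
  obtain ⟨φ, hφ⟩ := h
  let N : Subgroup Γ :=
    { carrier := {a | a ∈ p.ker ∧ IsOfFinOrder a}
      one_mem' := ⟨one_mem _, IsOfFinOrder.one⟩
      mul_mem' := fun {a b} ha hb =>
        ⟨mul_mem ha.1 hb.1, Commute.isOfFinOrder_mul (hc a ha.1 b hb.1) ha.2 hb.2⟩
      inv_mem' := fun ha => ⟨inv_mem ha.1, ha.2.inv⟩ }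
  have hN : N.Normal := ⟨fun a ha g => ⟨p.normal_ker.conj_mem a ha.1 g,
    (MulAut.conj g).toMonoidHom.isOfFinOrder ha.2⟩⟩
  let ψ : Γ ⧸ N →* MZ := QuotientGroup.lift N (φ.comp p) fun a ha => by
    change φ (p a) = 1
    rw [show p a = 1 from ha.1, map_one]
  obtain ⟨U, _, _, ⟨D⟩⟩ := exists_lin ψ (p.ker.map (QuotientGroup.mk' N))
    (p.normal_ker.map _ (QuotientGroup.mk'_surjective N))
    (by
      rintro _ ⟨a, ha, rfl⟩
      change φ (p a) = 1
      rw [show p a = 1 from ha, map_one])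
    (idx_quot N _ _ ψ rfl (ker_idx p φ hφ))
    (by
      rintro _ ⟨a, ha, rfl⟩ _ ⟨b, hb, rfl⟩
      rw [← map_mul, ← map_mul, hc a ha b hb])
    (by
      rintro _ ⟨a, ha, rfl⟩ h
      obtain ⟨n, hn, e⟩ := isOfFinOrder_iff_pow_eq_one.1 h
      rw [← map_pow] at e
      exact (QuotientGroup.eq_one_iff a).2
        ⟨ha, (((QuotientGroup.eq_one_iff _).1 e).2.of_pow hn.ne')⟩)
  refine FJ.ext (QuotientGroup.mk' N) (fj_lin D) fun B ⟨χ, hχ⟩ => ?_
  refine fj_lf (χ.comp ((QuotientGroup.mk' N).subgroupComap B)) fun M hM hle => ?_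
  have e := ker_res (QuotientGroup.mk' N) B
  rw [QuotientGroup.ker_mk'] at e
  refine fin_of_tors (N.subgroupOf _) M hM
    (fun h0 => ker_idx ((QuotientGroup.mk' N).subgroupComap B) χ hχ ?_)
    (fun a ha b hb => Subtype.ext (hc _ ha.1 _ hb.1)) fun a ha => ?_
  · rw [e]
    exact Subgroup.relIndex_eq_zero_of_le_right hle h0
  · exact (Subgroup.subtype_injective _).isOfFinOrder_iff.1 ha.2

theorem fj_der (h : FJ Γ') (d : ℕ) : ∀ (Γ : Type) [Group Γ] (p : Γ →* Γ'),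
    derivedSeries p.ker d = ⊥ → FJ Γ := by
  induction d with
  | zero =>
    intro Γ _ p hp
    refine h.sub p ((injective_iff_map_eq_one p).2 fun a ha => ?_)
    have : (⟨a, ha⟩ : p.ker) ∈ derivedSeries p.ker 0 := Subgroup.mem_top _
    rw [hp] at this
    exact congrArg Subtype.val (Subgroup.mem_bot.1 this)
  | succ d ih =>
    intro Γ _ p hp
    let A := (derivedSeries p.ker d).map p.ker.subtype
    have hA : A.Normal := inferInstance
    have hle : A ≤ p.ker := Subgroup.map_subtype_le _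
    let p' := QuotientGroup.lift A p hle
    let π : p.ker →* p'.ker := ((QuotientGroup.mk' A).comp p.ker.subtype).codRestrict _ fun x => x.2
    have hπ : Surjective π := by
      rintro ⟨x, hx⟩
      obtain ⟨x, rfl⟩ := QuotientGroup.mk'_surjective A x
      exact ⟨⟨x, hx⟩, rfl⟩
    refine FJ.ext (QuotientGroup.mk' A) (ih _ p' ?_) fun B hB =>
      fj_abvc ((QuotientGroup.mk' A).subgroupComap B) hB ?_
    · rw [← map_derivedSeries_eq hπ, Subgroup.map_eq_bot_iff]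
      exact fun x hx => Subtype.ext ((QuotientGroup.eq_one_iff _).2 ⟨x, hx, rfl⟩)
    · rw [ker_res, QuotientGroup.ker_mk']
      rintro a ⟨x, hx, ha⟩ b ⟨y, hy, hb⟩
      have h1 := Subgroup.commutator_mem_commutator hx hy
      rw [← derivedSeries_succ, hp, Subgroup.mem_bot, commutatorElement_eq_one_iff_mul_comm] at h1
      refine Subtype.ext ?_
      change (a : Γ) * b = b * a
      have h2 := congrArg p.ker.subtype h1
      rwa [map_mul, map_mul, ha, hb] at h2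

theorem fj_solv_ext (p : Γ →* Γ') (h : FJ Γ') (hs : Group.IsSolvable p.ker) : FJ Γ := by
  obtain ⟨d, hd⟩ := hs
  exact fj_der h d Γ p hd

end Pool.Agent.MP_f7db47_al.VC

end

section

/-!
The solvable radical of a virtually solvable normal subgroup.
-/

namespace Pool.Agent.MP_f7db47_al.VC

open GN GF Function

theorem Rad_map {H H' : Type} [Group H] [Group H'] (B : Subgroup H) (f : H →* H')
    (hB : Group.IsSolvable B) : Group.IsSolvable (B.map f) :=
  Group.isSolvable_of_surjective (f.subgroupMap_surjective B)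

theorem Rad_sup {H : Type} [Group H] (A B : Subgroup H) [A.Normal] (hA : Group.IsSolvable A)
    (hB : Group.IsSolvable B) : Group.IsSolvable (A ⊔ B : Subgroup H) := by
  have h1 := Rad_map B (QuotientGroup.mk' A) hB
  have h2 : ∀ x : (A ⊔ B : Subgroup H), ((QuotientGroup.mk' A).comp (A ⊔ B).subtype) x ∈
      B.map (QuotientGroup.mk' A) := fun x => by
    have h3 := Subgroup.mem_map_of_mem (QuotientGroup.mk' A) x.2
    rwa [Subgroup.map_sup, QuotientGroup.map_mk'_self, bot_sup_eq] at h3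
  refine Group.isSolvable_of_ker_le_range (Subgroup.inclusion (le_sup_left : A ≤ A ⊔ B))
    (MonoidHom.codRestrict _ _ h2) fun x hx => ?_
  have h3 : (x : H) ∈ A := (QuotientGroup.eq_one_iff _).1 (congrArg Subtype.val hx)
  exact ⟨⟨x, h3⟩, rfl⟩

theorem Rad_char {H : Type} [Group H] (U : Subgroup H) (hi : U.index ≠ 0)
    (hs : Group.IsSolvable U) :
    ∃ N : Subgroup H, N.Characteristic ∧ N.index ≠ 0 ∧ Group.IsSolvable N := by
  classical
  have hex : ∃ n, ∃ N : Subgroup H, N.Normal ∧ Group.IsSolvable N ∧ N.index = n ∧ n ≠ 0 := by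
    have : U.FiniteIndex := ⟨hi⟩
    exact ⟨_, U.normalCore, inferInstance,
      Group.isSolvable_of_isSolvable_injective (Subgroup.inclusion_injective U.normalCore_le), rfl,
      Subgroup.FiniteIndex.index_ne_zero⟩
  obtain ⟨N, h1, h2, h3, h4⟩ := Nat.find_spec hex
  refine ⟨N, Subgroup.characteristic_iff_map_le.2 fun φ => ?_, h3 ▸ h4, h2⟩
  have h5 : (N.map φ.toMonoidHom).Normal := h1.map _ φ.surjective
  have h6 := Subgroup.relIndex_mul_index (le_sup_left : N ≤ N ⊔ N.map φ.toMonoidHom)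
  have h7 : (N ⊔ N.map φ.toMonoidHom).index ≠ 0 := fun h => by
    rw [h, mul_zero, h3] at h6
    exact h4 h6.symm
  have h8 : N.index ≤ (N ⊔ N.map φ.toMonoidHom).index := h3 ▸
    Nat.find_min' hex ⟨_, inferInstance, Rad_sup _ _ h2 (Rad_map _ _ h2), rfl, h7⟩
  have h9 : N.relIndex (N ⊔ N.map φ.toMonoidHom) = 1 := by
    have h10 : N.relIndex (N ⊔ N.map φ.toMonoidHom) ≠ 0 := fun h => by
      rw [h, zero_mul, h3] at h6
      exact h4 h6.symm
    have h11 : N.relIndex (N ⊔ N.map φ.toMonoidHom) ≤ 1 :=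
      Nat.le_of_mul_le_mul_right (by rw [h6, one_mul]; exact h8) (Nat.pos_of_ne_zero h7)
    omega
  exact le_sup_right.trans (Subgroup.relIndex_eq_one.1 h9)

theorem exists_rad {Γ : Type} [Group Γ] (K U : Subgroup Γ) (hK : K.Normal) (hU : U ≤ K)
    (hi : U.relIndex K ≠ 0) (hs : IsSolvable U) :
    ∃ N : Subgroup Γ, N.Normal ∧ N ≤ K ∧ N.relIndex K ≠ 0 ∧ IsSolvable N := by
  have : Group.IsSolvable U := hs
  obtain ⟨N, h1, h2, h3⟩ := Rad_char (U.subgroupOf K) hi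
    (Group.isSolvable_of_isSolvable_injective (f := (Subgroup.subgroupOfEquivOfLe hU).toMonoidHom)
      (Subgroup.subgroupOfEquivOfLe hU).injective)
  refine ⟨N.map K.subtype, inferInstance, Subgroup.map_subtype_le N, ?_, Rad_map _ _ h3⟩
  rwa [Subgroup.relIndex, Subgroup.subgroupOf,
    Subgroup.comap_map_eq_self_of_injective K.subtype_injective]

section

variable {G S : Type} [Group G] [Ring S] (f : G →* S)

/-- sums of products of at least `k` elements `f g - 1` -/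
def Rad_I (k : ℕ) : AddSubgroup S :=
  AddSubgroup.closure {x | ∃ l : List G, k ≤ l.length ∧ (l.map fun g => f g - 1).prod = x}

theorem Rad_anti {k m : ℕ} (h : k ≤ m) : Rad_I f m ≤ Rad_I f k :=
  AddSubgroup.closure_mono fun _ ⟨l, h1, h2⟩ => ⟨l, h.trans h1, h2⟩

theorem Rad_mul {k m : ℕ} {x y : S} (hx : x ∈ Rad_I f k) (hy : y ∈ Rad_I f m) :
    x * y ∈ Rad_I f (k + m) := by
  induction hx using AddSubgroup.closure_induction with
  | zero => simp
  | add a b _ _ ha hb => exact add_mul a b y ▸ add_mem ha hb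
  | neg a _ ha => exact neg_mul a y ▸ neg_mem ha
  | mem a ha =>
    induction hy using AddSubgroup.closure_induction with
    | zero => simp
    | add c d _ _ hc hd => exact mul_add a c d ▸ add_mem hc hd
    | neg c _ hc => exact mul_neg a c ▸ neg_mem hc
    | mem b hb =>
      obtain ⟨l, h1, rfl⟩ := ha
      obtain ⟨l', h2, rfl⟩ := hb
      exact AddSubgroup.subset_closure ⟨l ++ l', by rw [List.length_append]; omega, by simp⟩

theorem Rad_one (g : G) : f g - 1 ∈ Rad_I f 1 := AddSubgroup.subset_closure ⟨[g], le_rfl, by simp⟩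

theorem Rad_right {k : ℕ} {x : S} (hx : x ∈ Rad_I f k) (g : G) : x * f g ∈ Rad_I f k := by
  have h0 : x * (f g - 1) ∈ Rad_I f k := Rad_anti f (Nat.le_add_right k 1) (Rad_mul f hx (Rad_one f g))
  have h := AddSubgroup.add_mem _ hx h0
  rwa [mul_sub, mul_one, add_sub_cancel] at h

/-- the elements congruent to one -/
def Rad_G (k : ℕ) : Subgroup G where
  carrier := {g | f g - 1 ∈ Rad_I f k}
  one_mem' := by simp
  mul_mem' := fun {a b} ha hb => by
    have h := add_mem (Rad_right f ha b) hb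
    rwa [sub_mul, one_mul, sub_add_sub_cancel, ← map_mul] at h
  inv_mem' := fun {a} ha => by
    have h := neg_mem (Rad_right f ha a⁻¹)
    rwa [sub_mul, one_mul, ← map_mul, mul_inv_cancel, map_one, neg_sub] at h

theorem Rad_der (n : ℕ) : derivedSeries G n ≤ Rad_G f (n + 1) := by
  induction n with
  | zero => exact fun g _ => Rad_one f g
  | succ n ih =>
    rw [derivedSeries_succ, Subgroup.commutator_le]
    intro a ha b hb
    have h1 := Rad_mul f (ih ha) (Rad_one f b)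
    have h2 := Rad_mul f (ih hb) (Rad_one f a)
    have h3 := Rad_right f (sub_mem h1 h2) (a⁻¹ * b⁻¹)
    have h4 : (f a - 1) * (f b - 1) - (f b - 1) * (f a - 1) = f (a * b) - f (b * a) := by
      rw [map_mul, map_mul]
      noncomm_ring
    rw [h4, sub_mul, ← map_mul, ← map_mul, show b * a * (a⁻¹ * b⁻¹) = 1 by group, map_one,
      ← mul_assoc] at h3
    exact h3

end

theorem solv_of_nil {G S : Type} [Group G] [Ring S] (f : G →* S) (hf : Injective f) (c : ℕ)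
    (h : ∀ l : List G, l.length = c → (l.map fun g => f g - 1).prod = 0) : IsSolvable G := by
  have h1 : Rad_I f (c + 1) ≤ ⊥ := by
    refine (AddSubgroup.closure_le _).2 ?_
    rintro _ ⟨l, h2, rfl⟩
    rw [← List.take_append_drop c l, List.map_append, List.prod_append,
      h _ (List.length_take_of_le (by omega)), zero_mul]
    exact zero_mem _
  refine ⟨c, eq_bot_iff.2 fun g hg => ?_⟩
  have h2 : f g - 1 = 0 := h1 (Rad_der f c hg)
  exact hf (by rw [map_one]; exact sub_eq_zero.1 h2)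

end Pool.Agent.MP_f7db47_al.VC

end

section

/-!
Linear groups that are quasi-unipotent by cyclic are virtually solvable.
-/

namespace Pool.Agent.MP_f7db47_al.VC

open GF
open scoped commutatorElement

theorem Solv_core {A k : Type} [CommRing A] [IsDomain A] [Field k] (φ : A →+* k) {n r : ℕ}
    (hr : (r : k) ≠ 0) (x : Matrix (Fin n) (Fin n) A) (h1 : φ.mapMatrix x = 1)
    (h : IsNilpotent (x ^ r - 1)) : IsNilpotent (x - 1) := by
  rcases isEmpty_or_nonempty (Fin n) with hn | hn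
  · exact ⟨1, Subsingleton.elim _ _⟩
  obtain ⟨N, hN⟩ := h
  have h3 : Commute (x - 1) (∑ i ∈ Finset.range r, x ^ i) :=
    Commute.sum_right _ _ _ fun i _ =>
      ((Commute.refl x).sub_left (Commute.one_left x)).pow_right i
  rw [← mul_geom_sum, h3.mul_pow] at hN
  have h4 : ((∑ i ∈ Finset.range r, x ^ i) ^ N).det ≠ 0 := fun e => by
    have h5 := congrArg φ e
    rw [RingHom.map_det, map_pow, map_sum, map_zero] at h5
    simp only [map_pow, h1, one_pow, Finset.sum_const, Finset.card_range] at h5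
    rw [Matrix.det_pow, ← Nat.cast_smul_eq_nsmul k, Matrix.det_smul, Matrix.det_one,
      mul_one] at h5
    exact hr (eq_zero_of_pow_eq_zero (eq_zero_of_pow_eq_zero h5))
  refine ⟨N, (smul_eq_zero_iff_right h4).1 ?_⟩
  rw [← mul_one ((x - 1) ^ N), ← Matrix.mul_smul, ← Matrix.mul_adjugate, ← mul_assoc, hN, zero_mul]

theorem Solv_jac : IsJacobsonRing ℤ := by
  rw [isJacobsonRing_iff_prime_eq]
  intro P hP
  by_cases h : P = ⊥
  · subst h
    rw [eq_bot_iff]
    intro x hx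
    rw [Ideal.mem_jacobson_bot] at hx
    have := Int.isUnit_iff.1 (hx x)
    have h2 : x * x = 0 := by
      rcases this with h | h <;> nlinarith [mul_self_nonneg x]
    simpa using h2
  · have := Ring.DimensionLEOne.maximalOfPrime h hP
    exact Ideal.jacobson_eq_self_of_isMaximal

theorem Solv_res (A : Type) [CommRing A] [Nontrivial A] [i : Algebra ℤ A]
    (hA : Algebra.FiniteType ℤ A) :
    ∃ (k : Type) (_ : Field k) (_ : Finite k) (p : ℕ) (_ : CharP k p), p.Prime ∧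
      Nonempty (A →+* k) := by
  obtain rfl : i = Ring.toIntAlgebra A := Subsingleton.elim _ _
  obtain ⟨Q, hQ⟩ := Ideal.exists_maximal A
  let := Ideal.Quotient.field Q
  have h1 : Algebra.FiniteType ℤ (A ⧸ Q) :=
    hA.of_surjective (Ideal.Quotient.mk Q).toIntAlgHom Ideal.Quotient.mk_surjective
  have := Solv_jac
  have h2 : Module.Finite ℤ (A ⧸ Q) := finite_of_finite_type_of_isJacobsonRing _ _
  obtain ⟨p, hp⟩ := CharP.exists (A ⧸ Q)
  rcases CharP.char_is_prime_or_zero (A ⧸ Q) p with h0 | rfl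
  · have := Fact.mk h0
    let := ZMod.algebra (A ⧸ Q) p
    have h3 : Module.Finite (ZMod p) (A ⧸ Q) := Module.Finite.of_restrictScalars_finite ℤ _ _
    exact ⟨A ⧸ Q, inferInstance, Module.finite_of_finite (ZMod p), p, hp, h0,
      ⟨Ideal.Quotient.mk Q⟩⟩
  · have := CharP.charP_to_charZero (A ⧸ Q)
    exact (Int.not_isField ((Algebra.IsIntegral.isField_iff_isField (R := ℤ) (S := A ⧸ Q)
      (algebraMap ℤ (A ⧸ Q)).injective_int).2 (Field.toIsField _))).elim

theorem Solv_dom {H A : Type} [Group H] [CommRing A] [IsDomain A] (hA : Algebra.FiniteType ℤ A)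
    {n : ℕ} (f : H →* GL (Fin n) A) :
    ∃ U : Subgroup H, U.FiniteIndex ∧ ∀ g ∈ U, QU (f g).val → IsNilpotent ((f g).val - 1) := by
  obtain ⟨k, _, _, p, _, hp, ⟨φ⟩⟩ := Solv_res A hA
  have := Fact.mk hp
  by_cases h0 : (p : A) = 0
  · have : CharP A p := (CharP.charP_iff_prime_eq_zero hp).2 h0
    refine ⟨((Matrix.GeneralLinearGroup.map φ).comp f).ker, inferInstance, fun g hg hq => ?_⟩
    obtain ⟨m, hm, h6⟩ := hq
    exact GS.UniP_core p φ hm _ (congrArg Units.val hg) h6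
  have hnt : Nontrivial (Localization.Away (p : A)) :=
    (IsLocalization.injective (Localization.Away (p : A))
      (powers_le_nonZeroDivisors_of_noZeroDivisors h0)).nontrivial
  have hft : Algebra.FiniteType ℤ (Localization.Away (p : A)) :=
    hA.trans (IsLocalization.finiteType_of_monoid_fg (Submonoid.powers (p : A)) _)
  obtain ⟨k', _, _, q, _, hq, ⟨ψ'⟩⟩ := Solv_res (Localization.Away (p : A)) hft
  let ψ : A →+* k' := ψ'.comp (algebraMap A _)
  have hψ : (p : k') ≠ 0 := by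
    rw [← map_natCast ψ]
    exact ((IsLocalization.Away.algebraMap_isUnit (p : A)).map ψ').ne_zero
  refine ⟨((Matrix.GeneralLinearGroup.map φ).comp f).ker ⊓
    ((Matrix.GeneralLinearGroup.map ψ).comp f).ker, inferInstance, fun g hg hqu => ?_⟩
  obtain ⟨m, hm, h6⟩ := hqu
  obtain ⟨a, r, hr, rfl⟩ := Nat.exists_eq_pow_mul_and_not_dvd hm.ne' p hp.ne_one
  have e1 : φ.mapMatrix (f g).val = 1 := congrArg Units.val hg.1
  have e2 : ψ.mapMatrix (f g).val = 1 := congrArg Units.val hg.2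
  refine Solv_core ψ (r := p ^ a) (by rw [Nat.cast_pow]; exact pow_ne_zero _ hψ) _ e2 ?_
  refine Solv_core φ (r := r) (fun e => hr ((CharP.cast_eq_zero_iff k p r).1 e)) _
    (by rw [map_pow, e1, one_pow]) ?_
  rwa [← pow_mul]

theorem Solv_nil {U S : Type} [Group U] [Ring S] (f : U →* S) (hf : Function.Injective f)
    (J : AddSubgroup S) (c : ℕ) (h1 : ∀ g, f g - 1 ∈ J) (h2 : ∀ a ∈ J, ∀ b ∈ J, a * b ∈ J)
    (h3 : ∀ l : List S, l.length = c → (∀ a ∈ l, a ∈ J) → l.prod = 0) : Group.IsSolvable U := by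
  let W : Submodule ℤ S := J.toIntSubmodule
  have hc : W ^ c = ⊥ := by
    rw [Submodule.pow_eq_span_pow_set, Submodule.span_eq_bot]
    intro x hx
    obtain ⟨g, rfl⟩ := Set.mem_pow.1 hx
    exact h3 _ (by simp) fun a ha => by
      obtain ⟨i, rfl⟩ := List.mem_ofFn.1 ha
      exact (g i).2
  have hW : W * W ≤ W := Submodule.mul_le.2 h2
  have hd : ∀ i, W ^ (i + 2) ≤ W ^ (i + 1) := fun i => by
    rw [pow_succ, pow_succ, mul_assoc]
    exact mul_le_mul' le_rfl hW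
  have hl : ∀ i g, ∀ x ∈ W ^ (i + 1), (f g - 1) * x ∈ W ^ (i + 2) := fun i g x hx => by
    rw [pow_succ' W (i + 1)]
    exact Submodule.mul_mem_mul (h1 g) hx
  have hr : ∀ i g, ∀ x ∈ W ^ (i + 1), x * (f g - 1) ∈ W ^ (i + 2) := fun i g x hx => by
    rw [pow_succ W (i + 1)]
    exact Submodule.mul_mem_mul hx (h1 g)
  let V : ℕ → Subgroup U := fun i => GS.NilV_sub f (W ^ (i + 1)) fun g x hx => hd i (hl i g x hx)
  have key : ∀ i, derivedSeries U i ≤ V i := fun i => by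
    induction i with
    | zero =>
      intro g _
      show f g - 1 ∈ W ^ (0 + 1)
      rw [zero_add, pow_one]
      exact h1 g
    | succ i ih =>
      rw [derivedSeries_succ, Subgroup.commutator_le]
      intro a ha b hb
      have e1 : f a * f b - f b * f a ∈ W ^ (i + 2) := by
        have : f a * f b - f b * f a = (f a - 1) * (f b - 1) - (f b - 1) * (f a - 1) := by
          noncomm_ring
        rw [this]
        exact sub_mem (hl i a _ (ih hb)) (hl i b _ (ih ha))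
      have e2 : f ⁅a, b⁆ - 1 = (f a * f b - f b * f a) * (f (a⁻¹ * b⁻¹) - 1) +
          (f a * f b - f b * f a) := by
        have e3 : f b * f a * f (a⁻¹ * b⁻¹) = 1 := by
          rw [← map_mul, ← map_mul, ← map_one f]
          congr 1
          group
        have e4 : f ⁅a, b⁆ = f a * f b * f (a⁻¹ * b⁻¹) := by
          rw [← map_mul, ← map_mul, commutatorElement_def, mul_assoc]
        rw [mul_sub, mul_one, sub_add_cancel, sub_mul, e3, e4]
      show f ⁅a, b⁆ - 1 ∈ W ^ (i + 1 + 1)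
      rw [e2]
      exact add_mem (hd (i + 1) (hr (i + 1) _ _ e1)) e1
  refine ⟨⟨c, eq_bot_iff.2 fun g hg => ?_⟩⟩
  have h4 : f g - 1 ∈ W ^ (c + 1) := key c hg
  rw [pow_succ, hc, Submodule.bot_mul, Submodule.mem_bot, sub_eq_zero, ← map_one f] at h4
  exact hf h4

theorem Solv_noeth {G A : Type} [Group G] [CommRing A] [IsNoetherianRing A] {n : ℕ}
    (f : G →* GL (Fin n) A) (hf : Function.Injective f)
    (h : ∀ (Q : minimalPrimes A) g,
      IsNilpotent ((Ideal.Quotient.mk Q.1).mapMatrix (f g).val - 1)) : Group.IsSolvable G := by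
  have hfin : Finite (minimalPrimes A) := (minimalPrimes.finite_of_isNoetherianRing A).to_subtype
  have := Fintype.ofFinite (minimalPrimes A)
  have hp : ∀ Q : minimalPrimes A, Q.1.IsPrime := fun Q => Ideal.IsMinimalPrime.isPrime Q.2
  let π : ∀ Q : minimalPrimes A, A →+* FractionRing (A ⧸ Q.1) := fun Q =>
    (algebraMap (A ⧸ Q.1) _).comp (Ideal.Quotient.mk Q.1)
  have hπ : ∀ Q x, π Q x = 0 → x ∈ Q.1 := fun Q x hx => Ideal.Quotient.eq_zero_iff_mem.1
    ((map_eq_zero_iff _ (IsFractionRing.injective (A ⧸ Q.1) _)).1 hx)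
  choose J c h1 h2 h3 using fun Q => GS.kolchin
    ((π Q).mapMatrix.toMonoidHom.comp ((Units.coeHom _).comp f)) fun g => by
      have := (h Q g).map (algebraMap (A ⧸ Q.1) (FractionRing (A ⧸ Q.1))).mapMatrix
      rw [map_sub, map_one] at this
      exact this
  obtain ⟨k, hk⟩ := IsNoetherianRing.isNilpotent_nilradical A
  refine Solv_nil ((Units.coeHom _).comp f) (Units.val_injective.comp hf)
    (⨅ Q, (J Q).comap (π Q).mapMatrix.toAddMonoidHom) ((∑ Q, c Q) * k)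
    (fun g => AddSubgroup.mem_iInf.2 fun Q => by
      show (π Q).mapMatrix ((f g).val - 1) ∈ J Q
      rw [map_sub, map_one]
      exact h1 Q g)
    (fun a ha b hb => AddSubgroup.mem_iInf.2 fun Q => by
      rw [AddSubgroup.mem_iInf] at ha hb
      show (π Q).mapMatrix (a * b) ∈ J Q
      rw [map_mul]
      exact h2 Q _ (ha Q) _ (hb Q))
    fun l hl hm => Matrix.ext fun i j => ?_
  have := GS.UniA_pow (nilradical A) _ (fun l hl hm i j => ?_) k l hl hm i j
  · rwa [hk] at this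
  rw [nilradical, ← Ideal.sInf_minimalPrimes, Ideal.mem_sInf]
  intro Q hQ
  have h4 := Finset.single_le_sum (f := c) (fun _ _ => Nat.zero_le _) (Finset.mem_univ ⟨Q, hQ⟩)
  have h5 : (π ⟨Q, hQ⟩).mapMatrix l.prod = 0 := by
    rw [← List.take_append_drop (c ⟨Q, hQ⟩) l, List.prod_append, map_mul, map_list_prod,
      h3 _ _ (by rw [List.length_map, List.length_take]; omega), zero_mul]
    intro a ha
    obtain ⟨b, hb, rfl⟩ := List.mem_map.1 ha
    exact AddSubgroup.mem_iInf.1 (hm b (List.mem_of_mem_take hb)) ⟨Q, hQ⟩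
  exact hπ ⟨Q, hQ⟩ _ (congrFun (congrFun h5 i) j)

/-- Virtually solvable groups. -/
def VS (H : Type) [Group H] : Prop :=
  ∃ S : Subgroup H, S.Normal ∧ S.FiniteIndex ∧ Group.IsSolvable S

theorem virt_solv {H A : Type} [Group H] [Group.FG H] [CommRing A] {n : ℕ}
    (f : H →* GL (Fin n) A) (φ : H →* Multiplicative ℤ) (hi : ∀ g, f g = 1 → φ g = 1 → g = 1)
    (h : ∀ g, φ g = 1 → QU (f g).val) : VS H := by
  obtain ⟨B, f₀, hB, hf⟩ := GN.exists_fg_subring ‹_› A n f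
  have h5 : Function.Injective (B.subtype.mapMatrix (m := Fin n)) :=
    Matrix.map_injective B.subtype_injective
  have e : ∀ g, (f g).val = B.subtype.mapMatrix (f₀ g).val := fun g => hf g ▸ rfl
  have h0 : ∀ g, φ g = 1 → QU (f₀ g).val := fun g hg => by
    obtain ⟨m, hm, h1⟩ := h g hg
    refine ⟨m, hm, (IsNilpotent.map_iff h5).1 ?_⟩
    rwa [map_sub, map_pow, map_one, ← e]
  have hno : IsNoetherianRing B := Algebra.FiniteType.isNoetherianRing ℤ B
  have hfin : Finite (minimalPrimes B) := (minimalPrimes.finite_of_isNoetherianRing B).to_subtype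
  choose U hU h1 using fun Q : minimalPrimes B =>
    have := Ideal.IsMinimalPrime.isPrime Q.2
    Solv_dom (A := B ⧸ Q.1)
      (hB.of_surjective (Ideal.Quotient.mk Q.1).toIntAlgHom Ideal.Quotient.mk_surjective)
      ((Matrix.GeneralLinearGroup.map (Ideal.Quotient.mk Q.1)).comp f₀)
  have hU' : (⨅ Q, U Q).FiniteIndex := Subgroup.finiteIndex_iInf hU
  let S : Subgroup H := (⨅ Q, U Q).normalCore
  let ψ : S →* Multiplicative ℤ := φ.comp S.subtype
  have hk : Group.IsSolvable ψ.ker := by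
    refine Solv_noeth (f₀.comp (S.subtype.comp ψ.ker.subtype)) ?_ fun Q g => ?_
    · refine (injective_iff_map_eq_one _).2 fun g hg => Subtype.ext (Subtype.ext ?_)
      refine hi _ ?_ g.2
      rw [← hf]
      exact (congrArg _ hg).trans (map_one _)
    · refine h1 Q g.1.1 (Subgroup.mem_iInf.1 ((⨅ Q, U Q).normalCore_le g.1.2) Q) ?_
      obtain ⟨m, hm, h2⟩ := h0 g.1.1 g.2
      refine ⟨m, hm, ?_⟩
      have h3 := h2.map ((Ideal.Quotient.mk Q.1).mapMatrix (m := Fin n))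
      rwa [map_sub, map_pow, map_one] at h3
  exact ⟨S, inferInstance, inferInstance,
    Group.isSolvable_of_ker_le_range ψ.ker.subtype ψ (by simp)⟩

theorem virt_solv_range {H A : Type} [Group H] [Group.FG H] [CommRing A] {n : ℕ}
    (f : H →* GL (Fin n) A) (φ : H →* Multiplicative ℤ) (h : ∀ g, φ g = 1 → QU (f g).val) :
    VS (f.prod φ).range := by
  refine virt_solv ((MonoidHom.fst _ _).comp (f.prod φ).range.subtype)
    ((MonoidHom.snd _ _).comp (f.prod φ).range.subtype)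
    (fun g h1 h2 => Subtype.ext (Prod.ext h1 h2)) fun g hg => ?_
  obtain ⟨_, x, rfl⟩ := g
  exact h x hg

end Pool.Agent.MP_f7db47_al.VC

end

section

/-!
The adjoint representation of a Lie group.
-/

namespace Pool.Agent.MP_f7db47_al.GL

open Filter Topology

section
variable {E : Type} [NormedAddCommGroup E] [NormedSpace ℝ E]
  {L : Type} [TopologicalSpace L] [ChartedSpace E L]

/-- `A` is the derivative of `f` at `x`. -/
def LieAd_H (f : L → L) (x : L) (A : E →L[ℝ] E) : Prop :=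
  HasMFDerivAt (modelWithCornersSelf ℝ E) (modelWithCornersSelf ℝ E) f x A

lemma LieAd_comp {f g : L → L} {x y : L} {A B : E →L[ℝ] E} (hg : LieAd_H g y B)
    (hf : LieAd_H f x A) (e : f x = y) : LieAd_H (fun z => g (f z)) x (B.comp A) := by
  subst e
  exact HasMFDerivAt.comp x hg hf

lemma LieAd_uniq {f : L → L} {x : L} {A B : E →L[ℝ] E} (h : LieAd_H f x A)
    (h' : LieAd_H f x B) : A = B := hasMFDerivAt_unique h h'

lemma LieAd_ex {f : L → L}
    (h : ContMDiff (modelWithCornersSelf ℝ E) (modelWithCornersSelf ℝ E) 1 f) (x : L) :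
    ∃ A : E →L[ℝ] E, LieAd_H f x A :=
  ⟨_, (h.mdifferentiableAt one_ne_zero).hasMFDerivAt⟩

lemma LieAd_id (x : L) : LieAd_H (fun z : L => z) x (ContinuousLinearMap.id ℝ E) :=
  hasMFDerivAt_id x

lemma LieAd_const [IsManifold (modelWithCornersSelf ℝ E) 1 L] {f : L → L}
    (h : ∀ x, LieAd_H f x (0 : E →L[ℝ] E)) : IsLocallyConstant f := by
  refine (IsLocallyConstant.iff_eventually_eq f).2 fun a => ?_
  have hc : Continuous f := continuous_iff_continuousAt.2 fun x => (h x).1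
  set e := chartAt E a
  set e' := chartAt E (f a)
  have ha : a ∈ e.source := mem_chart_source E a
  have ha' : f a ∈ e'.source := mem_chart_source E (f a)
  have hs := e.isOpen_inter_preimage_symm (e'.open_source.preimage hc)
  have hd : ∀ z ∈ e.target ∩ e.symm ⁻¹' (f ⁻¹' e'.source),
      HasFDerivAt (e' ∘ f ∘ e.symm) (0 : E →L[ℝ] E) z := fun z hz => by
    have h1 := (mdifferentiableAt_atlas_symm (I := modelWithCornersSelf ℝ E)
      (chart_mem_atlas E a) hz.1).hasMFDerivAt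
    have h2 := (mdifferentiableAt_atlas (I := modelWithCornersSelf ℝ E)
      (chart_mem_atlas E (f a)) hz.2).hasMFDerivAt
    have h3 := HasMFDerivAt.comp z h2 (HasMFDerivAt.comp z (h (e.symm z)) h1)
    refine (h3.congr_mfderiv (ContinuousLinearMap.ext fun v => ?_)).hasFDerivAt
    exact (mfderiv (modelWithCornersSelf ℝ E) (modelWithCornersSelf ℝ E) e'
      (f (e.symm z))).map_zero
  have ht := hs.isOpen_inter_preimage_of_fderiv_eq_zero
    (fun z hz => (hd z hz).differentiableAt.differentiableWithinAt)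
    (fun z hz => (hd z hz).fderiv) {e' (f a)}
  have h4 := (e.continuousAt ha).eventually (ht.mem_nhds ⟨⟨e.map_source ha, by
    simpa only [Set.mem_preimage, e.left_inv ha] using ha'⟩, by
    simp only [Set.mem_preimage, Function.comp_apply, e.left_inv ha, Set.mem_singleton_iff]⟩)
  filter_upwards [h4, e.open_source.mem_nhds ha] with x hx hx'
  obtain ⟨⟨-, h5⟩, h6⟩ := hx
  simp only [Set.mem_preimage, Function.comp_apply, e.left_inv hx', Set.mem_singleton_iff] at h5 h6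
  exact e'.injOn h5 ha' h6

variable [Group L] [LieGroup (modelWithCornersSelf ℝ E) 1 L]

lemma LieAd_mul {f : L → L} {A : E →L[ℝ] E} (hf : LieAd_H f 1 A) (h1 : f 1 = 1) :
    LieAd_H (fun y => f y * y) 1 (A + ContinuousLinearMap.id ℝ E) := by
  have hm := (contMDiff_mul (G := L) (modelWithCornersSelf ℝ E) 1).mdifferentiableAt
    (x := (f 1, 1)) one_ne_zero
  have h2 := HasMFDerivAt.comp (f := fun y => (f y, y)) 1 hm.hasMFDerivAt
    (HasMFDerivAt.prodMk hf (hasMFDerivAt_id (1 : L)))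
  refine h2.congr_mfderiv (ContinuousLinearMap.ext fun v => ?_)
  refine (mfderiv_prod_eq_add_apply hm).trans ?_
  have e1 : LieAd_H (fun z : L => z * 1) (f 1) (ContinuousLinearMap.id ℝ E) := by
    simpa only [mul_one] using LieAd_id (f 1)
  have e2 : LieAd_H (fun z : L => f 1 * z) 1 (ContinuousLinearMap.id ℝ E) := by
    simpa only [h1, one_mul] using LieAd_id (1 : L)
  exact congrArg₂ (fun a b : E => a + b) (DFunLike.congr_fun (HasMFDerivAt.mfderiv e1) _)
    (DFunLike.congr_fun (HasMFDerivAt.mfderiv e2) _)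

lemma LieAd_smooth (g h : L) : ContMDiff (modelWithCornersSelf ℝ E) (modelWithCornersSelf ℝ E) 1
    fun x : L => g * x * h := (contMDiff_const.mul contMDiff_id).mul contMDiff_const

lemma LieAd_ker {k : L} (h : LieAd_H (fun x => k * x * k⁻¹) 1 (ContinuousLinearMap.id ℝ E)) :
    ∀ g ∈ connectedComponent (1 : L), k * g = g * k := by
  obtain ⟨A, hA⟩ := LieAd_ex (E := E) (f := fun x => k * x * k⁻¹ * x⁻¹)
    ((LieAd_smooth k k⁻¹).mul (contMDiff_inv _ _)) 1
  have h1 := LieAd_mul hA (by simp)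
  simp only [inv_mul_cancel_right] at h1
  obtain rfl : A = 0 := add_eq_right.1 (LieAd_uniq h1 h)
  have h2 : ∀ a, LieAd_H (fun x => k * x * k⁻¹ * x⁻¹) a (0 : E →L[ℝ] E) := fun a => by
    obtain ⟨B, hB⟩ := LieAd_ex (LieAd_smooth (E := E) a⁻¹ 1) a
    obtain ⟨C, hC⟩ := LieAd_ex (LieAd_smooth (E := E) (k * a * k⁻¹) a⁻¹) 1
    have h3 := LieAd_comp hC (LieAd_comp hA hB (by simp)) (by simp)
    rw [ContinuousLinearMap.zero_comp, ContinuousLinearMap.comp_zero] at h3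
    convert h3 using 2
    group
  intro g hg
  have h4 := (LieAd_const h2).apply_eq_of_isPreconnected isPreconnected_connectedComponent hg
    mem_connectedComponent
  simp only [mul_one, mul_inv_cancel, inv_one] at h4
  exact mul_inv_eq_iff_eq_mul.1 (mul_inv_eq_one.1 h4)

end

theorem exists_ad (E : Type) [NormedAddCommGroup E] [NormedSpace ℝ E] [FiniteDimensional ℝ E]
    (L : Type) [TopologicalSpace L] [ChartedSpace E L] [Group L]
    [LieGroup (modelWithCornersSelf ℝ E) 1 L] :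
    ∃ (n : ℕ) (f : L →* GL (Fin n) ℝ),
      ∀ k ∈ f.ker, ∀ g ∈ connectedComponent (1 : L), k * g = g * k := by
  choose D hD using fun g : L => LieAd_ex (LieAd_smooth (E := E) g g⁻¹) 1
  let b := Module.finBasis ℝ E
  let F : L →* Matrix (Fin (Module.finrank ℝ E)) (Fin (Module.finrank ℝ E)) ℝ :=
    { toFun := fun g => LinearMap.toMatrix b b (D g)
      map_one' := by
        have : D 1 = ContinuousLinearMap.id ℝ E :=
          LieAd_uniq (hD 1) (by simpa only [one_mul, inv_one, mul_one] using LieAd_id (1 : L))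
        simp [this]
      map_mul' := fun g h => by
        have : D (g * h) = (D g).comp (D h) := LieAd_uniq (hD (g * h)) (by
          simpa only [mul_inv_rev, mul_assoc] using LieAd_comp (hD g) (hD h) (by simp))
        rw [this, ← LinearMap.toMatrix_comp]
        rfl }
  refine ⟨_, F.toHomUnits, fun k hk => LieAd_ker (E := E) ?_⟩
  have h1 : LinearMap.toMatrix b b (D k) = LinearMap.toMatrix b b LinearMap.id :=
    (congrArg Units.val hk).trans (LinearMap.toMatrix_id b).symm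
  have h2 : D k = ContinuousLinearMap.id ℝ E :=
    ContinuousLinearMap.ext fun v => DFunLike.congr_fun ((LinearMap.toMatrix b b).injective h1) v
  exact h2 ▸ hD k

theorem exists_comp (L : Type) [TopologicalSpace L] [Group L] [IsTopologicalGroup L]
    [Finite (ConnectedComponents L)] :
    ∃ L₀ : Subgroup L, L₀.FiniteIndex ∧ ∀ g ∈ L₀, g ∈ connectedComponent (1 : L) := by
  have key : ∀ x y : L, y ∈ connectedComponent x → x⁻¹ * y ∈ connectedComponent (1 : L) :=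
    fun x y h => by
      have := (continuous_const_mul x⁻¹).image_connectedComponent_subset x ⟨y, h, rfl⟩
      rwa [inv_mul_cancel] at this
  have : Finite (L ⧸ Subgroup.connectedComponentOfOne L) := by
    refine Finite.of_injective (fun x => ConnectedComponents.mk x.out) fun x y h => ?_
    rw [← x.out_eq, ← y.out_eq]
    exact QuotientGroup.eq.2 (key _ _ (ConnectedComponents.coe_eq_coe'.1 h.symm))
  exact ⟨Subgroup.connectedComponentOfOne L, Subgroup.finiteIndex_of_finite_quotient,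
    fun g hg => hg⟩

end Pool.Agent.MP_f7db47_al.GL

end

section

/-!
Linear groups and their extensions with virtually solvable kernel.
-/

namespace Pool.Agent.MP_f7db47_al.VC

open GN GF Function

variable {Γ Γ' : Type} [Group Γ] [Group Γ']

theorem fj_nsz (ψ : Γ →* MZ) (N : Subgroup Γ) (hN : N.Normal) (hU : N ≤ ψ.ker)
    (hi : N.relIndex ψ.ker ≠ 0) (hs : Group.IsSolvable N) : FJ Γ := by
  refine fj_solv_ext (QuotientGroup.mk' N) (FJ.of_vc ⟨QuotientGroup.lift N ψ hU, ?_⟩)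
    (by rwa [QuotientGroup.ker_mk'])
  have h := idx_quot N N ψ.ker (QuotientGroup.lift N ψ hU) rfl hi
  rw [QuotientGroup.map_mk'_self, Subgroup.relIndex_bot_left] at h
  exact Nat.finite_of_card_ne_zero h

theorem fj_vsz (ψ : Γ →* MZ) (U : Subgroup Γ) (hU : U ≤ ψ.ker) (hi : U.relIndex ψ.ker ≠ 0)
    (hs : Group.IsSolvable U) : FJ Γ := by
  obtain ⟨N, h1, h2, h3, h4⟩ := exists_rad ψ.ker U ψ.normal_ker hU hi hs
  exact fj_nsz ψ N h1 h2 h3 h4

theorem fj_vsolv_ext (p : Γ →* Γ') (h : FJ Γ') (U : Subgroup Γ) (hU : U ≤ p.ker)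
    (hi : U.relIndex p.ker ≠ 0) (hs : Group.IsSolvable U) : FJ Γ := by
  refine FJ.ext p h fun B ⟨φ, hφ⟩ => ?_
  have h1 : p.ker ≤ B.comap p := Subgroup.ker_le_comap p B
  have h2 : U.subgroupOf (B.comap p) ≤ (p.subgroupComap B).ker := by
    rw [ker_res]
    exact fun x hx => hU hx
  refine fj_vsz (φ.comp (p.subgroupComap B)) (U.subgroupOf _)
    (h2.trans fun x hx => ?_) (Subgroup.relIndex_ne_zero_trans ?_ (ker_idx _ φ hφ))
    (Group.isSolvable_of_isSolvable_injective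
      (f := (Subgroup.subgroupOfEquivOfLe (hU.trans h1)).toMonoidHom) (MulEquiv.injective _))
  · change φ (p.subgroupComap B x) = 1
    rw [show p.subgroupComap B x = 1 from hx, map_one]
  · rwa [ker_res, Subgroup.relIndex_subgroupOf h1]

theorem fj_GL (A : Type) [CommRing A] (n : ℕ) : FJ (GL (Fin n) A) := by
  refine FJ.gl (MonoidHom.id _) fun H φ h => FJ.loc fun K hK => ?_
  have := (Group.fg_iff_subgroup_fg K).2 hK
  obtain ⟨S, h1, h2, h3⟩ := virt_solv (H.subtype.comp K.subtype) (φ.comp K.subtype)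
    (fun g hg _ => Subtype.ext (Subtype.ext hg)) fun g hg => h g hg
  refine fj_nsz 1 S h1 (fun _ _ => rfl) ?_ h3
  rw [MonoidHom.ker_one, Subgroup.relIndex_top_right]
  exact h2.index_ne_zero

theorem fj_slin {A : Type} [CommRing A] {n : ℕ} (p : Γ →* GL (Fin n) A) (U : Subgroup Γ)
    (hU : U ≤ p.ker) (hi : U.relIndex p.ker ≠ 0) (hs : Group.IsSolvable U) : FJ Γ :=
  fj_vsolv_ext p (fj_GL A n) U hU hi hs

theorem fj_lie (E : Type) [NormedAddCommGroup E] [NormedSpace ℝ E]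
    [FiniteDimensional ℝ E] (L : Type) [TopologicalSpace L] [ChartedSpace E L] [Group L]
    [LieGroup (modelWithCornersSelf ℝ E) 1 L] [Finite (ConnectedComponents L)] : FJ L := by
  obtain ⟨n, f, hf⟩ := GL.exists_ad E L
  have := topologicalGroup_of_lieGroup (modelWithCornersSelf ℝ E) 1 (G := L)
  obtain ⟨L₀, h0, h1⟩ := GL.exists_comp L
  refine fj_slin f (L₀ ⊓ f.ker) inf_le_right ?_ (Group.isSolvable_of_comm fun a b =>
    Subtype.ext (hf a a.2.2 b (h1 b b.2.1)))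
  rw [Subgroup.inf_relIndex_right]
  exact Subgroup.FiniteIndex.index_ne_zero

end Pool.Agent.MP_f7db47_al.VC

end
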