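import Pool.Agent.Mg.Ff7db47.Gb8bc49

/-!
Abstract calculus of stably trivial matrices.
-/

set_option linter.unusedSectionVars false

namespace Pool.Agent.MP_f7db47_al

open Matrix

universe u v w

/-- The properties of a class of trivial matrices that the algebra uses. -/
structure TS (Λ : Type w) [Ring Λ] where
  T : ∀ {J : Type} [Fintype J] [DecidableEq J], Matrix J J Λ → Prop
  one : ∀ {J : Type} [Fintype J] [DecidableEq J], T (1 : Matrix J J Λ)
  mul : ∀ {J : Type} [Fintype J] [DecidableEq J] {A B : Matrix J J Λ}, T A → T B → T (A * B)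
  unit : ∀ {J : Type} [Fintype J] [DecidableEq J] {A : Matrix J J Λ}, T A →
    ∃ B, T B ∧ A * B = 1 ∧ B * A = 1
  of_stab : ∀ {J K : Type} [Fintype J] [DecidableEq J] [Fintype K] [DecidableEq K]
    {A : Matrix J J Λ}, T (fromBlocks A 0 0 (1 : Matrix K K Λ)) → T A
  upper : ∀ {J K : Type} [Fintype J] [DecidableEq J] [Fintype K] [DecidableEq K]
    (X : Matrix J K Λ), T (fromBlocks 1 X 0 1)
  lower : ∀ {J K : Type} [Fintype J] [DecidableEq J] [Fintype K] [DecidableEq K]
    (X : Matrix K J Λ), T (fromBlocks 1 0 X 1)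
  comm : ∀ {J K : Type} [Fintype J] [DecidableEq J] [Fintype K] [DecidableEq K]
    (X : Matrix J K Λ) (Y : Matrix K J Λ), T (1 - Y * X) → T (1 - X * Y)

namespace TS

variable {Λ : Type w} [Ring Λ] (S : TS Λ) {J : Type} [Fintype J] [DecidableEq J]

lemma isUnit {A : Matrix J J Λ} (hA : S.T A) : IsUnit A := by
  obtain ⟨B, -, h1, h2⟩ := S.unit hA
  exact ⟨⟨A, B, h1, h2⟩, rfl⟩

lemma cancel_left {A B : Matrix J J Λ} (hA : S.T A) (h : S.T (A * B)) : S.T B := by
  obtain ⟨C, hC, -, h2⟩ := S.unit hA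
  have := S.mul hC h
  rwa [← mul_assoc, h2, one_mul] at this

lemma cancel_right {A B : Matrix J J Λ} (hB : S.T B) (h : S.T (A * B)) : S.T A := by
  obtain ⟨C, hC, h1, -⟩ := S.unit hB
  have := S.mul h hC
  rwa [mul_assoc, h1, mul_one] at this

lemma sq_zero {p n : Matrix J J Λ} (h1 : p * n = n) (h2 : n * p = 0) : S.T (1 - n) := by
  rw [← h1]
  apply S.comm
  rw [h2, sub_zero]; exact S.one

end TS

/-- The concrete calculus. -/
def stdTS (R : Type v) [Ring R] (G : Type u) [Group G] : TS (MonoidAlgebra R G) where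
  T := T
  one := T_one
  mul := T_mul
  unit := T_unit
  of_stab := T_of_stab
  upper := T_upper
  lower := T_lower
  comm := T_one_sub_comm

/-- A system of generators. -/
structure GenSys (Λ : Type w) [Ring Λ] where
  gen : ∀ (ι : Type) [Fintype ι] [DecidableEq ι], Matrix ι ι Λ → Prop
  elem : ∀ (ι : Type) [Fintype ι] [DecidableEq ι] (i j : ι), i ≠ j → ∀ c,
    gen ι (1 + single i j c)
  inv : ∀ {ι : Type} [Fintype ι] [DecidableEq ι] {M : Matrix ι ι Λ}, gen ι M →
    ∃ N, gen ι N ∧ M * N = 1 ∧ N * M = 1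
  sub : ∀ {ι κ : Type} [Fintype ι] [DecidableEq ι] [Fintype κ] [DecidableEq κ] (e : κ ≃ ι)
    {M : Matrix ι ι Λ}, gen ι M → gen κ (M.submatrix e e)
  stab : ∀ {ι κ : Type} [Fintype ι] [DecidableEq ι] [Fintype κ] [DecidableEq κ]
    {M : Matrix ι ι Λ}, gen ι M → gen (ι ⊕ κ) (fromBlocks M 0 0 1)

namespace GenSys

variable {Λ : Type w} [Ring Λ] {S : GenSys Λ}
variable {J K : Type} [Fintype J] [DecidableEq J] [Fintype K] [DecidableEq K]

variable (S) in
/-- The generated submonoid. -/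
def HG (ι : Type) [Fintype ι] [DecidableEq ι] : Submonoid (Matrix ι ι Λ) :=
  Submonoid.closure {M | S.gen ι M}

variable (S) in
/-- Stably a product of generators. -/
def T (A : Matrix J J Λ) : Prop :=
  ∃ (ι : Type) (_ : Fintype ι) (_ : DecidableEq ι),
    fromBlocks A 0 0 (1 : Matrix ι ι Λ) ∈ S.HG (J ⊕ ι)

lemma gen_mem {M : Matrix J J Λ} (h : S.gen J M) : M ∈ S.HG J := Submonoid.subset_closure h

lemma HG_inv {M : Matrix J J Λ} (h : M ∈ S.HG J) :
    ∃ N ∈ S.HG J, M * N = 1 ∧ N * M = 1 := by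
  induction h using Submonoid.closure_induction with
  | mem x hx =>
    obtain ⟨N, h1, h2⟩ := S.inv hx
    exact ⟨N, gen_mem h1, h2⟩
  | one => exact ⟨1, one_mem _, one_mul _, one_mul _⟩
  | mul x y _ _ hx hy =>
    obtain ⟨N, h1, h2, h3⟩ := hx
    obtain ⟨N', h1', h2', h3'⟩ := hy
    refine ⟨N' * N, mul_mem h1' h1, ?_, ?_⟩
    · rw [mul_assoc, ← mul_assoc y, h2', one_mul, h2]
    · rw [mul_assoc, ← mul_assoc N, h3, one_mul, h3']

lemma HG_submatrix (e : K ≃ J) {M : Matrix J J Λ} (h : M ∈ S.HG J) :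
    M.submatrix e e ∈ S.HG K := by
  induction h using Submonoid.closure_induction with
  | mem x hx => exact gen_mem (S.sub e hx)
  | one => rw [submatrix_one_equiv]; exact one_mem _
  | mul x y _ _ hx hy => rw [← submatrix_mul_equiv x y e e e]; exact mul_mem hx hy

lemma HG_stab {M : Matrix J J Λ} (h : M ∈ S.HG J) :
    fromBlocks M 0 0 (1 : Matrix K K _) ∈ S.HG (J ⊕ K) := by
  induction h using Submonoid.closure_induction with
  | mem x hx => exact gen_mem (S.stab hx)
  | one => rw [fromBlocks_one]; exact one_mem _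
  | mul x y _ _ hx hy =>
    have := mul_mem hx hy
    simpa [fromBlocks_multiply] using this

lemma HG_upper (X : Matrix J K (Λ)) :
    fromBlocks 1 X 0 1 ∈ S.HG (J ⊕ K) := by
  induction X using Matrix.induction_on' with
  | h_zero => rw [fromBlocks_one]; exact one_mem _
  | h_add X Y hX hY =>
    have := mul_mem hX hY
    simpa [fromBlocks_multiply, add_comm] using this
  | h_std_basis i j c =>
    have : fromBlocks (1 : Matrix J J (Λ)) (single i j c) 0
        (1 : Matrix K K _) = 1 + single (Sum.inl i) (Sum.inr j) c := by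
      ext1 a b
      rcases a with a | a <;> rcases b with b | b <;>
        simp [Matrix.one_apply, Matrix.single_apply]
    rw [this]
    exact gen_mem (S.elem _ _ _ Sum.inl_ne_inr c)

lemma HG_lower (X : Matrix K J (Λ)) :
    fromBlocks 1 0 X 1 ∈ S.HG (J ⊕ K) := by
  have := HG_submatrix (Equiv.sumComm J K) (HG_upper (S := S) (J := K) (K := J) X)
  simpa using this

lemma T_of_mem {M : Matrix J J (Λ)} (h : M ∈ S.HG J) : S.T M :=
  ⟨Empty, inferInstance, inferInstance, HG_stab h⟩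

lemma T_gen {M : Matrix J J (Λ)} (h : S.gen J M) : S.T M := T_of_mem (gen_mem h)

lemma T_one : S.T (1 : Matrix J J (Λ)) := T_of_mem (one_mem _)

lemma stab_left {ι κ : Type} [Fintype ι] [DecidableEq ι] [Fintype κ] [DecidableEq κ]
    {A : Matrix J J (Λ)}
    (h : fromBlocks A 0 0 (1 : Matrix ι ι _) ∈ S.HG (J ⊕ ι)) :
    fromBlocks A 0 0 (1 : Matrix (ι ⊕ κ) (ι ⊕ κ) _) ∈ S.HG (J ⊕ (ι ⊕ κ)) := by
  have := HG_submatrix (Equiv.sumAssoc J ι κ).symm (HG_stab (K := κ) h)
  convert this using 1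
  ext1 a b
  rcases a with a | a | a <;> rcases b with b | b | b <;> simp [Matrix.one_apply]

lemma stab_equiv {ι κ : Type} [Fintype ι] [DecidableEq ι] [Fintype κ] [DecidableEq κ]
    (e : κ ≃ ι) {A : Matrix J J (Λ)}
    (h : fromBlocks A 0 0 (1 : Matrix ι ι _) ∈ S.HG (J ⊕ ι)) :
    fromBlocks A 0 0 (1 : Matrix κ κ _) ∈ S.HG (J ⊕ κ) := by
  have := HG_submatrix (Equiv.sumCongr (Equiv.refl J) e) h
  convert this using 1
  ext1 a b
  rcases a with a | a <;> rcases b with b | b <;> simp [Matrix.one_apply]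

lemma T_mul {A B : Matrix J J (Λ)} (hA : S.T A) (hB : S.T B) : S.T (A * B) := by
  obtain ⟨ι, _, _, hA⟩ := hA
  obtain ⟨κ, _, _, hB⟩ := hB
  have := mul_mem (stab_left (κ := κ) hA) (stab_equiv (Equiv.sumComm ι κ) (stab_left hB))
  exact ⟨ι ⊕ κ, inferInstance, inferInstance, by simpa [fromBlocks_multiply] using this⟩

lemma T_unit {A : Matrix J J (Λ)} (hA : S.T A) :
    ∃ B, S.T B ∧ A * B = 1 ∧ B * A = 1 := by
  obtain ⟨ι, _, _, hA⟩ := hA
  obtain ⟨N, hN, h1, h2⟩ := HG_inv hA
  rw [← fromBlocks_toBlocks N] at hN h1 h2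
  rw [fromBlocks_multiply, ← fromBlocks_one, fromBlocks_inj] at h1 h2
  simp only [Matrix.zero_mul, Matrix.mul_zero, add_zero, zero_add, Matrix.one_mul,
    Matrix.mul_one] at h1 h2
  refine ⟨N.toBlocks₁₁, ⟨ι, inferInstance, inferInstance, ?_⟩, h1.1, h2.1⟩
  rw [h2.2.1, h1.2.2.1, h1.2.2.2] at hN
  exact hN

lemma T_inv {A B : Matrix J J (Λ)} (hA : S.T A) (h : A * B = 1) : S.T B := by
  obtain ⟨C, hC, -, h2⟩ := T_unit hA
  have : B = C := by rw [← one_mul B, ← h2, mul_assoc, h, mul_one]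
  rwa [this]

lemma T_cancel_left {A B : Matrix J J (Λ)} (hA : S.T A) (h : S.T (A * B)) : S.T B := by
  obtain ⟨C, hC, -, h2⟩ := T_unit hA
  have := T_mul hC h
  rwa [← mul_assoc, h2, one_mul] at this

lemma T_cancel_right {A B : Matrix J J (Λ)} (hB : S.T B) (h : S.T (A * B)) : S.T A := by
  obtain ⟨C, hC, h1, -⟩ := T_unit hB
  have := T_mul h hC
  rwa [mul_assoc, h1, mul_one] at this

lemma T_pow {A : Matrix J J (Λ)} (hA : S.T A) (n : ℕ) : S.T (A ^ n) := by
  induction n with
  | zero => rw [pow_zero]; exact T_one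
  | succ n ih => rw [pow_succ]; exact T_mul ih hA

lemma T_submatrix (e : K ≃ J) {A : Matrix J J (Λ)} (hA : S.T A) :
    S.T (A.submatrix e e) := by
  obtain ⟨ι, _, _, hA⟩ := hA
  refine ⟨ι, inferInstance, inferInstance, ?_⟩
  have := HG_submatrix (Equiv.sumCongr e (Equiv.refl ι)) hA
  convert this using 1
  ext1 a b
  rcases a with a | a <;> rcases b with b | b <;> simp [Matrix.one_apply]

lemma T_of_submatrix (e : K ≃ J) {A : Matrix J J (Λ)}
    (hA : S.T (A.submatrix e e)) : S.T A := by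
  simpa using T_submatrix e.symm hA

lemma T_stab {A : Matrix J J (Λ)} (hA : S.T A) :
    S.T (fromBlocks A 0 0 (1 : Matrix K K _)) := by
  obtain ⟨ι, _, _, hA⟩ := hA
  refine ⟨ι, inferInstance, inferInstance, ?_⟩
  have := HG_submatrix (Equiv.sumAssoc J K ι)
    (stab_equiv (Equiv.sumComm K ι) (stab_left (κ := K) hA))
  convert this using 1
  ext1 a b
  rcases a with (a | a) | a <;> rcases b with (b | b) | b <;> simp [Matrix.one_apply]

lemma T_of_stab {A : Matrix J J (Λ)}
    (hA : S.T (fromBlocks A 0 0 (1 : Matrix K K _))) : S.T A := by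
  obtain ⟨ι, _, _, hA⟩ := hA
  refine ⟨K ⊕ ι, inferInstance, inferInstance, ?_⟩
  have := HG_submatrix (Equiv.sumAssoc J K ι).symm hA
  convert this using 1
  ext1 a b
  rcases a with a | a | a <;> rcases b with b | b | b <;> simp [Matrix.one_apply]

lemma T_stab' {A : Matrix J J (Λ)} (hA : S.T A) :
    S.T (fromBlocks (1 : Matrix K K _) 0 0 A) := by
  simpa using T_submatrix (Equiv.sumComm K J) (T_stab (K := K) hA)

lemma T_of_stab' {A : Matrix J J (Λ)}
    (hA : S.T (fromBlocks (1 : Matrix K K _) 0 0 A)) : S.T A := by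
  apply T_of_stab (K := K)
  simpa using T_submatrix (Equiv.sumComm J K) hA

lemma T_upper (X : Matrix J K (Λ)) : S.T (fromBlocks 1 X 0 1) :=
  T_of_mem (HG_upper X)

lemma T_lower (X : Matrix K J (Λ)) : S.T (fromBlocks 1 0 X 1) :=
  T_of_mem (HG_lower X)

/-- Conjugation invariance, with rectangular conjugating matrices. -/
lemma T_conj {A : Matrix K K (Λ)} (X : Matrix J K (Λ))
    (Y : Matrix K J (Λ)) (hXY : X * Y = 1) (hYX : Y * X = 1) (hA : S.T A) :
    S.T (X * A * Y) := by
  have hW : ∀ (X : Matrix J K (Λ)) (Y : Matrix K J (Λ)),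
      X * Y = 1 → Y * X = 1 → S.T (fromBlocks 0 X (-Y) 0) := by
    intro X Y hXY hYX
    have := T_mul (S := S) (T_mul (T_upper X) (T_lower (-Y))) (T_upper X)
    simpa [fromBlocks_multiply, hXY, hYX] using this
  have h1 := hW X Y hXY hYX
  have h2 := hW (-X) (-Y) (by simpa using hXY) (by simpa using hYX)
  have := T_mul (T_mul h1 (T_stab' (K := J) hA)) h2
  apply T_of_stab (K := K)
  simpa [fromBlocks_multiply, hYX] using this

/-- `1 - X Y` and `1 - Y X` are simultaneously trivial. -/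
lemma T_one_sub_comm (X : Matrix J K (Λ)) (Y : Matrix K J (Λ))
    (h : S.T (1 - Y * X)) : S.T (1 - X * Y) := by
  have := T_mul (T_mul (T_mul (T_mul (T_upper (-X)) (T_lower Y)) (T_stab' (K := J) h))
    (T_upper X)) (T_lower (-Y))
  apply T_of_stab (K := K)
  convert this using 1
  simp only [fromBlocks_multiply, fromBlocks_inj, Matrix.one_mul, Matrix.mul_one,
    Matrix.zero_mul, Matrix.mul_zero, add_zero, zero_add, Matrix.neg_mul, Matrix.mul_neg,
    Matrix.add_mul, Matrix.mul_sub, Matrix.sub_mul, Matrix.mul_assoc]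
  refine ⟨?_, ?_, ?_, ?_⟩ <;> abel

variable (S) in
/-- The calculus of a system of generators. -/
def toTS : TS Λ where
  T := S.T
  one := T_one
  mul := T_mul
  unit := T_unit
  of_stab := T_of_stab
  upper := T_upper
  lower := T_lower
  comm := T_one_sub_comm

end GenSys

end Pool.Agent.MP_f7db47_al
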