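import Pool.Agent.Mg.Ff7db47.G47beda
import Pool.Agent.Mg.Ff7db47.Gacfef7

section

/-!
The Nil theorem for an abstract calculus and an abstract positive semigroup.
-/

set_option linter.unusedSectionVars false

namespace Pool.Agent.MP_f7db47_al

open Matrix

universe u v

variable {R : Type v} [Ring R] {G : Type u} [Group G]
variable {J : Type} [Fintype J] [DecidableEq J] {K : Subgroup G}

/-- Elimination: reduction to a single double coset. -/
lemma lazardS (S : TS (MonoidAlgebra R G)) (F : Filt R K J) {P : Set G} (hP : ∀ a ∈ P, ∀ b ∈ P, a * b ∈ P)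
    (hsingle : ∀ x ∈ P, ∀ β : Matrix J J (MonoidAlgebra R G), MSup (dc K x) β → F.Low 1 β →
      S.T (1 - β))
    {ν : Matrix J J (MonoidAlgebra R G)} (hν : MSup P ν) (hl : F.Low 1 ν) : S.T (1 - ν) := by
  classical
  have main : ∀ m n : ℕ, F.k ≤ n + m → ∀ ν : Matrix J J (MonoidAlgebra R G), MSup P ν →
      F.Low (n + 1) ν → S.T (1 - ν) := by
    intro m
    induction m with
    | zero =>
      intro n hn ν _ hl
      rw [hl.eq_zero (by omega), sub_zero]; exact S.one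
    | succ m ih =>
      intro n hn
      have inner : ∀ s : Finset G, (s : Set G) ⊆ P → ∀ ρ μ : Matrix J J (MonoidAlgebra R G),
          MSup P ρ → MSup {y | ∃ x ∈ s, y ∈ dc K x} ρ → F.Low (n + 1) ρ → MSup P μ →
          F.Low (n + 1 + 1) μ → S.T (1 - (ρ + μ)) := by
        intro s
        induction s using Finset.induction_on with
        | empty =>
          intro _ ρ μ _ hρ _ hμ hlμ
          rw [hρ.eq_zero (msup_univ ρ) (by simp), zero_add]
          exact ih (n + 1) (by omega) μ hμ hlμ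
        | insert x s hx ihs =>
          intro hs ρ μ hρP hρ hlρ hμ hlμ
          have hxP : x ∈ P := hs (by simp)
          set β := mpr (dc K x) ρ with hβ
          set ρ' := mpr (dc K x)ᶜ ρ with hρ'
          have hsum : ρ = β + ρ' := (mpr_add_mpr_compl _ _).symm
          have hlβ : F.Low (n + 1) β := hlρ.mpr (dc_left K x) (dc_right K x)
          have hlρ' : F.Low (n + 1) ρ' := hlρ.mpr
            (fun k hk g => not_congr (dc_left K x k hk g))
            (fun g k hk => not_congr (dc_right K x g k hk))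
          obtain ⟨γ, hγ, hlγ, hinv, -⟩ := (hlβ.of_le (by omega : 1 ≤ n + 1)).geom hP hρP.mpr
          have hT := ihs (fun y hy => hs (by simp [Finset.mem_coe.1 hy])) ρ' (μ + γ * (ρ' + μ))
            hρP.mpr ?_ hlρ' (hμ.add (hγ.mul (hρP.mpr.add hμ) hP))
            (hlμ.add (hlγ.mul (hlρ'.add (hlμ.of_le (by omega)))))
          · have := S.mul (hsingle x hxP β (msup_mpr _ _) (hlβ.of_le (by omega))) hT
            convert this using 1
            have e : (1 - β) * (1 - (ρ' + (μ + γ * (ρ' + μ)))) =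
                (1 - β) - (1 - β) * (1 + γ) * (ρ' + μ) := by noncomm_ring
            rw [e, hinv, one_mul]
            conv_lhs => rw [hsum]
            abel
          · intro i j g hg
            obtain ⟨y, hy, hgy⟩ := hρ.mpr i j g hg
            have h2 : g ∉ dc K x := msup_mpr _ _ i j g hg
            rw [Finset.mem_insert] at hy
            rcases hy with rfl | hy
            · exact absurd hgy h2
            · exact ⟨y, hy, hgy⟩
      intro ν hν hl
      obtain ⟨s, hs, hs'⟩ := exists_finset_msup ν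
      have := inner s (hs' P hν) ν 0 hν (hs.mono fun y hy => ⟨y, hy, mem_dc K y⟩) hl
        (msup_zero _) Filt.low_zero
      rwa [add_zero] at this
  exact main F.k 0 (by omega) ν hν hl

variable (S : TS (MonoidAlgebra R G))

/-- All invertible matrices supported on `H` are trivial. -/
def TermS (H : Subgroup G) : Prop :=
  ∀ (J : Type) [Fintype J] [DecidableEq J] (A : Matrix J J (MonoidAlgebra R G)),
    MSup (H : Set G) A → IsUnit A → S.T A

/-- All `P`-supported `K`-path nilpotent matrices give trivial unipotent matrices. -/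
def TameP (P : Set G) (K : Subgroup G) : Prop :=
  ∀ (J : Type) [Fintype J] [DecidableEq J] (ν : Matrix J J (MonoidAlgebra R G)),
    MSup P ν → PN K ν → S.T (1 - ν)

/-- Finite subsets of `C` lie in tame subgroups. -/
def CoverP (P : Set G) (C : Subgroup G) : Prop :=
  ∀ Φ : Finset G, (Φ : Set G) ⊆ C → ∃ K₂ : Subgroup G, (Φ : Set G) ⊆ K₂ ∧ TameP S P K₂

variable {S}

lemma CoverP.tame {P : Set G} {C : Subgroup G} (h : CoverP S P C) : TameP S P C := by
  intro J _ _ ν hν hn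
  obtain ⟨Φ, hΦ, hΦ'⟩ := hn.refine
  obtain ⟨K₂, hK₂, hT⟩ := h Φ hΦ
  exact hT J ν hν (hΦ' K₂ hK₂)

theorem tameP_step {P : Set G} (hP : ∀ a ∈ P, ∀ b ∈ P, a * b ∈ P)
    (hl : ∀ k ∈ K, ∀ x ∈ P, k * x ∈ P) (hr : ∀ k ∈ K, ∀ x ∈ P, x * k ∈ P)
    (h : ∀ x ∈ P, TermS S (K ⊔ Subgroup.zpowers x) ∨ CoverP S P (kstar K 1 x) ∨
      CoverP S P (kstar K x 1)) : TameP S P K := by
  rintro J _ _ ν hν ⟨F, hF⟩
  refine lazardS S F hP (fun x hx β hβ hlow => ?_) hν hF
  rcases h x hx with h | h | h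
  · obtain ⟨γ, -, -, h1, h2⟩ := hlow.geom (P := Set.univ) (fun _ _ _ _ => trivial) (msup_univ β)
    refine h _ _ ((msup_one (Subgroup.one_mem _)).sub (hβ.mono ?_)) ⟨⟨_, _, h1, h2⟩, rfl⟩
    rintro _ ⟨k, hk, k', hk', rfl⟩
    exact Subgroup.mul_mem _ (Subgroup.mul_mem _ (Subgroup.mem_sup_left hk)
      (Subgroup.mem_sup_right (Subgroup.mem_zpowers x))) (Subgroup.mem_sup_left hk')
  · obtain ⟨L, _, _, X, Y, hX, hY, rfl⟩ := exists_factor (a := 1) (b := x) (by simpa using hβ)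
    refine S.comm X Y (h.tame L _ (hY.mul hX fun y hy z hz => ?_) (PN.shift hX hY ⟨F, hlow⟩))
    have := hr _ (K.mul_mem hy hz) x hx
    simpa [mul_assoc] using this
  · obtain ⟨L, _, _, X, Y, hX, hY, rfl⟩ := exists_factor (a := x) (b := 1) (by simpa using hβ)
    refine S.comm X Y (h.tame L _ (hY.mul hX fun y hy z hz => ?_) (PN.shift hX hY ⟨F, hlow⟩))
    have := hl _ (K.mul_mem hy hz) x hx
    simpa [mul_assoc] using this

/-- The well founded family version, pulled back along a homomorphism. -/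
theorem coverP_of_family {G₀ : Type u} [Group G₀] (p : G →* G₀) {P : Set G} {C : Subgroup G}
    (hP : ∀ a ∈ P, ∀ b ∈ P, a * b ∈ P)
    (hl : ∀ k ∈ C, ∀ x ∈ P, k * x ∈ P) (hr : ∀ k ∈ C, ∀ x ∈ P, x * k ∈ P)
    {ι : Type u} (K : ι → Subgroup G₀) (r : ι → ι → Prop) (hwf : WellFounded r)
    (hK : ∀ i, (K i).comap p ≤ C)
    (hcover : ∀ M : Subgroup G₀, M.FG → M ≤ C.map p → ∃ i, M ≤ K i)
    (hstep : ∀ i, TameP S P ((K i).comap p) ∨ ∀ x ∈ P,
      TermS S ((K i).comap p ⊔ Subgroup.zpowers x) ∨ Drops K r i (p x) ∨ Drops K r i (p x)⁻¹) :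
    CoverP S P C := by
  have fg : ∀ Φ : Finset G, (Subgroup.closure (p '' Φ)).FG := fun Φ =>
    (Subgroup.fg_iff _).2 ⟨_, rfl, (Finset.finite_toSet Φ).image p⟩
  have tame : ∀ i, TameP S P ((K i).comap p) := by
    intro i
    induction i using hwf.induction with
    | _ i ih =>
    refine (hstep i).elim id fun hstep => ?_
    refine tameP_step hP (fun k hk => hl k (hK i hk)) (fun k hk => hr k (hK i hk)) fun x hx => ?_
    rcases hstep x hx with h1 | h1 | h1
    · exact Or.inl h1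
    · refine Or.inr (Or.inl fun Φ hΦ => ?_)
      obtain ⟨j, hj, hM⟩ := h1 _ (fg Φ) (by
        rw [Subgroup.closure_le]
        rintro _ ⟨y, hy, rfl⟩
        obtain ⟨e1, e2⟩ := hΦ hy
        exact ⟨by simpa using e1, p (x⁻¹ * y * x), e2, by simp [mul_assoc]⟩)
      exact ⟨_, fun y hy => hM (Subgroup.subset_closure ⟨y, hy, rfl⟩), ih j hj⟩
    · refine Or.inr (Or.inr fun Φ hΦ => ?_)
      obtain ⟨j, hj, hM⟩ := h1 _ (fg Φ) (by
        rw [Subgroup.closure_le]
        rintro _ ⟨y, hy, rfl⟩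
        obtain ⟨e1, e2⟩ := hΦ hy
        exact ⟨by simpa using e2, p (x * y * x⁻¹), e1, by simp [mul_assoc]⟩)
      exact ⟨_, fun y hy => hM (Subgroup.subset_closure ⟨y, hy, rfl⟩), ih j hj⟩
  intro Φ hΦ
  obtain ⟨i, hi⟩ := hcover _ (fg Φ) (by
    rw [Subgroup.closure_le]
    rintro _ ⟨y, hy, rfl⟩
    exact ⟨y, hΦ hy, rfl⟩)
  exact ⟨_, fun y hy => hi (Subgroup.subset_closure ⟨y, hy, rfl⟩), tame i⟩

end Pool.Agent.MP_f7db47_al

end

section

/-!
Supports depending on the position in the matrix, and two elimination lemmas.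
-/

set_option linter.unusedSectionVars false

namespace Pool.Agent.MP_f7db47_al

open Matrix

universe u v w

variable {R : Type v} [Ring R] {G : Type u} [Group G]
variable {I J K : Type}

/-- Entry `(i, j)` is supported in `S i j`. -/
def MSup2 (S : I → J → Set G) (A : Matrix I J (MonoidAlgebra R G)) : Prop :=
  ∀ i j, Sup (S i j) (A i j)

/-- Entrywise restriction of support, depending on the position. -/
noncomputable def mpr2 (S : I → J → Set G) (A : Matrix I J (MonoidAlgebra R G)) :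
    Matrix I J (MonoidAlgebra R G) := fun i j => pr (S i j) (A i j)

/-- Restriction of the support of a vector, depending on the position. -/
noncomputable def prv2 (S : J → Set G) (v : J → MonoidAlgebra R G) : J → MonoidAlgebra R G :=
  fun i => pr (S i) (v i)

/-- A vector supported in `S`. -/
def VSup2 (S : J → Set G) (v : J → MonoidAlgebra R G) : Prop := ∀ i, Sup (S i) (v i)

lemma mpr2_row (S : I → J → Set G) (A : Matrix I J (MonoidAlgebra R G)) (i : I) :
    mpr2 S A i = prv2 (S i) (A i) := rfl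

lemma msup2_mpr2 (S : I → J → Set G) (A : Matrix I J (MonoidAlgebra R G)) :
    MSup2 S (mpr2 S A) := fun i j => sup_pr _ (A i j)

lemma MSup2.mpr2 {S S' : I → J → Set G} {A : Matrix I J (MonoidAlgebra R G)} (h : MSup2 S A) :
    MSup2 S (mpr2 S' A) := fun i j => (h i j).pr

lemma MSup2.mpr2_eq {S : I → J → Set G} {A : Matrix I J (MonoidAlgebra R G)} (h : MSup2 S A) :
    Pool.Agent.MP_f7db47_al.mpr2 S A = A := by
  ext1 i j; exact (h i j).pr_eq

lemma MSup2.mpr2_eq_zero {S U : I → J → Set G} {A : Matrix I J (MonoidAlgebra R G)}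
    (h : MSup2 U A) (hd : ∀ i j, ∀ g ∈ U i j, g ∉ S i j) :
    Pool.Agent.MP_f7db47_al.mpr2 S A = 0 := by
  ext1 i j; exact (h i j).pr_eq_zero (hd i j)

lemma mpr2_add (S : I → J → Set G) (A B : Matrix I J (MonoidAlgebra R G)) :
    mpr2 S (A + B) = mpr2 S A + mpr2 S B := by
  ext1 i j; exact map_add (pr (S i j)) _ _

lemma mpr2_sub (S : I → J → Set G) (A B : Matrix I J (MonoidAlgebra R G)) :
    mpr2 S (A - B) = mpr2 S A - mpr2 S B := by
  ext1 i j; exact map_sub (pr (S i j)) _ _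

lemma mpr2_neg (S : I → J → Set G) (A : Matrix I J (MonoidAlgebra R G)) :
    mpr2 S (-A) = -mpr2 S A := by
  ext1 i j; exact map_neg (pr (S i j)) _

lemma pr_union {S S₁ S₂ : Set G} (x : MonoidAlgebra R G) (h : ∀ g, g ∈ S ↔ g ∈ S₁ ∨ g ∈ S₂)
    (hd : ∀ g ∈ S₁, g ∉ S₂) : pr S x = pr S₁ x + pr S₂ x := by
  ext g
  simp only [MonoidAlgebra.coeff_add, Finsupp.add_apply, coeff_pr]
  by_cases h1 : g ∈ S₁
  · simp [h1, hd g h1, h g]
  · by_cases h2 : g ∈ S₂ <;> simp [h1, h2, h g]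

lemma mpr2_union {S S₁ S₂ : I → J → Set G} (A : Matrix I J (MonoidAlgebra R G))
    (h : ∀ i j g, g ∈ S i j ↔ g ∈ S₁ i j ∨ g ∈ S₂ i j) (hd : ∀ i j, ∀ g ∈ S₁ i j, g ∉ S₂ i j) :
    mpr2 S A = mpr2 S₁ A + mpr2 S₂ A := by
  ext1 i j; exact pr_union _ (h i j) (hd i j)

lemma prv2_union {S S₁ S₂ : J → Set G} (v : J → MonoidAlgebra R G)
    (h : ∀ j g, g ∈ S j ↔ g ∈ S₁ j ∨ g ∈ S₂ j) (hd : ∀ j, ∀ g ∈ S₁ j, g ∉ S₂ j) :
    prv2 S v = prv2 S₁ v + prv2 S₂ v := funext fun j => pr_union _ (h j) (hd j)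

lemma MSup2.mono {S S' : I → J → Set G} {A : Matrix I J (MonoidAlgebra R G)} (hA : MSup2 S A)
    (h : ∀ i j, S i j ⊆ S' i j) : MSup2 S' A := fun i j => (hA i j).mono (h i j)

lemma msup2_zero (S : I → J → Set G) : MSup2 S (0 : Matrix I J (MonoidAlgebra R G)) :=
  fun _ _ => sup_zero _

lemma MSup2.add {S : I → J → Set G} {A B : Matrix I J (MonoidAlgebra R G)} (hA : MSup2 S A)
    (hB : MSup2 S B) : MSup2 S (A + B) := fun i j => (hA i j).add (hB i j)

lemma MSup2.neg {S : I → J → Set G} {A : Matrix I J (MonoidAlgebra R G)} (hA : MSup2 S A) :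
    MSup2 S (-A) := fun i j => (hA i j).neg

lemma MSup2.sub {S : I → J → Set G} {A B : Matrix I J (MonoidAlgebra R G)} (hA : MSup2 S A)
    (hB : MSup2 S B) : MSup2 S (A - B) := fun i j => (hA i j).sub (hB i j)

lemma msup2_one [DecidableEq I] {S : I → I → Set G} (h : ∀ i, (1 : G) ∈ S i i) :
    MSup2 S (1 : Matrix I I (MonoidAlgebra R G)) := by
  intro i j
  by_cases hij : i = j
  · subst hij; rw [Matrix.one_apply_eq]; exact sup_one (h i)
  · rw [Matrix.one_apply_ne hij]; exact sup_zero _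

lemma msup2_diagonal [DecidableEq I] {S : I → I → Set G} {d : I → MonoidAlgebra R G}
    (h : ∀ i, Sup (S i i) (d i)) : MSup2 S (diagonal d) := by
  intro i j
  by_cases hij : i = j
  · subst hij; rw [diagonal_apply_eq]; exact h i
  · rw [diagonal_apply_ne _ hij]; exact sup_zero _

lemma MSup2.mul [Fintype J] {S : I → J → Set G} {S' : J → K → Set G} {U : I → K → Set G}
    {A : Matrix I J (MonoidAlgebra R G)} {B : Matrix J K (MonoidAlgebra R G)} (hA : MSup2 S A)
    (hB : MSup2 S' B) (h : ∀ i j k, ∀ a ∈ S i j, ∀ b ∈ S' j k, a * b ∈ U i k) :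
    MSup2 U (A * B) := fun i k => by
  rw [Matrix.mul_apply]
  exact sup_sum _ _ fun j _ => (hA i j).mul (hB j k) (h i j k)

lemma mpr2_mul_right [Fintype J] {S : I → K → Set G} {S₁ : I → J → Set G} {U : J → K → Set G}
    (A : Matrix I J (MonoidAlgebra R G)) {B : Matrix J K (MonoidAlgebra R G)} (hB : MSup2 U B)
    (h : ∀ i j k g, ∀ y ∈ U j k, g * y ∈ S i k ↔ g ∈ S₁ i j) :
    mpr2 S (A * B) = mpr2 S₁ A * B := by
  ext1 i k
  simp only [mpr2, Matrix.mul_apply, map_sum]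
  exact Finset.sum_congr rfl fun j _ => pr_mul_right _ (hB j k) (h i j k)

lemma mpr2_mul_left [Fintype J] {S : I → K → Set G} {S₁ : J → K → Set G} {U : I → J → Set G}
    {A : Matrix I J (MonoidAlgebra R G)} (B : Matrix J K (MonoidAlgebra R G)) (hA : MSup2 U A)
    (h : ∀ i j k, ∀ y ∈ U i j, ∀ g, y * g ∈ S i k ↔ g ∈ S₁ j k) :
    mpr2 S (A * B) = A * mpr2 S₁ B := by
  ext1 i k
  simp only [mpr2, Matrix.mul_apply, map_sum]
  exact Finset.sum_congr rfl fun j _ => pr_mul_left _ (hA i j) (h i j k)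

lemma vsup2_prv2 (S : J → Set G) (v : J → MonoidAlgebra R G) : VSup2 S (prv2 S v) :=
  fun i => sup_pr _ (v i)

lemma VSup2.prv2_eq {S : J → Set G} {v : J → MonoidAlgebra R G} (h : VSup2 S v) :
    prv2 S v = v := funext fun i => (h i).pr_eq

lemma VSup2.prv2_eq_zero {S U : J → Set G} {v : J → MonoidAlgebra R G} (h : VSup2 U v)
    (hd : ∀ j, ∀ g ∈ U j, g ∉ S j) : prv2 S v = 0 := funext fun i => (h i).pr_eq_zero (hd i)

lemma prv2_prv2 (S S' : J → Set G) (v : J → MonoidAlgebra R G) :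
    prv2 S (prv2 S' v) = prv2 (fun j => S j ∩ S' j) v := funext fun _ => pr_pr _ _ _

lemma prv2_congr {S S' : J → Set G} (v : J → MonoidAlgebra R G)
    (h : ∀ j g, g ∈ S j ↔ g ∈ S' j) : prv2 S v = prv2 S' v := by
  have : S = S' := funext fun j => Set.ext (h j)
  rw [this]

lemma prv2_zero (S : J → Set G) : prv2 S (0 : J → MonoidAlgebra R G) = 0 :=
  funext fun j => map_zero (pr (S j))

lemma prv2_add (S : J → Set G) (v w : J → MonoidAlgebra R G) :
    prv2 S (v + w) = prv2 S v + prv2 S w := funext fun j => map_add (pr (S j)) _ _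

lemma prv2_neg (S : J → Set G) (v : J → MonoidAlgebra R G) :
    prv2 S (-v) = -prv2 S v := funext fun j => map_neg (pr (S j)) _

lemma prv2_univ (v : J → MonoidAlgebra R G) : prv2 (fun _ => Set.univ) v = v :=
  funext fun _ => pr_univ _

lemma prv2_vecMul_right [Fintype I] {S : J → Set G} {S₁ : I → Set G} {U : I → J → Set G}
    (v : I → MonoidAlgebra R G) {B : Matrix I J (MonoidAlgebra R G)} (hB : MSup2 U B)
    (h : ∀ i j g, ∀ k ∈ U i j, g * k ∈ S j ↔ g ∈ S₁ i) : prv2 S (v ᵥ* B) = prv2 S₁ v ᵥ* B := by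
  funext j
  simp only [prv2, vecMul, dotProduct, map_sum]
  exact Finset.sum_congr rfl fun i _ => pr_mul_right _ (hB i j) (h i j)

lemma prv2_vecMul_left [Fintype I] {S : J → Set G} {S₁ : I → J → Set G} {U : I → Set G}
    {v : I → MonoidAlgebra R G} (B : Matrix I J (MonoidAlgebra R G)) (hv : VSup2 U v)
    (h : ∀ i j, ∀ k ∈ U i, ∀ g, k * g ∈ S j ↔ g ∈ S₁ i j) :
    prv2 S (v ᵥ* B) = v ᵥ* mpr2 S₁ B := by
  funext j
  simp only [prv2, vecMul, dotProduct, map_sum, mpr2]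
  exact Finset.sum_congr rfl fun i _ => pr_mul_left _ (hv i) (h i j)

lemma VSup2.vecMul [Fintype I] {S : I → Set G} {S' : I → J → Set G} {U : J → Set G}
    {v : I → MonoidAlgebra R G} {B : Matrix I J (MonoidAlgebra R G)} (hv : VSup2 S v)
    (hB : MSup2 S' B) (h : ∀ i j, ∀ a ∈ S i, ∀ b ∈ S' i j, a * b ∈ U j) : VSup2 U (v ᵥ* B) :=
  fun j => sup_sum _ _ fun i _ => (hv i).mul (hB i j) (h i j)

lemma prv2_single_smul (S : J → Set G) (g : G) (r : R) (v : J → MonoidAlgebra R G) :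
    prv2 S (MonoidAlgebra.single g r • v) =
      MonoidAlgebra.single g r • prv2 (fun j => {y | g * y ∈ S j}) v := by
  funext j
  simp only [prv2, Pi.smul_apply, smul_eq_mul]
  refine pr_mul_left (U := {g}) _ (sup_single (S := {g}) rfl r) ?_
  rintro k rfl y; rfl

/-- The total size of the support of a vector. -/
noncomputable def vsize [Fintype J] (v : J → MonoidAlgebra R G) : ℕ :=
  ∑ j, (v j).coeff.support.card

lemma support_pr_subset (S : Set G) (x : MonoidAlgebra R G) :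
    (pr S x).coeff.support ⊆ x.coeff.support := by
  intro g hg
  rw [Finsupp.mem_support_iff] at hg ⊢
  intro h0
  exact hg (by simp [coeff_pr, h0])

lemma vsize_prv2_lt [Fintype J] {S : J → Set G} {v : J → MonoidAlgebra R G} {j : J} {g : G}
    (h1 : (v j).coeff g ≠ 0) (h2 : g ∉ S j) : vsize (prv2 S v) < vsize v := by
  refine Finset.sum_lt_sum (fun i _ => Finset.card_le_card (support_pr_subset _ _))
    ⟨j, Finset.mem_univ _, Finset.card_lt_card ⟨support_pr_subset _ _, fun h => ?_⟩⟩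
  have := h (Finsupp.mem_support_iff.2 h1)
  exact h2 (sup_pr _ _ g (Finsupp.mem_support_iff.1 this))

lemma exists_coeff_ne {v : J → MonoidAlgebra R G} (h : v ≠ 0) : ∃ j g, (v j).coeff g ≠ 0 := by
  by_contra h0
  push Not at h0
  exact h (funext fun j => by ext g; simpa using h0 j g)

lemma eq_zero_of_vsize [Fintype J] {v : J → MonoidAlgebra R G} (h : vsize v = 0) : v = 0 := by
  by_contra h0
  obtain ⟨j, g, hg⟩ := exists_coeff_ne h0
  have := vsize_prv2_lt (S := fun _ => ∅) hg (Set.notMem_empty g)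
  omega

section Elim

variable [Fintype J] [DecidableEq J]

open Classical in
/-- The projector onto the indices of class `y`. -/
noncomputable def proj (Λ : Type w) [Ring Λ] {Y : Type*} (c : J → Y) (y : Y) : Matrix J J Λ :=
  diagonal fun i => if c i = y then 1 else 0

variable {Λ : Type w} [Ring Λ] {Y : Type*} (c : J → Y)

open Classical in
lemma proj_mul_apply {L : Type} (y : Y) (A : Matrix J L Λ) (i : J) (j : L) :
    (proj Λ c y * A) i j = if c i = y then A i j else 0 := by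
  simp [proj, diagonal_mul]

open Classical in
lemma mul_proj_apply {L : Type} (y : Y) (A : Matrix L J Λ) (i : L) (j : J) :
    (A * proj Λ c y) i j = if c j = y then A i j else 0 := by
  simp [proj, mul_diagonal]

lemma proj_mul_self (y : Y) : proj Λ c y * proj Λ c y = proj Λ c y := by
  simp only [proj, diagonal_mul_diagonal]
  congr 1; funext i; split_ifs <;> simp

lemma proj_mul_ne {y y' : Y} (h : y ≠ y') : proj Λ c y * proj Λ c y' = 0 := by
  simp only [proj, diagonal_mul_diagonal]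
  rw [← diagonal_zero]
  congr 1; funext i; split_ifs with h1 h2
  · exact absurd (h1.symm.trans h2) h
  all_goals simp

lemma sum_proj {s : Finset Y} (hs : ∀ i, c i ∈ s) : ∑ y ∈ s, proj Λ c y = 1 := by
  classical
  ext i j
  rw [Matrix.sum_apply]
  by_cases hij : i = j
  · subst hij
    simp [proj, hs i]
  · simp [proj, hij]

lemma proj_comm {Z : Matrix J J Λ} (hZ : ∀ i j, c i ≠ c j → Z i j = 0) (y : Y) :
    proj Λ c y * Z = Z * proj Λ c y := by
  ext i j
  rw [proj_mul_apply, mul_proj_apply]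
  by_cases h : c i = c j
  · rw [h]
  · simp [hZ i j h]

/-- A block diagonal matrix is trivial if each block is. -/
lemma TS.of_blocks (S : TS Λ) {Z : Matrix J J Λ} (hZ : ∀ y, proj Λ c y * Z = Z * proj Λ c y)
    (h : ∀ y, S.T (1 - proj Λ c y + proj Λ c y * Z)) : S.T Z := by
  classical
  have main : ∀ s : Finset Y, S.T (1 - ∑ y ∈ s, proj Λ c y + (∑ y ∈ s, proj Λ c y) * Z) := by
    intro s
    induction s using Finset.induction_on with
    | empty => simpa using S.one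
    | insert y s hy ih =>
      rw [Finset.sum_insert hy]
      set Q := ∑ y ∈ s, proj Λ c y with hQ
      have h1 : Q * proj Λ c y = 0 := by
        rw [hQ, Finset.sum_mul]
        exact Finset.sum_eq_zero fun y' hy' => proj_mul_ne c fun e => hy (e ▸ hy')
      have := S.mul ih (h y)
      convert this using 1
      have e : (1 - Q + Q * Z) * (1 - proj Λ c y + proj Λ c y * Z) =
          1 - (proj Λ c y + Q) + (proj Λ c y + Q) * Z + (Q * proj Λ c y) * (1 - Z) -
            Q * (Z * proj Λ c y) * (1 - Z) := by noncomm_ring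
      rw [e, ← hZ, ← mul_assoc Q, h1]
      simp
  have := main (Finset.univ.image c)
  rwa [sum_proj c fun i => Finset.mem_image_of_mem _ (Finset.mem_univ i), sub_self, zero_add,
    one_mul] at this

/-- Elimination of the blocks of a nilpotent matrix, one type at a time. -/
lemma elim_types (S : TS (MonoidAlgebra R G)) {K₀ : Subgroup G} (F : Filt R K₀ J) {A : Type*}
    (q : A → Matrix J J (MonoidAlgebra R G)) (hq : ∀ σ σ', σ ≠ σ' → q σ * q σ' = 0)
    (Ah : A → A → Set G) (hAh : ∀ σ σ' σ'', ∀ a ∈ Ah σ σ', ∀ b ∈ Ah σ' σ'', a * b ∈ Ah σ σ'')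
    (hdiag : ∀ σ a, MSup (Ah σ σ) a → q σ * a = a → a * q σ = a → F.Low 1 a → S.T (1 - a))
    (s : Finset A) : ∀ n : A → A → Matrix J J (MonoidAlgebra R G),
      (∀ σ σ', MSup (Ah σ σ') (n σ σ')) → (∀ σ σ', q σ * n σ σ' = n σ σ') →
      (∀ σ σ', n σ σ' * q σ' = n σ σ') → (∀ σ σ', F.Low 1 (n σ σ')) →
      S.T (1 - ∑ σ ∈ s, ∑ σ' ∈ s, n σ σ') := by
  classical
  induction s using Finset.induction_on with
  | empty => intro n _ _ _ _; simpa using S.one
  | insert σ₀ s hs ih =>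
    intro n h1 h2 h3 h4
    obtain ⟨γ, hγ, hlγ, hi1, hi2⟩ := (h4 σ₀ σ₀).geom (hAh σ₀ σ₀ σ₀) (h1 σ₀ σ₀)
    set a := n σ₀ σ₀ with ha
    have hγ1 : γ = a + a * γ := by
      have : (1 - a) * (1 + γ) = 1 + (γ - (a + a * γ)) := by noncomm_ring
      rw [this, add_eq_left, sub_eq_zero] at hi1; exact hi1
    have hγ2 : γ = a + γ * a := by
      have : (1 + γ) * (1 - a) = 1 + (γ - (a + γ * a)) := by noncomm_ring
      rw [this, add_eq_left, sub_eq_zero] at hi2; exact hi2
    have hqγ : q σ₀ * γ = γ := by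
      conv_lhs => rw [hγ1, mul_add, ← mul_assoc, h2]
      exact hγ1.symm
    have hγq : γ * q σ₀ = γ := by
      conv_lhs => rw [hγ2, add_mul, mul_assoc, h3]
      exact hγ2.symm
    set b := ∑ σ' ∈ s, n σ₀ σ' with hb
    set c := ∑ σ ∈ s, n σ σ₀ with hc
    set d := ∑ σ ∈ s, ∑ σ' ∈ s, n σ σ' with hd
    have hne : ∀ σ ∈ s, σ ≠ σ₀ := fun σ hσ e => hs (e ▸ hσ)
    have hl0 : ∀ σ ∈ s, ∀ σ', q σ₀ * n σ σ' = 0 := fun σ hσ σ' => by
      rw [← h2, ← mul_assoc, hq _ _ (hne σ hσ).symm, zero_mul]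
    have hr0 : ∀ σ, ∀ σ' ∈ s, n σ σ' * q σ₀ = 0 := fun σ σ' hσ' => by
      rw [← h3, mul_assoc, hq _ _ (hne σ' hσ'), mul_zero]
    have hqb : q σ₀ * b = b := by
      rw [hb, Finset.mul_sum]; exact Finset.sum_congr rfl fun σ _ => h2 _ _
    have hbq : b * q σ₀ = 0 := by
      rw [hb, Finset.sum_mul]; exact Finset.sum_eq_zero fun σ hσ => hr0 _ _ hσ
    have hqc : q σ₀ * c = 0 := by
      rw [hc, Finset.mul_sum]; exact Finset.sum_eq_zero fun σ hσ => hl0 _ hσ _
    have hcq : c * q σ₀ = c := by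
      rw [hc, Finset.sum_mul]; exact Finset.sum_congr rfl fun σ _ => h3 _ _
    have hqd : q σ₀ * d = 0 := by
      rw [hd, Finset.mul_sum]
      refine Finset.sum_eq_zero fun σ hσ => ?_
      rw [Finset.mul_sum]; exact Finset.sum_eq_zero fun σ' _ => hl0 _ hσ _
    have hdq : d * q σ₀ = 0 := by
      rw [hd, Finset.sum_mul]
      refine Finset.sum_eq_zero fun σ _ => ?_
      rw [Finset.sum_mul]; exact Finset.sum_eq_zero fun σ' hσ' => hr0 _ _ hσ'
    have hT := ih (fun σ σ' => n σ σ' + n σ σ₀ * (1 + γ) * n σ₀ σ') (fun σ σ' => ?_)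
      (fun σ σ' => ?_) (fun σ σ' => ?_) (fun σ σ' => ?_)
    · have hd' : ∑ σ ∈ s, ∑ σ' ∈ s, (n σ σ' + n σ σ₀ * (1 + γ) * n σ₀ σ') =
          d + c * (1 + γ) * b := by
        simp only [Finset.sum_add_distrib, hd, hc, hb, Finset.sum_mul, Finset.mul_sum]
        rw [Finset.sum_comm (s := s) (t := s) (f := fun σ σ' => n σ σ₀ * (1 + γ) * n σ₀ σ')]
      rw [hd'] at hT
      have hsum : ∑ σ ∈ insert σ₀ s, ∑ σ' ∈ insert σ₀ s, n σ σ' = a + b + c + d := by
        simp only [Finset.sum_insert hs, Finset.sum_add_distrib, ha, hb, hc, hd]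
        abel
      have hcs : c * (1 + γ) * q σ₀ = c * (1 + γ) := by
        rw [mul_add, add_mul, mul_one, hcq, mul_assoc, hγq]
      have t1 : S.T (1 - c * (1 + γ)) := by
        refine S.sq_zero (p := 1 - q σ₀) ?_ ?_
        · rw [sub_mul, one_mul, ← mul_assoc, hqc, zero_mul, sub_zero]
        · rw [mul_sub, mul_one, hcs, sub_self]
      have t2 : S.T (1 - (1 + γ) * b) := by
        refine S.sq_zero (p := q σ₀) ?_ ?_
        · rw [add_mul, mul_add, one_mul, hqb, ← mul_assoc, hqγ]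
        · rw [mul_assoc, hbq, mul_zero]
      have t3 := hdiag σ₀ a (h1 _ _) (h2 _ _) (h3 _ _) (h4 _ _)
      have := S.mul t1 (S.mul hT (S.mul t3 t2))
      rw [hsum]
      convert this using 1
      set d' := d + c * (1 + γ) * b with hd''
      have hd'q : d' * q σ₀ = 0 := by rw [hd'', add_mul, hdq, mul_assoc, hbq, mul_zero, add_zero]
      have hqd' : q σ₀ * d' = 0 := by
        rw [hd'', mul_add, hqd, ← mul_assoc, ← mul_assoc, hqc, zero_mul, zero_mul, add_zero]
      have e1 : (1 - a) * (1 - (1 + γ) * b) = 1 - a - b := by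
        rw [mul_sub, mul_one, ← mul_assoc, hi1, one_mul]
      have e2 : d' * a = 0 := by rw [ha, ← h2 σ₀ σ₀, ← mul_assoc, hd'q, zero_mul]
      have e3 : d' * b = 0 := by rw [← hqb, ← mul_assoc, hd'q, zero_mul]
      have e4 : c * (1 + γ) * d' = 0 := by rw [← hcs, mul_assoc, hqd', mul_zero]
      have e5 : (1 - c * (1 + γ)) * ((1 - d') * (1 - a - b)) =
          1 - a - b - d' - c * ((1 + γ) * (1 - a)) + c * (1 + γ) * b + c * (1 + γ) * d' +
            (1 - c * (1 + γ)) * (d' * a + d' * b) := by noncomm_ring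
      rw [e1, e5, e2, e3, e4, hi2, hd'']
      noncomm_ring
    · rw [mul_add, mul_one, add_mul]
      exact (h1 _ _).add (((h1 _ _).mul (h1 _ _) (hAh _ _ _)).add
        (((h1 _ _).mul hγ (hAh _ _ _)).mul (h1 _ _) (hAh _ _ _)))
    · rw [mul_add, h2, ← mul_assoc, ← mul_assoc, h2]
    · rw [add_mul, h3, mul_assoc, h3]
    · rw [mul_add, mul_one, add_mul]
      exact (h4 _ _).add ((((h4 _ _).mul (h4 _ _)).of_le (by omega)).add
        ((((h4 _ _).mul hlγ).mul (h4 _ _)).of_le (by omega)))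

end Elim

end Pool.Agent.MP_f7db47_al

end

section

/-!
Abstract data of an action on a tree, and the basic projection lemmas.
-/

set_option linter.unusedSectionVars false

namespace Pool.Agent.MP_f7db47_al

open Matrix

universe u v w

/-- Abstract tree data: `E` is a set of representatives of the orbits of edges, `ep e` gives
the two end points and `H e s` is the half tree containing `ep e s`. -/
structure TB (G : Type u) [Group G] (V : Type w) [MulAction G V] where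
  E : Type w
  ep : E → Bool → V
  H : E → Bool → Set V
  hmem : ∀ e s, ep e s ∈ H e s
  hcompl : ∀ e s z, z ∈ H e (!s) ↔ z ∉ H e s
  tri : ∀ e e' (k : G), (e' = e ∧ ∀ s, k • ep e s = ep e s) ∨
    ∀ s s₁ s₂, k • ep e' s₁ ∈ H e s → k • ep e' s₂ ∈ H e s
  hC : ∀ e (c : G), (∀ s, c • ep e s = ep e s) → ∀ s z, z ∈ H e s → c • z ∈ H e s
  nest : ∀ e e' s s' (g : G), g • ep e' (!s') = ep e s →
    ¬ (e' = e ∧ ∀ s, g • ep e s = ep e s) → ∀ z ∈ H e' s', g • z ∈ H e s
  μ : E → V → ℕ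
  lin : ∀ e z, (∃ s, z = ep e s) ∨
    ∃ (k : G) (e' : E) (s : Bool), k • ep e' s = z ∧ μ e (k • ep e' (!s)) < μ e z

namespace TB

variable {R : Type v} [Ring R] {G : Type u} [Group G] {V : Type w} [MulAction G V] (D : TB G V)

/-- The edge groups. -/
def C (e : D.E) : Subgroup G where
  carrier := {c | ∀ s, c • D.ep e s = D.ep e s}
  one_mem' s := one_smul _ _
  mul_mem' {a b} ha hb s := by rw [mul_smul, hb s, ha s]
  inv_mem' {a} ha s := by rw [inv_smul_eq_iff, ha s]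

lemma mem_C {e : D.E} {c : G} : c ∈ D.C e ↔ ∀ s, c • D.ep e s = D.ep e s := Iff.rfl

/-- Elements moving a half tree strictly into another one. -/
def Ah (σ σ' : D.E × Bool) : Set G :=
  {g | (∀ z ∈ D.H σ'.1 σ'.2, g • z ∈ D.H σ.1 σ.2) ∧ ∃ z ∈ D.H σ.1 σ.2, g⁻¹ • z ∉ D.H σ'.1 σ'.2}

lemma ah_mul (σ σ' σ'' : D.E × Bool) : ∀ a ∈ D.Ah σ σ', ∀ b ∈ D.Ah σ' σ'', a * b ∈ D.Ah σ σ'' := by
  rintro a ⟨h1, z, hz, h2⟩ b ⟨h3, -⟩
  refine ⟨fun y hy => by rw [mul_smul]; exact h1 _ (h3 y hy), z, hz, fun h => h2 ?_⟩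
  have := h3 _ h
  rwa [smul_smul, _root_.mul_inv_rev, mul_inv_cancel_left] at this

lemma ah_left (σ σ' : D.E × Bool) : ∀ c ∈ D.C σ.1, ∀ a ∈ D.Ah σ σ', c * a ∈ D.Ah σ σ' := by
  rintro c hc a ⟨h1, z, hz, h2⟩
  refine ⟨fun y hy => by rw [mul_smul]; exact D.hC _ c hc _ _ (h1 y hy), c • z,
    D.hC _ c hc _ _ hz, ?_⟩
  rwa [smul_smul, _root_.mul_inv_rev, inv_mul_cancel_right]

lemma ah_right (σ σ' : D.E × Bool) : ∀ c ∈ D.C σ'.1, ∀ a ∈ D.Ah σ σ', a * c ∈ D.Ah σ σ' := by
  rintro c hc a ⟨h1, z, hz, h2⟩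
  refine ⟨fun y hy => by rw [mul_smul]; exact h1 _ (D.hC _ c hc _ _ hy), z, hz, fun h => h2 ?_⟩
  have := D.hC _ c hc _ _ h
  rwa [smul_smul, _root_.mul_inv_rev, mul_inv_cancel_left] at this

lemma not_mem (e : D.E) (s : Bool) : D.ep e (!s) ∉ D.H e s :=
  (D.hcompl e s _).1 (D.hmem e (!s))

lemma not_mem' (e : D.E) (s : Bool) : D.ep e s ∉ D.H e (!s) := fun h =>
  (D.hcompl e s _).1 h (D.hmem e s)

lemma mem_iff (e : D.E) (s s' : Bool) : D.ep e s' ∈ D.H e s ↔ s' = s := by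
  refine ⟨fun h => ?_, fun h => h ▸ D.hmem e s'⟩
  by_contra hs
  rw [Bool.eq_not.2 hs] at h
  exact D.not_mem e s h

lemma ep_inj {e : D.E} {s s' : Bool} (h : D.ep e s = D.ep e s') : s = s' :=
  (D.mem_iff e s' s).1 (h ▸ D.hmem e s')

lemma C_iff {e : D.E} {c : G} (hc : c ∈ D.C e) (s : Bool) (z : V) :
    c • z ∈ D.H e s ↔ z ∈ D.H e s :=
  ⟨fun h => by simpa using D.hC e _ ((D.C e).inv_mem hc) s _ h, D.hC e c hc s z⟩

lemma C_eq_iff {e : D.E} {c : G} (hc : c ∈ D.C e) (s : Bool) (z : V) :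
    c • z = D.ep e s ↔ z = D.ep e s := by
  rw [← hc s, smul_left_cancel_iff, hc s]

variable {J : Type} (e : J → D.E)

/-- The terms lying on the edge `g₀ τ`. -/
def On (g₀ : G) (τ : D.E) : J → Set G := fun i => {x | e i = τ ∧ g₀⁻¹ * x ∈ D.C τ}

/-- The terms lying on edges inside the half tree `g₀ H τ s`. -/
def Ins (g₀ : G) (τ : D.E) (s : Bool) : J → Set G :=
  fun i => {x | ∀ s', (g₀⁻¹ * x) • D.ep (e i) s' ∈ D.H τ s}

/-- Terms that do not move the edge. -/
def Same : J → J → Set G := fun i i' => {x | e i' = e i ∧ x ∈ D.C (e i)}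

/-- A family of sets that is a union of edges. -/
def Sat (S : J → Set G) : Prop :=
  ∀ i i' x c, e i' = e i → c ∈ D.C (e i) → x ∈ S i → x * c ∈ S i'

variable {D e}

lemma on_one (i : J) : D.On e 1 (e i) = D.Same e i := by
  funext i'; ext x; simp [On, Same]

lemma mem_on_self (i : J) (g : G) : g ∈ D.On e g (e i) i := ⟨rfl, by simp [(D.C _).one_mem]⟩

lemma sat_on (g₀ : G) (τ : D.E) : D.Sat e (D.On e g₀ τ) := by
  rintro i i' x c h hc ⟨h1, h2⟩
  exact ⟨h.trans h1, by rw [← mul_assoc]; exact (D.C τ).mul_mem h2 (h1 ▸ hc)⟩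

lemma Sat.compl {S : J → Set G} (hS : D.Sat e S) : D.Sat e fun i => (S i)ᶜ := by
  intro i i' x c h hc hx hx'
  have := hS i' i _ c⁻¹ h.symm (h ▸ (D.C _).inv_mem hc) hx'
  exact hx (by simpa using this)

lemma Sat.inter {S S' : J → Set G} (hS : D.Sat e S) (hS' : D.Sat e S') :
    D.Sat e fun i => S i ∩ S' i :=
  fun i i' x c h hc hx => ⟨hS i i' x c h hc hx.1, hS' i i' x c h hc hx.2⟩

lemma Sat.on_subset {S : J → Set G} (hS : D.Sat e S) {g₀ : G} {τ : D.E} {i : J} {x : G}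
    (h1 : x ∈ D.On e g₀ τ i) (h2 : x ∈ S i) (i' : J) : D.On e g₀ τ i' ⊆ S i' := by
  rintro y ⟨h3, h4⟩
  have := hS i i' x (x⁻¹ * y) (h3.trans h1.1.symm) (by
    rw [h1.1]
    have := (D.C τ).mul_mem ((D.C τ).inv_mem h1.2) h4
    simpa [mul_assoc] using this) h2
  simpa using this

/-- The component on one edge of the restriction to a union of edges. -/
lemma Sat.prv2_on {S : J → Set G} (hS : D.Sat e S) (g₀ : G) (τ : D.E)
    (y : J → MonoidAlgebra R G) :
    prv2 (D.On e g₀ τ) (prv2 S y) = 0 ∨ ((∃ i x, x ∈ D.On e g₀ τ i ∧ x ∈ S i) ∧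
      prv2 (D.On e g₀ τ) (prv2 S y) = prv2 (D.On e g₀ τ) y) := by
  by_cases h : ∃ i x, x ∈ D.On e g₀ τ i ∧ x ∈ S i
  · refine Or.inr ⟨h, ?_⟩
    obtain ⟨i, x, h1, h2⟩ := h
    rw [prv2_prv2]
    exact prv2_congr _ fun j g => ⟨fun h => h.1, fun h => ⟨h, hS.on_subset h1 h2 j h⟩⟩
  · exact Or.inl ((vsup2_prv2 _ _).prv2_eq_zero fun j g h1 h2 => h ⟨j, g, h2, h1⟩)

lemma on_eq {g₀ : G} {τ : D.E} {i : J} {x : G} (h : x ∈ D.On e g₀ τ i) :
    D.On e g₀ τ = D.On e x (e i) := by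
  funext j
  exact Set.Subset.antisymm ((sat_on x (e i)).on_subset h (mem_on_self i x) j)
    ((sat_on g₀ τ).on_subset (mem_on_self i x) h j)

/-- Decomposition along the edges. -/
lemma Sat.induction [Fintype J] {P : (J → MonoidAlgebra R G) → Prop} (h0 : P 0)
    (hadd : ∀ a b, P a → P b → P (a + b)) (y : J → MonoidAlgebra R G) {S : J → Set G}
    (hS : D.Sat e S) (h : ∀ i, ∀ g ∈ S i, P (prv2 (D.On e g (e i)) y)) : P (prv2 S y) := by
  have main : ∀ n, ∀ S : J → Set G, D.Sat e S → (∀ i, ∀ g ∈ S i, P (prv2 (D.On e g (e i)) y)) →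
      vsize (prv2 S y) ≤ n → P (prv2 S y) := by
    intro n
    induction n with
    | zero => intro S _ _ hn; rw [eq_zero_of_vsize (Nat.le_zero.1 hn)]; exact h0
    | succ n ih =>
      intro S hS h hn
      by_cases hz : prv2 S y = 0
      · rw [hz]; exact h0
      obtain ⟨i, g, hg⟩ := exists_coeff_ne hz
      have hgS : g ∈ S i := vsup2_prv2 S y i g hg
      rw [prv2_union (S₁ := D.On e g (e i)) (S₂ := fun j => (D.On e g (e i) j)ᶜ ∩ S j) y
        (fun j x => ?_) fun j x h1 h2 => h2.1 h1]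
      · refine hadd _ _ (h i g hgS) (ih _ ((sat_on g (e i)).compl.inter hS)
          (fun j x hx => h j x hx.2) ?_)
        have := vsize_prv2_lt (S := fun j => (D.On e g (e i) j)ᶜ) hg
          (fun h => h (mem_on_self i g))
        rw [prv2_prv2] at this
        omega
      · refine ⟨fun hx => ?_, fun hx => hx.elim (hS.on_subset (mem_on_self i g) hgS j ·) (·.2)⟩
        by_cases h1 : x ∈ D.On e g (e i) j
        · exact Or.inl h1
        · exact Or.inr ⟨h1, hx⟩
  exact main _ S hS h le_rfl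

lemma sat_univ : D.Sat e fun _ => Set.univ := fun _ _ _ _ _ _ _ => trivial

lemma on_induction [Fintype J] {P : (J → MonoidAlgebra R G) → Prop} (h0 : P 0)
    (hadd : ∀ a b, P a → P b → P (a + b)) (y : J → MonoidAlgebra R G)
    (h : ∀ i g, P (prv2 (D.On e g (e i)) y)) : P y := by
  rw [← prv2_univ y]
  exact sat_univ.induction h0 hadd y fun i g _ => h i g

lemma same_mul [Fintype J] {A B : Matrix J J (MonoidAlgebra R G)} (hA : MSup2 (D.Same e) A)
    (hB : MSup2 (D.Same e) B) : MSup2 (D.Same e) (A * B) :=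
  hA.mul hB fun _ _ _ _ ha _ hb =>
    ⟨hb.1.trans ha.1, (D.C _).mul_mem ha.2 (ha.1 ▸ hb.2)⟩

lemma same_one [DecidableEq J] : MSup2 (D.Same e) (1 : Matrix J J (MonoidAlgebra R G)) :=
  msup2_one fun _ => ⟨rfl, (D.C _).one_mem⟩

/-- The basic lemma: a chain whose image avoids a half tree. -/
lemma lemB [Fintype J] [DecidableEq J] {z : J → V} {Θ : Bool → Matrix J J (MonoidAlgebra R G)}
    (hΘ : ∀ s, MSup2 (fun i j => {x | x • z j = D.ep (e i) s}) (Θ s))
    {Γ : Matrix J J (MonoidAlgebra R G)} (s : Bool) (hΓ : (Θ s + Θ (!s)) * Γ = 1)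
    (y : J → MonoidAlgebra R G) (g₀ : G) (τ : D.E)
    (hy : VSup2 (fun j => {x | (g₀⁻¹ * x) • z j ∉ D.H τ s}) (y ᵥ* (Θ s + Θ (!s)))) :
    prv2 (D.On e g₀ τ) y ᵥ* (Θ s * Γ) = -prv2 (D.Ins e g₀ τ s) y := by
  have h0 : prv2 (fun j => {x | (g₀⁻¹ * x) • z j ∈ D.H τ s}) (y ᵥ* (Θ s + Θ (!s))) = 0 :=
    hy.prv2_eq_zero fun j g h => h
  have h1 : ∀ s', prv2 (fun j => {x | (g₀⁻¹ * x) • z j ∈ D.H τ s}) (y ᵥ* Θ s') =
      prv2 (fun i => {x | (g₀⁻¹ * x) • D.ep (e i) s' ∈ D.H τ s}) y ᵥ* Θ s' := by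
    intro s'
    refine prv2_vecMul_right y (hΘ s') fun i j g k hk => ?_
    simp only [Set.mem_ofPred_eq] at hk ⊢
    rw [← mul_assoc, mul_smul, hk]
  have h2 : prv2 (fun i => {x | (g₀⁻¹ * x) • D.ep (e i) (!s) ∈ D.H τ s}) y =
      prv2 (D.Ins e g₀ τ s) y := by
    refine prv2_congr y fun i x => ⟨fun h => ?_, fun h => h _⟩
    rcases D.tri τ (e i) (g₀⁻¹ * x) with ⟨h3, h4⟩ | h3
    · rw [Set.mem_ofPred_eq, h3, h4] at h
      exact absurd h (D.not_mem τ s)
    · exact fun s' => h3 s _ s' h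
  have h3 : prv2 (fun i => {x | (g₀⁻¹ * x) • D.ep (e i) s ∈ D.H τ s}) y =
      prv2 (D.On e g₀ τ) y + prv2 (D.Ins e g₀ τ s) y := by
    refine prv2_union y (fun i x => ⟨fun h => ?_, ?_⟩) ?_
    · exact (D.tri τ (e i) (g₀⁻¹ * x)).imp id fun h3 s' => h3 s _ s' h
    · rintro (⟨h3, h4⟩ | h)
      · rw [Set.mem_ofPred_eq, h3, h4]; exact D.hmem τ s
      · exact h s
    · rintro i x ⟨h3, h4⟩ h
      have := h (!s)
      rw [h3, h4] at this
      exact D.not_mem τ s this
  rw [vecMul_add, prv2_add, h1, h1, h2, h3, add_vecMul, add_assoc, ← vecMul_add] at h0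
  have := congrArg (· ᵥ* Γ) h0
  simp only [add_vecMul, vecMul_vecMul, hΓ, vecMul_one, zero_vecMul] at this
  exact eq_neg_of_add_eq_zero_left this

lemma lemB0 [Fintype J] [DecidableEq J] {z : J → V} {Θ : Bool → Matrix J J (MonoidAlgebra R G)}
    (hΘ : ∀ s, MSup2 (fun i j => {x | x • z j = D.ep (e i) s}) (Θ s))
    {Γ : Matrix J J (MonoidAlgebra R G)} (s : Bool) (hΓ : (Θ s + Θ (!s)) * Γ = 1)
    (y : J → MonoidAlgebra R G) (g₀ : G) (τ : D.E)
    (hy : VSup2 (fun j => {x | (g₀⁻¹ * x) • z j ∉ D.H τ s}) (y ᵥ* (Θ s + Θ (!s)))) :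
    prv2 (D.On e g₀ τ) y ᵥ* mpr2 (D.Same e) (Θ s * Γ) = 0 := by
  rw [← prv2_vecMul_left (S := D.On e g₀ τ) _ (vsup2_prv2 _ _), lemB hΘ s hΓ y g₀ τ hy, prv2_neg,
    (vsup2_prv2 _ _).prv2_eq_zero, neg_zero]
  · rintro i x h ⟨h3, h4⟩
    have := h (!s)
    rw [h3, h4] at this
    exact D.not_mem τ s this
  · rintro i j k ⟨h1, h2⟩ g
    simp only [On, Same, Set.mem_ofPred_eq, h1, ← mul_assoc]
    exact and_congr_right fun _ => (D.C τ).mul_mem_cancel_left h2

end TB

end Pool.Agent.MP_f7db47_al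

end
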