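import Pool.Agent.Mg.Ff7db47.G578105
import Pool.Agent.Mg.Ff7db47.Gea59e8

section

/-!
Flasque rings.
-/

set_option linter.unusedSectionVars false

namespace Pool.Agent.MP_f7db47_al.TW

open Matrix Function

universe u v w

/-- Data for an Eilenberg swindle. -/
structure Fl (Λ : Type w) [Ring Λ] where
  σ : Λ →+ Λ
  a₀ : Λ
  b₀ : Λ
  a₁ : Λ
  b₁ : Λ
  mul : ∀ x y, σ (x * y) = σ x * σ y
  h0 : a₀ * b₀ = 1
  h1 : a₁ * b₁ = σ 1
  h01 : a₀ * b₁ = 0
  eq : ∀ x, σ x = b₀ * x * a₀ + b₁ * σ x * a₁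

section Swindle

variable {Λ : Type w} [Ring Λ] {J : Type} [Fintype J] [DecidableEq J]

lemma TS_white (S : TS Λ) {A B : Matrix J J Λ} (h : A * B = 1) (h' : B * A = 1) :
    S.T (fromBlocks A 0 0 B) := by
  have := S.mul (S.mul (S.mul (S.mul (S.mul (S.upper A) (S.lower (-B))) (S.upper A))
    (S.upper (-1 : Matrix J J Λ))) (S.lower (1 : Matrix J J Λ))) (S.upper (-1 : Matrix J J Λ))
  simpa [fromBlocks_multiply, h, h'] using this

lemma TS_comm (S : TS Λ) (X Y : Matrix J J Λ) (h : S.T (1 + Y * X)) : S.T (1 + X * Y) := by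
  have := S.comm (-X) Y (by rwa [Matrix.mul_neg, sub_neg_eq_add])
  rwa [Matrix.neg_mul, sub_neg_eq_add] at this

/-- The Eilenberg swindle. -/
theorem Fl.T (F : Fl Λ) (S : TS Λ) {A : Matrix J J Λ} (hA : IsUnit A) : S.T A := by
  obtain ⟨⟨A, A', u1, u2⟩, rfl⟩ := hA
  change S.T A
  let s : Matrix J J Λ → Matrix J J Λ := fun M => M.map F.σ
  have s1 : ∀ M N, s (M * N) = s M * s N := fun M N => by
    ext i k
    simp only [s, map_apply, Matrix.mul_apply, map_sum, F.mul]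
  let c : Λ →+* Matrix J J Λ := scalar J
  have s2 : s 1 = c (F.σ 1) := by
    simp only [s, c, scalar_apply]
    rw [← diagonal_one, diagonal_map (map_zero _)]
  have s3 : ∀ M, s M = c F.b₀ * M * c F.a₀ + c F.b₁ * s M * c F.a₁ := fun M => by
    ext i j
    simp only [s, c, scalar_apply, Matrix.add_apply, mul_diagonal, diagonal_mul, map_apply]
    exact F.eq _
  have k0 : c F.a₀ * c F.b₀ = 1 := by rw [← map_mul, F.h0, map_one]
  have k1 : c F.a₁ * c F.b₁ = s 1 := by rw [← map_mul, F.h1, s2]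
  have k01 : c F.a₀ * c F.b₁ = 0 := by rw [← map_mul, F.h01, map_zero]
  have q1 : ∀ M, s 1 * s M = s M := fun M => by rw [← s1, one_mul]
  have q2 : ∀ M, s M * s 1 = s M := fun M => by rw [← s1, mul_one]
  have inv : ∀ M N, M * N = 1 → (1 + (s M - s 1)) * (1 + (s N - s 1)) = 1 := fun M N h => by
    simp only [mul_add, add_mul, mul_sub, sub_mul, one_mul, mul_one, q1, q2, ← s1, h]
    abel
  have t0 := TS_white S (inv A A' u1) (inv A' A u2)
  have t1 : S.T (fromBlocks (1 + c F.b₁ * ((s A - s 1) * c F.a₁)) 0 0 (1 + (s A' - s 1))) := by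
    have := TS_comm S (fromBlocks (c F.b₁) 0 0 1)
      (fromBlocks ((s A - s 1) * c F.a₁) 0 0 (s A' - s 1)) (by
        convert t0 using 1
        rw [fromBlocks_multiply, ← fromBlocks_one, fromBlocks_add]
        simp only [Matrix.mul_zero, Matrix.zero_mul, add_zero, zero_add, mul_one, mul_assoc, k1,
          sub_mul, q2, sub_zero])
    convert this using 1
    rw [fromBlocks_multiply, ← fromBlocks_one, fromBlocks_add]
    simp only [Matrix.mul_zero, Matrix.zero_mul, add_zero, zero_add, one_mul]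
  have e : fromBlocks (1 + (s A - s 1)) 0 0 (1 + (s A' - s 1)) =
      fromBlocks (1 + c F.b₀ * ((A - 1) * c F.a₀)) 0 0 1 *
        fromBlocks (1 + c F.b₁ * ((s A - s 1) * c F.a₁)) 0 0 (1 + (s A' - s 1)) := by
    rw [fromBlocks_multiply]
    simp only [Matrix.mul_zero, Matrix.zero_mul, add_zero, zero_add, one_mul]
    congr 1
    have : c F.b₀ * ((A - 1) * c F.a₀) * (c F.b₁ * ((s A - s 1) * c F.a₁)) = 0 := by
      rw [mul_assoc, mul_assoc, ← mul_assoc (c F.a₀), k01, zero_mul, mul_zero, mul_zero]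
    rw [add_mul, one_mul, mul_add, mul_one, this, add_zero]
    conv_lhs => rw [s3 A, s3 1]
    noncomm_ring
  rw [e] at t0
  have t2 := TS_comm S _ _ (S.of_stab (S.cancel_right t1 t0))
  rwa [mul_assoc, k0, mul_one, add_sub_cancel] at t2

end Swindle

section Skew

variable {D : Type v} [Ring D] {Δ : Type u} [Group Δ] [MulSemiringAction Δ D]

/-- The data are invariant under the action. -/
structure Fl.Inv (F : Fl D) (φ : D → D) : Prop where
  σ : ∀ x, F.σ (φ x) = φ (F.σ x)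
  a₀ : φ F.a₀ = F.a₀
  b₀ : φ F.b₀ = F.b₀
  a₁ : φ F.a₁ = F.a₁
  b₁ : φ F.b₁ = F.b₁

/-- The swindle on the twisted group ring. -/
noncomputable def Fl.skew (F : Fl D) (h : ∀ δ : Δ, F.Inv fun x => δ • x) :
    Fl (SkewMonoidAlgebra D Δ) where
  σ := SkewMonoidAlgebra.liftNC
    ((SkewMonoidAlgebra.singleAddHom (1 : Δ)).comp F.σ) fun δ => SkewMonoidAlgebra.single δ 1
  a₀ := SkewMonoidAlgebra.single 1 F.a₀
  b₀ := SkewMonoidAlgebra.single 1 F.b₀
  a₁ := SkewMonoidAlgebra.single 1 F.a₁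
  b₁ := SkewMonoidAlgebra.single 1 F.b₁
  mul x y := by
    induction x using Sk.induction_linear with
    | zero => simp
    | add x x' hx hx' => simp only [add_mul, map_add, hx, hx']
    | single g r =>
      induction y using Sk.induction_linear with
      | zero => simp
      | add y y' hy hy' => simp only [mul_add, map_add, hy, hy']
      | single k s =>
        simp [SkewMonoidAlgebra.single_mul_single, Sk.singleAddHom_apply, F.mul, (h g).σ]
  h0 := by rw [SkewMonoidAlgebra.single_mul_single, one_smul, F.h0, one_mul]; rfl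
  h1 := by
    rw [SkewMonoidAlgebra.one_def, SkewMonoidAlgebra.liftNC_single, AddMonoidHom.comp_apply,
      Sk.singleAddHom_apply, SkewMonoidAlgebra.single_mul_single,
      SkewMonoidAlgebra.single_mul_single, one_smul, one_smul, F.h1, mul_one (F.σ 1)]
  h01 := by simp [SkewMonoidAlgebra.single_mul_single, F.h01]
  eq x := by
    induction x using Sk.induction_linear with
    | zero => simp
    | add x x' hx hx' =>
      rw [map_add, mul_add, add_mul, mul_add, add_mul, add_add_add_comm, ← hx, ← hx']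
    | single g r =>
      simp only [SkewMonoidAlgebra.liftNC_single, AddMonoidHom.comp_apply, Sk.singleAddHom_apply,
        SkewMonoidAlgebra.single_mul_single, one_mul, mul_one, one_smul, (h g).a₀, (h g).a₁]
      rw [← SkewMonoidAlgebra.single_add, ← F.eq]

theorem Fl.qq (F : Fl D) (h : ∀ δ : Δ, F.Inv fun x => δ • x) : QQ D Δ := by
  intro P _ _ Γ _ _ f hf _
  rw [G1_iff]
  intro J _ _ A hA
  refine (F.skew (Δ := Γ) fun γ => ?_).T (stdTS D Γ) hA
  have : (fun x : D => γ • x) = fun x => (f γ).1 • x := funext (hf.eq γ)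
  rw [this]
  exact h _

end Skew

/-- Elementary matrices. -/
def elemSys (Λ : Type w) [Ring Λ] : GenSys Λ where
  gen ι _ _ M := ∃ i j : ι, i ≠ j ∧ ∃ c, M = 1 + single i j c
  elem _ _ _ i j h c := ⟨i, j, h, c, rfl⟩
  inv := by
    rintro ι _ _ _ ⟨i, j, hij, c, rfl⟩
    have key : ∀ c d : Λ, c + d = 0 →
        (1 + single i j c) * (1 + single i j d) = (1 : Matrix ι ι Λ) := by
      intro c d hcd
      simp only [mul_add, add_mul, one_mul, mul_one, single_mul_single_of_ne _ _ _ _ hij.symm,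
        add_zero]
      rw [add_assoc, ← single_add, hcd, single_zero, add_zero]
    exact ⟨_, ⟨i, j, hij, -c, rfl⟩, key _ _ (add_neg_cancel c), key _ _ (neg_add_cancel c)⟩
  sub := by
    rintro ι κ _ _ _ _ e _ ⟨i, j, hij, c, rfl⟩
    refine ⟨e.symm i, e.symm j, fun h => hij (e.symm.injective h), c, ?_⟩
    rw [submatrix_add, Pi.add_apply, Pi.add_apply, submatrix_one_equiv, submatrix_single_equiv]
  stab := by
    rintro ι κ _ _ _ _ _ ⟨i, j, hij, c, rfl⟩
    refine ⟨Sum.inl i, Sum.inl j, fun h => hij (Sum.inl_injective h), c, ?_⟩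
    ext1 a b
    rcases a with a | a <;> rcases b with b | b <;> simp [Matrix.one_apply, Matrix.single_apply]

lemma elem_map {Λ : Type*} {Λ' : Type*} [Ring Λ] [Ring Λ'] (φ : Λ →+* Λ') {J : Type} [Fintype J]
    [DecidableEq J] {A : Matrix J J Λ} (h : (elemSys Λ).T A) : (elemSys Λ').T (A.map φ) := by
  obtain ⟨ι, _, _, h⟩ := h
  refine ⟨ι, inferInstance, inferInstance, ?_⟩
  have key : ∀ B ∈ (elemSys Λ).HG (J ⊕ ι), B.map φ ∈ (elemSys Λ').HG (J ⊕ ι) := by
    intro B hB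
    induction hB using Submonoid.closure_induction with
    | mem x hx =>
      obtain ⟨i, j, hij, c, rfl⟩ := hx
      refine GenSys.gen_mem ⟨i, j, hij, φ c, ?_⟩
      rw [Matrix.map_add _ (map_add φ), Matrix.map_one _ (map_zero φ) (map_one φ), map_single]
    | one => rw [Matrix.map_one _ (map_zero φ) (map_one φ)]; exact one_mem _
    | mul x y _ _ hx hy => rw [Matrix.map_mul]; exact mul_mem hx hy
  have := key _ h
  rwa [fromBlocks_map, Matrix.map_zero _ (map_zero φ), Matrix.map_zero _ (map_zero φ),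
    Matrix.map_one _ (map_zero φ) (map_one φ)] at this

/-- If all cyclic subgroups allow a swindle, trivial matrices are stably elementary. -/
theorem elem_of_T {D : Type v} [Ring D] {G : Type u} [Group G] [MulSemiringAction G D]
    (h : ∀ g : G, ∃ F : Fl D, ∀ δ ∈ Subgroup.zpowers g, F.Inv fun x => δ • x)
    {J : Type} [Fintype J] [DecidableEq J] {A : Matrix J J (SkewMonoidAlgebra D G)} (hA : T A) :
    (elemSys _).T A := by
  obtain ⟨ι, _, _, hA⟩ := hA
  have sub : ∀ (g : G) (B : Matrix (J ⊕ ι) (J ⊕ ι) (SkewMonoidAlgebra D (Subgroup.zpowers g))),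
      IsUnit B → (elemSys _).T (B.map (mapR D (Subgroup.zpowers g).subtype)) := fun g B hB => by
    obtain ⟨F, hF⟩ := h g
    exact elem_map _ ((F.skew (Δ := Subgroup.zpowers g) fun δ => hF δ.1 δ.2).T
      (elemSys _).toTS hB)
  refine GenSys.T_of_stab (K := ι) ?_
  generalize fromBlocks A 0 0 (1 : Matrix ι ι _) = B at hA
  induction hA using Submonoid.closure_induction with
  | mem x hx =>
    cases hx with
    | elem i j hij c => exact GenSys.T_gen ⟨i, j, hij, c, rfl⟩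
    | base U V h1 h2 =>
      have := sub 1 _ (T_gen (Gen.base U V h1 h2)).isUnit
      convert this using 1
      ext1 i j
      simp
    | idem e he g =>
      have := sub g _ (T_gen (Gen.idem e he ⟨g, Subgroup.mem_zpowers g⟩)).isUnit
      convert this using 1
      ext1 i j
      simp [Matrix.one_apply, apply_ite]
  | one => exact GenSys.T_one
  | mul x y _ _ hx hy => exact GenSys.T_mul hx hy

end Pool.Agent.MP_f7db47_al.TW

end

section

/-!
The ring of controlled operators and its double.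
-/

set_option linter.unusedSectionVars false

namespace Pool.Agent.MP_f7db47_al.OB

open Function

universe v

variable {R : Type v} [Ring R] {Φ : ℕ → AddSubgroup R} [Flt Φ] {G : Type} [Group G] {V : Type}
  [MulAction G V]

variable (R G V) in
/-- All operators. -/
def FF : Type v := Op (MonoidAlgebra R G) (Ix V) (Ix V)

noncomputable instance : Ring (FF R G V) :=
  inferInstanceAs (Ring (Op (MonoidAlgebra R G) (Ix V) (Ix V)))

/-- The underlying operator. -/
def FF.op (a : FF R G V) : Op (MonoidAlgebra R G) (Ix V) (Ix V) := a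

/-- An operator as an element of the ring. -/
def FF.of (a : Op (MonoidAlgebra R G) (Ix V) (Ix V)) : FF R G V := a

lemma FF.of_op (a : Op (MonoidAlgebra R G) (Ix V) (Ix V)) : (FF.of a).op = a := rfl

lemma FF.ext {a b : FF R G V} (h : ∀ z, a.op z = b.op z) : a = b := LinearMap.ext h

lemma FF.ext' {a b : FF R G V}
    (h : ∀ j, a.op (Finsupp.single j 1) = b.op (Finsupp.single j 1)) : a = b := op_ext h

lemma op_mul (a b : FF R G V) : (a * b).op = a.op ∘ₗ b.op := rfl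

lemma op_add (a b : FF R G V) : (a + b).op = a.op + b.op := rfl

lemma op_sub (a b : FF R G V) : (a - b).op = a.op - b.op := rfl

lemma op_neg (a : FF R G V) : (-a).op = -a.op := rfl

lemma op_one : (1 : FF R G V).op = LinearMap.id := rfl

lemma op_zero : (0 : FF R G V).op = 0 := rfl

variable (R V) in
/-- The operator given by a group element. -/
noncomputable def ta : G →* FF R G V := tau R

lemma op_ta (g : G) : (ta R V g).op = tau R g := rfl

/-- Geometrically controlled operators. -/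
def CG0 (a : FF R G V) : Prop := ∃ E, Good E ∧ Sp E a.op

/-- Controlled operators. -/
def CG (Φ : ℕ → AddSubgroup R) (a : FF R G V) : Prop := CG0 a ∧ Bd Φ a.op

/-- Operators with small support. -/
def Sm (a : FF R G V) : Prop := ∃ S, Small S ∧ Sp (fun i _ j => i ∈ S ∧ j ∈ S) a.op

/-- Operators of degree `g`. -/
def Dg (g : G) (a : FF R G V) : Prop := Sp (fun _ x _ => x = g) a.op

variable {a b : FF R G V}

lemma cg0_tau (g : G) : CG0 (ta R V g) := ⟨_, good_smul g, sp_tau g⟩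

lemma cg_tau (g : G) : CG Φ (ta R V g) := ⟨cg0_tau g, bd_tau g⟩

lemma cg_one : CG Φ (1 : FF R G V) := map_one (ta R V (G := G)) ▸ cg_tau 1

lemma cg_zero : CG Φ (0 : FF R G V) := ⟨⟨_, good_smul 1, sp_zero _⟩, bd_zero⟩

lemma CG.add (h : CG Φ a) (h' : CG Φ b) : CG Φ (a + b) := by
  obtain ⟨⟨E, a1, a2⟩, a3⟩ := h
  obtain ⟨⟨E', b1, b2⟩, b3⟩ := h'
  exact ⟨⟨_, a1.or b1, (a2.mono fun _ _ _ => Or.inl).add (b2.mono fun _ _ _ => Or.inr)⟩, a3.add b3⟩

lemma CG.neg (h : CG Φ a) : CG Φ (-a) := ⟨h.1.imp fun _ c => ⟨c.1, c.2.neg⟩, h.2.neg⟩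

lemma CG.sub (h : CG Φ a) (h' : CG Φ b) : CG Φ (a - b) := sub_eq_add_neg a b ▸ h.add h'.neg

lemma CG.mul (h : CG Φ a) (h' : CG Φ b) : CG Φ (a * b) := by
  obtain ⟨⟨E, a1, a2⟩, a3⟩ := h
  obtain ⟨⟨E', b1, b2⟩, b3⟩ := h'
  exact ⟨⟨_, a1.comp b1, a2.comp b2⟩, a3.comp b3⟩

lemma sm_zero : Sm (0 : FF R G V) := ⟨∅, small_empty, sp_zero _⟩

lemma Sm.add (h : Sm a) (h' : Sm b) : Sm (a + b) := by
  obtain ⟨S, a1, a2⟩ := h
  obtain ⟨S', b1, b2⟩ := h'
  exact ⟨_, a1.union b1, (a2.mono fun _ _ _ c => ⟨Or.inl c.1, Or.inl c.2⟩).add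
    (b2.mono fun _ _ _ c => ⟨Or.inr c.1, Or.inr c.2⟩)⟩

lemma Sm.neg (h : Sm a) : Sm (-a) := h.imp fun _ c => ⟨c.1, c.2.neg⟩

lemma Sm.left (h : Sm b) (h' : CG0 a) : Sm (a * b) := by
  obtain ⟨S, a1, a2⟩ := h
  obtain ⟨E, b1, b2⟩ := h'
  refine ⟨_, a1.union (a1.img b1.l b1.r), (b2.comp a2).mono ?_⟩
  rintro i _ k ⟨j, g₁, g₂, c, d, rfl⟩
  exact ⟨Or.inr ⟨j, d.1, g₁, c⟩, Or.inl d.2⟩

lemma Sm.right (h : Sm a) (h' : CG0 b) : Sm (a * b) := by
  obtain ⟨S, a1, a2⟩ := h
  obtain ⟨E, b1, b2⟩ := h'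
  refine ⟨_, a1.union (a1.img b1.r b1.l), (a2.comp b2).mono ?_⟩
  rintro i _ k ⟨j, g₁, g₂, c, d, rfl⟩
  exact ⟨Or.inl c.1, Or.inr ⟨j, c.2, g₂, d⟩⟩

lemma Dg.mul {g h : G} (ha : Dg g a) (hb : Dg h b) : Dg (g * h) (a * b) :=
  (Sp.comp ha hb).mono (by rintro _ _ _ ⟨_, _, _, rfl, rfl, rfl⟩; rfl)

lemma dg_tau (g : G) : Dg g (ta R V g) := (sp_tau g).mono fun _ _ _ c => c.1

lemma dg_one : Dg 1 (1 : FF R G V) := sp_one.mono fun _ _ _ c => c.1

/-- Controlled operators over `R`. -/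
def MM (Φ : ℕ → AddSubgroup R) (a : FF R G V) : Prop := CG Φ a ∧ Dg 1 a

lemma mm_of {E : Ix V → G → Ix V → Prop} (h : Good E) (h1 : ∀ i g j, E i g j → g = 1)
    (ha : Sp E a.op) (hb : Bd Φ a.op) : MM Φ a := ⟨⟨⟨E, h, ha⟩, hb⟩, ha.mono h1⟩

lemma MM.mul (h : MM Φ a) (h' : MM Φ b) : MM Φ (a * b) :=
  ⟨h.1.mul h'.1, one_mul (1 : G) ▸ h.2.mul h'.2⟩

lemma rg1 {A : Type*} [Ring A] (a b c d : A) : b * d - a * c = (b - a) * d + a * (d - c) := by
  noncomm_ring

lemma rg2 {A : Type*} [Ring A] (a b c d : A) : c * b * d - c * a * d = c * (b - a) * d := by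
  noncomm_ring

variable (Φ G V) in
/-- The double of the ring of controlled operators along the ideal of small operators. -/
def DD : Subring (FF R G V × FF R G V) where
  carrier := {x | MM Φ x.1 ∧ MM Φ x.2 ∧ Sm (x.2 - x.1)}
  one_mem' := ⟨⟨cg_one, dg_one⟩, ⟨cg_one, dg_one⟩, (sub_self (1 : FF R G V)).symm ▸ sm_zero⟩
  zero_mem' := ⟨⟨cg_zero, sp_zero _⟩, ⟨cg_zero, sp_zero _⟩,
    (sub_self (0 : FF R G V)).symm ▸ sm_zero⟩
  add_mem' {x y} h h' := ⟨⟨h.1.1.add h'.1.1, Sp.add h.1.2 h'.1.2⟩,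
    ⟨h.2.1.1.add h'.2.1.1, Sp.add h.2.1.2 h'.2.1.2⟩, by
      convert h.2.2.add h'.2.2 using 1
      exact add_sub_add_comm x.2 y.2 x.1 y.1⟩
  neg_mem' {x} h := ⟨⟨h.1.1.neg, Sp.neg h.1.2⟩, ⟨h.2.1.1.neg, Sp.neg h.2.1.2⟩, by
    convert h.2.2.neg using 1
    exact (neg_sub' x.2 x.1).symm⟩
  mul_mem' {x y} h h' := ⟨h.1.mul h'.1, h.2.1.mul h'.2.1, by
    convert (h.2.2.right h'.2.1.1.1).add (h'.2.2.left h.1.1.1) using 1
    exact rg1 x.1 x.2 y.1 y.2⟩

/-- A diagonal element. -/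
def dg (a : FF R G V) (h : MM Φ a) : DD Φ G V := ⟨(a, a), h, h, (sub_self a).symm ▸ sm_zero⟩

/-- Conjugation. -/
noncomputable def cj (g : G) (a : FF R G V) : FF R G V := ta R V g * a * ta R V g⁻¹

lemma tau_inv (g : G) : ta R V g⁻¹ * ta R V g = 1 := by
  rw [← map_mul, inv_mul_cancel, map_one]

lemma cj_tau (g : G) (a : FF R G V) : cj g a * ta R V g = ta R V g * a := by
  rw [cj, mul_assoc, tau_inv, mul_one]

lemma cj_one (a : FF R G V) : cj 1 a = a := by rw [cj, inv_one, map_one, one_mul, mul_one]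

lemma cj_cj (g h : G) (a : FF R G V) : cj (g * h) a = cj g (cj h a) := by
  simp only [cj, mul_inv_rev, map_mul, mul_assoc]

lemma cj_mul (g : G) (a b : FF R G V) : cj g (a * b) = cj g a * cj g b := by
  rw [cj, cj, cj, mul_assoc _ (ta R V g⁻¹), ← mul_assoc (ta R V g⁻¹), ← mul_assoc (ta R V g⁻¹),
    tau_inv, one_mul]
  simp only [mul_assoc]

lemma cj_add (g : G) (a b : FF R G V) : cj g (a + b) = cj g a + cj g b := by
  rw [cj, mul_add, add_mul]
  rfl

lemma cj_eq {g : G} (h : ta R V g * a = a * ta R V g) : cj g a = a := by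
  rw [cj, h, mul_assoc, ← map_mul, mul_inv_cancel, map_one, mul_one]

lemma MM.cj (h : MM Φ a) (g : G) : MM Φ (cj g a) :=
  ⟨((cg_tau g).mul h.1).mul (cg_tau _), by
    have := ((dg_tau g).mul h.2).mul (dg_tau g⁻¹)
    rwa [mul_one, mul_inv_cancel] at this⟩

noncomputable instance : MulSemiringAction G (DD Φ G V) where
  smul g x := ⟨(cj g x.1.1, cj g x.1.2), x.2.1.cj g, x.2.2.1.cj g, by
    convert (x.2.2.2.left (cg0_tau g)).right (cg0_tau g⁻¹) using 1
    exact rg2 x.1.1 x.1.2 (ta R V g) (ta R V g⁻¹)⟩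
  one_smul _ := Subtype.ext (Prod.ext (cj_one _) (cj_one _))
  mul_smul _ _ _ := Subtype.ext (Prod.ext (cj_cj _ _ _) (cj_cj _ _ _))
  smul_zero _ := Subtype.ext (Prod.ext (cj_eq (by simp)) (cj_eq (by simp)))
  smul_add _ _ _ := Subtype.ext (Prod.ext (cj_add _ _ _) (cj_add _ _ _))
  smul_one _ := Subtype.ext (Prod.ext (cj_eq (by simp)) (cj_eq (by simp)))
  smul_mul _ _ _ := Subtype.ext (Prod.ext (cj_mul _ _ _) (cj_mul _ _ _))

lemma mm_push {φ : Ix V → Ix V} (hφ : Injective φ) (h1 : ∀ i, (φ i).p = i.p)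
    (h2 : ∀ i, (φ i).t = i.t) : MM Φ (.of (push (MonoidAlgebra R G) φ)) :=
  mm_of (good_fib hφ h1 h2) (fun _ _ _ c => c.1) (sp_push φ) (bd_push φ)

lemma mm_pull {φ : Ix V → Ix V} (hφ : Injective φ) (h1 : ∀ i, (φ i).p = i.p)
    (h2 : ∀ i, (φ i).t = i.t) : MM Φ (.of (pull (MonoidAlgebra R G) hφ)) :=
  mm_of (good_fib hφ h1 h2).swap (fun _ _ _ c => inv_eq_one.1 c.1)
    ((sp_pull hφ).mono fun _ _ _ c => ⟨inv_eq_one.2 c.1, c.2⟩) (bd_pull hφ)

instance : TW.NR (DD Φ G V) := by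
  let φ : ℕ → Ix V → Ix V := fun s i => ⟨i.p, i.t, 2 * i.m + s⟩
  have hφ : ∀ s, Injective (φ s) := fun s i j h =>
    Ix.ext (congrArg Ix.p h :) (congrArg Ix.t h :) (by
      have : 2 * i.m + s = 2 * j.m + s := congrArg Ix.m h
      omega)
  have hne : ∀ i, φ 1 i ∉ Set.range (φ 0) := by
    rintro i ⟨j, h⟩
    have : 2 * j.m + 0 = 2 * i.m + 1 := congrArg Ix.m h
    omega
  have hne' : ∀ i, φ 0 i ∉ Set.range (φ 1) := fun i ⟨j, h⟩ => hne j ⟨i, h.symm⟩
  let b : ℕ → DD Φ G V := fun s => dg _ (mm_push (hφ s) (fun _ => rfl) fun _ => rfl)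
  let a : ℕ → DD Φ G V := fun s => dg _ (mm_pull (hφ s) (fun _ => rfl) fun _ => rfl)
  have e1 : (b 0).1.1 * (a 0).1.1 + (b 1).1.1 * (a 1).1.1 = 1 :=
    FF.ext' fun i => by
      change push (MonoidAlgebra R G) (φ 0) (pull _ (hφ 0) _) + push _ (φ 1) (pull _ (hφ 1) _) =
        Finsupp.single i 1
      rcases Nat.even_or_odd' i.m with ⟨k, h | h⟩
      · rw [show i = φ 0 ⟨i.p, i.t, k⟩ from Ix.ext rfl rfl h, pull_single, push_single,
          pull_single' _ (hne' _), map_zero, add_zero]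
      · rw [show i = φ 1 ⟨i.p, i.t, k⟩ from Ix.ext rfl rfl h, pull_single, push_single,
          pull_single' _ (hne _), map_zero, zero_add]
  have e2 : ∀ s, (a s).1.1 * (b s).1.1 = 1 := fun s => FF.ext (pull_push (hφ s))
  have e3 : (a 0).1.1 * (b 1).1.1 = 0 := FF.ext' fun i => by
    change pull (MonoidAlgebra R G) (hφ 0) (push _ (φ 1) _) = 0
    rw [push_single, pull_single' _ (hne _)]
  have e4 : (a 1).1.1 * (b 0).1.1 = 0 := FF.ext' fun i => by
    change pull (MonoidAlgebra R G) (hφ 1) (push _ (φ 0) _) = 0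
    rw [push_single, pull_single' _ (hne' _)]
  refine ⟨⟨fun _ => Sum.elim (fun _ => b 0) fun _ => b 1,
    Sum.elim (fun _ _ => a 0) fun _ _ => a 1, ?_, ?_⟩⟩
  · ext1 i j
    rw [Matrix.mul_apply, Fintype.sum_sum_type, Fintype.sum_unique, Fintype.sum_unique,
      Matrix.one_apply_eq]
    exact Subtype.ext (Prod.ext e1 e1)
  · ext1 i j
    rw [Matrix.mul_apply, Fintype.sum_unique]
    rcases i with i | i <;> rcases j with j | j
    · exact Subtype.ext (Prod.ext (e2 0) (e2 0))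
    · exact Subtype.ext (Prod.ext e3 e3)
    · exact Subtype.ext (Prod.ext e4 e4)
    · exact Subtype.ext (Prod.ext (e2 1) (e2 1))

section Swindle

variable (v : V)

/-- The endomorphism of the swindle. -/
noncomputable def sg (a : FF R G V) : FF R G V :=
  .of (push _ (jx v) ∘ₗ amp a.op ∘ₗ pull _ (jx_inj v))

lemma Sp.sg {E : Ix V → G → Ix V → Prop} (h : Sp E a.op) :
    Sp (fun i' g j' => ∃ k i j, i' = jx v (k, i) ∧ j' = jx v (k, j) ∧ E i g j) (sg v a).op := by
  refine ((sp_push _).comp (h.amp.comp (sp_pull _))).mono ?_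
  rintro _ _ _ ⟨⟨k, i⟩, _, _, ⟨rfl, rfl⟩, ⟨⟨_, j⟩, g, _, ⟨rfl, e⟩, ⟨rfl, rfl⟩, rfl⟩, rfl⟩
  exact ⟨k, i, j, rfl, rfl, by rwa [one_mul, mul_one]⟩

lemma MM.sg (h : MM Φ a) : MM Φ (sg v a) := by
  obtain ⟨⟨⟨E, a1, a2⟩, a4⟩, a3⟩ := h
  refine mm_of (a1.amp v) (fun _ _ _ c => c.1) (((a2.and a3).sg v).mono ?_)
    ((bd_push _).comp (a4.amp.comp (bd_pull _)))
  rintro _ _ _ ⟨k, i, j, rfl, rfl, e, rfl⟩
  exact ⟨rfl, k, i, j, rfl, rfl, e⟩

lemma Sm.sg (h : Sm a) : Sm (sg v a) := by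
  obtain ⟨S, a1, a2⟩ := h
  refine ⟨_, a1.amp v, (a2.sg v).mono ?_⟩
  rintro _ _ _ ⟨k, i, j, rfl, rfl, e⟩
  exact ⟨⟨k, i, e.1, rfl⟩, k, j, e.2, rfl⟩

lemma sg_add (a b : FF R G V) : sg v (a + b) = sg v a + sg v b := FF.ext fun z => by
  simp only [sg, FF.of_op, op_add, amp_add, LinearMap.comp_apply, LinearMap.add_apply, map_add]

lemma amp_comp {Λ : Type v} [Ring Λ] {X : Type} (a b : Op Λ X X) (z : ℕ × X →₀ Λ) :
    amp (a ∘ₗ b) z = amp a (amp b z) := amp_mul a b z

lemma amp_id {Λ : Type v} [Ring Λ] {X : Type} (z : ℕ × X →₀ Λ) :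
    amp (LinearMap.id : Op Λ X X) z = z := amp_one z

lemma sg_mul (a b : FF R G V) : sg v (a * b) = sg v a * sg v b := FF.ext fun z => by
  simp only [sg, FF.of_op, op_mul, LinearMap.comp_apply, pull_push, amp_comp]

variable (R G) in
/-- The first isometry. -/
noncomputable def b0 : FF R G V := .of (push _ (jx v) ∘ₗ push _ (Prod.mk 0))

variable (R G) in
/-- Its adjoint. -/
noncomputable def a0 : FF R G V := .of (pull _ (mk_inj 0) ∘ₗ pull _ (jx_inj v))

variable (R G) in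
/-- The second isometry. -/
noncomputable def b1 : FF R G V := .of (push _ (jx v) ∘ₗ push _ (sh _) ∘ₗ pull _ (jx_inj v))

variable (R G) in
/-- Its adjoint. -/
noncomputable def a1 : FF R G V := .of (push _ (jx v) ∘ₗ pull _ sh_inj ∘ₗ pull _ (jx_inj v))

lemma good0 : Good fun (i : Ix V) (g : G) j => g = 1 ∧ i = jx v (0, j) :=
  good_fib (φ := fun j => jx v (0, j)) ((jx_inj v).comp (mk_inj 0)) (fun _ => cx_zero _ _ _)
    fun _ => rfl

lemma mm_b0 : MM Φ (b0 R G v) := by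
  refine mm_of (good0 v) (fun _ _ _ c => c.1) (((sp_push _).comp (sp_push _)).mono ?_)
    ((bd_push _).comp (bd_push _))
  rintro _ _ _ ⟨_, _, _, ⟨rfl, rfl⟩, ⟨rfl, rfl⟩, rfl⟩
  exact ⟨mul_one _, rfl⟩

lemma mm_a0 : MM Φ (a0 R G v) := by
  refine mm_of (good0 v).swap (fun _ _ _ c => inv_eq_one.1 c.1)
    (((sp_pull _).comp (sp_pull _)).mono ?_) ((bd_pull _).comp (bd_pull _))
  rintro _ _ _ ⟨_, _, _, ⟨rfl, rfl⟩, ⟨rfl, rfl⟩, rfl⟩
  exact ⟨by simp, rfl⟩

lemma mm_b1 : MM Φ (b1 R G v) := by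
  refine mm_of (good_shift v) (fun _ _ _ c => c.1)
    (((sp_push _).comp ((sp_push _).comp (sp_pull _))).mono ?_)
    ((bd_push _).comp ((bd_push _).comp (bd_pull _)))
  rintro _ _ _ ⟨_, _, _, ⟨rfl, rfl⟩, ⟨⟨k, i⟩, _, _, ⟨rfl, rfl⟩, ⟨rfl, rfl⟩, rfl⟩, rfl⟩
  exact ⟨by simp, k, i, rfl, rfl⟩

lemma mm_a1 : MM Φ (a1 R G v) := by
  refine mm_of (good_shift v).swap (fun _ _ _ c => inv_eq_one.1 c.1)
    (((sp_push _).comp ((sp_pull _).comp (sp_pull _))).mono ?_)
    ((bd_push _).comp ((bd_pull _).comp (bd_pull _)))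
  rintro _ _ _ ⟨⟨k, i⟩, _, _, ⟨rfl, rfl⟩, ⟨_, _, _, ⟨rfl, rfl⟩, ⟨rfl, rfl⟩, rfl⟩, rfl⟩
  exact ⟨by simp, k, i, rfl, rfl⟩

lemma fl_h0 : a0 R G v * b0 R G v = 1 := FF.ext fun z => by
  simp only [a0, b0, FF.of_op, op_mul, op_one, LinearMap.comp_apply, pull_push, LinearMap.id_apply]

lemma fl_h1 : a1 R G v * b1 R G v = sg v 1 := FF.ext fun z => by
  simp only [a1, b1, sg, FF.of_op, op_mul, op_one, LinearMap.comp_apply, pull_push, amp_id]

lemma fl_h01 : a0 R G v * b1 R G v = 0 := FF.ext fun z => by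
  simp only [a0, b1, FF.of_op, op_mul, op_zero, LinearMap.comp_apply, pull_push, pull0_sh,
    LinearMap.zero_apply]

lemma fl_eq (a : FF R G V) :
    sg v a = b0 R G v * a * a0 R G v + b1 R G v * sg v a * a1 R G v := FF.ext fun z => by
  simp only [a0, b0, a1, b1, sg, FF.of_op, op_mul, op_add, LinearMap.comp_apply, pull_push,
    LinearMap.add_apply, ← map_add, ← amp_eq]

lemma Sm.sg_sub (h : Sm (b - a)) : Sm (OB.sg v b - OB.sg v a) := by
  have e := sg_add v (b - a) a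
  rw [sub_add_cancel] at e
  rw [e, add_sub_cancel_right]
  exact h.sg v

/-- The endomorphism of the double. -/
noncomputable def sgD (x : DD Φ G V) : DD Φ G V :=
  ⟨(sg v x.1.1, sg v x.1.2), x.2.1.sg v, x.2.2.1.sg v, x.2.2.2.sg_sub v⟩

lemma sgD_add (x y : DD Φ G V) : sgD v (x + y) = sgD v x + sgD v y :=
  Subtype.ext (Prod.ext (sg_add v x.1.1 y.1.1) (sg_add v x.1.2 y.1.2))

lemma sgD_mul (x y : DD Φ G V) : sgD v (x * y) = sgD v x * sgD v y :=
  Subtype.ext (Prod.ext (sg_mul v x.1.1 y.1.1) (sg_mul v x.1.2 y.1.2))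

variable (Φ G) in
/-- The swindle on the double. -/
noncomputable def fl : TW.Fl (DD Φ G V) where
  σ := AddMonoidHom.mk' (sgD v) (sgD_add v)
  a₀ := dg _ (mm_a0 v)
  b₀ := dg _ (mm_b0 v)
  a₁ := dg _ (mm_a1 v)
  b₁ := dg _ (mm_b1 v)
  mul := sgD_mul v
  h0 := Subtype.ext (Prod.ext (fl_h0 v) (fl_h0 v))
  h1 := Subtype.ext (Prod.ext (fl_h1 v) (fl_h1 v))
  h01 := Subtype.ext (Prod.ext (fl_h01 v) (fl_h01 v))
  eq x := Subtype.ext (Prod.ext (fl_eq v x.1.1) (fl_eq v x.1.2))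

variable {v} {h : G}

lemma tau_push (hv : h • v = v) (z : ℕ × Ix V →₀ MonoidAlgebra R G) :
    tau R h (push _ (jx v) z) = push _ (jx v) (amp (tau R h) z) :=
  LinearMap.congr_fun (f := tau R h ∘ₗ push _ (jx v)) (g := push _ (jx v) ∘ₗ amp (tau R h))
    (op_ext fun ⟨k, i⟩ => by
      simp only [LinearMap.comp_apply, push_single, amp_single, tau_single, jx_smul hv]) z

lemma pull_tau (hv : h • v = v) (z : Ix V →₀ MonoidAlgebra R G) :
    pull _ (jx_inj v) (tau R h z) = amp (tau R h) (pull _ (jx_inj v) z) :=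
  LinearMap.congr_fun (f := pull _ (jx_inj v) ∘ₗ tau R h)
    (g := amp (tau R h) ∘ₗ pull _ (jx_inj v)) (op_ext fun i => by
      simp only [LinearMap.comp_apply, tau_single]
      by_cases c : i ∈ Set.range (jx v)
      · obtain ⟨⟨k, j⟩, rfl⟩ := c
        rw [jx_smul hv, pull_single, pull_single, amp_single, tau_single, push_single]
      · rw [pull_single' _ c, map_zero, pull_single']
        rintro ⟨⟨k, j⟩, e⟩
        exact c ⟨(k, h⁻¹ • j), by
          rw [← jx_smul (inv_smul_eq_iff.2 hv.symm), e, inv_smul_smul]⟩) z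

lemma fl_inv (hv : h • v = v) : (fl Φ G v).Inv fun x => h • x := by
  have hv' : h⁻¹ • v = v := inv_smul_eq_iff.2 hv.symm
  have e : ∀ a : FF R G V, sg v (cj h a) = cj h (sg v a) := fun a => FF.ext fun z => by
    simp only [sg, cj, FF.of_op, op_mul, op_ta, LinearMap.comp_apply, amp_comp, tau_push hv,
      pull_tau hv']
  have e1 : cj h (a0 R G v) = a0 R G v := cj_eq (FF.ext fun z => by
    simp only [a0, FF.of_op, op_mul, op_ta, LinearMap.comp_apply, pull_tau hv, amp_zero'])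
  have e2 : cj h (b0 R G v) = b0 R G v := cj_eq (FF.ext fun z => by
    simp only [b0, FF.of_op, op_mul, op_ta, LinearMap.comp_apply, tau_push hv, amp_push])
  have e3 : cj h (a1 R G v) = a1 R G v := cj_eq (FF.ext fun z => by
    simp only [a1, FF.of_op, op_mul, op_ta, LinearMap.comp_apply, tau_push hv, pull_tau hv,
      amp_sh'])
  have e4 : cj h (b1 R G v) = b1 R G v := cj_eq (FF.ext fun z => by
    simp only [b1, FF.of_op, op_mul, op_ta, LinearMap.comp_apply, tau_push hv, pull_tau hv,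
      amp_sh])
  exact ⟨fun x => Subtype.ext (Prod.ext (e x.1.1) (e x.1.2)), Subtype.ext (Prod.ext e1 e1),
    Subtype.ext (Prod.ext e2 e2), Subtype.ext (Prod.ext e3 e3), Subtype.ext (Prod.ext e4 e4)⟩

/-- Subgroups with a fixed vertex. -/
theorem qq_fix (H : Subgroup G) (hv : ∀ h ∈ H, h • v = v) : TW.QQ (DD Φ G V) H :=
  (fl Φ G v).qq fun δ => fl_inv (hv δ.1 δ.2)

end Swindle

end Pool.Agent.MP_f7db47_al.OB

end

section

/-!
Relative elementary matrices.
-/

namespace Pool.Agent.MP_f7db47_al.TW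

open Matrix

universe v w

variable {F : Type v} [Ring F] {L : Type w} [Ring L]

/-- Block elementary matrices with entries in `S`. -/
def BE (S : AddSubgroup F) (K : Type) [Fintype K] [DecidableEq K] : Set (Matrix K K F) :=
  {N | ∃ (n : Matrix K K F) (U : Set K), (∀ i j, n i j ∈ S) ∧
    (∀ i j, n i j ≠ 0 → i ∈ U ∧ j ∉ U) ∧ N = 1 + n}

variable {J : Type} [Fintype J] [DecidableEq J]

lemma be_upper {S : AddSubgroup F} {X : Matrix J Unit F} (h : ∀ i j, X i j ∈ S) :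
    fromBlocks 1 X 0 1 ∈ Submonoid.closure (BE S (J ⊕ Unit)) := by
  refine Submonoid.subset_closure ⟨fromBlocks 0 X 0 0, Set.range Sum.inl, ?_, ?_, ?_⟩
  · rintro (i | i) (j | j)
    exacts [S.zero_mem, h i j, S.zero_mem, S.zero_mem]
  · rintro (i | i) (j | j) c
    exacts [(c rfl).elim, ⟨⟨i, rfl⟩, fun ⟨_, d⟩ => Sum.inl_ne_inr d⟩, (c rfl).elim, (c rfl).elim]
  · rw [← fromBlocks_one, fromBlocks_add]
    simp only [add_zero, zero_add]

lemma be_lower {S : AddSubgroup F} {Y : Matrix Unit J F} (h : ∀ i j, Y i j ∈ S) :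
    fromBlocks 1 0 Y 1 ∈ Submonoid.closure (BE S (J ⊕ Unit)) := by
  refine Submonoid.subset_closure ⟨fromBlocks 0 0 Y 0, Set.range Sum.inr, ?_, ?_, ?_⟩
  · rintro (i | i) (j | j)
    exacts [S.zero_mem, S.zero_mem, h i j, S.zero_mem]
  · rintro (i | i) (j | j) c
    exacts [(c rfl).elim, (c rfl).elim, ⟨⟨i, rfl⟩, fun ⟨_, d⟩ => Sum.inr_ne_inl d⟩, (c rfl).elim]
  · rw [← fromBlocks_one, fromBlocks_add]
    simp only [add_zero, zero_add]

lemma elem_mul {i j : J} (hij : i ≠ j) (c d : F) : (1 + single i j c) * (1 + single i j d) =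
    (1 + single i j (c + d) : Matrix J J F) := by
  simp only [mul_add, add_mul, one_mul, mul_one, single_mul_single_of_ne _ _ _ _ hij.symm,
    add_zero, single_add]
  abel

theorem rel_elem (ψ₁ ψ₂ : L →+* F) (S : AddSubgroup F)
    (hl : ∀ c, ∀ s ∈ S, ψ₁ c * s ∈ S) (hr : ∀ c, ∀ s ∈ S, s * ψ₁ c ∈ S)
    (hd : ∀ c, ψ₂ c - ψ₁ c ∈ S) (hq : ∀ s ∈ S, ∃ q ∈ S, s * q = s) {B : Matrix J J L}
    (hB : B ∈ (elemSys L).HG J) (h1 : B.map ψ₁ = 1) :
    fromBlocks (B.map ψ₂) 0 0 (1 : Matrix Unit Unit F) ∈ Submonoid.closure (BE S (J ⊕ Unit)) := by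
  let Rel : Submonoid (Matrix J J F) := Submonoid.closure {M | ∃ (X : Matrix J Unit F)
    (Y : Matrix Unit J F), (∀ i j, X i j ∈ S) ∧ (∀ i j, Y i j ∈ S) ∧ Y * X = 0 ∧ M = 1 + X * Y}
  have m1 : ∀ (ψ : L →+* F) (B B' : Matrix J J L), B * B' = 1 → B.map ψ * B'.map ψ = 1 :=
    fun ψ B B' h => by rw [← Matrix.map_mul, h, Matrix.map_one _ (map_zero ψ) (map_one ψ)]
  have conj : ∀ B B' : Matrix J J L, B * B' = 1 → B' * B = 1 → ∀ M ∈ Rel,
      B.map ψ₁ * M * B'.map ψ₁ ∈ Rel := fun B B' c c' M hM => by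
    induction hM using Submonoid.closure_induction with
    | mem x hx =>
      obtain ⟨X, Y, a1, a2, a3, rfl⟩ := hx
      refine Submonoid.subset_closure ⟨B.map ψ₁ * X, Y * B'.map ψ₁,
        fun i j => S.sum_mem fun k _ => hl _ _ (a1 k j),
        fun i j => S.sum_mem fun k _ => hr _ _ (a2 i k), ?_, ?_⟩
      · rw [Matrix.mul_assoc, ← Matrix.mul_assoc (B'.map ψ₁), m1 _ _ _ c', Matrix.one_mul, a3]
      · rw [mul_add, add_mul, mul_one, m1 _ _ _ c]
        simp only [Matrix.mul_assoc]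
    | one => rw [mul_one, m1 _ _ _ c]; exact one_mem _
    | mul x y _ _ hx hy =>
      convert mul_mem hx hy using 1
      rw [mul_assoc _ (B'.map ψ₁), ← mul_assoc (B'.map ψ₁), ← mul_assoc (B'.map ψ₁), m1 _ _ _ c',
        one_mul]
      simp only [mul_assoc]
  have key : ∀ B ∈ (elemSys L).HG J, ∃ B', B * B' = 1 ∧ B' * B = 1 ∧
      B.map ψ₂ * B'.map ψ₁ ∈ Rel := fun B hB => by
    induction hB using Submonoid.closure_induction with
    | mem x hx =>
      obtain ⟨i, j, hij, c, rfl⟩ := hx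
      have e' : ∀ (ψ : L →+* F) (c : L), (1 + single i j c : Matrix J J L).map ψ =
          1 + single i j (ψ c) := fun ψ c => by
        rw [Matrix.map_add _ (map_add ψ), Matrix.map_one _ (map_zero ψ) (map_one ψ), map_single]
      obtain ⟨q, q1, q2⟩ := hq _ (hd c)
      refine ⟨1 + single i j (-c), by rw [elem_mul hij, add_neg_cancel, single_zero, add_zero],
        by rw [elem_mul hij, neg_add_cancel, single_zero, add_zero], Submonoid.subset_closure
          ⟨single i () (ψ₂ c - ψ₁ c), single () j q, fun a b => ?_, fun a b => ?_,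
            single_mul_single_of_ne _ _ _ _ hij.symm _, ?_⟩⟩
      · rw [single_apply]
        split_ifs
        exacts [hd c, S.zero_mem]
      · rw [single_apply]
        split_ifs
        exacts [q1, S.zero_mem]
      · rw [e', e', elem_mul hij, single_mul_single_same, q2, map_neg, sub_eq_add_neg]
    | one =>
      refine ⟨1, mul_one _, mul_one _, ?_⟩
      rw [Matrix.map_one _ (map_zero _) (map_one _), Matrix.map_one _ (map_zero _) (map_one _),
        mul_one]
      exact one_mem _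
    | mul x y _ _ hx hy =>
      obtain ⟨x', a1, a2, a3⟩ := hx
      obtain ⟨y', b1, b2, b3⟩ := hy
      refine ⟨y' * x', by rw [mul_assoc, ← mul_assoc y, b1, one_mul, a1],
        by rw [mul_assoc, ← mul_assoc x', a2, one_mul, b2], ?_⟩
      convert mul_mem a3 (conj x x' a1 a2 _ b3) using 1
      rw [Matrix.map_mul, Matrix.map_mul, mul_assoc _ (x'.map ψ₁), ← mul_assoc (x'.map ψ₁),
        ← mul_assoc (x'.map ψ₁), m1 _ _ _ a2, one_mul]
      simp only [mul_assoc]
  obtain ⟨B', c1, -, c3⟩ := key B hB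
  have c4 := m1 ψ₁ _ _ c1
  rw [h1, one_mul] at c4
  rw [c4, mul_one] at c3
  generalize B.map ψ₂ = M at c3
  induction c3 using Submonoid.closure_induction with
  | mem x hx =>
    obtain ⟨X, Y, a1, a2, a3, rfl⟩ := hx
    have := mul_mem (mul_mem (mul_mem (be_upper a1) (be_lower a2))
      (be_upper (X := -X) fun i j => S.neg_mem (a1 i j)))
      (be_lower (Y := -Y) fun i j => S.neg_mem (a2 i j))
    convert this using 1
    simp [fromBlocks_multiply, Matrix.add_mul, Matrix.mul_assoc, a3]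
  | one => rw [fromBlocks_one]; exact one_mem _
  | mul x y _ _ hx hy =>
    convert mul_mem hx hy using 1
    simp [fromBlocks_multiply]

end Pool.Agent.MP_f7db47_al.TW

end

section

/-!
From the twisted group ring of the double to the obstruction category.
-/

set_option linter.unusedSectionVars false

namespace Pool.Agent.MP_f7db47_al.OB

open Function

universe v

variable {R : Type v} [Ring R] {Φ : ℕ → AddSubgroup R} [Flt Φ] {G : Type} [Group G] {V : Type}
  [MulAction G V]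

variable (Φ G V) in
/-- The ideal of small controlled operators. -/
def SS : AddSubgroup (FF R G V) where
  carrier := {a | CG Φ a ∧ Sm a}
  add_mem' h h' := ⟨h.1.add h'.1, h.2.add h'.2⟩
  zero_mem' := ⟨cg_zero, sm_zero⟩
  neg_mem' h := ⟨h.1.neg, h.2.neg⟩

variable (Φ G V) in
/-- The two projections. -/
noncomputable def pj : Bool → (DD Φ G V →+* FF R G V)
  | false => (RingHom.fst _ _).comp (DD Φ G V).subtype
  | true => (RingHom.snd _ _).comp (DD Φ G V).subtype

lemma pj_smul (s : Bool) (g : G) (x : DD Φ G V) : pj Φ G V s (g • x) = cj g (pj Φ G V s x) := by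
  cases s <;> rfl

lemma mm_pj (s : Bool) (x : DD Φ G V) : MM Φ (pj Φ G V s x) := by
  cases s
  exacts [x.2.1, x.2.2.1]

variable (Φ G V) in
/-- The two evaluations. -/
noncomputable def ps (s : Bool) : SkewMonoidAlgebra (DD Φ G V) G →+* FF R G V :=
  SkewMonoidAlgebra.liftNCRingHom (pj Φ G V s) (ta R V) (by
    intro x y
    rw [pj_smul, cj_tau])

lemma ps_single (s : Bool) (g : G) (d : DD Φ G V) :
    ps Φ G V s (SkewMonoidAlgebra.single g d) = pj Φ G V s d * ta R V g :=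
  SkewMonoidAlgebra.liftNC_single _ _ _ _

lemma cg_ps (s : Bool) (c : SkewMonoidAlgebra (DD Φ G V) G) : CG Φ (ps Φ G V s c) := by
  induction c using TW.Sk.induction_linear with
  | zero => rw [map_zero]; exact cg_zero
  | add x y hx hy => rw [map_add]; exact hx.add hy
  | single g d => rw [ps_single]; exact (mm_pj s d).1.mul (cg_tau g)

lemma ss_ps (c : SkewMonoidAlgebra (DD Φ G V) G) :
    ps Φ G V true c - ps Φ G V false c ∈ SS Φ G V := by
  refine ⟨(cg_ps _ c).sub (cg_ps _ c), ?_⟩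
  induction c using TW.Sk.induction_linear with
  | zero => rw [map_zero, map_zero, sub_self]; exact sm_zero
  | add x y hx hy => rw [map_add, map_add, add_sub_add_comm]; exact hx.add hy
  | single g d => rw [ps_single, ps_single, ← sub_mul]; exact d.2.2.2.right (cg0_tau g)

/-- The homogeneous part. -/
noncomputable def pt (g : G) : FF R G V →+ FF R G V := part g

lemma pt_ps (s : Bool) (g : G) (c : SkewMonoidAlgebra (DD Φ G V) G) :
    pt g (ps Φ G V s c) = pj Φ G V s (c.coeff g) * ta R V g := by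
  induction c using TW.Sk.induction_linear with
  | zero => simp
  | add x y hx hy =>
    rw [map_add, map_add, hx, hy, SkewMonoidAlgebra.coeff_add, Finsupp.add_apply, map_add, add_mul]
  | single h d =>
    have hd := (mm_pj s d).2.mul (dg_tau h)
    rw [one_mul] at hd
    rw [ps_single, SkewMonoidAlgebra.coeff_single]
    by_cases c : h = g
    · subst c
      rw [Finsupp.single_eq_same]
      exact part_eq hd
    · rw [Finsupp.single_eq_of_ne' c, map_zero, zero_mul]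
      exact part_ne hd c

lemma ps_inj {c c' : SkewMonoidAlgebra (DD Φ G V) G} (h : ∀ s, ps Φ G V s c = ps Φ G V s c') :
    c = c' := by
  have key : ∀ s g, pj Φ G V s (c.coeff g) = pj Φ G V s (c'.coeff g) := fun s g => by
    have := congrArg (· * ta R V g⁻¹) (((pt_ps s g c).symm.trans (congrArg _ (h s))).trans
      (pt_ps s g c'))
    simpa only [mul_assoc, ← map_mul, mul_inv_cancel, map_one, mul_one] using this
  exact SkewMonoidAlgebra.ext fun g => Subtype.ext (Prod.ext (key false g) (key true g))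

lemma ps_surj {a : FF R G V} (h : a ∈ SS Φ G V) :
    ∃ c, ps Φ G V false c = 0 ∧ ps Φ G V true c = a := by
  obtain ⟨⟨⟨E, a1, a2⟩, a5⟩, S, a3, a4⟩ := h
  obtain ⟨F, b1, b2⟩ := a1.gfin
  have c1 : ∀ g, MM Φ (pt g a * ta R V g⁻¹) := fun g =>
    ⟨CG.mul ⟨⟨E, a1, (a2.part g).mono fun _ _ _ c => c.2⟩, a5.part g⟩ (cg_tau _), mul_inv_cancel g ▸
      Dg.mul (a := pt g a) ((a2.part g).mono fun _ _ _ c => c.1) (dg_tau g⁻¹)⟩
  have c2 : ∀ g, Sm (pt g a * ta R V g⁻¹ - 0) := fun g => by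
    rw [sub_zero]
    exact Sm.right ⟨S, a3, (a4.part g).mono fun _ _ _ c => c.2⟩ (cg0_tau _)
  let d : G → DD Φ G V := fun g => ⟨(0, pt g a * ta R V g⁻¹), ⟨cg_zero, sp_zero _⟩, c1 g, c2 g⟩
  refine ⟨∑ g ∈ b1.toFinset, SkewMonoidAlgebra.single g (d g), ?_, ?_⟩
  · rw [map_sum]
    exact Finset.sum_eq_zero fun g _ => (ps_single _ _ _).trans (zero_mul _)
  · rw [map_sum]
    refine Eq.trans (Finset.sum_congr rfl fun g _ => ?_)
      (sum_part (a := a.op) (F := b1.toFinset) (a2.mono fun _ _ _ c => b1.mem_toFinset.2 (b2 _ _ _ c)))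
    refine (ps_single _ _ _).trans ?_
    change pt g a * ta R V g⁻¹ * ta R V g = pt g a
    rw [mul_assoc, tau_inv, mul_one]

lemma ss_unit {a : FF R G V} (h : a ∈ SS Φ G V) : ∃ q ∈ SS Φ G V, a * q = a := by
  classical
  obtain ⟨-, S, a3, a4⟩ := h
  let q : Op (MonoidAlgebra R G) (Ix V) (Ix V) :=
    cols fun i => if i ∈ S then Finsupp.single i 1 else 0
  have hq : Sp (fun i g j => (g = 1 ∧ i = j) ∧ j ∈ S) q := fun i j => by
    rw [ent, cols_single]
    split_ifs with c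
    · exact (sp_one i j).mono fun g e => ⟨e, c⟩
    · exact sup_zero _
  have hb : Bd Φ q := ⟨0, fun i j => by
    rw [ent, cols_single]
    split_ifs with c
    exacts [co_fs _ _ 1, zero_mem _]⟩
  refine ⟨.of q, ⟨⟨⟨_, good_smul 1, hq.mono fun _ _ _ c => ⟨c.1.1, by rw [one_smul, c.1.2]⟩⟩, hb⟩,
    S, a3, hq.mono fun _ _ _ c => ⟨c.1.2 ▸ c.2, c.2⟩⟩, FF.ext' fun j => ?_⟩
  rw [op_mul, LinearMap.comp_apply, FF.of_op, cols_single]
  split_ifs with c
  · rfl
  · rw [map_zero]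
    ext i g
    exact (by_contra fun d => c (a4 i j g d).2 : (ent a.op i j).coeff g = 0).symm

lemma good_fin {κ : Type} [Finite κ] {E : κ → Ix V → G → Ix V → Prop} (h : ∀ k, Good (E k)) :
    Good fun i g j => ∃ k, E k i g j := by
  classical
  have : ∀ s : Finset κ, Good fun i g j => ∃ k ∈ s, E k i g j := fun s => by
    induction s using Finset.induction_on with
    | empty => exact (good_smul 1).mono fun _ _ _ ⟨_, c, _⟩ => absurd c (Finset.notMem_empty _)
    | insert k s _ ih =>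
      exact ((h k).or ih).mono fun _ _ _ ⟨l, c, d⟩ => (Finset.mem_insert.1 c).elim
        (fun e => Or.inl (e ▸ d)) fun e => Or.inr ⟨l, e, d⟩
  have _ := Fintype.ofFinite κ
  exact (this Finset.univ).mono fun _ _ _ ⟨k, c⟩ => ⟨k, Finset.mem_univ k, c⟩

lemma small_fin {κ : Type} [Finite κ] {S : κ → Set (Ix V)} (h : ∀ k, Small (S k)) :
    Small (⋃ k, S k) := by
  choose K a1 a2 using fun k => (h k).2
  refine ⟨fun n => (Set.finite_iUnion fun k => (h k).1 n).subset ?_, ⋃ k, K k,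
    Set.finite_iUnion a1, fun i hi => ?_⟩
  · rintro i ⟨hi, c⟩
    obtain ⟨k, hk⟩ := Set.mem_iUnion.1 hi
    exact Set.mem_iUnion.2 ⟨k, hk, c⟩
  · obtain ⟨k, hk⟩ := Set.mem_iUnion.1 hi
    exact (a2 k i hk).mono (Set.subset_iUnion K k)

section Big

variable {K : Type} [Fintype K] [DecidableEq K]

/-- A matrix of operators as a big matrix. -/
noncomputable def big (A : Matrix K K (FF R G V)) :
    Matrix (K × Ix V) (K × Ix V) (MonoidAlgebra R G) := fun y z => ent (A y.1 z.1).op y.2 z.2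

lemma big_add (A B : Matrix K K (FF R G V)) : big (A + B) = big A + big B := rfl

lemma big_one_eq (y : K × Ix V) : big (1 : Matrix K K (FF R G V)) y y = 1 := by
  rw [big, Matrix.one_apply_eq]
  exact Finsupp.single_eq_same

lemma big_one_ne {y z : K × Ix V} (h : y ≠ z) : big (1 : Matrix K K (FF R G V)) y z = 0 := by
  rw [big]
  by_cases c : y.1 = z.1
  · rw [c, Matrix.one_apply_eq]
    exact Finsupp.single_eq_of_ne fun d => h (Prod.ext c d)
  · rw [Matrix.one_apply_ne c]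
    rfl

lemma big_mul (A B : Matrix K K (FF R G V)) (y z : K × Ix V) :
    big (A * B) y z = ∑ᶠ w, big A y w * big B w z := by
  rw [finsum_curry, finsum_eq_sum_of_fintype]
  · let e : FF R G V →+ MonoidAlgebra R G := AddMonoidHom.mk' (fun a => ent a.op y.2 z.2)
      fun _ _ => rfl
    refine (map_sum e _ _).trans (Finset.sum_congr rfl fun l _ => ?_)
    exact ent_comp' (A y.1 l).op (B l z.1).op y.2 z.2
  · refine (Set.finite_iUnion fun l => (ent_fin (B l z.1).op z.2).image (Prod.mk l)).subset ?_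
    rintro ⟨l, j⟩ c
    exact Set.mem_iUnion.2 ⟨l, j, fun d => c ((congrArg (_ * ·) d).trans (mul_zero _)), rfl⟩

open Classical in
lemma res_one {I : Type} {ι : I → K × Ix V} (h : Injective ι) :
    (big (1 : Matrix K K (FF R G V))).submatrix ι ι = 1 := by
  ext1 i j
  by_cases c : i = j
  · rw [c, Matrix.one_apply_eq]
    exact big_one_eq _
  · rw [Matrix.one_apply_ne c]
    exact big_one_ne (h.ne c)

lemma elemProd_of {B : Matrix K K (FF R G V)} (hB : B ∈ Submonoid.closure (TW.BE (SS Φ G V) K)) :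
    ∃ S : Set (Ix V), Small S ∧ ∀ (M : Obj V) (ι : M.I → K × Ix V), Injective ι →
      (∀ y : K × Ix V, y.2 ∈ S → y ∈ Set.range ι) → (∀ i, M.t i = (ι i).2.t) →
      (∀ i, M.x i = (ι i).2.p.1) → ElemProd Φ M ((big B).submatrix ι ι) := by
  induction hB using Submonoid.closure_induction_left with
  | one => exact ⟨∅, small_empty, fun M ι h _ _ _ => res_one (R := R) (G := G) h ▸ ElemProd.one⟩
  | mul_left _ hx B _ ih =>
    obtain ⟨n, U, a1, a2, rfl⟩ := hx
    obtain ⟨S, b1, b2⟩ := ih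
    choose E c1 c2 using fun k : K × K => (a1 k.1 k.2).1.1
    choose D c3 using fun k : K × K => (a1 k.1 k.2).1.2
    choose S' d1 d2 using fun k : K × K => (a1 k.1 k.2).2
    have hE := good_fin c1
    refine ⟨_, b1.union (small_fin d1), fun M ι h h1 h2 h3 => ?_⟩
    have e1 : ∀ y g z, (big n y z).coeff g ≠ 0 → ∃ k, E k y.2 g z.2 :=
      fun y g z c => ⟨(y.1, z.1), c2 _ _ _ g c⟩
    have e2 : ∀ y z, big n y z ≠ 0 → ∃ g, (big n y z).coeff g ≠ 0 := fun y z c => by
      by_contra! d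
      exact c (MonoidAlgebra.coeff_injective (Finsupp.ext d))
    convert ElemProd.mul ((big n).submatrix ι ι) _ {i | (ι i).1 ∈ U} ⟨?_, ?_, ?_, ?_⟩
      (fun i j c => a2 _ _ fun d => c (congrArg (fun a : FF R G V => ent a.op _ _) d))
      (b2 M ι h (fun y hy => h1 y (Or.inl hy)) h2 h3) using 1
    · ext1 i k
      rw [← res_one (R := R) (G := G) h, Matrix.submatrix_apply, big_mul, mulM]
      refine Eq.trans ?_ (finsum_mem_range
        (f := fun w => big (1 + n) (ι i) w * big B w (ι k)) h)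
      rw [finsum_mem_def, Set.indicator_eq_self.2]
      intro w hw
      by_contra c
      refine hw ((congrArg (· * _) ?_).trans (zero_mul _))
      rw [big_add, Matrix.add_apply, big_one_ne fun d => c ⟨i, d⟩, zero_add]
      by_contra d
      obtain ⟨g, hg⟩ := e2 _ _ d
      exact c (h1 w (Or.inr (Set.mem_iUnion.2 ⟨_, (d2 ((ι i).1, w.1) _ _ g hg).2⟩)))
    · exact ⟨Finset.univ.sup D, fun i j g => Flt.mono (Finset.le_sup (Finset.mem_univ _))
        (c3 ((ι i).1, (ι j).1) _ _ g)⟩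
    · exact hE.gfin.imp fun F c => ⟨c.1, fun i j g d => c.2 _ _ _ (e1 _ _ _ d)⟩
    · obtain ⟨α, hα⟩ := hE.l.band
      obtain ⟨β, hβ⟩ := hE.r.band
      refine ⟨α + β, fun i j c => ?_⟩
      obtain ⟨g, hg⟩ := e2 _ _ c
      have f1 := hα _ _ ⟨g, e1 _ _ _ hg⟩
      have f2 := hβ _ _ ⟨g, e1 _ _ _ hg⟩
      rw [h2, h2]
      omega
    · refine fun ε hε => (hE.ctl ε hε).imp fun T c i j g d e => ?_
      rw [h3, h3]
      exact c _ _ _ (e1 _ _ _ d) (h2 i ▸ e)

end Big

end Pool.Agent.MP_f7db47_al.OB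

end

section

/-!
Vanishing of the obstruction group.
-/

set_option linter.unusedSectionVars false

namespace Pool.Agent.MP_f7db47_al.OB

open Function

universe v

variable {R : Type v} [Ring R] {G : Type} [Group G] {V : Type} [MulAction G V] {M : Obj V}
  {Φ : ℕ → AddSubgroup R} [Flt Φ]

lemma exists_emb (M : Obj V) : ∃ e : M.I → Ix V, Injective e ∧ (∀ i, M.t i = (e i).t) ∧
    ∀ i, M.x i = (e i).p.1 := by
  have : Countable M.I := Set.countable_univ_iff.1
    ((Set.countable_iUnion fun n => (M.fin n).countable).mono fun i _ =>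
      Set.mem_iUnion.2 ⟨M.t i, le_refl (M.t i)⟩)
  obtain ⟨c, hc⟩ := exists_injective_nat M.I
  exact ⟨fun i => ⟨⟨M.x i, M.nonneg i, M.total i⟩, M.t i, c i⟩,
    fun _ _ h => hc (congrArg Ix.m h), fun _ => rfl, fun _ => rfl⟩

variable {a b : Matrix M.I M.I (MonoidAlgebra R G)}

lemma Ctrl.fin (h : Ctrl Φ M a) (j : M.I) : {i | a i j ≠ 0}.Finite := by
  obtain ⟨α, hα⟩ := h.2.2.1
  exact (M.fin (M.t j + α)).subset fun i c => (hα i j c).1

variable {e : M.I → Ix V} (he : Injective e)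

/-- Extension by zero. -/
noncomputable def hat (c : Op (MonoidAlgebra R G) M.I M.I) : FF R G V :=
  .of (push _ e ∘ₗ c ∘ₗ pull _ he)

lemma Sp.hat {E : M.I → G → M.I → Prop} {c : Op (MonoidAlgebra R G) M.I M.I} (h : Sp E c) :
    Sp (fun i' g j' => ∃ i j, i' = e i ∧ j' = e j ∧ E i g j) (hat he c).op := by
  refine ((sp_push _).comp (h.comp (sp_pull _))).mono ?_
  rintro _ _ _ ⟨i, _, _, ⟨rfl, rfl⟩, ⟨j, g, _, d, ⟨rfl, rfl⟩, rfl⟩, rfl⟩
  exact ⟨i, j, rfl, rfl, by rwa [one_mul, mul_one]⟩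

lemma ent_hat (c : Op (MonoidAlgebra R G) M.I M.I) (i j : M.I) :
    ent (hat he c).op (e i) (e j) = ent c i j := by
  rw [ent, hat, FF.of_op, LinearMap.comp_apply, LinearMap.comp_apply, pull_single, push_apply he]
  rfl

lemma hat_inv {c d : Op (MonoidAlgebra R G) M.I M.I} (h : c ∘ₗ d = LinearMap.id) :
    (1 + (hat he c - hat he LinearMap.id)) * (1 + (hat he d - hat he LinearMap.id)) = 1 :=
  FF.ext fun z => by
    have : ∀ w, c (d w) = w := LinearMap.congr_fun h
    simp only [hat, FF.of_op, op_mul, op_add, op_sub, op_one, LinearMap.comp_apply,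
      LinearMap.add_apply, LinearMap.sub_apply, LinearMap.id_apply, map_add, map_sub, pull_push,
      this]
    abel

open Classical in
lemma op_inv (ha : Ctrl Φ M a) (hb : Ctrl Φ M b) (h : mulM a b = 1) :
    opOf a ha.fin ∘ₗ opOf b hb.fin = LinearMap.id := by
  apply ent_inj
  rw [ent_id, ← h]
  ext1 i k
  rw [ent_comp', ent_opOf, ent_opOf]
  rfl

variable (ht : ∀ i, M.t i = (e i).t) (hx : ∀ i, M.x i = (e i).p.1)

include ht hx

lemma small_range : Small (Set.range e) := by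
  obtain ⟨K, a1, a2⟩ := M.cpt
  refine ⟨fun n => ((M.fin n).image e).subset ?_, K, a1, ?_⟩
  · rintro _ ⟨⟨i, rfl⟩, c⟩
    exact ⟨i, (ht i).trans_le c, rfl⟩
  · rintro _ ⟨i, rfl⟩ v c
    exact a2 i v (by rwa [hx])

lemma one_of {E : Ix V → Ix V → Prop} {α : ℕ}
    (h : ∀ i j, E i j → i ∈ Set.range e ∧ i.t ≤ j.t + α) : One E := by
  obtain ⟨a0, K, a1, a2⟩ := small_range ht hx
  exact ⟨fun j => (a0 (j.t + α)).subset fun i c => h i j c,
    fun _ _ => ⟨K, a1, fun i j c _ => a2 i (h i j c).1⟩, α, fun i j c => (h i j c).2⟩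

lemma ss_hat (ha : Ctrl Φ M a) : hat he (opOf a ha.fin) - hat he LinearMap.id ∈ SS Φ G V := by
  have h1 : Sp (fun i g j => (a i j).coeff g ≠ 0) (opOf a ha.fin) := fun i j g c => by
    rwa [ent_opOf] at c
  have h2 := Sp.hat he (sp_one (R := R) (G := G) (Y := M.I))
  obtain ⟨⟨D, a0⟩, ⟨F, a1, a2⟩, ⟨α, a3⟩, a4⟩ := id ha
  have a5 : ∀ {i j g}, (a i j).coeff g ≠ 0 → a i j ≠ 0 := fun c d => c (by rw [d]; rfl)
  have a6 : Bd Φ (opOf a ha.fin) := ⟨D, fun i j g => by rw [ent_opOf]; exact a0 i j g⟩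
  refine sub_mem ⟨⟨⟨_, ⟨⟨F, a1, ?_⟩, one_of ht hx (α := α) ?_, one_of ht hx (α := α) ?_,
    fun ε hε => (a4 ε hε).imp fun T c => ?_⟩, h1.hat he⟩,
    (bd_push _).comp (a6.comp (bd_pull _))⟩, _, small_range ht hx, (h1.hat he).mono ?_⟩
    ⟨⟨⟨_, good_smul 1, h2.mono ?_⟩, (bd_push _).comp (bd_id.comp (bd_pull _))⟩, _,
    small_range ht hx, h2.mono ?_⟩
  · rintro _ g _ ⟨i, j, rfl, rfl, c⟩
    exact a2 i j g c
  · rintro _ _ ⟨g, i, j, rfl, rfl, c⟩
    exact ⟨⟨i, rfl⟩, ht i ▸ ht j ▸ (a3 i j (a5 c)).1⟩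
  · rintro _ _ ⟨g, i, j, rfl, rfl, c⟩
    exact ⟨⟨j, rfl⟩, ht i ▸ ht j ▸ (a3 i j (a5 c)).2⟩
  · rintro _ g _ ⟨i, j, rfl, rfl, d⟩ f
    have := c i j g d ((ht i).symm ▸ f)
    rwa [hx, hx] at this
  · rintro _ _ _ ⟨i, j, rfl, rfl, -⟩
    exact ⟨⟨i, rfl⟩, j, rfl⟩
  · rintro _ _ _ ⟨i, _, rfl, rfl, rfl, rfl⟩
    exact ⟨rfl, (one_smul _ _).symm⟩
  · rintro _ _ _ ⟨i, j, rfl, rfl, -⟩
    exact ⟨⟨i, rfl⟩, j, rfl⟩

omit ht hx

lemma ent_hat' (c d : Op (MonoidAlgebra R G) M.I M.I) {i j : Ix V}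
    (h : ent (hat he c - hat he d).op i j ≠ 0) : i ∈ Set.range e ∧ j ∈ Set.range e := by
  have : Sp (fun i _ j => i ∈ Set.range e ∧ j ∈ Set.range e) (hat he c - hat he d).op :=
    Sp.sub ((Sp.hat he (E := fun _ _ _ => True) fun _ _ _ _ => trivial).mono
      fun _ _ _ ⟨i, j, a, b, _⟩ => ⟨⟨i, a.symm⟩, j, b.symm⟩)
      ((Sp.hat he (E := fun _ _ _ => True) fun _ _ _ _ => trivial).mono
        fun _ _ _ ⟨i, j, a, b, _⟩ => ⟨⟨i, a.symm⟩, j, b.symm⟩)
  by_contra f
  exact h (MonoidAlgebra.coeff_injective (Finsupp.ext fun g => by_contra fun k => f (this i j g k)))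

/-- The obstruction group vanishes. -/
theorem k1zero (hQ : TW.QQ (DD Φ G V) G) (hc : ∀ g : G, ∃ v : V, g • v = v) : K1Zero Φ G V := by
  classical
  intro M a b ha hb hab hba
  obtain ⟨e, he, ht, hx⟩ := exists_emb M
  obtain ⟨μ, a1, a2⟩ := ps_surj (ss_hat he ht hx ha)
  obtain ⟨ν, b1, b2⟩ := ps_surj (ss_hat he ht hx hb)
  have inv : ∀ {μ ν c d}, ps Φ G V false μ = 0 → ps Φ G V false ν = 0 →
      ps Φ G V true μ = hat he c - hat he LinearMap.id →
      ps Φ G V true ν = hat he d - hat he LinearMap.id → c ∘ₗ d = LinearMap.id →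
      Matrix.scalar Unit (1 + μ) * Matrix.scalar Unit (1 + ν) = 1 := fun c1 c2 c3 c4 c5 => by
    rw [← map_mul, ← map_one (Matrix.scalar Unit)]
    refine congrArg _ (ps_inj fun s => ?_)
    rw [map_mul, map_add, map_add, map_one]
    cases s
    · rw [c1, c2, add_zero, mul_one]
    · rw [c3, c4, hat_inv he c5]
  obtain ⟨ι, _, _, hB⟩ := TW.elem_of_T (fun g => (hc g).elim fun v hv => ⟨fl Φ G v, fun δ hδ =>
    fl_inv ((Subgroup.zpowers_le.2 (MulAction.mem_stabilizer_iff.2 hv)) hδ)⟩)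
    (hQ.g1 _ _ _ (inv a1 b1 a2 b2 (op_inv ha hb hab)) (inv b1 a1 b2 a2 (op_inv hb ha hba)))
  have hm : ∀ s, (Matrix.fromBlocks (Matrix.scalar Unit (1 + μ)) 0 0 (1 : Matrix ι ι _)).map
      (ps Φ G V s) = 1 + Matrix.single (Sum.inl ()) (Sum.inl ()) (ps Φ G V s μ) := fun s => by
    ext1 i j
    rcases i with i | i <;> rcases j with j | j <;>
      simp [Matrix.one_apply, apply_ite (ps Φ G V s)]
  have hB' := TW.rel_elem (ps Φ G V false) (ps Φ G V true) (SS Φ G V)
    (fun c s h => ⟨(cg_ps _ c).mul h.1, h.2.left (cg_ps _ c).1⟩)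
    (fun c s h => ⟨h.1.mul (cg_ps _ c), h.2.right (cg_ps _ c).1⟩) ss_ps (fun _ => ss_unit) hB
    (by rw [hm, a1, Matrix.single_zero, add_zero])
  obtain ⟨S, c1, c2⟩ := elemProd_of hB'
  obtain ⟨K, c3, c4⟩ := c1.2
  let k₀ : (Unit ⊕ ι) ⊕ Unit := Sum.inl (Sum.inl ())
  let N : Obj V :=
    { I := {y : ((Unit ⊕ ι) ⊕ Unit) × Ix V // y.2 ∈ S ∧ y ∉ Set.range fun i => (k₀, e i)}
      t := fun y => y.1.2.t
      x := fun y => y.1.2.p.1
      fin := fun n => ((Set.finite_univ.prod (c1.1 n)).preimage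
        Subtype.val_injective.injOn).subset fun y c => ⟨trivial, y.2.1, c⟩
      nonneg := fun y => y.1.2.p.2.1
      total := fun y => y.1.2.p.2.2
      cpt := ⟨K, c3, fun y => c4 _ y.2.1⟩ }
  have hι : Injective (Sum.elim (fun i => (k₀, e i)) Subtype.val : (M.sum N).I → _) :=
    Injective.sumElim (fun _ _ h => he (congrArg Prod.snd h)) Subtype.val_injective
      fun i y h => y.2.2 ⟨i, h⟩
  refine ⟨N, ?_⟩
  convert c2 (M.sum N) _ hι (fun y hy => ?_) (by rintro (i | i); exacts [ht i, rfl])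
    (by rintro (i | i); exacts [hx i, rfl]) using 1
  · have e1 : Matrix.fromBlocks (1 + Matrix.single (Sum.inl ()) (Sum.inl ()) (ps Φ G V true μ)) 0 0
        (1 : Matrix Unit Unit _) = 1 + Matrix.single k₀ k₀ (ps Φ G V true μ) := by
      ext1 i j
      rcases i with i | i <;> rcases j with j | j <;>
        simp [k₀, Matrix.one_apply, Matrix.single_apply]
    have e2 : ∀ y z, big (Matrix.single k₀ k₀ (ps Φ G V true μ)) y z ≠ 0 →
        (y ∈ Set.range fun i => (k₀, e i)) ∧ z ∈ Set.range fun i => (k₀, e i) := by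
      rintro ⟨k, i⟩ ⟨l, j⟩ c
      rw [big, Matrix.single_apply] at c
      split_ifs at c with d
      · obtain ⟨rfl, rfl⟩ := d
        rw [a2] at c
        obtain ⟨⟨i, rfl⟩, j, rfl⟩ := ent_hat' he _ _ c
        exact ⟨⟨i, rfl⟩, j, rfl⟩
      · exact (c rfl).elim
    rw [hm, e1, big_add]
    ext1 y z
    rw [Matrix.submatrix_apply, Matrix.add_apply]
    rcases y with i | y <;> rcases z with j | z
    · change a i j = _ + ent (Matrix.single k₀ k₀ (ps Φ G V true μ) k₀ k₀).op (e i) (e j)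
      rw [Matrix.single_apply_same, a2, op_sub, ent_sub, Matrix.sub_apply, ent_hat, ent_hat,
        ent_opOf, ent_id]
      by_cases c : i = j
      · rw [c, big_one_eq, Matrix.one_apply_eq, add_sub_cancel]
      · rw [big_one_ne (hι.ne (Sum.inl_injective.ne c)), Matrix.one_apply_ne c, zero_add, sub_zero]
    · rw [big_one_ne (hι.ne Sum.inl_ne_inr), zero_add]
      exact (by_contra fun c => z.2.2 (e2 _ _ c).2 : _ = _).symm
    · rw [big_one_ne (hι.ne Sum.inr_ne_inl), zero_add]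
      exact (by_contra fun c => y.2.2 (e2 _ _ c).1 : _ = _).symm
    · refine Eq.trans ?_ ((congrArg (_ + ·) (by_contra fun c => y.2.2 (e2 _ _ c).1)).trans
        (add_zero _)).symm
      by_cases c : y = z
      · rw [c, big_one_eq]
        exact if_pos rfl
      · rw [big_one_ne (hι.ne (Sum.inr_injective.ne c))]
        exact if_neg c
  · by_cases c : y ∈ Set.range fun i => (k₀, e i)
    · obtain ⟨i, rfl⟩ := c
      exact ⟨Sum.inl i, rfl⟩
    · exact ⟨Sum.inr ⟨y, hy, c⟩, rfl⟩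

end Pool.Agent.MP_f7db47_al.OB

end
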