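import Pool.Agent.Mg.Ff7db47.Ge4af1c
import Pool.Agent.Mg.Ff7db47.Gf348de

section

/-!
Lattices over discrete valuation rings: definitions.
-/

namespace Pool.Agent.MP_f7db47_al.GN

/-- A discrete valuation ring with its field of fractions and a uniformizer. -/
structure Pl where
  O : Type
  K : Type
  [i1 : CommRing O]
  [i2 : IsDomain O]
  [i3 : IsDiscreteValuationRing O]
  [i4 : Field K]
  [i5 : Algebra O K]
  [i6 : IsFractionRing O K]
  π : O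
  hπ : Irreducible π

attribute [instance] Pl.i1 Pl.i2 Pl.i3 Pl.i4 Pl.i5 Pl.i6

namespace Pl

variable (P : Pl) (n : ℕ)

/-- The vector space. -/
abbrev V : Type := Fin n → P.K

/-- The submodules over the valuation ring. -/
abbrev L : Type := Submodule P.O (P.V n)

/-- The subspaces. -/
abbrev S : Type := Submodule P.K (P.V n)

/-- The general linear group. -/
abbrev A : Type := P.V n ≃ₗ[P.K] P.V n

/-- The uniformizer as a unit of the field. -/
noncomputable def ϖ : P.Kˣ :=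
  Units.mk0 (algebraMap P.O P.K P.π)
    ((map_ne_zero_iff _ (IsFractionRing.injective P.O P.K)).2 P.hπ.ne_zero)

/-- The standard lattice. -/
def L0 : P.L n := Submodule.pi Set.univ fun _ => (1 : Submodule P.O P.K)

variable {P n}

/-- The action of the general linear group. -/
noncomputable def ac (u : P.A n) : P.L n ≃o P.L n :=
  Submodule.orderIsoMapComap (u.restrictScalars P.O)

/-- Multiplication by `π ^ e`. -/
noncomputable def sc (e : ℤ) : P.L n ≃o P.L n := ac (LinearEquiv.smulOfUnit (P.ϖ ^ e))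

/-- A subspace as a submodule. -/
def rs (W : P.S n) : P.L n := W.restrictScalars P.O

/-- The standard lattice of a subspace. -/
def La (W : P.S n) : P.L n := P.L0 n ⊓ rs W

/-- The image of a subspace. -/
noncomputable def im (u : P.A n) (W : P.S n) : P.S n := W.map u.toLinearMap

/-- Submodules commensurable with the standard lattice. -/
def Lat (Y : P.L n) : Prop := ∃ a : ℕ, sc a (P.L0 n) ≤ Y ∧ Y ≤ sc (-a) (P.L0 n)

/-- `W'` is the subspace on which `z` is large, for all `z` between `z` and `z'`. -/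
def Gap (W : P.S n) (z z' : P.L n) (Tm Tp : ℤ) (W' : P.S n) : Prop :=
  W' ≤ W ∧ sc (-Tp) (La W') ≤ z ∧ z' ⊓ sc (-Tp) (La W) ≤ rs W' ⊔ sc (-Tm) (La W)

end Pl

/-- Division rounded up. -/
def cd (q : ℕ) (i : ℤ) : ℤ := -(-i / q)

/-- Balls in a group. -/
structure Bl (G : Type) [Group G] where
  B : ℕ → Finset G
  s₀ : ℕ
  one : 1 ∈ B 0
  mul : ∀ {a b g h}, g ∈ B a → h ∈ B b → g * h ∈ B (a + b)
  inv : ∀ {a g}, g ∈ B a → g⁻¹ ∈ B a
  mono : ∀ {a b g}, a ≤ b → g ∈ B a → g ∈ B b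
  card : ∀ m, (B m).card ≤ s₀ ^ m

/-- A linear action at one place, with balls and a Lipschitz constant. -/
structure Ac (G : Type) [Group G] (bl : Bl G) (C : ℕ) (P : Pl) (n : ℕ) where
  ρ : G →* P.A n
  lip : ∀ {m s}, s ∈ bl.B m → Pl.sc ((C * m : ℕ) : ℤ) (P.L0 n) ≤ Pl.ac (ρ s) (P.L0 n)

open Classical in
/-- Functions supported in `F` with values bounded by `b`. -/
noncomputable def boxF {G : Type} (F : Finset G) (b : ℕ) : Finset (G → ℤ) :=
  (Fintype.piFinset fun _ : F => Finset.Icc (-(b : ℤ)) b).image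
    fun f s => if h : s ∈ F then f ⟨s, h⟩ else 0

/-- Adjacency in the tropical projective space. -/
def AdjT {G : Type} (F : Finset G) (x y : G → ℤ) : Prop :=
  x ≠ y ∧ ∃ δ : ℤ, ∀ s ∈ F, x s ≤ y s + δ ∧ y s + δ ≤ x s + 1

namespace Ac

open Pl

variable {G : Type} [Group G] {bl : Bl G} {C : ℕ} {P : Pl} {n : ℕ} (a : Ac G bl C P n)

/-- The generators. -/
noncomputable def gen (W : P.S n) (s : G) : P.L n := ac (a.ρ s) (P.L0 n) ⊓ rs W

/-- The filtration spanned by the generators, placed at heights `η`. -/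
noncomputable def Xf (q : ℕ) (W : P.S n) (F : Finset G) (η : G → ℤ) (i : ℤ) : P.L n :=
  ⨆ s ∈ F, sc (cd q (i - η s)) (a.gen W s)

/-- Closed height functions. -/
def Clo (q : ℕ) (W : P.S n) (F : Finset G) (η : G → ℤ) : Prop :=
  ∀ s ∈ F, ∀ e : ℤ, a.gen W s ≤ a.Xf q W F η e → e ≤ η s

open Classical in
/-- The vertices of the tropical hull. -/
noncomputable def Kv (q : ℕ) (W : P.S n) (m : ℕ) : Finset (G → ℤ) :=
  (boxF (bl.B m) (q * C * m)).filter fun η => a.Clo q W (bl.B m) η ∧ η 1 = 0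

/-- `u` transports `W₂` seen from `g` to `W₁`, compatibly with the generators. -/
def Tr (U : ℕ) (g : G) (W₁ W₂ : P.S n) (u : P.A n) : Prop :=
  im u W₂ = W₁ ∧ ∀ s, g * s ∈ bl.B U → ac u (a.gen W₂ s) = a.gen W₁ (g * s)

/-- The gap test with margin. -/
def GP (q : ℕ) (W : P.S n) (η : G → ℤ) (α β : ℕ) (Tm Tp : ℤ) (x : ℕ) (W' : P.S n) : Prop :=
  Gap W (a.Xf q W (bl.B (α + x)) η 0) (a.Xf q W (bl.B (β - x)) η 0)
    (Tm + (2 * C + 2) * x) (Tp - (2 * C + 2) * x) W'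

/-- The low part of the projection at level `m`. -/
noncomputable def low (q : ℕ) (W W' : P.S n) (η : G → ℤ) (τ : ℤ) (m : ℕ) (i : ℤ) : P.L n :=
  rs W' ⊔ (a.Xf q W (bl.B m) η i ⊓ sc (cd q i - τ) (La W))

/-- The soft projection. -/
noncomputable def psi (q : ℕ) (W W' : P.S n) (η : G → ℤ) (τ : ℤ) (α β : ℕ) (i : ℤ) : P.L n :=
  ⨆ m ∈ Finset.Icc α β, a.low q W W' η τ m (i + m - α)

end Ac

/-- Closeness of height functions. -/
def HC {G : Type} [Group G] (bl : Bl G) (m t : ℕ) (g : G) (η₁ η₂ : G → ℤ) (δ : ℤ) : Prop :=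
  ∀ s ∈ bl.B (m - t), g⁻¹ * s ∈ bl.B (m - t) → |η₁ s - η₂ (g⁻¹ * s) - δ| ≤ t

section Stretch

variable {α : Type} [PartialOrder α]

open Classical in
/-- Periodic filtrations with few jumps. -/
structure Per (π : α ≃o α) (q n : ℕ) (Ψ : ℤ → α) : Prop where
  anti : Antitone Ψ
  per : ∀ i, Ψ (i + q) = π (Ψ i)
  ne : ∀ i, Ψ (i + q) ≠ Ψ i
  brk : ∀ i : ℤ, ((Finset.Ico i (i + q)).filter fun j => Ψ (j + 1) ≠ Ψ j).card ≤ n

omit [PartialOrder α] in
/-- No interval of constancy has length close to `θ`. -/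
def SelD (Ψ : ℤ → α) (θ h : ℕ) : Prop :=
  ∀ i : ℤ, Ψ (i + (θ - 4 * h)) = Ψ i → ∃ i', Ψ i' = Ψ i ∧ Ψ (i' + (θ + 4 * h)) = Ψ i

omit [PartialOrder α] in
/-- Enumeration of the long intervals of constancy. -/
def IsEnum (Ψ : ℤ → α) (θ : ℕ) (ι : ℤ → ℤ) : Prop :=
  StrictMono ι ∧ Set.range ι = {i | Ψ (i + θ) = Ψ i ∧ Ψ (i - 1) ≠ Ψ i} ∧ ι (-1) < 0 ∧ 0 ≤ ι 0

end Stretch

open Classical in
/-- The depth at which a property holds. -/
noncomputable def dep (p : ℕ → Prop) (Rt : ℕ) : ℕ := Nat.findGreatest p Rt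

end Pool.Agent.MP_f7db47_al.GN

end

section

/-!
The tree of nodes: definitions.
-/

namespace Pool.Agent.MP_f7db47_al.GN

/-- The numerical parameters of one stage. -/
structure Par where
  q : ℕ
  m : ℕ
  lam : ℕ
  U : ℕ
  Rt : ℕ
  X : ℕ
  T : ℕ → ℕ

/-- The inequalities between the parameters. -/
structure Par.OK (p : Par) (n C U' : ℕ) : Prop where
  q0 : 0 < p.q
  q1 : n * (4 * p.Rt * (2 * n + 1)) < p.q
  q2 : 2 * p.Rt ≤ p.q
  anti : Antitone p.T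
  t1 : 1 ≤ p.T n
  t2 : ∀ i < n, 2 * p.T (i + 1) + 6 * (2 * C + 2) * p.Rt + 2 * p.X + 3 + (4 * C + 2) * p.Rt +
    (2 * C + 1) * U' ≤ p.T i
  lam1 : ∀ i, 5 * p.Rt + p.q * (p.T i + 2 * (2 * C + 2) * p.Rt + 1) ≤ p.lam
  m1 : n * p.lam + 2 * p.Rt ≤ p.m
  u1 : p.m ≤ p.U
  u2 : p.T 0 ≤ p.U
  u3 : U' ≤ p.U

/-- The place of the truncation. -/
def Par.tau (p : Par) (C τ : ℕ) : ℕ := p.T (τ + 1) + 2 * (2 * C + 2) * p.Rt + 1

/-- The threshold for long intervals. -/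
def Par.th (p : Par) (κ : ℕ) : ℕ := 4 * p.Rt * (2 * κ + 1)

namespace Ac

open Pl

variable {G : Type} [Group G] {bl : Bl G} {C : ℕ} {P : Pl} {n : ℕ} (a : Ac G bl C P n)

/-- Two vertices of tropical hulls that are close. -/
structure Pair (q m U t : ℕ) (g : G) (W₁ W₂ : P.S n) (η₁ η₂ : G → ℤ) (u : P.A n) (δ : ℤ) :
    Prop where
  q0 : 0 < q
  k1 : η₁ ∈ a.Kv q W₁ m
  k2 : η₂ ∈ a.Kv q W₂ m
  gt : g ∈ bl.B t
  tr : a.Tr U g W₁ W₂ u
  mU : m ≤ U
  hc : HC bl m t g η₁ η₂ δ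
  t2 : 2 * t ≤ m

variable (p : Par) (W : P.S n) (η : G → ℤ) (τ κ : ℕ)

/-- The test number `τ`. -/
def gp (x : ℕ) (W' : P.S n) : Prop :=
  a.GP p.q W η (τ * p.lam) ((τ + 1) * p.lam) (p.T (τ + 1)) (p.T τ) x W'

open Classical in
/-- The subspace found by the test. -/
noncomputable def wit : P.S n :=
  if h : ∃ W', a.gp p W η τ p.Rt W' then h.choose else ⊥

/-- The depth of the test. -/
noncomputable def dG : ℕ := dep (fun h => ∃ W', a.gp p W η τ (p.Rt - h) W') p.Rt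

/-- The filtration of the quotient. -/
noncomputable def Psi : ℤ → P.L n :=
  a.psi p.q W (a.wit p W η τ) η (p.tau C τ) (τ * p.lam + 2 * p.Rt) ((τ + 1) * p.lam - 3 * p.Rt)

/-- The depth of the selection of long intervals. -/
noncomputable def dS : ℕ := dep (SelD (a.Psi p W η τ) (p.th κ)) p.Rt

open Classical in
/-- The enumeration of the long intervals. -/
noncomputable def en : ℤ → ℤ :=
  if h : ∃ ι, IsEnum (a.Psi p W η τ) (p.th κ) ι then h.choose else id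

/-- The new lattices. -/
noncomputable def Nn (c : ℤ) : P.L n :=
  a.Psi p W η τ (a.en p W η τ κ c) ⊓ sc (-((p.X + p.tau C τ : ℕ) : ℤ)) (La W)

open Classical in
/-- The vertices of the complex over a label of height `h`. -/
noncomputable def Kn (q m h : ℕ) (W : P.S n) : Finset (G → ℤ) :=
  if 0 < h then a.Kv q W m else {0}

end Ac

/-- Symmetric filtered relations that are compatible with the balls. -/
structure FR.Good {G : Type} [Group G] {Λ : Type} (F : FR G Λ) (bl : Bl G) : Prop where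
  symm : ∀ {t x g y}, F.rel t x g y → F.rel t y g⁻¹ x
  ball : ∀ {t x g y}, F.rel t x g y → g ∈ bl.B t

/-- A node. -/
structure Nd {ι : Type} (P : ι → Pl) (n β : ℕ) (Λ : Type) where
  r : ℕ
  rk : ι → ℕ
  ω : ι → ℤ
  h : Λ → ℕ
  W : Λ → ∀ l, (P l).S n
  Z : Λ → (Fin β → ℤ) → ∀ l, (P l).L n

/-- The box of radius `X`. -/
def Bx {κ : Type} (X : ℕ) (v : κ → ℤ) : Prop := ∀ i, |v i| ≤ (X : ℤ)

namespace Nd

open Pl

variable {ι : Type} {P : ι → Pl} {n β : ℕ} {Λ Λ' : Type}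

/-- Pull back of a node. -/
def pull (ν : Nd P n β Λ) (π : Λ' → Λ) : Nd P n β Λ' :=
  ⟨ν.r, ν.rk, ν.ω, fun x => ν.h (π x), fun x => ν.W (π x), fun x => ν.Z (π x)⟩

variable {G : Type} [Group G] {bl : Bl G} {C : ℕ} (a : ∀ l, Ac G bl C (P l) n)

/-- The invariant of a node. -/
structure Inv [Fintype ι] (F : FR G Λ) (Rt X cδ U : ℕ) (ν : Nd P n β Λ) : Prop where
  rle : ν.r ≤ β
  rks : ∑ l, ν.rk l ≤ ν.r
  hle : ∀ x, ν.h x ≤ Rt
  lip : ∀ {t x g y}, F.rel t x g y → ν.h y ≤ ν.h x + t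
  rank : ∀ x l, 0 < ν.h x → Module.finrank (P l).K (ν.W x l) = ν.rk l
  dep : ∀ x v v', (∀ i : Fin β, ν.r ≤ i → v i = v' i) → ν.Z x v = ν.Z x v'
  lat : ∀ x v l, 0 < ν.h x → Bx X v → ∃ c : ℕ,
    sc c ((P l).L0 n) ≤ ν.Z x v l ⊔ sc (ν.ω l) (La (ν.W x l)) ∧
      ν.Z x v l ≤ sc (-c) ((P l).L0 n)
  close : ∀ {t x g y}, F.rel t x g y → t < ν.h x → t < ν.h y → ∃ δ : Fin β → ℤ,
    Bx (cδ * (t + 1)) δ ∧ (∀ i : Fin β, (i : ℕ) < ν.r → δ i = 0) ∧ ∀ l, ∃ u,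
      (a l).Tr U g (ν.W x l) (ν.W y l) u ∧ ∀ v, Bx X v → Bx X (v + δ) → ∀ Y,
        sc (ν.ω l) (La (ν.W x l)) ≤ Y → Y ≤ sc (ν.ω l - U) (La (ν.W x l)) →
        Y ⊔ ν.Z x v l = ac ((a l).ρ g) (ac u⁻¹ Y ⊔ ν.Z y (v + δ) l)

open Classical in
/-- The children of a node. -/
noncomputable def child [DecidableEq ι] (p : Par) (ν : Nd P n β Λ) (l : ι) (π : Λ' → Λ)
    (η : Λ' → G → ℤ) (τ κ d : ℕ) : Nd P n β Λ' where
  r := ν.r - 1
  rk := Function.update ν.rk l (min d (ν.rk l - 1))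
  ω := Function.update ν.ω l (ν.ω l - p.X - 1 - ((p.X + p.tau C τ : ℕ) : ℤ) - ((C * p.Rt : ℕ) : ℤ))
  h x := if Module.finrank (P l).K ((a l).wit p (ν.W (π x) l) (η x) τ) = d then
    min (ν.h (π x) / 2)
      (min ((a l).dG p (ν.W (π x) l) (η x) τ) ((a l).dS p (ν.W (π x) l) (η x) τ κ)) else 0
  W x := Function.update (ν.W (π x)) l ((a l).wit p (ν.W (π x) l) (η x) τ)
  Z x v := Function.update (ν.Z (π x) v) l (ν.Z (π x) v l ⊔ sc (ν.ω l - p.X - 1)
    ((a l).Nn p (ν.W (π x) l) (η x) τ κ (if h : ν.r - 1 < β then v ⟨ν.r - 1, h⟩ else 0)))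

end Nd

end Pool.Agent.MP_f7db47_al.GN

end

section

/-!
Basic properties of lattices.
-/

namespace Pool.Agent.MP_f7db47_al.GN.Pl

variable {P : Pl} {n : ℕ}

theorem mem_ac {u : P.A n} {Y : P.L n} {x : P.V n} : x ∈ ac u Y ↔ u.symm x ∈ Y :=
  Submodule.mem_map_equiv (e := u.restrictScalars P.O) Y

theorem ac_mul (u v : P.A n) (Y : P.L n) : ac (u * v) Y = ac u (ac v Y) :=
  Submodule.ext fun _ => by
    rw [mem_ac, mem_ac, mem_ac]
    rfl

theorem ac_one (Y : P.L n) : ac (1 : P.A n) Y = Y :=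
  Submodule.ext fun _ => mem_ac

theorem ac_inv_ac (u : P.A n) (Y : P.L n) : ac u⁻¹ (ac u Y) = Y := by
  rw [← ac_mul, inv_mul_cancel, ac_one]

theorem ac_ac_inv (u : P.A n) (Y : P.L n) : ac u (ac u⁻¹ Y) = Y := by
  rw [← ac_mul, mul_inv_cancel, ac_one]

theorem mem_sc {e : ℤ} {Y : P.L n} {x : P.V n} :
    x ∈ sc e Y ↔ ((P.ϖ ^ (-e) : P.Kˣ) : P.K) • x ∈ Y := by
  rw [sc, mem_ac, zpow_neg]
  rfl

theorem sc_zero (Y : P.L n) : sc 0 Y = Y :=
  Submodule.ext fun _ => by simp [mem_sc]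

theorem sc_add (e e' : ℤ) (Y : P.L n) : sc (e + e') Y = sc e (sc e' Y) :=
  Submodule.ext fun _ => by
    rw [mem_sc, mem_sc, mem_sc, smul_smul, ← Units.val_mul, ← zpow_add, neg_add_rev]

theorem ac_sc (u : P.A n) (e : ℤ) (Y : P.L n) : ac u (sc e Y) = sc e (ac u Y) :=
  Submodule.ext fun _ => by rw [mem_ac, mem_sc, mem_sc, mem_ac, map_smul]

theorem LBasic_nat {e : ℕ} {Y : P.L n} {x : P.V n} : x ∈ sc e Y ↔ ∃ y ∈ Y, P.π ^ e • y = x := by
  have h : algebraMap P.O P.K (P.π ^ e) ≠ 0 :=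
    (map_ne_zero_iff _ (IsFractionRing.injective P.O P.K)).2 (pow_ne_zero _ P.hπ.ne_zero)
  have h1 : ((P.ϖ ^ (-(e : ℤ)) : P.Kˣ) : P.K) = (algebraMap P.O P.K (P.π ^ e))⁻¹ := by
    simp [ϖ]
  rw [mem_sc, h1]
  refine ⟨fun hx => ⟨_, hx, ?_⟩, ?_⟩
  · rw [← algebraMap_smul P.K, smul_inv_smul₀ h]
  · rintro ⟨y, hy, rfl⟩
    rwa [← algebraMap_smul P.K (P.π ^ e), inv_smul_smul₀ h]

theorem LBasic_one {Y : P.L n} {x : P.V n} : x ∈ sc 1 Y ↔ ∃ y ∈ Y, P.π • y = x := by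
  simpa using LBasic_nat (e := 1) (Y := Y) (x := x)

theorem LBasic_den {ι : Type} [Finite ι] (f : ι → P.V n) :
    ∃ e : ℕ, ∀ i, P.π ^ e • f i ∈ P.L0 n := by
  obtain ⟨b, hb⟩ := IsLocalization.exist_integer_multiples_of_finite (nonZeroDivisors P.O)
    fun i : ι × Fin n => f i.1 i.2
  obtain ⟨e, u, hu⟩ := IsDiscreteValuationRing.eq_unit_mul_pow_irreducible
    (nonZeroDivisors.ne_zero b.2) P.hπ
  refine ⟨e, fun i => ?_⟩
  have h : (b : P.O) • f i ∈ P.L0 n := fun j _ => Submodule.mem_one.2 (hb (i, j))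
  rw [hu, mul_smul] at h
  exact (Submodule.smul_mem_iff_of_isUnit _ u.isUnit).1 h

theorem sc_anti {e e' : ℤ} (h : e ≤ e') (Y : P.L n) : sc e' Y ≤ sc e Y := by
  obtain ⟨d, rfl⟩ := Int.le.dest h
  rw [sc_add]
  refine (sc e).monotone fun x hx => ?_
  obtain ⟨y, hy, rfl⟩ := LBasic_nat.1 hx
  exact Y.smul_mem _ hy

theorem sc_le_sc {e e' : ℤ} {Y Y' : P.L n} (h : e ≤ e') (hY : Y ≤ Y') : sc e' Y ≤ sc e Y' :=
  (sc_anti h Y).trans ((sc e).monotone hY)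

theorem sc_rs (e : ℤ) (W : P.S n) : sc e (rs W) = rs W :=
  Submodule.ext fun _ => mem_sc.trans (W.smul_mem_iff (Units.ne_zero _))

theorem ac_rs (u : P.A n) (W : P.S n) : ac u (rs W) = rs (im u W) :=
  Submodule.ext fun _ => mem_ac.trans (Submodule.mem_map_equiv (e := u) W).symm

theorem rs_mono {W W' : P.S n} (h : W ≤ W') : rs W ≤ rs W' :=
  fun _ hx => h hx

theorem rs_top : rs (⊤ : P.S n) = ⊤ :=
  rfl

theorem rs_bot : rs (⊥ : P.S n) = ⊥ :=
  rfl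

theorem La_le (W : P.S n) : La W ≤ rs W :=
  inf_le_right

theorem La_mono {W W' : P.S n} (h : W ≤ W') : La W ≤ La W' :=
  inf_le_inf_left _ (rs_mono h)

theorem La_inf {W W' : P.S n} (h : W' ≤ W) : La W ⊓ rs W' = La W' := by
  rw [La, inf_assoc, inf_eq_right.2 (rs_mono h), La]

theorem im_mul (u v : P.A n) (W : P.S n) : im (u * v) W = im u (im v W) :=
  Submodule.map_comp v.toLinearMap u.toLinearMap W

theorem im_one (W : P.S n) : im (1 : P.A n) W = W :=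
  Submodule.map_id W

theorem im_mono (u : P.A n) {W W' : P.S n} (h : W ≤ W') : im u W ≤ im u W' :=
  Submodule.map_mono h

theorem finrank_im (u : P.A n) (W : P.S n) :
    Module.finrank P.K (im u W) = Module.finrank P.K W :=
  u.finrank_map_eq W

theorem exists_lip (u : P.A n) : ∃ C : ℕ, sc C (P.L0 n) ≤ ac u (P.L0 n) := by
  obtain ⟨e, he⟩ := LBasic_den fun i : Fin n => u.symm fun j => if i = j then 1 else 0
  refine ⟨e, fun x hx => ?_⟩
  obtain ⟨y, hy, rfl⟩ := LBasic_nat.1 hx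
  have h := LinearMap.pi_apply_eq_sum_univ u.symm.toLinearMap y
  rw [LinearEquiv.coe_coe] at h
  rw [mem_ac, ← algebraMap_smul P.K, map_smul, algebraMap_smul, h, Finset.smul_sum]
  refine Submodule.sum_mem _ fun i _ => ?_
  obtain ⟨a, ha⟩ := Submodule.mem_one.1 (hy i trivial)
  rw [smul_comm, ← ha, algebraMap_smul]
  exact Submodule.smul_mem _ _ (he i)

theorem LBasic_le {W W' : P.S n} (h : La W ≤ rs W' ⊔ sc 1 (La W)) : W ≤ W' := by
  have h1 : (P.L0 n).FG :=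
    Submodule.fg_pi fun _ => Submodule.one_eq_span (R := P.O) (A := P.K) ▸
      Submodule.fg_span_singleton _
  have h2 : La W ≤ rs W' := Submodule.le_of_le_smul_of_le_jacobson_bot (h1.of_le inf_le_left)
    (IsLocalRing.maximalIdeal_le_jacobson ⊥) (h.trans (sup_le_sup_left (fun x hx => by
      obtain ⟨y, hy, rfl⟩ := LBasic_one.1 hx
      exact Submodule.smul_mem_smul P.hπ.not_isUnit hy) _))
  intro x hx
  obtain ⟨e, he⟩ := LBasic_den fun _ : Unit => x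
  have h3 : P.π ^ e • x ∈ W' := h2 ⟨he (), (rs W).smul_mem _ hx⟩
  rw [← algebraMap_smul P.K] at h3
  exact (W'.smul_mem_iff ((map_ne_zero_iff _ (IsFractionRing.injective P.O P.K)).2
    (pow_ne_zero _ P.hπ.ne_zero))).1 h3

/-- The standard lattice of a nonzero subspace is not divisible. -/
theorem not_La_le {W : P.S n} (hW : W ≠ ⊥) : ¬ La W ≤ sc 1 (La W) :=
  fun h => hW (le_bot_iff.1 (LBasic_le (h.trans le_sup_right)))

/-- A proper subspace is not dense. -/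
theorem le_of_La_le {W W' : P.S n} (h : La W ≤ rs W' ⊔ sc 1 (La W)) : W ≤ W' :=
  LBasic_le h

open Classical in
/-- Chains between `π N` and `N` have at most `n` jumps. -/
theorem chain_le (N : P.L n) (f : ℕ → P.L n) (M : ℕ) (hf : Monotone f) (h0 : sc 1 N ≤ f 0)
    (hM : f M ≤ N) : ((Finset.range M).filter fun i => f (i + 1) ≠ f i).card ≤ n := by
  set J := (Finset.range M).filter fun i => f (i + 1) ≠ f i
  have h1 : ∀ i : J, ∃ x ∈ f (i + 1), x ∉ f i := fun i =>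
    SetLike.exists_of_lt ((hf i.1.le_succ).lt_of_ne (Finset.mem_filter.1 i.2).2.symm)
  choose x hx hx' using h1
  have h2 : LinearIndependent P.O x := Fintype.linearIndependent_iff.2 fun g hg i => by
    obtain ⟨i₀, -, h3⟩ := Finset.exists_min_image Finset.univ
      (fun i => IsDiscreteValuationRing.addVal P.O (g i)) ⟨i, Finset.mem_univ _⟩
    choose h hh using fun i => IsDiscreteValuationRing.addVal_le_iff_dvd.1
      (h3 i (Finset.mem_univ _))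
    by_contra hi
    have h4 : g i₀ ≠ 0 := fun e => hi (by rw [hh i, e, zero_mul])
    have h5 : ∑ i, h i • x i = 0 := by
      rw [← smul_eq_zero_iff_right h4, Finset.smul_sum, ← hg]
      exact Finset.sum_congr rfl fun i _ => by rw [smul_smul, ← hh]
    obtain ⟨j, hj, h6⟩ := Finset.exists_max_image (Finset.univ.filter fun i => IsUnit (h i))
      (fun i => i.1) ⟨i₀, Finset.mem_filter.2 ⟨Finset.mem_univ _,
        mul_left_cancel₀ h4 ((mul_one _).trans (hh i₀)) ▸ isUnit_one⟩⟩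
    rw [← Finset.add_sum_erase _ _ (Finset.mem_univ j), add_eq_zero_iff_eq_neg] at h5
    refine hx' j ((Submodule.smul_mem_iff_of_isUnit _ (Finset.mem_filter.1 hj).2).1 ?_)
    rw [h5]
    refine neg_mem (Submodule.sum_mem _ fun i hi => ?_)
    by_cases hu : IsUnit (h i)
    · exact Submodule.smul_mem _ _ (hf (lt_of_le_of_ne
        (h6 i (Finset.mem_filter.2 ⟨Finset.mem_univ _, hu⟩))
        fun e => (Finset.mem_erase.1 hi).1 (Subtype.ext e)) (hx i))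
    · obtain ⟨c, hc⟩ := Ideal.mem_span_singleton'.1
        (P.hπ.maximalIdeal_eq ▸ (IsLocalRing.mem_maximalIdeal _).2 hu)
      refine hf (Nat.zero_le _) (h0 (LBasic_one.2 ⟨c • x i, N.smul_mem _ (hM (hf
        (Finset.mem_range.1 (Finset.mem_filter.1 i.2).1) (hx i))), ?_⟩))
      rw [smul_smul, mul_comm, hc]
  simpa using ((LinearIndependent.iff_fractionRing P.O P.K).1 h2).fintype_card_le_finrank

end Pool.Agent.MP_f7db47_al.GN.Pl

end

section

/-!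
Boxes in tropically convex sets are dismantlable.
-/

namespace Pool.Agent.MP_f7db47_al.GN

variable {G : Type}

/-- The least shift that puts `y` above `u` on `E`. -/
lemma Trop_shift (E : Finset G) (hE : E.Nonempty) (u : G → ℤ) : ∃ d : (G → ℤ) → ℤ, ∀ y,
    (∀ s ∈ E, u s ≤ y s + d y) ∧ ∃ s ∈ E, y s + d y = u s := by
  have h : ∀ y : G → ℤ, ∃ d : ℤ, (∀ s ∈ E, u s ≤ y s + d) ∧ ∃ s ∈ E, y s + d = u s := by
    intro y
    obtain ⟨s, hs, h⟩ := E.exists_max_image (fun s => u s - y s) hE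
    exact ⟨u s - y s, fun t ht => by have := h t ht; omega, s, hs, by omega⟩
  choose d hd using h
  exact ⟨d, hd⟩

open Classical in
/-- Normalisation. -/
noncomputable def Trop_nm (F : Finset G) (o : G) (x : G → ℤ) : G → ℤ :=
  fun s => if s ∈ F then x s - x o else 0

lemma Trop_nm_mem {F : Finset G} {o : G} (x : G → ℤ) {s : G} (hs : s ∈ F) :
    Trop_nm F o x s = x s - x o := if_pos hs

lemma Trop_nmK {F : Finset G} {o : G} (ho : o ∈ F) {Cl : (G → ℤ) → Prop}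
    (hcongr : ∀ x y, (∀ s ∈ F, x s = y s) → Cl x → Cl y)
    (hshift : ∀ x (c : ℤ), Cl x → Cl fun s => x s + c) {K : Finset (G → ℤ)}
    (hK : ∀ x, x ∈ K ↔ Cl x ∧ x o = 0 ∧ ∀ s ∉ F, x s = 0) {x : G → ℤ} (hx : Cl x) :
    Trop_nm F o x ∈ K :=
  (hK _).2 ⟨hcongr _ _ (fun s hs => by rw [Trop_nm_mem x hs, sub_eq_add_neg])
    (hshift x (-x o) hx), by rw [Trop_nm_mem x ho, sub_self], fun s hs => if_neg hs⟩

/-- The least closed function above `u` on `E`. -/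
lemma Trop_cl {F : Finset G} {o : G} (ho : o ∈ F) {Cl : (G → ℤ) → Prop}
    (hcongr : ∀ x y, (∀ s ∈ F, x s = y s) → Cl x → Cl y)
    (hshift : ∀ x (c : ℤ), Cl x → Cl fun s => x s + c)
    (hmin : ∀ x y, Cl x → Cl y → Cl fun s => min (x s) (y s)) {K : Finset (G → ℤ)}
    (hK : ∀ x, x ∈ K ↔ Cl x ∧ x o = 0 ∧ ∀ s ∉ F, x s = 0) (hKne : K.Nonempty) {E : Finset G}
    (hE : E ⊆ F) (hne : E.Nonempty) (u : G → ℤ) : ∃ c, Cl c ∧ (∀ s ∈ E, u s ≤ c s) ∧
      ∀ x, Cl x → (∀ s ∈ E, u s ≤ x s) → ∀ s ∈ F, c s ≤ x s := by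
  obtain ⟨d, hd⟩ := Trop_shift E hne u
  have h := Finset.inf'_induction hKne (fun y s => y s + d y)
    (p := fun c => Cl c ∧ ∀ s ∈ E, u s ≤ c s)
    (fun a ha b hb => ⟨hmin a b ha.1 hb.1, fun s hs => le_min (ha.2 s hs) (hb.2 s hs)⟩)
    fun y hy => ⟨hshift y _ ((hK y).1 hy).1, (hd y).1⟩
  refine ⟨_, h.1, h.2, fun x hx hu s hs => ?_⟩
  have h1 := Finset.inf'_le (fun y s => y s + d y) (Trop_nmK ho hcongr hshift hK hx) s
  obtain ⟨t, ht, h2⟩ := (hd (Trop_nm F o x)).2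
  have h3 := hu t ht
  rw [Trop_nm_mem x (hE ht)] at h2
  refine le_trans h1 ?_
  show Trop_nm F o x s + _ ≤ _
  rw [Trop_nm_mem x hs]
  omega

theorem adjT_symm (F : Finset G) (x y : G → ℤ) (h : AdjT F x y) : AdjT F y x := by
  obtain ⟨h1, δ, h2⟩ := h
  exact ⟨h1.symm, 1 - δ, fun s hs => by have := h2 s hs; omega⟩

/-- Adjacent normalised vertices are comparable and at distance at most one. -/
theorem AdjT.norm {F : Finset G} {o : G} (ho : o ∈ F) {x y : G → ℤ} (hx : x o = 0) (hy : y o = 0)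
    (h : AdjT F x y) :
    (∀ s ∈ F, x s ≤ y s ∧ y s ≤ x s + 1) ∨ ∀ s ∈ F, y s ≤ x s ∧ x s ≤ y s + 1 := by
  obtain ⟨-, δ, h2⟩ := h
  have h0 := h2 o ho
  rcases (by omega : δ = 1 ∨ δ = 0) with rfl | rfl
  · exact Or.inr fun s hs => by have := h2 s hs; omega
  · exact Or.inl fun s hs => by have := h2 s hs; omega

theorem box_dism (F F' : Finset G) (hF : F' ⊆ F) (hne : F'.Nonempty) (o : G) (ho : o ∈ F)
    (Cl : (G → ℤ) → Prop) (hcongr : ∀ x y, (∀ s ∈ F, x s = y s) → Cl x → Cl y)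
    (hshift : ∀ x (c : ℤ), Cl x → Cl fun s => x s + c)
    (hmin : ∀ x y, Cl x → Cl y → Cl fun s => min (x s) (y s)) (K : Finset (G → ℤ))
    (hK : ∀ x, x ∈ K ↔ Cl x ∧ x o = 0 ∧ ∀ s ∉ F, x s = 0) (lo hi : G → ℤ) (B : Finset (G → ℤ))
    (hB : ∀ y, y ∈ B ↔ y ∈ K ∧ ∃ δ : ℤ, ∀ s ∈ F', lo s ≤ y s + δ ∧ y s + δ ≤ hi s)
    (hBne : B.Nonempty) : Dism (AdjT F) B := by
  obtain ⟨y₀, hy₀⟩ := hBne
  have hKne : K.Nonempty := ⟨y₀, ((hB y₀).1 hy₀).1⟩
  obtain ⟨d, hd⟩ := Trop_shift F' hne lo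
  obtain ⟨l, hl1, hl2, hl3⟩ := Trop_cl ho hcongr hshift hmin hK hKne hF hne lo
  choose cl hc1 hc2 hc3 using Trop_cl ho hcongr hshift hmin hK hKne (Finset.Subset.refl F) ⟨o, ho⟩
  have hcl : ∀ z ∈ B, Cl fun s => z s + d z := fun z hz =>
    hshift z _ ((hK z).1 ((hB z).1 hz).1).1
  have hlo : ∀ z ∈ B, ∀ s ∈ F, l s ≤ z s + d z := fun z hz => hl3 _ (hcl z hz) (hd z).1
  have hH : ∀ y, Cl y → ∀ z ∈ B, (∀ s ∈ F, l s ≤ y s) → (∀ s ∈ F, y s ≤ z s + d z) →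
      Trop_nm F o y ∈ B ∧ ∀ s ∈ F, Trop_nm F o y s + d (Trop_nm F o y) = y s := by
    intro y hy z hz h1 h2
    obtain ⟨-, δ, hδ⟩ := (hB z).1 hz
    obtain ⟨t, ht, h3⟩ := (hd z).2
    refine ⟨(hB _).2 ⟨Trop_nmK ho hcongr hshift hK hy, y o, fun s hs => ?_⟩, fun s hs => ?_⟩
    · have := hl2 s hs
      have := h1 s (hF hs)
      have := h2 s (hF hs)
      have := hδ s hs
      have := hδ t ht
      rw [Trop_nm_mem y (hF hs)]
      omega
    · obtain ⟨t', ht', h4⟩ := (hd (Trop_nm F o y)).2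
      have h5 := (hd (Trop_nm F o y)).1 t ht
      rw [Trop_nm_mem y (hF ht)] at h5
      rw [Trop_nm_mem y (hF ht')] at h4
      have := h2 t (hF ht)
      have := hl2 t' ht'
      have := h1 t' (hF ht')
      rw [Trop_nm_mem y hs]
      omega
  obtain ⟨h01, h02⟩ := hH l hl1 y₀ hy₀ (fun _ _ => le_rfl) (hlo y₀ hy₀)
  refine ⟨fun z => ∑ s ∈ F, (z s + d z), Trop_nm F o l,
    fun z => Trop_nm F o (cl fun s => max (z s + d z - 1) (l s)), h01, fun z hz hz0 => ?_⟩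
  obtain ⟨y, hy⟩ : ∃ y, y = cl fun s => max (z s + d z - 1) (l s) := ⟨_, rfl⟩
  have y1 : Cl y := hy ▸ hc1 _
  have y2 : ∀ s ∈ F, z s + d z - 1 ≤ y s ∧ l s ≤ y s := fun s hs =>
    max_le_iff.1 (hy ▸ hc2 _ s hs)
  have y3 : ∀ x, Cl x → (∀ s ∈ F, z s + d z - 1 ≤ x s ∧ l s ≤ x s) → ∀ s ∈ F, y s ≤ x s :=
    fun x hx h => hy ▸ hc3 _ x hx fun s hs => max_le_iff.2 (h s hs)
  have y4 := y3 _ (hcl z hz) fun s hs => ⟨by omega, hlo z hz s hs⟩
  obtain ⟨y5, y6⟩ := hH y y1 z hz (fun s hs => (y2 s hs).2) y4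
  obtain ⟨t, ht, hmax⟩ := F.exists_max_image (fun s => z s + d z - l s) ⟨o, ho⟩
  have hpos : l t < z t + d z := by
    by_contra hle
    obtain ⟨-, z1, z2⟩ := (hK z).1 ((hB z).1 hz).1
    refine hz0 (funext fun s => ?_)
    by_cases hs : s ∈ F
    · have := hmax s hs
      have := hmax o ho
      have := hlo z hz s hs
      have := hlo z hz o ho
      rw [Trop_nm_mem l hs]
      omega
    · rw [z2 s hs]
      exact (if_neg hs).symm
  simp only [← hy]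
  refine ⟨?_, y5, ?_, fun w hw hadj hrk => ?_⟩
  · rw [Finset.sum_congr rfl h02]
    exact Finset.sum_lt_sum (hlo z hz) ⟨t, ht, hpos⟩
  · rw [Finset.sum_congr rfl y6]
    refine Finset.sum_lt_sum y4 ⟨t, ht, ?_⟩
    have h := y3 _ (hmin _ _ (hcl z hz) (hshift l (z t + d z - l t - 1) hl1)) (fun s hs => by
      have := hmax s hs
      have := hlo z hz s hs
      omega) t ht
    omega
  · have h1 : ∀ s ∈ F, z s + d z - 1 ≤ w s + d w ∧ w s + d w ≤ z s + d z := by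
      rcases hadj with rfl | ⟨-, δ, hδ⟩
      · exact fun s _ => by omega
      obtain ⟨a, ha, h2⟩ := (hd z).2
      obtain ⟨b, hb, h3⟩ := (hd w).2
      have := (hd w).1 a ha
      have := (hd z).1 b hb
      have := hδ a (hF ha)
      have := hδ b (hF hb)
      rcases (by omega : δ + d w - d z = 0 ∨ δ + d w - d z = 1) with h4 | h4
      · exact fun s hs => by have := hδ s hs; omega
      · have h5 : ∀ s ∈ F, z s + d z ≤ w s + d w := fun s hs => by have := hδ s hs; omega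
        have h6 := (Finset.sum_eq_sum_iff_of_le h5).1 (le_antisymm (Finset.sum_le_sum h5) hrk)
        exact fun s hs => by have := h6 s hs; omega
    have h7 := y3 _ (hcl w hw) fun s hs => ⟨(h1 s hs).1, hlo w hw s hs⟩
    refine or_iff_not_imp_left.2 fun hne' => ⟨hne', y o + 1 - d w, fun s hs => ?_⟩
    have := h7 s hs
    have := h1 s hs
    have := y2 s hs
    rw [Trop_nm_mem y hs]
    omega

theorem mem_boxF {F : Finset G} {b : ℕ} {x : G → ℤ} :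
    x ∈ boxF F b ↔ (∀ s ∈ F, |x s| ≤ b) ∧ ∀ s ∉ F, x s = 0 := by
  simp only [boxF, Finset.mem_image, Fintype.mem_piFinset, Finset.mem_Icc]
  constructor
  · rintro ⟨f, hf, rfl⟩
    exact ⟨fun s hs => by simp only [dif_pos hs]; exact abs_le.2 (hf _), fun s hs => dif_neg hs⟩
  · rintro ⟨h1, h2⟩
    refine ⟨fun s => x s, fun s => abs_le.1 (h1 s s.2), funext fun s => ?_⟩
    split_ifs with h
    · rfl
    · exact (h2 s h).symm

theorem card_boxF (F : Finset G) (b : ℕ) : (boxF F b).card ≤ (2 * b + 1) ^ F.card := by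
  classical
  rw [boxF]
  refine (@Finset.card_image_le _ _ _ _ (_)).trans (le_of_eq ?_)
  rw [@Fintype.card_piFinset _ (_), Finset.prod_const, Finset.card_univ, Fintype.card_coe,
    Int.card_Icc]
  congr 1
  omega

end Pool.Agent.MP_f7db47_al.GN

end

section

/-!
Close subspaces differ by an automorphism that is close to the identity.
-/

namespace Pool.Agent.MP_f7db47_al.GN.Pl

variable {P : Pl} {n : ℕ}

/-- The parametrisation of the standard lattice. -/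
noncomputable def LTr_j (P : Pl) (n : ℕ) : (Fin n → P.O) →ₗ[P.O] P.V n :=
  LinearMap.pi fun i => (Algebra.linearMap P.O P.K).comp (LinearMap.proj i)

theorem LTr_j_mem (a : Fin n → P.O) : LTr_j P n a ∈ P.L0 n :=
  fun i _ => Submodule.mem_one.2 ⟨a i, rfl⟩

theorem LTr_j_surj {x : P.V n} (hx : x ∈ P.L0 n) : ∃ a, LTr_j P n a = x := by
  have h : ∀ i, ∃ a : P.O, algebraMap P.O P.K a = x i := fun i =>
    Submodule.mem_one.1 (hx i (Set.mem_univ i))
  choose a ha using h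
  exact ⟨a, funext ha⟩

theorem LTr_j_single (i : Fin n) : LTr_j P n (Pi.single i 1) = Pi.single i 1 := by
  funext k
  change algebraMap P.O P.K ((Pi.single i 1 : Fin n → P.O) k) = _
  by_cases h : k = i
  · subst h; simp
  · simp [Pi.single_eq_of_ne h]

/-- A linear map that sends the standard basis into `Y` sends the standard lattice into `Y`. -/
theorem LTr_map_mem (f : P.V n →ₗ[P.K] P.V n) {Y : P.L n} (h : ∀ i, f (Pi.single i 1) ∈ Y)
    {x : P.V n} (hx : x ∈ P.L0 n) : f x ∈ Y := by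
  obtain ⟨a, rfl⟩ := LTr_j_surj hx
  have h1 : (⊤ : Submodule P.O (Fin n → P.O)) ≤
      Y.comap ((f.restrictScalars P.O).comp (LTr_j P n)) := by
    rw [← (Pi.basisFun P.O (Fin n)).span_eq, Submodule.span_le]
    rintro _ ⟨i, rfl⟩
    change f (LTr_j P n (Pi.basisFun P.O (Fin n) i)) ∈ Y
    rw [Pi.basisFun_apply, LTr_j_single]
    exact h i
  exact h1 Submodule.mem_top

/-- An integral projection onto a subspace. -/
theorem LTr_proj (W : P.S n) : ∃ ρ : P.V n →ₗ[P.K] P.V n,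
    (∀ i, ρ (Pi.single i 1) ∈ La W) ∧ ∀ x ∈ La W, ρ x = x := by
  let N : Submodule P.O (Fin n → P.O) := (rs W).comap (LTr_j P n)
  have htf : Module.IsTorsionFree P.O ((Fin n → P.O) ⧸ N) := by
    refine Module.IsTorsionFree.of_smul_eq_zero fun c x hx => ?_
    obtain ⟨a, rfl⟩ := N.mkQ_surjective x
    by_cases hc : c = 0
    · exact Or.inl hc
    refine Or.inr ?_
    rw [← map_smul, Submodule.mkQ_apply, Submodule.Quotient.mk_eq_zero] at hx
    rw [Submodule.mkQ_apply, Submodule.Quotient.mk_eq_zero]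
    have h1 : LTr_j P n (c • a) ∈ W := hx
    rw [map_smul, ← algebraMap_smul P.K] at h1
    exact (W.smul_mem_iff ((map_ne_zero_iff _ (IsFractionRing.injective P.O P.K)).2 hc)).1 h1
  obtain ⟨s, hs⟩ := Module.projective_lifting_property N.mkQ LinearMap.id N.mkQ_surjective
  let r : (Fin n → P.O) →ₗ[P.O] (Fin n → P.O) := LinearMap.id - s.comp N.mkQ
  have hr1 : ∀ a, r a ∈ N := by
    intro a
    rw [← Submodule.Quotient.mk_eq_zero, ← Submodule.mkQ_apply]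
    have h1 : N.mkQ (s (N.mkQ a)) = N.mkQ a := LinearMap.congr_fun hs (N.mkQ a)
    change N.mkQ (a - s (N.mkQ a)) = 0
    rw [map_sub, h1, sub_self]
  have hr2 : ∀ a ∈ N, r a = a := by
    intro a ha
    have h1 : N.mkQ a = 0 := (Submodule.Quotient.mk_eq_zero N).2 ha
    change a - s (N.mkQ a) = a
    rw [h1, map_zero, sub_zero]
  let ρ : P.V n →ₗ[P.K] P.V n :=
    (Pi.basisFun P.K (Fin n)).constr P.K fun i => LTr_j P n (r (Pi.single i 1))
  have hρ : ∀ i, ρ (Pi.single i 1) = LTr_j P n (r (Pi.single i 1)) := fun i => by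
    rw [← Pi.basisFun_apply]
    exact Module.Basis.constr_basis _ _ _ _
  have h2 : (ρ.restrictScalars P.O).comp (LTr_j P n) = (LTr_j P n).comp r := by
    refine (Pi.basisFun P.O (Fin n)).ext fun i => ?_
    change ρ (LTr_j P n (Pi.basisFun P.O (Fin n) i)) = LTr_j P n (r (Pi.basisFun P.O (Fin n) i))
    rw [Pi.basisFun_apply, LTr_j_single, hρ]
  refine ⟨ρ, fun i => ?_, fun x hx => ?_⟩
  · rw [hρ]
    exact ⟨LTr_j_mem _, hr1 _⟩
  · obtain ⟨a, rfl⟩ := LTr_j_surj hx.1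
    have h3 : ρ (LTr_j P n a) = LTr_j P n (r a) := LinearMap.congr_fun h2 a
    rw [h3, hr2 a hx.2]

theorem LTr_nu {W₁ W₂ : P.S n} {Z : P.L n} (h : La W₂ ≤ rs W₁ ⊔ Z) :
    ∃ ν : P.V n →ₗ[P.K] P.V n, (∀ x ∈ P.L0 n, ν x ∈ Z) ∧ ∀ x ∈ La W₂, x + ν x ∈ W₁ := by
  obtain ⟨ρ, h1, h2⟩ := LTr_proj W₂
  have h3 : ∀ i, ∃ w ∈ rs W₁, ∃ l ∈ Z, w + l = ρ (Pi.single i 1) := fun i =>
    Submodule.mem_sup.1 (h (h1 i))
  choose w hw l hl e using h3
  let ν : P.V n →ₗ[P.K] P.V n := (Pi.basisFun P.K (Fin n)).constr P.K fun i => -l i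
  have hν : ∀ i, ν (Pi.single i 1) = -l i := fun i => by
    rw [← Pi.basisFun_apply]
    exact Module.Basis.constr_basis _ _ _ _
  refine ⟨ν, fun x hx => LTr_map_mem ν (fun i => ?_) hx, fun x hx => ?_⟩
  · rw [hν]
    exact Z.neg_mem (hl i)
  · have h4 : (ρ + ν) x ∈ rs W₁ := by
      refine LTr_map_mem (ρ + ν) (fun i => ?_) hx.1
      rw [LinearMap.add_apply, hν, ← e i, add_neg_cancel_right]
      exact hw i
    rwa [LinearMap.add_apply, h2 x hx] at h4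

theorem LTr_sc {ν : P.V n →ₗ[P.K] P.V n} {Z : P.L n} {E : ℤ} (h : ∀ x ∈ P.L0 n, ν x ∈ sc E Z)
    {e : ℤ} {x : P.V n} (hx : x ∈ sc e (P.L0 n)) : ν x ∈ sc (e + E) Z := by
  rw [sc_add, mem_sc, ← map_smul]
  exact h _ (mem_sc.1 hx)

theorem LTr_half {W W₁ W₂ : P.S n} {E : ℤ} (hE : 1 ≤ E) (h21 : La W₂ ≤ rs W₁ ⊔ sc E (La W)) :
    ∃ v : P.A n, im v W₂ ≤ W₁ ∧ ∀ (x : ℤ) (Y : P.L n), Y ≤ sc x (La W) →
      ac v Y ≤ Y ⊔ sc (x + E) (La W) ∧ ac v⁻¹ Y ≤ Y ⊔ sc (x + E) (La W) := by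
  obtain ⟨ν, h1, h2⟩ := LTr_nu h21
  have hL : La W ≤ P.L0 n := inf_le_left
  let f : P.V n →ₗ[P.K] P.V n := LinearMap.id + ν
  have hf : ∀ x, f x = x + ν x := fun x => rfl
  have hinj : Function.Injective f := by
    rw [← LinearMap.ker_eq_bot]
    by_contra hne
    refine not_La_le hne fun x hx => ?_
    have h3 : x + ν x = 0 := hx.2
    have h4 : x ∈ sc 1 (P.L0 n) := by
      rw [eq_neg_of_add_eq_zero_left h3]
      exact Submodule.neg_mem _ (sc_le_sc hE hL (h1 x hx.1))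
    rw [La, map_inf, sc_rs]
    exact ⟨h4, hx.2⟩
  let v : P.A n := LinearEquiv.ofInjectiveEndo f hinj
  have hv : ∀ x, v x = x + ν x := fun x => rfl
  have hinv : ∀ z, v z ∈ P.L0 n → z ∈ P.L0 n := by
    intro z hz
    obtain ⟨C', hC'⟩ := exists_lip v
    have h3 : ac v⁻¹ (P.L0 n) ≤ sc (-(C' : ℤ)) (P.L0 n) := by
      have h4 := (sc (-(C' : ℤ))).monotone ((ac v⁻¹).monotone hC')
      rwa [ac_inv_ac, ac_sc, ← sc_add, neg_add_cancel, sc_zero] at h4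
    have h4 : z ∈ sc (-(C' : ℤ)) (P.L0 n) := h3 (mem_ac.2 hz)
    have h5 : ∀ a : ℕ, z ∈ sc (-(a : ℤ)) (P.L0 n) → z ∈ P.L0 n := by
      intro a
      induction a with
      | zero => intro h; rwa [Nat.cast_zero, neg_zero, sc_zero] at h
      | succ a ih =>
        intro h
        refine ih ?_
        have h6 : ν z ∈ sc (-(a : ℤ)) (P.L0 n) :=
          sc_le_sc (by push_cast; omega) hL (LTr_sc h1 h)
        have h7 : v z ∈ sc (-(a : ℤ)) (P.L0 n) := by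
          refine sc_anti (e' := 0) (by omega) _ ?_
          rwa [sc_zero]
        have h8 := Submodule.sub_mem _ h7 h6
        rwa [hv, add_sub_cancel_right] at h8
    exact h5 C' h4
  refine ⟨v, ?_, fun x Y hY => ⟨fun y hy => ?_, fun y hy => ?_⟩⟩
  · rw [im, Submodule.map_le_iff_le_comap]
    exact le_of_La_le (le_sup_of_le_left fun x hx => h2 x hx)
  · have h3 := mem_ac.1 hy
    have h4 : y = v.symm y + ν (v.symm y) := by rw [← hv, LinearEquiv.apply_symm_apply]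
    rw [h4]
    exact Submodule.add_mem_sup h3 (LTr_sc h1 (sc_le_sc le_rfl hL (hY h3)))
  · have h3 : v y ∈ Y := mem_ac.1 hy
    have h4 : y ∈ sc x (P.L0 n) := by
      rw [mem_sc]
      refine hinv _ ?_
      rw [map_smul]
      exact mem_sc.1 (sc_le_sc le_rfl hL (hY h3))
    have h5 : y = v y + -ν y := by rw [hv, add_neg_cancel_right]
    rw [h5]
    exact Submodule.add_mem_sup h3 (Submodule.neg_mem _ (LTr_sc h1 h4))

theorem exists_transport {W W₁ W₂ : P.S n} {E : ℤ} (hE : 1 ≤ E) (h₁ : W₁ ≤ W) (h₂ : W₂ ≤ W)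
    (h12 : La W₁ ≤ rs W₂ ⊔ sc E (La W)) (h21 : La W₂ ≤ rs W₁ ⊔ sc E (La W)) :
    ∃ v : P.A n, im v W₂ = W₁ ∧ ∀ (x : ℤ) (Y : P.L n), Y ≤ sc x (La W) →
      ac v Y ≤ Y ⊔ sc (x + E) (La W) ∧ ac v⁻¹ Y ≤ Y ⊔ sc (x + E) (La W) := by
  obtain ⟨v, hv, h⟩ := LTr_half hE h21
  obtain ⟨v', hv', -⟩ := LTr_half hE h12
  refine ⟨v, Submodule.eq_of_le_of_finrank_le hv ?_, h⟩
  rw [finrank_im, ← finrank_im v' W₁]
  exact Submodule.finrank_mono hv'

end Pool.Agent.MP_f7db47_al.GN.Pl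

end

section

/-!
The choice of the parameters.
-/

namespace Pool.Agent.MP_f7db47_al.GN

theorem NPar_succ {x a : ℕ} (h : x ≤ 2 ^ a) : x + 1 ≤ 2 ^ (a + 1) := by
  have := Nat.one_le_two_pow (n := a)
  rw [pow_succ]
  omega

theorem NPar_tower (q C m s n c M : ℕ) (hq : q ≤ c) (hm : m ≤ M) :
    ((2 * (q * C * m) + 1) ^ s ^ m + 1) ^ (n + 1) ≤ 2 ^ 2 ^ ((2 * (c * C) + s) * M + 1 + n) := by
  have h1 : 2 * (q * C * m) + 1 ≤ 2 ^ (2 * (c * C) * M) := by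
    refine le_trans ?_ (Nat.succ_le_of_lt Nat.lt_two_pow_self)
    have : q * C * m ≤ c * C * M := by gcongr
    rw [mul_assoc 2]
    omega
  have h2 : s ^ m ≤ 2 ^ (s * M) :=
    calc s ^ m ≤ (2 ^ s) ^ m := Nat.pow_le_pow_left Nat.lt_two_pow_self.le _
      _ ≤ (2 ^ s) ^ M := Nat.pow_le_pow_right (by positivity) hm
      _ = 2 ^ (s * M) := by rw [pow_mul]
  have h3 : 2 * (c * C) * M * s ^ m ≤ 2 ^ ((2 * (c * C) + s) * M) := by
    rw [add_mul, pow_add]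
    exact Nat.mul_le_mul Nat.lt_two_pow_self.le h2
  have h4 : (2 * (q * C * m) + 1) ^ s ^ m ≤ 2 ^ 2 ^ ((2 * (c * C) + s) * M) :=
    calc _ ≤ (2 ^ (2 * (c * C) * M)) ^ s ^ m := Nat.pow_le_pow_left h1 _
      _ = 2 ^ (2 * (c * C) * M * s ^ m) := by rw [← pow_mul]
      _ ≤ _ := Nat.pow_le_pow_right (by norm_num) h3
  have h5 := Nat.pow_le_pow_left (NPar_succ h4) (n + 1)
  refine h5.trans ?_
  rw [← pow_mul]
  refine Nat.pow_le_pow_right (by norm_num) ?_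
  rw [pow_add _ _ n]
  exact Nat.mul_le_mul (NPar_succ le_rfl) (Nat.succ_le_of_lt Nat.lt_two_pow_self)

theorem exists_par (n C Rt : ℕ) : ∃ c : ℕ, ∀ X U' : ℕ, ∃ p : Par, p.OK n C U' ∧ p.Rt = Rt ∧
    p.X = X ∧ p.q ≤ c ∧ p.U ≤ c * (X + U' + 1) := by
  obtain ⟨A, hA⟩ : ∃ A, A = 6 * (2 * C + 2) * Rt + (4 * C + 2) * Rt + 3 + (2 * C + 1) :=
    ⟨_, rfl⟩
  obtain ⟨q, hq⟩ : ∃ q, q = n * (4 * Rt * (2 * n + 1)) + 2 * Rt + 1 := ⟨_, rfl⟩
  obtain ⟨L, hL⟩ : ∃ L, L = 5 * Rt + q * (3 ^ n * A + 2 * (2 * C + 2) * Rt + 1) := ⟨_, rfl⟩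
  refine ⟨n * L + 2 * Rt + 3 ^ n * A + 1 + q, fun X U' => ?_⟩
  obtain ⟨Y, hY⟩ : ∃ Y, Y = X + U' + 1 := ⟨_, rfl⟩
  have hY1 : ∀ z, z ≤ z * Y := fun z => Nat.le_mul_of_pos_right z (by omega)
  have hanti : Antitone fun i => 3 ^ (n - i) * (A * Y) := fun i j hij =>
    Nat.mul_le_mul_right _ (Nat.pow_le_pow_right (by norm_num) (by omega))
  have hQ : 6 * (2 * C + 2) * Rt + 2 * X + 3 + (4 * C + 2) * Rt + (2 * C + 1) * U' ≤ A * Y := by
    have h1 := hY1 (6 * (2 * C + 2) * Rt)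
    have h2 := hY1 ((4 * C + 2) * Rt)
    have h3 : (2 * C + 1) * U' ≤ (2 * C + 1) * Y := Nat.mul_le_mul_left _ (by omega)
    rw [hA, add_mul _ _ Y, add_mul _ 3 Y, add_mul _ ((4 * C + 2) * Rt) Y]
    omega
  refine ⟨⟨q, (n * L + 2 * Rt) * Y, L * Y, (n * L + 2 * Rt + 3 ^ n * A + 1) * Y, Rt, X,
    fun i => 3 ^ (n - i) * (A * Y)⟩, ⟨?_, ?_, ?_, hanti, ?_, ?_, ?_, ?_, ?_, ?_, ?_⟩,
    rfl, rfl, ?_, ?_⟩
  · show 0 < q
    omega
  · show n * (4 * Rt * (2 * n + 1)) < q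
    omega
  · show 2 * Rt ≤ q
    omega
  · show 1 ≤ 3 ^ (n - n) * (A * Y)
    rw [Nat.sub_self, pow_zero, one_mul]
    omega
  · intro i hi
    show 2 * (3 ^ (n - (i + 1)) * (A * Y)) + 6 * (2 * C + 2) * Rt + 2 * X + 3 +
      (4 * C + 2) * Rt + (2 * C + 1) * U' ≤ 3 ^ (n - i) * (A * Y)
    have h1 : A * Y ≤ 3 ^ (n - (i + 1)) * (A * Y) := Nat.le_mul_of_pos_left _ (by positivity)
    rw [show n - i = n - (i + 1) + 1 by omega, pow_succ', mul_assoc 3]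
    omega
  · intro i
    show 5 * Rt + q * (3 ^ (n - i) * (A * Y) + 2 * (2 * C + 2) * Rt + 1) ≤ L * Y
    have h1 : 3 ^ (n - i) * (A * Y) ≤ 3 ^ n * A * Y := by
      rw [mul_assoc]
      exact hanti (Nat.zero_le i)
    have h2 := hY1 (2 * (2 * C + 2) * Rt)
    have h3 := hY1 1
    have h4 := hY1 (5 * Rt)
    rw [hL, add_mul, mul_assoc q, add_mul _ 1 Y, add_mul _ _ Y]
    gcongr
  · show n * (L * Y) + 2 * Rt ≤ (n * L + 2 * Rt) * Y
    have := hY1 (2 * Rt)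
    rw [add_mul, mul_assoc n]
    omega
  · show (n * L + 2 * Rt) * Y ≤ (n * L + 2 * Rt + 3 ^ n * A + 1) * Y
    exact Nat.mul_le_mul_right _ (by omega)
  · show 3 ^ (n - 0) * (A * Y) ≤ (n * L + 2 * Rt + 3 ^ n * A + 1) * Y
    rw [Nat.sub_zero, ← mul_assoc]
    exact Nat.mul_le_mul_right _ (by omega)
  · show U' ≤ (n * L + 2 * Rt + 3 ^ n * A + 1) * Y
    rw [add_mul _ 1 Y]
    omega
  · show q ≤ _
    omega
  · show (n * L + 2 * Rt + 3 ^ n * A + 1) * Y ≤ _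
    rw [← hY]
    exact Nat.mul_le_mul_right _ (by omega)

theorem exists_pars (n C Rt β s₀ : ℕ) : ∃ c : ℕ, ∀ X : ℕ, ∃ (Uf : ℕ → ℕ) (p : ℕ → Par),
    (∀ r, (p r).OK n C (Uf r) ∧ (p r).Rt = Rt ∧ (p r).X = X ∧ (p r).U = Uf (r + 1)) ∧
    ∀ r < β, ((2 * ((p r).q * C * (p r).m) + 1) ^ s₀ ^ (p r).m + 1) ^ (n + 1) ≤
      2 ^ 2 ^ (c * (X + 1)) := by
  obtain ⟨c, hc⟩ := exists_par n C Rt
  choose par h1 h2 h3 h4 h5 using hc
  refine ⟨(2 * (c * C) + s₀) * (c + 1) ^ β + 1 + n, fun X => ?_⟩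
  obtain ⟨Uf, h0, hs⟩ : ∃ Uf : ℕ → ℕ, Uf 0 = 0 ∧ ∀ r, Uf (r + 1) = (par X (Uf r)).U :=
    ⟨fun r => Nat.rec 0 (fun _ u => (par X u).U) r, rfl, fun _ => rfl⟩
  have hb : ∀ r, X + Uf r + 1 ≤ (c + 1) ^ r * (X + 1) := by
    intro r
    induction r with
    | zero => rw [h0, pow_zero, one_mul]
    | succ r ih =>
      have h6 := h5 X (Uf r)
      have h7 := Nat.mul_le_mul_left (c + 1) ih
      rw [pow_succ', mul_assoc, hs]
      rw [add_mul, one_mul] at h7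
      omega
  refine ⟨Uf, fun r => par X (Uf r), fun r => ⟨h1 _ _, h2 _ _, h3 _ _, (hs r).symm⟩,
    fun r hr => ?_⟩
  have h6 : (par X (Uf r)).m ≤ (c + 1) ^ β * (X + 1) := by
    have h7 := (h1 X (Uf r)).u1
    have h8 := hb (r + 1)
    have h9 : (c + 1) ^ (r + 1) * (X + 1) ≤ (c + 1) ^ β * (X + 1) :=
      Nat.mul_le_mul_right _ (Nat.pow_le_pow_right (by omega) hr)
    rw [hs] at h8
    omega
  refine (NPar_tower _ C _ s₀ n c _ (h4 _ _) h6).trans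
    (Nat.pow_le_pow_right (by norm_num) (Nat.pow_le_pow_right (by norm_num) ?_))
  have h7 : n ≤ n * (X + 1) := Nat.le_mul_of_pos_right _ (by omega)
  rw [add_mul _ n, add_mul _ 1, mul_assoc _ _ (X + 1)]
  omega

theorem exists_exp (j c e : ℕ) : ∃ c' : ℕ, ∀ X : ℕ,
    j * (2 ^ 2 ^ (c * (X + 1))) ^ e ≤ 2 ^ 2 ^ (c' * (X + 1)) := by
  refine ⟨c + (e + j + 1), fun X => ?_⟩
  obtain ⟨a, ha⟩ : ∃ a, a = c * (X + 1) := ⟨_, rfl⟩
  have h1 : a + e + j + 1 ≤ (c + (e + j + 1)) * (X + 1) := by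
    have : e + j + 1 ≤ (e + j + 1) * (X + 1) := Nat.le_mul_of_pos_right _ (by omega)
    rw [add_mul, ← ha]
    omega
  have h2 : j ≤ 2 ^ (a + e + j) :=
    Nat.lt_two_pow_self.le.trans (Nat.pow_le_pow_right (by norm_num) (by omega))
  have h3 : 2 ^ a * e ≤ 2 ^ (a + e + j) := by
    refine le_trans ?_ (Nat.pow_le_pow_right (by norm_num) (Nat.le_add_right (a + e) j))
    rw [pow_add]
    exact Nat.mul_le_mul_left _ Nat.lt_two_pow_self.le
  rw [← ha, ← pow_mul]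
  calc j * 2 ^ (2 ^ a * e) ≤ 2 ^ j * 2 ^ (2 ^ a * e) :=
        Nat.mul_le_mul_right _ Nat.lt_two_pow_self.le
    _ = 2 ^ (j + 2 ^ a * e) := by rw [pow_add]
    _ ≤ 2 ^ 2 ^ (a + e + j + 1) := by
        refine Nat.pow_le_pow_right (by norm_num) ?_
        rw [pow_succ]
        omega
    _ ≤ _ := Nat.pow_le_pow_right (by norm_num) (Nat.pow_le_pow_right (by norm_num) h1)

open Pointwise in
theorem exists_bl {G : Type} [Group G] (S : Finset G) {ι : Type} [Fintype ι] (P : ι → Pl) (n : ℕ)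
    (ρ : ∀ l, G →* (P l).A n) : ∃ (bl : Bl G) (C : ℕ) (a : ∀ l, Ac G bl C (P l) n),
      S ⊆ bl.B 1 ∧ ∀ l, (a l).ρ = ρ l := by
  classical
  obtain ⟨S', hS'⟩ : ∃ S' : Finset G, S' = insert 1 (S ∪ S⁻¹) := ⟨_, rfl⟩
  have h1 : (1 : G) ∈ S' := hS' ▸ Finset.mem_insert_self _ _
  have h2 : S'⁻¹ = S' := by
    ext g
    simp only [hS', Finset.mem_inv', Finset.mem_insert, Finset.mem_union, inv_eq_one, inv_inv]
    tauto
  choose c hc using fun (l : ι) (s : G) => Pl.exists_lip (ρ l s)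
  obtain ⟨C, hC⟩ : ∃ C : ℕ, ∀ l, ∀ s ∈ S', c l s ≤ C :=
    ⟨Finset.univ.sup fun l => S'.sup (c l), fun l s hs =>
      (Finset.le_sup (f := c l) hs).trans
        (Finset.le_sup (f := fun l => S'.sup (c l)) (Finset.mem_univ l))⟩
  have h3 : ∀ l m, ∀ s ∈ S' ^ m,
      Pl.sc ((C * m : ℕ) : ℤ) ((P l).L0 n) ≤ Pl.ac (ρ l s) ((P l).L0 n) := by
    intro l m
    induction m with
    | zero =>
      intro s hs
      rw [pow_zero, Finset.mem_one] at hs
      rw [hs, map_one, Pl.ac_one, mul_zero, Nat.cast_zero, Pl.sc_zero]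
    | succ m ih =>
      intro s hs
      rw [pow_succ] at hs
      obtain ⟨g, hg, h, hh, rfl⟩ := Finset.mem_mul.1 hs
      have h4 : Pl.sc (C : ℤ) ((P l).L0 n) ≤ Pl.ac (ρ l h) ((P l).L0 n) :=
        (Pl.sc_anti (Nat.cast_le.2 (hC l h hh)) _).trans (hc l h)
      rw [map_mul, Pl.ac_mul, mul_add, mul_one, add_comm, Nat.cast_add, Pl.sc_add]
      refine le_trans ?_ ((Pl.ac (ρ l g)).monotone h4)
      rw [Pl.ac_sc]
      exact (Pl.sc (C : ℤ)).monotone (ih g hg)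
  refine ⟨⟨fun m => S' ^ m, S'.card, ?_, ?_, ?_, ?_, fun m => Finset.card_pow_le⟩, C,
    fun l => ⟨ρ l, fun {m s} hs => h3 l m s hs⟩, ?_, fun l => rfl⟩
  · rw [pow_zero]
    exact Finset.mem_one.2 rfl
  · intro a b g h hg hh
    rw [pow_add]
    exact Finset.mul_mem_mul hg hh
  · intro a g hg
    rw [← h2, inv_pow]
    exact Finset.inv_mem_inv hg
  · intro a b g hab hg
    exact Finset.pow_subset_pow_right h1 hab hg
  · intro g hg
    show g ∈ S' ^ 1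
    rw [pow_one, hS']
    exact Finset.mem_insert_of_mem (Finset.mem_union_left _ hg)

end Pool.Agent.MP_f7db47_al.GN

end
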