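import Pool.Agent.Mg.Ff7db47.G88cbfa
import Pool.Agent.MP_f7db47_al.TreeDefs
import Pool.Agent.MP_f7db47_al.RegB
import Pool.Agent.MP_f7db47_al.RegE
import Pool.Agent.MP_f7db47_al.TameDefs
import Mathlib

section

/-!
The abstract tree data of an action on a tree.
-/

set_option linter.unusedSectionVars false

namespace Pool.Agent.MP_f7db47_al

universe u

section Geo

variable {V : Type u} {X : SimpleGraph V}

lemma tree_uniq (hX : X.IsTree) {a b b' z : V} (h : X.Adj a b) (h' : X.Adj a b')
    (h1 : X.dist z b < X.dist z a) (h2 : X.dist z b' < X.dist z a) : b = b' := by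
  obtain ⟨p, hp⟩ := hX.connected.exists_walk_length_eq_dist b z
  obtain ⟨p', hp'⟩ := hX.connected.exists_walk_length_eq_dist b' z
  have e1 := hX.dist_eq_dist_add_one_of_adj z h
  have e2 := hX.dist_eq_dist_add_one_of_adj z h'
  have q : (SimpleGraph.Walk.cons h p).IsPath := by
    apply SimpleGraph.Walk.isPath_of_length_eq_dist
    rw [SimpleGraph.Walk.length_cons, hp, X.dist_comm (u := a), X.dist_comm (u := b)]; omega
  have q' : (SimpleGraph.Walk.cons h' p').IsPath := by
    apply SimpleGraph.Walk.isPath_of_length_eq_dist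
    rw [SimpleGraph.Walk.length_cons, hp', X.dist_comm (u := a), X.dist_comm (u := b')]; omega
  have := (hX.isAcyclic.subsingleton_path a z).elim ⟨_, q⟩ ⟨_, q'⟩
  simpa using congrArg (fun w : X.Path a z => w.1.getVert 1) this

lemma tree_closer (hX : X.IsTree) {a z : V} (h : z ≠ a) :
    ∃ z', X.Adj z z' ∧ X.dist a z' < X.dist a z := by
  obtain ⟨p, hp⟩ := hX.connected.exists_walk_length_eq_dist z a
  cases p with
  | nil => exact absurd rfl h
  | cons h' p =>
    refine ⟨_, h', ?_⟩
    have := X.dist_le p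
    rw [SimpleGraph.Walk.length_cons] at hp
    rw [X.dist_comm (u := a), X.dist_comm (u := a)]; omega

lemma mem_side (hX : X.IsTree) {a b : V} (h : X.Adj a b) : b ∈ Side X a b := by
  have := hX.dist_ne_of_adj b h
  simp only [Side, Set.mem_ofPred_eq, SimpleGraph.dist_self] at this ⊢
  omega

lemma side_compl (hX : X.IsTree) {a b : V} (h : X.Adj a b) (z : V) :
    z ∈ Side X b a ↔ z ∉ Side X a b := by
  have := hX.dist_ne_of_adj z h
  simp only [Side, Set.mem_ofPred_eq]
  omega

lemma side_tri (hX : X.IsTree) {a b x y : V} (h : X.Adj a b) (h' : X.Adj x y)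
    (hx : x ∈ Side X a b) (hy : y ∉ Side X a b) : x = b ∧ y = a := by
  have e1 := hX.dist_eq_dist_add_one_of_adj x h
  have e2 := hX.dist_eq_dist_add_one_of_adj y h
  have e3 := hX.dist_eq_dist_add_one_of_adj a h'
  have e4 := hX.dist_eq_dist_add_one_of_adj b h'
  simp only [Side, Set.mem_ofPred_eq] at hx hy
  rw [X.dist_comm (u := x), X.dist_comm (u := x)] at e1 hx
  rw [X.dist_comm (u := y), X.dist_comm (u := y)] at e2 hy
  have hxb : x = b := by
    by_contra hne
    obtain ⟨x', h1, h2⟩ := tree_closer hX hne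
    have e5 := hX.dist_eq_dist_add_one_of_adj x' h
    rw [X.dist_comm (u := x'), X.dist_comm (u := x')] at e5
    have := tree_uniq hX (z := a) h1 h' (by omega) (by omega)
    subst this; omega
  refine ⟨hxb, ?_⟩
  subst hxb
  rw [SimpleGraph.dist_self] at e1 e4 hx
  exact (hX.connected.dist_eq_zero_iff.1 (by omega)).symm

lemma side_nest (hX : X.IsTree) {a b c : V} (h : X.Adj a b) (h' : X.Adj b c) (hne : c ≠ a) :
    Side X b c ⊆ Side X a b := by
  intro z hz
  by_contra hz'
  exact hne (tree_uniq hX h' h.symm hz ((side_compl hX h z).2 hz'))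

variable {G : Type u} [Group G] [MulAction G V]

lemma TreeAction.dist_smul (hX : TreeAction G X) (g : G) (a b : V) :
    X.dist (g • a) (g • b) = X.dist a b := by
  have key : ∀ (g : G) a b, X.dist (g • a) (g • b) ≤ X.dist a b := by
    intro g a b
    obtain ⟨p, hp⟩ := hX.1.connected.exists_walk_length_eq_dist a b
    have := X.dist_le (p.map ⟨fun v => g • v, fun h => hX.2.1 g _ _ h⟩)
    rwa [SimpleGraph.Walk.length_map, hp] at this
  refine le_antisymm (key g a b) ?_
  simpa using key g⁻¹ (g • a) (g • b)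

lemma TreeAction.smul_side (hX : TreeAction G X) (g : G) (a b z : V) :
    g • z ∈ Side X (g • a) (g • b) ↔ z ∈ Side X a b := by
  simp only [Side, Set.mem_ofPred_eq, hX.dist_smul]

variable (G X) in
/-- Unoriented orbits of edges. -/
def edgeRel : Setoid {p : Bool → V // X.Adj (p false) (p true)} where
  r p q := ∃ (g : G) (b : Bool), ∀ s, g • p.1 s = q.1 (xor s b)
  iseqv :=
    { refl := fun p => ⟨1, false, fun s => by simp⟩
      symm := by
        rintro p q ⟨g, b, h⟩
        refine ⟨g⁻¹, b, fun s => ?_⟩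
        rw [inv_smul_eq_iff, h]; simp
      trans := by
        rintro p q r ⟨g, b, h⟩ ⟨g', b', h'⟩
        exact ⟨g' * g, xor b b', fun s => by rw [mul_smul, h, h', Bool.xor_assoc]⟩ }

theorem exists_TB (hX : TreeAction G X) : ∃ D : TB G V,
    (∀ τ s, X.Adj (D.ep τ (!s)) (D.ep τ s)) ∧
    (∀ τ s, D.Ah (τ, s) (τ, s) ⊆ {x | Pushes X (D.ep τ (!s)) (D.ep τ s) x}) ∧
    ∀ a b, X.Adj a b → Nonempty D.E := by
  let ep : Quotient (edgeRel X G) → Bool → V := fun τ => τ.out.1
  have adj : ∀ τ s, X.Adj (ep τ (!s)) (ep τ s) := by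
    intro τ s
    cases s
    · exact τ.out.2.symm
    · exact τ.out.2
  have same : ∀ τ τ' (k : G) s s', k • ep τ' s' = ep τ s → k • ep τ' (!s') = ep τ (!s) →
      τ' = τ ∧ ∀ s, k • ep τ s = ep τ s := by
    intro τ τ' k s s' h1 h2
    have : τ' = τ := by
      rw [← Quotient.out_eq τ, ← Quotient.out_eq τ']
      refine Quotient.sound ⟨k, xor s' s, fun t => ?_⟩
      cases t <;> cases s <;> cases s' <;> first | exact h1 | exact h2
    subst this
    refine ⟨rfl, ?_⟩
    by_cases hs : s' = s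
    · subst hs
      intro t
      cases t <;> cases s' <;> first | exact h1 | exact h2
    · rw [Bool.eq_not.2 hs] at h1 h2
      rw [Bool.not_not] at h2
      exact absurd ⟨h1, h2⟩ (hX.2.2 k _ _ (adj τ' s))
  have rep : ∀ a b, X.Adj a b → ∃ (k : G) (τ : Quotient (edgeRel X G)) (s : Bool),
      k • ep τ s = a ∧ k • ep τ (!s) = b := by
    intro a b h
    obtain ⟨g, c, hg⟩ := Quotient.mk_out (s := edgeRel X G) ⟨fun s => cond s b a, h⟩
    refine ⟨g, _, c, (hg c).trans (by simp), (hg (!c)).trans (by simp)⟩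
  refine ⟨{ E := Quotient (edgeRel X G)
            ep := ep
            H := fun τ s => Side X (ep τ (!s)) (ep τ s)
            hmem := fun τ s => mem_side hX.1 (adj τ s)
            hcompl := fun τ s z => by rw [Bool.not_not]; exact side_compl hX.1 (adj τ s) z
            tri := ?_
            hC := fun τ c hc s z hz => by
              rw [← hc s, ← hc (!s)]; exact (hX.smul_side c _ _ z).2 hz
            nest := ?_
            μ := fun τ z => X.dist (ep τ false) z
            lin := ?_ }, adj, ?_, fun a b h => ⟨Quotient.mk _ ⟨fun s => cond s b a, h⟩⟩⟩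
  · intro τ τ' k
    by_contra h
    rw [not_or] at h
    refine h.2 fun s s₁ s₂ h1 => ?_
    by_contra h2
    have hs : s₂ = !s₁ := Bool.eq_not.2 fun e => h2 (e ▸ h1)
    subst hs
    obtain ⟨e1, e2⟩ := side_tri hX.1 (adj τ s) (hX.2.1 k _ _ (adj τ' s₁).symm) h1 h2
    exact h.1 (same τ τ' k s s₁ e1 e2)
  · intro τ τ' s s' g h1 h2 z hz
    refine side_nest hX.1 (adj τ s) (c := g • ep τ' s') (h1 ▸ hX.2.1 g _ _ (adj τ' s'))
      (fun h3 => h2 (same τ τ' g s (!s') h1 (by rwa [Bool.not_not]))) ?_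
    rw [← h1]
    exact (hX.smul_side g _ _ z).2 hz
  · intro τ z
    by_cases h : z = ep τ false
    · exact Or.inl ⟨_, h⟩
    · obtain ⟨z', h1, h2⟩ := tree_closer hX.1 h
      obtain ⟨k, τ', s, e1, e2⟩ := rep z z' h1
      exact Or.inr ⟨k, τ', s, e1, by rwa [e2]⟩
  · rintro τ s x ⟨h1, z, hz, h2⟩
    refine ⟨fun y hy => ?_, fun h => h2 ?_⟩
    · have := h1 (x⁻¹ • y) ((hX.smul_side x _ _ _).1 (by rwa [smul_inv_smul]))
      rwa [smul_inv_smul] at this
    · exact (hX.smul_side x _ _ _).1 (by rw [smul_inv_smul]; exact h hz)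

end Geo

end Pool.Agent.MP_f7db47_al

end

section

/-!
Nil terms over a regular coherent group ring vanish.
-/

set_option linter.unusedSectionVars false

namespace Pool.Agent.MP_f7db47_al

open Matrix Function

universe u v w

lemma RegularCoherent.fr {L : Type w} [Ring L] (h : RegularCoherent L) {J : Type} [Fintype J]
    (A : Submodule L (J → L)) (hA : A.FG) : ∃ k, FR (RingHom.id L) k A := by
  have key : ∀ (k n : ℕ) (A : Submodule L (Fin n → L)), A.FG →
      CategoryTheory.HasProjectiveDimensionLT (ModuleCat.of L A) (k + 1) →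
        FR (RingHom.id L) k A := by
    intro k
    induction k with
    | zero =>
      intro n A hA hM
      have := Module.Finite.iff_fg.2 hA
      have : Module.Projective L A := (IsProjective.iff_projective A).2
        (CategoryTheory.projective_iff_hasProjectiveDimensionLT_one.2 hM)
      obtain ⟨n, p, hp⟩ := Module.Finite.exists_fin' L A
      obtain ⟨s, hs⟩ := Module.projective_lifting_property p LinearMap.id hp
      have hs' : ∀ y, p (s y) = y := fun y => congr($hs y)
      obtain ⟨e, he⟩ := exists_mat (s ∘ₗ p)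
      refine ⟨Fin n, inferInstance, e, p, ext_vecMul fun v => ?_, hp, fun v => ?_⟩
      · rw [← vecMul_vecMul, he, he]; simp [hs']
      · rw [RingHom.coe_id, Matrix.map_id, he]
        exact ⟨fun h => by simp [h], fun h => by simpa [hs'] using congrArg p h⟩
    | succ k ih =>
      intro n A hA hM
      have := (h n A hA).1
      obtain ⟨m, p, hp⟩ := Module.Finite.exists_fin' L A
      refine ⟨Fin m, inferInstance, p, hp, ih _ _ (Module.FinitePresentation.fg_ker p hp) ?_⟩
      exact ((LinearMap.shortExact_shortComplexKer hp).hasProjectiveDimensionLT_X₃_iff k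
        ((IsProjective.iff_projective (Fin m → L)).1 inferInstance)).1 hM
  let e := LinearEquiv.funCongrLeft L L (Fintype.equivFin J).symm
  have hA' : (A.map e.toLinearMap).FG := hA.map _
  obtain ⟨k, hk⟩ := (CategoryTheory.projectiveDimension_ne_top_iff _).1 (h _ _ hA').2
  exact ⟨k, (key k _ _ hA' hk).iso (e.submoduleMap A).symm⟩

namespace TS

variable {Λ : Type w} [Ring Λ] (S : TS Λ) {J K : Type} [Fintype J] [DecidableEq J] [Fintype K]
  [DecidableEq K]

lemma stab {A : Matrix J J Λ} (h : S.T A) : S.T (fromBlocks A 0 0 (1 : Matrix K K Λ)) := by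
  have := S.comm (fromRows (1 - A) (0 : Matrix K J Λ)) (fromCols 1 0)
    (by simpa [fromCols_mul_fromRows] using h)
  convert this using 1
  rw [fromRows_mul_fromCols, ← fromBlocks_one (l := J) (m := K), sub_eq_add_neg, fromBlocks_neg,
    fromBlocks_add]
  simp

lemma stab'_iff {B : Matrix K K Λ} : S.T (fromBlocks (1 : Matrix J J Λ) 0 0 B) ↔ S.T B := by
  have e : fromBlocks (1 : Matrix J J Λ) 0 0 B =
      1 - fromRows (0 : Matrix J K Λ) (1 - B) *
        fromCols (0 : Matrix K J Λ) (1 : Matrix K K Λ) := by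
    rw [fromRows_mul_fromCols, ← fromBlocks_one (l := J) (m := K), sub_eq_add_neg, fromBlocks_neg,
      fromBlocks_add]
    simp
  rw [e]
  refine ⟨fun h => ?_, fun h => S.comm _ _ (by simpa [fromCols_mul_fromRows] using h)⟩
  simpa [fromCols_mul_fromRows] using S.comm _ _ h

/-- The calculus in the form used for resolutions. -/
def toKT : KT Λ where
  T := S.T
  one := fun _ _ _ => S.one
  comm := S.comm
  tri := by
    intro m n _ _ _ _ A C B hA
    obtain ⟨A', -, -, h2⟩ := S.unit hA
    have e : fromBlocks A 0 C B =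
        fromBlocks 1 0 (C * A') 1 * (fromBlocks 1 0 0 B * fromBlocks A 0 0 1) := by
      simp [fromBlocks_multiply, Matrix.mul_assoc, h2]
    rw [e, ← S.stab'_iff (J := m) (B := B)]
    exact ⟨fun h => S.cancel_right (S.stab hA) (S.cancel_left (S.lower _) h),
      fun h => S.mul (S.lower _) (S.mul h (S.stab hA))⟩

end TS

variable {R : Type v} [Ring R] {G : Type u} [Group G]

/-- The group ring is free over the group ring of a subgroup. -/
noncomputable def rfreeInj {H : Type u} [Group H] (f : H →* G) (hf : Injective f) :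
    RFree (MonoidAlgebra.mapDomainRingHom R f) (G ⧸ f.range) :=
  have hm : ∀ g : G, ∃ k : H, f k = (g : G ⧸ f.range).out⁻¹ * g := fun g =>
    QuotientGroup.eq.1 (QuotientGroup.out_eq' (g : G ⧸ f.range))
  let c : MonoidAlgebra R G →+ (G ⧸ f.range →₀ MonoidAlgebra R H) :=
    (Finsupp.liftAddHom fun g : G => (Finsupp.singleAddHom (g : G ⧸ f.range)).comp
      (MonoidAlgebra.singleAddHom (hm g).choose)).comp MonoidAlgebra.coeffAddEquiv.toAddMonoidHom
  have hc : ∀ g r, c (MonoidAlgebra.single g r) =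
      Finsupp.single (g : G ⧸ f.range) (MonoidAlgebra.single (hm g).choose r) := fun g r => by
    simp [c, MonoidAlgebra.coeffAddEquiv]
  { b := fun q => MonoidAlgebra.single q.out 1
    c := c
    sum_c := fun s => by
      induction s using MonoidAlgebra.induction_linear with
      | zero => simp
      | add a b ha hb =>
        rw [map_add, Finsupp.sum_add_index' (by simp) (fun _ _ _ => by rw [map_add, mul_add]),
          ha, hb]
      | single g r =>
        rw [hc, Finsupp.sum_single_index (by simp)]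
        simp [MonoidAlgebra.single_mul_single, (hm g).choose_spec]
    c_single := fun q l => by
      induction l using MonoidAlgebra.induction_linear with
      | zero => simp
      | add a b ha hb => rw [map_add, mul_add, map_add, ha, hb, Finsupp.single_add]
      | single g r =>
        have e : ((q.out * f g : G) : G ⧸ f.range) = q := by
          rw [QuotientGroup.mk_mul_of_mem _ (MonoidHom.mem_range.2 ⟨g, rfl⟩), QuotientGroup.out_eq']
        have e' : (hm (q.out * f g)).choose = g :=
          hf (by rw [(hm _).choose_spec, e, inv_mul_cancel_left])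
        rw [MonoidAlgebra.mapDomainRingHom_apply, MonoidAlgebra.mapDomain_single,
          MonoidAlgebra.single_mul_single, one_mul, hc, e', e] }

lemma fr_span {H : Type u} [Group H] (f : H →* G) (hf : Injective f)
    (hH : RegularCoherent (MonoidAlgebra R H)) {J : Type} [Fintype J]
    {W : Set (J → MonoidAlgebra R G)} (hW : W.Finite) (hs : ∀ w ∈ W, VSup (Set.range f) w) :
    ∃ k, FR (MonoidAlgebra.mapDomainRingHom R f) k (Submodule.span (MonoidAlgebra R G) W) := by
  set φ := MonoidAlgebra.mapDomainRingHom R f with hφ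
  let c : (J → MonoidAlgebra R G) → J → MonoidAlgebra R H := fun w j =>
    MonoidAlgebra.comapDomain f hf (w j)
  have hc : ∀ w ∈ W, φ ∘ c w = w := fun w hw => funext fun j =>
    MonoidAlgebra.mapDomain_comapDomain
      (fun g hg => hs w hw j g (Finsupp.mem_support_iff.1 hg)) hf
  obtain ⟨k, hk⟩ := hH.fr (Submodule.span _ (c '' W)) (Submodule.fg_span (hW.image c))
  refine ⟨k, ((rfreeInj f hf).fr_extS (ρ' := φ) (fun _ => rfl) hk).iso (LinearEquiv.ofEq _ _ ?_)⟩
  refine le_antisymm (Submodule.span_le.2 ?_) (Submodule.span_mono fun w hw =>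
    ⟨c w, Submodule.subset_span ⟨w, hw, rfl⟩, hc w hw⟩)
  rintro _ ⟨a, ha, rfl⟩
  change φ ∘ a ∈ Submodule.span (MonoidAlgebra R G) W
  induction ha using Submodule.span_induction with
  | mem x hx =>
    obtain ⟨w, hw, rfl⟩ := hx
    rw [hc w hw]; exact Submodule.subset_span hw
  | zero =>
    have : φ ∘ (0 : J → MonoidAlgebra R H) = 0 := funext fun _ => map_zero φ
    rw [this]; exact zero_mem _
  | add x y _ _ hx hy =>
    have : φ ∘ (x + y) = φ ∘ x + φ ∘ y := funext fun _ => map_add φ _ _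
    rw [this]; exact add_mem hx hy
  | smul a x _ hx =>
    have : φ ∘ (a • x) = φ a • (φ ∘ x) := funext fun _ => map_mul φ _ _
    rw [this]; exact Submodule.smul_mem _ (φ a) hx

theorem tameP_of_coherent (S : TS (MonoidAlgebra R G)) (P : Set G) {K : Subgroup G}
    {H : Type u} [Group H] (f : H →* G) (hf : Injective f) (hK : (K : Set G) ⊆ Set.range f)
    (hH : RegularCoherent (MonoidAlgebra R H)) : TameP S P K := by
  rintro J _ _ ν - ⟨F, hF⟩
  have main : ∀ j, ∀ W : Set (J → MonoidAlgebra R G), W.Finite → (∀ w ∈ W, VSup (K : Set G) w) →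
      (∀ w ∈ W, w ∈ F.V j) → ∃ W' : Set (J → MonoidAlgebra R G), W'.Finite ∧ W ⊆ W' ∧
      (∀ w ∈ W', VSup (K : Set G) w) ∧
      ∃ h : ∀ x ∈ Submodule.span (MonoidAlgebra R G) W',
        ν.vecMulLinear x ∈ Submodule.span (MonoidAlgebra R G) W',
      ∃ k, S.toKT.Good k _ (ν.vecMulLinear.restrict h) := by
    intro j
    induction j with
    | zero =>
      intro W h1 h2 h3
      have hb : Submodule.span (MonoidAlgebra R G) W = ⊥ :=
        Submodule.span_eq_bot.2 fun w hw => by simpa [F.zero] using h3 w hw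
      have : Subsingleton (Submodule.span (MonoidAlgebra R G) W) := by rw [hb]; infer_instance
      refine ⟨W, h1, subset_rfl, h2, fun x hx => ?_, 0, KT.Triv.of_subsingleton⟩
      rw [hb, Submodule.mem_bot] at hx
      rw [hx, map_zero]; exact zero_mem _
    | succ j ih =>
      intro W h1 h2 h3
      obtain ⟨W₁, g1, g2, g3, h, k, hk⟩ := ih (⋃ w ∈ W, (fun g => MonoidAlgebra.single g⁻¹ (1 : R) •
        prv (lc g K) (w ᵥ* ν)) '' {g | ∃ i, ((w ᵥ* ν) i).coeff g ≠ 0})
        (h1.biUnion fun w _ => (exists_finset_vsup _).image _) (by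
          simp only [Set.mem_iUnion]
          rintro _ ⟨w, -, g, -, rfl⟩ i
          refine (sup_single (S := {g⁻¹}) rfl _).mul (vsup_prv (lc g K) _ i) ?_
          rintro a rfl b hb; exact hb) (by
          simp only [Set.mem_iUnion]
          rintro _ ⟨w, hw, g, -, rfl⟩
          exact Submodule.smul_mem _ _ (F.graded _ _ (rinv_lc g K) _ (hF j w (h3 w hw))))
      have hle : Submodule.span (MonoidAlgebra R G) W₁ ≤ Submodule.span _ (W ∪ W₁) :=
        Submodule.span_mono Set.subset_union_right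
      have hν : ∀ x ∈ Submodule.span (MonoidAlgebra R G) (W ∪ W₁),
          ν.vecMulLinear x ∈ Submodule.span (MonoidAlgebra R G) W₁ := by
        have : Submodule.span (MonoidAlgebra R G) (W ∪ W₁) ≤
            (Submodule.span _ W₁).comap ν.vecMulLinear := by
          rw [Submodule.span_le]
          rintro w (hw | hw)
          · change w ᵥ* ν ∈ Submodule.span (MonoidAlgebra R G) W₁
            rw [← prv_univ (w ᵥ* ν)]
            refine prv_induction K (P := fun z => z ∈ Submodule.span (MonoidAlgebra R G) W₁)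
              (zero_mem _) (fun a b ha hb => add_mem ha hb) _ (rinv_univ K) fun g hg => ?_
            have : prv (lc g K) (w ᵥ* ν) = MonoidAlgebra.single g (1 : R) •
                (MonoidAlgebra.single g⁻¹ (1 : R) • prv (lc g K) (w ᵥ* ν)) := by
              rw [smul_smul, MonoidAlgebra.single_mul_single, mul_inv_cancel, mul_one,
                ← MonoidAlgebra.one_def, one_smul]
            rw [this]
            refine Submodule.smul_mem _ _ (Submodule.subset_span (g2 ?_))
            simp only [Set.mem_iUnion]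
            exact ⟨w, hw, g, hg, rfl⟩
          · exact h w (Submodule.subset_span hw)
        exact fun x hx => this hx
      have hs : ∀ w ∈ W ∪ W₁, VSup (K : Set G) w := fun w hw => hw.elim (h2 w) (g3 w)
      obtain ⟨l₁, hl₁⟩ := fr_span f hf hH g1 fun w hw i => (g3 w hw i).mono hK
      obtain ⟨l₂, hl₂⟩ := fr_span f hf hH (h1.union g1) fun w hw i => (hs w hw i).mono hK
      have hex : Exact (Submodule.inclusion hle) (LinearMap.range (Submodule.inclusion hle)).mkQ :=
        LinearMap.exact_map_mkQ_range _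
      have hq := FR.coker (k := max l₁ l₂) (Submodule.inclusion_injective hle) hex
        (Submodule.mkQ_surjective _) (hl₁.mono (le_max_left _ _)) (hl₂.mono (by omega))
      refine ⟨W ∪ W₁, h1.union g1, Set.subset_union_left, hs, fun x hx => hle (hν x hx),
        max k (max l₁ l₂ + 1), KT.Good.ext (Submodule.inclusion_injective hle) hex
          (Submodule.mkQ_surjective _) (fun _ => rfl) (fun x => ?_) (hk.mono (le_max_left _ _))
          (hq.mono (le_max_right _ _))⟩
      exact (Submodule.Quotient.mk_eq_zero _).2 ⟨⟨_, hν x x.2⟩, rfl⟩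
  obtain ⟨W, -, h2, -, h, k, hk⟩ := main F.k (Set.range fun i => Pi.single i 1)
    (Set.finite_range _) (by
      rintro _ ⟨i, rfl⟩ j
      by_cases hij : j = i
      · subst hij; simpa using sup_one K.one_mem
      · simpa [Pi.single_eq_of_ne hij] using sup_zero _) fun w _ => by rw [F.top]; trivial
  have htop : Submodule.span (MonoidAlgebra R G) W = ⊤ := by
    rw [eq_top_iff, ← (Pi.basisFun (MonoidAlgebra R G) J).span_eq]
    refine Submodule.span_mono (subset_trans ?_ h2)
    rintro _ ⟨i, rfl⟩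
    exact ⟨i, by simp⟩
  let e := LinearEquiv.ofTop _ htop
  exact (hk.triv (Module.Projective.of_equiv e.symm)).indep (i := e.toLinearMap)
    (p := e.symm.toLinearMap) e.symm_apply_apply fun _ => rfl

end Pool.Agent.MP_f7db47_al

end

section

namespace Pool.Agent.MP_f7db47_al.PT

universe u

theorem acyclic_of_height {V : Type u} (X : SimpleGraph V) (h : V → ℤ)
    (h1 : ∀ a b, X.Adj a b → h a ≠ h b)
    (h2 : ∀ a b c, X.Adj a b → X.Adj a c → h b < h a → h c < h a → b = c) : X.IsAcyclic := by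
  classical
  intro v c hc
  obtain ⟨a, ha, hmax⟩ := c.support.toFinset.exists_max_image h
    ⟨v, List.mem_toFinset.2 c.start_mem_support⟩
  rw [List.mem_toFinset] at ha
  have hc' : (c.rotate a ha).IsCycle := hc.rotate ha
  have hle : ∀ i, h ((c.rotate a ha).getVert i) ≤ h a := fun i =>
    hmax _ (List.mem_toFinset.2
      ((c.mem_support_rotate_iff a ha).1 ((c.rotate a ha).getVert_mem_support i)))
  have a1 : X.Adj a (c.rotate a ha).snd := SimpleGraph.Walk.adj_snd hc'.not_nil
  have a2 : X.Adj a (c.rotate a ha).penultimate :=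
    (SimpleGraph.Walk.adj_penultimate hc'.not_nil).symm
  exact hc'.snd_ne_penultimate (h2 a _ _ a1 a2 (lt_of_le_of_ne (hle _) (h1 _ _ a1).symm)
    (lt_of_le_of_ne (hle _) (h1 _ _ a2).symm))

/-- the line -/
def hgt_line : SimpleGraph ℤ where
  Adj a b := a = b + 1 ∨ b = a + 1
  symm := ⟨fun _ _ h => h.symm⟩
  loopless := ⟨fun a h => by omega⟩

/-- translations of the line -/
def hgt_tr (m : ℤ) : hgt_line ≃g hgt_line where
  toEquiv := Equiv.addRight m
  map_rel_iff' := by
    intro a b
    change (a + m = b + m + 1 ∨ b + m = a + m + 1) ↔ (a = b + 1 ∨ b = a + 1)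
    omega

theorem hgt_reach (n : ℤ) : hgt_line.Reachable 0 n := by
  induction n using Int.induction_on with
  | zero => rfl
  | succ n ih => exact ih.trans (SimpleGraph.Adj.reachable (Or.inr rfl))
  | pred n ih => exact ih.trans (SimpleGraph.Adj.reachable (Or.inl (by ring)))

theorem exists_line {G : Type u} [Group G] (φ : G →* Multiplicative ℤ) :
    ∃ (X : SimpleGraph ℤ) (ρ : G →* (X ≃g X)), X.IsTree ∧
      ∀ g n, ρ g n = n + (φ g).toAdd := by
  refine ⟨hgt_line, MonoidHom.mk' (fun g => hgt_tr (φ g).toAdd) fun a b => ?_,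
    ⟨⟨fun a b => (hgt_reach a).symm.trans (hgt_reach b)⟩, ?_⟩, fun _ _ => rfl⟩
  · ext n
    change n + (φ (a * b)).toAdd = n + (φ b).toAdd + (φ a).toAdd
    rw [map_mul, toAdd_mul]
    ring
  · refine acyclic_of_height _ (fun n => (n.natAbs : ℤ)) (fun a b h => ?_) fun a b c hb hc => ?_
    · change a = b + 1 ∨ b = a + 1 at h
      omega
    · change a = b + 1 ∨ b = a + 1 at hb
      change a = c + 1 ∨ c = a + 1 at hc
      omega

end Pool.Agent.MP_f7db47_al.PT

end

section

/-!
The monomial representation induced from a character.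
-/

namespace Pool.Agent.MP_f7db47_al.GS

open Polynomial in
theorem Mono_alg {F K Q : Type} [Field F] [Field K] [Algebra F K] [CharZero K] [Fintype Q] {t : K}
    (ht : Transcendental F t) (a : Q → ℤ) (h : IsAlgebraic F (∑ q, t ^ a q)) (q₀ : Q) :
    a q₀ = 0 := by
  classical
  by_contra h0
  have t0 : t ≠ 0 := fun e => ht (e ▸ isAlgebraic_zero)
  obtain ⟨b, hb⟩ : ∃ b : ℕ, ∀ q, 0 ≤ a q + b := ⟨∑ q, (a q).natAbs, fun q => by
    have := Finset.single_le_sum (f := fun q => (a q).natAbs) (fun _ _ => Nat.zero_le _)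
      (Finset.mem_univ q)
    omega⟩
  choose e he using fun q => Int.eq_ofNat_of_zero_le (hb q)
  let y : algebraicClosure F K := ⟨_, mem_algebraicClosure_iff.2 h⟩
  refine ht (IsAlgebraic.restrictScalars (S := algebraicClosure F K) F
    ⟨∑ q, X ^ e q - C y * X ^ b, fun hP => ?_, ?_⟩)
  · have h1 := congrArg (coeff · (e q₀)) hP
    have h2 : e q₀ ≠ b := fun h => h0 (by have := he q₀; omega)
    simp only [coeff_sub, finsetSum_coeff, coeff_C_mul, coeff_X_pow, if_neg h2, mul_zero, sub_zero,
      Finset.sum_boole, coeff_zero, Nat.cast_eq_zero, Finset.card_eq_zero] at h1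
    exact Finset.filter_eq_empty_iff.1 h1 (Finset.mem_univ q₀) rfl
  · simp only [map_sub, map_sum, map_mul, map_pow, aeval_X, aeval_C]
    rw [sub_eq_zero]
    refine Eq.trans (Finset.sum_congr rfl fun q _ => ?_) (Finset.sum_mul ..).symm
    rw [← zpow_natCast, ← he, zpow_add₀ t0, zpow_natCast]

/-- The cocycle of the action on cosets. -/
noncomputable def Mono_c {G : Type} [Group G] (U : Subgroup G) (g : G) (q : G ⧸ U) : U :=
  ⟨(g • q).out⁻¹ * (g * q.out), QuotientGroup.eq.1
    ((QuotientGroup.out_eq' _).trans (MulAction.Quotient.coe_smul_out U g q).symm)⟩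

open Classical in
/-- The monomial matrices. -/
noncomputable def Mono_F {G K : Type} [Group G] [Field K] (U : Subgroup G) [Fintype (G ⧸ U)]
    (τ : U →* K) : G →* Matrix (G ⧸ U) (G ⧸ U) K where
  toFun g := Matrix.of fun p q => if p = g • q then τ (Mono_c U g q) else 0
  map_one' := by
    ext p q
    have : Mono_c U 1 q = 1 := Subtype.ext (by simp [Mono_c])
    simp [this, Matrix.one_apply]
  map_mul' g h := by
    ext p q
    have : Mono_c U (g * h) q = Mono_c U g (h • q) * Mono_c U h q :=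
      Subtype.ext (by simp [Mono_c, mul_smul, mul_assoc])
    simp [this, Matrix.mul_apply, mul_smul]

theorem exists_mono {G : Type} [Group G] (U : Subgroup G) [U.FiniteIndex]
    (χ : U →* Multiplicative ℤ) :
    ∃ (K : Type) (_ : Field K) (_ : CharZero K) (n : ℕ) (f : G →* GL (Fin n) K),
      ∀ (g : G) (hg : g ∈ U.normalCore), IsAlgebraic ℤ (f g).val.trace →
        χ ⟨g, U.normalCore_le hg⟩ = 1 :=
  by
  classical
  have := Fintype.ofFinite (G ⧸ U)
  obtain ⟨t, ht⟩ : ∃ t : ℝ, Transcendental ℚ t := ⟨_, fun h =>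
    transcendental_liouvilleNumber le_rfl ((IsFractionRing.isAlgebraic_iff ℤ ℚ ℝ).2 h)⟩
  have t0 : t ≠ 0 := fun e => ht (e ▸ isAlgebraic_zero)
  let τ : U →* ℝ := (Units.coeHom _).comp ((zpowersHom _ (Units.mk0 t t0)).comp χ)
  refine ⟨ℝ, inferInstance, inferInstance, Fintype.card (G ⧸ U),
    ((Matrix.reindexAlgEquiv ℝ ℝ (Fintype.equivFin _)).toMonoidHom.comp
      (Mono_F U τ)).toHomUnits, fun g hg h => ?_⟩
  have h1 : ∀ q : G ⧸ U, g • q = q := fun q =>
    congrArg (fun σ : Equiv.Perm (G ⧸ U) => σ q) (MonoidHom.mem_ker.1 (U.normalCore_eq_ker ▸ hg))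
  have h2 : (Matrix.reindex (Fintype.equivFin _) (Fintype.equivFin _) (Mono_F U τ g)).trace =
      ∑ q, t ^ (χ (Mono_c U g q)).toAdd := by
    rw [← (Fintype.equivFin (G ⧸ U)).symm.sum_comp]
    exact Finset.sum_congr rfl fun i _ => by simp [Mono_F, h1, τ]
  have h3 := Mono_alg ht _ (h2 ▸ (IsFractionRing.isAlgebraic_iff ℤ ℚ ℝ).1 h :)
    ((1 : G) : G ⧸ U)
  have h4 : ((1 : G) : G ⧸ U).out ∈ U := by
    simpa using QuotientGroup.eq.1 (QuotientGroup.out_eq' ((1 : G) : G ⧸ U))
  have h5 : Mono_c U g ((1 : G) : G ⧸ U) = ⟨_, h4⟩⁻¹ * (⟨g, U.normalCore_le hg⟩ * ⟨_, h4⟩) :=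
    Subtype.ext (by simp [Mono_c, h1])
  rw [toAdd_eq_zero, h5, map_mul, map_mul, map_inv] at h3
  rwa [mul_comm, mul_inv_cancel_right] at h3

end Pool.Agent.MP_f7db47_al.GS

end

section

/-!
Colour reduction.
-/

namespace Pool.Agent.MP_f7db47_al.GN

open Classical in
/-- the first bit where two numbers differ, with the value of the bit -/
noncomputable def WCVg (L a b : ℕ) : ℕ :=
  if h : ∃ i, i < L ∧ a.testBit i ≠ b.testBit i then
    2 * Nat.find h + (if a.testBit (Nat.find h) then 1 else 0) + 1 else 0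

lemma WCV_lt (L a b : ℕ) : WCVg L a b < 2 * L + 1 := by
  unfold WCVg
  split_ifs with h h'
  · have := (Nat.find_spec h).1
    omega
  · have := (Nat.find_spec h).1
    omega
  · omega

lemma WCV_inj {L a b d : ℕ} (ha : a < 2 ^ L) (hb : b < 2 ^ L) (h : WCVg L a b = WCVg L b d) :
    a = b := by
  classical
  by_contra hne
  have h1 : ∃ i, i < L ∧ a.testBit i ≠ b.testBit i := by
    by_contra! h2
    refine hne (Nat.eq_of_testBit_eq fun i => ?_)
    by_cases hi : i < L
    · exact h2 i hi
    · have h3 : 2 ^ L ≤ 2 ^ i := Nat.pow_le_pow_right two_pos (not_lt.1 hi)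
      rw [Nat.testBit_eq_false_of_lt (ha.trans_le h3), Nat.testBit_eq_false_of_lt (hb.trans_le h3)]
  have h4 := (Nat.find_spec h1).2
  unfold WCVg at h
  rw [dif_pos h1] at h
  by_cases h2 : ∃ i, i < L ∧ b.testBit i ≠ d.testBit i
  · rw [dif_pos h2] at h
    have h5 : Nat.find h1 = Nat.find h2 := by split_ifs at h <;> omega
    rw [← h5] at h
    apply h4
    cases ha' : a.testBit (Nat.find h1) <;> cases hb' : b.testBit (Nat.find h1) <;>
      simp [ha', hb'] at h ⊢
  · rw [dif_neg h2] at h
    omega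

lemma WCV_big (C D e : ℕ) : ∃ y, e < y ∧ C * y ^ D ≤ 2 ^ y := by
  have h := tendsto_pow_const_div_const_pow_of_one_lt D (r := 2) one_lt_two
  have h1 := h.eventually (gt_mem_nhds (show (0 : ℝ) < 1 / (C + 1) by positivity))
  obtain ⟨y, h2, h3⟩ := (h1.and (Filter.eventually_gt_atTop e)).exists
  refine ⟨y, h3, ?_⟩
  rw [div_lt_div_iff₀ (by positivity) (by positivity)] at h2
  have h4 : (0 : ℝ) ≤ (y : ℝ) ^ D := by positivity
  have h5 : (C : ℝ) * (y : ℝ) ^ D ≤ 2 ^ y := by nlinarith
  exact_mod_cast h5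

theorem cv_step (ι : Type) [Fintype ι] (A L : ℕ) :
    ∃ Φ : ((ι → ℤ) → ℕ) → (ι → ℤ) → ℕ,
      (∀ c x, Φ c x < (2 * L + 1) ^ (2 * A + 1) ^ Fintype.card ι) ∧
      (∀ c x y, c x < 2 ^ L → c y < 2 ^ L → (∀ τ, |x τ - y τ| ≤ (A : ℤ)) → Φ c x = Φ c y →
        c x = c y) ∧
      ∀ c c' x x', (∀ y : ι → ℤ, (∀ τ, |y τ| ≤ (A : ℤ)) → c (x + y) = c' (x' + y)) →
        Φ c x = Φ c' x' := by
  classical
  let e : ((ι → ℤ) → ℕ) → (ι → ℤ) → (ι → Finset.Icc (-(A : ℤ)) A) → Fin (2 * L + 1) :=
    fun c x z => ⟨WCVg L (c x) (c (x + fun τ => (z τ).1)), WCV_lt _ _ _⟩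
  refine ⟨fun c x => (Fintype.equivFin _ (e c x)).1, fun c x => ?_, fun c x y hx hy hA h => ?_,
    fun c c' x x' h => ?_⟩
  · refine (Fintype.equivFin _ (e c x)).2.trans_eq ?_
    have : ((A : ℤ) + 1 - -(A : ℤ)).toNat = 2 * A + 1 := by omega
    simp only [Fintype.card_pi, Finset.prod_const, Finset.card_univ, Fintype.card_fin,
      Fintype.card_coe, Int.card_Icc, this]
  · have h1 : e c x = e c y := (Fintype.equivFin _).injective (Fin.ext h)
    have h2 := congrArg Fin.val (congrFun h1 fun τ => ⟨y τ - x τ, by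
      have := abs_le.1 (hA τ)
      rw [Finset.mem_Icc]
      omega⟩)
    have h3 : (x + fun τ => y τ - x τ) = y := by
      funext τ
      simp
    simp only [e, h3] at h2
    exact WCV_inj hx hy h2
  · have h1 : e c x = e c' x' := by
      funext z
      have h0 := h 0 fun τ => by simp
      rw [add_zero, add_zero] at h0
      have h2 := h (fun τ => (z τ).1) fun τ => abs_le.2 (Finset.mem_Icc.1 (z τ).2)
      simp only [e, h0, h2]
    simp only [h1]

theorem cv_num (β D c K : ℕ) : ∃ X L₀ L₁ L₂ : ℕ,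
    2 ^ 2 ^ (c * (X + 1)) * (2 * X + 1) ^ β ≤ 2 ^ L₀ ∧ (2 * L₀ + 1) ^ D ≤ 2 ^ L₁ ∧
      (2 * L₁ + 1) ^ D ≤ 2 ^ L₂ ∧ K * (2 * L₂ + 1) ^ D + K ≤ X := by
  obtain ⟨e, he⟩ : ∃ e, e = 2 * D * (2 * c + 2 * β + 7) + 1 := ⟨_, rfl⟩
  obtain ⟨y, hy, hy'⟩ := WCV_big (K * (4 * D + 1) ^ D + K) D e
  obtain ⟨X, hX⟩ : ∃ X, X = 2 ^ y := ⟨_, rfl⟩
  have hX1 : 1 ≤ X := by rw [hX]; exact Nat.one_le_two_pow
  obtain ⟨P, hP⟩ : ∃ P, P = (c + β + 2) * (X + 1) := ⟨_, rfl⟩
  refine ⟨X, 2 ^ (c * (X + 1)) + (2 * X + 1) * β, (P + 3) * D, (y + e) * D, ?_, ?_, ?_, ?_⟩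
  · rw [pow_add, pow_mul 2 (2 * X + 1)]
    exact Nat.mul_le_mul_left _ (Nat.pow_le_pow_left Nat.lt_two_pow_self.le _)
  · rw [pow_mul 2 (P + 3)]
    refine Nat.pow_le_pow_left ?_ _
    have h1 : 2 ^ (c * (X + 1)) ≤ 2 ^ P := Nat.pow_le_pow_right two_pos (by rw [hP]; nlinarith)
    have h2 : (2 * X + 1) * β ≤ 2 ^ P := by
      have a1 : X < 2 ^ X := Nat.lt_two_pow_self
      have a2 : β < 2 ^ β := Nat.lt_two_pow_self
      calc (2 * X + 1) * β ≤ 2 ^ (X + 1) * 2 ^ β :=
            Nat.mul_le_mul (by rw [pow_succ]; omega) a2.le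
        _ = 2 ^ (X + 1 + β) := (pow_add _ _ _).symm
        _ ≤ 2 ^ P := Nat.pow_le_pow_right two_pos (by rw [hP]; nlinarith)
    have h3 : 1 ≤ 2 ^ P := Nat.one_le_two_pow
    rw [pow_add]
    omega
  · rw [pow_mul 2 (y + e)]
    refine Nat.pow_le_pow_left ?_ _
    have h1 : P + 3 ≤ (2 * c + 2 * β + 7) * X := by rw [hP]; nlinarith
    have h2 : e < 2 ^ e := Nat.lt_two_pow_self
    rw [pow_add, ← hX]
    calc 2 * ((P + 3) * D) + 1 ≤ 2 * ((2 * c + 2 * β + 7) * X * D) + X := by gcongr
      _ = X * e := by rw [he]; ring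
      _ ≤ X * 2 ^ e := Nat.mul_le_mul_left _ h2.le
  · have h1 : 2 * ((y + e) * D) + 1 ≤ (4 * D + 1) * y := by nlinarith
    have h2 : 1 ≤ y ^ D := Nat.one_le_pow _ _ (by omega)
    rw [hX]
    refine le_trans ?_ hy'
    calc K * (2 * ((y + e) * D) + 1) ^ D + K ≤ K * ((4 * D + 1) * y) ^ D + K * y ^ D := by
          gcongr
          exact Nat.le_mul_of_pos_right _ h2
      _ = (K * (4 * D + 1) ^ D + K) * y ^ D := by rw [mul_pow]; ring

theorem cv (ι : Type) [Fintype ι] (A c K : ℕ) : ∃ X n : ℕ, K * n + K ≤ X ∧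
    ∃ Φ : ((ι → ℤ) → ℕ) → (ι → ℤ) → ℕ, (∀ f x, Φ f x < n) ∧
      (∀ f x y, f x < 2 ^ 2 ^ (c * (X + 1)) * (2 * X + 1) ^ Fintype.card ι →
        f y < 2 ^ 2 ^ (c * (X + 1)) * (2 * X + 1) ^ Fintype.card ι →
        (∀ τ, |x τ - y τ| ≤ (A : ℤ)) → Φ f x = Φ f y → f x = f y) ∧
      ∀ f f' x x', (∀ y : ι → ℤ, (∀ τ, |y τ| ≤ ((3 * A : ℕ) : ℤ)) → f (x + y) = f' (x' + y)) →
        Φ f x = Φ f' x' := by
  obtain ⟨X, L₀, L₁, L₂, h0, h1, h2, h3⟩ :=
    cv_num (Fintype.card ι) ((2 * A + 1) ^ Fintype.card ι) c K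
  obtain ⟨Φ₀, a0, b0, c0⟩ := cv_step ι A L₀
  obtain ⟨Φ₁, a1, b1, c1⟩ := cv_step ι A L₁
  obtain ⟨Φ₂, a2, b2, c2⟩ := cv_step ι A L₂
  refine ⟨X, _, h3, fun f => Φ₂ (Φ₁ (Φ₀ f)), fun f x => a2 _ _, fun f x y hx hy hA h => ?_,
    fun f f' x x' h => ?_⟩
  · exact b0 _ _ _ (hx.trans_le h0) (hy.trans_le h0) hA
      (b1 _ _ _ ((a0 _ _).trans_le h1) ((a0 _ _).trans_le h1) hA
        (b2 _ _ _ ((a1 _ _).trans_le h2) ((a1 _ _).trans_le h2) hA h))
  · refine c2 _ _ _ _ fun u hu => c1 _ _ _ _ fun v hv => c0 _ _ _ _ fun w hw => ?_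
    simp only [add_assoc]
    refine h _ fun τ => ?_
    have e1 := abs_le.1 (hu τ)
    have e2 := abs_le.1 (hv τ)
    have e3 := abs_le.1 (hw τ)
    simp only [Pi.add_apply, abs_le]
    push_cast
    omega

end Pool.Agent.MP_f7db47_al.GN

end

section

namespace Pool.Agent.MP_f7db47_al.PT

/-- The greedy marking at stage `p`. -/
def MarkM {ι : Type} (t A n : ℕ) (c : (ι → ℤ) → ℕ) (p : ℕ) (x : ι → ℤ) : Prop :=
  c x = p % n ∧ c x < n ∧ ∀ (p' : ℕ) (_ : p' < p) (y : ι → ℤ), MarkM t A n c p' y →
    (p' / n = p / n → ¬ ∀ τ, |x τ - y τ| ≤ A) ∧ (p' / n < p / n → ¬ ∀ τ, |x τ - y τ| ≤ t)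
termination_by p

theorem Mark_iff {ι : Type} (t A n : ℕ) (c : (ι → ℤ) → ℕ) (p : ℕ) (x : ι → ℤ) :
    MarkM t A n c p x ↔ c x = p % n ∧ c x < n ∧ ∀ (p' : ℕ) (_ : p' < p) (y : ι → ℤ),
      MarkM t A n c p' y → (p' / n = p / n → ¬ ∀ τ, |x τ - y τ| ≤ A) ∧
        (p' / n < p / n → ¬ ∀ τ, |x τ - y τ| ≤ t) := by
  rw [MarkM]

theorem Mark_loc {ι : Type} {t A n : ℕ} (ht : t ≤ A) (p : ℕ) :
    ∀ (c c' : (ι → ℤ) → ℕ) (x x' : ι → ℤ),
      (∀ y : ι → ℤ, (∀ τ, |y τ| ≤ (p * A : ℕ)) → c (x + y) = c' (x' + y)) →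
      MarkM t A n c p x → MarkM t A n c' p x' := by
  induction p using Nat.strong_induction_on with
  | _ p ih =>
    intro c c' x x' h hM
    rw [Mark_iff] at hM ⊢
    obtain ⟨h1, h2, h3⟩ := hM
    have h0 : c x = c' x' := by
      have := h 0 (fun τ => by simp only [Pi.zero_apply, abs_zero]; positivity)
      rwa [add_zero, add_zero] at this
    refine ⟨h0 ▸ h1, h0 ▸ h2, fun p' hp' y' hy' => ?_⟩
    have key : (∀ τ, |x' τ - y' τ| ≤ A) → MarkM t A n c p' (x + (y' - x')) := fun hc => by
      refine ih p' hp' c' c y' _ (fun z hz => ?_) hy'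
      have e := h (y' - x' + z) (fun τ => by
        have a1 := hc τ
        have a2 := hz τ
        have a3 : (p' + 1) * A ≤ p * A := Nat.mul_le_mul_right _ hp'
        have a4 : ((p' * A : ℕ) : ℤ) + A ≤ (p * A : ℕ) := by
          rw [add_mul, one_mul] at a3
          exact_mod_cast a3
        rw [abs_sub_comm] at a1
        simp only [Pi.add_apply, Pi.sub_apply]
        exact (abs_add_le _ _).trans (by linarith))
      rw [add_assoc, e]
      congr 1
      abel
    have e2 : ∀ τ, x τ - (x + (y' - x')) τ = x' τ - y' τ := fun τ => by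
      simp only [Pi.add_apply, Pi.sub_apply]
      ring
    refine ⟨fun hq hc => (h3 p' hp' _ (key hc)).1 hq fun τ => by rw [e2]; exact hc τ,
      fun hq hc => (h3 p' hp' _ (key fun τ => (hc τ).trans (by exact_mod_cast ht))).2 hq
        fun τ => by rw [e2]; exact hc τ⟩

theorem Mark_div {n q i : ℕ} (hi : i < n) : (q * n + i) / n = q := by
  have hn : 0 < n := by omega
  rw [mul_comm, Nat.mul_add_div hn, Nat.div_eq_of_lt hi, add_zero]

theorem Mark_mod {n q i : ℕ} (hi : i < n) : (q * n + i) % n = i := by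
  rw [mul_comm, Nat.mul_add_mod, Nat.mod_eq_of_lt hi]

theorem Mark_close {a b s : ℤ} (hs : 0 ≤ s) (h : a / (s + 1) = b / (s + 1)) : |a - b| ≤ s := by
  have h1 := Int.mul_ediv_add_emod a (s + 1)
  have h2 := Int.mul_ediv_add_emod b (s + 1)
  have h3 := Int.emod_nonneg a (by omega : s + 1 ≠ 0)
  have h4 := Int.emod_nonneg b (by omega : s + 1 ≠ 0)
  have h5 := Int.emod_lt_of_pos a (by omega : 0 < s + 1)
  have h6 := Int.emod_lt_of_pos b (by omega : 0 < s + 1)
  rw [h] at h1
  rw [abs_le]
  constructor <;> linarith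

theorem Mark_pack {ι : Type} [Fintype ι] {t A C N : ℕ} (hA : A ≤ C * t) (x : ι → ℤ)
    (y : Fin N → ι → ℤ) (h1 : ∀ q τ, |x τ - y q τ| ≤ A)
    (h2 : ∀ q q', q' < q → ¬ ∀ τ, |y q τ - y q' τ| ≤ t) : N ≤ (2 * C + 1) ^ Fintype.card ι := by
  classical
  have hA' : (A : ℤ) ≤ C * t := by exact_mod_cast hA
  have hb : ∀ q τ, 0 ≤ (y q τ - x τ + A) / ((t : ℤ) + 1) ∧
      (y q τ - x τ + A) / ((t : ℤ) + 1) < 2 * C + 1 := fun q τ => by
    have a := abs_le.1 (h1 q τ)
    refine ⟨Int.ediv_nonneg (by linarith [a.2]) (by positivity), ?_⟩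
    refine Int.ediv_lt_of_lt_mul (by positivity) ?_
    have : (0 : ℤ) ≤ C := by positivity
    have : (0 : ℤ) ≤ t := by positivity
    nlinarith [a.1]
  let f : Fin N → ι → Fin (2 * C + 1) := fun q τ =>
    ⟨((y q τ - x τ + A) / ((t : ℤ) + 1)).toNat, by
      have := hb q τ
      omega⟩
  have hcl : ∀ q q', f q = f q' → ∀ τ, |y q τ - y q' τ| ≤ t := fun q q' h τ => by
    have e : ((y q τ - x τ + A) / ((t : ℤ) + 1)).toNat =
        ((y q' τ - x τ + A) / ((t : ℤ) + 1)).toNat := congrArg Fin.val (congrFun h τ)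
    have a1 := (hb q τ).1
    have a2 := (hb q' τ).1
    have e' : (y q τ - x τ + A) / ((t : ℤ) + 1) = (y q' τ - x τ + A) / ((t : ℤ) + 1) := by
      omega
    have := Mark_close (by positivity) e'
    rwa [show y q τ - x τ + A - (y q' τ - x τ + A) = y q τ - y q' τ by ring] at this
  have hf : Function.Injective f := fun q q' h => by
    rcases lt_trichotomy q q' with hq | hq | hq
    · exact absurd (hcl q' q h.symm) (h2 q' q hq)
    · exact hq
    · exact absurd (hcl q q' h) (h2 q q' hq)
  have := Fintype.card_le_of_injective f hf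
  simpa using this

theorem exists_marks (ι : Type) [Fintype ι] (t A C n : ℕ) (hA : A ≤ C * t) (ht : t ≤ A) :
    ∃ Mark : ((ι → ℤ) → ℕ) → ℕ → (ι → ℤ) → Prop,
      (∀ c q x, Mark c q x → c x < n) ∧
      (∀ c q x y, Mark c q x → Mark c q y → (∀ τ, |x τ - y τ| ≤ A) → c x = c y) ∧
      (∀ c x, c x < n → ∃ q < (2 * C + 1) ^ Fintype.card ι + 1, ∃ y, Mark c q y ∧
        ∀ τ, |x τ - y τ| ≤ t) ∧
      ∀ c c' q x x', (∀ y : ι → ℤ, (∀ τ, |y τ| ≤ ((q + 1) * n * A : ℕ)) →
        c (x + y) = c' (x' + y)) → (Mark c q x ↔ Mark c' q x') := by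
  refine ⟨fun c q x => ∃ i < n, MarkM t A n c (q * n + i) x, ?_, ?_, ?_, ?_⟩
  · rintro c q x ⟨i, -, h⟩
    exact ((Mark_iff _ _ _ _ _ _).1 h).2.1
  · rintro c q x y ⟨i, hi, h⟩ ⟨i', hi', h'⟩ hc
    obtain ⟨a1, -, a3⟩ := (Mark_iff _ _ _ _ _ _).1 h
    obtain ⟨b1, -, b3⟩ := (Mark_iff _ _ _ _ _ _).1 h'
    rcases lt_trichotomy i i' with hq | hq | hq
    · exact absurd (fun τ => by rw [abs_sub_comm]; exact hc τ)
        ((b3 _ (by omega) x h).1 (by rw [Mark_div hi, Mark_div hi']))
    · rw [a1, b1, hq]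
    · exact absurd hc ((a3 _ (by omega) y h').1 (by rw [Mark_div hi, Mark_div hi']))
  · intro c x hx
    by_contra hcon
    have hn : 0 < n := by omega
    have hun : ∀ p y, p / n < (2 * C + 1) ^ Fintype.card ι + 1 → MarkM t A n c p y →
        ¬ ∀ τ, |x τ - y τ| ≤ t := fun p y hp hM hc =>
      hcon ⟨p / n, hp, y, ⟨p % n, Nat.mod_lt _ hn, by rwa [Nat.div_add_mod']⟩, hc⟩
    have hbl : ∀ q : Fin ((2 * C + 1) ^ Fintype.card ι + 1), ∃ p y, p / n = q ∧
        MarkM t A n c p y ∧ ∀ τ, |x τ - y τ| ≤ A := fun q => by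
      by_contra hno
      refine hun (q * n + c x) x (by rw [Mark_div hx]; exact q.2) ?_
        (fun τ => by simp only [sub_self, abs_zero]; positivity)
      rw [Mark_iff]
      refine ⟨(Mark_mod hx).symm, hx, fun p' _ y hy => ?_⟩
      rw [Mark_div hx]
      exact ⟨fun h hc => hno ⟨p', y, h, hy, hc⟩, fun h => hun p' y (h.trans q.2) hy⟩
    choose p y h1 h2 h3 using hbl
    have := Mark_pack hA x y h3 fun q q' hq => by
      have hlt : p q' / n < p q / n := by rw [h1, h1]; exact hq
      exact (((Mark_iff _ _ _ _ _ _).1 (h2 q)).2.2 (p q') (Nat.lt_of_div_lt_div hlt) _ (h2 q')).2 hlt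
    omega
  · intro c c' q x x' h
    have key : ∀ i < n, ∀ y : ι → ℤ, (∀ τ, |y τ| ≤ ((q * n + i) * A : ℕ)) →
        c (x + y) = c' (x' + y) := fun i hi y hy => h y fun τ => (hy τ).trans (by
      have : (q * n + i) * A ≤ (q + 1) * n * A :=
        Nat.mul_le_mul_right _ (by rw [add_mul, one_mul]; omega)
      exact_mod_cast this)
    constructor
    · rintro ⟨i, hi, hM⟩
      exact ⟨i, hi, Mark_loc ht _ c c' x x' (key i hi) hM⟩
    · rintro ⟨i, hi, hM⟩
      exact ⟨i, hi, Mark_loc ht _ c' c x' x (fun y hy => (key i hi y hy).symm) hM⟩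

end Pool.Agent.MP_f7db47_al.PT

end

section

namespace Pool.Agent.MP_f7db47_al.PT

open MvPolynomial WithZero

open Classical in
/-- The valuation given by the total degree. -/
noncomputable def Val1_v (k σ : Type) [Field k] :
    Valuation (MvPolynomial σ k) (WithZero (Multiplicative ℤ)) where
  toFun f := if f = 0 then 0 else exp (f.totalDegree : ℤ)
  map_zero' := if_pos rfl
  map_one' := by simp
  map_mul' f g := by
    by_cases hf : f = 0
    · simp [hf]
    by_cases hg : g = 0
    · simp [hg]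
    simp [hf, hg, totalDegree_mul_of_isDomain hf hg, exp_add]
  map_add_le_max' f g := by
    by_cases h : f + g = 0
    · simp [h]
    by_cases hf : f = 0
    · simp [hf]
    by_cases hg : g = 0
    · simp [hg]
    have := totalDegree_add f g
    simp only [h, hf, hg, if_false, le_max_iff, exp_le_exp, Nat.cast_le]
    exact le_max_iff.1 this

theorem Val1_apply {k σ : Type} [Field k] {f : MvPolynomial σ k} (hf : f ≠ 0) :
    Val1_v k σ f = exp (f.totalDegree : ℤ) := if_neg hf

/-- The valuation ring at infinity of the total degree. -/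
theorem exists_deg_dvr (k : Type) [Field k] (s : ℕ) :
    ∃ O : ValuationSubring (FractionRing (MvPolynomial (Fin (s + 1)) k)),
      IsDiscreteValuationRing O ∧
      (∀ c : k, algebraMap (MvPolynomial (Fin (s + 1)) k) _ (MvPolynomial.C c) ∈ O) ∧
      ∀ b : MvPolynomial (Fin (s + 1)) k, algebraMap _ _ b ∈ O → ∃ c : k, b = MvPolynomial.C c := by
  have hS : nonZeroDivisors (MvPolynomial (Fin (s + 1)) k) ≤
      (Val1_v k (Fin (s + 1))).supp.primeCompl := by
    intro f hf h
    have h0 := nonZeroDivisors.ne_zero hf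
    have h1 : Val1_v k (Fin (s + 1)) f = 0 := (Valuation.mem_supp_iff _ _).1 h
    rw [Val1_apply h0] at h1
    exact exp_ne_zero h1
  set v := (Val1_v k (Fin (s + 1))).extendToLocalization hS
    (FractionRing (MvPolynomial (Fin (s + 1)) k)) with hv
  have e : ∀ f, v (algebraMap _ _ f) = Val1_v k (Fin (s + 1)) f :=
    Valuation.extendToLocalization_apply_map_apply _ hS _
  have hn : v.IsNontrivial := by
    refine ⟨algebraMap (MvPolynomial (Fin (s + 1)) k) _ (X 0), ?_, ?_⟩
    · rw [e, Val1_apply (X_ne_zero 0)]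
      exact exp_ne_zero
    · rw [e, Val1_apply (X_ne_zero 0), totalDegree_X]
      simp
  refine ⟨v.valuationSubring, inferInstance, fun c => ?_, fun b hb => ?_⟩
  · rw [Valuation.mem_valuationSubring_iff, e]
    by_cases hc : (C c : MvPolynomial (Fin (s + 1)) k) = 0
    · rw [hc, map_zero]
      exact zero_le
    · rw [Val1_apply hc, totalDegree_C]
      simp
  · by_cases h0 : b = 0
    · exact ⟨0, by rw [h0, map_zero]⟩
    rw [Valuation.mem_valuationSubring_iff, e, Val1_apply h0, ← exp_zero, exp_le_exp] at hb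
    exact ⟨_, totalDegree_eq_zero_iff_eq_C.1 (by omega)⟩

end Pool.Agent.MP_f7db47_al.PT

end

section

namespace Pool.Agent.MP_f7db47_al.PT

open scoped WithZero

/-- The valuations above a discrete valuation ring in a finite separable extension. -/
theorem exists_vals_sep (F L : Type) [Field F] [Field L] [Algebra F L] [FiniteDimensional F L]
    [Algebra.IsSeparable F L] (O : ValuationSubring F) (hO : IsDiscreteValuationRing O) :
    ∃ (m : ℕ) (v : Fin m → Valuation L ℤᵐ⁰), (∀ i, ∃ π, v i π = WithZero.exp (-1)) ∧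
      ∀ x : L, (∀ i, v i x ≤ 1) → ∀ j, (minpoly F x).coeff j ∈ O := by
  have := integralClosure.isDedekindDomain O F L
  have := integralClosure.isFractionRing_of_finite_extension (A := O) F L
  have hi : Function.Injective (algebraMap O L) := by
    rw [IsScalarTower.algebraMap_eq O F L]
    exact (algebraMap F L).injective.comp Subtype.val_injective
  have : FaithfulSMul O (integralClosure O L) := (faithfulSMul_iff_algebraMap_injective _ _).2
    fun a b h => hi (congrArg Subtype.val h)
  have hf : Finite (IsDedekindDomain.HeightOneSpectrum (integralClosure O L)) := by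
    have := (IsDedekindDomain.primesOver_finite (IsLocalRing.maximalIdeal O)
      (integralClosure O L)).to_subtype
    refine Finite.of_injective (β := Ideal.primesOver (IsLocalRing.maximalIdeal O)
      (integralClosure O L)) (fun v => ⟨v.asIdeal, v.isPrime, ⟨?_⟩⟩) fun v w h =>
        IsDedekindDomain.HeightOneSpectrum.ext (congrArg Subtype.val h)
    have := v.isMaximal
    exact (IsLocalRing.eq_maximalIdeal
      (Ideal.isMaximal_comap_of_isIntegral_of_isMaximal v.asIdeal)).symm
  obtain ⟨m, ⟨e⟩⟩ := Finite.exists_equiv_fin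
    (IsDedekindDomain.HeightOneSpectrum (integralClosure O L))
  refine ⟨m, fun i => (e.symm i).valuation L, fun i => (e.symm i).valuation_exists_uniformizer L,
    fun x hx j => ?_⟩
  obtain ⟨y, rfl⟩ := IsDedekindDomain.HeightOneSpectrum.mem_integers_of_valuation_le_one
    (R := integralClosure O L) L x fun v => by simpa using hx (e v)
  rw [minpoly.isIntegrallyClosed_eq_field_fractions' F (R := O) (s := algebraMap _ L y) y.2,
    Polynomial.coeff_map]
  exact SetLike.coe_mem _

/-- A power of Frobenius maps a finite extension into a separable one. -/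
theorem exists_frob_sep (p : ℕ) [Fact p.Prime] (F L : Type) [Field F] [Field L] [Algebra F L]
    [FiniteDimensional F L] [CharP F p] :
    ∃ (e : ℕ) (ψ : L →+* separableClosure F L), ∀ x, (ψ x : L) = x ^ p ^ e := by
  have : CharP (separableClosure F L) p :=
    charP_of_injective_algebraMap (algebraMap F _).injective p
  have : ExpChar (separableClosure F L) p := ExpChar.prime Fact.out
  exact ⟨_, IsPurelyInseparable.iterateFrobenius (separableClosure F L) L p le_rfl,
    IsPurelyInseparable.algebraMap_iterateFrobenius (separableClosure F L) p le_rfl⟩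

end Pool.Agent.MP_f7db47_al.PT

end

section

namespace Pool.Agent.MP_f7db47_al.PT

open scoped WithZero

theorem Val_const (k B A : Type) [Field k] [CommRing B] [CommRing A] [Algebra k B] [Algebra k A]
    [Algebra B A] [IsScalarTower k B A] (y : A) (hy : IsIntegral B y)
    (h : ∀ j, ∃ c : k, (minpoly B y).coeff j = algebraMap k B c) : IsIntegral k y := by
  obtain ⟨q, hq, -, hm⟩ := Polynomial.lifts_and_natDegree_eq_and_monic
    ((Polynomial.lifts_iff_coeff_lifts (f := algebraMap k B) (minpoly B y)).2 fun j => by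
      obtain ⟨c, hc⟩ := h j
      exact ⟨c, hc.symm⟩) (minpoly.monic hy)
  refine ⟨q, hm, ?_⟩
  rw [← Polynomial.aeval_def, ← Polynomial.aeval_map_algebraMap B, hq, minpoly.aeval]

theorem Val_fields (p : ℕ) [Fact p.Prime] (k B A F L0 : Type) [Field k] [CommRing B] [IsDomain B]
    [IsIntegrallyClosed B] [CommRing A] [IsDomain A] [Algebra k B] [Algebra k A] [Algebra B A]
    [IsScalarTower k B A] [Module.Finite B A] [Field F] [Algebra B F] [IsFractionRing B F]
    [Field L0] [Algebra A L0] [IsFractionRing A L0] [Algebra B L0] [Algebra F L0]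
    [IsScalarTower B F L0] [IsScalarTower B A L0] [FiniteDimensional F L0] [CharP F p]
    (O : ValuationSubring F) (hO : IsDiscreteValuationRing O)
    (h : ∀ b : B, algebraMap B F b ∈ O → ∃ c : k, b = algebraMap k B c) :
    ∃ (L : Type) (_ : Field L) (φ : A →+* L) (m : ℕ) (v : Fin m → Valuation L ℤᵐ⁰),
      Function.Injective φ ∧ (∀ i, ∃ π, v i π = WithZero.exp (-1)) ∧
      ∀ a : A, (∀ i, v i (φ a) ≤ 1) → IsIntegral k a := by
  obtain ⟨e, ψ, hψ⟩ := exists_frob_sep p F L0
  obtain ⟨m, v, h1, h2⟩ := exists_vals_sep F (separableClosure F L0) O hO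
  refine ⟨separableClosure F L0, inferInstance, ψ.comp (algebraMap A L0), m, v,
    ψ.injective.comp (IsFractionRing.injective A L0), h1, fun a ha => ?_⟩
  have hi : IsIntegral B (a ^ p ^ e) := Algebra.IsIntegral.isIntegral _
  refine IsIntegral.of_pow (pow_pos (Fact.out : p.Prime).pos e) (Val_const k B A _ hi fun j => ?_)
  have h3 := h2 _ ha j
  rw [IntermediateField.minpoly_eq, RingHom.comp_apply, hψ, ← map_pow,
    minpoly.isIntegrallyClosed_eq_field_fractions F L0 hi, Polynomial.coeff_map] at h3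
  exact h _ h3

theorem Val_abs (p : ℕ) [Fact p.Prime] (k B A : Type) [Field k] [CharP k p] [CommRing B]
    [IsDomain B] [IsIntegrallyClosed B] [CommRing A] [IsDomain A] [Algebra k B] [Algebra k A]
    [Algebra B A] [IsScalarTower k B A] [Module.Finite B A] [FaithfulSMul B A]
    (O : ValuationSubring (FractionRing B)) (hO : IsDiscreteValuationRing O)
    (h : ∀ b : B, algebraMap B (FractionRing B) b ∈ O → ∃ c : k, b = algebraMap k B c) :
    ∃ (L : Type) (_ : Field L) (φ : A →+* L) (m : ℕ) (v : Fin m → Valuation L ℤᵐ⁰),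
      Function.Injective φ ∧ (∀ i, ∃ π, v i π = WithZero.exp (-1)) ∧
      ∀ a : A, (∀ i, v i (φ a) ≤ 1) → IsIntegral k a := by
  let _ := FractionRing.liftAlgebra B (FractionRing A)
  have _ : FiniteDimensional (FractionRing B) (FractionRing A) :=
    .of_isLocalization B A (nonZeroDivisors B)
  have _ : CharP (FractionRing B) p :=
    charP_of_injective_algebraMap (algebraMap k (FractionRing B)).injective p
  exact Val_fields p k B A (FractionRing B) (FractionRing A) O hO h

/-- Finitely many discrete valuations that detect the algebraic elements of an affine domain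
over a prime field. -/
theorem exists_vals (p : ℕ) [Fact p.Prime] (A : Type) [CommRing A] [IsDomain A]
    [Algebra (ZMod p) A] [Algebra.FiniteType (ZMod p) A] :
    ∃ (L : Type) (_ : Field L) (φ : A →+* L) (m : ℕ) (v : Fin m → Valuation L ℤᵐ⁰),
      Function.Injective φ ∧ (∀ i, ∃ π, v i π = WithZero.exp (-1)) ∧
      ∀ a : A, (∀ i, v i (φ a) ≤ 1) → IsIntegral (ZMod p) a := by
  obtain ⟨s, g, hg, hf⟩ := exists_finite_inj_algHom_of_fg (ZMod p) A
  let _ : Algebra (MvPolynomial (Fin s) (ZMod p)) A := g.toRingHom.toAlgebra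
  have _ : IsScalarTower (ZMod p) (MvPolynomial (Fin s) (ZMod p)) A :=
    IsScalarTower.of_algebraMap_eq fun c => (g.commutes c).symm
  have _ : Module.Finite (MvPolynomial (Fin s) (ZMod p)) A := hf
  have _ : FaithfulSMul (MvPolynomial (Fin s) (ZMod p)) A :=
    (faithfulSMul_iff_algebraMap_injective _ _).2 hg
  rcases s with _ | s
  · refine ⟨FractionRing A, inferInstance, algebraMap A _, 0, Fin.elim0,
      IsFractionRing.injective A _, fun i => i.elim0, fun a _ => ?_⟩
    refine Val_const (ZMod p) (MvPolynomial (Fin 0) (ZMod p)) A a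
      (Algebra.IsIntegral.isIntegral a) fun j => ⟨_, MvPolynomial.eq_C_of_isEmpty _⟩
  · obtain ⟨O, hO, -, h⟩ := exists_deg_dvr (ZMod p) s
    exact Val_abs p (ZMod p) (MvPolynomial (Fin (s + 1)) (ZMod p)) A O hO h

end Pool.Agent.MP_f7db47_al.PT

end

section

/-!
Valuations that detect the algebraic elements of an affine domain of characteristic zero.
-/

namespace Pool.Agent.MP_f7db47_al.PT

open scoped WithZero

theorem ZVal_sep (F L : Type) [Field F] [Field L] [Algebra F L] [FiniteDimensional F L]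
    [Algebra.IsSeparable F L] (O : ValuationSubring F) (hO : IsDiscreteValuationRing O) :
    ∃ (m : ℕ) (v : Fin m → Valuation L ℤᵐ⁰), (∀ i, ∃ π, v i π = WithZero.exp (-1)) ∧
      (∀ x : L, (∀ i, v i x ≤ 1) → ∀ j, (minpoly F x).coeff j ∈ O) ∧
      ∀ i, ∀ x ∈ O, v i (algebraMap F L x) ≤ 1 := by
  have := integralClosure.isDedekindDomain O F L
  have := integralClosure.isFractionRing_of_finite_extension (A := O) F L
  have hi : Function.Injective (algebraMap O L) := by
    rw [IsScalarTower.algebraMap_eq O F L]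
    exact (algebraMap F L).injective.comp Subtype.val_injective
  have : FaithfulSMul O (integralClosure O L) := (faithfulSMul_iff_algebraMap_injective _ _).2
    fun a b h => hi (congrArg Subtype.val h)
  have hf : Finite (IsDedekindDomain.HeightOneSpectrum (integralClosure O L)) := by
    have := (IsDedekindDomain.primesOver_finite (IsLocalRing.maximalIdeal O)
      (integralClosure O L)).to_subtype
    refine Finite.of_injective (β := Ideal.primesOver (IsLocalRing.maximalIdeal O)
      (integralClosure O L)) (fun v => ⟨v.asIdeal, v.isPrime, ⟨?_⟩⟩) fun v w h =>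
        IsDedekindDomain.HeightOneSpectrum.ext (congrArg Subtype.val h)
    have := v.isMaximal
    exact (IsLocalRing.eq_maximalIdeal
      (Ideal.isMaximal_comap_of_isIntegral_of_isMaximal v.asIdeal)).symm
  obtain ⟨m, ⟨e⟩⟩ := Finite.exists_equiv_fin
    (IsDedekindDomain.HeightOneSpectrum (integralClosure O L))
  refine ⟨m, fun i => (e.symm i).valuation L, fun i => (e.symm i).valuation_exists_uniformizer L,
    fun x hx j => ?_, fun i x hx => ?_⟩
  · obtain ⟨y, rfl⟩ := IsDedekindDomain.HeightOneSpectrum.mem_integers_of_valuation_le_one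
      (R := integralClosure O L) L x fun v => by simpa using hx (e v)
    rw [minpoly.isIntegrallyClosed_eq_field_fractions' F (R := O) (s := algebraMap _ L y) y.2,
      Polynomial.coeff_map]
    exact SetLike.coe_mem _
  · exact (e.symm i).valuation_le_one (K := L) (algebraMap O (integralClosure O L) ⟨x, hx⟩)

theorem ZVal_fields (k B A F L : Type) [Field k] [CommRing B] [IsDomain B]
    [IsIntegrallyClosed B] [CommRing A] [IsDomain A] [Algebra k B] [Algebra k A] [Algebra B A]
    [IsScalarTower k B A] [Module.Finite B A] [Field F] [Algebra B F] [IsFractionRing B F]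
    [Field L] [Algebra A L] [IsFractionRing A L] [Algebra B L] [Algebra F L]
    [IsScalarTower B F L] [IsScalarTower B A L] [FiniteDimensional F L] [CharZero F]
    (O : ValuationSubring F) (hO : IsDiscreteValuationRing O)
    (hc : ∀ c : k, algebraMap B F (algebraMap k B c) ∈ O)
    (h : ∀ b : B, algebraMap B F b ∈ O → ∃ c : k, b = algebraMap k B c) :
    ∃ (m : ℕ) (v : Fin m → Valuation L ℤᵐ⁰), (∀ i, ∃ π, v i π = WithZero.exp (-1)) ∧
      (∀ a : A, (∀ i, v i (algebraMap A L a) ≤ 1) → IsIntegral k a) ∧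
      ∀ i (c : k), v i (algebraMap A L (algebraMap k A c)) ≤ 1 := by
  obtain ⟨m, v, h1, h2, h3⟩ := ZVal_sep F L O hO
  refine ⟨m, v, h1, fun a ha => ?_, fun i c => ?_⟩
  · have hi : IsIntegral B a := Algebra.IsIntegral.isIntegral _
    refine Val_const k B A _ hi fun j => ?_
    have h4 := h2 _ ha j
    rw [minpoly.isIntegrallyClosed_eq_field_fractions F L hi, Polynomial.coeff_map] at h4
    exact h _ h4
  · rw [IsScalarTower.algebraMap_apply k B A, ← IsScalarTower.algebraMap_apply B A L,
      IsScalarTower.algebraMap_apply B F L]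
    exact h3 i _ (hc c)

theorem ZVal_abs (k B A : Type) [Field k] [CharZero k] [CommRing B]
    [IsDomain B] [IsIntegrallyClosed B] [CommRing A] [IsDomain A] [Algebra k B] [Algebra k A]
    [Algebra B A] [IsScalarTower k B A] [Module.Finite B A] [FaithfulSMul B A]
    (O : ValuationSubring (FractionRing B)) (hO : IsDiscreteValuationRing O)
    (hc : ∀ c : k, algebraMap B (FractionRing B) (algebraMap k B c) ∈ O)
    (h : ∀ b : B, algebraMap B (FractionRing B) b ∈ O → ∃ c : k, b = algebraMap k B c) :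
    ∃ (m : ℕ) (v : Fin m → Valuation (FractionRing A) ℤᵐ⁰),
      (∀ i, ∃ π, v i π = WithZero.exp (-1)) ∧
      (∀ a : A, (∀ i, v i (algebraMap A _ a) ≤ 1) → IsIntegral k a) ∧
      ∀ i (c : k), v i (algebraMap A _ (algebraMap k A c)) ≤ 1 := by
  let _ := FractionRing.liftAlgebra B (FractionRing A)
  have _ : FiniteDimensional (FractionRing B) (FractionRing A) :=
    .of_isLocalization B A (nonZeroDivisors B)
  have _ : CharZero (FractionRing B) :=
    charZero_of_injective_algebraMap (algebraMap k (FractionRing B)).injective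
  exact ZVal_fields k B A (FractionRing B) (FractionRing A) O hO hc h

theorem ZVal_base (k A : Type) [Field k] [CharZero k] [CommRing A] [IsDomain A] [Algebra k A]
    [Algebra.FiniteType k A] :
    ∃ (m : ℕ) (v : Fin m → Valuation (FractionRing A) ℤᵐ⁰),
      (∀ i, ∃ π, v i π = WithZero.exp (-1)) ∧
      (∀ a : A, (∀ i, v i (algebraMap A _ a) ≤ 1) → IsIntegral k a) ∧
      ∀ i (c : k), v i (algebraMap A _ (algebraMap k A c)) ≤ 1 := by
  obtain ⟨s, g, hg, hf⟩ := exists_finite_inj_algHom_of_fg k A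
  let _ : Algebra (MvPolynomial (Fin s) k) A := g.toRingHom.toAlgebra
  have _ : IsScalarTower k (MvPolynomial (Fin s) k) A :=
    IsScalarTower.of_algebraMap_eq fun c => (g.commutes c).symm
  have _ : Module.Finite (MvPolynomial (Fin s) k) A := hf
  have _ : FaithfulSMul (MvPolynomial (Fin s) k) A :=
    (faithfulSMul_iff_algebraMap_injective _ _).2 hg
  rcases s with _ | s
  · refine ⟨0, Fin.elim0, fun i => i.elim0, fun a _ => ?_, fun i => i.elim0⟩
    exact Val_const k (MvPolynomial (Fin 0) k) A a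
      (Algebra.IsIntegral.isIntegral a) fun j => ⟨_, MvPolynomial.eq_C_of_isEmpty _⟩
  · obtain ⟨O, hO, hc, h⟩ := exists_deg_dvr k s
    exact ZVal_abs k (MvPolynomial (Fin (s + 1)) k) A O hO hc h

theorem ZVal_alg {L : Type} [Field L] [CharZero L] (v : Valuation L ℤᵐ⁰)
    (h : ∀ c : ℚ, v (algebraMap ℚ L c) ≤ 1) {x : L} (hx : IsAlgebraic ℤ x) : v x ≤ 1 :=
  (Valuation.integer.integers v).mem_of_integral
    (((IsFractionRing.isAlgebraic_iff ℤ ℚ L).1 hx).isIntegral.map_of_comp_eq
      ((algebraMap ℚ L).codRestrict v.integer h) (RingHom.id L) rfl)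

theorem ZVal_zero {L : Type} [Field L] [CharZero L] (v : Valuation L ℤᵐ⁰) (ρ : ℚ →+* L)
    (h : ∀ c : ℚ, v (ρ c) ≤ 1) (x : L) (hx : IsAlgebraic ℤ x) (hv : v x < 1) : x = 0 := by
  by_contra h0
  have h5 := ZVal_alg v (Subsingleton.elim ρ (algebraMap ℚ L) ▸ h) hx.inv
  rw [map_inv₀, inv_le_one₀ (zero_lt_iff.2 ((Valuation.ne_zero_iff _).2 h0))] at h5
  exact absurd hv (not_lt.2 h5)

theorem exists_vals0 (A : Type) [CommRing A] [IsDomain A] [CharZero A]
    (hfg : Algebra.FiniteType ℤ A) :
    ∃ (L : Type) (_ : Field L) (_ : CharZero L) (φ : A →+* L) (m : ℕ)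
      (v : Fin m → Valuation L ℤᵐ⁰), Function.Injective φ ∧
      (∀ i, ∃ π, v i π = WithZero.exp (-1)) ∧
      (∀ a : A, (∀ i, v i (φ a) ≤ 1) → IsAlgebraic ℤ a) ∧
      ∀ (i : Fin m) (x : L), IsAlgebraic ℤ x → v i x < 1 → x = 0 := by
  classical
  obtain ⟨s, hs⟩ := hfg.out
  let K := FractionRing A
  let A' : Subalgebra ℚ K := Algebra.adjoin ℚ (algebraMap A K '' s)
  have _ : Algebra.FiniteType ℚ A' := .adjoin_of_finite (s.finite_toSet.image _)
  have hm : ∀ a : A, algebraMap A K a ∈ A' := fun a => by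
    have ha : a ∈ Algebra.adjoin ℤ (s : Set A) := hs ▸ Algebra.mem_top
    induction ha using Algebra.adjoin_induction with
    | mem x hx => exact Algebra.subset_adjoin ⟨x, hx, rfl⟩
    | algebraMap r => simp
    | add x y _ _ hx hy => rw [map_add]; exact add_mem hx hy
    | mul x y _ _ hx hy => rw [map_mul]; exact mul_mem hx hy
  let φ : A →+* A' := (algebraMap A K).codRestrict A' hm
  have hφ : Function.Injective φ := fun a b h =>
    IsFractionRing.injective A K (congrArg Subtype.val h)
  obtain ⟨m, v, h1, h2, h3⟩ := ZVal_base ℚ A'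
  exact ⟨FractionRing A', inferInstance, inferInstance, (algebraMap A' _).comp φ, m, v,
    (IsFractionRing.injective A' _).comp hφ, h1,
    fun a ha => (isAlgebraic_algHom_iff φ.toIntAlgHom hφ).1
      ((IsFractionRing.isAlgebraic_iff ℤ ℚ A').2 (h2 _ ha).isAlgebraic),
    fun i => ZVal_zero (v i) ((algebraMap A' _).comp (algebraMap ℚ A')) (h3 i)⟩

end Pool.Agent.MP_f7db47_al.PT

end

section

/-!
Compound matrices.
-/

namespace Pool.Agent.MP_f7db47_al.GS

/-- The `k`-th compound matrix, as a monoid homomorphism. -/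
noncomputable def Cmp_hom (K : Type) [Field K] (n k : ℕ) :
    Matrix (Fin n) (Fin n) K →*
      Matrix (Set.powersetCard (Fin n) k) (Set.powersetCard (Fin n) k) K where
  toFun M := LinearMap.toMatrix ((Pi.basisFun K (Fin n)).exteriorPower k)
    ((Pi.basisFun K (Fin n)).exteriorPower k) (exteriorPower.map k (Matrix.toLin' M))
  map_one' := by
    rw [Matrix.toLin'_one, exteriorPower.map_id, LinearMap.toMatrix_id]
  map_mul' M N := by
    rw [Matrix.toLin'_mul, exteriorPower.map_comp,
      LinearMap.toMatrix_comp _ ((Pi.basisFun K (Fin n)).exteriorPower k)]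

theorem Cmp_diag (K : Type) [Field K] (n k : ℕ) (M : Matrix (Fin n) (Fin n) K)
    (s : Set.powersetCard (Fin n) k) :
    Cmp_hom K n k M s s =
      (M.submatrix (Subtype.val : s.val → Fin n) (Subtype.val : s.val → Fin n)).det := by
  change LinearMap.toMatrix ((Pi.basisFun K (Fin n)).exteriorPower k)
    ((Pi.basisFun K (Fin n)).exteriorPower k) (exteriorPower.map k (Matrix.toLin' M)) s s = _
  rw [LinearMap.toMatrix_apply, exteriorPower.basis_repr_apply, exteriorPower.basis_apply,
    exteriorPower.map_apply_ιMulti_family, exteriorPower.ιMulti_family,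
    exteriorPower.ιMultiDual_apply_ιMulti, ← Matrix.det_transpose,
    ← Matrix.det_submatrix_equiv_self (s.val.orderIsoOfFin s.prop).toEquiv
      (M.submatrix (Subtype.val : s.val → Fin n) (Subtype.val : s.val → Fin n))]
  congr 1
  ext i j
  simp [Set.powersetCard.ofFinEmbEquiv_symm_apply]

theorem Cmp_trace (K : Type) [Field K] (n k : ℕ) (M : Matrix (Fin n) (Fin n) K) :
    (Cmp_hom K n k M).trace = ∑ s ∈ (Finset.univ : Finset (Fin n)).powersetCard k,
      (M.submatrix (Subtype.val : s → Fin n) (Subtype.val : s → Fin n)).det := by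
  rw [Matrix.trace]
  simp only [Matrix.diag_apply, Cmp_diag]
  symm
  apply Finset.sum_subtype
  intro s
  simp [Finset.mem_powersetCard]

theorem exists_compound (K : Type) [Field K] (n i : ℕ) :
    ∃ (κ : Type) (_ : Fintype κ) (_ : DecidableEq κ)
      (Λ : Matrix (Fin n) (Fin n) K →* Matrix κ κ K),
      ∀ M, (Λ M).trace = M.charpoly.coeff i ∨ (Λ M).trace = -M.charpoly.coeff i := by
  by_cases hi : n < i
  · refine ⟨Empty, inferInstance, inferInstance, 1, fun M => Or.inl ?_⟩
    rw [Polynomial.coeff_eq_zero_of_natDegree_lt]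
    · simp [Matrix.trace]
    · rw [Matrix.charpoly_natDegree_eq_dim, Fintype.card_fin]; exact hi
  · have hi' : i ≤ n := not_lt.mp hi
    refine ⟨Set.powersetCard (Fin n) (n - i), inferInstance, inferInstance,
      Cmp_hom K n (n - i), fun M => ?_⟩
    have h := Matrix.charpoly_coeff_eq_sum_minors M (n - i) (by simp)
    rw [Fintype.card_fin, Nat.sub_sub_self hi', ← Cmp_trace] at h
    rcases neg_one_pow_eq_or K (n - i) with h1 | h1
    · left; rw [h, h1, one_mul]
    · right; rw [h, h1]; ring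

end Pool.Agent.MP_f7db47_al.GS

end
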