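import Pool.Agent.Mg.Ff7db47.G02d797
import Pool.Agent.Mg.Ff7db47.G0ffa8c

section

/-!
Invariant marks in windows.
-/

namespace Pool.Agent.MP_f7db47_al.GN

theorem WMark_code {P : Type} (s : Setoid P) (B : Finset P) (N : ℕ) (h : B.card ≤ N) :
    ∃ c : P → ℕ, (∀ p p', s p p' → c p = c p') ∧ (∀ p ∈ B, c p < N) ∧
      ∀ p ∈ B, ∀ p' ∈ B, c p = c p' → s p p' := by
  classical
  let B' := B.image (Quotient.mk s)
  have hm : ∀ p ∈ B, Quotient.mk s p ∈ B' := fun p hp => Finset.mem_image_of_mem _ hp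
  let f : Quotient s → ℕ := fun a => if h : a ∈ B' then (B'.equivFin ⟨a, h⟩ : ℕ) else 0
  refine ⟨fun p => f (Quotient.mk s p), fun p p' e => congrArg f (Quotient.sound e),
    fun p hp => ?_, fun p hp p' hp' e => ?_⟩
  · simp only [f, dif_pos (hm p hp)]
    exact (B'.equivFin _).2.trans_le (Finset.card_image_le.trans h)
  · simp only [f, dif_pos (hm p hp), dif_pos (hm p' hp')] at e
    exact Quotient.exact (congrArg Subtype.val (B'.equivFin.injective (Fin.ext e)))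

/-- Windows that differ by an element of the group. -/
def WMark_rel {β : ℕ} (S : ℕ) (G : Type) [Group G] {Ω : Type} [MulAction G Ω] {J : Type}
    (ω : J → (Fin β → ℤ) → Ω) : Setoid (J × (Fin β → ℤ)) where
  r p p' := ∃ γ : G, ∀ w, Bx S w → ω p'.1 (p'.2 + w) = γ • ω p.1 (p.2 + w)
  iseqv := by
    refine ⟨fun p => ⟨1, fun w _ => (one_smul _ _).symm⟩, ?_, ?_⟩
    · rintro p p' ⟨γ, h⟩
      exact ⟨γ⁻¹, fun w hw => by rw [h w hw, inv_smul_smul]⟩
    · rintro p p' p'' ⟨γ, h⟩ ⟨γ', h'⟩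
      exact ⟨γ' * γ, fun w hw => by rw [h' w hw, h w hw, mul_smul]⟩

theorem WMark_add {κ : Type} {a b : ℕ} {x y : κ → ℤ} (hx : Bx a x) (hy : Bx b y) :
    Bx (a + b) (x + y) := fun i => by
  have := abs_add_le (x i) (y i)
  have := hx i
  have := hy i
  simp only [Pi.add_apply]
  push_cast
  linarith

theorem WMark_mono {κ : Type} {a b : ℕ} {x : κ → ℤ} (hx : Bx a x) (h : a ≤ b) : Bx b x :=
  fun i => (hx i).trans (by exact_mod_cast h)

theorem wmark (β t S D : ℕ) : ∀ c : ℕ, ∃ X : ℕ, D + S ≤ X ∧ ∀ (G : Type) [Group G] (Ω : Type)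
    [MulAction G Ω] (J : Type) [Fintype J], Fintype.card J ≤ 2 ^ 2 ^ (c * (X + 1)) →
    ∀ ω : J → (Fin β → ℤ) → Ω, ∃ M : Fin (9 ^ β + 1) → J → (Fin β → ℤ) → Prop,
      (∀ j, ∃ q x, M q j x ∧ Bx t x) ∧
      (∀ q j x y, M q j x → M q j y → Bx D x → Bx D y → Bx (4 * t) (x - y) →
        ∃ γ : G, ∀ w, Bx S w → ω j (y + w) = γ • ω j (x + w)) ∧
      ∀ j j' (γ : G) δ, (∀ v, Bx X v → Bx X (v + δ) → ω j v = γ • ω j' (v + δ)) →
        ∀ q x, Bx D x → Bx D (x + δ) → (M q j x ↔ M q j' (x + δ)) := by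
  intro c
  obtain ⟨X, n, hX, Φ, p1, p2, p3⟩ :=
    cv (Fin β) (4 * t) c ((9 ^ β + 1) * (4 * t) + D + 3 * (4 * t) + S)
  obtain ⟨Mark, -, m2, m3, m4⟩ := PT.exists_marks (Fin β) t (4 * t) 4 n le_rfl (by omega)
  rw [Fintype.card_fin] at p2 m3
  have hDX : D + S ≤ X := by omega
  refine ⟨X, hDX, fun G _ Ω _ J _ hJ ω => ?_⟩
  classical
  obtain ⟨c0, c1, c2, c3⟩ := WMark_code (WMark_rel S G ω)
    (Finset.univ ×ˢ Fintype.piFinset fun _ : Fin β => Finset.Icc (-(X : ℤ)) X)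
    (2 ^ 2 ^ (c * (X + 1)) * (2 * X + 1) ^ β) (by
      rw [Finset.card_product, Finset.card_univ, Fintype.card_piFinset]
      simp only [Int.card_Icc, Finset.prod_const, Finset.card_univ, Fintype.card_fin]
      rw [show ((X : ℤ) + 1 - -(X : ℤ)).toNat = 2 * X + 1 by omega]
      exact Nat.mul_le_mul_right _ hJ)
  have hB : ∀ (j : J) (x : Fin β → ℤ), Bx D x →
      (j, x) ∈ Finset.univ ×ˢ Fintype.piFinset fun _ : Fin β => Finset.Icc (-(X : ℤ)) X :=
    fun j x hx => Finset.mem_product.2 ⟨Finset.mem_univ _, Fintype.mem_piFinset.2 fun i =>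
      Finset.mem_Icc.2 (abs_le.1 (WMark_mono hx (by omega) i))⟩
  refine ⟨fun q j x => Mark (Φ fun v => c0 (j, v)) q x, fun j => ?_,
    fun q j x y hx hy bx by' hxy => ?_, fun j j' γ δ h q x bx bδ => ?_⟩
  · obtain ⟨q, hq, y, hy, hy'⟩ := m3 (Φ fun v => c0 (j, v)) 0 (p1 _ _)
    exact ⟨⟨q, hq⟩, y, hy, fun i => by simpa using hy' i⟩
  · exact c3 _ (hB j x bx) _ (hB j y by') (p2 (fun v => c0 (j, v)) x y (c2 _ (hB j x bx))
      (c2 _ (hB j y by')) hxy (m2 _ _ _ _ hx hy hxy))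
  · refine m4 _ _ _ _ _ fun y hy => p3 _ _ _ _ fun z hz => (c1 _ _ ⟨γ, fun w hw => ?_⟩).symm
    have hq : ((q : ℕ) + 1) * n * (4 * t) ≤ (9 ^ β + 1) * (4 * t) * n := by
      rw [mul_right_comm]
      exact Nat.mul_le_mul_right _ (Nat.mul_le_mul_right _ q.2)
    have hle : D + ((q : ℕ) + 1) * n * (4 * t) + 3 * (4 * t) + S ≤ X := by
      rw [add_mul, add_mul, add_mul] at hX
      omega
    have e : x + y + z + w + δ = x + δ + y + z + w := by abel
    have := h (x + y + z + w) (WMark_mono (WMark_add (WMark_add (WMark_add bx hy) hz) hw) hle)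
      (e ▸ WMark_mono (WMark_add (WMark_add (WMark_add bδ hy) hz) hw) hle)
    rwa [e] at this

end Pool.Agent.MP_f7db47_al.GN

end

section

/-!
Spiders from windows.
-/

namespace Pool.Agent.MP_f7db47_al.GN

section Aux

variable {G : Type} [Group G] {Ω : Type} [MulAction G Ω] {κ J : Type}

/-- The generators of the group of periods of a pattern. -/
def Win_gen (G : Type) [Group G] [MulAction G Ω] (r : ℕ) (f : (κ → ℤ) → Ω) : Set G :=
  {σ | ∃ y, Bx (4 * r) y ∧ ∀ w, Bx (8 * r) w → Bx (8 * r) (w + y) → f (w + y) = σ • f w}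

theorem Win_conj {r : ℕ} {f f' : (κ → ℤ) → Ω} {g₀ : G}
    (h : ∀ w, Bx (8 * r) w → f w = g₀ • f' w) {σ : G}
    (hσ : σ ∈ Subgroup.closure (Win_gen G r f')) :
    g₀ * σ * g₀⁻¹ ∈ Subgroup.closure (Win_gen G r f) := by
  induction hσ using Subgroup.closure_induction with
  | mem σ hσ =>
    obtain ⟨y, hy, hw⟩ := hσ
    refine Subgroup.subset_closure ⟨y, hy, fun w h1 h2 => ?_⟩
    rw [h _ h2, hw w h1 h2, h w h1, mul_smul, mul_smul, inv_smul_smul]
  | one => simp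
  | mul a b _ _ ha hb =>
    have := mul_mem ha hb
    rwa [show g₀ * a * g₀⁻¹ * (g₀ * b * g₀⁻¹) = g₀ * (a * b) * g₀⁻¹ by group] at this
  | inv a _ ha =>
    have := inv_mem ha
    rwa [show (g₀ * a * g₀⁻¹)⁻¹ = g₀ * a⁻¹ * g₀⁻¹ by group] at this

/-- The groupoid of patterns up to periods. -/
def Win_leg (G : Type) [Group G] [MulAction G Ω] (r : ℕ) (f : J → (κ → ℤ) → Ω) : Gpd G J where
  r j γ j' := ∃ g₀ : G, (∀ w, Bx (8 * r) w → f j w = g₀ • f j' w) ∧
    γ * g₀⁻¹ ∈ Subgroup.closure (Win_gen G r (f j))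
  refl j := ⟨1, fun w _ => (one_smul _ _).symm, by simp⟩
  symm := by
    rintro a g b ⟨g₀, h, hg⟩
    have h' : ∀ w, Bx (8 * r) w → f b w = g₀⁻¹ • f a w := fun w hw => by
      rw [h w hw, inv_smul_smul]
    refine ⟨g₀⁻¹, h', ?_⟩
    have := Win_conj h' (inv_mem hg)
    rwa [show g₀⁻¹ * (g * g₀⁻¹)⁻¹ * g₀⁻¹⁻¹ = g⁻¹ * g₀⁻¹⁻¹ by group] at this
  trans := by
    rintro a g b g' c ⟨g₀, h, hg⟩ ⟨g₁, h', hg'⟩
    refine ⟨g₀ * g₁, fun w hw => by rw [h w hw, h' w hw, mul_smul], ?_⟩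
    have := mul_mem hg (Win_conj h hg')
    rwa [show g * g₀⁻¹ * (g₀ * (g' * g₁⁻¹) * g₀⁻¹) = g * g' * (g₀ * g₁)⁻¹ by group] at this

theorem Win_zero (a : ℕ) : Bx a (0 : κ → ℤ) := fun i => by simp

theorem Win_neg {a : ℕ} {x : κ → ℤ} (hx : Bx a x) : Bx a (-x) := fun i => by
  simpa using hx i

theorem Win_comm {r : ℕ} {f : (κ → ℤ) → Ω} (hf : ∀ γ : G, γ • f 0 = f 0 → γ = 1) {a b : G}
    (ha : a ∈ Subgroup.closure (Win_gen G r f)) (hb : b ∈ Subgroup.closure (Win_gen G r f)) :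
    a * b = b * a := by
  have key : ∀ a ∈ Win_gen G r f, ∀ b ∈ Win_gen G r f, (a * b) • f 0 = (b * a) • f 0 := by
    have one : ∀ a b : G, ∀ y y' : κ → ℤ, Bx (4 * r) y → Bx (4 * r) y' →
        (∀ w, Bx (8 * r) w → Bx (8 * r) (w + y) → f (w + y) = a • f w) →
        (∀ w, Bx (8 * r) w → Bx (8 * r) (w + y') → f (w + y') = b • f w) →
        (a * b) • f 0 = f (y' + y) := by
      intro a b y y' hy hy' h h'
      have e1 := h' 0 (Win_zero _) (by rw [zero_add]; exact WMark_mono hy' (by omega))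
      rw [zero_add] at e1
      rw [mul_smul, ← e1, h y' (WMark_mono hy' (by omega))
        (WMark_mono (WMark_add hy' hy) (by omega))]
    rintro a ⟨y, hy, h⟩ b ⟨y', hy', h'⟩
    rw [one a b y y' hy hy' h h', one b a y' y hy' hy h' h, add_comm]
  have key2 : ∀ a ∈ Win_gen G r f, ∀ b ∈ Win_gen G r f, a * b = b * a := by
    intro a ha b hb
    have := hf ((b * a)⁻¹ * (a * b)) (by rw [mul_smul, key a ha b hb, inv_smul_smul])
    exact (inv_mul_eq_one.1 this).symm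
  have key3 : ∀ a ∈ Win_gen G r f, ∀ b ∈ Subgroup.closure (Win_gen G r f), a * b = b * a := by
    intro a ha b hb
    have : Subgroup.closure (Win_gen G r f) ≤ Subgroup.centralizer {a} :=
      (Subgroup.closure_le _).2 fun b hb => Subgroup.mem_centralizer_singleton_iff.2
        (key2 b hb a ha)
    exact (Subgroup.mem_centralizer_singleton_iff.1 (this hb)).symm
  have : Subgroup.closure (Win_gen G r f) ≤ Subgroup.centralizer {b} :=
    (Subgroup.closure_le _).2 fun a ha => Subgroup.mem_centralizer_singleton_iff.2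
      (key3 a ha b hb)
  exact Subgroup.mem_centralizer_singleton_iff.1 (this ha)

open Classical in
/-- The height given by the nearest mark. -/
noncomputable def Win_ht (r : ℕ) (M : (κ → ℤ) → Prop) : ℕ :=
  Nat.findGreatest (fun h => ∃ x, M x ∧ Bx (2 * r - h) x) (2 * r)

theorem Win_ht_le (r : ℕ) (M : (κ → ℤ) → Prop) : Win_ht r M ≤ 2 * r := by
  classical
  exact Nat.findGreatest_le _

theorem Win_le_ht {r h : ℕ} {M : (κ → ℤ) → Prop} {x : κ → ℤ} (hh : h ≤ 2 * r) (hx : M x)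
    (hb : Bx (2 * r - h) x) : h ≤ Win_ht r M := by
  classical
  exact Nat.le_findGreatest (P := fun h => ∃ x, M x ∧ Bx (2 * r - h) x) hh ⟨x, hx, hb⟩

theorem Win_xm (r : ℕ) (M : (κ → ℤ) → Prop) :
    ∃ x : κ → ℤ, Bx (2 * r - Win_ht r M) x ∧ (0 < Win_ht r M → M x) := by
  classical
  by_cases h : Win_ht r M = 0
  · exact ⟨0, Win_zero _, fun h' => absurd h h'.ne'⟩
  · obtain ⟨x, hx, hb⟩ := Nat.findGreatest_of_ne_zero
      (P := fun h => ∃ x, M x ∧ Bx (2 * r - h) x) (n := 2 * r) rfl h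
    exact ⟨x, hb, fun _ => hx⟩

theorem Win_step {r A₀ : ℕ} {M M' : (κ → ℤ) → Prop} {δ : κ → ℤ} (hδ : Bx A₀ δ)
    (h : ∀ x, Bx (2 * r + A₀) x → Bx (2 * r + A₀) (x + δ) → M x → M' (x + δ)) :
    Win_ht r M ≤ Win_ht r M' + A₀ := by
  obtain ⟨x, hb, hx⟩ := Win_xm r M
  have hle := Win_ht_le r M
  by_cases hA : Win_ht r M ≤ A₀
  · omega
  · have h1 := WMark_add hb hδ
    have := Win_le_ht (r := r) (h := Win_ht r M - A₀) (M := M') (by omega)
      (h x (WMark_mono hb (by omega)) (WMark_mono h1 (by omega)) (hx (by omega)))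
      (WMark_mono h1 (by omega))
    omega

end Aux

theorem win (β A₀ r c : ℕ) : ∃ X : ℕ, ∀ (G : Type) [Group G] (Ω : Type) [MulAction G Ω]
    (J : Type) [Fintype J], Fintype.card J ≤ 2 ^ 2 ^ (c * (X + 1)) →
    ∀ (ω : J → (Fin β → ℤ) → Ω) (good : J → Prop),
      (∀ j, good j → ∀ v, Bx X v → ∀ γ : G, γ • ω j v = ω j v → γ = 1) →
      ∃ S : Fin (9 ^ β + 1) → Spi G J, (∀ j, ∃ i, r ≤ (S i).ht j) ∧
        (∀ i j, good j → ∀ γ ∈ (S i).leg.grp j, ∀ γ' ∈ (S i).leg.grp j, γ * γ' = γ' * γ) ∧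
        ∀ j j' (γ : G) δ, Bx A₀ δ →
          (∀ v, Bx X v → Bx X (v + δ) → ω j v = γ • ω j' (v + δ)) →
          ∀ i, (S i).rel (3 * A₀) j γ j' := by
  obtain ⟨X, hX, hW⟩ := wmark β r (8 * r) (2 * r + A₀) c
  refine ⟨X, fun G _ Ω _ J _ hJ ω good hg => ?_⟩
  obtain ⟨M, m1, m2, m3⟩ := hW G Ω J hJ ω
  choose xm hb hx using fun q j => Win_xm r (M q j)
  refine ⟨fun q => ⟨Win_leg G r fun j w => ω j (xm q j + w), fun j => Win_ht r (M q j)⟩,
    fun j => ?_, fun q j hj γ hγ γ' hγ' => ?_, fun j j' γ δ hδ H q => ?_⟩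
  · obtain ⟨q, x, h1, h2⟩ := m1 j
    exact ⟨q, Win_le_ht (by omega) h1 (WMark_mono h2 (by omega))⟩
  · have hf : ∀ g : G, g • ω j (xm q j + 0) = ω j (xm q j + 0) → g = 1 :=
      hg j hj _ (by rw [add_zero]; exact WMark_mono (hb q j) (by omega))
    obtain ⟨g₀, h1, h2⟩ := hγ
    obtain ⟨g₁, h3, h4⟩ := hγ'
    obtain rfl := hf g₀ (h1 0 (Win_zero _)).symm
    obtain rfl := hf g₁ (h3 0 (Win_zero _)).symm
    rw [inv_one, mul_one] at h2 h4
    exact Win_comm (f := fun w => ω j (xm q j + w)) hf h2 h4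
  · have s1 : Win_ht r (M q j) ≤ Win_ht r (M q j') + A₀ :=
      Win_step hδ fun x a b h => (m3 j j' γ δ H q x a b).1 h
    have s2 : Win_ht r (M q j') ≤ Win_ht r (M q j) + A₀ :=
      Win_step (Win_neg hδ) fun x a b h => by
        refine (m3 j j' γ δ H q (x + -δ) b ?_).2 ?_ <;> rwa [neg_add_cancel_right]
    refine ⟨s1.trans (by dsimp only; omega), s2.trans (by dsimp only; omega), fun hn => ?_⟩
    dsimp only
    by_contra hc
    apply hn
    have hA : A₀ < Win_ht r (M q j) := by omega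
    have hle := Win_ht_le r (M q j)
    have b1 : Bx (2 * r) (xm q j + δ) := WMark_mono (WMark_add (hb q j) hδ) (by omega)
    have b2 : Bx (2 * r) (xm q j') := WMark_mono (hb q j') (by omega)
    have b0 : Bx (2 * r) (xm q j) := WMark_mono (hb q j) (by omega)
    have k1 : M q j' (xm q j + δ) := (m3 j j' γ δ H q _ (WMark_mono b0 (by omega))
      (WMark_mono b1 (by omega))).1 (hx q j (by omega))
    obtain ⟨σ, hσ⟩ := m2 q j' (xm q j') (xm q j + δ) (hx q j' (by omega)) k1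
      (WMark_mono b2 (by omega)) (WMark_mono b1 (by omega)) (by
        rw [sub_eq_add_neg]
        exact WMark_mono (WMark_add b2 (Win_neg b1)) (by omega))
    have hP : ∀ w, Bx (8 * r) w → ω j (xm q j + w) = (γ * σ) • ω j' (xm q j' + w) := by
      intro w hw
      have e : xm q j + w + δ = xm q j + δ + w := add_right_comm _ _ _
      rw [H _ (WMark_mono (WMark_add b0 hw) (by omega))
        (e ▸ WMark_mono (WMark_add b1 hw) (by omega)), e, hσ w hw, mul_smul]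
    refine ⟨γ * σ, hP, ?_⟩
    have hs : σ ∈ Subgroup.closure (Win_gen G r fun w => ω j' (xm q j' + w)) := by
      refine Subgroup.subset_closure ⟨xm q j + δ + -xm q j',
        WMark_mono (WMark_add b1 (Win_neg b2)) (by omega), fun w hw _ => ?_⟩
      dsimp only
      rw [← hσ w hw]
      congr 1
      abel
    have := Win_conj (f := fun w => ω j (xm q j + w)) hP (inv_mem hs)
    rwa [show γ * σ * σ⁻¹ * (γ * σ)⁻¹ = γ * (γ * σ)⁻¹ by group] at this

end Pool.Agent.MP_f7db47_al.GN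

end
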