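import Pool.Agent.Mg.Ff7db47.G02d797

/-!
Long intervals of constancy of periodic filtrations.
-/

namespace Pool.Agent.MP_f7db47_al.GN

open Classical in
theorem dep_le (p : ℕ → Prop) (Rt : ℕ) : dep p Rt ≤ Rt :=
  Nat.findGreatest_le Rt

open Classical in
theorem dep_spec {p : ℕ → Prop} {Rt : ℕ} (h : 0 < dep p Rt) : p (dep p Rt) :=
  Nat.findGreatest_of_ne_zero rfl h.ne'

open Classical in
theorem le_dep {p : ℕ → Prop} {Rt h : ℕ} (hp : p h) (hh : h ≤ Rt) : h ≤ dep p Rt :=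
  Nat.le_findGreatest hh hp

theorem dep_lip {p p' : ℕ → Prop} {Rt t : ℕ} (h : ∀ x, t < x → x ≤ Rt → p x → p' (x - t)) :
    dep p Rt ≤ dep p' Rt + t := by
  by_contra hc
  have h1 := dep_le p Rt
  have h2 := le_dep (Rt := Rt) (h _ (by omega) h1 (dep_spec (by omega))) (by omega)
  omega

variable {α : Type} [PartialOrder α] {π π' : α ≃o α} {q n : ℕ} {Ψ Ψ' : ℤ → α}

theorem Stretch_sand (hΨ : Antitone Ψ) {a b c : ℤ} (h : Ψ c = Ψ a) (hab : a ≤ b) (hbc : b ≤ c) :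
    Ψ b = Ψ a :=
  (hΨ hab).antisymm (h ▸ hΨ hbc)

theorem Stretch_pos (hΨ : Per π q n Ψ) : 0 < q :=
  Nat.pos_of_ne_zero fun h => hΨ.ne 0 (by simp [h])

theorem Stretch_near (hΨ : Per π q n Ψ) {a b : ℤ} (h : Ψ b = Ψ a) : b < a + q :=
  lt_of_not_ge fun hc => hΨ.ne a (Stretch_sand hΨ.anti h (by omega) hc)

theorem Stretch_per (hΨ : Per π q n Ψ) (m a b : ℤ) :
    Ψ (a + q * m) = Ψ (b + q * m) ↔ Ψ a = Ψ b := by
  have h1 : ∀ a b, Ψ (a + q) = Ψ (b + q) ↔ Ψ a = Ψ b := fun a b => by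
    rw [hΨ.per, hΨ.per, π.injective.eq_iff]
  induction m using Int.induction_on with
  | zero => simp
  | succ m ih =>
    rw [mul_add, mul_one, ← add_assoc, ← add_assoc]
    exact (h1 _ _).trans ih
  | pred m ih =>
    refine ((h1 _ _).symm.trans ?_).trans ih
    congr! 2 <;> ring

theorem Stretch_rgt (hΨ : Per π q n Ψ) (a : ℤ) : ∃ r, a ≤ r ∧ Ψ r = Ψ a ∧ Ψ (r + 1) ≠ Ψ r := by
  obtain ⟨r, h1, h2⟩ := Int.exists_greatest_of_bdd (P := fun z => Ψ z = Ψ a)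
    ⟨a + q, fun z hz => (Stretch_near hΨ hz).le⟩ ⟨a, rfl⟩
  exact ⟨r, h2 a rfl, h1, fun h => absurd (h2 _ (h.trans h1)) (by omega)⟩

theorem Stretch_lft (hΨ : Per π q n Ψ) {θ : ℕ} {a : ℤ} (h : Ψ (a + θ) = Ψ a) :
    ∃ l, Ψ l = Ψ a ∧ Ψ (l + θ) = Ψ l ∧ Ψ (l - 1) ≠ Ψ l := by
  obtain ⟨l, h1, h2⟩ := Int.exists_least_of_bdd (P := fun z => Ψ z = Ψ a)
    ⟨a - q, fun z hz => by have := Stretch_near hΨ hz.symm; omega⟩ ⟨a, rfl⟩
  have h3 := h2 a rfl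
  exact ⟨l, h1, Stretch_sand hΨ.anti (h.trans h1.symm) (by omega) (by omega),
    fun h => absurd (h2 _ (h.trans h1)) (by omega)⟩

theorem Stretch_brk (hΨ : Per π q n Ψ) {r : Fin (n + 1) → ℤ} (hr : Function.Injective r) {i : ℤ}
    (h : ∀ k, i ≤ r k ∧ r k < i + q ∧ Ψ (r k + 1) ≠ Ψ (r k)) : False := by
  classical
  have h1 := hΨ.brk i
  have h2 := Finset.card_le_card_of_injOn (s := Finset.univ)
    (t := (Finset.Ico i (i + q)).filter fun j => Ψ (j + 1) ≠ Ψ j) r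
    (fun k _ => by simpa [and_assoc] using h k) hr.injOn
  rw [Finset.card_univ, Fintype.card_fin] at h2
  convert (h2.trans h1).not_gt (Nat.lt_succ_self n)

theorem Stretch_tr (hΨ' : Antitone Ψ') {φ : α ≃o α} {δ : ℤ} {t : ℕ}
    (h1 : ∀ i, φ (Ψ' (i - δ + 2 * t)) ≤ Ψ i) (h2 : ∀ i, Ψ i ≤ φ (Ψ' (i - δ - 2 * t)))
    {a b i : ℤ} (h : Ψ' b = Ψ' a) (ha : a + δ + 2 * t ≤ i) (hb : i + 2 * t ≤ b + δ) :
    Ψ i = φ (Ψ' a) :=
  ((h2 i).trans (φ.monotone (hΨ' (by omega)))).antisymm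
    ((φ.monotone (h.ge.trans (hΨ' (by omega)))).trans (h1 i))

theorem Stretch_symm {φ : α ≃o α} {δ : ℤ} {t : ℕ}
    (h1 : ∀ i, φ (Ψ' (i - δ + 2 * t)) ≤ Ψ i) (h2 : ∀ i, Ψ i ≤ φ (Ψ' (i - δ - 2 * t))) :
    (∀ i, φ.symm (Ψ (i - -δ + 2 * t)) ≤ Ψ' i) ∧ ∀ i, Ψ' i ≤ φ.symm (Ψ (i - -δ - 2 * t)) := by
  refine ⟨fun i => φ.symm_apply_le.2 ?_, fun i => φ.le_symm_apply.2 ?_⟩
  · convert h2 _ using 3
    ring
  · convert h1 _ using 3
    ring

theorem Stretch_sel (hΨ : Antitone Ψ) (hΨ' : Antitone Ψ') {φ : α ≃o α} {δ : ℤ} {t θ h : ℕ}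
    (h1 : ∀ i, φ (Ψ' (i - δ + 2 * t)) ≤ Ψ i) (h2 : ∀ i, Ψ i ≤ φ (Ψ' (i - δ - 2 * t)))
    (ht : t ≤ h) (hθ : 4 * h ≤ θ) (hs : SelD Ψ θ h) : SelD Ψ' θ (h - t) := by
  intro j hj
  obtain ⟨h3, h4⟩ := Stretch_symm h1 h2
  have h5 := Stretch_tr hΨ' h1 h2 hj le_rfl (by omega)
  obtain ⟨i, h6, h7⟩ := hs (j + δ + 2 * t)
    ((Stretch_tr hΨ' h1 h2 hj (by omega) (by omega)).trans h5.symm)
  have h8 : φ.symm (Ψ i) = Ψ' j := by rw [h6, h5, φ.symm_apply_apply]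
  exact ⟨i + -δ + 2 * t, (Stretch_tr hΨ h3 h4 (h7.trans h6.symm) le_rfl (by omega)).trans h8,
    (Stretch_tr hΨ h3 h4 (h7.trans h6.symm) (by omega) (by omega)).trans h8⟩

theorem Stretch_enum {L : Set ℤ} (h1 : ∀ z, ∃ x ∈ L, z < x) (h2 : ∀ z, ∃ x ∈ L, x < z) :
    ∃ ι : ℤ → ℤ, StrictMono ι ∧ Set.range ι = L ∧ ι (-1) < 0 ∧ 0 ≤ ι 0 := by
  classical
  let _ := LinearLocallyFiniteOrder.succOrder L
  let _ := LinearLocallyFiniteOrder.predOrder L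
  have : NoMaxOrder L := ⟨fun x => (h1 x).elim fun y hy => ⟨⟨y, hy.1⟩, hy.2⟩⟩
  have : NoMinOrder L := ⟨fun x => (h2 x).elim fun y hy => ⟨⟨y, hy.1⟩, hy.2⟩⟩
  have : Nonempty L := (h1 0).elim fun y hy => ⟨⟨y, hy.1⟩⟩
  let e : L ≃o ℤ := orderIsoIntOfLinearSuccPredArch
  obtain ⟨l, ⟨hl, hl0⟩, hm⟩ := Int.exists_least_of_bdd (P := fun z => z ∈ L ∧ 0 ≤ z)
    ⟨0, fun _ h => h.2⟩ ((h1 0).imp fun _ h => ⟨h.1, h.2.le⟩)
  have hι : StrictMono fun c => (e.symm (c + e ⟨l, hl⟩) : ℤ) := fun a b hab =>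
    Subtype.coe_lt_coe.2 (e.symm.strictMono (by omega))
  have h0 : (e.symm (0 + e ⟨l, hl⟩) : ℤ) = l := by simp
  refine ⟨_, hι, Set.ext fun x => ⟨?_, fun hx => ⟨e ⟨x, hx⟩ - e ⟨l, hl⟩, by simp⟩⟩, ?_,
    h0.symm ▸ hl0⟩
  · rintro ⟨c, rfl⟩
    exact Subtype.property _
  · refine lt_of_not_ge fun hc => ?_
    exact (hm _ ⟨Subtype.property _, hc⟩).not_gt ((hι (by omega : (-1 : ℤ) < 0)).trans_eq h0)

omit [PartialOrder α] in
theorem Stretch_mem {θ : ℕ} {ι : ℤ → ℤ} (h : IsEnum Ψ θ ι) (c : ℤ) :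
    Ψ (ι c + θ) = Ψ (ι c) ∧ Ψ (ι c - 1) ≠ Ψ (ι c) :=
  h.2.1.subset ⟨c, rfl⟩

theorem Stretch_perL (hΨ : Per π q n Ψ) {θ : ℕ} {i : ℤ} (h : Ψ (i + θ) = Ψ i ∧ Ψ (i - 1) ≠ Ψ i)
    (m : ℤ) : Ψ (i + q * m + θ) = Ψ (i + q * m) ∧ Ψ (i + q * m - 1) ≠ Ψ (i + q * m) := by
  rw [add_right_comm, ← sub_add_eq_add_sub, Ne, Stretch_per hΨ, Stretch_per hΨ]
  exact h

theorem Stretch_up (hΨ : Per π q n Ψ) {θ : ℕ} {ι : ℤ → ℤ} (h : IsEnum Ψ θ ι) (c : ℤ) (k : ℕ) :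
    ι (c + k) ≤ ι c + q * k := by
  induction k with
  | zero => simp
  | succ k ih =>
    obtain ⟨c', hc⟩ := h.2.1.superset (Stretch_perL hΨ (Stretch_mem h (c + k)) 1)
    have h1 := Stretch_pos hΨ
    have h2 : c + k < c' := h.1.lt_iff_lt.1 (by omega)
    have h3 := h.1.monotone (show c + (k + 1 : ℕ) ≤ c' by omega)
    rw [Nat.cast_succ, mul_add] at *
    omega

theorem Stretch_down (hΨ : Per π q n Ψ) {θ : ℕ} {ι : ℤ → ℤ} (h : IsEnum Ψ θ ι) (c : ℤ) (k : ℕ) :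
    ι c + q * k ≤ ι (c + n * k) := by
  have key : ∀ c, ι c + q ≤ ι (c + n) := fun c => le_of_not_gt fun hc =>
    Stretch_brk hΨ (r := fun k => ι (c + (k : ℕ)) - 1) (i := ι c - 1)
      (fun a b hab => by
        have := h.1.injective (sub_left_injective hab)
        omega)
      fun k => by
        have h1 := h.1.monotone (show c ≤ c + (k : ℕ) by omega)
        have h2 := h.1.monotone (show c + (k : ℕ) ≤ c + n by omega)
        refine ⟨by omega, by omega, ?_⟩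
        rw [sub_add_cancel]
        exact (Stretch_mem h _).2.symm
  induction k with
  | zero => simp
  | succ k ih =>
    have h1 := key (c + n * k)
    rw [Nat.cast_succ, mul_add, mul_add, mul_one, mul_one, ← add_assoc c]
    omega

theorem Stretch_anti (hΨ : Antitone Ψ) {θ : ℕ} {ι : ℤ → ℤ} (h : IsEnum Ψ θ ι) :
    StrictAnti fun c => Ψ (ι c) := fun a b hab => by
  have h1 := h.1 hab
  exact ((hΨ (by omega)).lt_of_ne' (Stretch_mem h b).2).trans_le (hΨ (by omega))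

theorem Stretch_trans {f g : ℤ → α} (hf : StrictAnti f) (hg : StrictAnti g)
    (h1 : ∀ c, ∃ c', g c' = f c) (h2 : ∀ c', ∃ c, f c = g c') : ∃ d, ∀ c, g (c + d) = f c := by
  choose σ hσ using h1
  have h3 : StrictMono σ := fun a b hab => hg.lt_iff_gt.1 (by rw [hσ, hσ]; exact hf hab)
  have h4 : ∀ c, σ (c + 1) = σ c + 1 := fun c => by
    obtain ⟨c', hc⟩ := h2 (σ c + 1)
    have h5 : σ c' = σ c + 1 := hg.injective ((hσ c').trans hc)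
    have h6 : c < c' := h3.lt_iff_lt.1 (by omega)
    have h7 := h3.monotone (show c + 1 ≤ c' by omega)
    have h8 := h3 (show c < c + 1 by omega)
    omega
  refine ⟨σ 0, fun c => ?_⟩
  rw [← hσ c]
  congr 1
  induction c using Int.induction_on with
  | zero => simp
  | succ c ih => rw [h4]; omega
  | pred c ih =>
    have := h4 (-c - 1)
    rw [sub_add_cancel] at this
    omega

theorem SelD.mono (hΨ : Antitone Ψ) {θ h h' : ℕ} (hs : SelD Ψ θ h) (hh : h' ≤ h)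
    (hθ : 4 * h ≤ θ) : SelD Ψ θ h' := by
  intro i hi
  obtain ⟨j, h1, h2⟩ := hs i (Stretch_sand hΨ hi (by omega) (by omega))
  exact ⟨j, h1, (Stretch_sand hΨ (h2.trans h1.symm) (by omega) (by omega)).trans h1⟩

theorem Per.cover (hΨ : Per π q n Ψ) (Rt : ℕ) :
    ∃ κ : Fin (n + 1), SelD Ψ (4 * Rt * (2 * κ + 1)) Rt := by
  by_contra hc
  have h1 : ∀ κ : Fin (n + 1), ∃ i r : ℤ, Ψ (i + 8 * Rt * (κ : ℕ)) = Ψ i ∧
      (∀ i', Ψ i' = Ψ i → Ψ (i' + 8 * Rt * ((κ : ℕ) + 1)) ≠ Ψ i) ∧ Ψ r = Ψ i ∧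
      0 ≤ r ∧ r < 0 + q ∧ Ψ (r + 1) ≠ Ψ r := by
    intro κ
    have h2 := not_exists.1 hc κ
    simp only [SelD, not_forall, not_exists, not_and] at h2
    obtain ⟨i, h3, h4⟩ := h2
    obtain ⟨r, -, h5, h6⟩ := Stretch_rgt hΨ i
    have hq : (0 : ℤ) < q := by exact_mod_cast Stretch_pos hΨ
    have h7 := Int.emod_nonneg r hq.ne'
    have h8 := Int.emod_lt_of_pos r hq
    have h9 : r % q = r + q * -(r / q) := by rw [Int.emod_def]; ring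
    refine ⟨i + q * -(r / q), r + q * -(r / q), ?_, fun i' h10 h11 => ?_,
      (Stretch_per hΨ _ _ _).2 h5, by omega, by omega, ?_⟩
    · rw [add_right_comm, Stretch_per hΨ, ← h3]
      congr 1
      push_cast
      ring
    · refine h4 (i' + q * (r / q)) ((Stretch_per hΨ (-(r / q)) _ _).1 ?_)
        ((Stretch_per hΨ (-(r / q)) _ _).1 ?_)
      · rw [← h10]
        congr 1
        ring
      · rw [← h11]
        congr 1
        push_cast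
        ring
    · rw [add_right_comm, Ne, Stretch_per hΨ]
      exact h6
  choose i r h2 h3 h4 h5 using h1
  have key : ∀ a b, r a = r b → ¬ a < b := fun a b hab hlt => by
    have h6 : Ψ (i b) = Ψ (i a) := by rw [← h4, ← h4, hab]
    have h7 : ((a : ℕ) : ℤ) + 1 ≤ (b : ℕ) := by exact_mod_cast hlt
    have h8 := mul_le_mul_of_nonneg_left h7 (show (0 : ℤ) ≤ 8 * Rt by positivity)
    exact h3 a _ h6 ((Stretch_sand hΨ.anti (h2 b) (le_add_of_nonneg_right (by positivity))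
      (by omega)).trans h6)
  exact Stretch_brk hΨ
    (fun a b hab => le_antisymm (not_lt.1 (key b a hab.symm)) (not_lt.1 (key a b hab))) h5

theorem SelD.tr (hΨ : Antitone Ψ) (hΨ' : Antitone Ψ') (φ : α ≃o α) {δ : ℤ} {t θ h : ℕ}
    (h1 : ∀ i, φ (Ψ' (i - δ + 2 * t)) ≤ Ψ i) (h2 : ∀ i, Ψ i ≤ φ (Ψ' (i - δ - 2 * t)))
    (ht : t ≤ h) (hθ : 4 * h ≤ θ) : (SelD Ψ θ h → SelD Ψ' θ (h - t)) ∧
      (SelD Ψ' θ h → SelD Ψ θ (h - t)) :=
  ⟨Stretch_sel hΨ hΨ' h1 h2 ht hθ,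
    Stretch_sel hΨ' hΨ (Stretch_symm h1 h2).1 (Stretch_symm h1 h2).2 ht hθ⟩

theorem Per.exists_enum (hΨ : Per π q n Ψ) {θ : ℕ} (hθ : n * θ < q) : ∃ ι, IsEnum Ψ θ ι := by
  have hq : (0 : ℤ) < q := by exact_mod_cast Stretch_pos hΨ
  have h1 : ∃ a, Ψ (a + θ) = Ψ a := by
    by_contra hc
    choose r h2 h3 h4 using Stretch_rgt hΨ
    have h5 : ∀ a, r a < a + θ := fun a => lt_of_not_ge fun h =>
      hc ⟨a, Stretch_sand hΨ.anti (h3 a) (by omega) h⟩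
    let s : ℕ → ℤ := fun k => Nat.rec (r 0) (fun _ x => r (x + 1)) k
    have h6 : StrictMono s := strictMono_nat_of_lt_succ fun k => h2 (s k + 1)
    have h7 : ∀ k : ℕ, s k ≤ s 0 + k * θ := fun k => by
      induction k with
      | zero => simp
      | succ k ih =>
        have h8 : s (k + 1) < s k + 1 + θ := h5 _
        rw [Nat.cast_succ, add_mul]
        omega
    refine Stretch_brk hΨ (r := fun k => s k) (i := s 0)
      (fun a b hab => Fin.ext (h6.injective hab)) fun k => ⟨h6.monotone (Nat.zero_le _), ?_, ?_⟩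
    · have h8 : (k : ℕ) * θ < q := (Nat.mul_le_mul_right θ (Nat.lt_succ_iff.1 k.2)).trans_lt hθ
      have h9 : ((k : ℕ) : ℤ) * θ < q := by exact_mod_cast h8
      exact (h7 k).trans_lt (by omega)
    · rcases (k : ℕ) with _ | k <;> exact h4 _
  obtain ⟨a, ha⟩ := h1
  obtain ⟨l, -, hl⟩ := Stretch_lft hΨ ha
  refine Stretch_enum (fun z => ⟨_, Stretch_perL hΨ hl (|z - l| + 1), ?_⟩)
    fun z => ⟨_, Stretch_perL hΨ hl (-(|z - l| + 1)), ?_⟩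
  · nlinarith [le_abs_self (z - l), abs_nonneg (z - l)]
  · nlinarith [neg_abs_le (z - l), abs_nonneg (z - l)]

theorem IsEnum.bound (hΨ : Per π q n Ψ) {θ : ℕ} {ι : ℤ → ℤ} (h : IsEnum Ψ θ ι) (c : ℤ) :
    -(q * |c|) ≤ ι c ∧ ι c ≤ q * (|c| + 1) := by
  have h1 := h.2.2.1
  have h2 := h.2.2.2
  have h3 : 0 ≤ q * |c| := by positivity
  have h4 : 0 ≤ q * (|c| + 1) := by positivity
  obtain ⟨k, rfl | rfl⟩ := c.eq_nat_or_neg
  · have h5 := Stretch_up hΨ h (-1) (k + 1)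
    have h6 := h.1.monotone (Int.natCast_nonneg k)
    rw [Nat.cast_succ, neg_add_cancel_comm_assoc] at h5
    rw [Nat.abs_cast] at *
    omega
  · have h5 := Stretch_up hΨ h (-k) k
    have h6 := h.1.monotone (show -(k : ℤ) ≤ 0 by omega)
    have h7 := Stretch_up hΨ h (-1) 1
    rw [neg_add_cancel] at h5
    rw [abs_neg, Nat.abs_cast, mul_add] at *
    simp only [Nat.cast_one, neg_add_cancel] at h7
    have h8 : (0 : ℤ) ≤ q * k := by positivity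
    omega

theorem IsEnum.shift (hΨ : Per π q n Ψ) (hΨ' : Per π' q n Ψ') (φ : α ≃o α) {δ : ℤ}
    {t θ κ : ℕ} (h1 : ∀ i, φ (Ψ' (i - δ + 2 * t)) ≤ Ψ i)
    (h2 : ∀ i, Ψ i ≤ φ (Ψ' (i - δ - 2 * t))) (hs : SelD Ψ θ t) (hθ : 4 * t ≤ θ)
    (hq : 2 * t ≤ q) (hδ : |δ| ≤ q * κ) {ι ι' : ℤ → ℤ} (hι : IsEnum Ψ θ ι)
    (hι' : IsEnum Ψ' θ ι') :
    ∃ d : ℤ, |d| ≤ n * (κ + 5) ∧ ∀ c, φ (Ψ' (ι' (c + d))) = Ψ (ι c) := by
  obtain ⟨h3, h4⟩ := Stretch_symm h1 h2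
  have ha : ∀ c, ∃ i, Ψ i = Ψ (ι c) ∧ Ψ' (i + -δ + 2 * t) = φ.symm (Ψ i) ∧
      Ψ' (i + -δ + 2 * t + θ) = φ.symm (Ψ i) := fun c => by
    obtain ⟨i, h5, h6⟩ := hs (ι c)
      (Stretch_sand hΨ.anti (Stretch_mem hι c).1 (by omega) (by omega))
    exact ⟨i, h5, Stretch_tr hΨ.anti h3 h4 (h6.trans h5.symm) le_rfl (by omega),
      Stretch_tr hΨ.anti h3 h4 (h6.trans h5.symm) (by omega) (by omega)⟩
  obtain ⟨d, hd⟩ := Stretch_trans (g := fun c => φ (Ψ' (ι' c))) (Stretch_anti hΨ.anti hι)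
    (φ.strictMono.comp_strictAnti (Stretch_anti hΨ'.anti hι'))
    (fun c => by
      obtain ⟨i, h5, h6, h7⟩ := ha c
      obtain ⟨l, h8, h9⟩ := Stretch_lft hΨ' (h7.trans h6.symm)
      obtain ⟨c', rfl⟩ := hι'.2.1.superset h9
      exact ⟨c', by rw [h8, h6, φ.apply_symm_apply, h5]⟩)
    (fun c => by
      have h5 := (Stretch_mem hι' c).1
      have h6 := Stretch_tr hΨ'.anti h1 h2 h5 le_rfl (by omega)
      obtain ⟨i, h7, h8⟩ := hs (ι' c + δ + 2 * t)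
        ((Stretch_tr hΨ'.anti h1 h2 h5 (by omega) (by omega)).trans h6.symm)
      obtain ⟨l, h9, h10⟩ := Stretch_lft hΨ (θ := θ)
        (Stretch_sand hΨ.anti (h8.trans h7.symm) (by omega) (by omega))
      obtain ⟨c', rfl⟩ := hι.2.1.superset h10
      exact ⟨c', h9.trans (h7.trans h6)⟩)
  refine ⟨d, ?_, hd⟩
  obtain ⟨i, h5, h6, -⟩ := ha 0
  have h7 : Ψ' (ι' d) = Ψ' (i + -δ + 2 * t) := by
    rw [h6, h5, ← hd 0, zero_add, φ.symm_apply_apply]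
  have h8 := Stretch_near hΨ h5
  have h9 := Stretch_near hΨ h5.symm
  have h10 := Stretch_near hΨ' h7
  have h11 := Stretch_near hΨ' h7.symm
  have h12 := (hι.bound hΨ 0).2
  have h13 := hι.2.2.2
  have h14 := abs_le.1 hδ
  have h15 := Stretch_down hΨ' hι' 0 (κ + 5)
  have h16 := Stretch_down hΨ' hι' (-1 - n * (κ + 5 : ℕ)) (κ + 5)
  have h17 := hι'.2.2.1
  have h18 := hι'.2.2.2
  rw [sub_add_cancel] at h16
  rw [zero_add] at h15
  simp only [abs_zero, zero_add, mul_one] at h12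
  push_cast at h15 h16
  rw [mul_add (q : ℤ)] at h15 h16
  refine abs_le.2 ⟨le_of_not_gt fun h => ?_, le_of_not_gt fun h => ?_⟩
  · have := hι'.1.monotone (show d ≤ -1 - n * (κ + 5) by omega)
    omega
  · have := hι'.1 h
    omega

end Pool.Agent.MP_f7db47_al.GN
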