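import Pool.Agent.Mg.Ff7db47.G619dbf
import Pool.Agent.Mg.Ff7db47.Gee04dc
import Pool.Agent.Mg.Ff7db47.G02d797
import Pool.Agent.Mg.Ff7db47.G9c9b66
import Pool.Agent.Mg.Ff7db47.G5f614c
import Pool.Agent.Mg.Ff7db47.G0ffa8c
import Pool.Agent.Mg.Ff7db47.G36cf4d
import Pool.Agent.Mg.Ff7db47.G30508e
import Pool.Agent.Mg.Ff7db47.Gff0e1c

section

/-!
Free actions on lattices.
-/

namespace Pool.Agent.MP_f7db47_al.GN

open Matrix Pl

universe v

variable {R : Type v} [Ring R]

theorem g1_lat {G : Type} [Group G] {ι : Type} [Fintype ι] (P : ι → Pl) (n : ℕ)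
    (ρ : ∀ l, G →* (P l).A n)
    (hfree : ∀ g : G, (∀ l, ∃ Y, Lat Y ∧ ac (ρ l g) Y = Y) → ∀ l, ρ l g = 1)
    (hab : ∀ H : Subgroup G, (∀ x ∈ H, ∀ y ∈ H, ∀ l, ρ l (x * y) = ρ l (y * x)) → QQ R H) :
    G1 R G := by
  classical
  intro J _ _ A B h1 h2
  obtain ⟨sA, hA, -⟩ := exists_finset_msup A
  obtain ⟨sB, hB, -⟩ := exists_finset_msup B
  obtain ⟨bl, C, a, hS, ha⟩ := exists_bl (sA ∪ sB) P n ρ
  let F : FR G J := ⟨fun t _ g _ => g ∈ bl.B t, fun _ => bl.one, bl.mono, bl.mul⟩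
  have h0 : QQ R PUnit.{1} := (hab ⊥ (by
    intro x hx y hy l
    rw [Subgroup.mem_bot.1 hx, Subgroup.mem_bot.1 hy])).sub 1 fun _ _ _ => rfl
  obtain ⟨kf, Nf, e, ht⟩ := tree (R := R) n (Fintype.card ι * n)
  obtain ⟨R₀, hR, hf⟩ := fin_step h0 (Fintype.card ι * n) Nf kf (n * (C + 6))
  obtain ⟨c, hc⟩ := exists_pars n C (2 ^ (Fintype.card ι * n) * R₀) (Fintype.card ι * n) bl.s₀
  obtain ⟨c', hc'⟩ := exists_exp (Fintype.card J) c e
  obtain ⟨X, hX⟩ := hf c'
  obtain ⟨Uf, p, hp, hq⟩ := hc X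
  exact ht G ι P bl C _ _ X R₀ _ _ a Uf p hp le_rfl hR (by positivity) hq
    (hX G ι P n bl C _ a Uf (by simpa only [ha] using hfree) (by simpa only [ha] using hab))
    J F ⟨Fintype.card ι * n, fun _ => n, fun _ => 0, fun _ => _, fun _ _ => ⊤, fun _ _ _ => ⊥⟩
    A B ⟨bl.inv, id⟩ (hc' X) (Nd.root_inv a F _ X _ _) (fun _ => le_rfl) h1 h2
    (fun i j g hg => hS (Finset.mem_union_left _ (hA i j g hg)))
    fun i j g hg => hS (Finset.mem_union_right _ (hB i j g hg))

theorem qq_lat {G : Type} [Group G] {ι : Type} [Fintype ι] (P : ι → Pl) (n : ℕ)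
    (ρ : ∀ l, G →* (P l).A n)
    (hfree : ∀ g : G, (∀ l, ∃ Y, Lat Y ∧ ac (ρ l g) Y = Y) → ∀ l, ρ l g = 1)
    (hab : ∀ H : Subgroup G, (∀ x ∈ H, ∀ y ∈ H, ∀ l, ρ l (x * y) = ρ l (y * x)) → QQ R H) :
    QQ R G := by
  intro Q _ hQ Δ _ f hf
  let p : Δ →* G := (MonoidHom.fst _ _).comp f
  refine g1_lat P n (fun l => (ρ l).comp p) (fun g => hfree (p g)) fun H hH => ?_
  refine qq_of_le' hQ f hf (H.map p) (hab _ ?_) H fun x hx => ⟨x, hx, rfl⟩
  rintro _ ⟨a, ha, rfl⟩ _ ⟨b, hb, rfl⟩ l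
  rw [← map_mul, ← map_mul]
  exact hH a ha b hb l

end Pool.Agent.MP_f7db47_al.GN

end

section

/-!
Actions on lattices whose stabilisers have traces in a subfield.
-/

namespace Pool.Agent.MP_f7db47_al.GZ

open Matrix GN GN.Pl

universe v

variable {R : Type v} [Ring R]

theorem g1_nice {G : Type} [Group G] {ι : Type} [Fintype ι] (P : ι → Pl) (n : ℕ)
    (ρ : ∀ l, G →* (P l).A n) (h0 : QQ R PUnit.{1}) {d : ℕ}
    (hN : Nice G (fun g => ∀ l, ∃ Y, Lat Y ∧ ac (ρ l g) Y = Y) (fun H => QQ R H) d) :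
    G1 R G := by
  classical
  intro J _ _ A B h1 h2
  obtain ⟨sA, hA, -⟩ := exists_finset_msup A
  obtain ⟨sB, hB, -⟩ := exists_finset_msup B
  obtain ⟨bl, C, a, hS, ha⟩ := exists_bl (sA ∪ sB) P n ρ
  let F : GN.FR G J := ⟨fun t _ g _ => g ∈ bl.B t, fun _ => bl.one, bl.mono, bl.mul⟩
  obtain ⟨kf, Nf, e, ht⟩ := tree (R := R) n (Fintype.card ι * n)
  obtain ⟨R₀, hR, hf⟩ := fin_step2 h0 (Fintype.card ι * n) d Nf kf (n * (C + 6))
  obtain ⟨c, hc⟩ := exists_pars n C (2 ^ (Fintype.card ι * n) * R₀) (Fintype.card ι * n) bl.s₀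
  obtain ⟨c', hc'⟩ := exists_exp (Fintype.card J) c e
  obtain ⟨X, hX⟩ := hf c'
  obtain ⟨Uf, p, hp, hq⟩ := hc X
  exact ht G ι P bl C _ _ X R₀ _ _ a Uf p hp le_rfl hR (by positivity) hq
    (hX G ι P n bl C _ a Uf (by simpa only [ha] using hN))
    J F ⟨Fintype.card ι * n, fun _ => n, fun _ => 0, fun _ => _, fun _ _ => ⊤, fun _ _ _ => ⊥⟩
    A B ⟨bl.inv, id⟩ (hc' X) (Nd.root_inv a F _ X _ _) (fun _ => le_rfl) h1 h2
    (fun i j g hg => hS (Finset.mem_union_left _ (hA i j g hg)))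
    fun i j g hg => hS (Finset.mem_union_right _ (hB i j g hg))

theorem qq_lat2 {G : Type} [Group G] {ι : Type} [Fintype ι] (P : ι → Pl) (n : ℕ)
    (ρ : ∀ l, G →* (P l).A n) {F κ : Type} [Field F] [Fintype κ] [DecidableEq κ]
    (k : Subfield F) (f : G →* Matrix κ κ F)
    (hE : ∀ g : G, (∀ l, ∃ Y, Lat Y ∧ ac (ρ l g) Y = Y) → (f g).trace ∈ k)
    (hH : ∀ H : Subgroup G, (∀ g ∈ ⁅H, H⁆, (f g).trace ∈ k) → QQ R H) : QQ R G := by
  intro Q _ hQ Δ _ φ hφ
  let p : Δ →* G := (MonoidHom.fst _ _).comp φ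
  have h0 : QQ R PUnit.{1} := (hH ⊥ (by
    intro g hg
    rw [Subgroup.commutator_bot_left, Subgroup.mem_bot] at hg
    rw [hg, map_one, trace_one]
    exact natCast_mem k _)).sub 1 fun _ _ _ => rfl
  refine g1_nice P n (fun l => (ρ l).comp p) h0 (d := Fintype.card κ * Fintype.card κ)
    ⟨fun K => Module.finrank F (spn (f.comp p) K), finrank_spn_bound _,
      fun s h => finrank_spn_le _ h,
      fun h hq => hq.sub (Subgroup.inclusion h) (Subgroup.inclusion_injective h),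
      fun K K' S h1 h2 h3 h4 h5 h6 => ?_⟩
  refine qq_of_le' hQ φ hφ ((Subgroup.closure S).map p) (hH _ ?_) _ fun x hx => ⟨x, hx, rfl⟩
  rw [← Subgroup.map_commutator]
  rintro _ ⟨g, hg, rfl⟩
  exact trace_commutator k (f.comp p) h1 h3 (fun x hx => hE (p x) (h2 x hx)) h4 h5 h6 g hg

end Pool.Agent.MP_f7db47_al.GZ

end

section

/-!
Automorphisms that fix a lattice have integral characteristic polynomial.
-/

namespace Pool.Agent.MP_f7db47_al.GN

open Pl

theorem GB_lat {P : Pl} {n : ℕ} {Y : P.L n} (hY : Lat Y) : Submodule.IsLattice P.K Y := by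
  obtain ⟨a, h1, h2⟩ := hY
  have h0 : (P.L0 n).FG :=
    Submodule.fg_pi fun _ => Submodule.one_eq_span (R := P.O) (A := P.K) ▸
      Submodule.fg_span_singleton _
  have h3 : (sc (-(a : ℤ)) (P.L0 n)).FG := h0.map _
  refine ⟨h3.of_le h2, eq_top_iff.2 fun x _ => ?_⟩
  obtain ⟨e, he⟩ := LBasic_den fun _ : Unit => x
  have h4 : P.π ^ a • P.π ^ e • x ∈ Submodule.span P.K (Y : Set (P.V n)) :=
    Submodule.subset_span (h1 (LBasic_nat.2 ⟨_, he (), rfl⟩))
  rw [smul_smul, ← pow_add, ← algebraMap_smul P.K] at h4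
  exact (Submodule.smul_mem_iff _ ((map_ne_zero_iff _ (IsFractionRing.injective P.O P.K)).2
    (pow_ne_zero _ P.hπ.ne_zero))).1 h4

theorem GB_char {P : Pl} {n : ℕ} (u : P.A n) {Y : P.L n} (hY : Lat Y) (hu : ac u Y = Y) (i : ℕ) :
    ∃ a : P.O, algebraMap P.O P.K a = u.toLinearMap.charpoly.coeff i := by
  classical
  have := GB_lat hY
  let b := Module.Free.chooseBasis P.O Y
  have hm : ∀ x ∈ Y, (u.toLinearMap.restrictScalars P.O) x ∈ Y := fun x hx => by
    rw [← hu, mem_ac]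
    simpa using hx
  let f : Y →ₗ[P.O] Y := (u.toLinearMap.restrictScalars P.O).restrict hm
  have hr : ∀ (y : Y) k, (b.extendOfIsLattice P.K).repr y.1 k =
      algebraMap P.O P.K (b.repr y k) := fun y k => by
    have h1 : y.1 = ∑ j, algebraMap P.O P.K (b.repr y j) • b.extendOfIsLattice P.K j := by
      conv_lhs => rw [← b.sum_repr y]
      rw [Submodule.coe_sum]
      refine Finset.sum_congr rfl fun j _ => ?_
      rw [Module.Basis.extendOfIsLattice_apply, algebraMap_smul, Submodule.coe_smul]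
    rw [h1, Module.Basis.repr_sum_self]
  have he : LinearMap.toMatrix (b.extendOfIsLattice P.K) (b.extendOfIsLattice P.K) u.toLinearMap =
      (LinearMap.toMatrix b b f).map (algebraMap P.O P.K) := by
    ext j k
    rw [Matrix.map_apply, LinearMap.toMatrix_apply, LinearMap.toMatrix_apply, ← hr,
      Module.Basis.extendOfIsLattice_apply]
    rfl
  rw [← LinearMap.charpoly_toMatrix _ (b.extendOfIsLattice P.K), he, Matrix.charpoly_map,
    Polynomial.coeff_map]
  exact ⟨_, rfl⟩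

open scoped WithZero in
theorem exists_place {L : Type} [Field L] (v : Valuation L ℤᵐ⁰)
    (hv : ∃ π, v π = WithZero.exp (-1)) (n : ℕ) :
    ∃ (P : Pl) (ρ : GL (Fin n) L →* P.A n), ∀ g : GL (Fin n) L,
      (∃ Y, Lat Y ∧ ac (ρ g) Y = Y) → ∀ i, v (g.val.charpoly.coeff i) ≤ 1 := by
  obtain ⟨π, hπ⟩ := hv
  have : v.IsNontrivial := ⟨π, by simp [hπ], by
    rw [hπ, ← WithZero.exp_zero, ne_eq, WithZero.exp_inj]
    decide⟩
  obtain ⟨ϖ, hϖ⟩ := IsDiscreteValuationRing.exists_irreducible v.valuationSubring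
  let P : Pl := { O := v.valuationSubring, K := L, π := ϖ, hπ := hϖ }
  refine ⟨P, ((Matrix.GeneralLinearGroup.toLin (n := Fin n) (R := L)).trans
    (LinearMap.GeneralLinearGroup.generalLinearEquiv L (Fin n → L))).toMonoidHom,
    fun g ⟨Y, hY, hu⟩ i => ?_⟩
  obtain ⟨a, ha⟩ := GB_char _ hY hu i
  have h1 : v (g.val.toLin'.charpoly.coeff i) ≤ 1 := by
    have h2 : (a.1 : L) = g.val.toLin'.charpoly.coeff i := ha
    rw [← h2]
    exact a.2
  rwa [Matrix.charpoly_toLin'] at h1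

end Pool.Agent.MP_f7db47_al.GN

end

section

/-!
General linear groups in characteristic zero.
-/

namespace Pool.Agent.MP_f7db47_al.GZ

open Matrix GN GN.Pl

universe v

theorem glnF_places (A : Type) [CommRing A] [IsDomain A] [CharZero A]
    (hfg : Algebra.FiniteType ℤ A) (n : ℕ) :
    ∃ (ι : Type) (_ : Fintype ι) (P : ι → Pl) (ρ : ∀ l, GL (Fin n) A →* (P l).A n),
      ∀ g, (∀ l, ∃ Y, Lat Y ∧ ac (ρ l g) Y = Y) → IsAlgebraic ℤ g.val.trace := by
  obtain ⟨L, _, _, φ, m, v, -, h1, h2, -⟩ := PT.exists_vals0 A hfg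
  choose P ρ hρ using fun i => exists_place (v i) (h1 i) n
  refine ⟨Fin m, inferInstance, P, fun l => (ρ l).comp (GeneralLinearGroup.map φ),
    fun g hg => h2 _ fun i => ?_⟩
  cases n with
  | zero => simp [trace]
  | succ n =>
    have h3 := hρ i _ (hg i) (Fintype.card (Fin (n + 1)) - 1)
    rw [← Valuation.map_neg, ← trace_eq_neg_charpoly_coeff] at h3
    rw [AddMonoidHom.map_trace φ]
    exact h3

theorem qq_glnF {R : Type v} [Ring R] {G : Type} [Group G] {K : Type} [Field K] [CharZero K]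
    {n : ℕ} (f : G →* GL (Fin n) K)
    (h : ∀ H : Subgroup G, (∀ g ∈ ⁅H, H⁆, IsAlgebraic ℤ (f g).val.trace) → QQ R H) :
    QQ R G := by
  refine PT.qq_loc fun M hM => ?_
  obtain ⟨A₀, f₀, hA, hf⟩ := exists_fg_subring ((Group.fg_iff_subgroup_fg M).2 hM) K n
    (f.comp M.subtype)
  obtain ⟨ι, _, P, ρ, hρ⟩ := glnF_places A₀ hA n
  have hk : ∀ x : K, x ∈ (algebraicClosure ℚ K).toSubfield ↔ IsAlgebraic ℤ x := fun x =>
    (mem_algebraicClosure_iff (F := ℚ)).trans (IsFractionRing.isAlgebraic_iff ℤ ℚ K).symm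
  refine qq_lat2 P n (fun l => (ρ l).comp f₀) (algebraicClosure ℚ K).toSubfield
    ((Units.coeHom _).comp (f.comp M.subtype)) (fun g hg => (hk _).2 ?_) fun H hH => ?_
  · have h1 := (hρ (f₀ g) hg).algHom A₀.subtype.toIntAlgHom
    have h2 : A₀.subtype (f₀ g).val.trace = (f g).val.trace := by
      rw [AddMonoidHom.map_trace A₀.subtype]
      exact congrArg (fun u : GL (Fin n) K => u.val.trace) (hf g)
    exact h2 ▸ h1
  · refine (h (H.map M.subtype) ?_).sub (H.equivMapOfInjective _ M.subtype_injective).toMonoidHom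
      (MulEquiv.injective _)
    rw [← Subgroup.map_commutator]
    rintro _ ⟨g, hg, rfl⟩
    exact (hk _).1 (hH g hg)

end Pool.Agent.MP_f7db47_al.GZ

end

section

/-!
Torsion-free virtually poly-`ℤ` groups and quasi-unipotent-by-cyclic linear groups.
-/

namespace Pool.Agent.MP_f7db47_al.GS

open Function

universe v

variable {R : Type v} [Ring R]

/-- Reduction to the extensions by `ℤ` of subgroups of the isolator of the commutator
subgroup. -/
theorem qq_iso {G : Type} [Group G] (H : Subgroup G)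
    (h : ∀ (L : Subgroup H) (ψ : L →* Multiplicative ℤ),
      (∀ x : L, ψ x = 1 → ∃ k : ℕ, 0 < k ∧ ((x : H) : G) ^ k ∈ ⁅H, H⁆) → QQ R L) : QQ R H := by
  refine PT.qq_abq' (Q := Abelianization H ⧸ CommGroup.torsion (Abelianization H))
    (fun q hq => by_contra fun e => isMulTorsionFree_iff_not_isOfFinOrder.1 inferInstance e hq)
    ((QuotientGroup.mk' _).comp Abelianization.of) fun L ψ hψ => h L ψ fun x hx => ?_
  have h1 : IsOfFinOrder (Abelianization.of (x : H)) := (QuotientGroup.eq_one_iff _).1 (hψ x hx)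
  obtain ⟨k, hk, h2⟩ := isOfFinOrder_iff_pow_eq_one.1 h1
  refine ⟨k, hk, ?_⟩
  rw [← H.map_subtype_commutator]
  refine ⟨(x : H) ^ k, ?_, rfl⟩
  rw [← Abelianization.ker_of]
  exact (map_pow _ _ _).trans h2

theorem qq_vp' (hR : RegularRing R) {U : Type} [Group U] (hU : PolyZ U) :
    ∀ (Γ : Type) [Group Γ], TF Γ → ∀ W : Subgroup Γ, W.FiniteIndex → ∀ j : W →* U,
      Injective j → QQ R Γ := by
  induction hU with
  | triv U hU => exact fun Γ _ hT W _ j hj => PT.qq_poly hR (PolyZ.triv _ (hT.triv W j hj))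
  | ext U h hk ih =>
    intro Γ _ hT W _ j hj
    have hV : VP Γ := ⟨W, inferInstance, polyZ_of_injective (PolyZ.ext U h hk) _ j hj⟩
    obtain ⟨K, _, _, n, f, hf⟩ := exists_mono W (h.comp j)
    refine GZ.qq_glnF f fun H hH => qq_iso H fun L ψ hψ => ?_
    let i : L →* Γ := H.subtype.comp L.subtype
    have hi : Injective i := H.subtype_injective.comp L.subtype_injective
    let i' : ψ.ker →* Γ := i.comp ψ.ker.subtype
    have hi' : Injective i' := hi.comp ψ.ker.subtype_injective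
    refine qq_line_vp hR (hT.sub i hi) ψ ?_ fun M _ _ =>
      hV.sub (i.comp M.subtype) (hi.comp M.subtype_injective)
    obtain ⟨j', hj'⟩ := exists_ker h W j hj i' hi' (W.normalCore.comap i')
      (fun s hs => W.normalCore_le hs) fun s hs => by
        obtain ⟨k, hk, h1⟩ := hψ s.1 s.2
        have h2 := hf _ (W.normalCore.pow_mem hs k) (hH _ h1)
        have h3 : (h (j ⟨i' s, W.normalCore_le hs⟩)) ^ k = 1 := by
          rw [← map_pow, ← map_pow]; exact h2
        exact (pow_eq_one_iff_left hk.ne').1 h3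
    refine ih _ (hT.sub i' hi') _ ⟨?_⟩ j' hj'
    rw [Subgroup.index_comap]
    exact Subgroup.FiniteIndex.index_ne_zero (H := W.normalCore.subgroupOf i'.range)

theorem qq_vp (hR : RegularRing R) {G : Type} [Group G] (hT : TF G) (hV : VP G) : QQ R G := by
  obtain ⟨U, _, hU⟩ := hV
  exact qq_vp' hR hU G hT U inferInstance (MonoidHom.id _) injective_id

theorem vp_of_quasi {G K : Type} [Group G] [Group.FG G] [Field K] [CharZero K] {n : ℕ}
    (f : G →* GL (Fin n) K) (hf : Injective f)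
    (h : ∀ g, ∃ m, 0 < m ∧ IsNilpotent ((f g).val ^ m - 1)) : VP G := by
  obtain ⟨U, J, c, _, h1, h2, h3⟩ := exists_unip ((Units.coeHom _).comp f) (finite_traces f h)
  exact ⟨U, inferInstance, polyZ_of_unip (((Units.coeHom _).comp f).comp U.subtype)
    ((Units.val_injective.comp hf).comp U.subtype_injective) J c (fun g => h1 g g.2) h2 h3⟩

theorem qq_quasi (hR : RegularRing R) {H K : Type} [Group H] [Field K] [CharZero K] {n : ℕ}
    (f : H →* GL (Fin n) K) (hf : Injective f) (hT : ∀ g : H, IsOfFinOrder g → g = 1)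
    (φ : H →* Multiplicative ℤ)
    (h : ∀ g, φ g = 1 → ∃ m, 0 < m ∧ IsNilpotent ((f g).val ^ m - 1)) : QQ R H := by
  have hV : ∀ (M : Type) [Group M] [Group.FG M] (i : M →* H), Injective i →
      (∀ x, φ (i x) = 1) → VP M := fun M _ _ i hi hM =>
    vp_of_quasi (f.comp i) (hf.comp hi) fun g => h _ (hM g)
  refine qq_line_vp hR hT φ (PT.qq_loc fun M hM => ?_) fun M hM hle => ?_
  · have := (Group.fg_iff_subgroup_fg M).2 hM
    have hi := φ.ker.subtype_injective.comp M.subtype_injective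
    exact qq_vp hR (TF.sub hT (φ.ker.subtype.comp M.subtype) hi)
      (hV M (φ.ker.subtype.comp M.subtype) hi fun x => x.1.2)
  · have := (Group.fg_iff_subgroup_fg M).2 hM
    exact hV M M.subtype M.subtype_injective fun x => hle x.2

end Pool.Agent.MP_f7db47_al.GS

end

section

/-!
From rational matrices to all fields of characteristic zero.
-/

namespace Pool.Agent.MP_f7db47_al.GS

open Function GF

universe v

variable {R : Type v} [Ring R]

theorem Lin_qu {G K L : Type} [Group G] [Group.FG G] [Field K] [CharZero K] [Field L]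
    [CharZero L] {n : ℕ} (A : Subring K) (ev : A →+* L) (f₀ : G →* GL (Fin n) A)
    (ha : ∀ g, IsAlgebraic ℤ (f₀ g).val.trace) (hq : ∀ g, QU (ev.mapMatrix (f₀ g).val)) (g : G) :
    QU (A.subtype.mapMatrix (f₀ g).val) := by
  have h0 := finite_traces ((Matrix.GeneralLinearGroup.map ev).comp f₀) hq
  have hfin : (Set.range fun g => (f₀ g).val.trace).Finite := by
    refine Set.Finite.of_finite_image (f := ev) (h0.subset ?_) ?_
    · rintro _ ⟨_, ⟨g, rfl⟩, rfl⟩
      exact ⟨g, (AddMonoidHom.map_trace ev _).symm⟩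
    · rintro _ ⟨g, rfl⟩ _ ⟨g', rfl⟩ h1
      by_contra h2
      obtain ⟨r, h3, c, h4⟩ := ((ha g).sub (ha g')).exists_nonzero_dvd
        (mem_nonZeroDivisors_of_ne_zero (sub_ne_zero.2 h2))
      have h5 := congrArg ev h4
      rw [map_mul, map_sub, sub_eq_zero.2 h1, zero_mul, eq_intCast, map_intCast] at h5
      exact h3 (Int.cast_eq_zero.1 h5)
  let F : G →* Matrix (Fin n) (Fin n) K :=
    A.subtype.mapMatrix.toMonoidHom.comp ((Units.coeHom _).comp f₀)
  obtain ⟨U, J, c, _, h1, -, h3⟩ := exists_unip F ((hfin.image A.subtype).subset (by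
    rintro _ ⟨g, rfl⟩
    exact ⟨_, ⟨g, rfl⟩, AddMonoidHom.map_trace A.subtype _⟩))
  obtain ⟨m, hm, -, h4⟩ := U.exists_pow_mem_of_index_ne_zero Subgroup.FiniteIndex.index_ne_zero g
  have h5 := h3 (List.replicate c (F (g ^ m) - 1)) List.length_replicate fun a h =>
    List.eq_of_mem_replicate h ▸ h1 _ h4
  rw [List.prod_replicate, map_pow] at h5
  exact ⟨m, hm, c, h5⟩

theorem Lin_res (L : Type) [Field L] [NumberField L] (n : ℕ) :
    ∃ (N : ℕ) (Ψ : Matrix (Fin n) (Fin n) L →+* Matrix (Fin N) (Fin N) ℚ), Injective Ψ := by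
  let b := Module.finBasis ℚ L
  refine ⟨_, (Matrix.reindexRingEquiv ℚ finProdFinEquiv).toRingHom.comp
    ((Matrix.compRingEquiv _ _ ℚ).toRingHom.comp (Algebra.leftMulMatrix b).toRingHom.mapMatrix),
    (Matrix.reindexRingEquiv ℚ finProdFinEquiv).injective.comp
      ((Matrix.compRingEquiv _ _ ℚ).injective.comp
        (Matrix.map_injective (Algebra.leftMulMatrix_injective b)))⟩

variable (R) in
/-- The fibred statement for rational matrices. -/
def StB : Prop := ∀ (G : Type) [Group G] (n : ℕ) (f : G →* GL (Fin n) ℚ),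
  (∀ (H : Subgroup G) (φ : H →* Multiplicative ℤ), (∀ g : H, φ g = 1 → QU (f g).val) → QQ R H) →
    QQ R G

theorem qq_glQU (hB : StB R) {G K : Type} [Group G] [Field K] [CharZero K] {n : ℕ}
    (f : G →* GL (Fin n) K) (h : ∀ (H : Subgroup G) (φ : H →* Multiplicative ℤ),
      (∀ g : H, φ g = 1 → QU (f g).val) → QQ R H) : QQ R G := by
  have h' : ∀ (M : Type) [Group M] (i : M →* G), Injective i → ∀ φ : M →* Multiplicative ℤ,
      (∀ g, φ g = 1 → QU (f (i g)).val) → QQ R M := fun M _ i hi φ hφ => by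
    let e := MonoidHom.ofInjective hi
    refine (h i.range (φ.comp e.symm.toMonoidHom) fun g hg => ?_).sub e.toMonoidHom e.injective
    obtain ⟨x, rfl⟩ := e.surjective g
    exact hφ x (by simpa using hg)
  refine GZ.qq_glnF f fun H hH => PT.qq_loc fun M hM => ?_
  let i : M →* G := H.subtype.comp M.subtype
  have hi : Injective i := H.subtype_injective.comp M.subtype_injective
  obtain ⟨A, f₀, hA, hf⟩ :=
    GN.exists_fg_subring ((Group.fg_iff_subgroup_fg M).2 hM) K n (f.comp i)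
  obtain ⟨L, _, _, ⟨ev⟩⟩ := Uni1_ev A hA
  obtain ⟨N, Ψ, hΨ⟩ := Lin_res L n
  have e : ∀ g, (f (i g)).val = A.subtype.mapMatrix (f₀ g).val := fun g =>
    congrArg Units.val (hf g).symm
  refine hB M N ((Units.map (Ψ.comp ev.mapMatrix).toMonoidHom).comp f₀) fun M₁ φ hφ => ?_
  let Q := Abelianization H ⧸ CommGroup.torsion (Abelianization H)
  let π : H →* Q := (QuotientGroup.mk' _).comp Abelianization.of
  refine PT.qq_abq' (Q := Multiplicative ℤ × Q)
    (fun q hq => by_contra fun e => isMulTorsionFree_iff_not_isOfFinOrder.1 inferInstance e hq)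
    (φ.prod (π.comp (M.subtype.comp M₁.subtype))) fun M₂ ψ hψ => ?_
  refine h' M₂ (i.comp (M₁.subtype.comp M₂.subtype))
    (hi.comp (M₁.subtype_injective.comp M₂.subtype_injective)) ψ fun x hx => ?_
  have h0 := Prod.ext_iff.1 (hψ x hx)
  have h1 : IsOfFinOrder (Abelianization.of (x.1.1 : H)) := (QuotientGroup.eq_one_iff _).1 h0.2
  obtain ⟨k, hk, h2⟩ := isOfFinOrder_iff_pow_eq_one.1 h1
  have h3 : i (x.1.1 ^ k) ∈ ⁅H, H⁆ := by
    rw [← H.map_subtype_commutator]
    refine ⟨(x.1.1 : H) ^ k, ?_, rfl⟩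
    rw [← Abelianization.ker_of]
    exact (map_pow _ _ _).trans h2
  obtain ⟨m, hm, h4⟩ := Lin_qu A ev (f₀.comp (M₁.subtype.comp (zpowersHom M₁ (x.1 ^ k))))
    (fun j => by
      have h5 := hH _ (Subgroup.zpow_mem _ h3 j.toAdd)
      rw [← map_zpow, e, RingHom.mapMatrix_apply, ← AddMonoidHom.map_trace] at h5
      exact (isAlgebraic_algHom_iff A.subtype.toIntAlgHom A.subtype_injective).1 h5)
    (fun j => by
      obtain ⟨m, hm, h5⟩ := hφ ((x.1 ^ k) ^ j.toAdd) (by
        rw [map_zpow, map_pow, show φ x.1 = 1 from h0.1, one_pow, one_zpow])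
      refine ⟨m, hm, (IsNilpotent.map_iff hΨ).1 ?_⟩
      rw [map_sub, map_pow, map_one]
      exact h5) (Multiplicative.ofAdd 1)
  refine ⟨k * m, Nat.mul_pos hk hm, ?_⟩
  change IsNilpotent ((f (i x.1.1)).val ^ (k * m) - 1)
  rw [pow_mul, ← Units.val_pow_eq_pow_val, ← map_pow, ← map_pow, e]
  simpa using h4

theorem qq_lin0 (hR : RegularRing R) (hB : StB R) {G K : Type} [Group G] [Field K] [CharZero K]
    {n : ℕ} (f : G →* GL (Fin n) K) (hf : Injective f) (hT : ∀ g : G, IsOfFinOrder g → g = 1) :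
    QQ R G :=
  qq_glQU hB f fun H φ h => qq_quasi hR (f.comp H.subtype) (hf.comp H.subtype_injective)
    (TF.sub hT _ H.subtype_injective) φ h

end Pool.Agent.MP_f7db47_al.GS

end
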