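import Pool.Agent.Mg.Ff7db47.Gff80d5
import Pool.Agent.Mg.Ff7db47.Gf348de

section

/-!
The torsion of a controlled chain homotopy equivalence.
-/

set_option linter.unusedSectionVars false

namespace Pool.Agent.MP_f7db47_al.GN

open Matrix

universe v

variable {R : Type v} [Ring R]

/-- The matrix raises the degree by `c`. -/
def Dg {I A : Type*} [Zero A] (deg : I → ℕ) (c : ℤ) (M : Matrix I I A) : Prop :=
  ∀ i j, M i j ≠ 0 → (deg i : ℤ) = deg j + c

section Degree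

variable {A : Type*} [Ring A] {I : Type} {deg : I → ℕ} {c c' c'' : ℤ} {M M' : Matrix I I A}

theorem CAlg_dg_zero (c : ℤ) : Dg deg c (0 : Matrix I I A) := fun _ _ h => absurd rfl h

theorem CAlg_dg_one [DecidableEq I] : Dg deg 0 (1 : Matrix I I A) := fun i j h => by
  by_cases e : i = j
  · rw [e, add_zero]
  · exact absurd (one_apply_ne e) h

theorem CAlg_dg_add (h : Dg deg c M) (h' : Dg deg c M') : Dg deg c (M + M') := fun i j e => by
  by_cases e1 : M i j = 0
  · refine h' i j fun e2 => e ?_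
    rw [Matrix.add_apply, e1, e2, add_zero]
  · exact h i j e1

theorem CAlg_dg_neg (h : Dg deg c M) : Dg deg c (-M) := fun i j e =>
  h i j fun e1 => e (by rw [Matrix.neg_apply, e1, neg_zero])

theorem CAlg_dg_sub (h : Dg deg c M) (h' : Dg deg c M') : Dg deg c (M - M') := by
  rw [sub_eq_add_neg]
  exact CAlg_dg_add h (CAlg_dg_neg h')

theorem CAlg_ne {I J K : Type} [Fintype J] {X : Matrix I J A} {Y : Matrix J K A} {i : I} {k : K}
    (h : (X * Y) i k ≠ 0) : ∃ j, X i j ≠ 0 ∧ Y j k ≠ 0 := by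
  rw [Matrix.mul_apply] at h
  obtain ⟨j, -, hj⟩ := Finset.exists_ne_zero_of_sum_ne_zero h
  exact ⟨j, left_ne_zero_of_mul hj, right_ne_zero_of_mul hj⟩

theorem CAlg_dg_mul [Fintype I] (h : Dg deg c M) (h' : Dg deg c' M') (e : c + c' = c'') :
    Dg deg c'' (M * M') := fun i k hk => by
  obtain ⟨j, h1, h2⟩ := CAlg_ne hk
  have := h i j h1
  have := h' j k h2
  omega

theorem CAlg_dg_pow [Fintype I] [DecidableEq I] (h : Dg deg c M) (n : ℕ) :
    Dg deg (n * c) (M ^ n) := by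
  induction n with
  | zero =>
    rw [pow_zero, Nat.cast_zero, zero_mul]
    exact CAlg_dg_one
  | succ n ih =>
    rw [pow_succ]
    exact CAlg_dg_mul ih h (by push_cast; ring)

/-- The degree on the mapping cone. -/
def CAlg_D (deg : I → ℕ) : I ⊕ I → ℕ := Sum.elim deg fun i => deg i + 1

theorem CAlg_dg_blocks {X Y Z U : Matrix I I A} (hX : Dg deg c X) (hY : Dg deg c' Y)
    (hZ : Dg deg c'' Z) (hU : Dg deg c U) (e : c' = c + 1) (e' : c'' = c - 1) :
    Dg (CAlg_D deg) c (fromBlocks X Y Z U) := by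
  rintro (i | i) (j | j) h
  · exact hX i j h
  · have := hY i j h
    simp only [CAlg_D, Sum.elim_inl, Sum.elim_inr]
    omega
  · have := hZ i j h
    simp only [CAlg_D, Sum.elim_inl, Sum.elim_inr]
    omega
  · have := hU i j h
    simp only [CAlg_D, Sum.elim_inl, Sum.elim_inr]
    omega

variable (A) in
/-- The projection to the odd part. -/
def CAlg_Q [DecidableEq I] (deg : I → ℕ) : Matrix I I A :=
  diagonal fun i => if deg i % 2 = 1 then 1 else 0

variable [Fintype I] [DecidableEq I]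

theorem CAlg_ev (h : Dg deg c M) (hc : c % 2 = 0) : CAlg_Q A deg * M = M * CAlg_Q A deg := by
  ext1 i j
  rw [CAlg_Q, diagonal_mul, mul_diagonal]
  by_cases e : M i j = 0
  · rw [e, mul_zero, zero_mul]
  · have := h i j e
    split_ifs with h1 h2 h2
    · rw [one_mul, mul_one]
    · omega
    · omega
    · rw [zero_mul, mul_zero]

theorem CAlg_od (h : Dg deg c M) (hc : c % 2 = 1) :
    CAlg_Q A deg * M + M * CAlg_Q A deg = M := by
  ext1 i j
  rw [Matrix.add_apply, CAlg_Q, diagonal_mul, mul_diagonal]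
  by_cases e : M i j = 0
  · rw [e, mul_zero, zero_mul, add_zero]
  · have := h i j e
    split_ifs with h1 h2 h2
    · omega
    · rw [one_mul, mul_zero, add_zero]
    · rw [zero_mul, mul_one, zero_add]
    · omega

theorem CAlg_dg_Q : Dg deg 0 (CAlg_Q A deg) := fun i j h => by
  by_cases e : i = j
  · rw [e, add_zero]
  · exact absurd (diagonal_apply_ne _ e) h

theorem CAlg_QQ : CAlg_Q A deg * CAlg_Q A deg = CAlg_Q A deg := by
  rw [CAlg_Q, diagonal_mul_diagonal]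
  congr 1
  funext i
  split_ifs <;> simp

theorem CAlg_QD : CAlg_Q A (CAlg_D deg) = fromBlocks (CAlg_Q A deg) 0 0 (1 - CAlg_Q A deg) := by
  rw [CAlg_Q, CAlg_Q, ← diagonal_one, diagonal_sub, fromBlocks_diagonal]
  congr 1
  funext x
  rcases x with i | i
  · rfl
  · simp only [CAlg_D, Sum.elim_inr]
    split_ifs with h1 h2 h2
    · omega
    · rw [sub_zero]
    · rw [sub_self]
    · omega

theorem CAlg_oo {B : Type*} [Ring B] {Q X Y : B} (hX : Q * X + X * Q = X)
    (hY : Q * Y + Y * Q = Y) : Q * (X * Y) = X * Y * Q := by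
  have e1 : Q * X = X - X * Q := eq_sub_of_add_eq hX
  have e2 : Y * Q = Y - Q * Y := eq_sub_of_add_eq' hY
  rw [← mul_assoc, e1, mul_assoc X Y Q, e2, sub_mul, mul_sub, mul_assoc]

/-- The inverse of the sum of the differential and a contraction. -/
theorem CAlg_inv {N : ℕ} (hN : ∀ i, deg i ≤ N) {d Γ : Matrix I I A} (hΓ : Dg deg 1 Γ)
    (hd : d * d = 0) (hc : d * Γ + Γ * d = 1) :
    (d + Γ) * ((d + Γ) * ∑ n ∈ Finset.range (N + 1), (-(Γ * Γ)) ^ n) = 1 ∧
      (d + Γ) * (∑ n ∈ Finset.range (N + 1), (-(Γ * Γ)) ^ n) * (d + Γ) = 1 := by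
  have h0 : (-(Γ * Γ)) ^ (N + 1) = 0 := by
    ext1 i j
    by_contra e
    have h1 := CAlg_dg_pow (CAlg_dg_neg (CAlg_dg_mul hΓ hΓ rfl)) (N + 1) i j e
    have := hN i
    omega
  have h1 : (d + Γ) * (d + Γ) = 1 - -(Γ * Γ) := by
    rw [← hc, add_mul, mul_add, mul_add, hd]
    abel
  have h2 : (d + Γ) * ((d + Γ) * ∑ n ∈ Finset.range (N + 1), (-(Γ * Γ)) ^ n) = 1 := by
    rw [← mul_assoc, h1, mul_neg_geom_sum, h0, sub_zero]
  have h3 : (∑ n ∈ Finset.range (N + 1), (-(Γ * Γ)) ^ n) * (d + Γ) * (d + Γ) = 1 := by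
    rw [mul_assoc, h1, geom_sum_mul_neg, h0, sub_zero]
  exact ⟨h2, by rw [← left_inv_eq_right_inv h3 h2, h3]⟩

end Degree

section Comp

variable {G : Type} [Group G] {I K : Type} [Fintype I] [DecidableEq I] [Fintype K] [DecidableEq K]

theorem CAlg_comm (X : Matrix I K (MonoidAlgebra R G)) (Y : Matrix K I (MonoidAlgebra R G))
    (h : T (1 + Y * X)) : T (1 + X * Y) := by
  have := T_one_sub_comm (-X) Y (by rwa [Matrix.mul_neg, sub_neg_eq_add])
  rwa [Matrix.neg_mul, sub_neg_eq_add] at this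

theorem CAlg_raise {D : K → ℕ} {N : ℕ} (hN : ∀ i, D i ≤ N) (n : ℕ) :
    ∀ (m : ℕ) (X : Matrix K K (MonoidAlgebra R G)), N < m + n →
      (∀ i j, X i j ≠ 0 → D j < D i ∧ m ≤ D j) → T (1 + X) := by
  induction n with
  | zero =>
    intro m X hm hX
    have : X = 0 := by
      ext1 i j
      by_contra e
      have := (hX i j e).2
      have := hN j
      omega
    rw [this, add_zero]
    exact T_one
  | succ n ih =>
    intro m X hm hX
    have e : X = (diagonal fun i => if m + 1 ≤ D i then 1 else 0) * X := by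
      ext1 i j
      rw [diagonal_mul]
      split_ifs with h
      · rw [one_mul]
      · rw [zero_mul]
        by_contra e
        have := hX i j e
        omega
    rw [e]
    refine CAlg_comm _ _ (ih (m + 1) _ (by omega) fun i j h => ?_)
    rw [mul_diagonal] at h
    refine ⟨(hX i j (left_ne_zero_of_mul h)).1, ?_⟩
    by_contra e
    exact right_ne_zero_of_mul h (if_neg e)

variable {r : Matrix I K (MonoidAlgebra R G)} {j : Matrix K I (MonoidAlgebra R G)}
  {Q W : Matrix K K (MonoidAlgebra R G)}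

theorem CAlg_left (hr : r * j = 1) (hQ : j * r = Q) {X : Matrix K K (MonoidAlgebra R G)}
    (hX : Q * X = X * Q) (Y : Matrix K K (MonoidAlgebra R G)) :
    r * X * j * (r * Y * j) = r * (X * Y) * j := by
  have e : r * X * j * r = r * X := by
    rw [Matrix.mul_assoc, hQ, Matrix.mul_assoc, ← hX, ← hQ, ← Matrix.mul_assoc,
      ← Matrix.mul_assoc, hr, Matrix.one_mul]
  rw [← Matrix.mul_assoc, ← Matrix.mul_assoc, e, Matrix.mul_assoc r X Y]

theorem CAlg_right (hr : r * j = 1) (hQ : j * r = Q) (X : Matrix K K (MonoidAlgebra R G))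
    {Y : Matrix K K (MonoidAlgebra R G)} (hY : Q * Y = Y * Q) :
    r * X * j * (r * Y * j) = r * (X * Y) * j := by
  have e : j * (r * Y * j) = Y * j := by
    rw [← Matrix.mul_assoc, ← Matrix.mul_assoc, hQ, hY, ← hQ, Matrix.mul_assoc,
      Matrix.mul_assoc, hr, Matrix.mul_one]
  rw [Matrix.mul_assoc (r * X), e, ← Matrix.mul_assoc, Matrix.mul_assoc r X Y]

theorem CAlg_unip (hr : r * j = 1) (hQ : j * r = Q) {p n X : Matrix K K (MonoidAlgebra R G)}
    (hp : Q * p = p * Q) (hn : n * p = 0) (hX : X = 1 + p * n) : T (r * X * j) := by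
  have e : r * X * j = 1 + r * p * (n * j) := by
    rw [hX, Matrix.mul_add, Matrix.add_mul, Matrix.mul_one, hr]
    simp only [Matrix.mul_assoc]
  rw [e]
  refine CAlg_comm _ _ ?_
  rw [Matrix.mul_assoc, ← Matrix.mul_assoc j, hQ, hp, ← Matrix.mul_assoc, hn, Matrix.zero_mul,
    add_zero]
  exact T_one

variable {D : K → ℕ} {N : ℕ}

theorem CAlg_up (hN : ∀ i, D i ≤ N) (hr : r * j = 1) (hQ : j * r = CAlg_Q _ D)
    {X : Matrix K K (MonoidAlgebra R G)} (hX : Dg D 2 X) : T (r * (1 + X) * j) := by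
  rw [Matrix.mul_add, Matrix.add_mul, Matrix.mul_one, hr, Matrix.mul_assoc]
  refine CAlg_comm _ _ ?_
  rw [Matrix.mul_assoc, hQ]
  refine CAlg_raise hN (N + 1) 0 _ (by omega) fun a b h => ?_
  have := CAlg_dg_mul hX CAlg_dg_Q rfl a b h
  omega

theorem CAlg_two (hN : ∀ i, D i ≤ N) (hr : r * j = 1) (hQ : j * r = CAlg_Q _ D)
    {d Γ Γ' : Matrix K K (MonoidAlgebra R G)} (h1 : Dg D (-1) d) (hΓ : Dg D 1 Γ)
    (hΓ' : Dg D 1 Γ') (hd : d * d = 0) (hc : d * Γ + Γ * d = 1) (hc' : d * Γ' + Γ' * d = 1) :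
    T (r * ((d + Γ') * (d + Γ)) * j) := by
  have e0 : d * (Γ' - Γ) = -((Γ' - Γ) * d) := by
    rw [eq_neg_iff_add_eq_zero, mul_sub, sub_mul, sub_add_sub_comm, hc, hc', sub_self]
  have e1 : (Γ' - Γ) * d * ((Γ' - Γ) * d) = 0 := by
    rw [mul_assoc, ← mul_assoc d, e0, neg_mul, mul_assoc _ d d, hd, mul_zero, neg_zero, mul_zero]
  have e2 : d * Γ * d = d := by
    rw [mul_assoc, eq_sub_of_add_eq' hc, mul_sub, mul_one, ← mul_assoc, hd, zero_mul, sub_zero]
  have e3 : d * Γ * ((Γ' - Γ) * d) = (Γ' - Γ) * d := by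
    rw [← neg_neg ((Γ' - Γ) * d), ← e0, mul_neg, ← mul_assoc, e2]
  have e4 : (d + Γ') * (d + Γ) = 1 + (Γ' - Γ) * d + Γ' * Γ := by
    rw [← hc, add_mul, mul_add, mul_add, hd, sub_mul]
    abel
  have e5 : (d + Γ') * (d + Γ) =
      (1 + (Γ' - Γ) * d) * (1 + (1 - (Γ' - Γ) * d) * (Γ' * Γ)) := by
    rw [e4, mul_add, mul_one, ← mul_assoc (1 + _), add_mul, one_mul, mul_sub, e1, mul_one,
      sub_zero, sub_add_cancel, one_mul]
  have g1 : Dg D 0 ((Γ' - Γ) * d) := CAlg_dg_mul (CAlg_dg_sub hΓ' hΓ) h1 rfl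
  rw [e5, ← CAlg_left hr hQ (CAlg_ev (CAlg_dg_add CAlg_dg_one g1) rfl)]
  refine T_mul (CAlg_unip hr hQ (p := d * Γ) (n := (Γ' - Γ) * d)
    (CAlg_ev (CAlg_dg_mul h1 hΓ rfl) rfl) ?_ (by rw [e3])) (CAlg_up hN hr hQ
      (CAlg_dg_mul (CAlg_dg_sub CAlg_dg_one g1) (CAlg_dg_mul hΓ' hΓ rfl) rfl))
  rw [mul_assoc, ← mul_assoc d, hd, zero_mul, mul_zero]

theorem CAlg_even (hW : CAlg_Q _ D * W + W * CAlg_Q _ D = W)
    {d Γ : Matrix K K (MonoidAlgebra R G)} (h1 : Dg D (-1) d) (hΓ : Dg D 1 Γ) :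
    CAlg_Q _ D * (W * (d + Γ)) = W * (d + Γ) * CAlg_Q _ D := by
  refine CAlg_oo hW ?_
  rw [mul_add, add_mul, add_add_add_comm, CAlg_od h1 rfl, CAlg_od hΓ rfl]

theorem CAlg_indep (hN : ∀ i, D i ≤ N) (hr : r * j = 1) (hQ : j * r = CAlg_Q _ D)
    (hWW : W * W = 1) (hW : CAlg_Q _ D * W + W * CAlg_Q _ D = W)
    {d Γ Γ' : Matrix K K (MonoidAlgebra R G)} (h1 : Dg D (-1) d) (hΓ : Dg D 1 Γ)
    (hΓ' : Dg D 1 Γ') (hd : d * d = 0) (hc : d * Γ + Γ * d = 1) (hc' : d * Γ' + Γ' * d = 1)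
    (h : T (r * (W * (d + Γ)) * j)) : T (r * (W * (d + Γ')) * j) := by
  have e : ∀ X Y : Matrix K K (MonoidAlgebra R G), X * Y = X * W * (W * Y) := fun X Y => by
    rw [mul_assoc, ← mul_assoc W, hWW, one_mul]
  have t1 := CAlg_two hN hr hQ h1 hΓ hΓ' hd hc hc'
  have t2 := CAlg_two hN hr hQ h1 hΓ' hΓ' hd hc' hc'
  rw [e, ← CAlg_right hr hQ _ (CAlg_even hW h1 hΓ)] at t1
  rw [e, ← CAlg_right hr hQ _ (CAlg_even hW h1 hΓ')] at t2
  exact T_cancel_left (T_cancel_right h t1) t2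

theorem CAlg_pair (hr : r * j = 1) (hQ : j * r = Q) (hWW : W * W = 1)
    {M V : Matrix K K (MonoidAlgebra R G)} (hM : Q * (W * M) = W * M * Q) (h1 : M * V = 1)
    (h2 : V * M = 1) :
    r * (W * M) * j * (r * (V * W) * j) = 1 ∧ r * (V * W) * j * (r * (W * M) * j) = 1 := by
  constructor
  · rw [CAlg_left hr hQ hM, mul_assoc, ← mul_assoc M, h1, one_mul, hWW, Matrix.mul_one, hr]
  · rw [CAlg_right hr hQ _ hM, mul_assoc, ← mul_assoc W, hWW, one_mul, h2, Matrix.mul_one, hr]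

end Comp

section Cone

variable {G : Type} [Group G] {I J : Type} [Fintype I] [DecidableEq I] [Fintype J] [DecidableEq J]

variable (R G) in
/-- The restriction to the odd part of the cone. -/
noncomputable def CAlg_r (deg : I → ℕ) : Matrix I (I ⊕ I) (MonoidAlgebra R G) :=
  fromCols (CAlg_Q _ deg) (1 - CAlg_Q _ deg)

variable (R G) in
/-- The inclusion of the odd part of the cone. -/
noncomputable def CAlg_j (deg : I → ℕ) : Matrix (I ⊕ I) I (MonoidAlgebra R G) :=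
  fromRows (CAlg_Q _ deg) (1 - CAlg_Q _ deg)

variable (R G I) in
/-- The swap. -/
noncomputable def CAlg_W : Matrix (I ⊕ I) (I ⊕ I) (MonoidAlgebra R G) := fromBlocks 0 1 1 0

variable {deg : I → ℕ}

theorem CAlg_rj : CAlg_r R G deg * CAlg_j R G deg = 1 := by
  rw [CAlg_r, CAlg_j, fromCols_mul_fromRows]
  simp only [mul_sub, sub_mul, one_mul, mul_one, CAlg_QQ]
  abel

theorem CAlg_jr : CAlg_j R G deg * CAlg_r R G deg = CAlg_Q _ (CAlg_D deg) := by
  rw [CAlg_r, CAlg_j, fromRows_mul_fromCols, CAlg_QD]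
  simp only [mul_sub, sub_mul, one_mul, mul_one, CAlg_QQ, sub_self, sub_zero]

theorem CAlg_WW : CAlg_W R G I * CAlg_W R G I = 1 := by
  simp [CAlg_W, fromBlocks_multiply]

theorem CAlg_QW : CAlg_Q _ (CAlg_D deg) * CAlg_W R G I + CAlg_W R G I * CAlg_Q _ (CAlg_D deg) =
    CAlg_W R G I := by
  simp [CAlg_W, CAlg_QD, fromBlocks_multiply, fromBlocks_add]

theorem CAlg_DN {N : ℕ} (hN : ∀ i, deg i ≤ N) : ∀ x, CAlg_D deg x ≤ N + 1 := by
  rintro (i | i)
  · exact (hN i).trans (Nat.le_succ N)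
  · exact Nat.succ_le_succ (hN i)

theorem CAlg_formula (X Y Z U : Matrix I I (MonoidAlgebra R G)) :
    CAlg_r R G deg * (CAlg_W R G I * fromBlocks X Y Z U) * CAlg_j R G deg =
      (1 - CAlg_Q _ deg) * X * CAlg_Q _ deg + CAlg_Q _ deg * U * (1 - CAlg_Q _ deg) +
        ((1 - CAlg_Q _ deg) * Y * (1 - CAlg_Q _ deg) + CAlg_Q _ deg * Z * CAlg_Q _ deg) := by
  rw [CAlg_W, fromBlocks_multiply, CAlg_r, CAlg_j, fromCols_mul_fromBlocks, fromCols_mul_fromRows]
  simp only [zero_mul, one_mul, zero_add, add_zero, add_mul]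
  abel

variable {d s : Matrix I I (MonoidAlgebra R G)} {ι : Matrix I J (MonoidAlgebra R G)}
  {ε : Matrix J I (MonoidAlgebra R G)}

theorem CAlg_mid (hι : ∀ i j, ι i j ≠ 0 → deg i = 0) (hε : ∀ j i, ε j i ≠ 0 → deg i = 0)
    (a : Matrix J J (MonoidAlgebra R G)) : Dg deg 0 (ι * a * ε) := fun i k h => by
  obtain ⟨y, h1, h2⟩ := CAlg_ne h
  obtain ⟨x, h3, -⟩ := CAlg_ne h1
  rw [hι i x h3, hε y k h2, add_zero]

theorem CAlg_model {a b : Matrix J J (MonoidAlgebra R G)} (hab : a * b = 1) (hba : b * a = 1)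
    (h1 : ε * ι = 1) (h2 : ε * d = 0) (h3 : d * ι = 0) (h4 : ε * s = 0) (h5 : s * ι = 0)
    (h6 : d * s + s * d = 1 - ι * ε) :
    fromBlocks d (ι * a * ε) 0 (-d) * fromBlocks s 0 (ι * b * ε) (-s) +
      fromBlocks s 0 (ι * b * ε) (-s) * fromBlocks d (ι * a * ε) 0 (-d) = 1 := by
  have e : ∀ x y : Matrix J J (MonoidAlgebra R G), x * y = 1 →
      ι * x * ε * (ι * y * ε) = ι * ε := fun x y h => by
    rw [← Matrix.mul_assoc, ← Matrix.mul_assoc, Matrix.mul_assoc _ ε, h1, Matrix.mul_one,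
      Matrix.mul_assoc ι, h, Matrix.mul_one]
  have e1 : ι * a * ε * s = 0 := by rw [Matrix.mul_assoc, h4, Matrix.mul_zero]
  have e2 : ι * b * ε * d = 0 := by rw [Matrix.mul_assoc, h2, Matrix.mul_zero]
  have e3 : d * (ι * b * ε) = 0 := by
    rw [← Matrix.mul_assoc, ← Matrix.mul_assoc, h3, Matrix.zero_mul, Matrix.zero_mul]
  have e4 : s * (ι * a * ε) = 0 := by
    rw [← Matrix.mul_assoc, ← Matrix.mul_assoc, h5, Matrix.zero_mul, Matrix.zero_mul]
  have e5 : d * s = 1 - ι * ε - s * d := eq_sub_of_add_eq h6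
  rw [fromBlocks_multiply, fromBlocks_multiply, fromBlocks_add, ← fromBlocks_one]
  simp only [e a b hab, e b a hba, mul_zero, zero_mul, mul_neg, neg_mul, e1, e2, e3, e4, e5,
    neg_zero, add_zero, zero_add, neg_neg]
  congr 1 <;> abel

/-- The model case. -/
theorem CAlg_final {N : ℕ} (hN : ∀ i, deg i ≤ N) (hd : Dg deg (-1) d) (hs : Dg deg 1 s)
    (hι : ∀ i j, ι i j ≠ 0 → deg i = 0) (hε : ∀ j i, ε j i ≠ 0 → deg i = 0) (hdd : d * d = 0)
    {a b : Matrix J J (MonoidAlgebra R G)}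
    (h1 : ε * ι = 1) (h2 : ε * d = 0) (h3 : d * ι = 0) (h4 : ε * s = 0) (h5 : s * ι = 0)
    (h6 : d * s + s * d = 1 - ι * ε) (m1 : d.map (aug R G) = d) (m2 : s.map (aug R G) = s)
    (m3 : ι.map (aug R G) = ι) (m4 : ε.map (aug R G) = ε)
    (h : T (CAlg_r R G deg * (CAlg_W R G I * (fromBlocks d (ι * a * ε) 0 (-d) +
      fromBlocks s 0 (ι * b * ε) (-s))) * CAlg_j R G deg)) : T a := by
  have q1 : CAlg_Q (MonoidAlgebra R G) deg * ι = 0 := by
    ext1 i x
    rw [CAlg_Q, diagonal_mul]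
    by_cases e : ι i x = 0
    · rw [e, mul_zero, Matrix.zero_apply]
    · rw [hι i x e, if_neg (by omega), zero_mul, Matrix.zero_apply]
  have q2 : ε * CAlg_Q (MonoidAlgebra R G) deg = 0 := by
    ext1 x i
    rw [CAlg_Q, mul_diagonal]
    by_cases e : ε x i = 0
    · rw [e, zero_mul, Matrix.zero_apply]
    · rw [hε x i e, if_neg (by omega), mul_zero, Matrix.zero_apply]
  have q3 : (1 - CAlg_Q (MonoidAlgebra R G) deg) * ι = ι := by
    rw [Matrix.sub_mul, q1, Matrix.one_mul, sub_zero]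
  have q4 : ε * (1 - CAlg_Q (MonoidAlgebra R G) deg) = ε := by
    rw [Matrix.mul_sub, q2, Matrix.mul_one, sub_zero]
  have key : ∀ x y : Matrix J J (MonoidAlgebra R G),
      CAlg_r R G deg * (CAlg_W R G I * (fromBlocks d (ι * x * ε) 0 (-d) +
        fromBlocks s 0 (ι * y * ε) (-s))) * CAlg_j R G deg =
      (1 - CAlg_Q _ deg) * (d + s) * CAlg_Q _ deg +
        CAlg_Q _ deg * (-d + -s) * (1 - CAlg_Q _ deg) + ι * x * ε := fun x y => by
    rw [fromBlocks_add, CAlg_formula, add_zero, zero_add]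
    simp only [← Matrix.mul_assoc, q1, q3, Matrix.zero_mul, add_zero]
    rw [Matrix.mul_assoc _ ε, q4]
  have g1 : Dg (CAlg_D deg) (-1) (fromBlocks d (ι * (1 : Matrix J J (MonoidAlgebra R G)) * ε) 0 (-d)) :=
    CAlg_dg_blocks hd (CAlg_mid hι hε 1) (CAlg_dg_zero _) (CAlg_dg_neg hd) rfl rfl
  have g2 : Dg (CAlg_D deg) 1 (fromBlocks s 0 (ι * (1 : Matrix J J (MonoidAlgebra R G)) * ε) (-s)) :=
    CAlg_dg_blocks hs (CAlg_dg_zero _) (CAlg_mid hι hε 1) (CAlg_dg_neg hs) rfl rfl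
  have g3 : fromBlocks d (ι * (1 : Matrix J J (MonoidAlgebra R G)) * ε) 0 (-d) * fromBlocks d (ι * (1 : Matrix J J (MonoidAlgebra R G)) * ε) 0 (-d) = 0 := by
    rw [fromBlocks_multiply, ← fromBlocks_zero]
    simp only [Matrix.mul_one, mul_neg, neg_mul, hdd, mul_zero, zero_mul, add_zero, neg_zero,
      ← Matrix.mul_assoc, h3, Matrix.zero_mul, zero_add]
    rw [Matrix.mul_assoc, h2, Matrix.mul_zero, neg_zero]
  obtain ⟨i1, i2⟩ := CAlg_inv (CAlg_DN hN) g2 g3
    (CAlg_model (mul_one 1) (mul_one 1) h1 h2 h3 h4 h5 h6)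
  obtain ⟨i3, i4⟩ := CAlg_pair CAlg_rj CAlg_jr CAlg_WW (CAlg_even CAlg_QW g1 g2) i1 i2
  have mQ : (CAlg_Q (MonoidAlgebra R G) deg).map (aug R G) = CAlg_Q _ deg := by
    rw [CAlg_Q, diagonal_map (map_zero _)]
    congr 1
    funext i
    split_ifs
    · exact map_one _
    · exact map_zero _
  have t0 := T_of_aug i3 i4 (by
    rw [key]
    simp only [Matrix.map_add _ (map_add (aug R G)), Matrix.map_sub _ (map_sub (aug R G)),
      Matrix.map_neg _ (map_neg (aug R G)), Matrix.map_mul,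
      Matrix.map_one _ (map_zero (aug R G)) (map_one (aug R G)), mQ, m1, m2, m3, m4])
  rw [key] at h t0
  have e : (1 - CAlg_Q _ deg) * (d + s) * CAlg_Q _ deg +
      CAlg_Q _ deg * (-d + -s) * (1 - CAlg_Q _ deg) + ι * a * ε =
      ((1 - CAlg_Q _ deg) * (d + s) * CAlg_Q _ deg +
        CAlg_Q _ deg * (-d + -s) * (1 - CAlg_Q _ deg) + ι * (1 : Matrix J J (MonoidAlgebra R G)) * ε) * (1 + ι * ((a - 1) * ε)) := by
    have e1 : ((1 - CAlg_Q _ deg) * (d + s) * CAlg_Q _ deg +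
        CAlg_Q _ deg * (-d + -s) * (1 - CAlg_Q _ deg) + ι * (1 : Matrix J J (MonoidAlgebra R G)) * ε) * ι = ι := by
      simp only [Matrix.add_mul, Matrix.mul_assoc, q1, q3, Matrix.neg_mul, h1, h3, h5,
        Matrix.mul_zero, neg_zero, add_zero, zero_add, Matrix.mul_one]
    generalize (1 - CAlg_Q _ deg) * (d + s) * CAlg_Q _ deg +
      CAlg_Q _ deg * (-d + -s) * (1 - CAlg_Q _ deg) = Z at e1 ⊢
    rw [mul_add, mul_one, ← Matrix.mul_assoc, e1]
    simp only [Matrix.sub_mul, Matrix.mul_sub, Matrix.mul_one, Matrix.one_mul, Matrix.mul_assoc]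
    abel
  rw [e] at h
  have t1 := CAlg_comm _ _ (T_cancel_left t0 h)
  rwa [Matrix.mul_assoc, h1, Matrix.mul_one, add_sub_cancel] at t1

theorem CAlg_shear (H : Matrix I I (MonoidAlgebra R G)) :
    T (CAlg_r R G deg * (fromBlocks 1 H 0 1 : Matrix (I ⊕ I) (I ⊕ I) _) * CAlg_j R G deg) ∧
      T (CAlg_r R G deg * (CAlg_W R G I * fromBlocks 1 H 0 1 * CAlg_W R G I) *
        CAlg_j R G deg) := by
  constructor
  · refine CAlg_unip CAlg_rj CAlg_jr (p := fromBlocks 1 0 0 0) (n := fromBlocks 0 H 0 0) ?_ ?_ ?_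
    · simp [CAlg_QD, fromBlocks_multiply]
    · simp [fromBlocks_multiply]
    · rw [← fromBlocks_one]
      simp [fromBlocks_multiply, fromBlocks_add, -fromBlocks_one]
  · refine CAlg_unip CAlg_rj CAlg_jr (p := fromBlocks 0 0 0 1) (n := fromBlocks 0 0 H 0) ?_ ?_ ?_
    · simp [CAlg_QD, fromBlocks_multiply]
    · simp [fromBlocks_multiply]
    · rw [← fromBlocks_one]
      simp [CAlg_W, fromBlocks_multiply, fromBlocks_add, -fromBlocks_one]

/-- Change of the cone by a homotopy. -/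
theorem CAlg_conj {N : ℕ} (hN : ∀ i, deg i ≤ N) {f f' H : Matrix I I (MonoidAlgebra R G)}
    (hd : Dg deg (-1) d) (hf : Dg deg 0 f) (hf' : Dg deg 0 f') (hH : Dg deg 1 H)
    (e : f - f' = d * H + H * d) {Γ Γ' : Matrix (I ⊕ I) (I ⊕ I) (MonoidAlgebra R G)}
    (hΓ : Dg (CAlg_D deg) 1 Γ) (hΓ' : Dg (CAlg_D deg) 1 Γ')
    (hdd : fromBlocks d f 0 (-d) * fromBlocks d f 0 (-d) = 0)
    (hc : fromBlocks d f 0 (-d) * Γ + Γ * fromBlocks d f 0 (-d) = 1)
    (hc' : fromBlocks d f' 0 (-d) * Γ' + Γ' * fromBlocks d f' 0 (-d) = 1)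
    (h : T (CAlg_r R G deg * (CAlg_W R G I * (fromBlocks d f 0 (-d) + Γ)) * CAlg_j R G deg)) :
    T (CAlg_r R G deg * (CAlg_W R G I * (fromBlocks d f' 0 (-d) + Γ')) * CAlg_j R G deg) := by
  have p1 : fromBlocks 1 H 0 1 * fromBlocks 1 (-H) 0 1 =
      (1 : Matrix (I ⊕ I) (I ⊕ I) (MonoidAlgebra R G)) := by
    simp [fromBlocks_multiply]
  have p2 : fromBlocks 1 (-H) 0 1 * fromBlocks 1 H 0 1 =
      (1 : Matrix (I ⊕ I) (I ⊕ I) (MonoidAlgebra R G)) := by
    simp [fromBlocks_multiply]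
  have p3 : fromBlocks d f 0 (-d) =
      fromBlocks 1 (-H) 0 1 * fromBlocks d f' 0 (-d) * fromBlocks 1 H 0 1 := by
    rw [eq_add_of_sub_eq e]
    simp only [fromBlocks_multiply, one_mul, mul_one, zero_mul, mul_zero, add_zero, zero_add,
      mul_neg, neg_mul, neg_neg]
    congr 1
    abel
  have g0 : ∀ X : Matrix I I (MonoidAlgebra R G), Dg deg 1 X →
      Dg (CAlg_D deg) 0 (fromBlocks 1 X 0 1) := fun X hX =>
    CAlg_dg_blocks CAlg_dg_one hX (CAlg_dg_zero _) CAlg_dg_one rfl rfl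
  have g1 : Dg (CAlg_D deg) (-1) (fromBlocks d f 0 (-d)) :=
    CAlg_dg_blocks hd hf (CAlg_dg_zero _) (CAlg_dg_neg hd) rfl rfl
  have g2 : Dg (CAlg_D deg) (-1) (fromBlocks d f' 0 (-d)) :=
    CAlg_dg_blocks hd hf' (CAlg_dg_zero _) (CAlg_dg_neg hd) rfl rfl
  have g3 := g0 H hH
  have g4 := g0 (-H) (CAlg_dg_neg hH)
  have s1 := (CAlg_shear (deg := deg) H).1
  have s2 := (CAlg_shear (deg := deg) (-H)).2
  generalize fromBlocks d f 0 (-d) = dd at *
  generalize fromBlocks d f' 0 (-d) = dd' at *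
  generalize (fromBlocks 1 H 0 1 : Matrix (I ⊕ I) (I ⊕ I) _) = Φ at *
  generalize (fromBlocks 1 (-H) 0 1 : Matrix (I ⊕ I) (I ⊕ I) _) = Ψ at *
  have t := CAlg_indep (CAlg_DN hN) CAlg_rj CAlg_jr CAlg_WW CAlg_QW (Γ' := Ψ * Γ' * Φ) g1 hΓ
    (CAlg_dg_mul (CAlg_dg_mul g4 hΓ' rfl) g3 rfl) hdd hc (by
      rw [p3]
      calc Ψ * dd' * Φ * (Ψ * Γ' * Φ) + Ψ * Γ' * Φ * (Ψ * dd' * Φ)
          = Ψ * (dd' * (Φ * Ψ) * Γ' + Γ' * (Φ * Ψ) * dd') * Φ := by
            simp only [mul_add, add_mul, mul_assoc]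
        _ = 1 := by rw [p1, mul_one, mul_one, hc', mul_one, p2]) h
  have e1 : CAlg_W R G I * (dd + Ψ * Γ' * Φ) =
      CAlg_W R G I * Ψ * CAlg_W R G I * (CAlg_W R G I * (dd' + Γ') * Φ) := by
    rw [p3, ← add_mul, ← mul_add]
    simp only [mul_assoc]
    rw [← mul_assoc (CAlg_W R G I) (CAlg_W R G I), CAlg_WW, one_mul]
  have e2 := CAlg_even CAlg_QW g2 hΓ'
  rw [e1, ← CAlg_right CAlg_rj CAlg_jr _ (by
      rw [← mul_assoc, e2, mul_assoc, CAlg_ev g3 rfl, ← mul_assoc]),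
    ← CAlg_left CAlg_rj CAlg_jr e2] at t
  exact T_cancel_right s1 (T_cancel_left s2 t)

end Cone

section Control

variable {G : Type} [Group G] {Λ I J K : Type} (F : FR G Λ)

theorem CAlg_ctl_cols {r : Λ → G → Λ → Prop} {li : I → Λ} {lj : J → Λ} {lk : K → Λ}
    {X : Matrix I J (MonoidAlgebra R G)} {Y : Matrix I K (MonoidAlgebra R G)}
    (hX : Ctl r li lj X) (hY : Ctl r li lk Y) : Ctl r li (Sum.elim lj lk) (fromCols X Y) := by
  rintro i (x | x)
  · exact hX i x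
  · exact hY i x

theorem CAlg_ctl_rows {r : Λ → G → Λ → Prop} {li : I → Λ} {lj : J → Λ} {lk : K → Λ}
    {X : Matrix J I (MonoidAlgebra R G)} {Y : Matrix K I (MonoidAlgebra R G)}
    (hX : Ctl r lj li X) (hY : Ctl r lk li Y) : Ctl r (Sum.elim lj lk) li (fromRows X Y) := by
  rintro (x | x) i
  · exact hX x i
  · exact hY x i

theorem CAlg_ctl_geom [Fintype I] [DecidableEq I] {k : ℕ} {l : I → Λ}
    {X : Matrix I I (MonoidAlgebra R G)} (hX : Ctl (F.rel k) l l X) (n : ℕ) :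
    Ctl (F.rel (n * k)) l l (X ^ n) ∧ Ctl (F.rel (n * k)) l l (∑ i ∈ Finset.range n, X ^ i) := by
  induction n with
  | zero =>
    rw [pow_zero, Finset.sum_range_zero]
    exact ⟨ctl_one F _ l, ctl_zero _ l l⟩
  | succ n ih =>
    rw [pow_succ, Finset.sum_range_succ, Nat.succ_mul]
    exact ⟨ih.1.mul F hX, (ih.2.add ih.1).le F (Nat.le_add_right _ _)⟩

theorem CAlg_ctl_comp [Fintype I] [DecidableEq I] {k : ℕ} {l : I → Λ} (deg : I → ℕ)
    {X : Matrix (I ⊕ I) (I ⊕ I) (MonoidAlgebra R G)}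
    (hX : Ctl (F.rel k) (Sum.elim l l) (Sum.elim l l) X) :
    Ctl (F.rel k) l l (CAlg_r R G deg * (CAlg_W R G I * X) * CAlg_j R G deg) ∧
      Ctl (F.rel k) l l (CAlg_r R G deg * (X * CAlg_W R G I) * CAlg_j R G deg) := by
  have h1 : Ctl (F.rel 0) l l (CAlg_Q (MonoidAlgebra R G) deg) := ctl_diag F 0 l _
  have h2 := (ctl_one F 0 l).sub h1
  have h3 : Ctl (F.rel 0) (Sum.elim l l) (Sum.elim l l) (CAlg_W R G I) :=
    Ctl.fromBlocks (ctl_zero _ l l) (ctl_one F 0 l) (ctl_one F 0 l) (ctl_zero _ l l)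
  exact ⟨(((CAlg_ctl_cols h1 h2).mul F (h3.mul F hX)).mul F (CAlg_ctl_rows h1 h2)).le F (by omega),
    (((CAlg_ctl_cols h1 h2).mul F (hX.mul F h3)).mul F (CAlg_ctl_rows h1 h2)).le F (by omega)⟩

end Control

theorem torsion (N : ℕ) : ∃ c : ℕ, 0 < c ∧ ∀ (G : Type) [Group G] (Λ I J : Type) [Fintype I]
    [DecidableEq I] [Fintype J] [DecidableEq J] (F : FR G Λ) (κ : ℕ) (l : I → Λ) (deg : I → ℕ)
    (d f g h k s : Matrix I I (MonoidAlgebra R G)) (a b : Matrix J J (MonoidAlgebra R G))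
    (ι : Matrix I J (MonoidAlgebra R G)) (ε : Matrix J I (MonoidAlgebra R G)),
    (∀ i, deg i ≤ N) → Dg deg (-1) d → Dg deg 0 f → Dg deg 0 g → Dg deg 1 h → Dg deg 1 k →
    Dg deg 1 s → (∀ i j, ι i j ≠ 0 → deg i = 0) → (∀ j i, ε j i ≠ 0 → deg i = 0) →
    Ctl (F.rel κ) l l d → Ctl (F.rel κ) l l f → Ctl (F.rel κ) l l g → Ctl (F.rel κ) l l h →
    Ctl (F.rel κ) l l k → d * d = 0 → d * f = f * d → d * g = g * d →
    g * f = 1 + d * h + h * d → f * g = 1 + d * k + k * d → a * b = 1 → b * a = 1 →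
    ε * ι = 1 → ε * d = 0 → d * s + s * d = 1 - ι * ε → ε * f = a * ε →
    d.map (aug R G) = d → s.map (aug R G) = s → ι.map (aug R G) = ι → ε.map (aug R G) = ε →
    ∃ A B : Matrix I I (MonoidAlgebra R G), A * B = 1 ∧ B * A = 1 ∧ Ctl (F.rel (c * κ)) l l A ∧
      Ctl (F.rel (c * κ)) l l B ∧ (T A → T a) := by
  refine ⟨6 * N + 15, by omega, ?_⟩
  intro G _ Λ I J _ _ _ _ F κ l deg d f g h k s a b ι ε hN hd hf hg hh hk hs hι hε cd cf cg ch ck
    hdd hdf hdg hgf hfg hab hba h1 h2 h6 h7 m1 m2 m3 m4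
  have h3 : d * ι = 0 := by
    ext1 i x
    by_contra e
    obtain ⟨y, e1, e2⟩ := CAlg_ne e
    have := hd i y e1
    have := hι y x e2
    omega
  have h4 : ε * s = 0 := by
    ext1 x i
    by_contra e
    obtain ⟨y, e1, e2⟩ := CAlg_ne e
    have := hs y i e2
    have := hε x y e1
    omega
  have g0 : Dg deg 0 (ι * ε) := by
    have := CAlg_mid hι hε 1
    rwa [Matrix.mul_one] at this
  have g1 : Dg (CAlg_D deg) (-1) (fromBlocks d f 0 (-d)) :=
    CAlg_dg_blocks hd hf (CAlg_dg_zero _) (CAlg_dg_neg hd) rfl rfl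
  have g2 : Dg (CAlg_D deg) 1 (fromBlocks (-k) 0 g h * fromBlocks 1 (-(f * h - k * f)) 0 1) :=
    CAlg_dg_mul (CAlg_dg_blocks (CAlg_dg_neg hk) (CAlg_dg_zero _) hg hh rfl rfl)
      (CAlg_dg_blocks CAlg_dg_one (CAlg_dg_neg (CAlg_dg_sub (CAlg_dg_mul hf hh rfl)
        (CAlg_dg_mul hk hf rfl))) (CAlg_dg_zero _) CAlg_dg_one rfl rfl) rfl
  have e1 : fromBlocks d f 0 (-d) * fromBlocks d f 0 (-d) = 0 := by
    rw [fromBlocks_multiply, ← fromBlocks_zero]
    simp [hdd, hdf]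
  have e2 : fromBlocks d f 0 (-d) * fromBlocks (-k) 0 g h +
      fromBlocks (-k) 0 g h * fromBlocks d f 0 (-d) = fromBlocks 1 (f * h - k * f) 0 1 := by
    rw [fromBlocks_multiply, fromBlocks_multiply, fromBlocks_add]
    simp only [mul_neg, neg_mul, hdg, hgf, hfg, mul_zero, zero_mul, add_zero, zero_add, neg_zero]
    congr 1 <;> abel
  have e3 : fromBlocks 1 (f * h - k * f) 0 1 * fromBlocks 1 (-(f * h - k * f)) 0 1 =
      (1 : Matrix (I ⊕ I) (I ⊕ I) (MonoidAlgebra R G)) := by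
    simp [fromBlocks_multiply]
  have e4 : fromBlocks 1 (-(f * h - k * f)) 0 1 * fromBlocks 1 (f * h - k * f) 0 1 =
      (1 : Matrix (I ⊕ I) (I ⊕ I) (MonoidAlgebra R G)) := by
    simp [fromBlocks_multiply]
  have c1 : Ctl (F.rel κ) (Sum.elim l l) (Sum.elim l l) (fromBlocks d f 0 (-d)) :=
    Ctl.fromBlocks cd cf (ctl_zero _ l l) cd.neg
  have c2 : Ctl (F.rel (κ + (κ + κ))) (Sum.elim l l) (Sum.elim l l)
      (fromBlocks (-k) 0 g h * fromBlocks 1 (-(f * h - k * f)) 0 1) :=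
    (Ctl.fromBlocks ck.neg (ctl_zero _ l l) cg ch).mul F (Ctl.fromBlocks (ctl_one F _ l)
      ((cf.mul F ch).sub (ck.mul F cf)).neg (ctl_zero _ l l) (ctl_one F _ l))
  have e5 : fromBlocks d f 0 (-d) *
      (fromBlocks (-k) 0 g h * fromBlocks 1 (-(f * h - k * f)) 0 1) +
      fromBlocks (-k) 0 g h * fromBlocks 1 (-(f * h - k * f)) 0 1 * fromBlocks d f 0 (-d) = 1 := by
    generalize fromBlocks d f 0 (-d) = dd at *
    generalize fromBlocks (-k) 0 g h = G0 at *
    generalize (fromBlocks 1 (f * h - k * f) 0 1 : Matrix (I ⊕ I) (I ⊕ I) _) = U at *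
    generalize (fromBlocks 1 (-(f * h - k * f)) 0 1 : Matrix (I ⊕ I) (I ⊕ I) _) = V at *
    have u1 : dd * U = U * dd := by
      rw [← e2, mul_add, add_mul, ← mul_assoc, e1, mul_assoc G0, e1, zero_mul, mul_zero, zero_add,
        add_zero, mul_assoc]
    have u2 : V * dd = dd * V := by
      rw [← mul_one (V * dd), ← e3, ← mul_assoc, mul_assoc V, u1, ← mul_assoc, e4, one_mul]
    rw [mul_assoc G0, u2, ← mul_assoc, ← mul_assoc, ← add_mul, e2, e3]
  generalize fromBlocks (-k) 0 g h * fromBlocks 1 (-(f * h - k * f)) 0 1 = Γ at g2 c2 e5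
  obtain ⟨i1, i2⟩ := CAlg_inv (CAlg_DN hN) g2 e1 e5
  obtain ⟨i3, i4⟩ := CAlg_pair CAlg_rj CAlg_jr CAlg_WW (CAlg_even CAlg_QW g1 g2) i1 i2
  have c3 := (c1.le F (Nat.le_add_right _ (κ + κ))).add c2
  refine ⟨_, _, i3, i4, (CAlg_ctl_comp F deg c3).1.le F (by nlinarith),
    (CAlg_ctl_comp F deg (c3.mul F (CAlg_ctl_geom F (c2.mul F c2).neg (N + 1 + 1)).2)).2.le F
      (le_of_eq (by ring)), fun t => ?_⟩
  have s1 : Dg deg 1 (s * (1 - ι * ε)) := CAlg_dg_mul hs (CAlg_dg_sub CAlg_dg_one g0) rfl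
  have s2 : ε * (s * (1 - ι * ε)) = 0 := by rw [← Matrix.mul_assoc, h4, Matrix.zero_mul]
  have s3 : (1 - ι * ε) * ι = 0 := by
    rw [Matrix.sub_mul, Matrix.mul_assoc, h1, Matrix.one_mul, Matrix.mul_one, sub_self]
  have s4 : s * (1 - ι * ε) * ι = 0 := by rw [Matrix.mul_assoc, s3, Matrix.mul_zero]
  have s5 : d * s * ι = 0 := by
    rw [eq_sub_of_add_eq h6, Matrix.sub_mul, s3, Matrix.mul_assoc, h3, Matrix.mul_zero, sub_zero]
  have s6 : d * (s * (1 - ι * ε)) + s * (1 - ι * ε) * d = 1 - ι * ε := by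
    rw [← mul_assoc, mul_sub, mul_one, ← Matrix.mul_assoc, s5, Matrix.zero_mul, sub_zero,
      mul_assoc, sub_mul, Matrix.mul_assoc ι, h2, Matrix.mul_zero, sub_zero, one_mul, h6]
  have s7 : f - ι * a * ε = d * (f * s + s * f * (ι * ε)) + (f * s + s * f * (ι * ε)) * d := by
    have u1 : ι * a * ε = ι * ε * f * (ι * ε) := by
      rw [Matrix.mul_assoc ι ε f, h7, ← Matrix.mul_assoc, ← Matrix.mul_assoc,
        Matrix.mul_assoc _ ε ι, h1, Matrix.mul_one]
    have u2 : ι * ε * d = 0 := by rw [Matrix.mul_assoc, h2, Matrix.mul_zero]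
    have u3 : d * (ι * ε) = 0 := by rw [← Matrix.mul_assoc, h3, Matrix.zero_mul]
    rw [u1]
    generalize ι * ε = p at h6 u2 u3 ⊢
    have u4 : d * (f * s) + f * s * d = f - f * p := by
      rw [← mul_assoc, hdf, mul_assoc, mul_assoc, ← mul_add, h6, mul_sub, mul_one]
    have u5 : d * (s * f * p) = f * p - p * f * p := by
      rw [← mul_assoc, ← mul_assoc, eq_sub_of_add_eq h6, sub_mul, sub_mul, sub_mul, sub_mul,
        one_mul, mul_assoc s d f, hdf, mul_assoc s, mul_assoc f d, u3, mul_zero, mul_zero, sub_zero]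
    rw [mul_add, add_mul, mul_assoc _ p d, u2, mul_zero, add_zero, add_right_comm, u4, u5]
    abel
  refine CAlg_final (b := b) hN hd s1 hι hε hdd h1 h2 h3 s2 s4 s6 m1 ?_ m3 m4
    (CAlg_conj hN hd hf (CAlg_mid hι hε a) (CAlg_dg_add (CAlg_dg_mul hf hs rfl)
      (CAlg_dg_mul (CAlg_dg_mul hs hf rfl) g0 rfl)) s7 g2
      (CAlg_dg_blocks s1 (CAlg_dg_zero _) (CAlg_mid hι hε b) (CAlg_dg_neg s1) rfl rfl) e1 e5
      (CAlg_model hab hba h1 h2 h3 s2 s4 s6) t)
  simp only [Matrix.map_sub _ (map_sub (aug R G)), Matrix.map_mul,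
    Matrix.map_one _ (map_zero (aug R G)) (map_one (aug R G)), m2, m3, m4]

end Pool.Agent.MP_f7db47_al.GN

end

section

/-!
The transfer.
-/

set_option linter.unusedSectionVars false

namespace Pool.Agent.MP_f7db47_al.GN

open Matrix

universe v

variable {R : Type v} [Ring R]

section Gen

variable {J V X Y Z : Type} [DecidableEq J] [Fintype J] {A : Type v} [Ring A]

/-- An integer matrix placed in the block `(i, j)`, times `m`. -/
noncomputable def CMainE (p : X → J × Finset V) (q : Y → J × Finset V) (i j : J)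
    (c : Finset V → (Finset V →₀ ℤ)) (m : A) : Matrix X Y A :=
  fun x y => if (p x).1 = i ∧ (q y).1 = j then c (q y).2 (p x).2 • m else 0

/-- Summation over the index type. -/
def CMainSum (A : Type v) [Ring A] [Fintype Y] (q : Y → J × Finset V)
    (S : J → Finset (Finset V)) : Prop :=
  ∀ F : J × Finset V → A, ∑ y, F (q y) = ∑ j, ∑ σ ∈ S j, F (j, σ)

/-- Composition through the simplices in `S`. -/
noncomputable def CMainC (S : Finset (Finset V)) (c c' : Finset V → (Finset V →₀ ℤ)) :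
    Finset V → (Finset V →₀ ℤ) :=
  fun ρ => ∑ σ ∈ S, c' ρ σ • c σ

/-- Block diagonal integer matrices. -/
noncomputable def CMainB (A : Type v) [Ring A] (p : X → J × Finset V) (q : Y → J × Finset V)
    (c : J → Finset V → (Finset V →₀ ℤ)) : Matrix X Y A :=
  ∑ j, CMainE p q j j (c j) (1 : A)

variable {p : X → J × Finset V} {q : Y → J × Finset V} {r : Z → J × Finset V}
  {S : J → Finset (Finset V)}

lemma CMainE_mul [Fintype Y] (hq : CMainSum A q S) (i j k : J)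
    (c c' : Finset V → (Finset V →₀ ℤ)) (m m' : A) :
    CMainE p q i j c m * CMainE q r j k c' m' = CMainE p r i k (CMainC (S j) c c') (m * m') := by
  ext x z
  rw [Matrix.mul_apply]
  refine (hq fun w => (if (p x).1 = i ∧ w.1 = j then c w.2 (p x).2 • m else 0) *
    (if w.1 = j ∧ (r z).1 = k then c' (r z).2 w.2 • m' else 0)).trans ?_
  rw [Finset.sum_eq_single j (fun b _ hb => by simp [hb]) (by simp)]
  unfold CMainE CMainC
  by_cases h1 : (p x).1 = i
  · by_cases h2 : (r z).1 = k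
    · simp only [h1, h2, and_self, if_true, Finsupp.finsetSum_apply, Finsupp.smul_apply,
        Finset.sum_smul, smul_mul_smul_comm, smul_eq_mul, mul_comm]
    · simp [h2]
  · simp [h1]

lemma CMainE_mul_ne [Fintype Y] {i j j' k : J} (h : j ≠ j')
    (c c' : Finset V → (Finset V →₀ ℤ)) (m m' : A) :
    CMainE p q i j c m * CMainE q r j' k c' m' = 0 := by
  ext x z
  rw [Matrix.mul_apply]
  refine Finset.sum_eq_zero fun y _ => ?_
  unfold CMainE
  by_cases h1 : (q y).1 = j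
  · have h2 : (q y).1 ≠ j' := h1 ▸ h
    simp [h2]
  · simp [h1]

lemma CMainE_congr {i j : J} {c c' : Finset V → (Finset V →₀ ℤ)} (m : A)
    (h : ∀ x y, (p x).1 = i → (q y).1 = j → c (q y).2 (p x).2 = c' (q y).2 (p x).2) :
    CMainE p q i j c m = CMainE p q i j c' m := by
  ext x y
  unfold CMainE
  split_ifs with h1
  · rw [h x y h1.1 h1.2]
  · rfl

lemma CMainE_add (i j : J) (c c' : Finset V → (Finset V →₀ ℤ)) (m : A) :
    CMainE p q i j c m + CMainE p q i j c' m = CMainE p q i j (c + c') m := by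
  ext x y
  rw [Matrix.add_apply]
  unfold CMainE
  split_ifs with h1
  · simp [add_smul]
  · simp

lemma CMainE_zero (i j : J) (m : A) : CMainE p q i j 0 m = 0 := by
  ext x y
  simp [CMainE]

lemma CMainE_add' (i j : J) (c : Finset V → (Finset V →₀ ℤ)) (m m' : A) :
    CMainE p q i j c (m + m') = CMainE p q i j c m + CMainE p q i j c m' := by
  ext x y
  rw [Matrix.add_apply]
  unfold CMainE
  split_ifs with h1
  · simp
  · simp

lemma CMainE_zero' (i j : J) (c : Finset V → (Finset V →₀ ℤ)) : CMainE p q i j c (0 : A) = 0 := by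
  ext x y
  simp [CMainE]

lemma CMainB_mul_E [Fintype Y] (hq : CMainSum A q S) (j k : J)
    (c : J → Finset V → (Finset V →₀ ℤ)) (c' : Finset V → (Finset V →₀ ℤ)) (m : A) :
    CMainB A p q c * CMainE q r j k c' m = CMainE p r j k (CMainC (S j) (c j) c') m := by
  rw [CMainB, Matrix.sum_mul, Finset.sum_eq_single j (fun b _ hb => CMainE_mul_ne hb _ _ _ _)
    (by simp), CMainE_mul hq, one_mul]

lemma CMainE_mul_B [Fintype Y] (hq : CMainSum A q S) (i j : J)
    (c : Finset V → (Finset V →₀ ℤ)) (c' : J → Finset V → (Finset V →₀ ℤ)) (m : A) :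
    CMainE p q i j c m * CMainB A q r c' = CMainE p r i j (CMainC (S j) c (c' j)) m := by
  rw [CMainB, Matrix.mul_sum, Finset.sum_eq_single j
    (fun b _ hb => CMainE_mul_ne (Ne.symm hb) _ _ _ _) (by simp), CMainE_mul hq, mul_one]

lemma CMainB_mul_B [Fintype Y] (hq : CMainSum A q S) (c c' : J → Finset V → (Finset V →₀ ℤ)) :
    CMainB A p q c * CMainB A q r c' = CMainB A p r fun j => CMainC (S j) (c j) (c' j) := by
  conv_lhs => rw [CMainB.eq_1 A q r, Matrix.mul_sum]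
  simp only [CMainB_mul_E hq]
  rfl

lemma CMainB_congr {c c' : J → Finset V → (Finset V →₀ ℤ)}
    (h : ∀ j x y, (p x).1 = j → (q y).1 = j → c j (q y).2 (p x).2 = c' j (q y).2 (p x).2) :
    CMainB A p q c = CMainB A p q c' :=
  Finset.sum_congr rfl fun j _ => CMainE_congr _ (h j)

lemma CMainB_add (c c' : J → Finset V → (Finset V →₀ ℤ)) :
    CMainB A p q c + CMainB A p q c' = CMainB A p q (c + c') := by
  simp only [CMainB, ← Finset.sum_add_distrib, CMainE_add]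
  rfl

lemma CMainB_zero : CMainB A p q 0 = 0 := by
  simp only [CMainB, Pi.zero_apply, CMainE_zero, Finset.sum_const_zero]

lemma CMainB_one [DecidableEq X] (hp : Function.Injective p) :
    CMainB A p p (fun _ σ => Finsupp.single σ 1) = 1 := by
  classical
  ext x y
  rw [CMainB, Matrix.sum_apply, Finset.sum_eq_single (p x).1
    (fun b _ hb => by simp [CMainE, Ne.symm hb]) (by simp)]
  by_cases h : x = y
  · subst h
    simp [CMainE]
  · rw [Matrix.one_apply_ne h]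
    unfold CMainE
    split_ifs with h1
    · rw [Finsupp.single_apply, if_neg, zero_smul]
      exact fun h2 => h (hp (Prod.ext h1.2.symm h2.symm))
    · rfl

/-- The nonzero entries satisfy `Q`. -/
def CMainZ (Q : X → Y → Prop) (M : Matrix X Y A) : Prop := ∀ x y, M x y ≠ 0 → Q x y

lemma CMainZ_sum {Q : X → Y → Prop} {ι : Type} (s : Finset ι) (f : ι → Matrix X Y A)
    (h : ∀ i ∈ s, CMainZ Q (f i)) : CMainZ Q (∑ i ∈ s, f i) := by
  intro x y hxy
  rw [Matrix.sum_apply] at hxy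
  obtain ⟨i, hi, h0⟩ := Finset.exists_ne_zero_of_sum_ne_zero hxy
  exact h i hi x y h0

lemma CMainZ_E {Q : X → Y → Prop} {i j : J} {c : Finset V → (Finset V →₀ ℤ)} (m : A)
    (h : ∀ x y, (p x).1 = i → (q y).1 = j → c (q y).2 (p x).2 ≠ 0 → Q x y) :
    CMainZ Q (CMainE p q i j c m) := by
  intro x y hxy
  unfold CMainE at hxy
  split_ifs at hxy with h1
  · exact h x y h1.1 h1.2 fun h0 => hxy (by rw [h0, zero_smul])
  · exact absurd rfl hxy

lemma CMainB_map (c : J → Finset V → (Finset V →₀ ℤ)) (f : A →+* A) :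
    (CMainB A p q c).map f = CMainB A p q c := by
  ext x y
  simp only [CMainB, Matrix.map_apply, Matrix.sum_apply, map_sum]
  refine Finset.sum_congr rfl fun j _ => ?_
  unfold CMainE
  split_ifs
  · simp
  · simp

variable {G : Type} [Group G]

lemma CMain_msup_sum {U : X → Y → Set G} {ι : Type} (s : Finset ι)
    (f : ι → Matrix X Y (MonoidAlgebra R G)) (h : ∀ i ∈ s, MSup2 U (f i)) :
    MSup2 U (∑ i ∈ s, f i) :=
  Finset.sum_induction f (MSup2 U) (fun _ _ => MSup2.add) (msup2_zero U) h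

lemma CMain_msup_E {U : X → Y → Set G} {i j : J} {c : Finset V → (Finset V →₀ ℤ)} {g : G} (u : R)
    (h : ∀ x y, (p x).1 = i → (q y).1 = j → c (q y).2 (p x).2 ≠ 0 → g ∈ U x y) :
    MSup2 U (CMainE p q i j c (MonoidAlgebra.single g u)) := by
  intro x y
  unfold CMainE
  split_ifs with h1
  · by_cases h0 : c (q y).2 (p x).2 = 0
    · rw [h0, zero_smul]
      exact sup_zero _
    · rw [MonoidAlgebra.smul_single]
      exact sup_single (h x y h1.1 h1.2 h0) _
  · exact sup_zero _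

/-- Twisting one entry. -/
noncomputable def CMainU (p : X → J × Finset V) (q : Y → J × Finset V) (i j : J)
    (c : G → Finset V → (Finset V →₀ ℤ)) :
    MonoidAlgebra R G →+ Matrix X Y (MonoidAlgebra R G) :=
  AddMonoidHom.mk' (fun u => u.coeff.sum fun g t => CMainE p q i j (c g) (MonoidAlgebra.single g t))
    fun u w => by
      rw [MonoidAlgebra.coeff_add]
      exact Finsupp.sum_add_index' (fun g => by rw [MonoidAlgebra.single_zero, CMainE_zero'])
        fun g t t' => by rw [MonoidAlgebra.single_add, CMainE_add']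

lemma CMainU_single (i j : J) (c : G → Finset V → (Finset V →₀ ℤ)) (g : G) (t : R) :
    CMainU p q i j c (MonoidAlgebra.single g t) = CMainE p q i j (c g) (MonoidAlgebra.single g t) :=
  Finsupp.sum_single_index (h := fun g t => CMainE p q i j (c g) (MonoidAlgebra.single g t))
    (by rw [MonoidAlgebra.single_zero, CMainE_zero'])

/-- The twisted matrix. -/
noncomputable def CMainT (p : X → J × Finset V) (q : Y → J × Finset V)
    (a : Matrix J J (MonoidAlgebra R G)) (c : J → G → J → Finset V → (Finset V →₀ ℤ)) :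
    Matrix X Y (MonoidAlgebra R G) :=
  ∑ i, ∑ j, ∑ g ∈ (a i j).coeff.support,
    CMainE p q i j (c i g j) (MonoidAlgebra.single g ((a i j).coeff g))

/-- The twisted product. -/
noncomputable def CMainW (p : X → J × Finset V) (q : Y → J × Finset V)
    (a b : Matrix J J (MonoidAlgebra R G))
    (e : J → G → J → G → J → Finset V → (Finset V →₀ ℤ)) : Matrix X Y (MonoidAlgebra R G) :=
  ∑ i, ∑ j, ∑ g ∈ (a i j).coeff.support, ∑ k, ∑ g' ∈ (b j k).coeff.support,
    CMainE p q i k (e i g j g' k) (MonoidAlgebra.single (g * g') ((a i j).coeff g * (b j k).coeff g'))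

variable {a b : Matrix J J (MonoidAlgebra R G)}

lemma CMainT_mul_T [Fintype Y] (hq : CMainSum (MonoidAlgebra R G) q S)
    (c c' : J → G → J → Finset V → (Finset V →₀ ℤ)) :
    CMainT p q a c * CMainT q r b c' =
      CMainW p r a b fun i g j g' k => CMainC (S j) (c i g j) (c' j g' k) := by
  rw [CMainT, CMainW]
  simp only [Matrix.sum_mul]
  refine Finset.sum_congr rfl fun i _ => Finset.sum_congr rfl fun j _ =>
    Finset.sum_congr rfl fun g _ => ?_
  rw [CMainT, Matrix.mul_sum, Finset.sum_eq_single j (fun j' _ hj => by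
    simp only [Matrix.mul_sum, CMainE_mul_ne (Ne.symm hj), Finset.sum_const_zero]) (by simp)]
  simp only [Matrix.mul_sum, CMainE_mul hq, MonoidAlgebra.single_mul_single]

lemma CMainT_mul (c : J → G → J → Finset V → (Finset V →₀ ℤ)) :
    CMainT p q (a * b) c = CMainW p q a b fun i g _ g' k => c i (g * g') k := by
  rw [CMainT, CMainW]
  refine Finset.sum_congr rfl fun i _ => ?_
  have h : ∀ k, ∑ g ∈ ((a * b) i k).coeff.support,
      CMainE p q i k (c i g k) (MonoidAlgebra.single g (((a * b) i k).coeff g)) =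
      ∑ j, ∑ g ∈ (a i j).coeff.support, ∑ g' ∈ (b j k).coeff.support,
        CMainE p q i k (c i (g * g') k)
          (MonoidAlgebra.single (g * g') ((a i j).coeff g * (b j k).coeff g')) := fun k => by
    change CMainU p q i k (fun g => c i g k) ((a * b) i k) = _
    rw [Matrix.mul_apply, map_sum]
    refine Finset.sum_congr rfl fun j _ => ?_
    rw [MonoidAlgebra.mul_def]
    simp only [Finsupp.sum, map_sum, CMainU_single]
  simp only [h]
  rw [Finset.sum_comm]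
  exact Finset.sum_congr rfl fun j _ => Finset.sum_comm

lemma CMainT_one (c : J → G → J → Finset V → (Finset V →₀ ℤ)) :
    CMainT p q (1 : Matrix J J (MonoidAlgebra R G)) c =
      CMainB (MonoidAlgebra R G) p q fun j => c j 1 j := by
  rw [CMainT, CMainB]
  refine Finset.sum_congr rfl fun i _ => ?_
  rw [Finset.sum_eq_single i (fun j _ hj => by simp [Matrix.one_apply_ne' hj]) (by simp)]
  change CMainU p q i i (fun g => c i g i) ((1 : Matrix J J (MonoidAlgebra R G)) i i) = _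
  rw [Matrix.one_apply_eq, MonoidAlgebra.one_def, CMainU_single]

lemma CMainT_base (c : J → G → J → Finset V → (Finset V →₀ ℤ)) (hc : ∀ i g j, c i g j ∅ ∅ = 1) :
    CMainT (fun j => (j, (∅ : Finset V))) (fun j => (j, (∅ : Finset V))) a c = a := by
  ext1 x y
  simp only [CMainT, Matrix.sum_apply, CMainE, hc, one_smul]
  rw [Finset.sum_eq_single x (fun i _ hi => by simp [Ne.symm hi]) (by simp),
    Finset.sum_eq_single y (fun i _ hi => by simp [Ne.symm hi]) (by simp)]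
  simp only [and_self, if_true]
  exact MonoidAlgebra.sum_coeff_single _

lemma CMainB_mul_T [Fintype Y] (hq : CMainSum (MonoidAlgebra R G) q S)
    (c : J → Finset V → (Finset V →₀ ℤ)) (c' : J → G → J → Finset V → (Finset V →₀ ℤ)) :
    CMainB (MonoidAlgebra R G) p q c * CMainT q r a c' = CMainT p r a fun i g j => CMainC (S i) (c i) (c' i g j) := by
  unfold CMainT
  simp only [Matrix.mul_sum, CMainB_mul_E hq]

lemma CMainT_mul_B [Fintype Y] (hq : CMainSum (MonoidAlgebra R G) q S)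
    (c : J → G → J → Finset V → (Finset V →₀ ℤ)) (c' : J → Finset V → (Finset V →₀ ℤ)) :
    CMainT p q a c * CMainB (MonoidAlgebra R G) q r c' = CMainT p r a fun i g j => CMainC (S j) (c i g j) (c' j) := by
  unfold CMainT
  simp only [Matrix.sum_mul, CMainE_mul_B hq]

lemma CMainB_mul_W [Fintype Y] (hq : CMainSum (MonoidAlgebra R G) q S)
    (c : J → Finset V → (Finset V →₀ ℤ)) (e : J → G → J → G → J → Finset V → (Finset V →₀ ℤ)) :
    CMainB (MonoidAlgebra R G) p q c * CMainW q r a b e =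
      CMainW p r a b fun i g j g' k => CMainC (S i) (c i) (e i g j g' k) := by
  unfold CMainW
  simp only [Matrix.mul_sum, CMainB_mul_E hq]

lemma CMainW_mul_B [Fintype Y] (hq : CMainSum (MonoidAlgebra R G) q S)
    (e : J → G → J → G → J → Finset V → (Finset V →₀ ℤ)) (c : J → Finset V → (Finset V →₀ ℤ)) :
    CMainW p q a b e * CMainB (MonoidAlgebra R G) q r c =
      CMainW p r a b fun i g j g' k => CMainC (S k) (e i g j g' k) (c k) := by
  unfold CMainW
  simp only [Matrix.sum_mul, CMainE_mul_B hq]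

lemma CMainW_add (e e' : J → G → J → G → J → Finset V → (Finset V →₀ ℤ)) :
    CMainW p q a b e + CMainW p q a b e' = CMainW p q a b (e + e') := by
  simp only [CMainW, ← Finset.sum_add_distrib, CMainE_add]
  rfl

lemma CMainT_congr {c c' : J → G → J → Finset V → (Finset V →₀ ℤ)}
    (h : ∀ i g j, (a i j).coeff g ≠ 0 → ∀ x y, (p x).1 = i → (q y).1 = j →
      c i g j (q y).2 (p x).2 = c' i g j (q y).2 (p x).2) : CMainT p q a c = CMainT p q a c' :=
  Finset.sum_congr rfl fun i _ => Finset.sum_congr rfl fun j _ => Finset.sum_congr rfl fun g hg =>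
    CMainE_congr _ (h i g j (Finsupp.mem_support_iff.1 hg))

lemma CMainW_congr {e e' : J → G → J → G → J → Finset V → (Finset V →₀ ℤ)}
    (h : ∀ i g j g' k, (a i j).coeff g ≠ 0 → (b j k).coeff g' ≠ 0 → ∀ x y, (p x).1 = i →
      (q y).1 = k → e i g j g' k (q y).2 (p x).2 = e' i g j g' k (q y).2 (p x).2) :
    CMainW p q a b e = CMainW p q a b e' :=
  Finset.sum_congr rfl fun i _ => Finset.sum_congr rfl fun j _ => Finset.sum_congr rfl fun g hg =>
    Finset.sum_congr rfl fun k _ => Finset.sum_congr rfl fun g' hg' =>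
      CMainE_congr _ (h i g j g' k (Finsupp.mem_support_iff.1 hg) (Finsupp.mem_support_iff.1 hg'))

lemma CMainZ_B {Q : X → Y → Prop} {c : J → Finset V → (Finset V →₀ ℤ)}
    (h : ∀ j x y, (p x).1 = j → (q y).1 = j → c j (q y).2 (p x).2 ≠ 0 → Q x y) :
    CMainZ Q (CMainB A p q c) :=
  CMainZ_sum _ _ fun j _ => CMainZ_E _ (h j)

lemma CMainZ_T {Q : X → Y → Prop} {c : J → G → J → Finset V → (Finset V →₀ ℤ)}
    (h : ∀ i g j, (a i j).coeff g ≠ 0 → ∀ x y, (p x).1 = i → (q y).1 = j →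
      c i g j (q y).2 (p x).2 ≠ 0 → Q x y) : CMainZ Q (CMainT p q a c) :=
  CMainZ_sum _ _ fun i _ => CMainZ_sum _ _ fun j _ => CMainZ_sum _ _ fun g hg =>
    CMainZ_E _ (h i g j (Finsupp.mem_support_iff.1 hg))

lemma CMainZ_W {Q : X → Y → Prop} {e : J → G → J → G → J → Finset V → (Finset V →₀ ℤ)}
    (h : ∀ i g j g' k, (a i j).coeff g ≠ 0 → (b j k).coeff g' ≠ 0 → ∀ x y, (p x).1 = i →
      (q y).1 = k → e i g j g' k (q y).2 (p x).2 ≠ 0 → Q x y) : CMainZ Q (CMainW p q a b e) :=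
  CMainZ_sum _ _ fun i _ => CMainZ_sum _ _ fun j _ => CMainZ_sum _ _ fun g hg =>
    CMainZ_sum _ _ fun k _ => CMainZ_sum _ _ fun g' hg' =>
      CMainZ_E _ (h i g j g' k (Finsupp.mem_support_iff.1 hg) (Finsupp.mem_support_iff.1 hg'))

lemma CMain_msup_B {U : X → Y → Set G} {c : J → Finset V → (Finset V →₀ ℤ)}
    (h : ∀ j x y, (p x).1 = j → (q y).1 = j → c j (q y).2 (p x).2 ≠ 0 → 1 ∈ U x y) :
    MSup2 U (CMainB (MonoidAlgebra R G) p q c) :=
  CMain_msup_sum _ _ fun j _ => CMain_msup_E (g := 1) (1 : R) (h j)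

lemma CMain_msup_T {U : X → Y → Set G} {c : J → G → J → Finset V → (Finset V →₀ ℤ)}
    (h : ∀ i g j, (a i j).coeff g ≠ 0 → ∀ x y, (p x).1 = i → (q y).1 = j →
      c i g j (q y).2 (p x).2 ≠ 0 → g ∈ U x y) : MSup2 U (CMainT p q a c) :=
  CMain_msup_sum _ _ fun i _ => CMain_msup_sum _ _ fun j _ => CMain_msup_sum _ _ fun g hg =>
    CMain_msup_E _ (h i g j (Finsupp.mem_support_iff.1 hg))

lemma CMain_msup_W {U : X → Y → Set G} {e : J → G → J → G → J → Finset V → (Finset V →₀ ℤ)}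
    (h : ∀ i g j g' k, (a i j).coeff g ≠ 0 → (b j k).coeff g' ≠ 0 → ∀ x y, (p x).1 = i →
      (q y).1 = k → e i g j g' k (q y).2 (p x).2 ≠ 0 → g * g' ∈ U x y) :
    MSup2 U (CMainW p q a b e) :=
  CMain_msup_sum _ _ fun i _ => CMain_msup_sum _ _ fun j _ => CMain_msup_sum _ _ fun g hg =>
    CMain_msup_sum _ _ fun k _ => CMain_msup_sum _ _ fun g' hg' =>
      CMain_msup_E _ (h i g j g' k (Finsupp.mem_support_iff.1 hg) (Finsupp.mem_support_iff.1 hg'))

end Gen

section Cx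

variable {V : Type} [LinearOrder V] {Adj : V → V → Prop} {B B' σ τ : Finset V}

open Classical in
/-- The nonempty cliques. -/
noncomputable def CMainS (Adj : V → V → Prop) (B : Finset V) : Finset (Finset V) :=
  B.powerset.filter fun σ => Clq Adj B σ ∧ σ.Nonempty

lemma CMain_mem_S : σ ∈ CMainS Adj B ↔ Clq Adj B σ ∧ σ.Nonempty := by
  simp only [CMainS, Finset.mem_filter, Finset.mem_powerset, and_iff_right_iff_imp]
  exact fun h => h.1.1

lemma CMain_card_S {n M : ℕ} (hn : ∀ σ, Clq Adj B σ → σ.card ≤ n) (hM : B.card ≤ M) :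
    (CMainS Adj B).card ≤ (M + 1) ^ n := by
  have h : CMainS Adj B ⊆ (Finset.range (n + 1)).biUnion fun k => B.powersetCard k := by
    intro σ hσ
    have h1 := (CMain_mem_S.1 hσ).1
    exact Finset.mem_biUnion.2 ⟨σ.card, Finset.mem_range.2 (Nat.lt_succ_of_le (hn σ h1)),
      Finset.mem_powersetCard.2 ⟨h1.1, rfl⟩⟩
  refine (Finset.card_le_card h).trans (Finset.card_biUnion_le.trans ?_)
  rw [add_pow]
  refine Finset.sum_le_sum fun k hk => ?_
  rw [Finset.card_powersetCard, one_pow, mul_one]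
  have h2 : 1 ≤ n.choose k := Nat.choose_pos (Nat.le_of_lt_succ (Finset.mem_range.1 hk))
  calc B.card.choose k ≤ B.card ^ k := Nat.choose_le_pow _ _
    _ ≤ M ^ k := Nat.pow_le_pow_left hM k
    _ ≤ M ^ k * n.choose k := Nat.le_mul_of_pos_right _ h2

lemma CMain_clq_mono (h : Clq Adj B σ) (hB : B ⊆ B') : Clq Adj B' σ := ⟨h.1.trans hB, h.2⟩

lemma CMain_clq_sub (h : Clq Adj B σ) (hτ : τ ⊆ σ) : Clq Adj B τ :=
  ⟨hτ.trans h.1, fun x hx y hy => h.2 x (hτ hx) y (hτ hy)⟩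

lemma CMain_bd1 (h : bd1 σ τ ≠ 0) : τ ⊆ σ ∧ τ.card + 1 = σ.card := by
  rw [bd1, Finsupp.finsetSum_apply] at h
  obtain ⟨v, hv, h0⟩ := Finset.exists_ne_zero_of_sum_ne_zero h
  have h1 : τ = σ.erase v := (Finsupp.single_apply_ne_zero.1 h0).1
  subst h1
  exact ⟨Finset.erase_subset _ _, Finset.card_erase_add_one hv⟩

lemma CMain_bd1_empty : bd1 (∅ : Finset V) = 0 := by simp [bd1]

lemma CMain_bd_single (σ : Finset V) : bd (Finsupp.single σ 1) = bd1 σ := by simp [bd, lin]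

lemma CMain_C (c c' : Finset V → (Finset V →₀ ℤ)) (ρ : Finset V)
    (h : ∀ σ, c' ρ σ ≠ 0 → Clq Adj B σ) :
    CMainC (CMainS Adj B) c c' ρ = lin c (c' ρ) - c' ρ ∅ • c ∅ := by
  have h0 : (∅ : Finset V) ∉ CMainS Adj B := fun h1 => by simpa using (CMain_mem_S.1 h1).2
  rw [eq_sub_iff_add_eq', CMainC, ← Finset.sum_insert (f := fun σ => c' ρ σ • c σ) h0, lin,
    Finsupp.linearCombination_apply]
  refine (Finsupp.sum_of_support_subset _ (fun σ hσ => ?_) (fun σ (z : ℤ) => z • c σ)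
    fun _ _ => zero_smul _ _).symm
  rcases σ.eq_empty_or_nonempty with rfl | h1
  · exact Finset.mem_insert_self _ _
  · exact Finset.mem_insert_of_mem (CMain_mem_S.2 ⟨h σ (Finsupp.mem_support_iff.1 hσ), h1⟩)

lemma CMain_C_bd (c' : Finset V → (Finset V →₀ ℤ)) (ρ : Finset V)
    (h : ∀ σ, c' ρ σ ≠ 0 → Clq Adj B σ) : CMainC (CMainS Adj B) bd1 c' ρ = bd (c' ρ) := by
  rw [CMain_C _ _ _ h, CMain_bd1_empty, smul_zero, sub_zero, bd]

lemma CMain_C_bd' (c : Finset V → (Finset V →₀ ℤ)) (h : Clq Adj B σ) :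
    CMainC (CMainS Adj B) c bd1 σ = lin c (bd1 σ) - bd1 σ ∅ • c ∅ :=
  CMain_C _ _ _ fun _ hτ => CMain_clq_sub h (CMain_bd1 hτ).1

lemma CMain_ch_empty {m : ℕ} {c : Finset V →₀ ℤ} (h : Ch Adj B m c) (hm : 0 < m) : c ∅ = 0 := by
  by_contra h0
  have := (h _ h0).2
  rw [Finset.card_empty] at this
  omega

end Cx

section Tr

variable {G J V : Type} [Group G] [Fintype J] [DecidableEq J] [LinearOrder V]
  {r₁ r₂ : J → G → J → Prop} {K : J → Finset V} {Adj : J → V → V → Prop}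
  {C₁ C₂ : J → G → J → Finset V → Finset V} {n : ℕ}

/-- Control of the given matrices. -/
def CMainR (r : J → G → J → Prop) (a : Matrix J J (MonoidAlgebra R G)) : Prop :=
  ∀ i j g, (a i j).coeff g ≠ 0 → r i g j

/-- The index set. -/
noncomputable def CMainP (K : J → Finset V) (Adj : J → V → V → Prop) : Finset (J × Finset V) :=
  (Finset.univ ×ˢ Finset.univ.biUnion fun j => CMainS (Adj j) (K j)).filter
    fun x => x.2 ∈ CMainS (Adj x.1) (K x.1)

lemma CMain_mem_P (x : J × Finset V) :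
    x ∈ CMainP K Adj ↔ x.1 ∈ Finset.univ ∧ x.2 ∈ CMainS (Adj x.1) (K x.1) := by
  simp only [CMainP, Finset.mem_filter, Finset.mem_product, Finset.mem_univ, true_and,
    Finset.mem_biUnion, and_iff_right_iff_imp]
  exact fun h => ⟨_, h⟩

lemma CMain_P (x : CMainP K Adj) : Clq (Adj x.1.1) (K x.1.1) x.1.2 ∧ x.1.2.Nonempty :=
  CMain_mem_S.1 ((CMain_mem_P _).1 x.2).2

lemma CMain_sum_P (A : Type v) [Ring A] :
    CMainSum A (Subtype.val : CMainP K Adj → _) fun j => CMainS (Adj j) (K j) := fun F => by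
  rw [Finset.sum_coe_sort _ F]
  exact Finset.sum_finset_product _ _ _ CMain_mem_P

lemma CMain_sum_J (A : Type v) [Ring A] :
    CMainSum A (fun j : J => (j, (∅ : Finset V))) fun _ => {∅} := fun F => by simp

lemma CMain_card_P {M : ℕ} (hn : ∀ j σ, Clq (Adj j) (K j) σ → σ.card ≤ n)
    (hM : ∀ j, (K j).card ≤ M) : Fintype.card (CMainP K Adj) ≤ Fintype.card J * (M + 1) ^ n := by
  rw [Fintype.card_coe, Finset.card_eq_sum_ones,
    Finset.sum_finset_product _ _ (fun j => CMainS (Adj j) (K j)) CMain_mem_P,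
    ← Finset.card_univ, ← smul_eq_mul, ← Finset.sum_const]
  refine Finset.sum_le_sum fun j _ => ?_
  rw [← Finset.card_eq_sum_ones]
  exact CMain_card_S (hn j) (hM j)

/-- The label of a simplex. -/
noncomputable def CMainL (x : CMainP K Adj) : {p : J × V // p.2 ∈ K p.1} :=
  ⟨(x.1.1, x.1.2.min' (CMain_P x).2), (CMain_P x).1.1 (Finset.min'_mem _ (CMain_P x).2)⟩

lemma CMainL_mem (x : CMainP K Adj) : (CMainL x).1.2 ∈ x.1.2 := Finset.min'_mem _ (CMain_P x).2

lemma CMain_dg {A : Type v} [Ring A] {c : ℤ} {N : Matrix (CMainP K Adj) (CMainP K Adj) A}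
    (h : CMainZ (fun x y => (x.1.2.card : ℤ) = y.1.2.card + c) N) :
    Dg (fun x : CMainP K Adj => x.1.2.card - 1) c N := fun x y hxy => by
  have h1 := h x y hxy
  have h2 := (CMain_P x).2.card_pos
  have h3 := (CMain_P y).2.card_pos
  simp only at h1 ⊢
  omega

variable {φ : J → G → J → Finset V → (Finset V →₀ ℤ)}
  {H : J → G → J → G → J → Finset V → (Finset V →₀ ℤ)} {a b : Matrix J J (MonoidAlgebra R G)}

lemma CMain_chain (hD : TrD r₁ r₂ K Adj C₁ C₂ n) (h0 : ∀ i g j, φ i g j ∅ = Finsupp.single ∅ 1)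
    (hφ : ∀ i g j σ, r₂ i g j → Clq (Adj j) (K j) σ → σ.Nonempty →
      Ch (Adj i) (C₁ i g j σ) σ.card (φ i g j σ) ∧ bd (φ i g j σ) = lin (φ i g j) (bd1 σ))
    (ha : CMainR r₁ a) :
    CMainB (MonoidAlgebra R G) (Subtype.val : CMainP K Adj → _) (Subtype.val : CMainP K Adj → _)
      (fun _ => bd1) * CMainT (Subtype.val : CMainP K Adj → _) (Subtype.val : CMainP K Adj → _) a φ =
    CMainT (Subtype.val : CMainP K Adj → _) (Subtype.val : CMainP K Adj → _) a φ *
      CMainB (MonoidAlgebra R G) (Subtype.val : CMainP K Adj → _) (Subtype.val : CMainP K Adj → _)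
        (fun _ => bd1) := by
  rw [CMainB_mul_T (CMain_sum_P _), CMainT_mul_B (CMain_sum_P _)]
  refine CMainT_congr ?_
  rintro _ g _ hg x y rfl rfl
  have hr := hD.r12 (ha _ _ g hg)
  obtain ⟨h1, h2⟩ := hφ _ g _ _ hr (CMain_P y).1 (CMain_P y).2
  rw [CMain_C_bd _ _ fun σ hσ => CMain_clq_mono (h1 σ hσ).1 (hD.sub₁ _ hr),
    CMain_C_bd' _ (CMain_P y).1, h2, h0]
  simp [(CMain_P x).2.ne_empty.symm]

lemma CMain_aug (hD : TrD r₁ r₂ K Adj C₁ C₂ n) (h0 : ∀ i g j, φ i g j ∅ = Finsupp.single ∅ 1)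
    (hφ : ∀ i g j σ, r₂ i g j → Clq (Adj j) (K j) σ → σ.Nonempty →
      Ch (Adj i) (C₁ i g j σ) σ.card (φ i g j σ) ∧ bd (φ i g j σ) = lin (φ i g j) (bd1 σ))
    (ha : CMainR r₁ a) :
    CMainB (MonoidAlgebra R G) (fun j => (j, (∅ : Finset V))) (Subtype.val : CMainP K Adj → _)
      (fun _ => bd1) * CMainT (Subtype.val : CMainP K Adj → _) (Subtype.val : CMainP K Adj → _) a φ =
    a * CMainB (MonoidAlgebra R G) (fun j => (j, (∅ : Finset V))) (Subtype.val : CMainP K Adj → _)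
        (fun _ => bd1) := by
  conv_rhs => rw [← CMainT_base (a := a) φ fun i g j => by simp [h0]]
  rw [CMainB_mul_T (CMain_sum_P _), CMainT_mul_B (CMain_sum_J _)]
  refine CMainT_congr ?_
  rintro _ g _ hg x y rfl rfl
  have hr := hD.r12 (ha _ _ g hg)
  obtain ⟨h1, h2⟩ := hφ _ g _ _ hr (CMain_P y).1 (CMain_P y).2
  rw [CMain_C_bd _ _ fun σ hσ => CMain_clq_mono (h1 σ hσ).1 (hD.sub₁ _ hr), h2,
    ← sub_add_cancel (lin _ _) (bd1 y.1.2 ∅ • φ x g y.1.1 ∅), ← CMain_C_bd' _ (CMain_P y).1]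
  simp only [CMainC, Finset.sum_singleton, Finsupp.add_apply, Finsupp.finsetSum_apply,
    add_eq_right]
  refine Finset.sum_eq_zero fun σ hσ => ?_
  obtain ⟨h3, h4⟩ := CMain_mem_S.1 hσ
  rw [Finsupp.smul_apply, CMain_ch_empty (hφ _ g _ σ hr h3 h4).1 h4.card_pos, smul_zero]

lemma CMain_htpy (hD : TrD r₁ r₂ K Adj C₁ C₂ n) (h1 : ∀ j σ, φ j 1 j σ = Finsupp.single σ 1)
    (hφ : ∀ i g j σ, r₂ i g j → Clq (Adj j) (K j) σ → σ.Nonempty →
      Ch (Adj i) (C₁ i g j σ) σ.card (φ i g j σ) ∧ bd (φ i g j σ) = lin (φ i g j) (bd1 σ))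
    (H0 : ∀ i g j g' k, H i g j g' k ∅ = 0)
    (hH : ∀ i g j g' k σ, r₁ i g j → r₁ j g' k → Clq (Adj k) (K k) σ → σ.Nonempty →
      Ch (Adj i) (C₂ i (g * g') k σ) (σ.card + 1) (H i g j g' k σ) ∧
      bd (H i g j g' k σ) + lin (H i g j g' k) (bd1 σ) =
        lin (φ i g j) (φ j g' k σ) - φ i (g * g') k σ)
    (ha : CMainR r₁ a) (hb : CMainR r₁ b) (hab : a * b = 1) :
    CMainT (Subtype.val : CMainP K Adj → _) (Subtype.val : CMainP K Adj → _) a φ *
      CMainT (Subtype.val : CMainP K Adj → _) (Subtype.val : CMainP K Adj → _) b φ =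
    1 + CMainB (MonoidAlgebra R G) (Subtype.val : CMainP K Adj → _)
      (Subtype.val : CMainP K Adj → _) (fun _ => bd1) *
      CMainW (Subtype.val : CMainP K Adj → _) (Subtype.val : CMainP K Adj → _) a b H +
      CMainW (Subtype.val : CMainP K Adj → _) (Subtype.val : CMainP K Adj → _) a b H *
      CMainB (MonoidAlgebra R G) (Subtype.val : CMainP K Adj → _) (Subtype.val : CMainP K Adj → _)
        (fun _ => bd1) := by
  have e1 : (1 : Matrix (CMainP K Adj) (CMainP K Adj) (MonoidAlgebra R G)) =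
      CMainT Subtype.val Subtype.val (a * b) φ := by
    rw [hab, CMainT_one, ← CMainB_one Subtype.val_injective]
    exact CMainB_congr fun j x y _ _ => by rw [h1]
  rw [e1, CMainT_mul, CMainT_mul_T (CMain_sum_P _), CMainB_mul_W (CMain_sum_P _),
    CMainW_mul_B (CMain_sum_P _), CMainW_add, CMainW_add]
  refine CMainW_congr ?_
  rintro _ g j g' _ hg hg' x y rfl rfl
  have hr := ha _ _ g hg
  have hr' := hb _ _ g' hg'
  obtain ⟨h2, h3⟩ := hH _ g j g' _ _ hr hr' (CMain_P y).1 (CMain_P y).2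
  have h4 := (hφ _ g' _ _ (hD.r12 hr') (CMain_P y).1 (CMain_P y).2).1
  simp only [Pi.add_apply]
  rw [CMain_C _ _ _ fun σ hσ => CMain_clq_mono (h4 σ hσ).1 (hD.sub₁ _ (hD.r12 hr')),
    CMain_C_bd _ _ fun σ hσ => CMain_clq_mono (h2 σ hσ).1 (hD.sub₂ _ (hD.rmul hr hr')),
    CMain_C_bd' _ (CMain_P y).1, H0, CMain_ch_empty h4 (CMain_P y).2.card_pos, add_assoc,
    smul_zero, zero_smul, sub_zero, sub_zero, h3, add_sub_cancel]

end Tr

theorem transfer (n : ℕ) : ∃ c : ℕ, 0 < c ∧ ∀ (G : Type) [Group G] (J V : Type) [Fintype J]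
    [DecidableEq J] [LinearOrder V] (r₁ r₂ : J → G → J → Prop) (K : J → Finset V)
    (Adj : J → V → V → Prop) (C₁ C₂ : J → G → J → Finset V → Finset V)
    (F : FR G {p : J × V // p.2 ∈ K p.1}) (κ M : ℕ), TrD r₁ r₂ K Adj C₁ C₂ n →
    (∀ j, (K j).card ≤ M) →
    (∀ (x y : {p : J × V // p.2 ∈ K p.1}), x.1.1 = y.1.1 → Adj x.1.1 x.1.2 y.1.2 →
      F.rel κ x 1 y) →
    (∀ (x y : {p : J × V // p.2 ∈ K p.1}) g σ, r₂ x.1.1 g y.1.1 → Clq (Adj y.1.1) (K y.1.1) σ →
      y.1.2 ∈ σ → x.1.2 ∈ C₂ x.1.1 g y.1.1 σ → F.rel κ x g y) →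
    ∀ a b : Matrix J J (MonoidAlgebra R G), a * b = 1 → b * a = 1 → Ctl r₁ id id a →
    Ctl r₁ id id b →
    ∃ (J' : Type) (_ : Fintype J') (_ : DecidableEq J') (l : J' → {p : J × V // p.2 ∈ K p.1})
      (A B : Matrix J' J' (MonoidAlgebra R G)), Fintype.card J' ≤ Fintype.card J * (M + 1) ^ n ∧
      A * B = 1 ∧ B * A = 1 ∧ Ctl (F.rel (c * κ)) l l A ∧ Ctl (F.rel (c * κ)) l l B ∧
      (T A → T a) := by
  obtain ⟨c, hc, ht⟩ := torsion (R := R) n
  refine ⟨c, hc, fun G _ J V _ _ _ r₁ r₂ K Adj C₁ C₂ F κ M hD hM hA hC a b hab hba ha hb => ?_⟩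
  replace ha : CMainR r₁ a := ha
  replace hb : CMainR r₁ b := hb
  obtain ⟨φ, H, o, s, h1, h0, hφ, H0, hH, ho, hs⟩ := hD.chain
  have dT : ∀ a : Matrix J J (MonoidAlgebra R G), CMainR r₁ a →
      Dg (fun x : CMainP K Adj => x.1.2.card - 1) 0 (CMainT Subtype.val Subtype.val a φ) :=
    fun a ha => CMain_dg (CMainZ_T (by
      rintro _ g _ hg x y rfl rfl h
      rw [((hφ _ g _ _ (hD.r12 (ha _ _ g hg)) (CMain_P y).1 (CMain_P y).2).1 _ h).2, add_zero]))
  have dW : ∀ a b : Matrix J J (MonoidAlgebra R G), CMainR r₁ a → CMainR r₁ b →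
      Dg (fun x : CMainP K Adj => x.1.2.card - 1) 1 (CMainW Subtype.val Subtype.val a b H) :=
    fun a b ha hb => CMain_dg (CMainZ_W (by
      rintro _ g j g' _ hg hg' x y rfl rfl h
      rw [((hH _ g j g' _ _ (ha _ _ g hg) (hb _ _ g' hg') (CMain_P y).1 (CMain_P y).2).1 _ h).2]
      rfl))
  have cT : ∀ a : Matrix J J (MonoidAlgebra R G), CMainR r₁ a →
      Ctl (F.rel κ) (CMainL (K := K) (Adj := Adj)) (CMainL (K := K) (Adj := Adj))
        (CMainT Subtype.val Subtype.val a φ) :=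
    fun a ha => CMain_msup_T (by
      rintro _ g _ hg x y rfl rfl h
      have hr := hD.r12 (ha _ _ g hg)
      exact hC (CMainL x) (CMainL y) g y.1.2 hr (CMain_P y).1 (CMainL_mem y) (hD.le₁₂ _ hr
        (((hφ _ g _ _ hr (CMain_P y).1 (CMain_P y).2).1 _ h).1.1 (CMainL_mem x))))
  have cW : ∀ a b : Matrix J J (MonoidAlgebra R G), CMainR r₁ a → CMainR r₁ b →
      Ctl (F.rel κ) (CMainL (K := K) (Adj := Adj)) (CMainL (K := K) (Adj := Adj))
        (CMainW Subtype.val Subtype.val a b H) :=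
    fun a b ha hb => CMain_msup_W (by
      rintro _ g j g' _ hg hg' x y rfl rfl h
      have hr := ha _ _ g hg
      have hr' := hb _ _ g' hg'
      exact hC (CMainL x) (CMainL y) (g * g') y.1.2 (hD.rmul hr hr') (CMain_P y).1 (CMainL_mem y)
        (((hH _ g j g' _ _ hr hr' (CMain_P y).1 (CMain_P y).2).1 _ h).1.1 (CMainL_mem x)))
  have dd : ∀ (X : Type) (p : X → J × Finset V),
      CMainB (MonoidAlgebra R G) p (Subtype.val : CMainP K Adj → _) (fun _ => bd1) *
        CMainB (MonoidAlgebra R G) (Subtype.val : CMainP K Adj → _)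
          (Subtype.val : CMainP K Adj → _) (fun _ => bd1) = 0 := fun X p => by
    rw [CMainB_mul_B (CMain_sum_P _), ← CMainB_zero (p := p) (q := Subtype.val)]
    refine CMainB_congr ?_
    rintro _ x y - rfl
    rw [CMain_C_bd' _ (CMain_P y).1, CMain_bd1_empty, smul_zero, sub_zero, ← CMain_bd_single]
    exact congrArg (fun c : Finset V →₀ ℤ => c (p x).2) (bd_bd _)
  obtain ⟨A, B, h⟩ := ht G _ (CMainP K Adj) J F κ CMainL (fun x => x.1.2.card - 1)
    (CMainB _ Subtype.val Subtype.val fun _ => bd1) (CMainT Subtype.val Subtype.val a φ)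
    (CMainT Subtype.val Subtype.val b φ) (CMainW Subtype.val Subtype.val b a H)
    (CMainW Subtype.val Subtype.val a b H) (CMainB _ Subtype.val Subtype.val s) a b
    (CMainB _ Subtype.val (fun j => (j, ∅)) s) (CMainB _ (fun j => (j, ∅)) Subtype.val fun _ => bd1)
    (fun x => (Nat.sub_le _ _).trans (hD.dim _ _ (CMain_P x).1))
    (CMain_dg (CMainZ_B fun j x y _ _ h => by have := (CMain_bd1 h).2; omega))
    (dT a ha) (dT b hb) (dW b a hb ha) (dW a b ha hb)
    (CMain_dg (CMainZ_B (by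
      rintro _ x y - rfl h
      rw [((hs _ _ (CMain_P y).1 (CMain_P y).2).1 _ h).2]
      rfl)))
    (CMainZ_B (Q := fun (x : CMainP K Adj) (_ : J) => x.1.2.card - 1 = 0) (by
      rintro _ x y - rfl h
      rw [(ho _).2] at h
      rw [(Finsupp.single_apply_ne_zero.1 h).1, Finset.card_singleton]))
    (CMainZ_B (Q := fun (_ : J) (x : CMainP K Adj) => x.1.2.card - 1 = 0) fun j x y _ _ h => by
      rw [← (CMain_bd1 h).2, Finset.card_empty])
    (CMain_msup_B (by
      rintro _ x y e rfl h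
      have hx := (CMain_bd1 h).1 (CMainL_mem x)
      by_cases e' : (CMainL x).1.2 = (CMainL y).1.2
      · have e2 : CMainL x = CMainL y := Subtype.ext (Prod.ext e e')
        change F.rel κ (CMainL x) 1 (CMainL y)
        rw [e2]
        exact F.mono (Nat.zero_le _) (F.refl _)
      · refine hA (CMainL x) (CMainL y) e ?_
        change Adj x.1.1 _ _
        rw [e]
        exact (CMain_P y).1.2 _ hx _ (CMainL_mem y) e'))
    (cT a ha) (cT b hb) (cW b a hb ha) (cW a b ha hb) (dd _ _) (CMain_chain hD h0 hφ ha)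
    (CMain_chain hD h0 hφ hb) (CMain_htpy hD h1 hφ H0 hH hb ha hba)
    (CMain_htpy hD h1 hφ H0 hH ha hb hab) hab hba
    (by
      rw [CMainB_mul_B (CMain_sum_P _), ← CMainB_one (p := fun j : J => (j, (∅ : Finset V)))
        fun _ _ e => congrArg Prod.fst e]
      refine CMainB_congr ?_
      rintro _ x y - rfl
      have hcl : ∀ σ, s y ∅ σ ≠ 0 → Clq (Adj y) (K y) σ := fun σ hσ => by
        rw [(ho _).2] at hσ
        rw [(Finsupp.single_apply_ne_zero.1 hσ).1]
        exact ⟨Finset.singleton_subset_iff.2 (ho _).1, by simp⟩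
      rw [CMain_C_bd _ _ hcl, (ho _).2, CMain_bd_single]
      simp [bd1, Finset.filter_singleton])
    (dd _ _)
    (by
      rw [eq_sub_iff_add_eq, CMainB_mul_B (CMain_sum_P _), CMainB_mul_B (CMain_sum_P _),
        CMainB_mul_B (CMain_sum_J _), CMainB_add, CMainB_add, ← CMainB_one Subtype.val_injective]
      refine CMainB_congr ?_
      rintro _ x y - rfl
      obtain ⟨h2, h3⟩ := hs _ _ (CMain_P y).1 (CMain_P y).2
      simp only [Pi.add_apply]
      rw [CMain_C_bd _ _ fun σ hσ => (h2 σ hσ).1, CMain_C_bd' _ (CMain_P y).1, ← h3, CMainC,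
        Finset.sum_singleton, add_assoc, sub_add_cancel])
    (CMain_aug hD h0 hφ ha) (CMainB_map _ _) (CMainB_map _ _) (CMainB_map _ _) (CMainB_map _ _)
  exact ⟨_, inferInstance, inferInstance, CMainL, A, B, CMain_card_P hD.dim hM, h⟩

end Pool.Agent.MP_f7db47_al.GN

end
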