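import Pool.Agent.Mg.Ff7db47.G70cdce
import Pool.Agent.Mg.Ff7db47.G9c9b66
import Pool.Agent.Mg.Ff7db47.Ge4af1c

section

/-!
Twisted coefficients: part Main.
-/

set_option linter.unusedSectionVars false

universe u u' v w

section

namespace Pool.Agent.MP_f7db47_al.TW

open Function

variable {R : Type v} [Ring R]

lemma G1_local {G : Type u} [Group G] [MulSemiringAction G R]
    (h : ∀ Φ : Finset G, ∃ K : Subgroup G, (Φ : Set G) ⊆ K ∧ G1 R K) : G1 R G := by
  rw [G1_iff]
  intro J _ _ A hA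
  obtain ⟨s, hs, -⟩ := exists_finset_msup A
  obtain ⟨K, hK, h⟩ := h s
  exact T_of_isUnit_msup K h (hs.mono hK) hA

variable (R) in
/-- All subgroups of products with poly-`ℤ` groups satisfy `G1`. -/
def QQ (Γ : Type u) [Group Γ] [MulSemiringAction Γ R] : Prop :=
  ∀ (P : Type u) [Group P], PolyZ P → ∀ (Δ : Type u) [Group Δ] [MulSemiringAction Δ R] (f : Δ →* Γ × P)
    [Cp R f], Injective f → G1 R Δ

section QQ

variable {Γ Γ' : Type u} [Group Γ] [MulSemiringAction Γ R] [Group Γ'] [MulSemiringAction Γ' R]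

lemma QQ.sub (h : QQ R Γ) (f : Γ' →* Γ) [Cp R f] (hf : Injective f) : QQ R Γ' :=
  fun P _ hP Δ _ _ g _ hg =>
  h P hP Δ ((f.prodMap (MonoidHom.id P)).comp g) ((hf.prodMap injective_id).comp hg)

lemma QQ.sub' (h : QQ R Γ) (f : Γ' →* Γ) (hc : ∀ (a : Γ') (x : R), a • x = f a • x)
    (hf : Injective f) : QQ R Γ' :=
  haveI : Cp R f := ⟨hc⟩
  h.sub f hf

lemma QQ.g1 (h : QQ R Γ) : G1 R Γ :=
  h PUnit (PolyZ.triv _ inferInstance) Γ (MonoidHom.inl _ _) fun _ _ h => congrArg Prod.fst h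

lemma QQ.g0 (h : QQ R Γ) : G0 R Γ :=
  G0_of_G1_prod (h _ polyZ_int _ ((MonoidHom.id Γ).prodMap (MonoidHom.inr _ _))
    (injective_id.prodMap fun _ _ h => congrArg Prod.snd h))

omit [MulSemiringAction Γ' R] in
lemma QQ.prod_poly (h : QQ R Γ) (hP : PolyZ Γ') : QQ R (Γ × Γ') := fun P _ hP' Δ _ _ g _ hg =>
  h (Γ' × P) (polyZ_prod hP hP') Δ
    ((MulEquiv.prodAssoc (M := Γ) (N := Γ') (P := P)).toMonoidHom.comp g)
    ((MulEquiv.prodAssoc (M := Γ) (N := Γ') (P := P)).injective.comp hg)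

end QQ

end Pool.Agent.MP_f7db47_al.TW

end

section

namespace Pool.Agent.MP_f7db47_al.TW

open Matrix Function

variable {R : Type v} [Ring R]

lemma qq_of_le' {G P Δ : Type u} [Group G] [MulSemiringAction G R] [Group P] [Group Δ] [MulSemiringAction Δ R] (hP : PolyZ P)
    (f : Δ →* G × P) [Cp R f] (hf : Injective f) (K₀ : Subgroup G) (hK₀ : QQ R K₀)
    (K : Subgroup Δ) (hK : ∀ x ∈ K, (f x).1 ∈ K₀) : QQ R K := by
  refine (hK₀.prod_poly hP).sub
    ((((MonoidHom.fst _ _).comp (f.comp K.subtype)).codRestrict K₀ fun x => hK x x.2).prod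
      ((MonoidHom.snd _ _).comp (f.comp K.subtype))) ?_
  intro x y hxy
  exact Subtype.ext (hf (Prod.ext (congrArg (fun z => (z.1 : G)) hxy)
    (congrArg (fun z => z.2) hxy)))

end Pool.Agent.MP_f7db47_al.TW

end

section
namespace Pool.Agent.MP_f7db47_al.TW

open PT

variable {R : Type v} [Ring R]

theorem Ab_le {G P Δ : Type} [Group G] [MulSemiringAction G R] [Group P] [Group Δ] [MulSemiringAction Δ R] (hP : PolyZ P)
    (f : Δ →* G × P) [Cp R f] (hf : Function.Injective f) (K₀ : Subgroup G) (hK₀ : QQ R K₀)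
    (K : Subgroup Δ) (hK : ∀ x ∈ K, (f x).1 ∈ K₀) : QQ R K := by
  refine (hK₀.prod_poly hP).sub
    ((((MonoidHom.fst _ _).comp (f.comp K.subtype)).codRestrict K₀ fun x => hK x x.2).prod
      ((MonoidHom.snd _ _).comp (f.comp K.subtype))) ?_
  intro x y hxy
  exact Subtype.ext (hf (Prod.ext (congrArg (fun z => (z.1 : G)) hxy)
    (congrArg (fun z => z.2) hxy)))

theorem qq_loc {G : Type} [Group G] [MulSemiringAction G R] (h : ∀ K : Subgroup G, K.FG → QQ R K) : QQ R G := by
  intro P _ hP Δ _ _ f _ hf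
  let p : Δ →* G := (MonoidHom.fst _ _).comp f
  refine G1_local fun Φ => ⟨(Subgroup.closure (p '' Φ)).comap p,
    fun x hx => Subgroup.subset_closure ⟨x, hx, rfl⟩, ?_⟩
  exact (Ab_le hP f hf _ (h _ (fg_closure_image p Φ)) _ fun x hx => hx).g1

end Pool.Agent.MP_f7db47_al.TW

end

end

section

/-!
Twisted coefficients: part Split.
-/

set_option linter.unusedSectionVars false

universe u u' v w

section

namespace Pool.Agent.MP_f7db47_al.TW

open Matrix

variable {R : Type v} [Ring R] {G : Type u} [Group G] [MulSemiringAction G R]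

variable {J : Type} [Fintype J] [DecidableEq J]

lemma proj_map {Y : Type*} (c : J → Y) (y : Y) :
    (proj ℤ c y).map (sz R (1 : G)) = proj (SkewMonoidAlgebra R G) c y := by
  ext1 i j
  by_cases hij : i = j
  · subst hij
    simp only [proj, map_apply, diagonal_apply_eq]
    split_ifs <;> simp
  · simp [proj, hij]

lemma const_comm {ε : Matrix J J ℤ} {u : J → G} (hu : ∀ i j, u i ≠ u j → ε i j = 0) :
    ε.map (sz R (1 : G)) * diagonal (fun i => SkewMonoidAlgebra.single (u i) 1) =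
      diagonal (fun i => SkewMonoidAlgebra.single (u i) 1) * ε.map (sz R (1 : G)) := by
  ext1 i j
  rw [mul_diagonal, diagonal_mul, map_apply, ← sz_one, ← sz_one, sz_mul, sz_mul]
  by_cases h : u i = u j
  · simp [h]
  · simp [hu i j h]

lemma T_idem_diag {ε : Matrix J J ℤ} (hε : ε * ε = ε) {u : J → G}
    (hu : ∀ i j, u i ≠ u j → ε i j = 0) :
    T (1 - ε.map (sz R (1 : G)) +
      ε.map (sz R (1 : G)) * diagonal fun i => SkewMonoidAlgebra.single (u i) 1) := by
  refine (stdTS R G).of_blocks u (proj_comm u fun i j h => ?_) fun g => ?_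
  · have hij : i ≠ j := fun e => h (congrArg u e)
    simp [mul_diagonal, hu i j h, hij]
  · have hc := proj_comm u hu g
    have hi : (proj ℤ u g * ε) * (proj ℤ u g * ε) = proj ℤ u g * ε := by
      rw [mul_assoc, ← mul_assoc ε, ← hc, mul_assoc, hε, ← mul_assoc, proj_mul_self]
    have := T_gen (Gen.idem (R := R) (G := G) _ hi g)
    change T _
    convert this using 1
    have e1 : proj (SkewMonoidAlgebra R G) u g * ε.map (sz R (1 : G)) =
        (proj ℤ u g * ε).map (sz R (1 : G)) := by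
      rw [← proj_map, map_sz_mul, mul_one]
    have e2 : proj (SkewMonoidAlgebra R G) u g * (ε.map (sz R (1 : G)) *
        diagonal fun i => SkewMonoidAlgebra.single (u i) 1) =
        (proj ℤ u g * ε).map (sz R g) := by
      rw [const_comm hu]
      ext1 i j
      rw [proj_mul_apply, map_apply, proj_mul_apply, diagonal_mul]
      split_ifs with h
      · simp [h, ← sz_one, sz_mul]
      · simp
    rw [mul_add, mul_sub, mul_one, e1, e2]
    abel

end Pool.Agent.MP_f7db47_al.TW

end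

end

section

/-!
Twisted coefficients: free modules.
-/

namespace Pool.Agent.MP_f7db47_al.TW

open Matrix

universe u v

/-- Idempotent integer matrices have a free image. -/
theorem int_idem_free {κ : Type} [Fintype κ] [DecidableEq κ] (e : Matrix κ κ ℤ) (he : e * e = e) :
    ∃ (r : ℕ) (U : Matrix κ (Fin r) ℤ) (V : Matrix (Fin r) κ ℤ), U * V = e ∧ V * U = 1 := by
  obtain ⟨r, b⟩ := Submodule.basisOfPid (Pi.basisFun ℤ κ) (LinearMap.range (toLin' e))
  refine ⟨r, LinearMap.toMatrix b (Pi.basisFun ℤ κ) (Submodule.subtype _),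
    LinearMap.toMatrix (Pi.basisFun ℤ κ) b (toLin' e).rangeRestrict, ?_, ?_⟩
  · rw [← LinearMap.toMatrix_comp, LinearMap.subtype_comp_codRestrict,
      LinearMap.toMatrix_eq_toMatrix', LinearMap.toMatrix'_toLin']
  · rw [← LinearMap.toMatrix_comp, ← LinearMap.toMatrix_id b]
    congr 1
    ext1 ⟨_, x, rfl⟩
    apply Subtype.ext
    change toLin' e (toLin' e x) = toLin' e x
    rw [← LinearMap.comp_apply, ← toLin'_mul, he]

variable {R : Type v} [Ring R]

/-- Stably induced idempotents are stably free. -/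
theorem SI.free {G : Type u} [Group G] [MulSemiringAction G R] {J : Type} [Fintype J]
    [DecidableEq J] {p : Matrix J J (SkewMonoidAlgebra R G)} (hp : p * p = p) (h : SI p) :
    ∃ (ι : Type) (_ : Fintype ι) (_ : DecidableEq ι) (r : ℕ)
      (X : Matrix (J ⊕ ι) (Fin r) (SkewMonoidAlgebra R G))
      (Y : Matrix (Fin r) (J ⊕ ι) (SkewMonoidAlgebra R G)),
      X * Y = fromBlocks p 0 0 1 ∧ Y * X = 1 := by
  obtain ⟨ι, i1, i2, κ, k1, k2, e, X, Y, he, hXY, hYX⟩ := h
  obtain ⟨r, U, V, h1, h2⟩ := int_idem_free e he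
  have a1 : U.map (sz R (1 : G)) * V.map (sz R (1 : G)) = Y * X := by
    rw [map_sz_mul, h1, one_mul, hYX]
  have a2 : V.map (sz R (1 : G)) * U.map (sz R (1 : G)) = 1 := by
    rw [map_sz_mul, h2, one_mul, map_sz_one_one]
  refine ⟨ι, i1, i2, r, X * U.map (sz R (1 : G)), V.map (sz R (1 : G)) * Y, ?_, ?_⟩
  · rw [Matrix.mul_assoc, ← Matrix.mul_assoc (U.map _), a1, Matrix.mul_assoc, ← Matrix.mul_assoc,
      hXY, fromBlocks_multiply]
    simp [hp]
  · rw [Matrix.mul_assoc, ← Matrix.mul_assoc Y, ← a1, Matrix.mul_assoc, a2, Matrix.mul_one, a2]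

variable (R) in
/-- The free modules on two index types are isomorphic. -/
def FI (I J : Type) [Fintype I] [DecidableEq I] [Fintype J] [DecidableEq J] : Prop :=
  ∃ (u : Matrix I J R) (w : Matrix J I R), u * w = 1 ∧ w * u = 1

section FI

variable {I J K L : Type} [Fintype I] [DecidableEq I] [Fintype J] [DecidableEq J]
  [Fintype K] [DecidableEq K] [Fintype L] [DecidableEq L]

theorem FI.symm (h : FI R I J) : FI R J I := by
  obtain ⟨u, w, h1, h2⟩ := h
  exact ⟨w, u, h2, h1⟩

theorem FI.trans (h : FI R I J) (h' : FI R J K) : FI R I K := by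
  obtain ⟨u, w, h1, h2⟩ := h
  obtain ⟨u', w', h1', h2'⟩ := h'
  refine ⟨u * u', w' * w, ?_, ?_⟩
  · rw [Matrix.mul_assoc, ← Matrix.mul_assoc u', h1', Matrix.one_mul, h1]
  · rw [Matrix.mul_assoc, ← Matrix.mul_assoc w, h2, Matrix.one_mul, h2']

theorem fi_equiv (e : I ≃ J) : FI R I J := by
  refine ⟨(1 : Matrix J J R).submatrix e id, (1 : Matrix J J R).submatrix id e, ?_, ?_⟩
  · rw [← submatrix_mul _ _ _ _ _ Function.bijective_id, Matrix.one_mul, submatrix_one_equiv]
  · rw [submatrix_mul_equiv, Matrix.one_mul, submatrix_id_id]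

theorem FI.sum (h : FI R I J) (h' : FI R K L) : FI R (I ⊕ K) (J ⊕ L) := by
  obtain ⟨u, w, h1, h2⟩ := h
  obtain ⟨u', w', h1', h2'⟩ := h'
  exact ⟨fromBlocks u 0 0 u', fromBlocks w 0 0 w', by simp [fromBlocks_multiply, h1, h1'],
    by simp [fromBlocks_multiply, h2, h2']⟩

theorem fi_fin [h : NR R] (n : ℕ) : FI R (Fin (n + 1)) Unit := by
  have h1 : FI R (Fin 1) Unit := fi_equiv finOneEquiv
  induction n with
  | zero => exact h1
  | succ n ih =>
    exact ((fi_equiv (finSumFinEquiv (m := n + 1) (n := 1)).symm).trans (ih.sum h1)).trans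
      (FI.symm h.ex)

theorem fi_of_nonempty [NR R] [Nonempty I] [Nonempty J] : FI R I J := by
  have key : ∀ (I : Type) [Fintype I] [DecidableEq I] [Nonempty I], FI R I Unit := by
    intro I _ _ _
    obtain ⟨n, hn⟩ := Nat.exists_eq_succ_of_ne_zero (Fintype.card_ne_zero (α := I))
    exact (fi_equiv (Fintype.equivFinOfCardEq hn)).trans (fi_fin n)
  exact (key I).trans (key J).symm

end FI

end Pool.Agent.MP_f7db47_al.TW

end
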