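import Pool.Agent.Mg.Ff7db47.G0882a1
import Pool.Agent.Mg.Ff7db47.G578105
import Pool.Agent.Mg.Ff7db47.Gff80d5
import Pool.Agent.Mg.Ff7db47.G3f6dcb

section

/-!
Twisted coefficients: part ATriv.
-/

set_option linter.unusedSectionVars false

universe u u' v w

section

namespace Pool.Agent.MP_f7db47_al.TW

open GN

open Matrix

variable {R : Type v} [Ring R] {G : Type} [Group G] [MulSemiringAction G R] {Λ : Type} {I J K L : Type}
  [Fintype I] [DecidableEq I] [Fintype J] [DecidableEq J] [Fintype K] [DecidableEq K]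
  [Fintype L] [DecidableEq L]

lemma ATriv_base {A : Matrix I J (SkewMonoidAlgebra R G)} (hA : MSup {1} A) :
    A = (A.map fun x => x.coeff 1).map (SkewMonoidAlgebra.single 1) := by
  classical
  ext1 i j
  ext g
  rw [map_apply, map_apply, SkewMonoidAlgebra.coeff_single, Finsupp.single_apply]
  split_ifs with h
  · rw [h]
  · by_contra c
    exact h (hA i j g c).symm

/-- Invertible matrices that come from `R`. -/
theorem T_of_base {A B : Matrix I I (SkewMonoidAlgebra R G)} (hAB : A * B = 1) (hBA : B * A = 1)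
    (hA : MSup {1} A) : T A := by
  have hB : MSup {1} B := by
    have h1 : A * mpr {1} B = 1 := by
      rw [← mpr_mul_left (S := {1}) B hA (by rintro _ rfl g; simp), hAB,
        (msup_one (S := {1}) rfl).mpr_eq]
    rw [← mul_one B, ← h1, ← mul_assoc, hBA, one_mul]
    exact msup_mpr _ _
  have hinj : Function.Injective fun M : Matrix I I R =>
      M.map (SkewMonoidAlgebra.single (1 : G)) :=
    Matrix.map_injective (Sk.single_right_injective)
  rw [ATriv_base hA, ATriv_base hB, map_single_mul] at hAB hBA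
  rw [ATriv_base hA]
  exact T_gen (Gen.base _ _ (hinj (hAB.trans map_single_one_one.symm))
    (hinj (hBA.trans map_single_one_one.symm)))

theorem T_of_triv {A : Matrix I I (SkewMonoidAlgebra R G)} (h : Triv 1 1 A) : T A := by
  have := h 1 1 ⟨msup_one rfl, msup_one rfl, mul_one _, mul_one _, mul_one _, mul_one _⟩
  rwa [one_mul, sub_self, add_zero] at this

section Bs

variable {e : Matrix I I (SkewMonoidAlgebra R G)} {e' : Matrix J J (SkewMonoidAlgebra R G)}
  {b b' : Matrix I J (SkewMonoidAlgebra R G)} {c c' : Matrix J I (SkewMonoidAlgebra R G)}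

lemma msup_one_mul {A : Matrix I J (SkewMonoidAlgebra R G)} {B : Matrix J K (SkewMonoidAlgebra R G)}
    (hA : MSup {1} A) (hB : MSup {1} B) : MSup {1} (A * B) :=
  hA.mul hB (by rintro _ rfl _ rfl; exact mul_one _)

lemma Bs.be (h : Bs e e' b c) : b * e' = b := by rw [← h.cb, ← Matrix.mul_assoc, h.bc, h.eb]

lemma Bs.ec (h : Bs e e' b c) : e' * c = c := by rw [← h.cb, Matrix.mul_assoc, h.bc, h.ce]

lemma Bs.ee (h : Bs e e' b c) : e * e = e := by
  conv_lhs => rw [← h.bc]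
  rw [Matrix.mul_assoc, h.bc, h.ce, h.bc]

lemma Bs.comp {e'' : Matrix K K (SkewMonoidAlgebra R G)} {b' : Matrix J K (SkewMonoidAlgebra R G)}
    {c' : Matrix K J (SkewMonoidAlgebra R G)} (h : Bs e e' b c) (h' : Bs e' e'' b' c') :
    Bs e e'' (b * b') (c' * c) :=
  ⟨msup_one_mul h.sb h'.sb, msup_one_mul h'.sc h.sc,
    by rw [Matrix.mul_assoc, ← Matrix.mul_assoc b', h'.bc, h.ec, h.bc],
    by rw [Matrix.mul_assoc, ← Matrix.mul_assoc c, h.cb, h'.eb, h'.cb],
    by rw [← Matrix.mul_assoc, h.eb], by rw [Matrix.mul_assoc, h.ce]⟩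

/-- One choice is enough. -/
theorem triv_of_one {f : Matrix J I (SkewMonoidAlgebra R G)} (hf : e' * f = f) (h : Bs e e' b c)
    (t : T (b * f + (1 - e))) : Triv e e' f := by
  intro b' c' h'
  have key : ∀ {b b' : Matrix I J (SkewMonoidAlgebra R G)}
      {c c' : Matrix J I (SkewMonoidAlgebra R G)}, Bs e e' b c → Bs e e' b' c' →
      (b' * c + (1 - e)) * (b * c' + (1 - e)) = 1 := by
    intro b b' c c' h h'
    simp only [Matrix.add_mul, Matrix.mul_add, Matrix.mul_sub, Matrix.sub_mul, Matrix.mul_assoc,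
      Matrix.one_mul, Matrix.mul_one, h.ce, h.ee, ← Matrix.mul_assoc c b, h.cb, h'.ec, h'.bc,
      ← Matrix.mul_assoc e b, h.eb]
    abel
  have t0 : T (b' * c + (1 - e)) := T_of_base (key h h') (key h' h)
    ((msup_one_mul h'.sb h.sc).add ((msup_one (S := {1}) rfl).sub (h.bc ▸ msup_one_mul h.sb h.sc)))
  convert T_mul t0 t using 1
  simp only [Matrix.add_mul, Matrix.mul_add, Matrix.mul_sub, Matrix.sub_mul, Matrix.mul_assoc,
    Matrix.one_mul, Matrix.mul_one, h.ce, h.ee, ← Matrix.mul_assoc c b, h.cb, hf,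
    ← Matrix.mul_assoc e b, h.eb]
  abel

lemma ATriv_fac0 (P : I → Prop) [DecidablePred P] :
    (1 : Matrix I I (SkewMonoidAlgebra R G)).submatrix id (Subtype.val : {i // P i} → I) *
      (1 : Matrix I I (SkewMonoidAlgebra R G)).submatrix (Subtype.val : {i // P i} → I) id =
      diagonal fun i => if P i then 1 else 0 := by
  ext1 i j
  rw [Matrix.mul_apply]
  change ∑ x : {i // P i}, (1 : Matrix I I (SkewMonoidAlgebra R G)) i x.1 *
    (1 : Matrix I I (SkewMonoidAlgebra R G)) x.1 j = _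
  by_cases hi : P i
  · rw [Finset.sum_eq_single ⟨i, hi⟩ (fun x _ hx => by
      rw [one_apply_ne (i := i) (fun c => hx (Subtype.ext c.symm)), zero_mul]) (by simp)]
    simp [hi, diagonal_apply, one_apply]
  · rw [Finset.sum_eq_zero fun x _ => by
      rw [one_apply_ne (fun c => hi (by rw [c]; exact x.2)), zero_mul]]
    simp [hi, diagonal_apply]

lemma ATriv_fac {l : I → Λ} (he : Std l e) [DecidablePred fun i => ¬ e i i = 0] :
    (1 : Matrix I I (SkewMonoidAlgebra R G)).submatrix id (Subtype.val : {i // ¬ e i i = 0} → I) *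
      (1 : Matrix I I (SkewMonoidAlgebra R G)).submatrix
        (Subtype.val : {i // ¬ e i i = 0} → I) id = e := by
  rw [ATriv_fac0]
  refine Eq.trans ?_ he.eq_diag.symm
  congr 1
  funext i
  by_cases h : e i i = 0
  · rw [if_neg (not_not.2 h), h]
  · rw [if_pos h, (he.2 i).resolve_right h]

lemma ATriv_fac' (P : I → Prop) [DecidablePred P] :
    (1 : Matrix I I (SkewMonoidAlgebra R G)).submatrix (Subtype.val : {i // P i} → I) id *
      (1 : Matrix I I (SkewMonoidAlgebra R G)).submatrix id (Subtype.val : {i // P i} → I) = 1 := by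
  rw [← submatrix_mul _ _ _ _ _ Function.bijective_id, Matrix.one_mul,
    submatrix_one _ Subtype.val_injective]

theorem exists_bs0 [NR R] {Λ' : Type} {l : I → Λ} {l' : J → Λ'} (he : Std l e) (he' : Std l' e')
    (h : e = 0 ↔ e' = 0) : ∃ b c, Bs e e' b c := by
  classical
  by_cases h0 : e = 0
  · exact ⟨0, 0, msup_zero _, msup_zero _, by simp [h0], by simp [h.1 h0], by simp, by simp⟩
  have ne : ∀ {I Λ : Type} [Fintype I] [DecidableEq I] {l : I → Λ}
      {e : Matrix I I (SkewMonoidAlgebra R G)}, Std l e → e ≠ 0 →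
      Nonempty {i // ¬ e i i = 0} := by
    intro I Λ _ _ l e he h0
    by_contra c
    refine h0 (he.eq_diag.trans ?_)
    rw [← diagonal_zero]
    congr 1
    funext i
    by_contra c'
    exact c ⟨⟨i, c'⟩⟩
  have := ne he h0
  have := ne he' (mt h.2 h0)
  obtain ⟨u, w, h1, h2⟩ := fi_of_nonempty (R := R) (I := {i // ¬ e i i = 0})
    (J := {j // ¬ e' j j = 0})
  have f1 := ATriv_fac he
  have f2 := ATriv_fac he'
  have f3 := ATriv_fac' (R := R) (G := G) fun i => ¬ e i i = 0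
  have f4 := ATriv_fac' (R := R) (G := G) fun i => ¬ e' i i = 0
  have s1 : ∀ {I K L : Type} [DecidableEq I] (a : K → I) (b : L → I),
      MSup {1} ((1 : Matrix I I (SkewMonoidAlgebra R G)).submatrix a b) :=
    fun a b i j => msup_one (S := {1}) rfl (a i) (b j)
  have u1 : u.map (SkewMonoidAlgebra.single (1 : G)) * w.map (SkewMonoidAlgebra.single (1 : G)) =
      1 := by rw [map_single_mul, h1, map_single_one_one]
  have u2 : w.map (SkewMonoidAlgebra.single (1 : G)) * u.map (SkewMonoidAlgebra.single (1 : G)) =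
      1 := by rw [map_single_mul, h2, map_single_one_one]
  have su : MSup {1} (u.map (SkewMonoidAlgebra.single (1 : G))) := msup_map_single (S := {1}) rfl u
  have sw : MSup {1} (w.map (SkewMonoidAlgebra.single (1 : G))) := msup_map_single (S := {1}) rfl w
  have s2 := s1 id (Subtype.val : {i // ¬ e i i = 0} → I)
  have s3 := s1 (Subtype.val : {i // ¬ e i i = 0} → I) id
  have s4 := s1 id (Subtype.val : {i // ¬ e' i i = 0} → J)
  have s5 := s1 (Subtype.val : {i // ¬ e' i i = 0} → J) id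
  generalize u.map (SkewMonoidAlgebra.single (1 : G)) = U at *
  generalize w.map (SkewMonoidAlgebra.single (1 : G)) = W at *
  generalize (1 : Matrix I I (SkewMonoidAlgebra R G)).submatrix id
    (Subtype.val : {i // ¬ e i i = 0} → I) = x at *
  generalize (1 : Matrix I I (SkewMonoidAlgebra R G)).submatrix
    (Subtype.val : {i // ¬ e i i = 0} → I) id = y at *
  generalize (1 : Matrix J J (SkewMonoidAlgebra R G)).submatrix id
    (Subtype.val : {i // ¬ e' i i = 0} → J) = x' at *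
  generalize (1 : Matrix J J (SkewMonoidAlgebra R G)).submatrix
    (Subtype.val : {i // ¬ e' i i = 0} → J) id = y' at *
  have g1 : e * x = x := by
    have : x * y * x = x := by rw [Matrix.mul_assoc, f3, Matrix.mul_one]
    rwa [f1] at this
  have g2 : y * e = y := by
    have : y * (x * y) = y := by rw [← Matrix.mul_assoc, f3, Matrix.one_mul]
    rwa [f1] at this
  refine ⟨x * (U * y'), x' * (W * y), msup_one_mul s2 (msup_one_mul su s5),
    msup_one_mul s4 (msup_one_mul sw s3), ?_, ?_, ?_, ?_⟩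
  · rw [Matrix.mul_assoc, Matrix.mul_assoc, ← Matrix.mul_assoc y', f4, Matrix.one_mul,
      ← Matrix.mul_assoc U, u1, Matrix.one_mul, f1]
  · rw [Matrix.mul_assoc, Matrix.mul_assoc, ← Matrix.mul_assoc y, f3, Matrix.one_mul,
      ← Matrix.mul_assoc W, u2, Matrix.one_mul, f2]
  · rw [← Matrix.mul_assoc, g1]
  · rw [Matrix.mul_assoc, Matrix.mul_assoc, g2]

lemma ATriv_pc {Y : Type} {m : I → Y} {m' : J → Y} {f : Matrix I J (SkewMonoidAlgebra R G)}
    (hf : ∀ i j, f i j ≠ 0 → m i = m' j) (y : Y) :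
    proj (SkewMonoidAlgebra R G) m y * f = f * proj (SkewMonoidAlgebra R G) m' y := by
  ext1 i j
  rw [proj_mul_apply, mul_proj_apply]
  by_cases h0 : f i j = 0
  · simp [h0]
  · rw [hf i j h0]

theorem exists_bs [NR R] {Λ' Λ'' Y : Type} {l₁ : I → Λ'} {l₂ : J → Λ''} {r : Λ → G → Λ → Prop}
    {l : I → Λ} {l' : J → Λ} {f : Matrix J I (SkewMonoidAlgebra R G)}
    {g : Matrix I J (SkewMonoidAlgebra R G)} (he : Std l₁ e) (he' : Std l₂ e')
    (h : Iso r l l' e e' f g) (m : I → Y) (m' : J → Y) (hf : ∀ j i, f j i ≠ 0 → m' j = m i)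
    (hg : ∀ i j, g i j ≠ 0 → m i = m' j) :
    ∃ b c, Bs e e' b c ∧ (∀ i j, b i j ≠ 0 → m i = m' j) ∧ ∀ j i, c j i ≠ 0 → m' j = m i := by
  classical
  have sp : ∀ {I Λ : Type} [Fintype I] [DecidableEq I] (l : I → Λ) (m : I → Y) (y : Y),
      Std l (proj (SkewMonoidAlgebra R G) m y) := fun l m y =>
    std_diagc l _
  have key : ∀ y, ∃ b c, Bs (proj (SkewMonoidAlgebra R G) m y * e) (proj (SkewMonoidAlgebra R G) m' y * e') b c := fun y => by
    refine exists_bs0 ((sp l₁ m y).mul he) ((sp l₂ m' y).mul he') ⟨fun c => ?_, fun c => ?_⟩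
    · rw [← h.fg, ← Matrix.mul_assoc, ATriv_pc hf, ← h.pg, Matrix.mul_assoc,
        ← Matrix.mul_assoc _ e, c, Matrix.zero_mul, Matrix.mul_zero]
    · rw [← h.gf, ← Matrix.mul_assoc, ATriv_pc hg, ← h.pf, Matrix.mul_assoc,
        ← Matrix.mul_assoc _ e', c, Matrix.zero_mul, Matrix.mul_zero]
  choose b c hbc using key
  have ce : ∀ y, proj (SkewMonoidAlgebra R G) m y * e = e * proj (SkewMonoidAlgebra R G) m y :=
    ATriv_pc fun i j c => (he.relab (m := m) fun i j c => congrArg m (by_contra fun d =>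
      c (he.1 i j d))).eq_of_ne c
  have ce' : ∀ y, proj (SkewMonoidAlgebra R G) m' y * e' = e' * proj (SkewMonoidAlgebra R G) m' y :=
    ATriv_pc fun i j c => (he'.relab (m := m') fun i j c => congrArg m' (by_contra fun d =>
      c (he'.1 i j d))).eq_of_ne c
  have b1 : ∀ y, proj (SkewMonoidAlgebra R G) m y * b y = b y := fun y => by
    rw [← (hbc y).eb, ← Matrix.mul_assoc, ← mul_assoc, proj_mul_self]
  have b2 : ∀ y, b y * proj (SkewMonoidAlgebra R G) m' y = b y := fun y => by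
    rw [← (hbc y).be, ce', Matrix.mul_assoc, mul_assoc, proj_mul_self]
  have c1 : ∀ y, proj (SkewMonoidAlgebra R G) m' y * c y = c y := fun y => by
    rw [← (hbc y).ec, ← Matrix.mul_assoc, ← mul_assoc, proj_mul_self]
  have c2 : ∀ y, c y * proj (SkewMonoidAlgebra R G) m y = c y := fun y => by
    rw [← (hbc y).ce, ce, Matrix.mul_assoc, mul_assoc, proj_mul_self]
  obtain ⟨s, hs, hs'⟩ : ∃ s : Finset Y, (∀ i, m i ∈ s) ∧ ∀ j, m' j ∈ s :=
    ⟨Finset.univ.image m ∪ Finset.univ.image m', fun i => by simp, fun j => by simp⟩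
  refine ⟨∑ y ∈ s, b y, ∑ y ∈ s, c y, ⟨msup_sum _ _ fun y _ => (hbc y).sb,
    msup_sum _ _ fun y _ => (hbc y).sc, ?_, ?_, ?_, ?_⟩, fun i j c0 => ?_, fun j i c0 => ?_⟩
  · rw [Matrix.sum_mul, ← one_mul e, ← sum_proj (c := m) hs, Finset.sum_mul]
    refine Finset.sum_congr rfl fun y hy => ?_
    rw [Matrix.mul_sum, Finset.sum_eq_single_of_mem y hy fun z _ hz => by
      rw [← b2, ← c1, Matrix.mul_assoc, ← Matrix.mul_assoc _ _ (c z), proj_mul_ne _ hz.symm,
        Matrix.zero_mul, Matrix.mul_zero], (hbc y).bc]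
  · rw [Matrix.sum_mul, ← one_mul e', ← sum_proj (c := m') hs', Finset.sum_mul]
    refine Finset.sum_congr rfl fun y hy => ?_
    rw [Matrix.mul_sum, Finset.sum_eq_single_of_mem y hy fun z _ hz => by
      rw [← c2, ← b1, Matrix.mul_assoc, ← Matrix.mul_assoc _ _ (b z), proj_mul_ne _ hz.symm,
        Matrix.zero_mul, Matrix.mul_zero], (hbc y).cb]
  · rw [Matrix.mul_sum]
    refine Finset.sum_congr rfl fun y _ => ?_
    rw [← b1, ← Matrix.mul_assoc, ← ce, b1, (hbc y).eb]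
  · rw [Matrix.sum_mul]
    refine Finset.sum_congr rfl fun y _ => ?_
    rw [← c2, Matrix.mul_assoc, c2, (hbc y).ce]
  · rw [Matrix.sum_apply] at c0
    obtain ⟨y, -, hy⟩ := Finset.exists_ne_zero_of_sum_ne_zero c0
    have h1 : m i = y := by_contra fun d => hy (by rw [← b1, proj_mul_apply, if_neg d])
    have h2 : m' j = y := by_contra fun d => hy (by rw [← b2, mul_proj_apply, if_neg d])
    exact h1.trans h2.symm
  · rw [Matrix.sum_apply] at c0
    obtain ⟨y, -, hy⟩ := Finset.exists_ne_zero_of_sum_ne_zero c0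
    have h1 : m' j = y := by_contra fun d => hy (by rw [← c1, proj_mul_apply, if_neg d])
    have h2 : m i = y := by_contra fun d => hy (by rw [← c2, mul_proj_apply, if_neg d])
    exact h1.trans h2.symm

end Bs

lemma ATriv_comm (X : Matrix I J (SkewMonoidAlgebra R G)) (Y : Matrix J I (SkewMonoidAlgebra R G))
    (h : T (1 + Y * X)) : T (1 + X * Y) := by
  have := T_one_sub_comm (-X) Y (by rwa [Matrix.mul_neg, sub_neg_eq_add])
  rwa [Matrix.neg_mul, sub_neg_eq_add] at this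

/-- the diagonal matrix of group elements -/
noncomputable def ATrivD (R : Type v) [Ring R] (w : I → G) : Matrix I I (SkewMonoidAlgebra R G) :=
  diagonal fun i => SkewMonoidAlgebra.single (w i) 1

lemma ATriv_D_mul (w w' : I → G) (h : ∀ i, w i * w' i = 1) : ATrivD R w * ATrivD R w' = 1 := by
  rw [ATrivD, ATrivD, diagonal_mul_diagonal, ← diagonal_one]
  congr 1
  funext i
  rw [SkewMonoidAlgebra.single_mul_single, h, one_mul, smul_one]
  rfl

lemma ATriv_D_comm {l : I → Λ} {e : Matrix I I (SkewMonoidAlgebra R G)} (he : Std l e) (u : Λ → G) :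
    ATrivD R (fun i => u (l i)) * e = e * ATrivD R fun i => u (l i) := by
  rw [he.eq_diag, ATrivD, diagonal_mul_diagonal, diagonal_mul_diagonal]
  congr 1
  funext i
  rcases he.2 i with h | h <;> simp [h]

lemma ATriv_D_T {l : I → Λ} {e : Matrix I I (SkewMonoidAlgebra R G)} (he : Std l e) (u : Λ → G) :
    T (1 + (ATrivD R (fun i => u (l i)) - 1) * e) := by
  classical
  have := T_idem_diag (R := R) (ε := diagonal fun i => if e i i = 0 then 0 else 1)
    (u := fun i => u (l i)) (by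
      rw [diagonal_mul_diagonal]
      congr 1
      funext i
      split_ifs <;> simp) fun i j h => diagonal_apply_ne _ fun c => h (by rw [c])
  have h1 : (diagonal fun i => if e i i = 0 then (0 : ℤ) else 1).map (sz R (1 : G)) = e := by
    rw [diagonal_map (sz_zero _)]
    refine Eq.trans ?_ he.eq_diag.symm
    congr 1
    funext i
    split_ifs with h
    · rw [h, sz_zero]
    · rw [sz_one_one, (he.2 i).resolve_right h]
  rw [h1] at this
  convert this using 1
  rw [Matrix.sub_mul, one_mul, ATriv_D_comm he, ATrivD]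
  abel

variable {e : Matrix I I (SkewMonoidAlgebra R G)} {e' : Matrix J J (SkewMonoidAlgebra R G)}
  {f : Matrix J I (SkewMonoidAlgebra R G)} {g : Matrix I J (SkewMonoidAlgebra R G)}
  {r r' : Λ → G → Λ → Prop} {l : I → Λ} {l' : J → Λ}

theorem Triv.comp [NR R] {l'' : K → Λ} {Λ' : Type} {r' : Λ' → G → Λ' → Prop} {m' : J → Λ'}
    {m'' : K → Λ'}
    {e'' : Matrix K K (SkewMonoidAlgebra R G)} {f' : Matrix K J (SkewMonoidAlgebra R G)}
    {g' : Matrix J K (SkewMonoidAlgebra R G)} (he : Std l e) (he' : Std l' e') (he'' : Std l'' e'')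
    (h : Iso r l l' e e' f g) (h' : Iso r' m' m'' e' e'' f' g') (t : Triv e e' f)
    (t' : Triv e' e'' f') : Triv e e'' (f' * f) := by
  obtain ⟨b, c, hb, -⟩ := exists_bs he he' h (fun _ => ()) (fun _ => ()) (fun _ _ _ => rfl)
    fun _ _ _ => rfl
  obtain ⟨b', c', hb', -⟩ := exists_bs he' he'' h' (fun _ => ()) (fun _ => ()) (fun _ _ _ => rfl)
    fun _ _ _ => rfl
  refine triv_of_one (by rw [← Matrix.mul_assoc, h'.pf]) (hb.comp hb') ?_
  have a1 := hb.cb
  have a2 := hb.ce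
  have a3 : ∀ X : Matrix J I (SkewMonoidAlgebra R G), c * (b * X) = e' * X := fun X => by
    rw [← Matrix.mul_assoc, a1]
  have t1 : T (1 + b * ((b' * f' - e') * c)) := by
    apply ATriv_comm
    rw [Matrix.mul_assoc, a1, Matrix.sub_mul, Matrix.mul_assoc, h'.fp, he'.idem]
    convert t' b' c' hb' using 1
    abel
  have t2 := T_mul t1 (t b c hb)
  convert t2 using 1
  simp only [Matrix.add_mul, Matrix.mul_add, Matrix.mul_sub, Matrix.sub_mul, Matrix.mul_assoc,
    Matrix.one_mul, Matrix.mul_one, a2, a3, h.pf]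
  abel

theorem Triv.of_sum {m : K → Λ} {q : Matrix K K (SkewMonoidAlgebra R G)} (hq : Std m q)
    (t : Triv (fromBlocks e 0 0 q) (fromBlocks e' 0 0 q) (fromBlocks f 0 0 q)) : Triv e e' f := by
  intro b c hb
  apply T_of_stab (K := K)
  have sq : MSup {1} q := hq.msup rfl
  have := t (fromBlocks b 0 0 q) (fromBlocks c 0 0 q)
    ⟨hb.sb.fromBlocks (msup_zero _) (msup_zero _) sq, hb.sc.fromBlocks (msup_zero _) (msup_zero _) sq,
      by simp [fromBlocks_multiply, hb.bc, hq.idem], by simp [fromBlocks_multiply, hb.cb, hq.idem],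
      by simp [fromBlocks_multiply, hb.eb, hq.idem], by simp [fromBlocks_multiply, hb.ce, hq.idem]⟩
  rw [fromBlocks_multiply, ← fromBlocks_one, sub_eq_add_neg, fromBlocks_neg,
    fromBlocks_add, fromBlocks_add] at this
  convert this using 2 <;> simp [hq.idem, sub_eq_add_neg]

theorem Triv.of_split [NR R] {Λ' Λ'' : Type} {l₁ : I → Λ'} {l₂ : J → Λ''} (he : Std l₁ e)
    (he' : Std l₂ e') (h : Iso r l l' e e' f g) (P : I → Prop) [DecidablePred P] (P' : J → Prop)
    [DecidablePred P'] (hf : ∀ j i, f j i ≠ 0 → (P' j ↔ P i))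
    (hg : ∀ i j, g i j ≠ 0 → (P i ↔ P' j))
    (t : Triv (e.submatrix (Subtype.val : {i // P i} → I) Subtype.val)
      (e'.submatrix (Subtype.val : {j // P' j} → J) Subtype.val)
      (f.submatrix Subtype.val Subtype.val))
    (t' : Triv (e.submatrix (Subtype.val : {i // ¬ P i} → I) Subtype.val)
      (e'.submatrix (Subtype.val : {j // ¬ P' j} → J) Subtype.val)
      (f.submatrix Subtype.val Subtype.val)) : Triv e e' f := by
  obtain ⟨b, c, hb, b0, c0⟩ := exists_bs he he' h P P' (fun j i d => propext (hf j i d))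
    fun i j d => propext (hg i j d)
  refine triv_of_one h.pf hb ?_
  have hI : Iso (fun _ g _ => g ∈ ({1} : Set G)) (fun _ => ()) (fun _ => ()) e e' c b :=
    ⟨hb.bc, hb.cb, hb.ce, hb.eb, hb.sc, hb.sb⟩
  have i1 := hI.restrict P P' (fun j i d => (c0 j i d).to_iff) fun i j d => (b0 i j d).to_iff
  have i2 := hI.restrict (fun i => ¬ P i) (fun j => ¬ P' j)
    (fun j i d => (c0 j i d).to_iff.not) fun i j d => (b0 i j d).to_iff.not
  apply T_of_submatrix (Equiv.sumCompl P)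
  have := T_upper_block ((b * f + (1 - e)).submatrix
    (Subtype.val : {i // P i} → I) (Subtype.val : {i // ¬ P i} → I))
    (t _ _ ⟨i1.cg, i1.cf, i1.gf, i1.fg, i1.pg, i1.fp⟩)
    (t' _ _ ⟨i2.cg, i2.cf, i2.gf, i2.fg, i2.pg, i2.fp⟩)
  have hg0 : ∀ i j, ¬ (P i ↔ P' j) → b i j = 0 := fun i j hij => by
    by_contra h0
    exact hij (b0 i j h0).to_iff
  have hf0 : ∀ j i, ¬ (P' j ↔ P i) → f j i = 0 := fun j i hij => by
    by_contra h0
    exact hij (hf j i h0)
  convert this using 1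
  ext1 i k
  rcases i with i | i <;> rcases k with k | k
  · simp only [submatrix_apply, Equiv.sumCompl_apply_inl, fromBlocks_apply₁₁, Matrix.add_apply,
      Matrix.sub_apply]
    rw [ATriv_sub _ _ P' _ _ fun j hj => hg0 _ j fun e => hj (e.1 i.2)]
    simp only [Matrix.mul_apply, submatrix_apply, one_apply, Subtype.ext_iff]
  · rfl
  · simp only [submatrix_apply, Equiv.sumCompl_apply_inl, Equiv.sumCompl_apply_inr,
      fromBlocks_apply₂₁, Matrix.add_apply, Matrix.sub_apply, Matrix.zero_apply]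
    have hne : i.1 ≠ k.1 := fun e => i.2 (e ▸ k.2)
    have hz : ∀ j, b i j = 0 ∨ f j k = 0 := fun j => by
      by_cases hj : P' j
      · exact Or.inl (hg0 _ _ fun e => i.2 (e.2 hj))
      · exact Or.inr (hf0 _ _ fun e => hj (e.2 k.2))
    rw [Matrix.mul_apply, one_apply_ne hne, he.1 _ _ hne,
      Finset.sum_eq_zero fun j _ => by rcases hz j with h0 | h0 <;> simp [h0]]
    simp
  · simp only [submatrix_apply, Equiv.sumCompl_apply_inr, fromBlocks_apply₂₂, Matrix.add_apply,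
      Matrix.sub_apply]
    rw [ATriv_sub _ _ (fun j => ¬ P' j) _ _ fun j hj =>
      hg0 _ j fun e => i.2 (e.2 (not_not.1 hj))]
    simp only [Matrix.mul_apply, submatrix_apply, one_apply, Subtype.ext_iff]

/-- Block diagonal isomorphisms. -/
theorem triv_block [NR R] (B : Gpd G Λ) (hB : ∀ a, G1 R (B.grp a)) (he : Std l e) (he' : Std l' e')
    (h : Iso B.r l l' e e' f g) : Triv e e' f := by
  classical
  let s : Setoid Λ := ⟨fun a b => ∃ γ, B.r a γ b, ⟨fun a => ⟨1, B.refl a⟩,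
    fun ⟨a, ha⟩ => ⟨a⁻¹, B.symm ha⟩, fun ⟨a, ha⟩ ⟨b, hb⟩ => ⟨a * b, B.trans ha hb⟩⟩⟩
  obtain ⟨c, hc, hcc⟩ : ∃ c : Λ → Λ, (∀ a, ∃ γ, B.r (c a) γ a) ∧
      ∀ a b γ, B.r a γ b → c a = c b :=
    ⟨fun a => (Quotient.mk s a).out, fun a => Quotient.mk_out (s := s) a, fun a b γ h => by
      simp only [Quotient.sound (s := s) ⟨γ, h⟩]⟩
  choose u hu using hc
  obtain ⟨D, hD⟩ : ∃ D, D = ATrivD R fun i => u (l i) := ⟨_, rfl⟩
  obtain ⟨Di, hDi⟩ : ∃ D, D = ATrivD R fun i => (u (l i))⁻¹ := ⟨_, rfl⟩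
  obtain ⟨E, hE⟩ : ∃ D, D = ATrivD R fun j => u (l' j) := ⟨_, rfl⟩
  obtain ⟨Ei, hEi⟩ : ∃ D, D = ATrivD R fun j => (u (l' j))⁻¹ := ⟨_, rfl⟩
  have d1 : D * Di = 1 := by rw [hD, hDi]; exact ATriv_D_mul _ _ fun _ => mul_inv_cancel _
  have d2 : Di * D = 1 := by rw [hD, hDi]; exact ATriv_D_mul _ _ fun _ => inv_mul_cancel _
  have d3 : E * Ei = 1 := by rw [hE, hEi]; exact ATriv_D_mul _ _ fun _ => mul_inv_cancel _
  have d4 : Ei * E = 1 := by rw [hE, hEi]; exact ATriv_D_mul _ _ fun _ => inv_mul_cancel _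
  have c1 : D * e = e * D := by rw [hD]; exact ATriv_D_comm he u
  have c2 : Di * e = e * Di := by rw [hDi]; exact ATriv_D_comm he fun a => (u a)⁻¹
  have c3 : E * e' = e' * E := by rw [hE]; exact ATriv_D_comm he' u
  have c4 : Ei * e' = e' * Ei := by rw [hEi]; exact ATriv_D_comm he' fun a => (u a)⁻¹
  have ex : ∀ x : SkewMonoidAlgebra R G, x ≠ 0 → ∃ γ, x.coeff γ ≠ 0 := fun x h0 => by
    by_contra! h1
    exact h0 (by ext γ; exact h1 γ)
  obtain ⟨ag, af, hb, b0, -⟩ := exists_bs he he' h (fun i => c (l i)) (fun j => c (l' j))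
    (fun j i d => (ex _ d).elim fun γ hγ => hcc _ _ _ (h.cf j i γ hγ))
    fun i j d => (ex _ d).elim fun γ hγ => hcc _ _ _ (h.cg i j γ hγ)
  refine triv_of_one h.pf hb ?_
  have a1 : af * ag = e' := hb.cb
  have a2 : ag * af = e := hb.bc
  have a3 : af * e = af := hb.ce
  have a4 : e * ag = ag := hb.eb
  have a5 : ag * e' = ag := hb.be
  obtain ⟨ft, hft⟩ : ∃ x, x = E * f * Di := ⟨_, rfl⟩
  obtain ⟨gt, hgt⟩ : ∃ x, x = D * g * Ei := ⟨_, rfl⟩
  have b1 : ft * gt = e' := by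
    rw [hft, hgt, Matrix.mul_assoc, Matrix.mul_assoc D, ← Matrix.mul_assoc Di, d2, Matrix.one_mul,
      Matrix.mul_assoc, ← Matrix.mul_assoc f, h.fg, ← c4, ← Matrix.mul_assoc, d3, Matrix.one_mul]
  have b2 : gt * ft = e := by
    rw [hft, hgt, Matrix.mul_assoc, Matrix.mul_assoc E, ← Matrix.mul_assoc Ei, d4, Matrix.one_mul,
      Matrix.mul_assoc, ← Matrix.mul_assoc g, h.gf, ← c2, ← Matrix.mul_assoc, d1, Matrix.one_mul]
  have b3 : ft * e = ft := by
    rw [hft, Matrix.mul_assoc, c2, ← Matrix.mul_assoc, Matrix.mul_assoc E, h.fp]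
  have b4 : e * gt = gt := by
    rw [hgt, ← Matrix.mul_assoc, ← Matrix.mul_assoc, ← c1, Matrix.mul_assoc D, h.pg]
  have b5 : e' * ft = ft := by rw [← b1, Matrix.mul_assoc, b2, b3]
  have ee := he.idem
  have hu1 : IsUnit (ag * ft + (1 - e)) := by
    refine ⟨⟨_, gt * af + (1 - e), ?_, ?_⟩, rfl⟩
    · simp only [Matrix.add_mul, Matrix.mul_add, Matrix.mul_sub, Matrix.sub_mul, Matrix.mul_assoc,
        Matrix.one_mul, Matrix.mul_one, b3, ee, ← Matrix.mul_assoc ft gt, b1,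
        ← Matrix.mul_assoc ag e', a5, a2, ← Matrix.mul_assoc e gt, b4]
      abel
    · simp only [Matrix.add_mul, Matrix.mul_add, Matrix.mul_sub, Matrix.sub_mul, Matrix.mul_assoc,
        Matrix.one_mul, Matrix.mul_one, a3, ee, ← Matrix.mul_assoc af ag, a1, b5, b2,
        ← Matrix.mul_assoc e ag, a4]
      abel
  have s1 : MSup2 (fun i j => {γ | B.r (c (l i)) γ (c (l' j))}) ag := by
    intro i j
    by_cases h0 : ag i j = 0
    · rw [h0]; exact sup_zero _
    · refine (hb.sb i j).mono ?_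
      rintro _ rfl
      have h2 : B.r (c (l i)) 1 (c (l' j)) := by
        rw [b0 i j h0]
        exact B.refl _
      exact h2
  have s2 : MSup2 (fun j i => {γ | B.r (c (l' j)) γ (c (l i))}) ft := by
    intro j i
    rw [hft, hE, hDi, ATrivD, ATrivD, mul_diagonal, diagonal_mul]
    exact ((sup_single (S := {γ | B.r (c (l' j)) γ (l' j)}) (hu _) 1).mul
      (U := {γ | B.r (c (l' j)) γ (l i)}) (h.cf j i) fun _ ha _ hb => B.trans ha hb).mul
      (sup_single (S := {γ | B.r (l i) γ (c (l i))}) (B.symm (hu _)) 1)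
      fun _ ha _ hb => B.trans ha hb
  have s3 : MSup2 (fun i j => {γ | B.r (c (l i)) γ (c (l j))}) e := he.msup2 fun _ => B.refl _
  have t2 : T (ag * ft + (1 - e)) :=
    T_of_groupoid (fun i j => {γ | B.r (c (l i)) γ (c (l j))}) (fun _ => B.refl _)
      (fun _ _ _ _ ha _ hb => B.trans ha hb) (fun _ _ _ ha => B.symm ha)
      (fun i H hH => by
        have : H = B.grp (c (l i)) := SetLike.coe_injective hH
        rw [this]; exact hB _)
      ((s1.mul s2 fun _ _ _ _ ha _ hb => B.trans ha hb).add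
        ((msup2_one fun _ => B.refl _).sub s3)) hu1
  have t1 : T (1 + ag * ((Ei - 1) * af)) := by
    apply ATriv_comm
    rw [Matrix.mul_assoc, a1, hEi]
    exact ATriv_D_T he' fun a => (u a)⁻¹
  have t3 : T (1 + (D - 1) * e) := by rw [hD]; exact ATriv_D_T he u
  have b6 : ft * (D * e) = E * f := by
    rw [hft, Matrix.mul_assoc, ← Matrix.mul_assoc Di, d2, Matrix.one_mul, Matrix.mul_assoc, h.fp]
  have b7 : e * (D * e) = D * e := by rw [c1, ← Matrix.mul_assoc, ee]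
  have b8 : e' * (E * f) = E * f := by rw [← Matrix.mul_assoc, ← c3, Matrix.mul_assoc, h.pf]
  have e23 : (ag * ft + (1 - e)) * (1 + (D - 1) * e) = ag * (E * f) + (1 - e) := by
    simp only [Matrix.add_mul, Matrix.mul_add, Matrix.mul_sub, Matrix.sub_mul, Matrix.mul_assoc,
      Matrix.one_mul, Matrix.mul_one, b3, b6, b7, ee]
    abel
  have t := T_mul t1 (T_mul t2 t3)
  rw [e23] at t
  convert t using 1
  simp only [Matrix.add_mul, Matrix.mul_add, Matrix.mul_sub, Matrix.sub_mul, Matrix.mul_assoc,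
    Matrix.one_mul, Matrix.mul_one, a3, ← Matrix.mul_assoc af ag, a1, b8,
    ← Matrix.mul_assoc Ei E, d4]
  abel

end Pool.Agent.MP_f7db47_al.TW

end

end

section

/-!
Twisted coefficients: part CAlg.
-/

set_option linter.unusedSectionVars false

universe u u' v w

section

namespace Pool.Agent.MP_f7db47_al.TW

open GN

open Matrix

variable {R : Type v} [Ring R]

section Degree

variable {A : Type*} [Ring A] {I : Type} {deg : I → ℕ} {c c' c'' : ℤ} {M M' : Matrix I I A}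

variable [Fintype I] [DecidableEq I]

end Degree

section Comp

variable {G : Type} [Group G] [MulSemiringAction G R] {I K : Type} [Fintype I] [DecidableEq I] [Fintype K] [DecidableEq K]

theorem CAlg_comm (X : Matrix I K (SkewMonoidAlgebra R G)) (Y : Matrix K I (SkewMonoidAlgebra R G))
    (h : T (1 + Y * X)) : T (1 + X * Y) := by
  have := T_one_sub_comm (-X) Y (by rwa [Matrix.mul_neg, sub_neg_eq_add])
  rwa [Matrix.neg_mul, sub_neg_eq_add] at this

theorem CAlg_raise {D : K → ℕ} {N : ℕ} (hN : ∀ i, D i ≤ N) (n : ℕ) :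
    ∀ (m : ℕ) (X : Matrix K K (SkewMonoidAlgebra R G)), N < m + n →
      (∀ i j, X i j ≠ 0 → D j < D i ∧ m ≤ D j) → T (1 + X) := by
  induction n with
  | zero =>
    intro m X hm hX
    have : X = 0 := by
      ext1 i j
      by_contra e
      have := (hX i j e).2
      have := hN j
      omega
    rw [this, add_zero]
    exact T_one
  | succ n ih =>
    intro m X hm hX
    have e : X = (diagonal fun i => if m + 1 ≤ D i then 1 else 0) * X := by
      ext1 i j
      rw [diagonal_mul]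
      split_ifs with h
      · rw [one_mul]
      · rw [zero_mul]
        by_contra e
        have := hX i j e
        omega
    rw [e]
    refine CAlg_comm _ _ (ih (m + 1) _ (by omega) fun i j h => ?_)
    rw [mul_diagonal] at h
    refine ⟨(hX i j (left_ne_zero_of_mul h)).1, ?_⟩
    by_contra e
    exact right_ne_zero_of_mul h (if_neg e)

variable {r : Matrix I K (SkewMonoidAlgebra R G)} {j : Matrix K I (SkewMonoidAlgebra R G)}
  {Q W : Matrix K K (SkewMonoidAlgebra R G)}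

theorem CAlg_left (hr : r * j = 1) (hQ : j * r = Q) {X : Matrix K K (SkewMonoidAlgebra R G)}
    (hX : Q * X = X * Q) (Y : Matrix K K (SkewMonoidAlgebra R G)) :
    r * X * j * (r * Y * j) = r * (X * Y) * j := by
  have e : r * X * j * r = r * X := by
    rw [Matrix.mul_assoc, hQ, Matrix.mul_assoc, ← hX, ← hQ, ← Matrix.mul_assoc,
      ← Matrix.mul_assoc, hr, Matrix.one_mul]
  rw [← Matrix.mul_assoc, ← Matrix.mul_assoc, e, Matrix.mul_assoc r X Y]

theorem CAlg_right (hr : r * j = 1) (hQ : j * r = Q) (X : Matrix K K (SkewMonoidAlgebra R G))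
    {Y : Matrix K K (SkewMonoidAlgebra R G)} (hY : Q * Y = Y * Q) :
    r * X * j * (r * Y * j) = r * (X * Y) * j := by
  have e : j * (r * Y * j) = Y * j := by
    rw [← Matrix.mul_assoc, ← Matrix.mul_assoc, hQ, hY, ← hQ, Matrix.mul_assoc,
      Matrix.mul_assoc, hr, Matrix.mul_one]
  rw [Matrix.mul_assoc (r * X), e, ← Matrix.mul_assoc, Matrix.mul_assoc r X Y]

theorem CAlg_unip (hr : r * j = 1) (hQ : j * r = Q) {p n X : Matrix K K (SkewMonoidAlgebra R G)}
    (hp : Q * p = p * Q) (hn : n * p = 0) (hX : X = 1 + p * n) : T (r * X * j) := by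
  have e : r * X * j = 1 + r * p * (n * j) := by
    rw [hX, Matrix.mul_add, Matrix.add_mul, Matrix.mul_one, hr]
    simp only [Matrix.mul_assoc]
  rw [e]
  refine CAlg_comm _ _ ?_
  rw [Matrix.mul_assoc, ← Matrix.mul_assoc j, hQ, hp, ← Matrix.mul_assoc, hn, Matrix.zero_mul,
    add_zero]
  exact T_one

variable {D : K → ℕ} {N : ℕ}

theorem CAlg_up (hN : ∀ i, D i ≤ N) (hr : r * j = 1) (hQ : j * r = CAlg_Q _ D)
    {X : Matrix K K (SkewMonoidAlgebra R G)} (hX : Dg D 2 X) : T (r * (1 + X) * j) := by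
  rw [Matrix.mul_add, Matrix.add_mul, Matrix.mul_one, hr, Matrix.mul_assoc]
  refine CAlg_comm _ _ ?_
  rw [Matrix.mul_assoc, hQ]
  refine CAlg_raise hN (N + 1) 0 _ (by omega) fun a b h => ?_
  have := CAlg_dg_mul hX CAlg_dg_Q rfl a b h
  omega

theorem CAlg_two (hN : ∀ i, D i ≤ N) (hr : r * j = 1) (hQ : j * r = CAlg_Q _ D)
    {d Γ Γ' : Matrix K K (SkewMonoidAlgebra R G)} (h1 : Dg D (-1) d) (hΓ : Dg D 1 Γ)
    (hΓ' : Dg D 1 Γ') (hd : d * d = 0) (hc : d * Γ + Γ * d = 1) (hc' : d * Γ' + Γ' * d = 1) :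
    T (r * ((d + Γ') * (d + Γ)) * j) := by
  have e0 : d * (Γ' - Γ) = -((Γ' - Γ) * d) := by
    rw [eq_neg_iff_add_eq_zero, mul_sub, sub_mul, sub_add_sub_comm, hc, hc', sub_self]
  have e1 : (Γ' - Γ) * d * ((Γ' - Γ) * d) = 0 := by
    rw [mul_assoc, ← mul_assoc d, e0, neg_mul, mul_assoc _ d d, hd, mul_zero, neg_zero, mul_zero]
  have e2 : d * Γ * d = d := by
    rw [mul_assoc, eq_sub_of_add_eq' hc, mul_sub, mul_one, ← mul_assoc, hd, zero_mul, sub_zero]
  have e3 : d * Γ * ((Γ' - Γ) * d) = (Γ' - Γ) * d := by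
    rw [← neg_neg ((Γ' - Γ) * d), ← e0, mul_neg, ← mul_assoc, e2]
  have e4 : (d + Γ') * (d + Γ) = 1 + (Γ' - Γ) * d + Γ' * Γ := by
    rw [← hc, add_mul, mul_add, mul_add, hd, sub_mul]
    abel
  have e5 : (d + Γ') * (d + Γ) =
      (1 + (Γ' - Γ) * d) * (1 + (1 - (Γ' - Γ) * d) * (Γ' * Γ)) := by
    rw [e4, mul_add, mul_one, ← mul_assoc (1 + _), add_mul, one_mul, mul_sub, e1, mul_one,
      sub_zero, sub_add_cancel, one_mul]
  have g1 : Dg D 0 ((Γ' - Γ) * d) := CAlg_dg_mul (CAlg_dg_sub hΓ' hΓ) h1 rfl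
  rw [e5, ← CAlg_left hr hQ (CAlg_ev (CAlg_dg_add CAlg_dg_one g1) rfl)]
  refine T_mul (CAlg_unip hr hQ (p := d * Γ) (n := (Γ' - Γ) * d)
    (CAlg_ev (CAlg_dg_mul h1 hΓ rfl) rfl) ?_ (by rw [e3])) (CAlg_up hN hr hQ
      (CAlg_dg_mul (CAlg_dg_sub CAlg_dg_one g1) (CAlg_dg_mul hΓ' hΓ rfl) rfl))
  rw [mul_assoc, ← mul_assoc d, hd, zero_mul, mul_zero]

theorem CAlg_even (hW : CAlg_Q _ D * W + W * CAlg_Q _ D = W)
    {d Γ : Matrix K K (SkewMonoidAlgebra R G)} (h1 : Dg D (-1) d) (hΓ : Dg D 1 Γ) :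
    CAlg_Q _ D * (W * (d + Γ)) = W * (d + Γ) * CAlg_Q _ D := by
  refine CAlg_oo hW ?_
  rw [mul_add, add_mul, add_add_add_comm, CAlg_od h1 rfl, CAlg_od hΓ rfl]

theorem CAlg_indep (hN : ∀ i, D i ≤ N) (hr : r * j = 1) (hQ : j * r = CAlg_Q _ D)
    (hWW : W * W = 1) (hW : CAlg_Q _ D * W + W * CAlg_Q _ D = W)
    {d Γ Γ' : Matrix K K (SkewMonoidAlgebra R G)} (h1 : Dg D (-1) d) (hΓ : Dg D 1 Γ)
    (hΓ' : Dg D 1 Γ') (hd : d * d = 0) (hc : d * Γ + Γ * d = 1) (hc' : d * Γ' + Γ' * d = 1)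
    (h : T (r * (W * (d + Γ)) * j)) : T (r * (W * (d + Γ')) * j) := by
  have e : ∀ X Y : Matrix K K (SkewMonoidAlgebra R G), X * Y = X * W * (W * Y) := fun X Y => by
    rw [mul_assoc, ← mul_assoc W, hWW, one_mul]
  have t1 := CAlg_two hN hr hQ h1 hΓ hΓ' hd hc hc'
  have t2 := CAlg_two hN hr hQ h1 hΓ' hΓ' hd hc' hc'
  rw [e, ← CAlg_right hr hQ _ (CAlg_even hW h1 hΓ)] at t1
  rw [e, ← CAlg_right hr hQ _ (CAlg_even hW h1 hΓ')] at t2
  exact T_cancel_left (T_cancel_right h t1) t2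

theorem CAlg_pair (hr : r * j = 1) (hQ : j * r = Q) (hWW : W * W = 1)
    {M V : Matrix K K (SkewMonoidAlgebra R G)} (hM : Q * (W * M) = W * M * Q) (h1 : M * V = 1)
    (h2 : V * M = 1) :
    r * (W * M) * j * (r * (V * W) * j) = 1 ∧ r * (V * W) * j * (r * (W * M) * j) = 1 := by
  constructor
  · rw [CAlg_left hr hQ hM, mul_assoc, ← mul_assoc M, h1, one_mul, hWW, Matrix.mul_one, hr]
  · rw [CAlg_right hr hQ _ hM, mul_assoc, ← mul_assoc W, hWW, one_mul, h2, Matrix.mul_one, hr]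

end Comp

section Cone

variable {G : Type} [Group G] [MulSemiringAction G R] {I J : Type} [Fintype I] [DecidableEq I] [Fintype J] [DecidableEq J]

variable (R G) in
/-- The restriction to the odd part of the cone. -/
noncomputable def CAlg_r (deg : I → ℕ) : Matrix I (I ⊕ I) (SkewMonoidAlgebra R G) :=
  fromCols (CAlg_Q _ deg) (1 - CAlg_Q _ deg)

variable (R G) in
/-- The inclusion of the odd part of the cone. -/
noncomputable def CAlg_j (deg : I → ℕ) : Matrix (I ⊕ I) I (SkewMonoidAlgebra R G) :=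
  fromRows (CAlg_Q _ deg) (1 - CAlg_Q _ deg)

variable (R G I) in
/-- The swap. -/
noncomputable def CAlg_W : Matrix (I ⊕ I) (I ⊕ I) (SkewMonoidAlgebra R G) := fromBlocks 0 1 1 0

variable {deg : I → ℕ}

theorem CAlg_rj : CAlg_r R G deg * CAlg_j R G deg = 1 := by
  rw [CAlg_r, CAlg_j, fromCols_mul_fromRows]
  simp only [mul_sub, sub_mul, one_mul, mul_one, CAlg_QQ]
  abel

theorem CAlg_jr : CAlg_j R G deg * CAlg_r R G deg = CAlg_Q _ (CAlg_D deg) := by
  rw [CAlg_r, CAlg_j, fromRows_mul_fromCols, CAlg_QD]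
  simp only [mul_sub, sub_mul, one_mul, mul_one, CAlg_QQ, sub_self, sub_zero]

theorem CAlg_WW : CAlg_W R G I * CAlg_W R G I = 1 := by
  simp [CAlg_W, fromBlocks_multiply]

theorem CAlg_QW : CAlg_Q _ (CAlg_D deg) * CAlg_W R G I + CAlg_W R G I * CAlg_Q _ (CAlg_D deg) =
    CAlg_W R G I := by
  simp [CAlg_W, CAlg_QD, fromBlocks_multiply, fromBlocks_add]

theorem CAlg_formula (X Y Z U : Matrix I I (SkewMonoidAlgebra R G)) :
    CAlg_r R G deg * (CAlg_W R G I * fromBlocks X Y Z U) * CAlg_j R G deg =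
      (1 - CAlg_Q _ deg) * X * CAlg_Q _ deg + CAlg_Q _ deg * U * (1 - CAlg_Q _ deg) +
        ((1 - CAlg_Q _ deg) * Y * (1 - CAlg_Q _ deg) + CAlg_Q _ deg * Z * CAlg_Q _ deg) := by
  rw [CAlg_W, fromBlocks_multiply, CAlg_r, CAlg_j, fromCols_mul_fromBlocks, fromCols_mul_fromRows]
  simp only [zero_mul, one_mul, zero_add, add_zero, add_mul]
  abel

variable {d s : Matrix I I (SkewMonoidAlgebra R G)} {ι : Matrix I J (SkewMonoidAlgebra R G)}
  {ε : Matrix J I (SkewMonoidAlgebra R G)}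

theorem CAlg_mid (hι : ∀ i j, ι i j ≠ 0 → deg i = 0) (hε : ∀ j i, ε j i ≠ 0 → deg i = 0)
    (a : Matrix J J (SkewMonoidAlgebra R G)) : Dg deg 0 (ι * a * ε) := fun i k h => by
  obtain ⟨y, h1, h2⟩ := CAlg_ne h
  obtain ⟨x, h3, -⟩ := CAlg_ne h1
  rw [hι i x h3, hε y k h2, add_zero]

theorem CAlg_model {a b : Matrix J J (SkewMonoidAlgebra R G)} (hab : a * b = 1) (hba : b * a = 1)
    (h1 : ε * ι = 1) (h2 : ε * d = 0) (h3 : d * ι = 0) (h4 : ε * s = 0) (h5 : s * ι = 0)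
    (h6 : d * s + s * d = 1 - ι * ε) :
    fromBlocks d (ι * a * ε) 0 (-d) * fromBlocks s 0 (ι * b * ε) (-s) +
      fromBlocks s 0 (ι * b * ε) (-s) * fromBlocks d (ι * a * ε) 0 (-d) = 1 := by
  have e : ∀ x y : Matrix J J (SkewMonoidAlgebra R G), x * y = 1 →
      ι * x * ε * (ι * y * ε) = ι * ε := fun x y h => by
    rw [← Matrix.mul_assoc, ← Matrix.mul_assoc, Matrix.mul_assoc _ ε, h1, Matrix.mul_one,
      Matrix.mul_assoc ι, h, Matrix.mul_one]
  have e1 : ι * a * ε * s = 0 := by rw [Matrix.mul_assoc, h4, Matrix.mul_zero]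
  have e2 : ι * b * ε * d = 0 := by rw [Matrix.mul_assoc, h2, Matrix.mul_zero]
  have e3 : d * (ι * b * ε) = 0 := by
    rw [← Matrix.mul_assoc, ← Matrix.mul_assoc, h3, Matrix.zero_mul, Matrix.zero_mul]
  have e4 : s * (ι * a * ε) = 0 := by
    rw [← Matrix.mul_assoc, ← Matrix.mul_assoc, h5, Matrix.zero_mul, Matrix.zero_mul]
  have e5 : d * s = 1 - ι * ε - s * d := eq_sub_of_add_eq h6
  rw [fromBlocks_multiply, fromBlocks_multiply, fromBlocks_add, ← fromBlocks_one]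
  simp only [e a b hab, e b a hba, mul_zero, zero_mul, mul_neg, neg_mul, e1, e2, e3, e4, e5,
    neg_zero, add_zero, zero_add, neg_neg]
  congr 1 <;> abel

/-- The model case. -/
theorem CAlg_final {N : ℕ} (hN : ∀ i, deg i ≤ N) (hd : Dg deg (-1) d) (hs : Dg deg 1 s)
    (hι : ∀ i j, ι i j ≠ 0 → deg i = 0) (hε : ∀ j i, ε j i ≠ 0 → deg i = 0) (hdd : d * d = 0)
    {a b : Matrix J J (SkewMonoidAlgebra R G)}
    (h1 : ε * ι = 1) (h2 : ε * d = 0) (h3 : d * ι = 0) (h4 : ε * s = 0) (h5 : s * ι = 0)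
    (h6 : d * s + s * d = 1 - ι * ε) (m1 : MSup {1} d) (m2 : MSup {1} s)
    (m3 : MSup {1} ι) (m4 : MSup {1} ε)
    (h : T (CAlg_r R G deg * (CAlg_W R G I * (fromBlocks d (ι * a * ε) 0 (-d) +
      fromBlocks s 0 (ι * b * ε) (-s))) * CAlg_j R G deg)) : T a := by
  have q1 : CAlg_Q (SkewMonoidAlgebra R G) deg * ι = 0 := by
    ext1 i x
    rw [CAlg_Q, diagonal_mul]
    by_cases e : ι i x = 0
    · rw [e, mul_zero, Matrix.zero_apply]
    · rw [hι i x e, if_neg (by omega), zero_mul, Matrix.zero_apply]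
  have q2 : ε * CAlg_Q (SkewMonoidAlgebra R G) deg = 0 := by
    ext1 x i
    rw [CAlg_Q, mul_diagonal]
    by_cases e : ε x i = 0
    · rw [e, zero_mul, Matrix.zero_apply]
    · rw [hε x i e, if_neg (by omega), mul_zero, Matrix.zero_apply]
  have q3 : (1 - CAlg_Q (SkewMonoidAlgebra R G) deg) * ι = ι := by
    rw [Matrix.sub_mul, q1, Matrix.one_mul, sub_zero]
  have q4 : ε * (1 - CAlg_Q (SkewMonoidAlgebra R G) deg) = ε := by
    rw [Matrix.mul_sub, q2, Matrix.mul_one, sub_zero]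
  have key : ∀ x y : Matrix J J (SkewMonoidAlgebra R G),
      CAlg_r R G deg * (CAlg_W R G I * (fromBlocks d (ι * x * ε) 0 (-d) +
        fromBlocks s 0 (ι * y * ε) (-s))) * CAlg_j R G deg =
      (1 - CAlg_Q _ deg) * (d + s) * CAlg_Q _ deg +
        CAlg_Q _ deg * (-d + -s) * (1 - CAlg_Q _ deg) + ι * x * ε := fun x y => by
    rw [fromBlocks_add, CAlg_formula, add_zero, zero_add]
    simp only [← Matrix.mul_assoc, q1, q3, Matrix.zero_mul, add_zero]
    rw [Matrix.mul_assoc _ ε, q4]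
  have g1 : Dg (CAlg_D deg) (-1) (fromBlocks d (ι * (1 : Matrix J J (SkewMonoidAlgebra R G)) * ε) 0 (-d)) :=
    CAlg_dg_blocks hd (CAlg_mid hι hε 1) (CAlg_dg_zero _) (CAlg_dg_neg hd) rfl rfl
  have g2 : Dg (CAlg_D deg) 1 (fromBlocks s 0 (ι * (1 : Matrix J J (SkewMonoidAlgebra R G)) * ε) (-s)) :=
    CAlg_dg_blocks hs (CAlg_dg_zero _) (CAlg_mid hι hε 1) (CAlg_dg_neg hs) rfl rfl
  have g3 : fromBlocks d (ι * (1 : Matrix J J (SkewMonoidAlgebra R G)) * ε) 0 (-d) * fromBlocks d (ι * (1 : Matrix J J (SkewMonoidAlgebra R G)) * ε) 0 (-d) = 0 := by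
    rw [fromBlocks_multiply, ← fromBlocks_zero]
    simp only [Matrix.mul_one, mul_neg, neg_mul, hdd, mul_zero, zero_mul, add_zero, neg_zero,
      ← Matrix.mul_assoc, h3, Matrix.zero_mul, zero_add]
    rw [Matrix.mul_assoc, h2, Matrix.mul_zero, neg_zero]
  obtain ⟨i1, i2⟩ := CAlg_inv (CAlg_DN hN) g2 g3
    (CAlg_model (mul_one 1) (mul_one 1) h1 h2 h3 h4 h5 h6)
  obtain ⟨i3, i4⟩ := CAlg_pair CAlg_rj CAlg_jr CAlg_WW (CAlg_even CAlg_QW g1 g2) i1 i2
  have mQ : MSup {1} (CAlg_Q (SkewMonoidAlgebra R G) deg) := (std_diag deg _).msup rfl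
  have m0 : MSup {1} (1 : Matrix I I (SkewMonoidAlgebra R G)) := msup_one rfl
  have t0 := T_of_base i3 i4 (by
    rw [key]
    exact ((msup_one_mul (msup_one_mul (m0.sub mQ) (m1.add m2)) mQ).add
      (msup_one_mul (msup_one_mul mQ (m1.neg.add m2.neg)) (m0.sub mQ))).add
      (msup_one_mul (msup_one_mul m3 (msup_one rfl)) m4))
  rw [key] at h t0
  have e : (1 - CAlg_Q _ deg) * (d + s) * CAlg_Q _ deg +
      CAlg_Q _ deg * (-d + -s) * (1 - CAlg_Q _ deg) + ι * a * ε =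
      ((1 - CAlg_Q _ deg) * (d + s) * CAlg_Q _ deg +
        CAlg_Q _ deg * (-d + -s) * (1 - CAlg_Q _ deg) + ι * (1 : Matrix J J (SkewMonoidAlgebra R G)) * ε) * (1 + ι * ((a - 1) * ε)) := by
    have e1 : ((1 - CAlg_Q _ deg) * (d + s) * CAlg_Q _ deg +
        CAlg_Q _ deg * (-d + -s) * (1 - CAlg_Q _ deg) + ι * (1 : Matrix J J (SkewMonoidAlgebra R G)) * ε) * ι = ι := by
      simp only [Matrix.add_mul, Matrix.mul_assoc, q1, q3, Matrix.neg_mul, h1, h3, h5,
        Matrix.mul_zero, neg_zero, add_zero, zero_add, Matrix.mul_one]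
    generalize (1 - CAlg_Q _ deg) * (d + s) * CAlg_Q _ deg +
      CAlg_Q _ deg * (-d + -s) * (1 - CAlg_Q _ deg) = Z at e1 ⊢
    rw [mul_add, mul_one, ← Matrix.mul_assoc, e1]
    simp only [Matrix.sub_mul, Matrix.mul_sub, Matrix.mul_one, Matrix.one_mul, Matrix.mul_assoc]
    abel
  rw [e] at h
  have t1 := CAlg_comm _ _ (T_cancel_left t0 h)
  rwa [Matrix.mul_assoc, h1, Matrix.mul_one, add_sub_cancel] at t1

theorem CAlg_shear (H : Matrix I I (SkewMonoidAlgebra R G)) :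
    T (CAlg_r R G deg * (fromBlocks 1 H 0 1 : Matrix (I ⊕ I) (I ⊕ I) _) * CAlg_j R G deg) ∧
      T (CAlg_r R G deg * (CAlg_W R G I * fromBlocks 1 H 0 1 * CAlg_W R G I) *
        CAlg_j R G deg) := by
  constructor
  · refine CAlg_unip CAlg_rj CAlg_jr (p := fromBlocks 1 0 0 0) (n := fromBlocks 0 H 0 0) ?_ ?_ ?_
    · simp [CAlg_QD, fromBlocks_multiply]
    · simp [fromBlocks_multiply]
    · rw [← fromBlocks_one]
      simp [fromBlocks_multiply, fromBlocks_add, -fromBlocks_one]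
  · refine CAlg_unip CAlg_rj CAlg_jr (p := fromBlocks 0 0 0 1) (n := fromBlocks 0 0 H 0) ?_ ?_ ?_
    · simp [CAlg_QD, fromBlocks_multiply]
    · simp [fromBlocks_multiply]
    · rw [← fromBlocks_one]
      simp [CAlg_W, fromBlocks_multiply, fromBlocks_add, -fromBlocks_one]

/-- Change of the cone by a homotopy. -/
theorem CAlg_conj {N : ℕ} (hN : ∀ i, deg i ≤ N) {f f' H : Matrix I I (SkewMonoidAlgebra R G)}
    (hd : Dg deg (-1) d) (hf : Dg deg 0 f) (hf' : Dg deg 0 f') (hH : Dg deg 1 H)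
    (e : f - f' = d * H + H * d) {Γ Γ' : Matrix (I ⊕ I) (I ⊕ I) (SkewMonoidAlgebra R G)}
    (hΓ : Dg (CAlg_D deg) 1 Γ) (hΓ' : Dg (CAlg_D deg) 1 Γ')
    (hdd : fromBlocks d f 0 (-d) * fromBlocks d f 0 (-d) = 0)
    (hc : fromBlocks d f 0 (-d) * Γ + Γ * fromBlocks d f 0 (-d) = 1)
    (hc' : fromBlocks d f' 0 (-d) * Γ' + Γ' * fromBlocks d f' 0 (-d) = 1)
    (h : T (CAlg_r R G deg * (CAlg_W R G I * (fromBlocks d f 0 (-d) + Γ)) * CAlg_j R G deg)) :
    T (CAlg_r R G deg * (CAlg_W R G I * (fromBlocks d f' 0 (-d) + Γ')) * CAlg_j R G deg) := by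
  have p1 : fromBlocks 1 H 0 1 * fromBlocks 1 (-H) 0 1 =
      (1 : Matrix (I ⊕ I) (I ⊕ I) (SkewMonoidAlgebra R G)) := by
    simp [fromBlocks_multiply]
  have p2 : fromBlocks 1 (-H) 0 1 * fromBlocks 1 H 0 1 =
      (1 : Matrix (I ⊕ I) (I ⊕ I) (SkewMonoidAlgebra R G)) := by
    simp [fromBlocks_multiply]
  have p3 : fromBlocks d f 0 (-d) =
      fromBlocks 1 (-H) 0 1 * fromBlocks d f' 0 (-d) * fromBlocks 1 H 0 1 := by
    rw [eq_add_of_sub_eq e]
    simp only [fromBlocks_multiply, one_mul, mul_one, zero_mul, mul_zero, add_zero, zero_add,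
      mul_neg, neg_mul, neg_neg]
    congr 1
    abel
  have g0 : ∀ X : Matrix I I (SkewMonoidAlgebra R G), Dg deg 1 X →
      Dg (CAlg_D deg) 0 (fromBlocks 1 X 0 1) := fun X hX =>
    CAlg_dg_blocks CAlg_dg_one hX (CAlg_dg_zero _) CAlg_dg_one rfl rfl
  have g1 : Dg (CAlg_D deg) (-1) (fromBlocks d f 0 (-d)) :=
    CAlg_dg_blocks hd hf (CAlg_dg_zero _) (CAlg_dg_neg hd) rfl rfl
  have g2 : Dg (CAlg_D deg) (-1) (fromBlocks d f' 0 (-d)) :=
    CAlg_dg_blocks hd hf' (CAlg_dg_zero _) (CAlg_dg_neg hd) rfl rfl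
  have g3 := g0 H hH
  have g4 := g0 (-H) (CAlg_dg_neg hH)
  have s1 := (CAlg_shear (deg := deg) H).1
  have s2 := (CAlg_shear (deg := deg) (-H)).2
  generalize fromBlocks d f 0 (-d) = dd at *
  generalize fromBlocks d f' 0 (-d) = dd' at *
  generalize (fromBlocks 1 H 0 1 : Matrix (I ⊕ I) (I ⊕ I) _) = Φ at *
  generalize (fromBlocks 1 (-H) 0 1 : Matrix (I ⊕ I) (I ⊕ I) _) = Ψ at *
  have t := CAlg_indep (CAlg_DN hN) CAlg_rj CAlg_jr CAlg_WW CAlg_QW (Γ' := Ψ * Γ' * Φ) g1 hΓ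
    (CAlg_dg_mul (CAlg_dg_mul g4 hΓ' rfl) g3 rfl) hdd hc (by
      rw [p3]
      calc Ψ * dd' * Φ * (Ψ * Γ' * Φ) + Ψ * Γ' * Φ * (Ψ * dd' * Φ)
          = Ψ * (dd' * (Φ * Ψ) * Γ' + Γ' * (Φ * Ψ) * dd') * Φ := by
            simp only [mul_add, add_mul, mul_assoc]
        _ = 1 := by rw [p1, mul_one, mul_one, hc', mul_one, p2]) h
  have e1 : CAlg_W R G I * (dd + Ψ * Γ' * Φ) =
      CAlg_W R G I * Ψ * CAlg_W R G I * (CAlg_W R G I * (dd' + Γ') * Φ) := by
    rw [p3, ← add_mul, ← mul_add]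
    simp only [mul_assoc]
    rw [← mul_assoc (CAlg_W R G I) (CAlg_W R G I), CAlg_WW, one_mul]
  have e2 := CAlg_even CAlg_QW g2 hΓ'
  rw [e1, ← CAlg_right CAlg_rj CAlg_jr _ (by
      rw [← mul_assoc, e2, mul_assoc, CAlg_ev g3 rfl, ← mul_assoc]),
    ← CAlg_left CAlg_rj CAlg_jr e2] at t
  exact T_cancel_right s1 (T_cancel_left s2 t)

end Cone

section Control

variable {G : Type} [Group G] [MulSemiringAction G R] {Λ I J K : Type} (F : GN.FR G Λ)

theorem CAlg_ctl_cols {r : Λ → G → Λ → Prop} {li : I → Λ} {lj : J → Λ} {lk : K → Λ}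
    {X : Matrix I J (SkewMonoidAlgebra R G)} {Y : Matrix I K (SkewMonoidAlgebra R G)}
    (hX : Ctl r li lj X) (hY : Ctl r li lk Y) : Ctl r li (Sum.elim lj lk) (fromCols X Y) := by
  rintro i (x | x)
  · exact hX i x
  · exact hY i x

theorem CAlg_ctl_rows {r : Λ → G → Λ → Prop} {li : I → Λ} {lj : J → Λ} {lk : K → Λ}
    {X : Matrix J I (SkewMonoidAlgebra R G)} {Y : Matrix K I (SkewMonoidAlgebra R G)}
    (hX : Ctl r lj li X) (hY : Ctl r lk li Y) : Ctl r (Sum.elim lj lk) li (fromRows X Y) := by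
  rintro (x | x) i
  · exact hX x i
  · exact hY x i

theorem CAlg_ctl_geom [Fintype I] [DecidableEq I] {k : ℕ} {l : I → Λ}
    {X : Matrix I I (SkewMonoidAlgebra R G)} (hX : Ctl (F.rel k) l l X) (n : ℕ) :
    Ctl (F.rel (n * k)) l l (X ^ n) ∧ Ctl (F.rel (n * k)) l l (∑ i ∈ Finset.range n, X ^ i) := by
  induction n with
  | zero =>
    rw [pow_zero, Finset.sum_range_zero]
    exact ⟨ctl_one F _ l, ctl_zero _ l l⟩
  | succ n ih =>
    rw [pow_succ, Finset.sum_range_succ, Nat.succ_mul]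
    exact ⟨ih.1.mul F hX, (ih.2.add ih.1).le F (Nat.le_add_right _ _)⟩

theorem CAlg_ctl_comp [Fintype I] [DecidableEq I] {k : ℕ} {l : I → Λ} (deg : I → ℕ)
    {X : Matrix (I ⊕ I) (I ⊕ I) (SkewMonoidAlgebra R G)}
    (hX : Ctl (F.rel k) (Sum.elim l l) (Sum.elim l l) X) :
    Ctl (F.rel k) l l (CAlg_r R G deg * (CAlg_W R G I * X) * CAlg_j R G deg) ∧
      Ctl (F.rel k) l l (CAlg_r R G deg * (X * CAlg_W R G I) * CAlg_j R G deg) := by
  have h1 : Ctl (F.rel 0) l l (CAlg_Q (SkewMonoidAlgebra R G) deg) := ctl_diag F 0 l _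
  have h2 := (ctl_one F 0 l).sub h1
  have h3 : Ctl (F.rel 0) (Sum.elim l l) (Sum.elim l l) (CAlg_W R G I) :=
    Ctl.fromBlocks (ctl_zero _ l l) (ctl_one F 0 l) (ctl_one F 0 l) (ctl_zero _ l l)
  exact ⟨(((CAlg_ctl_cols h1 h2).mul F (h3.mul F hX)).mul F (CAlg_ctl_rows h1 h2)).le F (by omega),
    (((CAlg_ctl_cols h1 h2).mul F (hX.mul F h3)).mul F (CAlg_ctl_rows h1 h2)).le F (by omega)⟩

end Control

theorem torsion (N : ℕ) : ∃ c : ℕ, 0 < c ∧ ∀ (G : Type) [Group G] [MulSemiringAction G R] (Λ I J : Type) [Fintype I]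
    [DecidableEq I] [Fintype J] [DecidableEq J] (F : GN.FR G Λ) (κ : ℕ) (l : I → Λ) (deg : I → ℕ)
    (d f g h k s : Matrix I I (SkewMonoidAlgebra R G)) (a b : Matrix J J (SkewMonoidAlgebra R G))
    (ι : Matrix I J (SkewMonoidAlgebra R G)) (ε : Matrix J I (SkewMonoidAlgebra R G)),
    (∀ i, deg i ≤ N) → Dg deg (-1) d → Dg deg 0 f → Dg deg 0 g → Dg deg 1 h → Dg deg 1 k →
    Dg deg 1 s → (∀ i j, ι i j ≠ 0 → deg i = 0) → (∀ j i, ε j i ≠ 0 → deg i = 0) →
    Ctl (F.rel κ) l l d → Ctl (F.rel κ) l l f → Ctl (F.rel κ) l l g → Ctl (F.rel κ) l l h →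
    Ctl (F.rel κ) l l k → d * d = 0 → d * f = f * d → d * g = g * d →
    g * f = 1 + d * h + h * d → f * g = 1 + d * k + k * d → a * b = 1 → b * a = 1 →
    ε * ι = 1 → ε * d = 0 → d * s + s * d = 1 - ι * ε → ε * f = a * ε →
    MSup {1} d → MSup {1} s → MSup {1} ι → MSup {1} ε →
    ∃ A B : Matrix I I (SkewMonoidAlgebra R G), A * B = 1 ∧ B * A = 1 ∧ Ctl (F.rel (c * κ)) l l A ∧
      Ctl (F.rel (c * κ)) l l B ∧ (T A → T a) := by
  refine ⟨6 * N + 15, by omega, ?_⟩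
  intro G _ _ Λ I J _ _ _ _ F κ l deg d f g h k s a b ι ε hN hd hf hg hh hk hs hι hε cd cf cg ch ck
    hdd hdf hdg hgf hfg hab hba h1 h2 h6 h7 m1 m2 m3 m4
  have h3 : d * ι = 0 := by
    ext1 i x
    by_contra e
    obtain ⟨y, e1, e2⟩ := CAlg_ne e
    have := hd i y e1
    have := hι y x e2
    omega
  have h4 : ε * s = 0 := by
    ext1 x i
    by_contra e
    obtain ⟨y, e1, e2⟩ := CAlg_ne e
    have := hs y i e2
    have := hε x y e1
    omega
  have g0 : Dg deg 0 (ι * ε) := by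
    have := CAlg_mid hι hε 1
    rwa [Matrix.mul_one] at this
  have g1 : Dg (CAlg_D deg) (-1) (fromBlocks d f 0 (-d)) :=
    CAlg_dg_blocks hd hf (CAlg_dg_zero _) (CAlg_dg_neg hd) rfl rfl
  have g2 : Dg (CAlg_D deg) 1 (fromBlocks (-k) 0 g h * fromBlocks 1 (-(f * h - k * f)) 0 1) :=
    CAlg_dg_mul (CAlg_dg_blocks (CAlg_dg_neg hk) (CAlg_dg_zero _) hg hh rfl rfl)
      (CAlg_dg_blocks CAlg_dg_one (CAlg_dg_neg (CAlg_dg_sub (CAlg_dg_mul hf hh rfl)
        (CAlg_dg_mul hk hf rfl))) (CAlg_dg_zero _) CAlg_dg_one rfl rfl) rfl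
  have e1 : fromBlocks d f 0 (-d) * fromBlocks d f 0 (-d) = 0 := by
    rw [fromBlocks_multiply, ← fromBlocks_zero]
    simp [hdd, hdf]
  have e2 : fromBlocks d f 0 (-d) * fromBlocks (-k) 0 g h +
      fromBlocks (-k) 0 g h * fromBlocks d f 0 (-d) = fromBlocks 1 (f * h - k * f) 0 1 := by
    rw [fromBlocks_multiply, fromBlocks_multiply, fromBlocks_add]
    simp only [mul_neg, neg_mul, hdg, hgf, hfg, mul_zero, zero_mul, add_zero, zero_add, neg_zero]
    congr 1 <;> abel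
  have e3 : fromBlocks 1 (f * h - k * f) 0 1 * fromBlocks 1 (-(f * h - k * f)) 0 1 =
      (1 : Matrix (I ⊕ I) (I ⊕ I) (SkewMonoidAlgebra R G)) := by
    simp [fromBlocks_multiply]
  have e4 : fromBlocks 1 (-(f * h - k * f)) 0 1 * fromBlocks 1 (f * h - k * f) 0 1 =
      (1 : Matrix (I ⊕ I) (I ⊕ I) (SkewMonoidAlgebra R G)) := by
    simp [fromBlocks_multiply]
  have c1 : Ctl (F.rel κ) (Sum.elim l l) (Sum.elim l l) (fromBlocks d f 0 (-d)) :=
    Ctl.fromBlocks cd cf (ctl_zero _ l l) cd.neg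
  have c2 : Ctl (F.rel (κ + (κ + κ))) (Sum.elim l l) (Sum.elim l l)
      (fromBlocks (-k) 0 g h * fromBlocks 1 (-(f * h - k * f)) 0 1) :=
    (Ctl.fromBlocks ck.neg (ctl_zero _ l l) cg ch).mul F (Ctl.fromBlocks (ctl_one F _ l)
      ((cf.mul F ch).sub (ck.mul F cf)).neg (ctl_zero _ l l) (ctl_one F _ l))
  have e5 : fromBlocks d f 0 (-d) *
      (fromBlocks (-k) 0 g h * fromBlocks 1 (-(f * h - k * f)) 0 1) +
      fromBlocks (-k) 0 g h * fromBlocks 1 (-(f * h - k * f)) 0 1 * fromBlocks d f 0 (-d) = 1 := by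
    generalize fromBlocks d f 0 (-d) = dd at *
    generalize fromBlocks (-k) 0 g h = G0 at *
    generalize (fromBlocks 1 (f * h - k * f) 0 1 : Matrix (I ⊕ I) (I ⊕ I) _) = U at *
    generalize (fromBlocks 1 (-(f * h - k * f)) 0 1 : Matrix (I ⊕ I) (I ⊕ I) _) = V at *
    have u1 : dd * U = U * dd := by
      rw [← e2, mul_add, add_mul, ← mul_assoc, e1, mul_assoc G0, e1, zero_mul, mul_zero, zero_add,
        add_zero, mul_assoc]
    have u2 : V * dd = dd * V := by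
      rw [← mul_one (V * dd), ← e3, ← mul_assoc, mul_assoc V, u1, ← mul_assoc, e4, one_mul]
    rw [mul_assoc G0, u2, ← mul_assoc, ← mul_assoc, ← add_mul, e2, e3]
  generalize fromBlocks (-k) 0 g h * fromBlocks 1 (-(f * h - k * f)) 0 1 = Γ at g2 c2 e5
  obtain ⟨i1, i2⟩ := CAlg_inv (CAlg_DN hN) g2 e1 e5
  obtain ⟨i3, i4⟩ := CAlg_pair CAlg_rj CAlg_jr CAlg_WW (CAlg_even CAlg_QW g1 g2) i1 i2
  have c3 := (c1.le F (Nat.le_add_right _ (κ + κ))).add c2
  refine ⟨_, _, i3, i4, (CAlg_ctl_comp F deg c3).1.le F (by nlinarith),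
    (CAlg_ctl_comp F deg (c3.mul F (CAlg_ctl_geom F (c2.mul F c2).neg (N + 1 + 1)).2)).2.le F
      (le_of_eq (by ring)), fun t => ?_⟩
  have s1 : Dg deg 1 (s * (1 - ι * ε)) := CAlg_dg_mul hs (CAlg_dg_sub CAlg_dg_one g0) rfl
  have s2 : ε * (s * (1 - ι * ε)) = 0 := by rw [← Matrix.mul_assoc, h4, Matrix.zero_mul]
  have s3 : (1 - ι * ε) * ι = 0 := by
    rw [Matrix.sub_mul, Matrix.mul_assoc, h1, Matrix.one_mul, Matrix.mul_one, sub_self]
  have s4 : s * (1 - ι * ε) * ι = 0 := by rw [Matrix.mul_assoc, s3, Matrix.mul_zero]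
  have s5 : d * s * ι = 0 := by
    rw [eq_sub_of_add_eq h6, Matrix.sub_mul, s3, Matrix.mul_assoc, h3, Matrix.mul_zero, sub_zero]
  have s6 : d * (s * (1 - ι * ε)) + s * (1 - ι * ε) * d = 1 - ι * ε := by
    rw [← mul_assoc, mul_sub, mul_one, ← Matrix.mul_assoc, s5, Matrix.zero_mul, sub_zero,
      mul_assoc, sub_mul, Matrix.mul_assoc ι, h2, Matrix.mul_zero, sub_zero, one_mul, h6]
  have s7 : f - ι * a * ε = d * (f * s + s * f * (ι * ε)) + (f * s + s * f * (ι * ε)) * d := by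
    have u1 : ι * a * ε = ι * ε * f * (ι * ε) := by
      rw [Matrix.mul_assoc ι ε f, h7, ← Matrix.mul_assoc, ← Matrix.mul_assoc,
        Matrix.mul_assoc _ ε ι, h1, Matrix.mul_one]
    have u2 : ι * ε * d = 0 := by rw [Matrix.mul_assoc, h2, Matrix.mul_zero]
    have u3 : d * (ι * ε) = 0 := by rw [← Matrix.mul_assoc, h3, Matrix.zero_mul]
    rw [u1]
    generalize ι * ε = p at h6 u2 u3 ⊢
    have u4 : d * (f * s) + f * s * d = f - f * p := by
      rw [← mul_assoc, hdf, mul_assoc, mul_assoc, ← mul_add, h6, mul_sub, mul_one]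
    have u5 : d * (s * f * p) = f * p - p * f * p := by
      rw [← mul_assoc, ← mul_assoc, eq_sub_of_add_eq h6, sub_mul, sub_mul, sub_mul, sub_mul,
        one_mul, mul_assoc s d f, hdf, mul_assoc s, mul_assoc f d, u3, mul_zero, mul_zero, sub_zero]
    rw [mul_add, add_mul, mul_assoc _ p d, u2, mul_zero, add_zero, add_right_comm, u4, u5]
    abel
  refine CAlg_final (b := b) hN hd s1 hι hε hdd h1 h2 h3 s2 s4 s6 m1 ?_ m3 m4
    (CAlg_conj hN hd hf (CAlg_mid hι hε a) (CAlg_dg_add (CAlg_dg_mul hf hs rfl)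
      (CAlg_dg_mul (CAlg_dg_mul hs hf rfl) g0 rfl)) s7 g2
      (CAlg_dg_blocks s1 (CAlg_dg_zero _) (CAlg_mid hι hε b) (CAlg_dg_neg s1) rfl rfl) e1 e5
      (CAlg_model hab hba h1 h2 h3 s2 s4 s6) t)
  have m0 : MSup {1} ((1 : Matrix I I (SkewMonoidAlgebra R G)) - ι * ε) :=
    (msup_one (S := {1}) rfl).sub (msup_one_mul m3 m4)
  exact msup_one_mul m2 m0

end Pool.Agent.MP_f7db47_al.TW

end

end
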