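import Pool.Agent.Mg.Ff7db47.G88cbfa

section

/-!
Graded rings with a unit in each degree: restriction of supports.
-/

set_option linter.unusedSectionVars false

namespace Pool.Agent.MP_f7db47_al

open Matrix

universe u w

/-- A grading of `Λ` by the group `G` with a unit in each degree. -/
class GrS (G : outParam (Type u)) [Group G] (Λ : Type w) [Ring Λ] where
  c : Λ →+ (G →₀ Λ)
  sum_c : ∀ x, (c x).sum (fun _ a => a) = x
  c_c : ∀ x g, c (c x g) = Finsupp.single g (c x g)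
  mul : ∀ a b g h, c a = Finsupp.single g a → c b = Finsupp.single h b →
    c (a * b) = Finsupp.single (g * h) (a * b)
  one : c 1 = Finsupp.single 1 1
  un : G → Λˣ
  hun : ∀ g, c (un g).val = Finsupp.single g (un g).val
  hun' : ∀ g, c (un g)⁻¹.val = Finsupp.single g⁻¹ (un g)⁻¹.val

namespace Gr

variable {G : Type u} [Group G] {Λ : Type w} [Ring Λ] [GrS G Λ]

/-- The homogeneous components. -/
abbrev cp : Λ →+ (G →₀ Λ) := GrS.c

lemma ext' {x y : Λ} (h : ∀ g : G, cp x g = cp y g) : x = y := by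
  rw [← GrS.sum_c x, ← GrS.sum_c y]
  congr 1
  exact Finsupp.ext h

open Classical in
/-- The part of `x` supported on `S`. -/
noncomputable def pr (S : Set G) : Λ →+ Λ where
  toFun x := ((cp x).filter (· ∈ S)).sum fun _ a => a
  map_zero' := by simp [Finsupp.filter_zero]
  map_add' x y := by
    rw [map_add, Finsupp.filter_add, Finsupp.sum_add_index' (fun _ => rfl) fun _ _ _ => rfl]

open Classical in
lemma coeff_pr (S : Set G) (x : Λ) (g : G) :
    cp (pr S x) g = if g ∈ S then cp x g else 0 := by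
  have : cp (pr S x) = (cp x).filter (· ∈ S) := by
    change cp (((cp x).filter (· ∈ S)).sum fun _ a => a) = _
    rw [map_finsuppSum]
    conv_rhs => rw [← Finsupp.sum_single ((cp x).filter (· ∈ S))]
    refine Finsupp.sum_congr fun h _ => ?_
    rw [Finsupp.filter_apply]
    split_ifs
    · exact GrS.c_c x h
    · simp
  rw [this, Finsupp.filter_apply]

/-- `x` is supported in `S`. -/
def Sup (S : Set G) (x : Λ) : Prop := ∀ g, cp x g ≠ 0 → g ∈ S

lemma Sup.pr_eq {S : Set G} {x : Λ} (h : Sup S x) : pr S x = x := by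
  refine ext' fun g => ?_
  rw [coeff_pr]
  split_ifs with hg
  · rfl
  · by_contra h0
    exact hg (h g (Ne.symm h0))

lemma sup_pr (S : Set G) (x : Λ) : Sup S (pr S x) := by
  intro g hg
  rw [coeff_pr] at hg
  by_contra h
  exact hg (if_neg h)

lemma Sup.pr {S S' : Set G} {x : Λ} (h : Sup S x) : Sup S (pr S' x) := by
  intro g hg
  rw [coeff_pr] at hg
  apply h g
  intro h0
  exact hg (by simp [h0])

lemma pr_pr (S S' : Set G) (x : Λ) : pr S (pr S' x) = pr (S ∩ S') x := by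
  refine ext' fun g => ?_
  simp only [coeff_pr, Set.mem_inter_iff]
  by_cases h1 : g ∈ S <;> by_cases h2 : g ∈ S' <;> simp [h1, h2]

lemma pr_univ (x : Λ) : pr Set.univ x = x := by
  refine ext' fun g => ?_; simp [coeff_pr]

lemma pr_congr {S S' U : Set G} {x : Λ} (hx : Sup U x)
    (h : ∀ g ∈ U, g ∈ S ↔ g ∈ S') : pr S x = pr S' x := by
  refine ext' fun g => ?_
  simp only [coeff_pr]
  by_cases h0 : cp x g = 0
  · simp [h0]
  · by_cases h1 : g ∈ S
    · rw [if_pos h1, if_pos ((h g (hx g h0)).1 h1)]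
    · rw [if_neg h1, if_neg fun h2 => h1 ((h g (hx g h0)).2 h2)]

lemma Sup.pr_eq_zero {S U : Set G} {x : Λ} (hx : Sup U x)
    (h : ∀ g ∈ U, g ∉ S) : Pool.Agent.MP_f7db47_al.Gr.pr S x = 0 := by
  refine ext' fun g => ?_
  simp only [coeff_pr]
  by_cases h0 : cp x g = 0
  · simp [h0]
  · simp [h g (hx g h0)]

lemma pr_add_pr_compl (S : Set G) (x : Λ) : pr S x + pr Sᶜ x = x := by
  refine ext' fun g => ?_
  simp only [map_add, Finsupp.add_apply, coeff_pr, Set.mem_compl_iff]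
  by_cases h : g ∈ S <;> simp [h]

lemma Sup.mono {S S' : Set G} {x : Λ} (hx : Sup S x) (h : S ⊆ S') : Sup S' x :=
  fun g hg => h (hx g hg)

lemma sup_univ (x : Λ) : Sup Set.univ x := fun _ _ => trivial

lemma sup_zero (S : Set G) : Sup S (0 : Λ) := fun g hg => absurd (by simp) hg

lemma Sup.eq_zero {S S' : Set G} {x : Λ} (h : Sup S x) (h' : Sup S' x)
    (hd : ∀ g ∈ S, g ∉ S') : x = 0 := by
  refine ext' fun g => ?_
  by_contra h0
  rw [map_zero] at h0
  exact hd g (h g h0) (h' g h0)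

lemma Sup.add {S : Set G} {x y : Λ} (hx : Sup S x) (hy : Sup S y) :
    Sup S (x + y) := by
  intro g hg
  by_contra h
  have h1 : cp x g = 0 := by by_contra h1; exact h (hx g h1)
  have h2 : cp y g = 0 := by by_contra h2; exact h (hy g h2)
  exact hg (by simp [h1, h2])

lemma Sup.neg {S : Set G} {x : Λ} (hx : Sup S x) : Sup S (-x) := by
  intro g hg
  exact hx g (by simpa using hg)

lemma Sup.sub {S : Set G} {x y : Λ} (hx : Sup S x) (hy : Sup S y) :
    Sup S (x - y) := by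
  rw [sub_eq_add_neg]; exact hx.add hy.neg

lemma sup_sum {S : Set G} {ι : Type*} (s : Finset ι) (f : ι → Λ)
    (h : ∀ i ∈ s, Sup S (f i)) : Sup S (∑ i ∈ s, f i) :=
  Finset.sum_induction f (Sup S) (fun _ _ => Sup.add) (sup_zero S) h

lemma sup_of_single {g : G} {a : Λ} (h : cp a = Finsupp.single g a) : Sup {g} a := by
  classical
  intro k hk
  rw [h, Finsupp.single_apply] at hk
  by_contra h'
  exact hk (if_neg fun e => h' e.symm)

lemma Sup.single {g : G} {a : Λ} (h : Sup {g} a) : cp a = Finsupp.single g a := by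
  have h1 : cp a = Finsupp.single g (cp a g) :=
    Finsupp.eq_single_iff.2 ⟨fun k hk => Finset.mem_singleton.2
      (h k (Finsupp.mem_support_iff.1 hk)), rfl⟩
  have h2 : cp a g = a := by
    conv_rhs => rw [← GrS.sum_c a]
    change _ = (cp a).sum _
    conv_rhs => rw [h1]
    rw [Finsupp.sum_single_index rfl]
  rw [h1, h2]

lemma sup_cp (x : Λ) (g : G) : Sup {g} (cp x g) := sup_of_single (GrS.c_c x g)

lemma Sup.of_mem {S : Set G} {g : G} {a : Λ} (h : Sup {g} a) (hg : g ∈ S) : Sup S a :=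
  h.mono (Set.singleton_subset_iff.2 hg)

/-- The unit of degree `g`. -/
abbrev un (g : G) : Λ := (GrS.un g : Λˣ).val

/-- The inverse of the unit of degree `g`. -/
abbrev un' (g : G) : Λ := ((GrS.un g : Λˣ)⁻¹).val

lemma sup_un (g : G) : Sup {g} (un g : Λ) := sup_of_single (GrS.hun g)

lemma sup_un' (g : G) : Sup {g⁻¹} (un' g : Λ) := sup_of_single (GrS.hun' g)

lemma un_mul_un' (g : G) : (un g : Λ) * un' g = 1 := Units.mul_inv _

lemma un'_mul_un (g : G) : (un' g : Λ) * un g = 1 := Units.inv_mul _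

lemma sup_one {S : Set G} (hg : (1 : G) ∈ S) : Sup S (1 : Λ) :=
  (sup_of_single GrS.one).of_mem hg

lemma Sup.induction {S : Set G} {P : Λ → Prop} {x : Λ}
    (hx : Sup S x) (h0 : P 0) (hadd : ∀ a b, P a → P b → P (a + b))
    (hs : ∀ g ∈ S, ∀ a, Sup {g} a → P a) : P x := by
  rw [← GrS.sum_c x, Finsupp.sum]
  exact Finset.sum_induction _ P hadd h0
    fun g hg => hs g (hx g (Finsupp.mem_support_iff.1 hg)) _ (sup_cp x g)

lemma Sup.mul {S S' U : Set G} {x y : Λ} (hx : Sup S x) (hy : Sup S' y)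
    (h : ∀ a ∈ S, ∀ b ∈ S', a * b ∈ U) : Sup U (x * y) := by
  refine hx.induction (P := fun x => Sup U (x * y)) (by simpa using sup_zero U)
    (fun a b ha hb => by simpa [add_mul] using ha.add hb) fun g hg a ha => ?_
  refine hy.induction (P := fun y => Sup U (a * y))
    (by simpa using sup_zero U)
    (fun a b ha hb => by simpa [mul_add] using ha.add hb) fun k hk b hb => ?_
  exact (sup_of_single (GrS.mul a b g k ha.single hb.single)).of_mem (h g hg k hk)

lemma sum_cp {s : Finset G} {x : Λ} (h : Sup (s : Set G) x) : ∑ g ∈ s, cp x g = x := by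
  conv_rhs => rw [← GrS.sum_c x]
  exact (Finsupp.sum_of_support_subset _ (fun g hg => h g (Finsupp.mem_support_iff.1 hg))
    (fun _ a => a) fun _ _ => rfl).symm

lemma pr_mul_right {S S₁ U : Set G} (x : Λ) {y : Λ}
    (hy : Sup U y) (h : ∀ g, ∀ k ∈ U, g * k ∈ S ↔ g ∈ S₁) : pr S (x * y) = pr S₁ x * y := by
  conv_lhs => rw [← pr_add_pr_compl S₁ x, add_mul, map_add]
  rw [((sup_pr S₁ x).mul hy fun a ha b hb => (h a b hb).2 ha).pr_eq,
    ((sup_pr S₁ᶜ x).mul (U := Sᶜ) hy fun a ha b hb hab => ha ((h a b hb).1 hab)).pr_eq_zero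
      fun g hg => hg, add_zero]

lemma pr_mul_left {S S₁ U : Set G} {x : Λ} (y : Λ)
    (hx : Sup U x) (h : ∀ k ∈ U, ∀ g, k * g ∈ S ↔ g ∈ S₁) : pr S (x * y) = x * pr S₁ y := by
  conv_lhs => rw [← pr_add_pr_compl S₁ y, mul_add, map_add]
  rw [(hx.mul (sup_pr S₁ y) fun a ha b hb => (h a ha b).2 hb).pr_eq,
    (hx.mul (U := Sᶜ) (sup_pr S₁ᶜ y) fun a ha b hb hab => hb ((h a ha b).1 hab)).pr_eq_zero
      fun g hg => hg, add_zero]

section Mat

variable {I J K : Type}

/-- All entries are supported in `S`. -/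
def MSup (S : Set G) (A : Matrix I J Λ) : Prop := ∀ i j, Sup S (A i j)

/-- Entrywise restriction of support. -/
noncomputable def mpr (S : Set G) (A : Matrix I J Λ) :
    Matrix I J Λ := A.map (pr S)

lemma msup_mpr (S : Set G) (A : Matrix I J Λ) : MSup S (mpr S A) :=
  fun i j => sup_pr S (A i j)

lemma MSup.mpr {S S' : Set G} {A : Matrix I J Λ} (h : MSup S A) :
    MSup S (mpr S' A) := fun i j => (h i j).pr

lemma MSup.mpr_eq {S : Set G} {A : Matrix I J Λ} (h : MSup S A) :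
    Pool.Agent.MP_f7db47_al.Gr.mpr S A = A := by
  ext1 i j; exact (h i j).pr_eq

lemma MSup.mpr_eq_zero {S U : Set G} {A : Matrix I J Λ} (h : MSup U A)
    (hd : ∀ g ∈ U, g ∉ S) : Pool.Agent.MP_f7db47_al.Gr.mpr S A = 0 := by
  ext1 i j; exact (h i j).pr_eq_zero hd

lemma MSup.eq_zero {S S' : Set G} {A : Matrix I J Λ} (h : MSup S A)
    (h' : MSup S' A) (hd : ∀ g ∈ S, g ∉ S') : A = 0 := by
  ext1 i j; exact (h i j).eq_zero (h' i j) hd

lemma mpr_add (S : Set G) (A B : Matrix I J Λ) :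
    mpr S (A + B) = mpr S A + mpr S B := by
  ext1 i j; exact map_add (pr S) _ _

lemma mpr_sub (S : Set G) (A B : Matrix I J Λ) :
    mpr S (A - B) = mpr S A - mpr S B := by
  ext1 i j; exact map_sub (pr S) _ _

lemma mpr_mpr (S S' : Set G) (A : Matrix I J Λ) :
    mpr S (mpr S' A) = mpr (S ∩ S') A := by
  ext1 i j; exact pr_pr _ _ _

lemma mpr_add_mpr_compl (S : Set G) (A : Matrix I J Λ) :
    mpr S A + mpr Sᶜ A = A := by
  ext1 i j; exact pr_add_pr_compl _ _

lemma mpr_congr {S S' U : Set G} {A : Matrix I J Λ} (hA : MSup U A)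
    (h : ∀ g ∈ U, g ∈ S ↔ g ∈ S') : mpr S A = mpr S' A := by
  ext1 i j; exact pr_congr (hA i j) h

lemma MSup.mono {S S' : Set G} {A : Matrix I J Λ} (hA : MSup S A)
    (h : S ⊆ S') : MSup S' A := fun i j => (hA i j).mono h

lemma msup_zero (S : Set G) : MSup S (0 : Matrix I J Λ) :=
  fun _ _ => sup_zero S

lemma msup_univ (A : Matrix I J Λ) : MSup Set.univ A := fun _ _ => sup_univ _

lemma MSup.add {S : Set G} {A B : Matrix I J Λ} (hA : MSup S A)
    (hB : MSup S B) : MSup S (A + B) := fun i j => (hA i j).add (hB i j)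

lemma MSup.neg {S : Set G} {A : Matrix I J Λ} (hA : MSup S A) :
    MSup S (-A) := fun i j => (hA i j).neg

lemma MSup.sub {S : Set G} {A B : Matrix I J Λ} (hA : MSup S A)
    (hB : MSup S B) : MSup S (A - B) := fun i j => (hA i j).sub (hB i j)

lemma msup_sum {S : Set G} {ι : Type*} (s : Finset ι) (f : ι → Matrix I J Λ)
    (h : ∀ i ∈ s, MSup S (f i)) : MSup S (∑ i ∈ s, f i) :=
  Finset.sum_induction f (MSup S) (fun _ _ => MSup.add) (msup_zero S) h

lemma msup_one [DecidableEq I] {S : Set G} (h : (1 : G) ∈ S) :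
    MSup S (1 : Matrix I I Λ) := by
  intro i j
  by_cases hij : i = j
  · subst hij; rw [Matrix.one_apply_eq]; exact sup_one h
  · rw [Matrix.one_apply_ne hij]; exact sup_zero S

lemma MSup.mul [Fintype J] {S S' U : Set G} {A : Matrix I J Λ}
    {B : Matrix J K Λ} (hA : MSup S A) (hB : MSup S' B)
    (h : ∀ a ∈ S, ∀ b ∈ S', a * b ∈ U) : MSup U (A * B) := fun i j => by
  rw [Matrix.mul_apply]
  exact sup_sum _ _ fun k _ => (hA i k).mul (hB k j) h

lemma MSup.fromBlocks {L : Type} {S : Set G} {A : Matrix I K Λ}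
    {B : Matrix I L Λ} {C : Matrix J K Λ}
    {D : Matrix J L Λ} (hA : MSup S A) (hB : MSup S B) (hC : MSup S C)
    (hD : MSup S D) : MSup S (fromBlocks A B C D) := by
  rintro (i | i) (j | j)
  exacts [hA i j, hB i j, hC i j, hD i j]

lemma mpr_mul_right [Fintype J] {S S₁ U : Set G} (A : Matrix I J Λ)
    {B : Matrix J K Λ} (hB : MSup U B)
    (h : ∀ g, ∀ k ∈ U, g * k ∈ S ↔ g ∈ S₁) : mpr S (A * B) = mpr S₁ A * B := by
  ext1 i j
  simp only [mpr, Matrix.map_apply, Matrix.mul_apply, map_sum]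
  exact Finset.sum_congr rfl fun k _ => pr_mul_right _ (hB k j) h

lemma mpr_mul_left [Fintype J] {S S₁ U : Set G} {A : Matrix I J Λ}
    (B : Matrix J K Λ) (hA : MSup U A)
    (h : ∀ k ∈ U, ∀ g, k * g ∈ S ↔ g ∈ S₁) : mpr S (A * B) = A * mpr S₁ B := by
  ext1 i j
  simp only [mpr, Matrix.map_apply, Matrix.mul_apply, map_sum]
  exact Finset.sum_congr rfl fun k _ => pr_mul_left _ (hA i k) h

/-- The finite set of group elements occurring in a matrix. -/
lemma exists_finset_msup [Fintype I] [Fintype J] (A : Matrix I J Λ) :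
    ∃ s : Finset G, MSup (s : Set G) A ∧ ∀ S : Set G, MSup S A → (s : Set G) ⊆ S := by
  classical
  refine ⟨Finset.univ.biUnion fun p : I × J => (cp (A p.1 p.2)).support, ?_, ?_⟩
  · intro i j g hg
    simp only [Finset.coe_biUnion, Finset.coe_univ, Set.mem_univ, Set.iUnion_true,
      Set.mem_iUnion, Finset.mem_coe, Finsupp.mem_support_iff]
    exact ⟨(i, j), hg⟩
  · intro S hS g hg
    simp only [Finset.coe_biUnion, Finset.coe_univ, Set.mem_univ, Set.iUnion_true,
      Set.mem_iUnion, Finset.mem_coe, Finsupp.mem_support_iff] at hg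
    obtain ⟨p, hp⟩ := hg
    exact hS _ _ g hp

end Mat

end Gr

end Pool.Agent.MP_f7db47_al

end

section

/-!
Path nilpotent matrices over graded rings.
-/

set_option linter.unusedSectionVars false

namespace Pool.Agent.MP_f7db47_al

namespace Gr

open Matrix

universe u w x

variable {G : Type u} [Group G] {Λ : Type w} [Ring Λ] [GrS G Λ]
variable {I J : Type}

/-- Restriction of the support of a vector. -/
noncomputable def prv (S : Set G) (v : J → Λ) : J → Λ :=
  fun i => pr S (v i)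

/-- A vector supported in `S`. -/
def VSup (S : Set G) (v : J → Λ) : Prop := ∀ i, Sup S (v i)

lemma vsup_prv (S : Set G) (v : J → Λ) : VSup S (prv S v) :=
  fun i => sup_pr S (v i)

lemma prv_prv (S S' : Set G) (v : J → Λ) :
    prv S (prv S' v) = prv (S ∩ S') v := funext fun _ => pr_pr _ _ _

lemma prv_univ (v : J → Λ) : prv Set.univ v = v := funext fun _ => pr_univ _

lemma prv_zero (S : Set G) : prv S (0 : J → Λ) = 0 :=
  funext fun _ => map_zero (pr S)

lemma prv_add (S : Set G) (v w : J → Λ) : prv S (v + w) = prv S v + prv S w :=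
  funext fun _ => map_add (pr S) _ _

lemma prv_vecMul_right [Fintype I] {S S₁ U : Set G} (v : I → Λ)
    {B : Matrix I J Λ} (hB : MSup U B)
    (h : ∀ g, ∀ k ∈ U, g * k ∈ S ↔ g ∈ S₁) : prv S (v ᵥ* B) = prv S₁ v ᵥ* B := by
  funext j
  simp only [prv, vecMul, dotProduct, map_sum]
  exact Finset.sum_congr rfl fun k _ => pr_mul_right _ (hB k j) h

lemma prv_vecMul_left [Fintype I] {S S₁ U : Set G} {v : I → Λ}
    (B : Matrix I J Λ) (hv : VSup U v)
    (h : ∀ k ∈ U, ∀ g, k * g ∈ S ↔ g ∈ S₁) : prv S (v ᵥ* B) = v ᵥ* mpr S₁ B := by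
  funext j
  simp only [prv, vecMul, dotProduct, map_sum, mpr, Matrix.map_apply]
  exact Finset.sum_congr rfl fun k _ => pr_mul_left _ (hv k) h

lemma prv_single_smul (S : Set G) (g : G) {a : Λ} (ha : Sup {g} a) (v : J → Λ) :
    prv S (a • v) = a • prv {y | g * y ∈ S} v := by
  funext j
  simp only [prv, Pi.smul_apply, smul_eq_mul]
  refine pr_mul_left (U := {g}) _ ha ?_
  rintro k rfl y; rfl

lemma prv_smul {S U : Set G} (c : Λ) {v : J → Λ}
    (hv : VSup U v) (h : ∀ g, ∀ k ∈ U, g * k ∈ S ↔ g ∈ S) : prv S (c • v) = pr S c • v := by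
  funext j
  simp only [prv, Pi.smul_apply, smul_eq_mul]
  exact pr_mul_right _ (hv j) h

lemma exists_finset_vsup [Finite J] (v : J → Λ) :
    {g | ∃ i, cp (v i) g ≠ 0}.Finite := by
  have : {g | ∃ i, cp (v i) g ≠ 0} = ⋃ i, ((cp (v i)).support : Set G) := by
    ext g; simp
  rw [this]
  exact Set.finite_iUnion fun i => Finset.finite_toSet _

/-- Decomposition along left cosets. -/
lemma prv_induction [Finite J] (K : Subgroup G) {P : (J → Λ) → Prop}
    (h0 : P 0) (hadd : ∀ a b, P a → P b → P (a + b)) (v : J → Λ) {S : Set G}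
    (hS : RInv K S) (h : ∀ g, (∃ i, cp (v i) g ≠ 0) → P (prv (lc g K) v)) : P (prv S v) := by
  classical
  set s := (exists_finset_vsup v).toFinset with hs
  set c : Finset (G ⧸ K) := (s.image QuotientGroup.mk).filter fun q => q.out ∈ S with hc
  have hlc : ∀ (q : G ⧸ K) (g : G), g ∈ lc q.out K ↔ q = (g : G ⧸ K) := by
    intro q g
    rw [lc, Set.mem_ofPred_eq, ← QuotientGroup.eq, QuotientGroup.out_eq']
  have hout : ∀ g : G, (g : G ⧸ K).out ∈ S ↔ g ∈ S := by
    intro g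
    obtain ⟨k, hk⟩ := QuotientGroup.mk_out_eq_mul K g
    rw [hk]; exact hS g k k.2
  have : prv S v = ∑ q ∈ c, prv (lc q.out K) v := by
    funext i
    refine ext' fun g => ?_
    rw [Finset.sum_apply, map_sum, Finsupp.finsetSum_apply]
    simp only [prv, coeff_pr, hlc]
    rw [Finset.sum_ite_eq']
    by_cases h0 : cp (v i) g = 0
    · simp [h0]
    · have : (g : G ⧸ K) ∈ c ↔ g ∈ S := by
        rw [hc, Finset.mem_filter, hout]
        refine and_iff_right (Finset.mem_image_of_mem _ ?_)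
        rw [hs, Set.Finite.mem_toFinset]; exact ⟨i, h0⟩
      by_cases hg : g ∈ S
      · rw [if_pos hg, if_pos (this.2 hg)]
      · rw [if_neg hg, if_neg fun h => hg (this.1 h)]
  rw [this]
  refine Finset.sum_induction _ P hadd h0 fun q hq => ?_
  rw [hc, Finset.mem_filter, Finset.mem_image] at hq
  obtain ⟨⟨g, hg, rfl⟩, -⟩ := hq
  rw [hs, Set.Finite.mem_toFinset] at hg
  have : lc (g : G ⧸ K).out K = lc g K := by
    ext y
    rw [hlc, lc, Set.mem_ofPred_eq, QuotientGroup.eq]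
  rw [this]
  exact h g hg

variable (Λ) in
/-- A finite filtration of the free module, graded by the left cosets of `K`. -/
structure Filt (K : Subgroup G) (J : Type) where
  V : ℕ → Submodule Λ (J → Λ)
  k : ℕ
  zero : V 0 = ⊥
  top : V k = ⊤
  mono : Monotone V
  graded : ∀ j S, RInv K S → ∀ v ∈ V j, prv S v ∈ V j

variable [Fintype J] [DecidableEq J] {K : Subgroup G}

/-- `ν` lowers the filtration by `n`. -/
def Filt.Low (F : Filt Λ K J) (n : ℕ) (ν : Matrix J J Λ) : Prop :=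
  ∀ j, ∀ v ∈ F.V (j + n), v ᵥ* ν ∈ F.V j

/-- Path nilpotent with respect to `K`. -/
def PN (K : Subgroup G) (ν : Matrix J J Λ) : Prop :=
  ∃ F : Filt Λ K J, F.Low 1 ν

namespace Filt

variable {F : Filt Λ K J} {n m : ℕ} {ν μ : Matrix J J Λ}

lemma low_zero : F.Low n 0 := fun j v _ => by simp

lemma Low.add (h : F.Low n ν) (h' : F.Low n μ) : F.Low n (ν + μ) := fun j v hv => by
  rw [vecMul_add]; exact add_mem (h j v hv) (h' j v hv)

lemma Low.mul (h : F.Low n ν) (h' : F.Low m μ) : F.Low (m + n) (ν * μ) := fun j v hv => by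
  rw [← vecMul_vecMul]
  exact h' j _ (h (j + m) v (by rwa [add_assoc]))

lemma Low.of_le (h : F.Low n ν) (hm : m ≤ n) : F.Low m ν := fun j v hv =>
  h j v (F.mono (by omega) hv)

lemma Low.eq_zero (h : F.Low n ν) (hn : F.k ≤ n) : ν = 0 := by
  ext1 i j
  have : Pi.single i 1 ᵥ* ν ∈ F.V 0 :=
    h 0 _ (F.mono (by omega : F.k ≤ 0 + n) (by rw [F.top]; trivial))
  rw [F.zero, Submodule.mem_bot] at this
  simpa using congrFun this j

lemma Low.pow (h : F.Low 1 ν) (n : ℕ) : F.Low n (ν ^ n) := by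
  induction n with
  | zero => intro j v hv; simpa using hv
  | succ n ih => rw [pow_succ']; exact h.mul ih

lemma low_sum {ι : Type*} (s : Finset ι) (f : ι → Matrix J J Λ)
    (h : ∀ i ∈ s, F.Low n (f i)) : F.Low n (∑ i ∈ s, f i) :=
  Finset.sum_induction f (F.Low n) (fun _ _ => Low.add) low_zero h

lemma Low.mpr (h : F.Low n ν) {σ : Set G} (hl : ∀ k ∈ K, ∀ g, k * g ∈ σ ↔ g ∈ σ)
    (hr : RInv K σ) : F.Low n (mpr σ ν) := by
  intro j v hv
  rw [← prv_univ v]
  refine prv_induction K (P := fun z => z ᵥ* Pool.Agent.MP_f7db47_al.Gr.mpr σ ν ∈ F.V j)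
    (by simp) (fun a b ha hb => by rw [add_vecMul]; exact add_mem ha hb) v (rinv_univ K)
    fun g _ => ?_
  rw [← prv_vecMul_left (S := {y | g⁻¹ * y ∈ σ}) ν (vsup_prv _ v)]
  · exact F.graded _ _ (hr.left _) _ (h j _ (F.graded _ _ (rinv_lc g K) v hv))
  · intro k hk y
    simp only [Set.mem_ofPred_eq, ← mul_assoc]
    exact hl _ hk y

end Filt

/-- Path nilpotency only depends on finitely many elements of `K`. -/
lemma PN.refine {ν : Matrix J J Λ} (h : PN K ν) :
    ∃ Φ : Finset G, (Φ : Set G) ⊆ K ∧ ∀ K₂ : Subgroup G, (Φ : Set G) ⊆ K₂ → PN K₂ ν := by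
  obtain ⟨F, hF⟩ := h
  let W : ℕ → Set (J → Λ) := fun m => Nat.rec
    (Set.range fun i => Pi.single i 1)
    (fun _ Wm => ⋃ w ∈ Wm, (fun g => (un' g : Λ) • prv (lc g K) (w ᵥ* ν)) ''
      {g | ∃ i, cp ((w ᵥ* ν) i) g ≠ 0}) m
  have hW0 : W 0 = Set.range fun i => Pi.single i 1 := rfl
  have hWs : ∀ m, W (m + 1) = ⋃ w ∈ W m,
      (fun g => (un' g : Λ) • prv (lc g K) (w ᵥ* ν)) ''
      {g | ∃ i, cp ((w ᵥ* ν) i) g ≠ 0} := fun _ => rfl
  have hfin : ∀ m, (W m).Finite := by
    intro m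
    induction m with
    | zero => exact Set.finite_range _
    | succ m ih => exact ih.biUnion fun w _ => (exists_finset_vsup _).image _
  have hsup : ∀ m, ∀ w ∈ W m, VSup (K : Set G) w := by
    intro m w hw
    cases m with
    | zero =>
      obtain ⟨i, rfl⟩ := hw
      intro j
      by_cases hij : j = i
      · subst hij; simpa using sup_one K.one_mem
      · simpa [Pi.single_eq_of_ne hij] using sup_zero _
    | succ m =>
      rw [hWs] at hw
      simp only [Set.mem_iUnion] at hw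
      obtain ⟨w, -, g, -, rfl⟩ := hw
      intro j
      refine (sup_un' g).mul (vsup_prv (lc g K) _ j) ?_
      rintro a rfl b hb; exact hb
  have hV : ∀ m j, F.k ≤ m + j → ∀ w ∈ W m, w ∈ F.V j := by
    intro m
    induction m with
    | zero => intro j hj w _; exact F.mono (by omega : F.k ≤ j) (by rw [F.top]; trivial)
    | succ m ih =>
      intro j hj w hw
      rw [hWs] at hw
      simp only [Set.mem_iUnion] at hw
      obtain ⟨w, hw, g, -, rfl⟩ := hw
      exact Submodule.smul_mem _ _ (F.graded _ _ (rinv_lc g K) _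
        (hF j w (ih (j + 1) (by omega) w hw)))
  have hΦ : (⋃ m ≤ F.k, ⋃ w ∈ W m, {g | ∃ i, cp (w i) g ≠ 0}).Finite :=
    (Set.finite_le_nat _).biUnion fun m _ => (hfin m).biUnion fun w _ => exists_finset_vsup w
  refine ⟨hΦ.toFinset, ?_, fun K₂ hK₂ => ?_⟩
  · intro g hg
    simp only [Set.Finite.coe_toFinset, Set.mem_iUnion] at hg
    obtain ⟨m, -, w, hw, i, hi⟩ := hg
    exact hsup m w hw i g hi
  have hsup₂ : ∀ m ≤ F.k, ∀ w ∈ W m, VSup (K₂ : Set G) w := by
    intro m hm w hw i g hg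
    apply hK₂
    simp only [Set.Finite.coe_toFinset, Set.mem_iUnion]
    exact ⟨m, hm, w, hw, i, hg⟩
  let V' : ℕ → Submodule Λ (J → Λ) := fun j =>
    Submodule.span _ {w | ∃ m, F.k ≤ m + j ∧ m ≤ F.k ∧ w ∈ W m}
  refine ⟨⟨V', F.k, ?_, ?_, ?_, ?_⟩, ?_⟩
  · rw [Submodule.span_eq_bot]
    rintro w ⟨m, hm, -, hw⟩
    have := hV m 0 hm w hw
    rwa [F.zero, Submodule.mem_bot] at this
  · rw [eq_top_iff, ← (Pi.basisFun Λ J).span_eq]
    apply Submodule.span_mono
    rintro _ ⟨i, rfl⟩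
    exact ⟨0, by omega, by omega, i, by simp⟩
  · intro a b hab
    apply Submodule.span_mono
    rintro w ⟨m, h1, h2, hw⟩
    exact ⟨m, by omega, h2, hw⟩
  · intro j S hS v hv
    have : ∀ c : Λ, prv S (c • v) ∈ V' j := by
      induction hv using Submodule.span_induction with
      | mem w hw =>
        intro c
        obtain ⟨m, h1, h2, hw'⟩ := hw
        rw [prv_smul c (hsup₂ m h2 w hw') hS]
        exact Submodule.smul_mem _ _ (Submodule.subset_span ⟨m, h1, h2, hw'⟩)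
      | zero => intro c; rw [smul_zero, prv_zero]; exact zero_mem _
      | add a b _ _ ha hb => intro c; rw [smul_add, prv_add]; exact add_mem (ha c) (hb c)
      | smul d a _ ha => intro c; rw [smul_smul]; exact ha _
    simpa using this 1
  · intro j v hv
    change v ∈ V' (j + 1) at hv
    change v ᵥ* ν ∈ V' j
    induction hv using Submodule.span_induction with
    | mem w hw =>
      obtain ⟨m, h1, h2, hw⟩ := hw
      by_cases hm : m = F.k
      · have := hV m 0 (by omega) w hw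
        rw [F.zero, Submodule.mem_bot] at this
        rw [this, zero_vecMul]; exact zero_mem _
      · rw [← prv_univ (w ᵥ* ν)]
        refine prv_induction K (P := fun z => z ∈ V' j) (zero_mem _)
          (fun a b ha hb => add_mem ha hb) _ (rinv_univ K) fun g hg => ?_
        have : prv (lc g K) (w ᵥ* ν) = (un g : Λ) •
            ((un' g : Λ) • prv (lc g K) (w ᵥ* ν)) := by
          rw [smul_smul, un_mul_un', one_smul]
        rw [this]
        refine Submodule.smul_mem _ _ (Submodule.subset_span ⟨m + 1, by omega, by omega, ?_⟩)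
        rw [hWs]
        simp only [Set.mem_iUnion]
        exact ⟨w, hw, g, hg, rfl⟩
    | zero => rw [zero_vecMul]; exact zero_mem _
    | add a b _ _ ha hb => rw [add_vecMul]; exact add_mem ha hb
    | smul d a _ ha => rw [smul_vecMul]; exact Submodule.smul_mem _ _ ha

lemma Filt.Low.geom {F : Filt Λ K J} {β : Matrix J J Λ} (h : F.Low 1 β)
    {P : Set G} (hP : ∀ a ∈ P, ∀ b ∈ P, a * b ∈ P) (hβ : MSup P β) :
    ∃ γ, MSup P γ ∧ F.Low 1 γ ∧ (1 - β) * (1 + γ) = 1 ∧ (1 + γ) * (1 - β) = 1 := by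
  have hpow : ∀ n : ℕ, MSup P (β ^ (n + 1)) := by
    intro n
    induction n with
    | zero => simpa using hβ
    | succ n ih => rw [pow_succ]; exact ih.mul hβ hP
  have h0 : β ^ (F.k + 1) = 0 := (h.pow _).eq_zero (by omega)
  have hs : 1 + ∑ j ∈ Finset.range F.k, β ^ (j + 1) = ∑ j ∈ Finset.range (F.k + 1), β ^ j := by
    rw [Finset.sum_range_succ', pow_zero, add_comm]
  refine ⟨∑ j ∈ Finset.range F.k, β ^ (j + 1), msup_sum _ _ fun j _ => hpow j,
    Filt.low_sum _ _ fun j _ => (h.pow _).of_le (by omega), ?_, ?_⟩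
  · rw [hs, mul_neg_geom_sum, h0, sub_zero]
  · rw [hs, geom_sum_mul_neg, h0, sub_zero]

/-- Cyclic shift preserves path nilpotency. -/
lemma PN.shift {L : Type} [Fintype L] [DecidableEq L] {a b : G}
    {X : Matrix J L Λ} {Y : Matrix L J Λ}
    (hX : MSup {y | y * a⁻¹ ∈ K} X) (hY : MSup {y | b⁻¹ * y ∈ K} Y) (h : PN K (X * Y)) :
    PN (kstar K a b) (Y * X) := by
  obtain ⟨F, hF⟩ := h
  let U : ℕ → Submodule Λ (L → Λ) := fun j =>
    { carrier := {w | ∀ S, RInv (kstar K a b) S → prv S w ᵥ* Y ∈ F.V j}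
      zero_mem' := fun S _ => by rw [prv_zero, zero_vecMul]; exact zero_mem _
      add_mem' := fun {x y} hx hy S hS => by
        rw [prv_add, add_vecMul]; exact add_mem (hx S hS) (hy S hS)
      smul_mem' := fun c w hw S hS => by
        refine (sup_univ c).induction (P := fun c => prv S (c • w) ᵥ* Y ∈ F.V j)
          (by rw [zero_smul, prv_zero, zero_vecMul]; exact zero_mem _)
          (fun x y hx hy => by rw [add_smul, prv_add, add_vecMul]; exact add_mem hx hy)
          fun g _ r hr => ?_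
        rw [prv_single_smul _ g hr, smul_vecMul]
        exact Submodule.smul_mem _ _ (hw _ (hS.left g)) }
  have hU : ∀ j w, w ∈ U j ↔ ∀ S, RInv (kstar K a b) S → prv S w ᵥ* Y ∈ F.V j :=
    fun _ _ => Iff.rfl
  let V' : ℕ → Submodule Λ (L → Λ) := fun j =>
    Nat.casesOn j ⊥ U
  refine ⟨⟨V', F.k + 1, rfl, ?_, ?_, ?_⟩, ?_⟩
  · rw [eq_top_iff]
    intro w _ S _
    rw [F.top]; trivial
  · refine monotone_nat_of_le_succ fun j => ?_
    cases j with
    | zero => exact bot_le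
    | succ j => exact fun w hw S hS => F.mono (Nat.le_succ j) (hw S hS)
  · intro j S hS w hw
    cases j with
    | zero =>
      change w ∈ (⊥ : Submodule _ _) at hw
      rw [Submodule.mem_bot] at hw
      rw [hw, prv_zero]; exact zero_mem _
    | succ j =>
      intro S' hS'
      rw [prv_prv]; exact hw _ (hS'.inter hS)
  · intro j w hw
    have hu : w ᵥ* Y ∈ F.V j := by
      have := hw Set.univ (rinv_univ _)
      rwa [prv_univ] at this
    rw [← vecMul_vecMul]
    cases j with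
    | zero =>
      rw [F.zero, Submodule.mem_bot] at hu
      rw [hu, zero_vecMul]; exact zero_mem _
    | succ j =>
      intro S hS
      refine prv_induction (kstar K a b) (P := fun z => z ᵥ* Y ∈ F.V j) (by simp)
        (fun x y hx hy => by rw [add_vecMul]; exact add_mem hx hy) _ hS fun g _ => ?_
      have e1 : prv {y | a * (g⁻¹ * y) * a⁻¹ ∈ K} (w ᵥ* Y ᵥ* X) =
          prv (lc (g * a⁻¹) K) (w ᵥ* Y) ᵥ* X := by
        refine prv_vecMul_right _ hX fun y k hk => ?_
        simp only [Set.mem_ofPred_eq, lc] at hk ⊢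
        have : a * (g⁻¹ * (y * k)) * a⁻¹ = ((g * a⁻¹)⁻¹ * y) * (k * a⁻¹) := by group
        rw [this]; exact K.mul_mem_cancel_right hk
      have e2 : ∀ z : L → Λ, prv (lc (g * b) K) (z ᵥ* Y) =
          prv {y | b⁻¹ * (g⁻¹ * y) * b ∈ K} z ᵥ* Y := by
        intro z
        refine prv_vecMul_right _ hY fun y k hk => ?_
        simp only [Set.mem_ofPred_eq, lc] at hk ⊢
        have : (g * b)⁻¹ * (y * k) = (b⁻¹ * (g⁻¹ * y) * b) * (b⁻¹ * k) := by group
        rw [this]; exact K.mul_mem_cancel_right hk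
      have e3 : lc g (kstar K a b) =
          {y | b⁻¹ * (g⁻¹ * y) * b ∈ K} ∩ {y | a * (g⁻¹ * y) * a⁻¹ ∈ K} := by
        ext y; exact and_comm
      rw [e3, ← prv_prv, ← e2, e1, vecMul_vecMul]
      exact F.graded _ _ (rinv_lc _ K) _ (hF j _ (F.graded _ _ (rinv_lc _ K) _ hu))

/-- Factorisation of a matrix supported on one double coset. -/
lemma exists_factor {a b : G} {β : Matrix J J Λ} (hβ : MSup (dc K (a * b)) β) :
    ∃ (L : Type) (_ : Fintype L) (_ : DecidableEq L) (X : Matrix J L Λ)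
      (Y : Matrix L J Λ),
      MSup {y | y * a⁻¹ ∈ K} X ∧ MSup {y | b⁻¹ * y ∈ K} Y ∧ X * Y = β := by
  classical
  obtain ⟨s, hs, hs'⟩ := exists_finset_msup β
  let e : Fin s.card → G := fun i => (s.equivFin.symm i : G)
  have he : ∀ i, e i ∈ dc K (a * b) := fun i => hs' _ hβ (s.equivFin.symm i).2
  choose k hk k' hk' hkk using he
  refine ⟨J × Fin s.card, inferInstance, inferInstance,
    fun i p => if i = p.1 then un (k p.2 * a) else 0,
    fun p j => un' (k p.2 * a) * cp (β p.1 j) (e p.2), ?_, ?_, ?_⟩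
  · intro i p
    dsimp only
    split_ifs
    · exact (sup_un _).of_mem (by simpa using hk p.2)
    · exact sup_zero _
  · intro p j
    refine (sup_un' _).mul (sup_cp _ _) ?_
    rintro _ rfl _ rfl
    have : b⁻¹ * ((k p.2 * a)⁻¹ * e p.2) = k' p.2 := by rw [hkk p.2]; group
    rw [Set.mem_ofPred_eq, this]; exact hk' p.2
  · ext1 i j
    rw [Matrix.mul_apply, Fintype.sum_prod_type, Finset.sum_eq_single i]
    · simp only [if_true, ← mul_assoc, un_mul_un', one_mul]
      rw [← Equiv.sum_comp s.equivFin]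
      simp only [e, Equiv.symm_apply_apply]
      rw [Finset.sum_coe_sort s fun g => cp (β i j) g]
      exact sum_cp (hs i j)
    · intro i' _ hi'
      simp [Ne.symm hi']
    · simp

/-- Elimination: reduction to a single double coset. -/
lemma lazardS (S : TS Λ) (F : Filt Λ K J) {P : Set G} (hP : ∀ a ∈ P, ∀ b ∈ P, a * b ∈ P)
    (hsingle : ∀ x ∈ P, ∀ β : Matrix J J Λ, MSup (dc K x) β → F.Low 1 β →
      S.T (1 - β))
    {ν : Matrix J J Λ} (hν : MSup P ν) (hl : F.Low 1 ν) : S.T (1 - ν) := by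
  classical
  have main : ∀ m n : ℕ, F.k ≤ n + m → ∀ ν : Matrix J J Λ, MSup P ν →
      F.Low (n + 1) ν → S.T (1 - ν) := by
    intro m
    induction m with
    | zero =>
      intro n hn ν _ hl
      rw [hl.eq_zero (by omega), sub_zero]; exact S.one
    | succ m ih =>
      intro n hn
      have inner : ∀ s : Finset G, (s : Set G) ⊆ P → ∀ ρ μ : Matrix J J Λ,
          MSup P ρ → MSup {y | ∃ x ∈ s, y ∈ dc K x} ρ → F.Low (n + 1) ρ → MSup P μ →
          F.Low (n + 1 + 1) μ → S.T (1 - (ρ + μ)) := by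
        intro s
        induction s using Finset.induction_on with
        | empty =>
          intro _ ρ μ _ hρ _ hμ hlμ
          rw [hρ.eq_zero (msup_univ ρ) (by simp), zero_add]
          exact ih (n + 1) (by omega) μ hμ hlμ
        | insert x s hx ihs =>
          intro hs ρ μ hρP hρ hlρ hμ hlμ
          have hxP : x ∈ P := hs (by simp)
          set β := mpr (dc K x) ρ with hβ
          set ρ' := mpr (dc K x)ᶜ ρ with hρ'
          have hsum : ρ = β + ρ' := (mpr_add_mpr_compl _ _).symm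
          have hlβ : F.Low (n + 1) β := hlρ.mpr (dc_left K x) (dc_right K x)
          have hlρ' : F.Low (n + 1) ρ' := hlρ.mpr
            (fun k hk g => not_congr (dc_left K x k hk g))
            (fun g k hk => not_congr (dc_right K x g k hk))
          obtain ⟨γ, hγ, hlγ, hinv, -⟩ := (hlβ.of_le (by omega : 1 ≤ n + 1)).geom hP hρP.mpr
          have hT := ihs (fun y hy => hs (by simp [Finset.mem_coe.1 hy])) ρ' (μ + γ * (ρ' + μ))
            hρP.mpr ?_ hlρ' (hμ.add (hγ.mul (hρP.mpr.add hμ) hP))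
            (hlμ.add (hlγ.mul (hlρ'.add (hlμ.of_le (by omega)))))
          · have := S.mul (hsingle x hxP β (msup_mpr _ _) (hlβ.of_le (by omega))) hT
            convert this using 1
            have e : (1 - β) * (1 - (ρ' + (μ + γ * (ρ' + μ)))) =
                (1 - β) - (1 - β) * (1 + γ) * (ρ' + μ) := by noncomm_ring
            rw [e, hinv, one_mul]
            conv_lhs => rw [hsum]
            abel
          · intro i j g hg
            obtain ⟨y, hy, hgy⟩ := hρ.mpr i j g hg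
            have h2 : g ∉ dc K x := msup_mpr _ _ i j g hg
            rw [Finset.mem_insert] at hy
            rcases hy with rfl | hy
            · exact absurd hgy h2
            · exact ⟨y, hy, hgy⟩
      intro ν hν hl
      obtain ⟨s, hs, hs'⟩ := exists_finset_msup ν
      have := inner s (hs' P hν) ν 0 hν (hs.mono fun y hy => ⟨y, hy, mem_dc K y⟩) hl
        (msup_zero _) Filt.low_zero
      rwa [add_zero] at this
  exact main F.k 0 (by omega) ν hν hl

variable (S : TS Λ)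

/-- All invertible matrices supported on `H` are trivial. -/
def TermS (H : Subgroup G) : Prop :=
  ∀ (J : Type) [Fintype J] [DecidableEq J] (A : Matrix J J Λ),
    MSup (H : Set G) A → IsUnit A → S.T A

/-- All `P`-supported `K`-path nilpotent matrices give trivial unipotent matrices. -/
def TameP (P : Set G) (K : Subgroup G) : Prop :=
  ∀ (J : Type) [Fintype J] [DecidableEq J] (ν : Matrix J J Λ),
    MSup P ν → PN K ν → S.T (1 - ν)

/-- Finite subsets of `C` lie in tame subgroups. -/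
def CoverP (P : Set G) (C : Subgroup G) : Prop :=
  ∀ Φ : Finset G, (Φ : Set G) ⊆ C → ∃ K₂ : Subgroup G, (Φ : Set G) ⊆ K₂ ∧ TameP S P K₂

variable {S}

lemma CoverP.tame {P : Set G} {C : Subgroup G} (h : CoverP S P C) : TameP S P C := by
  intro J _ _ ν hν hn
  obtain ⟨Φ, hΦ, hΦ'⟩ := hn.refine
  obtain ⟨K₂, hK₂, hT⟩ := h Φ hΦ
  exact hT J ν hν (hΦ' K₂ hK₂)

theorem tameP_step {P : Set G} (hP : ∀ a ∈ P, ∀ b ∈ P, a * b ∈ P)
    (hl : ∀ k ∈ K, ∀ x ∈ P, k * x ∈ P) (hr : ∀ k ∈ K, ∀ x ∈ P, x * k ∈ P)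
    (h : ∀ x ∈ P, TermS S (K ⊔ Subgroup.zpowers x) ∨ CoverP S P (kstar K 1 x) ∨
      CoverP S P (kstar K x 1)) : TameP S P K := by
  rintro J _ _ ν hν ⟨F, hF⟩
  refine lazardS S F hP (fun x hx β hβ hlow => ?_) hν hF
  rcases h x hx with h | h | h
  · obtain ⟨γ, -, -, h1, h2⟩ := hlow.geom (P := Set.univ) (fun _ _ _ _ => trivial) (msup_univ β)
    refine h _ _ ((msup_one (Subgroup.one_mem _)).sub (hβ.mono ?_)) ⟨⟨_, _, h1, h2⟩, rfl⟩
    rintro _ ⟨k, hk, k', hk', rfl⟩
    exact Subgroup.mul_mem _ (Subgroup.mul_mem _ (Subgroup.mem_sup_left hk)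
      (Subgroup.mem_sup_right (Subgroup.mem_zpowers x))) (Subgroup.mem_sup_left hk')
  · obtain ⟨L, _, _, X, Y, hX, hY, rfl⟩ := exists_factor (a := 1) (b := x) (by simpa using hβ)
    refine S.comm X Y (h.tame L _ (hY.mul hX fun y hy z hz => ?_) (PN.shift hX hY ⟨F, hlow⟩))
    have := hr _ (K.mul_mem hy hz) x hx
    simpa [mul_assoc] using this
  · obtain ⟨L, _, _, X, Y, hX, hY, rfl⟩ := exists_factor (a := x) (b := 1) (by simpa using hβ)
    refine S.comm X Y (h.tame L _ (hY.mul hX fun y hy z hz => ?_) (PN.shift hX hY ⟨F, hlow⟩))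
    have := hl _ (K.mul_mem hy hz) x hx
    simpa [mul_assoc] using this

/-- The well founded family version, pulled back along a homomorphism. -/
theorem coverP_of_family {G₀ : Type u} [Group G₀] (p : G →* G₀) {P : Set G} {C : Subgroup G}
    (hP : ∀ a ∈ P, ∀ b ∈ P, a * b ∈ P)
    (hl : ∀ k ∈ C, ∀ x ∈ P, k * x ∈ P) (hr : ∀ k ∈ C, ∀ x ∈ P, x * k ∈ P)
    {ι : Type u} (K : ι → Subgroup G₀) (r : ι → ι → Prop) (hwf : WellFounded r)
    (hK : ∀ i, (K i).comap p ≤ C)
    (hcover : ∀ M : Subgroup G₀, M.FG → M ≤ C.map p → ∃ i, M ≤ K i)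
    (hstep : ∀ i, TameP S P ((K i).comap p) ∨ ∀ x ∈ P,
      TermS S ((K i).comap p ⊔ Subgroup.zpowers x) ∨ Drops K r i (p x) ∨ Drops K r i (p x)⁻¹) :
    CoverP S P C := by
  have fg : ∀ Φ : Finset G, (Subgroup.closure (p '' Φ)).FG := fun Φ =>
    (Subgroup.fg_iff _).2 ⟨_, rfl, (Finset.finite_toSet Φ).image p⟩
  have tame : ∀ i, TameP S P ((K i).comap p) := by
    intro i
    induction i using hwf.induction with
    | _ i ih =>
    refine (hstep i).elim id fun hstep => ?_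
    refine tameP_step hP (fun k hk => hl k (hK i hk)) (fun k hk => hr k (hK i hk)) fun x hx => ?_
    rcases hstep x hx with h1 | h1 | h1
    · exact Or.inl h1
    · refine Or.inr (Or.inl fun Φ hΦ => ?_)
      obtain ⟨j, hj, hM⟩ := h1 _ (fg Φ) (by
        rw [Subgroup.closure_le]
        rintro _ ⟨y, hy, rfl⟩
        obtain ⟨e1, e2⟩ := hΦ hy
        exact ⟨by simpa using e1, p (x⁻¹ * y * x), e2, by simp [mul_assoc]⟩)
      exact ⟨_, fun y hy => hM (Subgroup.subset_closure ⟨y, hy, rfl⟩), ih j hj⟩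
    · refine Or.inr (Or.inr fun Φ hΦ => ?_)
      obtain ⟨j, hj, hM⟩ := h1 _ (fg Φ) (by
        rw [Subgroup.closure_le]
        rintro _ ⟨y, hy, rfl⟩
        obtain ⟨e1, e2⟩ := hΦ hy
        exact ⟨by simpa using e2, p (x * y * x⁻¹), e1, by simp [mul_assoc]⟩)
      exact ⟨_, fun y hy => hM (Subgroup.subset_closure ⟨y, hy, rfl⟩), ih j hj⟩
  intro Φ hΦ
  obtain ⟨i, hi⟩ := hcover _ (fg Φ) (by
    rw [Subgroup.closure_le]
    rintro _ ⟨y, hy, rfl⟩
    exact ⟨y, hΦ hy, rfl⟩)
  exact ⟨_, fun y hy => hi (Subgroup.subset_closure ⟨y, hy, rfl⟩), tame i⟩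


end Gr

end Pool.Agent.MP_f7db47_al

end

section

/-!
Supports depending on the position in the matrix, and two elimination lemmas.
-/

set_option linter.unusedSectionVars false

namespace Pool.Agent.MP_f7db47_al

namespace Gr

open Matrix

universe u w x

variable {G : Type u} [Group G] {Λ : Type x} [Ring Λ] [GrS G Λ]
 
variable {I J K : Type}

/-- Entry `(i, j)` is supported in `S i j`. -/
def MSup2 (S : I → J → Set G) (A : Matrix I J Λ) : Prop :=
  ∀ i j, Sup (S i j) (A i j)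

/-- Entrywise restriction of support, depending on the position. -/
noncomputable def mpr2 (S : I → J → Set G) (A : Matrix I J Λ) :
    Matrix I J Λ := fun i j => pr (S i j) (A i j)

/-- Restriction of the support of a vector, depending on the position. -/
noncomputable def prv2 (S : J → Set G) (v : J → Λ) : J → Λ :=
  fun i => pr (S i) (v i)

/-- A vector supported in `S`. -/
def VSup2 (S : J → Set G) (v : J → Λ) : Prop := ∀ i, Sup (S i) (v i)

lemma mpr2_row (S : I → J → Set G) (A : Matrix I J Λ) (i : I) :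
    mpr2 S A i = prv2 (S i) (A i) := rfl

lemma msup2_mpr2 (S : I → J → Set G) (A : Matrix I J Λ) :
    MSup2 S (mpr2 S A) := fun i j => sup_pr _ (A i j)

lemma MSup2.mpr2 {S S' : I → J → Set G} {A : Matrix I J Λ} (h : MSup2 S A) :
    MSup2 S (mpr2 S' A) := fun i j => (h i j).pr

lemma MSup2.mpr2_eq {S : I → J → Set G} {A : Matrix I J Λ} (h : MSup2 S A) :
    Pool.Agent.MP_f7db47_al.Gr.mpr2 S A = A := by
  ext1 i j; exact (h i j).pr_eq

lemma MSup2.mpr2_eq_zero {S U : I → J → Set G} {A : Matrix I J Λ}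
    (h : MSup2 U A) (hd : ∀ i j, ∀ g ∈ U i j, g ∉ S i j) :
    Pool.Agent.MP_f7db47_al.Gr.mpr2 S A = 0 := by
  ext1 i j; exact (h i j).pr_eq_zero (hd i j)

lemma mpr2_add (S : I → J → Set G) (A B : Matrix I J Λ) :
    mpr2 S (A + B) = mpr2 S A + mpr2 S B := by
  ext1 i j; exact map_add (pr (S i j)) _ _

lemma mpr2_sub (S : I → J → Set G) (A B : Matrix I J Λ) :
    mpr2 S (A - B) = mpr2 S A - mpr2 S B := by
  ext1 i j; exact map_sub (pr (S i j)) _ _

lemma mpr2_neg (S : I → J → Set G) (A : Matrix I J Λ) :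
    mpr2 S (-A) = -mpr2 S A := by
  ext1 i j; exact map_neg (pr (S i j)) _

lemma pr_union {S S₁ S₂ : Set G} (x : Λ) (h : ∀ g, g ∈ S ↔ g ∈ S₁ ∨ g ∈ S₂)
    (hd : ∀ g ∈ S₁, g ∉ S₂) : pr S x = pr S₁ x + pr S₂ x := by
  refine ext' fun g => ?_
  simp only [map_add, Finsupp.add_apply, coeff_pr]
  by_cases h1 : g ∈ S₁
  · simp [h1, hd g h1, h g]
  · by_cases h2 : g ∈ S₂ <;> simp [h1, h2, h g]

lemma mpr2_union {S S₁ S₂ : I → J → Set G} (A : Matrix I J Λ)
    (h : ∀ i j g, g ∈ S i j ↔ g ∈ S₁ i j ∨ g ∈ S₂ i j) (hd : ∀ i j, ∀ g ∈ S₁ i j, g ∉ S₂ i j) :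
    mpr2 S A = mpr2 S₁ A + mpr2 S₂ A := by
  ext1 i j; exact pr_union _ (h i j) (hd i j)

lemma prv2_union {S S₁ S₂ : J → Set G} (v : J → Λ)
    (h : ∀ j g, g ∈ S j ↔ g ∈ S₁ j ∨ g ∈ S₂ j) (hd : ∀ j, ∀ g ∈ S₁ j, g ∉ S₂ j) :
    prv2 S v = prv2 S₁ v + prv2 S₂ v := funext fun j => pr_union _ (h j) (hd j)

lemma MSup2.mono {S S' : I → J → Set G} {A : Matrix I J Λ} (hA : MSup2 S A)
    (h : ∀ i j, S i j ⊆ S' i j) : MSup2 S' A := fun i j => (hA i j).mono (h i j)

lemma msup2_zero (S : I → J → Set G) : MSup2 S (0 : Matrix I J Λ) :=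
  fun _ _ => sup_zero _

lemma MSup2.add {S : I → J → Set G} {A B : Matrix I J Λ} (hA : MSup2 S A)
    (hB : MSup2 S B) : MSup2 S (A + B) := fun i j => (hA i j).add (hB i j)

lemma MSup2.neg {S : I → J → Set G} {A : Matrix I J Λ} (hA : MSup2 S A) :
    MSup2 S (-A) := fun i j => (hA i j).neg

lemma MSup2.sub {S : I → J → Set G} {A B : Matrix I J Λ} (hA : MSup2 S A)
    (hB : MSup2 S B) : MSup2 S (A - B) := fun i j => (hA i j).sub (hB i j)

lemma msup2_one [DecidableEq I] {S : I → I → Set G} (h : ∀ i, (1 : G) ∈ S i i) :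
    MSup2 S (1 : Matrix I I Λ) := by
  intro i j
  by_cases hij : i = j
  · subst hij; rw [Matrix.one_apply_eq]; exact sup_one (h i)
  · rw [Matrix.one_apply_ne hij]; exact sup_zero _

lemma msup2_diagonal [DecidableEq I] {S : I → I → Set G} {d : I → Λ}
    (h : ∀ i, Sup (S i i) (d i)) : MSup2 S (diagonal d) := by
  intro i j
  by_cases hij : i = j
  · subst hij; rw [diagonal_apply_eq]; exact h i
  · rw [diagonal_apply_ne _ hij]; exact sup_zero _

lemma MSup2.mul [Fintype J] {S : I → J → Set G} {S' : J → K → Set G} {U : I → K → Set G}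
    {A : Matrix I J Λ} {B : Matrix J K Λ} (hA : MSup2 S A)
    (hB : MSup2 S' B) (h : ∀ i j k, ∀ a ∈ S i j, ∀ b ∈ S' j k, a * b ∈ U i k) :
    MSup2 U (A * B) := fun i k => by
  rw [Matrix.mul_apply]
  exact sup_sum _ _ fun j _ => (hA i j).mul (hB j k) (h i j k)

lemma mpr2_mul_right [Fintype J] {S : I → K → Set G} {S₁ : I → J → Set G} {U : J → K → Set G}
    (A : Matrix I J Λ) {B : Matrix J K Λ} (hB : MSup2 U B)
    (h : ∀ i j k g, ∀ y ∈ U j k, g * y ∈ S i k ↔ g ∈ S₁ i j) :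
    mpr2 S (A * B) = mpr2 S₁ A * B := by
  ext1 i k
  simp only [mpr2, Matrix.mul_apply, map_sum]
  exact Finset.sum_congr rfl fun j _ => pr_mul_right _ (hB j k) (h i j k)

lemma mpr2_mul_left [Fintype J] {S : I → K → Set G} {S₁ : J → K → Set G} {U : I → J → Set G}
    {A : Matrix I J Λ} (B : Matrix J K Λ) (hA : MSup2 U A)
    (h : ∀ i j k, ∀ y ∈ U i j, ∀ g, y * g ∈ S i k ↔ g ∈ S₁ j k) :
    mpr2 S (A * B) = A * mpr2 S₁ B := by
  ext1 i k
  simp only [mpr2, Matrix.mul_apply, map_sum]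
  exact Finset.sum_congr rfl fun j _ => pr_mul_left _ (hA i j) (h i j k)

lemma vsup2_prv2 (S : J → Set G) (v : J → Λ) : VSup2 S (prv2 S v) :=
  fun i => sup_pr _ (v i)

lemma VSup2.prv2_eq {S : J → Set G} {v : J → Λ} (h : VSup2 S v) :
    prv2 S v = v := funext fun i => (h i).pr_eq

lemma VSup2.prv2_eq_zero {S U : J → Set G} {v : J → Λ} (h : VSup2 U v)
    (hd : ∀ j, ∀ g ∈ U j, g ∉ S j) : prv2 S v = 0 := funext fun i => (h i).pr_eq_zero (hd i)

lemma prv2_prv2 (S S' : J → Set G) (v : J → Λ) :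
    prv2 S (prv2 S' v) = prv2 (fun j => S j ∩ S' j) v := funext fun _ => pr_pr _ _ _

lemma prv2_congr {S S' : J → Set G} (v : J → Λ)
    (h : ∀ j g, g ∈ S j ↔ g ∈ S' j) : prv2 S v = prv2 S' v := by
  have : S = S' := funext fun j => Set.ext (h j)
  rw [this]

lemma prv2_zero (S : J → Set G) : prv2 S (0 : J → Λ) = 0 :=
  funext fun j => map_zero (pr (S j))

lemma prv2_add (S : J → Set G) (v w : J → Λ) :
    prv2 S (v + w) = prv2 S v + prv2 S w := funext fun j => map_add (pr (S j)) _ _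

lemma prv2_neg (S : J → Set G) (v : J → Λ) :
    prv2 S (-v) = -prv2 S v := funext fun j => map_neg (pr (S j)) _

lemma prv2_univ (v : J → Λ) : prv2 (fun _ => Set.univ) v = v :=
  funext fun _ => pr_univ _

lemma prv2_vecMul_right [Fintype I] {S : J → Set G} {S₁ : I → Set G} {U : I → J → Set G}
    (v : I → Λ) {B : Matrix I J Λ} (hB : MSup2 U B)
    (h : ∀ i j g, ∀ k ∈ U i j, g * k ∈ S j ↔ g ∈ S₁ i) : prv2 S (v ᵥ* B) = prv2 S₁ v ᵥ* B := by
  funext j
  simp only [prv2, vecMul, dotProduct, map_sum]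
  exact Finset.sum_congr rfl fun i _ => pr_mul_right _ (hB i j) (h i j)

lemma prv2_vecMul_left [Fintype I] {S : J → Set G} {S₁ : I → J → Set G} {U : I → Set G}
    {v : I → Λ} (B : Matrix I J Λ) (hv : VSup2 U v)
    (h : ∀ i j, ∀ k ∈ U i, ∀ g, k * g ∈ S j ↔ g ∈ S₁ i j) :
    prv2 S (v ᵥ* B) = v ᵥ* mpr2 S₁ B := by
  funext j
  simp only [prv2, vecMul, dotProduct, map_sum, mpr2]
  exact Finset.sum_congr rfl fun i _ => pr_mul_left _ (hv i) (h i j)

lemma VSup2.vecMul [Fintype I] {S : I → Set G} {S' : I → J → Set G} {U : J → Set G}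
    {v : I → Λ} {B : Matrix I J Λ} (hv : VSup2 S v)
    (hB : MSup2 S' B) (h : ∀ i j, ∀ a ∈ S i, ∀ b ∈ S' i j, a * b ∈ U j) : VSup2 U (v ᵥ* B) :=
  fun j => sup_sum _ _ fun i _ => (hv i).mul (hB i j) (h i j)

lemma prv2_single_smul (S : J → Set G) (g : G) {a : Λ} (ha : Sup {g} a) (v : J → Λ) :
    prv2 S (a • v) = a • prv2 (fun j => {y | g * y ∈ S j}) v := by
  funext j
  simp only [prv2, Pi.smul_apply, smul_eq_mul]
  refine pr_mul_left (U := {g}) _ ha ?_
  rintro k rfl y; rfl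

/-- The total size of the support of a vector. -/
noncomputable def vsize [Fintype J] (v : J → Λ) : ℕ :=
  ∑ j, (cp (v j)).support.card

lemma support_pr_subset (S : Set G) (x : Λ) :
    (cp (pr S x)).support ⊆ (cp x).support := by
  intro g hg
  rw [Finsupp.mem_support_iff] at hg ⊢
  intro h0
  exact hg (by simp [coeff_pr, h0])

lemma vsize_prv2_lt [Fintype J] {S : J → Set G} {v : J → Λ} {j : J} {g : G}
    (h1 : cp (v j) g ≠ 0) (h2 : g ∉ S j) : vsize (prv2 S v) < vsize v := by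
  refine Finset.sum_lt_sum (fun i _ => Finset.card_le_card (support_pr_subset _ _))
    ⟨j, Finset.mem_univ _, Finset.card_lt_card ⟨support_pr_subset _ _, fun h => ?_⟩⟩
  have := h (Finsupp.mem_support_iff.2 h1)
  exact h2 (sup_pr _ _ g (Finsupp.mem_support_iff.1 this))

lemma exists_coeff_ne {v : J → Λ} (h : v ≠ 0) : ∃ j g, cp (v j) g ≠ 0 := by
  by_contra h0
  push Not at h0
  exact h (funext fun j => ext' fun g => by simpa using h0 j g)

lemma eq_zero_of_vsize [Fintype J] {v : J → Λ} (h : vsize v = 0) : v = 0 := by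
  by_contra h0
  obtain ⟨j, g, hg⟩ := exists_coeff_ne h0
  have := vsize_prv2_lt (S := fun _ => ∅) hg (Set.notMem_empty g)
  omega

section Elim

variable [Fintype J] [DecidableEq J]

/-- Elimination of the blocks of a nilpotent matrix, one type at a time. -/
lemma elim_types (S : TS Λ) {K₀ : Subgroup G} (F : Filt Λ K₀ J) {A : Type*}
    (q : A → Matrix J J Λ) (hq : ∀ σ σ', σ ≠ σ' → q σ * q σ' = 0)
    (Ah : A → A → Set G) (hAh : ∀ σ σ' σ'', ∀ a ∈ Ah σ σ', ∀ b ∈ Ah σ' σ'', a * b ∈ Ah σ σ'')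
    (hdiag : ∀ σ a, MSup (Ah σ σ) a → q σ * a = a → a * q σ = a → F.Low 1 a → S.T (1 - a))
    (s : Finset A) : ∀ n : A → A → Matrix J J Λ,
      (∀ σ σ', MSup (Ah σ σ') (n σ σ')) → (∀ σ σ', q σ * n σ σ' = n σ σ') →
      (∀ σ σ', n σ σ' * q σ' = n σ σ') → (∀ σ σ', F.Low 1 (n σ σ')) →
      S.T (1 - ∑ σ ∈ s, ∑ σ' ∈ s, n σ σ') := by
  classical
  induction s using Finset.induction_on with
  | empty => intro n _ _ _ _; simpa using S.one
  | insert σ₀ s hs ih =>
    intro n h1 h2 h3 h4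
    obtain ⟨γ, hγ, hlγ, hi1, hi2⟩ := (h4 σ₀ σ₀).geom (hAh σ₀ σ₀ σ₀) (h1 σ₀ σ₀)
    set a := n σ₀ σ₀ with ha
    have hγ1 : γ = a + a * γ := by
      have : (1 - a) * (1 + γ) = 1 + (γ - (a + a * γ)) := by noncomm_ring
      rw [this, add_eq_left, sub_eq_zero] at hi1; exact hi1
    have hγ2 : γ = a + γ * a := by
      have : (1 + γ) * (1 - a) = 1 + (γ - (a + γ * a)) := by noncomm_ring
      rw [this, add_eq_left, sub_eq_zero] at hi2; exact hi2
    have hqγ : q σ₀ * γ = γ := by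
      conv_lhs => rw [hγ1, mul_add, ← mul_assoc, h2]
      exact hγ1.symm
    have hγq : γ * q σ₀ = γ := by
      conv_lhs => rw [hγ2, add_mul, mul_assoc, h3]
      exact hγ2.symm
    set b := ∑ σ' ∈ s, n σ₀ σ' with hb
    set c := ∑ σ ∈ s, n σ σ₀ with hc
    set d := ∑ σ ∈ s, ∑ σ' ∈ s, n σ σ' with hd
    have hne : ∀ σ ∈ s, σ ≠ σ₀ := fun σ hσ e => hs (e ▸ hσ)
    have hl0 : ∀ σ ∈ s, ∀ σ', q σ₀ * n σ σ' = 0 := fun σ hσ σ' => by
      rw [← h2, ← mul_assoc, hq _ _ (hne σ hσ).symm, zero_mul]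
    have hr0 : ∀ σ, ∀ σ' ∈ s, n σ σ' * q σ₀ = 0 := fun σ σ' hσ' => by
      rw [← h3, mul_assoc, hq _ _ (hne σ' hσ'), mul_zero]
    have hqb : q σ₀ * b = b := by
      rw [hb, Finset.mul_sum]; exact Finset.sum_congr rfl fun σ _ => h2 _ _
    have hbq : b * q σ₀ = 0 := by
      rw [hb, Finset.sum_mul]; exact Finset.sum_eq_zero fun σ hσ => hr0 _ _ hσ
    have hqc : q σ₀ * c = 0 := by
      rw [hc, Finset.mul_sum]; exact Finset.sum_eq_zero fun σ hσ => hl0 _ hσ _
    have hcq : c * q σ₀ = c := by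
      rw [hc, Finset.sum_mul]; exact Finset.sum_congr rfl fun σ _ => h3 _ _
    have hqd : q σ₀ * d = 0 := by
      rw [hd, Finset.mul_sum]
      refine Finset.sum_eq_zero fun σ hσ => ?_
      rw [Finset.mul_sum]; exact Finset.sum_eq_zero fun σ' _ => hl0 _ hσ _
    have hdq : d * q σ₀ = 0 := by
      rw [hd, Finset.sum_mul]
      refine Finset.sum_eq_zero fun σ _ => ?_
      rw [Finset.sum_mul]; exact Finset.sum_eq_zero fun σ' hσ' => hr0 _ _ hσ'
    have hT := ih (fun σ σ' => n σ σ' + n σ σ₀ * (1 + γ) * n σ₀ σ') (fun σ σ' => ?_)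
      (fun σ σ' => ?_) (fun σ σ' => ?_) (fun σ σ' => ?_)
    · have hd' : ∑ σ ∈ s, ∑ σ' ∈ s, (n σ σ' + n σ σ₀ * (1 + γ) * n σ₀ σ') =
          d + c * (1 + γ) * b := by
        simp only [Finset.sum_add_distrib, hd, hc, hb, Finset.sum_mul, Finset.mul_sum]
        rw [Finset.sum_comm (s := s) (t := s) (f := fun σ σ' => n σ σ₀ * (1 + γ) * n σ₀ σ')]
      rw [hd'] at hT
      have hsum : ∑ σ ∈ insert σ₀ s, ∑ σ' ∈ insert σ₀ s, n σ σ' = a + b + c + d := by
        simp only [Finset.sum_insert hs, Finset.sum_add_distrib, ha, hb, hc, hd]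
        abel
      have hcs : c * (1 + γ) * q σ₀ = c * (1 + γ) := by
        rw [mul_add, add_mul, mul_one, hcq, mul_assoc, hγq]
      have t1 : S.T (1 - c * (1 + γ)) := by
        refine S.sq_zero (p := 1 - q σ₀) ?_ ?_
        · rw [sub_mul, one_mul, ← mul_assoc, hqc, zero_mul, sub_zero]
        · rw [mul_sub, mul_one, hcs, sub_self]
      have t2 : S.T (1 - (1 + γ) * b) := by
        refine S.sq_zero (p := q σ₀) ?_ ?_
        · rw [add_mul, mul_add, one_mul, hqb, ← mul_assoc, hqγ]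
        · rw [mul_assoc, hbq, mul_zero]
      have t3 := hdiag σ₀ a (h1 _ _) (h2 _ _) (h3 _ _) (h4 _ _)
      have := S.mul t1 (S.mul hT (S.mul t3 t2))
      rw [hsum]
      convert this using 1
      set d' := d + c * (1 + γ) * b with hd''
      have hd'q : d' * q σ₀ = 0 := by rw [hd'', add_mul, hdq, mul_assoc, hbq, mul_zero, add_zero]
      have hqd' : q σ₀ * d' = 0 := by
        rw [hd'', mul_add, hqd, ← mul_assoc, ← mul_assoc, hqc, zero_mul, zero_mul, add_zero]
      have e1 : (1 - a) * (1 - (1 + γ) * b) = 1 - a - b := by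
        rw [mul_sub, mul_one, ← mul_assoc, hi1, one_mul]
      have e2 : d' * a = 0 := by rw [ha, ← h2 σ₀ σ₀, ← mul_assoc, hd'q, zero_mul]
      have e3 : d' * b = 0 := by rw [← hqb, ← mul_assoc, hd'q, zero_mul]
      have e4 : c * (1 + γ) * d' = 0 := by rw [← hcs, mul_assoc, hqd', mul_zero]
      have e5 : (1 - c * (1 + γ)) * ((1 - d') * (1 - a - b)) =
          1 - a - b - d' - c * ((1 + γ) * (1 - a)) + c * (1 + γ) * b + c * (1 + γ) * d' +
            (1 - c * (1 + γ)) * (d' * a + d' * b) := by noncomm_ring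
      rw [e1, e5, e2, e3, e4, hi2, hd'']
      noncomm_ring
    · rw [mul_add, mul_one, add_mul]
      exact (h1 _ _).add (((h1 _ _).mul (h1 _ _) (hAh _ _ _)).add
        (((h1 _ _).mul hγ (hAh _ _ _)).mul (h1 _ _) (hAh _ _ _)))
    · rw [mul_add, h2, ← mul_assoc, ← mul_assoc, h2]
    · rw [add_mul, h3, mul_assoc, h3]
    · rw [mul_add, mul_one, add_mul]
      exact (h4 _ _).add ((((h4 _ _).mul (h4 _ _)).of_le (by omega)).add
        ((((h4 _ _).mul hlγ).mul (h4 _ _)).of_le (by omega)))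

end Elim

end Gr

end Pool.Agent.MP_f7db47_al

end

section

/-!
Abstract data of an action on a tree, and the basic projection lemmas.
-/

set_option linter.unusedSectionVars false

namespace Pool.Agent.MP_f7db47_al

namespace Gr

open Matrix

universe u w x

/-- Abstract tree data: `E` is a set of representatives of the orbits of edges, `ep e` gives
the two end points and `H e s` is the half tree containing `ep e s`. -/
structure TB (G : Type u) [Group G] (V : Type w) [MulAction G V] where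
  E : Type w
  ep : E → Bool → V
  H : E → Bool → Set V
  hmem : ∀ e s, ep e s ∈ H e s
  hcompl : ∀ e s z, z ∈ H e (!s) ↔ z ∉ H e s
  tri : ∀ e e' (k : G), (e' = e ∧ ∀ s, k • ep e s = ep e s) ∨
    ∀ s s₁ s₂, k • ep e' s₁ ∈ H e s → k • ep e' s₂ ∈ H e s
  hC : ∀ e (c : G), (∀ s, c • ep e s = ep e s) → ∀ s z, z ∈ H e s → c • z ∈ H e s
  nest : ∀ e e' s s' (g : G), g • ep e' (!s') = ep e s →
    ¬ (e' = e ∧ ∀ s, g • ep e s = ep e s) → ∀ z ∈ H e' s', g • z ∈ H e s
  μ : E → V → ℕ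
  lin : ∀ e z, (∃ s, z = ep e s) ∨
    ∃ (k : G) (e' : E) (s : Bool), k • ep e' s = z ∧ μ e (k • ep e' (!s)) < μ e z

namespace TB

variable {G : Type u} [Group G] {Λ : Type x} [Ring Λ] [GrS G Λ]
  {V : Type w} [MulAction G V] (D : TB G V)

/-- The edge groups. -/
def C (e : D.E) : Subgroup G where
  carrier := {c | ∀ s, c • D.ep e s = D.ep e s}
  one_mem' s := one_smul _ _
  mul_mem' {a b} ha hb s := by rw [mul_smul, hb s, ha s]
  inv_mem' {a} ha s := by rw [inv_smul_eq_iff, ha s]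

lemma mem_C {e : D.E} {c : G} : c ∈ D.C e ↔ ∀ s, c • D.ep e s = D.ep e s := Iff.rfl

/-- Elements moving a half tree strictly into another one. -/
def Ah (σ σ' : D.E × Bool) : Set G :=
  {g | (∀ z ∈ D.H σ'.1 σ'.2, g • z ∈ D.H σ.1 σ.2) ∧ ∃ z ∈ D.H σ.1 σ.2, g⁻¹ • z ∉ D.H σ'.1 σ'.2}

lemma ah_mul (σ σ' σ'' : D.E × Bool) : ∀ a ∈ D.Ah σ σ', ∀ b ∈ D.Ah σ' σ'', a * b ∈ D.Ah σ σ'' := by
  rintro a ⟨h1, z, hz, h2⟩ b ⟨h3, -⟩
  refine ⟨fun y hy => by rw [mul_smul]; exact h1 _ (h3 y hy), z, hz, fun h => h2 ?_⟩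
  have := h3 _ h
  rwa [smul_smul, _root_.mul_inv_rev, mul_inv_cancel_left] at this

lemma ah_left (σ σ' : D.E × Bool) : ∀ c ∈ D.C σ.1, ∀ a ∈ D.Ah σ σ', c * a ∈ D.Ah σ σ' := by
  rintro c hc a ⟨h1, z, hz, h2⟩
  refine ⟨fun y hy => by rw [mul_smul]; exact D.hC _ c hc _ _ (h1 y hy), c • z,
    D.hC _ c hc _ _ hz, ?_⟩
  rwa [smul_smul, _root_.mul_inv_rev, inv_mul_cancel_right]

lemma ah_right (σ σ' : D.E × Bool) : ∀ c ∈ D.C σ'.1, ∀ a ∈ D.Ah σ σ', a * c ∈ D.Ah σ σ' := by
  rintro c hc a ⟨h1, z, hz, h2⟩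
  refine ⟨fun y hy => by rw [mul_smul]; exact h1 _ (D.hC _ c hc _ _ hy), z, hz, fun h => h2 ?_⟩
  have := D.hC _ c hc _ _ h
  rwa [smul_smul, _root_.mul_inv_rev, mul_inv_cancel_left] at this

lemma not_mem (e : D.E) (s : Bool) : D.ep e (!s) ∉ D.H e s :=
  (D.hcompl e s _).1 (D.hmem e (!s))

lemma not_mem' (e : D.E) (s : Bool) : D.ep e s ∉ D.H e (!s) := fun h =>
  (D.hcompl e s _).1 h (D.hmem e s)

lemma mem_iff (e : D.E) (s s' : Bool) : D.ep e s' ∈ D.H e s ↔ s' = s := by
  refine ⟨fun h => ?_, fun h => h ▸ D.hmem e s'⟩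
  by_contra hs
  rw [Bool.eq_not.2 hs] at h
  exact D.not_mem e s h

lemma ep_inj {e : D.E} {s s' : Bool} (h : D.ep e s = D.ep e s') : s = s' :=
  (D.mem_iff e s' s).1 (h ▸ D.hmem e s')

lemma C_iff {e : D.E} {c : G} (hc : c ∈ D.C e) (s : Bool) (z : V) :
    c • z ∈ D.H e s ↔ z ∈ D.H e s :=
  ⟨fun h => by simpa using D.hC e _ ((D.C e).inv_mem hc) s _ h, D.hC e c hc s z⟩

lemma C_eq_iff {e : D.E} {c : G} (hc : c ∈ D.C e) (s : Bool) (z : V) :
    c • z = D.ep e s ↔ z = D.ep e s := by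
  rw [← hc s, smul_left_cancel_iff, hc s]

variable {J : Type} (e : J → D.E)

/-- The terms lying on the edge `g₀ τ`. -/
def On (g₀ : G) (τ : D.E) : J → Set G := fun i => {x | e i = τ ∧ g₀⁻¹ * x ∈ D.C τ}

/-- The terms lying on edges inside the half tree `g₀ H τ s`. -/
def Ins (g₀ : G) (τ : D.E) (s : Bool) : J → Set G :=
  fun i => {x | ∀ s', (g₀⁻¹ * x) • D.ep (e i) s' ∈ D.H τ s}

/-- Terms that do not move the edge. -/
def Same : J → J → Set G := fun i i' => {x | e i' = e i ∧ x ∈ D.C (e i)}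

/-- A family of sets that is a union of edges. -/
def Sat (S : J → Set G) : Prop :=
  ∀ i i' x c, e i' = e i → c ∈ D.C (e i) → x ∈ S i → x * c ∈ S i'

variable {D e}

lemma on_one (i : J) : D.On e 1 (e i) = D.Same e i := by
  funext i'; ext x; simp [On, Same]

lemma mem_on_self (i : J) (g : G) : g ∈ D.On e g (e i) i := ⟨rfl, by simp [(D.C _).one_mem]⟩

lemma sat_on (g₀ : G) (τ : D.E) : D.Sat e (D.On e g₀ τ) := by
  rintro i i' x c h hc ⟨h1, h2⟩
  exact ⟨h.trans h1, by rw [← mul_assoc]; exact (D.C τ).mul_mem h2 (h1 ▸ hc)⟩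

lemma Sat.compl {S : J → Set G} (hS : D.Sat e S) : D.Sat e fun i => (S i)ᶜ := by
  intro i i' x c h hc hx hx'
  have := hS i' i _ c⁻¹ h.symm (h ▸ (D.C _).inv_mem hc) hx'
  exact hx (by simpa using this)

lemma Sat.inter {S S' : J → Set G} (hS : D.Sat e S) (hS' : D.Sat e S') :
    D.Sat e fun i => S i ∩ S' i :=
  fun i i' x c h hc hx => ⟨hS i i' x c h hc hx.1, hS' i i' x c h hc hx.2⟩

lemma Sat.on_subset {S : J → Set G} (hS : D.Sat e S) {g₀ : G} {τ : D.E} {i : J} {x : G}
    (h1 : x ∈ D.On e g₀ τ i) (h2 : x ∈ S i) (i' : J) : D.On e g₀ τ i' ⊆ S i' := by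
  rintro y ⟨h3, h4⟩
  have := hS i i' x (x⁻¹ * y) (h3.trans h1.1.symm) (by
    rw [h1.1]
    have := (D.C τ).mul_mem ((D.C τ).inv_mem h1.2) h4
    simpa [mul_assoc] using this) h2
  simpa using this

/-- The component on one edge of the restriction to a union of edges. -/
lemma Sat.prv2_on {S : J → Set G} (hS : D.Sat e S) (g₀ : G) (τ : D.E)
    (y : J → Λ) :
    prv2 (D.On e g₀ τ) (prv2 S y) = 0 ∨ ((∃ i x, x ∈ D.On e g₀ τ i ∧ x ∈ S i) ∧
      prv2 (D.On e g₀ τ) (prv2 S y) = prv2 (D.On e g₀ τ) y) := by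
  by_cases h : ∃ i x, x ∈ D.On e g₀ τ i ∧ x ∈ S i
  · refine Or.inr ⟨h, ?_⟩
    obtain ⟨i, x, h1, h2⟩ := h
    rw [prv2_prv2]
    exact prv2_congr _ fun j g => ⟨fun h => h.1, fun h => ⟨h, hS.on_subset h1 h2 j h⟩⟩
  · exact Or.inl ((vsup2_prv2 _ _).prv2_eq_zero fun j g h1 h2 => h ⟨j, g, h2, h1⟩)

lemma on_eq {g₀ : G} {τ : D.E} {i : J} {x : G} (h : x ∈ D.On e g₀ τ i) :
    D.On e g₀ τ = D.On e x (e i) := by
  funext j
  exact Set.Subset.antisymm ((sat_on x (e i)).on_subset h (mem_on_self i x) j)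
    ((sat_on g₀ τ).on_subset (mem_on_self i x) h j)

/-- Decomposition along the edges. -/
lemma Sat.induction [Fintype J] {P : (J → Λ) → Prop} (h0 : P 0)
    (hadd : ∀ a b, P a → P b → P (a + b)) (y : J → Λ) {S : J → Set G}
    (hS : D.Sat e S) (h : ∀ i, ∀ g ∈ S i, P (prv2 (D.On e g (e i)) y)) : P (prv2 S y) := by
  have main : ∀ n, ∀ S : J → Set G, D.Sat e S → (∀ i, ∀ g ∈ S i, P (prv2 (D.On e g (e i)) y)) →
      vsize (prv2 S y) ≤ n → P (prv2 S y) := by
    intro n
    induction n with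
    | zero => intro S _ _ hn; rw [eq_zero_of_vsize (Nat.le_zero.1 hn)]; exact h0
    | succ n ih =>
      intro S hS h hn
      by_cases hz : prv2 S y = 0
      · rw [hz]; exact h0
      obtain ⟨i, g, hg⟩ := exists_coeff_ne hz
      have hgS : g ∈ S i := vsup2_prv2 S y i g hg
      rw [prv2_union (S₁ := D.On e g (e i)) (S₂ := fun j => (D.On e g (e i) j)ᶜ ∩ S j) y
        (fun j x => ?_) fun j x h1 h2 => h2.1 h1]
      · refine hadd _ _ (h i g hgS) (ih _ ((sat_on g (e i)).compl.inter hS)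
          (fun j x hx => h j x hx.2) ?_)
        have := vsize_prv2_lt (S := fun j => (D.On e g (e i) j)ᶜ) hg
          (fun h => h (mem_on_self i g))
        rw [prv2_prv2] at this
        omega
      · refine ⟨fun hx => ?_, fun hx => hx.elim (hS.on_subset (mem_on_self i g) hgS j ·) (·.2)⟩
        by_cases h1 : x ∈ D.On e g (e i) j
        · exact Or.inl h1
        · exact Or.inr ⟨h1, hx⟩
  exact main _ S hS h le_rfl

lemma sat_univ : D.Sat e fun _ => Set.univ := fun _ _ _ _ _ _ _ => trivial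

lemma on_induction [Fintype J] {P : (J → Λ) → Prop} (h0 : P 0)
    (hadd : ∀ a b, P a → P b → P (a + b)) (y : J → Λ)
    (h : ∀ i g, P (prv2 (D.On e g (e i)) y)) : P y := by
  rw [← prv2_univ y]
  exact sat_univ.induction h0 hadd y fun i g _ => h i g

lemma same_mul [Fintype J] {A B : Matrix J J Λ} (hA : MSup2 (D.Same e) A)
    (hB : MSup2 (D.Same e) B) : MSup2 (D.Same e) (A * B) :=
  hA.mul hB fun _ _ _ _ ha _ hb =>
    ⟨hb.1.trans ha.1, (D.C _).mul_mem ha.2 (ha.1 ▸ hb.2)⟩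

lemma same_one [DecidableEq J] : MSup2 (D.Same e) (1 : Matrix J J Λ) :=
  msup2_one fun _ => ⟨rfl, (D.C _).one_mem⟩

/-- The basic lemma: a chain whose image avoids a half tree. -/
lemma lemB [Fintype J] [DecidableEq J] {z : J → V} {Θ : Bool → Matrix J J Λ}
    (hΘ : ∀ s, MSup2 (fun i j => {x | x • z j = D.ep (e i) s}) (Θ s))
    {Γ : Matrix J J Λ} (s : Bool) (hΓ : (Θ s + Θ (!s)) * Γ = 1)
    (y : J → Λ) (g₀ : G) (τ : D.E)
    (hy : VSup2 (fun j => {x | (g₀⁻¹ * x) • z j ∉ D.H τ s}) (y ᵥ* (Θ s + Θ (!s)))) :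
    prv2 (D.On e g₀ τ) y ᵥ* (Θ s * Γ) = -prv2 (D.Ins e g₀ τ s) y := by
  have h0 : prv2 (fun j => {x | (g₀⁻¹ * x) • z j ∈ D.H τ s}) (y ᵥ* (Θ s + Θ (!s))) = 0 :=
    hy.prv2_eq_zero fun j g h => h
  have h1 : ∀ s', prv2 (fun j => {x | (g₀⁻¹ * x) • z j ∈ D.H τ s}) (y ᵥ* Θ s') =
      prv2 (fun i => {x | (g₀⁻¹ * x) • D.ep (e i) s' ∈ D.H τ s}) y ᵥ* Θ s' := by
    intro s'
    refine prv2_vecMul_right y (hΘ s') fun i j g k hk => ?_
    simp only [Set.mem_ofPred_eq] at hk ⊢
    rw [← mul_assoc, mul_smul, hk]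
  have h2 : prv2 (fun i => {x | (g₀⁻¹ * x) • D.ep (e i) (!s) ∈ D.H τ s}) y =
      prv2 (D.Ins e g₀ τ s) y := by
    refine prv2_congr y fun i x => ⟨fun h => ?_, fun h => h _⟩
    rcases D.tri τ (e i) (g₀⁻¹ * x) with ⟨h3, h4⟩ | h3
    · rw [Set.mem_ofPred_eq, h3, h4] at h
      exact absurd h (D.not_mem τ s)
    · exact fun s' => h3 s _ s' h
  have h3 : prv2 (fun i => {x | (g₀⁻¹ * x) • D.ep (e i) s ∈ D.H τ s}) y =
      prv2 (D.On e g₀ τ) y + prv2 (D.Ins e g₀ τ s) y := by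
    refine prv2_union y (fun i x => ⟨fun h => ?_, ?_⟩) ?_
    · exact (D.tri τ (e i) (g₀⁻¹ * x)).imp id fun h3 s' => h3 s _ s' h
    · rintro (⟨h3, h4⟩ | h)
      · rw [Set.mem_ofPred_eq, h3, h4]; exact D.hmem τ s
      · exact h s
    · rintro i x ⟨h3, h4⟩ h
      have := h (!s)
      rw [h3, h4] at this
      exact D.not_mem τ s this
  rw [vecMul_add, prv2_add, h1, h1, h2, h3, add_vecMul, add_assoc, ← vecMul_add] at h0
  have := congrArg (· ᵥ* Γ) h0
  simp only [add_vecMul, vecMul_vecMul, hΓ, vecMul_one, zero_vecMul] at this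
  exact eq_neg_of_add_eq_zero_left this

lemma lemB0 [Fintype J] [DecidableEq J] {z : J → V} {Θ : Bool → Matrix J J Λ}
    (hΘ : ∀ s, MSup2 (fun i j => {x | x • z j = D.ep (e i) s}) (Θ s))
    {Γ : Matrix J J Λ} (s : Bool) (hΓ : (Θ s + Θ (!s)) * Γ = 1)
    (y : J → Λ) (g₀ : G) (τ : D.E)
    (hy : VSup2 (fun j => {x | (g₀⁻¹ * x) • z j ∉ D.H τ s}) (y ᵥ* (Θ s + Θ (!s)))) :
    prv2 (D.On e g₀ τ) y ᵥ* mpr2 (D.Same e) (Θ s * Γ) = 0 := by
  rw [← prv2_vecMul_left (S := D.On e g₀ τ) _ (vsup2_prv2 _ _), lemB hΘ s hΓ y g₀ τ hy, prv2_neg,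
    (vsup2_prv2 _ _).prv2_eq_zero, neg_zero]
  · rintro i x h ⟨h3, h4⟩
    have := h (!s)
    rw [h3, h4] at this
    exact D.not_mem τ s this
  · rintro i j k ⟨h1, h2⟩ g
    simp only [On, Same, Set.mem_ofPred_eq, h1, ← mul_assoc]
    exact and_congr_right fun _ => (D.C τ).mul_mem_cancel_left h2

end TB

end Gr

end Pool.Agent.MP_f7db47_al

end

section

/-!
The filtration attached to a family of matrices, graded by the edges.
-/

set_option linter.unusedSectionVars false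

namespace Pool.Agent.MP_f7db47_al

namespace Gr

open Matrix

universe u w x

namespace TB

variable {G : Type u} [Group G] {Λ : Type x} [Ring Λ] [GrS G Λ]
  {V : Type w} [MulAction G V] {D : TB G V}
variable {J : Type} [Fintype J] [DecidableEq J] {e : J → D.E} {A : Type}

lemma on_smul (g₀ h : G) (τ : D.E) :
    (fun j => {y | h * y ∈ D.On e g₀ τ j}) = D.On e (h⁻¹ * g₀) τ := by
  funext j; ext y; simp [On, mul_assoc]

variable (D e) in
/-- One step of the iterated filtration. -/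
def stepV (n : A → Matrix J J Λ)
    (W : Submodule Λ (J → Λ)) :
    Submodule Λ (J → Λ) where
  carrier := {f | ∀ g τ a, prv2 (D.On e g τ) f ᵥ* n a ∈ W}
  zero_mem' g τ a := by rw [prv2_zero, zero_vecMul]; exact zero_mem _
  add_mem' {x y} hx hy g τ a := by
    rw [prv2_add, add_vecMul]; exact add_mem (hx g τ a) (hy g τ a)
  smul_mem' c f hf g τ a := by
    refine (sup_univ c).induction (P := fun c => prv2 (D.On e g τ) (c • f) ᵥ* n a ∈ W)
      (by rw [zero_smul, prv2_zero, zero_vecMul]; exact zero_mem _)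
      (fun x y hx hy => by rw [add_smul, prv2_add, add_vecMul]; exact add_mem hx hy)
      fun h _ r hr => ?_
    rw [prv2_single_smul _ h hr, smul_vecMul, on_smul]
    exact Submodule.smul_mem _ _ (hf _ _ _)

variable (D e) in
/-- The iterated filtration. -/
noncomputable def itV (n : A → Matrix J J Λ) :
    ℕ → Submodule Λ (J → Λ)
  | 0 => ⊥
  | j + 1 => D.stepV e n (itV n j)

variable {n : A → Matrix J J Λ}

lemma mem_itV_succ {j : ℕ} {f : J → Λ} :
    f ∈ D.itV e n (j + 1) ↔ ∀ g τ a, prv2 (D.On e g τ) f ᵥ* n a ∈ D.itV e n j := Iff.rfl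

lemma itV_mono : Monotone (D.itV e n) := by
  refine monotone_nat_of_le_succ fun j => ?_
  induction j with
  | zero => exact bot_le
  | succ j ih => exact fun f hf g τ a => ih (hf g τ a)

lemma itV_graded {S : J → Set G} (hS : D.Sat e S) {j : ℕ} {f : J → Λ}
    (hf : f ∈ D.itV e n j) : prv2 S f ∈ D.itV e n j := by
  cases j with
  | zero =>
    change f ∈ (⊥ : Submodule _ _) at hf
    rw [Submodule.mem_bot] at hf
    rw [hf, prv2_zero]; exact zero_mem _
  | succ j =>
    intro g τ a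
    rcases hS.prv2_on g τ f with h | ⟨-, h⟩
    · rw [h, zero_vecMul]; exact zero_mem _
    · rw [h]; exact hf g τ a

lemma itV_low {j : ℕ} {f : J → Λ} (hf : f ∈ D.itV e n (j + 1)) (a : A) :
    f ᵥ* n a ∈ D.itV e n j :=
  on_induction (D := D) (e := e) (P := fun z => z ᵥ* n a ∈ D.itV e n j) (by simp)
    (fun x y hx hy => by rw [add_vecMul]; exact add_mem hx hy) f fun i g => hf g _ a

lemma vecMul_proj (τ : D.E) (f : J → Λ) :
    f ᵥ* proj Λ e τ = prv2 (fun i => {_x | e i = τ}) f := by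
  funext i
  rw [proj, vecMul_diagonal, prv2]
  split_ifs with h
  · rw [mul_one]; exact (Sup.pr_eq fun _ _ => h).symm
  · rw [mul_zero]; exact ((sup_univ _).pr_eq_zero fun _ _ => h).symm

lemma sat_type (τ : D.E) : D.Sat e fun i => {_x | e i = τ} :=
  fun _ _ _ _ h _ hx => h.trans hx

/-- The iterated filtration as an ungraded filtration. -/
noncomputable def filtV {k : ℕ} (hk : D.itV e n k = ⊤) : Filt Λ (⊤ : Subgroup G) J where
  V := D.itV e n
  k := k
  zero := rfl
  top := hk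
  mono := itV_mono
  graded j S hS f hf := by
    by_cases h : (1 : G) ∈ S
    · have : S = Set.univ := Set.eq_univ_of_forall fun g => by
        simpa using (hS 1 g trivial).2 h
      rwa [this, prv_univ]
    · have : prv S f = 0 := funext fun i => (sup_univ _).pr_eq_zero fun g _ hg =>
        h ((hS 1 g trivial).1 (by simpa using hg))
      rw [this]; exact zero_mem _

lemma low_n {k : ℕ} (hk : D.itV e n k = ⊤) (a : A) : (filtV hk).Low 1 (n a) :=
  fun _ _ hf => itV_low hf a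

lemma low_proj {k : ℕ} (hk : D.itV e n k = ⊤) (τ : D.E) :
    (filtV hk).Low 0 (proj Λ e τ) := fun _ f hf => by
  rw [vecMul_proj]; exact itV_graded (sat_type τ) hf

/-- A block of one type is path nilpotent for the edge group. -/
lemma pn_of_low {k : ℕ} (hk : D.itV e n k = ⊤) (τ : D.E) {a : Matrix J J Λ}
    (h1 : proj _ e τ * a = a) (h2 : a * proj _ e τ = a) (hl : (filtV hk).Low 1 a) :
    PN (D.C τ) a := by
  let U : ℕ → Submodule Λ (J → Λ) := fun j =>
    (D.itV e n j).comap (proj Λ e τ).vecMulLinear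
  have hU : ∀ j f, f ∈ U j ↔ f ᵥ* proj Λ e τ ∈ D.itV e n j := fun _ _ => Iff.rfl
  let V' : ℕ → Submodule Λ (J → Λ) := fun j =>
    Nat.casesOn j ⊥ U
  refine ⟨⟨V', k + 1, rfl, ?_, ?_, ?_⟩, ?_⟩
  · rw [eq_top_iff]
    intro f _
    change f ∈ U k
    rw [hU, hk]; trivial
  · refine monotone_nat_of_le_succ fun j => ?_
    cases j with
    | zero => exact bot_le
    | succ j => exact fun f hf => itV_mono (Nat.le_succ j) hf
  · intro j S hS f hf
    cases j with
    | zero =>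
      change f ∈ (⊥ : Submodule _ _) at hf
      rw [Submodule.mem_bot] at hf
      rw [hf, prv_zero]; exact zero_mem _
    | succ j =>
      change f ∈ U j at hf
      change prv S f ∈ U j
      rw [hU, vecMul_proj] at hf ⊢
      have := itV_graded (S := fun i => {x | e i = τ ∧ x ∈ S})
        (fun i i' x c h hc hx => ⟨h.trans hx.1, (hS x c (hx.1 ▸ hc)).2 hx.2⟩) hf
      convert this using 1
      change prv2 _ (prv2 (fun _ => S) f) = _
      rw [prv2_prv2, prv2_prv2]
      exact prv2_congr _ fun i x => ⟨fun h => ⟨h, h.1⟩, fun h => h.1⟩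
  · intro j f hf
    change f ∈ U j at hf
    rw [hU] at hf
    rw [← h1, ← vecMul_vecMul]
    cases j with
    | zero =>
      change _ ∈ (⊥ : Submodule _ _) at hf
      rw [Submodule.mem_bot] at hf
      rw [hf, zero_vecMul]; exact zero_mem _
    | succ j =>
      change _ ∈ U j
      rw [hU, vecMul_vecMul _ a, h2]
      exact hl j _ hf

/-- The filtration is exhaustive as soon as it contains all vectors on single edges. -/
lemma exists_top (h : ∀ g τ f, VSup2 (D.On e g τ) f → ∃ m, f ∈ D.itV e n m) :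
    ∃ k, D.itV e n k = ⊤ := by
  have : ∀ i : J, ∃ m, (Pi.single i 1 : J → Λ) ∈ D.itV e n m := by
    intro i
    refine h 1 (e i) _ fun j => ?_
    by_cases hij : j = i
    · subst hij; rw [Pi.single_eq_same]; exact sup_one (mem_on_self j 1)
    · rw [Pi.single_eq_of_ne hij]; exact sup_zero _
  choose m hm using this
  refine ⟨Finset.univ.sup m, eq_top_iff.2 fun f _ => ?_⟩
  rw [pi_eq_sum_univ' f]
  exact Submodule.sum_mem _ fun i _ => Submodule.smul_mem _ _
    (itV_mono (Finset.le_sup (f := m) (Finset.mem_univ i)) (hm i))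

end TB

end Gr

end Pool.Agent.MP_f7db47_al

end

section

/-!
The linear case of the splitting theorem for trees.
-/

set_option linter.unusedSectionVars false

namespace Pool.Agent.MP_f7db47_al

namespace Gr

open Matrix

universe u w x

namespace TB

variable {G : Type u} [Group G] {Λ : Type x} [Ring Λ] [GrS G Λ]
  {V : Type w} [MulAction G V] (D : TB G V)

variable (Λ) in
/-- A linear invertible matrix together with its inverse. -/
structure Lin (J : Type) [Fintype J] [DecidableEq J] where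
  e : J → D.E
  z : J → V
  Θ : Bool → Matrix J J Λ
  Γ : Matrix J J Λ
  hΘ : ∀ s, MSup2 (fun i j => {x | x • z j = D.ep (e i) s}) (Θ s)
  hΘΓ : ∀ s, (Θ s + Θ (!s)) * Γ = 1
  hΓΘ : ∀ s, Γ * (Θ s + Θ (!s)) = 1

namespace Lin

variable {D} {J : Type} [Fintype J] [DecidableEq J] (L : D.Lin Λ J)

/-- The idempotents. -/
noncomputable def p (s : Bool) : Matrix J J Λ := mpr2 (D.Same L.e) (L.Θ s * L.Γ)

/-- Adjacent edges. -/
def Sb (s s' : Bool) : J → J → Set G :=
  fun i i' => {g | g • D.ep (L.e i') (!s') = D.ep (L.e i) s ∧ g ∉ D.Same L.e i i'}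

/-- The nilpotent parts. -/
noncomputable def n (s s' : Bool) : Matrix J J Λ :=
  -mpr2 (L.Sb s s') (L.Θ s * L.Γ)

/-- The adjacent part of the inverse. -/
noncomputable def U (s : Bool) : Matrix J J Λ :=
  mpr2 (fun j i => {g | g • D.ep (L.e i) s = L.z j}) L.Γ

lemma msup_p (s : Bool) : MSup2 (D.Same L.e) (L.p s) := msup2_mpr2 _ _

lemma M_add (s : Bool) : L.Θ s * L.Γ + L.Θ (!s) * L.Γ = 1 := by rw [← add_mul, L.hΘΓ]

lemma p_add (s : Bool) : L.p s + L.p (!s) = 1 := by
  rw [p, p, ← mpr2_add, L.M_add, same_one.mpr2_eq]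

lemma row_mul (A B : Matrix J J Λ) (i : J) : (A * B) i = A i ᵥ* B := rfl

lemma row_vecMul (A : Matrix J J Λ) (s : Bool) (i : J) :
    (A * L.Γ) i ᵥ* (L.Θ s + L.Θ (!s)) = A i := by
  rw [← row_mul, mul_assoc, L.hΓΘ, mul_one]

lemma hyp_row (s s' : Bool) (i : J) (g : G) (τ : D.E) (h : g⁻¹ • D.ep (L.e i) s ∉ D.H τ s') :
    VSup2 (fun j => {x | (g⁻¹ * x) • L.z j ∉ D.H τ s'})
      ((L.Θ s * L.Γ) i ᵥ* (L.Θ s' + L.Θ (!s'))) := by
  rw [row_vecMul]
  intro j x hx
  have := L.hΘ s i j x hx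
  simp only [Set.mem_ofPred_eq] at this ⊢
  rwa [mul_smul, this]

lemma p_mul_M (s : Bool) : L.p s * (L.Θ (!s) * L.Γ) =
    -mpr2 (fun i => D.Ins L.e 1 (L.e i) (!s)) (L.Θ s * L.Γ) := by
  funext i
  rw [row_mul, p, mpr2_row, ← on_one]
  exact lemB L.hΘ (!s) (L.hΘΓ _) _ 1 _ (L.hyp_row s (!s) i 1 _ (by simpa using D.not_mem' _ s))

lemma p_mul_p (s : Bool) : L.p s * L.p (!s) = 0 := by
  funext i
  rw [row_mul, p, mpr2_row, ← on_one]
  exact lemB0 L.hΘ (!s) (L.hΘΓ _) _ 1 _ (L.hyp_row s (!s) i 1 _ (by simpa using D.not_mem' _ s))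

lemma p_idem (s : Bool) : L.p s * L.p s = L.p s := by
  conv_rhs => rw [← mul_one (L.p s), ← L.p_add s, mul_add, p_mul_p, add_zero]

lemma sb_left (s s' : Bool) (i j k : J) :
    ∀ y ∈ D.Same L.e i j, ∀ g, y * g ∈ L.Sb s s' i k ↔ g ∈ L.Sb s s' j k := by
  rintro y ⟨h1, h2⟩ g
  simp only [Sb, Same, Set.mem_ofPred_eq, h1, mul_smul, D.C_eq_iff h2,
    (D.C _).mul_mem_cancel_left h2]

lemma sat_sb (s s' : Bool) (i : J) : D.Sat L.e (L.Sb s s' i) := by
  rintro j j' x c h hc ⟨h1, h2⟩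
  refine ⟨by rw [h, mul_smul, hc, h1], fun h3 => h2 ⟨h.symm.trans h3.1, ?_⟩⟩
  exact ((D.C _).mul_mem_cancel_right ((h.symm.trans h3.1) ▸ hc)).1 h3.2

lemma mpr2_sb_one (s s' : Bool) : mpr2 (L.Sb s s') (1 : Matrix J J Λ) = 0 :=
  (same_one (D := D) (e := L.e)).mpr2_eq_zero fun _ _ _ h h' => h'.2 h

lemma p_mul_n (s s' : Bool) : L.p s * L.n s s' = 0 := by
  have e1 : L.p s * (L.Θ s * L.Γ) =
      L.p s + mpr2 (fun i => D.Ins L.e 1 (L.e i) (!s)) (L.Θ s * L.Γ) := by
    rw [← sub_neg_eq_add, ← p_mul_M, eq_sub_iff_add_eq, ← mul_add, M_add, mul_one]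
  rw [n, mul_neg, ← mpr2_mul_left _ (L.msup_p s) (L.sb_left s s'), e1, mpr2_add,
    (L.msup_p s).mpr2_eq_zero fun _ _ _ h h' => h'.2 h,
    (msup2_mpr2 _ _).mpr2_eq_zero, add_zero, neg_zero]
  intro i j g h h'
  have := h (!s')
  rw [inv_one, one_mul, h'.1] at this
  exact D.not_mem' _ s this

lemma p_mul_n' (s s' : Bool) : L.p (!s) * L.n s s' = L.n s s' := by
  conv_rhs => rw [← one_mul (L.n s s'), ← L.p_add s, add_mul, p_mul_n, zero_add]

lemma n_mul_p (s s' : Bool) : L.n s s' * L.p s' = 0 := by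
  rw [n, neg_mul, neg_eq_zero]
  funext i
  rw [row_mul, mpr2_row]
  refine (L.sat_sb s s' i).induction (P := fun z => z ᵥ* L.p s' = 0) (zero_vecMul _)
    (fun a b ha hb => by rw [add_vecMul, ha, hb, add_zero]) _ fun j g hg => ?_
  refine lemB0 L.hΘ s' (L.hΘΓ _) _ g _ (L.hyp_row s s' i g _ ?_)
  rw [← hg.1, inv_smul_smul]; exact D.not_mem _ _

lemma n_mul_p' (s s' : Bool) : L.n s s' * L.p (!s') = L.n s s' := by
  conv_rhs => rw [← mul_one (L.n s s'), ← L.p_add s', mul_add, n_mul_p, zero_add]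

lemma U_mul_p (s : Bool) : L.U s * L.p (!s) = 0 := by
  funext j
  rw [row_mul, U, mpr2_row]
  refine Sat.induction (D := D) (e := L.e) (P := fun z => z ᵥ* L.p (!s) = 0) (zero_vecMul _)
    (fun a b ha hb => by rw [add_vecMul, ha, hb, add_zero]) _ ?_ fun i g hg => ?_
  · intro i i' x c h hc hx
    simp only [Set.mem_ofPred_eq] at hx ⊢
    rw [h, mul_smul, hc, hx]
  · refine lemB0 L.hΘ (!s) (L.hΘΓ _) _ g _ ?_
    rw [← row_mul, L.hΓΘ]
    refine fun j' => (msup2_one (S := fun j j' => {x : G | x • L.z j' = L.z j})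
      (fun _ => one_smul _ _) j j').mono fun x hx => ?_
    simp only [Set.mem_ofPred_eq] at hx hg ⊢
    rw [mul_smul, hx, ← hg, inv_smul_smul]
    exact D.not_mem' _ _

lemma U_mul_p' (s : Bool) : L.U s * L.p s = L.U s := by
  conv_rhs => rw [← mul_one (L.U s), ← L.p_add s, mul_add, U_mul_p, add_zero]

lemma Θ_mul_U (s s' : Bool) : L.Θ s * L.U s' =
    mpr2 (fun i i' => {g | g • D.ep (L.e i') s' = D.ep (L.e i) s}) (L.Θ s * L.Γ) := by
  refine (mpr2_mul_left _ (L.hΘ s) fun i j k y hy g => ?_).symm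
  simp only [Set.mem_ofPred_eq] at hy ⊢
  rw [mul_smul, ← hy, smul_left_cancel_iff]

lemma Θ_mul_U_same (s : Bool) : L.Θ s * L.U s = L.p s - L.n s (!s) := by
  rw [Θ_mul_U, p, n, sub_neg_eq_add]
  refine mpr2_union _ (fun i j g => ⟨fun h => ?_, ?_⟩) fun i j g h h' => h'.2 h
  · by_cases h' : g ∈ D.Same L.e i j
    · exact Or.inl h'
    · exact Or.inr ⟨by rwa [Bool.not_not], h'⟩
  · rintro (⟨h1, h2⟩ | ⟨h, -⟩)
    · rw [Set.mem_ofPred_eq, h1, h2]
    · rwa [Bool.not_not] at h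

lemma Θ_mul_U_opp (s : Bool) : L.Θ s * L.U (!s) = -L.n s s := by
  rw [Θ_mul_U, n, neg_neg]
  congr 1
  funext i j
  ext g
  refine ⟨fun h => ⟨h, fun h' => ?_⟩, fun h => h.1⟩
  rw [Set.mem_ofPred_eq, h'.1, h'.2] at h
  simpa using D.ep_inj h

/-- The split part. -/
noncomputable def W : Matrix J J Λ :=
  L.p false * L.Θ false + L.p true * L.Θ true

lemma W_eq (s : Bool) : L.W = L.p s * L.Θ s + L.p (!s) * L.Θ (!s) := by
  cases s
  · rfl
  · exact add_comm _ _

lemma U_mul_W : (L.U false + L.U true) * L.W = 1 := by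
  have h1 : ∀ s, L.U s * L.W = L.U s * L.Θ s := fun s => by
    rw [L.W_eq s, mul_add, ← mul_assoc, ← mul_assoc, U_mul_p, U_mul_p', zero_mul, add_zero]
  have h2 : ∀ s, mpr2 (fun j j' => {x | x • L.z j' = L.z j}) (L.Γ * L.Θ s) = L.U s * L.Θ s :=
    fun s => mpr2_mul_right _ (L.hΘ s) fun j i j' g y hy => by
      simp only [Set.mem_ofPred_eq] at hy ⊢
      rw [mul_smul, hy]
  rw [add_mul, h1, h1, ← h2, ← h2, ← mpr2_add, ← mul_add]
  have := L.hΓΘ false
  rw [Bool.not_false] at this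
  rw [this]
  exact (msup2_one fun _ => one_smul _ _).mpr2_eq

lemma Θ_mul_UU (s : Bool) :
    L.Θ s * (L.U false + L.U true) = L.p s - (L.n s false + L.n s true) := by
  have h1 := L.Θ_mul_U_same s
  have h2 := L.Θ_mul_U_opp s
  cases s
  · rw [Bool.not_false] at h1 h2
    rw [mul_add, h1, h2]; abel
  · rw [Bool.not_true] at h1 h2
    rw [mul_add, h1, h2]; abel

lemma W_mul_U : L.W * (L.U false + L.U true) = 1 := by
  rw [W, add_mul, mul_assoc, mul_assoc, Θ_mul_UU, Θ_mul_UU, mul_sub, mul_sub, mul_add, mul_add,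
    p_mul_n, p_mul_n, p_mul_n, p_mul_n, p_idem, p_idem]
  simpa using L.p_add false

lemma n_eq (s s' : Bool) : L.n s s' = mpr2 (L.Sb s s') (L.W * L.Γ) := by
  have e1 : L.Θ (!s) * L.Γ = 1 - L.Θ s * L.Γ := by rw [← L.M_add s]; abel
  have e2 : mpr2 (L.Sb s s') (L.Θ s * L.Γ) = -L.n s s' := by rw [n, neg_neg]
  rw [L.W_eq s, add_mul, mul_assoc, mul_assoc, mpr2_add,
    mpr2_mul_left _ (L.msup_p s) (L.sb_left s s'),
    mpr2_mul_left _ (L.msup_p (!s)) (L.sb_left s s'), e1, mpr2_sub, mpr2_sb_one, e2, mul_neg,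
    p_mul_n, zero_sub, neg_neg, p_mul_n', neg_zero, zero_add]

lemma same_X : mpr2 (D.Same L.e) (L.W * L.Γ) = 1 := by
  have h : ∀ s, mpr2 (D.Same L.e) (L.p s * (L.Θ s * L.Γ)) = L.p s := fun s => by
    rw [mpr2_mul_left (S₁ := D.Same L.e) _ (L.msup_p s)]
    · exact L.p_idem s
    · rintro i j k y ⟨h1, h2⟩ g
      simp only [Same, Set.mem_ofPred_eq, h1, (D.C _).mul_mem_cancel_left h2]
  rw [W, add_mul, mul_assoc, mul_assoc, mpr2_add, h, h]
  exact L.p_add false

lemma X_inj {f : J → Λ} (h : f ᵥ* (L.W * L.Γ) = 0) : f = 0 := by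
  have := congrArg (· ᵥ* ((L.Θ false + L.Θ (!false)) * (L.U false + L.U true))) h
  simp only [vecMul_vecMul, zero_vecMul] at this
  rwa [mul_assoc, ← mul_assoc L.Γ, L.hΓΘ, one_mul, W_mul_U, vecMul_one] at this

lemma mem_itV (m : ℕ) : ∀ g₀ τ₀ f, VSup2 (D.On L.e g₀ τ₀) f → vsize (f ᵥ* (L.W * L.Γ)) ≤ m →
    f ∈ D.itV L.e (fun a : Bool × Bool => L.n a.1 a.2) m := by
  induction m with
  | zero =>
    intro g₀ τ₀ f _ hm
    rw [L.X_inj (eq_zero_of_vsize (Nat.le_zero.1 hm))]; exact zero_mem _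
  | succ m ih =>
    intro g₀ τ₀ f hf hm
    by_cases hf0 : f = 0
    · rw [hf0]; exact zero_mem _
    rintro g τ ⟨s, s'⟩
    suffices f ᵥ* L.n s s' ∈ D.itV L.e (fun a : Bool × Bool => L.n a.1 a.2) m by
      rw [← hf.prv2_eq]
      rcases (sat_on g₀ τ₀).prv2_on g τ f with h | ⟨⟨i, x, h1, h2⟩, h⟩
      · rw [h, zero_vecMul]; exact zero_mem _
      · rw [h, on_eq h1, ← on_eq h2, hf.prv2_eq]; exact this
    set Y := f ᵥ* (L.W * L.Γ) with hY
    have hYf : prv2 (D.On L.e g₀ τ₀) Y = f := by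
      rw [hY, prv2_vecMul_left (S₁ := D.Same L.e) _ hf, same_X, vecMul_one]
      rintro i j k ⟨h1, h2⟩ g
      simp only [On, Same, Set.mem_ofPred_eq, h1, ← mul_assoc]
      exact and_congr_right fun _ => (D.C τ₀).mul_mem_cancel_left h2
    have hn : f ᵥ* L.n s s' = prv2 (fun j => {x | (g₀⁻¹ * x) • D.ep (L.e j) (!s') = D.ep τ₀ s ∧
        x ∉ D.On L.e g₀ τ₀ j}) Y := by
      rw [n_eq, hY]
      refine (prv2_vecMul_left _ hf ?_).symm
      rintro i j k ⟨h1, h2⟩ g
      simp only [On, Same, Sb, Set.mem_ofPred_eq, h1, ← mul_assoc]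
      rw [mul_smul, D.C_eq_iff h2, (D.C τ₀).mul_mem_cancel_left h2]
    rw [hn]
    refine Sat.induction (D := D) (e := L.e)
      (P := fun z => z ∈ D.itV L.e (fun a : Bool × Bool => L.n a.1 a.2) m) (zero_mem _)
      (fun a b ha hb => add_mem ha hb) Y ?_ ?_
    · rintro i i' x c h hc ⟨h1, h2⟩
      exact ⟨by rw [h, ← mul_assoc, mul_smul, hc, h1], (sat_on g₀ τ₀).compl i i' x c h hc h2⟩
    rintro i x ⟨h1, h2⟩
    have hout : ∀ s₁, (x⁻¹ * g₀) • D.ep τ₀ s₁ ∉ D.H (L.e i) s' := by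
      intro s₁ h
      rcases D.tri (L.e i) τ₀ (x⁻¹ * g₀) with ⟨h3, h4⟩ | h3
      · refine h2 ⟨h3.symm, ?_⟩
        have := (D.C (L.e i)).inv_mem h4
        rw [h3]; simpa using this
      · have := h3 s' s₁ s h
        rw [← h1, smul_smul] at this
        exact D.not_mem _ s' (by simpa using this)
    have hyp : VSup2 (fun j => {y | (x⁻¹ * y) • L.z j ∉ D.H (L.e i) s'})
        (Y ᵥ* (L.Θ s' + L.Θ (!s'))) := by
      rw [hY, vecMul_vecMul, mul_assoc, L.hΓΘ, mul_one, W, vecMul_add]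
      have : ∀ s₁, VSup2 (fun j => {y | (x⁻¹ * y) • L.z j ∉ D.H (L.e i) s'})
          (f ᵥ* (L.p s₁ * L.Θ s₁)) := by
        intro s₁
        refine hf.vecMul (S' := fun i j => {y | y • L.z j = D.ep (L.e i) s₁})
          ((L.msup_p s₁).mul (L.hΘ s₁) ?_) ?_
        · rintro a b c k ⟨h3, h4⟩ y hy
          simp only [Set.mem_ofPred_eq] at hy ⊢
          rw [mul_smul, hy, h3, h4]
        · rintro a b k ⟨h3, h4⟩ y hy
          simp only [Set.mem_ofPred_eq] at hy ⊢
          have e : x⁻¹ * (k * y) = x⁻¹ * g₀ * (g₀⁻¹ * k) * y := by group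
          rw [e, mul_smul, hy, h3, mul_smul, h4]
          exact hout s₁
      exact fun j => (this false j).add (this true j)
    have hB := lemB L.hΘ s' (L.hΘΓ s') Y x (L.e i) hyp
    have hB0 := lemB0 L.hΘ s' (L.hΘΓ s') Y x (L.e i) hyp
    set f₂ := prv2 (D.On L.e x (L.e i)) Y with hf₂
    have hX : f₂ ᵥ* (L.W * L.Γ) =
        prv2 (fun j => D.On L.e x (L.e i) j ∪ D.Ins L.e x (L.e i) s' j) Y := by
      have e1 : L.p (!s') = 1 - L.p s' := by rw [← L.p_add s']; abel
      have e2 : L.Θ (!s') * L.Γ = 1 - L.Θ s' * L.Γ := by rw [← L.M_add s']; abel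
      have e3 : f₂ ᵥ* L.p s' = 0 := hB0
      rw [L.W_eq s', add_mul, mul_assoc, mul_assoc, vecMul_add, ← vecMul_vecMul, e3, zero_vecMul,
        zero_add, ← vecMul_vecMul, e1, vecMul_sub, e3, vecMul_one, sub_zero, e2, vecMul_sub,
        vecMul_one, hB, sub_neg_eq_add]
      refine (prv2_union Y (fun _ _ => Iff.rfl) ?_).symm
      rintro j y ⟨h3, h4⟩ h
      have := h (!s')
      rw [h3, h4] at this
      exact D.not_mem _ _ this
    refine ih x (L.e i) f₂ (vsup2_prv2 _ _) ?_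
    obtain ⟨j, y, hy⟩ := exists_coeff_ne hf0
    have hy1 : y ∈ D.On L.e g₀ τ₀ j := hf j y hy
    have hy2 : cp (Y j) y ≠ 0 := by
      intro h0
      apply hy
      rw [← hYf, prv2, coeff_pr, h0, ite_self]
    have := vsize_prv2_lt (S := fun j => D.On L.e x (L.e i) j ∪ D.Ins L.e x (L.e i) s' j) hy2 (by
      rintro (h | h)
      · exact h2 ((sat_on g₀ τ₀).on_subset h hy1 i (mem_on_self i x))
      · have := h s
        have e : x⁻¹ * y = x⁻¹ * g₀ * (g₀⁻¹ * y) := by group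
        rw [hy1.1, e, mul_smul, hy1.2] at this
        exact hout s this)
    rw [hX]
    omega

lemma T_ΘU (S : TS Λ) (htame : ∀ σ, TameP S (D.Ah σ σ) (D.C σ.1)) :
    S.T ((L.Θ false + L.Θ true) * (L.U false + L.U true)) := by
  classical
  obtain ⟨k, hk⟩ := exists_top (D := D) (e := L.e) (n := fun a : Bool × Bool => L.n a.1 a.2)
    fun g τ f hf => ⟨_, L.mem_itV _ g τ f hf le_rfl⟩
  set P := proj Λ L.e with hP
  have hc : ∀ s τ, P τ * L.p s = L.p s * P τ := fun s =>
    proj_comm L.e fun i j h => (L.msup_p s i j).eq_zero (sup_univ _) fun g hg => absurd hg.1.symm h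
  have := elim_types S (filtV hk) (fun σ : D.E × Bool => P σ.1 * L.p (!σ.2)) ?_ D.Ah D.ah_mul ?_
    (Finset.univ.image L.e ×ˢ Finset.univ) (fun σ σ' => P σ.1 * L.n σ.2 σ'.2 * P σ'.1) ?_ ?_ ?_ ?_
  · convert this using 1
    have hs : ∑ τ ∈ Finset.univ.image L.e, P τ = 1 :=
      sum_proj L.e fun i => Finset.mem_image_of_mem _ (Finset.mem_univ i)
    simp only [Finset.sum_product, Fintype.sum_bool, Finset.sum_add_distrib, ← Finset.mul_sum,
      ← Finset.sum_mul, hs, mul_one, one_mul]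
    rw [add_mul, Θ_mul_UU, Θ_mul_UU, ← L.p_add false, Bool.not_false]
    abel
  · rintro ⟨τ, s⟩ ⟨τ', s'⟩ h
    dsimp only
    rw [mul_assoc, ← mul_assoc (L.p _), ← hc, ← mul_assoc, ← mul_assoc]
    by_cases hτ : τ = τ'
    · have : s' = !s := Bool.eq_not.2 fun h' => h (by rw [hτ, h'])
      rw [mul_assoc, this, p_mul_p, mul_zero]
    · rw [proj_mul_ne _ hτ, zero_mul, zero_mul]
  · rintro ⟨τ, s⟩ a ha h1 h2 hl
    refine htame (τ, s) J a ha (pn_of_low hk τ ?_ ?_ hl)
    · rw [← h1, ← mul_assoc, ← mul_assoc, proj_mul_self]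
    · rw [← h2, hc, mul_assoc, mul_assoc, proj_mul_self]
  · rintro ⟨τ, s⟩ ⟨τ', s'⟩ i j
    rw [mul_proj_apply, proj_mul_apply]
    split_ifs with h1 h2
    · refine ((msup2_mpr2 _ _).neg i j).mono ?_
      rintro g ⟨h3, h4⟩
      dsimp only at h1 h2 ⊢
      subst h1 h2
      refine ⟨D.nest _ _ s s' g h3 h4, _, D.hmem _ _, ?_⟩
      rw [← h3, inv_smul_smul]; exact D.not_mem _ _
    · exact sup_zero _
    · exact sup_zero _
  · rintro ⟨τ, s⟩ ⟨τ', s'⟩
    dsimp only
    rw [hc, ← mul_assoc, ← mul_assoc, mul_assoc (L.p _), proj_mul_self, ← hc, mul_assoc (P τ),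
      p_mul_n']
  · rintro ⟨τ, s⟩ ⟨τ', s'⟩
    dsimp only
    rw [mul_assoc, ← mul_assoc (P τ'), proj_mul_self, hc, ← mul_assoc, mul_assoc (P τ), n_mul_p']
  · rintro ⟨τ, s⟩ ⟨τ', s'⟩
    exact ((low_proj hk τ).mul (low_n hk (s, s'))).mul (low_proj hk τ')

end Lin

end TB

end Gr

end Pool.Agent.MP_f7db47_al

end

section

/-!
The splitting theorem for trees, for an abstract calculus.
-/

set_option linter.unusedSectionVars false

namespace Pool.Agent.MP_f7db47_al

namespace Gr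

open Matrix

universe u w x

namespace TB

variable {G : Type u} [Group G] {Λ : Type x} [Ring Λ] [GrS G Λ]
  {V : Type w} [MulAction G V] (D : TB G V)

/-- All invertible split matrices are trivial. -/
def SplitT (S : TS Λ) : Prop :=
  ∀ (J : Type) [Fintype J] [DecidableEq J] (e : J → D.E) (z : J → V)
    (Θ₀ Θ₁ ε : Matrix J J Λ),
    MSup2 (fun i j => {x | x • z j = D.ep (e i) false}) Θ₀ →
    MSup2 (fun i j => {x | x • z j = D.ep (e i) true}) Θ₁ → MSup2 (D.Same e) ε → ε * ε = ε →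
    IsUnit (ε * Θ₀ + (1 - ε) * Θ₁) → S.T (ε * Θ₀ + (1 - ε) * Θ₁)

variable {D} {S : TS Λ}

lemma linear (htame : ∀ σ, TameP S (D.Ah σ σ) (D.C σ.1)) (hsplit : D.SplitT S)
    {J : Type} [Fintype J] [DecidableEq J] (e : J → D.E) (z : J → V)
    {A : Matrix J J Λ}
    (hA : MSup2 (fun i j => {x | ∃ s, x • z j = D.ep (e i) s}) A) (hu : IsUnit A) : S.T A := by
  obtain ⟨u, rfl⟩ := hu
  let Θ : Bool → Matrix J J Λ := fun s =>
    mpr2 (fun i j => {x | x • z j = D.ep (e i) s}) u.val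
  have hsum : ∀ s, Θ s + Θ (!s) = u.val := by
    intro s
    rw [← hA.mpr2_eq]
    refine (mpr2_union _ (fun i j g => ⟨?_, ?_⟩) fun i j g h h' => ?_).symm
    · rintro ⟨s', h⟩
      by_cases hs : s' = s
      · exact Or.inl (hs ▸ h)
      · exact Or.inr (Bool.eq_not.2 hs ▸ h)
    · rintro (h | h) <;> exact ⟨_, h⟩
    · simpa using D.ep_inj (h.symm.trans h')
  let L : D.Lin Λ J := ⟨e, z, Θ, (u⁻¹ : Units _).val, fun s => msup2_mpr2 _ _,
    fun s => by rw [hsum, u.mul_inv], fun s => by rw [hsum, u.inv_mul]⟩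
  have h1 := L.T_ΘU S htame
  have hp : L.p true = 1 - L.p false := by rw [← L.p_add false, Bool.not_false]; abel
  have hW : L.W = L.p false * L.Θ false + (1 - L.p false) * L.Θ true := by rw [← hp]; rfl
  have h2 : S.T L.W := by
    rw [hW]
    refine hsplit J e z _ _ _ (L.hΘ false) (L.hΘ true) (L.msup_p false) (L.p_idem false) ?_
    rw [← hW]
    exact ⟨⟨_, _, L.W_mul_U, L.U_mul_W⟩, rfl⟩
  have := S.mul h1 h2
  rw [mul_assoc, L.U_mul_W, mul_one] at this
  exact hsum false ▸ this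

theorem core (htame : ∀ σ, TameP S (D.Ah σ σ) (D.C σ.1)) (hsplit : D.SplitT S) (e₀ : D.E)
    {J : Type} [Fintype J] [DecidableEq J] {A : Matrix J J Λ}
    (hu : IsUnit A) : S.T A := by
  have hlin : ∀ (τ : D.E) (y : V), ∃ (k : G) (τ' : D.E) (s : Bool), k • D.ep τ' s = y ∧
      ((¬ ∃ s, y = D.ep τ s) → D.μ τ (k • D.ep τ' (!s)) < D.μ τ y) := by
    intro τ y
    rcases D.lin τ y with ⟨s, h⟩ | ⟨k, τ', s, h1, h2⟩
    · exact ⟨1, τ, s, by rw [one_smul, h], fun h' => absurd ⟨s, h⟩ h'⟩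
    · exact ⟨k, τ', s, h1, fun _ => h2⟩
  choose kk tt ss hk1 hk2 using hlin
  have main : ∀ (n : ℕ) (J : Type) [Fintype J] [DecidableEq J] (e : J → D.E) (z : J → V)
      (A : Matrix J J Λ),
      MSup2 (fun i j => {x | (∃ s, x • z j = D.ep (e i) s) ∨ D.μ (e i) (x • z j) < n}) A →
      IsUnit A → S.T A := by
    intro n
    induction n with
    | zero =>
      intro J _ _ e z A hA hu
      exact linear htame hsplit e z (hA.mono fun i j x hx => hx.resolve_right (by omega)) hu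
    | succ n ih =>
      intro J _ _ e z A hA hu
      classical
      set A' := mpr2 (fun i j => {x | ∃ s, x • z j = D.ep (e i) s}ᶜ) A with hA'
      set A₀ := mpr2 (fun i j => {x | ∃ s, x • z j = D.ep (e i) s}) A with hA₀
      have hsum : A = A₀ + A' := by
        ext1 i j; exact (pr_add_pr_compl _ _).symm
      obtain ⟨s, hs, -⟩ := exists_finset_msup A'
      let el : Fin s.card → G := fun i => (s.equivFin.symm i : G)
      let y : J × J × Fin s.card → V := fun l => el l.2.2 • z l.2.1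
      let k : J × J × Fin s.card → G := fun l => kk (e l.1) (y l)
      let B : Matrix J (J × J × Fin s.card) Λ := fun i l =>
        if i = l.1 then cp (A' l.1 l.2.1) (el l.2.2) * un' ((k l)⁻¹ * el l.2.2) else 0
      let Sm : Matrix (J × J × Fin s.card) J Λ := fun l j =>
        if l.2.1 = j then un ((k l)⁻¹ * el l.2.2) else 0
      have hBS : B * Sm = A' := by
        ext1 i j
        rw [Matrix.mul_apply, Fintype.sum_prod_type, Finset.sum_eq_single i,
          Fintype.sum_prod_type, Finset.sum_eq_single j]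
        · simp only [B, Sm, if_true, mul_assoc, un'_mul_un, mul_one]
          rw [← Equiv.sum_comp s.equivFin]
          simp only [el, Equiv.symm_apply_apply]
          rw [Finset.sum_coe_sort s fun g => cp (A' i j) g]
          exact sum_cp (hs i j)
        · intro j' _ hj'
          simp [Sm, hj']
        · simp
        · intro i' _ hi'
          simp [B, Ne.symm hi']
        · simp
      have hprod : fromBlocks 1 (-B) 0 1 * fromBlocks A 0 0 1 * fromBlocks 1 0 Sm 1 =
          fromBlocks A₀ (-B) Sm 1 := by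
        simp only [fromBlocks_multiply, fromBlocks_inj, Matrix.one_mul, Matrix.mul_one,
          Matrix.zero_mul, Matrix.mul_zero, add_zero, zero_add, and_true, Matrix.neg_mul]
        rw [hBS]
        conv_lhs => rw [hsum]
        abel
      have hT : S.T (fromBlocks A₀ (-B) Sm 1) := by
        refine ih _ (Sum.elim e fun l => tt (e l.1) (y l))
          (Sum.elim z fun l => D.ep (tt (e l.1) (y l)) (!ss (e l.1) (y l))) _ ?_ ?_
        · rintro (i | l) (j | l')
          · rw [fromBlocks_apply₁₁, hA₀]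
            exact (msup2_mpr2 _ A i j).mono fun x hx => Or.inl hx
          · rw [fromBlocks_apply₁₂, Matrix.neg_apply]
            refine Sup.neg ?_
            simp only [B]
            split_ifs with h
            · by_cases h0 : cp (A' l'.1 l'.2.1) (el l'.2.2) = 0
              · rw [h0, zero_mul]; exact sup_zero _
              · have h1 := msup2_mpr2 _ _ _ _ _ h0
                have h2 := (hA.mpr2 _ _ _ h0).resolve_left h1
                have h3 := hk2 (e l'.1) (y l') h1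
                refine ((sup_cp _ _).mul (U := {k l'}) (sup_un' _) ?_).of_mem ?_
                · rintro _ rfl _ rfl
                  simp
                subst h
                exact Or.inr <| lt_of_lt_of_le h3 (Nat.lt_succ_iff.1 h2)
            · exact sup_zero _
          · simp only [fromBlocks_apply₂₁, Sm]
            split_ifs with h
            · refine (sup_un _).of_mem ?_
              refine Or.inl ⟨ss (e l.1) (y l), ?_⟩
              subst h
              simp only [Sum.elim_inl, Sum.elim_inr]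
              rw [mul_smul, inv_smul_eq_iff]
              exact (hk1 _ _).symm
            · exact sup_zero _
          · exact msup2_one (S := fun l l' => {x : G | (∃ s, x • D.ep (tt (e l'.1) (y l'))
              (!ss (e l'.1) (y l')) = D.ep (tt (e l.1) (y l)) s) ∨ D.μ (tt (e l.1) (y l))
              (x • D.ep (tt (e l'.1) (y l')) (!ss (e l'.1) (y l'))) < n})
              (fun l => Or.inl ⟨_, one_smul _ _⟩) l l'
        · rw [← hprod]
          exact ((S.isUnit (S.upper _)).mul (isUnit_fromBlocks_diag hu isUnit_one)).mul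
            (S.isUnit (S.lower _))
      rw [← hprod] at hT
      exact S.of_stab (S.cancel_left (S.upper _) (S.cancel_right (S.lower _) hT))
  obtain ⟨s, hs, -⟩ := exists_finset_msup A
  refine main (s.sup (fun g => D.μ e₀ (g • D.ep e₀ false)) + 1) J (fun _ => e₀)
    (fun _ => D.ep e₀ false) A (fun i j => (hs i j).mono fun g hg => Or.inr ?_) hu
  exact Nat.lt_succ_of_le (Finset.le_sup (f := fun g => D.μ e₀ (g • D.ep e₀ false)) hg)

end TB

end Gr

end Pool.Agent.MP_f7db47_al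

end
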