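import Pool.Agent.Mg.Ff7db47.G0ffa8c
import Pool.Agent.Mg.Ff7db47.G3223ea
import Pool.Agent.MP_f7db47_al.TameDefs

section

/-!
Nil terms over a regular coherent graded subring vanish.
-/

set_option linter.unusedSectionVars false

namespace Pool.Agent.MP_f7db47_al

namespace Gr

open Matrix Function

universe u w x

variable {G : Type u} [Group G] {Λ : Type x} [Ring Λ] [GrS G Λ]

open Classical in
/-- The coordinates with respect to the basis of units. -/
noncomputable def coord {K : Subgroup G} {L : Subring Λ} (hL : ∀ x, x ∈ L ↔ Sup (K : Set G) x) :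
    Λ →+ (G ⧸ K →₀ L) :=
  AddMonoidHom.mk' (fun s => Finsupp.onFinset ((cp s).support.image QuotientGroup.mk)
    (fun q => ⟨pr (K : Set G) (un' q.out * s), (hL _).2 (sup_pr _ _)⟩) fun q hq => by
      by_contra h
      refine hq (Subtype.ext (Sup.pr_eq_zero (U := (K : Set G)ᶜ) ?_ fun g hg => hg))
      refine (sup_un' q.out).mul (S' := ((cp s).support : Set G))
        (fun g hg => Finsupp.mem_support_iff.2 hg) ?_
      rintro _ rfl b hb hk
      exact h (Finset.mem_image.2 ⟨b, hb, by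
        rw [← QuotientGroup.out_eq' q]; exact (QuotientGroup.eq.2 hk).symm⟩))
    fun a b => Finsupp.ext fun q => Subtype.ext (by simp [mul_add])

lemma coord_apply {K : Subgroup G} {L : Subring Λ} (hL : ∀ x, x ∈ L ↔ Sup (K : Set G) x)
    (s : Λ) (q : G ⧸ K) : (coord hL s q : Λ) = pr (K : Set G) (un' q.out * s) := rfl

lemma coord_single {K : Subgroup G} {L : Subring Λ} (hL : ∀ x, x ∈ L ↔ Sup (K : Set G) x)
    (q : G ⧸ K) (l : L) : coord hL (un q.out * l) = Finsupp.single q l := by
  classical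
  refine Finsupp.ext fun q' => Subtype.ext ?_
  rw [coord_apply, Finsupp.single_apply]
  split_ifs with h
  · subst h
    rw [← mul_assoc, un'_mul_un, one_mul]
    exact ((hL _).1 l.2).pr_eq
  · refine Sup.pr_eq_zero (U := (K : Set G)ᶜ) ?_ fun g hg => hg
    refine (sup_un' q'.out).mul (S' := {y : G | (y : G ⧸ K) = q})
      ((sup_un q.out).mul ((hL _).1 l.2) ?_) ?_
    · rintro _ rfl b hb
      rw [Set.mem_ofPred_eq, QuotientGroup.mk_mul_of_mem _ hb, QuotientGroup.out_eq']
    · rintro _ rfl b hb hk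
      exact h (hb.symm.trans (by
        rw [← QuotientGroup.out_eq' q']; exact (QuotientGroup.eq.2 hk).symm))

/-- The ring is free over the subring of a subgroup. -/
noncomputable def rfreeSub {K : Subgroup G} {L : Subring Λ}
    (hL : ∀ x, x ∈ L ↔ Sup (K : Set G) x) : RFree L.subtype (G ⧸ K) where
  b q := un q.out
  c := coord hL
  c_single := coord_single hL
  sum_c s := by
    refine (sup_univ s).induction
      (P := fun s => (coord hL s).sum (fun q l => un q.out * L.subtype l) = s) (by simp)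
      (fun a b ha hb => ?_) fun g _ a ha => ?_
    · rw [map_add, Finsupp.sum_add_index' (by simp) (fun _ _ _ => by rw [map_add, mul_add]),
        ha, hb]
    · have h1 : un' (g : G ⧸ K).out * a ∈ L := by
        refine (hL _).2 ((sup_un' _).mul ha ?_)
        rintro _ rfl _ rfl
        exact QuotientGroup.eq.1 (QuotientGroup.out_eq' _)
      have h2 : un (g : G ⧸ K).out * (un' (g : G ⧸ K).out * a) = a := by
        rw [← mul_assoc, un_mul_un', one_mul]
      have h3 := coord_single hL (g : G ⧸ K) ⟨_, h1⟩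
      rw [h2] at h3
      rw [h3, Finsupp.sum_single_index (by simp)]
      exact h2

lemma fr_span {K : Subgroup G} {L : Subring Λ} (hL : ∀ x, x ∈ L ↔ Sup (K : Set G) x)
    (hH : RegularCoherent L) {J : Type} [Fintype J]
    {W : Set (J → Λ)} (hW : W.Finite) (hs : ∀ w ∈ W, VSup (K : Set G) w) :
    ∃ k, FR L.subtype k (Submodule.span Λ W) := by
  set φ := L.subtype with hφ
  let c : (J → Λ) → J → L := fun w j => ⟨pr (K : Set G) (w j), (hL _).2 (sup_pr _ _)⟩
  have hc : ∀ w ∈ W, φ ∘ c w = w := fun w hw => funext fun j => (hs w hw j).pr_eq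
  obtain ⟨k, hk⟩ := hH.fr (Submodule.span _ (c '' W)) (Submodule.fg_span (hW.image c))
  refine ⟨k, ((rfreeSub hL).fr_extS (ρ' := φ) (fun _ => rfl) hk).iso (LinearEquiv.ofEq _ _ ?_)⟩
  refine le_antisymm (Submodule.span_le.2 ?_) (Submodule.span_mono fun w hw =>
    ⟨c w, Submodule.subset_span ⟨w, hw, rfl⟩, hc w hw⟩)
  rintro _ ⟨a, ha, rfl⟩
  change φ ∘ a ∈ Submodule.span Λ W
  induction ha using Submodule.span_induction with
  | mem x hx =>
    obtain ⟨w, hw, rfl⟩ := hx
    rw [hc w hw]; exact Submodule.subset_span hw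
  | zero =>
    have : φ ∘ (0 : J → L) = 0 := funext fun _ => map_zero φ
    rw [this]; exact zero_mem _
  | add x y _ _ hx hy =>
    have : φ ∘ (x + y) = φ ∘ x + φ ∘ y := funext fun _ => map_add φ _ _
    rw [this]; exact add_mem hx hy
  | smul a x _ hx =>
    have : φ ∘ (a • x) = φ a • (φ ∘ x) := funext fun _ => map_mul φ _ _
    rw [this]; exact Submodule.smul_mem _ (φ a) hx

theorem tameP_of_coherent (S : TS Λ) (P : Set G) {K : Subgroup G} {L : Subring Λ}
    (hL : ∀ x, x ∈ L ↔ Sup (K : Set G) x) (hH : RegularCoherent L) : TameP S P K := by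
  rintro J _ _ ν - ⟨F, hF⟩
  have main : ∀ j, ∀ W : Set (J → Λ), W.Finite → (∀ w ∈ W, VSup (K : Set G) w) →
      (∀ w ∈ W, w ∈ F.V j) → ∃ W' : Set (J → Λ), W'.Finite ∧ W ⊆ W' ∧
      (∀ w ∈ W', VSup (K : Set G) w) ∧
      ∃ h : ∀ x ∈ Submodule.span Λ W',
        ν.vecMulLinear x ∈ Submodule.span Λ W',
      ∃ k, S.toKT.Good k _ (ν.vecMulLinear.restrict h) := by
    intro j
    induction j with
    | zero =>
      intro W h1 h2 h3
      have hb : Submodule.span Λ W = ⊥ :=
        Submodule.span_eq_bot.2 fun w hw => by simpa [F.zero] using h3 w hw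
      have : Subsingleton (Submodule.span Λ W) := by rw [hb]; infer_instance
      refine ⟨W, h1, subset_rfl, h2, fun x hx => ?_, 0, KT.Triv.of_subsingleton⟩
      rw [hb, Submodule.mem_bot] at hx
      rw [hx, map_zero]; exact zero_mem _
    | succ j ih =>
      intro W h1 h2 h3
      obtain ⟨W₁, g1, g2, g3, h, k, hk⟩ := ih (⋃ w ∈ W, (fun g => (un' g : Λ) •
        prv (lc g K) (w ᵥ* ν)) '' {g | ∃ i, cp ((w ᵥ* ν) i) g ≠ 0})
        (h1.biUnion fun w _ => (exists_finset_vsup _).image _) (by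
          simp only [Set.mem_iUnion]
          rintro _ ⟨w, -, g, -, rfl⟩ i
          refine (sup_un' g).mul (vsup_prv (lc g K) _ i) ?_
          rintro a rfl b hb; exact hb) (by
          simp only [Set.mem_iUnion]
          rintro _ ⟨w, hw, g, -, rfl⟩
          exact Submodule.smul_mem _ _ (F.graded _ _ (rinv_lc g K) _ (hF j w (h3 w hw))))
      have hle : Submodule.span Λ W₁ ≤ Submodule.span _ (W ∪ W₁) :=
        Submodule.span_mono Set.subset_union_right
      have hν : ∀ x ∈ Submodule.span Λ (W ∪ W₁),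
          ν.vecMulLinear x ∈ Submodule.span Λ W₁ := by
        have : Submodule.span Λ (W ∪ W₁) ≤
            (Submodule.span _ W₁).comap ν.vecMulLinear := by
          rw [Submodule.span_le]
          rintro w (hw | hw)
          · change w ᵥ* ν ∈ Submodule.span Λ W₁
            rw [← prv_univ (w ᵥ* ν)]
            refine prv_induction K (P := fun z => z ∈ Submodule.span Λ W₁)
              (zero_mem _) (fun a b ha hb => add_mem ha hb) _ (rinv_univ K) fun g hg => ?_
            have : prv (lc g K) (w ᵥ* ν) = (un g : Λ) •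
                ((un' g : Λ) • prv (lc g K) (w ᵥ* ν)) := by
              rw [smul_smul, un_mul_un', one_smul]
            rw [this]
            refine Submodule.smul_mem _ _ (Submodule.subset_span (g2 ?_))
            simp only [Set.mem_iUnion]
            exact ⟨w, hw, g, hg, rfl⟩
          · exact h w (Submodule.subset_span hw)
        exact fun x hx => this hx
      have hs : ∀ w ∈ W ∪ W₁, VSup (K : Set G) w := fun w hw => hw.elim (h2 w) (g3 w)
      obtain ⟨l₁, hl₁⟩ := fr_span hL hH g1 g3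
      obtain ⟨l₂, hl₂⟩ := fr_span hL hH (h1.union g1) hs
      have hex : Exact (Submodule.inclusion hle) (LinearMap.range (Submodule.inclusion hle)).mkQ :=
        LinearMap.exact_map_mkQ_range _
      have hq := FR.coker (k := max l₁ l₂) (Submodule.inclusion_injective hle) hex
        (Submodule.mkQ_surjective _) (hl₁.mono (le_max_left _ _)) (hl₂.mono (by omega))
      refine ⟨W ∪ W₁, h1.union g1, Set.subset_union_left, hs, fun x hx => hle (hν x hx),
        max k (max l₁ l₂ + 1), KT.Good.ext (Submodule.inclusion_injective hle) hex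
          (Submodule.mkQ_surjective _) (fun _ => rfl) (fun x => ?_) (hk.mono (le_max_left _ _))
          (hq.mono (le_max_right _ _))⟩
      exact (Submodule.Quotient.mk_eq_zero _).2 ⟨⟨_, hν x x.2⟩, rfl⟩
  obtain ⟨W, -, h2, -, h, k, hk⟩ := main F.k (Set.range fun i => Pi.single i 1)
    (Set.finite_range _) (by
      rintro _ ⟨i, rfl⟩ j
      by_cases hij : j = i
      · subst hij; simpa using sup_one K.one_mem
      · simpa [Pi.single_eq_of_ne hij] using sup_zero _) fun w _ => by rw [F.top]; trivial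
  have htop : Submodule.span Λ W = ⊤ := by
    rw [eq_top_iff, ← (Pi.basisFun Λ J).span_eq]
    refine Submodule.span_mono (subset_trans ?_ h2)
    rintro _ ⟨i, rfl⟩
    exact ⟨i, by simp⟩
  let e := LinearEquiv.ofTop _ htop
  exact (hk.triv (Module.Projective.of_equiv e.symm)).indep (i := e.toLinearMap)
    (p := e.symm.toLinearMap) e.symm_apply_apply fun _ => rfl

end Gr

end Pool.Agent.MP_f7db47_al

end

section

/-!
Crossed products and the generators for the relative statement.
-/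

namespace Pool.Agent.MP_f7db47_al

universe u w

/-- A crossed product: the ring `Λ` is the direct sum of the additive subgroups `𝒜 g`, the
grading is multiplicative and every `𝒜 g` contains a unit of `Λ`. -/
def Crossed {G : Type u} [Group G] {Λ : Type w} [Ring Λ] (𝒜 : G → AddSubgroup Λ) : Prop :=
  (∀ x : Λ, ∃! c : G →₀ Λ, (∀ g, c g ∈ 𝒜 g) ∧ (c.sum fun _ a => a) = x) ∧
    (∀ g h a b, a ∈ 𝒜 g → b ∈ 𝒜 h → a * b ∈ 𝒜 (g * h)) ∧ ∀ g, ∃ a ∈ 𝒜 g, IsUnit a

/-- The sum of the components with degree in `S`. -/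
def Deg {G : Type u} {Λ : Type w} [Ring Λ] (𝒜 : G → AddSubgroup Λ) (S : Set G) :
    AddSubgroup Λ :=
  AddSubgroup.closure {a | ∃ g ∈ S, a ∈ 𝒜 g}

/-- The subring generated by the components with degree in `K`. -/
def SubCross {G : Type u} [Group G] {Λ : Type w} [Ring Λ] (𝒜 : G → AddSubgroup Λ)
    (K : Subgroup G) : Subring Λ :=
  Subring.closure {a | ∃ g ∈ K, a ∈ 𝒜 g}

/-- Elementary matrices, matrices with degrees in a member of `F`, and split matrices
`e A + (1 - e) B`: row `i` is labelled by an edge or vertex `(a i, b i)`, column `j` by a vertex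
`z j`; the idempotent `e` preserves the row labels, `A` carries `z j` to `a i` and `B` carries
`z j` to `b i`. -/
inductive CGen {G : Type u} [Group G] {Λ : Type w} [Ring Λ] (𝒜 : G → AddSubgroup Λ)
    {V : Type u} [MulAction G V] (X : SimpleGraph V) (F : Set (Subgroup G)) (ι : Type)
    [Fintype ι] [DecidableEq ι] : Matrix ι ι Λ → Prop
  | elem (i j : ι) (hij : i ≠ j) (c : Λ) : CGen 𝒜 X F ι (1 + Matrix.single i j c)
  | sub (H : Subgroup G) (hH : H ∈ F) (M : Matrix ι ι Λ) (hM : ∀ i j, M i j ∈ Deg 𝒜 H) :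
      CGen 𝒜 X F ι M
  | split (a b z : ι → V) (hab : ∀ i, a i = b i ∨ X.Adj (a i) (b i)) (e A B : Matrix ι ι Λ)
      (he : e * e = e) (he' : ∀ i j, e i j ∈ Deg 𝒜 {g | g • a j = a i ∧ g • b j = b i})
      (hA : ∀ i j, A i j ∈ Deg 𝒜 {g | g • z j = a i})
      (hB : ∀ i j, B i j ∈ Deg 𝒜 {g | g • z j = b i}) :
      CGen 𝒜 X F ι (e * A + (1 - e) * B)

/-- Every invertible matrix over `Λ` is, after stabilisation, a product of invertible
generators and inverses of invertible generators. -/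
def CrossOnto {G : Type u} [Group G] {Λ : Type w} [Ring Λ] (𝒜 : G → AddSubgroup Λ)
    {V : Type u} [MulAction G V] (X : SimpleGraph V) (F : Set (Subgroup G)) : Prop :=
  ∀ (n : ℕ) (A B : Matrix (Fin n) (Fin n) Λ), A * B = 1 → B * A = 1 →
    ∃ m : ℕ, Matrix.fromBlocks A 0 0 (1 : Matrix (Fin m) (Fin m) Λ) ∈
      Submonoid.closure {M | ∃ N, M * N = 1 ∧ N * M = 1 ∧
        (CGen 𝒜 X F (Fin n ⊕ Fin m) M ∨ CGen 𝒜 X F (Fin n ⊕ Fin m) N)}

end Pool.Agent.MP_f7db47_al

end

section

/-!
The relative theorem for crossed products.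
-/

set_option linter.unusedSectionVars false

namespace Pool.Agent.MP_f7db47_al

namespace Gr

open Matrix Function

universe u w

lemma TB.C_eq {G : Type u} [Group G] {V : Type u} [MulAction G V] (D : TB G V) (τ : D.E)
    (s : Bool) :
    D.C τ = MulAction.stabilizer G (D.ep τ (!s)) ⊓ MulAction.stabilizer G (D.ep τ s) := by
  ext c
  refine ⟨fun h => ⟨h _, h _⟩, fun h t => ?_⟩
  cases s <;> cases t <;> first | exact h.1 | exact h.2

theorem tree_main {G G₀ V : Type u} [Group G] [Group G₀] [MulAction G V] [MulAction G₀ V]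
    {Λ : Type w} [Ring Λ] [GrS G Λ]
    (p : G →* G₀) (hp : ∀ (g : G) (y : V), g • y = p g • y) {X : SimpleGraph V}
    (hX : TreeAction G₀ X) {F Z : Set (Subgroup G₀)} (hT : TameTree G₀ X F Z)
    (S : TS Λ) (hF : ∀ H ∈ F, TermS S (H.comap p))
    (hZ : ∀ K ∈ Z, ∀ P, TameP S P (K.comap p))
    (hV : ∀ y : V, TermS S (MulAction.stabilizer G y))
    (hsplit : ∀ D : TB G V, (∀ τ s, X.Adj (D.ep τ (!s)) (D.ep τ s)) → D.SplitT S)
    {J : Type} [Fintype J] [DecidableEq J] {A : Matrix J J Λ} (hu : IsUnit A) :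
    S.T A := by
  have hX' : TreeAction G X := ⟨hX.1, fun g a b h => by rw [hp, hp]; exact hX.2.1 _ a b h,
    fun g a b h => by rw [hp, hp]; exact hX.2.2 _ a b h⟩
  obtain ⟨D₀, hadj, hAh, hne⟩ := exists_TB hX'
  let D : TB G V := ⟨D₀.E, D₀.ep, D₀.H, D₀.hmem, D₀.hcompl, D₀.tri, D₀.hC, D₀.nest, D₀.μ, D₀.lin⟩
  by_cases hE : Nonempty D.E
  · obtain ⟨e₀⟩ := hE
    refine TB.core (fun σ => ?_) (hsplit D hadj) e₀ hu
    obtain ⟨τ, s⟩ := σ
    obtain ⟨ι, K, r, hr, hK, hcover, hstep⟩ := hT _ _ (hadj τ s)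
    refine (coverP_of_family p (D.ah_mul _ _ _) (D.ah_left _ _) (fun k hk x hx =>
      D.ah_right _ _ k hk x hx) K r hr (fun i x hx => ?_) (fun M hM h => hcover M hM ?_)
      fun i => (hstep i).imp (fun h => hZ _ h _) fun hstep x hx => ?_).tame
    · rw [D.C_eq τ s]
      exact ⟨(hp _ _).trans (hK i hx).1, (hp _ _).trans (hK i hx).2⟩
    · refine h.trans ?_
      rintro _ ⟨x, hx, rfl⟩
      exact ⟨(hp _ _).symm.trans (hx _), (hp _ _).symm.trans (hx _)⟩
    · have h1 : Pushes X (D.ep τ (!s)) (D.ep τ s) (p x) := by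
        have := hAh τ s hx
        simp only [Pushes, Set.mem_ofPred_eq, hp] at this
        exact this
      refine (hstep (p x) h1).imp_left fun h2 J _ _ A hA => hF _ h2 J A (hA.mono ?_)
      have : (K i).comap p ⊔ Subgroup.zpowers x ≤ (K i ⊔ Subgroup.zpowers (p x)).comap p := by
        refine sup_le (Subgroup.comap_mono le_sup_left) ?_
        rw [Subgroup.zpowers_le]
        exact Subgroup.mem_sup_right (Subgroup.mem_zpowers _)
      exact fun y hy => this hy
  · obtain ⟨y⟩ := hX.1.connected.nonempty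
    refine hV y J A (fun i j g _ => ?_) hu
    by_contra h
    obtain ⟨z', h1, -⟩ := tree_closer hX.1 (z := g • y) (a := y) h
    exact hE (hne _ _ h1)

section Cross

variable {G : Type u} [Group G] {Λ : Type w} [Ring Λ] {𝒜 : G → AddSubgroup Λ}

/-- The components. -/
noncomputable def comp (h : Crossed 𝒜) (x : Λ) : G →₀ Λ := (h.1 x).exists.choose

lemma comp_mem (h : Crossed 𝒜) (x : Λ) (g : G) : comp h x g ∈ 𝒜 g :=
  (h.1 x).exists.choose_spec.1 g

lemma comp_sum (h : Crossed 𝒜) (x : Λ) : ((comp h x).sum fun _ a => a) = x :=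
  (h.1 x).exists.choose_spec.2

lemma comp_eq (h : Crossed 𝒜) {x : Λ} {c : G →₀ Λ} (h1 : ∀ g, c g ∈ 𝒜 g)
    (h2 : (c.sum fun _ a => a) = x) : comp h x = c :=
  (h.1 x).unique ⟨comp_mem h x, comp_sum h x⟩ ⟨h1, h2⟩

lemma comp_add (h : Crossed 𝒜) (x y : Λ) : comp h (x + y) = comp h x + comp h y :=
  comp_eq h (fun g => add_mem (comp_mem h x g) (comp_mem h y g)) (by
    rw [Finsupp.sum_add_index' (fun _ => rfl) fun _ _ _ => rfl, comp_sum, comp_sum])

lemma comp_single (h : Crossed 𝒜) {g : G} {a : Λ} (ha : a ∈ 𝒜 g) :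
    comp h a = Finsupp.single g a := by
  classical
  refine comp_eq h (fun k => ?_) (Finsupp.sum_single_index rfl)
  rw [Finsupp.single_apply]
  split_ifs with e
  · exact e ▸ ha
  · exact zero_mem _

lemma mem_of_comp (h : Crossed 𝒜) {g : G} {a : Λ} (ha : comp h a = Finsupp.single g a) :
    a ∈ 𝒜 g := by
  have := comp_mem h a g
  rwa [ha, Finsupp.single_eq_same] at this

lemma comp_mul (h : Crossed 𝒜) {g : G} {a : Λ} (ha : a ∈ 𝒜 g) (x : Λ) (k : G) :
    comp h (a * x) (g * k) = a * comp h x k := by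
  let e : G ↪ G := ⟨fun y => g * y, mul_right_injective g⟩
  have : comp h (a * x) = ((comp h x).mapRange (a * ·) (mul_zero a)).embDomain e := by
    refine comp_eq h (fun y => ?_) ?_
    · obtain ⟨z, rfl⟩ : ∃ z, e z = y := ⟨g⁻¹ * y, mul_inv_cancel_left g y⟩
      rw [Finsupp.embDomain_apply_self, Finsupp.mapRange_apply]
      exact h.2.1 _ _ _ _ ha (comp_mem h x z)
    · rw [Finsupp.sum_embDomain, Finsupp.sum_mapRange_index fun _ => rfl, ← Finsupp.mul_sum,
        comp_sum]
  rw [this]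
  exact (Finsupp.embDomain_apply_self e _ k).trans (Finsupp.mapRange_apply ..)

lemma one_mem_of (h : Crossed 𝒜) : (1 : Λ) ∈ 𝒜 1 := by
  obtain ⟨a, ha, u, rfl⟩ := h.2.2 1
  have h1 := comp_mul h ha 1 1
  rw [mul_one, mul_one, comp_single h ha, Finsupp.single_eq_same] at h1
  have h2 : comp h 1 1 = 1 := (Units.mul_right_inj u).1 (by rw [← h1, mul_one])
  exact h2 ▸ comp_mem h 1 1

lemma inv_mem_of (h : Crossed 𝒜) {g : G} {u : Λˣ} (hu : u.val ∈ 𝒜 g) : u⁻¹.val ∈ 𝒜 g⁻¹ := by
  have h1 := comp_mul h hu u⁻¹.val g⁻¹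
  rw [u.mul_inv, mul_inv_cancel, comp_single h (one_mem_of h), Finsupp.single_eq_same] at h1
  have h2 : comp h u⁻¹.val g⁻¹ = u⁻¹.val := (Units.mul_right_inj u).1 (by rw [← h1, u.mul_inv])
  exact h2 ▸ comp_mem h _ _

/-- The grading data of a crossed product. -/
@[reducible] noncomputable def grS (h : Crossed 𝒜) : GrS G Λ where
  c := AddMonoidHom.mk' (comp h) (comp_add h)
  sum_c := comp_sum h
  c_c x g := comp_single h (comp_mem h x g)
  mul _ _ _ _ ha hb := comp_single h (h.2.1 _ _ _ _ (mem_of_comp h ha) (mem_of_comp h hb))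
  one := comp_single h (one_mem_of h)
  un g := (h.2.2 g).choose_spec.2.unit
  hun g := comp_single h (h.2.2 g).choose_spec.1
  hun' g := comp_single h (inv_mem_of h (u := (h.2.2 g).choose_spec.2.unit)
    (h.2.2 g).choose_spec.1)

variable [GrS G Λ]

lemma mem_deg (h : ∀ g a, a ∈ 𝒜 g ↔ Sup {g} a) (S : Set G) (x : Λ) :
    x ∈ Deg 𝒜 S ↔ Sup S x := by
  refine ⟨fun hx => ?_, fun hx => hx.induction (P := (· ∈ Deg 𝒜 S)) (zero_mem _)
    (fun _ _ => add_mem) fun g hg a ha => AddSubgroup.subset_closure ⟨g, hg, (h _ _).2 ha⟩⟩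
  induction hx using AddSubgroup.closure_induction with
  | mem a ha =>
    obtain ⟨g, hg, ha⟩ := ha
    exact ((h _ _).1 ha).of_mem hg
  | zero => exact sup_zero _
  | add _ _ _ _ ha hb => exact ha.add hb
  | neg _ _ ha => exact ha.neg

lemma mem_subCross (h : ∀ g a, a ∈ 𝒜 g ↔ Sup {g} a) (K : Subgroup G) (x : Λ) :
    x ∈ SubCross 𝒜 K ↔ Sup (K : Set G) x := by
  refine ⟨fun hx => ?_, fun hx => hx.induction (P := (· ∈ SubCross 𝒜 K)) (zero_mem _)
    (fun _ _ => add_mem) fun g hg a ha => Subring.subset_closure ⟨g, hg, (h _ _).2 ha⟩⟩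
  induction hx using Subring.closure_induction with
  | mem a ha =>
    obtain ⟨g, hg, ha⟩ := ha
    exact ((h _ _).1 ha).of_mem hg
  | zero => exact sup_zero _
  | one => exact sup_one K.one_mem
  | add _ _ _ _ ha hb => exact ha.add hb
  | neg _ _ ha => exact ha.neg
  | mul _ _ _ _ ha hb => exact ha.mul hb fun _ h1 _ h2 => K.mul_mem h1 h2

end Cross

section Rel

variable {G : Type u} [Group G] {V : Type u} [MulAction G V] {X : SimpleGraph V}
  {F : Set (Subgroup G)} {Λ : Type w} [Ring Λ] {𝒜 : G → AddSubgroup Λ}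

lemma cgen_submatrix {ι κ : Type} [Fintype ι] [DecidableEq ι] [Fintype κ] [DecidableEq κ]
    (e : κ ≃ ι) {M : Matrix ι ι Λ} (h : CGen 𝒜 X F ι M) :
    CGen 𝒜 X F κ (M.submatrix e e) := by
  cases h with
  | elem i j hij c =>
    have : (1 + single i j c : Matrix ι ι _).submatrix e e =
        1 + single (e.symm i) (e.symm j) c := by
      rw [submatrix_add, Pi.add_apply, Pi.add_apply, submatrix_one_equiv,
        submatrix_single_equiv]
    rw [this]
    exact CGen.elem _ _ (fun h => hij (e.symm.injective h)) c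
  | sub H hH M hM => exact CGen.sub H hH _ fun i j => hM (e i) (e j)
  | split a b z hab p A B hp hp' hA hB =>
    have : (p * A + (1 - p) * B).submatrix e e =
        p.submatrix e e * A.submatrix e e + (1 - p.submatrix e e) * B.submatrix e e := by
      rw [← submatrix_one_equiv e, submatrix_mul_equiv, sub_mul, sub_mul, submatrix_mul_equiv,
        submatrix_mul_equiv]
      rfl
    rw [this]
    exact CGen.split (a ∘ e) (b ∘ e) (z ∘ e) (fun i => hab (e i)) _ _ _
      (by rw [submatrix_mul_equiv, hp]) (fun i j => hp' (e i) (e j)) (fun i j => hA (e i) (e j))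
      fun i j => hB (e i) (e j)

lemma one_deg (h1 : (1 : Λ) ∈ 𝒜 1) {ι : Type} [DecidableEq ι] {S : Set G} (hS : (1 : G) ∈ S)
    (i j : ι) : (1 : Matrix ι ι Λ) i j ∈ Deg 𝒜 S := by
  by_cases hij : i = j
  · subst hij; rw [Matrix.one_apply_eq]; exact AddSubgroup.subset_closure ⟨1, hS, h1⟩
  · rw [Matrix.one_apply_ne hij]; exact zero_mem _

lemma cgen_stab (h1 : (1 : Λ) ∈ 𝒜 1) [Nonempty V] {ι κ : Type} [Fintype ι] [DecidableEq ι] [Fintype κ]
    [DecidableEq κ] {M : Matrix ι ι Λ} (h : CGen 𝒜 X F ι M) :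
    CGen 𝒜 X F (ι ⊕ κ) (fromBlocks M 0 0 1) := by
  cases h with
  | elem i j hij c =>
    have : fromBlocks (1 + single i j c : Matrix ι ι Λ) 0 0
        (1 : Matrix κ κ _) = 1 + single (Sum.inl i) (Sum.inl j) c := by
      ext1 a b
      rcases a with a | a <;> rcases b with b | b <;>
        simp [Matrix.one_apply, Matrix.single_apply]
    rw [this]
    exact CGen.elem _ _ (fun h => hij (Sum.inl_injective h)) c
  | sub H hH M hM =>
    refine CGen.sub H hH _ ?_
    rintro (i | i) (j | j)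
    exacts [hM i j, zero_mem _, zero_mem _, one_deg h1 H.one_mem i j]
  | split a b z hab p A B hp hp' hA hB =>
    obtain ⟨y⟩ := ‹Nonempty V›
    have : fromBlocks (p * A + (1 - p) * B) 0 0 (1 : Matrix κ κ _) =
        fromBlocks p 0 0 0 * fromBlocks A 0 0 0 + (1 - fromBlocks p 0 0 0) * fromBlocks B 0 0 1 := by
      rw [sub_mul, one_mul, sub_eq_add_neg, sub_mul, one_mul, sub_eq_add_neg]
      simp [fromBlocks_multiply, fromBlocks_add, fromBlocks_neg]
    rw [this]
    refine CGen.split (Sum.elim a fun _ => y) (Sum.elim b fun _ => y) (Sum.elim z fun _ => y)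
      ?_ _ _ _ (by simp [fromBlocks_multiply, hp]) ?_ ?_ ?_
    · rintro (i | i)
      exacts [hab i, Or.inl rfl]
    · rintro (i | i) (j | j)
      exacts [hp' i j, zero_mem _, zero_mem _, zero_mem _]
    · rintro (i | i) (j | j)
      exacts [hA i j, zero_mem _, zero_mem _, zero_mem _]
    · rintro (i | i) (j | j)
      exacts [hB i j, zero_mem _, zero_mem _, one_deg h1 (S := {x : G | x • y = y})
        (one_smul _ _) i j]

variable (X F) in
/-- The relative system of generators. -/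
def relSys (h1 : (1 : Λ) ∈ 𝒜 1) [Nonempty V] : GenSys Λ where
  gen ι _ _ M := ∃ N, M * N = 1 ∧ N * M = 1 ∧ (CGen 𝒜 X F ι M ∨ CGen 𝒜 X F ι N)
  elem ι _ _ i j hij c := by
    have key : ∀ c d : Λ, c + d = 0 →
        (1 + single i j c) * (1 + single i j d) = (1 : Matrix ι ι Λ) := by
      intro c d hcd
      simp only [mul_add, add_mul, one_mul, mul_one, single_mul_single_of_ne _ _ _ _ hij.symm,
        add_zero]
      rw [add_assoc, ← single_add, hcd, single_zero, add_zero]
    exact ⟨_, key _ _ (add_neg_cancel c), key _ _ (neg_add_cancel c),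
      Or.inl (CGen.elem i j hij c)⟩
  inv := by
    rintro ι _ _ M ⟨N, h1, h2, h⟩
    exact ⟨N, ⟨M, h2, h1, h.symm⟩, h1, h2⟩
  sub := by
    rintro ι κ _ _ _ _ e M ⟨N, h1, h2, h⟩
    exact ⟨N.submatrix e e, by rw [submatrix_mul_equiv, h1, submatrix_one_equiv],
      by rw [submatrix_mul_equiv, h2, submatrix_one_equiv],
      h.imp (cgen_submatrix e) (cgen_submatrix e)⟩
  stab := by
    rintro ι κ _ _ _ _ M ⟨N, h2, h3, h⟩
    exact ⟨fromBlocks N 0 0 1, by simp [fromBlocks_multiply, h2],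
      by simp [fromBlocks_multiply, h3], h.imp (cgen_stab h1) (cgen_stab h1)⟩

theorem crossOnto_of_tame (h : Crossed 𝒜) (hX : TreeAction G X) {Z : Set (Subgroup G)}
    (hT : TameTree G X F Z) (hZ : ∀ K ∈ Z, RegularCoherent (SubCross 𝒜 K)) :
    CrossOnto 𝒜 X F := by
  have : Nonempty V := hX.1.connected.nonempty
  let _ : GrS G Λ := grS h
  have hA : ∀ g a, a ∈ 𝒜 g ↔ Sup {g} a := fun g a =>
    ⟨fun ha => sup_of_single (comp_single h ha), fun ha => mem_of_comp h ha.single⟩
  have ho := one_mem_of h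
  have gen : ∀ (J : Type) [Fintype J] [DecidableEq J] (M : Matrix J J Λ),
      CGen 𝒜 X F J M → IsUnit M → (relSys X F ho).toTS.T M := by
    rintro J _ _ _ h ⟨u, rfl⟩
    exact GenSys.T_gen ⟨_, u.mul_inv, u.inv_mul, Or.inl h⟩
  intro n A B h1 h2
  obtain ⟨ι, _, _, hA⟩ := tree_main (MonoidHom.id G) (fun _ _ => rfl) hX hT (relSys X F ho).toTS
    (fun H hH J _ _ A hB => gen J A (CGen.sub H hH A fun i j => (mem_deg hA _ _).2 (hB i j)))
    (fun K hK P => tameP_of_coherent _ P (mem_subCross hA K) (hZ K hK))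
    (fun y J _ _ A hB => gen J A (by
      have := CGen.split (𝒜 := 𝒜) (X := X) (F := F) (fun _ : J => y) (fun _ => y) (fun _ => y)
        (fun _ => Or.inl rfl) 1 A 0 (one_mul _)
        (one_deg ho (S := {x : G | x • y = y ∧ x • y = y}) ⟨one_smul _ _, one_smul _ _⟩)
        (fun i j => (mem_deg hA _ _).2 (hB i j)) fun _ _ => zero_mem _
      simpa using this))
    (fun D hadj J _ _ e z Θ₀ Θ₁ ε h₀ h₁ hε hεε => gen J _ (CGen.split _ _ z
      (fun i => Or.inr (hadj (e i) true)) ε Θ₀ Θ₁ hεε (fun i j => (mem_deg hA _ _).2 fun g hg => by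
        obtain ⟨e1, e2⟩ := hε i j g hg
        rw [e1]; exact ⟨e2 _, e2 _⟩) (fun i j => (mem_deg hA _ _).2 (h₀ i j))
      fun i j => (mem_deg hA _ _).2 (h₁ i j))) (A := A) ⟨⟨A, B, h1, h2⟩, rfl⟩
  exact ⟨Fintype.card ι, GenSys.stab_equiv (Fintype.equivFin ι).symm hA⟩

end Rel

end Gr

end Pool.Agent.MP_f7db47_al

end
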