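import Pool.Agent.Mg.Ff7db47.G5db606
import Pool.Agent.Mg.Ff7db47.G22a3ef
import Pool.Agent.Mg.Ff7db47.Gdd6dc9
import Pool.Agent.Mg.Ff7db47.G1dc99b
import Pool.Agent.Mg.Ff7db47.G4c35a5

section

/-!
Twisted coefficients: part AQb.
-/

set_option linter.unusedSectionVars false

universe u u' v w

section

namespace Pool.Agent.MP_f7db47_al.TW

open GN

open Matrix

variable {R : Type v} [Ring R]

section aux

variable {G : Type} [Group G] [MulSemiringAction G R] {Λ : Type} {N : ℕ}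

lemma AQb_qq {H : Subgroup G} (h : QQ R H) (H' : Subgroup (G × MZ)) (hH : ∀ x ∈ H', x.1 ∈ H) :
    QQ R H' :=
  (h.prod_poly polyZ_int).sub'
    { toFun := fun x => (⟨x.1.1, hH _ x.2⟩, (1, x.1.2))
      map_one' := rfl
      map_mul' := fun _ _ => rfl } (fun _ _ => rfl)
    fun _ _ e => Subtype.ext (Prod.ext (congrArg (fun z => z.1.1) e) (congrArg (fun z => z.2.2) e))

variable {I J E : Type} [Fintype I] [DecidableEq I] [Fintype J] [DecidableEq J] [Fintype E]
  [DecidableEq E] {l : I → Λ} {l' : J → Λ} {lE : E → Λ}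
  {e : Matrix I I (SkewMonoidAlgebra R (G × MZ))} {e' : Matrix J J (SkewMonoidAlgebra R (G × MZ))}
  {eE : Matrix E E (SkewMonoidAlgebra R (G × MZ))}
  {u : Matrix J I (SkewMonoidAlgebra R (G × MZ))} {v : Matrix I J (SkewMonoidAlgebra R (G × MZ))}

lemma AQb_stab {r : Λ → G → Λ → Prop} {d L : ℕ} (hE : Std lE eE)
    (h : SS r (fun x : (J ⊕ E) × Fin L => Sum.elim l' lE x.1)
      (bhs d L (fromBlocks u 0 0 eE) (fromBlocks v 0 0 eE) (fromBlocks e' 0 0 eE))) :
    SS r (fun x : J × Fin L => l' x.1) (bhs d L u v e') := by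
  refine SS.of_sum_std (bhs_std hE d L) (SS.of_reindex (Equiv.sumProdDistrib J E (Fin L)) ?_)
  rw [← bhs_sum, submatrix_submatrix, Equiv.symm_comp_self, submatrix_id_id]
  convert h using 2 with x
  obtain ⟨_ | _, _⟩ := x <;> rfl

lemma AQb_deg (F : GN.FR G Λ) {k k' d d' L L' : ℕ} (he : Std l e) (he' : Std l' e')
    (h : Iso (up (F.rel k)) l l' e e' u v) (hu : Deg d u) (hv : Deg d v) (hL : 2 * d ≤ L)
    (hd : d ≤ d') (hL' : 2 * d' ≤ L')
    (hS : SS (F.rel k') (fun x : J × Fin L' => l' x.1) (bhs d' L' u v e')) :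
    SS (F.rel (2 * k + (10 * k + k'))) (fun x : J × Fin L => l' x.1) (bhs d L u v e') := by
  obtain ⟨c, rfl⟩ := Nat.exists_eq_add_of_le' hd
  obtain ⟨f, g, h1⟩ := bhs_win F he he' h hu hv hL (show 2 * d ≤ L' by omega)
  obtain ⟨f', g', h2⟩ := bhs_mul F he he he' (iso_refl he.idem (he.ctl (AQb_up F) k)) h
    (he.deg c) (he.deg c) hu hv hL'
  rw [h.fp, h.pg] at h2
  exact SS.of_iso F h1 (SS.of_sum_std (bhs_std he c L') (SS.of_iso F h2.symm hS))

end aux

theorem q0_of_qb {N k k' : ℕ} (h : QB R N k k') : Q0 R N k k' := by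
  intro G _ _ Λ B S hB J _ _ l p hp hc
  obtain ⟨u, v, hi, hu, hv, H⟩ := bhs_basic (CR B S) (k' := k') hp hc
  exact H (h G Λ B S hB J J l l 1 1 u v 1 2 (std_one l) (std_one l) hi hu hv le_rfl)

theorem qb_zero (k : ℕ) : QB R 0 k 0 := by
  intro G _ _ Λ B S hB I J _ _ _ _ l l' e e' u v d L he he' hi hu hv hL
  obtain ⟨h1, h2⟩ := bhs_idem (CR B S) he he' hi hu hv hL
  exact (ss_block B (fun a => (hB a).g0) _ _ h1 (h2.mono fun _ _ _ h => h.1)).relab id
    fun _ _ _ h => ⟨h, fun i => i.elim0⟩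

theorem qb_succ {N : ℕ} (h : ∀ k, ∃ k', QB R N k k') (k : ℕ) : ∃ k', QB R (N + 1) k k' := by
  obtain ⟨k₀, hk₀⟩ := h (2 * k)
  obtain ⟨k₁, h₁⟩ := h (k₀ + 3 * k)
  refine ⟨2 * k + (10 * k + (10 * (k₀ + 3 * k + (2 * (5 * k + 1) + 2 * k)) +
    (k₁ + (2 * (5 * k + 1) + 2 * k)))), ?_⟩
  intro G _ _ Λ B S hB I J _ _ _ _ l l' e e' u v d L he he' hi hu hv hL
  obtain ⟨E, M, _, _, _, _, lE, lM, lY, eE, eM, u₁, v₁, u₂, v₂, hE, hM, hY, hl, i1, i2, e1, e2⟩ :=
    cut (q0_of_qb hk₀) (Nat.lt_succ_self (5 * k)) (B.pull (MonoidHom.fst G MZ) id)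
      ((S 0).pull (MonoidHom.fst G MZ) id) (fun i => (S i.succ).pull (MonoidHom.fst G MZ) id)
      (fun a _ => AQb_qq (hB a) _ fun _ hx => hx.1) he he'
      (hi.relab (fun _ _ _ h => ⟨⟨h.1, fun i => h.2 i.succ⟩, h.2 0⟩)
        fun _ _ _ h => ⟨⟨h.1, fun i => h.2 i.succ⟩, h.2 0⟩)
  obtain ⟨d₁, g1⟩ := exists_deg u₁
  obtain ⟨d₂, g2⟩ := exists_deg v₁
  obtain ⟨d₃, g3⟩ := exists_deg u₂
  obtain ⟨d₄, g4⟩ := exists_deg v₂
  obtain ⟨D, hD, hd1, hd2, hd3, hd4⟩ : ∃ D, d ≤ D ∧ d₁ ≤ D ∧ d₂ ≤ D ∧ d₃ ≤ D ∧ d₄ ≤ D :=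
    ⟨d + d₁ + d₂ + d₃ + d₄, by omega⟩
  have hM' : Std (fun x => (lM x).1.1) eM := hM.relab fun _ _ h => by rw [hM.eq_of_ne h]
  have hz : ∀ a γ b, (CR (zoneG (B.pull (MonoidHom.fst G MZ) id)
      ((S 0).pull (MonoidHom.fst G MZ) id) (5 * k + 1) k)
      fun i => (S i.succ).pull (MonoidHom.fst G MZ) id).rel (k₀ + 3 * k) a γ b →
      up ((CR (zoneG B (S 0) (5 * k + 1) k) fun i => S i.succ).rel (k₀ + 3 * k)) a γ b :=
    fun _ _ _ h => ⟨⟨h.1.1, h.1.2.imp id fun h' => ⟨congrArg Prod.fst h'.1, h'.2⟩⟩, h.2⟩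
  have j1 := i1.relab (fun _ _ _ h => hz _ _ _ h) fun _ _ _ h => hz _ _ _ h
  have s1 := (h₁ G Λ (zoneG B (S 0) (5 * k + 1) k) (fun i => S i.succ)
    (fun a => (hB a).sub (Subgroup.inclusion fun _ hx => hx.1)
    (Subgroup.inclusion_injective _)) _ _ _ _ _ _ _ _ D (2 * (D + D)) (he.sum hE) hM' j1
    (g1.mono hd1) (g2.mono hd2) (by omega)).relab id
    fun _ _ _ h => AQb_zone B S (Nat.succ_pos _) k k₁ h
  have s2 := (h₁ G (Slab (S 0) (5 * k + 1) k) (slabG B (S 0) (5 * k + 1) k)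
    (fun i => (S i.succ).pull (MonoidHom.id G) fun x => x.1.1)
    (fun a => (hB a.1.1).sub (Subgroup.inclusion fun _ hx => hx.1)
    (Subgroup.inclusion_injective _)) _ _ lM lY _ _ _ _ D (2 * (D + D)) hM hY i2
    (g3.mono hd3) (g4.mono hd4) (by omega)).relab (fun x => x.1.1)
    fun _ _ _ h => AQb_slab B S _ k k₁ h
  have j2 : Iso (up ((CR B S).rel (k₀ + 3 * k + (2 * (5 * k + 1) + 2 * k))))
      (fun x => (lM x).1.1) (fun y => (lY y).1.1) eM (fromBlocks e' 0 0 eE) u₂ v₂ :=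
    i2.relab (fun _ _ _ h => AQb_slab B S _ k _ h) fun _ _ _ h => AQb_slab B S _ k _ h
  have s3 : SS ((CR B S).rel (k₁ + (2 * (5 * k + 1) + 2 * k)))
      (fun x : (J ⊕ E) × Fin (2 * (D + D)) => Sum.elim l' lE x.1)
      (bhs D (2 * (D + D)) u₂ v₂ (fromBlocks e' 0 0 eE)) := by
    simp only [← hl]
    exact s2
  rw [funext hl] at j2
  obtain ⟨f, g, j3⟩ := bhs_mul (CR B S) (he.sum hE) hM' (he'.sum hE)
    (j1.relab (fun _ _ _ h => AQb_zone B S (Nat.succ_pos _) k _ h)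
      fun _ _ _ h => AQb_zone B S (Nat.succ_pos _) k _ h) j2 (g1.mono hd1) (g2.mono hd2)
    (g3.mono hd3) (g4.mono hd4) le_rfl
  rw [e1, e2] at j3
  exact AQb_deg (CR B S) he he' hi hu hv hL (show d ≤ D + D by omega) le_rfl
    (AQb_stab hE (SS.of_iso (CR B S) j3 (s3.sum s1)))

theorem exists_q0 (N k : ℕ) : ∃ k', Q0 R N k k' := by
  have h : ∀ k, ∃ k', QB R N k k' := by
    induction N with
    | zero => exact fun k => ⟨0, qb_zero k⟩
    | succ N ih => exact qb_succ ih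
  exact (h k).imp fun _ => q0_of_qb

end Pool.Agent.MP_f7db47_al.TW

end

end

section

/-!
Twisted coefficients: part AMain.
-/

set_option linter.unusedSectionVars false

universe u u' v w

section

namespace Pool.Agent.MP_f7db47_al.TW

open GN

open Matrix

variable {R : Type v} [Ring R]

theorem AMain_le {G : Type} [Group G] [MulSemiringAction G R] {H K : Subgroup G} (h : H ≤ K) (hK : QQ R K) : QQ R H :=
  hK.sub (Subgroup.inclusion h) (Subgroup.inclusion_injective h)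

theorem qq_punit {G : Type} [Group G] [MulSemiringAction G R] (h : QQ R G) : QQ R PUnit.{1} :=
  h.sub' 1 (fun _ x => (one_smul G x).symm) fun _ _ _ => rfl

theorem AMain_ex {G Λ I J : Type} [Group G] [MulSemiringAction G R] {r : Λ → G → Λ → Prop} {li : I → Λ} {lj : J → Λ}
    {f : Matrix I J (SkewMonoidAlgebra R G)} (h : Ctl r li lj f) {i : I} {j : J} (hf : f i j ≠ 0) :
    ∃ g, r (li i) g (lj j) := by
  by_contra hn
  refine hf ?_
  ext g
  by_contra hg
  exact hn ⟨g, h i j g hg⟩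

theorem AMain_zone (h1 : QQ R PUnit.{1}) {G Λ : Type} [Group G] [MulSemiringAction G R] (s : Spi G Λ) {w k : ℕ}
    (hw : k < w) (hs : ∀ a, 0 < s.ht a → QQ R (s.leg.grp a)) (a : Λ) :
    G1 R ((zoneG (Gpd.full G Λ) s w k).grp a) := by
  by_cases hz : InZ w k (s.ht a)
  · refine (AMain_le ?_ (hs a (by have := hz.1; omega))).g1
    rintro γ ⟨-, h | ⟨rfl, -⟩⟩
    · exact h.2.2.2
    · exact s.leg.refl a
  · have key : ∀ x : (zoneG (Gpd.full G Λ) s w k).grp a, x.1 = 1 := by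
      rintro ⟨γ, -, h | ⟨rfl, -⟩⟩
      · exact absurd h.1 hz
      · rfl
    exact (h1.sub' 1 (fun x z => (congrArg (· • z) (key x)).trans (one_smul G z)) fun x y _ => Subtype.ext ((key x).trans (key y).symm)).g1

theorem AMain_slab {G Λ : Type} [Group G] [MulSemiringAction G R] (s : Spi G Λ) {w k : ℕ}
    (hw : k < w) (hs : ∀ a, 0 < s.ht a → QQ R (s.leg.grp a))
    (a : {x : Slab s w k // ¬ x.1.2 = 0}) :
    G1 R (((slabG (Gpd.full G Λ) s w k).pull (MonoidHom.id G) Subtype.val).grp a) := by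
  have h0 : 0 < s.ht a.1.1.1 := by
    have h1 := a.1.2.1
    have h2 := Nat.le_mul_of_pos_left w (Nat.pos_of_ne_zero a.2)
    omega
  refine (AMain_le ?_ (hs _ h0)).g1
  rintro γ ⟨-, -, hγ⟩
  exact hγ a.2

theorem vanish_iso [NR R] (h1 : QQ R PUnit.{1}) (N k : ℕ) : ∃ r : ℕ, ∀ (G : Type) [Group G] [MulSemiringAction G R] (Λ : Type)
    (S : Fin N → Spi G Λ), (∀ i a, 0 < (S i).ht a → QQ R ((S i).leg.grp a)) →
    (∀ a, ∃ i, r ≤ (S i).ht a) → ∀ (I J : Type) [Fintype I] [DecidableEq I] [Fintype J]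
    [DecidableEq J] (l : I → Λ) (l' : J → Λ) (e : Matrix I I (SkewMonoidAlgebra R G))
    (e' : Matrix J J (SkewMonoidAlgebra R G)) (f : Matrix J I (SkewMonoidAlgebra R G))
    (g : Matrix I J (SkewMonoidAlgebra R G)), Std l e → Std l' e' →
    Iso ((CR (Gpd.full G Λ) S).rel k) l l' e e' f g → Triv e e' f := by
  induction N generalizing k with
  | zero =>
    refine ⟨0, fun G _ _ Λ S _ hcov I J _ _ _ _ l l' e e' f g he he' h => ?_⟩
    exact triv_block (Gpd.full G Λ) (fun a => (hcov a).elim fun i => i.elim0) he he'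
      (h.relab (fun _ _ _ _ => trivial) fun _ _ _ _ => trivial)
  | succ N ih =>
    obtain ⟨k₀, hQ⟩ := exists_q0 (R := R) N (2 * k)
    obtain ⟨r', hr'⟩ := ih (k₀ + 3 * k)
    refine ⟨max r' (5 * k + 1 + k),
      fun G _ _ Λ S hS hcov I J _ _ _ _ l l' e e' f g he he' h => ?_⟩
    have hw : k < 5 * k + 1 := by omega
    obtain ⟨E, M, _, _, _, _, lE, lM, lY, eE, eM, u₁, v₁, u₂, v₂, hE, hM, hY, -, i1, i2, eu, ev⟩ :=
      cut (w := 5 * k + 1) hQ (Nat.lt_succ_self (5 * k)) (Gpd.full G Λ) (S 0) (fun i => S i.succ)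
        (fun a ha => AMain_le inf_le_right (hS 0 a ha)) he he'
        (h.relab (fun _ _ _ c => ⟨⟨trivial, fun i => c.2 i.succ⟩, c.2 0⟩)
          fun _ _ _ c => ⟨⟨trivial, fun i => c.2 i.succ⟩, c.2 0⟩)
    have hM' : Std (fun x => (lM x).1.1) eM := hM.relab fun i j c => by rw [hM.eq_of_ne c]
    have t1 : Triv (fromBlocks e 0 0 eE) eM u₁ :=
      triv_block _ (AMain_zone h1 (S 0) hw (hS 0)) (he.sum hE) hM'
        (i1.relab (fun _ _ _ c => c.1) fun _ _ _ c => c.1)
    have hf : ∀ j i, u₂ j i ≠ 0 → (lY j).1.2 = (lM i).1.2 := fun j i c =>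
      (AMain_ex i2.cf c).elim fun _ c' => c'.1.2.1
    have hg : ∀ i j, v₂ i j ≠ 0 → (lM i).1.2 = (lY j).1.2 := fun i j c =>
      (AMain_ex i2.cg c).elim fun _ c' => c'.1.2.1
    have t2 : Triv eM (fromBlocks e' 0 0 eE) u₂ := by
      refine Triv.of_split hM hY i2 (fun m => (lM m).1.2 = 0) (fun y => (lY y).1.2 = 0)
        (fun j i c => by rw [hf j i c]) (fun i j c => by rw [hg i j c]) ?_ ?_
      · have sM := hM.restrict (fun m => (lM m).1.2 = 0) fun i j c => by rw [hM.eq_of_ne c]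
        have sY := hY.restrict (fun y => (lY y).1.2 = 0) fun i j c => by rw [hY.eq_of_ne c]
        refine hr' G {x : Slab (S 0) (5 * k + 1) k // x.1.2 = 0}
          (fun i => (S i.succ).pull (MonoidHom.id G) fun x => x.1.1.1)
          (fun i a ha => AMain_le (fun γ c => c) (hS i.succ a.1.1.1 ha)) (fun a => ?_)
          {m // (lM m).1.2 = 0} {y // (lY y).1.2 = 0}
          (fun x => ⟨lM x.1, x.2⟩) (fun x => ⟨lY x.1, x.2⟩) _ _ _ _
          (sM.relab fun i j c => Subtype.ext (sM.eq_of_ne c))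
          (sY.relab fun i j c => Subtype.ext (sY.eq_of_ne c))
          ((i2.restrict (fun m => (lM m).1.2 = 0) (fun y => (lY y).1.2 = 0)
            (fun j i c => by rw [hf j i c]) fun i j c => by rw [hg i j c]).relab
            (fun _ _ _ c => ⟨trivial, c.2⟩) fun _ _ _ c => ⟨trivial, c.2⟩)
        obtain ⟨i, hi⟩ := hcov a.1.1.1
        rw [max_le_iff] at hi
        induction i using Fin.cases with
        | zero =>
          have c := a.1.2.2
          rw [a.2] at c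
          omega
        | succ i => exact ⟨i, hi.1⟩
      · have sM := hM.restrict (fun m => ¬ (lM m).1.2 = 0) fun i j c => by rw [hM.eq_of_ne c]
        have sY := hY.restrict (fun y => ¬ (lY y).1.2 = 0) fun i j c => by rw [hY.eq_of_ne c]
        exact triv_block _ (AMain_slab (S 0) hw (hS 0))
          (l := fun x : {m // ¬ (lM m).1.2 = 0} => ⟨lM x.1, x.2⟩)
          (l' := fun x : {y // ¬ (lY y).1.2 = 0} => ⟨lY x.1, x.2⟩)
          (sM.relab fun i j c => Subtype.ext (sM.eq_of_ne c))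
          (sY.relab fun i j c => Subtype.ext (sY.eq_of_ne c))
          ((i2.restrict (fun m => ¬ (lM m).1.2 = 0) (fun y => ¬ (lY y).1.2 = 0)
            (fun j i c => by rw [hf j i c]) fun i j c => by rw [hg i j c]).relab
            (fun _ _ _ c => by exact c.1) fun _ _ _ c => by exact c.1)
    have t := Triv.comp (he.sum hE) hM' (he'.sum hE) i1 i2 t1 t2
    rw [eu] at t
    exact t.of_sum hE

/-- The controlled vanishing theorem. -/
theorem vanish [NR R] (h1 : QQ R PUnit.{1}) (N k : ℕ) : ∃ r : ℕ, ∀ (G : Type) [Group G] [MulSemiringAction G R] (J ι : Type)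
    [Fintype J] [DecidableEq J] [Fintype ι] (S : ι → Spi G J), Fintype.card ι ≤ N →
    (∀ i j, 0 < (S i).ht j → QQ R ((S i).leg.grp j)) → (∀ j, ∃ i, r ≤ (S i).ht j) →
    ∀ a b : Matrix J J (SkewMonoidAlgebra R G), a * b = 1 → b * a = 1 →
    Ctl (fun j' g j => ∀ i, (S i).rel k j' g j) id id a →
    Ctl (fun j' g j => ∀ i, (S i).rel k j' g j) id id b → T a := by
  obtain ⟨r, hr⟩ := vanish_iso h1 N k
  refine ⟨r, fun G _ _ J ι _ _ _ S hN hS hcov a b hab hba ha hb => ?_⟩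
  obtain ⟨φ⟩ : Nonempty (ι ↪ Fin N) :=
    Function.Embedding.nonempty_of_card_le (by rwa [Fintype.card_fin])
  let S' : Fin N → Spi G J := Function.extend φ S fun _ => ⟨Gpd.full G J, fun _ => 0⟩
  have e1 : ∀ i, S' (φ i) = S i := fun i => φ.injective.extend_apply _ _ i
  have e2 : ∀ i, (∃ j, S' i = S j) ∨ S' i = ⟨Gpd.full G J, fun _ => 0⟩ := fun i => by
    by_cases c : ∃ j, φ j = i
    · obtain ⟨j, rfl⟩ := c
      exact Or.inl ⟨j, e1 j⟩
    · exact Or.inr (Function.extend_apply' _ _ _ c)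
  have hc : ∀ j' γ j, (∀ i, (S i).rel k j' γ j) → (CR (Gpd.full G J) S').rel k j' γ j := by
    refine fun j' γ j c => ⟨trivial, fun i => ?_⟩
    rcases e2 i with ⟨j, e⟩ | e
    · rw [e]
      exact c j
    · rw [e]
      exact ⟨Nat.zero_le _, Nat.zero_le _, fun c' => absurd trivial c'⟩
  refine T_of_triv (hr G J S' (fun i j => ?_) (fun j => ?_) J J id id 1 1 a b
    (std_one _) (std_one _) ⟨hba, hab, mul_one a, one_mul b, ha.mono hc, hb.mono hc⟩)
  · rcases e2 i with ⟨i', e⟩ | e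
    · rw [e]
      exact hS i' j
    · rw [e]
      exact fun c => absurd c (lt_irrefl 0)
  · obtain ⟨i, hi⟩ := hcov j
    exact ⟨φ i, by rwa [e1]⟩

end Pool.Agent.MP_f7db47_al.TW

end

end

section

/-!
Twisted coefficients: tame actions on trees.
-/

set_option linter.unusedSectionVars false

namespace Pool.Agent.MP_f7db47_al.TW

open Matrix GN Function

universe v

variable {R : Type v} [Ring R] {G : Type} [Group G] [MulSemiringAction G R]

/-- The homogeneous components. -/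
noncomputable def grC : SkewMonoidAlgebra R G →+ (G →₀ SkewMonoidAlgebra R G) :=
  AddMonoidHom.mk' (fun x => Finsupp.onFinset x.coeff.support
    (fun g => SkewMonoidAlgebra.single g (x.coeff g)) fun g hg => Finsupp.mem_support_iff.2
      fun c => hg (by rw [c, SkewMonoidAlgebra.single_zero]))
    fun a b => Finsupp.ext fun g => by simp [SkewMonoidAlgebra.single_add]

lemma grC_apply (x : SkewMonoidAlgebra R G) (g : G) :
    grC x g = SkewMonoidAlgebra.single g (x.coeff g) := rfl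

lemma grC_single (g : G) (r : R) :
    grC (SkewMonoidAlgebra.single g r) = Finsupp.single g (SkewMonoidAlgebra.single g r) := by
  ext1 h
  rw [grC_apply, SkewMonoidAlgebra.coeff_single]
  by_cases c : h = g
  · rw [c, Finsupp.single_eq_same, Finsupp.single_eq_same]
  · rw [Finsupp.single_eq_of_ne c, Finsupp.single_eq_of_ne c, SkewMonoidAlgebra.single_zero]

/-- The grading of the twisted group ring. -/
noncomputable instance grS : GrS G (SkewMonoidAlgebra R G) where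
  c := grC
  sum_c x := by
    refine Eq.trans ?_ (Sk.sum_coeff_single x)
    exact Finsupp.sum_of_support_subset (grC x) (s := x.coeff.support)
      (fun g hg => Finsupp.mem_support_iff.2 fun c => Finsupp.mem_support_iff.1 hg
        (by rw [grC_apply, c, SkewMonoidAlgebra.single_zero])) _ fun _ _ => rfl
  c_c x g := grC_single g _
  mul a b g h ha hb := by
    have h1 : SkewMonoidAlgebra.single g (a.coeff g) = a := by
      rw [← grC_apply, ha, Finsupp.single_eq_same]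
    have h2 : SkewMonoidAlgebra.single h (b.coeff h) = b := by
      rw [← grC_apply, hb, Finsupp.single_eq_same]
    rw [← h1, ← h2, SkewMonoidAlgebra.single_mul_single, grC_single]
  one := grC_single 1 1
  un g := ⟨SkewMonoidAlgebra.single g 1, SkewMonoidAlgebra.single g⁻¹ 1,
    by rw [SkewMonoidAlgebra.single_mul_single, mul_inv_cancel, smul_one, one_mul]; rfl,
    by rw [SkewMonoidAlgebra.single_mul_single, inv_mul_cancel, smul_one, one_mul]; rfl⟩
  hun g := grC_single g 1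
  hun' g := grC_single g⁻¹ 1

lemma gr_sup {S : Set G} {x : SkewMonoidAlgebra R G} (h : Gr.Sup S x) : Sup S x :=
  fun g hg => h g fun c => hg (Sk.single_right_injective (g := g)
    ((grC_apply x g).symm.trans (c.trans (SkewMonoidAlgebra.single_zero g).symm)))

lemma mpr2_mul_left {I J K : Type} [Fintype J] {S : I → K → Set G} {S₁ : J → K → Set G}
    {U : I → J → Set G} {A : Matrix I J (SkewMonoidAlgebra R G)}
    (B : Matrix J K (SkewMonoidAlgebra R G)) (hA : MSup2 U A)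
    (h : ∀ i j k, ∀ y ∈ U i j, ∀ g, y * g ∈ S i k ↔ g ∈ S₁ j k) :
    mpr2 S (A * B) = A * mpr2 S₁ B := by
  ext1 i k
  simp only [mpr2, Matrix.mul_apply, map_sum]
  exact Finset.sum_congr rfl fun j _ => pr_mul_left _ (hA i j) (h i j k)

/-- The groupoid of a `G`-set. -/
def orbG (G : Type) [Group G] (V : Type) [MulAction G V] : Gpd G V where
  r y g y' := g • y' = y
  refl := one_smul G
  symm h := by rw [← h, inv_smul_smul]
  trans h h' := by rw [mul_smul, h', h]

theorem T_split2 [NR R] {V L : Type} [MulAction G V] (B : Gpd G L) (π : L → Bool → V)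
    (hπ : ∀ a g b s, B.r a g b → g • π b s = π a s)
    (h1 : ∀ y : V, G1 R (MulAction.stabilizer G y)) (h0 : ∀ a, G0 R (B.grp a))
    {J : Type} [Fintype J] [DecidableEq J] (e : J → L) (z : J → V)
    {Θ₀ Θ₁ ε : Matrix J J (SkewMonoidAlgebra R G)}
    (h₀ : MSup2 (fun i j => {x | x • z j = π (e i) false}) Θ₀)
    (h₁ : MSup2 (fun i j => {x | x • z j = π (e i) true}) Θ₁) (hε : Ctl B.r e e ε)
    (hεε : ε * ε = ε) (hu : IsUnit (ε * Θ₀ + (1 - ε) * Θ₁)) : T (ε * Θ₀ + (1 - ε) * Θ₁) := by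
  obtain ⟨⟨Θ, Γ, u1, u2⟩, hΘ⟩ := hu
  change Θ = _ at hΘ
  rw [← hΘ]
  have hη : Ctl B.r e e (1 - ε) := (ctl_one (ABase_fr B) 0 e).sub hε
  have a1 : ε * (1 - ε) = 0 := by rw [mul_sub, mul_one, hεε, sub_self]
  have a2 : (1 - ε) * ε = 0 := by rw [sub_mul, one_mul, hεε, sub_self]
  have a3 : (1 - ε) * (1 - ε) = 1 - ε := by rw [mul_sub, mul_one, a2, sub_zero]
  have b0 : ε * Θ = ε * Θ₀ := by
    rw [hΘ, mul_add, ← mul_assoc, ← mul_assoc, hεε, a1, zero_mul, add_zero]
  have b1 : (1 - ε) * Θ = (1 - ε) * Θ₁ := by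
    rw [hΘ, mul_add, ← mul_assoc, ← mul_assoc, a2, a3, zero_mul, zero_add]
  have c0 : MSup2 (fun i j => {x | x • z j = π (e i) false}) (ε * Θ) := by
    rw [b0]
    refine MSup2.mul hε h₀ fun i j k a ha b hb => ?_
    change (a * b) • z k = _
    rw [mul_smul, hb, hπ _ _ _ _ ha]
  have c1 : MSup2 (fun i j => {x | x • z j = π (e i) true}) ((1 - ε) * Θ) := by
    rw [b1]
    refine MSup2.mul hη h₁ fun i j k a ha b hb => ?_
    change (a * b) • z k = _
    rw [mul_smul, hb, hπ _ _ _ _ ha]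
  have key : ∀ (s s' : Bool) (p q : Matrix J J (SkewMonoidAlgebra R G)), p + q = 1 → p * p = p →
      q * p = 0 → Ctl B.r e e p → MSup2 (fun i j => {x | x • z j = π (e i) s}) (p * Θ) →
      MSup2 (fun i j => {x | x • z j = π (e i) s'}) (q * Θ) →
      MSup2 (fun j i => {x | x • π (e i) s = z j}) (Γ * p) := by
    intro s s' p q hpq hp hq cp c0 c1
    have aux : ∀ (t : Bool) (X : Matrix J J (SkewMonoidAlgebra R G)),
        MSup2 (fun i j => {x | x • z j = π (e i) t}) X →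
        mpr2 (fun i k => {x | x • π (e k) s = π (e i) t}) (X * (Γ * p)) =
          X * mpr2 (fun j k => {x | x • π (e k) s = z j}) (Γ * p) := fun t X hX =>
      mpr2_mul_left _ hX fun i j k y hy g => by
        change (y * g) • _ = _ ↔ g • _ = _
        rw [← show y • z j = π (e i) t from hy, mul_smul, smul_left_cancel_iff]
    have d0 := aux s _ c0
    have d1 := aux s' _ c1
    rw [mul_assoc, ← mul_assoc Θ, u1, one_mul] at d0 d1
    rw [hp, MSup2.mpr2_eq (S := fun i k => {x | x • π (e k) s = π (e i) s})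
      (MSup2.mono cp fun i j g hg => hπ _ _ _ _ hg)] at d0
    rw [hq, MSup2.mpr2_eq (msup2_zero _)] at d1
    have d2 : Θ * mpr2 (fun j k => {x | x • π (e k) s = z j}) (Γ * p) = p := by
      rw [← one_mul Θ, ← hpq, add_mul, add_mul, ← d0, ← d1, add_zero]
    have d3 : Γ * p = mpr2 (fun j k => {x | x • π (e k) s = z j}) (Γ * p) := by
      conv_lhs => rw [← d2, ← mul_assoc, u2, one_mul]
    rw [d3]
    exact msup2_mpr2 _ _
  have g0 := key false true ε (1 - ε) (add_sub_cancel _ _) hεε a2 hε c0 c1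
  have g1 := key true false (1 - ε) ε (sub_add_cancel _ _) a3 a1 hη c1 c0
  let B' : Gpd G (L × Bool) :=
    ⟨fun a g b => B.r a.1 g b.1 ∧ a.2 = b.2, fun a => ⟨B.refl _, rfl⟩,
      fun h => ⟨B.symm h.1, h.2.symm⟩, fun h h' => ⟨B.trans h.1 h'.1, h.2.trans h'.2⟩⟩
  have hB' : ∀ a, B'.grp a = B.grp a.1 := fun a => Subgroup.ext fun g => ⟨fun h => h.1, fun h => ⟨h, rfl⟩⟩
  obtain ⟨E, M, _, _, _, _, lE, lM, eE, eM, f, g, sE, sM, hI⟩ :=
    ss_block B' (fun a => by rw [hB']; exact h0 _)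
      (Sum.elim (fun i => (e i, false)) fun i => (e i, true)) (fromBlocks ε 0 0 (1 - ε))
      (by simp [fromBlocks_multiply, hεε, a3])
      (Ctl.fromBlocks (hε.relab fun _ _ _ h => ⟨h, rfl⟩) (ctl_zero _ _ _) (ctl_zero _ _ _)
        (hη.relab fun _ _ _ h => ⟨h, rfl⟩))
  have hV : ∀ y, G1 R ((orbG G V).grp y) := h1
  have i1 : Iso (orbG G V).r z (Sum.elim (fun i => π (e i) false) fun i => π (e i) true) 1
      (fromBlocks ε 0 0 (1 - ε)) (fromRows (ε * Θ) ((1 - ε) * Θ)) (fromCols (Γ * ε) (Γ * (1 - ε))) := by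
    refine ⟨?_, ?_, Matrix.mul_one _, Matrix.one_mul _, ?_, ?_⟩
    · rw [fromCols_mul_fromRows, mul_assoc, mul_assoc, ← mul_assoc ε, ← mul_assoc (1 - ε), hεε, a3,
        ← mul_add, ← add_mul, add_sub_cancel, one_mul, u2]
    · rw [fromRows_mul_fromCols]
      simp only [mul_assoc, ← mul_assoc Θ, u1, one_mul, hεε, a1, a2, a3]
    · rintro (i | i) j
      · exact c0 i j
      · exact c1 i j
    · rintro j (i | i)
      · exact g0 j i
      · exact g1 j i
  have i2 : Iso (orbG G V).r (Sum.elim (fun i => π (e i) false) fun i => π (e i) false)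
      (fun i => π (e i) false) (fromBlocks ε 0 0 (1 - ε)) 1 (fromCols ε (1 - ε))
      (fromRows ε (1 - ε)) := by
    refine ⟨?_, ?_, ?_, ?_, ?_, ?_⟩
    · rw [fromRows_mul_fromCols, hεε, a1, a2, a3]
    · rw [fromCols_mul_fromRows, hεε, a3, add_sub_cancel]
    · rw [fromCols_mul_fromBlocks]
      simp [hεε, a3]
    · rw [fromBlocks_mul_fromRows]
      simp [hεε, a3]
    · rintro j (i | i)
      · exact (hε j i).mono fun _ h => hπ _ _ _ _ h
      · exact (hη j i).mono fun _ h => hπ _ _ _ _ h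
    · rintro (i | i) j
      · exact (hε i j).mono fun _ h => hπ _ _ _ _ h
      · exact (hη i j).mono fun _ h => hπ _ _ _ _ h
  have j1 := Iso.trans (ABase_fr (orbG G V)) (k := 0) (k' := 0)
    (i1.sum (iso_refl (l := fun x => π (lE x).1 (lE x).2) sE.idem (sE.msup2 fun _ => one_smul _ _)))
    (hI.relab (m' := fun x => π (lM x).1 (lM x).2)
      (by rintro j γ ((i | i) | i) h <;> exact (hπ _ _ _ _ h.1).trans (congrArg _ h.2.symm))
      (by rintro ((i | i) | i) γ j h <;> exact (hπ _ _ _ _ h.1).trans (congrArg _ h.2.symm)))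
  have j2 := Iso.trans (ABase_fr (orbG G V)) (k := 0) (k' := 0)
    (hI.symm.relab (m := fun x => π (lM x).1 false)
      (by rintro ((i | i) | i) γ j h <;> exact hπ _ _ _ _ h.1)
      (by rintro j γ ((i | i) | i) h <;> exact hπ _ _ _ _ h.1))
    (i2.sum (iso_refl (l := fun x => π (lE x).1 false) sE.idem (sE.msup2 fun _ => one_smul _ _)))
  have s1 : ∀ l : J ⊕ E → V, Std l (fromBlocks (1 : Matrix J J (SkewMonoidAlgebra R G)) 0 0 eE) :=
    fun _ => (std_one fun i => (e i, false)).sum sE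
  have t := Triv.comp (s1 _) sM (s1 (Sum.elim z fun x => π (lE x).1 false)) j1 j2
    (triv_block _ hV (s1 _) sM j1) (triv_block _ hV sM (s1 _) j2)
  have e1 : fromBlocks (fromCols ε (1 - ε)) 0 0 eE * g *
      (f * fromBlocks (fromRows (ε * Θ) ((1 - ε) * Θ)) 0 0 eE) = fromBlocks Θ 0 0 eE := by
    rw [Matrix.mul_assoc, ← Matrix.mul_assoc g, hI.gf, ← Matrix.mul_assoc, fromBlocks_multiply,
      fromBlocks_multiply]
    simp only [Matrix.mul_zero, Matrix.zero_mul, add_zero, zero_add, sE.idem, i2.fp,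
      fromCols_mul_fromRows, ← mul_assoc, hεε, a3]
    rw [← add_mul, add_sub_cancel, one_mul]
  rw [e1] at t
  exact T_of_triv (t.of_sum sE)

theorem qq_tame [NR R] {G₀ V : Type} [Group G₀] [MulAction G₀ V] (p : G →* G₀)
    {X : SimpleGraph V} (hX : TreeAction G₀ X) {F : Set (Subgroup G₀)} (hT : TameTree G₀ X F ∅)
    (hF : ∀ H ∈ F, QQ R (H.comap p))
    (hV : ∀ y : V, QQ R ((MulAction.stabilizer G₀ y).comap p)) : QQ R G := by
  intro P _ hP Δ _ _ f _ hf
  let q : Δ →* G₀ := p.comp ((MonoidHom.fst _ _).comp f)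
  let _ : MulAction Δ V := MulAction.compHom V q
  have hV' : ∀ y : V, QQ R (MulAction.stabilizer Δ y) := fun y =>
    qq_of_le' hP f hf _ (hV y) _ fun x hx => hx
  rw [G1_iff]
  intro J _ _ A hu
  refine Gr.tree_main q (fun _ _ => rfl) hX hT (stdTS R Δ)
    (fun H hH J _ _ A hA hu => T_of_isUnit_msup _
      (qq_of_le' hP f hf _ (hF H hH) _ fun x hx => hx).g1 (fun i j => gr_sup (hA i j)) hu)
    (fun K hK => hK.elim)
    (fun y J _ _ A hA hu => T_of_isUnit_msup _ (hV' y).g1 (fun i j => gr_sup (hA i j)) hu)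
    (fun D _ J _ _ e z Θ₀ Θ₁ ε h₀ h₁ hε hεε hu => ?_) hu
  let B : Gpd Δ D.E :=
    ⟨fun a g b => b = a ∧ g ∈ D.C a, fun a => ⟨rfl, one_mem _⟩,
      fun h => ⟨h.1.symm, h.1 ▸ inv_mem h.2⟩,
      fun h h' => ⟨h'.1.trans h.1, mul_mem h.2 (h.1 ▸ h'.2)⟩⟩
  exact T_split2 B D.ep (fun a g b s h => by rw [h.1]; exact h.2 s) (fun y => (hV' y).g1)
    (fun a => (AMain_le (H := B.grp a) (fun g hg => hg.2 false) (hV' (D.ep a false))).g0) e z
    (fun i j => gr_sup (h₀ i j)) (fun i j => gr_sup (h₁ i j)) (fun i j => gr_sup (hε i j)) hεε hu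

end Pool.Agent.MP_f7db47_al.TW

end
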