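import Pool.Agent.Mg.Ff7db47.G69696e
import Pool.Agent.Mg.Ff7db47.Ge15caa
import Pool.Agent.Mg.Ff7db47.G9a930f

/-!
Twisted coefficients: part NCore.
-/

set_option linter.unusedSectionVars false

universe u u' v w

section

namespace Pool.Agent.MP_f7db47_al.TW

open GN

open Matrix

variable {R : Type v} [Ring R]

theorem step (n : ℕ) : ∃ c : ℕ, 0 < c ∧ ∀ (G : Type) [Group G] [MulSemiringAction G R] (ι : Type) [Fintype ι]
    (P : ι → Pl) (bl : Bl G) (C β cδ U' : ℕ) (a : ∀ l, Ac G bl C (P l) n) (p : Par),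
    p.OK n C U' → n * (C + 6) ≤ cδ → ∀ (J : Type) [Fintype J] [DecidableEq J] (F : GN.FR G J),
    F.Good bl → ∀ (ν : Nd P n β J) (l : ι), ν.Inv a F p.Rt p.X cδ p.U → 0 < ν.rk l →
    ∀ k : ℕ, 0 < k → ∀ A B : Matrix J J (SkewMonoidAlgebra R G), A * B = 1 → B * A = 1 →
    Ctl (F.rel k) id id A → Ctl (F.rel k) id id B →
    ∃ (J' : Type) (_ : Fintype J') (_ : DecidableEq J') (π : J' → J) (F' : GN.FR G J')
      (ch : Fin n × Fin (n + 1) × Fin n → Nd P n β J')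
      (A' B' : Matrix J' J' (SkewMonoidAlgebra R G)), F'.Good bl ∧
      (∀ t x g y, F'.rel t x g y → F.rel t (π x) g (π y)) ∧
      Fintype.card J' ≤
        Fintype.card J * ((2 * (p.q * C * p.m) + 1) ^ bl.s₀ ^ p.m + 1) ^ (n + 1) ∧
      (∀ c, (ch c).Inv a F' p.Rt p.X cδ U' ∧ (ch c).r = ν.r - 1) ∧
      (∀ x, 0 < ν.h (π x) → ∃ c, ν.h (π x) / 2 ≤ (ch c).h x) ∧
      A' * B' = 1 ∧ B' * A' = 1 ∧ Ctl (F'.rel (c * k)) id id A' ∧
      Ctl (F'.rel (c * k)) id id B' ∧ (T A' → T A) := by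
  obtain ⟨c, hc, ht⟩ := transfer (R := R) (n + 1)
  refine ⟨4 * c, by omega, fun G _ _ ι _ P bl C β cδ U' a p hp hcδ J _ _ F hF ν l hν hl k hk A B
    hAB hBA hA hB => ?_⟩
  classical
  let o : LinearOrder (G → ℤ) := linearOrderOfSTO WellOrderingRel
  have hm : ∀ x, 2 * ν.h x ≤ p.m := fun x => by
    have := hν.hle x
    have := hp.m1
    omega
  obtain ⟨F₁, hF₁, hr⟩ := exists_ext
    (Λ' := {x : J × (G → ℤ) // x.2 ∈ (a l).Kn p.q p.m (ν.h x.1) (ν.W x.1 l)}) F hF ν.h p.m hν.lip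
    (fun x => by have := hm x; omega) (fun x => x.1.1) fun x => x.1.2
  obtain ⟨C₁, C₂, hD, hC⟩ := car (a l) o F hF ν.h (fun x => ν.W x l) hp.q0 hk hν.lip hm hp.u1
    (fun x hx e => by
      have := hν.rank x l hx
      rw [e, finrank_bot] at this
      omega)
    (fun h h1 h2 => by
      obtain ⟨δ, -, -, h3⟩ := hν.close h h1 h2
      obtain ⟨u, h4, -⟩ := h3 l
      exact ⟨u, h4⟩)
  obtain ⟨J', i1, i2, lab, A', B', h1, h2, h3, h4, h5, h6⟩ := @ht G _ _ J (G → ℤ) _ _ o _ _ _ _ C₁ C₂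
    F₁ (4 * k) _ hD (fun j => card_Kn (a l) _ _ _ _)
    (fun x y e h => (hr _ _ _ _).2 ⟨e ▸ F.mono (Nat.zero_le _) (F.refl _), fun _ _ => by
      obtain ⟨-, δ, h7⟩ := h
      refine ⟨δ, fun s hs _ => ?_⟩
      obtain ⟨h8, h9⟩ := h7 s (bl.mono (Nat.sub_le _ _) hs)
      rw [inv_one, one_mul, abs_le]
      push_cast
      omega⟩)
    (fun x y g σ h7 h8 h9 h10 => (hr _ _ _ _).2
      ⟨F.mono (by omega) h7, hC _ _ _ _ _ _ h7 h8 h9 h10⟩) A B hAB hBA hA hB
  have hη : ∀ x, 0 < ν.h (lab x).1.1 → (lab x).1.2 ∈ (a l).Kv p.q (ν.W (lab x).1.1 l) p.m :=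
    fun x hx => by
      have := (lab x).2
      rwa [Ac.Kn, if_pos hx] at this
  have e : 4 * c * k = c * (4 * k) := by ring
  refine ⟨J', i1, i2, fun x => (lab x).1.1, F₁.pull lab,
    fun t => ν.child a p l (fun x => (lab x).1.1) (fun x => (lab x).1.2) t.1 t.2.1 t.2.2, A', B',
    ⟨fun h => hF₁.symm h, fun h => hF₁.ball h⟩, fun t x g y h => ((hr _ _ _ _).1 h).1, h1,
    fun t => ⟨Nd.child_inv (F' := F₁.pull lab) (π := fun x => (lab x).1.1)
      (η := fun x => (lab x).1.2) hp hcδ hF hν hl (fun t x g y h => (hr _ _ _ _).1 h) hη t.1.2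
      (Nat.lt_succ_iff.1 t.2.1.2) _, rfl⟩, fun x hx => ?_, h2, h3, e ▸ h4, e ▸ h5, h6⟩
  obtain ⟨τ, hτ, κ, hκ, d, hd, h⟩ := Nd.child_cover (π := fun x => (lab x).1.1)
    (η := fun x => (lab x).1.2) hp hν (hη x hx)
  exact ⟨(⟨τ, hτ⟩, ⟨κ, Nat.lt_succ_of_le hκ⟩, ⟨d, hd⟩), h⟩

end Pool.Agent.MP_f7db47_al.TW

end

section

namespace Pool.Agent.MP_f7db47_al.TW

open GN

open Matrix

variable {R : Type v} [Ring R]

theorem tree (n β : ℕ) : ∃ kf Nf e : ℕ, ∀ (G : Type) [Group G] [MulSemiringAction G R] (ι : Type) [Fintype ι]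
    (P : ι → Pl) (bl : Bl G) (C cδ Rt X R₀ Mb Mf : ℕ) (a : ∀ l, Ac G bl C (P l) n) (Uf : ℕ → ℕ)
    (p : ℕ → Par), (∀ r, (p r).OK n C (Uf r) ∧ (p r).Rt = Rt ∧ (p r).X = X ∧
      (p r).U = Uf (r + 1)) → n * (C + 6) ≤ cδ → 0 < R₀ → 0 < Mb →
    (∀ r < β, ((2 * ((p r).q * C * (p r).m) + 1) ^ bl.s₀ ^ (p r).m + 1) ^ (n + 1) ≤ Mb) →
    (∀ (J N : Type) [Fintype J] [DecidableEq J] [Fintype N] (F : GN.FR G J) (ν : N → Nd P n β J)
      (A B : Matrix J J (SkewMonoidAlgebra R G)), F.Good bl → Fintype.card N ≤ Nf →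
      Fintype.card J ≤ Mf → (∀ i, (ν i).Inv a F Rt X cδ (Uf (ν i).r) ∧ ∀ l, (ν i).rk l = 0) →
      (∀ x, ∃ i, R₀ ≤ (ν i).h x) → A * B = 1 → B * A = 1 → Ctl (F.rel kf) id id A →
      Ctl (F.rel kf) id id B → T A) →
    ∀ (J : Type) [Fintype J] [DecidableEq J] (F : GN.FR G J) (ν : Nd P n β J)
      (A B : Matrix J J (SkewMonoidAlgebra R G)), F.Good bl → Fintype.card J * Mb ^ e ≤ Mf →
      ν.Inv a F Rt X cδ (Uf ν.r) → (∀ x, 2 ^ β * R₀ ≤ ν.h x) → A * B = 1 → B * A = 1 →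
      Ctl (F.rel 1) id id A → Ctl (F.rel 1) id id B → T A := by
  classical
  obtain ⟨c, hc, hstep⟩ := step (R := R) n
  refine ⟨c ^ NTree_cost (n * ((n + 1) * n)) β,
    1 + n * ((n + 1) * n) * NTree_cost (n * ((n + 1) * n)) β,
    NTree_cost (n * ((n + 1) * n)) β, ?_⟩
  intro G _ _ ι _ P bl C cδ Rt X R₀ Mb Mf a Uf p hp hcδ hR hMb hM H
  generalize hkf : c ^ NTree_cost (n * ((n + 1) * n)) β = kf at H
  generalize hNf : 1 + n * ((n + 1) * n) * NTree_cost (n * ((n + 1) * n)) β = Nf at H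
  have key : ∀ (s : ℕ) (J N : Type) [Fintype J] [DecidableEq J] [Fintype N] (F : GN.FR G J)
      (ν : N → Nd P n β J) (k : ℕ) (A B : Matrix J J (SkewMonoidAlgebra R G)), F.Good bl → 0 < k →
      ∑ i, NTree_cost (n * ((n + 1) * n)) (ν i).r ≤ s → k * c ^ s ≤ kf →
      Fintype.card N + n * ((n + 1) * n) * s ≤ Nf → Fintype.card J * Mb ^ s ≤ Mf →
      (∀ i, (ν i).Inv a F Rt X cδ (Uf (ν i).r)) → (∀ x, ∃ i, 2 ^ (ν i).r * R₀ ≤ (ν i).h x) →
      A * B = 1 → B * A = 1 → Ctl (F.rel k) id id A → Ctl (F.rel k) id id B → T A := by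
    intro s
    induction s using Nat.strong_induction_on with
    | _ s ih =>
    intro J N _ _ _ F ν k A B hF hk hs hkc hN hJ hI hcov hAB hBA hA hB
    by_cases h0 : ∀ i l, (ν i).rk l = 0
    · have hk' : k ≤ kf := (Nat.le_mul_of_pos_right k (pow_pos hc s)).trans hkc
      refine H J N F ν A B hF ((Nat.le_add_right _ _).trans hN)
        ((Nat.le_mul_of_pos_right _ (pow_pos hMb s)).trans hJ) (fun i => ⟨hI i, h0 i⟩)
        (fun x => ?_) hAB hBA (hA.le F hk') (hB.le F hk')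
      obtain ⟨i, hi⟩ := hcov x
      exact ⟨i, (Nat.le_mul_of_pos_left R₀ (pow_pos two_pos _)).trans hi⟩
    · push Not at h0
      obtain ⟨i, l, hl⟩ := h0
      have hl' : 0 < (ν i).rk l := Nat.pos_of_ne_zero hl
      have h1 : (ν i).rk l ≤ (ν i).r :=
        (Finset.single_le_sum (f := (ν i).rk) (fun _ _ => Nat.zero_le _)
          (Finset.mem_univ l)).trans (hI i).rks
      obtain ⟨r, hr⟩ : ∃ r, (ν i).r = r + 1 := ⟨(ν i).r - 1, by omega⟩
      have hrβ : r < β := by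
        have := (hI i).rle
        omega
      obtain ⟨hOK, hRt, hX, hU⟩ := hp r
      have hIi : (ν i).Inv a F (p r).Rt (p r).X cδ (p r).U := by
        rw [hRt, hX, hU, ← hr]
        exact hI i
      obtain ⟨J', _, _, π, F', ch, A', B', hF', hrel, hcard, hch, hcov', hAB', hBA', hA', hB',
        hT⟩ := hstep G ι P bl C β cδ (Uf r) a (p r) hOK hcδ J F hF (ν i) l hIi hl' k hk A B hAB
          hBA hA hB
      have hchr : ∀ c, (ch c).r = r := fun c => by rw [(hch c).2, hr, Nat.add_sub_cancel]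
      rw [Fintype.sum_eq_add_sum_subtype_ne _ i, hr] at hs
      have hcost : NTree_cost (n * ((n + 1) * n)) (r + 1) =
          1 + n * ((n + 1) * n) * NTree_cost (n * ((n + 1) * n)) r := rfl
      rw [hcost] at hs
      obtain ⟨s', rfl⟩ : ∃ s', s = s' + 1 := ⟨s - 1, by omega⟩
      refine hT (ih s' (Nat.lt_succ_self s') J' ({i' // i' ≠ i} ⊕ Fin n × Fin (n + 1) × Fin n) F'
        (Sum.elim (fun i' => (ν i'.1).pull π) ch) (c * k) A' B' hF' (Nat.mul_pos hc hk) ?_ ?_ ?_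
        ?_ ?_ ?_ hAB' hBA' hA' hB')
      · rw [Fintype.sum_sum_type]
        simp only [Sum.elim_inl, Sum.elim_inr, hchr, Finset.sum_const, Finset.card_univ,
          Fintype.card_prod, Fintype.card_fin, smul_eq_mul]
        have e : ∑ i' : {i' // i' ≠ i}, NTree_cost (n * ((n + 1) * n)) ((ν i'.1).pull π).r =
            ∑ i' : {i' // i' ≠ i}, NTree_cost (n * ((n + 1) * n)) (ν i'.1).r := rfl
        rw [e]
        omega
      · calc c * k * c ^ s' = k * c ^ (s' + 1) := by ring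
          _ ≤ kf := hkc
      · have e : Fintype.card {i' // i' ≠ i} ≤ Fintype.card N := Fintype.card_subtype_le _
        rw [Fintype.card_sum, Fintype.card_prod, Fintype.card_prod, Fintype.card_fin,
          Fintype.card_fin]
        rw [Nat.mul_succ] at hN
        omega
      · calc Fintype.card J' * Mb ^ s' ≤ Fintype.card J * Mb * Mb ^ s' :=
              Nat.mul_le_mul_right _ (hcard.trans (Nat.mul_le_mul_left _ (hM r hrβ)))
          _ = Fintype.card J * Mb ^ (s' + 1) := by ring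
          _ ≤ Mf := hJ
      · rintro (i' | c')
        · exact (hI i'.1).pull hrel
        · have h2 := (hch c').1
          rw [hRt, hX] at h2
          simp only [Sum.elim_inr, hchr]
          exact h2
      · intro x
        obtain ⟨j, hj⟩ := hcov (π x)
        by_cases hji : j = i
        · subst hji
          rw [hr, pow_succ] at hj
          have hpos : 0 < 2 ^ r * R₀ := Nat.mul_pos (pow_pos two_pos r) hR
          have e : 2 ^ r * 2 * R₀ = 2 * (2 ^ r * R₀) := by ring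
          obtain ⟨c', hc'⟩ := hcov' x (by omega)
          refine ⟨Sum.inr c', ?_⟩
          simp only [Sum.elim_inr, hchr]
          omega
        · exact ⟨Sum.inl ⟨j, hji⟩, hj⟩
  intro J _ _ F ν A B hF hJ hI hcov hAB hBA hA hB
  refine key (NTree_cost (n * ((n + 1) * n)) β) J Unit F (fun _ => ν) 1 A B hF one_pos ?_ ?_ ?_
    hJ (fun _ => hI) (fun x => ⟨(), ?_⟩) hAB hBA hA hB
  · rw [Fintype.sum_unique]
    exact NTree_mono _ hI.rle
  · rw [one_mul, hkf]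
  · rw [Fintype.card_unit, hNf]
  · exact (Nat.mul_le_mul_right _ (Nat.pow_le_pow_right two_pos hI.rle)).trans (hcov x)

end Pool.Agent.MP_f7db47_al.TW

end

section

namespace Pool.Agent.MP_f7db47_al.TW

open GZ

open Matrix GN GN.Pl

variable {R : Type v} [Ring R]

theorem fin_step2 [NR R] (h1 : QQ R PUnit.{1}) (β d Nf k cδ : ℕ) : ∃ R₀ : ℕ, 0 < R₀ ∧ ∀ c : ℕ, ∃ X : ℕ,
    ∀ (G : Type) [Group G] [MulSemiringAction G R] (ι : Type) [Fintype ι] (P : ι → Pl) (n : ℕ) (bl : Bl G) (C Rt : ℕ)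
    (a : ∀ l, Ac G bl C (P l) n) (Uf : ℕ → ℕ),
    Nice G (fun g => ∀ l, ∃ Y, Lat Y ∧ ac ((a l).ρ g) Y = Y) (fun H => QQ R H) d →
    ∀ (J N : Type) [Fintype J] [DecidableEq J] [Fintype N] (F : GN.FR G J) (ν : N → Nd P n β J)
      (A B : Matrix J J (SkewMonoidAlgebra R G)), F.Good bl → Fintype.card N ≤ Nf →
      Fintype.card J ≤ 2 ^ 2 ^ (c * (X + 1)) →
      (∀ i, (ν i).Inv a F Rt X cδ (Uf (ν i).r) ∧ ∀ l, (ν i).rk l = 0) →
      (∀ x, ∃ i, R₀ ≤ (ν i).h x) → A * B = 1 → B * A = 1 → Ctl (F.rel k) id id A →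
      Ctl (F.rel k) id id B → T A := by
  obtain ⟨r, hr⟩ := vanish h1 (Nf * ((d + 1) * (9 ^ β + 1))) (2 * k + 1)
  refine ⟨2 * r + 1, by omega, fun c => ?_⟩
  obtain ⟨X, hX⟩ := win2 β d (cδ * (k + 1)) r c
  refine ⟨X, ?_⟩
  intro G _ _ ι _ P n bl C Rt a Uf hQ J N _ _ _ F ν A B hF hN hJ hν hcov hAB hBA hA hB
  let _ := NFin2_act P n fun l => (a l).ρ
  have hW : ∀ i j l, 0 < (ν i).h j → ∀ e, sc e (La ((ν i).W j l)) = ⊥ := fun i j l hj e =>
    NFin_bot (((hν i).1.rank j l hj).trans ((hν i).2 l)) e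
  have hS := fun i => hX G (∀ l, (P l).L n) J _ _ hQ hJ (ν i).Z (fun j => 0 < (ν i).h j) (by
    intro j hj v hv g hγ l
    refine ⟨(ν i).Z j v l, ?_, congrFun hγ l⟩
    obtain ⟨e, h2, h3⟩ := (hν i).1.lat j v l hj hv
    rw [hW i j l hj, sup_bot_eq] at h2
    exact ⟨e, h2, h3⟩)
  choose S hS1 hS2 hS3 using hS
  let S' : N × Fin (d + 1) × Fin (9 ^ β + 1) → Spi G J := fun x =>
    ⟨(S x.1 x.2).leg, fun j => min ((ν x.1).h j / 2) ((S x.1 x.2).ht j)⟩
  have key : ∀ x g y, F.rel k x g y → ∀ i, (S' i).rel (2 * k + 1) x g y := by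
    rintro x g y hxy ⟨i, q⟩
    have l1 := (hν i).1.lip hxy
    have l2 := (hν i).1.lip (hF.symm hxy)
    by_cases hc : k < (ν i).h x ∧ k < (ν i).h y
    · obtain ⟨δ, hδ, -, hu⟩ := (hν i).1.close hxy hc.1 hc.2
      obtain ⟨b1, b2, b3⟩ := hS3 i x y g δ hδ (fun v hv hv' => by
          funext l
          obtain ⟨u, -, hu'⟩ := hu l
          have h2 := hu' v hv hv' ⊥ (hW i x l (by omega) _).le bot_le
          rw [map_bot, bot_sup_eq, bot_sup_eq] at h2
          exact h2) q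
      refine ⟨?_, ?_, fun hl => ?_⟩
      · simp only [S']
        omega
      · simp only [S']
        omega
      · have := b3 hl
        simp only [S']
        omega
    · refine ⟨?_, ?_, fun _ => ?_⟩ <;> simp only [S'] <;> omega
  refine hr G J (N × Fin (d + 1) × Fin (9 ^ β + 1)) S' ?_ ?_ ?_ A B hAB hBA (hA.mono key)
    (hB.mono key)
  · rw [Fintype.card_prod, Fintype.card_prod, Fintype.card_fin, Fintype.card_fin]
    exact Nat.mul_le_mul_right _ hN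
  · rintro ⟨i, q⟩ j hj
    simp only [S'] at hj
    exact hS2 i q j (by omega) (by omega)
  · intro j
    obtain ⟨i, hi⟩ := hcov j
    obtain ⟨q, hq⟩ := hS1 i j
    refine ⟨(i, q), ?_⟩
    simp only [S']
    omega

end Pool.Agent.MP_f7db47_al.TW

end

section

namespace Pool.Agent.MP_f7db47_al.TW

open GZ

open Matrix GN GN.Pl

variable {R : Type v} [Ring R]

theorem g1_nice [NR R] {G : Type} [Group G] [MulSemiringAction G R] {ι : Type} [Fintype ι] (P : ι → Pl) (n : ℕ)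
    (ρ : ∀ l, G →* (P l).A n) (h0 : QQ R PUnit.{1}) {d : ℕ}
    (hN : Nice G (fun g => ∀ l, ∃ Y, Lat Y ∧ ac (ρ l g) Y = Y) (fun H => QQ R H) d) :
    G1 R G := by
  classical
  intro J _ _ A B h1 h2
  obtain ⟨sA, hA, -⟩ := exists_finset_msup A
  obtain ⟨sB, hB, -⟩ := exists_finset_msup B
  obtain ⟨bl, C, a, hS, ha⟩ := exists_bl (sA ∪ sB) P n ρ
  let F : GN.FR G J := ⟨fun t _ g _ => g ∈ bl.B t, fun _ => bl.one, bl.mono, bl.mul⟩
  obtain ⟨kf, Nf, e, ht⟩ := tree (R := R) n (Fintype.card ι * n)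
  obtain ⟨R₀, hR, hf⟩ := fin_step2 h0 (Fintype.card ι * n) d Nf kf (n * (C + 6))
  obtain ⟨c, hc⟩ := exists_pars n C (2 ^ (Fintype.card ι * n) * R₀) (Fintype.card ι * n) bl.s₀
  obtain ⟨c', hc'⟩ := exists_exp (Fintype.card J) c e
  obtain ⟨X, hX⟩ := hf c'
  obtain ⟨Uf, p, hp, hq⟩ := hc X
  exact ht G ι P bl C _ _ X R₀ _ _ a Uf p hp le_rfl hR (by positivity) hq
    (hX G ι P n bl C _ a Uf (by simpa only [ha] using hN))
    J F ⟨Fintype.card ι * n, fun _ => n, fun _ => 0, fun _ => _, fun _ _ => ⊤, fun _ _ _ => ⊥⟩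
    A B ⟨bl.inv, id⟩ (hc' X) (Nd.root_inv a F _ X _ _) (fun _ => le_rfl) h1 h2
    (fun i j g hg => hS (Finset.mem_union_left _ (hA i j g hg)))
    fun i j g hg => hS (Finset.mem_union_right _ (hB i j g hg))

theorem qq_lat2 [NR R] {G : Type} [Group G] [MulSemiringAction G R] {ι : Type} [Fintype ι] (P : ι → Pl) (n : ℕ)
    (ρ : ∀ l, G →* (P l).A n) {F κ : Type} [Field F] [Fintype κ] [DecidableEq κ]
    (k : Subfield F) (f : G →* Matrix κ κ F)
    (hE : ∀ g : G, (∀ l, ∃ Y, Lat Y ∧ ac (ρ l g) Y = Y) → (f g).trace ∈ k)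
    (hH : ∀ H : Subgroup G, (∀ g ∈ ⁅H, H⁆, (f g).trace ∈ k) → QQ R H) : QQ R G := by
  intro Q _ hQ Δ _ _ φ _ hφ
  let p : Δ →* G := (MonoidHom.fst _ _).comp φ
  have h0 : QQ R PUnit.{1} := qq_punit (hH ⊥ (by
    intro g hg
    rw [Subgroup.commutator_bot_left, Subgroup.mem_bot] at hg
    rw [hg, map_one, trace_one]
    exact natCast_mem k _))
  refine g1_nice P n (fun l => (ρ l).comp p) h0 (d := Fintype.card κ * Fintype.card κ)
    ⟨fun K => Module.finrank F (spn (f.comp p) K), finrank_spn_bound _,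
      fun s h => finrank_spn_le _ h,
      fun h hq => hq.sub (Subgroup.inclusion h) (Subgroup.inclusion_injective h),
      fun K K' S h1 h2 h3 h4 h5 h6 => ?_⟩
  refine qq_of_le' hQ φ hφ ((Subgroup.closure S).map p) (hH _ ?_) _ fun x hx => ⟨x, hx, rfl⟩
  rw [← Subgroup.map_commutator]
  rintro _ ⟨g, hg, rfl⟩
  exact trace_commutator k (f.comp p) h1 h3 (fun x hx => hE (p x) (h2 x hx)) h4 h5 h6 g hg

end Pool.Agent.MP_f7db47_al.TW

end

section

namespace Pool.Agent.MP_f7db47_al.TW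

open GZ

open Matrix GN GN.Pl

theorem qq_glnF {R : Type v} [Ring R] [NR R] {G : Type} [Group G] [MulSemiringAction G R] {K : Type} [Field K] [CharZero K]
    {n : ℕ} (f : G →* GL (Fin n) K)
    (h : ∀ H : Subgroup G, (∀ g ∈ ⁅H, H⁆, IsAlgebraic ℤ (f g).val.trace) → QQ R H) :
    QQ R G := by
  refine qq_loc fun M hM => ?_
  obtain ⟨A₀, f₀, hA, hf⟩ := exists_fg_subring ((Group.fg_iff_subgroup_fg M).2 hM) K n
    (f.comp M.subtype)
  obtain ⟨ι, _, P, ρ, hρ⟩ := glnF_places A₀ hA n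
  have hk : ∀ x : K, x ∈ (algebraicClosure ℚ K).toSubfield ↔ IsAlgebraic ℤ x := fun x =>
    (mem_algebraicClosure_iff (F := ℚ)).trans (IsFractionRing.isAlgebraic_iff ℤ ℚ K).symm
  refine qq_lat2 P n (fun l => (ρ l).comp f₀) (algebraicClosure ℚ K).toSubfield
    ((Units.coeHom _).comp (f.comp M.subtype)) (fun g hg => (hk _).2 ?_) fun H hH => ?_
  · have h1 := (hρ (f₀ g) hg).algHom A₀.subtype.toIntAlgHom
    have h2 : A₀.subtype (f₀ g).val.trace = (f g).val.trace := by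
      rw [AddMonoidHom.map_trace A₀.subtype]
      exact congrArg (fun u : GL (Fin n) K => u.val.trace) (hf g)
    exact h2 ▸ h1
  · refine (h (H.map M.subtype) ?_).sub' (H.equivMapOfInjective _ M.subtype_injective).toMonoidHom
      (fun _ _ => rfl) (MulEquiv.injective _)
    rw [← Subgroup.map_commutator]
    rintro _ ⟨g, hg, rfl⟩
    exact (hk _).1 (hH g hg)

end Pool.Agent.MP_f7db47_al.TW

end
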