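import Pool.Agent.Mg.Ff7db47.Gff0e1c

section

/-!
Spaces of norms: basic facts.
-/

set_option linter.unusedSectionVars false

namespace Pool.Agent.MP_f7db47_al.GF

open Matrix

namespace Plc

variable {ι : Type} [Fintype ι] [DecidableEq ι] {P : Plc ι}

theorem ω_single (i : ι) {x : ℝ} (hx : 0 ≤ x) : P.ω (Pi.single i x) = x := by
  have h0 : (0 : ι → ℝ) ≤ Pi.single i x := Pi.single_nonneg.2 hx
  refine le_antisymm ((P.ω_le h0).trans_eq (by simp)) ?_
  simpa using P.le_ω i h0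

theorem nrm_add_const (g : GL ι P.k) (a : ι → ℝ) (r : ℝ) (u : ι → P.k) :
    P.nrm g (fun i => a i + r) u = P.b ^ r * P.nrm g a u := by
  rw [nrm, nrm, ← P.ω_smul (Real.rpow_nonneg b_pos.le _) (co_nonneg g a u)]
  congr 1
  funext i
  rw [Pi.smul_apply, smul_eq_mul, Real.rpow_add b_pos]
  ring

theorem nrm_mono (g : GL ι P.k) {a c : ι → ℝ} (h : a ≤ c) (u : ι → P.k) :
    P.nrm g a u ≤ P.nrm g c u := by
  exact P.ω_mono (co_nonneg g a u) fun i => mul_le_mul_of_nonneg_left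
    (Real.rpow_le_rpow_of_exponent_le P.hb.le (h i)) (norm_nonneg _)

theorem nrm_mul (g h : GL ι P.k) (a : ι → ℝ) (u : ι → P.k) :
    P.nrm (g * h) a u = P.nrm g a (h.val *ᵥ u) := by
  simp only [nrm, Units.val_mul, mulVec_mulVec]

theorem nrm_dual (g : GL ι P.k) (a : ι → ℝ) (i : ι) :
    P.nrm g a ((g⁻¹).val *ᵥ Pi.single i 1) = P.b ^ a i := by
  rw [← nrm_mul, mul_inv_cancel, nrm, ← ω_single (P := P) i (Real.rpow_nonneg b_pos.le (a i))]
  congr 1
  funext l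
  by_cases e : l = i
  · simp [e]
  · simp [e]

theorem nrm_add (g : GL ι P.k) (a : ι → ℝ) (u v : ι → P.k) :
    P.nrm g a (u + v) ≤ P.nrm g a u + P.nrm g a v := by
  refine le_trans (P.ω_mono (co_nonneg g a _) fun i => ?_)
    (P.ω_add (co_nonneg g a u) (co_nonneg g a v))
  simp only [Pi.add_apply, mulVec_add, ← add_mul]
  exact mul_le_mul_of_nonneg_right (norm_add_le _ _) (Real.rpow_nonneg b_pos.le _)

theorem nrm_smul (g : GL ι P.k) (a : ι → ℝ) (d : P.k) (u : ι → P.k) :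
    P.nrm g a (d • u) = ‖d‖ * P.nrm g a u := by
  rw [nrm, nrm, ← P.ω_smul (norm_nonneg _) (co_nonneg g a u)]
  congr 1
  funext i
  rw [mulVec_smul, Pi.smul_apply, Pi.smul_apply, smul_eq_mul, smul_eq_mul, norm_mul, mul_assoc]

theorem nrm_cont (g : GL ι P.k) (a : ι → ℝ) : Continuous (P.nrm g a) := by
  let S : (ι → P.k) → ℝ := fun u => ∑ i, ‖(g.val *ᵥ u) i‖ * P.b ^ a i
  have h1 : ∀ u v, P.nrm g a u ≤ S (u - v) + P.nrm g a v := fun u v => by
    have h2 := nrm_add g a (u - v) v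
    rw [sub_add_cancel] at h2
    exact h2.trans (add_le_add_left (P.ω_le (co_nonneg g a _)) _)
  have h2 : Continuous S := by
    simp only [S, mulVec, dotProduct]
    fun_prop
  have h3 : S 0 = 0 := by simp [S]
  refine continuous_iff_continuousAt.2 fun v => ?_
  refine tendsto_of_tendsto_of_tendsto_of_le_of_le (g := fun u => P.nrm g a v - S (v - u))
    (h := fun u => S (u - v) + P.nrm g a v) (Continuous.tendsto' (by fun_prop) _ _ ?_)
    (Continuous.tendsto' (by fun_prop) _ _ ?_) (fun u => sub_le_iff_le_add'.2 (h1 v u))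
    fun u => h1 u v
  · rw [sub_self, h3, sub_zero]
  · rw [sub_self, h3, zero_add]

theorem nrm_le_iff (g : GL ι P.k) (a c : ι → ℝ) (r : ℝ) :
    P.Le r (P.nrm g a) (P.nrm g c) ↔ ∀ i, a i ≤ c i + r := by
  refine ⟨fun h i => ?_, fun h u => ?_⟩
  · have h1 := h ((g⁻¹).val *ᵥ Pi.single i 1)
    rwa [nrm_dual, nrm_dual, ← Real.rpow_add b_pos, Real.rpow_le_rpow_left_iff P.hb,
      add_comm] at h1
  · rw [← nrm_add_const]
    exact nrm_mono g h u

theorem PBase_conv (hI : P.Interp) {g h : GL ι P.k} {a w c v : ι → ℝ} {l d₀ d₁ : ℝ} (h0 : 0 ≤ l)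
    (h1 : l ≤ 1) (e0 : P.Le d₀ (P.nrm g (a + (0 : ℝ) • w)) (P.nrm h (c + (0 : ℝ) • v)))
    (e1 : P.Le d₁ (P.nrm g (a + (1 : ℝ) • w)) (P.nrm h (c + (1 : ℝ) • v))) :
    P.Le ((1 - l) * d₀ + l * d₁) (P.nrm g (a + l • w)) (P.nrm h (c + l • v)) := fun u => by
  have h2 := hI g h _ _ _ _ l h0 h1 (fun u => (e0 u).trans_eq (nrm_add_const _ _ _ _).symm)
    (fun u => (e1 u).trans_eq (nrm_add_const _ _ _ _).symm) u
  rw [← nrm_add_const]
  convert h2 using 2
  · module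
  · funext i
    simp only [Pi.add_apply, Pi.smul_apply, smul_eq_mul]
    ring

theorem geo (hJ : P.Join) (hI : P.Interp) : P.sp.Geo := by
  refine ⟨?_, fun x y => ?_, ?_⟩
  · rintro c ⟨g, a, w, h⟩ al s
    refine ⟨g, a + s • w, al • w, fun t => (h _).trans (congrArg _ ?_)⟩
    module
  · obtain ⟨g, a, c, hx, hy⟩ := hJ x y
    refine ⟨fun t => ⟨P.nrm g (a + t • (c - a)), g, _, rfl⟩, ⟨g, a, c - a, fun _ => rfl⟩,
      Subtype.ext ?_, Subtype.ext ?_⟩
    · rw [hx]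
      simp
    · rw [hy]
      simp
  · rintro c ⟨g, a, w, h⟩ c' ⟨g', a', w', h'⟩ l h0 h1
    have e0 := (dist_le_iff (P := P) (x := c 0) (y := c' 0) dist_nonneg).1 le_rfl
    have e1 := (dist_le_iff (P := P) (x := c 1) (y := c' 1) dist_nonneg).1 le_rfl
    refine (dist_le_iff (P := P) (x := c l) (y := c' l) (add_nonneg
      (mul_nonneg (sub_nonneg.2 h1) dist_nonneg) (mul_nonneg h0 dist_nonneg))).2 ?_
    rw [h, h'] at e0 e1 ⊢
    exact ⟨PBase_conv hI h0 h1 e0.1 e1.1, PBase_conv hI h0 h1 e0.2 e1.2⟩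

/-- The action of rational matrices and of scalings on the norms. -/
@[reducible] noncomputable def PBase_act (j : ℚ →+* P.k) :
    MulAction (GL ι ℚ × Multiplicative ℤ) P.X where
  smul γ x := ⟨fun u => P.b ^ ((γ.2.toAdd : ℤ) : ℝ) *
      x.1 ((GeneralLinearGroup.map j γ.1)⁻¹.val *ᵥ u), by
    obtain ⟨g, a, h⟩ := x.2
    exact ⟨g * (GeneralLinearGroup.map j γ.1)⁻¹, fun i => a i + (γ.2.toAdd : ℤ),
      funext fun u => by rw [nrm_add_const, nrm_mul, h]⟩⟩
  one_smul x := Subtype.ext <| funext fun u => by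
    change P.b ^ _ * x.1 _ = _
    simp
  mul_smul γ δ x := Subtype.ext <| funext fun u => by
    change P.b ^ _ * x.1 _ = P.b ^ _ * (P.b ^ _ * x.1 _)
    rw [Prod.fst_mul, Prod.snd_mul, toAdd_mul, map_mul, _root_.mul_inv_rev, Units.val_mul,
      Int.cast_add, Real.rpow_add b_pos, mul_assoc, mulVec_mulVec]

theorem nsp (hg : P.sp.Good) (j : ℚ →+* P.k) (hj : DenseRange j) :
    Nonempty (NSp ι (fun a => ‖j a‖) P.b) := by
  have hd : ∀ (r : ℝ) (x y : P.X), (∀ u : ι → ℚ, x.1 (j ∘ u) ≤ P.b ^ r * y.1 (j ∘ u)) →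
      P.Le r x.1 y.1 := by
    rintro r ⟨_, g, a, rfl⟩ ⟨_, h, c, rfl⟩ H u
    exact (DenseRange.piMap fun _ : ι => hj).induction_on u
      (isClosed_le (nrm_cont g a) (continuous_const.mul (nrm_cont h c))) H
  have ho : ∀ u : ι → ℚ, (fun i => ‖((1 : GL ι P.k).val *ᵥ (j ∘ u)) i‖ * P.b ^ (0 : ι → ℝ) i) =
      fun i => ‖j (u i)‖ := fun u => by
    funext i
    simp
  let _ := PBase_act j
  refine ⟨⟨P.sp, hg, fun x u => x.1 (j ∘ u), MulAction.toPermHom _ P.X, ?_, fun γ x u => ?_,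
    fun x y r hr => (dist_le_iff hr).trans ⟨fun h u => ⟨h.1 _, h.2 _⟩, fun h =>
      ⟨hd r x y fun u => (h u).1, hd r y x fun u => (h u).2⟩⟩, ?_, ?_, fun u i => ?_,
    fun u => ?_⟩⟩
  · rintro γ c ⟨g, a, w, h⟩
    refine ⟨g * (GeneralLinearGroup.map j γ.1)⁻¹, fun i => a i + (γ.2.toAdd : ℤ), w,
      fun t => funext fun u => ?_⟩
    change P.b ^ _ * (c t).1 _ = _
    rw [h, nrm_mul, ← nrm_add_const]
    congr 1
    funext i
    simp only [Pi.add_apply]
    ring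
  · have e : j ∘ (γ.1.val *ᵥ u) = (GeneralLinearGroup.map j γ.1).val *ᵥ (j ∘ u) :=
      funext fun i => RingHom.map_mulVec j _ u i
    change P.b ^ _ * x.1 (_ *ᵥ _) = _
    rw [e, mulVec_mulVec, Units.inv_mul, one_mulVec]
  · rintro ⟨_, g, a, rfl⟩ u u'
    exact (congrArg (P.nrm g a) (funext fun i => map_add j (u i) (u' i))).trans_le
      (nrm_add g a (j ∘ u) (j ∘ u'))
  · rintro ⟨_, g, a, rfl⟩ d u
    exact (congrArg (P.nrm g a) (funext fun i => map_mul j d (u i))).trans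
      (nrm_smul g a (j d) (j ∘ u))
  · exact (congrFun (ho u) i).symm.trans_le (P.le_ω i (co_nonneg 1 0 (j ∘ u)))
  · exact (P.ω_le (co_nonneg 1 0 (j ∘ u))).trans_eq
      (Finset.sum_congr rfl fun i _ => congrFun (ho u) i)

end Plc

end Pool.Agent.MP_f7db47_al.GF

end

section

/-!
Parametrisation of the lines in a space of norms.
-/

namespace Pool.Agent.MP_f7db47_al.GF

open Matrix Metric

section

variable {ι : Type} [Fintype ι] [DecidableEq ι] {P : Plc ι}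

open Classical in
/-- The invertible matrix given by a pair of mutually inverse arrays. -/
noncomputable def PPar_unit (q : (ι → ι → P.k) × (ι → ι → P.k)) : GL ι P.k :=
  if h : Matrix.of q.1 * Matrix.of q.2 = 1 then
    ⟨Matrix.of q.1, Matrix.of q.2, h, mul_eq_one_comm.1 h⟩ else 1

theorem PPar_unit_val {q : (ι → ι → P.k) × (ι → ι → P.k)}
    (h : Matrix.of q.1 * Matrix.of q.2 = 1) :
    (PPar_unit q).val = Matrix.of q.1 ∧ ((PPar_unit q)⁻¹).val = Matrix.of q.2 := by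
  rw [PPar_unit, dif_pos h]
  exact ⟨rfl, rfl⟩

theorem PPar_chg (g h : GL ι P.k) (c : ι → ℝ) {T δ : ℝ} (hc : ∀ i, |c i| ≤ T) (hδ : 0 ≤ δ)
    (hM : ∀ i j, ‖((g.val - h.val) * (h⁻¹).val) i j‖ ≤ δ) :
    P.Le ((Fintype.card ι : ℝ) ^ 2 * δ * P.b ^ (2 * T) / Real.log P.b)
      (P.nrm g c) (P.nrm h c) := fun u => by
  have hb := Plc.b_pos (P := P)
  have hL : 0 < Real.log P.b := Real.log_pos P.hb
  set N := P.nrm h c u with hN
  have hN0 : 0 ≤ N := Plc.nrm_nonneg h c u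
  set M := (g.val - h.val) * (h⁻¹).val with hMd
  have e : g.val *ᵥ u = h.val *ᵥ u + M *ᵥ (h.val *ᵥ u) := by
    rw [hMd, mulVec_mulVec, mul_assoc, Units.inv_mul, mul_one, sub_mulVec]
    abel
  have hT : ∀ i, P.b ^ c i ≤ P.b ^ T := fun i =>
    Real.rpow_le_rpow_of_exponent_le P.hb.le ((le_abs_self _).trans (hc i))
  have hv : ∀ j, ‖(h.val *ᵥ u) j‖ ≤ N * P.b ^ T := fun j => by
    have h1 : ‖(h.val *ᵥ u) j‖ * P.b ^ c j ≤ N := P.le_ω j (Plc.co_nonneg h c u)
    have h2 : 1 ≤ P.b ^ c j * P.b ^ T := by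
      rw [← Real.rpow_add hb]
      exact Real.one_le_rpow P.hb.le (by linarith [neg_abs_le (c j), hc j])
    calc ‖(h.val *ᵥ u) j‖ ≤ ‖(h.val *ᵥ u) j‖ * (P.b ^ c j * P.b ^ T) :=
          le_mul_of_one_le_right (norm_nonneg _) h2
      _ = ‖(h.val *ᵥ u) j‖ * P.b ^ c j * P.b ^ T := by ring
      _ ≤ _ := mul_le_mul_of_nonneg_right h1 (by positivity)
  set y : ℝ := Fintype.card ι * (δ * (N * P.b ^ T)) * P.b ^ T with hy
  have hy0 : 0 ≤ y := by positivity
  have h3 : (fun i => ‖(g.val *ᵥ u) i‖ * P.b ^ c i) ≤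
      (fun i => ‖(h.val *ᵥ u) i‖ * P.b ^ c i) + fun _ => y := fun i => by
    have h4 : ‖(M *ᵥ (h.val *ᵥ u)) i‖ ≤ Fintype.card ι * (δ * (N * P.b ^ T)) := by
      refine (norm_sum_le _ _).trans ?_
      refine (Finset.sum_le_card_nsmul _ _ (δ * (N * P.b ^ T)) fun j _ => ?_).trans ?_
      · rw [norm_mul]
        exact mul_le_mul (hM i j) (hv j) (norm_nonneg _) hδ
      · simp
    have h5 : ‖(g.val *ᵥ u) i‖ ≤ ‖(h.val *ᵥ u) i‖ + ‖(M *ᵥ (h.val *ᵥ u)) i‖ := by
      rw [e]; exact norm_add_le _ _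
    have h6 : ‖(M *ᵥ (h.val *ᵥ u)) i‖ * P.b ^ c i ≤ y :=
      mul_le_mul h4 (hT i) (by positivity) (by positivity)
    have h7 : 0 ≤ P.b ^ c i := by positivity
    simp only [Pi.add_apply]
    nlinarith [mul_le_mul_of_nonneg_right h5 h7]
  have h8 : P.nrm g c u ≤ N + Fintype.card ι * y := by
    refine (P.ω_mono (Plc.co_nonneg g c u) h3).trans ?_
    refine (P.ω_add (Plc.co_nonneg h c u) fun _ => hy0).trans ?_
    refine add_le_add le_rfl ((P.ω_le fun _ => hy0).trans ?_)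
    simp
  have h9 : P.b ^ (2 * T) = P.b ^ T * P.b ^ T := by rw [← Real.rpow_add hb]; ring_nf
  set z : ℝ := (Fintype.card ι : ℝ) ^ 2 * δ * P.b ^ (2 * T) with hz
  have h10 : P.b ^ (z / Real.log P.b) = Real.exp z := by
    rw [Real.rpow_def_of_pos hb, mul_div_cancel₀ _ hL.ne']
  rw [h10]
  calc P.nrm g c u ≤ N + Fintype.card ι * y := h8
    _ = (z + 1) * N := by rw [hz, hy, h9]; ring
    _ ≤ _ := mul_le_mul_of_nonneg_right (Real.add_one_le_exp z) hN0

/-- The space of parameters. -/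
abbrev PPar_Q (P : Plc ι) : Type := ((ι → ι → P.k) × (ι → ι → P.k)) × ((ι → ℝ) × (ι → ℝ))

/-- The compact box of parameters. -/
def PPar_box (P : Plc ι) (B : ℝ) : Set (PPar_Q P) :=
  ((Set.univ.pi fun _ => Set.univ.pi fun _ => closedBall 0 B) ×ˢ
    (Set.univ.pi fun _ => Set.univ.pi fun _ => closedBall 0 B)) ×ˢ
  ((Set.univ.pi fun _ => closedBall 0 1) ×ˢ (Set.univ.pi fun _ => closedBall 0 1))

omit [DecidableEq ι] in
theorem PPar_mem_box {B : ℝ} {p : PPar_Q P} : p ∈ PPar_box P B ↔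
    ((∀ i j, ‖p.1.1 i j‖ ≤ B) ∧ ∀ i j, ‖p.1.2 i j‖ ≤ B) ∧
      (∀ i, |p.2.1 i| ≤ 1) ∧ ∀ i, |p.2.2 i| ≤ 1 := by
  simp [PPar_box, Set.mem_pi]

/-- The line given by a parameter. -/
noncomputable def PPar_pi (p : PPar_Q P) (t : ℝ) : P.X :=
  ⟨P.nrm (PPar_unit p.1) (p.2.1 + t • p.2.2), _, _, rfl⟩

theorem PPar_lip {B : ℝ} (hB : 0 ≤ B) {p q : PPar_Q P} (hq : q ∈ PPar_box P B)
    (hp1 : Matrix.of p.1.1 * Matrix.of p.1.2 = 1) (hq1 : Matrix.of q.1.1 * Matrix.of q.1.2 = 1)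
    (t : ℝ) :
    P.Le ((1 + (Fintype.card ι : ℝ) ^ 3 * B * P.b ^ (2 : ℝ) / Real.log P.b) * dist p q *
      Real.exp ((2 * Real.log P.b + 1) * |t|)) (PPar_pi p t).1 (PPar_pi q t).1 := by
  have hb := Plc.b_pos (P := P)
  have hL : 0 < Real.log P.b := Real.log_pos P.hb
  obtain ⟨⟨-, hq2⟩, hq3, hq4⟩ := PPar_mem_box.1 hq
  have hd : 0 ≤ dist p q := dist_nonneg
  have ha : ∀ i, |p.2.1 i - q.2.1 i| ≤ dist p q := fun i => by
    rw [← Real.dist_eq]
    exact (dist_le_pi_dist _ _ i).trans ((le_max_left _ _).trans (le_max_right _ _))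
  have hw : ∀ i, |p.2.2 i - q.2.2 i| ≤ dist p q := fun i => by
    rw [← Real.dist_eq]
    exact (dist_le_pi_dist _ _ i).trans ((le_max_right _ _).trans (le_max_right _ _))
  have hg : ∀ i j, ‖p.1.1 i j - q.1.1 i j‖ ≤ dist p q := fun i j => by
    rw [← dist_eq_norm]
    exact (dist_le_pi_dist _ _ j).trans ((dist_le_pi_dist _ _ i).trans
      ((le_max_left _ _).trans (le_max_left _ _)))
  have h1 : P.Le (dist p q * (1 + |t|)) (P.nrm (PPar_unit p.1) (p.2.1 + t • p.2.2))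
      (P.nrm (PPar_unit p.1) (q.2.1 + t • q.2.2)) := by
    refine (Plc.nrm_le_iff _ _ _ _).2 fun i => ?_
    have h2 : t * (p.2.2 i - q.2.2 i) ≤ |t| * dist p q := by
      refine (le_abs_self _).trans ?_
      rw [abs_mul]
      exact mul_le_mul_of_nonneg_left (hw i) (abs_nonneg t)
    have h3 := (le_abs_self _).trans (ha i)
    simp only [Pi.add_apply, Pi.smul_apply, smul_eq_mul]
    nlinarith
  have h2 := PPar_chg (PPar_unit p.1) (PPar_unit q.1) (q.2.1 + t • q.2.2) (T := 1 + |t|)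
    (δ := Fintype.card ι * (dist p q * B)) (fun i => by
      simp only [Pi.add_apply, Pi.smul_apply, smul_eq_mul]
      refine (abs_add_le _ _).trans (add_le_add (hq3 i) ?_)
      rw [abs_mul]
      exact mul_le_of_le_one_right (abs_nonneg t) (hq4 i)) (by positivity) (fun i j => by
      rw [(PPar_unit_val hp1).1, (PPar_unit_val hq1).1, (PPar_unit_val hq1).2, mul_apply]
      refine (norm_sum_le _ _).trans ?_
      refine (Finset.sum_le_card_nsmul _ _ (dist p q * B) fun l _ => ?_).trans ?_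
      · rw [norm_mul]
        exact mul_le_mul (hg i l) (hq2 l j) (norm_nonneg _) hd
      · simp)
  refine Plc.Le.mono (y := PPar_pi q t) (h1.trans h2) ?_
  have h3 : 1 + |t| ≤ Real.exp ((2 * Real.log P.b + 1) * |t|) := by
    refine le_trans ?_ (Real.add_one_le_exp _)
    nlinarith [abs_nonneg t]
  have h4 : P.b ^ (2 * (1 + |t|)) ≤ P.b ^ (2 : ℝ) * Real.exp ((2 * Real.log P.b + 1) * |t|) := by
    rw [mul_add, mul_one, Real.rpow_add hb]
    refine mul_le_mul_of_nonneg_left ?_ (by positivity)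
    rw [Real.rpow_def_of_pos hb]
    exact Real.exp_le_exp.2 (by nlinarith [abs_nonneg t])
  set E := Real.exp ((2 * Real.log P.b + 1) * |t|)
  have h5 : (Fintype.card ι : ℝ) ^ 2 * (Fintype.card ι * (dist p q * B)) *
      P.b ^ (2 * (1 + |t|)) / Real.log P.b ≤
      (Fintype.card ι : ℝ) ^ 2 * (Fintype.card ι * (dist p q * B)) *
        (P.b ^ (2 : ℝ) * E) / Real.log P.b := by gcongr
  calc _ ≤ dist p q * E + (Fintype.card ι : ℝ) ^ 2 * (Fintype.card ι * (dist p q * B)) *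
        (P.b ^ (2 : ℝ) * E) / Real.log P.b := add_le_add (mul_le_mul_of_nonneg_left h3 hd) h5
    _ = _ := by ring

theorem PPar_norm (hL : P.Loc) (g : GL ι P.k) (a : ι → ℝ) :
    ∃ (g₁ : GL ι P.k) (a₁ : ι → ℝ), (∀ i, 0 ≤ a₁ i ∧ a₁ i ≤ 1) ∧
      ∀ v : ι → ℝ, P.nrm g (a + v) = P.nrm g₁ (a₁ + v) := by
  have hb := Plc.b_pos (P := P)
  choose d hd0 hd1 hd2 using fun i => hL.gap (a i)
  have hd : ∀ i, 0 < ‖d i‖ := fun i => norm_pos_iff.2 (hd0 i)
  have e1 : ∀ i, P.b ^ Real.logb P.b ‖d i‖ = ‖d i‖ := fun i =>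
    Real.rpow_logb hb P.hb.ne' (hd i)
  let D : GL ι P.k := ⟨diagonal d, diagonal fun i => (d i)⁻¹,
    by rw [diagonal_mul_diagonal, ← diagonal_one]; congr 1; funext i; exact mul_inv_cancel₀ (hd0 i),
    by rw [diagonal_mul_diagonal, ← diagonal_one]; congr 1; funext i; exact inv_mul_cancel₀ (hd0 i)⟩
  refine ⟨D * g, fun i => a i - Real.logb P.b ‖d i‖, fun i => ⟨?_, ?_⟩, fun v => ?_⟩
  · have h := hd1 i
    rw [← e1 i, Real.rpow_le_rpow_left_iff P.hb] at h
    linarith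
  · have h := hd2 i
    rw [← e1 i, mul_comm, ← Real.rpow_add_one hb.ne', Real.rpow_le_rpow_left_iff P.hb] at h
    linarith
  · funext u
    unfold Plc.nrm
    congr 1
    funext i
    have e2 : ((D * g).val *ᵥ u) i = d i * (g.val *ᵥ u) i := by
      rw [Units.val_mul, ← mulVec_mulVec]
      exact mulVec_diagonal _ _ _
    have e3 : P.b ^ (a + v) i = ‖d i‖ * P.b ^ ((fun i => a i - Real.logb P.b ‖d i‖) + v) i := by
      conv_rhs => rw [← e1 i, ← Real.rpow_add hb]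
      congr 1
      simp only [Pi.add_apply]
      ring
    rw [e2, e3, norm_mul]
    ring

end

theorem Plc.par {ι : Type} [Fintype ι] [DecidableEq ι] {P : Plc ι} (hL : P.Loc) :
    ∃ κ m, 0 < κ ∧ P.sp.Par κ m := by
  have hb := Plc.b_pos (P := P)
  have hlog : 0 < Real.log P.b := Real.log_pos P.hb
  refine ⟨2 * Real.log P.b + 1,
    ((∑ _i : ι, ∑ _j : ι, 1) + ∑ _i : ι, ∑ _j : ι, 1) + ((∑ _i : ι, 1) + ∑ _i : ι, 1),
    by positivity, fun C => ?_⟩
  set B := P.b ^ (C + 1) with hB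
  have hB0 : 0 ≤ B := by positivity
  refine ⟨PPar_Q P, inferInstance,
    PPar_box P B ∩ {p | Matrix.of p.1.1 * Matrix.of p.1.2 = 1}, PPar_pi,
    1 + (Fintype.card ι : ℝ) ^ 3 * B * P.b ^ (2 : ℝ) / Real.log P.b, ?_, ?_, ?_, ?_, ?_⟩
  · refine IsCompact.inter_right ?_ (isClosed_eq ?_ continuous_const)
    · have h1 : IsCompact (Set.univ.pi fun _ : ι => Set.univ.pi fun _ : ι =>
          closedBall (0 : P.k) B) :=
        isCompact_univ_pi fun _ => isCompact_univ_pi fun _ => hL.cpt B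
      have h2 : IsCompact (Set.univ.pi fun _ : ι => closedBall (0 : ℝ) 1) :=
        isCompact_univ_pi fun _ => isCompact_closedBall _ _
      exact (h1.prod h1).prod (h2.prod h2)
    · exact Continuous.matrix_mul (continuous_fst.comp continuous_fst)
        (continuous_snd.comp continuous_fst)
  · have h1 := Cov.pi (J := ι) fun _ => Cov.pi (J := ι) fun _ => hL.cov B
    have h2 := Cov.pi (J := ι) fun _ => cov_real 1
    exact Cov.subset ((h1.prod h1).prod (h2.prod h2)) Set.inter_subset_left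
  · rintro p ⟨hp, -⟩
    obtain ⟨-, -, hw⟩ := PPar_mem_box.1 hp
    refine ⟨⟨_, _, _, fun t => rfl⟩, (Plc.dist_le_iff zero_le_one).2
      ⟨(Plc.nrm_le_iff _ _ _ _).2 fun i => ?_, (Plc.nrm_le_iff _ _ _ _).2 fun i => ?_⟩⟩
    · simp only [Pi.add_apply, Pi.smul_apply, smul_eq_mul]
      linarith [neg_abs_le (p.2.2 i), hw i]
    · simp only [Pi.add_apply, Pi.smul_apply, smul_eq_mul]
      linarith [le_abs_self (p.2.2 i), hw i]
  · rintro p ⟨hp, hp1⟩ q ⟨hq, hq1⟩ t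
    refine (Plc.dist_le_iff (by positivity)).2 ⟨PPar_lip hB0 hq hp1 hq1 t, ?_⟩
    rw [dist_comm]
    exact PPar_lip hB0 hp hq1 hp1 t
  · rintro c ⟨g, a, w, hc⟩ h0 h1
    obtain ⟨g₁, a₁, ha, hg⟩ := PPar_norm hL g a
    have hC : 0 ≤ C := dist_nonneg.trans h0
    simp only [hg] at hc
    have h2 := (Plc.dist_le_iff (P := P) hC).1 h0
    have h3 := (Plc.dist_le_iff (P := P) zero_le_one).1 h1
    rw [hc 0, zero_smul, add_zero] at h2 h3
    rw [hc 1, one_smul, Plc.nrm_le_iff, Plc.nrm_le_iff] at h3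
    have hm : Matrix.of g₁.val * Matrix.of (g₁⁻¹).val = 1 := g₁.mul_inv
    refine ⟨((g₁.val, (g₁⁻¹).val), (a₁, w)),
      ⟨PPar_mem_box.2 ⟨⟨fun i j => ?_, fun i j => ?_⟩, fun i => ?_, fun i => ?_⟩, hm⟩, ?_⟩
    · have h4 := h2.1 (Pi.single j 1)
      have h5 : P.sp.o.1 (Pi.single j 1) = 1 := by
        have := Plc.nrm_dual (P := P) 1 0 j
        rw [inv_one, Units.val_one, one_mulVec, Pi.zero_apply, Real.rpow_zero] at this
        exact this
      have h6 := P.le_ω i (Plc.co_nonneg g₁ a₁ (Pi.single j 1))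
      have h7 : (g₁.val *ᵥ Pi.single j 1) i = g₁.val i j := by simp
      rw [h5, mul_one] at h4
      rw [h7] at h6
      have h8 : 1 ≤ P.b ^ a₁ i := Real.one_le_rpow P.hb.le (ha i).1
      calc ‖g₁.val i j‖ ≤ ‖g₁.val i j‖ * P.b ^ a₁ i := le_mul_of_one_le_right (norm_nonneg _) h8
        _ ≤ P.b ^ C := h6.trans h4
        _ ≤ B := Real.rpow_le_rpow_of_exponent_le P.hb.le (by linarith)
    · have h4 := h2.2 ((g₁⁻¹).val *ᵥ Pi.single j 1)
      rw [Plc.nrm_dual, ← Real.rpow_add hb] at h4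
      have h6 := P.le_ω i (Plc.co_nonneg (1 : GL ι P.k) 0 ((g₁⁻¹).val *ᵥ Pi.single j 1))
      have h7 : ((1 : GL ι P.k).val *ᵥ ((g₁⁻¹).val *ᵥ Pi.single j 1)) i = (g₁⁻¹).val i j := by
        rw [Units.val_one, one_mulVec, mulVec_single_one]
        rfl
      rw [h7, Pi.zero_apply, Real.rpow_zero, mul_one] at h6
      exact (h6.trans h4).trans
        (Real.rpow_le_rpow_of_exponent_le P.hb.le (by linarith [(ha j).2]))
    · exact abs_le.2 ⟨by linarith [(ha i).1], (ha i).2⟩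
    · have h4 := h3.1 i
      have h5 := h3.2 i
      simp only [Pi.add_apply] at h4 h5
      exact abs_le.2 ⟨by linarith, by linarith⟩
    · funext t
      refine Subtype.ext ?_
      rw [hc t]
      have e : PPar_unit (P := P) (g₁.val, (g₁⁻¹).val) = g₁ := Units.ext (PPar_unit_val hm).1
      simp only [PPar_pi, e]

end Pool.Agent.MP_f7db47_al.GF

end

section

/-!
Interpolation for Euclidean norms.
-/

set_option linter.unusedSectionVars false

namespace Pool.Agent.MP_f7db47_al.GF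

open Matrix
open scoped Matrix.Norms.L2Operator

theorem PRInt_pow {s t K : ℝ} (ht : 0 ≤ t) (hK : 0 ≤ K)
    (h : ∀ k : ℕ, s ^ 2 ^ k ≤ K * t ^ 2 ^ k) : s ≤ t := by
  by_contra hc
  rw [not_le] at hc
  have hs : 0 < s := ht.trans_lt hc
  have hr : t / s < 1 := (div_lt_one hs).2 hc
  have hr0 : 0 ≤ t / s := div_nonneg ht hs.le
  obtain ⟨n, hn⟩ := exists_pow_lt_of_lt_one (x := 1 / (K + 1)) (by positivity) hr
  have h1 : (t / s) ^ 2 ^ n ≤ (t / s) ^ n :=
    pow_le_pow_of_le_one hr0 hr.le Nat.lt_two_pow_self.le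
  have h2 : 1 ≤ K * (t / s) ^ 2 ^ n := by
    rw [div_pow, ← mul_div_assoc, le_div_iff₀ (pow_pos hs _), one_mul]
    exact h n
  have h3 : (t / s) ^ n * (K + 1) < 1 := (lt_div_iff₀ (by positivity)).1 hn
  have h4 : K * (t / s) ^ 2 ^ n ≤ K * (t / s) ^ n := mul_le_mul_of_nonneg_left h1 hK
  have h5 : 0 ≤ (t / s) ^ n := pow_nonneg hr0 n
  nlinarith

theorem PRInt_max {F : ℝ → ℝ} (hF : Continuous F) (h0 : ∀ l, 0 ≤ F l)
    (hm : ∀ m η, F m * F m ≤ F (m - η) * F (m + η)) (ha : F 0 ≤ 1) (hb : F 1 ≤ 1) {l : ℝ}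
    (hl : l ∈ Set.Icc (0 : ℝ) 1) : F l ≤ 1 := by
  obtain ⟨x, hx, hmax⟩ := isCompact_Icc.exists_isMaxOn ⟨l, hl⟩ hF.continuousOn
  refine (hmax hl).trans ?_
  by_contra hc
  rw [not_le] at hc
  have hS : IsCompact (Set.Icc (0 : ℝ) 1 ∩ {y | F y = F x}) :=
    isCompact_Icc.inter_right (isClosed_eq hF continuous_const)
  obtain ⟨y, ⟨hy, hy'⟩, hleast⟩ := hS.exists_isLeast ⟨x, hx, rfl⟩
  have hyx : F y = F x := hy'
  have hy0 : 0 < y := lt_of_le_of_ne hy.1 fun e => by rw [← e] at hyx; linarith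
  have hy1 : y < 1 := lt_of_le_of_ne hy.2 fun e => by rw [e] at hyx; linarith
  have hη : 0 < min y (1 - y) := lt_min hy0 (sub_pos.2 hy1)
  have hη1 := min_le_left y (1 - y)
  have hη2 := min_le_right y (1 - y)
  have m1 : y - min y (1 - y) ∈ Set.Icc (0 : ℝ) 1 := ⟨by linarith, by linarith⟩
  have m2 : y + min y (1 - y) ∈ Set.Icc (0 : ℝ) 1 := ⟨by linarith, by linarith⟩
  have e1 : F (y - min y (1 - y)) < F x := lt_of_le_of_ne (hmax m1) fun e => by
    have := hleast ⟨m1, e⟩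
    linarith
  have e2 : F (y + min y (1 - y)) ≤ F x := hmax m2
  have e3 := hm y (min y (1 - y))
  rw [hyx] at e3
  have e4 := mul_le_mul_of_nonneg_left e2 (h0 (y - min y (1 - y)))
  nlinarith

section

variable {ι : Type} [Fintype ι] [DecidableEq ι]

/-- Positive diagonal matrices. -/
noncomputable def PRInt_D (x : ι → ℝ) : Matrix ι ι ℝ := diagonal fun i => (2 : ℝ) ^ x i

theorem PRInt_D_mul (x y : ι → ℝ) : PRInt_D x * PRInt_D y = PRInt_D (x + y) := by
  rw [PRInt_D, PRInt_D, PRInt_D, diagonal_mul_diagonal]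
  congr 1
  funext i
  rw [Pi.add_apply, Real.rpow_add two_pos]

theorem PRInt_D_zero : PRInt_D (0 : ι → ℝ) = 1 := by
  simp [PRInt_D]

theorem PRInt_D_inv (x : ι → ℝ) : PRInt_D (-x) * PRInt_D x = 1 := by
  rw [PRInt_D_mul, neg_add_cancel, PRInt_D_zero]

theorem PRInt_D_inv' (x : ι → ℝ) : PRInt_D x * PRInt_D (-x) = 1 := by
  rw [PRInt_D_mul, add_neg_cancel, PRInt_D_zero]

theorem PRInt_D_star (x : ι → ℝ) : (PRInt_D x)ᴴ = PRInt_D x := by
  rw [PRInt_D, diagonal_conjTranspose]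
  rfl

theorem PRInt_mid (X : Matrix ι ι ℝ) (x y : ι → ℝ) :
    ‖X‖ * ‖X‖ ≤ ‖PRInt_D (-x) * X * PRInt_D y‖ * ‖PRInt_D x * X * PRInt_D (-y)‖ := by
  have hT : (PRInt_D (-x) * X * PRInt_D y)ᴴ * (PRInt_D x * X * PRInt_D (-y)) =
      PRInt_D y * (Xᴴ * X) * PRInt_D (-y) := by
    rw [conjTranspose_mul, conjTranspose_mul, PRInt_D_star, PRInt_D_star]
    simp only [Matrix.mul_assoc]
    rw [← Matrix.mul_assoc (PRInt_D (-x)), PRInt_D_inv, Matrix.one_mul]
  have hp : ∀ n : ℕ, (Xᴴ * X) ^ n =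
      PRInt_D (-y) * (PRInt_D y * (Xᴴ * X) * PRInt_D (-y)) ^ n * PRInt_D y := by
    intro n
    induction n with
    | zero => rw [pow_zero, pow_zero, Matrix.mul_one, PRInt_D_inv]
    | succ n ih =>
      rw [pow_succ, pow_succ, ih]
      simp only [Matrix.mul_assoc]
      rw [PRInt_D_inv, Matrix.mul_one]
  have hsa : IsSelfAdjoint (Xᴴ * X) := IsSelfAdjoint.star_mul_self X
  rw [← l2_opNorm_conjTranspose_mul_self, ← l2_opNorm_conjTranspose (PRInt_D (-x) * X * PRInt_D y)]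
  refine le_trans ?_ (norm_mul_le _ _)
  rw [hT]
  refine PRInt_pow (K := ‖PRInt_D (-y)‖ * ‖PRInt_D y‖) (norm_nonneg _) (by positivity) fun k => ?_
  rw [← hsa.norm_pow_two_pow, hp]
  refine (norm_mul_le _ _).trans ?_
  rw [mul_right_comm]
  refine mul_le_mul_of_nonneg_right ((norm_mul_le _ _).trans ?_) (norm_nonneg _)
  exact mul_le_mul_of_nonneg_left (norm_pow_le' _ (by positivity)) (norm_nonneg _)

theorem PRInt_nrm (g : GL ι ℝ) (a u : ι → ℝ) :
    (plcR ι).nrm g a u =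
      ‖(WithLp.toLp 2 (PRInt_D a *ᵥ (g.val *ᵥ u)) : EuclideanSpace ℝ ι)‖ := by
  change ‖(WithLp.toLp 2 (fun i => ‖(g.val *ᵥ u) i‖ * (2 : ℝ) ^ a i) : EuclideanSpace ℝ ι)‖ = _
  rw [EuclideanSpace.norm_eq, EuclideanSpace.norm_eq]
  congr 1
  refine Finset.sum_congr rfl fun i _ => ?_
  simp only [PRInt_D, mulVec_diagonal, norm_mul, norm_norm, mul_comm]

theorem PRInt_iff (g h : GL ι ℝ) (a c : ι → ℝ) :
    (∀ u : ι → ℝ, ‖(WithLp.toLp 2 (PRInt_D a *ᵥ (g.val *ᵥ u)) : EuclideanSpace ℝ ι)‖ ≤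
      ‖(WithLp.toLp 2 (PRInt_D c *ᵥ (h.val *ᵥ u)) : EuclideanSpace ℝ ι)‖) ↔
      ‖PRInt_D a * (g.val * (h⁻¹).val) * PRInt_D (-c)‖ ≤ 1 := by
  have e : ∀ u : ι → ℝ, (PRInt_D a * (g.val * (h⁻¹).val) * PRInt_D (-c)) *ᵥ
      (PRInt_D c *ᵥ (h.val *ᵥ u)) = PRInt_D a *ᵥ (g.val *ᵥ u) := fun u => by
    simp only [mulVec_mulVec, Matrix.mul_assoc]
    rw [← Matrix.mul_assoc (PRInt_D (-c)), PRInt_D_inv, Matrix.one_mul, Units.inv_mul,
      Matrix.mul_one]
  constructor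
  · intro H
    rw [← l2_opNorm_toEuclideanCLM]
    refine ContinuousLinearMap.opNorm_le_bound _ zero_le_one fun v => ?_
    have e1 : PRInt_D c *ᵥ (h.val *ᵥ ((h⁻¹).val *ᵥ (PRInt_D (-c) *ᵥ v.ofLp))) = v.ofLp := by
      simp only [mulVec_mulVec]
      rw [← Matrix.mul_assoc h.val, Units.mul_inv, Matrix.one_mul, PRInt_D_inv', one_mulVec]
    have h1 := H ((h⁻¹).val *ᵥ (PRInt_D (-c) *ᵥ v.ofLp))
    rw [← e, e1] at h1
    rw [one_mul]
    exact h1
  · intro H u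
    rw [← e, ← toEuclideanCLM_toLp]
    refine (ContinuousLinearMap.le_opNorm _ _).trans ?_
    rw [l2_opNorm_toEuclideanCLM]
    exact mul_le_of_le_one_left (norm_nonneg _) H

theorem PRInt_cont (x y : ι → ℝ) : Continuous fun l : ℝ => PRInt_D (x + l • y) := by
  refine Continuous.matrix_diagonal (continuous_pi fun i => ?_)
  exact continuous_const.rpow (by fun_prop) fun _ => Or.inl two_ne_zero

end

theorem PRInt_main {ι : Type} [Fintype ι] [DecidableEq ι] (M : Matrix ι ι ℝ) (a a' c c' : ι → ℝ)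
    {l : ℝ} (h0 : 0 ≤ l) (h1 : l ≤ 1) (H : ‖PRInt_D a * M * PRInt_D (-c)‖ ≤ 1)
    (H' : ‖PRInt_D a' * M * PRInt_D (-c')‖ ≤ 1) :
    ‖PRInt_D ((1 - l) • a + l • a') * M * PRInt_D (-((1 - l) • c + l • c'))‖ ≤ 1 := by
  let F : ℝ → ℝ := fun t => ‖PRInt_D (a + t • (a' - a)) * M * PRInt_D (-c + t • (c - c'))‖
  have hF : Continuous F :=
    (((PRInt_cont _ _).mul continuous_const).mul (PRInt_cont _ _)).norm
  have hm : ∀ m η, F m * F m ≤ F (m - η) * F (m + η) := fun m η => by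
    refine (PRInt_mid _ (η • (a' - a)) (-(η • (c - c')))).trans_eq ?_
    simp only [F, ← Matrix.mul_assoc, PRInt_D_mul]
    simp only [Matrix.mul_assoc, PRInt_D_mul]
    congr 4
    · module
    · congr 1
      module
    · module
    · congr 1
      module
  have ha : F 0 ≤ 1 := by simpa [F] using H
  have hb : F 1 ≤ 1 := by
    have e : -c + (c - c') = -c' := by abel
    simpa [F, e] using H'
  have h2 := PRInt_max hF (fun _ => norm_nonneg _) hm ha hb ⟨h0, h1⟩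
  have e1 : (1 - l) • a + l • a' = a + l • (a' - a) := by module
  have e2 : -((1 - l) • c + l • c') = -c + l • (c - c') := by module
  rw [e1, e2]
  exact h2

theorem plcR_interp {ι : Type} [Fintype ι] [DecidableEq ι] : (plcR ι).Interp := by
  intro g h a a' c c' l h0 h1 H H' u
  have H1 := (PRInt_iff g h a c).1 fun v =>
    (PRInt_nrm g a v).symm.trans_le ((H v).trans_eq (PRInt_nrm h c v))
  have H2 := (PRInt_iff g h a' c').1 fun v =>
    (PRInt_nrm g a' v).symm.trans_le ((H' v).trans_eq (PRInt_nrm h c' v))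
  exact (PRInt_nrm g _ u).trans_le (((PRInt_iff g h _ _).2
    (PRInt_main _ a a' c c' h0 h1 H1 H2) u).trans_eq (PRInt_nrm h _ u).symm)

end Pool.Agent.MP_f7db47_al.GF

end

section

/-!
Two Euclidean norms have a common orthogonal basis.
-/

namespace Pool.Agent.MP_f7db47_al.GF

open Matrix

variable {ι : Type} [Fintype ι] [DecidableEq ι]

theorem plcR_sq (g : GL ι ℝ) (a : ι → ℝ) (u : ι → ℝ) :
    (plcR ι).nrm g a u ^ 2 = ∑ i, ((g.val *ᵥ u) i * 2 ^ a i) ^ 2 := by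
  have h : (plcR ι).nrm g a u = ‖(WithLp.toLp 2 (fun i => ‖(g.val *ᵥ u) i‖ * (2 : ℝ) ^ a i) :
    EuclideanSpace ℝ ι)‖ := rfl
  rw [h, EuclideanSpace.real_norm_sq_eq]
  refine Finset.sum_congr rfl fun i _ => ?_
  simp [mul_pow]

theorem PRJoin_form (M : Matrix ι ι ℝ) (d u : ι → ℝ) :
    u ⬝ᵥ (Mᵀ * diagonal d * M) *ᵥ u = ∑ i, (M *ᵥ u) i ^ 2 * d i := by
  rw [← mulVec_mulVec, ← mulVec_mulVec, dotProduct_mulVec, vecMul_transpose, dotProduct]
  refine Finset.sum_congr rfl fun i _ => ?_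
  rw [mulVec_diagonal]
  ring

theorem PRJoin_pos (g : GL ι ℝ) (a : ι → ℝ) {u : ι → ℝ} (hu : u ≠ 0) :
    0 < (plcR ι).nrm g a u ^ 2 := by
  have h : g.val *ᵥ u ≠ 0 := fun e => hu (by
    have h1 := congrArg (fun v => (g⁻¹).val *ᵥ v) e
    simpa using h1)
  obtain ⟨i, hi⟩ := Function.ne_iff.1 h
  rw [plcR_sq]
  exact Finset.sum_pos' (fun _ _ => sq_nonneg _) ⟨i, Finset.mem_univ i,
    sq_pos_of_ne_zero (mul_ne_zero hi (Real.rpow_pos_of_pos two_pos _).ne')⟩

theorem PRJoin_ext {g h : GL ι ℝ} {a c : ι → ℝ} {u v : ι → ℝ}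
    (e : (plcR ι).nrm g a u ^ 2 = (plcR ι).nrm h c v ^ 2) :
    (plcR ι).nrm g a u = (plcR ι).nrm h c v :=
  (sq_eq_sq₀ (Plc.nrm_nonneg (P := plcR ι) g a u) (Plc.nrm_nonneg (P := plcR ι) h c v)).1 e

/-- Euclidean norms are the square roots of positive definite quadratic forms. -/
theorem plcR_gram (x : (plcR ι).X) :
    ∃ A : Matrix ι ι ℝ, A.IsSymm ∧ ∀ u : ι → ℝ, x.1 u ^ 2 = u ⬝ᵥ A *ᵥ u := by
  obtain ⟨_, g, a, rfl⟩ := x
  change GL ι ℝ at g
  refine ⟨g.valᵀ * diagonal (fun i => ((2 : ℝ) ^ a i) ^ 2) * g.val, ?_, fun u => ?_⟩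
  · simp [IsSymm, transpose_mul, Matrix.mul_assoc]
  · rw [PRJoin_form]
    refine (plcR_sq g a u).trans (Finset.sum_congr rfl fun i _ => mul_pow _ _ _)

theorem plcR_of_gram (A : Matrix ι ι ℝ) (hA : A.IsSymm)
    (hp : ∀ u : ι → ℝ, u ≠ 0 → 0 < u ⬝ᵥ A *ᵥ u) :
    ∃ (U : GL ι ℝ) (a : ι → ℝ), U.valᵀ * U.val = 1 ∧
      ∀ u : ι → ℝ, (plcR ι).nrm U a u ^ 2 = u ⬝ᵥ A *ᵥ u := by
  have hH : A.IsHermitian := isHermitian_iff_isSymm.2 hA
  have hD : A.PosDef := PosDef.of_dotProduct_mulVec_pos hH fun x hx => by simpa using hp x hx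
  have h1 := hH.spectral_theorem
  rw [Unitary.conjStarAlgAut_apply] at h1
  have h2 : star (hH.eigenvectorUnitary : Matrix ι ι ℝ) * hH.eigenvectorUnitary = 1 :=
    Unitary.coe_star_mul_self _
  have h3 : (hH.eigenvectorUnitary : Matrix ι ι ℝ) * star (hH.eigenvectorUnitary : Matrix ι ι ℝ) =
      1 := Unitary.coe_mul_star_self _
  have h4 := hD.eigenvalues_pos
  generalize (hH.eigenvectorUnitary : Matrix ι ι ℝ) = V at h1 h2 h3
  generalize hH.eigenvalues = d at h1 h4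
  rw [star_eq_conjTranspose, conjTranspose_eq_transpose_of_trivial] at h1 h2 h3
  refine ⟨⟨Vᵀ, V, h2, h3⟩, fun i => Real.logb 2 √(d i), h3, fun u => ?_⟩
  rw [plcR_sq, h1]
  refine Eq.trans ?_ (PRJoin_form Vᵀ d u).symm
  refine Finset.sum_congr rfl fun i _ => ?_
  rw [mul_pow, Real.rpow_logb two_pos (by norm_num) (Real.sqrt_pos.2 (h4 i)),
    Real.sq_sqrt (h4 i).le]

theorem plcR_join : (plcR ι).Join := by
  rintro ⟨_, g, a, rfl⟩ ⟨_, h, c, rfl⟩
  change GL ι ℝ at g h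
  have e : ∀ a : ι → ℝ, diagonal (fun i => (2 : ℝ) ^ a i) * diagonal (fun i => (2 : ℝ) ^ (-a) i) =
      1 := fun a => by
    rw [diagonal_mul_diagonal, ← diagonal_one]
    congr 1
    funext i
    rw [← Real.rpow_add two_pos]
    simp
  let D : GL ι ℝ := ⟨diagonal fun i => (2 : ℝ) ^ a i, diagonal fun i => (2 : ℝ) ^ (-a) i, e a, by
    simpa using e (-a)⟩
  obtain ⟨A, hA, h1⟩ := plcR_gram (ι := ι) ⟨_, h * (D * g)⁻¹, c, rfl⟩
  obtain ⟨U, c', hU, h2⟩ := plcR_of_gram A hA fun u hu => h1 u ▸ PRJoin_pos _ c hu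
  refine ⟨U * (D * g), 0, c', funext fun u => ?_, funext fun u => ?_⟩
  · change ι → ℝ at u
    refine PRJoin_ext ((plcR_sq g a u).trans (Eq.trans ?_ (plcR_sq (U * (D * g)) 0 u).symm))
    have h3 := PRJoin_form U.val (fun _ => 1) ((D * g).val *ᵥ u)
    rw [diagonal_one, Matrix.mul_one, hU, one_mulVec] at h3
    simp only [Pi.zero_apply, Real.rpow_zero, mul_one] at h3 ⊢
    rw [Units.val_mul U, ← mulVec_mulVec, ← h3, dotProduct]
    refine Finset.sum_congr rfl fun i _ => ?_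
    rw [Units.val_mul, ← mulVec_mulVec, mulVec_diagonal]
    ring
  · change ι → ℝ at u
    have h3 := PRJoin_ext ((h1 ((D * g).val *ᵥ u)).trans (h2 _).symm)
    have h4 := Plc.nrm_mul (P := plcR ι) (h * (D * g)⁻¹) (D * g) c u
    have h5 : h * (D * g)⁻¹ * (D * g) = h := inv_mul_cancel_right _ _
    exact ((congrArg (fun z : GL ι ℝ => (plcR ι).nrm z c u) h5).symm.trans h4).trans
      (h3.trans (Plc.nrm_mul (P := plcR ι) U (D * g) c' u).symm)

end Pool.Agent.MP_f7db47_al.GF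

end

section

/-!
Convex bodies are homeomorphic to tropically convex sets.
-/

namespace Pool.Agent.MP_f7db47_al.GF

theorem tropC_box (F : Type) [Fintype F] :
    TropC (Set.Icc (0 : F → ℝ) 1) (Fintype.card F) := by
  refine ⟨fun x hx y hy c hc => ⟨fun i => ?_, fun i => ?_⟩,
    fun Q hQ x hx => ⟨fun i => ?_, fun i => ?_⟩, fun Q _ z M hz _ hM => ?_⟩
  · exact le_min (hx.1 i) (add_nonneg (hy.1 i) hc)
  · exact (min_le_left _ _).trans (hx.2 i)
  · have h : (0 : ℝ) ≤ Q * x i := mul_nonneg Q.cast_nonneg (hx.1 i)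
    exact div_nonneg (Int.cast_nonneg (Int.floor_nonneg.2 h)) Q.cast_nonneg
  · have hQ' : (0 : ℝ) < Q := by exact_mod_cast hQ
    have h : x i ≤ 1 := hx.2 i
    change (⌊(Q : ℝ) * x i⌋ : ℝ) / Q ≤ 1
    rw [div_le_one hQ']
    exact (Int.floor_le _).trans (by nlinarith)
  · have h1 : ∑ j ∈ Finset.range M, (∑ i, z (j + 1) i - ∑ i, z j i) =
        ∑ i, z M i - ∑ i, z 0 i := Finset.sum_range_sub (fun j => ∑ i, z j i) M
    have h2 : ∑ i, z M i - ∑ i, z 0 i ≤ Fintype.card F := by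
      rw [← Finset.sum_sub_distrib]
      refine (Finset.sum_le_sum (g := fun _ => (1 : ℤ)) fun i _ => by linarith [hM i]).trans ?_
      simp
    have h3 : ∀ j, z (j + 1) ≠ z j → 1 ≤ ∑ i, z (j + 1) i - ∑ i, z j i := fun j hj => by
      have hle : z j ≤ z (j + 1) := hz (Nat.le_succ j)
      obtain ⟨i, hi⟩ := Function.ne_iff.1 hj
      have := Finset.sum_lt_sum (s := Finset.univ) (fun i _ => hle i)
        ⟨i, Finset.mem_univ i, lt_of_le_of_ne (hle i) hi.symm⟩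
      omega
    have h4 : ∀ j, 0 ≤ ∑ i, z (j + 1) i - ∑ i, z j i := fun j =>
      sub_nonneg.2 (Finset.sum_le_sum fun i _ => hz (Nat.le_succ j) i)
    refine Int.ofNat_le.1 (le_trans ?_ (h1.le.trans h2))
    rw [Finset.card_eq_sum_ones, Nat.cast_sum]
    refine (Finset.sum_le_sum fun j hj => ?_).trans
      (Finset.sum_le_sum_of_subset_of_nonneg (fun j hj => ?_) fun j _ _ => h4 j)
    · simp only [Finset.mem_filter] at hj
      exact_mod_cast h3 j hj.2
    · simp only [Finset.mem_filter] at hj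
      exact hj.1

theorem convex_fine {E : Type} [NormedAddCommGroup E] [NormedSpace ℝ E] [FiniteDimensional ℝ E]
    {s : Set E} (hc : Convex ℝ s) (hk : IsCompact s) (hi : (interior s).Nonempty) :
    ∃ e : E → Fin (Module.finrank ℝ E) → ℝ, Continuous e ∧ Function.Injective e ∧
      TropC (e '' s) (Module.finrank ℝ E) := by
  let L : E ≃L[ℝ] (Fin (Module.finrank ℝ E) → ℝ) :=
    ContinuousLinearEquiv.ofFinrankEq (by simp)
  have h1 : Convex ℝ (L '' s) := hc.linear_image L.toLinearEquiv.toLinearMap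
  have h2 : IsCompact (L '' s) := hk.image L.continuous
  have h3 : (interior (L '' s)).Nonempty := by
    have := L.toHomeomorph.image_interior s
    rw [ContinuousLinearEquiv.coe_toHomeomorph] at this
    rw [← this]
    exact hi.image _
  have h4 : (interior (Set.Icc (0 : Fin (Module.finrank ℝ E) → ℝ) 1)).Nonempty := by
    refine ⟨fun _ => 1 / 2, mem_interior_iff_mem_nhds.2 (pi_Icc_mem_nhds ?_ ?_)⟩ <;>
      intro i <;> norm_num
  obtain ⟨e, -, he, -⟩ := exists_homeomorph_image_eq h1 h3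
    (NormedSpace.isVonNBounded_of_isBounded _ h2.isBounded) (convex_Icc 0 1) h4
    (NormedSpace.isVonNBounded_of_isBounded _ isCompact_Icc.isBounded)
  rw [h2.isClosed.closure_eq, isClosed_Icc.closure_eq] at he
  refine ⟨e ∘ L, e.continuous.comp L.continuous, e.injective.comp L.injective, ?_⟩
  rw [Set.image_comp, he]
  simpa using tropC_box (Fin (Module.finrank ℝ E))

end Pool.Agent.MP_f7db47_al.GF

end

section

/-!
Balls in the space of Euclidean norms.
-/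

namespace Pool.Agent.MP_f7db47_al.GF

section

open Matrix Metric

variable {ι : Type} [Fintype ι] [DecidableEq ι]

/-- The symmetric matrix with the given entries. -/
def PRFine_mat (f : Sym2 ι → ℝ) : Matrix ι ι ℝ := Matrix.of fun i j => f s(i, j)

/-- The quadratic form with the given coefficients. -/
def PRFine_Q (f : Sym2 ι → ℝ) (u : ι → ℝ) : ℝ := u ⬝ᵥ PRFine_mat f *ᵥ u

/-- Polarisation. -/
noncomputable def PRFine_pol (q : (ι → ℝ) → ℝ) : Sym2 ι → ℝ :=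
  Sym2.lift ⟨fun i j => (q (Pi.single i 1 + Pi.single j 1) - q (Pi.single i 1) -
    q (Pi.single j 1)) / 2, fun i j => by
      beta_reduce
      rw [add_comm (Pi.single i 1 : ι → ℝ)]; ring⟩

omit [Fintype ι] [DecidableEq ι] in
theorem PRFine_symm (f : Sym2 ι → ℝ) : (PRFine_mat f).IsSymm := by
  ext i j
  simp only [PRFine_mat, transpose_apply, of_apply]
  rw [Sym2.eq_swap]

theorem PRFine_pol_eq {A : Matrix ι ι ℝ} (hA : A.IsSymm) {q : (ι → ℝ) → ℝ}
    (hq : ∀ u, q u = u ⬝ᵥ A *ᵥ u) (i j : ι) : PRFine_pol q s(i, j) = A i j := by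
  simp only [PRFine_pol, Sym2.lift_mk, hq, mulVec_add, add_dotProduct, dotProduct_add,
    single_dotProduct, mulVec_single_one, one_mul, col_apply]
  rw [hA.apply i j]
  ring

theorem PRFine_pol_Q (f : Sym2 ι → ℝ) : PRFine_pol (PRFine_Q f) = f := by
  funext z
  induction z using Sym2.ind with
  | h i j => exact PRFine_pol_eq (PRFine_symm f) (fun _ => rfl) i j

/-- The Gram matrix of a Euclidean norm. -/
noncomputable def PRFine_gr (x : (plcR ι).X) : Sym2 ι → ℝ :=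
  PRFine_pol fun u : ι → ℝ => x.1 u ^ 2

theorem PRFine_gr_Q (x : (plcR ι).X) (u : ι → ℝ) : PRFine_Q (PRFine_gr x) u = x.1 u ^ 2 := by
  obtain ⟨A, hA, h⟩ := plcR_gram x
  have e : PRFine_mat (PRFine_gr x) = A := by
    ext i j
    exact PRFine_pol_eq hA h i j
  rw [PRFine_Q, e, h]

theorem PRFine_inj : Function.Injective (PRFine_gr (ι := ι)) := fun x y h =>
  Subtype.ext (funext fun u => (sq_eq_sq₀ (x.nonneg u) (y.nonneg u)).1
    ((PRFine_gr_Q x u).symm.trans (h ▸ PRFine_gr_Q y u)))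

theorem PRFine_cont (P : Plc ι) (u : ι → P.k) : Continuous fun x : P.X => x.1 u := by
  refine continuous_iff_continuousAt.2 fun y => ?_
  have hb := Plc.b_pos (P := P)
  have h1 : Continuous fun x : P.X => P.b ^ dist x y :=
    continuous_const.rpow (continuous_id.dist continuous_const) fun _ => Or.inl hb.ne'
  have h2 : Filter.Tendsto (fun x : P.X => P.b ^ dist x y) (nhds y) (nhds 1) := by
    simpa using h1.tendsto y
  have h3 : Filter.Tendsto (fun x : P.X => y.1 u / P.b ^ dist x y) (nhds y) (nhds (y.1 u)) := by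
    have h := (tendsto_const_nhds (x := y.1 u)).div h2 one_ne_zero
    rwa [div_one] at h
  have h4 : Filter.Tendsto (fun x : P.X => P.b ^ dist x y * y.1 u) (nhds y) (nhds (y.1 u)) := by
    simpa using h2.mul_const (y.1 u)
  refine tendsto_of_tendsto_of_tendsto_of_le_of_le h3 h4 (fun x => ?_) fun x => ?_
  · have h := ((Plc.dist_le_iff (x := x) (y := y) dist_nonneg).1 le_rfl).2 u
    exact (div_le_iff₀' (Real.rpow_pos_of_pos hb _)).2 h
  · exact ((Plc.dist_le_iff (x := x) (y := y) dist_nonneg).1 le_rfl).1 u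

theorem PRFine_gr_cont : Continuous (PRFine_gr (ι := ι)) := by
  refine continuous_pi fun z => ?_
  induction z using Sym2.ind with
  | h i j =>
    simp only [PRFine_gr, PRFine_pol, Sym2.lift_mk]
    exact ((((PRFine_cont (plcR ι) _).pow 2).sub ((PRFine_cont (plcR ι) _).pow 2)).sub
      ((PRFine_cont (plcR ι) _).pow 2)).div_const 2

omit [DecidableEq ι] in
theorem PRFine_Q_sum (f : Sym2 ι → ℝ) (u : ι → ℝ) :
    PRFine_Q f u = ∑ i, ∑ j, u i * (f s(i, j) * u j) := by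
  simp only [PRFine_Q, PRFine_mat, dotProduct, mulVec, of_apply, Finset.mul_sum]

omit [DecidableEq ι] in
theorem PRFine_Q_lin (f g : Sym2 ι → ℝ) (a b : ℝ) (u : ι → ℝ) :
    PRFine_Q (a • f + b • g) u = a * PRFine_Q f u + b * PRFine_Q g u := by
  simp only [PRFine_Q_sum, Finset.mul_sum, ← Finset.sum_add_distrib, Pi.add_apply, Pi.smul_apply,
    smul_eq_mul]
  refine Finset.sum_congr rfl fun i _ => Finset.sum_congr rfl fun j _ => by ring

omit [DecidableEq ι] in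
theorem PRFine_Q_cont (u : ι → ℝ) : Continuous fun f : Sym2 ι → ℝ => PRFine_Q f u := by
  simp only [PRFine_Q_sum]
  fun_prop

omit [DecidableEq ι] in
theorem PRFine_Q_le (g : Sym2 ι → ℝ) (u : ι → ℝ) :
    |PRFine_Q g u| ≤ ‖g‖ * Fintype.card ι * (u ⬝ᵥ u) := by
  have h : ∀ i j, |u i * (g s(i, j) * u j)| ≤ ‖g‖ / 2 * (u i * u i) + ‖g‖ / 2 * (u j * u j) :=
    fun i j => by
      have h1 : |g s(i, j)| ≤ ‖g‖ := norm_le_pi_norm g s(i, j)
      have h2 : |u i| * |u j| ≤ (u i * u i + u j * u j) / 2 := by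
        nlinarith [sq_nonneg (|u i| - |u j|), sq_abs (u i), sq_abs (u j)]
      rw [abs_mul, abs_mul]
      calc |u i| * (|g s(i, j)| * |u j|) = |g s(i, j)| * (|u i| * |u j|) := by ring
        _ ≤ ‖g‖ * ((u i * u i + u j * u j) / 2) :=
          mul_le_mul h1 h2 (by positivity) (norm_nonneg g)
        _ = _ := by ring
  rw [PRFine_Q_sum]
  refine (Finset.abs_sum_le_sum_abs _ _).trans ((Finset.sum_le_sum fun i _ =>
    (Finset.abs_sum_le_sum_abs _ _).trans (Finset.sum_le_sum fun j _ => h i j)).trans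
    (le_of_eq ?_))
  simp only [Finset.sum_add_distrib, Finset.sum_const, Finset.card_univ, nsmul_eq_mul,
    ← Finset.mul_sum, dotProduct]
  ring

/-- The quadratic forms that are comparable with the standard one. -/
def PRFine_s (ι : Type) [Fintype ι] (c : ℝ) : Set (Sym2 ι → ℝ) :=
  {f | ∀ u : ι → ℝ, PRFine_Q f u ≤ c * (u ⬝ᵥ u) ∧ u ⬝ᵥ u ≤ c * PRFine_Q f u}

omit [DecidableEq ι] in
theorem PRFine_convex (c : ℝ) : Convex ℝ (PRFine_s ι c) := by
  intro f hf g hg a b ha hb hab u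
  obtain ⟨h1, h2⟩ := hf u
  obtain ⟨h3, h4⟩ := hg u
  rw [PRFine_Q_lin]
  obtain rfl : b = 1 - a := by linarith
  constructor
  · nlinarith [mul_le_mul_of_nonneg_left h1 ha, mul_le_mul_of_nonneg_left h3 hb]
  · nlinarith [mul_le_mul_of_nonneg_left h2 ha, mul_le_mul_of_nonneg_left h4 hb]

omit [DecidableEq ι] in
theorem PRFine_uu (u : ι → ℝ) : 0 ≤ u ⬝ᵥ u := Finset.sum_nonneg fun _ _ => mul_self_nonneg _

theorem PRFine_compact {c : ℝ} (hc : 0 < c) : IsCompact (PRFine_s ι c) := by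
  refine (isCompact_closedBall (0 : Sym2 ι → ℝ) (4 * c)).of_isClosed_subset ?_ fun f hf => ?_
  · rw [PRFine_s, Set.ofPred_forall]
    exact isClosed_iInter fun u => (isClosed_le (PRFine_Q_cont u) continuous_const).inter
      (isClosed_le continuous_const (continuous_const.mul (PRFine_Q_cont u)))
  · have h0 : ∀ u, 0 ≤ PRFine_Q f u := fun u =>
      nonneg_of_mul_nonneg_right ((PRFine_uu u).trans (hf u).2) hc
    rw [mem_closedBall_zero_iff, pi_norm_le_iff_of_nonneg (by positivity)]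
    intro z
    rw [← PRFine_pol_Q f]
    induction z using Sym2.ind with
    | h i j =>
      have h1 := (hf (Pi.single i 1)).1
      have h2 := (hf (Pi.single j 1)).1
      have h3 := (hf (Pi.single i 1 + Pi.single j 1)).1
      have h4 : (Pi.single i 1 + Pi.single j 1 : ι → ℝ) ⬝ᵥ (Pi.single i 1 + Pi.single j 1) ≤ 4 := by
        by_cases h : i = j
        · subst h; simp; norm_num
        · simp [h, Ne.symm h]; norm_num
      have h5 := mul_le_mul_of_nonneg_left h4 hc.le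
      simp only [single_dotProduct, Pi.single_eq_same, mul_one] at h1 h2
      simp only [PRFine_pol, Sym2.lift_mk, Real.norm_eq_abs, abs_le]
      constructor <;> linarith [h0 (Pi.single i 1), h0 (Pi.single j 1),
        h0 (Pi.single i 1 + Pi.single j 1)]

theorem PRFine_o (u : ι → ℝ) : (plcR ι).nrm 1 0 u ^ 2 = u ⬝ᵥ u := by
  refine (plcR_sq 1 0 u).trans (Finset.sum_congr rfl fun i _ => ?_)
  simp [sq]

theorem PRFine_int {c : ℝ} (hc : 2 ≤ c) : (interior (PRFine_s ι c)).Nonempty := by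
  have hn : (0 : ℝ) ≤ Fintype.card ι := Nat.cast_nonneg _
  refine ⟨PRFine_gr (plcR ι).sp.o, mem_interior_iff_mem_nhds.2 (Filter.mem_of_superset
    (closedBall_mem_nhds _ (show (0 : ℝ) < 1 / (2 * (Fintype.card ι + 1)) by positivity))
    fun f hf u => ?_)⟩
  have h1 := PRFine_Q_le (f - PRFine_gr (plcR ι).sp.o) u
  have h2 := PRFine_Q_lin f (PRFine_gr (plcR ι).sp.o) 1 (-1) u
  have h3 : PRFine_Q (PRFine_gr (plcR ι).sp.o) u = u ⬝ᵥ u :=
    (PRFine_gr_Q _ u).trans (PRFine_o u)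
  rw [one_smul, neg_one_smul, ← sub_eq_add_neg, h3] at h2
  rw [mem_closedBall, dist_eq_norm, le_div_iff₀ (by positivity)] at hf
  have h4 := norm_nonneg (f - PRFine_gr (plcR ι).sp.o)
  have h5 := PRFine_uu u
  rw [h2, abs_le] at h1
  generalize ‖f - PRFine_gr (plcR ι).sp.o‖ = δ at h1 hf h4
  have h6 : δ * Fintype.card ι * (u ⬝ᵥ u) ≤ 1 / 2 * (u ⬝ᵥ u) :=
    mul_le_mul_of_nonneg_right (by nlinarith) h5
  have h7 := mul_le_mul_of_nonneg_right hc h5
  have h8 : 1 / 2 * (u ⬝ᵥ u) ≤ PRFine_Q f u := by linarith [h1.1]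
  constructor
  · linarith [h1.2]
  · nlinarith [mul_le_mul_of_nonneg_left h8 (show 0 ≤ c by linarith)]

theorem PRFine_ball {r : ℝ} (hr : 0 ≤ r) (x : (plcR ι).X) :
    dist x (plcR ι).sp.o ≤ r ↔ PRFine_gr x ∈ PRFine_s ι (((2 : ℝ) ^ r) ^ 2) := by
  have h : ∀ a b : ℝ, 0 ≤ a → 0 ≤ b → (a ≤ 2 ^ r * b ↔ a ^ 2 ≤ (2 ^ r) ^ 2 * b ^ 2) :=
    fun a b ha hb => by rw [← mul_pow, sq_le_sq₀ ha (by positivity)]
  refine (Plc.dist_le_iff (P := plcR ι) (x := x) (y := (plcR ι).sp.o) hr).trans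
    (forall_and.symm.trans (forall_congr' fun u => ?_))
  rw [PRFine_gr_Q, ← PRFine_o]
  exact and_congr (h _ _ (x.nonneg u) (Plc.nrm_nonneg (P := plcR ι) 1 0 u))
    (h _ _ (Plc.nrm_nonneg (P := plcR ι) 1 0 u) (x.nonneg u))

theorem PRFine_image {r : ℝ} (hr : 0 ≤ r) :
    PRFine_gr '' {x : (plcR ι).X | dist x (plcR ι).sp.o ≤ r} =
      PRFine_s ι (((2 : ℝ) ^ r) ^ 2) := by
  refine Set.Subset.antisymm ?_ fun f hf => ?_
  · rintro _ ⟨x, hx, rfl⟩
    exact (PRFine_ball hr x).1 hx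
  · obtain ⟨U, a, -, h⟩ := plcR_of_gram (PRFine_mat f) (PRFine_symm f) fun u hu =>
      pos_of_mul_pos_right (((PRFine_uu u).lt_of_ne' fun e =>
        hu (dotProduct_self_eq_zero.1 e)).trans_le (hf u).2) (sq_nonneg _)
    have e : PRFine_gr (ι := ι) ⟨_, U, a, rfl⟩ = f :=
      (congrArg PRFine_pol (funext h)).trans (PRFine_pol_Q f)
    exact ⟨_, (PRFine_ball hr _).2 (e ▸ hf), e⟩

end

theorem plcR_fine {ι : Type} [Fintype ι] [DecidableEq ι] : ∃ n, (plcR ι).sp.Fine n := by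
  refine ⟨Module.finrank ℝ (Sym2 ι → ℝ), fun r hr => ?_⟩
  have h1 : (2 : ℝ) ≤ 2 ^ (r : ℝ) := by
    rw [Real.rpow_natCast]
    exact le_self_pow₀ one_le_two hr.ne'
  have h2 : (2 : ℝ) ≤ (2 ^ (r : ℝ)) ^ 2 := by nlinarith
  obtain ⟨e, hc, hi, ht⟩ := convex_fine (PRFine_convex (ι := ι) _)
    (PRFine_compact (two_pos.trans_le h2)) (PRFine_int h2)
  rw [← PRFine_image (Nat.cast_nonneg r), ← Set.image_comp] at ht
  exact ⟨_, inferInstance, e ∘ PRFine_gr, (hc.comp PRFine_gr_cont).continuousOn,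
    (hi.comp PRFine_inj).injOn, ht⟩

end Pool.Agent.MP_f7db47_al.GF

end

section

/-!
Two split ultrametric norms have a common orthogonal basis.
-/

namespace Pool.Agent.MP_f7db47_al.GF

open Matrix

section

variable {K : Type} [NormedField K] [IsUltrametricDist K] {ι : Type} [Fintype ι] [DecidableEq ι]

/-- The weighted sup norm. -/
noncomputable def PPJoin_N (w : ι → ℝ) (v : ι → K) : ℝ := ‖fun i => ‖v i‖ * w i‖

omit [IsUltrametricDist K] [DecidableEq ι] in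
theorem PPJoin_le_N (w : ι → ℝ) (v : ι → K) (i : ι) : ‖v i‖ * w i ≤ PPJoin_N w v :=
  (le_abs_self _).trans (norm_le_pi_norm (fun i => ‖v i‖ * w i) i)

theorem PPJoin_step_le {w : ι → ℝ} (hw : ∀ i, 0 < w i) (t r : ι → K)
    (hb : ∀ k l, ‖t k‖ * ‖r l‖ * w k ≤ w l) (v : ι → K) :
    PPJoin_N w ((1 - vecMulVec t r) *ᵥ v) ≤ PPJoin_N w v := by
  have h0 : 0 ≤ PPJoin_N w v := norm_nonneg _
  refine (pi_norm_le_iff_of_nonneg h0).2 fun k => ?_
  rw [Real.norm_of_nonneg (mul_nonneg (norm_nonneg _) (hw k).le), ← le_div_iff₀ (hw k)]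
  have hC : 0 ≤ PPJoin_N w v / w k := div_nonneg h0 (hw k).le
  have e : ((1 - vecMulVec t r) *ᵥ v) k = v k + -∑ l, t k * r l * v l := by
    rw [sub_mulVec, one_mulVec, Pi.sub_apply, sub_eq_add_neg]
    rfl
  rw [e]
  refine (IsUltrametricDist.norm_add_le_max _ _).trans (max_le ?_ ?_)
  · rw [le_div_iff₀ (hw k)]
    exact PPJoin_le_N w v k
  · rw [norm_neg]
    refine IsUltrametricDist.norm_sum_le_of_forall_le_of_nonneg hC fun l _ => ?_
    rw [le_div_iff₀ (hw k), norm_mul, norm_mul]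
    calc ‖t k‖ * ‖r l‖ * ‖v l‖ * w k = ‖v l‖ * (‖t k‖ * ‖r l‖ * w k) := by ring
      _ ≤ ‖v l‖ * w l := mul_le_mul_of_nonneg_left (hb k l) (norm_nonneg _)
      _ ≤ _ := PPJoin_le_N w v l

omit [IsUltrametricDist K] in
theorem PPJoin_mul_eq (t r : ι → K) (h0 : r ⬝ᵥ t = 0) :
    (1 - vecMulVec t r) * (1 - vecMulVec (-t) r) = 1 := by
  have h : vecMulVec t r * vecMulVec (-t) r = 0 := by
    rw [vecMulVec_mul_vecMulVec, dotProduct_neg, h0]
    simp
  rw [mul_sub, mul_one, sub_mul, one_mul, h, neg_vecMulVec]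
  abel

theorem PPJoin_iso {w : ι → ℝ} (hw : ∀ i, 0 < w i) (t r : ι → K) (h0 : r ⬝ᵥ t = 0)
    (hb : ∀ k l, ‖t k‖ * ‖r l‖ * w k ≤ w l) :
    ∃ E : GL ι K, E.val = 1 - vecMulVec t r ∧ ∀ v, PPJoin_N w (E.val *ᵥ v) = PPJoin_N w v := by
  have h1 := PPJoin_mul_eq t r h0
  have h2 : (1 - vecMulVec (-t) r) * (1 - vecMulVec t r) = 1 := by
    have := PPJoin_mul_eq (-t) r (by rw [dotProduct_neg, h0, neg_zero])
    rwa [neg_neg] at this
  refine ⟨⟨_, _, h1, h2⟩, rfl, fun v => le_antisymm (PPJoin_step_le hw t r hb v) ?_⟩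
  have h3 := PPJoin_step_le hw (-t) r (fun k l => by simpa using hb k l)
    ((1 - vecMulVec t r) *ᵥ v)
  rwa [mulVec_mulVec, h2, one_mulVec] at h3

/-- A finished column. -/
def PPJoin_Fin (M : Matrix ι ι K) (j : ι) : Prop :=
  ∃ i, (∀ k, k ≠ i → M k j = 0) ∧ ∀ l, l ≠ j → M i l = 0

omit [IsUltrametricDist K] in
theorem PPJoin_col (M : GL ι K) (j : ι) : ∃ i, M.val i j ≠ 0 := by
  by_contra h
  push Not at h
  have e : ((M⁻¹).val * M.val) j j = 1 := by rw [Units.inv_mul, one_apply_eq]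
  rw [mul_apply] at e
  simp [h] at e

omit [IsUltrametricDist K] in
theorem PPJoin_mono {γ : ι → ℝ} (hγ : ∀ i, 0 < γ i) (M : GL ι K)
    (h : ∀ j, PPJoin_Fin M.val j) :
    ∃ δ : ι → ℝ, (∀ i, 0 < δ i) ∧ ∀ v, PPJoin_N γ (M.val *ᵥ v) = PPJoin_N δ v := by
  choose s h1 h2 using h
  have hne : ∀ j, M.val (s j) j ≠ 0 := fun j => by
    obtain ⟨i, hi⟩ := PPJoin_col M j
    have : i = s j := by
      by_contra hc
      exact hi (h1 j i hc)
    exact this ▸ hi
  have hinj : Function.Injective s := fun j j' e => by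
    by_contra hc
    exact hne j (e ▸ h2 j' j hc)
  have hs : Function.Surjective s := Finite.surjective_of_injective hinj
  refine ⟨fun j => ‖M.val (s j) j‖ * γ (s j), fun j => mul_pos (norm_pos_iff.2 (hne j)) (hγ _),
    fun v => ?_⟩
  unfold PPJoin_N
  rw [← hs.pi_norm_comp]
  congr 1
  funext j
  have e : (M.val *ᵥ v) (s j) = M.val (s j) j * v j := by
    refine Finset.sum_eq_single j (fun l _ hl => ?_) (fun hj => absurd (Finset.mem_univ j) hj)
    simp [h2 j l hl]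
  simp only [Function.comp_apply, e, norm_mul]
  ring

theorem PPJoin_step {α γ : ι → ℝ} (hα : ∀ i, 0 < α i) (hγ : ∀ i, 0 < γ i) (M : GL ι K)
    (h : ∃ j, ¬ PPJoin_Fin M.val j) :
    ∃ E E' : GL ι K, (∀ v, PPJoin_N γ (E.val *ᵥ v) = PPJoin_N γ v) ∧
      (∀ v, PPJoin_N α (E'.val *ᵥ v) = PPJoin_N α v) ∧
      {j | PPJoin_Fin M.val j} ⊂ {j | PPJoin_Fin (E * M * E').val j} := by
  classical
  obtain ⟨j1, hj1⟩ := h
  obtain ⟨⟨i, j⟩, hij, hmax⟩ := Finset.exists_max_image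
    (Finset.univ.filter fun q : ι × ι => ¬ PPJoin_Fin M.val q.2)
    (fun q => ‖M.val q.1 q.2‖ * γ q.1 / α q.2) ⟨(j1, j1), by simpa using hj1⟩
  have hj : ¬ PPJoin_Fin M.val j := by simpa using hij
  have hm : ∀ k l, ¬ PPJoin_Fin M.val l → ‖M.val k l‖ * γ k / α l ≤ ‖M.val i j‖ * γ i / α j :=
    fun k l hl => hmax (k, l) (by simpa using hl)
  have hne : M.val i j ≠ 0 := by
    obtain ⟨k, hk⟩ := PPJoin_col M j
    intro h0
    have h1 := hm k j hj
    rw [h0, norm_zero, zero_mul, zero_div] at h1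
    exact absurd h1 (not_le.2 (div_pos (mul_pos (norm_pos_iff.2 hk) (hγ k)) (hα j)))
  have hpos : 0 < ‖M.val i j‖ := norm_pos_iff.2 hne
  have hfin : ∀ l, PPJoin_Fin M.val l → M.val i l = 0 := fun l hl => by
    obtain ⟨i0, a1, a2⟩ := hl
    have hlj : j ≠ l := fun e => hj (e ▸ ⟨i0, a1, a2⟩)
    refine a1 i fun e => hne ?_
    rw [e]
    exact a2 j hlj
  obtain ⟨E, hE, hE'⟩ := PPJoin_iso hγ (fun k => if k = i then 0 else M.val k j / M.val i j)
    (Pi.single i 1) (by simp) (fun k l => by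
      by_cases hk : k = i
      · simp [hk, (hγ l).le]
      by_cases hl : l = i
      · subst hl
        have h1 := hm k j hj
        rw [div_le_div_iff_of_pos_right (hα j)] at h1
        simp only [hk, if_false, Pi.single_eq_same, norm_one, mul_one, norm_div]
        rw [div_mul_eq_mul_div, div_le_iff₀ hpos]
        linarith
      · simp [hl, (hγ l).le])
  obtain ⟨F, hF, hF'⟩ := PPJoin_iso hα (Pi.single j 1)
    (fun l => if l = j then 0 else M.val i l / M.val i j) (by simp) (fun k l => by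
      by_cases hl : l = j
      · simp [hl, (hα j).le]
      by_cases hk : k = j
      · subst hk
        by_cases hf : PPJoin_Fin M.val l
        · simp [hfin l hf, (hα l).le]
        have h1 := hm i l hf
        rw [div_le_div_iff₀ (hα l) (hα k)] at h1
        simp only [hl, if_false, Pi.single_eq_same, norm_one, one_mul, norm_div]
        rw [div_mul_eq_mul_div, div_le_iff₀ hpos]
        refine le_of_mul_le_mul_left ?_ (hγ i)
        linarith
      · simp [hk, (hα l).le])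
  have e1 : ∀ k l, (E.val * M.val) k l =
      M.val k l - (if k = i then 0 else M.val k j / M.val i j) * M.val i l := fun k l => by
    rw [hE, sub_mul, one_mul, vecMulVec_mul, Matrix.sub_apply, vecMulVec_apply, single_one_vecMul]
    rfl
  have e2 : ∀ (A : Matrix ι ι K) k l, (A * F.val) k l =
      A k l - A k j * (if l = j then 0 else M.val i l / M.val i j) := fun A k l => by
    rw [hF, mul_sub, mul_one, mul_vecMulVec, Matrix.sub_apply, vecMulVec_apply, mulVec_single_one]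
    rfl
  have e3 : ∀ k, k ≠ i → (E * M * F).val k j = 0 := fun k hk => by
    rw [Units.val_mul, Units.val_mul, e2, e1]
    simp only [hk, if_false, if_true]
    field_simp
    ring
  have e4 : ∀ l, l ≠ j → (E * M * F).val i l = 0 := fun l hl => by
    rw [Units.val_mul, Units.val_mul, e2, e1, e1]
    simp only [hl, if_false, if_true]
    field_simp
    ring
  have e5 : ∀ k l, M.val k l = 0 → M.val k j * M.val i l = 0 → (E * M * F).val k l = 0 :=
    fun k l a1 a2 => by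
      by_cases hk : k = i
      · exact hk ▸ e4 l fun e => hne (by rw [← a1, hk, e])
      by_cases hl : l = j
      · exact hl ▸ e3 k hk
      rw [Units.val_mul, Units.val_mul, e2, e1, e1]
      simp only [hk, hl, if_false, a1]
      field_simp
      linear_combination -a2
  refine ⟨E, F, hE', hF', fun l hl => ?_, fun hc => hj (hc ⟨i, e3, e4⟩)⟩
  have h0 := hfin l hl
  obtain ⟨i0, a1, a2⟩ := hl
  have hlj : j ≠ l := fun e => hj (e ▸ ⟨i0, a1, a2⟩)
  exact ⟨i0, fun k hk => e5 k l (a1 k hk) (by rw [h0, mul_zero]),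
    fun m hm' => e5 i0 m (a2 m hm') (by rw [a2 j hlj, zero_mul])⟩

theorem PPJoin_main {α γ : ι → ℝ} (hα : ∀ i, 0 < α i) (hγ : ∀ i, 0 < γ i) (M : GL ι K) :
    ∃ (F : GL ι K) (δ : ι → ℝ), (∀ i, 0 < δ i) ∧
      (∀ v, PPJoin_N α (F.val *ᵥ v) = PPJoin_N α v) ∧
      ∀ v, PPJoin_N γ (M.val *ᵥ (F.val *ᵥ v)) = PPJoin_N δ v := by
  generalize hS : {j | PPJoin_Fin M.val j} = S
  induction S using WellFoundedGT.induction generalizing M with
  | ind S ih =>
    by_cases h : ∀ j, PPJoin_Fin M.val j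
    · obtain ⟨δ, h1, h2⟩ := PPJoin_mono hγ M h
      exact ⟨1, δ, h1, fun v => by simp, fun v => by simpa using h2 v⟩
    push Not at h
    obtain ⟨E, E', a1, a2, a3⟩ := PPJoin_step hα hγ M h
    obtain ⟨F, δ, b1, b2, b3⟩ := ih _ (hS ▸ a3) (E * M * E') rfl
    refine ⟨E' * F, δ, b1, fun v => ?_, fun v => ?_⟩
    · rw [Units.val_mul, ← mulVec_mulVec, a2, b2]
    · rw [← b3, ← a1]
      simp only [Units.val_mul, mulVec_mulVec, mul_assoc]

end

theorem plcP_join (p : ℕ) [Fact p.Prime] {ι : Type} [Fintype ι] [DecidableEq ι] :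
    (plcP p ι).Join := by
  rintro ⟨_, g, a, rfl⟩ ⟨_, h, c, rfl⟩
  change GL ι ℚ_[p] at g h
  have hp : (1 : ℝ) < p := (plcP p ι).hb
  have hp0 : (0 : ℝ) < p := zero_lt_one.trans hp
  have hn : ∀ (g : GL ι ℚ_[p]) (a : ι → ℝ) (u : ι → ℚ_[p]),
      (plcP p ι).nrm g a u = PPJoin_N (fun i => (p : ℝ) ^ a i) (g.val *ᵥ u) := fun _ _ _ => rfl
  obtain ⟨F, δ, h1, h2, h3⟩ := PPJoin_main (K := ℚ_[p]) (α := fun i => (p : ℝ) ^ a i)
    (γ := fun i => (p : ℝ) ^ c i) (fun _ => Real.rpow_pos_of_pos hp0 _)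
    (fun _ => Real.rpow_pos_of_pos hp0 _) (h * g⁻¹ : GL ι ℚ_[p])
  have key : ∀ (g h : GL ι ℚ_[p]) (u : ι → ℚ_[p]),
      F.val *ᵥ ((F⁻¹ * g).val *ᵥ u) = g.val *ᵥ u ∧
        (h * g⁻¹).val *ᵥ (g.val *ᵥ u) = h.val *ᵥ u := fun g h u => by
    constructor
    · rw [mulVec_mulVec, ← Units.val_mul, mul_inv_cancel_left]
    · rw [mulVec_mulVec, ← Units.val_mul, inv_mul_cancel_right]
  refine ⟨(F⁻¹ * g : GL ι ℚ_[p]), a, fun i => Real.logb p (δ i), funext fun u => ?_,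
    funext fun u => ?_⟩
  · exact (hn g a u).trans (((congrArg _ (key g h u).1).symm.trans (h2 _)).trans
      (hn (F⁻¹ * g : GL ι ℚ_[p]) a u).symm)
  · have e : (fun i => (p : ℝ) ^ Real.logb p (δ i)) = δ :=
      funext fun i => Real.rpow_logb hp0 hp.ne' (h1 i)
    refine (hn h c u).trans (Eq.trans ?_ (hn (F⁻¹ * g : GL ι ℚ_[p]) _ u).symm)
    rw [e, ← h3, (key g h u).1, (key g h u).2]

end Pool.Agent.MP_f7db47_al.GF

end
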