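import Pool.Agent.Mg.Ff7db47.G023f5a

section

/-!
Interpolation and volumes for ultrametric norms.
-/

namespace Pool.Agent.MP_f7db47_al.GF

open Matrix

variable {p : ℕ} [Fact p.Prime] {ι : Type} [Fintype ι] [DecidableEq ι]

theorem PPInt_one_lt (p : ℕ) [hp : Fact p.Prime] : (1 : ℝ) < p := by
  exact_mod_cast hp.out.one_lt

theorem PPInt_pos (p : ℕ) [Fact p.Prime] : (0 : ℝ) < p := zero_lt_one.trans (PPInt_one_lt p)

theorem PPInt_iff {b : ℝ} (hb : 0 < b) (m a c : ℝ) : m * b ^ a ≤ b ^ c ↔ m ≤ b ^ (c - a) := by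
  rw [Real.rpow_sub hb, le_div_iff₀ (Real.rpow_pos_of_pos hb a)]

theorem plcP_le (g : GL ι ℚ_[p]) (a : ι → ℝ) (u : ι → ℚ_[p]) {r : ℝ} (hr : 0 ≤ r) :
    (plcP p ι).nrm g a u ≤ r ↔ ∀ i, ‖(g.val *ᵥ u) i‖ * (p : ℝ) ^ a i ≤ r := by
  show ‖(fun i => ‖(g.val *ᵥ u) i‖ * (p : ℝ) ^ a i : ι → ℝ)‖ ≤ r ↔ _
  rw [pi_norm_le_iff_of_nonneg hr]
  refine forall_congr' fun i => ?_
  rw [Real.norm_of_nonneg (mul_nonneg (norm_nonneg _) (Real.rpow_nonneg (PPInt_pos p).le _))]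

theorem plcP_le_iff (g h : GL ι ℚ_[p]) (a c : ι → ℝ) :
    (∀ u, (plcP p ι).nrm g a u ≤ (plcP p ι).nrm h c u) ↔
      ∀ i j, ‖(g * h⁻¹).val i j‖ * (p : ℝ) ^ a i ≤ (p : ℝ) ^ c j := by
  have hp := PPInt_pos p
  constructor
  · intro H i j
    have h1 := H ((h⁻¹).val *ᵥ Pi.single j 1)
    have h2 : (plcP p ι).nrm h c ((h⁻¹).val *ᵥ Pi.single j 1) = (p : ℝ) ^ c j :=
      Plc.nrm_dual (P := plcP p ι) h c j
    rw [h2] at h1
    have h3 := (plcP_le g a _ (Real.rpow_nonneg hp.le _)).1 h1 i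
    have e : (g.val *ᵥ ((h⁻¹).val *ᵥ Pi.single j 1)) i = (g * h⁻¹).val i j := by
      rw [mulVec_mulVec, mulVec_single_one]
      rfl
    rw [← e]
    exact h3
  · intro H u
    have hN : 0 ≤ (plcP p ι).nrm h c u := Plc.nrm_nonneg (P := plcP p ι) h c u
    have h1 := (plcP_le h c u hN).1 le_rfl
    refine (plcP_le g a u hN).2 fun i => ?_
    have e : g.val *ᵥ u = (g * h⁻¹).val *ᵥ (h.val *ᵥ u) := by
      simp only [mulVec_mulVec, Units.val_mul, mul_assoc, Units.inv_mul, mul_one]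
    have hpa : 0 < (p : ℝ) ^ a i := Real.rpow_pos_of_pos hp _
    rw [e, ← le_div_iff₀ hpa]
    show ‖∑ j, (g * h⁻¹).val i j * (h.val *ᵥ u) j‖ ≤ _
    refine IsUltrametricDist.norm_sum_le_of_forall_le_of_nonneg (div_nonneg hN hpa.le)
      fun j _ => ?_
    rw [le_div_iff₀ hpa, norm_mul]
    calc ‖(g * h⁻¹).val i j‖ * ‖(h.val *ᵥ u) j‖ * (p : ℝ) ^ a i
        = ‖(h.val *ᵥ u) j‖ * (‖(g * h⁻¹).val i j‖ * (p : ℝ) ^ a i) := by ring
      _ ≤ ‖(h.val *ᵥ u) j‖ * (p : ℝ) ^ c j :=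
          mul_le_mul_of_nonneg_left (H i j) (norm_nonneg _)
      _ ≤ _ := h1 j

theorem plcP_interp : (plcP p ι).Interp := by
  intro g h a a' c c' l h0 h1 H H'
  have hp := PPInt_pos p
  refine (plcP_le_iff g h _ _).2 fun i j => ?_
  have h2 := (PPInt_iff hp _ _ _).1 ((plcP_le_iff g h a c).1 H i j)
  have h3 := (PPInt_iff hp _ _ _).1 ((plcP_le_iff g h a' c').1 H' i j)
  rw [PPInt_iff hp]
  simp only [Pi.add_apply, Pi.smul_apply, smul_eq_mul]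
  rcases le_total (c j - a i) (c' j - a' i) with h4 | h4
  · refine h2.trans (Real.rpow_le_rpow_of_exponent_le (PPInt_one_lt p).le ?_)
    nlinarith [mul_le_mul_of_nonneg_left h4 h0]
  · refine h3.trans (Real.rpow_le_rpow_of_exponent_le (PPInt_one_lt p).le ?_)
    nlinarith [mul_le_mul_of_nonneg_left h4 (sub_nonneg.2 h1)]

theorem plcP_vol (g h : GL ι ℚ_[p]) (a c : ι → ℝ)
    (hle : ∀ u, (plcP p ι).nrm g a u ≤ (plcP p ι).nrm h c u) :
    ‖g.val.det‖ * (p : ℝ) ^ (∑ i, a i) ≤ ‖h.val.det‖ * (p : ℝ) ^ (∑ i, c i) := by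
  have hp := PPInt_pos p
  have H := (plcP_le_iff g h a c).1 hle
  have e : g.val.det = (g * h⁻¹).val.det * h.val.det := by
    rw [← det_mul, ← Units.val_mul, inv_mul_cancel_right]
  have h1 : ‖(g * h⁻¹).val.det‖ ≤ (p : ℝ) ^ (∑ i, c i - ∑ i, a i) := by
    rw [det_apply']
    refine IsUltrametricDist.norm_sum_le_of_forall_le_of_nonneg (Real.rpow_nonneg hp.le _)
      fun s _ => ?_
    have h2 : ‖(((Equiv.Perm.sign s : ℤˣ) : ℤ) : ℚ_[p])‖ = 1 := by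
      rcases Int.units_eq_one_or (Equiv.Perm.sign s) with h3 | h3 <;> simp [h3]
    rw [norm_mul, h2, one_mul, norm_prod, ← Equiv.sum_comp s a, ← Finset.sum_sub_distrib,
      Real.rpow_sum_of_pos hp]
    exact Finset.prod_le_prod (fun i _ => norm_nonneg _)
      fun i _ => (PPInt_iff hp _ _ _).1 (H (s i) i)
  have h4 := (PPInt_iff hp _ _ _).2 h1
  rw [e, norm_mul]
  calc ‖(g * h⁻¹).val.det‖ * ‖h.val.det‖ * (p : ℝ) ^ (∑ i, a i)
      = ‖h.val.det‖ * (‖(g * h⁻¹).val.det‖ * (p : ℝ) ^ (∑ i, a i)) := by ring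
    _ ≤ _ := mul_le_mul_of_nonneg_left h4 (norm_nonneg _)

/-- The logarithm of the volume of a split norm. -/
noncomputable def PPInt_V (g : GL ι ℚ_[p]) (a : ι → ℝ) : ℝ :=
  Real.logb p ‖g.val.det‖ + ∑ i, a i

theorem PPInt_V_le (g h : GL ι ℚ_[p]) (a c : ι → ℝ)
    (hle : ∀ u, (plcP p ι).nrm g a u ≤ (plcP p ι).nrm h c u) : PPInt_V g a ≤ PPInt_V h c := by
  have hp := PPInt_pos p
  have hp1 := PPInt_one_lt p
  have hd : ∀ g : GL ι ℚ_[p], 0 < ‖g.val.det‖ := fun g =>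
    norm_pos_iff.2 (Matrix.GeneralLinearGroup.det_ne_zero g)
  have e : ∀ (g : GL ι ℚ_[p]) (a : ι → ℝ),
      PPInt_V g a = Real.logb p (‖g.val.det‖ * (p : ℝ) ^ (∑ i, a i)) := fun g a => by
    rw [Real.logb_mul (hd g).ne' (Real.rpow_pos_of_pos hp _).ne', Real.logb_rpow hp hp1.ne']
    rfl
  rw [e, e]
  exact Real.logb_le_logb_of_le hp1 (mul_pos (hd g) (Real.rpow_pos_of_pos hp _))
    (plcP_vol g h a c hle)

theorem PPInt_exV : ∃ V : (plcP p ι).X → ℝ, ∀ (x : (plcP p ι).X) (g : GL ι ℚ_[p]) (a : ι → ℝ),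
    x.1 = (plcP p ι).nrm g a → V x = PPInt_V g a := by
  have h : ∀ x : (plcP p ι).X, ∃ (g : GL ι ℚ_[p]) (a : ι → ℝ), x.1 = (plcP p ι).nrm g a :=
    fun x => x.2
  choose G A hGA using h
  refine ⟨fun x => PPInt_V (G x) (A x), fun x g a hx => le_antisymm ?_ ?_⟩
  · exact PPInt_V_le _ _ _ _ fun u => by rw [← hGA x, hx]
  · exact PPInt_V_le _ _ _ _ fun u => by rw [← hGA x, hx]

theorem PPInt_lat (Q : ℕ) (y : (plcP p ι).X) (g : GL ι ℚ_[p]) (a : ι → ℝ)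
    (hy : y.1 = (plcP p ι).nrm g a)
    (hv : ∀ u, u ≠ 0 → ∃ z : ℤ, y.1 u = (p : ℝ) ^ ((z : ℝ) / Q)) (i : ι) :
    ∃ z : ℤ, a i = (z : ℝ) / Q := by
  have hu : ((g⁻¹).val *ᵥ Pi.single i 1 : ι → ℚ_[p]) ≠ 0 := fun h0 => by
    have h1 := congrArg (fun u => (g.val *ᵥ u) i) h0
    simp only [mulVec_mulVec, Units.mul_inv, one_mulVec, Pi.single_eq_same, mulVec_zero,
      Pi.zero_apply] at h1
    exact one_ne_zero h1
  obtain ⟨z, hz⟩ := hv _ hu
  have h2 : (plcP p ι).nrm g a ((g⁻¹).val *ᵥ Pi.single i 1) = (p : ℝ) ^ a i :=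
    Plc.nrm_dual (P := plcP p ι) g a i
  rw [hy] at hz
  exact ⟨z, (Real.rpow_right_inj (PPInt_pos p) (PPInt_one_lt p).ne').1 (h2.symm.trans hz)⟩

open Classical in
theorem plcP_chain (Q : ℕ) (hQ : 0 < Q) (x : ℕ → (plcP p ι).X) (M : ℕ)
    (hx : ∀ j u, (x (j + 1)).1 u ≤ (x j).1 u)
    (hv : ∀ j u, u ≠ 0 → ∃ z : ℤ, (x j).1 u = (p : ℝ) ^ ((z : ℝ) / Q))
    (hM : ∀ u, (x 0).1 u ≤ (p : ℝ) ^ ((1 : ℝ) / Q) * (x M).1 u) :
    ((Finset.range M).filter fun j => x (j + 1) ≠ x j).card ≤ Fintype.card ι := by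
  obtain ⟨V, hV⟩ := PPInt_exV (p := p) (ι := ι)
  have hQ' : (0 : ℝ) < Q := by exact_mod_cast hQ
  have step : ∀ j, x (j + 1) ≠ x j → V (x (j + 1)) + 1 / Q ≤ V (x j) := fun j hj => by
    obtain ⟨g, a, c, ha, hc⟩ := plcP_join p (x (j + 1)) (x j)
    have h1 : ∀ i, a i ≤ c i := fun i => by
      have h2 := (Plc.nrm_le_iff (P := plcP p ι) g a c 0).1 (fun u => by
        rw [Real.rpow_zero, one_mul, ← ha, ← hc]; exact hx j u) i
      rwa [add_zero] at h2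
    have h3 : ∃ i, a i ≠ c i := by
      by_contra h4
      push Not at h4
      exact hj (Subtype.ext (by rw [ha, hc, funext h4]))
    obtain ⟨i, hi⟩ := h3
    obtain ⟨z, hz⟩ := PPInt_lat Q _ g a ha (hv (j + 1)) i
    obtain ⟨w, hw⟩ := PPInt_lat Q _ g c hc (hv j) i
    have h5 : a i + 1 / Q ≤ c i := by
      have h6 : a i < c i := lt_of_le_of_ne (h1 i) hi
      rw [hz, hw, div_lt_div_iff_of_pos_right hQ'] at h6
      have h7 : z + 1 ≤ w := by exact_mod_cast h6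
      have h8 : (z : ℝ) + 1 ≤ w := by exact_mod_cast h7
      rw [hz, hw, ← add_div]
      exact div_le_div_of_nonneg_right h8 hQ'.le
    rw [hV _ g a ha, hV _ g c hc]
    unfold PPInt_V
    rw [← Finset.add_sum_erase _ a (Finset.mem_univ i),
      ← Finset.add_sum_erase _ c (Finset.mem_univ i)]
    have h9 := Finset.sum_le_sum (s := Finset.univ.erase i) fun k _ => h1 k
    linarith
  have tel : ∀ m, V (x m) + (((Finset.range m).filter fun j => x (j + 1) ≠ x j).card : ℝ) / Q ≤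
      V (x 0) := fun m => by
    induction m with
    | zero => simp
    | succ m ih =>
      rw [Finset.range_add_one, Finset.filter_insert]
      split_ifs with h1
      · rw [Finset.card_insert_of_notMem (by simp), Nat.cast_add, Nat.cast_one, add_div]
        have := step m h1
        linarith
      · rw [not_not.1 h1]
        exact ih
  have fin : V (x 0) ≤ V (x M) + (Fintype.card ι : ℝ) / Q := by
    obtain ⟨g, a, ha⟩ := (x 0).2
    obtain ⟨h, c, hc⟩ := (x M).2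
    have h1 := PPInt_V_le g h a (fun i => c i + 1 / Q) fun u => by
      have h2 : (plcP p ι).nrm h (fun i => c i + 1 / Q) u =
          (p : ℝ) ^ ((1 : ℝ) / Q) * (plcP p ι).nrm h c u :=
        Plc.nrm_add_const (P := plcP p ι) h c (1 / Q) u
      rw [h2, ← ha, ← hc]
      exact hM u
    rw [hV _ g a ha, hV _ h c hc]
    refine h1.trans (le_of_eq ?_)
    unfold PPInt_V
    rw [Finset.sum_add_distrib, Finset.sum_const, Finset.card_univ, nsmul_eq_mul]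
    ring
  have h1 := tel M
  have h2 : (((Finset.range M).filter fun j => x (j + 1) ≠ x j).card : ℝ) / Q ≤
      (Fintype.card ι : ℝ) / Q := by linarith
  rw [div_le_div_iff_of_pos_right hQ'] at h2
  exact_mod_cast h2

end Pool.Agent.MP_f7db47_al.GF

end

section

/-!
Ultrametric norms in a ball are determined by finitely many values.
-/

namespace Pool.Agent.MP_f7db47_al.GF

open Metric

variable {p : ℕ} [Fact p.Prime] {ι : Type} [Fintype ι] [DecidableEq ι]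

theorem PPNet_one_lt : (1 : ℝ) < (p : ℝ) := by
  exact_mod_cast (Fact.out : p.Prime).one_lt

theorem PPNet_pos : (0 : ℝ) < (p : ℝ) := zero_lt_one.trans PPNet_one_lt

theorem PPNet_nonneg (g : GL ι ℚ_[p]) (a : ι → ℝ) (u : ι → ℚ_[p]) :
    0 ≤ (plcP p ι).nrm g a u := Plc.nrm_nonneg (P := plcP p ι) g a u

theorem PPNet_co (g : GL ι ℚ_[p]) (a : ι → ℝ) (u : ι → ℚ_[p]) (i : ι) :
    ‖(Matrix.mulVec g.val u) i‖ * (p : ℝ) ^ a i ≤ (plcP p ι).nrm g a u :=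
  (plcP_le g a u (PPNet_nonneg g a u)).1 le_rfl i

theorem PPNet_o (u : ι → ℚ_[p]) : (plcP p ι).nrm (1 : GL ι ℚ_[p]) 0 u = ‖u‖ := by
  refine le_antisymm ((plcP_le 1 0 u (norm_nonneg u)).2 fun i => ?_) ?_
  · simpa using norm_le_pi_norm u i
  · refine (pi_norm_le_iff_of_nonneg (PPNet_nonneg 1 0 u)).2 fun i => ?_
    simpa using PPNet_co (1 : GL ι ℚ_[p]) 0 u i

theorem plcP_ball (r : ℝ) (hr : 0 ≤ r) (x : (plcP p ι).X) :
    x ∈ closedBall (plcP p ι).sp.o r ↔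
      ∀ u : ι → ℚ_[p], x.1 u ≤ (p : ℝ) ^ r * ‖u‖ ∧ ‖u‖ ≤ (p : ℝ) ^ r * x.1 u := by
  have h := Plc.dist_le_iff (P := plcP p ι) (x := x) (y := (plcP p ι).sp.o) hr
  refine Iff.trans mem_closedBall (h.trans ?_)
  constructor
  · intro h1 u
    have h2 : x.1 u ≤ (p : ℝ) ^ r * (plcP p ι).nrm (1 : GL ι ℚ_[p]) 0 u := h1.1 u
    have h3 : (plcP p ι).nrm (1 : GL ι ℚ_[p]) 0 u ≤ (p : ℝ) ^ r * x.1 u := h1.2 u
    rw [PPNet_o] at h2 h3
    exact ⟨h2, h3⟩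
  · intro h1
    refine ⟨fun u => ?_, fun u => ?_⟩
    · have h2 := (h1 u).1
      rw [← PPNet_o] at h2
      exact h2
    · have h2 := (h1 u).2
      rw [← PPNet_o] at h2
      exact h2

theorem PPNet_ultra (x : (plcP p ι).X) (u v : ι → ℚ_[p]) :
    x.1 (u + v) ≤ max (x.1 u) (x.1 v) := by
  obtain ⟨_, g, a, rfl⟩ := x
  refine (plcP_le g a (u + v) (le_max_of_le_left (PPNet_nonneg g a u))).2 fun i => ?_
  have h1 := PPNet_co g a u i
  have h2 := PPNet_co g a v i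
  have h3 : (0 : ℝ) ≤ (p : ℝ) ^ a i := Real.rpow_nonneg PPNet_pos.le _
  rw [Matrix.mulVec_add, Pi.add_apply]
  rcases le_max_iff.1 (Padic.nonarchimedean ((Matrix.mulVec g.val u) i)
    ((Matrix.mulVec g.val v) i)) with h | h
  · exact le_max_of_le_left ((mul_le_mul_of_nonneg_right h h3).trans h1)
  · exact le_max_of_le_right ((mul_le_mul_of_nonneg_right h h3).trans h2)

theorem PPNet_smul (x : (plcP p ι).X) (d : ℚ_[p]) (u : ι → ℚ_[p]) :
    x.1 (d • u) = ‖d‖ * x.1 u := by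
  obtain ⟨_, g, a, rfl⟩ := x
  exact Plc.nrm_smul (P := plcP p ι) g a d u

theorem PPNet_eq (x : (plcP p ι).X) (u f : ι → ℚ_[p]) (h : x.1 (u - f) < x.1 f) :
    x.1 u = x.1 f := by
  have h1 : x.1 u ≤ x.1 f := by
    have := PPNet_ultra x (u - f) f
    rw [sub_add_cancel] at this
    exact this.trans (max_le h.le le_rfl)
  have h2 : x.1 (f - u) = x.1 (u - f) := by
    have := PPNet_smul x (-1) (u - f)
    rw [neg_one_smul, neg_sub, norm_neg, norm_one, one_mul] at this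
    exact this
  have h3 := PPNet_ultra x (f - u) u
  rw [sub_add_cancel, h2] at h3
  rcases le_max_iff.1 h3 with h4 | h4
  · exact absurd h4 (not_le.2 h)
  · exact le_antisymm h1 h4

omit [DecidableEq ι] in
theorem PPNet_norm (u : ι → ℚ_[p]) (hu : u ≠ 0) : ∃ z : ℤ, ‖u‖ = (p : ℝ) ^ z := by
  obtain ⟨j, hj⟩ := Function.ne_iff.1 hu
  obtain ⟨i, -, hi⟩ := Finset.exists_max_image Finset.univ (fun i => ‖u i‖) ⟨j, Finset.mem_univ j⟩
  have h1 : ‖u‖ = ‖u i‖ := le_antisymm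
    ((pi_norm_le_iff_of_nonneg (norm_nonneg _)).2 fun k => hi k (Finset.mem_univ k))
    (norm_le_pi_norm u i)
  have h2 : u i ≠ 0 := by
    intro h
    rw [h, norm_zero, norm_eq_zero] at h1
    exact hu h1
  exact ⟨-(u i).valuation, h1.trans (Padic.norm_eq_zpow_neg_valuation h2)⟩

theorem plcP_net (r : ℕ) : ∃ F : Finset (ι → ℚ_[p]), (∀ f ∈ F, f ≠ 0) ∧
    ∀ u : ι → ℚ_[p], u ≠ 0 → ∃ f ∈ F, ∃ z : ℤ, ∀ x : (plcP p ι).X,
      x ∈ closedBall (plcP p ι).sp.o r → x.1 u = (p : ℝ) ^ (z : ℝ) * x.1 f := by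
  have hp : (0 : ℝ) < p := PPNet_pos
  have hR : (0 : ℝ) < (p : ℝ) ^ (r : ℝ) := Real.rpow_pos_of_pos hp _
  set R : ℝ := (p : ℝ) ^ (r : ℝ) with hRdef
  have he : (0 : ℝ) < (R * R)⁻¹ := by positivity
  obtain ⟨t, ht, hf, hc⟩ := finite_cover_balls_of_compact
    (isCompact_sphere (0 : ι → ℚ_[p]) 1) he
  refine ⟨hf.toFinset, fun f hfF => ?_, fun u hu => ?_⟩
  · intro h0
    have := ht (hf.mem_toFinset.1 hfF)
    rw [h0] at this
    simp at this
  obtain ⟨z, hz⟩ := PPNet_norm u hu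
  have hpz : (0 : ℝ) < (p : ℝ) ^ z := zpow_pos hp z
  have hp0 : (p : ℚ_[p]) ≠ 0 := Nat.cast_ne_zero.2 (Fact.out : p.Prime).ne_zero
  have h1 : ‖((p : ℚ_[p]) ^ z) • u‖ = 1 := by
    rw [norm_smul, Padic.norm_p_zpow, hz, zpow_neg, inv_mul_cancel₀ hpz.ne']
  have h2 : ((p : ℚ_[p]) ^ z) • u ∈ sphere (0 : ι → ℚ_[p]) 1 := by
    simpa using h1
  obtain ⟨f, hft, hfb⟩ := Set.mem_iUnion₂.1 (hc h2)
  have hf1 : ‖f‖ = 1 := by simpa using ht hft
  refine ⟨f, hf.mem_toFinset.2 hft, z, fun x hx => ?_⟩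
  rw [plcP_ball _ (Nat.cast_nonneg r)] at hx
  have h3 : x.1 (((p : ℚ_[p]) ^ z) • u) = x.1 f := by
    refine PPNet_eq x _ _ ?_
    have a1 := (hx (((p : ℚ_[p]) ^ z) • u - f)).1
    have a2 := (hx f).2
    have a3 : ‖((p : ℚ_[p]) ^ z) • u - f‖ < (R * R)⁻¹ := by
      rw [← dist_eq_norm]; exact hfb
    rw [hf1] at a2
    have a4 : R * ‖((p : ℚ_[p]) ^ z) • u - f‖ < R * (R * R)⁻¹ := mul_lt_mul_of_pos_left a3 hR
    have a5 : R * (R * R)⁻¹ ≤ x.1 f := by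
      have : R * (R * R)⁻¹ = R⁻¹ := by field_simp
      rw [this, inv_le_iff_one_le_mul₀' hR]
      exact a2
    exact (a1.trans_lt a4).trans_le a5
  rw [PPNet_smul, Padic.norm_p_zpow] at h3
  rw [← h3, Real.rpow_intCast, ← mul_assoc, zpow_neg, mul_inv_cancel₀ hpz.ne', one_mul]

theorem plcP_max (x y : (plcP p ι).X) (c : ℝ) : ∃ w : (plcP p ι).X,
    ∀ u, w.1 u = max (x.1 u) ((p : ℝ) ^ (-c) * y.1 u) := by
  obtain ⟨g, a, a', hx, hy⟩ := plcP_join p x y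
  have hp : (0 : ℝ) < p := PPNet_pos
  refine ⟨⟨(plcP p ι).nrm g fun i => max (a i) (a' i + -c), g, _, rfl⟩, fun u => ?_⟩
  have e : (p : ℝ) ^ (-c) * y.1 u = (plcP p ι).nrm g (fun i => a' i + -c) u := by
    rw [hy]
    exact (Plc.nrm_add_const (P := plcP p ι) g a' (-c) u).symm
  rw [e, hx]
  refine le_antisymm ?_ (max_le ?_ ?_)
  · refine (plcP_le g _ u (le_max_of_le_left (PPNet_nonneg g a u))).2 fun i => ?_
    rcases le_total (a i) (a' i + -c) with h | h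
    · rw [max_eq_right h]
      exact le_max_of_le_right (PPNet_co g (fun i => a' i + -c) u i)
    · rw [max_eq_left h]
      exact le_max_of_le_left (PPNet_co g a u i)
  · exact Plc.nrm_mono (P := plcP p ι) g (fun i => le_max_left _ _) u
  · exact Plc.nrm_mono (P := plcP p ι) g (fun i => le_max_right _ _) u

theorem PPNet_rd (Q : ℕ) (hQ : 0 < Q) (z : ℤ) (a : ℝ) :
    (p : ℝ) ^ z * (p : ℝ) ^ ((⌈(Q : ℝ) * a⌉ : ℝ) / Q) =
      (p : ℝ) ^ ((⌈(Q : ℝ) * (z + a)⌉ : ℝ) / Q) := by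
  have hQ' : (Q : ℝ) ≠ 0 := Nat.cast_ne_zero.2 hQ.ne'
  have e : (Q : ℝ) * (z + a) = ((Q * z : ℤ) : ℝ) + Q * a := by push_cast; ring
  rw [e, Int.ceil_intCast_add, ← Real.rpow_intCast, ← Real.rpow_add PPNet_pos]
  congr 1
  push_cast
  field_simp

theorem PPNet_round (Q : ℕ) (hQ : 0 < Q) (g : GL ι ℚ_[p]) (a : ι → ℝ) (u : ι → ℚ_[p]) (t : ℝ)
    (ht' : (plcP p ι).nrm g a u = (p : ℝ) ^ t) :
    (plcP p ι).nrm g (fun i => (⌈(Q : ℝ) * a i⌉ : ℝ) / Q) u =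
      (p : ℝ) ^ ((⌈(Q : ℝ) * t⌉ : ℝ) / Q) := by
  have hp : (0 : ℝ) < p := PPNet_pos
  have hp1 : (1 : ℝ) < p := PPNet_one_lt
  have hQ' : (0 : ℝ) < Q := Nat.cast_pos.2 hQ
  have hv : ∀ i, (Matrix.mulVec g.val u) i ≠ 0 → ∃ z : ℤ,
      ‖(Matrix.mulVec g.val u) i‖ = (p : ℝ) ^ z := fun i hi =>
    ⟨_, Padic.norm_eq_zpow_neg_valuation hi⟩
  refine le_antisymm ?_ ?_
  · refine (plcP_le g _ u (Real.rpow_nonneg hp.le _)).2 fun i => ?_
    by_cases hi : (Matrix.mulVec g.val u) i = 0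
    · rw [hi, norm_zero, zero_mul]
      exact Real.rpow_nonneg hp.le _
    obtain ⟨z, hz⟩ := hv i hi
    have h1 := PPNet_co g a u i
    rw [ht', hz, ← Real.rpow_intCast, ← Real.rpow_add hp,
      Real.rpow_le_rpow_left_iff hp1] at h1
    rw [hz, PPNet_rd Q hQ]
    refine Real.rpow_le_rpow_of_exponent_le hp1.le (div_le_div_of_nonneg_right ?_ hQ'.le)
    exact Int.cast_le.2 (Int.ceil_mono (mul_le_mul_of_nonneg_left h1 hQ'.le))
  · have hex : ∃ i, (p : ℝ) ^ t ≤ ‖(Matrix.mulVec g.val u) i‖ * (p : ℝ) ^ a i := by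
      by_contra hne
      push Not at hne
      have hpt : (0 : ℝ) < (p : ℝ) ^ t := Real.rpow_pos_of_pos hp _
      have h2 : ‖fun i => ‖(Matrix.mulVec g.val u) i‖ * (p : ℝ) ^ a i‖ < (p : ℝ) ^ t := by
        refine (pi_norm_lt_iff hpt).2 fun i => ?_
        rw [Real.norm_of_nonneg (mul_nonneg (norm_nonneg _) (Real.rpow_nonneg hp.le _))]
        exact hne i
      exact h2.ne ht'
    obtain ⟨i, hi⟩ := hex
    have hi0 : (Matrix.mulVec g.val u) i ≠ 0 := by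
      intro h0
      rw [h0, norm_zero, zero_mul] at hi
      exact absurd hi (not_le.2 (Real.rpow_pos_of_pos hp _))
    obtain ⟨z, hz⟩ := hv i hi0
    refine le_trans ?_ (PPNet_co g (fun i => (⌈(Q : ℝ) * a i⌉ : ℝ) / Q) u i)
    rw [hz, ← Real.rpow_intCast, ← Real.rpow_add hp, Real.rpow_le_rpow_left_iff hp1] at hi
    rw [hz, PPNet_rd Q hQ]
    refine Real.rpow_le_rpow_of_exponent_le hp1.le (div_le_div_of_nonneg_right ?_ hQ'.le)
    exact Int.cast_le.2 (Int.ceil_mono (mul_le_mul_of_nonneg_left hi hQ'.le))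

theorem plcP_round (Q : ℕ) (hQ : 0 < Q) (x : (plcP p ι).X) : ∃ w : (plcP p ι).X,
    ∀ (u : ι → ℚ_[p]) (t : ℝ), x.1 u = (p : ℝ) ^ t →
      w.1 u = (p : ℝ) ^ ((⌈(Q : ℝ) * t⌉ : ℝ) / Q) := by
  obtain ⟨_, g, a, rfl⟩ := x
  exact ⟨⟨(plcP p ι).nrm g fun i => (⌈(Q : ℝ) * a i⌉ : ℝ) / Q, g, _, rfl⟩,
    fun u t ht => PPNet_round Q hQ g a u t ht⟩

end Pool.Agent.MP_f7db47_al.GF

end

section

/-!
Balls in the space of ultrametric norms.
-/

namespace Pool.Agent.MP_f7db47_al.GF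

open Metric

section aux

variable {p : ℕ} [Fact p.Prime] {ι : Type} [Fintype ι] [DecidableEq ι]

theorem PPFine_hb (p : ℕ) [hp : Fact p.Prime] : (1 : ℝ) < p := by exact_mod_cast hp.out.one_lt

theorem PPFine_b0 (p : ℕ) [Fact p.Prime] : (0 : ℝ) < p := zero_lt_one.trans (PPFine_hb p)

theorem PPFine_le {s t : ℝ} : (p : ℝ) ^ s ≤ (p : ℝ) ^ t ↔ s ≤ t :=
  Real.rpow_le_rpow_left_iff (PPFine_hb p)

theorem PPFine_zero (x : (plcP p ι).X) : x.1 (0 : ι → ℚ_[p]) = 0 := by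
  obtain ⟨_, g, a, rfl⟩ := x
  have h := Plc.nrm_smul (P := plcP p ι) g a 0 0
  rw [norm_zero, zero_mul, zero_smul] at h
  exact h

theorem PPFine_pos {r : ℝ} (hr : 0 ≤ r) {x : (plcP p ι).X}
    (hx : x ∈ closedBall (plcP p ι).sp.o r) {u : ι → ℚ_[p]} (hu : u ≠ 0) : 0 < x.1 u := by
  have h := ((plcP_ball r hr x).1 hx u).2
  have h1 : 0 < ‖u‖ := norm_pos_iff.2 hu
  exact pos_of_mul_pos_right (h1.trans_le h) (Real.rpow_nonneg (PPFine_b0 p).le _)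

theorem PPFine_exp {r : ℝ} (hr : 0 ≤ r) {x : (plcP p ι).X}
    (hx : x ∈ closedBall (plcP p ι).sp.o r) {u : ι → ℚ_[p]} (hu : u ≠ 0) :
    x.1 u = (p : ℝ) ^ (Real.logb p (x.1 u)) :=
  (Real.rpow_logb (PPFine_b0 p) (PPFine_hb p).ne' (PPFine_pos hr hx hu)).symm

theorem PPFine_log (t : ℝ) : Real.logb p ((p : ℝ) ^ t) = t :=
  Real.logb_rpow (PPFine_b0 p) (PPFine_hb p).ne'

omit [DecidableEq ι] in
theorem PPFine_norm {u : ι → ℚ_[p]} (hu : u ≠ 0) : ∃ z : ℤ, ‖u‖ = (p : ℝ) ^ (z : ℝ) := by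
  obtain ⟨i0, -⟩ := Function.ne_iff.1 hu
  obtain ⟨i, -, hi⟩ := Finset.exists_max_image Finset.univ (fun i => ‖u i‖)
    ⟨i0, Finset.mem_univ _⟩
  have e : ‖u‖ = ‖u i‖ := le_antisymm
    ((pi_norm_le_iff_of_nonneg (norm_nonneg _)).2 fun j => hi j (Finset.mem_univ _))
    (norm_le_pi_norm u i)
  have h0 : u i ≠ 0 := by
    intro h
    rw [h, norm_zero] at e
    exact hu (norm_eq_zero.1 e)
  exact ⟨-(u i).valuation, by rw [e, Real.rpow_intCast, Padic.norm_eq_zpow_neg_valuation h0]⟩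

theorem PPFine_lip {r : ℝ} (hr : 0 ≤ r) {x y : (plcP p ι).X}
    (hx : x ∈ closedBall (plcP p ι).sp.o r) (hy : y ∈ closedBall (plcP p ι).sp.o r)
    {u : ι → ℚ_[p]} (hu : u ≠ 0) :
    Real.logb p (x.1 u) ≤ dist x y + Real.logb p (y.1 u) := by
  have h := ((Plc.dist_le_iff (x := x) (y := y) dist_nonneg).1 le_rfl).1 u
  change x.1 u ≤ (p : ℝ) ^ dist x y * y.1 u at h
  rw [PPFine_exp hr hx hu, PPFine_exp hr hy hu, ← Real.rpow_add (PPFine_b0 p), PPFine_le] at h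
  exact h

theorem PPFine_lip2 {r : ℝ} (hr : 0 ≤ r) {x y : (plcP p ι).X}
    (hx : x ∈ closedBall (plcP p ι).sp.o r) (hy : y ∈ closedBall (plcP p ι).sp.o r)
    {u : ι → ℚ_[p]} (hu : u ≠ 0) :
    dist (-Real.logb p (x.1 u)) (-Real.logb p (y.1 u)) ≤ dist x y := by
  have h1 := PPFine_lip hr hx hy hu
  have h2 := PPFine_lip hr hy hx hu
  rw [dist_comm] at h2
  rw [Real.dist_eq, abs_le]
  exact ⟨by linarith, by linarith⟩

theorem PPFine_max {r : ℝ} (hr : 0 ≤ r) {x y w : (plcP p ι).X} {c : ℝ} (hc : 0 ≤ c)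
    (hx : x ∈ closedBall (plcP p ι).sp.o r) (hy : y ∈ closedBall (plcP p ι).sp.o r)
    (hw : ∀ u, w.1 u = max (x.1 u) ((p : ℝ) ^ (-c) * y.1 u)) :
    w ∈ closedBall (plcP p ι).sp.o r := by
  refine (plcP_ball r hr w).2 fun u => ⟨?_, ?_⟩
  · rw [hw]
    refine max_le ((plcP_ball r hr x).1 hx u).1 (le_trans ?_ ((plcP_ball r hr y).1 hy u).1)
    exact mul_le_of_le_one_left (y.nonneg u)
      (Real.rpow_le_one_of_one_le_of_nonpos (PPFine_hb p).le (neg_nonpos.2 hc))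
  · rw [hw]
    exact ((plcP_ball r hr x).1 hx u).2.trans (mul_le_mul_of_nonneg_left (le_max_left _ _)
      (Real.rpow_nonneg (PPFine_b0 p).le _))

theorem PPFine_round {r Q : ℕ} (hQ : 0 < Q) {x w : (plcP p ι).X}
    (hx : x ∈ closedBall (plcP p ι).sp.o r)
    (hw : ∀ (u : ι → ℚ_[p]) (t : ℝ), x.1 u = (p : ℝ) ^ t →
      w.1 u = (p : ℝ) ^ ((⌈(Q : ℝ) * t⌉ : ℝ) / Q)) :
    w ∈ closedBall (plcP p ι).sp.o r := by
  have hr : (0 : ℝ) ≤ r := r.cast_nonneg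
  have hQ' : (0 : ℝ) < Q := by exact_mod_cast hQ
  refine (plcP_ball r hr w).2 fun u => ?_
  by_cases hu : u = 0
  · subst hu
    have h0 := PPFine_zero w
    exact ⟨h0.trans_le (by rw [norm_zero, mul_zero]), by rw [h0, norm_zero, mul_zero]⟩
  obtain ⟨z, hz⟩ := PPFine_norm hu
  have h := (plcP_ball r hr x).1 hx u
  have e := PPFine_exp hr hx hu
  rw [hw u _ e]
  generalize Real.logb p (x.1 u) = t at e
  rw [e, hz, ← Real.rpow_add (PPFine_b0 p), ← Real.rpow_add (PPFine_b0 p), PPFine_le,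
    PPFine_le] at h
  rw [hz, ← Real.rpow_add (PPFine_b0 p), ← Real.rpow_add (PPFine_b0 p), PPFine_le, PPFine_le]
  constructor
  · rw [div_le_iff₀ hQ']
    have h1 : ⌈(Q : ℝ) * t⌉ ≤ ((r : ℤ) + z) * Q := by
      rw [Int.ceil_le]
      push_cast
      nlinarith [h.1]
    exact_mod_cast h1
  · have h1 : t ≤ (⌈(Q : ℝ) * t⌉ : ℝ) / Q := by
      rw [le_div_iff₀ hQ', mul_comm]
      exact Int.le_ceil _
    linarith [h.2]

end aux

theorem plcP_fine (p : ℕ) [Fact p.Prime] {ι : Type} [Fintype ι] [DecidableEq ι] :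
    (plcP p ι).sp.Fine (Fintype.card ι) := by
  intro r _
  have hr : (0 : ℝ) ≤ r := r.cast_nonneg
  obtain ⟨F, hF, hnet⟩ := plcP_net (p := p) (ι := ι) r
  refine ⟨{f // f ∈ F}, inferInstance,
    fun (x : (plcP p ι).X) f => -Real.logb p (x.1 f.1), ?_, ?_, ?_, ?_, ?_⟩
  · refine (LipschitzOnWith.of_dist_le_mul (K := 1) fun x hx y hy => ?_).continuousOn
    rw [NNReal.coe_one, one_mul]
    refine (dist_pi_le_iff dist_nonneg).2 fun f => ?_
    exact PPFine_lip2 hr hx hy (hF f.1 f.2)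
  · intro x hx y hy h
    refine Subtype.ext (funext fun u => ?_)
    by_cases hu : u = 0
    · subst hu
      exact (PPFine_zero x).trans (PPFine_zero y).symm
    obtain ⟨f, hf, z, hz⟩ := hnet u hu
    have h1 := neg_injective (congrFun h ⟨f, hf⟩)
    rw [hz x hx, hz y hy, PPFine_exp hr hx (hF f hf), PPFine_exp hr hy (hF f hf)]
    exact congrArg _ (congrArg _ h1)
  · rintro _ ⟨x, hx, rfl⟩ _ ⟨y, hy, rfl⟩ c hc
    obtain ⟨w, hw⟩ := plcP_max x y c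
    refine ⟨w, PPFine_max hr hc hx hy hw, funext fun f => ?_⟩
    have hm : Monotone fun t : ℝ => (p : ℝ) ^ t := fun s t h => PPFine_le.2 h
    have e : w.1 f.1 = (p : ℝ) ^ (max (Real.logb p (x.1 f.1)) (-c + Real.logb p (y.1 f.1))) := by
      rw [hm.map_max, Real.rpow_add (PPFine_b0 p), ← PPFine_exp hr hx (hF f.1 f.2),
        ← PPFine_exp hr hy (hF f.1 f.2), hw]
    change -Real.logb p (w.1 f.1) = min (-Real.logb p (x.1 f.1)) (-Real.logb p (y.1 f.1) + c)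
    rw [e, PPFine_log, ← min_neg_neg]
    congr 1
    ring
  · rintro Q hQ _ ⟨x, hx, rfl⟩
    obtain ⟨w, hw⟩ := plcP_round Q hQ x
    refine ⟨w, PPFine_round hQ hx hw, funext fun f => ?_⟩
    change -Real.logb p (w.1 f.1) = (⌊(Q : ℝ) * -Real.logb p (x.1 f.1)⌋ : ℝ) / Q
    rw [hw _ _ (PPFine_exp hr hx (hF f.1 f.2)), PPFine_log, mul_neg, Int.floor_neg]
    push_cast
    ring
  · intro Q hQ z M hmono hmem hM
    have hQ' : (0 : ℝ) < Q := by exact_mod_cast hQ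
    choose x hx hxe using hmem
    have hval : ∀ j (f : {f // f ∈ F}), (x j).1 f.1 = (p : ℝ) ^ (-((z j f : ℝ) / Q)) := by
      intro j f
      rw [PPFine_exp hr (hx j) (hF f.1 f.2), ← congrFun (hxe j) f, neg_neg]
    have key := plcP_chain (p := p) (ι := ι) Q hQ x M ?_ ?_ ?_
    · refine le_trans (Finset.card_le_card fun j hj => ?_) key
      simp only [Finset.mem_filter] at hj ⊢
      refine ⟨hj.1, fun h => hj.2 (funext fun f => ?_)⟩
      have h1 := (congrFun (hxe (j + 1)) f).symm.trans (h ▸ congrFun (hxe j) f)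
      have h2 : ((z (j + 1) f : ℤ) : ℝ) = z j f := (div_left_inj' hQ'.ne').1 h1
      exact_mod_cast h2
    · intro j u
      by_cases hu : u = 0
      · subst hu
        exact ((PPFine_zero _).trans (PPFine_zero _).symm).le
      obtain ⟨f, hf, t, ht⟩ := hnet u hu
      rw [ht _ (hx _), ht _ (hx _), hval _ ⟨f, hf⟩, hval _ ⟨f, hf⟩]
      refine mul_le_mul_of_nonneg_left (PPFine_le.2 (neg_le_neg ?_))
        (Real.rpow_nonneg (PPFine_b0 p).le _)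
      refine div_le_div_of_nonneg_right ?_ hQ'.le
      exact_mod_cast hmono (Nat.le_succ j) ⟨f, hf⟩
    · intro j u hu
      obtain ⟨f, hf, t, ht⟩ := hnet u hu
      refine ⟨t * Q - z j ⟨f, hf⟩, ?_⟩
      rw [ht _ (hx _), hval _ ⟨f, hf⟩, ← Real.rpow_add (PPFine_b0 p)]
      congr 1
      push_cast
      field_simp
      ring
    · intro u
      by_cases hu : u = 0
      · subst hu
        exact (PPFine_zero _).trans_le (mul_nonneg (Real.rpow_nonneg (PPFine_b0 p).le _)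
          (Plc.X.nonneg (P := plcP p ι) (x M) _))
      obtain ⟨f, hf, t, ht⟩ := hnet u hu
      rw [ht _ (hx _), ht _ (hx _), hval _ ⟨f, hf⟩, hval _ ⟨f, hf⟩,
        ← Real.rpow_add (PPFine_b0 p), ← Real.rpow_add (PPFine_b0 p),
        ← Real.rpow_add (PPFine_b0 p), PPFine_le]
      have h1 : ((z M ⟨f, hf⟩ : ℤ) : ℝ) ≤ z 0 ⟨f, hf⟩ + 1 := by exact_mod_cast hM ⟨f, hf⟩
      have h2 : ((z M ⟨f, hf⟩ : ℤ) : ℝ) / Q ≤ (z 0 ⟨f, hf⟩ : ℝ) / Q + 1 / Q := by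
        rw [← add_div]
        exact div_le_div_of_nonneg_right h1 hQ'.le
      linarith

end Pool.Agent.MP_f7db47_al.GF

end
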