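import Pool.Agent.Mg.Ff7db47.Gff0e1c
import Pool.Agent.Mg.Ff7db47.Gf348de

section

/-!
Homotopy actions and flow spaces of lines: definitions.
-/

namespace Pool.Agent.MP_f7db47_al.GF

open Metric

/-- A chosen line through two points. -/
noncomputable def Sp.Geo.ln {S : Sp} (h : S.Geo) (x y : S.X) : ℝ → S.X := (h.join x y).choose

open Classical in
/-- The contraction factors. -/
noncomputable def lam {G : Type} [Group G] (μ : ℝ) (g : G) : ℝ := if g = 1 then 1 else 1 - μ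

/-- The action followed by a contraction towards the base point. -/
noncomputable def Sp.Geo.phi {S : Sp} (h : S.Geo) {G : Type} [Group G]
    (ρ : G →* Equiv.Perm S.X) (μ : ℝ) (g : G) (y : S.X) : S.X :=
  h.ln S.o (ρ g y) (lam μ g)

/-- The homotopies. -/
noncomputable def Sp.Geo.hom {S : Sp} (h : S.Geo) {G : Type} [Group G]
    (ρ : G →* Equiv.Perm S.X) (μ : ℝ) (g g' : G) (u : ℝ) (y : S.X) : S.X :=
  h.ln S.o (h.ln (ρ g S.o) (ρ (g * g') y) (1 - u * (1 - lam μ g')))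
    ((1 - u) * lam μ (g * g') + u * lam μ g)

/-- The control map to the space of lines. -/
noncomputable def Sp.Geo.ctl {S : Sp} (h : S.Geo) (r L : ℝ) (y : S.X) (t : ℝ) : S.X :=
  h.ln S.o y ((r - L + t) / r)

/-- An action by isometries that preserve the lines. -/
structure Sp.Isom (S : Sp) {G : Type} [Group G] (ρ : G →* Equiv.Perm S.X) : Prop where
  iso : ∀ γ x y, dist (ρ γ x) (ρ γ y) = dist x y
  line : ∀ γ, ∀ c ∈ S.L, (fun t => ρ γ (c t)) ∈ S.L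

/-- The flow space is the space of lines of speed at most one. -/
structure Ev {Γ : Type} [Group Γ] {S : Sp} (A : Act Γ S) {Y : Type} [MetricSpace Y]
    [MulAction Γ Y] (F : Flow Γ Y) (ev : Y → ℝ → S.X) : Prop where
  pos : 0 < F.κ
  mem : ∀ y, ev y ∈ S.L ∧ dist (ev y 0) (ev y 1) ≤ 1
  surj : ∀ c ∈ S.L, dist (c 0) (c 1) ≤ 1 → ∃ y, ev y = c
  flow : ∀ s y t, ev (F.Φ s y) t = ev y (t + s)
  smul : ∀ (γ : Γ) y t, ev (γ • y) t = A.ρ γ (ev y t)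
  dist_le : ∀ y y' (r : ℝ),
    dist y y' ≤ r ↔ ∀ t, dist (ev y t) (ev y' t) ≤ r * Real.exp (F.κ * |t|)

open GN in
/-- A fine triangulation of `D` in which all boxes are acyclic. -/
structure Grid {F V : Type} [Fintype F] [LinearOrder V] (D : Set (F → ℝ)) (n : ℕ) (ρ : ℝ)
    (K : Finset V) (Adj : V → V → Prop) (pt : V → F → ℝ) : Prop where
  mem : ∀ x ∈ K, pt x ∈ D
  adj : ∀ x ∈ K, ∀ y ∈ K, Adj x y → dist (pt x) (pt y) ≤ ρ
  near : ∀ x ∈ D, ∃ z ∈ K, dist (pt z) x ≤ ρ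
  dim : ∀ σ, Clq Adj K σ → σ.card ≤ n + 1
  box : ∀ (lo hi : F → ℝ) (B : Finset V),
    (∀ z, z ∈ B ↔ z ∈ K ∧ ∀ i, lo i ≤ pt z i ∧ pt z i ≤ hi i) → B.Nonempty → Acyc Adj B

end Pool.Agent.MP_f7db47_al.GF

end

section

/-!
Lines and segments.
-/

namespace Pool.Agent.MP_f7db47_al.GF

open Metric

variable {S : Sp}

theorem FLine_const (h : S.Geo) (x : S.X) : (fun _ => x) ∈ S.L := by
  obtain ⟨c, hc, h0, -⟩ := h.join x x
  simpa [h0] using h.aff c hc 0 0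

theorem FLine_seg (h : S.Geo) {c : ℝ → S.X} (hc : c ∈ S.L) {a u b : ℝ} (hab : a < b) (h0 : a ≤ u)
    (h1 : u ≤ b) : (b - a) * dist (c a) (c u) = (u - a) * dist (c a) (c b) ∧
      (b - a) * dist (c u) (c b) = (b - u) * dist (c a) (c b) := by
  have hp := sub_pos.2 hab
  have l0 : 0 ≤ (u - a) / (b - a) := div_nonneg (sub_nonneg.2 h0) hp.le
  have l1 : (u - a) / (b - a) ≤ 1 := (div_le_one hp).2 (by linarith)
  have e1 := h.conv _ (h.aff c hc (b - a) a) _ (FLine_const h (c a)) _ l0 l1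
  have e2 := h.conv _ (h.aff c hc (b - a) a) _ (FLine_const h (c b)) _ l0 l1
  simp only [mul_div_cancel₀ _ hp.ne', sub_add_cancel, mul_zero, zero_add, mul_one, dist_self,
    add_zero, dist_comm _ (c a)] at e1 e2
  have e3 := dist_triangle (c a) (c u) (c b)
  have e4 : dist (c a) (c u) = (u - a) / (b - a) * dist (c a) (c b) := by linarith
  have e5 : dist (c u) (c b) = (1 - (u - a) / (b - a)) * dist (c a) (c b) := by linarith
  rw [e4, e5]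
  constructor <;> field_simp <;> ring

theorem FLine_two (h : S.Geo) {c : ℝ → S.X} (hc : c ∈ S.L) {a s t b : ℝ} (h0 : a < s)
    (h1 : s ≤ t) (h2 : t ≤ b) : (b - a) * dist (c s) (c t) = (t - s) * dist (c a) (c b) := by
  have e1 := (FLine_seg h hc (h0.trans_le (h1.trans h2)) (h0.le.trans h1) h2).1
  have e2 := (FLine_seg h hc (h0.trans_le h1) h0.le h1).2
  refine mul_left_cancel₀ (sub_pos.2 (h0.trans_le h1)).ne' ?_
  linear_combination (b - a) * e2 + (t - s) * e1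

theorem Sp.Geo.speed (h : S.Geo) {c : ℝ → S.X} (hc : c ∈ S.L) (s t : ℝ) :
    dist (c s) (c t) = |s - t| * dist (c 0) (c 1) := by
  wlog hst : s ≤ t generalizing s t
  · rw [dist_comm, abs_sub_comm]
    exact this t s (le_of_not_ge hst)
  have a1 := abs_nonneg s
  have a2 := abs_nonneg t
  have e1 := FLine_two h hc (a := -(|s| + |t| + 1)) (b := |s| + |t| + 1)
    (by linarith [neg_abs_le s]) hst (by linarith [le_abs_self t])
  have e2 := FLine_two h hc (a := -(|s| + |t| + 1)) (b := |s| + |t| + 1)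
    (by linarith) zero_le_one (by linarith)
  rw [abs_of_nonpos (sub_nonpos.2 hst)]
  refine mul_left_cancel₀ (show |s| + |t| + 1 - -(|s| + |t| + 1) ≠ 0 by linarith) ?_
  linear_combination e1 - (t - s) * e2

theorem Sp.Geo.const (h : S.Geo) (x : S.X) : (fun _ => x) ∈ S.L := by
  exact FLine_const h x

theorem Sp.Geo.ln_mem (h : S.Geo) (x y : S.X) : h.ln x y ∈ S.L := by
  exact (h.join x y).choose_spec.1

theorem Sp.Geo.ln_zero (h : S.Geo) (x y : S.X) : h.ln x y 0 = x := by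
  exact (h.join x y).choose_spec.2.1

theorem Sp.Geo.ln_one (h : S.Geo) (x y : S.X) : h.ln x y 1 = y := by
  exact (h.join x y).choose_spec.2.2

theorem Sp.Geo.ln_dist (h : S.Geo) (x y : S.X) (s t : ℝ) :
    dist (h.ln x y s) (h.ln x y t) = |s - t| * dist x y := by
  rw [h.speed (h.ln_mem x y), h.ln_zero, h.ln_one]

theorem Sp.Geo.ln_conv (h : S.Geo) (x y x' y' : S.X) {l : ℝ} (h0 : 0 ≤ l) (h1 : l ≤ 1) :
    dist (h.ln x y l) (h.ln x' y' l) ≤ (1 - l) * dist x x' + l * dist y y' := by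
  simpa only [h.ln_zero, h.ln_one] using h.conv _ (h.ln_mem x y) _ (h.ln_mem x' y') l h0 h1

theorem Sp.Geo.ln_pt (h : S.Geo) (x y z : S.X) {l : ℝ} (h0 : 0 ≤ l) (h1 : l ≤ 1) :
    dist (h.ln x y l) z ≤ (1 - l) * dist x z + l * dist y z := by
  simpa only [h.ln_zero, h.ln_one] using h.conv _ (h.ln_mem x y) _ (h.const z) l h0 h1

theorem Sp.Geo.ln_eq (h : S.Geo) {c : ℝ → S.X} (hc : c ∈ S.L) {l : ℝ} (h0 : 0 ≤ l)
    (h1 : l ≤ 1) : h.ln (c 0) (c 1) l = c l := by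
  simpa [h.ln_zero, h.ln_one] using h.conv _ (h.ln_mem (c 0) (c 1)) _ hc l h0 h1

theorem Sp.Geo.ln_ln (h : S.Geo) (x y : S.X) (m : ℝ) {l : ℝ} (h0 : 0 ≤ l) (h1 : l ≤ 1) :
    h.ln x (h.ln x y m) l = h.ln x y (m * l) := by
  simpa [h.ln_zero] using h.ln_eq (h.aff _ (h.ln_mem x y) m 0) h0 h1

theorem Sp.Geo.ln_smul (h : S.Geo) {G : Type} [Group G] {ρ : G →* Equiv.Perm S.X}
    (hρ : S.Isom ρ) (g : G) (x y : S.X) {l : ℝ} (h0 : 0 ≤ l) (h1 : l ≤ 1) :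
    ρ g (h.ln x y l) = h.ln (ρ g x) (ρ g y) l := by
  simpa only [h.ln_zero, h.ln_one] using (h.ln_eq (hρ.line g _ (h.ln_mem x y)) h0 h1).symm

theorem Sp.Geo.ln_cont (h : S.Geo) :
    ContinuousOn (fun p : (S.X × S.X) × ℝ => h.ln p.1.1 p.1.2 p.2)
      (Set.univ ×ˢ Set.Icc 0 1) := by
  rintro ⟨⟨x, y⟩, l⟩ -
  have h1 : Continuous fun p : (S.X × S.X) × ℝ =>
      dist p.1.1 x + dist p.1.2 y + |p.2 - l| * dist x y := by fun_prop
  refine tendsto_iff_dist_tendsto_zero.2 (squeeze_zero' (.of_forall fun _ => dist_nonneg) ?_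
    (by simpa using (h1.tendsto ((x, y), l)).mono_left nhdsWithin_le_nhds))
  filter_upwards [self_mem_nhdsWithin] with p ⟨_, h2, h3⟩
  have e1 := h.ln_conv p.1.1 p.1.2 x y h2 h3
  have e2 := dist_triangle (h.ln p.1.1 p.1.2 p.2) (h.ln x y p.2) (h.ln x y l)
  rw [h.ln_dist] at e2
  nlinarith [mul_nonneg h2 (dist_nonneg (x := p.1.1) (y := x)),
    mul_nonneg (sub_nonneg.2 h3) (dist_nonneg (x := p.1.2) (y := y))]

theorem Sp.Good.cpt (h : S.Good) (x : S.X) (r : ℝ) : IsCompact (closedBall x r) := by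
  obtain ⟨κ, m, -, hp⟩ := h.par
  obtain ⟨P, _, s, π, A, h1, -, -, h2, h3⟩ := hp (r + dist x S.o)
  have h4 : ContinuousOn (fun p => π p 0) s := by
    refine (LipschitzOnWith.of_dist_le' (K := A) fun p hp p' hp' => ?_).continuousOn
    simpa using h2 p hp p' hp' 0
  refine (h1.image_of_continuousOn h4).of_isClosed_subset isClosed_closedBall fun y hy => ?_
  obtain ⟨p, hp, e⟩ := h3 _ (h.geo.const y)
    ((dist_triangle y x S.o).trans (add_le_add_left (mem_closedBall.1 hy) _)) (by simp)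
  exact ⟨p, hp, congrFun e 0⟩

end Pool.Agent.MP_f7db47_al.GF

end

section

/-!
The homotopy action on a large ball.
-/

namespace Pool.Agent.MP_f7db47_al.GF

open Metric

theorem FHa_lam {G : Type} [Group G] {μ : ℝ} (h0 : 0 ≤ μ) (h1 : μ ≤ 1) (g : G) :
    0 ≤ lam μ g ∧ lam μ g ≤ 1 := by
  unfold lam
  split_ifs
  · exact ⟨zero_le_one, le_rfl⟩
  · exact ⟨by linarith, by linarith⟩

theorem FHa_lam_one {G : Type} [Group G] (μ : ℝ) : lam μ (1 : G) = 1 := by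
  unfold lam
  rw [if_pos rfl]

theorem FHa_lam_ne {G : Type} [Group G] (μ : ℝ) {g : G} (hg : g ≠ 1) : lam μ g = 1 - μ := by
  unfold lam
  rw [if_neg hg]

theorem FHa_l1 {a u : ℝ} (ha : 0 ≤ a ∧ a ≤ 1) (hu : u ∈ Set.Icc (0 : ℝ) 1) :
    0 ≤ 1 - u * (1 - a) ∧ 1 - u * (1 - a) ≤ 1 := by
  obtain ⟨a0, a1⟩ := ha
  obtain ⟨u0, u1⟩ := hu
  constructor
  · nlinarith [mul_nonneg u0 a0]
  · nlinarith [mul_nonneg u0 (sub_nonneg.2 a1)]

theorem FHa_l2 {a b u : ℝ} (ha : 0 ≤ a ∧ a ≤ 1) (hb : 0 ≤ b ∧ b ≤ 1)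
    (hu : u ∈ Set.Icc (0 : ℝ) 1) :
    0 ≤ (1 - u) * a + u * b ∧ (1 - u) * a + u * b ≤ 1 := by
  obtain ⟨a0, a1⟩ := ha
  obtain ⟨b0, b1⟩ := hb
  obtain ⟨u0, u1⟩ := hu
  constructor
  · exact add_nonneg (mul_nonneg (sub_nonneg.2 u1) a0) (mul_nonneg u0 b0)
  · nlinarith [mul_nonneg (sub_nonneg.2 u1) (sub_nonneg.2 a1), mul_nonneg u0 (sub_nonneg.2 b1)]

theorem FHa_dist {S : Sp} (h : S.Geo) (w : S.X) {l : ℝ} (h0 : 0 ≤ l) :
    dist (h.ln S.o w l) S.o = l * dist w S.o := by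
  have e := h.ln_dist S.o w l 0
  rw [h.ln_zero, sub_zero, abs_of_nonneg h0, dist_comm S.o w] at e
  exact e

theorem Sp.Geo.hact {S : Sp} (h : S.Geo) {G : Type} [Group G] {ρ : G →* Equiv.Perm S.X}
    (hρ : S.Isom ρ) (S₀ : Finset G) {C r : ℝ} (hC : 0 ≤ C) (hr : 0 < r) (hCr : 2 * C ≤ r)
    (h1 : ∀ g ∈ S₀, dist (ρ g S.o) S.o ≤ C)
    (h2 : ∀ g ∈ S₀, ∀ g' ∈ S₀, dist (ρ (g * g') S.o) S.o ≤ C) :
    HAct S₀ (closedBall S.o r) (h.phi ρ (2 * C / r)) (h.hom ρ (2 * C / r)) := by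
  obtain ⟨x, rfl⟩ : ∃ x, C = x * r := ⟨C / r, by field_simp⟩
  have hx0 : 0 ≤ x := nonneg_of_mul_nonneg_left hC hr
  have hx1 : 2 * x ≤ 1 := by
    by_contra hc
    have : 1 < 2 * x := not_le.1 hc
    nlinarith
  have hμ : 2 * (x * r) / r = 2 * x := by field_simp
  rw [hμ]
  have hl : ∀ g : G, 0 ≤ lam (2 * x) g ∧ lam (2 * x) g ≤ 1 :=
    fun g => FHa_lam (by linarith) hx1 g
  refine ⟨?_, ?_, ?_, ?_, ?_⟩
  · intro y _
    unfold Sp.Geo.phi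
    rw [FHa_lam_one, h.ln_one, map_one, Equiv.Perm.coe_one, id]
  · intro g hg g' hg' u hu y hy
    have a1 := FHa_l1 (hl g') hu
    have a2 := FHa_l2 (hl (g * g')) (hl g) hu
    rw [mem_closedBall] at hy ⊢
    unfold Sp.Geo.hom
    rw [FHa_dist h _ a2.1]
    have hw := h.ln_pt (ρ g S.o) (ρ (g * g') y) S.o a1.1 a1.2
    have hb : dist (ρ (g * g') y) S.o ≤ r + dist (ρ (g * g') S.o) S.o := by
      have t := dist_triangle (ρ (g * g') y) (ρ (g * g') S.o) S.o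
      rw [hρ.iso] at t
      linarith
    have ha := h1 g hg
    have hb2 := h2 g hg g' hg'
    obtain ⟨u0, u1⟩ := hu
    refine le_trans (mul_le_mul_of_nonneg_left hw a2.1) ?_
    have hxr : 0 ≤ x * r := hC
    by_cases hgg : g * g' = 1
    · have hb0 : dist (ρ (g * g') S.o) S.o = 0 := by
        rw [hgg, map_one, Equiv.Perm.coe_one, id, dist_self]
      rw [hb0, add_zero] at hb
      have har : dist (ρ g S.o) S.o ≤ r := by linarith
      have t1 := mul_le_mul_of_nonneg_left har (sub_nonneg.2 a1.2)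
      have t2 := mul_le_mul_of_nonneg_left hb a1.1
      have t3 : (1 - (1 - u * (1 - lam (2 * x) g'))) * dist (ρ g S.o) S.o +
          (1 - u * (1 - lam (2 * x) g')) * dist (ρ (g * g') y) S.o ≤ r := by linarith
      refine le_trans (mul_le_mul_of_nonneg_left t3 a2.1) ?_
      nlinarith [mul_nonneg (sub_nonneg.2 a2.2) hr.le]
    · have hb3 : dist (ρ (g * g') y) S.o ≤ (1 + x) * r := by linarith
      by_cases hg1 : g = 1
      · have hg'1 : g' ≠ 1 := by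
          intro e
          exact hgg (by rw [hg1, e, mul_one])
        have ha0 : dist (ρ g S.o) S.o = 0 := by
          rw [hg1, map_one, Equiv.Perm.coe_one, id, dist_self]
        have e1 : lam (2 * x) g = 1 := by rw [hg1, FHa_lam_one]
        rw [ha0, mul_zero, zero_add, ← mul_assoc]
        refine le_trans (mul_le_mul_of_nonneg_left hb3 (mul_nonneg a2.1 a1.1)) ?_
        rw [e1, FHa_lam_ne _ hgg, FHa_lam_ne _ hg'1, ← mul_assoc]
        have t1 : ((1 - u) * (1 - 2 * x) + u * 1) * (1 - u * (1 - (1 - 2 * x))) ≤ (1 - x) ^ 2 := by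
          nlinarith [sq_nonneg (x * (1 - 2 * u))]
        have t2 : (1 - x) ^ 2 * (1 + x) ≤ 1 := by
          nlinarith [mul_nonneg hx0 hx0, mul_nonneg (mul_nonneg hx0 hx0) (sub_nonneg.2 hx1)]
        have t3 := mul_le_mul_of_nonneg_right t1 (by linarith : (0 : ℝ) ≤ 1 + x)
        have t4 := mul_le_mul_of_nonneg_right (le_trans t3 t2) hr.le
        linarith
      · have har : dist (ρ g S.o) S.o ≤ (1 + x) * r := by linarith
        have t1 := mul_le_mul_of_nonneg_left har (sub_nonneg.2 a1.2)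
        have t2 := mul_le_mul_of_nonneg_left hb3 a1.1
        have t3 : (1 - (1 - u * (1 - lam (2 * x) g'))) * dist (ρ g S.o) S.o +
            (1 - u * (1 - lam (2 * x) g')) * dist (ρ (g * g') y) S.o ≤ (1 + x) * r := by linarith
        refine le_trans (mul_le_mul_of_nonneg_left t3 a2.1) ?_
        rw [FHa_lam_ne _ hgg, FHa_lam_ne _ hg1]
        nlinarith [mul_nonneg hx0 hxr]
  · intro g _ g' _
    have hc : Continuous (ρ (g * g')) := (Isometry.of_dist_eq (hρ.iso (g * g'))).continuous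
    have c1 : ContinuousOn (fun p : ℝ × S.X =>
        h.ln (ρ g S.o) (ρ (g * g') p.2) (1 - p.1 * (1 - lam (2 * x) g')))
        (Set.Icc 0 1 ×ˢ closedBall S.o r) := by
      refine h.ln_cont.comp (f := fun p : ℝ × S.X =>
        ((ρ g S.o, ρ (g * g') p.2), 1 - p.1 * (1 - lam (2 * x) g'))) ?_ ?_
      · exact Continuous.continuousOn (by fun_prop)
      · intro p hp
        exact ⟨Set.mem_univ _, FHa_l1 (hl g') hp.1⟩
    refine h.ln_cont.comp (f := fun p : ℝ × S.X =>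
        ((S.o, h.ln (ρ g S.o) (ρ (g * g') p.2) (1 - p.1 * (1 - lam (2 * x) g'))),
          (1 - p.1) * lam (2 * x) (g * g') + p.1 * lam (2 * x) g)) ?_ ?_
    · exact (continuousOn_const.prodMk c1).prodMk (Continuous.continuousOn (by fun_prop))
    · intro p hp
      exact ⟨Set.mem_univ _, FHa_l2 (hl (g * g')) (hl g) hp.1⟩
  · intro g _ g' _ y _
    unfold Sp.Geo.hom Sp.Geo.phi
    rw [zero_mul, sub_zero, h.ln_one, one_mul, zero_mul, add_zero]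
  · intro g _ g' _ y _
    unfold Sp.Geo.hom Sp.Geo.phi
    rw [h.ln_smul hρ g _ _ (hl g').1 (hl g').2, one_mul, sub_sub_cancel, sub_self, zero_mul,
      zero_add, one_mul, map_mul, Equiv.Perm.mul_apply]

theorem Sp.Geo.ctl_mem {S : Sp} (h : S.Geo) {r : ℝ} (hr : 0 < r) (L : ℝ) {y : S.X}
    (hy : y ∈ closedBall S.o r) :
    h.ctl r L y ∈ S.L ∧ dist (h.ctl r L y 0) (h.ctl r L y 1) ≤ 1 := by
  constructor
  · have e : h.ctl r L y = fun t => h.ln S.o y (1 / r * t + (r - L) / r) := by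
      funext t
      unfold Sp.Geo.ctl
      congr 1
      ring
    rw [e]
    exact h.aff _ (h.ln_mem S.o y) _ _
  · unfold Sp.Geo.ctl
    rw [mem_closedBall, dist_comm] at hy
    rw [h.ln_dist]
    have e : (r - L + 0) / r - (r - L + 1) / r = -(1 / r) := by ring
    rw [e, abs_neg, abs_of_pos (one_div_pos.2 hr), one_div, inv_mul_le_iff₀ hr, mul_one]
    exact hy

end Pool.Agent.MP_f7db47_al.GF

end

section

/-!
Control of the homotopy action over the flow space.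
-/

namespace Pool.Agent.MP_f7db47_al.GF

open Metric

theorem FHb_lip {S : Sp} (h : S.Geo) {r : ℝ} (hr : 0 < r) (L : ℝ) {y : S.X}
    (hy : y ∈ closedBall S.o r) (s t : ℝ) :
    dist (h.ctl r L y s) (h.ctl r L y t) ≤ |s - t| := by
  obtain ⟨hm, hs⟩ := h.ctl_mem hr L hy
  rw [h.speed hm s t]
  exact mul_le_of_le_one_right (abs_nonneg _) hs

theorem FHb_exp {κ ε t : ℝ} (hκ : 0 < κ) (hε : 0 < ε) (ht : 4 / (ε * κ ^ 2) ≤ |t|) :
    ε + 2 * |t| ≤ 2 * ε * Real.exp (κ * |t|) := by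
  have h0 : 0 ≤ κ * |t| := by positivity
  have h1 := Real.quadratic_le_exp_of_nonneg h0
  have h2 : 4 ≤ |t| * (ε * κ ^ 2) := by
    rwa [div_le_iff₀ (by positivity)] at ht
  have h3 : 0 ≤ |t| := abs_nonneg t
  have h4 : ε * (1 + κ * |t| + (κ * |t|) ^ 2 / 2) ≤ ε * Real.exp (κ * |t|) :=
    mul_le_mul_of_nonneg_left h1 hε.le
  have h5 : 4 * |t| ≤ |t| * (ε * κ ^ 2) * |t| := mul_le_mul_of_nonneg_right h2 h3
  have h6 : 0 ≤ ε * (κ * |t|) := by positivity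
  nlinarith

theorem FHb_one {κ ε : ℝ} (hκ : 0 < κ) (hε : 0 < ε) (t : ℝ) :
    ε ≤ 2 * ε * Real.exp (κ * |t|) := by
  have h0 : 0 ≤ κ * |t| := by positivity
  have h1 : 1 ≤ Real.exp (κ * |t|) := Real.one_le_exp h0
  nlinarith

theorem FHb_tail {X : Type} [MetricSpace X] {a b : ℝ → X} {κ ε : ℝ} (hκ : 0 < κ) (hε : 0 < ε)
    (ha : ∀ t, dist (a t) (a 0) ≤ |t|) (hb : ∀ t, dist (b 0) (b t) ≤ |t|)
    (hab : ∀ t, |t| ≤ 4 / (ε * κ ^ 2) → dist (a t) (b t) ≤ ε) (t : ℝ) :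
    dist (a t) (b t) ≤ 2 * ε * Real.exp (κ * |t|) := by
  rcases le_total |t| (4 / (ε * κ ^ 2)) with ht | ht
  · exact (hab t ht).trans (FHb_one hκ hε t)
  · have h0 := hab 0 (by rw [abs_zero]; positivity)
    have h1 := dist_triangle4 (a t) (a 0) (b 0) (b t)
    have h2 := FHb_exp hκ hε ht
    linarith [ha t, hb t]

theorem FHb_lam {G : Type} [Group G] {μ : ℝ} (hμ : 0 ≤ μ) (g : G) :
    1 - μ ≤ lam μ g ∧ lam μ g ≤ 1 := by
  unfold lam
  split_ifs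
  · constructor <;> linarith
  · constructor <;> linarith

theorem FHb_core {S : Sp} (h : S.Geo) (o p q v : S.X) {C r l1 l2 T : ℝ} (τ : ℝ)
    (hp : dist p o ≤ C) (hq : dist q o ≤ C) (hv : dist q v ≤ r)
    (h10 : 0 ≤ l1) (h11 : l1 ≤ 1) (h20 : 0 ≤ l2) (h21 : l2 ≤ 1) (hT0 : 0 ≤ T) (hT1 : T ≤ 1) :
    dist (h.ln o (h.ln o (h.ln p v l1) l2) T) (h.ln q v τ) ≤
      3 * C * (1 - l1 * l2 * T) + |l1 * l2 * T - τ| * r := by
  have hC : 0 ≤ C := dist_nonneg.trans hp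
  have ha0 : 0 ≤ l2 * T := mul_nonneg h20 hT0
  have ha1 : l2 * T ≤ 1 := mul_le_one₀ h21 hT0 hT1
  have hb0 : 0 ≤ l1 * (l2 * T) := mul_nonneg h10 ha0
  have hb1 : l1 * (l2 * T) ≤ l2 * T := mul_le_of_le_one_left ha0 h11
  rw [h.ln_ln o _ l2 hT0 hT1]
  have e1 := h.ln_conv o (h.ln p v l1) p (h.ln p v l1) ha0 ha1
  rw [h.ln_ln p v l1 ha0 ha1, dist_self, mul_zero, add_zero, dist_comm o p] at e1
  have e2 := h.ln_conv p v q v hb0 (hb1.trans ha1)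
  rw [dist_self, mul_zero, add_zero] at e2
  have e3 := h.ln_dist q v (l1 * (l2 * T)) τ
  have e4 : dist p q ≤ 2 * C := by
    have := dist_triangle_right p q o
    linarith
  have e5 := dist_triangle4 (h.ln o (h.ln p v l1) (l2 * T)) (h.ln p v (l1 * (l2 * T)))
    (h.ln q v (l1 * (l2 * T))) (h.ln q v τ)
  have e6 : (1 - l2 * T) * dist p o ≤ (1 - l1 * (l2 * T)) * C :=
    mul_le_mul (by linarith) hp dist_nonneg (by linarith)
  have e7 : (1 - l1 * (l2 * T)) * dist p q ≤ (1 - l1 * (l2 * T)) * (2 * C) :=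
    mul_le_mul_of_nonneg_left e4 (by linarith)
  have e8 : |l1 * (l2 * T) - τ| * dist q v ≤ |l1 * (l2 * T) - τ| * r :=
    mul_le_mul_of_nonneg_left hv (abs_nonneg _)
  rw [mul_assoc l1 l2 T]
  linarith

theorem FHb_num {C r L L0 Λ ε : ℝ} (hC : 0 ≤ C) (hr : 0 < r) (hL0 : 0 ≤ L0)
    (hL : L = L0 + 8 * C) (hr1 : 2 * L ≤ r) (hr2 : 10 * C * L ≤ ε * r)
    (hΛ0 : 1 - 4 * C / r ≤ Λ) (hΛ1 : Λ ≤ 1) :
    ∃ s : ℝ, |s| ≤ 8 * C ∧ ∀ t, |t| ≤ L0 →
      0 ≤ (r - L + (t + s)) / r ∧ (r - L + (t + s)) / r ≤ 1 ∧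
      3 * C * (1 - Λ * ((r - L + (t + s)) / r)) +
        |Λ * ((r - L + (t + s)) / r) - (r - L + t) / r| * r ≤ ε := by
  have hd : (1 - Λ) * r ≤ 4 * C := by
    have : 1 - Λ ≤ 4 * C / r := by linarith
    rwa [le_div_iff₀ hr] at this
  have hhalf : 1 / 2 ≤ Λ := by
    by_contra hlt
    have hlt' : 1 / 2 < 1 - Λ := by linarith [not_le.mp hlt]
    have := mul_lt_mul_of_pos_right hlt' hr
    linarith
  have hΛ : 0 < Λ := by linarith
  have hrL : 0 ≤ r - L := by linarith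
  have hs0 : 0 ≤ (r - L) * (1 - Λ) / Λ := div_nonneg (mul_nonneg hrL (by linarith)) hΛ.le
  have hs1 : (r - L) * (1 - Λ) / Λ ≤ 8 * C := by
    rw [div_le_iff₀ hΛ]
    have a1 : (r - L) * (1 - Λ) ≤ r * (1 - Λ) :=
      mul_le_mul_of_nonneg_right (by linarith) (by linarith)
    have a2 : 8 * C * (1 / 2) ≤ 8 * C * Λ := mul_le_mul_of_nonneg_left hhalf (by linarith)
    linarith
  refine ⟨(r - L) * (1 - Λ) / Λ, by rwa [abs_of_nonneg hs0], fun t ht => ?_⟩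
  obtain ⟨ht0, ht1⟩ := abs_le.mp ht
  refine ⟨div_nonneg (by linarith) hr.le, by rw [div_le_one hr]; linarith, ?_⟩
  have e1 : Λ * ((r - L + (t + (r - L) * (1 - Λ) / Λ)) / r) = (r - L + Λ * t) / r := by
    field_simp
    ring
  have e2 : (r - L + Λ * t) / r - (r - L + t) / r = -((1 - Λ) * t) / r := by
    field_simp
    ring
  have e3 : |-((1 - Λ) * t) / r| * r = (1 - Λ) * |t| := by
    rw [abs_div, abs_neg, abs_mul, abs_of_pos hr, abs_of_nonneg (by linarith : 0 ≤ 1 - Λ),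
      div_mul_cancel₀ _ hr.ne']
  have e4 : 1 - (r - L + Λ * t) / r = (L - Λ * t) / r := by
    field_simp
    ring
  rw [e1, e2, e3, e4]
  have hLt : |t| ≤ L := by linarith
  have b1 : L - Λ * t ≤ 2 * L := by
    have c1 : Λ * (-t) ≤ Λ * L := mul_le_mul_of_nonneg_left (by linarith) hΛ.le
    have c2 : Λ * L ≤ L := mul_le_of_le_one_left (by linarith) hΛ1
    linarith
  have b2 : 3 * C * (L - Λ * t) ≤ 3 * C * (2 * L) := mul_le_mul_of_nonneg_left b1 (by linarith)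
  have b3 : (1 - Λ) * r * |t| ≤ 4 * C * L :=
    mul_le_mul hd hLt (abs_nonneg t) (by linarith)
  have b4 : 3 * C * ((L - Λ * t) / r) + (1 - Λ) * |t| =
      (3 * C * (L - Λ * t) + (1 - Λ) * r * |t|) / r := by
    field_simp
  rw [b4, div_le_iff₀ hr]
  linarith

theorem Sp.Geo.control {S : Sp} (h : S.Geo) {G : Type} [Group G] {ρ : G →* Equiv.Perm S.X}
    (hρ : S.Isom ρ) (S₀ : Finset G) {C κ ε : ℝ} (hC : 0 ≤ C) (hκ : 0 < κ) (hε : 0 < ε)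
    (h1 : ∀ g ∈ S₀, dist (ρ g S.o) S.o ≤ C)
    (h2 : ∀ g ∈ S₀, ∀ g' ∈ S₀, dist (ρ (g * g') S.o) S.o ≤ C) :
    ∃ (r : ℕ) (L : ℝ), 0 < r ∧ 2 * C ≤ r ∧
      (∀ x ∈ closedBall S.o r, ∀ y ∈ closedBall S.o r, dist x y ≤ ε →
        ∀ t, dist (h.ctl r L x t) (h.ctl r L y t) ≤ 2 * ε * Real.exp (κ * |t|)) ∧
      ∀ g ∈ S₀, ∀ g' ∈ S₀, ∀ u ∈ Set.Icc (0 : ℝ) 1, ∀ y ∈ closedBall S.o r, ∃ s : ℝ,
        |s| ≤ 8 * C ∧ ∀ t, dist (h.ctl r L (h.hom ρ (2 * C / r) g g' u y) (t + s))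
          (ρ (g * g') (h.ctl r L y t)) ≤ 2 * ε * Real.exp (κ * |t|) := by
  have hL0 : 0 < 4 / (ε * κ ^ 2) := by positivity
  obtain ⟨L, hL⟩ : ∃ L : ℝ, L = 4 / (ε * κ ^ 2) + 8 * C := ⟨_, rfl⟩
  have hLp : 0 < L := by linarith
  obtain ⟨r, hr⟩ := exists_nat_ge (2 * L + 10 * C * L / ε)
  have hq : 0 ≤ 10 * C * L / ε := by positivity
  have hr1 : 2 * L ≤ r := by linarith
  have hr0 : (0 : ℝ) < r := by linarith
  have hr2 : 10 * C * L ≤ ε * r := by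
    have : 10 * C * L / ε ≤ r := by linarith
    rw [div_le_iff₀ hε] at this
    linarith
  have hCr : 2 * C ≤ r := by linarith
  have hτ : ∀ t : ℝ, |t| ≤ 4 / (ε * κ ^ 2) →
      0 ≤ ((r : ℝ) - L + t) / r ∧ ((r : ℝ) - L + t) / r ≤ 1 := by
    intro t ht
    obtain ⟨ht0, ht1⟩ := abs_le.mp ht
    exact ⟨div_nonneg (by linarith) hr0.le, by rw [div_le_one hr0]; linarith⟩
  refine ⟨r, L, by exact_mod_cast hr0, hCr, ?_, ?_⟩
  · intro x hx y hy hxy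
    refine FHb_tail hκ hε (fun t => ?_) (fun t => ?_) (fun t ht => ?_)
    · simpa using FHb_lip h hr0 L hx t 0
    · simpa using FHb_lip h hr0 L hy 0 t
    · obtain ⟨a0, a1⟩ := hτ t ht
      have e1 := h.ln_conv S.o x S.o y a0 a1
      rw [dist_self, mul_zero, zero_add] at e1
      exact e1.trans ((mul_le_of_le_one_left dist_nonneg a1).trans hxy)
  · intro g hg g' hg' u hu y hy
    have hz := (h.hact hρ S₀ hC hr0 hCr h1 h2).maps g hg g' hg' u hu y hy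
    have hμ0 : 0 ≤ 2 * C / r := by positivity
    have hμ1 : 2 * C / r ≤ 1 := by rwa [div_le_one hr0]
    have hμ2 : 4 * C / r = 2 * (2 * C / r) := by ring
    obtain ⟨u0, u1⟩ := hu
    obtain ⟨la0, la1⟩ := FHb_lam hμ0 g
    obtain ⟨lb0, lb1⟩ := FHb_lam hμ0 g'
    obtain ⟨lc0, lc1⟩ := FHb_lam hμ0 (g * g')
    obtain ⟨l1, hl1⟩ : ∃ l1 : ℝ, l1 = 1 - u * (1 - lam (2 * C / r) g') := ⟨_, rfl⟩
    obtain ⟨l2, hl2⟩ : ∃ l2 : ℝ,
      l2 = (1 - u) * lam (2 * C / r) (g * g') + u * lam (2 * C / r) g := ⟨_, rfl⟩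
    have p10 : 1 - 2 * C / r ≤ l1 := by
      have : u * (1 - lam (2 * C / r) g') ≤ 1 - lam (2 * C / r) g' :=
        mul_le_of_le_one_left (by linarith) u1
      linarith
    have p11 : l1 ≤ 1 := by
      have : 0 ≤ u * (1 - lam (2 * C / r) g') := mul_nonneg u0 (by linarith)
      linarith
    have p20 : 1 - 2 * C / r ≤ l2 := by
      have a1 := mul_le_mul_of_nonneg_left lc0 (by linarith : 0 ≤ 1 - u)
      have a2 := mul_le_mul_of_nonneg_left la0 u0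
      linarith
    have p21 : l2 ≤ 1 := by
      have a1 := mul_le_mul_of_nonneg_left lc1 (by linarith : 0 ≤ 1 - u)
      have a2 := mul_le_mul_of_nonneg_left la1 u0
      linarith
    have q0 : 1 - 4 * C / r ≤ l1 * l2 := by
      have a1 : 0 ≤ (1 - l1) * (1 - l2) := mul_nonneg (by linarith) (by linarith)
      linarith
    have q1 : l1 * l2 ≤ 1 := mul_le_one₀ p11 (by linarith) p21
    obtain ⟨s, hs, hst⟩ := FHb_num hC hr0 hL0.le hL hr1 hr2 q0 q1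
    refine ⟨s, hs, ?_⟩
    refine FHb_tail (a := fun t => h.ctl r L (h.hom ρ (2 * C / r) g g' u y) (t + s))
      (b := fun t => ρ (g * g') (h.ctl r L y t)) hκ hε (fun t => ?_) (fun t => ?_)
      (fun t ht => ?_)
    · simpa using FHb_lip h hr0 L hz (t + s) (0 + s)
    · have := FHb_lip h hr0 L hy 0 t
      rw [← hρ.iso (g * g')] at this
      simpa using this
    · obtain ⟨a0, a1⟩ := hτ t ht
      obtain ⟨b0, b1, b2⟩ := hst t ht
      have hv : dist (ρ (g * g') S.o) (ρ (g * g') y) ≤ r := by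
        rw [hρ.iso, dist_comm]
        exact hy
      have e1 := FHb_core h S.o (ρ g S.o) (ρ (g * g') S.o) (ρ (g * g') y)
        (((r : ℝ) - L + t) / r) (h1 g hg) (h2 g hg g' hg') hv (by linarith) p11 (by linarith) p21
        b0 b1
      rw [← h.ln_smul hρ (g * g') S.o y a0 a1] at e1
      have e2 := e1.trans b2
      rw [hl1, hl2] at e2
      exact e2

end Pool.Agent.MP_f7db47_al.GF

end

section

/-!
Grids in tropically convex sets.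
-/

namespace Pool.Agent.MP_f7db47_al.GF

open GN

/-- Adjacency in the grid. -/
def FGrid_adj {F : Type} (z w : F → ℤ) : Prop :=
  z ≠ w ∧ ((∀ i, z i ≤ w i ∧ w i ≤ z i + 1) ∨ ∀ i, w i ≤ z i ∧ z i ≤ w i + 1)

theorem FGrid_symm {F : Type} (z w : F → ℤ) (h : FGrid_adj z w) : FGrid_adj w z :=
  ⟨h.1.symm, h.2.symm⟩

theorem FGrid_lt {F : Type} [Fintype F] {x y : F → ℤ} (h : ∀ i, x i ≤ y i) (hne : x ≠ y) :
    ∑ i, x i < ∑ i, y i := by
  obtain ⟨i, hi⟩ := Function.ne_iff.1 hne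
  exact Finset.sum_lt_sum (fun j _ => h j) ⟨i, Finset.mem_univ i, lt_of_le_of_ne (h i) hi⟩

theorem FGrid_cmp {F : Type} [Fintype F] {x y : F → ℤ} (h : x = y ∨ FGrid_adj x y)
    (hs : ∑ i, x i ≤ ∑ i, y i) : ∀ i, x i ≤ y i ∧ y i ≤ x i + 1 := by
  rcases h with rfl | ⟨hne, h | h⟩
  · exact fun i => ⟨le_rfl, by omega⟩
  · exact h
  · exact absurd (FGrid_lt (fun i => (h i).1) hne.symm) hs.not_gt

theorem FGrid_least {F : Type} (S : Finset (F → ℤ)) (hne : S.Nonempty)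
    (hmin : ∀ x ∈ S, ∀ y ∈ S, (fun i => min (x i) (y i)) ∈ S) :
    ∃ l ∈ S, ∀ x ∈ S, ∀ i, l i ≤ x i :=
  ⟨S.inf' hne id, Finset.inf'_mem (S : Set (F → ℤ)) hmin S hne id fun _ h => h,
    fun _ hx i => Finset.inf'_le id hx i⟩

theorem FGrid_dism {F : Type} [Fintype F] (K B : Finset (F → ℤ))
    (hmin : ∀ x ∈ K, ∀ y ∈ K, ∀ c : ℤ, 0 ≤ c → (fun i => min (x i) (y i + c)) ∈ K)
    (P : F → ℤ → Prop) (hB : ∀ z, z ∈ B ↔ z ∈ K ∧ ∀ i, P i (z i))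
    (hP : ∀ i a b c, P i a → P i c → a ≤ b → b ≤ c → P i b) (hne : B.Nonempty) :
    Dism FGrid_adj B := by
  classical
  have hmin0 : ∀ x ∈ K, ∀ y ∈ K, (fun i => min (x i) (y i)) ∈ K := fun x hx y hy => by
    simpa using hmin x hx y hy 0 le_rfl
  obtain ⟨l, hl, hl2⟩ := FGrid_least B hne fun x hx y hy => by
    obtain ⟨x1, x2⟩ := (hB x).1 hx
    obtain ⟨y1, y2⟩ := (hB y).1 hy
    refine (hB _).2 ⟨hmin0 x x1 y y1, fun i => ?_⟩
    rcases le_total (x i) (y i) with h | h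
    · simpa [min_eq_left h] using x2 i
    · simpa [min_eq_right h] using y2 i
  have hf : ∀ z : F → ℤ, ∃ y : F → ℤ, z ∈ B → y ∈ K ∧ (∀ i, z i - 1 ≤ y i ∧ l i ≤ y i) ∧
      ∀ x ∈ K, (∀ i, z i - 1 ≤ x i ∧ l i ≤ x i) → ∀ i, y i ≤ x i := by
    intro z
    by_cases hz : z ∈ B
    · obtain ⟨y, hy, hy2⟩ := FGrid_least (K.filter fun x => ∀ i, z i - 1 ≤ x i ∧ l i ≤ x i)
        ⟨z, Finset.mem_filter.2 ⟨((hB z).1 hz).1, fun i => ⟨by omega, hl2 z hz i⟩⟩⟩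
        fun x hx y hy => by
          obtain ⟨x1, x2⟩ := Finset.mem_filter.1 hx
          obtain ⟨y1, y2⟩ := Finset.mem_filter.1 hy
          exact Finset.mem_filter.2 ⟨hmin0 x x1 y y1, fun i =>
            ⟨le_min (x2 i).1 (y2 i).1, le_min (x2 i).2 (y2 i).2⟩⟩
      exact ⟨y, fun _ => ⟨(Finset.mem_filter.1 hy).1, (Finset.mem_filter.1 hy).2,
        fun x hx h => hy2 x (Finset.mem_filter.2 ⟨hx, h⟩)⟩⟩
    · exact ⟨z, fun h => absurd h hz⟩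
  choose f hf using hf
  refine ⟨fun z => ∑ i, z i, l, f, hl, fun z hz hz0 => ?_⟩
  obtain ⟨y1, y2, y3⟩ := hf z hz
  obtain ⟨z1, z2⟩ := (hB z).1 hz
  obtain ⟨l1, l2⟩ := (hB l).1 hl
  have y4 := y3 z z1 fun i => ⟨by omega, hl2 z hz i⟩
  refine ⟨FGrid_lt (hl2 z hz) hz0.symm,
    (hB _).2 ⟨y1, fun i => hP i _ _ _ (l2 i) (z2 i) (y2 i).2 (y4 i)⟩, ?_, fun w hw hadj hrk => ?_⟩
  · obtain ⟨j, hj⟩ := Function.ne_iff.1 hz0
    obtain ⟨t, -, hmax⟩ := Finset.univ.exists_max_image (fun i => z i - l i)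
      ⟨j, Finset.mem_univ j⟩
    have h1 := hmax j (Finset.mem_univ j)
    have h2 := hl2 z hz j
    have h3 : 0 ≤ z t - l t - 1 := by omega
    have h4 := y3 _ (hmin z z1 l l1 _ h3) (fun i => by
      have := hmax i (Finset.mem_univ i)
      have := hl2 z hz i
      omega) t
    refine FGrid_lt y4 fun e => ?_
    rw [e] at h4
    omega
  · have h1 := FGrid_cmp hadj hrk
    have h2 := y3 w ((hB w).1 hw).1 fun i => ⟨by have := h1 i; omega, hl2 w hw i⟩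
    refine or_iff_not_imp_left.2 fun hne => ⟨hne, Or.inr fun i => ⟨h2 i, ?_⟩⟩
    have := h1 i
    have := y2 i
    omega

theorem FGrid_chain {F : Type} [Fintype F] {K σ : Finset (F → ℤ)} (h : Clq FGrid_adj K σ)
    {M : ℕ} (hM : σ.card = M + 1) : ∃ z : ℕ → F → ℤ, Monotone z ∧ (∀ j, z j ∈ K) ∧
      (∀ i, z M i ≤ z 0 i + 1) ∧ ∀ j < M, z (j + 1) ≠ z j := by
  have hc : ∀ x ∈ σ, ∀ y ∈ σ, ∑ i, x i ≤ ∑ i, y i → ∀ i, x i ≤ y i ∧ y i ≤ x i + 1 :=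
    fun x hx y hy => FGrid_cmp (or_iff_not_imp_left.2 (h.2 x hx y hy))
  have hinj : Set.InjOn (fun x : F → ℤ => ∑ i, x i) σ := fun x hx y hy e =>
    funext fun i => le_antisymm (hc x hx y hy e.le i).1 (hc y hy x hx e.ge i).1
  have hT : (σ.image fun x => ∑ i, x i).card = M + 1 := by
    rw [Finset.card_image_of_injOn hinj, hM]
  have hg : ∀ k : Fin (M + 1), ∃ x ∈ σ,
      ∑ i, x i = (σ.image fun x => ∑ i, x i).orderEmbOfFin hT k := fun k =>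
    Finset.mem_image.1 (Finset.orderEmbOfFin_mem _ hT k)
  choose g hg1 hg2 using hg
  have hle : ∀ a b : Fin (M + 1), a ≤ b → ∀ i, g a i ≤ g b i ∧ g b i ≤ g a i + 1 :=
    fun a b hab => hc _ (hg1 a) _ (hg1 b) (by
      rw [hg2, hg2]
      exact (OrderEmbedding.monotone _) hab)
  refine ⟨fun j => g ⟨min j M, by omega⟩, fun a b hab i => (hle _ _ ?_ i).1,
    fun j => h.1 (hg1 _), fun i => (hle _ _ ?_ i).2, fun j hj e => ?_⟩
  · exact Fin.mk_le_mk.2 (by omega)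
  · exact Fin.mk_le_mk.2 (by omega)
  · have h1 := congrArg (fun x : F → ℤ => ∑ i, x i) e
    simp only [hg2] at h1
    have h2 := Fin.mk.inj ((RelEmbedding.injective _) h1)
    omega

theorem FGrid_mk {F V : Type} [Fintype F] [LinearOrder V] {D : Set (F → ℝ)} {n : ℕ} {ρ : ℝ}
    {K : Finset V} {Adj : V → V → Prop} {pt : V → F → ℝ} (hs : ∀ x y, Adj x y → Adj y x)
    (h1 : ∀ x ∈ K, pt x ∈ D) (h2 : ∀ x ∈ K, ∀ y ∈ K, Adj x y → dist (pt x) (pt y) ≤ ρ)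
    (h3 : ∀ x ∈ D, ∃ z ∈ K, dist (pt z) x ≤ ρ) (h4 : ∀ σ, Clq Adj K σ → σ.card ≤ n + 1)
    (h5 : ∀ (lo hi : F → ℝ) (B : Finset V),
      (∀ z, z ∈ B ↔ z ∈ K ∧ ∀ i, lo i ≤ pt z i ∧ pt z i ≤ hi i) → B.Nonempty → Dism Adj B) :
    Grid D n ρ K Adj pt :=
  ⟨h1, h2, h3, h4, fun lo hi B hB hne => (h5 lo hi B hB hne).acyc hs⟩

theorem exists_grid {F : Type} [Fintype F] {D : Set (F → ℝ)} {n : ℕ}
    (hD : Bornology.IsBounded D) (hT : TropC D n) (ρ : ℝ) (hρ : 0 < ρ) :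
    ∃ (V : Type) (_ : LinearOrder V) (K : Finset V) (Adj : V → V → Prop) (pt : V → F → ℝ),
      Grid D n ρ K Adj pt := by
  classical
  obtain ⟨Q', hQ'⟩ := exists_nat_one_div_lt hρ
  obtain ⟨Q, hQ, hQρ⟩ : ∃ Q : ℕ, 0 < Q ∧ 1 / (Q : ℝ) ≤ ρ :=
    ⟨Q' + 1, Nat.succ_pos _, by exact_mod_cast hQ'.le⟩
  have hQ0 : (0 : ℝ) < Q := by exact_mod_cast hQ
  obtain ⟨R, hR⟩ := hD.exists_norm_le
  have hfin : {z : F → ℤ | (fun i => (z i : ℝ) / Q) ∈ D}.Finite := by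
    refine (Set.Finite.pi' fun _ : F => Set.finite_Icc (-⌈R * Q⌉) ⌈R * Q⌉).subset fun z hz i => ?_
    have h1 := (norm_le_pi_norm (fun i => (z i : ℝ) / Q) i).trans (hR _ hz)
    rw [Real.norm_eq_abs, abs_div, abs_of_pos hQ0, div_le_iff₀ hQ0] at h1
    have h2 : ((|z i| : ℤ) : ℝ) ≤ (⌈R * Q⌉ : ℤ) := by
      rw [Int.cast_abs]
      exact h1.trans (Int.le_ceil _)
    exact abs_le.1 (Int.cast_le.1 h2)
  have hK : ∀ z, z ∈ hfin.toFinset ↔ (fun i => (z i : ℝ) / Q) ∈ D := fun z => hfin.mem_toFinset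
  have hd : ∀ a b : ℝ, |a - b| ≤ 1 → dist (a / Q) (b / Q) ≤ ρ := fun a b h => by
    rw [Real.dist_eq, ← sub_div, abs_div, abs_of_pos hQ0]
    exact (div_le_div_of_nonneg_right h hQ0.le).trans hQρ
  refine ⟨F → ℤ, linearOrderOfSTO WellOrderingRel, hfin.toFinset, FGrid_adj,
    fun z i => (z i : ℝ) / Q, @FGrid_mk F (F → ℤ) _ (linearOrderOfSTO WellOrderingRel) _ _ _ _ _ _
      FGrid_symm (fun x hx => (hK x).1 hx) (fun x _ y _ h => ?_) (fun x hx => ?_) (fun σ hσ => ?_)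
      fun lo hi B hB hne => ?_⟩
  · refine (dist_pi_le_iff hρ.le).2 fun i => hd _ _ ?_
    have h1 : |x i - y i| ≤ 1 := by
      rcases h.2 with h | h <;> have := h i <;> exact abs_le.2 ⟨by omega, by omega⟩
    exact_mod_cast h1
  · refine ⟨fun i => ⌊(Q : ℝ) * x i⌋, (hK _).2 (hT.floor Q hQ x hx), ?_⟩
    refine (dist_pi_le_iff hρ.le).2 fun i => ?_
    have h1 := hd (⌊(Q : ℝ) * x i⌋ : ℤ) (Q * x i) (abs_le.2
      ⟨by linarith [Int.lt_floor_add_one ((Q : ℝ) * x i)],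
        by linarith [Int.floor_le ((Q : ℝ) * x i)]⟩)
    rwa [mul_div_cancel_left₀ _ hQ0.ne'] at h1
  · rcases Nat.eq_zero_or_pos σ.card with h | h
    · omega
    · obtain ⟨M, hM⟩ : ∃ M, σ.card = M + 1 := ⟨σ.card - 1, by omega⟩
      obtain ⟨z, z1, z2, z3, z4⟩ := FGrid_chain hσ hM
      have h1 := hT.chain Q hQ z M z1 (fun j => (hK _).1 (z2 j)) z3
      have h2 := (Finset.card_le_card (s := Finset.range M) fun j hj =>
        (@Finset.mem_filter _ _ (_) _ _).2 ⟨hj, z4 j (Finset.mem_range.1 hj)⟩).trans h1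
      rw [Finset.card_range] at h2
      omega
  · refine FGrid_dism hfin.toFinset B (fun x hx y hy c hc => (hK _).2 ?_)
      (fun i a => lo i ≤ (a : ℝ) / Q ∧ (a : ℝ) / Q ≤ hi i) hB (fun i a b c ha hc hab hbc => ?_) hne
    · have h1 := hT.min _ ((hK x).1 hx) _ ((hK y).1 hy) ((c : ℝ) / Q)
        (div_nonneg (by exact_mod_cast hc) hQ0.le)
      convert h1 using 2 with i
      rw [← add_div, min_div_div_right hQ0.le]
      push_cast
      rfl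
    · exact ⟨ha.1.trans (div_le_div_of_nonneg_right (by exact_mod_cast hab) hQ0.le),
        le_trans (div_le_div_of_nonneg_right (by exact_mod_cast hbc) hQ0.le) hc.2⟩

end Pool.Agent.MP_f7db47_al.GF

end

section

/-!
Chain level approximation of homotopy actions.
-/

namespace Pool.Agent.MP_f7db47_al.GF

open GN

section chains

variable {V : Type} [LinearOrder V] {K : Finset V} {Adj : V → V → Prop}
  {C C' C'' : Finset V → Finset V} {ψ ψ' ψ'' : Finset V → (Finset V →₀ ℤ)}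

/-- Chain maps carried by `C`. -/
def FChain_Ap (K : Finset V) (Adj : V → V → Prop) (C : Finset V → Finset V)
    (ψ : Finset V → (Finset V →₀ ℤ)) : Prop :=
  ψ ∅ = Finsupp.single ∅ 1 ∧ ∀ σ, Clq Adj K σ → σ.Nonempty →
    Ch Adj (C σ) σ.card (ψ σ) ∧ bd (ψ σ) = lin ψ (bd1 σ)

/-- Chain homotopies carried by `C`. -/
def FChain_Hp (K : Finset V) (Adj : V → V → Prop) (C : Finset V → Finset V)
    (ψ ψ' : Finset V → (Finset V →₀ ℤ)) : Prop :=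
  ∃ h : Finset V → (Finset V →₀ ℤ), h ∅ = 0 ∧ ∀ σ, Clq Adj K σ → σ.Nonempty →
    Ch Adj (C σ) (σ.card + 1) (h σ) ∧ bd (h σ) + lin h (bd1 σ) = ψ' σ - ψ σ

theorem FChain_ap_mono (h : FChain_Ap K Adj C ψ)
    (hC : ∀ σ, Clq Adj K σ → σ.Nonempty → C σ ⊆ C' σ) : FChain_Ap K Adj C' ψ :=
  ⟨h.1, fun σ h1 h2 => ⟨CExt_ch_mono (h.2 σ h1 h2).1 (hC σ h1 h2), (h.2 σ h1 h2).2⟩⟩

theorem FChain_hp_mono (h : FChain_Hp K Adj C ψ ψ')
    (hC : ∀ σ, Clq Adj K σ → σ.Nonempty → C σ ⊆ C' σ) : FChain_Hp K Adj C' ψ ψ' := by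
  obtain ⟨x, h0, h⟩ := h
  exact ⟨x, h0, fun σ h1 h2 => ⟨CExt_ch_mono (h σ h1 h2).1 (hC σ h1 h2), (h σ h1 h2).2⟩⟩

theorem FChain_hp_trans (h : FChain_Hp K Adj C ψ ψ') (h' : FChain_Hp K Adj C ψ' ψ'') :
    FChain_Hp K Adj C ψ ψ'' := by
  obtain ⟨x, h0, h⟩ := h
  obtain ⟨x', h0', h'⟩ := h'
  refine ⟨fun σ => x σ + (1 : ℤ) • x' σ, by simp only [h0, h0', smul_zero, add_zero],
    fun σ h1 h2 => ⟨CExt_ch_add_smul (h σ h1 h2).1 (h' σ h1 h2).1 1, ?_⟩⟩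
  rw [CExt_lin_add_smul, map_add, one_smul, one_smul, add_add_add_comm, (h σ h1 h2).2,
    (h' σ h1 h2).2, sub_add_sub_cancel']

theorem FChain_ap_ex (hm : ∀ σ τ, τ ⊆ σ → C τ ⊆ C σ)
    (ha : ∀ σ, Clq Adj K σ → σ.Nonempty → Acyc Adj (C σ)) : ∃ ψ, FChain_Ap K Adj C ψ := by
  obtain ⟨x, hx0, hx⟩ := extend (K := K) C hm ha 0 1 (fun _ => 0)
    (Finsupp.single ∅ 1) (by rw [CExt_bd_single, CExt_bd1_empty])
    (fun σ _ _ => CExt_ch_single ⟨Finset.empty_subset _, by simp⟩ rfl)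
    (fun σ n _ _ => CExt_ch_zero _ _ _) (fun σ _ => by simp [CExt_lin_eq])
  exact ⟨x, hx0, fun σ hσ hne => by simpa using hx σ hσ hne⟩

theorem FChain_hp_ex (hm : ∀ σ τ, τ ⊆ σ → C τ ⊆ C σ)
    (ha : ∀ σ, Clq Adj K σ → σ.Nonempty → Acyc Adj (C σ)) (h : FChain_Ap K Adj C ψ)
    (h' : FChain_Ap K Adj C ψ') : FChain_Hp K Adj C ψ ψ' := by
  have h0 : ψ' ∅ - ψ ∅ = 0 := by rw [h.1, h'.1, sub_self]
  obtain ⟨x, hx0, hx⟩ := extend (K := K) C hm ha 1 (-1) (fun σ => ψ' σ - ψ σ) 0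
    (by rw [map_zero, h0]) (fun σ _ _ => CExt_ch_zero _ _ _) (fun σ n hσ hn => by
      have hne : σ.Nonempty := Finset.card_pos.1 (by omega)
      rw [sub_eq_add_neg, ← neg_one_smul ℤ (ψ σ), ← hn]
      exact CExt_ch_add_smul (h'.2 σ hσ hne).1 (h.2 σ hσ hne).1 _)
    (fun σ hσ => by
      rcases σ.eq_empty_or_nonempty with rfl | hne
      · rw [h0, CExt_bd1_empty, map_zero, map_zero, smul_zero, add_zero]
      rw [map_sub, (h.2 σ hσ hne).2, (h'.2 σ hσ hne).2, CExt_lin_sub, neg_one_smul,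
        add_neg_cancel])
  refine ⟨x, hx0, fun σ hσ hne => ⟨(hx σ hσ hne).1, ?_⟩⟩
  rw [(hx σ hσ hne).2, neg_one_smul, neg_add_cancel_right]

theorem FChain_ap_id (h : ∀ σ, Clq Adj K σ → σ ⊆ C σ) :
    FChain_Ap K Adj C fun σ => Finsupp.single σ 1 :=
  ⟨rfl, fun σ hσ _ => ⟨CExt_ch_single ⟨h σ hσ, hσ.2⟩ rfl, by rw [CExt_bd_single, CExt_lin_id]⟩⟩

theorem FChain_ap_comp (h : FChain_Ap K Adj C ψ) (h' : FChain_Ap K Adj C' ψ')
    (hK : ∀ σ, C' σ ⊆ K) (hC : ∀ σ τ, Clq Adj K σ → τ.Nonempty → τ ⊆ C' σ → C τ ⊆ C'' σ) :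
    FChain_Ap K Adj C'' fun σ => lin ψ (ψ' σ) := by
  refine ⟨by simp only [h'.1, CExt_lin_single, h.1], fun σ hσ hne => ?_⟩
  have hsup : ∀ τ, ψ' σ τ ≠ 0 → Clq Adj K τ ∧ τ.Nonempty ∧ τ ⊆ C' σ ∧ τ.card = σ.card := by
    intro τ hτ
    obtain ⟨h4, h5⟩ := (h'.2 σ hσ hne).1 τ hτ
    exact ⟨⟨h4.1.trans (hK σ), h4.2⟩, Finset.card_pos.1 (h5 ▸ hne.card_pos), h4.1, h5⟩
  refine ⟨CExt_ch_lin fun τ hτ => ?_, ?_⟩
  · obtain ⟨h4, h5, h6, h7⟩ := hsup τ hτ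
    rw [← h7]
    exact CExt_ch_mono (h.2 τ h4 h5).1 (hC σ τ hσ h5 h6)
  · have h4 : bd (lin ψ (ψ' σ)) = lin (fun _ => 0) (ψ' σ) + (1 : ℤ) • lin ψ (bd (ψ' σ)) := by
      refine CExt_bd_lin fun τ hτ => ?_
      rw [zero_add, one_smul]
      exact (h.2 τ (hsup τ hτ).1 (hsup τ hτ).2.1).2
    rw [h4, (h'.2 σ hσ hne).2, CExt_map_lin]
    simp [CExt_lin_eq (fun _ => 0)]

variable {F : Type} [Fintype F] {D : Set (F → ℝ)} {n : ℕ} {ρ r r' w : ℝ} {pt a a' : V → F → ℝ}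

open Classical in
/-- The smallest box around the points `a y`, enlarged by `r`. -/
noncomputable def FChain_Car (K : Finset V) (pt a : V → F → ℝ) (r : ℝ) (σ : Finset V) :
    Finset V :=
  K.filter fun z => ∀ i, (∃ y ∈ σ, a y i - r ≤ pt z i) ∧ ∃ y ∈ σ, pt z i ≤ a y i + r

open Classical in
/-- The vertices close to all points `a y`. -/
noncomputable def FChain_B (K : Finset V) (pt a : V → F → ℝ) (r : ℝ) (σ : Finset V) : Finset V :=
  K.filter fun z => ∀ y ∈ σ, dist (pt z) (a y) ≤ r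

omit [LinearOrder V] in
theorem FChain_mem_B {σ : Finset V} {z : V} :
    z ∈ FChain_B K pt a r σ ↔ z ∈ K ∧ ∀ y ∈ σ, dist (pt z) (a y) ≤ r := by
  classical
  exact Finset.mem_filter

omit [LinearOrder V] in
theorem FChain_mem_Car {σ : Finset V} {z : V} : z ∈ FChain_Car K pt a r σ ↔ z ∈ K ∧
    ∀ i, (∃ y ∈ σ, a y i - r ≤ pt z i) ∧ ∃ y ∈ σ, pt z i ≤ a y i + r := by
  classical
  exact Finset.mem_filter

omit [LinearOrder V] in
theorem FChain_mem {σ : Finset V} {z y : V} (hz : z ∈ K) (hy : y ∈ σ)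
    (h : dist (pt z) (a y) ≤ r) : z ∈ FChain_Car K pt a r σ :=
  FChain_mem_Car.2 ⟨hz, fun i => by
    have := abs_le.1 ((dist_le_pi_dist (pt z) (a y) i).trans h)
    exact ⟨⟨y, hy, by linarith [this.1]⟩, y, hy, by linarith [this.2]⟩⟩

omit [LinearOrder V] in
theorem FChain_car_mono (σ τ : Finset V) (h : τ ⊆ σ) :
    FChain_Car K pt a r τ ⊆ FChain_Car K pt a r σ := fun z hz => by
  rw [FChain_mem_Car] at hz ⊢
  refine ⟨hz.1, fun i => ?_⟩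
  obtain ⟨⟨y, hy, h1⟩, y', hy', h2⟩ := hz.2 i
  exact ⟨⟨y, h hy, h1⟩, y', h hy', h2⟩

theorem FChain_car_acyc (hG : Grid D n ρ K Adj pt) (ha : ∀ y ∈ K, a y ∈ D) (hr : ρ ≤ r)
    (σ : Finset V) (hσ : Clq Adj K σ) (hne : σ.Nonempty) : Acyc Adj (FChain_Car K pt a r σ) := by
  refine hG.box (fun i => σ.inf' hne fun y => a y i - r) (fun i => σ.sup' hne fun y => a y i + r) _
    (fun z => ?_) ?_
  · simp only [FChain_mem_Car, Finset.inf'_le_iff, Finset.le_sup'_iff]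
  · obtain ⟨y, hy⟩ := hne
    obtain ⟨z, hz, h⟩ := hG.near _ (ha y (hσ.1 hy))
    exact ⟨z, FChain_mem hz hy (h.trans hr)⟩

omit [LinearOrder V] in
theorem FChain_car_sub (hr : 0 ≤ r) {σ : Finset V}
    (hw : ∀ y ∈ σ, ∀ y' ∈ σ, dist (a y) (a y') ≤ w) :
    FChain_Car K pt a r σ ⊆ FChain_B K pt a (r + w) σ := fun z hz => by
  rw [FChain_mem_Car] at hz
  refine FChain_mem_B.2 ⟨hz.1, fun y hy => (dist_pi_le_iff
    (add_nonneg hr (dist_nonneg.trans (hw y hy y hy)))).2 fun i => ?_⟩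
  obtain ⟨⟨y₁, hy₁, h1⟩, y₂, hy₂, h2⟩ := hz.2 i
  have h3 := abs_le.1 ((dist_le_pi_dist (a y) (a y₁) i).trans (hw y hy y₁ hy₁))
  have h4 := abs_le.1 ((dist_le_pi_dist (a y) (a y₂) i).trans (hw y hy y₂ hy₂))
  exact abs_le.2 ⟨by linarith [h3.2], by linarith [h4.1]⟩

omit [LinearOrder V] in
theorem FChain_B_le {σ : Finset V} (hσ : σ ⊆ K) (h : ∀ y ∈ K, r + dist (a y) (a' y) ≤ r') :
    FChain_B K pt a r σ ⊆ FChain_B K pt a' r' σ := fun z hz => by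
  rw [FChain_mem_B] at hz ⊢
  exact ⟨hz.1, fun y hy => (dist_triangle _ (a y) _).trans
    ((add_le_add (hz.2 y hy) le_rfl).trans (h y (hσ hy)))⟩

theorem FChain_ex (hG : Grid D n ρ K Adj pt) (hρ : 0 ≤ ρ) (ha : ∀ y ∈ K, a y ∈ D)
    (hw : ∀ σ, Clq Adj K σ → ∀ y ∈ σ, ∀ y' ∈ σ, dist (a y) (a y') ≤ w) :
    ∃ ψ, FChain_Ap K Adj (FChain_B K pt a (ρ + w)) ψ := by
  obtain ⟨ψ, h⟩ := FChain_ap_ex FChain_car_mono (FChain_car_acyc hG ha le_rfl)
  exact ⟨ψ, FChain_ap_mono h fun σ hσ _ => FChain_car_sub hρ (hw σ hσ)⟩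

theorem FChain_hp (hG : Grid D n ρ K Adj pt) (hρ : 0 ≤ ρ) (ha : ∀ y ∈ K, a y ∈ D)
    (hw : ∀ σ, Clq Adj K σ → ∀ y ∈ σ, ∀ y' ∈ σ, dist (a y) (a y') ≤ w) (hr : ρ ≤ r)
    (h : FChain_Ap K Adj (FChain_B K pt a r) ψ) (h' : FChain_Ap K Adj (FChain_B K pt a r) ψ') :
    FChain_Hp K Adj (FChain_B K pt a (r + w)) ψ ψ' := by
  have key : ∀ σ, Clq Adj K σ → σ.Nonempty → FChain_B K pt a r σ ⊆ FChain_Car K pt a r σ :=
    fun σ _ ⟨y, hy⟩ z hz => FChain_mem (FChain_mem_B.1 hz).1 hy ((FChain_mem_B.1 hz).2 y hy)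
  exact FChain_hp_mono (FChain_hp_ex FChain_car_mono (FChain_car_acyc hG ha hr)
    (FChain_ap_mono h key) (FChain_ap_mono h' key))
    fun σ hσ _ => FChain_car_sub (hρ.trans hr) (hw σ hσ)

end chains

theorem FChain_uc {G X : Type} [Group G] [MetricSpace X] {D : Set X} (hc : IsCompact D)
    {S₀ : Finset G} {φ : G → X → X} {H : G → G → ℝ → X → X} (hH : HAct S₀ D φ H) {e : ℝ}
    (he : 0 < e) : ∃ d, (0 < d ∧ d ≤ e) ∧ ∀ g ∈ S₀, ∀ g' ∈ S₀, ∀ u ∈ Set.Icc (0 : ℝ) 1,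
      ∀ u' ∈ Set.Icc (0 : ℝ) 1, ∀ y ∈ D, ∀ y' ∈ D, |u - u'| ≤ d → dist y y' ≤ d →
        dist (H g g' u y) (H g g' u' y') ≤ e := by
  refine (Filter.Eventually.and (Ioc_mem_nhdsGT he) ?_).exists
  simp only [Filter.eventually_all_finset]
  intro g hg g' hg'
  obtain ⟨δ, hδ, h⟩ := Metric.uniformContinuousOn_iff_le.1
    ((isCompact_Icc.prod hc).uniformContinuousOn_of_continuous (hH.cont g hg g' hg')) e he
  filter_upwards [Ioc_mem_nhdsGT hδ] with d hd u hu u' hu' y hy y' hy' h1 h2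
  exact h (u, y) ⟨hu, hy⟩ (u', y') ⟨hu', hy'⟩ ((max_le h1 h2).trans hd.2)

theorem exists_chd {G F : Type} [Group G] [Fintype F] {D : Set (F → ℝ)} {n : ℕ}
    (hc : IsCompact D) (hne : D.Nonempty) (hT : TropC D n) {S₀ : Finset G} (h1 : 1 ∈ S₀)
    {φ : G → (F → ℝ) → F → ℝ} {H : G → G → ℝ → (F → ℝ) → F → ℝ} (hH : HAct S₀ D φ H)
    (η : ℝ) (hη : 0 < η) :
    ∃ (V : Type) (_ : LinearOrder V) (K : Finset V) (Adj : V → V → Prop)
      (C : G → Finset V → Finset V) (φ' : G → Finset V → (Finset V →₀ ℤ))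
      (H' : G → G → Finset V → (Finset V →₀ ℤ)) (pt : V → F → ℝ),
      ChD S₀ K Adj C (n + 1) φ' H' ∧ (∀ x ∈ K, pt x ∈ D) ∧
      (∀ x ∈ K, ∀ y ∈ K, Adj x y → dist (pt x) (pt y) ≤ η) ∧
      ∀ g σ, Clq Adj K σ → ∀ x ∈ C g σ, ∀ y ∈ σ, ∃ g₁ ∈ S₀, ∃ g₂ ∈ S₀,
        ∃ u ∈ Set.Icc (0 : ℝ) 1, g₁ * g₂ = g ∧ dist (pt x) (H g₁ g₂ u (pt y)) ≤ η := by
  classical
  obtain ⟨d, ⟨hd0, hd1⟩, hd⟩ := FChain_uc hc hH (e := η / 3) (by positivity)
  obtain ⟨ρ, ⟨hρ0, hρ1⟩, hρ⟩ := FChain_uc hc hH (half_pos hd0)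
  obtain ⟨V, _, K, Adj, pt, hG⟩ := exists_grid hc.isBounded hT ρ hρ0
  have z0 : (0 : ℝ) ∈ Set.Icc (0 : ℝ) 1 := ⟨le_rfl, zero_le_one⟩
  have hclq : ∀ σ, Clq Adj K σ → ∀ y ∈ σ, ∀ y' ∈ σ, dist (pt y) (pt y') ≤ ρ := by
    intro σ hσ y hy y' hy'
    rcases eq_or_ne y y' with rfl | e
    · rw [dist_self]
      exact hρ0.le
    · exact hG.adj y (hσ.1 hy) y' (hσ.1 hy') (hσ.2 y hy y' hy' e)
  have hosc : ∀ g ∈ S₀, ∀ g' ∈ S₀, ∀ u ∈ Set.Icc (0 : ℝ) 1, ∀ σ, Clq Adj K σ → ∀ y ∈ σ, ∀ y' ∈ σ,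
      dist (H g g' u (pt y)) (H g g' u (pt y')) ≤ d / 2 := fun g hg g' hg' u hu σ hσ y hy y' hy' =>
    hρ g hg g' hg' u hu u hu _ (hG.mem y (hσ.1 hy)) _ (hG.mem y' (hσ.1 hy'))
      (by rw [sub_self, abs_zero]; exact hρ0.le) (hclq σ hσ y hy y' hy')
  have hex : ∀ g ∈ S₀, ∀ g' ∈ S₀, ∀ u ∈ Set.Icc (0 : ℝ) 1,
      ∃ ψ, FChain_Ap K Adj (FChain_B K pt (fun y => H g g' u (pt y)) d) ψ := by
    intro g hg g' hg' u hu
    obtain ⟨ψ, h⟩ := FChain_ex hG hρ0.le (fun y hy => hH.maps g hg g' hg' u hu _ (hG.mem y hy))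
      (hosc g hg g' hg' u hu)
    exact ⟨ψ, FChain_ap_mono h fun σ hσ _ => FChain_B_le hσ.1 fun y _ => by
      rw [dist_self]
      linarith⟩
  have hφ : ∀ p, ∃ ψ : Finset V → (Finset V →₀ ℤ), (p = 1 → ∀ σ, ψ σ = Finsupp.single σ 1) ∧
      ψ ∅ = Finsupp.single ∅ 1 ∧ ∀ g ∈ S₀, ∀ g' ∈ S₀, g * g' = p →
        FChain_Ap K Adj (FChain_B K pt (fun y => H g g' 0 (pt y)) d) ψ := by
    intro p
    by_cases hp : p = 1
    · refine ⟨_, fun _ _ => rfl, rfl, fun g hg g' hg' e => FChain_ap_id fun σ hσ z hz =>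
        FChain_mem_B.2 ⟨hσ.1 hz, fun y hy => ?_⟩⟩
      rw [hH.zero g hg g' hg' _ (hG.mem y (hσ.1 hy)), e, hp, hH.one _ (hG.mem y (hσ.1 hy))]
      linarith [hclq σ hσ z hz y hy]
    by_cases h2 : ∃ g ∈ S₀, ∃ g' ∈ S₀, g * g' = p
    · obtain ⟨g, hg, g', hg', e⟩ := h2
      obtain ⟨ψ, h⟩ := hex g hg g' hg' 0 z0
      refine ⟨ψ, fun h3 => absurd h3 hp, h.1, fun k hk k' hk' e' =>
        FChain_ap_mono h fun σ hσ _ => FChain_B_le hσ.1 fun y hy => ?_⟩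
      rw [hH.zero g hg g' hg' _ (hG.mem y hy), hH.zero k hk k' hk' _ (hG.mem y hy), e, e',
        dist_self, add_zero]
    · exact ⟨fun _ => Finsupp.single ∅ 1, fun h3 => absurd h3 hp, rfl,
        fun g hg g' hg' e => absurd ⟨g, hg, g', hg', e⟩ h2⟩
  choose φ' hφ1 hφ0 hφ using hφ
  obtain ⟨C, hC⟩ : ∃ C : G → Finset V → Finset V, ∀ g σ x, x ∈ C g σ ↔ x ∈ K ∧ ∀ y ∈ σ,
      ∃ g₁ ∈ S₀, ∃ g₂ ∈ S₀, ∃ u ∈ Set.Icc (0 : ℝ) 1, g₁ * g₂ = g ∧
        dist (pt x) (H g₁ g₂ u (pt y)) ≤ η :=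
    ⟨fun g σ => K.filter _, fun g σ x => Finset.mem_filter⟩
  have hBC : ∀ g ∈ S₀, ∀ g' ∈ S₀, ∀ u ∈ Set.Icc (0 : ℝ) 1, ∀ r ≤ η, ∀ σ,
      FChain_B K pt (fun y => H g g' u (pt y)) r σ ⊆ C (g * g') σ :=
    fun g hg g' hg' u hu r hr σ z hz => (hC _ _ _).2 ⟨(FChain_mem_B.1 hz).1, fun y hy =>
      ⟨g, hg, g', hg', u, hu, rfl, ((FChain_mem_B.1 hz).2 y hy).trans hr⟩⟩
  have hstep : ∀ g ∈ S₀, ∀ g' ∈ S₀, ∀ u ∈ Set.Icc (0 : ℝ) 1, ∀ u' ∈ Set.Icc (0 : ℝ) 1,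
      |u' - u| ≤ d → ∀ χ ψ, FChain_Ap K Adj (FChain_B K pt (fun y => H g g' u' (pt y)) d) χ →
        FChain_Ap K Adj (FChain_B K pt (fun y => H g g' u (pt y)) (d + η / 3)) ψ →
          FChain_Hp K Adj (C (g * g')) χ ψ := fun g hg g' hg' u hu u' hu' h χ ψ h2 h3 =>
    FChain_hp_mono (FChain_hp hG hρ0.le (fun y hy => hH.maps g hg g' hg' u hu _ (hG.mem y hy))
      (hosc g hg g' hg' u hu) (by linarith) (FChain_ap_mono h2 fun σ hσ _ =>
        FChain_B_le hσ.1 fun y hy => add_le_add le_rfl (hd g hg g' hg' u' hu' u hu _ (hG.mem y hy)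
          _ (hG.mem y hy) h (by rw [dist_self]; exact hd0.le))) h3)
      fun σ _ _ => hBC g hg g' hg' u hu _ (by linarith) σ
  have hind : ∀ g ∈ S₀, ∀ g' ∈ S₀, ∀ m : ℕ, ∀ u ∈ Set.Icc (0 : ℝ) 1, u ≤ m * d →
      ∀ ψ, FChain_Ap K Adj (FChain_B K pt (fun y => H g g' u (pt y)) (d + η / 3)) ψ →
        FChain_Hp K Adj (C (g * g')) (φ' (g * g')) ψ := by
    intro g hg g' hg' m
    induction m with
    | zero =>
      intro u hu h ψ hψ
      rw [Nat.cast_zero, zero_mul] at h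
      exact hstep g hg g' hg' u hu 0 z0 (abs_le.2 ⟨by linarith, by linarith [hu.1]⟩) _ _
        (hφ _ g hg g' hg' rfl) hψ
    | succ m ih =>
      intro u hu h ψ hψ
      rw [Nat.cast_succ, add_mul, one_mul] at h
      have hu' : max (u - d) 0 ∈ Set.Icc (0 : ℝ) 1 :=
        ⟨le_max_right _ _, max_le (by linarith [hu.2]) zero_le_one⟩
      obtain ⟨χ, hχ⟩ := hex g hg g' hg' _ hu'
      refine FChain_hp_trans (ih _ hu' (max_le (by linarith) (by positivity)) χ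
        (FChain_ap_mono hχ fun σ hσ _ => FChain_B_le hσ.1 fun y _ => ?_))
        (hstep g hg g' hg' u hu _ hu' (abs_le.2 ⟨?_, ?_⟩) χ ψ hχ hψ)
      · rw [dist_self]
        linarith
      · linarith [le_max_left (u - d) 0]
      · linarith [max_le (by linarith : u - d ≤ u) hu.1]
  have hH' : ∀ g g', ∃ h : Finset V → (Finset V →₀ ℤ), h ∅ = 0 ∧ (g ∈ S₀ → g' ∈ S₀ →
      ∀ σ, Clq Adj K σ → σ.Nonempty → Ch Adj (C (g * g') σ) (σ.card + 1) (h σ) ∧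
        bd (h σ) + lin h (bd1 σ) = lin (φ' g) (φ' g' σ) - φ' (g * g') σ) := by
    intro g g'
    by_cases h2 : g ∈ S₀ ∧ g' ∈ S₀
    swap
    · exact ⟨fun _ => 0, rfl, fun h3 h4 => absurd ⟨h3, h4⟩ h2⟩
    obtain ⟨hg, hg'⟩ := h2
    obtain ⟨m, hm⟩ := exists_nat_ge (1 / d)
    obtain ⟨h, h3, h4⟩ := hind g hg g' hg' m 1 ⟨zero_le_one, le_rfl⟩ ((div_le_iff₀ hd0).1 hm) _
      (FChain_ap_comp (hφ g g hg 1 h1 (mul_one g)) (hφ g' g' hg' 1 h1 (mul_one g'))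
        (fun σ z hz => (FChain_mem_B.1 hz).1) fun σ τ hσ ⟨x, hx⟩ hτ z hz =>
          FChain_mem_B.2 ⟨(FChain_mem_B.1 hz).1, fun y hy => by
            have h5 := FChain_mem_B.1 (hτ hx)
            have h6 := hG.mem y (hσ.1 hy)
            have h7 := hH.maps g' hg' 1 h1 0 z0 _ h6
            have h8 := hd g hg 1 h1 0 z0 0 z0 _ (hG.mem x h5.1) _ h7
              (by rw [sub_self, abs_zero]; exact hd0.le) (h5.2 y hy)
            rw [hH.zero g hg 1 h1 _ h7, hH.zero g' hg' 1 h1 _ h6, mul_one, mul_one,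
              ← hH.fin g hg g' hg' _ h6] at h8
            exact (dist_triangle _ _ _).trans (add_le_add ((FChain_mem_B.1 hz).2 x hx) h8)⟩)
    exact ⟨h, h3, fun _ _ => h4⟩
  choose H' hH0 hH' using hH'
  refine ⟨V, inferInstance, K, Adj, C, φ', H', pt, ⟨hG.dim, ?_, fun g σ x hx => ((hC _ _ _).1 hx).1,
    hφ1 1 rfl, hφ0, fun g hg g' hg' => (FChain_ap_mono (hφ _ g hg g' hg' rfl) fun σ _ _ =>
      hBC g hg g' hg' 0 z0 d (by linarith) σ).2, hH0, fun g hg g' hg' => hH' g g' hg hg'⟩, hG.mem,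
    fun x hx y hy h => (hG.adj x hx y hy h).trans (by linarith),
    fun g σ _ x hx => ((hC _ _ _).1 hx).2⟩
  obtain ⟨R, hR⟩ := hc.isBounded.exists_norm_le
  obtain ⟨x, hx⟩ := hne
  obtain ⟨z, hz, -⟩ := hG.near x hx
  exact hG.box (fun _ => -R) (fun _ => R) K (fun z => ⟨fun h => ⟨h, fun i =>
    abs_le.1 ((norm_le_pi_norm (pt z) i).trans (hR _ (hG.mem z h)))⟩, fun h => h.1⟩) ⟨z, hz⟩

end Pool.Agent.MP_f7db47_al.GF

end
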