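import Pool.Agent.Mg.Ff7db47.G870f0c
import Pool.Agent.Mg.Ff7db47.G7b930a
import Pool.Agent.Mg.Ff7db47.Gff0e1c
import Pool.Agent.Mg.Ff7db47.G3f6dcb
import Pool.Agent.Mg.Ff7db47.Gee04dc

section

/-!
Spiders on the flow space, including the cusps.
-/

namespace Pool.Agent.MP_f7db47_al.GF

open GN

/-- The spider attached to a type of cusps. -/
noncomputable def FCusp_spi {Γ : Type} [Group Γ] {S : Sp} {Fam : Set (Subgroup Γ)}
    (P : Pack Γ S Fam) {Y : Type} (ev : Y → ℝ → S.X) (b : ℝ) (i : P.ι) : Spi Γ Y where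
  leg :=
    { r := fun y g y' => P.E i (ev y 0) (P.ρ g (ev y' 0))
      refl := fun y => by
        rw [map_one]
        exact (P.eqv i).refl _
      symm := fun {y g y'} h => by
        have h1 := P.E_inv i g⁻¹ _ _ h
        rw [← Equiv.Perm.mul_apply, ← map_mul, inv_mul_cancel, map_one] at h1
        exact (P.eqv i).symm h1
      trans := fun {y g y' g' y''} h h' => by
        have h1 := P.E_inv i g _ _ h'
        rw [← Equiv.Perm.mul_apply, ← map_mul] at h1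
        exact (P.eqv i).trans h h1 }
  ht := fun y => ⌊P.h i (ev y 0) / b⌋₊

theorem FCusp_floor {a a' b : ℝ} (hb : 0 < b) (h : a ≤ a' + b) :
    ⌊a / b⌋₊ ≤ ⌊a' / b⌋₊ + 1 := by
  have h1 : a / b ≤ a' / b + 1 := by
    rw [div_add_one hb.ne']
    exact div_le_div_of_nonneg_right h hb.le
  have h2 := Nat.lt_floor_add_one (a' / b)
  have h3 : ⌊a / b⌋₊ < ⌊a' / b⌋₊ + 2 := by
    rw [Nat.floor_lt' (by omega)]
    push_cast
    linarith
  omega

theorem FCusp_zero {a b : ℝ} (hb : 0 < b) (h : a < b) : ⌊a / b⌋₊ = 0 := by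
  rw [Nat.floor_eq_zero, div_lt_one hb]
  exact h

theorem FCusp_spd {Γ : Type} [Group Γ] {S : Sp} (hS : S.Geo) {A : Act Γ S} {Y : Type}
    [MetricSpace Y] [MulAction Γ Y] {F : Flow Γ Y} {ev : Y → ℝ → S.X} (hE : Ev A F ev)
    (y : Y) (s : ℝ) : dist (ev y 0) (ev y s) ≤ |s| := by
  rw [hS.speed (hE.mem y).1, zero_sub, abs_neg]
  exact mul_le_of_le_one_right (abs_nonneg s) (hE.mem y).2

theorem FCusp_dist {Γ : Type} [Group Γ] {S : Sp} (hS : S.Geo) {A : Act Γ S} {Y : Type}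
    [MetricSpace Y] [MulAction Γ Y] {F : Flow Γ Y} {ev : Y → ℝ → S.X} (hE : Ev A F ev)
    {β ε : ℝ} (hε : ε ≤ 1) {y y' : Y} {γ : Γ} (h : F.Mv β ε y (γ • y')) :
    dist (ev y 0) (A.ρ γ (ev y' 0)) ≤ β + 1 := by
  obtain ⟨s, hs, hd⟩ := h
  have h1 := (hE.dist_le _ _ _).1 hd 0
  rw [hE.flow, hE.smul, zero_add, abs_zero, mul_zero, Real.exp_zero, mul_one] at h1
  have h2 := FCusp_spd hS hE y s
  have h3 := dist_triangle (ev y 0) (ev y s) (A.ρ γ (ev y' 0))
  linarith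

theorem FCusp_rel {Γ : Type} [Group Γ] {S : Sp} {Fam : Set (Subgroup Γ)}
    (P : Pack Γ S Fam) {Y : Type} (ev : Y → ℝ → S.X) {β : ℝ} (hβ : 0 ≤ β) (i : P.ι)
    {y y' : Y} {γ : Γ} (h : dist (ev y 0) (P.ρ γ (ev y' 0)) ≤ β + 1) :
    (FCusp_spi P ev (β + 2) i).rel 1 y γ y' := by
  have hb : 0 < β + 2 := by linarith
  have hi := P.h_inv i γ (ev y' 0)
  have l1 := P.h_lip i (ev y 0) (P.ρ γ (ev y' 0))
  have l2 := P.h_lip i (P.ρ γ (ev y' 0)) (ev y 0)
  rw [dist_comm] at l2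
  refine ⟨FCusp_floor hb (by linarith), FCusp_floor hb (by linarith), fun hn => ?_⟩
  have n1 : ¬ dist (ev y 0) (P.ρ γ (ev y' 0)) < P.h i (ev y 0) := fun hh =>
    hn (P.near i _ _ hh)
  have n2 : ¬ dist (P.ρ γ (ev y' 0)) (ev y 0) < P.h i (P.ρ γ (ev y' 0)) := fun hh =>
    hn ((P.eqv i).symm (P.near i _ _ hh))
  rw [dist_comm] at n2
  have e1 : (FCusp_spi P ev (β + 2) i).ht y = 0 := FCusp_zero hb (by linarith [not_lt.1 n1])
  have e2 : (FCusp_spi P ev (β + 2) i).ht y' = 0 := FCusp_zero hb (by linarith [not_lt.1 n2])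
  omega

theorem FCusp_near {Γ : Type} [Group Γ] {S : Sp} (hS : S.Geo) {A : Act Γ S} {Y : Type}
    [MetricSpace Y] [MulAction Γ Y] {F : Flow Γ Y} {ev : Y → ℝ → S.X} (hE : Ev A F ev)
    {y₀ : Y} (h0 : ev y₀ = fun _ => S.o) {C : ℝ} {y : Y} (h : dist (ev y 0) S.o ≤ C) :
    dist y y₀ ≤ max C 0 + 1 / F.κ := by
  rw [hE.dist_le]
  intro t
  have hk := hE.pos
  have h1 := FCusp_spd hS hE y t
  have h2 := dist_triangle (ev y t) (ev y 0) S.o
  rw [dist_comm (ev y t) (ev y 0)] at h2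
  have h3 : F.κ * |t| + 1 ≤ Real.exp (F.κ * |t|) := Real.add_one_le_exp _
  have h4 : C ≤ max C 0 := le_max_left _ _
  have h5 : 0 ≤ max C 0 := le_max_right _ _
  have h6 : 0 < 1 / F.κ := by positivity
  have h7 : 0 ≤ F.κ * |t| := by positivity
  have h8 : 1 / F.κ * (F.κ * |t|) = |t| := by field_simp
  have h9 : (max C 0 + 1 / F.κ) * (F.κ * |t| + 1) ≤
      (max C 0 + 1 / F.κ) * Real.exp (F.κ * |t|) :=
    mul_le_mul_of_nonneg_left h3 (by positivity)
  have h10 : 0 ≤ max C 0 * (F.κ * |t|) := mul_nonneg h5 h7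
  rw [h0]
  show dist (ev y t) S.o ≤ _
  nlinarith

theorem Pack.spiders {Γ : Type} [Group Γ] {S : Sp} {Fam : Set (Subgroup Γ)} (hS : S.Geo)
    (P : Pack Γ S Fam) {Y : Type} [MetricSpace Y] [MulAction Γ Y] {F : Flow Γ Y}
    {ev : Y → ℝ → S.X} (hE : Ev P.toAct F ev) : ∃ N : ℕ, ∀ (β : ℝ) (r : ℕ), 0 ≤ β →
    ∃ ε : ℝ, 0 < ε ∧ ∃ (ι : Type) (_ : Finite ι) (T : ι → Spi Γ Y),
      (∀ y, {i | 0 < (T i).ht y}.ncard ≤ N) ∧
      (∀ i y (γ : Γ) y', F.Mv β ε y (γ • y') → (T i).rel 1 y γ y') ∧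
      (∀ i y, 0 < (T i).ht y → ∃ B : Subgroup Γ, (T i).leg.grp y ≤ B ∧
        (B ∈ Fam ∨ ∃ φ : B →* MZ, ∀ g, φ g = 1 → IsOfFinOrder g)) ∧
      ∀ y, ∃ i, r ≤ (T i).ht y := by
  refine ⟨4 * (F.m + 1) + Nat.card P.ι, fun β r hβ => ?_⟩
  have hb : 0 < β + 2 := by linarith
  obtain ⟨C, hC⟩ := P.cc (r * (β + 2))
  obtain ⟨y₀, hy₀⟩ := hE.surj (fun _ => S.o) (hS.const _) (by simp)
  obtain ⟨ε₀, hε₀, n, U, hU1, hU2, hU3, hU4⟩ := F.spiders y₀ (max C 0 + 1 / F.κ) β r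
  refine ⟨min ε₀ 1, lt_min hε₀ one_pos, Fin n ⊕ P.ι, inferInstance,
    Sum.elim U (FCusp_spi P ev (β + 2)), fun y => ?_, fun i y γ y' h => ?_,
    fun i y h => ?_, fun y => ?_⟩
  · have hsub : {i : Fin n ⊕ P.ι | 0 < (Sum.elim U (FCusp_spi P ev (β + 2)) i).ht y} ⊆
        Sum.inl '' {i | 0 < (U i).ht y} ∪ Sum.inr '' Set.univ := by
      rintro (i | i) hi
      · exact Or.inl ⟨i, hi, rfl⟩
      · exact Or.inr ⟨i, trivial, rfl⟩
    refine (Set.ncard_le_ncard hsub (Set.toFinite _)).trans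
      ((Set.ncard_union_le _ _).trans (add_le_add ?_ ?_))
    · rw [Set.ncard_image_of_injective _ Sum.inl_injective]
      exact hU1 y
    · rw [Set.ncard_image_of_injective _ Sum.inr_injective, Set.ncard_univ]
  · rcases i with i | i
    · obtain ⟨s, hs, hd⟩ := h
      exact hU2 i y γ y' ⟨s, hs, hd.trans (min_le_left _ _)⟩
    · exact FCusp_rel P ev hβ i (FCusp_dist hS hE (min_le_right _ _) h)
  · rcases i with i | i
    · obtain ⟨z, hz⟩ := hU3 i y h
      exact ⟨F.Per z, hz, Or.inr (F.per z)⟩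
    · have h1 : 0 < P.h i (ev y 0) := by
        by_contra hh
        have h2 : (FCusp_spi P ev (β + 2) i).ht y = 0 :=
          FCusp_zero hb (by linarith [not_lt.1 hh])
        have h3 : 0 < (FCusp_spi P ev (β + 2) i).ht y := h
        omega
      obtain ⟨B, hB, hB'⟩ := P.cusp i _ h1
      exact ⟨B, fun g hg => hB' g hg, Or.inl hB⟩
  · by_cases hh : ∃ i, r ≤ (FCusp_spi P ev (β + 2) i).ht y
    · obtain ⟨i, hi⟩ := hh
      exact ⟨Sum.inr i, hi⟩
    · have h1 : ∀ i, P.h i (ev y 0) ≤ r * (β + 2) := by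
        intro i
        by_contra hc
        refine hh ⟨i, Nat.le_floor ?_⟩
        rw [le_div_iff₀ hb]
        exact (not_le.1 hc).le
      obtain ⟨γ, hγ⟩ := hC _ h1
      have h2 : dist (ev (γ • y) 0) S.o ≤ C := by
        rw [hE.smul]
        exact hγ
      obtain ⟨i, hi⟩ := hU4 y γ (FCusp_near hS hE hy₀ h2)
      exact ⟨Sum.inl i, hi⟩

end Pool.Agent.MP_f7db47_al.GF

end

section

/-!
The flow space of lines.
-/

namespace Pool.Agent.MP_f7db47_al.GF

open Metric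

/-- The lines of speed at most one. -/
def FFlow_Y (S : Sp) : Type := {c : ℝ → S.X // c ∈ S.L ∧ dist (c 0) (c 1) ≤ 1}

/-- The weighted distance of two lines. -/
noncomputable def FFlow_d {S : Sp} (κ : ℝ) (c c' : FFlow_Y S) : ℝ :=
  ⨆ t : ℝ, Real.exp (-(κ * |t|)) * dist (c.1 t) (c'.1 t)

theorem FFlow_spd {S : Sp} (h : S.Geo) (c : FFlow_Y S) (s t : ℝ) :
    dist (c.1 s) (c.1 t) ≤ |s - t| := by
  rw [h.speed c.2.1]
  exact mul_le_of_le_one_right (abs_nonneg _) c.2.2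

theorem FFlow_iff {κ r x t : ℝ} :
    Real.exp (-(κ * |t|)) * x ≤ r ↔ x ≤ r * Real.exp (κ * |t|) := by
  rw [Real.exp_neg, inv_mul_le_iff₀ (Real.exp_pos _), mul_comm]

theorem FFlow_one {κ : ℝ} (hκ : 0 < κ) (t : ℝ) : 1 ≤ Real.exp (κ * |t|) :=
  Real.one_le_exp (mul_nonneg hκ.le (abs_nonneg t))

theorem FFlow_bdd {S : Sp} (h : S.Geo) {κ : ℝ} (hκ : 0 < κ) (c c' : FFlow_Y S) :
    BddAbove (Set.range fun t : ℝ => Real.exp (-(κ * |t|)) * dist (c.1 t) (c'.1 t)) := by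
  refine ⟨dist (c.1 0) (c'.1 0) + 2 / κ, ?_⟩
  rintro _ ⟨t, rfl⟩
  refine FFlow_iff.mpr ?_
  have h1 := FFlow_spd h c t 0
  have h2 := FFlow_spd h c' 0 t
  rw [sub_zero] at h1
  rw [zero_sub, abs_neg] at h2
  have h3 := dist_triangle4 (c.1 t) (c.1 0) (c'.1 0) (c'.1 t)
  have h4 := FFlow_one hκ t
  have h5 : κ * |t| ≤ Real.exp (κ * |t|) := by linarith [Real.add_one_le_exp (κ * |t|)]
  have h6 : 2 * |t| ≤ 2 / κ * Real.exp (κ * |t|) := by
    rw [div_mul_eq_mul_div, le_div_iff₀ hκ]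
    nlinarith
  have h7 : dist (c.1 0) (c'.1 0) ≤ dist (c.1 0) (c'.1 0) * Real.exp (κ * |t|) :=
    le_mul_of_one_le_right dist_nonneg h4
  rw [add_mul]
  linarith

theorem FFlow_le {S : Sp} (h : S.Geo) {κ : ℝ} (hκ : 0 < κ) (c c' : FFlow_Y S) (r : ℝ) :
    FFlow_d κ c c' ≤ r ↔ ∀ t, dist (c.1 t) (c'.1 t) ≤ r * Real.exp (κ * |t|) := by
  unfold FFlow_d
  rw [ciSup_le_iff (FFlow_bdd h hκ c c')]
  exact forall_congr' fun t => FFlow_iff

theorem FFlow_pt {S : Sp} (h : S.Geo) {κ : ℝ} (hκ : 0 < κ) (c c' : FFlow_Y S) (t : ℝ) :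
    dist (c.1 t) (c'.1 t) ≤ FFlow_d κ c c' * Real.exp (κ * |t|) :=
  (FFlow_le h hκ c c' _).mp le_rfl t

theorem FFlow_zero {S : Sp} (h : S.Geo) {κ : ℝ} (hκ : 0 < κ) (c c' : FFlow_Y S) :
    dist (c.1 0) (c'.1 0) ≤ FFlow_d κ c c' := by
  simpa using FFlow_pt h hκ c c' 0

/-- The metric on the space of lines. -/
@[reducible] noncomputable def FFlow_met {S : Sp} (h : S.Geo) {κ : ℝ} (hκ : 0 < κ) :
    MetricSpace (FFlow_Y S) where
  dist := FFlow_d κ
  dist_self c := le_antisymm ((FFlow_le h hκ c c 0).mpr fun t => by simp)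
    (dist_nonneg.trans (FFlow_zero h hκ c c))
  dist_comm c c' := by
    unfold FFlow_d
    simp only [dist_comm]
  dist_triangle c c' c'' := (FFlow_le h hκ c c'' _).mpr fun t => by
    rw [add_mul]
    exact (dist_triangle _ (c'.1 t) _).trans
      (add_le_add (FFlow_pt h hκ c c' t) (FFlow_pt h hκ c' c'' t))
  eq_of_dist_eq_zero := fun {c c'} e => Subtype.ext (funext fun t => by
    have h1 := FFlow_pt h hκ c c' t
    rw [show FFlow_d κ c c' = 0 from e, zero_mul] at h1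
    exact dist_le_zero.mp h1)

/-- The action on the space of lines. -/
@[reducible] def FFlow_act {Γ : Type} [Group Γ] {S : Sp} (A : Act Γ S) :
    MulAction Γ (FFlow_Y S) where
  smul γ c := ⟨fun t => A.ρ γ (c.1 t), A.line γ _ c.2.1, by rw [A.iso]; exact c.2.2⟩
  one_smul c := Subtype.ext (funext fun t => by
    show A.ρ 1 (c.1 t) = c.1 t
    rw [map_one]
    rfl)
  mul_smul a b c := Subtype.ext (funext fun t => by
    show A.ρ (a * b) (c.1 t) = A.ρ a (A.ρ b (c.1 t))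
    rw [map_mul]
    rfl)

/-- The shift of a line. -/
def FFlow_sh {S : Sp} (h : S.Geo) (s : ℝ) (c : FFlow_Y S) : FFlow_Y S :=
  ⟨fun t => c.1 (t + s), by simpa using h.aff _ c.2.1 1 s, by
    simpa using FFlow_spd h c (0 + s) (1 + s)⟩

theorem FFlow_ball {S : Sp} (h : S.Geo) {κ : ℝ} (hκ : 0 < κ) {m : ℕ} (hp : S.Par κ m)
    (y : FFlow_Y S) (r : ℝ) :
    letI := FFlow_met h hκ
    IsCompact (closedBall y r) ∧ Cov (closedBall y r) m := by
  classical
  let _ := FFlow_met h hκ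
  obtain ⟨P, _, s, π, A, h1, h2, h3, h4, h5⟩ := hp (r + dist (y.1 0) S.o)
  let f : P → FFlow_Y S := fun p => if hp : p ∈ s then ⟨π p, h3 p hp⟩ else y
  have hf : ∀ p ∈ s, ∀ p' ∈ s, dist (f p) (f p') ≤ A * dist p p' := fun p hp p' hp' => by
    simp only [f, dif_pos hp, dif_pos hp']
    exact (FFlow_le h hκ _ _ _).mpr fun t => h4 p hp p' hp' t
  have hs : closedBall y r ⊆ f '' s := fun c hc => by
    have h6 : dist (c.1 0) (y.1 0) ≤ r := (FFlow_zero h hκ c y).trans (mem_closedBall.mp hc)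
    obtain ⟨p, hp, e⟩ := h5 c.1 c.2.1
      ((dist_triangle _ (y.1 0) _).trans (add_le_add h6 le_rfl)) c.2.2
    refine ⟨p, hp, ?_⟩
    simp only [f, dif_pos hp]
    exact Subtype.ext e
  have hc : ContinuousOn f s :=
    (LipschitzOnWith.of_dist_le' (K := A) hf).continuousOn
  exact ⟨(h1.image_of_continuousOn hc).of_isClosed_subset isClosed_closedBall hs,
    (h2.image f A hf).subset hs⟩

theorem exists_flow {Γ : Type} [Group Γ] {S : Sp} (hS : S.Good) (A : Act Γ S) :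
    ∃ (Y : Type) (_ : MetricSpace Y) (_ : MulAction Γ Y) (F : Flow Γ Y) (ev : Y → ℝ → S.X),
      Ev A F ev := by
  obtain ⟨κ, m, hκ, hp⟩ := hS.par
  have h := hS.geo
  let _ := FFlow_met h hκ
  let _ := FFlow_act A
  have hle : ∀ (c c' : FFlow_Y S) (r : ℝ), dist c c' ≤ r ↔
      ∀ t, dist (c.1 t) (c'.1 t) ≤ r * Real.exp (κ * |t|) := FFlow_le h hκ
  have hsm : ∀ (γ : Γ) (c : FFlow_Y S) (t : ℝ), (γ • c).1 t = A.ρ γ (c.1 t) := fun _ _ _ => rfl
  refine ⟨FFlow_Y S, inferInstance, inferInstance,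
    { Φ := FFlow_sh h
      κ := κ
      m := m
      hκ := hκ.le
      zero := fun y => Subtype.ext (funext fun t => congrArg y.1 (add_zero t))
      add := fun s t y => Subtype.ext (funext fun u => congrArg y.1 (add_assoc u s t).symm)
      smul := fun γ s y => rfl
      iso := fun γ y y' => ?_
      lip := fun s y y' => (hle _ _ _).mpr fun t => ?_
      spd := fun s t y => (hle _ _ _).mpr fun u => ?_
      prp := fun y r => ?_
      cpt := fun y r => (FFlow_ball h hκ hp y r).1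
      cov := fun y r => (FFlow_ball h hκ hp y r).2 }, fun c => c.1,
    ⟨hκ, fun y => y.2, fun c h1 h2 => ⟨⟨c, h1, h2⟩, rfl⟩, fun _ _ _ => rfl, hsm, hle⟩⟩
  · show FFlow_d κ _ _ = FFlow_d κ _ _
    unfold FFlow_d
    simp only [hsm, A.iso]
  · have h1 := (hle y y' _).mp le_rfl (t + s)
    have h2 : Real.exp (κ * |t + s|) ≤ Real.exp (κ * |s|) * Real.exp (κ * |t|) := by
      rw [← Real.exp_add, Real.exp_le_exp, ← mul_add, add_comm |s|]
      exact mul_le_mul_of_nonneg_left (abs_add_le t s) hκ.le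
    refine h1.trans ((mul_le_mul_of_nonneg_left h2 dist_nonneg).trans_eq ?_)
    ring
  · have h1 := FFlow_spd h y (u + s) (u + t)
    rw [add_sub_add_left_eq_sub] at h1
    exact h1.trans (le_mul_of_one_le_right (abs_nonneg _) (FFlow_one hκ u))
  · refine (A.prp (r + 2 * dist (y.1 0) S.o)).subset fun γ hγ => ?_
    have h1 : dist (A.ρ γ (y.1 0)) (y.1 0) ≤ r := (FFlow_zero h hκ (γ • y) y).trans hγ
    have h2 := dist_triangle4 (A.ρ γ S.o) (A.ρ γ (y.1 0)) (y.1 0) S.o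
    rw [A.iso, dist_comm S.o] at h2
    show dist (A.ρ γ S.o) S.o ≤ _
    linarith

end Pool.Agent.MP_f7db47_al.GF

end

section

/-!
The transfer from chain level data.
-/

set_option linter.unusedSectionVars false

namespace Pool.Agent.MP_f7db47_al.GF

open GN Matrix

universe v

variable {R : Type v} [Ring R]

section Tr

variable {G J V : Type} [Group G] [Fintype J] [DecidableEq J] [LinearOrder V]
  {r : J → G → J → Prop} {K : J → Finset V} {Adj : J → V → V → Prop}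
  {φ : J → G → J → Finset V → (Finset V →₀ ℤ)}
  {H : J → G → J → G → J → Finset V → (Finset V →₀ ℤ)} {a b : Matrix J J (MonoidAlgebra R G)}

lemma FTr2_chain (h0 : ∀ i g j, φ i g j ∅ = Finsupp.single ∅ 1)
    (hφ : ∀ i g j σ, r i g j → Clq (Adj j) (K j) σ → σ.Nonempty →
      Ch (Adj i) (K i) σ.card (φ i g j σ) ∧ bd (φ i g j σ) = lin (φ i g j) (bd1 σ))
    (ha : CMainR r a) :
    CMainB (MonoidAlgebra R G) (Subtype.val : CMainP K Adj → _) (Subtype.val : CMainP K Adj → _)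
      (fun _ => bd1) * CMainT (Subtype.val : CMainP K Adj → _) (Subtype.val : CMainP K Adj → _) a φ =
    CMainT (Subtype.val : CMainP K Adj → _) (Subtype.val : CMainP K Adj → _) a φ *
      CMainB (MonoidAlgebra R G) (Subtype.val : CMainP K Adj → _) (Subtype.val : CMainP K Adj → _)
        (fun _ => bd1) := by
  rw [CMainB_mul_T (CMain_sum_P _), CMainT_mul_B (CMain_sum_P _)]
  refine CMainT_congr ?_
  rintro _ g _ hg x y rfl rfl
  have hr := ha _ _ g hg
  obtain ⟨h1, h2⟩ := hφ _ g _ _ hr (CMain_P y).1 (CMain_P y).2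
  rw [CMain_C_bd _ _ fun σ hσ => (h1 σ hσ).1, CMain_C_bd' _ (CMain_P y).1, h2, h0]
  simp [(CMain_P x).2.ne_empty.symm]

lemma FTr2_aug (h0 : ∀ i g j, φ i g j ∅ = Finsupp.single ∅ 1)
    (hφ : ∀ i g j σ, r i g j → Clq (Adj j) (K j) σ → σ.Nonempty →
      Ch (Adj i) (K i) σ.card (φ i g j σ) ∧ bd (φ i g j σ) = lin (φ i g j) (bd1 σ))
    (ha : CMainR r a) :
    CMainB (MonoidAlgebra R G) (fun j => (j, (∅ : Finset V))) (Subtype.val : CMainP K Adj → _)
      (fun _ => bd1) * CMainT (Subtype.val : CMainP K Adj → _) (Subtype.val : CMainP K Adj → _) a φ =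
    a * CMainB (MonoidAlgebra R G) (fun j => (j, (∅ : Finset V))) (Subtype.val : CMainP K Adj → _)
        (fun _ => bd1) := by
  conv_rhs => rw [← CMainT_base (a := a) φ fun i g j => by simp [h0]]
  rw [CMainB_mul_T (CMain_sum_P _), CMainT_mul_B (CMain_sum_J _)]
  refine CMainT_congr ?_
  rintro _ g _ hg x y rfl rfl
  have hr := ha _ _ g hg
  obtain ⟨h1, h2⟩ := hφ _ g _ _ hr (CMain_P y).1 (CMain_P y).2
  rw [CMain_C_bd _ _ fun σ hσ => (h1 σ hσ).1, h2,
    ← sub_add_cancel (lin _ _) (bd1 y.1.2 ∅ • φ x g y.1.1 ∅), ← CMain_C_bd' _ (CMain_P y).1]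
  simp only [CMainC, Finset.sum_singleton, Finsupp.add_apply, Finsupp.finsetSum_apply,
    add_eq_right]
  refine Finset.sum_eq_zero fun σ hσ => ?_
  obtain ⟨h3, h4⟩ := CMain_mem_S.1 hσ
  rw [Finsupp.smul_apply, CMain_ch_empty (hφ _ g _ σ hr h3 h4).1 h4.card_pos, smul_zero]

lemma FTr2_htpy (h1 : ∀ j σ, φ j 1 j σ = Finsupp.single σ 1)
    (hφ : ∀ i g j σ, r i g j → Clq (Adj j) (K j) σ → σ.Nonempty →
      Ch (Adj i) (K i) σ.card (φ i g j σ) ∧ bd (φ i g j σ) = lin (φ i g j) (bd1 σ))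
    (H0 : ∀ i g j g' k, H i g j g' k ∅ = 0)
    (hH : ∀ i g j g' k σ, r i g j → r j g' k → Clq (Adj k) (K k) σ → σ.Nonempty →
      Ch (Adj i) (K i) (σ.card + 1) (H i g j g' k σ) ∧
      bd (H i g j g' k σ) + lin (H i g j g' k) (bd1 σ) =
        lin (φ i g j) (φ j g' k σ) - φ i (g * g') k σ)
    (ha : CMainR r a) (hb : CMainR r b) (hab : a * b = 1) :
    CMainT (Subtype.val : CMainP K Adj → _) (Subtype.val : CMainP K Adj → _) a φ *
      CMainT (Subtype.val : CMainP K Adj → _) (Subtype.val : CMainP K Adj → _) b φ =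
    1 + CMainB (MonoidAlgebra R G) (Subtype.val : CMainP K Adj → _)
      (Subtype.val : CMainP K Adj → _) (fun _ => bd1) *
      CMainW (Subtype.val : CMainP K Adj → _) (Subtype.val : CMainP K Adj → _) a b H +
      CMainW (Subtype.val : CMainP K Adj → _) (Subtype.val : CMainP K Adj → _) a b H *
      CMainB (MonoidAlgebra R G) (Subtype.val : CMainP K Adj → _) (Subtype.val : CMainP K Adj → _)
        (fun _ => bd1) := by
  have e1 : (1 : Matrix (CMainP K Adj) (CMainP K Adj) (MonoidAlgebra R G)) =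
      CMainT Subtype.val Subtype.val (a * b) φ := by
    rw [hab, CMainT_one, ← CMainB_one Subtype.val_injective]
    exact CMainB_congr fun j x y _ _ => by rw [h1]
  rw [e1, CMainT_mul, CMainT_mul_T (CMain_sum_P _), CMainB_mul_W (CMain_sum_P _),
    CMainW_mul_B (CMain_sum_P _), CMainW_add, CMainW_add]
  refine CMainW_congr ?_
  rintro _ g j g' _ hg hg' x y rfl rfl
  have hr := ha _ _ g hg
  have hr' := hb _ _ g' hg'
  obtain ⟨h2, h3⟩ := hH _ g j g' _ _ hr hr' (CMain_P y).1 (CMain_P y).2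
  have h4 := (hφ _ g' _ _ hr' (CMain_P y).1 (CMain_P y).2).1
  simp only [Pi.add_apply]
  rw [CMain_C _ _ _ fun σ hσ => (h4 σ hσ).1, CMain_C_bd _ _ fun σ hσ => (h2 σ hσ).1,
    CMain_C_bd' _ (CMain_P y).1, H0, CMain_ch_empty h4 (CMain_P y).2.card_pos, add_assoc,
    smul_zero, zero_smul, sub_zero, sub_zero, h3, add_sub_cancel]

end Tr

lemma FTr2_contr {V : Type} [LinearOrder V] {Adj : V → V → Prop} {K : Finset V}
    (h : Acyc Adj K) : ∃ (o : V) (s : Finset V → (Finset V →₀ ℤ)),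
      (o ∈ K ∧ s ∅ = Finsupp.single {o} 1) ∧
      ∀ σ, Clq Adj K σ → σ.Nonempty → Ch Adj K (σ.card + 1) (s σ) ∧
        bd (s σ) + lin s (bd1 σ) = Finsupp.single σ 1 := by
  obtain ⟨c, hc1, hc2⟩ := h 0 (Finsupp.single ∅ 1)
    (CExt_ch_single ⟨Finset.empty_subset _, by simp⟩ rfl)
    (by rw [CExt_bd_single, CExt_bd1_empty])
  have hc0 : c ≠ 0 := by
    rintro rfl
    rw [map_zero] at hc2
    exact one_ne_zero (Finsupp.single_eq_zero.1 hc2.symm)
  obtain ⟨τ, hτ⟩ := Finsupp.ne_iff.1 hc0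
  obtain ⟨h1, h2⟩ := hc1 τ hτ
  obtain ⟨o, rfl⟩ := Finset.card_eq_one.1 h2
  obtain ⟨x, hx0, hx⟩ := extend (Adj := Adj) (K := K) (Adj' := Adj) (fun _ => K)
    (fun σ τ _ => subset_rfl) (fun σ _ _ => h) 1 (-1) (fun σ => Finsupp.single σ 1)
    (Finsupp.single {o} 1) (by rw [CExt_bd_single]; simp [bd1, Finset.filter_singleton])
    (fun σ _ _ => CExt_ch_single h1 rfl) (fun σ n hσ hn => CExt_ch_single hσ hn)
    (fun σ _ => by rw [CExt_bd_single, CExt_lin_id, neg_one_smul, add_neg_cancel])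
  refine ⟨o, x, ⟨h1.1 (Finset.mem_singleton_self o), hx0⟩, fun σ hσ hne =>
    ⟨(hx σ hσ hne).1, ?_⟩⟩
  rw [(hx σ hσ hne).2, neg_one_smul, neg_add_cancel_right]

theorem transfer2 (n : ℕ) : ∃ c : ℕ, 0 < c ∧ ∀ (G : Type) [Group G] (J V Λ : Type) [Fintype J]
    [DecidableEq J] [LinearOrder V] (S₀ : Finset G) (K : Finset V) (Adj : V → V → Prop)
    (C : G → Finset V → Finset V) (φ : G → Finset V → (Finset V →₀ ℤ))
    (H : G → G → Finset V → (Finset V →₀ ℤ)) (F : GN.FR G Λ) (pt : V → Λ) (κ : ℕ), 1 ∈ S₀ →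
    ChD S₀ K Adj C n φ H → (∀ x ∈ K, ∀ y ∈ K, Adj x y → F.rel κ (pt x) 1 (pt y)) →
    (∀ g σ, Clq Adj K σ → ∀ x ∈ C g σ, ∀ y ∈ σ, F.rel κ (pt x) g (pt y)) →
    ∀ a b : Matrix J J (MonoidAlgebra R G), a * b = 1 → b * a = 1 → MSup (S₀ : Set G) a →
    MSup (S₀ : Set G) b →
    ∃ (J' : Type) (_ : Fintype J') (_ : DecidableEq J') (l : J' → Λ)
      (A B : Matrix J' J' (MonoidAlgebra R G)), (∀ j, ∃ x ∈ K, l j = pt x) ∧ A * B = 1 ∧
      B * A = 1 ∧ Ctl (F.rel (c * κ)) l l A ∧ Ctl (F.rel (c * κ)) l l B ∧ (T A → T a) := by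
  obtain ⟨c, hc, ht⟩ := torsion (R := R) n
  refine ⟨c, hc, fun G _ J V Λ _ _ _ S₀ K Adj C φ H F pt κ hS hD hA hC a b hab hba ha hb => ?_⟩
  let r : J → G → J → Prop := fun _ g _ => g ∈ S₀
  let K' : J → Finset V := fun _ => K
  let Adj' : J → V → V → Prop := fun _ => Adj
  let φ' : J → G → J → Finset V → (Finset V →₀ ℤ) := fun _ g _ => φ g
  let H' : J → G → J → G → J → Finset V → (Finset V →₀ ℤ) := fun _ g _ g' _ => H g g'
  replace ha : CMainR r a := fun i j g hg => ha i j g hg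
  replace hb : CMainR r b := fun i j g hg => hb i j g hg
  obtain ⟨o, s, ho, hs⟩ := FTr2_contr hD.acyc
  have hφC : ∀ g ∈ S₀, ∀ σ, Clq Adj K σ → σ.Nonempty →
      Ch Adj (C g σ) σ.card (φ g σ) ∧ bd (φ g σ) = lin (φ g) (bd1 σ) := fun g hg σ hσ hne => by
    simpa only [mul_one] using hD.chain g hg 1 hS σ hσ hne
  have h1 : ∀ j σ, φ' j 1 j σ = Finsupp.single σ 1 := fun _ σ => hD.one σ
  have h0 : ∀ i g j, φ' i g j ∅ = Finsupp.single ∅ 1 := fun _ g _ => hD.emp g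
  have hφ : ∀ i g j σ, r i g j → Clq (Adj' j) (K' j) σ → σ.Nonempty →
      Ch (Adj' i) (K' i) σ.card (φ' i g j σ) ∧ bd (φ' i g j σ) = lin (φ' i g j) (bd1 σ) :=
    fun _ g _ σ hg hσ hne =>
      ⟨CExt_ch_mono (hφC g hg σ hσ hne).1 (hD.sub g σ), (hφC g hg σ hσ hne).2⟩
  have H0 : ∀ i g j g' k, H' i g j g' k ∅ = 0 := fun _ g _ g' _ => hD.H0 g g'
  have hH : ∀ i g j g' k σ, r i g j → r j g' k → Clq (Adj' k) (K' k) σ → σ.Nonempty →
      Ch (Adj' i) (K' i) (σ.card + 1) (H' i g j g' k σ) ∧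
      bd (H' i g j g' k σ) + lin (H' i g j g' k) (bd1 σ) =
        lin (φ' i g j) (φ' j g' k σ) - φ' i (g * g') k σ :=
    fun _ g _ g' _ σ hg hg' hσ hne =>
      ⟨CExt_ch_mono (hD.htpy g hg g' hg' σ hσ hne).1 (hD.sub _ σ),
        (hD.htpy g hg g' hg' σ hσ hne).2⟩
  let l : CMainP K' Adj' → Λ := fun x => pt (CMainL x).1.2
  have dT : ∀ a : Matrix J J (MonoidAlgebra R G), CMainR r a →
      Dg (fun x : CMainP K' Adj' => x.1.2.card - 1) 0 (CMainT Subtype.val Subtype.val a φ') :=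
    fun a ha => CMain_dg (CMainZ_T (by
      rintro _ g _ hg x y rfl rfl h
      rw [((hφ x.1.1 g y.1.1 _ (ha _ _ g hg) (CMain_P y).1 (CMain_P y).2).1 _ h).2, add_zero]))
  have dW : ∀ a b : Matrix J J (MonoidAlgebra R G), CMainR r a → CMainR r b →
      Dg (fun x : CMainP K' Adj' => x.1.2.card - 1) 1 (CMainW Subtype.val Subtype.val a b H') :=
    fun a b ha hb => CMain_dg (CMainZ_W (by
      rintro _ g j g' _ hg hg' x y rfl rfl h
      rw [((hH x.1.1 g j g' y.1.1 _ (ha _ _ g hg) (hb _ _ g' hg') (CMain_P y).1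
        (CMain_P y).2).1 _ h).2]
      rfl))
  have cT : ∀ a : Matrix J J (MonoidAlgebra R G), CMainR r a →
      Ctl (F.rel κ) l l (CMainT Subtype.val Subtype.val a φ') :=
    fun a ha => CMain_msup_T (by
      rintro _ g _ hg x y rfl rfl h
      have hr := ha _ _ g hg
      exact hC g y.1.2 (CMain_P y).1 _
        (((hφC g hr _ (CMain_P y).1 (CMain_P y).2).1 _ h).1.1 (CMainL_mem x)) _ (CMainL_mem y))
  have cW : ∀ a b : Matrix J J (MonoidAlgebra R G), CMainR r a → CMainR r b →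
      Ctl (F.rel κ) l l (CMainW Subtype.val Subtype.val a b H') :=
    fun a b ha hb => CMain_msup_W (by
      rintro _ g j g' _ hg hg' x y rfl rfl h
      have hr := ha _ _ g hg
      have hr' := hb _ _ g' hg'
      exact hC (g * g') y.1.2 (CMain_P y).1 _
        (((hD.htpy g hr g' hr' _ (CMain_P y).1 (CMain_P y).2).1 _ h).1.1 (CMainL_mem x)) _
        (CMainL_mem y))
  have dd : ∀ (X : Type) (p : X → J × Finset V),
      CMainB (MonoidAlgebra R G) p (Subtype.val : CMainP K' Adj' → _) (fun _ => bd1) *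
        CMainB (MonoidAlgebra R G) (Subtype.val : CMainP K' Adj' → _)
          (Subtype.val : CMainP K' Adj' → _) (fun _ => bd1) = 0 := fun X p => by
    rw [CMainB_mul_B (CMain_sum_P _), ← CMainB_zero (p := p) (q := Subtype.val)]
    refine CMainB_congr ?_
    rintro _ x y - rfl
    rw [CMain_C_bd' _ (CMain_P y).1, CMain_bd1_empty, smul_zero, sub_zero, ← CMain_bd_single]
    exact congrArg (fun c : Finset V →₀ ℤ => c (p x).2) (bd_bd _)
  obtain ⟨A, B, h⟩ := ht G _ (CMainP K' Adj') J F κ l (fun x => x.1.2.card - 1)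
    (CMainB _ Subtype.val Subtype.val fun _ => bd1) (CMainT Subtype.val Subtype.val a φ')
    (CMainT Subtype.val Subtype.val b φ') (CMainW Subtype.val Subtype.val b a H')
    (CMainW Subtype.val Subtype.val a b H') (CMainB _ Subtype.val Subtype.val fun _ => s) a b
    (CMainB _ Subtype.val (fun j => (j, ∅)) fun _ => s)
    (CMainB _ (fun j => (j, ∅)) Subtype.val fun _ => bd1)
    (fun x => (Nat.sub_le _ _).trans (hD.dim _ (CMain_P x).1))
    (CMain_dg (CMainZ_B fun j x y _ _ h => by have := (CMain_bd1 h).2; omega))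
    (dT a ha) (dT b hb) (dW b a hb ha) (dW a b ha hb)
    (CMain_dg (CMainZ_B (by
      rintro _ x y - rfl h
      rw [((hs _ (CMain_P y).1 (CMain_P y).2).1 _ h).2]
      rfl)))
    (CMainZ_B (Q := fun (x : CMainP K' Adj') (_ : J) => x.1.2.card - 1 = 0) (by
      rintro _ x y - rfl h
      rw [ho.2] at h
      rw [(Finsupp.single_apply_ne_zero.1 h).1, Finset.card_singleton]))
    (CMainZ_B (Q := fun (_ : J) (x : CMainP K' Adj') => x.1.2.card - 1 = 0) fun j x y _ _ h => by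
      rw [← (CMain_bd1 h).2, Finset.card_empty])
    (CMain_msup_B (by
      rintro _ x y e rfl h
      have hx := (CMain_bd1 h).1 (CMainL_mem x)
      change F.rel κ (pt (CMainL x).1.2) 1 (pt (CMainL y).1.2)
      by_cases e' : (CMainL x).1.2 = (CMainL y).1.2
      · rw [e']
        exact F.mono (Nat.zero_le _) (F.refl _)
      · exact hA _ (CMainL x).2 _ (CMainL y).2 ((CMain_P y).1.2 _ hx _ (CMainL_mem y) e')))
    (cT a ha) (cT b hb) (cW b a hb ha) (cW a b ha hb) (dd _ _) (FTr2_chain h0 hφ ha)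
    (FTr2_chain h0 hφ hb) (FTr2_htpy h1 hφ H0 hH hb ha hba)
    (FTr2_htpy h1 hφ H0 hH ha hb hab) hab hba
    (by
      rw [CMainB_mul_B (CMain_sum_P _), ← CMainB_one (p := fun j : J => (j, (∅ : Finset V)))
        fun _ _ e => congrArg Prod.fst e]
      refine CMainB_congr ?_
      rintro _ x y - rfl
      have hcl : ∀ σ, s ∅ σ ≠ 0 → Clq (Adj' y) (K' y) σ := fun σ hσ => by
        rw [ho.2] at hσ
        rw [(Finsupp.single_apply_ne_zero.1 hσ).1]
        exact ⟨Finset.singleton_subset_iff.2 ho.1, by simp⟩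
      rw [CMain_C_bd _ _ hcl, ho.2, CMain_bd_single]
      simp [bd1, Finset.filter_singleton])
    (dd _ _)
    (by
      rw [eq_sub_iff_add_eq, CMainB_mul_B (CMain_sum_P _), CMainB_mul_B (CMain_sum_P _),
        CMainB_mul_B (CMain_sum_J _), CMainB_add, CMainB_add, ← CMainB_one Subtype.val_injective]
      refine CMainB_congr ?_
      rintro _ x y - rfl
      obtain ⟨h2, h3⟩ := hs _ (CMain_P y).1 (CMain_P y).2
      simp only [Pi.add_apply]
      rw [CMain_C_bd _ _ fun σ hσ => (h2 σ hσ).1, CMain_C_bd' _ (CMain_P y).1, ← h3, CMainC,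
        Finset.sum_singleton, add_assoc, sub_add_cancel])
    (FTr2_aug h0 hφ ha) (CMainB_map _ _) (CMainB_map _ _) (CMainB_map _ _) (CMainB_map _ _)
  exact ⟨_, inferInstance, inferInstance, l, A, B, fun x => ⟨_, (CMainL x).2, rfl⟩, h⟩

end Pool.Agent.MP_f7db47_al.GF

end

section

/-!
The transfer for homotopy actions.
-/

namespace Pool.Agent.MP_f7db47_al.GF

open GN Matrix

universe v

variable {R : Type v} [Ring R]

theorem transfer3 (n : ℕ) : ∃ c : ℕ, ∀ (G : Type) [Group G] (X F J : Type) [MetricSpace X]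
    [Fintype F] [Fintype J] [DecidableEq J] (D : Set X) (e : X → F → ℝ) (S₀ : Finset G)
    (φ : G → X → X) (H : G → G → ℝ → X → X) (Fr : GN.FR G X) (η : ℝ), IsCompact D →
    D.Nonempty → ContinuousOn e D → Set.InjOn e D → TropC (e '' D) n → 1 ∈ S₀ →
    HAct S₀ D φ H → 0 < η → (∀ x ∈ D, ∀ y ∈ D, dist x y ≤ η → Fr.rel 1 x 1 y) →
    (∀ g ∈ S₀, ∀ g' ∈ S₀, ∀ u ∈ Set.Icc (0 : ℝ) 1, ∀ y ∈ D, Fr.rel 1 (H g g' u y) (g * g') y) →
    ∀ a b : Matrix J J (MonoidAlgebra R G), a * b = 1 → b * a = 1 → MSup (S₀ : Set G) a →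
    MSup (S₀ : Set G) b →
    ∃ (J' : Type) (_ : Fintype J') (_ : DecidableEq J') (l : J' → X)
      (A B : Matrix J' J' (MonoidAlgebra R G)), (∀ j, l j ∈ D) ∧ A * B = 1 ∧ B * A = 1 ∧
      Ctl (Fr.rel c) l l A ∧ Ctl (Fr.rel c) l l B ∧ (T A → T a) := by
  obtain ⟨c, -, hc⟩ := transfer2 (R := R) (n + 1)
  refine ⟨c * 2, ?_⟩
  intro G _ X F J _ _ _ _ D e S₀ φ H Fr η hD hne he hinj hT h1 hH hη hr1 hr2 a b hab hba ha hb
  have : Nonempty X := hne.nonempty
  obtain ⟨inv, hinv⟩ : ∃ inv : (F → ℝ) → X, ∀ x ∈ D, inv (e x) = x :=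
    ⟨Function.invFunOn e D, fun x hx => hinj.leftInvOn_invFunOn hx⟩
  have hm : ∀ y ∈ e '' D, inv y ∈ D := by
    rintro _ ⟨x, hx, rfl⟩
    rwa [hinv x hx]
  have hD' : IsCompact (e '' D) := hD.image_of_continuousOn he
  have hci : ContinuousOn inv (e '' D) := by
    refine continuousOn_iff_isClosed.2 fun t ht => ⟨e '' (t ∩ D),
      ((hD.inter_left ht).image_of_continuousOn (he.mono Set.inter_subset_right)).isClosed, ?_⟩
    ext y
    constructor
    · rintro ⟨h, x, hx, rfl⟩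
      rw [Set.mem_preimage, hinv x hx] at h
      exact ⟨⟨x, ⟨h, hx⟩, rfl⟩, x, hx, rfl⟩
    · rintro ⟨⟨x, hx, rfl⟩, h⟩
      exact ⟨by rw [Set.mem_preimage, hinv x hx.2]; exact hx.1, h⟩
  obtain ⟨δ, hδ, hu⟩ :=
    Metric.uniformContinuousOn_iff.1 (hD'.uniformContinuousOn_of_continuous hci) η hη
  have hφ : ∀ g ∈ S₀, ∀ y ∈ D, φ g y ∈ D := fun g hg y hy => by
    have h := hH.maps 1 h1 g hg 0 ⟨le_rfl, zero_le_one⟩ y hy
    rwa [hH.zero 1 h1 g hg y hy, one_mul] at h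
  have hH' : HAct S₀ (e '' D) (fun g y => e (φ g (inv y))) fun g g' u y => e (H g g' u (inv y)) := by
    refine ⟨?_, fun g hg g' hg' u hu y hy => ⟨_, hH.maps g hg g' hg' u hu _ (hm y hy), rfl⟩,
      fun g hg g' hg' => ?_, fun g hg g' hg' y hy => by rw [hH.zero g hg g' hg' _ (hm y hy)],
      fun g hg g' hg' y hy => by
        rw [hH.fin g hg g' hg' _ (hm y hy), hinv _ (hφ g' hg' _ (hm y hy))]⟩
    · rintro _ ⟨x, hx, rfl⟩
      rw [hinv x hx, hH.one x hx]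
    · refine he.comp (f := fun p : ℝ × (F → ℝ) => H g g' p.1 (inv p.2)) ?_
        fun p hp => hH.maps g hg g' hg' _ hp.1 _ (hm _ hp.2)
      exact (hH.cont g hg g' hg').comp (f := fun p : ℝ × (F → ℝ) => (p.1, inv p.2))
        (continuousOn_fst.prodMk (hci.comp continuousOn_snd fun p hp => hp.2))
        fun p hp => ⟨hp.1, hm _ hp.2⟩
  obtain ⟨V, _, K, Adj, C, φ', H', pt, hch, hpt, hadj, hC⟩ :=
    exists_chd hD' (hne.image e) hT h1 hH' (δ / 2) (half_pos hδ)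
  have hn : ∀ x ∈ e '' D, ∀ y ∈ e '' D, dist x y ≤ δ / 2 → Fr.rel 1 (inv x) 1 (inv y) :=
    fun x hx y hy h => hr1 _ (hm x hx) _ (hm y hy) (hu x hx y hy (by linarith)).le
  obtain ⟨J', i1, i2, l, A, B, hl, h⟩ := hc G J V X S₀ K Adj C φ' H' Fr (fun x => inv (pt x)) 2 h1
    hch (fun x hx y hy h => Fr.mono one_le_two (hn _ (hpt x hx) _ (hpt y hy) (hadj x hx y hy h)))
    (fun g σ hσ x hx y hy => by
      obtain ⟨g₁, h₁, g₂, h₂, u, hu', rfl, hd⟩ := hC g σ hσ x hx y hy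
      have hy' := hm _ (hpt y (hσ.1 hy))
      have hz := hH.maps g₁ h₁ g₂ h₂ u hu' _ hy'
      have h := hn _ (hpt x (hch.sub _ _ hx)) _ ⟨_, hz, rfl⟩ hd
      rw [hinv _ hz] at h
      simpa only [one_mul] using Fr.comp h (hr2 g₁ h₁ g₂ h₂ u hu' _ hy')) a b hab hba ha hb
  refine ⟨J', i1, i2, l, A, B, fun j => ?_, h⟩
  obtain ⟨x, hx, hj⟩ := hl j
  rw [hj]
  exact hm _ (hpt x hx)

end Pool.Agent.MP_f7db47_al.GF

end

section

/-!
Controlled vanishing for families of spiders of bounded multiplicity.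
-/

namespace Pool.Agent.MP_f7db47_al.GF

open GN Matrix

universe v

variable {R : Type v} [Ring R]

section

variable {ι : Type} [Finite ι] {h h' : ι → ℕ} {q t k : ℕ}

/-- The level below which more than `q` heights survive. -/
noncomputable def FVan_u (h : ι → ℕ) (q : ℕ) : ℕ := sInf {t | {i | t < h i}.ncard ≤ q}

theorem FVan_sub {t' : ℕ} (H : ∀ i, t < h i → t' < h' i) :
    {i | t < h i}.ncard ≤ {i | t' < h' i}.ncard :=
  Set.ncard_le_ncard H (Set.toFinite _)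

theorem FVan_le : FVan_u h q ≤ t ↔ {i | t < h i}.ncard ≤ q := by
  refine ⟨fun H => le_trans (FVan_sub fun i hi => H.trans_lt hi)
    (Nat.sInf_mem (s := {t | {i | t < h i}.ncard ≤ q}) ?_), fun H => Nat.sInf_le H⟩
  obtain ⟨M, hM⟩ := (Set.finite_range h).bddAbove
  have e : {i | M < h i} = ∅ :=
    Set.eq_empty_of_forall_notMem fun i hi => absurd (hM ⟨i, rfl⟩) (not_le.2 hi)
  exact ⟨M, by simp [e]⟩

theorem FVan_lip (H : ∀ i, h i ≤ h' i + k) : FVan_u h q ≤ FVan_u h' q + k :=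
  FVan_le.2 <| le_trans (FVan_sub fun i hi => by have := H i; omega)
    ((FVan_le (h := h')).1 le_rfl)

theorem FVan_key (H : ∀ i, h i ≤ h' i + k) (H' : ∀ i, h' i ≤ h i + k)
    (hq : FVan_u h (q + 1) + 2 * k < FVan_u h q) :
    {i | FVan_u h (q + 1) < h i} = {i | FVan_u h' (q + 1) < h' i} ∧
      ∀ i, FVan_u h (q + 1) < h i → k < h i := by
  have a1 : q + 1 ≤ {i | FVan_u h (q + 1) + 2 * k < h i}.ncard :=
    not_le.1 fun e => absurd (FVan_le.2 e) (not_le.2 hq)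
  have a2 := FVan_lip (q := q + 1) H'
  have e1 : {i | FVan_u h (q + 1) + 2 * k < h i} = {i | FVan_u h (q + 1) < h i} :=
    Set.eq_of_subset_of_ncard_le (fun i (hi : _ < h i) => show _ < h i by omega)
      ((FVan_le.1 le_rfl).trans a1) (Set.toFinite _)
  have e2 : {i | FVan_u h (q + 1) + 2 * k < h i} = {i | FVan_u h' (q + 1) < h' i} :=
    Set.eq_of_subset_of_ncard_le (fun i (hi : _ < h i) => show _ < h' i by have := H i; omega)
      ((FVan_le.1 le_rfl).trans a1) (Set.toFinite _)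
  refine ⟨e1.symm.trans e2, fun i hi => ?_⟩
  have a3 : FVan_u h (q + 1) + 2 * k < h i := e1.ge hi
  omega

theorem FVan_cover {N r : ℕ} (hN : {i | 0 < h i}.ncard ≤ N) {i : ι} (hi : N * r + 1 ≤ h i) :
    ∃ q : Fin N, r ≤ FVan_u h q - FVan_u h (q + 1) := by
  by_contra hn
  have a1 : ∀ n ≤ N, FVan_u h 0 ≤ FVan_u h n + n * r := by
    intro n hn'
    induction n with
    | zero => simp
    | succ n ih =>
      have b1 := ih (by omega)
      have b2 : FVan_u h n - FVan_u h (n + 1) < r := not_le.1 fun e => hn ⟨⟨n, hn'⟩, e⟩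
      rw [add_mul, one_mul]
      omega
  have a2 := a1 N le_rfl
  have a3 := FVan_le.1 (a2.trans (Nat.add_le_add_right (FVan_le.2 hN) _))
  rw [Nat.le_zero, Set.ncard_eq_zero (Set.toFinite _)] at a3
  exact a3.le (show 0 + N * r < h i by omega)

end

/-- The spiders of the barycentric subdivision. -/
noncomputable def FVan_S {G : Type} [Group G] {Λ J ι : Type} (S : ι → Spi G Λ) (l : J → Λ)
    (q : ℕ) : Spi G J where
  ht j := FVan_u (fun i => (S i).ht (l j)) q - FVan_u (fun i => (S i).ht (l j)) (q + 1)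
  leg :=
    { r x g y := {i | FVan_u (fun i => (S i).ht (l x)) (q + 1) < (S i).ht (l x)} =
          {i | FVan_u (fun i => (S i).ht (l y)) (q + 1) < (S i).ht (l y)} ∧
        ∀ i ∈ {i | FVan_u (fun i => (S i).ht (l x)) (q + 1) < (S i).ht (l x)},
          (S i).leg.r (l x) g (l y)
      refl _ := ⟨rfl, fun i _ => (S i).leg.refl _⟩
      symm h := ⟨h.1.symm, fun i hi => (S i).leg.symm (h.2 i (h.1.ge hi))⟩
      trans h h' := ⟨h.1.trans h'.1, fun i hi => (S i).leg.trans (h.2 i hi) (h'.2 i (h.1.le hi))⟩ }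

theorem FVan_rel {G : Type} [Group G] {Λ J ι : Type} [Finite ι] {S : ι → Spi G Λ} {l : J → Λ}
    {k : ℕ} {x y : J} {g : G} (H : ∀ i, (S i).rel k (l x) g (l y)) (q : ℕ) :
    (FVan_S S l q).rel (4 * k) x g y := by
  have h1 := fun i => (H i).1
  have h2 := fun i => (H i).2.1
  have a1 := FVan_lip (q := q) h1
  have a2 := FVan_lip (q := q) h2
  have a3 := FVan_lip (q := q + 1) h1
  have a4 := FVan_lip (q := q + 1) h2
  simp only [Spi.rel, FVan_S]
  refine ⟨by omega, by omega, fun e => ?_⟩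
  by_contra hn
  refine e ?_
  by_cases hx : FVan_u (fun i => (S i).ht (l x)) (q + 1) + 2 * k <
      FVan_u (fun i => (S i).ht (l x)) q
  · obtain ⟨b1, b2⟩ := FVan_key h1 h2 hx
    refine ⟨b1, fun i hi => by_contra fun e' => ?_⟩
    have := (H i).2.2 e'
    have := b2 i hi
    omega
  · obtain ⟨b1, b2⟩ := FVan_key (q := q) h2 h1 (by omega)
    refine ⟨b1.symm, fun i hi => by_contra fun e' => ?_⟩
    have := (H i).2.2 e'
    have := b2 i (b1.ge hi)
    omega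

theorem vanish2 (h1 : QQ R PUnit.{1}) (N k : ℕ) : ∃ r : ℕ, ∀ (G : Type) [Group G]
    (Λ J ι : Type) [Fintype J] [DecidableEq J] [Finite ι] (S : ι → Spi G Λ) (l : J → Λ),
    (∀ j, {i | 0 < (S i).ht (l j)}.ncard ≤ N) →
    (∀ i j, 0 < (S i).ht (l j) → QQ R ((S i).leg.grp (l j))) → (∀ j, ∃ i, r ≤ (S i).ht (l j)) →
    ∀ a b : Matrix J J (MonoidAlgebra R G), a * b = 1 → b * a = 1 →
    Ctl (fun x g y => ∀ i, (S i).rel k x g y) l l a →
    Ctl (fun x g y => ∀ i, (S i).rel k x g y) l l b → T a := by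
  obtain ⟨r, hr⟩ := vanish h1 N (4 * k)
  refine ⟨N * r + 1, fun G _ Λ J ι _ _ _ S l hN hQ hc a b hab hba ha hb => ?_⟩
  refine hr G J (Fin N) (fun q => FVan_S S l q) (by simp) (fun q j hj => ?_) (fun j => ?_) a b
    hab hba (fun x y => (ha x y).mono fun g hg q => FVan_rel hg q)
    fun x y => (hb x y).mono fun g hg q => FVan_rel hg q
  · have a1 : ¬ FVan_u (fun i => (S i).ht (l j)) q ≤ FVan_u (fun i => (S i).ht (l j)) (q + 1) :=
      not_le.2 (Nat.sub_pos_iff_lt.1 hj)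
    rw [FVan_le, not_le] at a1
    obtain ⟨i, hi⟩ := Set.nonempty_of_ncard_ne_zero (Nat.zero_lt_of_lt a1).ne'
    exact AMain_le (fun g hg => hg.2 i hi) (hQ i j (Nat.zero_lt_of_lt hi))
  · obtain ⟨i, hi⟩ := hc j
    exact FVan_cover (hN j) hi

end Pool.Agent.MP_f7db47_al.GF

end

section

/-!
The flow space theorem.
-/

namespace Pool.Agent.MP_f7db47_al.GF

open GN

universe v

variable {R : Type v} [Ring R]

/-- Distance at most `k` in all spiders of a family. -/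
def FMain_FR {G Λ ι : Type} [Group G] (S : ι → Spi G Λ) : GN.FR G Λ where
  rel k a g b := ∀ i, (S i).rel k a g b
  refl a := fun i => ⟨le_rfl, le_rfl, fun h => absurd ((S i).leg.refl a) h⟩
  mono h h' := fun i => ⟨(h' i).1.trans (by omega), (h' i).2.1.trans (by omega),
    fun e => ((h' i).2.2 e).trans h⟩
  comp {k k' a g b g' c} h h' := fun i => by
    obtain ⟨a1, a2, a3⟩ := h i
    obtain ⟨b1, b2, b3⟩ := h' i
    refine ⟨by omega, by omega, fun e => ?_⟩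
    by_cases e1 : (S i).leg.r a g b
    · have := b3 fun e2 => e ((S i).leg.trans e1 e2)
      omega
    · have := a3 e1
      omega

theorem FMain_bound {G : Type} [Group G] (S₀ : Finset G) (d : G → ℝ) :
    ∃ C : ℝ, 0 ≤ C ∧ (∀ g ∈ S₀, d g ≤ C) ∧ ∀ g ∈ S₀, ∀ g' ∈ S₀, d (g * g') ≤ C := by
  obtain ⟨C1, h1⟩ := (S₀.finite_toSet.image d).bddAbove
  obtain ⟨C2, h2⟩ := ((S₀.finite_toSet.prod S₀.finite_toSet).image
    fun p : G × G => d (p.1 * p.2)).bddAbove
  refine ⟨max 0 (max C1 C2), le_max_left _ _, fun g hg => ?_, fun g hg g' hg' => ?_⟩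
  · exact (h1 ⟨g, hg, rfl⟩).trans ((le_max_left _ _).trans (le_max_right _ _))
  · exact (h2 ⟨(g, g'), ⟨hg, hg'⟩, rfl⟩).trans ((le_max_right _ _).trans (le_max_right _ _))

theorem flow_thm (h1 : QQ R PUnit.{1}) {Γ G : Type} [Group Γ] [Group G]
    {Fam : Set (Subgroup Γ)} (hP : HasPack Γ Fam) (f : G →* Γ)
    (hc : ∀ (B : Subgroup Γ) (φ : B →* MZ), (∀ g, φ g = 1 → IsOfFinOrder g) →
      QQ R (B.comap f))
    (hF : ∀ B ∈ Fam, QQ R (B.comap f)) : QQ R G := by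
  classical
  obtain ⟨S, hS, ⟨Pk⟩⟩ := hP
  intro P _ hPz Δ _ j hj J _ _ a b hab hba
  let f' : Δ →* Γ := f.comp ((MonoidHom.fst G P).comp j)
  let ρ' : Δ →* Equiv.Perm S.X := Pk.ρ.comp f'
  have hρ : S.Isom ρ' := ⟨fun γ x y => Pk.iso (f' γ) x y, fun γ c hc => Pk.line (f' γ) c hc⟩
  obtain ⟨sA, hsA, -⟩ := exists_finset_msup a
  obtain ⟨sB, hsB, -⟩ := exists_finset_msup b
  let S₀ : Finset Δ := insert 1 (sA ∪ sB)
  have ha : MSup (S₀ : Set Δ) a := hsA.mono fun x hx => by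
    simp only [S₀, Finset.coe_insert, Finset.coe_union, Set.mem_insert_iff, Set.mem_union]
    exact Or.inr (Or.inl hx)
  have hb : MSup (S₀ : Set Δ) b := hsB.mono fun x hx => by
    simp only [S₀, Finset.coe_insert, Finset.coe_union, Set.mem_insert_iff, Set.mem_union]
    exact Or.inr (Or.inr hx)
  obtain ⟨C, hC0, hC1, hC2⟩ := FMain_bound S₀ fun g => dist (ρ' g S.o) S.o
  obtain ⟨Y, _, _, F, ev, hE⟩ := exists_flow hS Pk.toAct
  obtain ⟨N, hN⟩ := Pack.spiders hS.geo Pk hE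
  obtain ⟨n, hn⟩ := hS.fine
  obtain ⟨c, hc3⟩ := transfer3 (R := R) n
  obtain ⟨r, hr⟩ := vanish2 h1 N c
  obtain ⟨ε, hε, ι, _, Tt, hT1, hT2, hT3, hT4⟩ := hN (8 * C) r (by positivity)
  obtain ⟨r0, L, hr0, hCr, hct1, hct2⟩ :=
    hS.geo.control hρ S₀ hC0 hE.pos (half_pos hε) hC1 hC2
  have hr0' : (0 : ℝ) < r0 := by exact_mod_cast hr0
  obtain ⟨Fi, _, e, he1, he2, he3⟩ := hn r0 hr0
  have hk0 : ∀ x ∈ Metric.closedBall S.o (r0 : ℝ), ∃ y : Y, ev y = hS.geo.ctl r0 L x :=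
    fun x hx => hE.surj _ (hS.geo.ctl_mem hr0' L hx).1 (hS.geo.ctl_mem hr0' L hx).2
  have ho : S.o ∈ Metric.closedBall S.o (r0 : ℝ) := Metric.mem_closedBall_self hr0'.le
  have : Nonempty Y := ⟨(hk0 _ ho).choose⟩
  choose! k hk using hk0
  have hA := hS.geo.hact hρ S₀ hC0 hr0' hCr hC1 hC2
  let T' : ι → Spi Δ S.X := fun i => (Tt i).pull f' k
  have h2e : 2 * (ε / 2) = ε := by ring
  rw [h2e] at hct1 hct2
  obtain ⟨J', _, _, l, A, B, -, hAB, hBA, hcA, hcB, hT⟩ :=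
    hc3 Δ S.X Fi J (Metric.closedBall S.o (r0 : ℝ)) e S₀ _ _ (FMain_FR T') (ε / 2)
      (hS.cpt _ _) ⟨_, ho⟩ he1 he2 he3 (Finset.mem_insert_self _ _) hA (half_pos hε)
      (fun x hx y hy hxy i => hT2 i (k x) (f' 1) (k y) ⟨0, by rw [abs_zero]; positivity, by
        rw [F.zero, map_one, one_smul, hE.dist_le, hk x hx, hk y hy]
        exact hct1 x hx y hy hxy⟩)
      (fun g hg g' hg' u hu y hy i => by
        obtain ⟨s, hs, hs'⟩ := hct2 g hg g' hg' u hu y hy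
        refine hT2 i (k _) (f' (g * g')) (k y) ⟨s, hs, ?_⟩
        rw [hE.dist_le]
        intro t
        rw [hE.flow, hE.smul, hk _ (hA.maps g hg g' hg' u hu y hy), hk y hy]
        exact hs' t)
      a b hab hba ha hb
  refine hT (hr Δ S.X J' ι T' l (fun j' => hT1 (k (l j'))) (fun i j' hij => ?_)
    (fun j' => hT4 (k (l j'))) A B hAB hBA hcA hcB)
  obtain ⟨B₀, hB₀, hB⟩ := hT3 i (k (l j')) hij
  refine PT.Ab_le hPz j hj (B₀.comap f) ?_ _ fun x hx => hB₀ hx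
  rcases hB with hB | ⟨φ, hφ⟩
  · exact hF B₀ hB
  · exact hc B₀ φ hφ

end Pool.Agent.MP_f7db47_al.GF

end
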