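import Pool.Agent.Mg.Ff7db47.Gff0e1c
import Mathlib

section

/-!
The ring `ℤ[1/q]` and its places.
-/

namespace Pool.Agent.MP_f7db47_al.GF

theorem ZQ_int {q : ℕ} (hq : 0 < q) {a : ℚ} (ha : a ∈ ZQ q)
    (h : ∀ p ∈ q.primeFactors, padicNorm p a ≤ 1) : ∃ z : ℤ, a = z := by
  obtain ⟨e, z, hz⟩ := ha
  refine ⟨a.num, ((Rat.den_eq_one_iff a).1 (by_contra fun hd => ?_)).symm⟩
  obtain ⟨p, hp, hpd⟩ := Nat.exists_prime_and_dvd hd
  have := Fact.mk hp
  have h1 : ¬ (p : ℤ) ∣ a.num := fun h1 =>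
    hp.one_lt.ne' (Nat.eq_one_of_dvd_coprimes a.reduced (Int.natCast_dvd.1 h1) hpd)
  have h2 : (q : ℤ) ^ e * a.num = a.den * z := by
    apply Int.cast_injective (α := ℚ)
    push_cast
    rw [← hz, ← Rat.den_mul_eq_num]
    ring
  have h3 : (p : ℤ) ∣ (q : ℤ) ^ e * a.num := h2 ▸ (Int.natCast_dvd_natCast.2 hpd).mul_right z
  have h4 := (Nat.prime_iff_prime_int.1 hp).dvd_of_dvd_pow
    (((Nat.prime_iff_prime_int.1 hp).dvd_or_dvd h3).resolve_right h1)
  have h5 := h p (Nat.mem_primeFactors.2 ⟨hp, Int.natCast_dvd_natCast.1 h4, hq.ne'⟩)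
  have h6 := (padicNorm.int_eq_one_iff (p := p) a.num).2 h1
  rw [← Rat.den_mul_eq_num, padicNorm.mul] at h6
  nlinarith [(padicNorm.nat_lt_one_iff (p := p) a.den).2 hpd, padicNorm.nonneg (p := p) a.den]

theorem ZQ_div {q : ℕ} (hq : 0 < q) {p : ℕ} (hp : p ∈ q.primeFactors) (E : ℕ) (z : ℤ) :
    (z : ℚ) / (p : ℚ) ^ E ∈ ZQ q := by
  obtain ⟨c, rfl⟩ := Nat.dvd_of_mem_primeFactors hp
  have h1 : (p : ℚ) ≠ 0 := by exact_mod_cast (Nat.prime_of_mem_primeFactors hp).ne_zero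
  refine ⟨E, c ^ E * z, ?_⟩
  push_cast
  rw [mul_pow]
  field_simp

theorem ZQ_shrink (q : ℕ) (ε : ℝ) (hε : 0 < ε) :
    ∃ e : ℕ, ∀ p ∈ q.primeFactors, (padicNorm p ((q : ℚ) ^ e) : ℝ) ≤ ε := by
  refine Filter.Eventually.exists (f := Filter.atTop) ((Filter.eventually_all_finset _).2
    fun p hp => ?_)
  have := Fact.mk (Nat.prime_of_mem_primeFactors hp)
  have h1 : (padicNorm p q : ℝ) < 1 := by
    exact_mod_cast (padicNorm.nat_lt_one_iff q).2 (Nat.dvd_of_mem_primeFactors hp)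
  refine ((tendsto_pow_atTop_nhds_zero_of_lt_one (Rat.cast_nonneg.2 (padicNorm.nonneg _))
    h1).eventually_le_const hε).mono fun e he => ?_
  rw [IsAbsoluteValue.abv_pow (padicNorm p), Rat.cast_pow]
  exact he

theorem ZQ_scale {ι : Type} [Fintype ι] (q : ℕ) (a : ι → ℚ) :
    ∃ e : ℕ, ∀ p ∈ q.primeFactors, ∀ j, padicNorm p ((q : ℚ) ^ e * a j) ≤ 1 := by
  have h0 : ∀ p j, (0 : ℝ) ≤ padicNorm p (a j) := fun p j => Rat.cast_nonneg.2 (padicNorm.nonneg _)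
  have h1 : (0 : ℝ) < 1 + ∑ p ∈ q.primeFactors, ∑ j, (padicNorm p (a j) : ℝ) :=
    add_pos_of_pos_of_nonneg one_pos (Finset.sum_nonneg fun p _ => Finset.sum_nonneg fun j _ =>
      h0 p j)
  obtain ⟨e, he⟩ := ZQ_shrink q _ (inv_pos.2 h1)
  refine ⟨e, fun p hp j => ?_⟩
  have := Fact.mk (Nat.prime_of_mem_primeFactors hp)
  have h2 := (Finset.single_le_sum (fun j _ => h0 p j) (Finset.mem_univ j)).trans
    (Finset.single_le_sum (f := fun p => ∑ j, (padicNorm p (a j) : ℝ))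
      (fun p _ => Finset.sum_nonneg fun j _ => h0 p j) hp)
  rw [padicNorm.mul, ← Rat.cast_le (K := ℝ), Rat.cast_mul, Rat.cast_one]
  refine (mul_le_mul_of_nonneg_right (he p hp) (h0 p j)).trans ((inv_mul_le_one₀ h1).2 ?_)
  linarith

theorem exists_ZQ (F : Finset ℚ) : ∃ q : ℕ, 0 < q ∧ ∀ a ∈ F, a ∈ ZQ q := by
  refine ⟨∏ a ∈ F, a.den, Finset.prod_pos fun a _ => a.den_pos, fun a ha => ?_⟩
  obtain ⟨c, hc⟩ := Finset.dvd_prod_of_mem (fun a : ℚ => a.den) ha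
  refine ⟨1, c * a.num, ?_⟩
  rw [hc]
  push_cast
  rw [← Rat.den_mul_eq_num]
  ring

theorem avQ_disc {q : ℕ} (hq : 0 < q) : ∀ a ∈ ZQ q, (∀ v, avQ q v a < 1) → a = 0 := by
  intro a ha h
  obtain ⟨z, rfl⟩ := ZQ_int hq ha fun p hp => by
    have : (padicNorm p a : ℝ) < 1 := h (some ⟨p, hp⟩)
    exact_mod_cast this.le
  have h1 : |((z : ℚ) : ℝ)| < 1 := h none
  rw [Int.abs_lt_one_iff.1 (by exact_mod_cast h1 : |z| < 1), Int.cast_zero]

theorem avQ_finite {q : ℕ} (hq : 0 < q) (C : ℝ) :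
    {a | a ∈ ZQ q ∧ ∀ v, avQ q v a ≤ C}.Finite := by
  have h0 : 0 < |C| + 1 := by positivity
  obtain ⟨e, he⟩ := ZQ_shrink q _ (inv_pos.2 h0)
  have h1 : (q : ℚ) ^ e ≠ 0 := by positivity
  refine ((Set.finite_Icc (-⌈(q : ℝ) ^ e * C⌉) ⌈(q : ℝ) ^ e * C⌉).image
    fun z : ℤ => (z : ℚ) / (q : ℚ) ^ e).subset fun a ha => ?_
  obtain ⟨z, hz⟩ := ZQ_int (a := (q : ℚ) ^ e * a) hq
    ((ZQ q).mul_mem ((ZQ q).pow_mem (natCast_mem _ q) e) ha.1) fun p hp => by
      have := Fact.mk (Nat.prime_of_mem_primeFactors hp)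
      have h2 : (padicNorm p a : ℝ) ≤ C := ha.2 (some ⟨p, hp⟩)
      rw [padicNorm.mul, ← Rat.cast_le (K := ℝ), Rat.cast_mul, Rat.cast_one]
      refine (mul_le_mul_of_nonneg_right (he p hp) (Rat.cast_nonneg.2 (padicNorm.nonneg _))).trans
        ((inv_mul_le_one₀ h0).2 ?_)
      linarith [le_abs_self C]
  refine ⟨z, abs_le.1 (Int.cast_le (R := ℝ).1 (le_trans ?_ (Int.le_ceil _))), ?_⟩
  · have h2 : |(a : ℝ)| ≤ C := ha.2 none
    have h3 : (z : ℝ) = (q : ℝ) ^ e * a := by exact_mod_cast congrArg (Rat.cast (K := ℝ)) hz.symm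
    rw [Int.cast_abs, h3, abs_mul, abs_of_nonneg (by positivity)]
    gcongr
  · simp only [← hz]
    field_simp

theorem bQ_lt (q : ℕ) (v : Option q.primeFactors) : 1 < bQ q v := by
  cases v with
  | none => exact one_lt_two
  | some p => exact Nat.one_lt_cast.2 (Nat.prime_of_mem_primeFactors p.2).one_lt

theorem avQ_nonneg (q : ℕ) (v : Option q.primeFactors) (a : ℚ) : 0 ≤ avQ q v a := by
  cases v with
  | none => exact abs_nonneg _
  | some p => exact Rat.cast_nonneg.2 (padicNorm.nonneg _)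

theorem avQ_zero (q : ℕ) (v : Option q.primeFactors) : avQ q v 0 = 0 := by
  cases v <;> simp [avQ]

theorem avQ_one (q : ℕ) (v : Option q.primeFactors) : avQ q v 1 = 1 := by
  cases v <;> simp [avQ]

theorem avQ_neg (q : ℕ) (v : Option q.primeFactors) (a : ℚ) : avQ q v (-a) = avQ q v a := by
  cases v <;> simp [avQ]

theorem avQ_mul (q : ℕ) (v : Option q.primeFactors) (a a' : ℚ) :
    avQ q v (a * a') = avQ q v a * avQ q v a' := by
  cases v with
  | none => simp [avQ, abs_mul]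
  | some p =>
    have := Fact.mk (Nat.prime_of_mem_primeFactors p.2)
    simp [avQ]

end Pool.Agent.MP_f7db47_al.GF

end

section

/-!
Approximation, and bases of lattices.
-/

namespace Pool.Agent.MP_f7db47_al.GF

open Matrix

theorem ADir_close (Q : ℕ) (hQ : 0 < Q) (x y : ℚ) (h : ⌊(Q : ℚ) * x⌋ = ⌊(Q : ℚ) * y⌋) :
    |x - y| ≤ 1 / Q := by
  have hQ' : (0 : ℚ) < Q := by exact_mod_cast hQ
  have h1 := Int.floor_le ((Q : ℚ) * x)
  have h2 := Int.lt_floor_add_one ((Q : ℚ) * x)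
  have h3 := Int.floor_le ((Q : ℚ) * y)
  have h4 := Int.lt_floor_add_one ((Q : ℚ) * y)
  rw [h] at h1 h2
  have h5 : |(x - y) * Q| ≤ 1 := by
    rw [abs_le]
    constructor <;> nlinarith
  rw [abs_mul, abs_of_pos hQ'] at h5
  rwa [le_div_iff₀ hQ']

theorem ADir_pair {ι : Type} (Q : ℕ) (hQ : 0 < Q) (a : ι → ℚ) (m₁ m₂ : ℕ) (hlt : m₁ < m₂)
    (h : ∀ j, ⌊(Q : ℚ) * Int.fract ((m₂ : ℚ) * a j)⌋ = ⌊(Q : ℚ) * Int.fract ((m₁ : ℚ) * a j)⌋) :
    ∃ z : ι → ℤ, ∀ j, |((m₂ - m₁ : ℕ) : ℚ) * a j - z j| ≤ 1 / Q := by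
  refine ⟨fun j => ⌊(m₂ : ℚ) * a j⌋ - ⌊(m₁ : ℚ) * a j⌋, fun j => ?_⟩
  have := ADir_close Q hQ _ _ (h j)
  rw [Nat.cast_sub hlt.le]
  convert this using 2
  simp only [Int.fract]
  push_cast
  ring

theorem dir {ι : Type} [Fintype ι] (Q : ℕ) (hQ : 0 < Q) (a : ι → ℚ) :
    ∃ m : ℕ, 1 ≤ m ∧ m ≤ Q ^ Fintype.card ι ∧ ∃ z : ι → ℤ, ∀ j, |(m : ℚ) * a j - z j| ≤ 1 / Q := by
  classical
  have hQ' : (0 : ℚ) < Q := by exact_mod_cast hQ
  have hmaps : ∀ m ∈ Finset.range (Q ^ Fintype.card ι + 1),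
      (fun j => ⌊(Q : ℚ) * Int.fract ((m : ℚ) * a j)⌋) ∈
        Fintype.piFinset (fun _ : ι => Finset.Ico (0 : ℤ) Q) := by
    intro m _
    rw [Fintype.mem_piFinset]
    intro j
    rw [Finset.mem_Ico]
    have h0 := Int.fract_nonneg ((m : ℚ) * a j)
    have h1 := Int.fract_lt_one ((m : ℚ) * a j)
    constructor
    · exact Int.floor_nonneg.mpr (by positivity)
    · rw [Int.floor_lt]
      push_cast
      nlinarith
  have hcard : (Fintype.piFinset (fun _ : ι => Finset.Ico (0 : ℤ) Q)).card <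
      (Finset.range (Q ^ Fintype.card ι + 1)).card := by
    simp [Fintype.card_piFinset]
  obtain ⟨m₁, hm₁, m₂, hm₂, hne, heq⟩ :=
    Finset.exists_ne_map_eq_of_card_lt_of_maps_to hcard hmaps
  rw [Finset.mem_range] at hm₁ hm₂
  rcases lt_or_gt_of_ne hne with hlt | hlt
  · obtain ⟨z, hz⟩ := ADir_pair Q hQ a m₁ m₂ hlt (fun j => (congrFun heq j).symm)
    exact ⟨m₂ - m₁, by omega, by omega, z, hz⟩
  · obtain ⟨z, hz⟩ := ADir_pair Q hQ a m₂ m₁ hlt (fun j => congrFun heq j)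
    exact ⟨m₁ - m₂, by omega, by omega, z, hz⟩

theorem ADir_not_dvd (p : ℕ) [hp : Fact p.Prime] {w : ℚ} (hw : padicNorm p w ≤ 1) :
    ¬ p ∣ w.den := by
  intro hd
  have h1 : padicNorm p (w.den : ℚ) < 1 := (padicNorm.nat_lt_one_iff _).mpr hd
  have h2 : padicNorm p (w.num : ℚ) < 1 := by
    rw [← Rat.mul_den_eq_num, padicNorm.mul]
    have := padicNorm.nonneg (p := p) w
    have := padicNorm.nonneg (p := p) (w.den : ℚ)
    nlinarith
  have h3 : (p : ℤ) ∣ w.num := (padicNorm.int_lt_one_iff _).mp h2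
  have h4 : p ∣ w.num.natAbs := Int.natCast_dvd.mp h3
  have h5 : p ∣ Nat.gcd w.num.natAbs w.den := Nat.dvd_gcd h4 hd
  rw [w.reduced] at h5
  exact hp.out.one_lt.ne' (Nat.dvd_one.mp h5)

theorem padic_approx (p : ℕ) [Fact p.Prime] (E : ℕ) {w : ℚ} (hw : padicNorm p w ≤ 1) :
    ∃ r : ℤ, padicNorm p ((w - r) / (p : ℚ) ^ E) ≤ 1 := by
  have hp : p.Prime := Fact.out
  have hnd := ADir_not_dvd p hw
  have hcop : Nat.Coprime w.den (p ^ E) :=
    Nat.Coprime.pow_right E ((Nat.Prime.coprime_iff_not_dvd hp).mpr hnd).symm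
  have hic : IsCoprime (w.den : ℤ) ((p : ℤ) ^ E) := by
    have := Nat.isCoprime_iff_coprime.mpr hcop
    simpa using this
  obtain ⟨u, v, huv⟩ := hic
  refine ⟨w.num * u, ?_⟩
  have hden : (w.den : ℚ) ≠ 0 := by exact_mod_cast w.den_nz
  have hpE : ((p : ℚ)) ^ E ≠ 0 := pow_ne_zero _ (by exact_mod_cast hp.ne_zero)
  have huv' : (u : ℚ) * w.den + v * (p : ℚ) ^ E = 1 := by exact_mod_cast huv
  have hw' : w * w.den = w.num := Rat.mul_den_eq_num w
  have key : (w - ((w.num * u : ℤ) : ℚ)) / (p : ℚ) ^ E = w * v := by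
    rw [div_eq_iff hpE]
    push_cast
    rw [← hw']
    linear_combination (-w) * huv'
  rw [key, padicNorm.mul]
  have h1 := padicNorm.of_int (p := p) v
  have h2 := padicNorm.nonneg (p := p) w
  have h3 := padicNorm.nonneg (p := p) (v : ℚ)
  nlinarith

theorem ADir_one (ι : Type) [Fintype ι] [DecidableEq ι] (m : ℕ) (hm : 0 < m)
    (L : Submodule ℤ (ι → ℤ)) (hL : ∀ z, (m : ℤ) • z ∈ L) :
    ∃ B : Matrix ι ι ℤ, B.det ≠ 0 ∧ ∀ z, z ∈ L ↔ ∃ y, B *ᵥ y = z := by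
  have hm' : (m : ℤ) ≠ 0 := by exact_mod_cast hm.ne'
  have hrank : Module.finrank ℤ L = Fintype.card ι := by
    apply le_antisymm
    · have := Submodule.finrank_le L
      simpa using this
    · let f : (ι → ℤ) →ₗ[ℤ] L :=
        LinearMap.codRestrict L ((m : ℤ) • LinearMap.id) (fun z => hL z)
      have hf : Function.Injective f := by
        intro x y hxy
        have h1 : (m : ℤ) • x = (m : ℤ) • y := congrArg Subtype.val hxy
        exact smul_right_injective _ hm' h1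
      have := LinearMap.finrank_le_finrank_of_injective hf
      simpa using this
  let b : Module.Basis ι ℤ L :=
    (Module.finBasisOfFinrankEq ℤ L hrank).reindex (Fintype.equivFin ι).symm
  let B : Matrix ι ι ℤ := fun i j => (b j : ι → ℤ) i
  have hB : ∀ y, B *ᵥ y = ((∑ j, y j • b j : L) : ι → ℤ) := by
    intro y
    funext i
    simp [B, Matrix.mulVec, dotProduct, Finset.sum_apply, mul_comm]
  refine ⟨B, ?_, fun z => ⟨fun hz => ?_, ?_⟩⟩
  · intro hdet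
    obtain ⟨y, hy0, hy⟩ := Matrix.exists_mulVec_eq_zero_iff.mpr hdet
    rw [hB] at hy
    have h1 : (∑ j, y j • b j : L) = 0 := Subtype.ext hy
    apply hy0
    funext j
    exact Fintype.linearIndependent_iff.mp b.linearIndependent y h1 j
  · refine ⟨fun j => b.repr ⟨z, hz⟩ j, ?_⟩
    rw [hB, b.sum_repr]
  · rintro ⟨y, rfl⟩
    rw [hB]
    exact Subtype.property _

theorem ADir_fin (ι : Type) [Fintype ι] [DecidableEq ι] (m : ℕ) (hm : 0 < m) :
    {L : Submodule ℤ (ι → ℤ) | ∀ z, (m : ℤ) • z ∈ L}.Finite := by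
  classical
  have hm' : (0 : ℤ) < m := by exact_mod_cast hm
  let T := Fintype.piFinset (fun _ : ι => Finset.Ico (0 : ℤ) m)
  have hmem : ∀ L : Submodule ℤ (ι → ℤ), (∀ z, (m : ℤ) • z ∈ L) → ∀ z : ι → ℤ,
      z ∈ L ↔ (fun i => z i % m) ∈ L := by
    intro L hL z
    have hz : z = (m : ℤ) • (fun i => z i / m) + fun i => z i % m := by
      funext i
      simp [Int.mul_ediv_add_emod]
    constructor
    · intro h
      rw [hz] at h
      exact (Submodule.add_mem_iff_right L (hL _)).mp h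
    · intro h
      rw [hz]
      exact L.add_mem (hL _) h
  have hT : ∀ z : ι → ℤ, (fun i => z i % m) ∈ T := by
    intro z
    rw [Fintype.mem_piFinset]
    intro i
    exact Finset.mem_Ico.mpr ⟨Int.emod_nonneg _ hm'.ne', Int.emod_lt_of_pos _ hm'⟩
  refine Set.Finite.of_finite_image (f := fun L => T.filter (fun r => r ∈ L))
    ((T.powerset.finite_toSet).subset ?_) ?_
  · rintro _ ⟨L, _, rfl⟩
    exact Finset.mem_coe.mpr (Finset.mem_powerset.mpr (Finset.filter_subset _ _))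
  · intro L hL L' hL' h
    ext z
    rw [hmem L hL z, hmem L' hL' z]
    have h1 := congrArg (fun s => (fun i => z i % m) ∈ s) h
    simpa [hT z] using h1

theorem lat_basis (ι : Type) [Fintype ι] [DecidableEq ι] (m : ℕ) (hm : 0 < m) :
    ∃ C : ℕ, ∀ L : Submodule ℤ (ι → ℤ), (∀ z, (m : ℤ) • z ∈ L) → ∃ B : Matrix ι ι ℤ,
      (∀ i j, |B i j| ≤ C) ∧ B.det ≠ 0 ∧ ∀ z, z ∈ L ↔ ∃ y, B *ᵥ y = z := by
  classical
  have hfin := ADir_fin ι m hm
  have : Finite {L : Submodule ℤ (ι → ℤ) | ∀ z, (m : ℤ) • z ∈ L} := hfin.to_subtype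
  choose B hB using fun L : {L : Submodule ℤ (ι → ℤ) | ∀ z, (m : ℤ) • z ∈ L} =>
    ADir_one ι m hm L.1 L.2
  obtain ⟨C, hC⟩ := (Set.finite_range
    (fun t : {L : Submodule ℤ (ι → ℤ) | ∀ z, (m : ℤ) • z ∈ L} × ι × ι =>
      (B t.1 t.2.1 t.2.2).natAbs)).bddAbove
  refine ⟨C, fun L hL => ⟨B ⟨L, hL⟩, fun i j => ?_, hB ⟨L, hL⟩⟩⟩
  have := hC ⟨(⟨L, hL⟩, i, j), rfl⟩
  rw [Int.abs_eq_natAbs]
  exact_mod_cast this

end Pool.Agent.MP_f7db47_al.GF

end

section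

/-!
Approximation at one place.
-/

namespace Pool.Agent.MP_f7db47_al.GF

theorem AApp_nat {p : ℕ} [hp : Fact p.Prime] {n : ℕ} (hn : n ≠ 0) :
    1 ≤ padicNorm p n * n := by
  have h1 : (p : ℚ) ^ padicValNat p n ≤ n := by
    exact_mod_cast Nat.le_of_dvd (Nat.pos_of_ne_zero hn) pow_padicValNat_dvd
  have h2 : (0 : ℚ) < (p : ℚ) ^ padicValNat p n := pow_pos (by exact_mod_cast hp.out.pos) _
  rw [padicNorm.eq_zpow_of_nonzero (by exact_mod_cast hn), padicValRat.of_nat, zpow_neg,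
    zpow_natCast, inv_mul_eq_div, one_le_div h2]
  exact h1

theorem AApp_pow {p : ℕ} [hp : Fact p.Prime] (E : ℕ) :
    padicNorm p ((p : ℚ) ^ E) = ((p : ℚ) ^ E)⁻¹ := by
  rw [IsAbsoluteValue.abv_pow (padicNorm p), padicNorm.padicNorm_p_of_prime, inv_pow]

theorem AApp_int {p : ℕ} [Fact p.Prime] {T x : ℚ} {ε : ℝ} (hT : (padicNorm p T : ℝ) ≤ ε)
    (hx : padicNorm p x ≤ 1) (m : ℕ) (z : ℤ) : (padicNorm p (T * (m * x - z)) : ℝ) ≤ ε := by
  have h1 : padicNorm p (m * x - z) ≤ 1 := by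
    refine padicNorm.sub.trans (max_le ?_ (padicNorm.of_int z))
    rw [padicNorm.mul]
    exact mul_le_one₀ (padicNorm.of_nat m) (padicNorm.nonneg x) hx
  refine le_trans ?_ hT
  rw [padicNorm.mul]
  exact_mod_cast mul_le_of_le_one_right (padicNorm.nonneg T) h1

theorem AApp_abs {T Q : ℕ} {ε : ℝ} (h : (T : ℝ) / Q ≤ ε) {x : ℚ} (hx : |x| ≤ 1 / Q) :
    |((T * x : ℚ) : ℝ)| ≤ ε := by
  have h1 : |(x : ℝ)| ≤ 1 / Q := by simpa using (Rat.cast_le (K := ℝ)).2 hx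
  push_cast
  rw [abs_mul, Nat.abs_cast]
  refine le_trans ?_ h
  rw [div_eq_mul_one_div]
  exact mul_le_mul_of_nonneg_left h1 (Nat.cast_nonneg T)

theorem avQ_app {q : ℕ} (hq : 0 < q) : App (avQ q) (ZQ q) := by
  intro ι _ ε hε
  obtain ⟨e, he⟩ := ZQ_shrink q ε hε
  rw [← Nat.cast_pow] at he
  have hT : 0 < q ^ e := pow_pos hq e
  generalize q ^ e = T at he hT
  obtain ⟨Q, hQ⟩ := exists_nat_gt ((T : ℝ) / ε)
  have hQ0 : (0 : ℝ) < Q := lt_of_le_of_lt (by positivity) hQ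
  have hQ1 : (T : ℝ) / Q ≤ ε := by
    rw [div_le_iff₀ hQ0, mul_comm]
    exact ((div_lt_iff₀ hε).1 hQ).le
  obtain ⟨E, hE⟩ : ∃ E, E = T * Q ^ Fintype.card ι := ⟨_, rfl⟩
  refine ⟨max E (q ^ E), fun v₀ w hw => ?_⟩
  rcases v₀ with _ | ⟨p, hp⟩
  · obtain ⟨m, h1, h2, z, hz⟩ := dir Q (by exact_mod_cast hQ0) w
    refine ⟨(T * m : ℕ), fun j => (T * z j : ℤ), fun j => intCast_mem _ _, ?_, ?_, fun j => ?_,
      fun v hv j => ?_⟩
    · simp only [avQ, Rat.cast_natCast, Nat.abs_cast]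
      exact_mod_cast Nat.mul_pos hT h1
    · simp only [avQ, Rat.cast_natCast, Nat.abs_cast]
      refine le_max_of_le_left ?_
      exact_mod_cast hE ▸ Nat.mul_le_mul_left T h2
    · convert AApp_abs hQ1 (hz j) using 1
      simp only [avQ]
      congr 2
      push_cast
      ring
    · rcases v with _ | ⟨p, hp⟩
      · exact absurd rfl hv
      · have := Fact.mk (Nat.prime_of_mem_primeFactors hp)
        convert AApp_int (he p hp) (padicNorm.of_int 0) 0 (-z j) using 1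
        simp [avQ]
  · have := Fact.mk (Nat.prime_of_mem_primeFactors hp)
    have hp0 : (0 : ℚ) < (p : ℚ) ^ E := pow_pos (by exact_mod_cast this.out.pos) _
    choose r hr using fun j => padic_approx p E (w := w j) (by
      have h := hw j
      simp only [avQ] at h
      exact_mod_cast h)
    obtain ⟨m, h1, h2, z, hz⟩ := dir Q (by exact_mod_cast hQ0) fun j => r j / (p : ℚ) ^ E
    have hc : avQ q (some ⟨p, hp⟩) ((T * m : ℕ) / (p : ℚ) ^ E) =
        (padicNorm p (T * m : ℕ) * (p : ℚ) ^ E : ℚ) := by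
      simp only [avQ]
      rw [padicNorm.div, AApp_pow, div_inv_eq_mul]
    refine ⟨(T * m : ℕ) / (p : ℚ) ^ E, fun j => T * (m * (r j / (p : ℚ) ^ E) - z j),
      fun j => mul_mem (natCast_mem _ _) (sub_mem (mul_mem (natCast_mem _ _) (ZQ_div hq hp E _))
        (intCast_mem _ _)), ?_, ?_, fun j => ?_, fun v hv j => ?_⟩
    · have h3 : T * m ≤ p ^ E := ((hE ▸ Nat.mul_le_mul_left T h2).trans
        Nat.lt_two_pow_self.le).trans (Nat.pow_le_pow_left this.out.two_le E)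
      rw [hc]
      exact_mod_cast (AApp_nat (p := p) (Nat.mul_pos hT h1).ne').trans
        (mul_le_mul_of_nonneg_left (by exact_mod_cast h3) (padicNorm.nonneg _))
    · have h3 : p ^ E ≤ q ^ E := Nat.pow_le_pow_left (Nat.le_of_mem_primeFactors hp) E
      rw [hc]
      refine le_max_of_le_right ?_
      exact_mod_cast (mul_le_of_le_one_left hp0.le (padicNorm.of_nat (T * m))).trans
        (show (p : ℚ) ^ E ≤ (q : ℚ) ^ E by exact_mod_cast h3)
    · convert AApp_int (he p hp) (hr j) m (-z j) using 1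
      simp only [avQ]
      congr 2
      push_cast
      ring
    · rcases v with _ | ⟨p', hp'⟩
      · exact AApp_abs hQ1 (hz j)
      · have h' := Fact.mk (Nat.prime_of_mem_primeFactors hp')
        have hne : p' ≠ p := fun h => hv (by subst h; rfl)
        refine AApp_int (he p' hp') ?_ m (z j)
        rw [padicNorm.div, IsAbsoluteValue.abv_pow (padicNorm p'),
          padicNorm.padicNorm_of_prime_of_ne hne, one_pow, div_one]
        exact padicNorm.of_int _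

end Pool.Agent.MP_f7db47_al.GF

end

section

/-!
Bounded bases.
-/

namespace Pool.Agent.MP_f7db47_al.GF

open Matrix

/-- Vectors that are integral at the primes dividing `q` and have an image over `ℤ[1/q]`. -/
def ABasL (q : ℕ) {ι : Type} [Fintype ι] (U : Matrix ι ι ℚ) : AddSubgroup (ι → ℚ) where
  carrier := {a | (∀ i, (U *ᵥ a) i ∈ ZQ q) ∧ ∀ p ∈ q.primeFactors, ∀ j, padicNorm p (a j) ≤ 1}
  add_mem' := by
    rintro a b ⟨a1, a2⟩ ⟨b1, b2⟩
    refine ⟨fun i => ?_, fun p hp j => ?_⟩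
    · rw [mulVec_add]
      exact add_mem (a1 i) (b1 i)
    · have := Fact.mk (Nat.prime_of_mem_primeFactors hp)
      exact padicNorm.nonarchimedean.trans (max_le (a2 p hp j) (b2 p hp j))
  zero_mem' := ⟨fun i => by rw [mulVec_zero]; exact zero_mem _, fun p _ j => by simp⟩
  neg_mem' := by
    rintro a ⟨a1, a2⟩
    refine ⟨fun i => ?_, fun p hp j => (padicNorm.neg _).trans_le (a2 p hp j)⟩
    rw [mulVec_neg]
    exact neg_mem (a1 i)

theorem ABas_int {q : ℕ} {ι : Type} [Fintype ι] {U : Matrix ι ι ℚ} (hU : ∀ i j, U i j ∈ ZQ q)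
    (z : ι → ℤ) : (fun j => (z j : ℚ)) ∈ ABasL q U :=
  ⟨fun i => sum_mem fun j _ => mul_mem (hU i j) (intCast_mem _ _), fun _ hp _ =>
    have := Fact.mk (Nat.prime_of_mem_primeFactors hp)
    padicNorm.of_int _⟩

theorem ABas_den {q : ℕ} (hq : 0 < q) (ι : Type) [Fintype ι] {ε : ℝ} (hε : 0 < ε) :
    ∃ m : ℕ, 0 < m ∧ ∀ U : Matrix ι ι ℚ, (∀ i j, U i j ∈ ZQ q) →
      (∀ a : ι → ℚ, (∀ i, (U *ᵥ a) i ∈ ZQ q) → (∀ v j, avQ q v (a j) ≤ ε) → a = 0) →
      ∀ a ∈ ABasL q U, ∃ y : ι → ℤ, ∀ j, (m : ℚ) * a j = y j := by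
  obtain ⟨e, he⟩ := ZQ_shrink q ε hε
  obtain ⟨Q, hQ⟩ := exists_nat_gt ((q : ℝ) ^ e / ε)
  have hQ0 : (0 : ℝ) < Q := lt_of_le_of_lt (by positivity) hQ
  refine ⟨(Q ^ Fintype.card ι).factorial, Nat.factorial_pos _, fun U hU hk a ha => ?_⟩
  obtain ⟨m, h1, h2, z, hz⟩ := dir Q (Nat.cast_pos.1 hQ0) a
  obtain ⟨b, hb⟩ : ∃ b : ι → ℚ, b = m • a - fun j => (z j : ℚ) := ⟨_, rfl⟩
  have h3 : b ∈ ABasL q U := hb ▸ sub_mem (nsmul_mem ha m) (ABas_int hU z)
  have h4 : ∀ j, b j = m * a j - z j := fun j => by simp [hb]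
  have h5 := hk (((q : ℚ) ^ e) • b) (fun i => ?_) fun v j => ?_
  · obtain ⟨t, ht⟩ := Nat.dvd_factorial h1 h2
    refine ⟨fun j => t * z j, fun j => ?_⟩
    have h6 : b j = 0 := congrFun ((smul_eq_zero.1 h5).resolve_left (by positivity)) j
    rw [ht]
    push_cast
    linear_combination t * h6 - t * h4 j
  · rw [mulVec_smul]
    exact mul_mem (pow_mem (natCast_mem _ _) _) (h3.1 i)
  · rw [Pi.smul_apply, smul_eq_mul, avQ_mul]
    rcases v with _ | p
    · have h6 : |(b j : ℝ)| ≤ 1 / Q := by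
        have h7 := (Rat.cast_le (K := ℝ)).2 (hz j)
        rwa [← h4, Rat.cast_abs, Rat.cast_div, Rat.cast_one, Rat.cast_natCast] at h7
      change |(((q : ℚ) ^ e : ℚ) : ℝ)| * |(b j : ℝ)| ≤ ε
      push_cast
      rw [abs_of_nonneg (by positivity)]
      refine (mul_le_mul_of_nonneg_left h6 (by positivity)).trans ?_
      rw [mul_one_div, div_le_iff₀ hQ0, mul_comm]
      exact ((div_lt_iff₀ hε).1 hQ).le
    · have h6 : (padicNorm p.1 (b j) : ℝ) ≤ 1 := by exact_mod_cast h3.2 p.1 p.2 j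
      exact (mul_le_of_le_one_right (avQ_nonneg q _ _) h6).trans (he p.1 p.2)

theorem avQ_bas {q : ℕ} (hq : 0 < q) : Bas (avQ q) (ZQ q) := by
  intro ι _ _ ε hε
  obtain ⟨m, hm, hden⟩ := ABas_den hq ι hε
  obtain ⟨C, hC⟩ := lat_basis ι m hm
  have hm0 : (m : ℚ) ≠ 0 := Nat.cast_ne_zero.2 hm.ne'
  refine ⟨C + 1, fun U hU hk => ?_⟩
  let φ : (ι → ℤ) →+ ι → ℚ := AddMonoidHom.mk' (fun y j => (y j : ℚ) / m) fun y y' =>
    funext fun j => by simp [add_div]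
  obtain ⟨B, h1, h2, h3⟩ := hC ((ABasL q U.val).comap φ).toIntSubmodule fun z => by
    have h : φ ((m : ℤ) • z) = fun j => (z j : ℚ) := funext fun j => by
      change (((m : ℤ) * z j : ℤ) : ℚ) / m = _
      push_cast
      field_simp
    change φ _ ∈ ABasL q U.val
    rw [h]
    exact ABas_int hU z
  have h4 : ((m : ℚ)⁻¹ • B.map fun x => (x : ℚ)).det ≠ 0 := by
    rw [det_smul, ← Int.cast_det]
    exact mul_ne_zero (pow_ne_zero _ (inv_ne_zero hm0)) (Int.cast_ne_zero.2 h2)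
  obtain ⟨M, hM⟩ : ∃ M : GL ι ℚ, ∀ i j, M.val i j = (B i j : ℚ) / m :=
    ⟨GeneralLinearGroup.mkOfDetNeZero _ h4, fun i j => (div_eq_inv_mul _ _).symm⟩
  have h5 : ∀ j, (fun i => M.val i j) ∈ ABasL q U.val := fun j => by
    have h : φ (B *ᵥ Pi.single j 1) ∈ ABasL q U.val := (h3 _).2 ⟨_, rfl⟩
    rw [mulVec_single_one] at h
    rw [funext fun i => hM i j]
    exact h
  refine ⟨U * M, ⟨fun i j => (h5 j).1 i, fun i j => ?_⟩, fun v i j => ?_⟩
  · obtain ⟨e, he⟩ := ZQ_scale q fun k => (U⁻¹).val k j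
    have h6 : (((q : ℚ) ^ e) • fun k => (U⁻¹).val k j) ∈ ABasL q U.val := by
      refine ⟨fun k => ?_, he⟩
      have h : (U * U⁻¹).val k j ∈ ZQ q := by
        rw [mul_inv_cancel]
        exact (GLZ (ZQ q) ι).one_mem.1 k j
      rw [mulVec_smul]
      exact mul_mem (pow_mem (natCast_mem _ _) _) h
    obtain ⟨y₀, hy₀⟩ := hden U.val hU hk _ h6
    have h7 : φ y₀ = ((q : ℚ) ^ e) • fun k => (U⁻¹).val k j := funext fun k => by
      change (y₀ k : ℚ) / m = _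
      rw [← hy₀ k, mul_div_cancel_left₀ _ hm0]
    obtain ⟨y, rfl⟩ := (h3 y₀).1 (show φ y₀ ∈ ABasL q U.val from h7 ▸ h6)
    have h8 : M.val *ᵥ (fun k => (y k : ℚ)) = φ (B *ᵥ y) := funext fun k => by
      change ∑ l, M.val k l * (y l : ℚ) = ((∑ l, B k l * y l : ℤ) : ℚ) / m
      push_cast
      rw [Finset.sum_div]
      exact Finset.sum_congr rfl fun l _ => by rw [hM, div_mul_eq_mul_div]
    have h9 := congrArg (fun w => ((M⁻¹).val *ᵥ w) i) (h8.trans h7)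
    simp only [mulVec_mulVec, Units.inv_mul, one_mulVec, mulVec_smul] at h9
    refine ⟨e, y i, ?_⟩
    rw [_root_.mul_inv_rev]
    exact h9.symm
  · rw [inv_mul_cancel_left]
    have h0 : (0 : ℝ) ≤ C := C.cast_nonneg
    rcases v with _ | p
    · have h6 : |(B i j : ℝ)| ≤ C := by exact_mod_cast h1 i j
      have h7 : (1 : ℝ) ≤ m := Nat.one_le_cast.2 hm
      change |(M.val i j : ℝ)| ≤ _
      rw [hM]
      push_cast
      rw [abs_div, Nat.abs_cast]
      linarith [div_le_self (abs_nonneg (B i j : ℝ)) h7]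
    · have h6 : (padicNorm p.1 (M.val i j) : ℝ) ≤ 1 := by exact_mod_cast (h5 j).2 p.1 p.2 i
      exact h6.trans (by linarith)

end Pool.Agent.MP_f7db47_al.GF

end
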