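import Pool.Agent.Mg.Ff7db47.G594c02
import Pool.Agent.Mg.Ff7db47.Gbd4f41
import Pool.Agent.Mg.Ff7db47.G023f5a
import Pool.Agent.Mg.Ff7db47.G1a5309
import Pool.Agent.Mg.Ff7db47.G30508e
import Pool.Agent.Mg.Ff7db47.Ga1b68d
import Pool.Agent.Mg.Ff7db47.Gff0e1c
import Pool.Agent.Mg.Ff7db47.G9a930f

section

/-!
Reduction theory for the groups `GL_n(ℤ[1/q])`.
-/

namespace Pool.Agent.MP_f7db47_al.GF

/-- The places attached to `q`. -/
noncomputable def plcsQ {q : ℕ} (hq : 0 < q) : Plcs where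
  J := Option q.primeFactors
  av := avQ q
  b := bQ q
  Z := ZQ q
  hb := bQ_lt q
  av_nonneg := avQ_nonneg q
  av_zero := avQ_zero q
  av_one := avQ_one q
  av_neg := avQ_neg q
  av_mul := avQ_mul q
  disc := avQ_disc hq
  finite := avQ_finite hq
  app := avQ_app hq
  bas := avQ_bas hq

theorem packStmt_of
    (hpi : ∀ (J : Type) [Fintype J] (S : J → Sp), (∀ j, (S j).Good) → (Sp.pi S).Good)
    (hR : ∀ n : ℕ, Nonempty (NSp (Fin n) (fun a => |(a : ℝ)|) 2))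
    (hp : ∀ (p : ℕ) [Fact p.Prime] (n : ℕ),
      Nonempty (NSp (Fin n) (fun a => (padicNorm p a : ℝ)) p)) : PackStmt := by
  intro n F
  obtain ⟨q, hq, hF⟩ := exists_ZQ F
  have h : ∀ v : (plcsQ hq).J,
      Nonempty (NSp (Fin (n + 1)) ((plcsQ hq).av v) ((plcsQ hq).b v)) := by
    rintro (_ | p)
    · exact hR _
    · have : Fact p.1.Prime := ⟨Nat.prime_of_mem_primeFactors p.2⟩
      exact hp p.1 _
  exact ⟨ZQ q, hF, Plcs.hasPack (D := plcsQ hq) (fun v => (h v).some)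
    (hpi _ _ fun v => (h v).some.good)⟩

end Pool.Agent.MP_f7db47_al.GF

end

section

/-!
The spaces of norms at the places of the rational numbers.
-/

namespace Pool.Agent.MP_f7db47_al.GF

theorem plcR_loc (ι : Type) [Fintype ι] : (plcR ι).Loc := by
  refine ⟨fun r => isCompact_closedBall (0 : ℝ) r, fun r => cov_real r, fun a => ?_⟩
  have h : (0 : ℝ) < 2 ^ a := Real.rpow_pos_of_pos two_pos a
  refine ⟨((2 : ℝ) ^ a : ℝ), h.ne', ?_, ?_⟩
  · show ‖(2 : ℝ) ^ a‖ ≤ (2 : ℝ) ^ a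
    rw [Real.norm_of_nonneg h.le]
  · show (2 : ℝ) ^ a ≤ 2 * ‖(2 : ℝ) ^ a‖
    rw [Real.norm_of_nonneg h.le]
    linarith

theorem plcP_loc (p : ℕ) [Fact p.Prime] (ι : Type) [Fintype ι] : (plcP p ι).Loc := by
  have hp : p.Prime := Fact.out
  have h1 : (1 : ℝ) < p := by exact_mod_cast hp.one_lt
  have h0 : (0 : ℝ) < p := zero_lt_one.trans h1
  refine ⟨fun r => isCompact_closedBall (0 : ℚ_[p]) r, fun r => cov_padic p r, fun a => ?_⟩
  have hn : ‖(p : ℚ_[p]) ^ (-⌊a⌋)‖ = (p : ℝ) ^ ((⌊a⌋ : ℤ) : ℝ) := by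
    rw [Padic.norm_p_zpow, neg_neg, Real.rpow_intCast]
  have hz : (p : ℚ_[p]) ^ (-⌊a⌋) ≠ 0 := zpow_ne_zero _ (Nat.cast_ne_zero.2 hp.ne_zero)
  refine ⟨((p : ℚ_[p]) ^ (-⌊a⌋) : ℚ_[p]), hz, ?_, ?_⟩
  · show ‖(p : ℚ_[p]) ^ (-⌊a⌋)‖ ≤ (p : ℝ) ^ a
    rw [hn]
    exact Real.rpow_le_rpow_of_exponent_le h1.le (Int.floor_le a)
  · show (p : ℝ) ^ a ≤ p * ‖(p : ℚ_[p]) ^ (-⌊a⌋)‖
    rw [hn, mul_comm, ← Real.rpow_add_one h0.ne']
    exact Real.rpow_le_rpow_of_exponent_le h1.le (Int.lt_floor_add_one a).le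

theorem nspR (ι : Type) [Fintype ι] [DecidableEq ι] :
    Nonempty (NSp ι (fun a => |(a : ℝ)|) 2) := by
  have hg : (plcR ι).sp.Good :=
    ⟨Plc.geo plcR_join plcR_interp, Plc.par (plcR_loc ι), plcR_fine⟩
  have hd : DenseRange (Rat.castHom ℝ) := Rat.denseRange_cast
  exact Plc.nsp (P := plcR ι) hg (Rat.castHom ℝ) hd

theorem nspP (p : ℕ) [Fact p.Prime] (ι : Type) [Fintype ι] [DecidableEq ι] :
    Nonempty (NSp ι (fun a => (padicNorm p a : ℝ)) p) := by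
  have hg : (plcP p ι).sp.Good :=
    ⟨Plc.geo (plcP_join p) plcP_interp, Plc.par (plcP_loc p ι), ⟨_, plcP_fine p⟩⟩
  have h := Plc.nsp (P := plcP p ι) hg (Rat.castHom ℚ_[p]) (Padic.denseRange_ratCast p)
  have e : (fun a : ℚ => (padicNorm p a : ℝ)) = fun a : ℚ => ‖(a : ℚ_[p])‖ :=
    funext fun a => (Padic.eq_padicNorm a).symm
  rw [e]
  exact h

end Pool.Agent.MP_f7db47_al.GF

end

section

/-!
Linear groups in characteristic zero.
-/

namespace Pool.Agent.MP_f7db47_al.GF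

universe v

variable {R : Type v} [Ring R]

theorem packStmt : PackStmt :=
  packStmt_of (fun _ _ _ h => Sp.Good.pi h) (fun n => nspR (Fin n)) fun p _ n => nspP p (Fin n)

theorem qq_glQ {G : Type} [Group G] {n : ℕ} (f : G →* GL (Fin n) ℚ)
    (h : ∀ (H : Subgroup G) (φ : H →* GN.MZ), (∀ g : H, φ g = 1 → QU (f g).val) → QQ R H) :
    QQ R G := by
  have h1 : QQ R PUnit.{1} := (h ⊥ 1 fun g _ => ⟨1, one_pos, by
    rw [Subgroup.mem_bot.1 g.2]; simp⟩).sub 1 fun _ _ _ => rfl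
  exact qq_glQ_of (fun _ _ _ _ _ hP f hc hF => flow_thm h1 hP f hc hF) packStmt f h

theorem stB : GS.StB R := fun _ _ _ f h => qq_glQ f h

theorem qq_gl0 {G K : Type} [Group G] [Field K] [CharZero K] {n : ℕ}
    (f : G →* GL (Fin n) K) (h : ∀ (H : Subgroup G) (φ : H →* Multiplicative ℤ),
      (∀ g : H, φ g = 1 → QU (f g).val) → QQ R H) : QQ R G := GS.qq_glQU stB f h

theorem qq_lin0 (hR : RegularRing R) {G K : Type} [Group G] [Field K] [CharZero K]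
    {n : ℕ} (f : G →* GL (Fin n) K) (hf : Function.Injective f)
    (hT : ∀ g : G, IsOfFinOrder g → g = 1) : QQ R G := GS.qq_lin0 hR stB f hf hT

end Pool.Agent.MP_f7db47_al.GF

end
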