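import Pool.Agent.Mg.Ff7db47.G75c999
import Pool.Agent.Mg.Ff7db47.G020748
import Pool.Agent.Mg.Ff7db47.Gf02347
import Pool.Agent.Mg.Ff7db47.G36cf4d
import Pool.Agent.Mg.Ff7db47.Ge4601e
import Pool.Agent.Mg.Ff7db47.G30508e

/-!
The vanishing of Whitehead groups is a theory.
-/

namespace Pool.Agent.MP_f7db47_al.VC

open GN GF Matrix

universe v

variable {R : Type v} [Ring R]

theorem qq_ext {G : Type} [Group G] (ψ : G →* MZ) (ι : Type) (K : ι → Subgroup G)
    (r : ι → ι → Prop) (hr : WellFounded r) (hK : ∀ j, K j ≤ ψ.ker)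
    (hM : ∀ M : Subgroup G, M.FG → M ≤ ψ.ker → ∃ j, M ≤ K j) (h0 : QQ R ψ.ker)
    (h : ∀ j x, x ∉ ψ.ker → QQ R ↥(K j ⊔ Subgroup.zpowers x) ∨ Drops K r j x ∨ Drops K r j x⁻¹) :
    QQ R G := by
  obtain ⟨X, ρ, hX, hρ⟩ := PT.exists_line ψ
  let _ : MulAction G ℤ :=
    { smul := fun g n => ρ g n
      one_smul := fun n => by change ρ 1 n = n; rw [map_one]; rfl
      mul_smul := fun a b n => by change ρ (a * b) n = ρ a (ρ b n); rw [map_mul]; rfl }
  have hs : ∀ (g : G) (n : ℤ), g • n = ρ g n := fun _ _ => rfl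
  have hk : ∀ y : ℤ, MulAction.stabilizer G y = ψ.ker := fun y => by
    ext g
    rw [MulAction.mem_stabilizer_iff, hs, hρ, MonoidHom.mem_ker, add_eq_left, toAdd_eq_zero]
  refine PT.qq_tame (X := X) (F := {H | QQ R H}) (Z := ∅)
    ⟨hX, fun g a b h => (ρ g).map_rel_iff.2 h, fun g a b h h' => ?_⟩ (fun a b _ => ?_)
    (fun K hK => hK.elim) (fun y => by rw [hk]; exact h0) fun H hH => hH
  · have h1 := h.ne
    rw [hs, hs, hρ, hρ] at h'
    omega
  · rw [hk, hk, inf_idem]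
    refine ⟨ι, K, r, hr, hK, hM, fun i => Or.inr fun x hx => h i x fun hx' => ?_⟩
    have h1 : x • a = a := (hk a).ge hx'
    have h2 : x • b = b := (hk b).ge hx'
    rw [Pushes, h1, h2] at hx
    exact ssubset_irrefl _ hx

section

variable {G : Type} [Group G] {W : Type*} [AddCommGroup W] {J : Type} [Fintype J] [DecidableEq J]

theorem Thy_rep {m : Type} [Fintype m] [DecidableEq m] (a : G →* Matrix m m ℤ) :
    PT.ZLat_Rep a := ⟨map_one a, map_mul a⟩

/-- The invariant given by twisting a fixed invertible matrix. -/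
noncomputable def Thy_swan (E : PT.WhS R G W) {A : Matrix J J (MonoidAlgebra R G)}
    (hu : IsUnit A) : Swan G W where
  κ a := E.cls (PT.ZLat_Tw a A)
  conj {m m'} _ _ _ _ a b S S' h1 h2 h := by
    have hc : Fintype.card m = Fintype.card m' := by
      have h3 := trace_mul_comm S S'
      rw [h1, h2, trace_one, trace_one] at h3
      exact_mod_cast h3.symm
    let e := Fintype.equivOfCardEq hc
    rw [← E.reindex ((Equiv.refl J).prodCongr e) (PT.ZLat_Tw_unit (Thy_rep b) hu)]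
    refine PT.ZLat_cls_conj E (b := fun g => (b g).submatrix e e) (S := S.submatrix e id)
      (S' := S'.submatrix id e) (Thy_rep a) ⟨?_, fun g k => ?_⟩ ?_ ?_ (fun g => ?_) hu
    · simp only [map_one, submatrix_one_equiv]
    · simp only [map_mul, submatrix_mul_equiv]
    · rw [← submatrix_mul _ _ _ _ _ Function.bijective_id, h1, submatrix_one_equiv]
    · rw [submatrix_mul_equiv, h2, submatrix_id_id]
    · rw [submatrix_mul_equiv, ← h, submatrix_mul _ _ _ id _ Function.bijective_id, submatrix_id_id]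
  block c a d b h := by
    rw [show (c : G → _) = _ from funext h]
    exact PT.ZLat_cls_block E b (Thy_rep a) (Thy_rep d) hu

omit [Fintype J] [DecidableEq J] in
theorem Thy_perm {Z : Type} [Fintype Z] [DecidableEq Z] (τ : G →* Equiv.Perm Z)
    (A : Matrix J J (MonoidAlgebra R G)) : PT.ZLat_Tw (permRep τ) A = PT.permM τ A := by
  ext x y g
  rw [PT.ZLat_Tw, PT.permM, PT.ZLat_coeff, coeff_pr]
  change (if τ g y.2 = x.2 then 1 else 0 : ℤ) • _ = _
  by_cases h : τ g y.2 = x.2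
  · rw [if_pos h, if_pos (show g ∈ {g | τ g y.2 = x.2} from h), one_smul]
  · rw [if_neg h, if_neg (show g ∉ {g | τ g y.2 = x.2} from h), zero_smul]

end

theorem qq_fh (h1 : QQ R PUnit.{1}) (N : ℕ) : ∃ r : ℕ, ∀ (G : Type) [Group G],
    (∀ (S₀ : Finset G) (π : ℕ), π.Prime → FHD (fun K => QQ R K) N r S₀ π) → QQ R G := by
  classical
  obtain ⟨r, hr⟩ := vanish2 h1 N 1
  refine ⟨r, fun G _ hG P _ hP Δ _ f hf J _ _ A B hAB hBA => ?_⟩
  let p : Δ →* G := (MonoidHom.fst _ _).comp f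
  obtain ⟨s, hs, -⟩ := exists_finset_msup A
  obtain ⟨t, ht, -⟩ := exists_finset_msup B
  have hA := hs.mono (Finset.coe_subset.2 (Finset.subset_union_left (s₂ := t)))
  have hB := ht.mono (Finset.coe_subset.2 (Finset.subset_union_right (s₁ := s)))
  obtain ⟨W, _, ⟨E⟩⟩ := PT.exists_WhS R Δ
  have hu : IsUnit A := ⟨⟨A, B, hAB, hBA⟩, rfl⟩
  have key : ∀ {X : Type} (σ : Δ →* Equiv.Perm X), Ctrl (fun K => QQ R K) N r (s ∪ t) σ →
      ∀ (Z : Type) [Fintype Z] [DecidableEq Z] (τ : Δ →* Equiv.Perm Z) (u : Z → X),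
        (∀ g z, u (τ g z) = σ g (u z)) → (Thy_swan E hu).κ (permRep τ) = 0 := by
    rintro X σ ⟨ι, _, S, c1, c2, c3, c4⟩ Z _ _ τ u he
    have hc : ∀ (x y : J × Z) (g : Δ), g ∈ ((s ∪ t : Finset Δ) : Set Δ) → τ g y.2 = x.2 →
        g ∈ {g | ∀ i, (S i).rel 1 (u x.2) g (u y.2)} := by
      intro x y g hg e i
      rw [← e, he]
      exact c4 g hg _ i
    have hT : T (PT.permM τ A) := hr Δ X (J × Z) ι S (fun x => u x.2) (fun _ => c1 _)
      (fun i _ => c2 i _) (fun _ => c3 _) _ _ (PT.ZFH_inv τ hAB) (PT.ZFH_inv τ hBA)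
      (PT.ZFH_sup τ hA hc) (PT.ZFH_sup τ hB hc)
    change E.cls (PT.ZLat_Tw (permRep τ) A) = 0
    rw [Thy_perm]
    exact (E.zero_iff hT.isUnit).2 hT
  rw [← E.zero_iff hu, ← AddMonoid.addOrderOf_eq_one_iff, Nat.eq_one_iff_not_exists_prime_dvd]
  intro π hπ hd
  obtain ⟨n, X₀, _, σ₀, X, _, σ, c0, c1, c2, c3⟩ := (hG ((s ∪ t).image p) π hπ).pull
    (P' := fun K => QQ R K) p (fun g hg => Finset.mem_image_of_mem p hg)
    fun K hK => PT.Ab_le hP f hf K hK _ fun x hx => hx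
  have h2 := swan_fh (Thy_swan E hu) σ₀ σ (key σ₀ c0) (fun i => key (σ i) (c1 i)) c3
  have h3 : (Thy_swan E hu).κ (1 : Δ →* Matrix Unit Unit ℤ) = E.cls A :=
    (PT.ZLat_triv (m := Unit) E hu).trans (by rw [Fintype.card_unit, one_smul])
  rw [h3] at h2
  obtain ⟨i, -, hi⟩ := (hπ.prime.dvd_finsetProd_iff _).1
    (hπ.dvd_of_dvd_pow (hd.trans (addOrderOf_dvd_of_nsmul_eq_zero h2)))
  exact c2 i hi

variable (R) in
/-- The theory given by the vanishing of Whitehead groups. -/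
def thyQQ : Thy PUnit.{1} where
  Q G _ _ := QQ R G
  sub f hf h := h.sub f hf
  loc h := PT.qq_loc h
  flow hP f hc hF := flow_thm ((hc ⊥ 1 fun g _ => by
    rw [Subsingleton.elim g 1]; exact IsOfFinOrder.one).sub 1 fun _ _ _ => rfl) hP f hc hF
  ext := qq_ext
  fh h1 N := (qq_fh h1 N).imp fun _ h G _ _ => h G
  gl f h := GS.qq_glA stB f h

theorem FJ.qq {Γ G : Type} [Group Γ] [Group G] (hΓ : FJ Γ) (f : G →* Γ)
    (h : ∀ B : Subgroup Γ, IsVC B → QQ R (B.comap f)) : QQ R G :=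
  hΓ _ (thyQQ R) G 1 f h

end Pool.Agent.MP_f7db47_al.VC
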