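import Pool.Agent.Mg.Ff7db47.G578105
import Pool.Agent.Mg.Ff7db47.G922e1f
import Pool.Agent.Mg.Ff7db47.Ge4af1c
import Pool.Agent.Mg.Ff7db47.Gff80d5

section

/-!
Twisted coefficients: part Orb.
-/

set_option linter.unusedSectionVars false

universe u u' v w

section
namespace Pool.Agent.MP_f7db47_al.TW

open PT

open Matrix

variable {R : Type v} [Ring R] {G : Type u} [Group G] [MulSemiringAction G R]

/-- The lift of a matrix along a refinement of the labels. -/
noncomputable def lift {Y Y' J J' : Type} (π : Y → J) (π' : Y' → J') (Rel : Y → Y' → Set G)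
    (A : Matrix J J' (SkewMonoidAlgebra R G)) : Matrix Y Y' (SkewMonoidAlgebra R G) :=
  fun y y' => pr (Rel y y') (A (π y) (π' y'))

theorem Lift_fib {Y' : Type} (s : Finset Y') (R₁ R₂ : Y' → Set G) (R₃ SA SB : Set G)
    {x z : SkewMonoidAlgebra R G} (hx : Sup SA x) (hz : Sup SB z)
    (hmul : ∀ y', ∀ g ∈ R₁ y', ∀ h ∈ R₂ y', g * h ∈ R₃)
    (huniq : ∀ g ∈ SA, ∀ h ∈ SB, g * h ∈ R₃ → ∃! y', y' ∈ s ∧ g ∈ R₁ y' ∧ h ∈ R₂ y') :
    ∑ y' ∈ s, pr (R₁ y') x * pr (R₂ y') z = pr R₃ (x * z) := by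
  refine hx.induction (P := fun x => ∑ y' ∈ s, pr (R₁ y') x * pr (R₂ y') z = pr R₃ (x * z))
    (by simp) (fun a b ha hb => ?_) fun g hg r => ?_
  · simp only [map_add, add_mul, Finset.sum_add_distrib, ha, hb]
  refine hz.induction (P := fun z => ∑ y' ∈ s, pr (R₁ y') (SkewMonoidAlgebra.single g r) *
    pr (R₂ y') z = pr R₃ (SkewMonoidAlgebra.single g r * z))
    (by simp) (fun a b ha hb => ?_) fun h hh t => ?_
  · simp only [map_add, mul_add, Finset.sum_add_distrib, ha, hb]
  have h0 : ∀ y', ¬ (g ∈ R₁ y' ∧ h ∈ R₂ y') →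
      pr (R₁ y') (SkewMonoidAlgebra.single g r) * pr (R₂ y') (SkewMonoidAlgebra.single h t) = 0 := by
    intro y' hy
    by_cases h1 : g ∈ R₁ y'
    · rw [pr_single_of_not_mem (fun h2 => hy ⟨h1, h2⟩), mul_zero]
    · rw [pr_single_of_not_mem h1, zero_mul]
  by_cases h3 : g * h ∈ R₃
  · obtain ⟨y₀, ⟨m0, m1, m2⟩, hu⟩ := huniq g hg h hh h3
    rw [Finset.sum_eq_single_of_mem y₀ m0 fun y' hy hne => h0 y' fun hc => hne (hu y' ⟨hy, hc⟩),
      pr_single_of_mem m1, pr_single_of_mem m2, SkewMonoidAlgebra.single_mul_single,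
      pr_single_of_mem h3]
  · rw [SkewMonoidAlgebra.single_mul_single, pr_single_of_not_mem h3]
    exact Finset.sum_eq_zero fun y' _ => h0 y' fun hc => h3 (hmul y' g hc.1 h hc.2)

theorem lift_mul {Y Y' Y'' J J' J'' : Type} [Fintype Y'] [Fintype J'] (π : Y → J) (π' : Y' → J')
    (π'' : Y'' → J'') (R₁ : Y → Y' → Set G) (R₂ : Y' → Y'' → Set G) (R₃ : Y → Y'' → Set G)
    {SA : J → J' → Set G} {SB : J' → J'' → Set G} {A : Matrix J J' (SkewMonoidAlgebra R G)}
    {B : Matrix J' J'' (SkewMonoidAlgebra R G)} (hA : MSup2 SA A) (hB : MSup2 SB B)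
    (hmul : ∀ y y' y'', ∀ g ∈ R₁ y y', ∀ h ∈ R₂ y' y'', g * h ∈ R₃ y y'')
    (huniq : ∀ y y'' j, ∀ g ∈ SA (π y) j, ∀ h ∈ SB j (π'' y''), g * h ∈ R₃ y y'' →
      ∃! y', π' y' = j ∧ g ∈ R₁ y y' ∧ h ∈ R₂ y' y'') :
    lift π π' R₁ A * lift π' π'' R₂ B = lift π π'' R₃ (A * B) := by
  classical
  ext1 y y''
  simp only [lift, Matrix.mul_apply, map_sum]
  rw [← Finset.sum_fiberwise Finset.univ π']
  refine Finset.sum_congr rfl fun j _ => ?_
  rw [← Lift_fib (Finset.univ.filter fun y' => π' y' = j) (R₁ y) (fun y' => R₂ y' y'') (R₃ y y'')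
    _ _ (hA (π y) j) (hB j (π'' y'')) (fun y' => hmul y y' y'') fun g hg h hh h3 => by
      simpa using huniq y y'' j g hg h hh h3]
  refine Finset.sum_congr rfl fun y' hy => ?_
  rw [(Finset.mem_filter.1 hy).2]

end Pool.Agent.MP_f7db47_al.TW

end

section
namespace Pool.Agent.MP_f7db47_al.TW

open PT

open Matrix

variable {R : Type v} [Ring R] {G : Type u} [Group G] [MulSemiringAction G R]

theorem T_of_groupoid {J : Type} [Fintype J] [DecidableEq J] (rel : J → J → Set G)
    (h1 : ∀ i, (1 : G) ∈ rel i i)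
    (hmul : ∀ i j k, ∀ a ∈ rel i j, ∀ b ∈ rel j k, a * b ∈ rel i k)
    (hinv : ∀ i j, ∀ a ∈ rel i j, a⁻¹ ∈ rel j i)
    (hG : ∀ i, ∀ H : Subgroup G, (H : Set G) = rel i i → G1 R H)
    {A : Matrix J J (SkewMonoidAlgebra R G)} (hA : MSup2 rel A) (hu : IsUnit A) : T A := by
  classical
  let s : Setoid J := ⟨fun i j => (rel i j).Nonempty, ⟨fun i => ⟨1, h1 i⟩,
    fun ⟨a, ha⟩ => ⟨a⁻¹, hinv _ _ a ha⟩, fun ⟨a, ha⟩ ⟨b, hb⟩ => ⟨a * b, hmul _ _ _ a ha b hb⟩⟩⟩
  obtain ⟨c, hc, hcc⟩ : ∃ c : J → J, (∀ i, (rel (c i) i).Nonempty) ∧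
      ∀ i j, (rel (c i) (c j)).Nonempty → c i = c j :=
    ⟨fun i => (Quotient.mk s i).out, fun i => Quotient.mk_out (s := s) i, fun i j h => by
      have := Quotient.sound (s := s) h
      simp only [Quotient.out_eq] at this
      simp only [this]⟩
  choose u hu' using hc
  obtain ⟨D, hD⟩ : ∃ D : Matrix J J (SkewMonoidAlgebra R G),
      D = diagonal fun i => SkewMonoidAlgebra.single (u i) 1 := ⟨_, rfl⟩
  obtain ⟨D', hD'⟩ : ∃ D' : Matrix J J (SkewMonoidAlgebra R G),
      D' = diagonal fun i => SkewMonoidAlgebra.single (u i)⁻¹ 1 := ⟨_, rfl⟩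
  have e1 : D * D' = 1 := by
    rw [hD, hD', diagonal_mul_diagonal, ← diagonal_one]
    congr 1; funext i
    rw [SkewMonoidAlgebra.single_mul_single, mul_inv_cancel, one_mul, smul_one]; rfl
  have e2 : D' * D = 1 := by
    rw [hD, hD', diagonal_mul_diagonal, ← diagonal_one]
    congr 1; funext i
    rw [SkewMonoidAlgebra.single_mul_single, inv_mul_cancel, one_mul, smul_one]; rfl
  have hZ : MSup2 (fun i j => rel (c i) (c j)) (D * A * D') := by
    intro i j
    rw [hD, hD', mul_diagonal, diagonal_mul]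
    exact ((sup_single (hu' i) 1).mul (hA i j) (hmul _ _ _)).mul
      (sup_single (hinv _ _ _ (hu' j)) 1) (hmul _ _ _)
  have hZ0 : ∀ i j, c i ≠ c j → (D * A * D') i j = 0 := fun i j h =>
    (hZ i j).eq_zero (hZ i j) fun g hg _ => h (hcc i j ⟨g, hg⟩)
  have hZu : IsUnit (D * A * D') :=
    (IsUnit.mul ⟨⟨D, D', e1, e2⟩, rfl⟩ hu).mul ⟨⟨D', D, e2, e1⟩, rfl⟩
  have hT : T (D * A * D') := by
    refine (stdTS R G).of_blocks c (proj_comm c hZ0) fun y => ?_
    let H : Subgroup G :=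
      { carrier := rel y y
        one_mem' := h1 y
        mul_mem' := fun ha hb => hmul _ _ _ _ ha _ hb
        inv_mem' := fun ha => hinv _ _ _ ha }
    refine T_of_isUnit_msup H (hG y H rfl) ?_
      (orb_unit (proj_mul_self c y) (proj_comm c hZ0 y) hZu)
    refine ((msup_one H.one_mem).sub ?_).add fun i j => ?_
    · refine msup2_diagonal (S := fun _ _ => (H : Set G)) fun i => ?_
      split_ifs
      · exact sup_one H.one_mem
      · exact sup_zero _
    · rw [proj_mul_apply]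
      split_ifs with h
      · by_cases h' : c i = c j
        · have := hZ i j
          simp only [← h', h] at this
          exact this
        · rw [hZ0 i j h']; exact sup_zero _
      · exact sup_zero _
  have := T_conj D' D e2 e1 hT
  rwa [← mul_assoc, ← mul_assoc, e2, one_mul, mul_assoc, e2, mul_one] at this

theorem T_of_orbit {J : Type} [Fintype J] [DecidableEq J] {Y : Type w} [MulAction G Y]
    (y : J → Y) (hG : ∀ j, G1 R (MulAction.stabilizer G (y j)))
    {A : Matrix J J (SkewMonoidAlgebra R G)} (hA : MSup2 (fun i j => {g | g • y j = y i}) A)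
    (hu : IsUnit A) : T A := by
  refine T_of_groupoid _ (fun i => one_smul G _) (fun i j k a ha b hb => ?_)
    (fun i j a ha => ?_) (fun i H hH => ?_) hA hu
  · simp only [Set.mem_ofPred_eq] at *
    rw [mul_smul, hb, ha]
  · simp only [Set.mem_ofPred_eq] at *
    rw [← ha, inv_smul_smul]
  · have : H = MulAction.stabilizer G (y i) := SetLike.coe_injective hH
    rw [this]; exact hG i

end Pool.Agent.MP_f7db47_al.TW

end

section

namespace Pool.Agent.MP_f7db47_al.TW

open PT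

open Matrix

/-- An abelian group that measures the failure of `T`. -/
structure WhS (R : Type v) [Ring R] (G : Type u) [Group G] [MulSemiringAction G R] (W : Type w) [AddCommGroup W] where
  cls : ∀ {J : Type} [Fintype J] [DecidableEq J], Matrix J J (SkewMonoidAlgebra R G) → W
  zero_iff : ∀ {J : Type} [Fintype J] [DecidableEq J] {A : Matrix J J (SkewMonoidAlgebra R G)},
    IsUnit A → (cls A = 0 ↔ T A)
  mul : ∀ {J : Type} [Fintype J] [DecidableEq J] {A B : Matrix J J (SkewMonoidAlgebra R G)},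
    IsUnit A → IsUnit B → cls (A * B) = cls A + cls B
  diag : ∀ {J K : Type} [Fintype J] [DecidableEq J] [Fintype K] [DecidableEq K]
    {A : Matrix J J (SkewMonoidAlgebra R G)} {D : Matrix K K (SkewMonoidAlgebra R G)},
    IsUnit A → IsUnit D → cls (fromBlocks A 0 0 D) = cls A + cls D
  reindex : ∀ {J K : Type} [Fintype J] [DecidableEq J] [Fintype K] [DecidableEq K] (e : K ≃ J)
    {A : Matrix J J (SkewMonoidAlgebra R G)}, IsUnit A → cls (A.submatrix e e) = cls A

variable {R : Type v} [Ring R] {G : Type u} [Group G] [MulSemiringAction G R]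

/-- The matrix induced along a permutation representation. -/
noncomputable def permM {X J : Type} (σ : G →* Equiv.Perm X)
    (A : Matrix J J (SkewMonoidAlgebra R G)) : Matrix (J × X) (J × X) (SkewMonoidAlgebra R G) :=
  fun x y => pr {g | σ g y.2 = x.2} (A x.1 y.1)

end Pool.Agent.MP_f7db47_al.TW

end

section

namespace Pool.Agent.MP_f7db47_al.TW

open PT

variable {R : Type v} [Ring R] {G : Type u} [Group G] [MulSemiringAction G R] {X J : Type}

theorem permM_mul [Fintype X] [Fintype J] (σ : G →* Equiv.Perm X)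
    (A B : Matrix J J (SkewMonoidAlgebra R G)) : permM σ A * permM σ B = permM σ (A * B) := by
  refine lift_mul (SA := fun _ _ => Set.univ) (SB := fun _ _ => Set.univ) Prod.fst Prod.fst
    Prod.fst (fun x y : J × X => {g | σ g y.2 = x.2}) (fun x y : J × X => {g | σ g y.2 = x.2})
    (fun x y : J × X => {g | σ g y.2 = x.2}) (fun _ _ => sup_univ _) (fun _ _ => sup_univ _)
    (fun y y' y'' g hg h hh => ?_) fun y y'' j g _ h _ hgh => ?_
  · simp only [Set.mem_ofPred_eq] at *
    rw [map_mul, Equiv.Perm.mul_apply, hh, hg]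
  · simp only [Set.mem_ofPred_eq, map_mul, Equiv.Perm.mul_apply] at *
    refine ⟨(j, σ h y''.2), ⟨rfl, hgh, rfl⟩, ?_⟩
    rintro ⟨j', x⟩ ⟨h1, -, h2⟩
    exact Prod.ext h1 h2.symm

theorem permM_one [DecidableEq X] [DecidableEq J] (σ : G →* Equiv.Perm X) :
    permM σ (1 : Matrix J J (SkewMonoidAlgebra R G)) = 1 := by
  ext1 x y
  by_cases h : x = y
  · subst h
    simp only [permM, Matrix.one_apply_eq]
    exact (sup_one (S := {g | σ g x.2 = x.2}) (by simp)).pr_eq
  · rw [Matrix.one_apply_ne h]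
    by_cases h' : x.1 = y.1
    · change pr _ ((1 : Matrix J J (SkewMonoidAlgebra R G)) x.1 y.1) = 0
      rw [h', Matrix.one_apply_eq]
      refine (sup_one (S := {1}) rfl).pr_eq_zero ?_
      rintro _ rfl h1
      exact h (Prod.ext h' (by simpa using h1.symm))
    · simp only [permM, Matrix.one_apply_ne h', map_zero]

end Pool.Agent.MP_f7db47_al.TW

end

end

section

/-!
Twisted coefficients: part DA.
-/

set_option linter.unusedSectionVars false

universe u u' v w

section

namespace Pool.Agent.MP_f7db47_al.TW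

open GN

open Matrix

variable {R : Type v} [Ring R]

variable {G : Type} [Group G] [MulSemiringAction G R] {Λ : Type}

/-- Control of the support of a matrix through labels. -/
def Ctl {I J : Type} (r : Λ → G → Λ → Prop) (li : I → Λ) (lj : J → Λ)
    (f : Matrix I J (SkewMonoidAlgebra R G)) : Prop :=
  MSup2 (fun i j => {g | r (li i) g (lj j)}) f

/-- Standard idempotents: diagonal matrices of zeros and ones. -/
def Std {J : Type} (_ : J → Λ) (p : Matrix J J (SkewMonoidAlgebra R G)) : Prop :=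
  (∀ i j, i ≠ j → p i j = 0) ∧ ∀ i, p i i = 1 ∨ p i i = 0

/-- A controlled isomorphism from the image of `p` to the image of `p'`. -/
structure Iso {I J : Type} [Fintype I] [Fintype J] (r : Λ → G → Λ → Prop) (l : I → Λ)
    (l' : J → Λ) (p : Matrix I I (SkewMonoidAlgebra R G)) (p' : Matrix J J (SkewMonoidAlgebra R G))
    (f : Matrix J I (SkewMonoidAlgebra R G)) (g : Matrix I J (SkewMonoidAlgebra R G)) : Prop where
  gf : g * f = p
  fg : f * g = p'
  fp : f * p = f
  pg : p * g = g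
  cf : Ctl r l' l f
  cg : Ctl r l l' g

/-- Stably standard, with control. -/
def SS {J : Type} [Fintype J] (r : Λ → G → Λ → Prop) (l : J → Λ)
    (p : Matrix J J (SkewMonoidAlgebra R G)) : Prop :=
  ∃ (E M : Type) (_ : Fintype E) (_ : DecidableEq E) (_ : Fintype M) (_ : DecidableEq M)
    (lE : E → Λ) (lM : M → Λ) (eE : Matrix E E (SkewMonoidAlgebra R G))
    (eM : Matrix M M (SkewMonoidAlgebra R G)) (f : Matrix M (J ⊕ E) (SkewMonoidAlgebra R G))
    (g : Matrix (J ⊕ E) M (SkewMonoidAlgebra R G)),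
    Std lE eE ∧ Std lM eM ∧ Iso r (Sum.elim l lE) lM (fromBlocks p 0 0 eE) eM f g

/-- An isomorphism over `R` between the images of two idempotents. -/
structure Bs {I J : Type} [Fintype I] [Fintype J] (e : Matrix I I (SkewMonoidAlgebra R G))
    (e' : Matrix J J (SkewMonoidAlgebra R G)) (b : Matrix I J (SkewMonoidAlgebra R G))
    (c : Matrix J I (SkewMonoidAlgebra R G)) : Prop where
  sb : MSup {1} b
  sc : MSup {1} c
  bc : b * c = e
  cb : c * b = e'
  eb : e * b = b
  ce : c * e = c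

/-- The isomorphism `f` from the image of `e` to the image of `e'` has trivial torsion. -/
def Triv {I J : Type} [Fintype I] [DecidableEq I] [Fintype J]
    (e : Matrix I I (SkewMonoidAlgebra R G)) (e' : Matrix J J (SkewMonoidAlgebra R G))
    (f : Matrix J I (SkewMonoidAlgebra R G)) : Prop :=
  ∀ b c, Bs e e' b c → T (b * f + (1 - e))

variable (R) in
/-- Controlled vanishing of the reduced projective class group over `N` spiders. -/
def Q0 (N k k' : ℕ) : Prop :=
  ∀ (G : Type) [Group G] [MulSemiringAction G R] (Λ : Type) (B : Gpd G Λ) (S : Fin N → Spi G Λ),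
    (∀ a, QQ R (B.grp a)) → ∀ (J : Type) [Fintype J] [DecidableEq J] (l : J → Λ)
    (p : Matrix J J (SkewMonoidAlgebra R G)), p * p = p → Ctl ((CR B S).rel k) l l p →
    SS ((CR B S).rel k') l p

/-- The coefficient of `t ^ a`. -/
noncomputable def cf (a : ℤ) : SkewMonoidAlgebra R (G × MZ) →+ SkewMonoidAlgebra R G :=
  Sk.comapDomainAddMonoidHom (fun g => (g, Multiplicative.ofAdd a))
    fun _ _ h => congrArg Prod.fst h

/-- The element `t ^ b`. -/
noncomputable def tp (R : Type v) [Ring R] (G : Type) [Group G] [MulSemiringAction G R] (b : ℤ) :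
    SkewMonoidAlgebra R (G × MZ) :=
  SkewMonoidAlgebra.single (1, Multiplicative.ofAdd b) 1

/-- The part of degree at least `c`. -/
noncomputable def chi {J : Type} (c : ℤ) (w : J → SkewMonoidAlgebra R (G × MZ)) :
    J → SkewMonoidAlgebra R (G × MZ) :=
  fun j => pr {g | c ≤ Multiplicative.toAdd g.2} (w j)

/-- The projection of the nonnegative part along the image of the part of degree `≥ d`. -/
noncomputable def bop {I J : Type} [Fintype I] [Fintype J] (d : ℕ)
    (u : Matrix J I (SkewMonoidAlgebra R (G × MZ))) (v : Matrix I J (SkewMonoidAlgebra R (G × MZ)))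
    (e : Matrix J J (SkewMonoidAlgebra R (G × MZ))) (w : J → SkewMonoidAlgebra R (G × MZ)) :
    J → SkewMonoidAlgebra R (G × MZ) :=
  e *ᵥ chi 0 w - u *ᵥ chi d (v *ᵥ chi 0 w)

/-- The idempotent of Bass, Heller and Swan. -/
noncomputable def bhs {I J : Type} [Fintype I] [Fintype J] [DecidableEq J] (d L : ℕ)
    (u : Matrix J I (SkewMonoidAlgebra R (G × MZ))) (v : Matrix I J (SkewMonoidAlgebra R (G × MZ)))
    (e : Matrix J J (SkewMonoidAlgebra R (G × MZ))) :
    Matrix (J × Fin L) (J × Fin L) (SkewMonoidAlgebra R G) :=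
  fun x y => cf ((x.2 : ℕ) : ℤ) (bop d u v e (Pi.single y.1 (tp R G ((y.2 : ℕ) : ℤ))) x.1)

/-- All degrees are at most `d` in absolute value. -/
def Deg {I J : Type} (d : ℕ) (u : Matrix I J (SkewMonoidAlgebra R (G × MZ))) : Prop :=
  MSup {g | |Multiplicative.toAdd g.2| ≤ (d : ℤ)} u

variable (R) in
/-- The idempotents of Bass, Heller and Swan are stably standard. -/
def QB (N k k' : ℕ) : Prop :=
  ∀ (G : Type) [Group G] [MulSemiringAction G R] (Λ : Type) (B : Gpd G Λ) (S : Fin N → Spi G Λ),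
    (∀ a, QQ R (B.grp a)) → ∀ (I J : Type) [Fintype I] [DecidableEq I] [Fintype J]
    [DecidableEq J] (l : I → Λ) (l' : J → Λ) (e : Matrix I I (SkewMonoidAlgebra R (G × MZ)))
    (e' : Matrix J J (SkewMonoidAlgebra R (G × MZ))) (u : Matrix J I (SkewMonoidAlgebra R (G × MZ)))
    (v : Matrix I J (SkewMonoidAlgebra R (G × MZ))) (d L : ℕ), Std l e → Std l' e' →
    Iso (up ((CR B S).rel k)) l l' e e' u v → Deg d u → Deg d v → 2 * d ≤ L →
    SS ((CR B S).rel k') (fun x : J × Fin L => l' x.1) (bhs d L u v e')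

end Pool.Agent.MP_f7db47_al.TW

end

end

section

/-!
Twisted coefficients: part AIso.
-/

set_option linter.unusedSectionVars false

universe u u' v w

section

namespace Pool.Agent.MP_f7db47_al.TW

open GN

open Matrix

variable {R : Type v} [Ring R] {G : Type} [Group G] [MulSemiringAction G R] {Λ Λ' : Type} {I J K L : Type}

theorem AIso_diag [DecidableEq I] (F : GN.FR G Λ) (k : ℕ) (l : I → Λ) (P : I → Prop)
    [DecidablePred P] :
    Ctl (F.rel k) l l (diagonal fun i => if P i then (1 : SkewMonoidAlgebra R G) else 0) := by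
  intro i j
  by_cases h : i = j
  · subst h
    rw [diagonal_apply_eq]
    split_ifs
    · exact sup_one (F.mono k.zero_le (F.refl _))
    · exact sup_zero _
  · rw [diagonal_apply_ne _ h]
    exact sup_zero _

theorem AIso_congr [Fintype I] [Fintype J] {p q : Matrix I I (SkewMonoidAlgebra R G)}
    {p' : Matrix J J (SkewMonoidAlgebra R G)} {f : Matrix J I (SkewMonoidAlgebra R G)}
    {g : Matrix I J (SkewMonoidAlgebra R G)} {r : Λ → G → Λ → Prop} {l m : I → Λ} {l' : J → Λ}
    (h : Iso r l l' p p' f g) (h1 : l = m) (h2 : p = q) : Iso r m l' q p' f g :=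
  h1 ▸ h2 ▸ h

theorem Ctl.mono {r r' : Λ → G → Λ → Prop} {li : I → Λ} {lj : J → Λ}
    {f : Matrix I J (SkewMonoidAlgebra R G)} (h : Ctl r li lj f)
    (hr : ∀ a g b, r a g b → r' a g b) : Ctl r' li lj f :=
  fun i j => (h i j).mono fun g hg => hr _ g _ hg

/-- Change of labels. -/
theorem Ctl.relab {r : Λ → G → Λ → Prop} {r' : Λ' → G → Λ' → Prop} {li : I → Λ} {lj : J → Λ}
    {mi : I → Λ'} {mj : J → Λ'} {f : Matrix I J (SkewMonoidAlgebra R G)} (h : Ctl r li lj f)
    (hr : ∀ i g j, r (li i) g (lj j) → r' (mi i) g (mj j)) : Ctl r' mi mj f :=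
  fun i j => (h i j).mono fun g hg => hr i g j hg

theorem Ctl.le (F : GN.FR G Λ) {k k' : ℕ} {li : I → Λ} {lj : J → Λ}
    {f : Matrix I J (SkewMonoidAlgebra R G)} (h : Ctl (F.rel k) li lj f) (hk : k ≤ k') :
    Ctl (F.rel k') li lj f :=
  h.mono fun _ _ _ e => F.mono hk e

theorem Ctl.mul [Fintype J] (F : GN.FR G Λ) {k k' : ℕ} {li : I → Λ} {lj : J → Λ} {lk : K → Λ}
    {f : Matrix I J (SkewMonoidAlgebra R G)} {g : Matrix J K (SkewMonoidAlgebra R G)}
    (hf : Ctl (F.rel k) li lj f) (hg : Ctl (F.rel k') lj lk g) :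
    Ctl (F.rel (k + k')) li lk (f * g) :=
  fun i k => sup_sum _ _ fun j _ => (hf i j).mul (hg j k) fun _ ha _ hb => F.comp ha hb

theorem ctl_zero (r : Λ → G → Λ → Prop) (li : I → Λ) (lj : J → Λ) :
    Ctl r li lj (0 : Matrix I J (SkewMonoidAlgebra R G)) :=
  fun _ _ => sup_zero _

theorem Ctl.add {r : Λ → G → Λ → Prop} {li : I → Λ} {lj : J → Λ}
    {f g : Matrix I J (SkewMonoidAlgebra R G)} (hf : Ctl r li lj f) (hg : Ctl r li lj g) :
    Ctl r li lj (f + g) :=
  fun i j => (hf i j).add (hg i j)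

theorem Ctl.neg {r : Λ → G → Λ → Prop} {li : I → Λ} {lj : J → Λ}
    {f : Matrix I J (SkewMonoidAlgebra R G)} (hf : Ctl r li lj f) : Ctl r li lj (-f) :=
  fun i j => (hf i j).neg

theorem Ctl.sub {r : Λ → G → Λ → Prop} {li : I → Λ} {lj : J → Λ}
    {f g : Matrix I J (SkewMonoidAlgebra R G)} (hf : Ctl r li lj f) (hg : Ctl r li lj g) :
    Ctl r li lj (f - g) :=
  fun i j => (hf i j).sub (hg i j)

theorem ctl_one [DecidableEq I] (F : GN.FR G Λ) (k : ℕ) (l : I → Λ) :
    Ctl (F.rel k) l l (1 : Matrix I I (SkewMonoidAlgebra R G)) :=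
  AIso_diag F k l fun _ => True

/-- Diagonal matrices of zeros and ones. -/
theorem ctl_diag [DecidableEq I] (F : GN.FR G Λ) (k : ℕ) (l : I → Λ) (P : I → Prop)
    [DecidablePred P] :
    Ctl (F.rel k) l l (diagonal fun i => if P i then (1 : SkewMonoidAlgebra R G) else 0) :=
  AIso_diag F k l P

theorem Ctl.fromBlocks {r : Λ → G → Λ → Prop} {li : I → Λ} {lj : J → Λ} {lk : K → Λ}
    {ll : L → Λ} {A : Matrix I K (SkewMonoidAlgebra R G)} {B : Matrix I L (SkewMonoidAlgebra R G)}
    {C : Matrix J K (SkewMonoidAlgebra R G)} {D : Matrix J L (SkewMonoidAlgebra R G)}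
    (hA : Ctl r li lk A) (hB : Ctl r li ll B) (hC : Ctl r lj lk C) (hD : Ctl r lj ll D) :
    Ctl r (Sum.elim li lj) (Sum.elim lk ll) (fromBlocks A B C D) :=
  fun i j => match i, j with
    | .inl i, .inl j => hA i j
    | .inl i, .inr j => hB i j
    | .inr i, .inl j => hC i j
    | .inr i, .inr j => hD i j

theorem Ctl.submatrix {r : Λ → G → Λ → Prop} {li : I → Λ} {lj : J → Λ}
    {f : Matrix I J (SkewMonoidAlgebra R G)} (h : Ctl r li lj f) (a : K → I) (b : L → J) :
    Ctl r (fun x => li (a x)) (fun x => lj (b x)) (f.submatrix a b) :=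
  fun i j => h (a i) (b j)

section Std

theorem Std.eq_diag [DecidableEq I] {l : I → Λ} {e : Matrix I I (SkewMonoidAlgebra R G)}
    (h : Std l e) : e = diagonal fun i => e i i := by
  ext1 i j
  by_cases hij : i = j
  · rw [hij, diagonal_apply_eq]
  · rw [diagonal_apply_ne _ hij, h.1 i j hij]

variable [Fintype I] [Fintype J]

theorem Std.idem {l : I → Λ} {e : Matrix I I (SkewMonoidAlgebra R G)} (h : Std l e) : e * e = e :=
  by
  classical
  rw [h.eq_diag, diagonal_mul_diagonal]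
  congr 1
  funext i
  rcases h.2 i with h1 | h1 <;> simp [h1]

theorem Std.msup2 {l : I → Λ} {e : Matrix I I (SkewMonoidAlgebra R G)} (h : Std l e)
    {S : I → I → Set G} (hS : ∀ i, (1 : G) ∈ S i i) : MSup2 S e := by
  intro i j
  by_cases hij : i = j
  · subst hij
    rcases h.2 i with h1 | h1 <;> rw [h1]
    · exact sup_one (hS i)
    · exact sup_zero _
  · rw [h.1 i j hij]
    exact sup_zero _

theorem Std.msup {l : I → Λ} {e : Matrix I I (SkewMonoidAlgebra R G)} (h : Std l e)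
    {S : Set G} (hS : (1 : G) ∈ S) : MSup S e := h.msup2 (S := fun _ _ => S) fun _ => hS

theorem Std.ctl (F : GN.FR G Λ) (k : ℕ) {l : I → Λ} {e : Matrix I I (SkewMonoidAlgebra R G)}
    (h : Std l e) : Ctl (F.rel k) l l e :=
  h.msup2 fun _ => F.mono k.zero_le (F.refl _)

theorem Std.eq_of_ne {l : I → Λ} {e : Matrix I I (SkewMonoidAlgebra R G)} (h : Std l e) {i j : I}
    (hij : e i j ≠ 0) : l i = l j :=
  congrArg l (by_contra fun c => hij (h.1 i j c))

theorem Std.sum {l : I → Λ} {l' : J → Λ} {e : Matrix I I (SkewMonoidAlgebra R G)}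
    {e' : Matrix J J (SkewMonoidAlgebra R G)} (h : Std l e) (h' : Std l' e') :
    Std (Sum.elim l l') (fromBlocks e 0 0 e') :=
  by
  refine ⟨?_, ?_⟩
  · rintro (i | i) (j | j) c
    · exact h.1 i j fun e => c (congrArg _ e)
    · rfl
    · rfl
    · exact h'.1 i j fun e => c (congrArg _ e)
  · rintro (i | i)
    · exact h.2 i
    · exact h'.2 i

theorem Std.relab {l : I → Λ} {m : I → Λ'} {e : Matrix I I (SkewMonoidAlgebra R G)} (h : Std l e)
    (_ : ∀ i j, e i j ≠ 0 → m i = m j) : Std m e := h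

theorem std_one [DecidableEq I] (l : I → Λ) : Std l (1 : Matrix I I (SkewMonoidAlgebra R G)) :=
  ⟨fun _ _ h => Matrix.one_apply_ne h, fun i => Or.inl (Matrix.one_apply_eq i)⟩

/-- Restriction to a set of indices that is a union of fibres of the labelling. -/
theorem Std.restrict {l : I → Λ} {e : Matrix I I (SkewMonoidAlgebra R G)} (h : Std l e)
    (P : I → Prop) [DecidablePred P] (_ : ∀ i j, e i j ≠ 0 → (P i ↔ P j)) :
    Std (fun x : {i // P i} => l x.1) (e.submatrix Subtype.val Subtype.val) :=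
  ⟨fun i j c => h.1 i.1 j.1 fun e => c (Subtype.ext e), fun i => h.2 i.1⟩

/-- Multiplication with a diagonal matrix of zeros and ones. -/
theorem Std.mul [DecidableEq I] {l : I → Λ} {m : I → Λ'}
    {e e' : Matrix I I (SkewMonoidAlgebra R G)} (h : Std l e) (h' : Std m e') : Std l (e * e') := by
  rw [h.eq_diag, h'.eq_diag, diagonal_mul_diagonal]
  refine ⟨fun i j c => diagonal_apply_ne _ c, fun i => ?_⟩
  rw [diagonal_apply_eq]
  rcases h.2 i with h1 | h1 <;> rcases h'.2 i with h2 | h2 <;> simp [h1, h2]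

theorem std_diag [DecidableEq I] (l : I → Λ) (P : I → Prop) [DecidablePred P] :
    Std l (diagonal fun i => if P i then (1 : SkewMonoidAlgebra R G) else 0) := by
  refine ⟨fun i j c => diagonal_apply_ne _ c, fun i => ?_⟩
  rw [diagonal_apply_eq]
  split_ifs
  · exact Or.inl rfl
  · exact Or.inr rfl

open Classical in
theorem std_diagc [DecidableEq I] (l : I → Λ) (P : I → Prop) :
    Std l (diagonal fun i => if P i then (1 : SkewMonoidAlgebra R G) else 0) := std_diag l P

end Std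

section Iso

variable [Fintype I] [Fintype J] [Fintype K] [Fintype L]

variable {p : Matrix I I (SkewMonoidAlgebra R G)} {p' : Matrix J J (SkewMonoidAlgebra R G)}
  {f : Matrix J I (SkewMonoidAlgebra R G)} {g : Matrix I J (SkewMonoidAlgebra R G)}
  {r : Λ → G → Λ → Prop} {l : I → Λ} {l' : J → Λ}

theorem Iso.pf (h : Iso r l l' p p' f g) : p' * f = f :=
  by rw [← h.fg, Matrix.mul_assoc, h.gf, h.fp]

theorem Iso.gp (h : Iso r l l' p p' f g) : g * p' = g :=
  by rw [← h.fg, ← Matrix.mul_assoc, h.gf, h.pg]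

theorem Iso.idem (h : Iso r l l' p p' f g) : p * p = p :=
  by
  conv_lhs => rw [← h.gf]
  rw [Matrix.mul_assoc, ← Matrix.mul_assoc f, h.fg, h.pf, h.gf]

theorem Iso.symm (h : Iso r l l' p p' f g) : Iso r l' l p' p g f :=
  ⟨h.fg, h.gf, h.gp, h.pf, h.cg, h.cf⟩

theorem Iso.relab {r' : Λ' → G → Λ' → Prop} {m : I → Λ'} {m' : J → Λ'} (h : Iso r l l' p p' f g)
    (h1 : ∀ j γ i, r (l' j) γ (l i) → r' (m' j) γ (m i))
    (h2 : ∀ i γ j, r (l i) γ (l' j) → r' (m i) γ (m' j)) : Iso r' m m' p p' f g :=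
  ⟨h.gf, h.fg, h.fp, h.pg, h.cf.relab h1, h.cg.relab h2⟩

theorem Iso.le (F : GN.FR G Λ) {k k' : ℕ} (h : Iso (F.rel k) l l' p p' f g) (hk : k ≤ k') :
    Iso (F.rel k') l l' p p' f g :=
  ⟨h.gf, h.fg, h.fp, h.pg, h.cf.le F hk, h.cg.le F hk⟩

theorem iso_refl (hp : p * p = p) (hc : Ctl r l l p) : Iso r l l p p p p :=
  ⟨hp, hp, hp, hp, hc, hc⟩

theorem Iso.trans (F : GN.FR G Λ) {k k' : ℕ} {l'' : K → Λ} {p'' : Matrix K K (SkewMonoidAlgebra R G)}
    {f' : Matrix K J (SkewMonoidAlgebra R G)} {g' : Matrix J K (SkewMonoidAlgebra R G)}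
    (h : Iso (F.rel k) l l' p p' f g) (h' : Iso (F.rel k') l' l'' p' p'' f' g') :
    Iso (F.rel (k + k')) l l'' p p'' (f' * f) (g * g') :=
  ⟨by rw [Matrix.mul_assoc, ← Matrix.mul_assoc g', h'.gf, h.pf, h.gf],
    by rw [Matrix.mul_assoc, ← Matrix.mul_assoc f, h.fg, h'.pg, h'.fg],
    by rw [Matrix.mul_assoc, h.fp], by rw [← Matrix.mul_assoc, h.pg],
    Nat.add_comm k' k ▸ h'.cf.mul F h.cf, h.cg.mul F h'.cg⟩

theorem Iso.sum {m : K → Λ} {m' : L → Λ} {q : Matrix K K (SkewMonoidAlgebra R G)}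
    {q' : Matrix L L (SkewMonoidAlgebra R G)} {f' : Matrix L K (SkewMonoidAlgebra R G)}
    {g' : Matrix K L (SkewMonoidAlgebra R G)} (h : Iso r l l' p p' f g) (h' : Iso r m m' q q' f' g') :
    Iso r (Sum.elim l m) (Sum.elim l' m') (fromBlocks p 0 0 q) (fromBlocks p' 0 0 q')
      (fromBlocks f 0 0 f') (fromBlocks g 0 0 g') :=
  ⟨by simp [fromBlocks_multiply, h.gf, h'.gf], by simp [fromBlocks_multiply, h.fg, h'.fg],
    by simp [fromBlocks_multiply, h.fp, h'.fp], by simp [fromBlocks_multiply, h.pg, h'.pg],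
    h.cf.fromBlocks (ctl_zero _ _ _) (ctl_zero _ _ _) h'.cf,
    h.cg.fromBlocks (ctl_zero _ _ _) (ctl_zero _ _ _) h'.cg⟩

theorem Iso.reindex (h : Iso r l l' p p' f g) (a : K ≃ I) (b : L ≃ J) :
    Iso r (fun x => l (a x)) (fun x => l' (b x)) (p.submatrix a a) (p'.submatrix b b)
      (f.submatrix b a) (g.submatrix a b) :=
  ⟨by rw [submatrix_mul_equiv, h.gf], by rw [submatrix_mul_equiv, h.fg],
    by rw [submatrix_mul_equiv, h.fp], by rw [submatrix_mul_equiv, h.pg],
    h.cf.submatrix _ _, h.cg.submatrix _ _⟩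

/-- Restriction of an isomorphism that respects a partition of the indices. -/
theorem Iso.restrict (h : Iso r l l' p p' f g) (P : I → Prop) [DecidablePred P] (P' : J → Prop)
    [DecidablePred P'] (hf : ∀ j i, f j i ≠ 0 → (P' j ↔ P i))
    (hg : ∀ i j, g i j ≠ 0 → (P i ↔ P' j)) :
    Iso r (fun x : {i // P i} => l x.1) (fun x : {j // P' j} => l' x.1)
      (p.submatrix Subtype.val Subtype.val) (p'.submatrix Subtype.val Subtype.val)
      (f.submatrix Subtype.val Subtype.val) (g.submatrix Subtype.val Subtype.val) :=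
  by
  have h1 : ∀ (x : {j // P' j}) i, ¬ P i → f x.1 i = 0 := fun x i hi =>
    by_contra fun e => hi ((hf _ _ e).1 x.2)
  have h2 : ∀ (x : {i // P i}) j, ¬ P' j → g x.1 j = 0 := fun x j hj =>
    by_contra fun e => hj ((hg _ _ e).1 x.2)
  refine ⟨by rw [← AIso_sub_mul g f _ _ P' h2, h.gf], by rw [← AIso_sub_mul f g _ _ P h1, h.fg],
    by rw [← AIso_sub_mul f p _ _ P h1, h.fp], ?_, h.cf.submatrix _ _, h.cg.submatrix _ _⟩
  rw [← AIso_sub_mul p g _ _ P, h.pg]
  intro x i hi
  rw [← h.gf, mul_apply]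
  refine Finset.sum_eq_zero fun j _ => ?_
  by_cases hj : P' j
  · rw [h1 ⟨j, hj⟩ i hi, mul_zero]
  · rw [h2 x j hj, zero_mul]

end Iso

section SS

variable [Fintype I] [DecidableEq I] [Fintype J] [DecidableEq J]

variable {p : Matrix I I (SkewMonoidAlgebra R G)} {p' : Matrix J J (SkewMonoidAlgebra R G)}
  {l : I → Λ} {l' : J → Λ}

theorem SS.relab {r : Λ → G → Λ → Prop} {r' : Λ' → G → Λ' → Prop} (h : SS r l p) (π : Λ → Λ')
    (hr : ∀ a g b, r a g b → r' (π a) g (π b)) : SS r' (fun i => π (l i)) p :=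
  by
  obtain ⟨E, M, i1, i2, i3, i4, lE, lM, eE, eM, f, g, h1, h2, h3⟩ := h
  refine ⟨E, M, i1, i2, i3, i4, fun x => π (lE x), fun x => π (lM x), eE, eM, f, g,
    h1.relab fun i j e => by rw [h1.eq_of_ne e], h2.relab fun i j e => by rw [h2.eq_of_ne e],
    h3.relab ?_ ?_⟩
  · rintro j γ (i | i) e <;> exact hr _ _ _ e
  · rintro (i | i) γ j e <;> exact hr _ _ _ e

theorem SS.of_iso (F : GN.FR G Λ) {k k' : ℕ} {f : Matrix J I (SkewMonoidAlgebra R G)}
    {g : Matrix I J (SkewMonoidAlgebra R G)} (h : Iso (F.rel k) l l' p p' f g)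
    (h' : SS (F.rel k') l' p') : SS (F.rel (k + k')) l p :=
  by
  obtain ⟨E, M, i1, i2, i3, i4, lE, lM, eE, eM, f', g', h1, h2, h3⟩ := h'
  exact ⟨E, M, i1, i2, i3, i4, lE, lM, eE, eM, _, _, h1, h2,
    (h.sum (iso_refl h1.idem (h1.ctl F k))).trans F h3⟩

theorem SS.sum {r : Λ → G → Λ → Prop} (h : SS r l p) (h' : SS r l' p') :
    SS r (Sum.elim l l') (fromBlocks p 0 0 p') :=
  by
  obtain ⟨E, M, i1, i2, i3, i4, lE, lM, eE, eM, f, g, h1, h2, h3⟩ := h
  obtain ⟨E', M', j1, j2, j3, j4, lE', lM', eE', eM', f', g', k1, k2, k3⟩ := h'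
  refine ⟨E ⊕ E', M ⊕ M', inferInstance, inferInstance, inferInstance, inferInstance, _, _, _, _,
    _, _, h1.sum k1, h2.sum k2, AIso_congr ((h3.sum k3).reindex (Equiv.sumSumSumComm I J E E')
      (Equiv.refl _)) ?_ ?_⟩
  · funext x
    rcases x with (x | x) | (x | x) <;> rfl
  · ext1 x y
    rcases x with (x | x) | (x | x) <;> rcases y with (y | y) | (y | y) <;> rfl

theorem SS.of_sum_std {r : Λ → G → Λ → Prop} (h' : Std l' p')
    (h : SS r (Sum.elim l l') (fromBlocks p 0 0 p')) : SS r l p :=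
  by
  obtain ⟨E, M, i1, i2, i3, i4, lE, lM, eE, eM, f, g, h1, h2, h3⟩ := h
  refine ⟨J ⊕ E, M, inferInstance, inferInstance, i3, i4, _, _, _, _, _, _, h'.sum h1, h2,
    AIso_congr (h3.reindex (Equiv.sumAssoc I J E).symm (Equiv.refl _)) ?_ ?_⟩
  · funext x
    rcases x with x | (x | x) <;> rfl
  · ext1 x y
    rcases x with x | (x | x) <;> rcases y with y | (y | y) <;> rfl

theorem SS.of_reindex {r : Λ → G → Λ → Prop} (a : J ≃ I)
    (h : SS r (fun x => l (a x)) (p.submatrix a a)) : SS r l p :=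
  by
  obtain ⟨E, M, i1, i2, i3, i4, lE, lM, eE, eM, f, g, h1, h2, h3⟩ := h
  refine ⟨E, M, i1, i2, i3, i4, _, _, _, _, _, _, h1, h2,
    AIso_congr (h3.reindex (Equiv.sumCongr a.symm (Equiv.refl E)) (Equiv.refl _)) ?_ ?_⟩
  · funext x
    rcases x with x | x <;> simp
  · ext1 x y
    rcases x with x | x <;> rcases y with y | y <;> simp

theorem SS.of_split {r : Λ → G → Λ → Prop} (P : I → Prop) [DecidablePred P]
    (hP : ∀ i j, p i j ≠ 0 → (P i ↔ P j))
    (h : SS r (fun x : {i // P i} => l x.1) (p.submatrix Subtype.val Subtype.val))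
    (h' : SS r (fun x : {i // ¬ P i} => l x.1) (p.submatrix Subtype.val Subtype.val)) :
    SS r l p :=
  by
  refine SS.of_reindex (Equiv.sumCompl P) ?_
  convert h.sum h' using 1
  · funext x
    rcases x with x | x <;> rfl
  · ext1 x y
    rcases x with x | x <;> rcases y with y | y
    · rfl
    · exact by_contra fun e => y.2 ((hP _ _ e).1 x.2)
    · exact by_contra fun e => x.2 ((hP _ _ e).2 y.2)
    · rfl

end SS

end Pool.Agent.MP_f7db47_al.TW

end

end
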