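import Pool.Agent.Mg.Ff7db47.G02d797
import Pool.Agent.Mg.Ff7db47.Gaf0764
import Pool.Agent.Mg.Ff7db47.Gf348de

/-!
The acyclic carriers.
-/

namespace Pool.Agent.MP_f7db47_al.GN

open Pl

variable {G : Type} [Group G] {bl : Bl G} {C : ℕ} {P : Pl} {n : ℕ}

open Classical in
/-- The common part of two balls. -/
noncomputable def NCar_Fx (bl : Bl G) (m : ℕ) (g : G) (e : ℕ) : Finset G :=
  (bl.B (m - e)).filter fun s => g⁻¹ * s ∈ bl.B (m - e)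

theorem NCar_mem_Fx {m e : ℕ} {g s : G} :
    s ∈ NCar_Fx bl m g e ↔ s ∈ bl.B (m - e) ∧ g⁻¹ * s ∈ bl.B (m - e) := by
  classical
  rw [NCar_Fx, Finset.mem_filter]

open Classical in
/-- The box around a simplex. -/
noncomputable def NCar_Box (bl : Bl G) (m : ℕ) (K : Finset (G → ℤ)) (g : G) (e : ℕ) (c : ℤ)
    (σ : Finset (G → ℤ)) : Finset (G → ℤ) :=
  K.filter fun y => ∃ δ : ℤ, ∀ s ∈ NCar_Fx bl m g e,
    (∃ η ∈ σ, η (g⁻¹ * s) ≤ y s + δ) ∧ ∃ η ∈ σ, y s + δ ≤ η (g⁻¹ * s) + c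

theorem NCar_mem_Box {m e : ℕ} {K σ : Finset (G → ℤ)} {g : G} {c : ℤ} {y : G → ℤ} :
    y ∈ NCar_Box bl m K g e c σ ↔ y ∈ K ∧ ∃ δ : ℤ, ∀ s ∈ NCar_Fx bl m g e,
      (∃ η ∈ σ, η (g⁻¹ * s) ≤ y s + δ) ∧ ∃ η ∈ σ, y s + δ ≤ η (g⁻¹ * s) + c := by
  classical
  rw [NCar_Box, Finset.mem_filter]

theorem NCar_Box_sub {m e : ℕ} {K σ : Finset (G → ℤ)} {g : G} {c : ℤ} :
    NCar_Box bl m K g e c σ ⊆ K := fun _ hy => (NCar_mem_Box.1 hy).1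

theorem NCar_Box_mono {m e e' : ℕ} {K σ τ : Finset (G → ℤ)} {g : G} {c c' : ℤ} (he : e ≤ e')
    (hc : c ≤ c') (h : τ ⊆ σ) : NCar_Box bl m K g e c τ ⊆ NCar_Box bl m K g e' c' σ := by
  intro y hy
  obtain ⟨h1, δ, h2⟩ := NCar_mem_Box.1 hy
  refine NCar_mem_Box.2 ⟨h1, δ, fun s hs => ?_⟩
  obtain ⟨s1, s2⟩ := NCar_mem_Fx.1 hs
  have h3 : m - e' ≤ m - e := by omega
  obtain ⟨⟨η, a1, a2⟩, η', b1, b2⟩ := h2 s (NCar_mem_Fx.2 ⟨bl.mono h3 s1, bl.mono h3 s2⟩)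
  exact ⟨⟨η, h a1, a2⟩, η', h b1, by omega⟩

theorem NCar_one (bl : Bl G) (m : ℕ) : (1 : G) ∈ bl.B m := bl.mono (Nat.zero_le m) bl.one

/-- A nonempty clique has a least element. -/
theorem NCar_least (a : Ac G bl C P n) {q m : ℕ} (hq : 0 < q) {W : P.S n} {τ : Finset (G → ℤ)}
    (h : Clq (AdjT (bl.B m)) (a.Kv q W m) τ) (hne : τ.Nonempty) :
    ∃ η₀ ∈ τ, ∀ η ∈ τ, ∀ s ∈ bl.B m, η₀ s ≤ η s ∧ η s ≤ η₀ s + 1 := by
  obtain ⟨η₀, h0, hmin⟩ := τ.exists_min_image (fun η => ∑ s ∈ bl.B m, η s) hne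
  refine ⟨η₀, h0, fun η hη => ?_⟩
  by_cases he : η₀ = η
  · subst he
    exact fun s _ => ⟨le_rfl, by omega⟩
  rcases AdjT.norm (NCar_one bl m) ((a.mem_Kv hq).1 (h.1 h0)).2.1 ((a.mem_Kv hq).1 (h.1 hη)).2.1
    (h.2 _ h0 _ hη he) with h1 | h1
  · exact h1
  · have h2 := (Finset.sum_eq_sum_iff_of_le fun s hs => (h1 s hs).1).1
      ((Finset.sum_le_sum fun s hs => (h1 s hs).1).antisymm (hmin η hη))
    exact fun s hs => by have := h2 s hs; omega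

/-- The transported vertex. -/
theorem NCar_trans (a : Ac G bl C P n) {q m U e : ℕ} (hq : 0 < q) (hU : m ≤ U) {W₁ W₂ : P.S n}
    (hW : W₁ ≠ ⊥) {g : G} {u : P.A n} (hu : a.Tr U g W₁ W₂ u)
    (hne : (NCar_Fx bl m g e).Nonempty) {η : G → ℤ} (hη : η ∈ a.Kv q W₂ m) :
    ∃ y ∈ a.Kv q W₁ m, ∃ δ : ℤ, ∀ s ∈ NCar_Fx bl m g e, y s + δ = η (g⁻¹ * s) := by
  have hsub : NCar_Fx bl m g e ⊆ bl.B m := fun s hs =>
    bl.mono (Nat.sub_le m e) (NCar_mem_Fx.1 hs).1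
  obtain ⟨y, hy, δ, h⟩ := a.exists_clo hq hW hsub hne fun s => η (g⁻¹ * s)
  have hgen : ∀ s ∈ NCar_Fx bl m g e, a.gen W₁ s = ac u (a.gen W₂ (g⁻¹ * s)) := fun s hs => by
    have h1 := hu.2 (g⁻¹ * s) (by rw [mul_inv_cancel_left]; exact bl.mono hU (hsub hs))
    rw [mul_inv_cancel_left] at h1
    exact h1.symm
  refine ⟨y, hy, δ, fun s hs => le_antisymm ?_ ?_⟩
  · have h1 := (h s (hsub hs) (y s + δ)).2 le_rfl
    have h2 : a.Xf q W₁ (NCar_Fx bl m g e) (fun s => η (g⁻¹ * s)) (y s + δ) ≤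
        ac u (a.Xf q W₂ (bl.B m) η (y s + δ)) := by
      refine iSup₂_le fun t ht => ?_
      rw [hgen t ht, ← ac_sc]
      refine (ac u).monotone ?_
      exact le_iSup₂_of_le (f := fun t (_ : t ∈ bl.B m) => sc (cd q (y s + δ - η t)) (a.gen W₂ t))
        (g⁻¹ * t) (bl.mono (Nat.sub_le m e) (NCar_mem_Fx.1 ht).2) le_rfl
    have h3 := h1.trans h2
    rw [hgen s hs, OrderIso.le_iff_le] at h3
    exact ((a.mem_Kv hq).1 hη).1 _ (bl.mono (Nat.sub_le m e) (NCar_mem_Fx.1 hs).2) _ h3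
  · exact (h s (hsub hs) _).1 (a.gen_le_Xf q W₁ (fun s => η (g⁻¹ * s)) hs)

theorem NCar_dism_box (a : Ac G bl C P n) {q m U e : ℕ} (hq : 0 < q) (hU : m ≤ U)
    {W₁ W₂ : P.S n} (hW : W₁ ≠ ⊥) {g : G} {u : P.A n} (hu : a.Tr U g W₁ W₂ u)
    (hg : g ∈ bl.B (m - e)) {σ : Finset (G → ℤ)} (hσ : σ ⊆ a.Kv q W₂ m) (hne : σ.Nonempty)
    {c : ℤ} (hc : 0 ≤ c) : Dism (AdjT (bl.B m)) (NCar_Box bl m (a.Kv q W₁ m) g e c σ) := by
  have hsub : NCar_Fx bl m g e ⊆ bl.B m := fun s hs =>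
    bl.mono (Nat.sub_le m e) (NCar_mem_Fx.1 hs).1
  have h1 : (NCar_Fx bl m g e).Nonempty :=
    ⟨1, NCar_mem_Fx.2 ⟨NCar_one bl _, by rw [mul_one]; exact bl.inv hg⟩⟩
  refine box_dism (bl.B m) (NCar_Fx bl m g e) hsub h1 1 (NCar_one bl m) (a.Clo q W₁ (bl.B m))
    (fun x y h hx => Ac.Clo.congr a h hx) (fun x c hx => Ac.Clo.shift a c hx)
    (fun x y hx hy => Ac.Clo.min a hq hx hy) (a.Kv q W₁ m) (fun x => a.mem_Kv hq)
    (fun s => σ.inf' hne fun η => η (g⁻¹ * s)) (fun s => (σ.sup' hne fun η => η (g⁻¹ * s)) + c)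
    _ (fun y => ?_) ?_
  · rw [NCar_mem_Box]
    refine and_congr_right fun _ => exists_congr fun δ => forall₂_congr fun s _ => and_congr ?_ ?_
    · rw [Finset.inf'_le_iff]
    · rw [← sub_le_iff_le_add, Finset.le_sup'_iff]
      exact exists_congr fun η => and_congr_right fun _ => sub_le_iff_le_add.symm
  · obtain ⟨η, hη⟩ := hne
    obtain ⟨y, hy, δ, h⟩ := NCar_trans a hq hU hW hu h1 (hσ hη)
    exact ⟨y, NCar_mem_Box.2 ⟨hy, δ, fun s hs =>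
      ⟨⟨η, hη, (h s hs).ge⟩, η, hη, by rw [h s hs]; omega⟩⟩⟩

theorem NCar_dism_Kn (a : Ac G bl C P n) {q m h : ℕ} (hq : 0 < q) {W : P.S n}
    (hW : 0 < h → W ≠ ⊥) : Dism (AdjT (bl.B m)) (a.Kn q m h W) := by
  rw [Ac.Kn]
  split_ifs with h0
  · have hsub : ({1} : Finset G) ⊆ bl.B m := Finset.singleton_subset_iff.2 (NCar_one bl m)
    refine box_dism (bl.B m) {1} hsub (Finset.singleton_nonempty 1) 1 (NCar_one bl m)
      (a.Clo q W (bl.B m))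
      (fun x y h hx => Ac.Clo.congr a h hx) (fun x c hx => Ac.Clo.shift a c hx)
      (fun x y hx hy => Ac.Clo.min a hq hx hy) (a.Kv q W m) (fun x => a.mem_Kv hq)
      (fun _ => 0) (fun _ => 0) _ (fun y => ⟨fun hy => ⟨hy, -y 1, fun s hs => ?_⟩, fun h => h.1⟩) ?_
    · rw [Finset.mem_singleton.1 hs]
      omega
    · obtain ⟨y, hy, -⟩ := a.exists_clo hq (hW h0) hsub (Finset.singleton_nonempty 1) 0
      exact ⟨y, hy⟩
  · exact ⟨fun _ => 0, 0, id, Finset.mem_singleton_self _,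
      fun z hz h1 => absurd (Finset.mem_singleton.1 hz) h1⟩

theorem NCar_Kn (a : Ac G bl C P n) {q m h : ℕ} (W : P.S n) (h0 : 0 < h) :
    a.Kn q m h W = a.Kv q W m := if_pos h0

theorem exists_ext {Λ Λ' : Type} (F : FR G Λ) (hF : F.Good bl) (h : Λ → ℕ) (m : ℕ)
    (hl : ∀ {t x g y}, F.rel t x g y → h y ≤ h x + t) (hm : ∀ x, h x ≤ m) (π : Λ' → Λ)
    (η : Λ' → G → ℤ) : ∃ F' : FR G Λ', F'.Good bl ∧ ∀ t x g y, F'.rel t x g y ↔
      F.rel t (π x) g (π y) ∧ (t < h (π x) → t < h (π y) → ∃ δ, HC bl m t g (η x) (η y) δ) := by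
  refine ⟨⟨fun t x g y => F.rel t (π x) g (π y) ∧
    (t < h (π x) → t < h (π y) → ∃ δ, HC bl m t g (η x) (η y) δ), fun x => ⟨F.refl _, ?_⟩,
    fun {k k' x g y} hk h1 => ⟨F.mono hk h1.1, fun a1 a2 => ?_⟩,
    fun {k k' x g y g' z} h1 h2 => ⟨F.comp h1.1 h2.1, fun a1 a2 => ?_⟩⟩,
    ⟨fun {t x g y} h1 => ⟨hF.symm h1.1, fun a1 a2 => ?_⟩, fun h1 => hF.ball h1.1⟩,
    fun t x g y => Iff.rfl⟩
  · exact fun _ _ => ⟨0, fun s _ _ => by simp⟩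
  · obtain ⟨δ, hδ⟩ := h1.2 (by omega) (by omega)
    have h3 : m - k' ≤ m - k := by omega
    exact ⟨δ, fun s s1 s2 => (hδ s (bl.mono h3 s1) (bl.mono h3 s2)).trans (by exact_mod_cast hk)⟩
  · have b1 := hl (hF.symm h1.1)
    have b2 := hl h2.1
    have b3 := hm (π x)
    obtain ⟨δ, hδ⟩ := h1.2 (by omega) (by omega)
    obtain ⟨δ', hδ'⟩ := h2.2 (by omega) (by omega)
    refine ⟨δ + δ', fun s s1 s2 => ?_⟩
    have e1 : g'⁻¹ * (g⁻¹ * s) = (g * g')⁻¹ * s := by group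
    have e2 : g⁻¹ * s = g' * ((g * g')⁻¹ * s) := by group
    have c1 := hδ s (bl.mono (by omega) s1)
      (e2 ▸ bl.mono (by omega) (bl.mul (hF.ball h2.1) s2))
    have c2 := hδ' (g⁻¹ * s) (bl.mono (by omega) (bl.mul (bl.inv (hF.ball h1.1)) s1))
      (e1 ▸ bl.mono (by omega) s2)
    rw [e1] at c2
    rw [abs_le] at c1 c2 ⊢
    push_cast
    constructor <;> linarith [c1.1, c1.2, c2.1, c2.2]
  · obtain ⟨δ, hδ⟩ := h1.2 a2 a1
    refine ⟨-δ, fun s s1 s2 => ?_⟩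
    rw [inv_inv] at s2 ⊢
    have c1 := hδ (g * s) s2 (by rwa [inv_mul_cancel_left])
    rw [inv_mul_cancel_left] at c1
    rw [abs_le] at c1 ⊢
    constructor <;> linarith [c1.1, c1.2]

theorem card_Kn (a : Ac G bl C P n) (q m h : ℕ) (W : P.S n) :
    (a.Kn q m h W).card ≤ (2 * (q * C * m) + 1) ^ bl.s₀ ^ m := by
  rw [Ac.Kn]
  split_ifs
  · exact a.card_Kv q W m
  · rw [Finset.card_singleton]
    exact Nat.one_le_pow _ _ (Nat.succ_pos _)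

theorem car (a : Ac G bl C P n) (o : LinearOrder (G → ℤ)) {J : Type} (F : FR G J)
    (hF : F.Good bl) (h : J → ℕ) (W : J → P.S n) {q m U k : ℕ} (hq : 0 < q) (hk : 0 < k)
    (hl : ∀ {t x g y}, F.rel t x g y → h y ≤ h x + t) (hm : ∀ x, 2 * h x ≤ m) (hU : m ≤ U)
    (hW : ∀ x, 0 < h x → W x ≠ ⊥)
    (htr : ∀ {t x g y}, F.rel t x g y → t < h x → t < h y → ∃ u, a.Tr U g (W x) (W y) u) :
    ∃ C₁ C₂ : J → G → J → Finset (G → ℤ) → Finset (G → ℤ),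
      @TrD (G → ℤ) o G J _ (F.rel k) (F.rel (2 * k)) (fun j => a.Kn q m (h j) (W j))
        (fun _ => AdjT (bl.B m)) C₁ C₂ (n + 1) ∧
      ∀ i g j σ x y, F.rel (2 * k) i g j → Clq (AdjT (bl.B m)) (a.Kn q m (h j) (W j)) σ → y ∈ σ →
        x ∈ C₂ i g j σ → 4 * k < h i → 4 * k < h j → ∃ δ, HC bl m (4 * k) g x y δ := by
  obtain ⟨D, hD⟩ : ∃ D : ℕ → ℕ → ℤ → J → G → J → Finset (G → ℤ) → Finset (G → ℤ),
      ∀ r e c i g j σ, D r e c i g j σ = if r < h i ∧ r < h j then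
        NCar_Box bl m (a.Kn q m (h i) (W i)) g e c σ else a.Kn q m (h i) (W i) :=
    ⟨_, fun _ _ _ _ _ _ _ => rfl⟩
  have hac : ∀ j, @Acyc (G → ℤ) o (AdjT (bl.B m)) (a.Kn q m (h j) (W j)) := fun j =>
    @Dism.acyc _ o _ (adjT_symm _) _ (NCar_dism_Kn a hq (hW j))
  have hsub : ∀ r e c i g j σ, D r e c i g j σ ⊆ a.Kn q m (h i) (W i) := fun r e c i g j σ => by
    rw [hD]
    split_ifs
    · exact NCar_Box_sub
    · exact subset_rfl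
  have hmono : ∀ r e c i g j σ τ, τ ⊆ σ → D r e c i g j τ ⊆ D r e c i g j σ :=
    fun r e c i g j σ τ h1 => by
      rw [hD, hD]
      split_ifs
      · exact NCar_Box_mono le_rfl le_rfl h1
      · exact subset_rfl
  have hacy : ∀ r e c i g j σ, 2 * k ≤ r → 2 * k + e ≤ 2 * r → 0 ≤ c → F.rel (2 * k) i g j →
      Clq (AdjT (bl.B m)) (a.Kn q m (h j) (W j)) σ → σ.Nonempty →
      @Acyc (G → ℤ) o (AdjT (bl.B m)) (D r e c i g j σ) := fun r e c i g j σ r1 r2 hc h1 h2 h3 => by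
    rw [hD]
    split_ifs with h4
    · obtain ⟨u, hu⟩ := htr h1 (by omega) (by omega)
      have h5 := hm i
      rw [NCar_Kn a _ (by omega)] at h2 ⊢
      exact @Dism.acyc _ o _ (adjT_symm _) _ (NCar_dism_box a hq hU (hW i (by omega)) hu
        (bl.mono (by omega) (hF.ball h1)) h2.1 h3 hc)
    · exact hac i
  refine ⟨D (2 * k) (2 * k) 0, D (3 * k) (4 * k) 1, ?_, ?_⟩
  · refine @TrD.mk (G → ℤ) o G J _ _ _ _ _ _ _ _ (fun h1 => F.mono (by omega) h1)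
      (fun h1 h2 => F.mono (by omega) (F.comp h1 h2)) (fun _ => adjT_symm _) (fun j σ h1 => ?_)
      hac (fun σ _ => hsub _ _ _ _ _ _ _) (fun σ _ => hsub _ _ _ _ _ _ _)
      (fun _ h1 => hmono _ _ _ _ _ _ _ _ h1) (fun _ h1 => hmono _ _ _ _ _ _ _ _ h1)
      (fun h1 h2 h3 => hacy _ _ _ _ _ _ _ le_rfl (by omega) le_rfl h1 h2 h3)
      (fun h1 h2 h3 => hacy _ _ _ _ _ _ _ (by omega) (by omega) zero_le_one h1 h2 h3)
      (fun {j σ} h1 => ?_) (fun {i g j} σ _ => ?_)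
      (fun {i g j g' l σ τ} h1 h2 h3 h4 h5 h6 h7 => ?_)
    · by_cases h0 : 0 < h j
      · rw [NCar_Kn a _ h0] at h1
        exact (a.clq_card hq h1).trans (Nat.le_succ n)
      · have h2 := h1.1
        rw [Ac.Kn, if_neg h0] at h2
        exact (Finset.card_le_card h2).trans (by simp)
    · rw [hD]
      split_ifs
      · exact fun y hy => NCar_mem_Box.2 ⟨h1.1 hy, 0, fun s _ =>
          ⟨⟨y, hy, by simp⟩, y, hy, by simp⟩⟩
      · exact h1.1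
    · rw [hD (3 * k)]
      split_ifs with h1
      · rw [hD, if_pos ⟨by omega, by omega⟩]
        exact NCar_Box_mono (by omega) zero_le_one subset_rfl
      · exact hsub _ _ _ _ _ _ _
    · rw [hD (3 * k)]
      split_ifs with h8
      swap
      · exact hsub _ _ _ _ _ _ _
      have b1 := hl (hF.symm h1)
      have b2 := hm i
      rw [hD, if_pos ⟨by omega, by omega⟩] at h7 ⊢
      rw [NCar_Kn a _ (by omega)] at h5
      obtain ⟨η₀, c1, c2⟩ := NCar_least a hq h5 h6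
      obtain ⟨-, δ₀, c3⟩ := NCar_mem_Box.1 (h7 c1)
      intro x hx
      obtain ⟨x1, δ, x2⟩ := NCar_mem_Box.1 hx
      refine NCar_mem_Box.2 ⟨x1, δ + δ₀, fun s hs => ?_⟩
      obtain ⟨s1, s2⟩ := NCar_mem_Fx.1 hs
      have e1 : g'⁻¹ * (g⁻¹ * s) = (g * g')⁻¹ * s := by group
      have s3 : g⁻¹ * s ∈ bl.B (m - 2 * k) := bl.mono (by omega) (bl.mul (bl.inv (hF.ball h1)) s1)
      obtain ⟨⟨η₁, d1, d2⟩, η₂, d3, d4⟩ := x2 s (NCar_mem_Fx.2 ⟨bl.mono (by omega) s1, s3⟩)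
      obtain ⟨⟨η₃, d5, d6⟩, η₄, d7, d8⟩ := c3 (g⁻¹ * s)
        (NCar_mem_Fx.2 ⟨s3, e1 ▸ bl.mono (by omega) s2⟩)
      rw [e1] at d6 d8
      have f1 := c2 η₁ d1 _ (bl.mono (Nat.sub_le _ _) s3)
      have f2 := c2 η₂ d3 _ (bl.mono (Nat.sub_le _ _) s3)
      exact ⟨⟨η₃, d5, by omega⟩, η₄, d7, by omega⟩
  · intro i g j σ x y _ h2 h3 h4 h5 h6
    rw [hD, if_pos ⟨by omega, by omega⟩] at h4
    rw [NCar_Kn a _ (by omega)] at h2
    obtain ⟨η₀, -, c2⟩ := NCar_least a hq h2 ⟨y, h3⟩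
    obtain ⟨-, δ, x2⟩ := NCar_mem_Box.1 h4
    refine ⟨-δ, fun s s1 s2 => ?_⟩
    obtain ⟨⟨η₁, d1, d2⟩, η₂, d3, d4⟩ := x2 s (NCar_mem_Fx.2 ⟨s1, s2⟩)
    have s3 := bl.mono (Nat.sub_le _ _) s2
    have f1 := c2 η₁ d1 _ s3
    have f2 := c2 η₂ d3 _ s3
    have f3 := c2 y h3 _ s3
    rw [abs_le]
    push_cast
    omega

end Pool.Agent.MP_f7db47_al.GN
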