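import Pool.Agent.Mg.Ff7db47.Gac65bd
import Pool.Agent.Mg.Ff7db47.G4b3290

/-!
Torsion-free groups with the fibred reduction property.
-/

namespace Pool.Agent.MP_f7db47_al

universe v

theorem qq_fj_tf {R : Type v} [Ring R] (hR : RegularRing R) {G : Type} [Group G] (h : VC.FJ G)
    (hG : ∀ g : G, IsOfFinOrder g → g = 1) : QQ R G := by
  refine h.qq (MonoidHom.id G) fun B ⟨φ, hφ⟩ => ?_
  have hk : ∀ x : B, φ x = 1 → x = 1 := fun x hx => Subtype.ext (hG _ (B.subtype.isOfFinOrder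
    (φ.ker.subtype.isOfFinOrder (isOfFinOrder_of_finite (⟨x, hx⟩ : φ.ker)))))
  have hi := (injective_iff_map_eq_one φ).2 hk
  exact PT.qq_ab (G := B) hR (fun a b => hi (by rw [map_mul, map_mul, mul_comm]))
    fun g hg => Subtype.ext (hG _ (B.subtype.isOfFinOrder hg))

end Pool.Agent.MP_f7db47_al
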