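import Pool.Agent.Mg.Ff7db47.G02d797
import Pool.Agent.Mg.Ff7db47.Gaf0764
import Pool.Agent.Mg.Ff7db47.G74642b
import Pool.Agent.Mg.Ff7db47.Gefc224

section

/-!
Comparison of the filtrations of close vertices.
-/

namespace Pool.Agent.MP_f7db47_al.GN.Ac

open Pl

variable {G : Type} [Group G] {bl : Bl G} {C : ℕ} {P : Pl} {n : ℕ} {a : Ac G bl C P n}
  {q m U t : ℕ} {g : G} {W W' W₁ W₂ : P.S n} {η η₁ η₂ : G → ℤ} {u : P.A n} {δ : ℤ}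

theorem LTest_per (hq : 0 < q) {α β : ℕ} {τ : ℤ} (i c : ℤ) :
    a.psi q W W' η τ α β (i + q * c) = sc c (a.psi q W W' η τ α β i) := by
  simp only [psi, OrderIso.map_iSup]
  refine iSup_congr fun k => iSup_congr fun _ => ?_
  rw [show i + q * c + k - α = i + k - α + q * c by ring, low, low, a.Xf_per hq, cd_add hq,
    map_sup, map_inf, sc_rs, ← sc_add]
  congr 4
  ring

theorem Tr.mono {U' : ℕ} (h : a.Tr U g W₁ W₂ u) (hU : U' ≤ U) : a.Tr U' g W₁ W₂ u :=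
  ⟨h.1, fun s hs => h.2 s (bl.mono hU hs)⟩

theorem Pair.La2 (h : a.Pair q m U t g W₁ W₂ η₁ η₂ u δ) : ac u (La W₂) = a.gen W₁ g :=
  by
  have h1 := h.tr.2 1 (by
    rw [mul_one]
    exact bl.mono (by have := h.t2; have := h.mU; omega) h.gt)
  rwa [gen_one, mul_one] at h1

theorem Pair.La1 (h : a.Pair q m U t g W₁ W₂ η₁ η₂ u δ) : ac u⁻¹ (La W₁) = a.gen W₂ g⁻¹ :=
  by
  have h1 := h.tr.2 g⁻¹ (by
    rw [mul_inv_cancel]
    exact bl.mono (Nat.zero_le _) bl.one)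
  rw [mul_inv_cancel, gen_one] at h1
  rw [← h1, ac_inv_ac]

theorem Pair.abs_le (h : a.Pair q m U t g W₁ W₂ η₁ η₂ u δ) :
    |δ| ≤ (q : ℤ) * (((C + 1) * t : ℕ) : ℤ) :=
  by
  have ht := h.t2
  obtain ⟨-, e1, -⟩ := (a.mem_Kv h.q0).1 h.k1
  obtain ⟨c2, e2, -⟩ := (a.mem_Kv h.q0).1 h.k2
  have h1 := h.hc 1 (bl.mono (Nat.zero_le _) bl.one) (by
    rw [mul_one]
    exact bl.mono (by omega) (bl.inv h.gt))
  have h2 := Clo.bound a h.q0 c2 e2 (k := t) (by omega) (bl.inv h.gt)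
  rw [mul_one, e1] at h1
  have h3 : (t : ℤ) ≤ (q : ℤ) * t :=
    le_mul_of_one_le_left (Int.natCast_nonneg t) (by exact_mod_cast h.q0)
  rw [_root_.abs_le] at h1 h2 ⊢
  push_cast at h2 ⊢
  constructor <;> nlinarith [h1.1, h1.2, h2.1, h2.2]

theorem Pair.X_le1 (h : a.Pair q m U t g W₁ W₂ η₁ η₂ u δ) {m' : ℕ} (hm : m' + 2 * t ≤ m)
    {i i' : ℤ} (hi : i - δ + t ≤ i') :
    ac u (a.Xf q W₂ (bl.B m') η₂ i') ≤ a.Xf q W₁ (bl.B (m' + t)) η₁ i :=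
  by
  have hU := h.mU
  rw [Xf, OrderIso.map_iSup]
  refine iSup_le fun s => ?_
  rw [OrderIso.map_iSup]
  refine iSup_le fun hs => ?_
  have h1 : g * s ∈ bl.B (m' + t) := add_comm t m' ▸ bl.mul h.gt hs
  have h2 := h.hc (g * s) (bl.mono (by omega) h1) (by
    rw [inv_mul_cancel_left]
    exact bl.mono (by omega) hs)
  rw [inv_mul_cancel_left, _root_.abs_le] at h2
  rw [ac_sc, h.tr.2 s (bl.mono (by omega) h1)]
  exact le_iSup₂_of_le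
    (f := fun s (_ : s ∈ bl.B (m' + t)) => sc (cd q (i - η₁ s)) (a.gen W₁ s)) (g * s) h1
    (sc_anti (cd_mono h.q0 (by linarith [h2.1])) _)

theorem Pair.X_le2 (h : a.Pair q m U t g W₁ W₂ η₁ η₂ u δ) {m' : ℕ} (hm : m' + 2 * t ≤ m)
    {i i' : ℤ} (hi : i' ≤ i - δ - t) :
    a.Xf q W₁ (bl.B m') η₁ i ≤ ac u (a.Xf q W₂ (bl.B (m' + t)) η₂ i') :=
  by
  have hU := h.mU
  refine iSup₂_le fun s hs => ?_
  have h1 : g⁻¹ * s ∈ bl.B (m' + t) := add_comm t m' ▸ bl.mul (bl.inv h.gt) hs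
  have h2 := h.hc s (bl.mono (by omega) hs) (bl.mono (by omega) h1)
  rw [_root_.abs_le] at h2
  have h3 := h.tr.2 (g⁻¹ * s) (by
    rw [mul_inv_cancel_left]
    exact bl.mono (by omega) hs)
  rw [mul_inv_cancel_left] at h3
  rw [← h3, ← ac_sc]
  exact (ac u).monotone (le_iSup₂_of_le
    (f := fun s (_ : s ∈ bl.B (m' + t)) => sc (cd q (i' - η₂ s)) (a.gen W₂ s)) (g⁻¹ * s) h1
    (sc_anti (cd_mono h.q0 (by linarith [h2.2])) _))

theorem GP.mono (hq : 0 < q) {α β x x' : ℕ} {Tm Tp : ℤ} (h : a.GP q W η α β Tm Tp x W')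
    (hx : x ≤ x') : a.GP q W η α β Tm Tp x' W' :=
  by
  have h1 : (2 * (C : ℤ) + 2) * x ≤ (2 * (C : ℤ) + 2) * x' :=
    mul_le_mul_of_nonneg_left (by exact_mod_cast hx) (by positivity)
  exact Gap.mono h
    (a.Xf_mono hq W (fun s hs => bl.mono (by omega) hs) fun _ _ => le_rfl)
    (a.Xf_mono hq W (fun s hs => bl.mono (by omega) hs) fun _ _ => le_rfl)
    (by linarith) (by linarith)

theorem Pair.gp_tr (h : a.Pair q m U t g W₁ W₂ η₁ η₂ u δ) {α β x : ℕ} {Tm Tp : ℤ}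
    (hα : α + x + 2 * t ≤ m) (hβ : β + t ≤ m) (hx : x + t ≤ β)
    (hg : a.GP q W₂ η₂ α β Tm Tp x W') : a.GP q W₁ η₁ α β Tm Tp (x + t) (im u W') :=
  by
  obtain ⟨g1, g2, g3⟩ := hg
  have hd := h.abs_le
  rw [_root_.abs_le] at hd
  push_cast at hd
  have h3 : (t : ℤ) ≤ (q : ℤ) * t :=
    le_mul_of_one_le_left (Int.natCast_nonneg t) (by exact_mod_cast h.q0)
  have x1 := h.X_le1 (m' := α + x) hα (i := 0 + q * -((C + 2 : ℤ) * t)) (i' := 0)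
    (by nlinarith [hd.1])
  have x2 := h.X_le2 (m' := β - (x + t)) (by omega) (i := 0) (i' := 0 + q * -((C + 2 : ℤ) * t))
    (by nlinarith [hd.2])
  rw [a.Xf_per h.q0, add_assoc α] at x1
  rw [a.Xf_per h.q0, show β - (x + t) + t = β - x by omega] at x2
  have l1 : La W₁ ≤ sc (-((C * t : ℕ) : ℤ)) (a.gen W₁ g) := LFine_sc (a.le_gen W₁ h.gt)
  have l2 := a.gen_le_sc W₁ h.gt
  have w1 : im u W' ≤ W₁ := (im_mono u g1).trans_eq h.tr.1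
  have l3 : La (im u W') ≤ sc (-((C * t : ℕ) : ℤ)) (ac u (La W')) := by
    rw [← La_inf g1, map_inf, h.La2, ac_rs, map_inf, sc_rs, ← La_inf w1]
    exact inf_le_inf_right _ l1
  refine ⟨w1, ?_, ?_⟩
  · have y1 := ((ac u).monotone g2).trans x1
    rw [ac_sc] at y1
    have y2 := (sc ((C + 2 : ℤ) * t)).monotone y1
    rw [LGap_sc_sc, ← sc_add] at y2
    refine ((sc _).monotone l3).trans (le_trans (le_of_eq ?_) y2)
    rw [← sc_add]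
    congr 2
    push_cast
    ring
  · have y1 := (sc (-((C + 2 : ℤ) * t))).monotone ((ac u).monotone g3)
    rw [map_inf, map_inf, map_sup, map_sup, ac_sc, ac_sc, ac_rs, sc_rs, h.La2, ← sc_add,
      ← sc_add] at y1
    rw [ac_sc] at x2
    refine le_trans (inf_le_inf x2 ?_) (y1.trans (sup_le_sup_left ?_ _))
    · refine ((sc _).monotone l1).trans ?_
      rw [← sc_add]
      refine sc_anti ?_ _
      have : (0 : ℤ) ≤ (C + 2 : ℤ) * t := by positivity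
      push_cast
      nlinarith
    · refine ((sc _).monotone l2).trans (le_of_eq ?_)
      rw [← sc_add]
      congr 2
      push_cast
      ring

theorem psi_bounds (hq : 0 < q) (hη : η ∈ a.Kv q W m) {α β : ℕ} (hαβ : α ≤ β) {τ : ℤ}
    (hτ : 0 ≤ τ) (i : ℤ) : rs W' ⊔ sc (cd q i) (La W) ≤ a.psi q W W' η τ α β i ∧
      a.psi q W W' η τ α β i ≤ rs W' ⊔ sc (cd q i - τ) (La W) :=
  by
  obtain ⟨-, e1, -⟩ := (a.mem_Kv hq).1 hη
  constructor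
  · refine le_iSup₂_of_le
      (f := fun (m : ℕ) (_ : m ∈ Finset.Icc α β) => a.low q W W' η τ m (i + m - α)) α
      (Finset.mem_Icc.2 ⟨le_rfl, hαβ⟩) ?_
    rw [add_sub_cancel_right]
    refine sup_le_sup_left (le_inf ?_ (sc_anti (by linarith) _)) _
    refine le_iSup₂_of_le
      (f := fun s (_ : s ∈ bl.B α) => sc (cd q (i - η s)) (a.gen W s)) 1
      (bl.mono (Nat.zero_le _) bl.one) ?_
    rw [e1, sub_zero, gen_one]
  · refine iSup₂_le fun k hk => sup_le_sup_left (inf_le_right.trans (sc_anti ?_ _)) _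
    have h1 : (α : ℤ) ≤ k := by exact_mod_cast (Finset.mem_Icc.1 hk).1
    exact sub_le_sub_right (cd_mono hq (by linarith)) _

theorem psi_per (hq : 0 < q) (hη : η ∈ a.Kv q W m) (hW : W' < W) {α β : ℕ} (hαβ : α ≤ β)
    {τ : ℤ} (hτ : 0 ≤ τ) : Per (sc 1) q n (a.psi q W W' η τ α β) :=
  by
  have anti : Antitone (a.psi q W W' η τ α β) := fun i j hij => iSup₂_mono fun k _ =>
    sup_le_sup_left (inf_le_inf (a.Xf_anti hq W _ η (by linarith))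
      (sc_anti (sub_le_sub_right (cd_mono hq (by linarith)) _) _)) _
  have per1 : ∀ i, a.psi q W W' η τ α β (i + q) = sc 1 (a.psi q W W' η τ α β i) := fun i => by
    rw [← LTest_per hq, mul_one]
  refine ⟨anti, per1, fun i he => ?_, fun i => ?_⟩
  · have h1 : ∀ k : ℕ, a.psi q W W' η τ α β (i + q * k) = a.psi q W W' η τ α β i := by
      intro k
      induction k with
      | zero => simp
      | succ k ih =>
        rw [Nat.cast_succ, mul_add, mul_one, ← add_assoc, per1, ih, ← per1, he]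
    obtain ⟨k, rfl⟩ := Int.eq_ofNat_of_zero_le hτ
    have h2 := (psi_bounds (W' := W') hq hη hαβ hτ i).1
    have h3 := (psi_bounds (W' := W') hq hη hαβ hτ (i + q * ((k + 1 : ℕ) : ℤ))).2
    rw [h1, cd_add hq] at h3
    have h4 := (le_sup_right.trans h2).trans h3
    rw [show cd q i + ((k + 1 : ℕ) : ℤ) - k = cd q i + 1 by push_cast; ring, sc_add,
      ← sc_rs (cd q i) W', ← map_sup, OrderIso.le_iff_le] at h4
    exact hW.not_ge (le_of_La_le h4)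
  · refine le_trans ?_ (chain_le (a.psi q W W' η τ α β i)
      (fun j => a.psi q W W' η τ α β (i + q - j)) q
      (fun j j' hj => anti (sub_le_sub_left (by exact_mod_cast hj) _))
      (by simp [per1]) (by simp))
    refine Finset.card_le_card_of_injOn (fun j => (i + q - j - 1).toNat) (fun j hj => ?_)
      fun j hj j' hj' he => ?_
    · obtain ⟨h1, h2⟩ := Finset.mem_filter.1 (Finset.mem_coe.1 hj)
      rw [Finset.mem_Ico] at h1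
      refine Finset.mem_coe.2 (Finset.mem_filter.2 ⟨Finset.mem_range.2 (by
        show (i + q - j - 1).toNat < q
        omega), ?_⟩)
      have e1 : i + q - (((i + q - j - 1).toNat + 1 : ℕ) : ℤ) = j := by omega
      have e2 : i + q - (((i + q - j - 1).toNat : ℕ) : ℤ) = j + 1 := by omega
      simp only [e1, e2]
      exact h2.symm
    · have h1 := Finset.mem_Ico.1 (Finset.mem_filter.1 (Finset.mem_coe.1 hj)).1
      have h2 := Finset.mem_Ico.1 (Finset.mem_filter.1 (Finset.mem_coe.1 hj')).1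
      simp only at he
      omega

end Pool.Agent.MP_f7db47_al.GN.Ac

end

section

/-!
The soft projections of close vertices are interleaved.
-/

namespace Pool.Agent.MP_f7db47_al.GN.Ac

open Pl

variable {G : Type} [Group G] {bl : Bl G} {C : ℕ} {P : Pl} {n : ℕ} {a : Ac G bl C P n}
  {q m U t : ℕ} {g : G} {W₁ W₂ W₁' W₂' : P.S n} {η₁ η₂ : G → ℤ} {u : P.A n} {δ : ℤ}

theorem LLow_le (hq : 0 < q) (hη : η₁ ∈ a.Kv q W₁ m) {α β k : ℕ} {τ : ℤ} (hτ : 0 ≤ τ)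
    (hαβ : α + q * τ ≤ β) (hk : α ≤ k) (i : ℤ) :
    a.low q W₁ W₁' η₁ τ k (i + k - α) ≤ a.psi q W₁ W₁' η₁ τ α β i := by
  by_cases h : k ≤ β
  · exact le_iSup₂_of_le (f := fun (k : ℕ) (_ : k ∈ Finset.Icc α β) =>
      a.low q W₁ W₁' η₁ τ k (i + k - α)) k (Finset.mem_Icc.2 ⟨hk, h⟩) le_rfl
  have h0 : (0 : ℤ) ≤ q * τ := by positivity
  refine le_trans (sup_le_sup_left (inf_le_right.trans (sc_anti ?_ _)) _)
    (psi_bounds hq hη (by omega) hτ i).1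
  have h1 := cd_mono hq (show i + q * τ ≤ i + k - α by omega)
  rw [cd_add hq] at h1
  omega

theorem LLow_main (hq : 0 < q) (hη : η₁ ∈ a.Kv q W₁ m) {α β Rt : ℕ} {Tm Tp τ E A B i j : ℤ}
    {φ ψ : P.A n} (ht : t ≤ Rt) (hτ : τ = Tm + 1) (hτ0 : 0 ≤ τ)
    (hαβ : (α : ℤ) + 5 * Rt + q * τ ≤ β) (hβ : β ≤ m)
    (hg : Gap W₁ (a.Xf q W₁ (bl.B (α + 2 * Rt)) η₁ 0) (a.Xf q W₁ (bl.B (β - 2 * Rt)) η₁ 0)
      Tm Tp W₁') (hAB : 0 ≤ A + B) (hE : τ + (A + B) ≤ E) (hT : τ + (A + B) ≤ Tp)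
    (hφ : ∀ (x : ℤ) (Y : P.L n), Y ≤ sc x (La W₂) →
      ac φ Y ≤ ac ψ Y ⊔ sc (x + E + -A) (La W₁))
    (hψ : ac ψ (La W₂) ≤ sc (-A) (La W₁)) (him : im φ W₂' = W₁')
    (hX : ∀ k, k + 2 * t ≤ m → ∀ x : ℤ,
      ac ψ (a.Xf q W₂ (bl.B k) η₂ (j + x)) ≤ a.Xf q W₁ (bl.B (k + t)) η₁ (i + t + x))
    (hij : i + t ≤ j + q * B) :
    ac φ (a.psi q W₂ W₂' η₂ τ (α + 2 * Rt) (β - 3 * Rt) j) ≤
      a.psi q W₁ W₁' η₁ τ (α + 2 * Rt) (β - 3 * Rt) i := by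
  have h0 : (0 : ℤ) ≤ q * τ := by positivity
  rw [psi]
  simp only [OrderIso.map_iSup]
  refine iSup₂_le fun k hk => ?_
  obtain ⟨k1, k2⟩ := Finset.mem_Icc.1 hk
  refine le_trans ?_ (LLow_le hq hη hτ0 (k := k + t) (by omega) (by omega) i)
  have h1 := hX k (by omega) (k - (α + 2 * Rt : ℕ))
  rw [← add_sub_assoc, show i + t + (k - (α + 2 * Rt : ℕ)) = i + (k + t : ℕ) - (α + 2 * Rt : ℕ) by
    push_cast; ring] at h1
  have h2 := cd_mono hq (show i + (k + t : ℕ) - (α + 2 * Rt : ℕ) ≤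
    j + k - (α + 2 * Rt : ℕ) + q * B by push_cast; linarith)
  rw [cd_add hq] at h2
  generalize i + (k + t : ℕ) - (α + 2 * Rt : ℕ) = I at h1 h2 ⊢
  generalize j + k - (α + 2 * Rt : ℕ) = J at h1 h2 ⊢
  obtain ⟨c1, c2⟩ := cd_spec hq I
  have h3 : ∀ l, l ≤ k + t →
      sc (cd q I) (a.Xf q W₁ (bl.B l) η₁ 0) ≤ a.Xf q W₁ (bl.B (k + t)) η₁ I := fun l hl => by
    rw [← a.Xf_per hq]
    exact a.Xf_mono hq _ (fun _ hs => bl.mono hl hs) fun _ _ => by linarith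
  have h4 : a.Xf q W₁ (bl.B (k + t)) η₁ I ≤
      sc (cd q I - 1) (a.Xf q W₁ (bl.B (β - 2 * Rt)) η₁ 0) := by
    rw [← a.Xf_per hq]
    exact a.Xf_mono hq _ (fun _ hs => bl.mono (by omega) hs) fun _ _ => by linarith
  rw [low, low, map_sup, ac_rs, him]
  refine sup_le le_sup_left ((hφ _ _ inf_le_right).trans (sup_le ?_ (le_sup_of_le_right
    (le_inf ((sc_le_sc (by omega) (a.La_le_Xf hη)).trans (h3 _ le_rfl))
      (sc_anti (by omega) _)))))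
  have h5 := hg.trunc (h3 _ (by omega)) h4 (y := τ + (A + B)) (by omega) hT
  rw [← hτ] at h5
  refine le_trans ?_ h5
  rw [map_inf, ac_sc]
  refine inf_le_inf h1 (((sc _).monotone hψ).trans ?_)
  rw [← sc_add]
  exact sc_anti (by omega) _

theorem Pair.psi_tr (h : a.Pair q m U t g W₁ W₂ η₁ η₂ u δ) {α β Rt : ℕ} {Tm Tp τ E : ℤ}
    {v : P.A n} (ht : t ≤ Rt) (hτ : τ = Tm + (2 * C + 2) * (2 * Rt) + 1) (hτ0 : 0 ≤ τ)
    (hαβ : (α : ℤ) + 5 * Rt + q * τ ≤ β) (hβ : β ≤ m)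
    (g1 : a.GP q W₁ η₁ α β Tm Tp (2 * Rt) W₁') (g2 : a.GP q W₂ η₂ α β Tm Tp (2 * Rt) W₂')
    (hv : im (v * u) W₂' = W₁')
    (hv2 : ∀ (x : ℤ) (Y : P.L n), Y ≤ sc x (La W₁) →
      ac v Y ≤ Y ⊔ sc (x + E) (La W₁) ∧ ac v⁻¹ Y ≤ Y ⊔ sc (x + E) (La W₁))
    (hE : τ + (2 * C + 2) * Rt ≤ E) (hT : τ + 3 * (2 * C + 2) * Rt ≤ Tp) (i : ℤ) :
    ac (v * u) (a.psi q W₂ W₂' η₂ τ (α + 2 * Rt) (β - 3 * Rt) (i - δ + 2 * t)) ≤
        a.psi q W₁ W₁' η₁ τ (α + 2 * Rt) (β - 3 * Rt) i ∧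
      a.psi q W₁ W₁' η₁ τ (α + 2 * Rt) (β - 3 * Rt) i ≤
        ac (v * u) (a.psi q W₂ W₂' η₂ τ (α + 2 * Rt) (β - 3 * Rt) (i - δ - 2 * t)) := by
  obtain ⟨d1, d2⟩ := _root_.abs_le.1 h.abs_le
  have h1 : ac u (La W₂) ≤ sc (-((C * t : ℕ) : ℤ)) (La W₁) := h.La2 ▸ a.gen_le_sc _ h.gt
  have h2 : ac u⁻¹ (La W₁) ≤ sc (-((C * t : ℕ) : ℤ)) (La W₂) :=
    h.La1 ▸ a.gen_le_sc _ (bl.inv h.gt)
  have h3 : ((C * t : ℕ) : ℤ) + (((C + 1) * t : ℕ) : ℤ) ≤ (2 * C + 2) * Rt := by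
    have : (t : ℤ) ≤ Rt := by exact_mod_cast ht
    push_cast
    nlinarith
  have h0 : (0 : ℤ) ≤ t := by positivity
  have h4 : τ = Tm + (2 * C + 2) * (2 * Rt : ℕ) + 1 := by rw [hτ]; push_cast; ring
  have h5 : τ + (((C * t : ℕ) : ℤ) + (((C + 1) * t : ℕ) : ℤ)) ≤
      Tp - (2 * C + 2) * (2 * Rt : ℕ) := by push_cast at h3 ⊢; linarith
  refine ⟨LLow_main (E := E) h.q0 h.k1 ht h4 hτ0 hαβ hβ g1 (by positivity) (by linarith) h5
    (fun x Y hY => ?_) h1 hv (fun k hk x => h.X_le1 hk (by linarith)) (by linarith), ?_⟩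
  · have h6 := ((ac u).monotone hY).trans_eq (ac_sc _ _ _)
    have h7 := (h6.trans ((sc x).monotone h1)).trans_eq (sc_add _ _ _).symm
    rw [ac_mul, add_right_comm]
    exact (hv2 _ _ h7).1
  rw [← (ac (v * u)⁻¹).le_iff_le, ac_inv_ac]
  refine LLow_main (E := E) h.q0 h.k2 ht h4 hτ0 hαβ hβ g2 (by positivity) (by linarith) h5
    (fun x Y hY => ?_) h2 (by rw [← hv, ← im_mul, inv_mul_cancel, im_one]) (fun k hk x => ?_)
    (by linarith)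
  · rw [mul_inv_rev, ac_mul]
    refine ((ac u⁻¹).monotone (hv2 x Y hY).2).trans ?_
    rw [map_sup, ac_sc, sc_add (x + E)]
    exact sup_le_sup_left ((sc _).monotone h2) _
  · rw [← (ac u).le_iff_le, ac_ac_inv]
    exact h.X_le2 hk (by linarith)

end Pool.Agent.MP_f7db47_al.GN.Ac

end

section

/-!
One stage at one place.
-/

namespace Pool.Agent.MP_f7db47_al.GN.Ac

open Pl

variable {G : Type} [Group G] {bl : Bl G} {C : ℕ} {P : Pl} {n : ℕ} {a : Ac G bl C P n}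
  {p : Par} {U' t τ κ : ℕ} {g : G} {W W₁ W₂ : P.S n} {η η₁ η₂ : G → ℤ} {u : P.A n} {δ : ℤ}

theorem LStage_wit (hp : p.OK n C U') {x : ℕ} (hx : x ≤ p.Rt) (h : ∃ W', a.gp p W η τ x W') :
    a.gp p W η τ p.Rt (a.wit p W η τ) := by
  have h' : ∃ W', a.gp p W η τ p.Rt W' := h.imp fun _ h => GP.mono hp.q0 h hx
  rw [wit, dif_pos h']
  exact h'.choose_spec

theorem LStage_lam (hp : p.OK n C U') (hτ : τ < n) :
    5 * p.Rt ≤ p.lam ∧ (τ + 1) * p.lam = τ * p.lam + p.lam ∧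
      τ * p.lam + p.lam + 2 * p.Rt ≤ p.m := by
  have h1 := hp.lam1 0
  have h2 := hp.m1
  have h3 : (τ + 1) * p.lam ≤ n * p.lam := Nat.mul_le_mul_right _ hτ
  have h4 : (τ + 1) * p.lam = τ * p.lam + p.lam := Nat.succ_mul _ _
  omega

theorem LStage_gen {W W' : P.S n} (h : W' ≤ W) (s : G) : a.gen W s ⊓ rs W' = a.gen W' s := by
  rw [gen, gen, inf_assoc, inf_eq_right.2 (rs_mono h)]

theorem gp_wit (hp : p.OK n C U') (h : 0 < a.dG p W η τ) :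
    a.gp p W η τ p.Rt (a.wit p W η τ) :=
  LStage_wit hp (Nat.sub_le _ _) (dep_spec h)

theorem wit_lt (hp : p.OK n C U') (hτ : τ < n) (hη : η ∈ a.Kv p.q W p.m)
    (hg : a.gp p W η τ p.Rt (a.wit p W η τ)) : a.wit p W η τ < W := by
  obtain ⟨h1, h2, h3⟩ := LStage_lam hp hτ
  refine Gap.lt hg ?_ (a.not_La_le_Xf hp.q0 hη (by omega))
  have h4 : ((2 * p.T (τ + 1) + 6 * (2 * C + 2) * p.Rt + 2 * p.X + 3 + (4 * C + 2) * p.Rt +
      (2 * C + 1) * U' : ℕ) : ℤ) ≤ p.T τ := by exact_mod_cast hp.t2 τ hτ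
  push_cast at h4
  have h5 : (0 : ℤ) ≤ C * p.Rt := by positivity
  have h6 : (0 : ℤ) ≤ C * U' := by positivity
  nlinarith

theorem Psi_per (hp : p.OK n C U') (hτ : τ < n) (hη : η ∈ a.Kv p.q W p.m)
    (hg : a.gp p W η τ p.Rt (a.wit p W η τ)) : Per (sc 1) p.q n (a.Psi p W η τ) := by
  obtain ⟨h1, h2, h3⟩ := LStage_lam hp hτ
  exact psi_per hp.q0 hη (wit_lt hp hτ hη hg) (by omega) (by positivity)

theorem en_spec (hp : p.OK n C U') (hτ : τ < n) (hκ : κ ≤ n) (hη : η ∈ a.Kv p.q W p.m)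
    (hg : a.gp p W η τ p.Rt (a.wit p W η τ)) :
    IsEnum (a.Psi p W η τ) (p.th κ) (a.en p W η τ κ) := by
  have h : ∃ ι, IsEnum (a.Psi p W η τ) (p.th κ) ι :=
    (Psi_per hp hτ hη hg).exists_enum (lt_of_le_of_lt
      (Nat.mul_le_mul_left n (Nat.mul_le_mul_left _ (by omega))) hp.q1)
  rw [en, dif_pos h]
  exact h.choose_spec

theorem stage_cover (hp : p.OK n C U') (hη : η ∈ a.Kv p.q W p.m) :
    ∃ τ < n, ∃ κ ≤ n, a.dG p W η τ = p.Rt ∧ a.dS p W η τ κ = p.Rt ∧ a.wit p W η τ < W := by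
  obtain ⟨τ, hτ, W', hg⟩ := exists_gap (W := W) (fun i => a.Xf p.q W (bl.B (i * p.lam)) η 0)
    (fun i => (p.T i : ℤ))
    (fun i j hij => a.Xf_mono hp.q0 W
      (fun _ hs => bl.mono (Nat.mul_le_mul_right _ hij) hs) fun _ _ => le_rfl)
    (fun i j hij => Int.ofNat_le.2 (hp.anti hij)) (by exact_mod_cast hp.t1) (a.La_le_Xf hη)
    (a.not_La_le_Xf hp.q0 hη (le_trans (Nat.le_add_right _ _) hp.m1))
  have h0 : ∃ W', a.gp p W η τ (p.Rt - p.Rt) W' := ⟨W', by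
    rw [Nat.sub_self, gp, GP]
    simpa using hg⟩
  have h1 := LStage_wit hp (Nat.sub_le _ _) h0
  obtain ⟨κ, hκ⟩ := (Psi_per hp hτ hη h1).cover p.Rt
  exact ⟨τ, hτ, κ, Nat.le_of_lt_succ κ.2, le_antisymm (dep_le _ _) (le_dep h0 le_rfl),
    le_antisymm (dep_le _ _) (le_dep hκ le_rfl), wit_lt hp hτ hη h1⟩

theorem Nn_spec (hp : p.OK n C U') (hτ : τ < n) (hκ : κ ≤ n) (hη : η ∈ a.Kv p.q W p.m)
    (hg : a.gp p W η τ p.Rt (a.wit p W η τ)) {c : ℤ} (hc : |c| ≤ p.X) :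
    sc (p.X + 1) (La W) ≤ a.Nn p W η τ κ c ∧
      a.Nn p W η τ κ c ≤ sc (-((p.X + p.tau C τ : ℕ) : ℤ)) (La W) ∧
      a.Psi p W η τ (a.en p W η τ κ c) = rs (a.wit p W η τ) ⊔ a.Nn p W η τ κ c := by
  obtain ⟨h1, h2, h3⟩ := LStage_lam hp hτ
  obtain ⟨b1, b2⟩ := IsEnum.bound (Psi_per hp hτ hη hg) (en_spec hp hτ hκ hη hg) c
  have hq : (0 : ℤ) ≤ p.q := by positivity
  have c1 := cd_mono hp.q0 (show 0 + (p.q : ℤ) * (-p.X) ≤ a.en p W η τ κ c by nlinarith)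
  have c2 := cd_mono hp.q0 (show a.en p W η τ κ c ≤ 0 + (p.q : ℤ) * (p.X + 1) by nlinarith)
  rw [cd_add hp.q0, cd_zero] at c1 c2
  obtain ⟨e1, e2⟩ := psi_bounds (W' := a.wit p W η τ) hp.q0 hη
    (show τ * p.lam + 2 * p.Rt ≤ (τ + 1) * p.lam - 3 * p.Rt by omega)
    (show (0 : ℤ) ≤ p.tau C τ by positivity) (a.en p W η τ κ c)
  refine ⟨le_inf (((sc_anti (by omega) _).trans le_sup_right).trans e1) (sc_anti (by omega) _),
    inf_le_right, ?_⟩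
  rw [Nn, inf_comm, ← sup_inf_assoc_of_le _ (le_sup_left.trans e1 : _ ≤ a.Psi p W η τ _)]
  exact (inf_eq_right.2 (e2.trans (sup_le_sup_left (sc_anti (by omega) _) _))).symm

theorem Pair.dG_le (hp : p.OK n C U') (hτ : τ < n)
    (h : a.Pair p.q p.m p.U t g W₁ W₂ η₁ η₂ u δ) (ht : t ≤ p.Rt) :
    a.dG p W₂ η₂ τ ≤ a.dG p W₁ η₁ τ + t := by
  obtain ⟨h1, h2, h3⟩ := LStage_lam hp hτ
  refine dep_lip fun x hx hx' ⟨W', hW'⟩ => ⟨im u W', ?_⟩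
  rw [show p.Rt - (x - t) = p.Rt - x + t by omega]
  exact h.gp_tr (by omega) (by omega) (by omega) hW'

theorem Pair.transport (hp : p.OK n C U') (hτ : τ < n)
    (h : a.Pair p.q p.m p.U t g W₁ W₂ η₁ η₂ u δ) (ht : t ≤ p.Rt)
    (g1 : a.gp p W₁ η₁ τ p.Rt (a.wit p W₁ η₁ τ)) (g2 : a.gp p W₂ η₂ τ p.Rt (a.wit p W₂ η₂ τ)) :
    ∃ v : P.A n, a.Tr U' g (a.wit p W₁ η₁ τ) (a.wit p W₂ η₂ τ) (v * u) ∧
      (∀ i, ac (v * u) (a.Psi p W₂ η₂ τ (i - δ + 2 * t)) ≤ a.Psi p W₁ η₁ τ i) ∧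
      (∀ i, a.Psi p W₁ η₁ τ i ≤ ac (v * u) (a.Psi p W₂ η₂ τ (i - δ - 2 * t))) ∧
      ∀ (x : ℤ) (Y : P.L n),
        sc (x + ((p.tau C τ + 2 * p.X + 2 + (4 * C + 2) * p.Rt + U' : ℕ) : ℤ)) (La W₁) ≤ Y →
        Y ≤ sc x (La W₁) → ac v Y = Y := by
  obtain ⟨h1, h2, h3⟩ := LStage_lam hp hτ
  have w1 : a.wit p W₁ η₁ τ ≤ W₁ := g1.1
  have w2 : a.wit p W₂ η₂ τ ≤ W₂ := g2.1
  have k1 := GP.mono hp.q0 g1 (show p.Rt ≤ 2 * p.Rt by omega)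
  have k2 := GP.mono hp.q0 g2 (show p.Rt ≤ 2 * p.Rt by omega)
  have k3 := GP.mono hp.q0 (h.gp_tr (by omega) (by omega) (by omega) g2)
    (show p.Rt + t ≤ 2 * p.Rt by omega)
  have hz : a.Xf p.q W₁ (bl.B (τ * p.lam + 2 * p.Rt)) η₁ 0 ≤
      a.Xf p.q W₁ (bl.B ((τ + 1) * p.lam - 2 * p.Rt)) η₁ 0 :=
    a.Xf_mono hp.q0 W₁ (fun _ hs => bl.mono (by omega) hs) fun _ _ => le_rfl
  have c1 := Gap.close k1 k3 hz
  have c2 := Gap.close k3 k1 hz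
  have h4 : ((2 * p.T (τ + 1) + 6 * (2 * C + 2) * p.Rt + 2 * p.X + 3 + (4 * C + 2) * p.Rt +
      (2 * C + 1) * U' : ℕ) : ℤ) ≤ p.T τ := by exact_mod_cast hp.t2 τ hτ
  have h5 : (0 : ℤ) ≤ C * p.Rt := by positivity
  have h6 : (0 : ℤ) ≤ C * U' := by positivity
  have h7 : (p.tau C τ : ℤ) = p.T (τ + 1) + (2 * C + 2) * (2 * p.Rt) + 1 := by
    rw [Par.tau]
    push_cast
    ring
  have h8 : ((5 * p.Rt + p.q * p.tau C τ : ℕ) : ℤ) ≤ p.lam := by exact_mod_cast hp.lam1 (τ + 1)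
  have h9 : (0 : ℤ) ≤ p.tau C τ := by positivity
  obtain ⟨E, hE, c1, c2⟩ : ∃ E : ℤ,
      (p.tau C τ : ℤ) + 2 * p.X + 2 + (4 * (C * p.Rt) + 2 * p.Rt) + (2 * (C * U') + U') ≤ E ∧
      La (a.wit p W₁ η₁ τ) ≤ rs (im u (a.wit p W₂ η₂ τ)) ⊔ sc E (La W₁) ∧
      La (im u (a.wit p W₂ η₂ τ)) ≤ rs (a.wit p W₁ η₁ τ) ⊔ sc E (La W₁) :=
    ⟨_, by rw [h7]; push_cast at h4 ⊢; linarith, c1, c2⟩
  obtain ⟨v, hv, hv2⟩ := exists_transport (by omega) w1 k3.1 c1 c2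
  rw [← im_mul] at hv
  have fx : ∀ (x y : ℤ) (Y : P.L n), y ≤ x + E → sc y (La W₁) ≤ Y → Y ≤ sc x (La W₁) →
      ac v Y = Y := fun x y Y hy hl hu => by
    obtain ⟨a1, a2⟩ := hv2 x Y hu
    rw [sup_eq_left.2 ((sc_anti hy _).trans hl)] at a1 a2
    exact le_antisymm a1 ((ac_ac_inv v Y).ge.trans ((ac v).monotone a2))
  have key := h.psi_tr (α := τ * p.lam) (β := (τ + 1) * p.lam) ht h7 h9
    (by push_cast at h8 ⊢; linarith) (by omega) k1 k2 hv hv2 (by linarith)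
    (by rw [h7]; push_cast at h4; linarith)
  refine ⟨v, ⟨hv, fun s hs => ?_⟩, fun i => (key i).1, fun i => (key i).2,
    fun x Y => fx x _ Y (by push_cast; linarith)⟩
  rw [← LStage_gen w2, ← LStage_gen w1, map_inf, ac_rs, hv, ac_mul, h.tr.2 s (bl.mono hp.u3 hs),
    fx _ _ _ (by push_cast; linarith) (a.le_gen W₁ hs) (a.gen_le_sc W₁ hs)]

end Pool.Agent.MP_f7db47_al.GN.Ac

end

section

/-!
The new lattices of close vertices agree up to a shift.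
-/

namespace Pool.Agent.MP_f7db47_al.GN.Ac

open Pl

variable {G : Type} [Group G] {bl : Bl G} {C : ℕ} {P : Pl} {n : ℕ} {a : Ac G bl C P n}
  {p : Par} {U' t τ κ : ℕ} {g : G} {W₁ W₂ : P.S n} {η₁ η₂ : G → ℤ} {u : P.A n} {δ : ℤ}

theorem LPair_mod {R A A' M Y : P.L n} (h : R ⊔ A = R ⊔ A') (hA : A ≤ M) (hA' : A' ≤ M)
    (hY : R ⊓ M ≤ Y) : Y ⊔ A = Y ⊔ A' := by
  have key : ∀ {B B' : P.L n}, R ⊔ B = R ⊔ B' → B ≤ M → B' ≤ M → Y ⊔ B' ≤ Y ⊔ B := by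
    intro B B' e hB hB'
    refine sup_le le_sup_left ?_
    have h1 : B' ≤ (B ⊔ R) ⊓ M := le_inf (by rw [sup_comm, e]; exact le_sup_right) hB'
    rw [sup_inf_assoc_of_le _ hB, sup_comm] at h1
    exact h1.trans (sup_le_sup_right hY _)
  exact le_antisymm (key h.symm hA' hA) (key h hA hA')

theorem Pair.stage (hp : p.OK n C U') (hτ : τ < n) (hκ : κ ≤ n)
    (h : a.Pair p.q p.m p.U t g W₁ W₂ η₁ η₂ u δ) (ht : t ≤ p.Rt)
    (g1 : a.gp p W₁ η₁ τ p.Rt (a.wit p W₁ η₁ τ)) (g2 : a.gp p W₂ η₂ τ p.Rt (a.wit p W₂ η₂ τ)) :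
    Module.finrank P.K (a.wit p W₁ η₁ τ) = Module.finrank P.K (a.wit p W₂ η₂ τ) ∧
      a.dS p W₂ η₂ τ κ ≤ a.dS p W₁ η₁ τ κ + t ∧
      (t < a.dS p W₁ η₁ τ κ → ∃ d : ℤ, |d| ≤ ((n * (C + 6) * (t + 1) : ℕ) : ℤ) ∧ ∃ u' : P.A n,
        a.Tr U' g (a.wit p W₁ η₁ τ) (a.wit p W₂ η₂ τ) u' ∧ ∀ c : ℤ, |c| ≤ p.X → |c + d| ≤ p.X →
          ∀ Y : P.L n,
            sc (-((p.X + p.tau C τ : ℕ) : ℤ) - ((C * p.Rt : ℕ) : ℤ)) (La (a.wit p W₁ η₁ τ)) ≤ Y →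
            Y ≤ sc (-((p.X + p.tau C τ : ℕ) : ℤ) - ((C * p.Rt : ℕ) : ℤ) - U')
              (La (a.wit p W₁ η₁ τ)) →
            ac u⁻¹ (Y ⊔ a.Nn p W₁ η₁ τ κ c) = ac u'⁻¹ Y ⊔ a.Nn p W₂ η₂ τ κ (c + d)) := by
  obtain ⟨v, hT, h1, h2, hv⟩ := h.transport hp hτ ht g1 g2
  have P1 := Psi_per hp hτ h.k1 g1
  have P2 := Psi_per hp hτ h.k2 g2
  have hθ : ∀ x, x ≤ p.Rt → 4 * x ≤ p.th κ := fun x hx =>
    (Nat.mul_le_mul_left 4 hx).trans (Nat.le_mul_of_pos_right _ (Nat.succ_pos _))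
  refine ⟨by rw [← hT.1, finrank_im], dep_lip fun x hx hx' =>
    (SelD.tr P1.anti P2.anti (ac (v * u)) h1 h2 hx.le (hθ x hx')).2, fun hd => ?_⟩
  have hs : SelD (a.Psi p W₁ η₁ τ) (p.th κ) t :=
    (dep_spec (Nat.zero_lt_of_lt hd)).mono P1.anti hd.le (hθ _ (dep_le _ _))
  obtain ⟨d, hd1, hd2⟩ := IsEnum.shift P1 P2 (ac (v * u)) h1 h2 hs (hθ t ht)
    ((Nat.mul_le_mul_left 2 ht).trans hp.q2) h.abs_le (en_spec hp hτ hκ h.k1 g1)
    (en_spec hp hτ hκ h.k2 g2)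
  refine ⟨d, hd1.trans ?_, v * u, hT, fun c hc hc' Y hY1 hY2 => ?_⟩
  · have : n * ((C + 1) * t + 5) ≤ n * (C + 6) * (t + 1) := by
      rw [mul_assoc]
      exact Nat.mul_le_mul_left n (by nlinarith)
    exact_mod_cast this
  obtain ⟨a1, a2, a3⟩ := Nn_spec hp hτ hκ h.k1 g1 hc
  obtain ⟨-, b2, b3⟩ := Nn_spec hp hτ hκ h.k2 g2 hc'
  have hw : a.wit p W₁ η₁ τ ≤ W₁ := (wit_lt hp hτ h.k1 g1).le
  have hCt : C * t ≤ C * p.Rt := Nat.mul_le_mul_left C ht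
  have hE : (4 * C + 2) * p.Rt = 4 * (C * p.Rt) + 2 * p.Rt := by ring
  have e1 : ac v (Y ⊔ a.Nn p W₁ η₁ τ κ c) = Y ⊔ a.Nn p W₁ η₁ τ κ c :=
    hv _ _ (((sc_anti (by omega) _).trans a1).trans le_sup_right)
      (sup_le (hY2.trans (sc_le_sc le_rfl (La_mono hw))) (a2.trans (sc_anti (by omega) _)))
  have e2 : ac (v * u) (La W₂) = a.gen W₁ g := by
    rw [ac_mul, h.La2]
    exact hv _ _ ((sc_anti (by omega) _).trans (a.le_gen W₁ h.gt)) (a.gen_le_sc W₁ h.gt)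
  refine (ac (v * u)).injective ?_
  rw [map_sup (ac (v * u)), ac_ac_inv, ac_mul v u (ac u⁻¹ _), ac_ac_inv, e1]
  refine LPair_mod (R := rs (a.wit p W₁ η₁ τ))
    (M := sc (-((p.X + p.tau C τ : ℕ) : ℤ) - ((C * p.Rt : ℕ) : ℤ)) (La W₁)) ?_
    (a2.trans (sc_anti (by omega) _)) ?_ ?_
  · rw [← a3, ← hd2 c, b3, map_sup, ac_rs, hT.1]
  · refine ((ac (v * u)).monotone b2).trans ?_
    rw [ac_sc, e2]
    refine (sc_le_sc le_rfl (a.gen_le_sc W₁ h.gt)).trans ?_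
    rw [← sc_add]
    exact sc_anti (by omega) _
  · refine le_of_eq_of_le ?_ hY1
    rw [← La_inf hw, map_inf, sc_rs, inf_comm]

end Pool.Agent.MP_f7db47_al.GN.Ac

end
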