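import Pool.Agent.Mg.Ff7db47.G0882a1
import Pool.Agent.Mg.Ff7db47.G30508e
import Pool.Agent.Mg.Ff7db47.Ge4601e

section

/-!
Twisted coefficients: part ZWh.
-/

set_option linter.unusedSectionVars false

universe u u' v w

section

namespace Pool.Agent.MP_f7db47_al.TW

open PT

open Matrix

/-- Square matrices of all sizes. -/
structure ZWh_U (R : Type v) [Ring R] (G : Type u) [Group G] [MulSemiringAction G R] : Type (max 1 u v) where
  J : Type
  [fin : Fintype J]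
  [dec : DecidableEq J]
  A : Matrix J J (SkewMonoidAlgebra R G)

attribute [instance] ZWh_U.fin ZWh_U.dec

section

variable {R : Type v} [Ring R] {G : Type u} [Group G] [MulSemiringAction G R]

lemma ZWh_white {J : Type} [Fintype J] [DecidableEq J] {A B : Matrix J J (SkewMonoidAlgebra R G)}
    (h : A * B = 1) (h' : B * A = 1) : T (fromBlocks A 0 0 B) := by
  have h1 := T_mul (T_mul (T_mul (T_upper A) (T_lower (-B))) (T_upper A))
    (T_mul (T_mul (T_upper (-1 : Matrix J J (SkewMonoidAlgebra R G))) (T_lower 1)) (T_upper (-1)))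
  simpa [fromBlocks_multiply, h, h'] using h1

noncomputable instance ZWh_add : Add (ZWh_U R G) :=
  ⟨fun x y => ⟨x.J ⊕ y.J, fromBlocks x.A 0 0 y.A⟩⟩

noncomputable instance ZWh_zero : Zero (ZWh_U R G) := ⟨⟨Empty, 1⟩⟩

lemma ZWh_T_equiv {x y : ZWh_U R G} (e : y.J ≃ x.J) (h : y.A = x.A.submatrix e e) :
    T x.A ↔ T y.A := by
  rw [h]
  exact ⟨T_submatrix e, T_of_submatrix e⟩

lemma ZWh_T_assoc (x y z : ZWh_U R G) : T (x + y + z).A ↔ T (x + (y + z)).A := by
  refine ZWh_T_equiv (Equiv.sumAssoc x.J y.J z.J).symm ?_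
  ext (i | i | i) (j | j | j) <;> rfl

/-- Two matrices are related if the same block sums are trivial. -/
def ZWh_rel (x y : ZWh_U R G) : Prop := ∀ z : ZWh_U R G, T (x + z).A ↔ T (y + z).A

lemma ZWh_rel_equiv {x y : ZWh_U R G} (e : y.J ≃ x.J) (h : y.A = x.A.submatrix e e) :
    ZWh_rel x y := by
  intro z
  refine ZWh_T_equiv (Equiv.sumCongr e (Equiv.refl z.J)) ?_
  ext (i | i) (j | j)
  · exact congrFun (congrFun (congrArg (fun M => fun a b => M a b) h) i) j ▸ rfl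
  all_goals rfl

lemma ZWh_rel_comm (x y : ZWh_U R G) : ZWh_rel (x + y) (y + x) := by
  refine ZWh_rel_equiv (Equiv.sumComm y.J x.J) ?_
  ext (i | i) (j | j) <;> rfl

lemma ZWh_rel_add {x x' : ZWh_U R G} (h : ZWh_rel x x') (y : ZWh_U R G) :
    ZWh_rel (x + y) (x' + y) := fun z =>
  (ZWh_T_assoc x y z).trans ((h (y + z)).trans (ZWh_T_assoc x' y z).symm)

variable (R G) in
/-- The congruence. -/
def ZWh_con : AddCon (ZWh_U R G) where
  r := ZWh_rel
  iseqv := ⟨fun _ _ => Iff.rfl, fun h z => (h z).symm, fun h h' z => (h z).trans (h' z)⟩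
  add' := fun {_ x y z} h h' t =>
    (ZWh_rel_add h y t).trans ((ZWh_rel_comm x y t).trans
      ((ZWh_rel_add h' x t).trans (ZWh_rel_comm z x t)))

lemma ZWh_eq {x y : ZWh_U R G} : (x : (ZWh_con R G).Quotient) = y ↔ ZWh_rel x y :=
  (ZWh_con R G).eq

noncomputable instance ZWh_zero' : Zero (ZWh_con R G).Quotient := ⟨((0 : ZWh_U R G) : _)⟩

lemma ZWh_zero_add (x : ZWh_U R G) : ZWh_rel (0 + x) x := by
  refine ZWh_rel_equiv (Equiv.emptySum Empty x.J).symm ?_
  ext i j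
  rfl

noncomputable instance ZWh_mon : AddCommMonoid (ZWh_con R G).Quotient where
  add_assoc := fun a b c => Quotient.inductionOn₃' a b c fun x y z => ZWh_eq.2 (by
    refine ZWh_rel_equiv (x := x + y + z) (y := x + (y + z)) (Equiv.sumAssoc x.J y.J z.J).symm ?_
    ext (i | i | i) (j | j | j) <;> rfl)
  zero_add := fun a => Quotient.inductionOn' a fun x => ZWh_eq.2 (ZWh_zero_add x)
  add_zero := fun a => Quotient.inductionOn' a fun x =>
    (ZWh_eq.2 (ZWh_rel_comm x 0)).trans (ZWh_eq.2 (ZWh_zero_add x))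
  add_comm := fun a b => Quotient.inductionOn₂' a b fun x y => ZWh_eq.2 (ZWh_rel_comm x y)
  nsmul := nsmulRec

variable {J K : Type} [Fintype J] [DecidableEq J] [Fintype K] [DecidableEq K]

/-- The class of a matrix. -/
noncomputable def ZWh_mk (A : Matrix J J (SkewMonoidAlgebra R G)) : (ZWh_con R G).Quotient :=
  ((⟨J, A⟩ : ZWh_U R G) : _)

lemma ZWh_mk_diag (A : Matrix J J (SkewMonoidAlgebra R G)) (D : Matrix K K (SkewMonoidAlgebra R G)) :
    ZWh_mk (fromBlocks A 0 0 D) = ZWh_mk A + ZWh_mk D := rfl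

lemma ZWh_mk_zero {A : Matrix J J (SkewMonoidAlgebra R G)} : ZWh_mk A = 0 ↔ T A := by
  refine ZWh_eq.trans ⟨fun h => ?_, fun h z => ?_⟩
  · exact T_of_stab ((h 0).2 (T_stab (K := Empty) (T_one (J := Empty))))
  · exact ⟨fun h' => T_stab' (K := Empty) (T_upper_block_right h' h),
      fun h' => T_upper_block 0 h (T_of_stab' (K := Empty) h')⟩

lemma ZWh_mk_mul_T (A : Matrix J J (SkewMonoidAlgebra R G)) {N : Matrix J J (SkewMonoidAlgebra R G)}
    (hN : T N) : ZWh_mk (A * N) = ZWh_mk A := by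
  refine ZWh_eq.2 fun z => ?_
  have h : fromBlocks (A * N) 0 0 z.A = fromBlocks A 0 0 z.A * fromBlocks N 0 0 1 := by
    simp [fromBlocks_multiply]
  change T (fromBlocks (A * N) 0 0 z.A) ↔ T (fromBlocks A 0 0 z.A)
  rw [h]
  exact ⟨T_cancel_right (T_stab hN), fun h' => T_mul h' (T_stab hN)⟩

lemma ZWh_mk_mul (A : Matrix J J (SkewMonoidAlgebra R G)) {B : Matrix J J (SkewMonoidAlgebra R G)}
    (hB : IsUnit B) : ZWh_mk (A * B) = ZWh_mk A + ZWh_mk B := by
  obtain ⟨b, rfl⟩ := hB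
  have h : fromBlocks A 0 0 b.val =
      fromBlocks (A * b.val) 0 0 1 * fromBlocks b⁻¹.val 0 0 b.val := by
    simp [fromBlocks_multiply]
  rw [← ZWh_mk_diag, h, ZWh_mk_mul_T _ (ZWh_white b.inv_mul b.mul_inv), ZWh_mk_diag,
    ZWh_mk_zero.2 T_one, add_zero]

lemma ZWh_mk_reindex (e : K ≃ J) (A : Matrix J J (SkewMonoidAlgebra R G)) :
    ZWh_mk (A.submatrix e e) = ZWh_mk A :=
  (ZWh_eq.2 (ZWh_rel_equiv (x := ⟨J, A⟩) (y := ⟨K, A.submatrix e e⟩) e rfl)).symm

lemma ZWh_isAddUnit {A : Matrix J J (SkewMonoidAlgebra R G)} (hA : IsUnit A) :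
    IsAddUnit (ZWh_mk A) := by
  obtain ⟨a, rfl⟩ := hA
  refine IsAddUnit.of_add_eq_zero (ZWh_mk a⁻¹.val) ?_
  rw [← ZWh_mk_diag]
  exact ZWh_mk_zero.2 (ZWh_white a.mul_inv a.inv_mul)

open Classical in
/-- The class of a matrix in the group. -/
noncomputable def ZWh_cls (A : Matrix J J (SkewMonoidAlgebra R G)) : AddUnits (ZWh_con R G).Quotient :=
  if h : IsAddUnit (ZWh_mk A) then h.addUnit else 0

lemma ZWh_cls_val {A : Matrix J J (SkewMonoidAlgebra R G)} (hA : IsAddUnit (ZWh_mk A)) :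
    (ZWh_cls A).val = ZWh_mk A := by
  rw [ZWh_cls, dif_pos hA, IsAddUnit.addUnit_spec]

end

theorem exists_WhS (R : Type v) [Ring R] (G : Type u) [Group G] [MulSemiringAction G R] :
    ∃ (W : Type (max 1 u v)) (_ : AddCommGroup W), Nonempty (WhS R G W) := by
  refine ⟨AddUnits (ZWh_con R G).Quotient, inferInstance, ⟨⟨fun A => ZWh_cls A, ?_, ?_, ?_, ?_⟩⟩⟩
  · intro J _ _ A hA
    rw [AddUnits.ext_iff, ZWh_cls_val (ZWh_isAddUnit hA), AddUnits.val_zero, ZWh_mk_zero]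
  · intro J _ _ A B hA hB
    rw [AddUnits.ext_iff, AddUnits.val_add, ZWh_cls_val (ZWh_isAddUnit hA),
      ZWh_cls_val (ZWh_isAddUnit hB), ZWh_cls_val (ZWh_isAddUnit (hA.mul hB)), ZWh_mk_mul A hB]
  · intro J K _ _ _ _ A D hA hD
    rw [AddUnits.ext_iff, AddUnits.val_add, ZWh_cls_val (ZWh_isAddUnit hA),
      ZWh_cls_val (ZWh_isAddUnit hD), ZWh_cls_val, ZWh_mk_diag]
    rw [ZWh_mk_diag]
    exact (ZWh_isAddUnit hA).add (ZWh_isAddUnit hD)
  · intro J K _ _ _ _ e A hA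
    rw [AddUnits.ext_iff, ZWh_cls_val (ZWh_isAddUnit hA), ZWh_cls_val, ZWh_mk_reindex]
    rw [ZWh_mk_reindex]
    exact ZWh_isAddUnit hA

end Pool.Agent.MP_f7db47_al.TW

end

end

section

/-!
Twisted coefficients: part ZLat.
-/

set_option linter.unusedSectionVars false

universe u u' v w

section

namespace Pool.Agent.MP_f7db47_al.TW

open PT

variable {R : Type v} [Ring R] {G : Type u} [Group G] [MulSemiringAction G R] {W : Type w} [AddCommGroup W]

open Matrix in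
/-- multiply the coefficients by integer weights -/
noncomputable def ZLat_wt (c : G → ℤ) : SkewMonoidAlgebra R G →+ SkewMonoidAlgebra R G where
  toFun x := SkewMonoidAlgebra.ofCoeff
    (Finsupp.onFinset x.coeff.support (fun g => c g • x.coeff g) fun g hg =>
      Finsupp.mem_support_iff.mpr fun h => hg (by rw [h, smul_zero]))
  map_zero' := by ext; simp
  map_add' x y := by ext g; simp

theorem ZLat_coeff (c : G → ℤ) (x : SkewMonoidAlgebra R G) (g : G) :
    (ZLat_wt c x).coeff g = c g • x.coeff g := rfl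

theorem ZLat_single (c : G → ℤ) (g : G) (r : R) :
    ZLat_wt c (SkewMonoidAlgebra.single g r) = SkewMonoidAlgebra.single g (c g • r) := by
  classical
  ext k
  rw [ZLat_coeff, SkewMonoidAlgebra.coeff_single, SkewMonoidAlgebra.coeff_single, Finsupp.single_apply,
    Finsupp.single_apply]
  split_ifs with h
  · rw [h]
  · rw [smul_zero]

theorem ZLat_wt_mul {κ : Type} [Fintype κ] (a b : κ → G → ℤ) (c : G → ℤ)
    (h : ∀ g k, c (g * k) = ∑ i, a i g * b i k) (x y : SkewMonoidAlgebra R G) :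
    ∑ i, ZLat_wt (a i) x * ZLat_wt (b i) y = ZLat_wt c (x * y) := by
  induction x using Sk.induction_linear with
  | zero => simp
  | add x x' hx hx' => simp only [map_add, add_mul, Finset.sum_add_distrib, hx, hx']
  | single g r =>
    induction y using Sk.induction_linear with
    | zero => simp
    | add y y' hy hy' => simp only [map_add, mul_add, Finset.sum_add_distrib, hy, hy']
    | single k s =>
      simp only [ZLat_single, SkewMonoidAlgebra.single_mul_single, h, Finset.sum_smul]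
      rw [← Sk.singleAddHom_apply, map_sum]
      refine Finset.sum_congr rfl fun i _ => ?_
      rw [Sk.singleAddHom_apply, smul_comm g (b i k) s, smul_mul_smul_comm]

/-- twist of a matrix by a family of integer matrices -/
noncomputable def ZLat_Tw {m m' J K : Type} (φ : G → Matrix m m' ℤ)
    (A : Matrix J K (SkewMonoidAlgebra R G)) : Matrix (J × m) (K × m') (SkewMonoidAlgebra R G) :=
  fun x y => ZLat_wt (fun g => φ g x.2 y.2) (A x.1 y.1)

theorem ZLat_Tw_mul {m m' m'' J : Type} [Fintype m'] [Fintype J] {φ₁ : G → Matrix m m' ℤ}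
    {φ₂ : G → Matrix m' m'' ℤ} {φ : G → Matrix m m'' ℤ} (h : ∀ g k, φ (g * k) = φ₁ g * φ₂ k)
    (A B : Matrix J J (SkewMonoidAlgebra R G)) :
    ZLat_Tw φ₁ A * ZLat_Tw φ₂ B = ZLat_Tw φ (A * B) := by
  ext1 x y
  rw [Matrix.mul_apply, Fintype.sum_prod_type]
  simp only [ZLat_Tw]
  rw [Matrix.mul_apply, map_sum]
  refine Finset.sum_congr rfl fun j _ => ?_
  exact ZLat_wt_mul _ _ _ (fun g k => by rw [h, Matrix.mul_apply]) _ _

theorem ZLat_Tw_one {m J : Type} [DecidableEq m] [DecidableEq J] {φ : G → Matrix m m ℤ}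
    (h : φ 1 = 1) : ZLat_Tw φ (1 : Matrix J J (SkewMonoidAlgebra R G)) = 1 := by
  ext1 ⟨i, a⟩ ⟨j, b⟩
  simp only [ZLat_Tw, Matrix.one_apply, Prod.mk.injEq]
  by_cases hij : i = j
  · rw [if_pos hij, SkewMonoidAlgebra.one_def, ZLat_single, h, Matrix.one_apply]
    by_cases hab : a = b
    · rw [if_pos hab, if_pos ⟨hij, hab⟩, one_smul]
    · rw [if_neg hab, if_neg fun h' => hab h'.2, zero_smul, SkewMonoidAlgebra.single_zero]
  · rw [if_neg hij, if_neg fun h' => hij h'.1, map_zero]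

section

variable {m m' J : Type} [Fintype m] [DecidableEq m] [Fintype m'] [DecidableEq m'] [Fintype J]
  [DecidableEq J] {A : Matrix J J (SkewMonoidAlgebra R G)}

open Matrix

theorem ZLat_Tw_unit {φ : G → Matrix m m ℤ} (h : ZLat_Rep φ) (hu : IsUnit A) :
    IsUnit (ZLat_Tw φ A) := by
  obtain ⟨u, rfl⟩ := hu
  refine ZLat_unit (b := ZLat_Tw φ (↑u⁻¹ : Matrix J J (SkewMonoidAlgebra R G))) ?_ ?_
  · rw [ZLat_Tw_mul h.2, Units.mul_inv, ZLat_Tw_one h.1]
  · rw [ZLat_Tw_mul h.2, Units.inv_mul, ZLat_Tw_one h.1]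

theorem ZLat_cls_tri (D : WhS R G W) {P : Matrix m m (SkewMonoidAlgebra R G)}
    {S : Matrix m' m' (SkewMonoidAlgebra R G)} (Q : Matrix m m' (SkewMonoidAlgebra R G)) (hP : IsUnit P)
    (hS : IsUnit S) : IsUnit (fromBlocks P Q 0 S) ∧
      D.cls (fromBlocks P Q 0 S) = D.cls P + D.cls S := by
  obtain ⟨P', p1, p2⟩ := isUnit_iff_exists.mp hP
  obtain ⟨S', s1, s2⟩ := isUnit_iff_exists.mp hS
  have h1 : IsUnit (fromBlocks (1 : Matrix m m (SkewMonoidAlgebra R G)) (Q * S') 0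
      (1 : Matrix m' m' (SkewMonoidAlgebra R G))) := by
    obtain ⟨B, -, h, h'⟩ := T_unit (T_upper (Q * S'))
    exact ZLat_unit h h'
  have h2 : IsUnit (fromBlocks P 0 0 S) := by
    refine ZLat_unit (b := fromBlocks P' 0 0 S') ?_ ?_
    · simp only [fromBlocks_multiply, Matrix.mul_zero, Matrix.zero_mul, add_zero, zero_add, p1, s1,
        fromBlocks_one]
    · simp only [fromBlocks_multiply, Matrix.mul_zero, Matrix.zero_mul, add_zero, zero_add, p2, s2,
        fromBlocks_one]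
  have e : fromBlocks P Q 0 S = fromBlocks 1 (Q * S') 0 1 * fromBlocks P 0 0 S := by
    simp only [fromBlocks_multiply, Matrix.mul_zero, Matrix.zero_mul, add_zero, zero_add,
      Matrix.one_mul, Matrix.mul_assoc, s2, Matrix.mul_one]
  rw [e]
  refine ⟨h1.mul h2, ?_⟩
  rw [D.mul h1 h2, (D.zero_iff h1).mpr (T_upper _), zero_add, D.diag hP hS]

theorem ZLat_wt_zero (x : SkewMonoidAlgebra R G) : ZLat_wt (fun _ => 0) x = 0 := by
  ext g
  rw [ZLat_coeff, zero_smul]
  rfl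

theorem ZLat_wt_one (x : SkewMonoidAlgebra R G) : ZLat_wt (fun _ => 1) x = x := by
  ext g
  rw [ZLat_coeff, one_smul]

theorem ZLat_cls_block (D : WhS R G W) {a : G → Matrix m m ℤ} (b : G → Matrix m m' ℤ)
    {d : G → Matrix m' m' ℤ} (ha : ZLat_Rep a) (hd : ZLat_Rep d) (hu : IsUnit A) :
    D.cls (ZLat_Tw (fun g => fromBlocks (a g) (b g) 0 (d g)) A) =
      D.cls (ZLat_Tw a A) + D.cls (ZLat_Tw d A) := by
  obtain ⟨h1, h2⟩ := ZLat_cls_tri D (ZLat_Tw b A) (ZLat_Tw_unit ha hu) (ZLat_Tw_unit hd hu)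
  rw [← h2, ← D.reindex (Equiv.prodSumDistrib J m m') h1]
  congr 1
  ext1 ⟨i, x | x⟩ ⟨j, y | y⟩
  · rfl
  · rfl
  · exact ZLat_wt_zero _
  · rfl

theorem ZLat_cls_conj (D : WhS R G W) {a b : G → Matrix m m ℤ} {S S' : Matrix m m ℤ}
    (ha : ZLat_Rep a) (hb : ZLat_Rep b) (h1 : S * S' = 1) (h2 : S' * S = 1)
    (h : ∀ g, S * a g = b g * S) (hu : IsUnit A) :
    D.cls (ZLat_Tw a A) = D.cls (ZLat_Tw b A) := by
  have hs : IsUnit (ZLat_Tw (fun g => S * a g) (1 : Matrix J J (SkewMonoidAlgebra R G))) := by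
    refine ZLat_unit (b := ZLat_Tw (fun g => S' * b g) 1) ?_ ?_
    · rw [ZLat_Tw_mul (φ := b), one_mul, ZLat_Tw_one hb.1]
      intro g k
      rw [h, mul_assoc, ← mul_assoc S, h1, one_mul, hb.2]
    · rw [ZLat_Tw_mul (φ := a), one_mul, ZLat_Tw_one ha.1]
      intro g k
      rw [mul_assoc, ← mul_assoc (b g), ← h, mul_assoc, ← mul_assoc S', h2, one_mul, ha.2]
  have e : ZLat_Tw (fun g => S * a g) (1 : Matrix J J (SkewMonoidAlgebra R G)) * ZLat_Tw a A =
      ZLat_Tw b A * ZLat_Tw (fun g => S * a g) 1 := by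
    rw [ZLat_Tw_mul (φ := fun g => S * a g), ZLat_Tw_mul (φ := fun g => S * a g), one_mul, mul_one]
    · intro g k
      rw [← mul_assoc, ← h, ha.2, mul_assoc]
    · intro g k
      rw [ha.2, mul_assoc]
  have e' := congrArg D.cls e
  rw [D.mul hs (ZLat_Tw_unit ha hu), D.mul (ZLat_Tw_unit hb hu) hs, add_comm] at e'
  exact add_right_cancel e'

theorem ZLat_triv_equiv (D : WhS R G W) (e : m' ≃ m) (hu : IsUnit A) :
    D.cls (ZLat_Tw (fun _ => (1 : Matrix m' m' ℤ)) A) =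
      D.cls (ZLat_Tw (fun _ => (1 : Matrix m m ℤ)) A) := by
  rw [← D.reindex ((Equiv.refl J).prodCongr e) (ZLat_Tw_unit ZLat_rep_one hu)]
  congr 1
  ext1 x y
  simp [ZLat_Tw, Matrix.one_apply]

theorem ZLat_triv_fin (D : WhS R G W) (hu : IsUnit A) (n : ℕ) :
    D.cls (ZLat_Tw (fun _ => (1 : Matrix (Fin n) (Fin n) ℤ)) A) = n • D.cls A := by
  induction n with
  | zero =>
    rw [zero_smul]
    refine (D.zero_iff (ZLat_Tw_unit ZLat_rep_one hu)).mpr ?_
    rw [Subsingleton.elim (ZLat_Tw _ A) 1]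
    exact T_one
  | succ n ih =>
    have h1 := ZLat_cls_block D (m := Fin n) (m' := Fin 1) (fun _ => 0) ZLat_rep_one ZLat_rep_one hu
    rw [fromBlocks_one, ZLat_triv_equiv D finSumFinEquiv hu, ih] at h1
    rw [h1, succ_nsmul, ← D.reindex (Equiv.prodUnique J (Fin 1)) hu]
    congr 2
    ext1 x y
    rw [ZLat_Tw, Subsingleton.elim x.2 y.2, Matrix.one_apply_eq, ZLat_wt_one]
    rfl

theorem ZLat_triv (D : WhS R G W) (hu : IsUnit A) :
    D.cls (ZLat_Tw (fun _ => (1 : Matrix m m ℤ)) A) = Fintype.card m • D.cls A := by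
  rw [ZLat_triv_equiv D (Fintype.equivFin m) hu, ZLat_triv_fin D hu]

theorem ZLat_step (D : WhS R G W) {a : G → Matrix m m ℤ} {b : G → Matrix m' m' ℤ}
    (ha : ZLat_Rep a) (hb : ZLat_Rep b) (E : Matrix m' m ℤ) (δ : G → Matrix m m' ℤ)
    (h1 : ∀ g, E * δ g + 1 = b g) (h2 : ∀ g, δ g * E + 1 = a g) (hu : IsUnit A)
    (h3 : ∀ g k, δ (g * k) = a g * δ k + δ g) (h4 : δ 1 = 0) :
    D.cls (ZLat_Tw a A) - Fintype.card m • D.cls A =
      D.cls (ZLat_Tw b A) - Fintype.card m' • D.cls A := by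
  have r1 : ZLat_Rep fun g => fromBlocks (a g) (δ g) 0 (1 : Matrix m' m' ℤ) :=
    ⟨by simp [ha.1, h4], fun g k => by simp [fromBlocks_multiply, ha.2, h3]⟩
  have r2 : ZLat_Rep fun g => fromBlocks (1 : Matrix m m ℤ) (δ g) 0 (b g) := by
    refine ⟨by simp [hb.1, h4], fun g k => ?_⟩
    have : δ (g * k) = δ k + δ g * b k := by
      rw [h3, ← h1, ← h2, Matrix.add_mul, Matrix.mul_add, Matrix.one_mul, Matrix.mul_one,
        Matrix.mul_assoc]
      abel
    simp [fromBlocks_multiply, hb.2, this]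
  have h := ZLat_cls_conj D (S := fromBlocks 1 0 E 1) (S' := fromBlocks 1 0 (-E) 1) r1 r2
    (by simp [fromBlocks_multiply]) (by simp [fromBlocks_multiply]) (fun g => by
      simp [fromBlocks_multiply, ← h1, ← h2, Matrix.mul_add, Matrix.add_mul, Matrix.mul_assoc,
        add_comm]) hu
  rw [ZLat_cls_block D _ ha ZLat_rep_one hu, ZLat_cls_block D _ ZLat_rep_one hb hu, ZLat_triv D hu,
    ZLat_triv D hu] at h
  rw [sub_eq_sub_iff_add_eq_add, h, add_comm]

theorem ZLat_mod (D : WhS R G W) {M M' : Type} [AddCommGroup M] [AddCommGroup M']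
    (b : Module.Basis m ℤ M) (b' : Module.Basis m' ℤ M') (ρ : Representation ℤ G M)
    (ρ' : Representation ℤ G M') (f : M →ₗ[ℤ] M') (hf : Function.Injective f)
    (he : ∀ g x, f (ρ g x) = ρ' g (f x)) (hr : ∀ g y, ρ' g y - y ∈ LinearMap.range f)
    (hu : IsUnit A) :
    D.cls (ZLat_Tw (fun g => LinearMap.toMatrix b b (ρ g)) A) - Fintype.card m • D.cls A =
      D.cls (ZLat_Tw (fun g => LinearMap.toMatrix b' b' (ρ' g)) A) - Fintype.card m' • D.cls A := by
  have hδ : ∀ g, ∃ δ : M' →ₗ[ℤ] M, ∀ y, f (δ y) = ρ' g y - y := fun g =>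
    ⟨(LinearEquiv.ofInjective f hf).symm.toLinearMap ∘ₗ
      LinearMap.codRestrict _ (ρ' g - LinearMap.id) (hr g), fun y =>
      LinearEquiv.ofInjective_symm_apply f (h := hf) _⟩
  choose δ hδ using hδ
  refine ZLat_step D ⟨by simp, fun g k => by simp only [map_mul, LinearMap.toMatrix_mul]⟩
    ⟨by simp, fun g k => by simp only [map_mul, LinearMap.toMatrix_mul]⟩ (LinearMap.toMatrix b b' f)
    (fun g => LinearMap.toMatrix b' b (δ g)) (fun g => ?_) (fun g => ?_) hu (fun g k => ?_) ?_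
  · rw [← LinearMap.toMatrix_comp, ← LinearMap.toMatrix_id b', ← map_add]
    congr 1
    ext y
    simp [hδ]
  · rw [← LinearMap.toMatrix_comp, ← LinearMap.toMatrix_id b, ← map_add]
    congr 1
    ext x
    apply hf
    simp [hδ, he]
  · rw [← LinearMap.toMatrix_comp, ← map_add]
    congr 1
    ext y
    apply hf
    simp [hδ, he]
  · rw [← map_zero (LinearMap.toMatrix b' b)]
    congr 1
    ext y
    apply hf
    simp [hδ]

end

theorem ZLat_permM {X J : Type} [Fintype X] [DecidableEq X] (σ : G →* Equiv.Perm X)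
    (A : Matrix J J (SkewMonoidAlgebra R G)) :
    ZLat_Tw (fun g => LinearMap.toMatrix (Pi.basisFun ℤ X) (Pi.basisFun ℤ X) (ZLat_pm σ g)) A =
      permM σ A := by
  ext x y g
  rw [ZLat_Tw, permM, ZLat_coeff, coeff_pr, LinearMap.toMatrix_apply, Pi.basisFun_repr,
    ZLat_pm_apply, Pi.basisFun_apply, Function.comp_apply, Pi.single_apply]
  have e : σ g⁻¹ x.2 = y.2 ↔ g ∈ {g | σ g y.2 = x.2} := by
    rw [map_inv, Equiv.Perm.inv_eq_iff_eq]
    exact eq_comm
  by_cases h : σ g⁻¹ x.2 = y.2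
  · rw [if_pos h, if_pos (e.mp h), one_smul]
  · rw [if_neg h, if_neg fun h' => h (e.mpr h'), zero_smul]

theorem cls_perm (D : WhS R G W) {X Y : Type} [Fintype X] [DecidableEq X] [Fintype Y]
    [DecidableEq Y] (σ : G →* Equiv.Perm X) (τ : G →* Equiv.Perm Y)
    (f : (X → ℤ) →ₗ[ℤ] (Y → ℤ)) (hf : Function.Injective f)
    (he : ∀ (g : G) (F : X → ℤ), f (F ∘ σ g) = f F ∘ τ g)
    (n : ℕ) (Kf : ℕ → Submodule ℤ (Y → ℤ)) (h0 : Kf 0 = ⊤) (hanti : ∀ j, Kf (j + 1) ≤ Kf j)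
    (hstep : ∀ (j : ℕ) (g : G) (F : Y → ℤ), F ∈ Kf j → F ∘ τ g - F ∈ Kf (j + 1))
    (hn : Kf n ≤ LinearMap.range f) {J : Type} [Fintype J] [DecidableEq J]
    {A : Matrix J J (SkewMonoidAlgebra R G)} (hu : IsUnit A) :
    D.cls (permM σ A) + Fintype.card Y • D.cls A =
      D.cls (permM τ A) + Fintype.card X • D.cls A := by
  have hinv : ∀ (j : ℕ) (g : G), LinearMap.range f ⊔ Kf j ≤
      (LinearMap.range f ⊔ Kf j).comap (ZLat_pm τ g) := by
    intro j g
    refine sup_le ?_ fun F hF => ?_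
    · rintro _ ⟨F, rfl⟩
      exact Submodule.mem_sup_left ⟨F ∘ σ g⁻¹, he _ _⟩
    · have h1 := (Kf j).add_mem (hanti j (hstep j g⁻¹ F hF)) hF
      rw [sub_add_cancel] at h1
      exact Submodule.mem_sup_right h1
  obtain ⟨kap, hkap⟩ : ∃ kap : ℕ → W, ∀ j, kap j = D.cls (ZLat_Tw (fun g => LinearMap.toMatrix
      (Module.finBasis ℤ ↥(LinearMap.range f ⊔ Kf j)) (Module.finBasis ℤ ↥(LinearMap.range f ⊔ Kf j))
      ((ZLat_pm τ).subrepresentation (LinearMap.range f ⊔ Kf j) (hinv j) g)) A) -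
      Fintype.card (Fin (Module.finrank ℤ ↥(LinearMap.range f ⊔ Kf j))) • D.cls A := ⟨_, fun _ => rfl⟩
  have h1 : ∀ j, kap (j + 1) = kap j := by
    intro j
    rw [hkap, hkap]
    refine ZLat_mod D _ _ _ _ (Submodule.inclusion (sup_le_sup_left (hanti j) _))
      (Submodule.inclusion_injective _) (fun g x => rfl) (fun g y => ?_) hu
    obtain ⟨a, ⟨F, rfl⟩, k, hk, e⟩ := Submodule.mem_sup.mp y.2
    refine ⟨⟨(f (F ∘ σ g⁻¹) - f F) + (k ∘ τ g⁻¹ - k), Submodule.add_mem_sup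
      (Submodule.sub_mem _ ⟨_, rfl⟩ ⟨_, rfl⟩) (hstep j g⁻¹ k hk)⟩, Subtype.ext ?_⟩
    change (f (F ∘ σ g⁻¹) - f F) + (k ∘ τ g⁻¹ - k) = (y : Y → ℤ) ∘ τ g⁻¹ - y
    rw [he, ← e]
    ext z
    simp only [Pi.add_apply, Pi.sub_apply, Function.comp_apply]
    ring
  have h2 : ∀ j, kap j = kap 0 := fun j => by
    induction j with
    | zero => rfl
    | succ j ih => rw [h1, ih]
  have h3 := ZLat_mod D (Pi.basisFun ℤ X) (Module.finBasis ℤ ↥(LinearMap.range f ⊔ Kf n))
    (ZLat_pm σ) ((ZLat_pm τ).subrepresentation (LinearMap.range f ⊔ Kf n) (hinv n))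
    (LinearMap.codRestrict _ f fun x => Submodule.mem_sup_left ⟨x, rfl⟩)
    (fun x y h => hf (congrArg Subtype.val h)) (fun g x => Subtype.ext (he _ _))
    (fun g y => by
      generalize _ - y = z
      obtain ⟨x, hx⟩ := sup_le le_rfl hn z.2
      exact ⟨x, Subtype.ext hx⟩) hu
  have h4 := ZLat_mod D (Module.finBasis ℤ ↥(LinearMap.range f ⊔ Kf 0)) (Pi.basisFun ℤ Y)
    ((ZLat_pm τ).subrepresentation (LinearMap.range f ⊔ Kf 0) (hinv 0)) (ZLat_pm τ)
    (Submodule.subtype _) Subtype.val_injective (fun g x => rfl)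
    (fun g y => ⟨⟨_, Submodule.mem_sup_right (by rw [h0]; trivial)⟩, rfl⟩) hu
  rw [← hkap, ZLat_permM] at h3 h4
  rw [← sub_eq_sub_iff_add_eq_add, h3, h2, h4]

end Pool.Agent.MP_f7db47_al.TW

end

end

section

/-!
Twisted coefficients: part ZCsl.
-/

set_option linter.unusedSectionVars false

universe u u' v w

section

namespace Pool.Agent.MP_f7db47_al.TW

open PT

variable {R : Type v} [Ring R] {G : Type u} [Group G] [MulSemiringAction G R]

section

variable {J : Type} [Fintype J] [DecidableEq J]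

lemma ZCsl_diag (u : J → G) :
    T (Matrix.diagonal fun i => (SkewMonoidAlgebra.single (u i) 1 : SkewMonoidAlgebra R G)) := by
  have := T_idem_diag (R := R) (ε := 1) (one_mul _) (u := u)
    fun i j h => Matrix.one_apply_ne fun e => h (congrArg u e)
  rwa [map_sz_one_one, sub_self, zero_add, one_mul] at this

lemma ZCsl_diag_mul (u w : J → G) (h : ∀ i, u i * w i = 1) :
    (Matrix.diagonal fun i => (SkewMonoidAlgebra.single (u i) 1 : SkewMonoidAlgebra R G)) *
      (Matrix.diagonal fun i => SkewMonoidAlgebra.single (w i) 1) = 1 := by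
  rw [Matrix.diagonal_mul_diagonal, ← Matrix.diagonal_one]
  congr 1; funext i
  rw [SkewMonoidAlgebra.single_mul_single, h, one_mul, smul_one]; rfl

lemma ZCsl_sup {H : Type u} [Group H] [MulSemiringAction H R] (f : H →* G) [Cp R f] (hf : Function.Injective f) {S : Set G}
    {x : SkewMonoidAlgebra R H} (h : Sup S (mapR R f x)) :
    Sup (f ⁻¹' S) x := fun g hg => h (f g) (by
  rw [Sk.mapDomainRingHom_apply, SkewMonoidAlgebra.coeff_mapDomain,
    Finsupp.mapDomain_apply hf]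
  exact hg)

variable (dg : G → ℤ) (hadd : ∀ a b, dg (a * b) = dg a + dg b)

include hadd

lemma ZCsl_cmp {a b c d : Matrix J J (SkewMonoidAlgebra R G)} {s : ℤ} (hs : s ≠ 0)
    (ha : MSup {g | dg g = 0} a) (hb : MSup {g | dg g = s} b) (hc : MSup {g | dg g = 0} c)
    (hd : MSup {g | dg g = -s} d) (h : (a + b) * (c + d) = 1) :
    b * c = 0 ∧ a * d = 0 ∧ a * c + b * d = 1 := by
  have h0 := dg_one dg hadd
  have e1 : b * c = 1 - a * c - b * d - a * d := by rw [← h]; noncomm_ring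
  have e2 : a * d = 1 - a * c - b * d - b * c := by rw [← h]; noncomm_ring
  have k1 : b * c = 0 := by
    refine MSup.eq_zero (S := {g | dg g = s}) (S' := {g | dg g ≠ s}) (hb.mul hc ?_) ?_
      fun g hg hg' => hg' hg
    swap
    · rw [e1]
      refine (((msup_one ?_).sub (ha.mul hc ?_)).sub (hb.mul hd ?_)).sub (ha.mul hd ?_)
      · simp only [Set.mem_ofPred_eq]; omega
      all_goals
        intro x hx y hy
        simp only [Set.mem_ofPred_eq, hadd] at *; omega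
    · intro x hx y hy
      simp only [Set.mem_ofPred_eq, hadd] at *; omega
  have k2 : a * d = 0 := by
    refine MSup.eq_zero (S := {g | dg g = -s}) (S' := {g | dg g ≠ -s}) (ha.mul hd ?_) ?_
      fun g hg hg' => hg' hg
    swap
    · rw [e2]
      refine (((msup_one ?_).sub (ha.mul hc ?_)).sub (hb.mul hd ?_)).sub (hb.mul hc ?_)
      · simp only [Set.mem_ofPred_eq]; omega
      all_goals
        intro x hx y hy
        simp only [Set.mem_ofPred_eq, hadd] at *; omega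
    · intro x hx y hy
      simp only [Set.mem_ofPred_eq, hadd] at *; omega
  refine ⟨k1, k2, ?_⟩
  rw [← h, add_mul, mul_add, mul_add, k1, k2, add_zero, zero_add]

omit hadd [Fintype J] [DecidableEq J] in
lemma ZCsl_parts {A : Matrix J J (SkewMonoidAlgebra R G)} {s : ℤ}
    (hA : MSup {g | dg g = 0 ∨ dg g = s} A) :
    ∃ a b, MSup {g | dg g = 0} a ∧ MSup {g | dg g = s} b ∧ A = a + b :=
  ⟨mpr {g | dg g = 0} A, mpr {g | dg g = 0}ᶜ A, msup_mpr _ _, fun i j g hg =>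
    (hA.mpr i j g hg).resolve_left (msup_mpr _ A i j g hg), (mpr_add_mpr_compl _ A).symm⟩

lemma ZCsl_two (N : Subgroup G) (hN : ∀ g, g ∈ N ↔ dg g = 0) (t : G) (ht : dg t = 1)
    (h1 : G1 R N) (h0 : G0 R N) {A C : Matrix J J (SkewMonoidAlgebra R G)} (hAC : A * C = 1)
    (hCA : C * A = 1) (hA : MSup {g | dg g = 0 ∨ dg g = 1} A)
    (hC : MSup {g | dg g = 0 ∨ dg g = -1} C) : T A := by
  have hu : IsUnit A := ⟨⟨A, C, hAC, hCA⟩, rfl⟩
  obtain ⟨a, b, ha, hb, rfl⟩ := ZCsl_parts dg hA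
  obtain ⟨c, d, hc, hd, rfl⟩ := ZCsl_parts dg hC
  obtain ⟨k1, k2, -⟩ := ZCsl_cmp dg hadd one_ne_zero ha hb hc hd hAC
  obtain ⟨k3, -, k4⟩ := ZCsl_cmp dg hadd (s := -1) (by omega) hc hd ha hb hCA
  have k5 : b * d * b = b := by
    rw [mul_assoc, eq_sub_of_add_eq' k4, mul_sub, mul_one, ← mul_assoc, k1, zero_mul, sub_zero]
  have k6 : (1 - b * d) * a + b * d * b = a + b := by
    rw [k5, sub_mul, one_mul, mul_assoc, k3, mul_zero, sub_zero]
  rw [← k6] at hu ⊢
  refine T_split dg hadd N hN t ht h1 h0 ha hb (hb.mul hd ?_) (by rw [← mul_assoc, k5]) hu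
  intro x hx y hy
  simp only [Set.mem_ofPred_eq, hadd] at *; omega

lemma ZCsl_two' (N : Subgroup G) (hN : ∀ g, g ∈ N ↔ dg g = 0) (hQ : QQ R N) (t : G) {q : ℤ}
    (hq : q ≠ 0) (ht : dg t = q) {A C : Matrix J J (SkewMonoidAlgebra R G)} (hAC : A * C = 1)
    (hCA : C * A = 1) (hA : MSup {g | dg g = 0 ∨ dg g = q} A)
    (hC : MSup {g | dg g = 0 ∨ dg g = -q} C) : T A := by
  let H : Subgroup G :=
    { carrier := {g | q ∣ dg g}
      one_mem' := by simp [dg_one dg hadd]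
      mul_mem' := fun {a b} ha hb => by
        simp only [Set.mem_ofPred_eq, hadd] at *; exact dvd_add ha hb
      inv_mem' := fun {a} ha => by
        simp only [Set.mem_ofPred_eq, dg_inv dg hadd] at *; exact dvd_neg.2 ha }
  have hr : ∀ g, q ∣ dg g → g ∈ Set.range H.subtype := fun g hg => ⟨⟨g, hg⟩, rfl⟩
  obtain ⟨A', rfl⟩ := exists_map_of_msup H.subtype H.subtype_injective (hA.mono fun g hg =>
    hr g (by rcases hg with e | e <;> simp [e]))
  obtain ⟨C', rfl⟩ := exists_map_of_msup H.subtype H.subtype_injective (hC.mono fun g hg =>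
    hr g (by rcases hg with e | e <;> simp [e]))
  have hinj : Function.Injective fun M : Matrix J J (SkewMonoidAlgebra R H) =>
      M.map (mapR R H.subtype) :=
    Matrix.map_injective (mapDomain_inj _ H.subtype_injective)
  have hQ' : QQ R (N.comap H.subtype) := hQ.sub
    ((H.subtype.comp (N.comap H.subtype).subtype).codRestrict N fun x => x.2)
    fun x y hxy => Subtype.ext (Subtype.ext (congrArg (fun z : N => (z : G)) hxy))
  apply T_map
  refine ZCsl_two (fun g : H => dg g / q) (fun a b => ?_) (N.comap H.subtype) (fun g => ?_)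
    ⟨t, by change q ∣ dg t; rw [ht]⟩ ?_ hQ'.g1 hQ'.g0 (C := C') (hinj ?_) (hinj ?_)
    (fun i j => (ZCsl_sup _ H.subtype_injective (hA i j)).mono fun g hg => ?_)
    fun i j => (ZCsl_sup _ H.subtype_injective (hC i j)).mono fun g hg => ?_
  · rw [Subgroup.coe_mul, hadd, Int.add_ediv_of_dvd_left a.2]
  · rw [Subgroup.mem_comap, hN]
    refine ⟨fun e => ?_, fun e => ?_⟩
    · change dg g = 0 at e
      simp [e]
    · change dg g = 0
      rw [← Int.mul_ediv_cancel' g.2, e, mul_zero]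
  · simp only [ht]; exact Int.ediv_self hq
  · simpa [Matrix.map_mul, Matrix.map_one _ (map_zero _) (map_one _)] using hAC
  · simpa [Matrix.map_mul, Matrix.map_one _ (map_zero _) (map_one _)] using hCA
  · change dg g = 0 ∨ dg g = q at hg
    rcases hg with e | e <;> simp [e, hq]
  · change dg g = 0 ∨ dg g = -q at hg
    rcases hg with e | e <;> simp [e, hq]

lemma ZCsl_one (N : Subgroup G) (hN : ∀ g, g ∈ N ↔ dg g = 0) (hQ : QQ R N) (t : G)
    (ht : dg t = 1) (p ε : ℕ) (hε : 2 * ε < p) (θ : J → ZMod p)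
    {A B : Matrix J J (SkewMonoidAlgebra R G)} (hAB : A * B = 1) (hBA : B * A = 1)
    (hA : MSup2 (fun i j => {g | |dg g| ≤ ε ∧ θ i = θ j + (dg g : ZMod p)}) A)
    (hB : MSup2 (fun i j => {g | |dg g| ≤ ε ∧ θ i = θ j + (dg g : ZMod p)}) B) : T A := by
  let m : J → ℕ := fun j => (θ j).val + if (θ j).val < ε then p else 0
  have hp : ∀ n : ℕ, dg (t ^ n) = n := fun n => by rw [dg_pow dg hadd, ht, mul_one]
  have e1 := ZCsl_diag_mul (R := R) (fun i => (t ^ (θ i).val)⁻¹) (fun i => t ^ (θ i).val)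
    fun i => inv_mul_cancel _
  have e2 := ZCsl_diag_mul (R := R) (fun i => t ^ (θ i).val) (fun i => (t ^ (θ i).val)⁻¹)
    fun i => mul_inv_cancel _
  have e3 := ZCsl_diag_mul (R := R) (fun i => (t ^ m i)⁻¹) (fun i => t ^ m i)
    fun i => inv_mul_cancel _
  have e4 := ZCsl_diag_mul (R := R) (fun i => t ^ m i) (fun i => (t ^ m i)⁻¹)
    fun i => mul_inv_cancel _
  refine T_cancel_left (ZCsl_diag fun i => (t ^ (θ i).val)⁻¹)
    (T_cancel_right (ZCsl_diag fun i => t ^ m i) ?_)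
  refine ZCsl_two' dg hadd N hN hQ (t ^ p) (q := p) (by omega) (hp p)
    (C := (Matrix.diagonal fun i => SkewMonoidAlgebra.single (t ^ m i)⁻¹ 1) * B *
      Matrix.diagonal fun i => SkewMonoidAlgebra.single (t ^ (θ i).val) 1) ?_ ?_
    (fun i j => ?_) fun i j => ?_
  · rw [mul_assoc _ B, mul_assoc, ← mul_assoc (Matrix.diagonal _) (Matrix.diagonal _), e4,
      one_mul, mul_assoc, ← mul_assoc A, hAB, one_mul, e1]
  · rw [mul_assoc _ A, mul_assoc, ← mul_assoc (Matrix.diagonal _) (Matrix.diagonal _), e2,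
      one_mul, mul_assoc, ← mul_assoc B, hBA, one_mul, e3]
  · rw [Matrix.mul_diagonal, Matrix.diagonal_mul]
    refine ((sup_single (S := {(t ^ (θ i).val)⁻¹}) rfl 1).mul
      (U := {g | dg g + m j = 0 ∨ dg g + m j = p}) (hA i j) ?_).mul
      (sup_single (S := {t ^ m j}) rfl 1) ?_
    · rintro _ rfl g ⟨h1, h2⟩
      have := ZCsl_tri hε h1 h2
      simp only [Set.mem_ofPred_eq, hadd, dg_inv dg hadd, hp, m]
      split_ifs <;> omega
    · rintro g hg _ rfl
      simpa only [Set.mem_ofPred_eq, hadd, hp] using hg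
  · rw [Matrix.mul_diagonal, Matrix.diagonal_mul]
    refine ((sup_single (S := {(t ^ m i)⁻¹}) rfl 1).mul
      (U := {g | dg g + (θ j).val = 0 ∨ dg g + (θ j).val = -p}) (hB i j) ?_).mul
      (sup_single (S := {t ^ (θ j).val}) rfl 1) ?_
    · rintro _ rfl g ⟨h1, h2⟩
      have := ZCsl_tri hε h1 h2
      simp only [Set.mem_ofPred_eq, hadd, dg_inv dg hadd, hp, m]
      split_ifs <;> omega
    · rintro g hg _ rfl
      simpa only [Set.mem_ofPred_eq, hadd, hp] using hg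

end

theorem T_ctrl (dg : G → ℤ) (hadd : ∀ a b, dg (a * b) = dg a + dg b) (N : Subgroup G)
    (hN : ∀ g, g ∈ N ↔ dg g = 0) (hQ : QQ R N) (p ε : ℕ) (hp : p.Prime) (hε : 2 * ε < p)
    {J : Type} [Fintype J] [DecidableEq J] (θ : J → ZMod p)
    {A B : Matrix J J (SkewMonoidAlgebra R G)} (hAB : A * B = 1) (hBA : B * A = 1)
    (hA : MSup2 (fun i j => {g | |dg g| ≤ ε ∧ θ i = θ j + (dg g : ZMod p)}) A)
    (hB : MSup2 (fun i j => {g | |dg g| ≤ ε ∧ θ i = θ j + (dg g : ZMod p)}) B) : T A := by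
  let I : AddSubgroup ℤ :=
    { carrier := Set.range dg
      zero_mem' := ⟨1, dg_one dg hadd⟩
      add_mem' := by rintro _ _ ⟨a, rfl⟩ ⟨b, rfl⟩; exact ⟨a * b, hadd a b⟩
      neg_mem' := by rintro _ ⟨a, rfl⟩; exact ⟨a⁻¹, dg_inv dg hadd a⟩ }
  obtain ⟨d, hd⟩ := Int.subgroup_cyclic I
  have h1 : ∀ g, d ∣ dg g := fun g => by
    have : dg g ∈ I := ⟨g, rfl⟩
    rw [hd, AddSubgroup.mem_closure_singleton] at this
    obtain ⟨k, hk⟩ := this
    exact ⟨k, by rw [← hk, smul_eq_mul, mul_comm]⟩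
  obtain ⟨t, ht⟩ : d ∈ I := hd ▸ AddSubgroup.mem_closure_singleton_self d
  by_cases h : d ≠ 0 ∧ |d| ≤ ε
  · obtain ⟨h0, h2⟩ := h
    have : Fact p.Prime := ⟨hp⟩
    have hdiv : ∀ g, d * (dg g / d) = dg g := fun g => Int.mul_ediv_cancel' (h1 g)
    have h3 : (d : ZMod p) ≠ 0 := fun e => by
      have := Int.le_of_dvd (abs_pos.2 h0)
        ((dvd_abs _ _).2 ((ZMod.intCast_zmod_eq_zero_iff_dvd d p).1 e))
      omega
    have h4 : ∀ i j, {g | |dg g| ≤ ε ∧ θ i = θ j + (dg g : ZMod p)} ⊆ {g | |dg g / d| ≤ ε ∧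
        (d : ZMod p)⁻¹ * θ i = (d : ZMod p)⁻¹ * θ j + ((dg g / d : ℤ) : ZMod p)} := by
      rintro i j g ⟨a1, a2⟩
      rw [← hdiv g] at a1 a2
      refine ⟨le_trans ?_ a1, ?_⟩
      · rw [abs_mul]
        exact le_mul_of_one_le_left (abs_nonneg _) (Int.one_le_abs h0)
      · rw [a2, Int.cast_mul, mul_add, inv_mul_cancel_left₀ h3]
    refine ZCsl_one (fun g => dg g / d) (fun a b => ?_) N (fun g => ?_) hQ t ?_ p ε hε
      (fun i => (d : ZMod p)⁻¹ * θ i) hAB hBA (fun i j => (hA i j).mono (h4 i j))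
      fun i j => (hB i j).mono (h4 i j)
    · rw [hadd, Int.add_ediv_of_dvd_left (h1 a)]
    · rw [hN]
      refine ⟨fun e => by simp [e], fun e => ?_⟩
      rw [← hdiv g, e, mul_zero]
    · simp only [ht]; exact Int.ediv_self h0
  · refine T_of_isUnit_msup N hQ.g1 (fun i j => (hA i j).mono fun g hg => (hN g).2 ?_)
      ⟨⟨A, B, hAB, hBA⟩, rfl⟩
    by_contra hc
    refine h ⟨fun e => hc (zero_dvd_iff.1 (e ▸ h1 g)), le_trans ?_ hg.1⟩
    exact Int.le_of_dvd (abs_pos.2 hc) ((abs_dvd_abs _ _).2 (h1 g))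

/-- Several circles. -/
theorem T_ctrl' {Y : Type} (dg : Y → G → ℤ) (hadd : ∀ y a b, dg y (a * b) = dg y a + dg y b)
    (N : Y → Subgroup G) (hN : ∀ y g, g ∈ N y ↔ dg y g = 0) (hQ : ∀ y, QQ R (N y)) (p ε : ℕ)
    (hp : p.Prime) (hε : 2 * ε < p) {J : Type} [Fintype J] [DecidableEq J] (c : J → Y)
    (θ : J → ZMod p) {A B : Matrix J J (SkewMonoidAlgebra R G)} (hAB : A * B = 1) (hBA : B * A = 1)
    (hA : MSup2 (fun i j =>
      {g | c i = c j ∧ |dg (c i) g| ≤ ε ∧ θ i = θ j + (dg (c i) g : ZMod p)}) A)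
    (hB : MSup2 (fun i j =>
      {g | c i = c j ∧ |dg (c i) g| ≤ ε ∧ θ i = θ j + (dg (c i) g : ZMod p)}) B) : T A := by
  have key : ∀ Z : Matrix J J (SkewMonoidAlgebra R G), MSup2 (fun i j =>
      {g | c i = c j ∧ |dg (c i) g| ≤ ε ∧ θ i = θ j + (dg (c i) g : ZMod p)}) Z → ∀ y,
      proj _ c y * Z = Z * proj _ c y ∧
        MSup2 (fun i j => {g | |dg y g| ≤ ε ∧ θ i = θ j + (dg y g : ZMod p)})
          (1 - proj _ c y + proj _ c y * Z) := by
    intro Z hZ y
    have h1 : ∀ i, (1 : G) ∈ {g | |dg y g| ≤ ε ∧ θ i = θ i + (dg y g : ZMod p)} := fun i => by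
      simp [dg_one (dg y) (hadd y)]
    refine ⟨proj_comm c (fun i j h => (hZ i j).eq_zero (hZ i j) fun g hg _ => h hg.1) y,
      ((msup2_one h1).sub (msup2_diagonal fun i => ?_)).add fun i j => ?_⟩
    · split_ifs
      · exact sup_one (h1 i)
      · exact sup_zero _
    · rw [proj_mul_apply]
      split_ifs with h
      · exact (hZ i j).mono fun g hg => h ▸ hg.2
      · exact sup_zero _
  refine (stdTS R G).of_blocks c (fun y => (key A hA y).1) fun y => ?_
  exact T_ctrl (dg y) (hadd y) (N y) (hN y) (hQ y) p ε hp hε θ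
    (ZCsl_inv (proj_mul_self c y) hAB (key A hA y).1)
    (ZCsl_inv (proj_mul_self c y) hBA (key B hB y).1) (key A hA y).2 (key B hB y).2

end Pool.Agent.MP_f7db47_al.TW

end

end

section

/-!
Twisted coefficients: part ZFH.
-/

set_option linter.unusedSectionVars false

universe u u' v w

section

namespace Pool.Agent.MP_f7db47_al.TW

open PT

variable {R : Type v} [Ring R] {G : Type u} [Group G] [MulSemiringAction G R]

lemma ZFH_sup {X J : Type} (σ : G →* Equiv.Perm X) {S : Set G}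
    {A : Matrix J J (SkewMonoidAlgebra R G)} (hA : MSup S A) {S' : J × X → J × X → Set G}
    (h : ∀ (x y : J × X) (g : G), g ∈ S → σ g y.2 = x.2 → g ∈ S' x y) :
    MSup2 S' (permM σ A) := fun x y g hg =>
  h x y g ((hA x.1 y.1).pr g hg) (sup_pr {g | σ g y.2 = x.2} _ g hg)

lemma ZFH_inv {X J : Type} [Fintype X] [DecidableEq X] [Fintype J] [DecidableEq J]
    (σ : G →* Equiv.Perm X) {A B : Matrix J J (SkewMonoidAlgebra R G)} (h : A * B = 1) :
    permM σ A * permM σ B = 1 := by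
  rw [permM_mul, h, permM_one]

lemma ZFH_prime (φ₀ φ₁ : G → ℤ) (h₀ : ∀ a b, φ₀ (a * b) = φ₀ a + φ₀ b)
    (h₁ : ∀ a b, φ₁ (a * b) = φ₁ a + φ₁ b)
    (hQ : ∀ a b : ℤ, (a ≠ 0 ∨ b ≠ 0) → ∀ N : Subgroup G,
      (∀ g, g ∈ N ↔ a * φ₀ g + b * φ₁ g = 0) → QQ R N)
    {W : Type w} [AddCommGroup W] (E : WhS R G W) {J : Type} [Fintype J] [DecidableEq J]
    {A B : Matrix J J (SkewMonoidAlgebra R G)} (hAB : A * B = 1) (hBA : B * A = 1) (D : ℕ)
    (hA : MSup {g | |φ₀ g| ≤ D ∧ |φ₁ g| ≤ D} A) (hB : MSup {g | |φ₀ g| ≤ D ∧ |φ₁ g| ≤ D} B)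
    (p : ℕ) (hp : p.Prime) (hD : 4 * D < Nat.sqrt p) : p • E.cls A = 0 := by
  have : Fact p.Prime := ⟨hp⟩
  have hsq : Nat.sqrt p * Nat.sqrt p ≤ p := Nat.sqrt_le p
  have hsp : Nat.sqrt p ≤ p := Nat.sqrt_le_self p
  set c : G → ZMod p × ZMod p := fun g => ((φ₀ g : ZMod p), (φ₁ g : ZMod p)) with hcdef
  have hc : ∀ a b, c (a * b) = c a + c b := fun a b => by
    simp only [hcdef, h₀, h₁, Int.cast_add, Prod.mk_add_mk]
  have hu : IsUnit A := ⟨⟨A, B, hAB, hBA⟩, rfl⟩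
  obtain ⟨f, n, Kf, hf, he, h0, hanti, hstep, hn⟩ := exists_radon p
  have key := cls_perm E (ZFH_sig c hc) (ZFH_tau c hc) f hf (fun g F => he (c g) F) n Kf h0 hanti
    (fun j g F hF => hstep j (c g) F hF) hn hu
  have hT1 : T (permM (ZFH_sig c hc) A) := by
    have hs : ∀ (x y : J × (ZMod p × ZMod p)) (g : G), g ∈ {g | |φ₀ g| ≤ D ∧ |φ₁ g| ≤ D} →
        ZFH_sig c hc g y.2 = x.2 →
        g ∈ {g | |φ₁ g| ≤ D ∧ x.2.2 = y.2.2 + (φ₁ g : ZMod p)} := by
      intro x y g hg hσ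
      exact ⟨hg.2, (congrArg Prod.snd hσ).symm⟩
    exact T_ctrl φ₁ h₁ (ZFH_ker φ₁ h₁) (fun _ => Iff.rfl)
      (hQ 0 1 (Or.inr one_ne_zero) _ fun g => by
        rw [zero_mul, one_mul, zero_add]
        rfl) p D hp (by omega) (fun x : J × (ZMod p × ZMod p) => x.2.2)
      (ZFH_inv _ hAB) (ZFH_inv _ hBA) (ZFH_sup _ hA hs) (ZFH_sup _ hB hs)
  have hT2 : T (permM (ZFH_tau c hc) A) := by
    choose a b e hab ha hb hlin using exists_thue p
    have hadd : ∀ k x y, a k * φ₀ (x * y) + b k * φ₁ (x * y) =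
        a k * φ₀ x + b k * φ₁ x + (a k * φ₀ y + b k * φ₁ y) := fun k x y => by
      rw [h₀, h₁]
      ring
    have hs : ∀ (x y : J × (Option (ZMod p) × ZMod p)) (g : G),
        g ∈ {g | |φ₀ g| ≤ D ∧ |φ₁ g| ≤ D} → ZFH_tau c hc g y.2 = x.2 →
        g ∈ {g | x.2.1 = y.2.1 ∧
          |a x.2.1 * φ₀ g + b x.2.1 * φ₁ g| ≤ (2 * Nat.sqrt p * D : ℕ) ∧
          e x.2.1 * x.2.2 = e y.2.1 * y.2.2 +
            ((a x.2.1 * φ₀ g + b x.2.1 * φ₁ g : ℤ) : ZMod p)} := by
      intro x y g hg hτ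
      have e1 : y.2.1 = x.2.1 := (congrArg Prod.fst hτ :)
      have e2 : y.2.2 + linF y.2.1 (c g) = x.2.2 := congrArg Prod.snd hτ
      refine ⟨e1.symm, ?_, ?_⟩
      · have t1 : |a x.2.1 * φ₀ g| ≤ Nat.sqrt p * D := by
          rw [abs_mul]
          exact mul_le_mul (ha _) hg.1 (abs_nonneg _) (Nat.cast_nonneg _)
        have t2 : |b x.2.1 * φ₁ g| ≤ Nat.sqrt p * D := by
          rw [abs_mul]
          exact mul_le_mul (hb _) hg.2 (abs_nonneg _) (Nat.cast_nonneg _)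
        have t3 := abs_add_le (a x.2.1 * φ₀ g) (b x.2.1 * φ₁ g)
        push_cast
        linarith
      · rw [← e2, e1, mul_add, hlin]
        push_cast
        rfl
    exact T_ctrl' (fun k g => a k * φ₀ g + b k * φ₁ g) hadd
      (fun k => ZFH_ker (fun g => a k * φ₀ g + b k * φ₁ g) (hadd k)) (fun _ _ => Iff.rfl)
      (fun k => hQ (a k) (b k) (hab k) _ fun _ => Iff.rfl) p (2 * Nat.sqrt p * D) hp
      (by nlinarith) (fun x : J × (Option (ZMod p) × ZMod p) => x.2.1)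
      (fun x => e x.2.1 * x.2.2)
      (ZFH_inv _ hAB) (ZFH_inv _ hBA) (ZFH_sup _ hA hs) (ZFH_sup _ hB hs)
  rw [(E.zero_iff hT1.isUnit).2 hT1, (E.zero_iff hT2.isUnit).2 hT2, zero_add, zero_add,
    Fintype.card_prod, Fintype.card_prod, Fintype.card_option, ZMod.card, add_mul, one_mul,
    add_nsmul] at key
  exact add_eq_left.1 key

theorem g1_FH (φ₀ φ₁ : G → ℤ) (h₀ : ∀ a b, φ₀ (a * b) = φ₀ a + φ₀ b)
    (h₁ : ∀ a b, φ₁ (a * b) = φ₁ a + φ₁ b)
    (hQ : ∀ a b : ℤ, (a ≠ 0 ∨ b ≠ 0) → ∀ N : Subgroup G,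
      (∀ g, g ∈ N ↔ a * φ₀ g + b * φ₁ g = 0) → QQ R N) : G1 R G := by
  classical
  intro J _ _ A B hAB hBA
  obtain ⟨s, hs, -⟩ := exists_finset_msup A
  obtain ⟨t, ht, -⟩ := exists_finset_msup B
  obtain ⟨W, _, ⟨E⟩⟩ := exists_WhS R G
  set D : ℕ := (s ∪ t).sup fun g => (φ₀ g).natAbs + (φ₁ g).natAbs with hD
  have hsub : ((s ∪ t : Finset G) : Set G) ⊆ {g | |φ₀ g| ≤ D ∧ |φ₁ g| ≤ D} := by
    intro g hg
    have h1 : (φ₀ g).natAbs + (φ₁ g).natAbs ≤ D :=
      Finset.le_sup (f := fun g => (φ₀ g).natAbs + (φ₁ g).natAbs) hg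
    refine ⟨?_, ?_⟩ <;> rw [Int.abs_eq_natAbs] <;> omega
  have hA := hs.mono ((Finset.coe_subset.2 Finset.subset_union_left).trans hsub)
  have hB := ht.mono ((Finset.coe_subset.2 Finset.subset_union_right).trans hsub)
  obtain ⟨p, hp1, hp⟩ := Nat.exists_infinite_primes ((4 * D + 1) ^ 2)
  obtain ⟨q, hq1, hq⟩ := Nat.exists_infinite_primes (p + 1)
  have e1 := ZFH_prime φ₀ φ₁ h₀ h₁ hQ E hAB hBA D hA hB p hp (Nat.le_sqrt'.2 hp1)
  have e2 := ZFH_prime φ₀ φ₁ h₀ h₁ hQ E hAB hBA D hA hB q hq (Nat.le_sqrt'.2 (hp1.trans (by omega)))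
  have hco : Nat.gcd p q = 1 := (Nat.coprime_primes hp hq).2 (by omega)
  have hdv := Nat.dvd_gcd (addOrderOf_dvd_of_nsmul_eq_zero e1) (addOrderOf_dvd_of_nsmul_eq_zero e2)
  rw [hco, Nat.dvd_one, AddMonoid.addOrderOf_eq_one_iff] at hdv
  exact (E.zero_iff ⟨⟨A, B, hAB, hBA⟩, rfl⟩).1 hdv

end Pool.Agent.MP_f7db47_al.TW

end

section

namespace Pool.Agent.MP_f7db47_al.TW

open PT

variable {R : Type v} [Ring R]

theorem ZAbq_top {G : Type} [Group G] [MulSemiringAction G R] (h : QQ R (⊤ : Subgroup G)) : QQ R G :=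
  h.sub' (Subgroup.topEquiv (G := G)).symm.toMonoidHom (fun _ _ => rfl) (Subgroup.topEquiv (G := G)).symm.injective

theorem ZAbq_res {G Q Q' : Type} [Group G] [MulSemiringAction G R] [Group Q] [Group Q'] (φ : G →* Q)
    (h : ∀ (H : Subgroup G) (ψ : H →* Multiplicative ℤ),
      (∀ x : H, ψ x = 1 → φ x = 1) → QQ R H) (N : Subgroup G) (φ' : N →* Q')
    (hφ : ∀ x : N, φ' x = 1 → φ x = 1) (H : Subgroup N) (ψ : H →* Multiplicative ℤ)
    (hψ : ∀ x : H, ψ x = 1 → φ' x = 1) : QQ R H := by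
  let e : H ≃* H.map N.subtype := H.equivMapOfInjective N.subtype N.subtype_injective
  refine (h (H.map N.subtype) (ψ.comp e.symm.toMonoidHom) fun x hx => ?_).sub'
    e.toMonoidHom (fun _ _ => rfl) e.injective
  have h1 := hφ _ (hψ (e.symm x) hx)
  have h2 : ((e (e.symm x) : H.map N.subtype) : G) = ((e.symm x : H) : N) := rfl
  rw [← h2, e.apply_symm_apply] at h1
  exact h1

theorem ZAbq_core : ∀ (r : ℕ) (G : Type) [Group G] [MulSemiringAction G R] (φ : G →* Multiplicative (Fin r → ℤ)),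
    (∀ (H : Subgroup G) (ψ : H →* Multiplicative ℤ),
      (∀ x : H, ψ x = 1 → φ x = 1) → QQ R H) → QQ R G
  | 0, G, _, _, φ, h => ZAbq_top (h ⊤ 1 fun _ _ => Subsingleton.elim _ _)
  | 1, G, _, _, φ, h => by
    refine ZAbq_top (h ⊤ (((ZAbq_ev 0).comp φ).comp (Subgroup.subtype _)) fun x hx => ?_)
    refine Multiplicative.toAdd.injective (funext fun i => ?_)
    rw [Subsingleton.elim i 0]
    exact congrArg Multiplicative.toAdd hx
  | r + 2, G, _, _, φ, h => by
    intro P _ hP Δ _ _ f _ hf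
    refine g1_FH (fun δ => (φ (f δ).1).toAdd 0) (fun δ => (φ (f δ).1).toAdd 1)
      (fun a b => by simp) (fun a b => by simp) fun a b hab N hN => ?_
    let N₀ : Subgroup G :=
      { carrier := {g | a * (φ g).toAdd 0 + b * (φ g).toAdd 1 = 0}
        one_mem' := by simp
        mul_mem' := fun {x y} hx hy => by
          simp only [Set.mem_ofPred_eq, map_mul, toAdd_mul, Pi.add_apply] at hx hy ⊢
          linear_combination hx + hy
        inv_mem' := fun {x} hx => by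
          simp only [Set.mem_ofPred_eq, map_inv, toAdd_inv, Pi.neg_apply] at hx ⊢
          linear_combination -hx }
    refine Ab_le hP f hf N₀ ?_ N fun x hx => (hN x).1 hx
    have key : ∀ i : Fin (r + 2), (∀ x : N₀, (∀ k : Fin (r + 1), (φ x).toAdd (i.succAbove k) = 0) →
        (φ x).toAdd i = 0) → QQ R N₀ := by
      intro i hi
      refine ZAbq_core (r + 1) N₀ (((ZAbq_co i.succAbove).comp φ).comp N₀.subtype)
        (ZAbq_res φ h N₀ _ fun x hx => ?_)
      have h1 : ∀ k : Fin (r + 1), (φ x).toAdd (i.succAbove k) = 0 := fun k =>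
        congrFun (congrArg Multiplicative.toAdd hx) k
      refine Multiplicative.toAdd.injective (funext fun j => ?_)
      rcases Fin.eq_self_or_eq_succAbove i j with rfl | ⟨k, rfl⟩
      · exact hi x h1
      · exact h1 k
    by_cases ha : a = 0
    · refine key 1 fun x _ => ?_
      have hx : a * (φ x).toAdd 0 + b * (φ x).toAdd 1 = 0 := x.2
      rw [ha, zero_mul, zero_add] at hx
      exact (mul_eq_zero.1 hx).resolve_left (hab.resolve_left fun h => h ha)
    · refine key 0 fun x h1 => ?_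
      have hx : a * (φ x).toAdd 0 + b * (φ x).toAdd 1 = 0 := x.2
      have h2 : (φ x).toAdd 1 = 0 := h1 0
      rw [h2, mul_zero, add_zero] at hx
      exact (mul_eq_zero.1 hx).resolve_left ha

theorem qq_abq' {G Q : Type} [Group G] [MulSemiringAction G R] [CommGroup Q] (hQ : ∀ q : Q, IsOfFinOrder q → q = 1)
    (φ : G →* Q) (h : ∀ (H : Subgroup G) (ψ : H →* Multiplicative ℤ),
      (∀ x : H, ψ x = 1 → φ x = 1) → QQ R H) : QQ R G := by
  refine qq_loc fun K hK => ?_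
  have : Group.FG K := (Group.fg_iff_subgroup_fg K).2 hK
  let χ : K →* Q := φ.comp K.subtype
  have : Group.FG χ.range := Group.fg_range χ
  obtain ⟨r, e, he⟩ := ZAbq_emb (K := χ.range) fun g hg =>
    Subtype.ext (hQ g (χ.range.subtype.isOfFinOrder hg))
  refine ZAbq_core r K (e.comp χ.rangeRestrict) (ZAbq_res φ h K _ fun x hx => ?_)
  have h1 : χ.rangeRestrict x = 1 := he (hx.trans (map_one e).symm)
  exact congrArg Subtype.val h1

end Pool.Agent.MP_f7db47_al.TW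

end

section

namespace Pool.Agent.MP_f7db47_al.TW

open Function

variable {R : Type v} [Ring R]

/-- Reduction to the extensions by `ℤ` of subgroups of the isolator of the commutator
subgroup. -/
theorem qq_iso {G : Type} [Group G] [MulSemiringAction G R] (H : Subgroup G)
    (h : ∀ (L : Subgroup H) (ψ : L →* Multiplicative ℤ),
      (∀ x : L, ψ x = 1 → ∃ k : ℕ, 0 < k ∧ ((x : H) : G) ^ k ∈ ⁅H, H⁆) → QQ R L) : QQ R H := by
  refine qq_abq' (Q := Abelianization H ⧸ CommGroup.torsion (Abelianization H))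
    (fun q hq => by_contra fun e => isMulTorsionFree_iff_not_isOfFinOrder.1 inferInstance e hq)
    ((QuotientGroup.mk' _).comp Abelianization.of) fun L ψ hψ => h L ψ fun x hx => ?_
  have h1 : IsOfFinOrder (Abelianization.of (x : H)) := (QuotientGroup.eq_one_iff _).1 (hψ x hx)
  obtain ⟨k, hk, h2⟩ := isOfFinOrder_iff_pow_eq_one.1 h1
  refine ⟨k, hk, ?_⟩
  rw [← H.map_subtype_commutator]
  refine ⟨(x : H) ^ k, ?_, rfl⟩
  rw [← Abelianization.ker_of]
  exact (map_pow _ _ _).trans h2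

end Pool.Agent.MP_f7db47_al.TW

end

end
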