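import Pool.Agent.Mg.Ff7db47.G69696e
import Pool.Agent.Mg.Ff7db47.Ga1b68d
import Pool.Agent.Mg.Ff7db47.Ge15caa
import Pool.Agent.Mg.Ff7db47.Ga43823
import Pool.Agent.Mg.Ff7db47.G020748

section

/-!
Twisted coefficients: part FTr.
-/

set_option linter.unusedSectionVars false

universe u u' v w

section

namespace Pool.Agent.MP_f7db47_al.TW

open GF

open GN Matrix

variable {R : Type v} [Ring R]

section Tr

variable {G J V : Type} [Group G] [MulSemiringAction G R] [Fintype J] [DecidableEq J] [LinearOrder V]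
  {r : J → G → J → Prop} {K : J → Finset V} {Adj : J → V → V → Prop}
  {φ : J → G → J → Finset V → (Finset V →₀ ℤ)}
  {H : J → G → J → G → J → Finset V → (Finset V →₀ ℤ)} {a b : Matrix J J (SkewMonoidAlgebra R G)}

lemma FTr2_chain (h0 : ∀ i g j, φ i g j ∅ = Finsupp.single ∅ 1)
    (hφ : ∀ i g j σ, r i g j → Clq (Adj j) (K j) σ → σ.Nonempty →
      Ch (Adj i) (K i) σ.card (φ i g j σ) ∧ bd (φ i g j σ) = lin (φ i g j) (bd1 σ))
    (ha : CMainR r a) :
    CMainB (SkewMonoidAlgebra R G) (Subtype.val : CMainP K Adj → _) (Subtype.val : CMainP K Adj → _)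
      (fun _ => bd1) * CMainT (Subtype.val : CMainP K Adj → _) (Subtype.val : CMainP K Adj → _) a φ =
    CMainT (Subtype.val : CMainP K Adj → _) (Subtype.val : CMainP K Adj → _) a φ *
      CMainB (SkewMonoidAlgebra R G) (Subtype.val : CMainP K Adj → _) (Subtype.val : CMainP K Adj → _)
        (fun _ => bd1) := by
  rw [CMainB_mul_T (CMain_sum_P _), CMainT_mul_B (CMain_sum_P _)]
  refine CMainT_congr ?_
  rintro _ g _ hg x y rfl rfl
  have hr := ha _ _ g hg
  obtain ⟨h1, h2⟩ := hφ _ g _ _ hr (CMain_P y).1 (CMain_P y).2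
  rw [CMain_C_bd _ _ fun σ hσ => (h1 σ hσ).1, CMain_C_bd' _ (CMain_P y).1, h2, h0]
  simp [(CMain_P x).2.ne_empty.symm]

lemma FTr2_aug (h0 : ∀ i g j, φ i g j ∅ = Finsupp.single ∅ 1)
    (hφ : ∀ i g j σ, r i g j → Clq (Adj j) (K j) σ → σ.Nonempty →
      Ch (Adj i) (K i) σ.card (φ i g j σ) ∧ bd (φ i g j σ) = lin (φ i g j) (bd1 σ))
    (ha : CMainR r a) :
    CMainB (SkewMonoidAlgebra R G) (fun j => (j, (∅ : Finset V))) (Subtype.val : CMainP K Adj → _)
      (fun _ => bd1) * CMainT (Subtype.val : CMainP K Adj → _) (Subtype.val : CMainP K Adj → _) a φ =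
    a * CMainB (SkewMonoidAlgebra R G) (fun j => (j, (∅ : Finset V))) (Subtype.val : CMainP K Adj → _)
        (fun _ => bd1) := by
  conv_rhs => rw [← CMainT_base (a := a) φ fun i g j => by simp [h0]]
  rw [CMainB_mul_T (CMain_sum_P _), CMainT_mul_B (CMain_sum_J _)]
  refine CMainT_congr ?_
  rintro _ g _ hg x y rfl rfl
  have hr := ha _ _ g hg
  obtain ⟨h1, h2⟩ := hφ _ g _ _ hr (CMain_P y).1 (CMain_P y).2
  rw [CMain_C_bd _ _ fun σ hσ => (h1 σ hσ).1, h2,
    ← sub_add_cancel (lin _ _) (bd1 y.1.2 ∅ • φ x g y.1.1 ∅), ← CMain_C_bd' _ (CMain_P y).1]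
  simp only [CMainC, Finset.sum_singleton, Finsupp.add_apply, Finsupp.finsetSum_apply,
    add_eq_right]
  refine Finset.sum_eq_zero fun σ hσ => ?_
  obtain ⟨h3, h4⟩ := CMain_mem_S.1 hσ
  rw [Finsupp.smul_apply, CMain_ch_empty (hφ _ g _ σ hr h3 h4).1 h4.card_pos, smul_zero]

lemma FTr2_htpy (h1 : ∀ j σ, φ j 1 j σ = Finsupp.single σ 1)
    (hφ : ∀ i g j σ, r i g j → Clq (Adj j) (K j) σ → σ.Nonempty →
      Ch (Adj i) (K i) σ.card (φ i g j σ) ∧ bd (φ i g j σ) = lin (φ i g j) (bd1 σ))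
    (H0 : ∀ i g j g' k, H i g j g' k ∅ = 0)
    (hH : ∀ i g j g' k σ, r i g j → r j g' k → Clq (Adj k) (K k) σ → σ.Nonempty →
      Ch (Adj i) (K i) (σ.card + 1) (H i g j g' k σ) ∧
      bd (H i g j g' k σ) + lin (H i g j g' k) (bd1 σ) =
        lin (φ i g j) (φ j g' k σ) - φ i (g * g') k σ)
    (ha : CMainR r a) (hb : CMainR r b) (hab : a * b = 1) :
    CMainT (Subtype.val : CMainP K Adj → _) (Subtype.val : CMainP K Adj → _) a φ *
      CMainT (Subtype.val : CMainP K Adj → _) (Subtype.val : CMainP K Adj → _) b φ =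
    1 + CMainB (SkewMonoidAlgebra R G) (Subtype.val : CMainP K Adj → _)
      (Subtype.val : CMainP K Adj → _) (fun _ => bd1) *
      CMainW (Subtype.val : CMainP K Adj → _) (Subtype.val : CMainP K Adj → _) a b H +
      CMainW (Subtype.val : CMainP K Adj → _) (Subtype.val : CMainP K Adj → _) a b H *
      CMainB (SkewMonoidAlgebra R G) (Subtype.val : CMainP K Adj → _) (Subtype.val : CMainP K Adj → _)
        (fun _ => bd1) := by
  have e1 : (1 : Matrix (CMainP K Adj) (CMainP K Adj) (SkewMonoidAlgebra R G)) =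
      CMainT Subtype.val Subtype.val (a * b) φ := by
    rw [hab, CMainT_one, ← CMainB_one Subtype.val_injective]
    exact CMainB_congr fun j x y _ _ => by rw [h1]
  rw [e1, CMainT_mul, CMainT_mul_T (CMain_sum_P _), CMainB_mul_W (CMain_sum_P _),
    CMainW_mul_B (CMain_sum_P _), CMainW_add, CMainW_add]
  refine CMainW_congr ?_
  rintro _ g j g' _ hg hg' x y rfl rfl
  have hr := ha _ _ g hg
  have hr' := hb _ _ g' hg'
  obtain ⟨h2, h3⟩ := hH _ g j g' _ _ hr hr' (CMain_P y).1 (CMain_P y).2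
  have h4 := (hφ _ g' _ _ hr' (CMain_P y).1 (CMain_P y).2).1
  simp only [Pi.add_apply]
  rw [CMain_C _ _ _ fun σ hσ => (h4 σ hσ).1, CMain_C_bd _ _ fun σ hσ => (h2 σ hσ).1,
    CMain_C_bd' _ (CMain_P y).1, H0, CMain_ch_empty h4 (CMain_P y).2.card_pos, add_assoc,
    smul_zero, zero_smul, sub_zero, sub_zero, h3, add_sub_cancel]

end Tr

theorem transfer2 (n : ℕ) : ∃ c : ℕ, 0 < c ∧ ∀ (G : Type) [Group G] [MulSemiringAction G R] (J V Λ : Type) [Fintype J]
    [DecidableEq J] [LinearOrder V] (S₀ : Finset G) (K : Finset V) (Adj : V → V → Prop)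
    (C : G → Finset V → Finset V) (φ : G → Finset V → (Finset V →₀ ℤ))
    (H : G → G → Finset V → (Finset V →₀ ℤ)) (F : GN.FR G Λ) (pt : V → Λ) (κ : ℕ), 1 ∈ S₀ →
    ChD S₀ K Adj C n φ H → (∀ x ∈ K, ∀ y ∈ K, Adj x y → F.rel κ (pt x) 1 (pt y)) →
    (∀ g σ, Clq Adj K σ → ∀ x ∈ C g σ, ∀ y ∈ σ, F.rel κ (pt x) g (pt y)) →
    ∀ a b : Matrix J J (SkewMonoidAlgebra R G), a * b = 1 → b * a = 1 → MSup (S₀ : Set G) a →
    MSup (S₀ : Set G) b →
    ∃ (J' : Type) (_ : Fintype J') (_ : DecidableEq J') (l : J' → Λ)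
      (A B : Matrix J' J' (SkewMonoidAlgebra R G)), (∀ j, ∃ x ∈ K, l j = pt x) ∧ A * B = 1 ∧
      B * A = 1 ∧ Ctl (F.rel (c * κ)) l l A ∧ Ctl (F.rel (c * κ)) l l B ∧ (T A → T a) := by
  obtain ⟨c, hc, ht⟩ := torsion (R := R) n
  refine ⟨c, hc, fun G _ _ J V Λ _ _ _ S₀ K Adj C φ H F pt κ hS hD hA hC a b hab hba ha hb => ?_⟩
  let r : J → G → J → Prop := fun _ g _ => g ∈ S₀
  let K' : J → Finset V := fun _ => K
  let Adj' : J → V → V → Prop := fun _ => Adj
  let φ' : J → G → J → Finset V → (Finset V →₀ ℤ) := fun _ g _ => φ g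
  let H' : J → G → J → G → J → Finset V → (Finset V →₀ ℤ) := fun _ g _ g' _ => H g g'
  replace ha : CMainR r a := fun i j g hg => ha i j g hg
  replace hb : CMainR r b := fun i j g hg => hb i j g hg
  obtain ⟨o, s, ho, hs⟩ := FTr2_contr hD.acyc
  have hφC : ∀ g ∈ S₀, ∀ σ, Clq Adj K σ → σ.Nonempty →
      Ch Adj (C g σ) σ.card (φ g σ) ∧ bd (φ g σ) = lin (φ g) (bd1 σ) := fun g hg σ hσ hne => by
    simpa only [mul_one] using hD.chain g hg 1 hS σ hσ hne
  have h1 : ∀ j σ, φ' j 1 j σ = Finsupp.single σ 1 := fun _ σ => hD.one σ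
  have h0 : ∀ i g j, φ' i g j ∅ = Finsupp.single ∅ 1 := fun _ g _ => hD.emp g
  have hφ : ∀ i g j σ, r i g j → Clq (Adj' j) (K' j) σ → σ.Nonempty →
      Ch (Adj' i) (K' i) σ.card (φ' i g j σ) ∧ bd (φ' i g j σ) = lin (φ' i g j) (bd1 σ) :=
    fun _ g _ σ hg hσ hne =>
      ⟨CExt_ch_mono (hφC g hg σ hσ hne).1 (hD.sub g σ), (hφC g hg σ hσ hne).2⟩
  have H0 : ∀ i g j g' k, H' i g j g' k ∅ = 0 := fun _ g _ g' _ => hD.H0 g g'
  have hH : ∀ i g j g' k σ, r i g j → r j g' k → Clq (Adj' k) (K' k) σ → σ.Nonempty →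
      Ch (Adj' i) (K' i) (σ.card + 1) (H' i g j g' k σ) ∧
      bd (H' i g j g' k σ) + lin (H' i g j g' k) (bd1 σ) =
        lin (φ' i g j) (φ' j g' k σ) - φ' i (g * g') k σ :=
    fun _ g _ g' _ σ hg hg' hσ hne =>
      ⟨CExt_ch_mono (hD.htpy g hg g' hg' σ hσ hne).1 (hD.sub _ σ),
        (hD.htpy g hg g' hg' σ hσ hne).2⟩
  let l : CMainP K' Adj' → Λ := fun x => pt (CMainL x).1.2
  have dT : ∀ a : Matrix J J (SkewMonoidAlgebra R G), CMainR r a →
      Dg (fun x : CMainP K' Adj' => x.1.2.card - 1) 0 (CMainT Subtype.val Subtype.val a φ') :=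
    fun a ha => CMain_dg (CMainZ_T (by
      rintro _ g _ hg x y rfl rfl h
      rw [((hφ x.1.1 g y.1.1 _ (ha _ _ g hg) (CMain_P y).1 (CMain_P y).2).1 _ h).2, add_zero]))
  have dW : ∀ a b : Matrix J J (SkewMonoidAlgebra R G), CMainR r a → CMainR r b →
      Dg (fun x : CMainP K' Adj' => x.1.2.card - 1) 1 (CMainW Subtype.val Subtype.val a b H') :=
    fun a b ha hb => CMain_dg (CMainZ_W (by
      rintro _ g j g' _ hg hg' x y rfl rfl h
      rw [((hH x.1.1 g j g' y.1.1 _ (ha _ _ g hg) (hb _ _ g' hg') (CMain_P y).1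
        (CMain_P y).2).1 _ h).2]
      rfl))
  have cT : ∀ a : Matrix J J (SkewMonoidAlgebra R G), CMainR r a →
      Ctl (F.rel κ) l l (CMainT Subtype.val Subtype.val a φ') :=
    fun a ha => CMain_msup_T (by
      rintro _ g _ hg x y rfl rfl h
      have hr := ha _ _ g hg
      exact hC g y.1.2 (CMain_P y).1 _
        (((hφC g hr _ (CMain_P y).1 (CMain_P y).2).1 _ h).1.1 (CMainL_mem x)) _ (CMainL_mem y))
  have cW : ∀ a b : Matrix J J (SkewMonoidAlgebra R G), CMainR r a → CMainR r b →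
      Ctl (F.rel κ) l l (CMainW Subtype.val Subtype.val a b H') :=
    fun a b ha hb => CMain_msup_W (by
      rintro _ g j g' _ hg hg' x y rfl rfl h
      have hr := ha _ _ g hg
      have hr' := hb _ _ g' hg'
      exact hC (g * g') y.1.2 (CMain_P y).1 _
        (((hD.htpy g hr g' hr' _ (CMain_P y).1 (CMain_P y).2).1 _ h).1.1 (CMainL_mem x)) _
        (CMainL_mem y))
  have dd : ∀ (X : Type) (p : X → J × Finset V),
      CMainB (SkewMonoidAlgebra R G) p (Subtype.val : CMainP K' Adj' → _) (fun _ => bd1) *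
        CMainB (SkewMonoidAlgebra R G) (Subtype.val : CMainP K' Adj' → _)
          (Subtype.val : CMainP K' Adj' → _) (fun _ => bd1) = 0 := fun X p => by
    rw [CMainB_mul_B (CMain_sum_P _), ← CMainB_zero (p := p) (q := Subtype.val)]
    refine CMainB_congr ?_
    rintro _ x y - rfl
    rw [CMain_C_bd' _ (CMain_P y).1, CMain_bd1_empty, smul_zero, sub_zero, ← CMain_bd_single]
    exact congrArg (fun c : Finset V →₀ ℤ => c (p x).2) (bd_bd _)
  obtain ⟨A, B, h⟩ := ht G _ (CMainP K' Adj') J F κ l (fun x => x.1.2.card - 1)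
    (CMainB _ Subtype.val Subtype.val fun _ => bd1) (CMainT Subtype.val Subtype.val a φ')
    (CMainT Subtype.val Subtype.val b φ') (CMainW Subtype.val Subtype.val b a H')
    (CMainW Subtype.val Subtype.val a b H') (CMainB _ Subtype.val Subtype.val fun _ => s) a b
    (CMainB _ Subtype.val (fun j => (j, ∅)) fun _ => s)
    (CMainB _ (fun j => (j, ∅)) Subtype.val fun _ => bd1)
    (fun x => (Nat.sub_le _ _).trans (hD.dim _ (CMain_P x).1))
    (CMain_dg (CMainZ_B fun j x y _ _ h => by have := (CMain_bd1 h).2; omega))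
    (dT a ha) (dT b hb) (dW b a hb ha) (dW a b ha hb)
    (CMain_dg (CMainZ_B (by
      rintro _ x y - rfl h
      rw [((hs _ (CMain_P y).1 (CMain_P y).2).1 _ h).2]
      rfl)))
    (CMainZ_B (Q := fun (x : CMainP K' Adj') (_ : J) => x.1.2.card - 1 = 0) (by
      rintro _ x y - rfl h
      rw [ho.2] at h
      rw [(Finsupp.single_apply_ne_zero.1 h).1, Finset.card_singleton]))
    (CMainZ_B (Q := fun (_ : J) (x : CMainP K' Adj') => x.1.2.card - 1 = 0) fun j x y _ _ h => by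
      rw [← (CMain_bd1 h).2, Finset.card_empty])
    (CMain_msup_B (by
      rintro _ x y e rfl h
      have hx := (CMain_bd1 h).1 (CMainL_mem x)
      change F.rel κ (pt (CMainL x).1.2) 1 (pt (CMainL y).1.2)
      by_cases e' : (CMainL x).1.2 = (CMainL y).1.2
      · rw [e']
        exact F.mono (Nat.zero_le _) (F.refl _)
      · exact hA _ (CMainL x).2 _ (CMainL y).2 ((CMain_P y).1.2 _ hx _ (CMainL_mem y) e')))
    (cT a ha) (cT b hb) (cW b a hb ha) (cW a b ha hb) (dd _ _) (FTr2_chain h0 hφ ha)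
    (FTr2_chain h0 hφ hb) (FTr2_htpy h1 hφ H0 hH hb ha hba)
    (FTr2_htpy h1 hφ H0 hH ha hb hab) hab hba
    (by
      rw [CMainB_mul_B (CMain_sum_P _), ← CMainB_one (p := fun j : J => (j, (∅ : Finset V)))
        fun _ _ e => congrArg Prod.fst e]
      refine CMainB_congr ?_
      rintro _ x y - rfl
      have hcl : ∀ σ, s ∅ σ ≠ 0 → Clq (Adj' y) (K' y) σ := fun σ hσ => by
        rw [ho.2] at hσ
        rw [(Finsupp.single_apply_ne_zero.1 hσ).1]
        exact ⟨Finset.singleton_subset_iff.2 ho.1, by simp⟩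
      rw [CMain_C_bd _ _ hcl, ho.2, CMain_bd_single]
      simp [bd1, Finset.filter_singleton])
    (dd _ _)
    (by
      rw [eq_sub_iff_add_eq, CMainB_mul_B (CMain_sum_P _), CMainB_mul_B (CMain_sum_P _),
        CMainB_mul_B (CMain_sum_J _), CMainB_add, CMainB_add, ← CMainB_one Subtype.val_injective]
      refine CMainB_congr ?_
      rintro _ x y - rfl
      obtain ⟨h2, h3⟩ := hs _ (CMain_P y).1 (CMain_P y).2
      simp only [Pi.add_apply]
      rw [CMain_C_bd _ _ fun σ hσ => (h2 σ hσ).1, CMain_C_bd' _ (CMain_P y).1, ← h3, CMainC,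
        Finset.sum_singleton, add_assoc, sub_add_cancel])
    (FTr2_aug h0 hφ ha) (CMainB_base _) (CMainB_base _) (CMainB_base _) (CMainB_base _)
  exact ⟨_, inferInstance, inferInstance, l, A, B, fun x => ⟨_, (CMainL x).2, rfl⟩, h⟩

end Pool.Agent.MP_f7db47_al.TW

end

section

namespace Pool.Agent.MP_f7db47_al.TW

open GF

open GN Matrix

variable {R : Type v} [Ring R]

theorem transfer3 (n : ℕ) : ∃ c : ℕ, ∀ (G : Type) [Group G] [MulSemiringAction G R] (X F J : Type) [MetricSpace X]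
    [Fintype F] [Fintype J] [DecidableEq J] (D : Set X) (e : X → F → ℝ) (S₀ : Finset G)
    (φ : G → X → X) (H : G → G → ℝ → X → X) (Fr : GN.FR G X) (η : ℝ), IsCompact D →
    D.Nonempty → ContinuousOn e D → Set.InjOn e D → TropC (e '' D) n → 1 ∈ S₀ →
    HAct S₀ D φ H → 0 < η → (∀ x ∈ D, ∀ y ∈ D, dist x y ≤ η → Fr.rel 1 x 1 y) →
    (∀ g ∈ S₀, ∀ g' ∈ S₀, ∀ u ∈ Set.Icc (0 : ℝ) 1, ∀ y ∈ D, Fr.rel 1 (H g g' u y) (g * g') y) →
    ∀ a b : Matrix J J (SkewMonoidAlgebra R G), a * b = 1 → b * a = 1 → MSup (S₀ : Set G) a →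
    MSup (S₀ : Set G) b →
    ∃ (J' : Type) (_ : Fintype J') (_ : DecidableEq J') (l : J' → X)
      (A B : Matrix J' J' (SkewMonoidAlgebra R G)), (∀ j, l j ∈ D) ∧ A * B = 1 ∧ B * A = 1 ∧
      Ctl (Fr.rel c) l l A ∧ Ctl (Fr.rel c) l l B ∧ (T A → T a) := by
  obtain ⟨c, -, hc⟩ := transfer2 (R := R) (n + 1)
  refine ⟨c * 2, ?_⟩
  intro G _ _ X F J _ _ _ _ D e S₀ φ H Fr η hD hne he hinj hT h1 hH hη hr1 hr2 a b hab hba ha hb
  have : Nonempty X := hne.nonempty
  obtain ⟨inv, hinv⟩ : ∃ inv : (F → ℝ) → X, ∀ x ∈ D, inv (e x) = x :=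
    ⟨Function.invFunOn e D, fun x hx => hinj.leftInvOn_invFunOn hx⟩
  have hm : ∀ y ∈ e '' D, inv y ∈ D := by
    rintro _ ⟨x, hx, rfl⟩
    rwa [hinv x hx]
  have hD' : IsCompact (e '' D) := hD.image_of_continuousOn he
  have hci : ContinuousOn inv (e '' D) := by
    refine continuousOn_iff_isClosed.2 fun t ht => ⟨e '' (t ∩ D),
      ((hD.inter_left ht).image_of_continuousOn (he.mono Set.inter_subset_right)).isClosed, ?_⟩
    ext y
    constructor
    · rintro ⟨h, x, hx, rfl⟩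
      rw [Set.mem_preimage, hinv x hx] at h
      exact ⟨⟨x, ⟨h, hx⟩, rfl⟩, x, hx, rfl⟩
    · rintro ⟨⟨x, hx, rfl⟩, h⟩
      exact ⟨by rw [Set.mem_preimage, hinv x hx.2]; exact hx.1, h⟩
  obtain ⟨δ, hδ, hu⟩ :=
    Metric.uniformContinuousOn_iff.1 (hD'.uniformContinuousOn_of_continuous hci) η hη
  have hφ : ∀ g ∈ S₀, ∀ y ∈ D, φ g y ∈ D := fun g hg y hy => by
    have h := hH.maps 1 h1 g hg 0 ⟨le_rfl, zero_le_one⟩ y hy
    rwa [hH.zero 1 h1 g hg y hy, one_mul] at h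
  have hH' : HAct S₀ (e '' D) (fun g y => e (φ g (inv y))) fun g g' u y => e (H g g' u (inv y)) := by
    refine ⟨?_, fun g hg g' hg' u hu y hy => ⟨_, hH.maps g hg g' hg' u hu _ (hm y hy), rfl⟩,
      fun g hg g' hg' => ?_, fun g hg g' hg' y hy => by rw [hH.zero g hg g' hg' _ (hm y hy)],
      fun g hg g' hg' y hy => by
        rw [hH.fin g hg g' hg' _ (hm y hy), hinv _ (hφ g' hg' _ (hm y hy))]⟩
    · rintro _ ⟨x, hx, rfl⟩
      rw [hinv x hx, hH.one x hx]
    · refine he.comp (f := fun p : ℝ × (F → ℝ) => H g g' p.1 (inv p.2)) ?_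
        fun p hp => hH.maps g hg g' hg' _ hp.1 _ (hm _ hp.2)
      exact (hH.cont g hg g' hg').comp (f := fun p : ℝ × (F → ℝ) => (p.1, inv p.2))
        (continuousOn_fst.prodMk (hci.comp continuousOn_snd fun p hp => hp.2))
        fun p hp => ⟨hp.1, hm _ hp.2⟩
  obtain ⟨V, _, K, Adj, C, φ', H', pt, hch, hpt, hadj, hC⟩ :=
    exists_chd hD' (hne.image e) hT h1 hH' (δ / 2) (half_pos hδ)
  have hn : ∀ x ∈ e '' D, ∀ y ∈ e '' D, dist x y ≤ δ / 2 → Fr.rel 1 (inv x) 1 (inv y) :=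
    fun x hx y hy h => hr1 _ (hm x hx) _ (hm y hy) (hu x hx y hy (by linarith)).le
  obtain ⟨J', i1, i2, l, A, B, hl, h⟩ := hc G J V X S₀ K Adj C φ' H' Fr (fun x => inv (pt x)) 2 h1
    hch (fun x hx y hy h => Fr.mono one_le_two (hn _ (hpt x hx) _ (hpt y hy) (hadj x hx y hy h)))
    (fun g σ hσ x hx y hy => by
      obtain ⟨g₁, h₁, g₂, h₂, u, hu', rfl, hd⟩ := hC g σ hσ x hx y hy
      have hy' := hm _ (hpt y (hσ.1 hy))
      have hz := hH.maps g₁ h₁ g₂ h₂ u hu' _ hy'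
      have h := hn _ (hpt x (hch.sub _ _ hx)) _ ⟨_, hz, rfl⟩ hd
      rw [hinv _ hz] at h
      simpa only [one_mul] using Fr.comp h (hr2 g₁ h₁ g₂ h₂ u hu' _ hy')) a b hab hba ha hb
  refine ⟨J', i1, i2, l, A, B, fun j => ?_, h⟩
  obtain ⟨x, hx, hj⟩ := hl j
  rw [hj]
  exact hm _ (hpt x hx)

end Pool.Agent.MP_f7db47_al.TW

end

end

section

/-!
Twisted coefficients: part FMain.
-/

set_option linter.unusedSectionVars false

universe u u' v w

section

namespace Pool.Agent.MP_f7db47_al.TW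

open GF

open Matrix

/-- The statement of the theorem on flow spaces. -/
def FlowStmt (R : Type v) [Ring R] : Prop :=
  ∀ (Γ G : Type) [Group Γ] [Group G] [MulSemiringAction G R] (Fam : Set (Subgroup Γ)), HasPack Γ Fam → ∀ f : G →* Γ,
    (∀ (B : Subgroup Γ) (φ : B →* GN.MZ), (∀ g, φ g = 1 → IsOfFinOrder g) → QQ R (B.comap f)) →
    (∀ B ∈ Fam, QQ R (B.comap f)) → QQ R G

end Pool.Agent.MP_f7db47_al.TW

end

section

namespace Pool.Agent.MP_f7db47_al.TW

open GF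

open GN Matrix

variable {R : Type v} [Ring R]

section

variable {ι : Type} [Finite ι] {h h' : ι → ℕ} {q t k : ℕ}

end

theorem vanish2 [NR R] (h1 : QQ R PUnit.{1}) (N k : ℕ) : ∃ r : ℕ, ∀ (G : Type) [Group G] [MulSemiringAction G R]
    (Λ J ι : Type) [Fintype J] [DecidableEq J] [Finite ι] (S : ι → Spi G Λ) (l : J → Λ),
    (∀ j, {i | 0 < (S i).ht (l j)}.ncard ≤ N) →
    (∀ i j, 0 < (S i).ht (l j) → QQ R ((S i).leg.grp (l j))) → (∀ j, ∃ i, r ≤ (S i).ht (l j)) →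
    ∀ a b : Matrix J J (SkewMonoidAlgebra R G), a * b = 1 → b * a = 1 →
    Ctl (fun x g y => ∀ i, (S i).rel k x g y) l l a →
    Ctl (fun x g y => ∀ i, (S i).rel k x g y) l l b → T a := by
  obtain ⟨r, hr⟩ := vanish h1 N (4 * k)
  refine ⟨N * r + 1, fun G _ _ Λ J ι _ _ _ S l hN hQ hc a b hab hba ha hb => ?_⟩
  refine hr G J (Fin N) (fun q => FVan_S S l q) (by simp) (fun q j hj => ?_) (fun j => ?_) a b
    hab hba (fun x y => (ha x y).mono fun g hg q => FVan_rel hg q)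
    fun x y => (hb x y).mono fun g hg q => FVan_rel hg q
  · have a1 : ¬ FVan_u (fun i => (S i).ht (l j)) q ≤ FVan_u (fun i => (S i).ht (l j)) (q + 1) :=
      not_le.2 (Nat.sub_pos_iff_lt.1 hj)
    rw [FVan_le, not_le] at a1
    obtain ⟨i, hi⟩ := Set.nonempty_of_ncard_ne_zero (Nat.zero_lt_of_lt a1).ne'
    exact AMain_le (fun g hg => hg.2 i hi) (hQ i j (Nat.zero_lt_of_lt hi))
  · obtain ⟨i, hi⟩ := hc j
    exact FVan_cover (hN j) hi

end Pool.Agent.MP_f7db47_al.TW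

end

section

namespace Pool.Agent.MP_f7db47_al.TW

open GF

open GN

variable {R : Type v} [Ring R]

theorem flow_thm [NR R] (h1 : QQ R PUnit.{1}) {Γ G : Type} [Group Γ] [Group G] [MulSemiringAction G R]
    {Fam : Set (Subgroup Γ)} (hP : HasPack Γ Fam) (f : G →* Γ)
    (hc : ∀ (B : Subgroup Γ) (φ : B →* MZ), (∀ g, φ g = 1 → IsOfFinOrder g) →
      QQ R (B.comap f))
    (hF : ∀ B ∈ Fam, QQ R (B.comap f)) : QQ R G := by
  classical
  obtain ⟨S, hS, ⟨Pk⟩⟩ := hP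
  intro P _ hPz Δ _ _ j _ hj J _ _ a b hab hba
  let f' : Δ →* Γ := f.comp ((MonoidHom.fst G P).comp j)
  let ρ' : Δ →* Equiv.Perm S.X := Pk.ρ.comp f'
  have hρ : S.Isom ρ' := ⟨fun γ x y => Pk.iso (f' γ) x y, fun γ c hc => Pk.line (f' γ) c hc⟩
  obtain ⟨sA, hsA, -⟩ := exists_finset_msup a
  obtain ⟨sB, hsB, -⟩ := exists_finset_msup b
  let S₀ : Finset Δ := insert 1 (sA ∪ sB)
  have ha : MSup (S₀ : Set Δ) a := hsA.mono fun x hx => by
    simp only [S₀, Finset.coe_insert, Finset.coe_union, Set.mem_insert_iff, Set.mem_union]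
    exact Or.inr (Or.inl hx)
  have hb : MSup (S₀ : Set Δ) b := hsB.mono fun x hx => by
    simp only [S₀, Finset.coe_insert, Finset.coe_union, Set.mem_insert_iff, Set.mem_union]
    exact Or.inr (Or.inr hx)
  obtain ⟨C, hC0, hC1, hC2⟩ := FMain_bound S₀ fun g => dist (ρ' g S.o) S.o
  obtain ⟨Y, _, _, F, ev, hE⟩ := exists_flow hS Pk.toAct
  obtain ⟨N, hN⟩ := Pack.spiders hS.geo Pk hE
  obtain ⟨n, hn⟩ := hS.fine
  obtain ⟨c, hc3⟩ := transfer3 (R := R) n
  obtain ⟨r, hr⟩ := vanish2 h1 N c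
  obtain ⟨ε, hε, ι, _, Tt, hT1, hT2, hT3, hT4⟩ := hN (8 * C) r (by positivity)
  obtain ⟨r0, L, hr0, hCr, hct1, hct2⟩ :=
    hS.geo.control hρ S₀ hC0 hE.pos (half_pos hε) hC1 hC2
  have hr0' : (0 : ℝ) < r0 := by exact_mod_cast hr0
  obtain ⟨Fi, _, e, he1, he2, he3⟩ := hn r0 hr0
  have hk0 : ∀ x ∈ Metric.closedBall S.o (r0 : ℝ), ∃ y : Y, ev y = hS.geo.ctl r0 L x :=
    fun x hx => hE.surj _ (hS.geo.ctl_mem hr0' L hx).1 (hS.geo.ctl_mem hr0' L hx).2
  have ho : S.o ∈ Metric.closedBall S.o (r0 : ℝ) := Metric.mem_closedBall_self hr0'.le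
  have : Nonempty Y := ⟨(hk0 _ ho).choose⟩
  choose! k hk using hk0
  have hA := hS.geo.hact hρ S₀ hC0 hr0' hCr hC1 hC2
  let T' : ι → Spi Δ S.X := fun i => (Tt i).pull f' k
  have h2e : 2 * (ε / 2) = ε := by ring
  rw [h2e] at hct1 hct2
  obtain ⟨J', _, _, l, A, B, -, hAB, hBA, hcA, hcB, hT⟩ :=
    hc3 Δ S.X Fi J (Metric.closedBall S.o (r0 : ℝ)) e S₀ _ _ (FMain_FR T') (ε / 2)
      (hS.cpt _ _) ⟨_, ho⟩ he1 he2 he3 (Finset.mem_insert_self _ _) hA (half_pos hε)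
      (fun x hx y hy hxy i => hT2 i (k x) (f' 1) (k y) ⟨0, by rw [abs_zero]; positivity, by
        rw [F.zero, map_one, one_smul, hE.dist_le, hk x hx, hk y hy]
        exact hct1 x hx y hy hxy⟩)
      (fun g hg g' hg' u hu y hy i => by
        obtain ⟨s, hs, hs'⟩ := hct2 g hg g' hg' u hu y hy
        refine hT2 i (k _) (f' (g * g')) (k y) ⟨s, hs, ?_⟩
        rw [hE.dist_le]
        intro t
        rw [hE.flow, hE.smul, hk _ (hA.maps g hg g' hg' u hu y hy), hk y hy]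
        exact hs' t)
      a b hab hba ha hb
  refine hT (hr Δ S.X J' ι T' l (fun j' => hT1 (k (l j'))) (fun i j' hij => ?_)
    (fun j' => hT4 (k (l j'))) A B hAB hBA hcA hcB)
  obtain ⟨B₀, hB₀, hB⟩ := hT3 i (k (l j')) hij
  refine Ab_le hPz j hj (B₀.comap f) ?_ _ fun x hx => hB₀ hx
  rcases hB with hB | ⟨φ, hφ⟩
  · exact hF B₀ hB
  · exact hc B₀ φ hφ

end Pool.Agent.MP_f7db47_al.TW

end

section

namespace Pool.Agent.MP_f7db47_al.TW

open GF

open Matrix

variable {R : Type v} [Ring R]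

/-- The hypothesis of the induction. -/
def BMainHyp (R : Type v) [Ring R] {G A : Type} [Group G] [MulSemiringAction G R] [Ring A] (ρ : G →* A) : Prop :=
  ∀ (H : Type) [Group H] [MulSemiringAction H R] (j : H →* G) [Cp R j], Function.Injective j → ∀ φ : H →* GN.MZ,
    (∀ g, φ g = 1 → BMainQ (ρ (j g))) → QQ R H

theorem BMain_comp {G H A : Type} [Group G] [MulSemiringAction G R] [Group H] [MulSemiringAction H R] [Ring A] {ρ : G →* A} (h : BMainHyp R ρ)
    (j : H →* G) [Cp R j] (hj : Function.Injective j) : BMainHyp R (ρ.comp j) :=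
  fun K _ _ i _ hi φ hφ => h K (j.comp i) (hj.comp hi) φ hφ

theorem BMain_red {d : ℕ}
    (ih : ∀ (V : Type) [AddCommGroup V] [Module ℚ V] [FiniteDimensional ℚ V],
      Module.finrank ℚ V ≤ d → ∀ (G : Type) [Group G] [MulSemiringAction G R] (ρ : G →* Module.End ℚ V),
        BMainHyp R ρ → QQ R G)
    {V : Type} [AddCommGroup V] [Module ℚ V] [FiniteDimensional ℚ V]
    (hV : Module.finrank ℚ V ≤ d + 1) {H : Type} [Group H] [MulSemiringAction H R] (ρ : H →* Module.End ℚ V)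
    (hρ : BMainHyp R ρ) (W : Submodule ℚ V) (hb : W ≠ ⊥) (ht : W ≠ ⊤)
    (hW : ∀ g, W ≤ W.comap (ρ g)) : QQ R H := by
  have d₁ : Module.finrank ℚ W ≤ d := by
    have := Submodule.finrank_lt ht
    omega
  have d₂ : Module.finrank ℚ (V ⧸ W) ≤ d := by
    have h1 := W.finrank_quotient_add_finrank
    have h2 : Module.finrank ℚ W ≠ 0 := fun e => hb (Submodule.finrank_eq_zero.1 e)
    omega
  let ρ₁ : H →* Module.End ℚ W := Representation.subrepresentation ρ W hW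
  let ρ₂ : H →* Module.End ℚ (V ⧸ W) := Representation.quotient ρ W hW
  refine ih W d₁ H ρ₁ fun H₁ _ _ j₁ _ i₁ φ₁ q₁ => ?_
  refine ih (V ⧸ W) d₂ H₁ (ρ₂.comp j₁) fun H₂ _ _ j₂ _ i₂ φ₂ q₂ => ?_
  refine qq_abq' BMain_tf ((φ₁.comp j₂).prod φ₂) fun H₃ ψ hψ => ?_
  refine hρ H₃ (j₁.comp (j₂.comp H₃.subtype)) (i₁.comp (i₂.comp H₃.subtype_injective)) ψ
    fun g hg => ?_
  have e := hψ g hg
  exact BMain_blk W _ (ρ₁ (j₁ (j₂ g))) (ρ₂ (j₁ (j₂ g))) (fun _ => rfl) (fun _ => rfl)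
    (q₁ _ (congrArg Prod.fst e)) (q₂ _ (congrArg Prod.snd e))

theorem BMain_ind (hF : FlowStmt R) (hP : PackStmt) (d : ℕ) :
    ∀ (V : Type) [AddCommGroup V] [Module ℚ V] [FiniteDimensional ℚ V],
      Module.finrank ℚ V ≤ d → ∀ (G : Type) [Group G] [MulSemiringAction G R] (ρ : G →* Module.End ℚ V),
        BMainHyp R ρ → QQ R G := by
  have z : ∀ (V : Type) [AddCommGroup V] [Module ℚ V] [FiniteDimensional ℚ V],
      Module.finrank ℚ V = 0 → ∀ (G : Type) [Group G] [MulSemiringAction G R] (ρ : G →* Module.End ℚ V),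
        BMainHyp R ρ → QQ R G := by
    intro V _ _ _ hV G _ _ ρ hρ
    have : Subsingleton V := Module.finrank_zero_iff.1 hV
    exact hρ G (MonoidHom.id G) Function.injective_id 1 fun g _ =>
      ⟨1, one_pos, 1, LinearMap.ext fun u => Subsingleton.elim _ _⟩
  induction d with
  | zero => intro V _ _ _ hV; exact z V (Nat.le_zero.1 hV)
  | succ d ih =>
    intro V _ _ _ hV G _ _ ρ₀ hρ₀
    rcases Nat.eq_zero_or_pos (Module.finrank ℚ V) with h0 | h0
    · exact z V h0 G ρ₀ hρ₀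
    obtain ⟨n, hn⟩ : ∃ n, Module.finrank ℚ V = n + 1 := ⟨_, (Nat.succ_pred_eq_of_pos h0).symm⟩
    refine qq_loc fun K hK => ?_
    have hρ := BMain_comp hρ₀ K.subtype K.subtype_injective
    generalize ρ₀.comp K.subtype = ρ at hρ
    let b : Module.Basis (Fin (n + 1)) ℚ V := Module.finBasisOfFinrankEq ℚ V hn
    let e := LinearMap.toMatrixAlgEquiv b
    let f₀ : K →* GL (Fin (n + 1)) ℚ :=
      ((e : Module.End ℚ V →* Matrix (Fin (n + 1)) (Fin (n + 1)) ℚ).comp ρ).toHomUnits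
    have hf₀ : ∀ g, (f₀ g).val = e (ρ g) := fun g => rfl
    obtain ⟨F, hFZ⟩ := BMain_land ((Group.fg_iff_subgroup_fg K).2 hK) f₀
    obtain ⟨Z, hZ, hpk⟩ := hP n F
    let f : K →* GLZ Z (Fin (n + 1)) × GN.MZ := (f₀.codRestrict _ (hFZ Z hZ)).prod 1
    have hf : ∀ g, (f g).1.1.val = e (ρ g) := fun g => rfl
    refine hF _ K _ hpk f (fun B φ hφ => ?_) (fun B hB => ?_)
    · let r : B.comap f →* B := (f.comp (B.comap f).subtype).codRestrict B fun g => g.2
      refine hρ _ (B.comap f).subtype (B.comap f).subtype_injective (φ.comp r) fun g hg => ?_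
      obtain ⟨k, hk, ek⟩ := isOfFinOrder_iff_pow_eq_one.1 (hφ _ hg)
      have e1 : f (g.1 ^ k) = 1 := by
        rw [map_pow]
        exact congrArg Subtype.val ek
      have e2 : e (ρ (g.1 ^ k)) = e 1 := by
        rw [← hf, e1, map_one]
        rfl
      refine ⟨k, hk, ?_⟩
      have e3 := e.injective e2
      rw [map_pow] at e3
      change IsNilpotent (ρ g.1 ^ k - 1)
      rw [e3, sub_self]
      exact IsNilpotent.zero
    · obtain ⟨W₀, hb, ht, hW⟩ := hB
      refine BMain_red ih hV (ρ.comp (B.comap f).subtype)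
        (BMain_comp hρ _ (B.comap f).subtype_injective)
        (W₀.comap (b.equivFun : V →ₗ[ℚ] (Fin (n + 1) → ℚ))) ?_ ?_ ?_
      · intro h
        apply hb
        rw [eq_bot_iff] at h ⊢
        intro u hu
        have : b.equivFun.symm u ∈ W₀.comap (b.equivFun : V →ₗ[ℚ] (Fin (n + 1) → ℚ)) := by
          change b.equivFun (b.equivFun.symm u) ∈ W₀
          rwa [LinearEquiv.apply_symm_apply]
        have h2 := h this
        rw [Submodule.mem_bot] at h2 ⊢
        exact b.equivFun.symm.map_eq_zero_iff.1 h2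
      · intro h
        apply ht
        rw [eq_top_iff] at h ⊢
        intro u _
        have h2 : b.equivFun (b.equivFun.symm u) ∈ W₀ :=
          h (Submodule.mem_top (x := b.equivFun.symm u))
        rwa [LinearEquiv.apply_symm_apply] at h2
      · intro g u hu
        have h1 := hW (f g.1) g.2 _ hu
        rw [hf] at h1
        have h2 : e (ρ g.1) *ᵥ b.repr u = b.repr (ρ g.1 u) :=
          LinearMap.toMatrix_mulVec_repr b b _ u
        change b.equivFun (ρ g.1 u) ∈ W₀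
        rw [Module.Basis.equivFun_apply, ← h2]
        exact h1

theorem qq_glQ_of (hF : FlowStmt R) (hP : PackStmt) {G : Type} [Group G] [MulSemiringAction G R] {n : ℕ}
    (f : G →* GL (Fin n) ℚ)
    (h : ∀ (H : Subgroup G) (φ : H →* GN.MZ), (∀ g : H, φ g = 1 → QU (f g).val) → QQ R H) :
    QQ R G := by
  let e : Matrix (Fin n) (Fin n) ℚ ≃ₐ[ℚ] Module.End ℚ (Fin n → ℚ) := Matrix.toLinAlgEquiv'
  let ρ : G →* Module.End ℚ (Fin n → ℚ) :=
    (e : Matrix (Fin n) (Fin n) ℚ →* Module.End ℚ (Fin n → ℚ)).comp ((Units.coeHom _).comp f)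
  refine BMain_ind hF hP _ (Fin n → ℚ) le_rfl G ρ fun H _ _ j hc hj φ hφ => ?_
  let t := MonoidHom.ofInjective hj
  refine QQ.sub' (h j.range (φ.comp t.symm.toMonoidHom) fun g hg => ?_) t.toMonoidHom hc.eq
    t.injective
  obtain ⟨m, hm, hn⟩ := hφ _ hg
  refine ⟨m, hm, ?_⟩
  have e1 : j (t.symm g) = g.1 := MonoidHom.apply_ofInjective_symm hj g
  have e2 : ρ (j (t.symm.toMonoidHom g)) ^ m - 1 = e ((f g).val ^ m - 1) := by
    rw [map_sub, map_pow, map_one]
    change e (f (j (t.symm g))).val ^ m - 1 = _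
    rw [e1]
  rw [e2] at hn
  exact (IsNilpotent.map_iff e.injective).1 hn

end Pool.Agent.MP_f7db47_al.TW

end

end
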