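import Pool.Agent.Mg.Ff7db47.G0882a1
import Pool.Agent.Mg.Ff7db47.G578105
import Pool.Agent.Mg.Ff7db47.Gdd6dc9
import Pool.Agent.Mg.Ff7db47.Gb262b1
import Pool.Agent.Mg.Ff7db47.Ge1970b

section

/-!
Twisted coefficients: part ABase.
-/

set_option linter.unusedSectionVars false

universe u u' v w

section

namespace Pool.Agent.MP_f7db47_al.TW

open GN

open Matrix

variable {R : Type v} [Ring R] {G : Type} [Group G] [MulSemiringAction G R] {Λ : Type}

theorem ABase_const (B : Gpd G Λ) (y : Λ) (hy : G0 R (B.grp y)) {J : Type} [Fintype J]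
    [DecidableEq J] (p : Matrix J J (SkewMonoidAlgebra R G)) (hp : p * p = p)
    (hc : Ctl B.r (fun _ => y) (fun _ => y) p) : SS B.r (fun _ : J => y) p := by
  have hinj := (B.grp y).subtype_injective
  obtain ⟨q, rfl⟩ := exists_map_of_msup (B.grp y).subtype hinj (A := p)
    fun i j => (hc i j).mono fun g hg => ⟨⟨g, hg⟩, rfl⟩
  set φ := mapR R (B.grp y).subtype with hφ
  have hq : q * q = q := by
    apply Matrix.map_injective (mapDomain_inj (R := R) _ hinj)
    simpa [Matrix.map_mul] using hp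
  obtain ⟨ι, i1, i2, r, X, Y, hXY, hYX⟩ := (hy J q hq).free hq
  have hQm : (X * Y).map φ = fromBlocks (q.map φ) 0 0 1 := by
    rw [hXY, fromBlocks_map, Matrix.map_zero _ (map_zero φ), Matrix.map_zero _ (map_zero φ),
      Matrix.map_one _ (map_zero φ) (map_one φ)]
  have hsup : ∀ x : SkewMonoidAlgebra R (B.grp y), Sup {g | B.r y g y} (φ x) := fun x =>
    (sup_mapDomain _ x).mono (by
      rintro _ ⟨g, rfl⟩
      exact g.2)
  refine ⟨ι, Fin r, i1, i2, inferInstance, inferInstance, fun _ => y, fun _ => y, 1, 1,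
    Y.map φ, X.map φ, std_one _, std_one _, ?_⟩
  rw [← hQm]
  refine ⟨?_, ?_, ?_, ?_, ?_, ?_⟩
  · rw [← Matrix.map_mul]
  · rw [← Matrix.map_mul, hYX, Matrix.map_one _ (map_zero φ) (map_one φ)]
  · rw [← Matrix.map_mul, ← Matrix.mul_assoc, hYX, Matrix.one_mul]
  · rw [← Matrix.map_mul, Matrix.mul_assoc, hYX, Matrix.mul_one]
  · rintro i (j | j) <;> exact hsup _
  · rintro (i | i) j <;> exact hsup _

theorem ABase_one (B : Gpd G Λ) (y : Λ) (hy : G0 R (B.grp y)) {J : Type} [Fintype J]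
    [DecidableEq J] (l : J → Λ) (hl : ∀ j, ∃ g, B.r y g (l j))
    (p : Matrix J J (SkewMonoidAlgebra R G)) (hp : p * p = p) (hc : Ctl B.r l l p) :
    SS B.r l p := by
  choose u hu using hl
  obtain ⟨D, hD⟩ : ∃ D : Matrix J J (SkewMonoidAlgebra R G),
      D = diagonal fun i => SkewMonoidAlgebra.single (u i) 1 := ⟨_, rfl⟩
  obtain ⟨D', hD'⟩ : ∃ D' : Matrix J J (SkewMonoidAlgebra R G),
      D' = diagonal fun i => SkewMonoidAlgebra.single (u i)⁻¹ 1 := ⟨_, rfl⟩
  have e2 : D' * D = 1 := by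
    rw [hD, hD', diagonal_mul_diagonal, ← diagonal_one]
    congr 1; funext i
    rw [SkewMonoidAlgebra.single_mul_single, inv_mul_cancel, one_mul, smul_one]; rfl
  have cf : Ctl B.r (fun _ : J => y) l (D * p) := by
    intro i j
    rw [hD, diagonal_mul]
    exact (sup_single (S := {g | B.r y g (l i)}) (hu i) 1).mul (hc i j)
      fun a ha b hb => B.trans ha hb
  have cg : Ctl B.r l (fun _ : J => y) (p * D') := by
    intro i j
    rw [hD', mul_diagonal]
    exact (hc i j).mul (sup_single (S := {g | B.r (l j) g y}) (B.symm (hu j)) 1)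
      fun a ha b hb => B.trans ha hb
  have hI : Iso B.r l (fun _ : J => y) p (D * p * (p * D')) (D * p) (p * D') :=
    ⟨by rw [mul_assoc, ← mul_assoc D', e2, one_mul, hp], rfl, by rw [mul_assoc, hp],
      by rw [← mul_assoc, hp], cf, cg⟩
  have hc' : Ctl B.r (fun _ : J => y) (fun _ : J => y) (D * p * (p * D')) :=
    Ctl.mul (ABase_fr B) (k := 0) (k' := 0) cf cg
  exact SS.of_iso (ABase_fr B) (k := 0) (k' := 0) hI
    (ABase_const B y hy _ hI.symm.idem hc')

theorem ABase_ind (B : Gpd G Λ) (hB : ∀ a, G0 R (B.grp a)) (n : ℕ) :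
    ∀ (J : Type) [Fintype J] [DecidableEq J] (l : J → Λ) (p : Matrix J J (SkewMonoidAlgebra R G)),
      Fintype.card J < n → p * p = p → Ctl B.r l l p → SS B.r l p := by
  induction n with
  | zero => intro J _ _ l p h; omega
  | succ n ih =>
    intro J _ _ l p hn hp hc
    classical
    rcases isEmpty_or_nonempty J with hJ | ⟨⟨j0⟩⟩
    · refine ⟨Empty, Empty, inferInstance, inferInstance, inferInstance, inferInstance,
        Empty.elim, Empty.elim, 1, 1, 0, 0, std_one _, std_one _, ?_, ?_, ?_, ?_, ?_, ?_⟩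
      · ext1 i; exact isEmptyElim i
      · ext1 i; exact isEmptyElim i
      · ext1 i; exact isEmptyElim i
      · ext1 i; exact isEmptyElim i
      · exact ctl_zero _ _ _
      · exact ctl_zero _ _ _
    · let P : J → Prop := fun j => ∃ g, B.r (l j0) g (l j)
      have hP : ∀ i j, p i j ≠ 0 → (P i ↔ P j) := by
        intro i j h
        have : ∃ g, (p i j).coeff g ≠ 0 := by
          by_contra hh
          push Not at hh
          exact h (by ext g; simpa using hh g)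
        obtain ⟨g, hg⟩ := this
        have h1 : B.r (l i) g (l j) := hc i j g hg
        exact ⟨fun ⟨a, ha⟩ => ⟨_, B.trans ha h1⟩, fun ⟨a, ha⟩ => ⟨_, B.trans ha (B.symm h1)⟩⟩
      have hP' : ∀ i j, p i j ≠ 0 → (¬ P i ↔ ¬ P j) := fun i j h => not_congr (hP i j h)
      refine SS.of_split P hP ?_ ?_
      · exact ABase_one B (l j0) (hB _) _ (fun x => x.2) _
          ((iso_refl hp hc).restrict P P hP hP).idem (hc.submatrix _ _)
      · refine ih _ _ _ ?_ ((iso_refl hp hc).restrict _ _ hP' hP').idem (hc.submatrix _ _)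
        have : Fintype.card {i // ¬ P i} < Fintype.card J :=
          Fintype.card_subtype_lt (x := j0) fun h => h ⟨1, B.refl _⟩
        omega

theorem ss_block (B : Gpd G Λ) (hB : ∀ a, G0 R (B.grp a)) {J : Type} [Fintype J] [DecidableEq J]
    (l : J → Λ) (p : Matrix J J (SkewMonoidAlgebra R G)) (hp : p * p = p) (hc : Ctl B.r l l p) :
    SS B.r l p :=
  ABase_ind B hB _ J l p (Nat.lt_succ_self _) hp hc

end Pool.Agent.MP_f7db47_al.TW

end

end

section

/-!
Twisted coefficients: part ABhs.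
-/

set_option linter.unusedSectionVars false

universe u u' v w

section

namespace Pool.Agent.MP_f7db47_al.TW

open GN

open Matrix

variable {R : Type v} [Ring R] {G : Type} [Group G] [MulSemiringAction G R] {Λ : Type} {I J K : Type}
  [Fintype I] [DecidableEq I] [Fintype J] [DecidableEq J] [Fintype K] [DecidableEq K]

section Aux

variable {X Y : Type}

/-- the inclusion of the part of degree zero -/
noncomputable def ABhsI (R : Type v) [Ring R] (G : Type) [Group G] [MulSemiringAction G R] :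
    SkewMonoidAlgebra R G →+* SkewMonoidAlgebra R (G × MZ) :=
  mapR R (MonoidHom.inl G MZ)

/-- the standard vectors -/
noncomputable def ABhsB (R : Type v) [Ring R] (G : Type) [Group G] [MulSemiringAction G R] (J : Type) [DecidableEq J]
    (L : ℕ) : Matrix J (J × Fin L) (SkewMonoidAlgebra R (G × MZ)) :=
  fun j y => (Pi.single y.1 (tp R G ((y.2 : ℕ) : ℤ)) : J → SkewMonoidAlgebra R (G × MZ)) j

/-- the coordinates -/
noncomputable def ABhsC (L : ℕ) (W : Matrix J X (SkewMonoidAlgebra R (G × MZ))) :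
    Matrix (J × Fin L) X (SkewMonoidAlgebra R G) :=
  fun x y => cf ((x.2 : ℕ) : ℤ) (W x.1 y)

/-- the projection, on matrices -/
noncomputable def ABhsP (d : ℕ) (u : Matrix J I (SkewMonoidAlgebra R (G × MZ)))
    (v : Matrix I J (SkewMonoidAlgebra R (G × MZ))) (e : Matrix J J (SkewMonoidAlgebra R (G × MZ)))
    (W : Matrix J X (SkewMonoidAlgebra R (G × MZ))) : Matrix J X (SkewMonoidAlgebra R (G × MZ)) :=
  e * mpr (ABhsGe G 0) W - u * mpr (ABhsGe G d) (v * mpr (ABhsGe G 0) W)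

lemma ABhs_eq (d L : ℕ) (u : Matrix J I (SkewMonoidAlgebra R (G × MZ)))
    (v : Matrix I J (SkewMonoidAlgebra R (G × MZ))) (e : Matrix J J (SkewMonoidAlgebra R (G × MZ))) :
    bhs d L u v e = ABhsC L (ABhsP d u v e (ABhsB R G J L)) := rfl

lemma ABhs_coeff (a : ℤ) (w : SkewMonoidAlgebra R (G × MZ)) (g : G) :
    (cf a w).coeff g = w.coeff (g, Multiplicative.ofAdd a) := rfl

lemma ABhs_cf (a : ℤ) (g : G × MZ) (r : R) : cf a (SkewMonoidAlgebra.single g r) =
    if Multiplicative.toAdd g.2 = a then SkewMonoidAlgebra.single g.1 r else 0 := by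
  classical
  ext γ
  rw [ABhs_coeff]
  split_ifs with h
  · subst h
    simp [Finsupp.single_apply, Prod.ext_iff]
  · rw [SkewMonoidAlgebra.coeff_single, Finsupp.single_apply, if_neg]
    · rfl
    · rintro rfl
      exact h rfl

lemma ABhs_I (g : G) (r : R) :
    ABhsI R G (SkewMonoidAlgebra.single g r) = SkewMonoidAlgebra.single (g, 1) r := by
  rw [ABhsI, Sk.mapDomainRingHom_apply, SkewMonoidAlgebra.mapDomain_single]
  rfl

lemma ABhs_cf_mul (a : ℤ) (w : SkewMonoidAlgebra R (G × MZ)) (m : SkewMonoidAlgebra R G) :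
    cf a (w * ABhsI R G m) = cf a w * m := by
  induction w using Sk.induction_linear with
  | zero => simp
  | add x y hx hy => simp only [add_mul, map_add, hx, hy]
  | single g r =>
    induction m using Sk.induction_linear with
    | zero => simp
    | add x y hx hy => simp only [mul_add, map_add, hx, hy]
    | single γ s =>
      rw [ABhs_I, SkewMonoidAlgebra.single_mul_single, ABhs_cf, ABhs_cf]
      simp only [Prod.snd_mul, mul_one, Prod.fst_mul]
      split_ifs
      · rw [SkewMonoidAlgebra.single_mul_single]; rfl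
      · rw [zero_mul]

lemma ABhs_C_mul [Fintype X] (L : ℕ) (W : Matrix J X (SkewMonoidAlgebra R (G × MZ)))
    (M : Matrix X Y (SkewMonoidAlgebra R G)) :
    ABhsC L W * M = ABhsC L (W * M.map (ABhsI R G)) := by
  ext1 x y
  simp only [Matrix.mul_apply, ABhsC, map_sum, Matrix.map_apply, ABhs_cf_mul]

lemma ABhs_C_add (L : ℕ) (W W' : Matrix J X (SkewMonoidAlgebra R (G × MZ))) :
    ABhsC L W + ABhsC L W' = ABhsC L (W + W') := by
  ext1 x y
  exact (map_add (cf _) _ _).symm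

lemma ABhs_C_zero (L : ℕ) : ABhsC L (0 : Matrix J X (SkewMonoidAlgebra R (G × MZ))) = 0 := by
  ext1 x y
  exact map_zero (cf _)

lemma ABhs_BC {L : ℕ} {W : Matrix J X (SkewMonoidAlgebra R (G × MZ))} (h0 : MSup (ABhsGe G 0) W)
    (hL : MSup (ABhsLt G L) W) : ABhsB R G J L * (ABhsC L W).map (ABhsI R G) = W := by
  ext1 j x
  have h : Sup (ABhsGe G 0 ∩ ABhsLt G L) (W j x) := fun g hg => ⟨h0 j x g hg, hL j x g hg⟩
  rw [Matrix.mul_apply, Fintype.sum_prod_type, Finset.sum_eq_single j]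
  · simp only [ABhsB, ABhsC, Pi.single_eq_same, Matrix.map_apply]
    refine h.induction (P := fun w => ∑ b : Fin L, tp R G ((b : ℕ) : ℤ) *
      ABhsI R G (cf ((b : ℕ) : ℤ) w) = w) (by simp) (fun a b ha hb => ?_) fun g hg r => ?_
    · simp only [map_add, mul_add, Finset.sum_add_distrib, ha, hb]
    · have h1 : 0 ≤ Multiplicative.toAdd g.2 := hg.1
      have h2 : Multiplicative.toAdd g.2 < L := hg.2
      rw [Finset.sum_eq_single (⟨(Multiplicative.toAdd g.2).toNat, by omega⟩ : Fin L)]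
      · rw [ABhs_cf, if_pos (by simp only; omega), ABhs_I, tp, SkewMonoidAlgebra.single_mul_single]
        simp [Int.toNat_of_nonneg h1]
      · intro b _ hb
        rw [ABhs_cf, if_neg fun e => hb (Fin.ext (by simp only; omega)), map_zero, mul_zero]
      · simp
  · intro j' _ hj
    simp [ABhsB, Pi.single_eq_of_ne hj.symm]
  · simp

lemma ABhs_ge {d : ℕ} {a b : ℤ} {u : Matrix I J (SkewMonoidAlgebra R (G × MZ))} (hu : Deg d u)
    {W : Matrix J X (SkewMonoidAlgebra R (G × MZ))} (hW : MSup (ABhsGe G a) W) (h : b + d ≤ a) :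
    MSup (ABhsGe G b) (u * W) :=
  MSup.mul hu hW fun x hx y hy => by
    have h1 := abs_le.1 (show |Multiplicative.toAdd x.2| ≤ (d : ℤ) from hx)
    have h2 : a ≤ Multiplicative.toAdd y.2 := hy
    change b ≤ Multiplicative.toAdd x.2 + Multiplicative.toAdd y.2
    omega

lemma ABhs_lt {d : ℕ} {a b : ℤ} {u : Matrix I J (SkewMonoidAlgebra R (G × MZ))} (hu : Deg d u)
    {W : Matrix J X (SkewMonoidAlgebra R (G × MZ))} (hW : MSup (ABhsLt G a) W) (h : a + d ≤ b) :
    MSup (ABhsLt G b) (u * W) :=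
  MSup.mul hu hW fun x hx y hy => by
    have h1 := abs_le.1 (show |Multiplicative.toAdd x.2| ≤ (d : ℤ) from hx)
    have h2 : Multiplicative.toAdd y.2 < a := hy
    change Multiplicative.toAdd x.2 + Multiplicative.toAdd y.2 < b
    omega

lemma ABhs_left {e : Matrix I J (SkewMonoidAlgebra R (G × MZ))} (he : Deg 0 e) (c : ℤ)
    (W : Matrix J X (SkewMonoidAlgebra R (G × MZ))) :
    mpr (ABhsGe G c) (e * W) = e * mpr (ABhsGe G c) W :=
  mpr_mul_left W he fun x hx y => by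
    have h1 := abs_le.1 (show |Multiplicative.toAdd x.2| ≤ ((0 : ℕ) : ℤ) from hx)
    change c ≤ Multiplicative.toAdd x.2 + Multiplicative.toAdd y.2 ↔ c ≤ Multiplicative.toAdd y.2
    omega

lemma ABhs_right [Fintype X] (c : ℤ) (W : Matrix J X (SkewMonoidAlgebra R (G × MZ)))
    (M : Matrix X Y (SkewMonoidAlgebra R G)) :
    mpr (ABhsGe G c) W * M.map (ABhsI R G) = mpr (ABhsGe G c) (W * M.map (ABhsI R G)) :=
  (mpr_mul_right (U := Set.range (MonoidHom.inl G MZ)) W (fun _ _ => sup_mapDomain _ _) <| by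
    rintro g _ ⟨x, rfl⟩
    simp [ABhsGe]).symm

lemma ABhs_P_right [Fintype X] (d : ℕ) (u : Matrix J I (SkewMonoidAlgebra R (G × MZ)))
    (v : Matrix I J (SkewMonoidAlgebra R (G × MZ))) (e : Matrix J J (SkewMonoidAlgebra R (G × MZ)))
    (W : Matrix J X (SkewMonoidAlgebra R (G × MZ))) (M : Matrix X Y (SkewMonoidAlgebra R G)) :
    ABhsP d u v e W * M.map (ABhsI R G) = ABhsP d u v e (W * M.map (ABhsI R G)) := by
  simp only [ABhsP, Matrix.sub_mul, Matrix.mul_assoc, ABhs_right]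

lemma ABhs_P_sub (d : ℕ) (u : Matrix J I (SkewMonoidAlgebra R (G × MZ)))
    (v : Matrix I J (SkewMonoidAlgebra R (G × MZ))) (e : Matrix J J (SkewMonoidAlgebra R (G × MZ)))
    (W W' : Matrix J X (SkewMonoidAlgebra R (G × MZ))) :
    ABhsP d u v e (W - W') = ABhsP d u v e W - ABhsP d u v e W' := by
  simp only [ABhsP, mpr_sub, Matrix.mul_sub]
  abel

lemma ABhs_comm (b : ℤ) (x : SkewMonoidAlgebra R (G × MZ)) : x * tp R G b = tp R G b * x := by
  induction x using Sk.induction_linear with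
  | zero => simp
  | add x y hx hy => simp only [add_mul, mul_add, hx, hy]
  | single g r =>
    simp only [tp, SkewMonoidAlgebra.single_mul_single, mul_one, one_mul, smul_one, prod_smul,
      one_smul]
    congr 1
    ext <;> simp [mul_comm]

lemma ABhs_smul_mul {A : Type*} [Ring A] {I J K : Type} [Fintype J] (c : A) (M : Matrix I J A)
    (N : Matrix J K A) : (c • M) * N = c • (M * N) := by
  ext1 i k
  simp only [Matrix.mul_apply, Matrix.smul_apply, smul_eq_mul, Finset.mul_sum, mul_assoc]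

lemma ABhs_T_mul (b : ℤ) (u : Matrix I J (SkewMonoidAlgebra R (G × MZ)))
    (W : Matrix J X (SkewMonoidAlgebra R (G × MZ))) : u * (tp R G b • W) = tp R G b • (u * W) := by
  ext1 i x
  simp only [Matrix.mul_apply, Matrix.smul_apply, smul_eq_mul, Finset.mul_sum, ← mul_assoc,
    ABhs_comm]

lemma ABhs_T_T {a b : ℤ} (h : a + b = 0) (W : Matrix J X (SkewMonoidAlgebra R (G × MZ))) :
    tp R G a • tp R G b • W = W := by
  rw [smul_smul, tp, tp, SkewMonoidAlgebra.single_mul_single, Prod.mk_mul_mk, ← ofAdd_add, h,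
    mul_one, smul_one, mul_one]
  exact one_smul _ _

lemma ABhs_T_ge {a b c : ℤ} {W : Matrix J X (SkewMonoidAlgebra R (G × MZ))}
    (hW : MSup (ABhsGe G a) W) (h : c ≤ a + b) : MSup (ABhsGe G c) (tp R G b • W) :=
  fun j x => (sup_single (S := {(1, Multiplicative.ofAdd b)}) rfl 1).mul (hW j x) <| by
    rintro _ rfl y hy
    have h2 : a ≤ Multiplicative.toAdd y.2 := hy
    change c ≤ b + Multiplicative.toAdd y.2
    omega

lemma ABhs_T_ctl {r : Λ → G → Λ → Prop} {l : J → Λ} {m : X → Λ} (b : ℤ)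
    {W : Matrix J X (SkewMonoidAlgebra R (G × MZ))} (hW : Ctl (up r) l m W) :
    Ctl (up r) l m (tp R G b • W) :=
  fun j x => (sup_single (S := {(1, Multiplicative.ofAdd b)}) rfl 1).mul (hW j x) <| by
    rintro _ rfl y hy
    change r _ (1 * y.1) _
    rw [one_mul]
    exact hy

lemma ABhs_C_ctl {r : Λ → G → Λ → Prop} {l : J → Λ} {m : X → Λ} (L : ℕ)
    {W : Matrix J X (SkewMonoidAlgebra R (G × MZ))} (hW : Ctl (up r) l m W) :
    Ctl r (fun x : J × Fin L => l x.1) m (ABhsC L W) :=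
  fun x y _ hg => hW x.1 y _ hg

lemma ABhs_B_ctl (F : GN.FR G Λ) (l : J → Λ) (L : ℕ) :
    Ctl (up (F.rel 0)) l (fun x : J × Fin L => l x.1) (ABhsB R G J L) := by
  intro j y
  simp only [ABhsB]
  by_cases h : j = y.1
  · subst h
    rw [Pi.single_eq_same]
    rw [tp]
    exact sup_single (g := ((1 : G), Multiplicative.ofAdd ((y.2 : ℕ) : ℤ))) (F.refl _) 1
  · rw [Pi.single_eq_of_ne h]
    exact sup_zero _

lemma ABhs_deg {l : I → Λ} {e : Matrix I I (SkewMonoidAlgebra R (G × MZ))} (h : Std l e) (d : ℕ) :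
    Deg d e := h.msup (by simp)

variable (F : GN.FR G Λ) {r : Λ → G × MZ → Λ → Prop} {k d : ℕ} {l : I → Λ} {l' : J → Λ}
  {e : Matrix I I (SkewMonoidAlgebra R (G × MZ))} {e' : Matrix J J (SkewMonoidAlgebra R (G × MZ))}
  {u : Matrix J I (SkewMonoidAlgebra R (G × MZ))} {v : Matrix I J (SkewMonoidAlgebra R (G × MZ))}

lemma ABhs_P_ctl (he' : Std l' e') (h : Iso (up (F.rel k)) l l' e e' u v) (d : ℕ) {k' : ℕ}
    {m : X → Λ} {W : Matrix J X (SkewMonoidAlgebra R (G × MZ))} (hW : Ctl (up (F.rel k')) l' m W) :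
    Ctl (up (F.rel (2 * k + k'))) l' m (ABhsP d u v e' W) := by
  have h1 : Ctl ((ABhsF F).rel k') l' m (mpr (ABhsGe G 0) W) := fun i j => (hW i j).pr
  have h2 := Ctl.mul (ABhsF F) (k := k) h.cg h1
  have h3 : Ctl ((ABhsF F).rel (k + k')) l m (mpr (ABhsGe G d) (v * mpr (ABhsGe G 0) W)) :=
    fun i j => (h2 i j).pr
  exact Ctl.sub (r := (ABhsF F).rel _)
    (Ctl.le _ (Ctl.mul _ (he'.ctl (ABhsF F) 0) h1) (by omega))
    (Ctl.le _ (Ctl.mul (ABhsF F) (k := k) h.cf h3) (by omega))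

lemma ABhs_P_ge (he' : Std l' e') (hu : Deg d u) (v : Matrix I J (SkewMonoidAlgebra R (G × MZ)))
    (W : Matrix J X (SkewMonoidAlgebra R (G × MZ))) : MSup (ABhsGe G 0) (ABhsP d u v e' W) :=
  (ABhs_ge (ABhs_deg he' 0) (msup_mpr _ _) (by simp)).sub (ABhs_ge hu (msup_mpr _ _) (by simp))

lemma ABhs_P_eq (h : Iso r l l' e e' u v) (W : Matrix J X (SkewMonoidAlgebra R (G × MZ))) :
    ABhsP d u v e' W = u * mpr (ABhsGe G d)ᶜ (v * mpr (ABhsGe G 0) W) := by
  rw [ABhsP, ← h.fg, Matrix.mul_assoc, ← Matrix.mul_sub]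
  congr 1
  exact sub_eq_of_eq_add' (mpr_add_mpr_compl _ _).symm

lemma ABhs_P_lt (h : Iso r l l' e e' u v) (hu : Deg d u) {L : ℕ} (hL : 2 * d ≤ L)
    (W : Matrix J X (SkewMonoidAlgebra R (G × MZ))) : MSup (ABhsLt G L) (ABhsP d u v e' W) := by
  rw [ABhs_P_eq h]
  exact ABhs_lt (a := d) hu ((msup_mpr _ _).mono fun g hg => lt_of_not_ge (α := ℤ) hg)
    (by omega)

lemma ABhs_P_u (he : Std l e) (h : Iso r l l' e e' u v) (hu : Deg d u)
    {x : Matrix I X (SkewMonoidAlgebra R (G × MZ))} (hx : MSup (ABhsGe G d) x) :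
    ABhsP d u v e' (u * x) = 0 := by
  rw [ABhsP, (ABhs_ge hu hx (by simp)).mpr_eq, ← Matrix.mul_assoc, h.pf, ← Matrix.mul_assoc v,
    h.gf, ABhs_left (ABhs_deg he 0), hx.mpr_eq, ← Matrix.mul_assoc, h.fp, sub_self]

lemma ABhs_P_e (he' : Std l' e') (h : Iso r l l' e e' u v)
    (W : Matrix J X (SkewMonoidAlgebra R (G × MZ))) :
    ABhsP d u v e' (e' * mpr (ABhsGe G 0) W) = ABhsP d u v e' W := by
  rw [ABhs_P_eq h, ABhs_P_eq h, ABhs_left (ABhs_deg he' 0), (msup_mpr _ _).mpr_eq,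
    ← Matrix.mul_assoc v, h.gp]

lemma ABhs_P_P (he : Std l e) (he' : Std l' e') (h : Iso r l l' e e' u v) (hu : Deg d u)
    (W : Matrix J X (SkewMonoidAlgebra R (G × MZ))) :
    ABhsP d u v e' (ABhsP d u v e' W) = ABhsP d u v e' W := by
  conv_lhs => rw [ABhsP.eq_1 d u v e' W]
  rw [ABhs_P_sub, ABhs_P_e he' h, ABhs_P_u he h hu (msup_mpr _ _), sub_zero]

lemma ABhs_BP (he' : Std l' e') (h : Iso r l l' e e' u v) (hu : Deg d u) {L : ℕ}
    (hL : 2 * d ≤ L) (W : Matrix J X (SkewMonoidAlgebra R (G × MZ))) :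
    ABhsB R G J L * (ABhsC L (ABhsP d u v e' W)).map (ABhsI R G) = ABhsP d u v e' W :=
  ABhs_BC (ABhs_P_ge he' hu v W) (ABhs_P_lt h hu hL W)

lemma ABhs_win (he : Std l e) (he' : Std l' e') (h : Iso r l l' e e' u v) (hu : Deg d u)
    (L₁ : ℕ) {L : ℕ} (hL : 2 * d ≤ L) (W : Matrix J X (SkewMonoidAlgebra R (G × MZ))) :
    ABhsC L₁ (ABhsP d u v e' (ABhsB R G J L)) * ABhsC L (ABhsP d u v e' W) =
      ABhsC L₁ (ABhsP d u v e' W) := by
  rw [ABhs_C_mul, ABhs_P_right, ABhs_BP he' h hu hL, ABhs_P_P he he' h hu]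

lemma ABhs_P_zero (d : ℕ) (u : Matrix J I (SkewMonoidAlgebra R (G × MZ)))
    (v : Matrix I J (SkewMonoidAlgebra R (G × MZ))) (e : Matrix J J (SkewMonoidAlgebra R (G × MZ))) :
    ABhsP d u v e (0 : Matrix J X (SkewMonoidAlgebra R (G × MZ))) = 0 := by
  simpa only [sub_self] using ABhs_P_sub d u v e (0 : Matrix J X (SkewMonoidAlgebra R (G × MZ))) 0

/-- the shifted part of high degree -/
noncomputable def ABhsS (d : ℕ) (v : Matrix I J (SkewMonoidAlgebra R (G × MZ)))
    (W : Matrix J X (SkewMonoidAlgebra R (G × MZ))) : Matrix I X (SkewMonoidAlgebra R (G × MZ)) :=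
  tp R G (-d) • mpr (ABhsGe G d) (v * mpr (ABhsGe G 0) W)

lemma ABhs_S_right [Fintype X] (d : ℕ) (v : Matrix I J (SkewMonoidAlgebra R (G × MZ)))
    (W : Matrix J X (SkewMonoidAlgebra R (G × MZ))) (M : Matrix X Y (SkewMonoidAlgebra R G)) :
    ABhsS d v W * M.map (ABhsI R G) = ABhsS d v (W * M.map (ABhsI R G)) := by
  simp only [ABhsS, ABhs_smul_mul, Matrix.mul_assoc, ABhs_right]

lemma ABhs_S_sub (d : ℕ) (v : Matrix I J (SkewMonoidAlgebra R (G × MZ)))
    (W W' : Matrix J X (SkewMonoidAlgebra R (G × MZ))) :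
    ABhsS d v (W - W') = ABhsS d v W - ABhsS d v W' := by
  simp only [ABhsS, mpr_sub, Matrix.mul_sub, smul_sub]

lemma ABhs_S_ctl (h : Ctl (up (F.rel k)) l l' v) (d : ℕ) {k' : ℕ}
    {m : X → Λ} {W : Matrix J X (SkewMonoidAlgebra R (G × MZ))} (hW : Ctl (up (F.rel k')) l' m W) :
    Ctl (up (F.rel (k + k'))) l m (ABhsS d v W) := by
  have h1 : Ctl ((ABhsF F).rel k') l' m (mpr (ABhsGe G 0) W) := fun i j => (hW i j).pr
  exact ABhs_T_ctl _ fun i j => (Ctl.mul (ABhsF F) (k := k) h h1 i j).pr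

lemma ABhs_Su (he : Std l e) (h : Iso r l l' e e' u v) (hu : Deg d u)
    {x : Matrix I X (SkewMonoidAlgebra R (G × MZ))} (hx : MSup (ABhsGe G d) x) :
    ABhsS d v (u * x) = e * tp R G (-d) • x := by
  rw [ABhsS, (ABhs_ge hu hx (by simp)).mpr_eq, ← Matrix.mul_assoc v, h.gf,
    ABhs_left (ABhs_deg he 0), hx.mpr_eq, ABhs_T_mul]

lemma ABhs_Se (he' : Std l' e') (h : Iso r l l' e e' u v)
    (W : Matrix J X (SkewMonoidAlgebra R (G × MZ))) :
    ABhsS d v (e' * mpr (ABhsGe G 0) W) = ABhsS d v W := by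
  rw [ABhsS, ABhsS, ABhs_left (ABhs_deg he' 0), (msup_mpr _ _).mpr_eq, ← Matrix.mul_assoc v, h.gp]

lemma ABhs_SP (he : Std l e) (he' : Std l' e') (h : Iso r l l' e e' u v) (hu : Deg d u)
    (W : Matrix J X (SkewMonoidAlgebra R (G × MZ))) : ABhsS d v (ABhsP d u v e' W) = 0 := by
  rw [ABhsP, ABhs_S_sub, ABhs_Se he' h, ABhs_Su he h hu (msup_mpr _ _), ABhs_T_mul,
    ← ABhs_left (ABhs_deg he 0), ← Matrix.mul_assoc, h.pg, ABhsS, sub_self]

variable {r' r'' : Λ → G × MZ → Λ → Prop} {d' : ℕ} {l'' : K → Λ}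
  {e'' : Matrix K K (SkewMonoidAlgebra R (G × MZ))} {u' : Matrix K J (SkewMonoidAlgebra R (G × MZ))}
  {v' : Matrix J K (SkewMonoidAlgebra R (G × MZ))}

lemma ABhs_deg_mul (hu : Deg d u) (hu' : Deg d' u') : Deg (d + d') (u' * u) :=
  MSup.mul hu' hu fun x hx y hy => by
    have h1 := abs_le.1 (show |Multiplicative.toAdd x.2| ≤ (d' : ℤ) from hx)
    have h2 := abs_le.1 (show |Multiplicative.toAdd y.2| ≤ (d : ℤ) from hy)
    change |Multiplicative.toAdd x.2 + Multiplicative.toAdd y.2| ≤ _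
    rw [abs_le]
    omega

lemma ABhs_a12 (he' : Std l' e') (he'' : Std l'' e'')
    (h' : Iso r' l' l'' e' e'' u' v') (hu : Deg d u) (hu' : Deg d' u')
    (W : Matrix K X (SkewMonoidAlgebra R (G × MZ))) :
    ABhsP d' u' v' e'' (ABhsP (d + d') (u' * u) (v * v') e'' W) = ABhsP d' u' v' e'' W := by
  rw [ABhsP.eq_1 (d + d'), ABhs_P_sub, ABhs_P_e he'' h', Matrix.mul_assoc u',
    ABhs_P_u he' h' hu' (ABhs_ge hu (msup_mpr _ _) (by omega)), sub_zero]

lemma ABhs_b12 (he : Std l e) (he' : Std l' e') (he'' : Std l'' e'') (h : Iso r l l' e e' u v)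
    (h' : Iso r' l' l'' e' e'' u' v') (hu : Deg d u) (hu' : Deg d' u')
    (W : Matrix K X (SkewMonoidAlgebra R (G × MZ))) :
    ABhsP d u v e' (ABhsS d' v' (ABhsP (d + d') (u' * u) (v * v') e'' W)) =
      ABhsP d u v e' (ABhsS d' v' W) := by
  rw [ABhsP.eq_1 (d + d'), ABhs_S_sub, ABhs_Se he'' h', Matrix.mul_assoc u',
    ABhs_Su he' h' hu' (ABhs_ge hu (msup_mpr _ _) (by omega)), ← ABhs_T_mul,
    ← Matrix.mul_assoc e', h.pf, ABhs_P_sub,
    ABhs_P_u he h hu (ABhs_T_ge (msup_mpr _ _) (by omega)), sub_zero]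

lemma ABhs_gf (he : Std l e) (he'' : Std l'' e'')
    (h12 : Iso r'' l l'' e e'' (u' * u) (v * v')) (h' : Iso r' l' l'' e' e'' u' v')
    (hu : Deg (d + d') (u' * u)) (W : Matrix K X (SkewMonoidAlgebra R (G × MZ))) :
    ABhsP (d + d') (u' * u) (v * v') e'' (ABhsP d' u' v' e'' W) +
      ABhsP (d + d') (u' * u) (v * v') e'' (u' * (tp R G d' • ABhsP d u v e' (ABhsS d' v' W))) =
      ABhsP (d + d') (u' * u) (v * v') e'' W := by
  have h1 : MSup (ABhsGe G 0) (ABhsS d' v' W) := ABhs_T_ge (msup_mpr _ _) (by simp)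
  rw [ABhsP.eq_1 d', ABhsP.eq_1 d, h1.mpr_eq, smul_sub, ← ABhs_T_mul, ← ABhs_T_mul, ABhsS,
    ABhs_T_T (add_neg_cancel _), Matrix.mul_sub, ← Matrix.mul_assoc u' e', h'.fp,
    ← Matrix.mul_assoc u' u, ABhs_P_sub, ABhs_P_sub, ABhs_P_e he'' h12,
    ABhs_P_u he h12 hu (ABhs_T_ge (msup_mpr _ _) (by omega)), sub_zero, sub_add_cancel]

end Aux

theorem exists_deg (u : Matrix I J (SkewMonoidAlgebra R (G × MZ))) : ∃ d, Deg d u := by
  obtain ⟨s, hs, -⟩ := exists_finset_msup u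
  refine ⟨s.sup fun g => (Multiplicative.toAdd g.2).natAbs, hs.mono fun g hg => ?_⟩
  have := Finset.le_sup (f := fun g : G × MZ => (Multiplicative.toAdd g.2).natAbs) hg
  change |Multiplicative.toAdd g.2| ≤ _
  rw [← Int.natCast_natAbs]
  exact Int.ofNat_le.2 this

theorem Deg.mono {d d' : ℕ} {u : Matrix I J (SkewMonoidAlgebra R (G × MZ))} (h : Deg d u)
    (hd : d ≤ d') : Deg d' u :=
  MSup.mono h fun _ hg => le_trans (α := ℤ) hg (Int.ofNat_le.2 hd)

theorem Std.deg {l : I → Λ} {e : Matrix I I (SkewMonoidAlgebra R (G × MZ))} (h : Std l e) (d : ℕ) :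
    Deg d e :=
  ABhs_deg h d

variable (F : GN.FR G Λ) {k : ℕ} {l : I → Λ} {l' : J → Λ} {l'' : K → Λ}
  {e : Matrix I I (SkewMonoidAlgebra R (G × MZ))} {e' : Matrix J J (SkewMonoidAlgebra R (G × MZ))}
  {e'' : Matrix K K (SkewMonoidAlgebra R (G × MZ))}
  {u : Matrix J I (SkewMonoidAlgebra R (G × MZ))} {v : Matrix I J (SkewMonoidAlgebra R (G × MZ))}

theorem bhs_idem {d L : ℕ} (he : Std l e) (he' : Std l' e')
    (h : Iso (up (F.rel k)) l l' e e' u v) (hu : Deg d u) (hv : Deg d v) (hL : 2 * d ≤ L) :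
    bhs d L u v e' * bhs d L u v e' = bhs d L u v e' ∧
      Ctl (F.rel (2 * k)) (fun x : J × Fin L => l' x.1) (fun x => l' x.1) (bhs d L u v e') := by
  rw [ABhs_eq]
  exact ⟨ABhs_win he he' h hu L hL _, ABhs_C_ctl L (ABhs_P_ctl F he' h d (ABhs_B_ctl F l' L))⟩

theorem bhs_win {d L L' : ℕ} (he : Std l e) (he' : Std l' e')
    (h : Iso (up (F.rel k)) l l' e e' u v) (hu : Deg d u) (hv : Deg d v) (hL : 2 * d ≤ L)
    (hL' : 2 * d ≤ L') :
    ∃ f g, Iso (F.rel (2 * k)) (fun x : J × Fin L => l' x.1) (fun x : J × Fin L' => l' x.1)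
      (bhs d L u v e') (bhs d L' u v e') f g :=
  ⟨ABhsC L' (ABhsP d u v e' (ABhsB R G J L)), ABhsC L (ABhsP d u v e' (ABhsB R G J L')),
    ABhs_win he he' h hu L hL' _, ABhs_win he he' h hu L' hL _, ABhs_win he he' h hu L' hL _,
    ABhs_win he he' h hu L hL _, ABhs_C_ctl L' (ABhs_P_ctl F he' h d (ABhs_B_ctl F l' L)),
    ABhs_C_ctl L (ABhs_P_ctl F he' h d (ABhs_B_ctl F l' L'))⟩

theorem bhs_mul {d d' L : ℕ} {u' : Matrix K J (SkewMonoidAlgebra R (G × MZ))}
    {v' : Matrix J K (SkewMonoidAlgebra R (G × MZ))} (he : Std l e) (he' : Std l' e')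
    (he'' : Std l'' e'') (h : Iso (up (F.rel k)) l l' e e' u v)
    (h' : Iso (up (F.rel k)) l' l'' e' e'' u' v') (hu : Deg d u) (hv : Deg d v) (hu' : Deg d' u')
    (hv' : Deg d' v') (hL : 2 * (d + d') ≤ L) :
    ∃ f g, Iso (F.rel (10 * k)) (fun x : K × Fin L => l'' x.1)
      (Sum.elim (fun x : K × Fin L => l'' x.1) fun x : J × Fin L => l' x.1)
      (bhs (d + d') L (u' * u) (v * v') e'')
      (fromBlocks (bhs d' L u' v' e'') 0 0 (bhs d L u v e')) f g := by
  have h12 : Iso (up (F.rel (k + k))) l l'' e e'' (u' * u) (v * v') :=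
    Iso.trans (ABhsF F) (k := k) (k' := k) h h'
  have hu12 : Deg (d + d') (u' * u) := ABhs_deg_mul hu hu'
  have b1 := ABhs_BP (X := J × Fin L) he' h hu (L := L) (by omega)
  have b1' := ABhs_BP (X := K × Fin L) he' h hu (L := L) (by omega)
  have b2 := ABhs_BP (X := K × Fin L) he'' h' hu' (L := L) (by omega)
  have b12 := ABhs_BP (X := K × Fin L) he'' h12 hu12 hL
  have b12' := ABhs_BP (X := J × Fin L) he'' h12 hu12 hL
  have cK := ABhs_B_ctl (R := R) F l'' L
  have cJ := ABhs_B_ctl (R := R) F l' L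
  rw [ABhs_eq, ABhs_eq, ABhs_eq]
  refine ⟨fromRows (ABhsC L (ABhsP d' u' v' e'' (ABhsB R G K L)))
    (ABhsC L (ABhsP d u v e' (ABhsS d' v' (ABhsB R G K L)))),
    fromCols (ABhsC L (ABhsP (d + d') (u' * u) (v * v') e'' (ABhsP d' u' v' e'' (ABhsB R G K L))))
      (ABhsC L (ABhsP (d + d') (u' * u) (v * v') e''
        (u' * (tp R G d' • ABhsP d u v e' (ABhsB R G J L))))), ?_, ?_, ?_, ?_, ?_, ?_⟩
  · rw [fromCols_mul_fromRows]
    simp only [ABhs_C_mul, ABhs_P_right, Matrix.mul_assoc, ABhs_smul_mul, b1', b2, ABhs_C_add]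
    rw [ABhs_P_P he' he'' h' hu', ABhs_P_P he he' h hu, ABhs_gf he he'' h12 h' hu12]
  · rw [fromRows_mul_fromCols]
    simp only [ABhs_C_mul, ABhs_P_right, ABhs_S_right, b12, b12', ABhs_a12 he' he'' h' hu hu',
      ABhs_b12 he he' he'' h h' hu hu']
    rw [ABhs_P_P he' he'' h' hu',
      ABhs_P_u he' h' hu' (ABhs_T_ge (ABhs_P_ge he' hu _ _) (by simp)), ABhs_SP he' he'' h' hu',
      ABhs_Su he' h' hu' (ABhs_T_ge (ABhs_P_ge he' hu _ _) (by simp)),
      ABhs_T_T (neg_add_cancel _), ABhs_P_zero, ← (ABhs_P_ge he' hu v (ABhsB R G J L)).mpr_eq,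
      ABhs_P_e he' h, ABhs_P_P he he' h hu, (ABhs_P_ge he' hu v (ABhsB R G J L)).mpr_eq,
      ABhs_C_zero, ABhs_C_zero]
  · rw [fromRows_mul]
    simp only [ABhs_C_mul, ABhs_P_right, ABhs_S_right, b12, ABhs_a12 he' he'' h' hu hu',
      ABhs_b12 he he' he'' h h' hu hu']
  · rw [mul_fromCols, ABhs_win he he'' h12 hu12 L hL, ABhs_win he he'' h12 hu12 L hL]
  · rintro (x | x) y
    · exact Ctl.le F (ABhs_C_ctl L (ABhs_P_ctl F he'' h' d' cK)) (by omega) x y
    · exact Ctl.le F (ABhs_C_ctl L (ABhs_P_ctl F he' h d (ABhs_S_ctl F h'.cg d' cK)))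
        (by omega) x y
  · rintro x (y | y)
    · exact Ctl.le F (ABhs_C_ctl L (ABhs_P_ctl F he'' h12 _ (ABhs_P_ctl F he'' h' d' cK)))
        (by omega) x y
    · exact Ctl.le F (ABhs_C_ctl L (ABhs_P_ctl F he'' h12 _ (Ctl.mul (ABhsF F) (k := k) h'.cf
        (ABhs_T_ctl _ (ABhs_P_ctl F he' h d cJ))))) (by omega) x y

end Pool.Agent.MP_f7db47_al.TW

end

end

section

/-!
Twisted coefficients: part ABhs2.
-/

set_option linter.unusedSectionVars false

universe u u' v w

section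

namespace Pool.Agent.MP_f7db47_al.TW

open GN

open Matrix

variable {R : Type v} [Ring R] {G : Type} [Group G] [MulSemiringAction G R] {Λ : Type} {I J K M : Type}
  [Fintype I] [DecidableEq I] [Fintype J] [DecidableEq J] [Fintype K] [DecidableEq K]
  [Fintype M] [DecidableEq M]

/-- The element `x t ^ b`. -/
noncomputable def abhs2T (b : ℤ) : SkewMonoidAlgebra R G →+ SkewMonoidAlgebra R (G × MZ) :=
  (AddMonoidHom.mulRight (tp R G b)).comp
    (mapR R (MonoidHom.inl G MZ)).toAddMonoidHom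

lemma abhs2_single (b : ℤ) (g : G) (r : R) :
    abhs2T b (SkewMonoidAlgebra.single g r) = SkewMonoidAlgebra.single (g, Multiplicative.ofAdd b) r := by
  simp [abhs2T, tp, SkewMonoidAlgebra.single_mul_single]

lemma abhs2_mul (a b : ℤ) (x y : SkewMonoidAlgebra R G) :
    abhs2T a x * abhs2T b y = abhs2T (a + b) (x * y) := by
  induction x using Sk.induction_linear with
  | zero => simp
  | add x x' h h' => simp only [map_add, add_mul, h, h']
  | single g r =>
    induction y using Sk.induction_linear with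
    | zero => simp
    | add y y' h h' => simp only [map_add, mul_add, h, h']
    | single g' r' =>
      simp only [abhs2_single, SkewMonoidAlgebra.single_mul_single, Prod.mk_mul_mk, ofAdd_add,
        prod_smul]

lemma abhs2_sup {S : Set G} {x : SkewMonoidAlgebra R G} (hx : Sup S x) (b : ℤ) :
    Sup {g : G × MZ | g.1 ∈ S ∧ Multiplicative.toAdd g.2 = b} (abhs2T b x) := by
  refine hx.induction (P := fun x => Sup {g : G × MZ | g.1 ∈ S ∧ Multiplicative.toAdd g.2 = b}
    (abhs2T b x)) (by simpa using sup_zero _) (fun a c ha hc => by simpa using ha.add hc)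
    fun g hg r => ?_
  rw [abhs2_single]
  exact sup_single (S := {g : G × MZ | g.1 ∈ S ∧ Multiplicative.toAdd g.2 = b}) ⟨hg, rfl⟩ r

lemma abhs2_cf (a b : ℤ) (x : SkewMonoidAlgebra R G) :
    cf a (abhs2T b x) = if a = b then x else 0 := by
  induction x using Sk.induction_linear with
  | zero => simp
  | add x x' h h' =>
    simp only [map_add, h, h']
    split_ifs <;> simp
  | single g r =>
    rw [abhs2_single]
    split_ifs with h
    · subst h
      exact Sk.comapDomain_single_map (fun g : G => (g, Multiplicative.ofAdd a))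
        (fun _ _ h => congrArg Prod.fst h) g r
    · refine Sk.comapDomain_single_of_not_mem_range ?_ fun _ _ h => congrArg Prod.fst h
      rintro ⟨g', hg'⟩
      exact h (congrArg (fun z : G × MZ => Multiplicative.toAdd z.2) hg')

lemma abhs2_pr (c b : ℤ) (x : SkewMonoidAlgebra R G) :
    pr {g : G × MZ | c ≤ Multiplicative.toAdd g.2} (abhs2T b x) =
      if c ≤ b then abhs2T b x else 0 := by
  have h := abhs2_sup (sup_univ x) b
  split_ifs with hc
  · exact (h.mono fun g hg => by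
      change c ≤ Multiplicative.toAdd g.2
      rw [hg.2]
      exact hc).pr_eq
  · refine h.pr_eq_zero fun g hg h' => hc ?_
    have h2 : c ≤ Multiplicative.toAdd g.2 := h'
    rwa [hg.2] at h2

/-- The vector `w t ^ b`. -/
noncomputable def abhs2V (b : ℤ) (w : J → SkewMonoidAlgebra R G) : J → SkewMonoidAlgebra R (G × MZ) :=
  fun j => abhs2T b (w j)

lemma abhs2_mulVec (a b : ℤ) (p : Matrix I J (SkewMonoidAlgebra R G)) (w : J → SkewMonoidAlgebra R G) :
    p.map (abhs2T a) *ᵥ abhs2V b w = abhs2V (a + b) (p *ᵥ w) := by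
  funext i
  simp only [mulVec, dotProduct, abhs2V, map_apply, abhs2_mul, map_sum]

lemma abhs2_mmul (a b : ℤ) (p : Matrix I J (SkewMonoidAlgebra R G))
    (q : Matrix J K (SkewMonoidAlgebra R G)) :
    p.map (abhs2T a) * q.map (abhs2T b) = (p * q).map (abhs2T (a + b)) := by
  ext1 i k
  simp only [Matrix.mul_apply, map_apply, abhs2_mul, map_sum]

lemma abhs2_chi (c b : ℤ) (w : J → SkewMonoidAlgebra R G) :
    chi c (abhs2V b w) = if c ≤ b then abhs2V b w else 0 := by
  funext j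
  simp only [chi, abhs2V, abhs2_pr]
  split_ifs <;> rfl

lemma abhs2_chi_add (c : ℤ) (w w' : J → SkewMonoidAlgebra R (G × MZ)) :
    chi c (w + w') = chi c w + chi c w' := funext fun _ => map_add _ _ _

lemma abhs2_chi_zero (c : ℤ) : chi c (0 : J → SkewMonoidAlgebra R (G × MZ)) = 0 :=
  funext fun _ => map_zero _

lemma abhs2_pi (j : J) (b : ℤ) :
    (Pi.single j (tp R G b) : J → SkewMonoidAlgebra R (G × MZ)) = abhs2V b (Pi.single j 1) := by
  funext i
  by_cases h : i = j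
  · subst h
    simp only [abhs2V, Pi.single_eq_same]
    exact (abhs2_single b 1 1).symm
  · simp only [abhs2V, Pi.single_eq_of_ne h, map_zero]

lemma abhs2_one : (1 : Matrix I I (SkewMonoidAlgebra R G)).map (abhs2T 0) = 1 := by
  refine Matrix.map_one _ (map_zero _) ?_
  exact abhs2_single 0 1 1

lemma abhs2_ctl {r : Λ → G → Λ → Prop} {l : I → Λ} {l' : J → Λ}
    {p : Matrix I J (SkewMonoidAlgebra R G)} (h : Ctl r l l' p) (b : ℤ) :
    Ctl (up r) l l' (p.map (abhs2T b)) := fun i j => (abhs2_sup (h i j) b).mono fun _ hg => hg.1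

lemma abhs2_deg (p : Matrix I J (SkewMonoidAlgebra R G)) {b : ℤ} {d : ℕ} (hb : |b| ≤ d) :
    Deg d (p.map (abhs2T b)) := fun i j => (abhs2_sup (sup_univ (p i j)) b).mono fun g hg => by
  change |Multiplicative.toAdd g.2| ≤ (d : ℤ)
  rw [hg.2]
  exact hb

lemma abhs2_chi_elim (c : ℤ) (w : J → SkewMonoidAlgebra R (G × MZ))
    (w' : M → SkewMonoidAlgebra R (G × MZ)) :
    chi c (Sum.elim w w') = Sum.elim (chi c w) (chi c w') := by
  funext x
  cases x <;> rfl

lemma abhs2_diag (u : Matrix J I (SkewMonoidAlgebra R (G × MZ)))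
    (u' : Matrix M K (SkewMonoidAlgebra R (G × MZ))) (w : I → SkewMonoidAlgebra R (G × MZ))
    (w' : K → SkewMonoidAlgebra R (G × MZ)) :
    fromBlocks u 0 0 u' *ᵥ Sum.elim w w' = Sum.elim (u *ᵥ w) (u' *ᵥ w') := by
  rw [fromBlocks_mulVec]
  simp

lemma abhs2_bop_zero (d : ℕ) (u : Matrix J I (SkewMonoidAlgebra R (G × MZ)))
    (v : Matrix I J (SkewMonoidAlgebra R (G × MZ))) (e : Matrix J J (SkewMonoidAlgebra R (G × MZ))) :
    bop d u v e 0 = 0 := by
  simp only [bop, abhs2_chi_zero, mulVec_zero, sub_zero]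

lemma abhs2_bop_sum (d : ℕ) (u : Matrix J I (SkewMonoidAlgebra R (G × MZ)))
    (v : Matrix I J (SkewMonoidAlgebra R (G × MZ))) (e : Matrix J J (SkewMonoidAlgebra R (G × MZ)))
    (u' : Matrix M K (SkewMonoidAlgebra R (G × MZ))) (v' : Matrix K M (SkewMonoidAlgebra R (G × MZ)))
    (e' : Matrix M M (SkewMonoidAlgebra R (G × MZ))) (w : J → SkewMonoidAlgebra R (G × MZ))
    (w' : M → SkewMonoidAlgebra R (G × MZ)) :
    bop d (fromBlocks u 0 0 u') (fromBlocks v 0 0 v') (fromBlocks e 0 0 e') (Sum.elim w w') =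
      Sum.elim (bop d u v e w) (bop d u' v' e' w') := by
  simp only [bop, abhs2_chi_elim, abhs2_diag]
  funext x
  cases x <;> rfl

theorem bhs_std {l : I → Λ} {e : Matrix I I (SkewMonoidAlgebra R (G × MZ))} (he : Std l e)
    (d L : ℕ) : Std (fun x : I × Fin L => l x.1) (bhs d L e e e) := by
  classical
  set E : Matrix I I (SkewMonoidAlgebra R G) :=
    diagonal fun i => if e i i = 1 then 1 else 0 with hE
  have hs : Std l E := std_diag l _
  have hEE : E * E = E := hs.idem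
  have h4 : e = E.map (abhs2T 0) := by
    ext1 i j
    rw [map_apply]
    by_cases hij : i = j
    · subst hij
      rw [hE, diagonal_apply_eq]
      split_ifs with h
      · exact h.trans (abhs2_single 0 1 1).symm
      · rw [map_zero]
        exact (he.2 i).resolve_left h
    · rw [he.1 i j hij, hs.1 i j hij, map_zero]
  have key : ∀ x y, bhs d L e e e x y =
      if x.2 = y.2 ∧ (y.2 : ℕ) < d then E x.1 y.1 else 0 := by
    intro x y
    have h5 : (0 : ℤ) ≤ ((y.2 : ℕ) : ℤ) := Int.natCast_nonneg _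
    simp only [bhs, bop, h4, abhs2_pi, abhs2_chi, if_pos h5, abhs2_mulVec, zero_add]
    by_cases h : (y.2 : ℕ) < d
    · have h6 : ¬ ((d : ℤ) ≤ ((y.2 : ℕ) : ℤ)) := by omega
      simp only [if_neg h6, mulVec_zero, sub_zero, abhs2V, abhs2_cf, h, and_true, Nat.cast_inj,
        Fin.val_inj, mulVec_single_one, col_apply]
    · have h6 : (d : ℤ) ≤ ((y.2 : ℕ) : ℤ) := by omega
      simp only [if_pos h6, abhs2_mulVec, zero_add, mulVec_mulVec, hEE, sub_self, h, and_false,
        if_false]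
      simp
  refine ⟨fun x y hxy => ?_, fun x => ?_⟩
  · rw [key]
    split_ifs with h
    · exact hs.1 _ _ fun c => hxy (Prod.ext c h.1)
    · rfl
  · rw [key]
    split_ifs
    · exact hs.2 _
    · exact Or.inr rfl

theorem bhs_sum (d L : ℕ) (u : Matrix J I (SkewMonoidAlgebra R (G × MZ)))
    (v : Matrix I J (SkewMonoidAlgebra R (G × MZ))) (e : Matrix J J (SkewMonoidAlgebra R (G × MZ)))
    (u' : Matrix M K (SkewMonoidAlgebra R (G × MZ))) (v' : Matrix K M (SkewMonoidAlgebra R (G × MZ)))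
    (e' : Matrix M M (SkewMonoidAlgebra R (G × MZ))) :
    (bhs d L (fromBlocks u 0 0 u') (fromBlocks v 0 0 v') (fromBlocks e 0 0 e')).submatrix
        (Equiv.sumProdDistrib J M (Fin L)).symm (Equiv.sumProdDistrib J M (Fin L)).symm =
      fromBlocks (bhs d L u v e) 0 0 (bhs d L u' v' e') := by
  have hl : ∀ (j : J) (t : SkewMonoidAlgebra R (G × MZ)),
      (Pi.single (Sum.inl j) t : J ⊕ M → SkewMonoidAlgebra R (G × MZ)) =
        Sum.elim (Pi.single j t) 0 := fun j t => (Sum.elim_single_zero j t).symm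
  have hr : ∀ (j : M) (t : SkewMonoidAlgebra R (G × MZ)),
      (Pi.single (Sum.inr j) t : J ⊕ M → SkewMonoidAlgebra R (G × MZ)) =
        Sum.elim (0 : J → SkewMonoidAlgebra R (G × MZ)) (Pi.single j t) :=
    fun j t => (Sum.elim_zero_single j t).symm
  ext1 x y
  rcases x with ⟨i, a⟩ | ⟨i, a⟩ <;> rcases y with ⟨j, b⟩ | ⟨j, b⟩ <;>
    simp only [submatrix_apply, Equiv.sumProdDistrib_symm_apply_left,
      Equiv.sumProdDistrib_symm_apply_right, bhs, hl, hr, abhs2_bop_sum, abhs2_bop_zero,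
      Sum.elim_inl, Sum.elim_inr, fromBlocks_apply₁₁, fromBlocks_apply₁₂, fromBlocks_apply₂₁,
      fromBlocks_apply₂₂, Pi.zero_apply, map_zero, Matrix.zero_apply]

/-- The automorphism `t p + 1 - p`. -/
theorem bhs_basic (F : GN.FR G Λ) {k k' : ℕ} {l : I → Λ} {p : Matrix I I (SkewMonoidAlgebra R G)}
    (hp : p * p = p) (hc : Ctl (F.rel k) l l p) :
    ∃ u v : Matrix I I (SkewMonoidAlgebra R (G × MZ)), Iso (up (F.rel k)) l l 1 1 u v ∧ Deg 1 u ∧
      Deg 1 v ∧ (SS (F.rel k') (fun x : I × Fin 2 => l x.1) (bhs 1 2 u v 1) →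
        SS (F.rel k') l p) := by
  have q1 : p * (1 - p) = 0 := by rw [mul_sub, mul_one, hp, sub_self]
  have q2 : (1 - p) * p = 0 := by rw [sub_mul, one_mul, hp, sub_self]
  have q3 : (1 - p) * (1 - p) = 1 - p := by rw [mul_sub, mul_one, q2, sub_zero]
  have key : ∀ a b : ℤ, a + b = 0 → (p.map (abhs2T a) + (1 - p).map (abhs2T 0)) *
      (p.map (abhs2T b) + (1 - p).map (abhs2T 0)) = 1 := by
    intro a b hab
    have z : ∀ c : ℤ, (0 : Matrix I I (SkewMonoidAlgebra R G)).map (abhs2T c) = 0 :=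
      fun c => Matrix.map_zero _ (map_zero _)
    simp only [add_mul, mul_add, abhs2_mmul, hp, q1, q2, q3, hab, add_zero, z, zero_add]
    rw [← Matrix.map_add _ (map_add _), add_sub_cancel, abhs2_one]
  have hc' : ∀ a : ℤ, Ctl (up (F.rel k)) l l (p.map (abhs2T a) + (1 - p).map (abhs2T 0)) :=
    fun a => (abhs2_ctl hc a).add (abhs2_ctl ((ctl_one F k l).sub hc) 0)
  have hd : ∀ a : ℤ, |a| ≤ (1 : ℕ) → Deg 1 (p.map (abhs2T a) + (1 - p).map (abhs2T 0)) :=
    fun a ha i j => (abhs2_deg p ha i j).add (abhs2_deg (1 - p) (by simp) i j)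
  refine ⟨_, _, ⟨key (-1) 1 (by simp), key 1 (-1) (by simp), mul_one _, one_mul _, hc' _, hc' _⟩,
    hd _ (by simp), hd _ (by simp), fun h => ?_⟩
  have b0 : ∀ w : I → SkewMonoidAlgebra R G, bop 1 (p.map (abhs2T 1) + (1 - p).map (abhs2T 0))
      (p.map (abhs2T (-1)) + (1 - p).map (abhs2T 0)) 1 (abhs2V 0 w) = abhs2V 0 w := by
    intro w
    simp [bop, abhs2_chi, add_mulVec, abhs2_mulVec, abhs2_chi_add]
  have b1 : ∀ w : I → SkewMonoidAlgebra R G, bop 1 (p.map (abhs2T 1) + (1 - p).map (abhs2T 0))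
      (p.map (abhs2T (-1)) + (1 - p).map (abhs2T 0)) 1 (abhs2V 1 w) = abhs2V 1 (p *ᵥ w) := by
    intro w
    simp [bop, abhs2_chi, add_mulVec, abhs2_mulVec, abhs2_chi_add, q1, q3]
    funext i
    simp [abhs2V, sub_mulVec]
  let a : I × Fin 2 ≃ I ⊕ I :=
    { toFun := fun x => if x.2 = 1 then Sum.inl x.1 else Sum.inr x.1
      invFun := Sum.elim (fun i => (i, 1)) fun i => (i, 0)
      left_inv := by
        rintro ⟨i, m⟩
        fin_cases m <;> simp
      right_inv := by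
        rintro (i | i) <;> simp }
  refine SS.of_sum_std (std_one l) (SS.of_reindex a ?_)
  convert h using 1
  · funext x
    obtain ⟨i, m⟩ := x
    fin_cases m <;> simp [a]
  · ext1 ⟨i, m⟩ ⟨j, n⟩
    fin_cases m <;> fin_cases n <;>
      simp [a, bhs, abhs2_pi, b0, b1, abhs2V, abhs2_cf, Matrix.one_apply, Pi.single_apply]

end Pool.Agent.MP_f7db47_al.TW

end

end
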