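import Pool.Agent.Mg.Ff7db47.G922e1f
import Pool.Agent.Mg.Ff7db47.G0ffa8c
import Pool.Agent.Mg.Ff7db47.Ge4601e
import Pool.Agent.Mg.Ff7db47.G42fc5e

section

/-!
Chains, and the finite sets of past segments.
-/

set_option linter.unusedSectionVars false

namespace Pool.Agent.MP_f7db47_al.PT

universe u w

variable {G : Type u} [Group G]

namespace CS

variable {E : Type w} [MulAction G E] (c : CS G E)

lemma dep_self (x : E) : c.dep x x = 0 := by
  have := c.add (c.refl x) (c.refl x)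
  omega

lemma uniq {x y y' z : E} (h1 : c.le z y) (h2 : c.le y x) (h3 : c.le z y') (h4 : c.le y' x)
    (h : c.dep x y = c.dep x y') : y = y' := by
  have h5 := c.lin h1 h2 h3 h4 h.le
  have h6 := c.add h5 h2
  exact (c.zero h5 (by omega)).symm

lemma le_inv {g : G} {x y : E} (h : c.le x (g • y)) : c.le (g⁻¹ • x) y := by
  simpa using c.smul g⁻¹ h

lemma inv_le {g : G} {x y : E} (h : c.le (g • x) y) : c.le x (g⁻¹ • y) := by
  simpa using c.smul g⁻¹ h

lemma of_smul {g : G} {x y : E} (h : c.le (g • x) (g • y)) : c.le x y := by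
  simpa using c.smul g⁻¹ h

/-- The opposite order. -/
def op : CS G E where
  le x y := c.le y x
  dep x y := c.dep y x
  refl := c.refl
  trans h1 h2 := c.trans h2 h1
  smul g _ _ h := c.smul g h
  dep_smul g x y := c.dep_smul g y x
  add h1 h2 := by rw [c.add h2 h1, add_comm]
  zero h1 h2 := (c.zero h1 h2).symm
  mid {x z} a h1 h2 := by
    obtain ⟨y, h3, h4, h5⟩ := c.mid (c.dep z x - a) h1 (by omega)
    have := c.add h3 h4
    exact ⟨y, h4, h3, by omega⟩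
  lin h1 h2 h3 h4 h := by
    have := c.add h2 h1
    have := c.add h4 h3
    exact c.lin h4 h3 h2 h1 (by omega)

open Classical in
/-- The point at depth `a` on the chain from `x` down to `z`. -/
noncomputable def pt (x z : E) (a : ℕ) : E :=
  if h : c.le z x ∧ a ≤ c.dep x z then (c.mid a h.1 h.2).choose else x

lemma pt_spec {x z : E} {a : ℕ} (h1 : c.le z x) (h2 : a ≤ c.dep x z) :
    c.le z (c.pt x z a) ∧ c.le (c.pt x z a) x ∧ c.dep x (c.pt x z a) = a := by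
  rw [pt, dif_pos ⟨h1, h2⟩]
  exact (c.mid a h1 h2).choose_spec

end CS

variable {ι : Type} {V : ι → Type w} [∀ τ, MulAction G (V τ)] (c : ∀ τ, CS G (V τ))
variable {J : Type} (l : J → ∀ τ, V τ) (Φ : J → J → Set G)

/-- The past segments of length `m` that occur along paths of arrows of `Φ`. -/
def Up : ℕ → J → Set (∀ τ, V τ)
  | 0, j => {l j}
  | m + 1, j => {x | ∃ i, ∃ g ∈ Φ i j, ∃ y ∈ Up m i, ∀ τ, (c τ).le (l j τ) (x τ) ∧
      (c τ).le (g • x τ) (y τ) ∧ (c τ).dep (x τ) (l j τ) = m + 1}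

/-- The arrows of `Φ` are strictly positive. -/
def Str : Prop :=
  ∀ i j, ∀ g ∈ Φ i j, ∀ τ, (c τ).le (g • l j τ) (l i τ) ∧ 1 ≤ (c τ).dep (l i τ) (g • l j τ)

/-- A step along an arrow of `Φ` or along the identity. -/
def Stp (i j : J) (g : G) (a b : ℕ) : Prop :=
  (g ∈ Φ i j ∧ a ≤ b + 1) ∨ (i = j ∧ g = 1 ∧ a ≤ b)

variable {c l Φ}

lemma Up.spec {m : ℕ} {j : J} {x : ∀ τ, V τ} (h : x ∈ Up c l Φ m j) (τ : ι) :
    (c τ).le (l j τ) (x τ) ∧ (c τ).dep (x τ) (l j τ) = m := by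
  cases m with
  | zero =>
    rw [Up, Set.mem_singleton_iff] at h
    rw [h]
    exact ⟨(c τ).refl _, (c τ).dep_self _⟩
  | succ m =>
    obtain ⟨i, g, -, y, -, h⟩ := h
    exact ⟨(h τ).1, (h τ).2.2⟩

lemma Up.finite [Finite J] (hΦ : ∀ i j, (Φ i j).Finite) (m : ℕ) (j : J) :
    (Up c l Φ m j).Finite := by
  induction m generalizing j with
  | zero => exact Set.finite_singleton _
  | succ m ih =>
    have : Up c l Φ (m + 1) j = ⋃ i, ⋃ g ∈ Φ i j, ⋃ y ∈ Up c l Φ m i,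
        {x : ∀ τ, V τ | ∀ τ, (c τ).le (l j τ) (x τ) ∧
          (c τ).le (g • x τ) (y τ) ∧ (c τ).dep (x τ) (l j τ) = m + 1} := by
      ext x
      simp only [Up, Set.mem_ofPred_eq, Set.mem_iUnion, exists_prop]
    rw [this]
    refine Set.finite_iUnion fun i => (hΦ i j).biUnion fun g _ => (ih i).biUnion fun y _ => ?_
    refine Set.Subsingleton.finite fun x hx x' hx' => funext fun τ => ?_
    obtain ⟨h1, h2, h3⟩ := hx τ
    obtain ⟨h4, h5, h6⟩ := hx' τ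
    have e1 := (c τ).add ((c τ).smul g h1) h2
    have e2 := (c τ).add ((c τ).smul g h4) h5
    rw [(c τ).dep_smul] at e1 e2
    exact smul_left_cancel g ((c τ).uniq ((c τ).smul g h1) h2 ((c τ).smul g h4) h5 (by omega))

lemma Up.trunc1 (hs : Str c l Φ) {m : ℕ} {j : J} {x x' : ∀ τ, V τ} (h : x ∈ Up c l Φ (m + 1) j)
    (h' : ∀ τ, (c τ).le (l j τ) (x' τ) ∧ (c τ).le (x' τ) (x τ) ∧ (c τ).dep (x' τ) (l j τ) = m) :
    x' ∈ Up c l Φ m j := by
  induction m generalizing j x x' with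
  | zero => exact funext fun τ => ((c τ).zero (h' τ).1 (h' τ).2.2).symm
  | succ m ih =>
    obtain ⟨i, g, hg, y, hy, h⟩ := h
    have hp := fun τ => (c τ).pt_spec (a := 1) (Up.spec hy τ).1 (by rw [(Up.spec hy τ).2]; omega)
    refine ⟨i, g, hg, fun τ => (c τ).pt (y τ) (l i τ) 1, ih hy fun τ => ?_, fun τ => ?_⟩
    · have := (c τ).add (hp τ).1 (hp τ).2.1
      rw [(Up.spec hy τ).2, (hp τ).2.2] at this
      exact ⟨(hp τ).1, (hp τ).2.1, by omega⟩
    · obtain ⟨h1, h2, h3⟩ := h' τ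
      obtain ⟨h4, h5⟩ := hs i j g hg τ
      have h6 := (c τ).trans ((c τ).smul g h2) (h τ).2.1
      have e1 := (c τ).add ((c τ).smul g h1) h6
      have e2 := (c τ).add h4 (Up.spec hy τ).1
      rw [(c τ).dep_smul, h3] at e1
      rw [(Up.spec hy τ).2] at e2
      refine ⟨h1, (c τ).lin ((c τ).trans h4 (hp τ).1) (hp τ).2.1 ((c τ).smul g h1) h6 ?_, h3⟩
      rw [(hp τ).2.2]
      omega

lemma Up.trunc (hs : Str c l Φ) {m a : ℕ} (ha : a ≤ m) {j : J} {x x' : ∀ τ, V τ}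
    (h : x ∈ Up c l Φ m j)
    (h' : ∀ τ, (c τ).le (l j τ) (x' τ) ∧ (c τ).le (x' τ) (x τ) ∧ (c τ).dep (x' τ) (l j τ) = a) :
    x' ∈ Up c l Φ a j := by
  induction m generalizing x with
  | zero =>
    obtain rfl : a = 0 := by omega
    exact funext fun τ => ((c τ).zero (h' τ).1 (h' τ).2.2).symm
  | succ m ih =>
    have e := fun τ => (c τ).add (h' τ).1 (h' τ).2.1
    by_cases hm : a = m + 1
    · have : x' = x := funext fun τ => (c τ).zero (h' τ).2.1 (by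
        have := e τ
        rw [(Up.spec h τ).2, (h' τ).2.2] at this
        omega)
      rw [this, hm]; exact h
    · have hp := fun τ => (c τ).pt_spec (a := 1) (Up.spec h τ).1
        (by rw [(Up.spec h τ).2]; omega)
      refine ih (by omega) (x := fun τ => (c τ).pt (x τ) (l j τ) 1)
        (Up.trunc1 hs h fun τ => ?_) fun τ => ⟨(h' τ).1, ?_, (h' τ).2.2⟩
      · have := (c τ).add (hp τ).1 (hp τ).2.1
        rw [(Up.spec h τ).2, (hp τ).2.2] at this
        exact ⟨(hp τ).1, (hp τ).2.1, by omega⟩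
      · refine (c τ).lin (hp τ).1 (hp τ).2.1 (h' τ).1 (h' τ).2.1 ?_
        have := e τ
        rw [(Up.spec h τ).2, (h' τ).2.2] at this
        rw [(hp τ).2.2]
        omega

lemma Stp.spec (hs : Str c l Φ) {i j : J} {g : G} {a b : ℕ} (h : Stp Φ i j g a b) (τ : ι) :
    (c τ).le (g • l j τ) (l i τ) ∧ a ≤ b + (c τ).dep (l i τ) (g • l j τ) := by
  rcases h with ⟨h1, h2⟩ | ⟨rfl, rfl, h2⟩
  · have := hs i j g h1 τ
    exact ⟨this.1, by omega⟩
  · rw [one_smul]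
    exact ⟨(c τ).refl _, by omega⟩

lemma Up.push (hs : Str c l Φ) {i j : J} {g : G} {a m : ℕ} (h : Stp Φ i j g a m)
    {x y : ∀ τ, V τ} (hy : y ∈ Up c l Φ m i)
    (hx : ∀ τ, (c τ).le (l j τ) (x τ) ∧ (c τ).le (g • x τ) (y τ) ∧ (c τ).dep (x τ) (l j τ) = a) :
    x ∈ Up c l Φ a j := by
  rcases h with ⟨h1, h2⟩ | ⟨rfl, rfl, h2⟩
  · have h3 := fun τ => (c τ).trans (hs i j g h1 τ).1 (Up.spec hy τ).1
    have e := fun τ => (c τ).add (hs i j g h1 τ).1 (Up.spec hy τ).1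
    have hp := fun τ => (c τ).pt_spec (a := (c τ).dep (y τ) (g • l j τ) - (m + 1)) (h3 τ)
      (by omega)
    have hd : ∀ τ, (c τ).dep ((c τ).pt (y τ) (g • l j τ) ((c τ).dep (y τ) (g • l j τ) - (m + 1)))
        (g • l j τ) = m + 1 := fun τ => by
      have e1 := (c τ).add (hp τ).1 (hp τ).2.1
      have e2 := e τ
      have := (hs i j g h1 τ).2
      rw [(Up.spec hy τ).2] at e2
      rw [(hp τ).2.2] at e1
      omega
    refine Up.trunc hs h2 (x := fun τ => g⁻¹ • (c τ).pt (y τ) (g • l j τ)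
      ((c τ).dep (y τ) (g • l j τ) - (m + 1))) ⟨i, g, h1, y, hy, fun τ => ?_⟩ fun τ => ?_
    · refine ⟨(c τ).inv_le (hp τ).1, by rw [smul_inv_smul]; exact (hp τ).2.1, ?_⟩
      rw [← (c τ).dep_smul g, smul_inv_smul, hd]
    · refine ⟨(hx τ).1, (c τ).inv_le ((c τ).lin (hp τ).1 (hp τ).2.1 ((c τ).smul g (hx τ).1)
        (hx τ).2.1 ?_), (hx τ).2.2⟩
      have e1 := (c τ).add ((c τ).smul g (hx τ).1) (hx τ).2.1
      rw [(c τ).dep_smul, (hx τ).2.2] at e1
      rw [(hp τ).2.2]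
      omega
  · exact Up.trunc hs h2 hy fun τ => by simpa using hx τ

/-- Unique lifting of factorisations. -/
lemma Up.lift (hs : Str c l Φ) {i j k : J} {g h : G} {m m' m'' : ℕ} (hg : Stp Φ i j g m' m)
    (hh : Stp Φ j k h m'' m') {x x'' : ∀ τ, V τ} (hx : x ∈ Up c l Φ m i)
    (hx'' : x'' ∈ Up c l Φ m'' k) (hgh : ∀ τ, (c τ).le ((g * h) • x'' τ) (x τ)) :
    ∃! x', x' ∈ Up c l Φ m' j ∧ (∀ τ, (c τ).le (g • x' τ) (x τ)) ∧
      ∀ τ, (c τ).le (h • x'' τ) (x' τ) := by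
  have h3 := fun τ => (c τ).trans (hg.spec hs τ).1 (Up.spec hx τ).1
  have e := fun τ => (c τ).add (hg.spec hs τ).1 (Up.spec hx τ).1
  have hp := fun τ => (c τ).pt_spec (a := (c τ).dep (x τ) (g • l j τ) - m') (h3 τ) (by omega)
  have hd : ∀ τ, (c τ).dep ((c τ).pt (x τ) (g • l j τ) ((c τ).dep (x τ) (g • l j τ) - m'))
      (g • l j τ) = m' := fun τ => by
    have e1 := (c τ).add (hp τ).1 (hp τ).2.1
    have e2 := e τ
    have := (hg.spec hs τ).2
    rw [(Up.spec hx τ).2] at e2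
    rw [(hp τ).2.2] at e1
    omega
  refine ⟨fun τ => g⁻¹ • (c τ).pt (x τ) (g • l j τ) ((c τ).dep (x τ) (g • l j τ) - m'),
    ⟨Up.push hs hg hx fun τ => ?_, fun τ => ?_, fun τ => ?_⟩, ?_⟩
  · refine ⟨(c τ).inv_le (hp τ).1, by rw [smul_inv_smul]; exact (hp τ).2.1, ?_⟩
    rw [← (c τ).dep_smul g, smul_inv_smul, hd]
  · rw [smul_inv_smul]; exact (hp τ).2.1
  · refine (c τ).inv_le ?_
    rw [← mul_smul]
    have h4 := (c τ).smul g (hh.spec hs τ).1
    have h5 := (c τ).smul (g * h) (Up.spec hx'' τ).1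
    rw [← mul_smul] at h4
    refine (c τ).lin ((c τ).trans h4 (hp τ).1) (hp τ).2.1 h5 (hgh τ) ?_
    have e1 := (c τ).add h5 (hgh τ)
    have e2 := (c τ).add h4 (h3 τ)
    have e3 := (hh.spec hs τ).2
    rw [(c τ).dep_smul, (Up.spec hx'' τ).2] at e1
    rw [mul_smul, (c τ).dep_smul, ← mul_smul] at e2
    rw [(hp τ).2.2]
    omega
  · rintro x' ⟨h4, h5, -⟩
    funext τ
    rw [eq_inv_smul_iff]
    have h6 := (c τ).smul g (Up.spec h4 τ).1
    have e1 := (c τ).add h6 (h5 τ)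
    rw [(c τ).dep_smul, (Up.spec h4 τ).2] at e1
    exact (c τ).uniq h6 (h5 τ) (hp τ).1 (hp τ).2.1 (by rw [(hp τ).2.2]; omega)

end Pool.Agent.MP_f7db47_al.PT

end

section

set_option linter.unusedSectionVars false

namespace Pool.Agent.MP_f7db47_al.PT

open Matrix

universe u v w

variable {R : Type v} [Ring R] {G : Type u} [Group G]

lemma Elim_block {J K : Type} [Fintype J] [DecidableEq J] [Fintype K] [DecidableEq K]
    {a₁ b₁ : Matrix J J (MonoidAlgebra R G)} {a₂ b₂ : Matrix J K (MonoidAlgebra R G)}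
    {a₃ b₃ : Matrix K J (MonoidAlgebra R G)} {a₄ b₄ : Matrix K K (MonoidAlgebra R G)}
    (hab : fromBlocks a₁ a₂ a₃ a₄ * fromBlocks b₁ b₂ b₃ b₄ = 1)
    (hba : fromBlocks b₁ b₂ b₃ b₄ * fromBlocks a₁ a₂ a₃ a₄ = 1) (h1 : a₂ * b₃ = 0)
    (h2 : b₂ * a₃ = 0) (hT : IsUnit a₁ → T a₁)
    (hS : (a₄ - a₃ * b₁ * a₂) * b₄ = 1 → b₄ * (a₄ - a₃ * b₁ * a₂) = 1 → T (a₄ - a₃ * b₁ * a₂)) :
    T (fromBlocks a₁ a₂ a₃ a₄) := by
  rw [fromBlocks_multiply, ← fromBlocks_one, fromBlocks_inj] at hab hba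
  obtain ⟨e1, e2, -, e4⟩ := hab
  obtain ⟨f1, -, f3, f4⟩ := hba
  rw [h1, add_zero] at e1
  rw [h2, add_zero] at f1
  have g1 : (a₄ - a₃ * b₁ * a₂) * b₄ = 1 := by
    rw [Matrix.sub_mul, Matrix.mul_assoc _ a₂, eq_neg_of_add_eq_zero_right e2, Matrix.mul_neg,
      ← Matrix.mul_assoc, Matrix.mul_assoc a₃, f1, Matrix.mul_one, sub_neg_eq_add, add_comm, e4]
  have g2 : b₄ * (a₄ - a₃ * b₁ * a₂) = 1 := by
    rw [Matrix.mul_sub, ← Matrix.mul_assoc, ← Matrix.mul_assoc, eq_neg_of_add_eq_zero_right f3,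
      Matrix.neg_mul, Matrix.neg_mul, Matrix.mul_assoc b₃, e1, Matrix.mul_one, sub_neg_eq_add,
      add_comm, f4]
  have h := T_mul (T_lower (a₃ * b₁)) (T_upper_block a₂ (hT ⟨⟨a₁, b₁, e1, f1⟩, rfl⟩) (hS g1 g2))
  simpa [fromBlocks_multiply, Matrix.mul_assoc a₃ b₁ a₁, f1] using h

lemma Elim_zero {I J K : Type} [Fintype J] {S : I → J → Set G} {S' : J → K → Set G}
    {A : Matrix I J (MonoidAlgebra R G)} {B : Matrix J K (MonoidAlgebra R G)} (hA : MSup2 S A)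
    (hB : MSup2 S' B) (h : ∀ i j k, (S i j).Nonempty → (S' j k).Nonempty → False) : A * B = 0 := by
  have h1 : MSup2 (fun _ _ => ∅) (A * B) :=
    hA.mul hB fun i j k a ha b hb => (h i j k ⟨a, ha⟩ ⟨b, hb⟩).elim
  ext1 i k
  exact (h1 i k).eq_zero (h1 i k) fun g hg => hg.elim

theorem elim_loop {W : Type w} (Sq : ℕ → W → W → Set G)
    (hmono : ∀ r r', r ≤ r' → ∀ x y, Sq r x y ⊆ Sq r' x y)
    (hmul : ∀ r r' x y z, ∀ a ∈ Sq r x y, ∀ b ∈ Sq r' y z, a * b ∈ Sq (r + r') x z)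
    (N r₀ : ℕ) (P : Set W) (C : ℕ → Set W) (hcov : ∀ x ∈ P, ∃ q < N, x ∈ C q)
    (hconv : ∀ q < N, ∀ c x c', c ∈ C q → c' ∈ C q → (Sq (3 ^ N * r₀) c x).Nonempty →
      (Sq (3 ^ N * r₀) x c').Nonempty → x ∈ C q)
    (hhol : ∀ q < N, ∀ (J : Type) [Fintype J] [DecidableEq J] (l : J → W)
      (a : Matrix J J (MonoidAlgebra R G)), (∀ j, l j ∈ C q) →
      MSup2 (fun i j => Sq (3 ^ N * r₀) (l i) (l j)) a → IsUnit a → T a)
    (J : Type) [Fintype J] [DecidableEq J] (l : J → W) (hl : ∀ j, l j ∈ P)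
    (a b : Matrix J J (MonoidAlgebra R G)) (hab : a * b = 1) (hba : b * a = 1)
    (ha : MSup2 (fun i j => Sq r₀ (l i) (l j)) a) (hb : MSup2 (fun i j => Sq r₀ (l i) (l j)) b) :
    T a := by
  have key : ∀ m q, q + m = N → ∀ (J : Type) [Fintype J] [DecidableEq J] (l : J → W),
      (∀ j, l j ∈ P ∧ ∀ q' < q, l j ∉ C q') → ∀ a b : Matrix J J (MonoidAlgebra R G),
      a * b = 1 → b * a = 1 → MSup2 (fun i j => Sq (3 ^ q * r₀) (l i) (l j)) a →
      MSup2 (fun i j => Sq (3 ^ q * r₀) (l i) (l j)) b → T a := by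
    intro m
    induction m with
    | zero =>
      intro q hq J _ _ l hl a b _ _ _ _
      have : IsEmpty J := ⟨fun j => by
        obtain ⟨q', h1, h2⟩ := hcov _ (hl j).1
        exact (hl j).2 q' (by omega) h2⟩
      rw [Subsingleton.elim a 1]
      exact T_one
    | succ m ih =>
      intro q hq J _ _ l hl a b hab hba ha hb
      classical
      have hqN : q < N := by omega
      have hle : 3 ^ q * r₀ ≤ 3 ^ N * r₀ :=
        Nat.mul_le_mul_right _ (Nat.pow_le_pow_right (by norm_num) hqN.le)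
      let e := Equiv.sumCompl fun j => l j ∈ C q
      apply T_of_submatrix e
      have hab' : a.submatrix e e * b.submatrix e e = 1 := by
        rw [submatrix_mul_equiv, hab, submatrix_one_equiv]
      have hba' : b.submatrix e e * a.submatrix e e = 1 := by
        rw [submatrix_mul_equiv, hba, submatrix_one_equiv]
      have hz : ∀ x y : Matrix J J (MonoidAlgebra R G),
          MSup2 (fun i j => Sq (3 ^ q * r₀) (l i) (l j)) x →
          MSup2 (fun i j => Sq (3 ^ q * r₀) (l i) (l j)) y →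
          (x.submatrix e e).toBlocks₁₂ * (y.submatrix e e).toBlocks₂₁ = 0 := fun x y hx hy =>
        Elim_zero (S := fun i j => Sq (3 ^ q * r₀) (l i.1) (l j.1))
          (S' := fun i j => Sq (3 ^ q * r₀) (l i.1) (l j.1)) (fun i j => hx i.1 j.1)
          (fun i j => hy i.1 j.1) fun i j k h1 h2 => j.2 (hconv q hqN _ _ _ i.2 k.2
            (h1.mono (hmono _ _ hle _ _)) (h2.mono (hmono _ _ hle _ _)))
      rw [← fromBlocks_toBlocks (a.submatrix e e)] at hab' hba' ⊢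
      rw [← fromBlocks_toBlocks (b.submatrix e e)] at hab' hba'
      refine Elim_block hab' hba' (hz a b ha hb) (hz b a hb ha)
        (hhol q hqN _ (fun j => l j.1) _ (fun j => j.2) fun i j =>
          (ha i.1 j.1).mono (hmono _ _ hle _ _)) fun g1 g2 => ?_
      have h3 : 3 ^ (q + 1) * r₀ = 3 ^ q * r₀ + 3 ^ q * r₀ + 3 ^ q * r₀ := by ring
      have hle' : 3 ^ q * r₀ ≤ 3 ^ (q + 1) * r₀ := by omega
      refine ih (q + 1) (by omega) _ (fun j => l j.1) (fun j => ⟨(hl j.1).1, fun q' hq' => ?_⟩)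
        _ _ g1 g2 (MSup2.sub (fun i j => (ha i.1 j.1).mono (hmono _ _ hle' _ _)) ?_)
        fun i j => (hb i.1 j.1).mono (hmono _ _ hle' _ _)
      · rcases (Nat.lt_succ_iff.1 hq').eq_or_lt with rfl | h
        · exact j.2
        · exact (hl j.1).2 q' h
      · rw [h3]
        exact MSup2.mul (S := fun i j => Sq (3 ^ q * r₀ + 3 ^ q * r₀) (l i.1) (l j.1))
          (S' := fun i j => Sq (3 ^ q * r₀) (l i.1) (l j.1))
          (MSup2.mul (S := fun i j => Sq (3 ^ q * r₀) (l i.1) (l j.1))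
            (S' := fun i j => Sq (3 ^ q * r₀) (l i.1) (l j.1)) (fun i j => ha i.1 j.1)
            (fun i j => hb i.1 j.1) fun i j k => hmul _ _ _ _ _) (fun i j => ha i.1 j.1)
          fun i j k => hmul _ _ _ _ _
  refine key N 0 (zero_add N) J l (fun j => ⟨hl j, fun q' h => absurd h (Nat.not_lt_zero _)⟩)
    a b hab hba ?_ ?_
  · simpa using ha
  · simpa using hb

end Pool.Agent.MP_f7db47_al.PT

end

section

set_option linter.unusedSectionVars false

namespace Pool.Agent.MP_f7db47_al.PT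

open Matrix

universe u v w

variable {R : Type v} [Ring R] {G : Type u} [Group G]
variable {ι : Type} [Fintype ι] {V : ι → Type w} [∀ τ, MulAction G (V τ)]

theorem MarkW_symm {S : ℕ} {x y : Win V} {g : G} (h : Eqv S x y g) : Eqv S y x g⁻¹ :=
  fun τ t ht => by rw [← h τ t ht, inv_smul_smul]

theorem MarkW_trans {S : ℕ} {x y z : Win V} {g g' : G} (h : Eqv S x y g) (h' : Eqv S y z g') :
    Eqv S x z (g * g') :=
  fun τ t ht => by rw [mul_smul, h' τ t ht, h τ t ht]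

theorem MarkW_per {S A : ℕ} {x y : Win V} {g : G} (h : Eqv S x y g) (hx : PosPer G S A x) :
    PosPer G S A y := by
  obtain ⟨γ, v, hv, hp⟩ := hx
  refine ⟨g⁻¹ * γ * g, v, hv, fun τ t h1 h2 => ?_⟩
  rw [mul_smul, mul_smul, h τ t h1, hp τ t h1 h2, ← h τ _ h2, inv_smul_smul]

theorem MarkW_shift {S B : ℕ} {x y : Win V} {m m' z : ι → ℤ} {g : G}
    (h : Eqv (B + S) (sh x m) (sh y m') g) (hz : ∀ τ, |z τ| ≤ B) :
    Eqv S (sh x (m + z)) (sh y (m' + z)) g := by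
  intro τ t ht
  have h1 : |z τ + t| ≤ ((B + S : ℕ) : ℤ) := by
    have := abs_add_le (z τ) t
    have := hz τ
    push_cast
    omega
  have h2 := h τ (z τ + t) h1
  simp only [sh, Pi.add_apply, add_assoc] at h2 ⊢
  exact h2

open Classical in
/-- The colour attached to a predicate. -/
noncomputable def MarkW_col {n : ℕ} (p : Fin n → Prop) : ℕ :=
  if h : ∃ i, p i then (h.choose : ℕ) else n

theorem MarkW_col_lt {n : ℕ} {p : Fin n → Prop} (h : MarkW_col p < n) :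
    ∃ i, p i ∧ MarkW_col p = i := by
  unfold MarkW_col at h ⊢
  split_ifs at h ⊢ with h1
  · exact ⟨_, h1.choose_spec, rfl⟩
  · exact absurd h (lt_irrefl _)

theorem MarkW_lt_col {n : ℕ} {p : Fin n → Prop} (h : ∃ i, p i) : MarkW_col p < n := by
  unfold MarkW_col
  rw [dif_pos h]
  exact Fin.is_lt _

theorem exists_Marks (S A t C n : ℕ) (hA : A ≤ C * t) (ht : t ≤ A) (cand : Fin n → Win V) :
    ∃ M : Marks G V S A (((2 * C + 1) ^ Fintype.card ι + 1) * n * A + S),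
      ∀ x : Win V, (∃ i, ∀ (τ : ι) (s : ℤ), |s| ≤ S → x τ s = cand i τ s) → ¬ PosPer G S A x →
        ∃ q < (2 * C + 1) ^ Fintype.card ι + 1, ∃ m, M.Mk q x m ∧ ∀ τ, |m τ| ≤ t := by
  obtain ⟨Mark, m1, m2, m3, m4⟩ := exists_marks ι t A C n hA ht
  let col : Win V → (ι → ℤ) → ℕ := fun x m => MarkW_col fun i : Fin n =>
    ¬ PosPer G S A (cand i) ∧ ∃ g : G, Eqv S (sh x m) (cand i) g
  refine ⟨⟨fun q x m => q < (2 * C + 1) ^ Fintype.card ι + 1 ∧ Mark (col x) q m, ?_, ?_, ?_⟩, ?_⟩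
  · rintro q x m ⟨-, h⟩ hp
    obtain ⟨i, ⟨h1, g, hg⟩, -⟩ := MarkW_col_lt (m1 _ _ _ h)
    exact h1 (MarkW_per hg hp)
  · rintro q x m m' ⟨-, h⟩ ⟨-, h'⟩ hd
    obtain ⟨i, ⟨-, g, hg⟩, e⟩ := MarkW_col_lt (m1 _ _ _ h)
    obtain ⟨i', ⟨-, g', hg'⟩, e'⟩ := MarkW_col_lt (m1 _ _ _ h')
    have e2 : i = i' := Fin.ext (e.symm.trans ((m2 _ _ _ _ h h' hd).trans e'))
    subst e2
    exact ⟨g' * g⁻¹, MarkW_trans hg' (MarkW_symm hg)⟩
  · intro q x y m m' g h
    refine and_congr_right fun hq => m4 _ _ _ _ _ fun z hz => ?_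
    have h2 := MarkW_shift (z := z) h fun τ => (hz τ).trans (by
      exact_mod_cast Nat.mul_le_mul_right _ (Nat.mul_le_mul_right _ hq))
    refine congrArg MarkW_col (funext fun i => propext (and_congr_right fun _ => ?_))
    exact ⟨fun ⟨a, ha⟩ => ⟨g⁻¹ * a, MarkW_trans (MarkW_symm h2) ha⟩,
      fun ⟨a, ha⟩ => ⟨g * a, MarkW_trans h2 ha⟩⟩
  · rintro x ⟨i, hi⟩ hx
    have h1 : Eqv S (sh x 0) (cand i) (1 : G) := fun τ s hs => by
      rw [one_smul, ← hi τ s hs]; simp only [sh, Pi.zero_apply, zero_add]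
    have h2 : Eqv S (cand i) x (1 : G) := fun τ s hs => by rw [one_smul, hi τ s hs]
    obtain ⟨q, hq, y, hy, hd⟩ := m3 (col x) 0
      (MarkW_lt_col ⟨i, fun h => hx (MarkW_per h2 h), 1, h1⟩)
    exact ⟨q, hq, y, ⟨hq, hy⟩, fun τ => by simpa using hd τ⟩

end Pool.Agent.MP_f7db47_al.PT

end

section

set_option linter.unusedSectionVars false

namespace Pool.Agent.MP_f7db47_al.PT

open Matrix

universe u v w

variable {R : Type v} [Ring R] {G : Type u} [Group G]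
variable {ι : Type} [Fintype ι] {V : ι → Type w} [∀ τ, MulAction G (V τ)]

theorem posPer_conv (hfree : FreeM G V) {ρ r₀ r S A : ℕ} (h1 : 2 * A + r ≤ S) (h2 : S + r ≤ ρ)
    {c x c' : Win V} (hc : PosPer G S A c) (hc' : PosPer G S A c')
    (ha : (Sp G ρ r₀ r c x).Nonempty) (hb : (Sp G ρ r₀ r x c').Nonempty) : PosPer G S A x := by
  obtain ⟨γ, v, hv, hγ⟩ := hc
  obtain ⟨γ', v', hv', hγ'⟩ := hc'
  obtain ⟨g, d, hd, hdr, hg⟩ := ha
  obtain ⟨h, e, he, her, hh⟩ := hb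
  have k1 : ∀ τ (t : ℤ), -(S : ℤ) ≤ t + d τ → t + d τ + v τ ≤ S →
      (g⁻¹ * γ * g) • x τ t = x τ (t + v τ) := by
    intro τ t a b
    have := hv τ
    have := hd.1 τ
    have := hdr τ
    rw [mul_smul, mul_smul, hg τ t (by omega) (by omega),
      hγ τ _ (abs_le.2 ⟨a, by omega⟩) (abs_le.2 ⟨by omega, b⟩), inv_smul_eq_iff,
      hg τ _ (by omega) (by omega)]
    congr 1
    ring
  have k2 : ∀ τ (t : ℤ), -(S : ℤ) ≤ t - e τ → t - e τ + v' τ ≤ S →
      (h * γ' * h⁻¹) • x τ t = x τ (t + v' τ) := by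
    intro τ t a b
    have := hv' τ
    have := he.1 τ
    have := her τ
    have e1 : h⁻¹ • x τ t = c' τ (t - e τ) := by
      rw [inv_smul_eq_iff, hh τ _ (by omega) (by omega), sub_add_cancel]
    rw [mul_smul, mul_smul, e1, hγ' τ _ (abs_le.2 ⟨a, by omega⟩) (abs_le.2 ⟨by omega, b⟩),
      hh τ _ (by omega) (by omega)]
    congr 1
    ring
  generalize g⁻¹ * γ * g = g1 at k1
  generalize h * γ' * h⁻¹ = g2 at k2
  have hcom := hfree.eq (a := g1 * g2) (b := g2 * g1) (fun τ => x τ 0) (fun τ => by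
    have := hv τ
    have := hv' τ
    have := hd.1 τ
    have := hdr τ
    have := he.1 τ
    have := her τ
    rw [mul_smul, mul_smul, k2 τ 0 (by omega) (by omega), k1 τ 0 (by omega) (by omega),
      k1 τ _ (by omega) (by omega), k2 τ _ (by omega) (by omega)]
    congr 1
    ring)
  refine ⟨g1, v, hv, fun τ => ?_⟩
  have key : ∀ n : ℕ, ∀ t : ℤ, (t + S).toNat = n → -(S : ℤ) ≤ t → t + v τ ≤ S →
      g1 • x τ t = x τ (t + v τ) := by
    have := hv τ
    have := hv' τ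
    have := hd.1 τ
    have := hdr τ
    have := he.1 τ
    have := her τ
    intro n
    induction n using Nat.strong_induction_on with
    | _ n ih =>
      intro t hn a b
      by_cases hle : t + d τ + v τ ≤ S
      · exact k1 τ t (by omega) hle
      · have e1 : x τ t = g2 • x τ (t - v' τ) := by
          rw [k2 τ _ (by omega) (by omega), sub_add_cancel]
        rw [e1, ← mul_smul, hcom, mul_smul, ih _ (by omega) _ rfl (by omega) (by omega),
          k2 τ _ (by omega) (by omega)]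
        congr 1
        ring
  intro t a b
  exact key _ t rfl (abs_le.1 a).1 (abs_le.1 b).2

end Pool.Agent.MP_f7db47_al.PT

end

section

set_option linter.unusedSectionVars false

namespace Pool.Agent.MP_f7db47_al.PT

open Matrix

universe u v w

variable {R : Type v} [Ring R] {G : Type u} [Group G]
variable {ι : Type} [Fintype ι] {V : ι → Type w} [∀ τ, MulAction G (V τ)]

/-- Two sequences with the same period that agree on one period agree. -/
theorem Win0H_agree {Y : Type w} [MulAction G Y] (γ : G) {v S : ℤ} (hv : 1 ≤ v) (hS : v ≤ S)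
    {f h : ℤ → Y} (hf : ∀ t, |t| ≤ S → |t + v| ≤ S → γ • f t = f (t + v))
    (hh : ∀ t, |t| ≤ S → |t + v| ≤ S → γ • h t = h (t + v))
    (h0 : ∀ t, 0 ≤ t → t < v → f t = h t) (t : ℤ) (ht : |t| ≤ S) : f t = h t := by
  have key : ∀ (n : ℕ) (t : ℤ), t.natAbs ≤ n → |t| ≤ S → f t = h t := by
    intro n
    induction n with
    | zero => intro t h1 _; exact h0 t (by omega) (by omega)
    | succ n ih =>
      intro t h1 h2
      rw [abs_le] at h2
      by_cases c : 0 ≤ t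
      · by_cases c' : t < v
        · exact h0 t c c'
        · have a1 : |t - v| ≤ S := abs_le.2 ⟨by omega, by omega⟩
          have a2 : |t - v + v| ≤ S := abs_le.2 ⟨by omega, by omega⟩
          have e1 := hf _ a1 a2
          have e2 := hh _ a1 a2
          rw [sub_add_cancel] at e1 e2
          rw [← e1, ← e2, ih (t - v) (by omega) a1]
      · have a1 : |t| ≤ S := abs_le.2 h2
        have a2 : |t + v| ≤ S := abs_le.2 ⟨by omega, by omega⟩
        apply MulAction.injective γ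
        show γ • f t = γ • h t
        rw [hf _ a1 a2, hh _ a1 a2]
        by_cases c' : 0 ≤ t + v
        · exact h0 _ c' (by omega)
        · exact ih (t + v) (by omega) a2
  exact key _ t le_rfl ht

theorem Win0H_agree' {Y : Type w} [MulAction G Y] (γ : G) {v : ℤ} (hv : 1 ≤ v)
    {f h : ℤ → Y} (hf : ∀ t, γ • f t = f (t + v)) (hh : ∀ t, γ • h t = h (t + v))
    (h0 : ∀ t, 0 ≤ t → t < v → f t = h t) (t : ℤ) : f t = h t :=
  Win0H_agree γ (S := |t| + v) hv (by have := abs_nonneg t; omega) (fun t _ _ => hf t)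
    (fun t _ _ => hh t) h0 t (by omega)

/-- A window with a short period extends to a window that is periodic everywhere. -/
theorem Win0H_ext {S A : ℕ} (hA : A ≤ S) {x : Win V} (hx : PosPer G S A x) :
    ∃ (w : Win V) (γ : G) (v : ι → ℤ), (∀ τ, 1 ≤ v τ ∧ v τ ≤ A) ∧
      (∀ τ t, γ • w τ t = w τ (t + v τ)) ∧ ∀ τ (t : ℤ), |t| ≤ S → w τ t = x τ t := by
  obtain ⟨γ, v, hv, hp⟩ := hx
  have E1 : ∀ τ t, γ • (γ ^ (t / v τ) • x τ (t % v τ)) =
      γ ^ ((t + v τ) / v τ) • x τ ((t + v τ) % v τ) := by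
    intro τ t
    have h0 : v τ ≠ 0 := by have := (hv τ).1; omega
    rw [Int.add_emod_right, Int.add_ediv_of_dvd_right (dvd_refl _), Int.ediv_self h0, add_comm,
      _root_.zpow_add, zpow_one, mul_smul]
  refine ⟨fun τ t => γ ^ (t / v τ) • x τ (t % v τ), γ, v, hv, E1, fun τ t ht => ?_⟩
  refine Win0H_agree γ (S := S) (hv τ).1 (by have := (hv τ).2; omega)
    (f := fun t => γ ^ (t / v τ) • x τ (t % v τ)) (fun t _ _ => E1 τ t) (hp τ) ?_ t ht
  intro s h1 h2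
  show γ ^ (s / v τ) • x τ (s % v τ) = x τ s
  rw [Int.ediv_eq_zero_of_lt h1 h2, Int.emod_eq_of_lt h1 h2, zpow_zero, one_smul]

/-- Two periodic windows that agree on a long enough interval agree. -/
theorem Win0H_uniq (hfree : FreeM G V) {A : ℕ} {u w : Win V} {a b : G} {p q : ι → ℤ}
    (hp : ∀ τ, 1 ≤ p τ ∧ p τ ≤ A) (hq : ∀ τ, 1 ≤ q τ ∧ q τ ≤ A)
    (hu : ∀ τ t, a • u τ t = u τ (t + p τ)) (hw : ∀ τ t, b • w τ t = w τ (t + q τ))
    (h : ∀ τ (t : ℤ), 0 ≤ t → t ≤ 2 * A → u τ t = w τ t) (τ : ι) (t : ℤ) : u τ t = w τ t := by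
  have hc : ∀ (τ : ι) (y : V τ), (b * a) • y = (a * b) • y := by
    refine hfree.eq (fun τ => w τ 0) fun σ => ?_
    have h1 := hp σ
    have h2 := hq σ
    rw [mul_smul, mul_smul, hw, ← h σ (0 + q σ) (by omega) (by omega), hu,
      ← h σ 0 (by omega) (by omega), hu, h σ (0 + p σ) (by omega) (by omega), hw,
      h σ _ (by omega) (by omega)]
    congr 1
    ring
  have h1 := hp τ
  have h2 := hq τ
  have hw' : ∀ t, a • w τ t = w τ (t + p τ) := by
    refine Win0H_agree' b h2.1 (f := fun t => a • w τ t) (h := fun t => w τ (t + p τ))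
      (fun s => ?_) (fun s => ?_) (fun s s1 s2 => ?_)
    · show b • a • w τ s = a • w τ (s + q τ)
      rw [← mul_smul, hc, mul_smul, hw]
    · show b • w τ (s + p τ) = w τ (s + q τ + p τ)
      rw [hw, add_right_comm]
    · show a • w τ s = w τ (s + p τ)
      rw [← h τ s s1 (by omega), hu, h τ _ (by omega) (by omega)]
  exact Win0H_agree' a h1.1 (hu τ) hw' (fun s s1 s2 => h τ s s1 (by omega)) t

theorem posPer_hol (hfree : FreeM G V) (hcomm : CommG1 R G V) {ρ r₀ r S A : ℕ}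
    (h1 : 2 * A + r ≤ S) (h2 : S ≤ ρ) (J : Type) [Fintype J] [DecidableEq J] (l : J → Win V)
    (hl : ∀ j, PosPer G S A (l j)) (a : Matrix J J (MonoidAlgebra R G))
    (ha : MSup2 (fun i j => Sp G ρ r₀ r (l i) (l j)) a) (hu : IsUnit a) : T a := by
  choose w γ v hv hw hwl using fun j => Win0H_ext (by omega) (hl j)
  refine T_of_groupoid (fun i j => {g | ∃ e : ι → ℤ, ∀ τ t, g • w j τ t = w i τ (t + e τ)})
    (fun i => ⟨0, fun τ t => by simp⟩) ?_ ?_ ?_ (ha.mono ?_) hu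
  · rintro i j k a ⟨d, hd⟩ b ⟨e, he⟩
    refine ⟨e + d, fun τ t => ?_⟩
    rw [mul_smul, he, hd, Pi.add_apply, add_assoc]
  · rintro i j a ⟨d, hd⟩
    refine ⟨-d, fun τ t => ?_⟩
    rw [inv_smul_eq_iff, hd, Pi.neg_apply, neg_add_cancel_right]
  · intro i H hH
    refine hcomm H fun a ha b hb => ?_
    rw [← SetLike.mem_coe, hH] at ha hb
    obtain ⟨d, hd⟩ := ha
    obtain ⟨e, he⟩ := hb
    refine hfree.eq (fun τ => w i τ 0) fun σ => ?_
    rw [mul_smul, mul_smul, he, hd, hd, he, add_right_comm]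
  · rintro i j g ⟨d, hd1, hd2, hd3⟩
    have key := Win0H_uniq hfree (u := fun τ t => g • w j τ (t - d τ)) (w := w i)
      (a := g * γ j * g⁻¹) (hv j) (hv i) (fun τ t => ?_) (hw i) (fun τ t t1 t2 => ?_)
    · refine ⟨d, fun τ t => ?_⟩
      have := key τ (t + d τ)
      simp only [add_sub_cancel_right] at this
      exact this
    · show (g * γ j * g⁻¹) • g • w j τ (t - d τ) = g • w j τ (t + v j τ - d τ)
      rw [mul_smul, inv_smul_smul, mul_smul, hw, sub_add_eq_add_sub]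
    · show g • w j τ (t - d τ) = w i τ t
      have a1 := hd1.1 τ
      have a2 := hd2 τ
      rw [hwl j τ _ (abs_le.2 ⟨by omega, by omega⟩), hd3 τ _ (by omega) (by omega),
        sub_add_cancel, hwl i τ _ (abs_le.2 ⟨by omega, by omega⟩)]

end Pool.Agent.MP_f7db47_al.PT

end

section

set_option linter.unusedSectionVars false

namespace Pool.Agent.MP_f7db47_al.PT

open Matrix

universe u v w

variable {R : Type v} [Ring R] {G : Type u} [Group G]
variable {ι : Type} [Fintype ι] {V : ι → Type w} [∀ τ, MulAction G (V τ)]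

theorem Marks.transfer {S A L ρ : ℕ} (M : Marks G V S A L) {x y : Win V} {g : G} {d : ι → ℤ}
    (h : Arr ρ x y g d) (q : ℕ) (m : ι → ℤ) (h1 : ∀ τ, -(ρ : ℤ) + L ≤ m τ)
    (h2 : ∀ τ, m τ + d τ + L ≤ ρ) : M.Mk q x (m + d) ↔ M.Mk q y m := by
  refine M.loc q x y _ _ g fun τ s hs => ?_
  have := h1 τ
  have := h2 τ
  rw [abs_le] at hs
  simp only [sh, Pi.add_apply]
  rw [h τ _ (by omega) (by omega)]
  congr 1
  ring

theorem Marks.conv {S A L : ℕ} (M : Marks G V S A L) {ρ r₀ t r q : ℕ} (hr : 1 ≤ r₀)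
    (hA : 8 * t * r₀ + 2 * r ≤ A) (hρ : 4 * t * r₀ + r + L ≤ ρ) {c x c' : Win V}
    (hc : c ∈ M.piece r₀ t q) (hc' : c' ∈ M.piece r₀ t q)
    (ha : (Sp G ρ r₀ r c x).Nonempty) (hb : (Sp G ρ r₀ r x c').Nonempty) :
    x ∈ M.piece r₀ t q := by
  obtain ⟨m₁, -, hm₁, -, b₁, -, c₁, -⟩ := hc
  obtain ⟨-, m₂, -, hm₂, -, b₂, -, c₂⟩ := hc'
  obtain ⟨g, d, d1, d2, d3⟩ := ha
  obtain ⟨h, e, e1, e2, e3⟩ := hb
  have hA' : 2 * (4 * (t : ℤ) * r₀) + 2 * r ≤ A := by
    have : ((8 * t * r₀ + 2 * r : ℕ) : ℤ) ≤ A := by exact_mod_cast hA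
    push_cast at this
    linarith
  have hρ' : 4 * (t : ℤ) * r₀ + r + L ≤ ρ := by exact_mod_cast hρ
  have hr' : (1 : ℤ) ≤ r₀ := by exact_mod_cast hr
  have ht : (0 : ℤ) ≤ t := Int.natCast_nonneg t
  have ht' : 2 * (t : ℤ) ≤ 4 * t * r₀ := by nlinarith
  simp only [abs_le] at b₁ b₂
  have k₁ : M.Mk q x (m₁ - d) := (M.transfer d3 q (m₁ - d)
    (fun τ => by have := b₁ τ; have := d2 τ; simp only [Pi.sub_apply]; linarith)
    fun τ => by have := b₁ τ; simp only [Pi.sub_apply]; linarith).1 (by rwa [sub_add_cancel])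
  have k₂ : M.Mk q x (m₂ + e) := (M.transfer e3 q m₂ (fun τ => by have := b₂ τ; linarith)
    fun τ => by have := b₂ τ; have := e2 τ; linarith).2 hm₂
  have f₁ : Cone r₀ fun τ => 2 * t - (m₁ - d) τ := by
    convert c₁.add d1 using 2 with τ
    simp only [Pi.sub_apply, Pi.add_apply]
    ring
  have f₂ : Cone r₀ fun τ => (m₂ + e) τ + 2 * t := by
    convert c₂.add e1 using 2 with τ
    simp only [Pi.add_apply]
    ring
  have hd : ∀ τ, |(m₁ - d) τ - (m₂ + e) τ| ≤ A := fun τ => by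
    have := b₁ τ
    have := b₂ τ
    have := d1.1 τ
    have := d2 τ
    have := e1.1 τ
    have := e2 τ
    simp only [Pi.sub_apply, Pi.add_apply, abs_le]
    constructor <;> linarith
  generalize m₁ - d = m at k₁ f₁ hd
  generalize m₂ + e = m' at k₂ f₂ hd
  obtain ⟨γ, hγ⟩ := M.sep q x m m' k₁ k₂ hd
  obtain ⟨σ, hσ⟩ : ∃ σ, m' σ - m σ ≤ 0 := by
    by_contra hn
    push Not at hn
    refine M.npos q x m k₁ ⟨γ, m' - m, fun τ => ⟨hn τ, ?_⟩, fun τ s hs _ => ?_⟩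
    · have := (abs_le.1 (hd τ)).1
      simp only [Pi.sub_apply]
      linarith
    · rw [hγ τ s hs]
      simp only [sh, Pi.sub_apply]
      congr 1
      ring
  have a₁ := f₁.1 σ
  have a₂ := f₂.1 σ
  refine ⟨m, m', k₁, k₂, fun τ => ?_, fun τ => ?_, f₁, f₂⟩
  · have a₃ := f₁.1 τ
    have a₄ := f₁.2 τ σ
    have a₅ : (r₀ : ℤ) * (2 * t - m σ) ≤ r₀ * (4 * t) :=
      mul_le_mul_of_nonneg_left (by linarith) (by linarith)
    rw [abs_le]
    constructor <;> linarith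
  · have a₃ := f₂.1 τ
    have a₄ := f₂.2 τ σ
    have a₅ : (r₀ : ℤ) * (m' σ + 2 * t) ≤ r₀ * (4 * t) :=
      mul_le_mul_of_nonneg_left (by linarith) (by linarith)
    rw [abs_le]
    constructor <;> linarith

theorem Marks.cover {S A L : ℕ} (M : Marks G V S A L) {r₀ t q : ℕ} (hr : 3 ≤ r₀) {x : Win V}
    {m : ι → ℤ} (h : M.Mk q x m) (hm : ∀ τ, |m τ| ≤ t) : x ∈ M.piece r₀ t q := by
  have hr' : (3 : ℤ) ≤ r₀ := by exact_mod_cast hr
  have ht : (0 : ℤ) ≤ t := Int.natCast_nonneg t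
  have key : ∀ y : ι → ℤ, (∀ τ, t ≤ y τ ∧ y τ ≤ 3 * t) → Cone r₀ y := fun y hy =>
    ⟨fun τ => ht.trans (hy τ).1, fun τ σ => by
      have := hy τ
      have := hy σ
      nlinarith⟩
  have hb : ∀ τ, |m τ| ≤ 4 * t * r₀ := fun τ => (hm τ).trans (by nlinarith)
  simp only [abs_le] at hm
  exact ⟨m, m, h, h, hb, hb, key _ fun τ => by have := hm τ; omega,
    key _ fun τ => by have := hm τ; omega⟩

end Pool.Agent.MP_f7db47_al.PT

end

section

set_option linter.unusedSectionVars false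

namespace Pool.Agent.MP_f7db47_al.PT

open Matrix

universe u v w

variable {R : Type v} [Ring R] {G : Type u} [Group G]
variable {ι : Type} [Fintype ι] {V : ι → Type w} [∀ τ, MulAction G (V τ)]

/-- the group generated by the short periods -/
def Win1H_grp (G : Type u) [Group G] [∀ τ, MulAction G (V τ)] (S A : ℕ) (x : Win V) : Subgroup G :=
  Subgroup.closure {γ | ∃ v : ι → ℤ, (∀ τ, |v τ| ≤ A) ∧ Per S x γ v}

lemma Win1H_symm {S : ℕ} {x y : Win V} {k : G} (h : Eqv S x y k) : Eqv S y x k⁻¹ :=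
  fun τ t ht => by rw [inv_smul_eq_iff, h τ t ht]

lemma Win1H_trans {S : ℕ} {x y z : Win V} {k k' : G} (h : Eqv S x y k) (h' : Eqv S y z k') :
    Eqv S x z (k * k') := fun τ t ht => by rw [mul_smul, h' τ t ht, h τ t ht]

lemma Win1H_conj {S A : ℕ} {x y : Win V} {k γ : G} (h : Eqv S x y k)
    (hγ : γ ∈ Win1H_grp G S A y) : k * γ * k⁻¹ ∈ Win1H_grp G S A x := by
  induction hγ using Subgroup.closure_induction with
  | mem γ hγ =>
    obtain ⟨v, h1, h2⟩ := hγ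
    refine Subgroup.subset_closure ⟨v, h1, fun τ t ht ht' => ?_⟩
    rw [mul_smul, mul_smul, Win1H_symm h τ t ht, h2 τ t ht ht', h τ _ ht']
  | one => simp
  | mul a b _ _ ha hb =>
    have e : k * (a * b) * k⁻¹ = k * a * k⁻¹ * (k * b * k⁻¹) := by group
    rw [e]
    exact mul_mem ha hb
  | inv a _ ha =>
    have e : k * a⁻¹ * k⁻¹ = (k * a * k⁻¹)⁻¹ := by group
    rw [e]
    exact inv_mem ha

lemma Win1H_self {S A : ℕ} {x : Win V} {k : G} (h : Eqv S x x k) : k ∈ Win1H_grp G S A x :=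
  Subgroup.subset_closure ⟨0, fun τ => by simp, fun τ t ht _ => by simpa using h τ t ht⟩

lemma Win1H_ext {s : Set G} {a : G}
    (h : ∀ b ∈ s, ∀ (τ : ι) (y : V τ), (a * b) • y = (b * a) • y) :
    ∀ b ∈ Subgroup.closure s, ∀ (τ : ι) (y : V τ), (a * b) • y = (b * a) • y := by
  intro b hb
  simp only [mul_smul] at h ⊢
  induction hb using Subgroup.closure_induction with
  | mem b hb => exact h b hb
  | one => simp
  | mul b c _ _ hb hc =>
    intro τ y
    rw [mul_smul, mul_smul, hb, hc]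
  | inv b _ hb =>
    intro τ y
    rw [eq_inv_smul_iff, ← hb, smul_inv_smul]

lemma Win1H_comm (hfree : FreeM G V) {S A : ℕ} (hS : 2 * A ≤ S) (x : Win V) :
    ∀ a ∈ Win1H_grp G S A x, ∀ b ∈ Win1H_grp G S A x, ∀ (τ : ι) (y : V τ),
      (a * b) • y = (b * a) • y := by
  intro a ha
  refine Win1H_ext fun b hb τ y => (Win1H_ext (fun c hc => ?_) a ha τ y).symm
  obtain ⟨v, h1, h2⟩ := hb
  obtain ⟨w, h3, h4⟩ := hc
  refine hfree.eq (fun σ => x σ 0) fun σ => ?_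
  have h5 := abs_le.1 (h1 σ)
  have h6 := abs_le.1 (h3 σ)
  rw [mul_smul, mul_smul, h4 σ 0 (by simp) (abs_le.2 (by omega)),
    h2 σ 0 (by simp) (abs_le.2 (by omega)), h2 σ _ (abs_le.2 (by omega)) (abs_le.2 (by omega)),
    h4 σ _ (abs_le.2 (by omega)) (abs_le.2 (by omega))]
  congr 1
  ring

theorem Marks.hol {S A L : ℕ} (M : Marks G V S A L) (hfree : FreeM G V) (hcomm : CommG1 R G V)
    {ρ r₀ t r q : ℕ} (hA : 8 * t * r₀ + r ≤ A) (hS : 2 * A ≤ S) (hL : S ≤ L)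
    (hρ : 4 * t * r₀ + r + L ≤ ρ) (J : Type) [Fintype J] [DecidableEq J] (l : J → Win V)
    (hl : ∀ j, l j ∈ M.piece r₀ t q) (a : Matrix J J (MonoidAlgebra R G))
    (ha : MSup2 (fun i j => Sp G ρ r₀ r (l i) (l j)) a) (hu : IsUnit a) : T a := by
  choose m m' hm _ hb _ using hl
  refine T_of_groupoid (fun i j => {g | ∃ γ ∈ Win1H_grp G S A (sh (l i) (m i)), ∃ k,
    Eqv S (sh (l i) (m i)) (sh (l j) (m j)) k ∧ g = γ * k}) (fun i => ?_) ?_ ?_ ?_ ?_ hu
  · exact ⟨1, one_mem _, 1, fun τ t _ => one_smul _ _, (mul_one 1).symm⟩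
  · rintro i j n _ ⟨γ, h1, k, h2, rfl⟩ _ ⟨γ', h3, k', h4, rfl⟩
    exact ⟨_, mul_mem h1 (Win1H_conj h2 h3), _, Win1H_trans h2 h4, by group⟩
  · rintro i j _ ⟨γ, h1, k, h2, rfl⟩
    exact ⟨_, Win1H_conj (Win1H_symm h2) (inv_mem h1), _, Win1H_symm h2, by group⟩
  · intro i H hH
    have h1 : ∀ g ∈ H, g ∈ Win1H_grp G S A (sh (l i) (m i)) := fun g hg => by
      have h2 : g ∈ (H : Set G) := hg
      rw [hH] at h2
      obtain ⟨γ, h3, k, h4, rfl⟩ := h2
      exact mul_mem h3 (Win1H_self h4)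
    exact hcomm H fun a ha b hb => Win1H_comm hfree hS _ a (h1 a ha) b (h1 b hb)
  · refine fun i j => (ha i j).mono ?_
    rintro g ⟨d, hd, hr, hg⟩
    have hA' : 2 * (4 * (t : ℤ) * r₀) + r ≤ A := by
      have : ((8 * t * r₀ + r : ℕ) : ℤ) ≤ A := by exact_mod_cast hA
      push_cast at this
      linarith
    have hρ' : 4 * (t : ℤ) * r₀ + r + L ≤ ρ := by exact_mod_cast hρ
    have hi := fun τ => abs_le.1 (hb i τ)
    have hj := fun τ => abs_le.1 (hb j τ)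
    generalize 4 * (t : ℤ) * r₀ = B at hA' hρ' hi hj
    have h1 : M.Mk q (l i) (m j + d) := (M.transfer hg q (m j)
      (fun τ => by have := hj τ; omega)
      (fun τ => by have := hj τ; have := hr τ; omega)).2 (hm j)
    have h2 : ∀ τ, |m i τ - (m j + d) τ| ≤ A := fun τ => by
      have := hi τ
      have := hj τ
      have := hr τ
      have := hd.1 τ
      rw [Pi.add_apply, abs_le]
      omega
    obtain ⟨γ, hγ⟩ := M.sep q (l i) _ _ (hm i) h1 h2
    refine ⟨γ, Subgroup.subset_closure ⟨fun τ => (m j + d) τ - m i τ,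
      fun τ => by rw [abs_sub_comm]; exact h2 τ, fun τ s hs _ => ?_⟩, γ⁻¹ * g, fun τ s hs => ?_,
      by group⟩
    · rw [hγ τ s hs]
      simp only [sh]
      congr 1
      ring
    · have h3 := abs_le.1 hs
      have := hj τ
      have := hr τ
      rw [mul_smul, inv_smul_eq_iff, hγ τ s hs]
      simp only [sh]
      rw [hg τ _ (by omega) (by omega), Pi.add_apply]
      congr 1
      ring

end Pool.Agent.MP_f7db47_al.PT

end

section

/-!
The elimination theorem for matrices typed by windows.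
-/

set_option linter.unusedSectionVars false

namespace Pool.Agent.MP_f7db47_al.PT

open Matrix

universe u v w

variable {R : Type v} [Ring R] {G : Type u} [Group G]
variable {ι : Type} [Fintype ι] {V : ι → Type w} [∀ τ, MulAction G (V τ)]

theorem win_core (hfree : FreeM G V) (hcomm : CommG1 R G V) (r₀ : ℕ) (hr : 3 ≤ r₀) :
    ∃ S : ℕ, ∀ n : ℕ, ∃ ρ : ℕ, S ≤ ρ ∧ ∀ (cand : Fin n → Win V) (J : Type) [Fintype J]
      [DecidableEq J] (l : J → Win V),
      (∀ j, ∃ i, ∀ (τ : ι) (s : ℤ), |s| ≤ S → l j τ s = cand i τ s) →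
      ∀ a b : Matrix J J (MonoidAlgebra R G), a * b = 1 → b * a = 1 →
        MSup2 (fun i j => Sp G ρ r₀ r₀ (l i) (l j)) a →
        MSup2 (fun i j => Sp G ρ r₀ r₀ (l i) (l j)) b → T a := by
  obtain ⟨C, hC⟩ : ∃ C, C = 8 * r₀ + 2 := ⟨_, rfl⟩
  obtain ⟨N, hN⟩ : ∃ N, N = (2 * C + 1) ^ Fintype.card ι + 1 := ⟨_, rfl⟩
  obtain ⟨t, ht⟩ : ∃ t, t = 3 ^ (N + 1) * r₀ := ⟨_, rfl⟩
  obtain ⟨A, hA⟩ : ∃ A, A = C * t := ⟨_, rfl⟩
  have hA' : A = 8 * t * r₀ + 2 * t := by rw [hA, hC]; ring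
  obtain ⟨S, hS⟩ : ∃ S, S = 2 * A + t := ⟨_, rfl⟩
  refine ⟨S, fun n => ?_⟩
  obtain ⟨L, hL⟩ : ∃ L, L = N * n * A + S := ⟨_, rfl⟩
  refine ⟨4 * t * r₀ + t + L, by omega, fun cand J _ _ l hl a b hab hba ha hb => ?_⟩
  have hex := exists_Marks (G := G) S A t C n hA.le (by omega) cand
  rw [← hN, ← hL] at hex
  obtain ⟨M, hM⟩ := hex
  refine elim_loop (Sp G (4 * t * r₀ + t + L) r₀) (fun r r' h x y => Sp.mono h x y)
    (fun r r' x y z a ha b hb => Sp.mul ha hb) (N + 1) r₀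
    {x | ∃ i, ∀ (τ : ι) (s : ℤ), |s| ≤ S → x τ s = cand i τ s}
    (fun q => Nat.casesOn q {x | PosPer G S A x} fun q => M.piece r₀ t q) ?_ ?_ ?_ J l hl a b
    hab hba ha hb
  · intro x hx
    by_cases h : PosPer G S A x
    · exact ⟨0, by omega, h⟩
    · obtain ⟨q, hq, m, h1, h2⟩ := hM x hx h
      exact ⟨q + 1, by omega, M.cover hr h1 h2⟩
  · rw [← ht]
    intro q _ c x c' hc hc' h1 h2
    cases q with
    | zero => exact posPer_conv hfree (by omega) (by omega) hc hc' h1 h2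
    | succ q => exact M.conv (by omega) (by omega) le_rfl hc hc' h1 h2
  · rw [← ht]
    intro q _ J _ _ l a hl ha hu
    cases q with
    | zero => exact posPer_hol hfree hcomm (by omega) (by omega) J l hl a ha hu
    | succ q =>
      exact M.hol hfree hcomm (by omega) (by omega) (by omega) le_rfl J l hl a ha hu

end Pool.Agent.MP_f7db47_al.PT

end

section

/-!
Refinement of labels to long windows.
-/

set_option linter.unusedSectionVars false

namespace Pool.Agent.MP_f7db47_al.PT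

open Matrix

universe u v

variable {R : Type v} [Ring R] {G : Type u} [Group G]
variable {ι : Type} {V : ι → Type} [∀ τ, MulAction G (V τ)] (c : ∀ τ, CS G (V τ))
variable {J : Type} (l : J → ∀ τ, V τ) (Φ : J → J → Set G)

/-- The reversed arrows. -/
def rev : J → J → Set G := fun j i => {g | g⁻¹ ∈ Φ i j}

/-- Refined labels: a label with a past and a future segment. -/
def Lab (m n : ℕ) : Type :=
  {p : J × (∀ τ, V τ) × (∀ τ, V τ) //
    p.2.1 ∈ Up c l Φ m p.1 ∧ p.2.2 ∈ Up (fun τ => (c τ).op) l (rev Φ) n p.1}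

variable {c l Φ}

/-- Arrows between refined labels. -/
def Rl {m n m' n' : ℕ} (y : Lab c l Φ m n) (y' : Lab c l Φ m' n') : Set G :=
  {g | (∀ τ, (c τ).le (g • y'.1.2.1 τ) (y.1.2.1 τ)) ∧ ∀ τ, (c τ).le (g • y'.1.2.2 τ) (y.1.2.2 τ)}

/-- The lift of a matrix to refined labels. -/
noncomputable def lf (m n m' n' : ℕ) (A : Matrix J J (MonoidAlgebra R G)) :
    Matrix (Lab c l Φ m n) (Lab c l Φ m' n') (MonoidAlgebra R G) :=
  lift (fun y => y.1.1) (fun y => y.1.1) Rl A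

lemma Str.rev (hs : Str c l Φ) : Str (fun τ => (c τ).op) l (rev Φ) := by
  intro j i g hg τ
  obtain ⟨h1, h2⟩ := hs i j _ hg τ
  refine ⟨(by simpa using (c τ).smul g h1 : (c τ).le (l j τ) (g • l i τ)), ?_⟩
  change 1 ≤ (c τ).dep (g • l i τ) (l j τ)
  rwa [← (c τ).dep_smul g⁻¹, inv_smul_smul]

lemma Lab.finite [Finite J] (hΦ : ∀ i j, (Φ i j).Finite) (m n : ℕ) : Finite (Lab c l Φ m n) := by
  have h : {p : J × (∀ τ, V τ) × (∀ τ, V τ) |
      p.2.1 ∈ Up c l Φ m p.1 ∧ p.2.2 ∈ Up (fun τ => (c τ).op) l (rev Φ) n p.1}.Finite := by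
    refine (Set.finite_iUnion fun j : J => (Set.finite_singleton j).prod
      ((Up.finite (c := c) (l := l) hΦ m j).prod (Up.finite (c := fun τ => (c τ).op) (l := l)
        (Φ := rev Φ) (fun i j => (hΦ j i).inv) n j))).subset ?_
    rintro p ⟨h1, h2⟩
    exact Set.mem_iUnion.2 ⟨p.1, rfl, h1, h2⟩
  exact h.to_subtype

/-- A step between refined labels. -/
def Stq (Φ : J → J → Set G) (m n m' n' : ℕ) (i j : J) : Set G :=
  {g | (g ∈ Φ i j ∧ m' ≤ m + 1 ∧ n ≤ n' + 1) ∨ (i = j ∧ g = 1 ∧ m' ≤ m ∧ n ≤ n')}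

lemma Stq.up {m n m' n' : ℕ} {i j : J} {g : G} (h : g ∈ Stq Φ m n m' n' i j) :
    Stp Φ i j g m' m :=
  h.imp (fun h => ⟨h.1, h.2.1⟩) fun h => ⟨h.1, h.2.1, h.2.2.1⟩

lemma Stq.dn {m n m' n' : ℕ} {i j : J} {g : G} (h : g ∈ Stq Φ m n m' n' i j) :
    Stp (rev Φ) j i g⁻¹ n n' :=
  h.imp (fun h => ⟨by simpa [rev] using h.1, h.2.2⟩) fun h =>
    ⟨h.1.symm, by rw [h.2.1, inv_one], h.2.2.2⟩

lemma lf_mul [Fintype J] (hs : Str c l Φ) {m n m' n' m'' n'' : ℕ} [Fintype (Lab c l Φ m' n')]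
    {A B : Matrix J J (MonoidAlgebra R G)} (hA : MSup2 (Stq Φ m n m' n') A)
    (hB : MSup2 (Stq Φ m' n' m'' n'') B) :
    (lf m n m' n' A : Matrix (Lab c l Φ m n) _ _) * lf m' n' m'' n'' B =
      lf m n m'' n'' (A * B) := by
  refine lift_mul _ _ _ _ _ _ hA hB (fun y y' y'' g hg h hh => ⟨fun τ => ?_, fun τ => ?_⟩) ?_
  · rw [mul_smul]; exact (c τ).trans ((c τ).smul g (hh.1 τ)) (hg.1 τ)
  · rw [mul_smul]; exact (c τ).trans ((c τ).smul g (hh.2 τ)) (hg.2 τ)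
  · intro y y'' j g hg h hh hgh
    obtain ⟨x, ⟨x1, x2, x3⟩, hx⟩ := Up.lift hs (Stq.up hg) (Stq.up hh) y.2.1 y''.2.1 hgh.1
    obtain ⟨z, ⟨z1, z2, z3⟩, hz⟩ := Up.lift hs.rev (Stq.dn hh) (Stq.dn hg) y''.2.2 y.2.2
      fun τ => by
        rw [← _root_.mul_inv_rev]
        exact (c τ).inv_le (hgh.2 τ)
    refine ⟨⟨(j, x, z), x1, z1⟩, ⟨rfl, ⟨x2, fun τ => ?_⟩, x3, fun τ => ?_⟩, ?_⟩
    · simpa using (c τ).smul g (z3 τ)
    · simpa using (c τ).smul h (z2 τ)
    · rintro ⟨⟨j', x', z'⟩, h1, h2⟩ ⟨rfl, h3, h4⟩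
      obtain rfl := hx x' ⟨h1, h3.1, h4.1⟩
      obtain rfl := hz z' ⟨h2, fun τ => (c τ).inv_le (h4.2 τ), fun τ => (c τ).inv_le (h3.2 τ)⟩
      rfl

lemma lf_one [DecidableEq J] {m n : ℕ} [DecidableEq (Lab c l Φ m n)] :
    (lf m n m n (1 : Matrix J J (MonoidAlgebra R G)) : Matrix (Lab c l Φ m n) _ _) = 1 := by
  ext1 y y'
  by_cases h : y = y'
  · subst h
    simp only [lf, lift, one_apply_eq]
    exact (sup_one (S := Rl y y) ⟨fun τ => by rw [one_smul]; exact (c τ).refl _,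
      fun τ => by rw [one_smul]; exact (c τ).refl _⟩).pr_eq
  · rw [one_apply_ne h]
    by_cases h' : y.1.1 = y'.1.1
    · change pr (Rl y y') ((1 : Matrix J J (MonoidAlgebra R G)) y.1.1 y'.1.1) = 0
      rw [h', one_apply_eq]
      refine (sup_one (S := {1}) rfl).pr_eq_zero ?_
      rintro _ rfl ⟨h1, h2⟩
      simp only [one_smul] at h1 h2
      refine h (Subtype.ext (Prod.ext h' (Prod.ext (funext fun τ => ?_) (funext fun τ => ?_))))
      · have e1 := Up.spec y.2.1 τ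
        have e2 := Up.spec y'.2.1 τ
        rw [h'] at e1
        have := (c τ).add e2.1 (h1 τ)
        exact ((c τ).zero (h1 τ) (by omega)).symm
      · have e1 : _ ∧ (c τ).dep _ _ = n := Up.spec y.2.2 τ
        have e2 : _ ∧ (c τ).dep _ _ = n := Up.spec y'.2.2 τ
        rw [h'] at e1
        have := (c τ).add (h2 τ) e1.1
        exact ((c τ).zero (h2 τ) (by omega)).symm
    · simp only [lf, lift, one_apply_ne h', map_zero]

lemma lf_sub {m n m' n' : ℕ} (A B : Matrix J J (MonoidAlgebra R G)) :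
    (lf m n m' n' (A - B) : Matrix (Lab c l Φ m n) _ _) = lf m n m' n' A - lf m n m' n' B := by
  ext1 y y'
  exact map_sub (pr (Rl y y')) _ _

variable (c) in
/-- The window of a refined label. -/
noncomputable def Lab.win {ρ : ℕ} (y : Lab c l Φ ρ ρ) : Win V :=
  fun τ t => (c τ).pt (y.1.2.1 τ) (y.1.2.2 τ) (ρ + t).toNat

lemma Lab.win_spec {ρ : ℕ} (y : Lab c l Φ ρ ρ) (τ : ι) {t : ℤ} (h : t ≤ ρ) :
    (c τ).le (y.1.2.2 τ) (y.win c τ t) ∧ (c τ).le (y.win c τ t) (y.1.2.1 τ) ∧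
      (c τ).dep (y.1.2.1 τ) (y.win c τ t) = (ρ + t).toNat := by
  have e1 := Up.spec y.2.1 τ
  have e2 : _ ∧ (c τ).dep _ _ = ρ := Up.spec y.2.2 τ
  have := (c τ).add e2.1 e1.1
  exact (c τ).pt_spec ((c τ).trans e2.1 e1.1) (by omega)

lemma Lab.arr {ρ : ℕ} {y y' : Lab c l Φ ρ ρ} {g : G} (h : g ∈ Rl y y')
    (hg : ∀ τ, (c τ).le (g • l y'.1.1 τ) (l y.1.1 τ)) :
    Arr ρ (y.win c) (y'.win c) g fun τ => (c τ).dep (l y.1.1 τ) (g • l y'.1.1 τ) := by
  intro τ t h1 h2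
  dsimp only at h2 ⊢
  obtain ⟨a1, a2, a3⟩ := y'.win_spec τ (t := t) (by omega)
  obtain ⟨b1, b2, b3⟩ := y.win_spec τ h2
  have e1 := Up.spec y.2.1 τ
  have e2 := Up.spec y'.2.1 τ
  have e3 := (c τ).add (hg τ) e1.1
  have e4 := (c τ).add ((c τ).smul g e2.1) (h.1 τ)
  have e5 := (c τ).add ((c τ).smul g a2) (h.1 τ)
  rw [(c τ).dep_smul] at e4 e5
  exact (c τ).uniq ((c τ).smul g a1) ((c τ).trans ((c τ).smul g a2) (h.1 τ))
    ((c τ).trans (h.2 τ) b1) b2 (by omega)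

lemma Lab.trunc (hs : Str c l Φ) {S ρ : ℕ} (h : S ≤ ρ) (y : Lab c l Φ ρ ρ) :
    ∃ y' : Lab c l Φ S S, ∀ (τ : ι) (s : ℤ), |s| ≤ S → y.win c τ s = y'.win c τ s := by
  have e1 := Up.spec y.2.1
  have e2 : ∀ τ, (c τ).le (y.1.2.2 τ) (l y.1.1 τ) ∧ (c τ).dep (l y.1.1 τ) (y.1.2.2 τ) = ρ :=
    fun τ => Up.spec y.2.2 τ
  have hp := fun τ => (c τ).pt_spec (a := ρ - S) (e1 τ).1 (by rw [(e1 τ).2]; omega)
  have hq := fun τ => (c τ).pt_spec (a := S) (e2 τ).1 (by rw [(e2 τ).2]; omega)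
  have h1 : (fun τ => (c τ).pt (y.1.2.1 τ) (l y.1.1 τ) (ρ - S)) ∈ Up c l Φ S y.1.1 := by
    refine Up.trunc hs h y.2.1 fun τ => ?_
    have := (c τ).add (hp τ).1 (hp τ).2.1
    rw [(e1 τ).2, (hp τ).2.2] at this
    exact ⟨(hp τ).1, (hp τ).2.1, by omega⟩
  have h2 : (fun τ => (c τ).pt (l y.1.1 τ) (y.1.2.2 τ) S) ∈
      Up (fun τ => (c τ).op) l (rev Φ) S y.1.1 :=
    Up.trunc hs.rev h y.2.2 fun τ => ⟨(hq τ).2.1, (hq τ).1, (hq τ).2.2⟩
  let y' : Lab c l Φ S S := ⟨(y.1.1, fun τ => (c τ).pt (y.1.2.1 τ) (l y.1.1 τ) (ρ - S),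
    fun τ => (c τ).pt (l y.1.1 τ) (y.1.2.2 τ) S), h1, h2⟩
  refine ⟨y', fun τ s hs => ?_⟩
  rw [abs_le] at hs
  obtain ⟨a1, a2, a3⟩ := y.win_spec τ (t := s) (by omega)
  obtain ⟨b1, b2, b3⟩ := y'.win_spec τ hs.2
  have := (c τ).add b2 (hp τ).2.1
  rw [(hp τ).2.2, b3] at this
  exact (c τ).uniq a1 a2 ((c τ).trans (hq τ).1 b1) ((c τ).trans b2 (hp τ).2.1) (by omega)

variable (c) in
theorem posT_univ [Fintype ι] (hfree : FreeM G V) (hcomm : CommG1 R G V) :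
    PosT R c Set.univ := by
  intro J _ _ l ν β h1 h2 hν hβ
  classical
  let Φ : J → J → Set G := fun i j => {g | (ν i j).coeff g ≠ 0 ∨ (β i j).coeff g ≠ 0}
  have hΦ : ∀ i j, (Φ i j).Finite := fun i j =>
    ((ν i j).coeff.support ∪ (β i j).coeff.support).finite_toSet.subset fun g hg => by
      simpa [Φ] using hg
  have hs : Str c l Φ := by
    intro i j g hg τ
    have : g ∈ Pos c Set.univ l l i j := hg.elim (hν i j g) (hβ i j g)
    exact ⟨this.1 τ, Nat.pos_of_ne_zero fun h => this.2 τ trivial ((c τ).zero (this.1 τ) h)⟩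
  have hfin := fun m n => Lab.finite (c := c) (l := l) hΦ m n
  let _ : ∀ m n, Fintype (Lab c l Φ m n) := fun m n => Fintype.ofFinite _
  have sν : ∀ m n m' n', m' ≤ m + 1 → n ≤ n' + 1 → MSup2 (Stq Φ m n m' n') ν :=
    fun m n m' n' a b i j g hg => Or.inl ⟨Or.inl hg, a, b⟩
  have sβ : ∀ m n m' n', m' ≤ m + 1 → n ≤ n' + 1 → MSup2 (Stq Φ m n m' n') β :=
    fun m n m' n' a b i j g hg => Or.inl ⟨Or.inr hg, a, b⟩
  have s1 : ∀ m n m' n', m' ≤ m → n ≤ n' →
      MSup2 (Stq Φ m n m' n') (1 : Matrix J J (MonoidAlgebra R G)) :=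
    fun m n m' n' a b => msup2_one fun i => Or.inr ⟨rfl, rfl, a, b⟩
  obtain ⟨r₀, hr, hr'⟩ : ∃ r₀, 3 ≤ r₀ ∧ ∀ i j, ∀ g ∈ Φ i j, ∀ τ,
      (c τ).dep (l i τ) (g • l j τ) ≤ r₀ := by
    have : (⋃ i, ⋃ j, ⋃ τ, (fun g => (c τ).dep (l i τ) (g • l j τ)) '' Φ i j).Finite :=
      Set.finite_iUnion fun i => Set.finite_iUnion fun j => Set.finite_iUnion fun τ =>
        (hΦ i j).image _
    obtain ⟨b, hb⟩ := this.bddAbove
    refine ⟨max 3 b, le_max_left _ _, fun i j g hg τ => le_max_of_le_right (hb ?_)⟩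
    simp only [Set.mem_iUnion]
    exact ⟨i, j, τ, g, hg, rfl⟩
  obtain ⟨S, hS⟩ := win_core hfree hcomm r₀ hr
  obtain ⟨ρ, hρ, hcore⟩ := hS (Fintype.card (Lab c l Φ S S))
  have sup : ∀ A : Matrix J J (MonoidAlgebra R G), MSup2 (Stq Φ ρ ρ ρ ρ) A →
      MSup2 (fun y y' : Lab c l Φ ρ ρ => Sp G ρ r₀ r₀ (y.win c) (y'.win c)) (lf ρ ρ ρ ρ A) := by
    intro A hA y y' g hg
    have h3 : g ∈ Rl y y' := sup_pr _ _ g hg
    have h4 : g ∈ Stq Φ ρ ρ ρ ρ _ _ := (hA y.1.1 y'.1.1).pr g hg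
    refine ⟨_, ?_, fun τ => ?_, Lab.arr h3 fun τ => ((Stq.up h4).spec hs τ).1⟩
    · refine ⟨fun τ => Int.natCast_nonneg _, fun τ σ => ?_⟩
      rcases h4 with ⟨h4, -⟩ | ⟨h4, rfl, -⟩
      · have e1 := hr' _ _ g h4 τ
        have e2 := (hs _ _ g h4 σ).2
        dsimp only
        exact_mod_cast e1.trans (Nat.le_mul_of_pos_right _ e2)
      · simp [h4, CS.dep_self]
    · rcases h4 with ⟨h4, -⟩ | ⟨h4, rfl, -⟩
      · exact_mod_cast hr' _ _ g h4 τ
      · simp [h4, CS.dep_self]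
  have a1 := (s1 ρ ρ ρ ρ le_rfl le_rfl).sub (sν ρ ρ ρ ρ (by omega) (by omega))
  have a2 := (s1 ρ ρ ρ ρ le_rfl le_rfl).add (sβ ρ ρ ρ ρ (by omega) (by omega))
  have hT := hcore (fun i => ((Fintype.equivFin _).symm i).win c) (Lab c l Φ ρ ρ)
    (fun y => y.win c) (fun y => by
      obtain ⟨y', hy'⟩ := Lab.trunc hs hρ y
      exact ⟨Fintype.equivFin _ y', by simpa using hy'⟩)
    (lf ρ ρ ρ ρ (1 - ν)) (lf ρ ρ ρ ρ (1 + β)) ((lf_mul hs a1 a2).trans (by rw [h1, lf_one]))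
    ((lf_mul hs a2 a1).trans (by rw [h2, lf_one])) (sup _ a1) (sup _ a2)
  rw [lf_sub, lf_one] at hT
  have stepU : ∀ m n, T (1 - (lf (m + 1) n (m + 1) n ν : Matrix (Lab c l Φ _ _) _ _)) →
      T (1 - (lf m n m n ν : Matrix (Lab c l Φ _ _) _ _)) := by
    intro m n h
    have e1 := lf_mul hs (s1 (m + 1) n m n (by omega) le_rfl) (sν m n (m + 1) n le_rfl (by omega))
    have e2 := lf_mul hs (sν m n (m + 1) n le_rfl (by omega)) (s1 (m + 1) n m n (by omega) le_rfl)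
    rw [one_mul] at e1
    rw [mul_one] at e2
    exact e2 ▸ T_one_sub_comm _ _ (e1 ▸ h)
  have stepD : ∀ m n, T (1 - (lf m (n + 1) m (n + 1) ν : Matrix (Lab c l Φ _ _) _ _)) →
      T (1 - (lf m n m n ν : Matrix (Lab c l Φ _ _) _ _)) := by
    intro m n h
    have e1 := lf_mul hs (sν m (n + 1) m n (by omega) le_rfl) (s1 m n m (n + 1) le_rfl (by omega))
    have e2 := lf_mul hs (s1 m n m (n + 1) le_rfl (by omega)) (sν m (n + 1) m n (by omega) le_rfl)
    rw [mul_one] at e1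
    rw [one_mul] at e2
    exact e2 ▸ T_one_sub_comm _ _ (e1 ▸ h)
  have down : ∀ m, T (1 - (lf m m m m ν : Matrix (Lab c l Φ _ _) _ _)) →
      T (1 - (lf 0 0 0 0 ν : Matrix (Lab c l Φ _ _) _ _)) := by
    intro m
    induction m with
    | zero => exact id
    | succ m ih => exact fun h => ih (stepU _ _ (stepD _ _ h))
  have h0 := down ρ hT
  let e : Lab c l Φ 0 0 ≃ J :=
    { toFun := fun y => y.1.1
      invFun := fun j => ⟨(j, l j, l j), rfl, rfl⟩
      left_inv := fun y => Subtype.ext (Prod.ext rfl (Prod.ext y.2.1.symm y.2.2.symm))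
      right_inv := fun _ => rfl }
  refine T_of_submatrix e ?_
  convert h0 using 1
  rw [submatrix_sub, Pi.sub_apply, Pi.sub_apply, submatrix_one_equiv]
  congr 1
  ext1 y y'
  refine (Sup.pr_eq fun g hg => ?_).symm
  have h3 := (hν y.1.1 y'.1.1 g hg).1
  have e1 : y.1.2.1 = l y.1.1 := y.2.1
  have e2 : y.1.2.2 = l y.1.1 := y.2.2
  have e3 : y'.1.2.1 = l y'.1.1 := y'.2.1
  have e4 : y'.1.2.2 = l y'.1.1 := y'.2.2
  exact ⟨by rw [e1, e3]; exact h3, by rw [e2, e4]; exact h3⟩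

end Pool.Agent.MP_f7db47_al.PT

end

section

/-!
The elimination loop with a last colour.
-/

set_option linter.unusedSectionVars false

namespace Pool.Agent.MP_f7db47_al.PT

open Matrix

universe u v w

variable {R : Type v} [Ring R] {G : Type u} [Group G]

theorem elim_loop' {W : Type w} (Sq : ℕ → W → W → Set G)
    (hmono : ∀ r r', r ≤ r' → ∀ x y, Sq r x y ⊆ Sq r' x y)
    (hmul : ∀ r r' x y z, ∀ a ∈ Sq r x y, ∀ b ∈ Sq r' y z, a * b ∈ Sq (r + r') x z)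
    (N r₀ : ℕ) (P : Set W) (C : ℕ → Set W)
    (hlast : ∀ (J : Type) [Fintype J] [DecidableEq J] (l : J → W),
      (∀ j, l j ∈ P ∧ ∀ q < N, l j ∉ C q) → ∀ a b : Matrix J J (MonoidAlgebra R G),
      a * b = 1 → b * a = 1 → MSup2 (fun i j => Sq (3 ^ N * r₀) (l i) (l j)) a →
      MSup2 (fun i j => Sq (3 ^ N * r₀) (l i) (l j)) b → T a)
    (hconv : ∀ q < N, ∀ c x c', c ∈ C q → c' ∈ C q → (Sq (3 ^ N * r₀) c x).Nonempty →
      (Sq (3 ^ N * r₀) x c').Nonempty → x ∈ C q)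
    (hhol : ∀ q < N, ∀ (J : Type) [Fintype J] [DecidableEq J] (l : J → W)
      (a : Matrix J J (MonoidAlgebra R G)), (∀ j, l j ∈ C q) →
      MSup2 (fun i j => Sq (3 ^ N * r₀) (l i) (l j)) a → IsUnit a → T a)
    (J : Type) [Fintype J] [DecidableEq J] (l : J → W) (hl : ∀ j, l j ∈ P)
    (a b : Matrix J J (MonoidAlgebra R G)) (hab : a * b = 1) (hba : b * a = 1)
    (ha : MSup2 (fun i j => Sq r₀ (l i) (l j)) a) (hb : MSup2 (fun i j => Sq r₀ (l i) (l j)) b) :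
    T a := by
  have key : ∀ m q, q + m = N → ∀ (J : Type) [Fintype J] [DecidableEq J] (l : J → W),
      (∀ j, l j ∈ P ∧ ∀ q' < q, l j ∉ C q') → ∀ a b : Matrix J J (MonoidAlgebra R G),
      a * b = 1 → b * a = 1 → MSup2 (fun i j => Sq (3 ^ q * r₀) (l i) (l j)) a →
      MSup2 (fun i j => Sq (3 ^ q * r₀) (l i) (l j)) b → T a := by
    intro m
    induction m with
    | zero =>
      intro q hq
      obtain rfl : q = N := hq
      exact hlast
    | succ m ih =>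
      intro q hq J _ _ l hl a b hab hba ha hb
      classical
      have hqN : q < N := by omega
      have hle : 3 ^ q * r₀ ≤ 3 ^ N * r₀ :=
        Nat.mul_le_mul_right _ (Nat.pow_le_pow_right (by norm_num) hqN.le)
      let e := Equiv.sumCompl fun j => l j ∈ C q
      apply T_of_submatrix e
      have hab' : a.submatrix e e * b.submatrix e e = 1 := by
        rw [submatrix_mul_equiv, hab, submatrix_one_equiv]
      have hba' : b.submatrix e e * a.submatrix e e = 1 := by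
        rw [submatrix_mul_equiv, hba, submatrix_one_equiv]
      have hz : ∀ x y : Matrix J J (MonoidAlgebra R G),
          MSup2 (fun i j => Sq (3 ^ q * r₀) (l i) (l j)) x →
          MSup2 (fun i j => Sq (3 ^ q * r₀) (l i) (l j)) y →
          (x.submatrix e e).toBlocks₁₂ * (y.submatrix e e).toBlocks₂₁ = 0 := fun x y hx hy =>
        Elim_zero (S := fun i j => Sq (3 ^ q * r₀) (l i.1) (l j.1))
          (S' := fun i j => Sq (3 ^ q * r₀) (l i.1) (l j.1)) (fun i j => hx i.1 j.1)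
          (fun i j => hy i.1 j.1) fun i j k h1 h2 => j.2 (hconv q hqN _ _ _ i.2 k.2
            (h1.mono (hmono _ _ hle _ _)) (h2.mono (hmono _ _ hle _ _)))
      rw [← fromBlocks_toBlocks (a.submatrix e e)] at hab' hba' ⊢
      rw [← fromBlocks_toBlocks (b.submatrix e e)] at hab' hba'
      refine Elim_block hab' hba' (hz a b ha hb) (hz b a hb ha)
        (hhol q hqN _ (fun j => l j.1) _ (fun j => j.2) fun i j =>
          (ha i.1 j.1).mono (hmono _ _ hle _ _)) fun g1 g2 => ?_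
      have h3 : 3 ^ (q + 1) * r₀ = 3 ^ q * r₀ + 3 ^ q * r₀ + 3 ^ q * r₀ := by ring
      have hle' : 3 ^ q * r₀ ≤ 3 ^ (q + 1) * r₀ := by omega
      refine ih (q + 1) (by omega) _ (fun j => l j.1) (fun j => ⟨(hl j.1).1, fun q' hq' => ?_⟩)
        _ _ g1 g2 (MSup2.sub (fun i j => (ha i.1 j.1).mono (hmono _ _ hle' _ _)) ?_)
        fun i j => (hb i.1 j.1).mono (hmono _ _ hle' _ _)
      · rcases (Nat.lt_succ_iff.1 hq').eq_or_lt with rfl | h
        · exact j.2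
        · exact (hl j.1).2 q' h
      · rw [h3]
        exact MSup2.mul (S := fun i j => Sq (3 ^ q * r₀ + 3 ^ q * r₀) (l i.1) (l j.1))
          (S' := fun i j => Sq (3 ^ q * r₀) (l i.1) (l j.1))
          (MSup2.mul (S := fun i j => Sq (3 ^ q * r₀) (l i.1) (l j.1))
            (S' := fun i j => Sq (3 ^ q * r₀) (l i.1) (l j.1)) (fun i j => ha i.1 j.1)
            (fun i j => hb i.1 j.1) fun i j k => hmul _ _ _ _ _) (fun i j => ha i.1 j.1)
          fun i j k => hmul _ _ _ _ _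
  refine key N 0 (zero_add N) J l (fun j => ⟨hl j, fun q' h => absurd h (Nat.not_lt_zero _)⟩)
    a b hab hba ?_ ?_
  · simpa using ha
  · simpa using hb

end Pool.Agent.MP_f7db47_al.PT

end

section

/-!
Holonomy of windows for actions that are not free.
-/

set_option linter.unusedSectionVars false

namespace Pool.Agent.MP_f7db47_al.PT

open Matrix

universe v

variable {R : Type v} [Ring R] {G : Type} [Group G]
variable {ι : Type} [Fintype ι] {V : ι → Type} [∀ τ, MulAction G (V τ)]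
variable {Q : Type} [Group Q] {Ω : Type} [MulAction Q Ω]

variable (V) in
/-- Elements with a common fixed point in the product satisfy `Comm2`. -/
def ZU (D : Geo Q Ω) (f : G →* Q) : Prop :=
  ∀ (x : ∀ τ, V τ) (a b : G), (∀ τ, a • x τ = x τ) → (∀ τ, b • x τ = x τ) → D.Comm2 (f a) (f b)

variable (R) in
/-- Subgroups that fix a point of the geometry satisfy the inductive property. -/
def ZS (f : G →* Q) (Ω : Type) [MulAction Q Ω] : Prop :=
  ∀ (ω : Ω) (H : Subgroup G), (∀ g ∈ H, f g • ω = ω) → QQ R H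

lemma Eqv.mono {s s' : ℕ} {x y : Win V} {g : G} (h : Eqv s x y g) (hs : s' ≤ s) : Eqv s' x y g :=
  fun τ t ht => h τ t (ht.trans (by exact_mod_cast hs))

lemma Per.back {S : ℕ} {x : Win V} {a : G} {v : ι → ℤ} (h : Per S x a v) (τ : ι) {t : ℤ}
    (h1 : |t| ≤ S) (h2 : |t - v τ| ≤ S) : a⁻¹ • x τ t = x τ (t - v τ) := by
  rw [inv_smul_eq_iff, h τ _ h2 (by simpa using h1), sub_add_cancel]

lemma Per.conj {S A s s' : ℕ} {x : Win V} {a u : G} {v : ι → ℤ} (h : Per S x a v)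
    (hv : ∀ τ, |v τ| ≤ A) (hu : Eqv s x x u) (h1 : s ≤ S) (h2 : s' + A ≤ s) :
    Eqv s' x x (a * u * a⁻¹) := by
  intro τ t ht
  have h3 := abs_le.1 (hv τ)
  have h4 := abs_le.1 ht
  have h5 : a⁻¹ • x τ t = x τ (t - v τ) :=
    h.back τ (abs_le.2 (by omega)) (abs_le.2 (by omega))
  rw [mul_smul, mul_smul, h5, hu τ _ (abs_le.2 (by omega)), ← h5, smul_inv_smul]

lemma Per.comm {S A s : ℕ} {x : Win V} {a b : G} {v w : ι → ℤ} (ha : Per S x a v)
    (hb : Per S x b w) (hv : ∀ τ, |v τ| ≤ A) (hw : ∀ τ, |w τ| ≤ A) (h : s + 2 * A ≤ S) :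
    Eqv s x x (a * b * a⁻¹ * b⁻¹) := by
  intro τ t ht
  have h3 := abs_le.1 (hv τ)
  have h4 := abs_le.1 (hw τ)
  have h5 := abs_le.1 ht
  rw [mul_smul, mul_smul, mul_smul, hb.back τ (abs_le.2 (by omega)) (abs_le.2 (by omega)),
    ha.back τ (abs_le.2 (by omega)) (abs_le.2 (by omega)),
    hb τ _ (abs_le.2 (by omega)) (abs_le.2 (by omega)),
    ha τ _ (abs_le.2 (by omega)) (abs_le.2 (by omega))]
  congr 1
  ring

variable {D : Geo Q Ω} {f : G →* Q}

lemma ZU.comm2 (hU : ZU V D f) {s : ℕ} {x : Win V} {a b : G} (ha : Eqv s x x a)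
    (hb : Eqv s x x b) : D.Comm2 (f a) (f b) :=
  hU (fun τ => x τ 0) a b (fun τ => ha τ 0 (by simp)) fun τ => hb τ 0 (by simp)

lemma ZU.fix_un (hU : ZU V D f) {S A : ℕ} (hA : A ≤ S) {x : Win V} {a u : G} {v : ι → ℤ}
    (h : Per S x a v) (hv : ∀ τ, |v τ| ≤ A) (hu : Eqv A x x u) (hn : D.Un (f u)) :
    f a • D.om (f u) = D.om (f u) := by
  have h1 : Eqv 0 x x (a * u * a⁻¹) := h.conj hv hu hA (by omega)
  have h2 := (hU.comm2 h1 (hu.mono (Nat.zero_le _))).1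
  rw [map_mul, map_mul, map_inv] at h2
  rw [← D.om_conj _ _ (D.un_ncz _ hn)]
  exact h2 (D.un_conj _ _ hn) hn

lemma ZU.fix_nun (hU : ZU V D f) {S A s : ℕ} (hA : s + A ≤ S) {x : Win V}
    (hs : ∀ u, Eqv s x x u → ¬ D.Un (f u)) {a u : G} {v : ι → ℤ}
    (h : Per S x a v) (hv : ∀ τ, |v τ| ≤ A) (hu : Eqv (s + A) x x u) (hn : ¬ D.Cz (f u)) :
    f a • D.om (f u) = D.om (f u) := by
  have h1 : Eqv s x x (a * u * a⁻¹) := h.conj hv hu hA le_rfl
  have h0 : Eqv s x x u := hu.mono (by omega)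
  have h2 := (hU.comm2 h1 h0).2
  have h3 := hs _ (Win1H_trans (Win1H_trans (Win1H_trans h1 h0) (Win1H_symm h1)) (Win1H_symm h0))
  simp only [map_mul, map_inv] at h2 h3
  rw [← D.om_conj _ _ hn]
  refine (h2 (fun h4 => hn (D.cz_conj _ _ h4)) hn).resolve_left ?_
  simpa only [_root_.mul_inv_rev, inv_inv] using h3

lemma ZU.fix_grp (hU : ZU V D f) {S A : ℕ} (hS : 4 * A ≤ S) (x : Win V) :
    ∃ ω : Ω, ∀ g ∈ Win1H_grp G S A x, f g • ω = ω := by
  have key : (∃ ω : Ω, ∀ (g : G) (v : ι → ℤ), (∀ τ, |v τ| ≤ A) → Per S x g v → f g • ω = ω) := by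
    by_cases h1 : ∃ u, Eqv A x x u ∧ D.Un (f u)
    · obtain ⟨u, h2, h3⟩ := h1
      exact ⟨_, fun g v hv hg => hU.fix_un (by omega) hg hv h2 h3⟩
    by_cases h2 : ∃ (a b : G) (v w : ι → ℤ), (∀ τ, |v τ| ≤ A) ∧ (∀ τ, |w τ| ≤ A) ∧ Per S x a v ∧
        Per S x b w ∧ ¬ D.Cz (f (a * b * a⁻¹ * b⁻¹))
    · obtain ⟨a, b, v, w, hv, hw, ha, hb, h3⟩ := h2
      exact ⟨_, fun g v' hv' hg => hU.fix_nun (s := A) (by omega) (fun u hu hn => h1 ⟨u, hu, hn⟩)
        hg hv' (ha.comm hb hv hw (by omega)) h3⟩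
    by_cases h3 : ∃ (b : G) (w : ι → ℤ), (∀ τ, |w τ| ≤ A) ∧ Per S x b w ∧ ¬ D.Cz (f b)
    · obtain ⟨b, w, hw, hb, h4⟩ := h3
      refine ⟨_, fun g v hv hg => D.om_comm _ _ h4 ?_⟩
      by_contra h5
      exact h2 ⟨g, b, v, w, hv, hw, hg, hb, by simpa only [map_mul, map_inv] using h5⟩
    · refine ⟨D.om 1, fun g v hv hg => D.cz_triv _ _ ?_⟩
      by_contra h4
      exact h3 ⟨g, v, hv, hg, h4⟩
  obtain ⟨ω, h⟩ := key
  refine ⟨ω, fun g hg => ?_⟩
  have : Win1H_grp G S A x ≤ (MulAction.stabilizer Q ω).comap f := by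
    rw [Win1H_grp, Subgroup.closure_le]
    rintro g ⟨v, hv, hg⟩
    exact h g v hv hg
  exact this hg

theorem Marks.holZ {S A L : ℕ} (M : Marks G V S A L) (hU : ZU V D f) (hsol : ZS R f Ω)
    {ρ r₀ t r q : ℕ} (hA : 8 * t * r₀ + r ≤ A) (hS : 4 * A ≤ S) (hL : S ≤ L)
    (hρ : 4 * t * r₀ + r + L ≤ ρ) (J : Type) [Fintype J] [DecidableEq J] (l : J → Win V)
    (hl : ∀ j, l j ∈ M.piece r₀ t q) (a : Matrix J J (MonoidAlgebra R G))
    (ha : MSup2 (fun i j => Sp G ρ r₀ r (l i) (l j)) a) (hu : IsUnit a) : T a := by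
  choose m m' hm _ hb _ using hl
  refine T_of_groupoid (fun i j => {g | ∃ γ ∈ Win1H_grp G S A (sh (l i) (m i)), ∃ k,
    Eqv S (sh (l i) (m i)) (sh (l j) (m j)) k ∧ g = γ * k}) (fun i => ?_) ?_ ?_ ?_ ?_ hu
  · exact ⟨1, one_mem _, 1, fun τ t _ => one_smul _ _, (mul_one 1).symm⟩
  · rintro i j n _ ⟨γ, h1, k, h2, rfl⟩ _ ⟨γ', h3, k', h4, rfl⟩
    exact ⟨_, mul_mem h1 (Win1H_conj h2 h3), _, Win1H_trans h2 h4, by group⟩
  · rintro i j _ ⟨γ, h1, k, h2, rfl⟩
    exact ⟨_, Win1H_conj (Win1H_symm h2) (inv_mem h1), _, Win1H_symm h2, by group⟩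
  · intro i H hH
    obtain ⟨ω, hω⟩ := hU.fix_grp hS (sh (l i) (m i))
    refine (hsol ω H fun g hg => hω g ?_).g1
    have h2 : g ∈ (H : Set G) := hg
    rw [hH] at h2
    obtain ⟨γ, h3, k, h4, rfl⟩ := h2
    exact mul_mem h3 (Win1H_self h4)
  · refine fun i j => (ha i j).mono ?_
    rintro g ⟨d, hd, hr, hg⟩
    have hA' : 2 * (4 * (t : ℤ) * r₀) + r ≤ A := by
      have : ((8 * t * r₀ + r : ℕ) : ℤ) ≤ A := by exact_mod_cast hA
      push_cast at this
      linarith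
    have hρ' : 4 * (t : ℤ) * r₀ + r + L ≤ ρ := by exact_mod_cast hρ
    have hi := fun τ => abs_le.1 (hb i τ)
    have hj := fun τ => abs_le.1 (hb j τ)
    generalize 4 * (t : ℤ) * r₀ = B at hA' hρ' hi hj
    have h1 : M.Mk q (l i) (m j + d) := (M.transfer hg q (m j)
      (fun τ => by have := hj τ; omega)
      (fun τ => by have := hj τ; have := hr τ; omega)).2 (hm j)
    have h2 : ∀ τ, |m i τ - (m j + d) τ| ≤ A := fun τ => by
      have := hi τ
      have := hj τ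
      have := hr τ
      have := hd.1 τ
      rw [Pi.add_apply, abs_le]
      omega
    obtain ⟨γ, hγ⟩ := M.sep q (l i) _ _ (hm i) h1 h2
    refine ⟨γ, Subgroup.subset_closure ⟨fun τ => (m j + d) τ - m i τ,
      fun τ => by rw [abs_sub_comm]; exact h2 τ, fun τ s hs _ => ?_⟩, γ⁻¹ * g, fun τ s hs => ?_,
      by group⟩
    · rw [hγ τ s hs]
      simp only [sh]
      congr 1
      ring
    · have h3 := abs_le.1 hs
      have := hj τ
      have := hr τ
      rw [mul_smul, inv_smul_eq_iff, hγ τ s hs]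
      simp only [sh]
      rw [hg τ _ (by omega) (by omega), Pi.add_apply]
      congr 1
      ring

/-- The window has no repetitions. -/
def Good (ρ : ℕ) (x : Win V) : Prop :=
  ∀ (τ : ι) (s t : ℤ), |s| ≤ ρ → |t| ≤ ρ → x τ s = x τ t → s = t

lemma Arr.back {ρ : ℕ} {x y : Win V} {g : G} {d : ι → ℤ} (h : Arr ρ x y g d) (τ : ι) {t : ℤ}
    (h1 : -(ρ : ℤ) ≤ t - d τ) (h2 : t ≤ ρ) : g⁻¹ • x τ t = y τ (t - d τ) := by
  rw [inv_smul_eq_iff, h τ _ h1 (by omega), sub_add_cancel]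

lemma Arr.eqv {ρ r s s' : ℕ} {x y : Win V} {g u : G} {d : ι → ℤ} (h : Arr ρ x y g d)
    (hd : ∀ τ, 0 ≤ d τ ∧ d τ ≤ r) (hu : Eqv s y y u) (h1 : s ≤ ρ) (h2 : s' + r ≤ s) :
    Eqv s' x x (g * u * g⁻¹) := by
  intro τ t ht
  have h3 := hd τ
  have h4 := abs_le.1 ht
  have h5 : g⁻¹ • x τ t = y τ (t - d τ) := h.back τ (by omega) (by omega)
  rw [mul_smul, mul_smul, h5, hu τ _ (abs_le.2 (by omega)), ← h5, smul_inv_smul]

lemma Arr.per {ρ r S S' : ℕ} {x y : Win V} {g γ : G} {d v : ι → ℤ} (h : Arr ρ x y g d)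
    (hd : ∀ τ, 0 ≤ d τ ∧ d τ ≤ r) (hγ : Per S y γ v) (h1 : S ≤ ρ) (h2 : S' + r ≤ S) :
    Per S' x (g * γ * g⁻¹) v := by
  intro τ t ht ht'
  have h3 := hd τ
  have h4 := abs_le.1 ht
  have h6 := abs_le.1 ht'
  rw [mul_smul, mul_smul, h.back τ (by omega) (by omega),
    hγ τ _ (abs_le.2 (by omega)) (abs_le.2 (by omega)), h τ _ (by omega) (by omega)]
  congr 1
  ring

lemma Per.mono {S S' : ℕ} {x : Win V} {γ : G} {v : ι → ℤ} (h : Per S x γ v) (hS : S' ≤ S) :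
    Per S' x γ v := fun τ t h1 h2 =>
  h τ t (h1.trans (by exact_mod_cast hS)) (h2.trans (by exact_mod_cast hS))

lemma Per.ncz [Nonempty ι] (hZ : ∀ g, D.Cz (f g) → ∀ (τ : ι) (y : V τ), g • y = y)
    {ρ S A : ℕ} (h1 : 2 * A ≤ S) (h2 : S ≤ ρ) {x : Win V} (hx : Good ρ x) {γ : G} {v : ι → ℤ}
    (h : Per S x γ v) (hv : ∀ τ, 1 ≤ v τ ∧ v τ ≤ A) : ¬ D.Cz (f γ * f γ) := by
  intro hc
  obtain ⟨τ⟩ := ‹Nonempty ι›
  have h3 := hv τ
  have h4 := hZ (γ * γ) (by rwa [map_mul]) τ (x τ 0)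
  rw [mul_smul, h τ 0 (by simp) (abs_le.2 (by omega)),
    h τ _ (abs_le.2 (by omega)) (abs_le.2 (by omega))] at h4
  have := hx τ _ _ (abs_le.2 (by omega)) (by simp) h4
  omega

/-- Labels for periodic windows. -/
theorem exists_label [Nonempty ι] (hU : ZU V D f)
    (hZ : ∀ g, D.Cz (f g) → ∀ (τ : ι) (y : V τ), g • y = y) {ρ r₀ r S A : ℕ}
    (h1 : 4 * A + 2 * r ≤ S) (h2 : S ≤ ρ) : ∃ lab : Win V → Ω, ∀ x y : Win V, Good ρ x →
      PosPer G S A x → Good ρ y → PosPer G S A y → ∀ g ∈ Sp G ρ r₀ r x y,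
        Near D.X (f g • lab y) (lab x) := by
  classical
  have key : ∀ x : Win V, ∃ ω : Ω, PosPer G S A x →
      (∃ u, Eqv (r + A) x x u ∧ D.Un (f u) ∧ ω = D.om (f u)) ∨
      ((∀ u, Eqv (r + A) x x u → ¬ D.Un (f u)) ∧ ∃ (γ : G) (v : ι → ℤ),
        (∀ τ, 1 ≤ v τ ∧ v τ ≤ A) ∧ Per S x γ v ∧ ω = D.om (f γ)) := by
    intro x
    by_cases hx : PosPer G S A x
    · by_cases h : ∃ u, Eqv (r + A) x x u ∧ D.Un (f u)
      · obtain ⟨u, h3, h4⟩ := h
        exact ⟨_, fun _ => Or.inl ⟨u, h3, h4, rfl⟩⟩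
      · obtain ⟨γ, v, h3, h4⟩ := hx
        exact ⟨_, fun _ => Or.inr ⟨fun u hu hn => h ⟨u, hu, hn⟩, γ, v, h3, h4, rfl⟩⟩
    · exact ⟨D.om 1, fun h => absurd h hx⟩
  choose lab hlab using key
  refine ⟨lab, ?_⟩
  rintro x y gx px gy py g ⟨d, hd, hr, hg⟩
  have hd' : ∀ τ, 0 ≤ d τ ∧ d τ ≤ r := fun τ => ⟨hd.1 τ, hr τ⟩
  have habs : ∀ {v : ι → ℤ}, (∀ τ, 1 ≤ v τ ∧ v τ ≤ A) → ∀ τ, |v τ| ≤ A := fun h τ => by
    have := h τ
    exact abs_le.2 (by omega)
  have near : ∀ {γ h : Q}, ¬ D.Cz (γ * γ) → ¬ D.Cz h → γ • D.om h = D.om h →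
      Near D.X (D.om γ) (D.om h) := fun a b c => (D.om_near _ _ a b c).imp_right fun h => h.2
  rcases hlab y py with ⟨u', e1, e2, e3⟩ | ⟨e1, γ', v', e2, e3, e4⟩
  · have e4 : Eqv A x x (g * u' * g⁻¹) := hg.eqv hd' e1 (by omega) (by omega)
    have e5 : D.Un (f (g * u' * g⁻¹)) := by
      rw [map_mul, map_mul, map_inv]; exact D.un_conj _ _ e2
    have e6 : f g • lab y = D.om (f (g * u' * g⁻¹)) := by
      rw [e3, map_mul, map_mul, map_inv, D.om_conj _ _ (D.un_ncz _ e2)]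
    rw [e6]
    rcases hlab x px with ⟨u, a1, a2, a3⟩ | ⟨-, γ, v, a2, a3, a4⟩
    · exact Or.inl (((hU.comm2 e4 (a1.mono (by omega))).1 e5 a2).trans a3.symm)
    · rw [a4]
      exact (near (a3.ncz hZ (by omega) h2 gx a2) (D.un_ncz _ e5)
        (hU.fix_un (by omega) a3 (habs a2) e4 e5)).imp Eq.symm fun h => h.symm
  · have e5 : Per (S - r) x (g * γ' * g⁻¹) v' := hg.per hd' e3 h2 (by omega)
    have e6 := e5.ncz hZ (by omega) (by omega) gx e2
    have e7 := e3.ncz hZ (by omega) h2 gy e2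
    have e8 : f g • lab y = D.om (f (g * γ' * g⁻¹)) := by
      rw [e4, map_mul, map_mul, map_inv, D.om_conj _ _ fun h => e7 (D.cz_sq _ h)]
    rw [e8]
    generalize g * γ' * g⁻¹ = δ at e5 e6
    rcases hlab x px with ⟨u, a1, a2, a3⟩ | ⟨a1, γ, v, a2, a3, a4⟩
    · rw [a3]
      exact near e6 (D.un_ncz _ a2)
        (hU.fix_un (by omega) e5 (habs e2) (a1.mono (by omega)) a2)
    · rw [a4]
      have a5 := a3.ncz hZ (by omega) h2 gx a2
      have a6 : Per (S - r) x γ v := a3.mono (by omega)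
      by_cases hc : D.Cz (f (δ * γ * δ⁻¹ * γ⁻¹))
      · refine near e6 (fun h => a5 (D.cz_sq _ h)) (D.om_comm _ _ (fun h => a5 (D.cz_sq _ h)) ?_)
        simpa only [map_mul, map_inv] using hc
      · have b1 : Eqv (r + A + A) x x (δ * γ * δ⁻¹ * γ⁻¹) :=
          e5.comm a6 (habs e2) (habs a2) (by omega)
        have b2 := a1 _ (b1.mono (by omega))
        have b3 := (D.om_near _ _ e6 hc (hU.fix_nun (by omega) a1 e5 (habs e2) b1 hc)).resolve_right
          fun h => b2 h.1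
        have b4 := (D.om_near _ _ a5 hc (hU.fix_nun (by omega) a1 a6 (habs a2) b1 hc)).resolve_right
          fun h => b2 h.1
        exact Or.inl (b3.trans b4.symm)

end Pool.Agent.MP_f7db47_al.PT

end
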