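import Pool.Agent.Mg.Ff7db47.G3a9b11
import Pool.Agent.Mg.Ff7db47.G1d14a0
import Pool.Agent.Mg.Ff7db47.G3f6dcb

section

/-!
The invariant passes to the children of a node.
-/

namespace Pool.Agent.MP_f7db47_al.GN.Nd

open Pl

variable {ι : Type} [Fintype ι] [DecidableEq ι] {P : ι → Pl} {n β : ℕ} {Λ Λ' : Type} {G : Type}
  [Group G] {bl : Bl G} {C : ℕ} {a : ∀ l, Ac G bl C (P l) n} {F : FR G Λ} {F' : FR G Λ'}
  {ν : Nd P n β Λ} {π : Λ' → Λ} {cδ U' : ℕ}

omit [DecidableEq ι] in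
theorem Inv.pull {Rt X U : ℕ} (hν : ν.Inv a F Rt X cδ U)
    (hrel : ∀ t x g y, F'.rel t x g y → F.rel t (π x) g (π y)) :
    (ν.pull π).Inv a F' Rt X cδ U :=
  ⟨hν.rle, hν.rks, fun _ => hν.hle _, fun h => hν.lip (hrel _ _ _ _ h), fun _ => hν.rank _,
    fun _ => hν.dep _, fun _ => hν.lat _, fun h => hν.close (hrel _ _ _ _ h)⟩

omit [DecidableEq ι] in
theorem root_inv (a : ∀ l, Ac G bl C (P l) n) (F : FR G Λ) (Rt X cδ U : ℕ) :
    (⟨Fintype.card ι * n, fun _ => n, fun _ => 0, fun _ => Rt, fun _ _ => ⊤, fun _ _ _ => ⊥⟩ :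
      Nd P n (Fintype.card ι * n) Λ).Inv a F Rt X cδ U :=
  ⟨le_rfl, by simp, fun _ => le_rfl, fun _ => Nat.le_add_right _ _, fun _ _ _ => by simp,
    fun _ _ _ _ => rfl, fun _ _ _ _ _ => ⟨0, le_sup_of_le_right
      ((sc 0).monotone (le_inf le_rfl le_top)), bot_le⟩, fun {_ _ g _} _ _ _ =>
    ⟨0, fun _ => by simp, fun _ _ => rfl, fun l => ⟨(a l).ρ g,
      ⟨(Submodule.map_top _).trans (LinearEquiv.range _), fun s _ => by
        simp only [Ac.gen, rs_top, inf_top_eq, map_mul, ac_mul]⟩, fun _ _ _ Y _ _ => by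
      simp only [sup_bot_eq, ac_ac_inv]⟩⟩⟩

variable {p : Par} {l : ι} {η : Λ' → G → ℤ}

omit [Fintype ι] in
theorem NChild_eq {τ κ d : ℕ} {x : Λ'}
    (h : Module.finrank (P l).K ((a l).wit p (ν.W (π x) l) (η x) τ) = d) :
    (ν.child a p l π η τ κ d).h x = min (ν.h (π x) / 2)
      (min ((a l).dG p (ν.W (π x) l) (η x) τ) ((a l).dS p (ν.W (π x) l) (η x) τ κ)) :=
  if_pos h

omit [Fintype ι] in
theorem NChild_pos {τ κ d t : ℕ} {x : Λ'} (h : t < (ν.child a p l π η τ κ d).h x) :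
    Module.finrank (P l).K ((a l).wit p (ν.W (π x) l) (η x) τ) = d ∧ t < ν.h (π x) / 2 ∧
      t < (a l).dG p (ν.W (π x) l) (η x) τ ∧ t < (a l).dS p (ν.W (π x) l) (η x) τ κ := by
  by_cases e : Module.finrank (P l).K ((a l).wit p (ν.W (π x) l) (η x) τ) = d
  · rw [NChild_eq e, lt_min_iff, lt_min_iff] at h
    exact ⟨e, h⟩
  · exact absurd (h.trans_eq (if_neg e)) (Nat.not_lt_zero _)

omit [Fintype ι] [DecidableEq ι] in
theorem NChild_num (hp : p.OK n C U') {τ : ℕ} (hτ : τ < n) :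
    2 * p.X + 1 + p.tau C τ + C * p.Rt + U' ≤ p.U := by
  have h1 := hp.t2 τ hτ
  have h2 := (hp.anti (Nat.zero_le τ)).trans hp.u2
  have h3 : C * p.Rt ≤ (4 * C + 2) * p.Rt := Nat.mul_le_mul_right _ (by omega)
  have h4 : U' ≤ (2 * C + 1) * U' := Nat.le_mul_of_pos_left _ (by omega)
  have h5 : 2 * (2 * C + 2) * p.Rt ≤ 6 * (2 * C + 2) * p.Rt := Nat.mul_le_mul_right _ (by omega)
  rw [Par.tau]
  omega

theorem child_cover (hp : p.OK n C U') (hν : ν.Inv a F p.Rt p.X cδ p.U) {x : Λ'}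
    (hη : η x ∈ (a l).Kv p.q (ν.W (π x) l) p.m) :
    ∃ τ < n, ∃ κ ≤ n, ∃ d < n, ν.h (π x) / 2 ≤ (ν.child a p l π η τ κ d).h x := by
  obtain ⟨τ, hτ, κ, hκ, h1, h2, h3⟩ := Ac.stage_cover hp hη
  refine ⟨τ, hτ, κ, hκ, _, (Submodule.finrank_lt_finrank_of_lt h3).trans_le
    ((Submodule.finrank_le _).trans (Module.finrank_fin_fun _).le), ?_⟩
  have := hν.hle (π x)
  rw [NChild_eq rfl, h1, h2]
  omega

theorem child_inv (hp : p.OK n C U') (hc : n * (C + 6) ≤ cδ) (hF : F.Good bl)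
    (hν : ν.Inv a F p.Rt p.X cδ p.U) (hl : 0 < ν.rk l)
    (hrel : ∀ t x g y, F'.rel t x g y → F.rel t (π x) g (π y) ∧
      (t < ν.h (π x) → t < ν.h (π y) → ∃ δ, HC bl p.m t g (η x) (η y) δ))
    (hη : ∀ x, 0 < ν.h (π x) → η x ∈ (a l).Kv p.q (ν.W (π x) l) p.m) {τ κ : ℕ} (hτ : τ < n)
    (hκ : κ ≤ n) (d : ℕ) : (ν.child a p l π η τ κ d).Inv a F' p.Rt p.X cδ U' := by
  have hr : 0 < ν.r := hl.trans_le
    ((Finset.single_le_sum (fun _ _ => Nat.zero_le _) (Finset.mem_univ l)).trans hν.rks)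
  have hβ : ν.r - 1 < β := (Nat.sub_lt hr one_pos).trans_le hν.rle
  have hU := NChild_num hp hτ
  have pair : ∀ {t x g y u}, F'.rel t x g y → t < ν.h (π x) → t < ν.h (π y) →
      (a l).Tr p.U g (ν.W (π x) l) (ν.W (π y) l) u → t ≤ p.Rt ∧
      ∃ δ, (a l).Pair p.q p.m p.U t g (ν.W (π x) l) (ν.W (π y) l) (η x) (η y) u δ := by
    intro t x g y u h hx hy hu
    obtain ⟨δ, hδ⟩ := (hrel _ _ _ _ h).2 hx hy
    have h1 := hν.hle (π x)
    have h2 := hp.m1
    exact ⟨by omega, δ, hp.q0, hη x (by omega), hη y (by omega), hF.ball (hrel _ _ _ _ h).1, hu,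
      hp.u1, hδ, by omega⟩
  have hN : ∀ {x} {c : ℤ}, 0 < ν.h (π x) → 0 < (a l).dG p (ν.W (π x) l) (η x) τ → |c| ≤ p.X →
      sc (ν.ω l) (La (ν.W (π x) l)) ≤
        sc (ν.ω l - p.X - 1) ((a l).Nn p (ν.W (π x) l) (η x) τ κ c) ∧
      sc (ν.ω l - p.X - 1) ((a l).Nn p (ν.W (π x) l) (η x) τ κ c) ≤
        sc (ν.ω l - p.X - 1 - ((p.X + p.tau C τ : ℕ) : ℤ)) (La (ν.W (π x) l)) := by
    intro x c h1 h2 h3
    obtain ⟨h4, h5, -⟩ := Ac.Nn_spec hp hτ hκ (hη x h1) (Ac.gp_wit hp h2) h3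
    constructor
    · refine le_trans (le_of_eq ?_) ((sc _).monotone h4)
      rw [← sc_add]
      congr 2
      ring
    · rw [sub_eq_add_neg _ ((p.X + p.tau C τ : ℕ) : ℤ), sc_add]
      exact (sc _).monotone h5
  refine ⟨hβ.le, ?_, fun x => ?_, fun {t x g y} h => ?_, fun x l' hx => ?_, fun x v v' h => ?_,
    fun x v l' hx hv => ?_, fun {t x g y} h hx hy => ?_⟩
  · have h1 := hν.rks
    rw [← Finset.add_sum_erase _ _ (Finset.mem_univ l), ← Finset.sdiff_singleton_eq_erase] at h1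
    simp only [child]
    rw [Finset.sum_update_of_mem (Finset.mem_univ l)]
    omega
  · by_contra h
    have h1 := (NChild_pos (not_le.1 h)).2.1
    have h2 := hν.hle (π x)
    omega
  · rcases le_or_gt ((ν.child a p l π η τ κ d).h y) t with h0 | h0
    · omega
    obtain ⟨h1, h2, h3, -⟩ := NChild_pos h0
    have h4 := hν.lip (hrel _ _ _ _ h).1
    have hx : t < ν.h (π x) := by omega
    have hy : t < ν.h (π y) := by omega
    obtain ⟨_, -, -, h5⟩ := hν.close (hrel _ _ _ _ h).1 hx hy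
    obtain ⟨u, hu, -⟩ := h5 l
    obtain ⟨ht, δ, hP⟩ := pair h hx hy hu
    have h6 := hP.dG_le hp hτ ht
    obtain ⟨h7, h8, -⟩ := hP.stage hp hτ hκ ht (Ac.gp_wit hp (by omega)) (Ac.gp_wit hp (by omega))
    rw [NChild_eq h1, NChild_eq (h7.trans h1)]
    omega
  · obtain ⟨h1, h2, h3, -⟩ := NChild_pos hx
    have h4 : 0 < ν.h (π x) := by omega
    by_cases e : l' = l
    · subst e
      have h5 := Submodule.finrank_lt_finrank_of_lt
        (Ac.wit_lt hp hτ (hη x h4) (Ac.gp_wit hp h3))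
      rw [hν.rank _ _ h4] at h5
      rw [show (ν.child a p l' π η τ κ d).W x l' = _ from Function.update_self ..,
        show (ν.child a p l' π η τ κ d).rk l' = _ from Function.update_self ..]
      omega
    · rw [show (ν.child a p l π η τ κ d).W x l' = _ from Function.update_of_ne e ..,
        show (ν.child a p l π η τ κ d).rk l' = _ from Function.update_of_ne e ..]
      exact hν.rank _ _ h4
  · simp only [child] at h ⊢
    rw [hν.dep (π x) v v' fun i hi => h i (by omega), dif_pos hβ, dif_pos hβ,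
      h ⟨ν.r - 1, hβ⟩ le_rfl]
  · obtain ⟨-, h2, h3, -⟩ := NChild_pos hx
    have h4 : 0 < ν.h (π x) := by omega
    obtain ⟨c, h5, h6⟩ := hν.lat (π x) v l' h4 hv
    simp only [child]
    by_cases e : l' = l
    · subst e
      obtain ⟨h7, h8⟩ := hN h4 h3 (hv ⟨ν.r - 1, hβ⟩)
      simp only [Function.update_self, dif_pos hβ]
      exact ⟨c + (ν.ω l' - p.X - 1 - ((p.X + p.tau C τ : ℕ) : ℤ)).natAbs, le_sup_of_le_left
        ((sc_anti (by omega) _).trans (h5.trans (sup_le_sup_left h7 _))),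
        sup_le (h6.trans (sc_anti (by omega) _)) (h8.trans (sc_le_sc (by omega) inf_le_left))⟩
    · simp only [Function.update_of_ne e]
      exact ⟨c, h5, h6⟩
  · obtain ⟨-, x2, x3, x4⟩ := NChild_pos hx
    obtain ⟨-, y2, y3, -⟩ := NChild_pos hy
    clear hx hy
    have hx : t < ν.h (π x) := by omega
    have hy : t < ν.h (π y) := by omega
    obtain ⟨δ, d1, d2, h5⟩ := hν.close (hrel _ _ _ _ h).1 hx hy
    obtain ⟨u, hu, h6⟩ := h5 l
    obtain ⟨ht, δ₀, hP⟩ := pair h hx hy hu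
    have g1 := Ac.gp_wit hp (Nat.zero_lt_of_lt x3)
    obtain ⟨e, e1, u', e2, e3⟩ :=
      (hP.stage hp hτ hκ ht g1 (Ac.gp_wit hp (Nat.zero_lt_of_lt y3))).2.2 x4
    have hv : ∀ {v}, Bx p.X v → Bx p.X (v + Function.update δ ⟨ν.r - 1, hβ⟩ e) →
        Bx p.X (v + δ) ∧ ν.Z (π y) (v + Function.update δ ⟨ν.r - 1, hβ⟩ e) =
          ν.Z (π y) (v + δ) := by
      refine fun {v} h1 h2 => ⟨fun i => ?_, hν.dep _ _ _ fun i hi => ?_⟩
      · by_cases e : i = ⟨ν.r - 1, hβ⟩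
        · rw [Pi.add_apply, d2 i (by rw [e]; exact Nat.sub_lt hr one_pos), add_zero]
          exact h1 i
        · simpa only [Pi.add_apply, Function.update_of_ne e] using h2 i
      · rw [Pi.add_apply, Pi.add_apply, Function.update_of_ne (Fin.ne_of_val_ne (by
          dsimp only; omega))]
    refine ⟨Function.update δ ⟨ν.r - 1, hβ⟩ e, fun i => ?_, fun i hi => ?_, fun l' => ?_⟩
    · by_cases e : i = ⟨ν.r - 1, hβ⟩
      · rw [e, Function.update_self]
        exact e1.trans (Int.ofNat_le.2 (Nat.mul_le_mul_right _ hc))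
      · rw [Function.update_of_ne e]
        exact d1 i
    · rw [Function.update_of_ne (Fin.ne_of_val_ne hi.ne)]
      exact d2 i (hi.trans (Nat.sub_lt hr one_pos))
    simp only [child]
    by_cases e : l' = l
    · subst e
      simp only [Function.update_self, dif_pos hβ, Pi.add_apply]
      refine ⟨u', e2, fun v h1 h2 Y h3 h4 => ?_⟩
      obtain ⟨v1, v2⟩ := hv h1 h2
      obtain ⟨h7, h8⟩ := hN (Nat.zero_lt_of_lt hx) (Nat.zero_lt_of_lt x3) (h1 ⟨ν.r - 1, hβ⟩)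
      have h9 := congrArg (sc (ν.ω l' - p.X - 1)) (e3 _ (h1 ⟨ν.r - 1, hβ⟩)
        (by simpa using h2 ⟨ν.r - 1, hβ⟩) (sc (-(ν.ω l' - p.X - 1)) Y)
        (le_trans (by rw [← sc_add]; exact sc_anti (by omega) _) ((sc _).monotone h3))
        (((sc _).monotone h4).trans (by rw [← sc_add]; exact sc_anti (by omega) _)))
      rw [← ac_sc, map_sup, map_sup (sc _), ← ac_sc, ← sc_add, add_neg_cancel, sc_zero] at h9
      have h10 := h6 v h1 v1 _ (le_sup_of_le_right h7) (sup_le (h4.trans (sc_le_sc (by omega)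
        (La_mono (Ac.wit_lt hp hτ hP.k1 g1).le))) (h8.trans (sc_anti (by omega) _)))
      rw [h9] at h10
      rw [v2, sup_comm (ν.Z _ _ _), ← sup_assoc, h10, sup_comm (ν.Z _ _ _), sup_assoc]
    · obtain ⟨w, hw, h7⟩ := h5 l'
      simp only [Function.update_of_ne e]
      refine ⟨w, hw.mono hp.u3, fun v h1 h2 Y h3 h4 => ?_⟩
      obtain ⟨v1, v2⟩ := hv h1 h2
      rw [v2]
      exact h7 v h1 v1 Y h3 (h4.trans (sc_anti (by omega) _))

end Pool.Agent.MP_f7db47_al.GN.Nd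

end

section

/-!
One step of the induction.
-/

namespace Pool.Agent.MP_f7db47_al.GN

open Matrix

universe v

variable {R : Type v} [Ring R]

theorem step (n : ℕ) : ∃ c : ℕ, 0 < c ∧ ∀ (G : Type) [Group G] (ι : Type) [Fintype ι]
    (P : ι → Pl) (bl : Bl G) (C β cδ U' : ℕ) (a : ∀ l, Ac G bl C (P l) n) (p : Par),
    p.OK n C U' → n * (C + 6) ≤ cδ → ∀ (J : Type) [Fintype J] [DecidableEq J] (F : FR G J),
    F.Good bl → ∀ (ν : Nd P n β J) (l : ι), ν.Inv a F p.Rt p.X cδ p.U → 0 < ν.rk l →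
    ∀ k : ℕ, 0 < k → ∀ A B : Matrix J J (MonoidAlgebra R G), A * B = 1 → B * A = 1 →
    Ctl (F.rel k) id id A → Ctl (F.rel k) id id B →
    ∃ (J' : Type) (_ : Fintype J') (_ : DecidableEq J') (π : J' → J) (F' : FR G J')
      (ch : Fin n × Fin (n + 1) × Fin n → Nd P n β J')
      (A' B' : Matrix J' J' (MonoidAlgebra R G)), F'.Good bl ∧
      (∀ t x g y, F'.rel t x g y → F.rel t (π x) g (π y)) ∧
      Fintype.card J' ≤
        Fintype.card J * ((2 * (p.q * C * p.m) + 1) ^ bl.s₀ ^ p.m + 1) ^ (n + 1) ∧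
      (∀ c, (ch c).Inv a F' p.Rt p.X cδ U' ∧ (ch c).r = ν.r - 1) ∧
      (∀ x, 0 < ν.h (π x) → ∃ c, ν.h (π x) / 2 ≤ (ch c).h x) ∧
      A' * B' = 1 ∧ B' * A' = 1 ∧ Ctl (F'.rel (c * k)) id id A' ∧
      Ctl (F'.rel (c * k)) id id B' ∧ (T A' → T A) := by
  obtain ⟨c, hc, ht⟩ := transfer (R := R) (n + 1)
  refine ⟨4 * c, by omega, fun G _ ι _ P bl C β cδ U' a p hp hcδ J _ _ F hF ν l hν hl k hk A B
    hAB hBA hA hB => ?_⟩
  classical
  let o : LinearOrder (G → ℤ) := linearOrderOfSTO WellOrderingRel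
  have hm : ∀ x, 2 * ν.h x ≤ p.m := fun x => by
    have := hν.hle x
    have := hp.m1
    omega
  obtain ⟨F₁, hF₁, hr⟩ := exists_ext
    (Λ' := {x : J × (G → ℤ) // x.2 ∈ (a l).Kn p.q p.m (ν.h x.1) (ν.W x.1 l)}) F hF ν.h p.m hν.lip
    (fun x => by have := hm x; omega) (fun x => x.1.1) fun x => x.1.2
  obtain ⟨C₁, C₂, hD, hC⟩ := car (a l) o F hF ν.h (fun x => ν.W x l) hp.q0 hk hν.lip hm hp.u1
    (fun x hx e => by
      have := hν.rank x l hx
      rw [e, finrank_bot] at this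
      omega)
    (fun h h1 h2 => by
      obtain ⟨δ, -, -, h3⟩ := hν.close h h1 h2
      obtain ⟨u, h4, -⟩ := h3 l
      exact ⟨u, h4⟩)
  obtain ⟨J', i1, i2, lab, A', B', h1, h2, h3, h4, h5, h6⟩ := @ht G _ J (G → ℤ) _ _ o _ _ _ _ C₁ C₂
    F₁ (4 * k) _ hD (fun j => card_Kn (a l) _ _ _ _)
    (fun x y e h => (hr _ _ _ _).2 ⟨e ▸ F.mono (Nat.zero_le _) (F.refl _), fun _ _ => by
      obtain ⟨-, δ, h7⟩ := h
      refine ⟨δ, fun s hs _ => ?_⟩
      obtain ⟨h8, h9⟩ := h7 s (bl.mono (Nat.sub_le _ _) hs)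
      rw [inv_one, one_mul, abs_le]
      push_cast
      omega⟩)
    (fun x y g σ h7 h8 h9 h10 => (hr _ _ _ _).2
      ⟨F.mono (by omega) h7, hC _ _ _ _ _ _ h7 h8 h9 h10⟩) A B hAB hBA hA hB
  have hη : ∀ x, 0 < ν.h (lab x).1.1 → (lab x).1.2 ∈ (a l).Kv p.q (ν.W (lab x).1.1 l) p.m :=
    fun x hx => by
      have := (lab x).2
      rwa [Ac.Kn, if_pos hx] at this
  have e : 4 * c * k = c * (4 * k) := by ring
  refine ⟨J', i1, i2, fun x => (lab x).1.1, F₁.pull lab,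
    fun t => ν.child a p l (fun x => (lab x).1.1) (fun x => (lab x).1.2) t.1 t.2.1 t.2.2, A', B',
    ⟨fun h => hF₁.symm h, fun h => hF₁.ball h⟩, fun t x g y h => ((hr _ _ _ _).1 h).1, h1,
    fun t => ⟨Nd.child_inv (F' := F₁.pull lab) (π := fun x => (lab x).1.1)
      (η := fun x => (lab x).1.2) hp hcδ hF hν hl (fun t x g y h => (hr _ _ _ _).1 h) hη t.1.2
      (Nat.lt_succ_iff.1 t.2.1.2) _, rfl⟩, fun x hx => ?_, h2, h3, e ▸ h4, e ▸ h5, h6⟩
  obtain ⟨τ, hτ, κ, hκ, d, hd, h⟩ := Nd.child_cover (π := fun x => (lab x).1.1)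
    (η := fun x => (lab x).1.2) hp hν (hη x hx)
  exact ⟨(⟨τ, hτ⟩, ⟨κ, Nat.lt_succ_of_le hκ⟩, ⟨d, hd⟩), h⟩

end Pool.Agent.MP_f7db47_al.GN

end

section

/-!
The induction over the tree of nodes.
-/

namespace Pool.Agent.MP_f7db47_al.GN

open Matrix

universe v

variable {R : Type v} [Ring R]

/-- The number of steps needed below a node of level `r`. -/
def NTree_cost (col : ℕ) : ℕ → ℕ
  | 0 => 0
  | r + 1 => 1 + col * NTree_cost col r

theorem NTree_mono (col : ℕ) : Monotone (NTree_cost col) := by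
  refine monotone_nat_of_le_succ fun r => ?_
  induction r with
  | zero => exact Nat.zero_le _
  | succ r ih => exact Nat.add_le_add_left (Nat.mul_le_mul_left col ih) 1

theorem tree (n β : ℕ) : ∃ kf Nf e : ℕ, ∀ (G : Type) [Group G] (ι : Type) [Fintype ι]
    (P : ι → Pl) (bl : Bl G) (C cδ Rt X R₀ Mb Mf : ℕ) (a : ∀ l, Ac G bl C (P l) n) (Uf : ℕ → ℕ)
    (p : ℕ → Par), (∀ r, (p r).OK n C (Uf r) ∧ (p r).Rt = Rt ∧ (p r).X = X ∧
      (p r).U = Uf (r + 1)) → n * (C + 6) ≤ cδ → 0 < R₀ → 0 < Mb →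
    (∀ r < β, ((2 * ((p r).q * C * (p r).m) + 1) ^ bl.s₀ ^ (p r).m + 1) ^ (n + 1) ≤ Mb) →
    (∀ (J N : Type) [Fintype J] [DecidableEq J] [Fintype N] (F : FR G J) (ν : N → Nd P n β J)
      (A B : Matrix J J (MonoidAlgebra R G)), F.Good bl → Fintype.card N ≤ Nf →
      Fintype.card J ≤ Mf → (∀ i, (ν i).Inv a F Rt X cδ (Uf (ν i).r) ∧ ∀ l, (ν i).rk l = 0) →
      (∀ x, ∃ i, R₀ ≤ (ν i).h x) → A * B = 1 → B * A = 1 → Ctl (F.rel kf) id id A →
      Ctl (F.rel kf) id id B → T A) →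
    ∀ (J : Type) [Fintype J] [DecidableEq J] (F : FR G J) (ν : Nd P n β J)
      (A B : Matrix J J (MonoidAlgebra R G)), F.Good bl → Fintype.card J * Mb ^ e ≤ Mf →
      ν.Inv a F Rt X cδ (Uf ν.r) → (∀ x, 2 ^ β * R₀ ≤ ν.h x) → A * B = 1 → B * A = 1 →
      Ctl (F.rel 1) id id A → Ctl (F.rel 1) id id B → T A := by
  classical
  obtain ⟨c, hc, hstep⟩ := step (R := R) n
  refine ⟨c ^ NTree_cost (n * ((n + 1) * n)) β,
    1 + n * ((n + 1) * n) * NTree_cost (n * ((n + 1) * n)) β,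
    NTree_cost (n * ((n + 1) * n)) β, ?_⟩
  intro G _ ι _ P bl C cδ Rt X R₀ Mb Mf a Uf p hp hcδ hR hMb hM H
  generalize hkf : c ^ NTree_cost (n * ((n + 1) * n)) β = kf at H
  generalize hNf : 1 + n * ((n + 1) * n) * NTree_cost (n * ((n + 1) * n)) β = Nf at H
  have key : ∀ (s : ℕ) (J N : Type) [Fintype J] [DecidableEq J] [Fintype N] (F : FR G J)
      (ν : N → Nd P n β J) (k : ℕ) (A B : Matrix J J (MonoidAlgebra R G)), F.Good bl → 0 < k →
      ∑ i, NTree_cost (n * ((n + 1) * n)) (ν i).r ≤ s → k * c ^ s ≤ kf →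
      Fintype.card N + n * ((n + 1) * n) * s ≤ Nf → Fintype.card J * Mb ^ s ≤ Mf →
      (∀ i, (ν i).Inv a F Rt X cδ (Uf (ν i).r)) → (∀ x, ∃ i, 2 ^ (ν i).r * R₀ ≤ (ν i).h x) →
      A * B = 1 → B * A = 1 → Ctl (F.rel k) id id A → Ctl (F.rel k) id id B → T A := by
    intro s
    induction s using Nat.strong_induction_on with
    | _ s ih =>
    intro J N _ _ _ F ν k A B hF hk hs hkc hN hJ hI hcov hAB hBA hA hB
    by_cases h0 : ∀ i l, (ν i).rk l = 0
    · have hk' : k ≤ kf := (Nat.le_mul_of_pos_right k (pow_pos hc s)).trans hkc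
      refine H J N F ν A B hF ((Nat.le_add_right _ _).trans hN)
        ((Nat.le_mul_of_pos_right _ (pow_pos hMb s)).trans hJ) (fun i => ⟨hI i, h0 i⟩)
        (fun x => ?_) hAB hBA (hA.le F hk') (hB.le F hk')
      obtain ⟨i, hi⟩ := hcov x
      exact ⟨i, (Nat.le_mul_of_pos_left R₀ (pow_pos two_pos _)).trans hi⟩
    · push Not at h0
      obtain ⟨i, l, hl⟩ := h0
      have hl' : 0 < (ν i).rk l := Nat.pos_of_ne_zero hl
      have h1 : (ν i).rk l ≤ (ν i).r :=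
        (Finset.single_le_sum (f := (ν i).rk) (fun _ _ => Nat.zero_le _)
          (Finset.mem_univ l)).trans (hI i).rks
      obtain ⟨r, hr⟩ : ∃ r, (ν i).r = r + 1 := ⟨(ν i).r - 1, by omega⟩
      have hrβ : r < β := by
        have := (hI i).rle
        omega
      obtain ⟨hOK, hRt, hX, hU⟩ := hp r
      have hIi : (ν i).Inv a F (p r).Rt (p r).X cδ (p r).U := by
        rw [hRt, hX, hU, ← hr]
        exact hI i
      obtain ⟨J', _, _, π, F', ch, A', B', hF', hrel, hcard, hch, hcov', hAB', hBA', hA', hB',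
        hT⟩ := hstep G ι P bl C β cδ (Uf r) a (p r) hOK hcδ J F hF (ν i) l hIi hl' k hk A B hAB
          hBA hA hB
      have hchr : ∀ c, (ch c).r = r := fun c => by rw [(hch c).2, hr, Nat.add_sub_cancel]
      rw [Fintype.sum_eq_add_sum_subtype_ne _ i, hr] at hs
      have hcost : NTree_cost (n * ((n + 1) * n)) (r + 1) =
          1 + n * ((n + 1) * n) * NTree_cost (n * ((n + 1) * n)) r := rfl
      rw [hcost] at hs
      obtain ⟨s', rfl⟩ : ∃ s', s = s' + 1 := ⟨s - 1, by omega⟩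
      refine hT (ih s' (Nat.lt_succ_self s') J' ({i' // i' ≠ i} ⊕ Fin n × Fin (n + 1) × Fin n) F'
        (Sum.elim (fun i' => (ν i'.1).pull π) ch) (c * k) A' B' hF' (Nat.mul_pos hc hk) ?_ ?_ ?_
        ?_ ?_ ?_ hAB' hBA' hA' hB')
      · rw [Fintype.sum_sum_type]
        simp only [Sum.elim_inl, Sum.elim_inr, hchr, Finset.sum_const, Finset.card_univ,
          Fintype.card_prod, Fintype.card_fin, smul_eq_mul]
        have e : ∑ i' : {i' // i' ≠ i}, NTree_cost (n * ((n + 1) * n)) ((ν i'.1).pull π).r =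
            ∑ i' : {i' // i' ≠ i}, NTree_cost (n * ((n + 1) * n)) (ν i'.1).r := rfl
        rw [e]
        omega
      · calc c * k * c ^ s' = k * c ^ (s' + 1) := by ring
          _ ≤ kf := hkc
      · have e : Fintype.card {i' // i' ≠ i} ≤ Fintype.card N := Fintype.card_subtype_le _
        rw [Fintype.card_sum, Fintype.card_prod, Fintype.card_prod, Fintype.card_fin,
          Fintype.card_fin]
        rw [Nat.mul_succ] at hN
        omega
      · calc Fintype.card J' * Mb ^ s' ≤ Fintype.card J * Mb * Mb ^ s' :=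
              Nat.mul_le_mul_right _ (hcard.trans (Nat.mul_le_mul_left _ (hM r hrβ)))
          _ = Fintype.card J * Mb ^ (s' + 1) := by ring
          _ ≤ Mf := hJ
      · rintro (i' | c')
        · exact (hI i'.1).pull hrel
        · have h2 := (hch c').1
          rw [hRt, hX] at h2
          simp only [Sum.elim_inr, hchr]
          exact h2
      · intro x
        obtain ⟨j, hj⟩ := hcov (π x)
        by_cases hji : j = i
        · subst hji
          rw [hr, pow_succ] at hj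
          have hpos : 0 < 2 ^ r * R₀ := Nat.mul_pos (pow_pos two_pos r) hR
          have e : 2 ^ r * 2 * R₀ = 2 * (2 ^ r * R₀) := by ring
          obtain ⟨c', hc'⟩ := hcov' x (by omega)
          refine ⟨Sum.inr c', ?_⟩
          simp only [Sum.elim_inr, hchr]
          omega
        · exact ⟨Sum.inl ⟨j, hji⟩, hj⟩
  intro J _ _ F ν A B hF hJ hI hcov hAB hBA hA hB
  refine key (NTree_cost (n * ((n + 1) * n)) β) J Unit F (fun _ => ν) 1 A B hF one_pos ?_ ?_ ?_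
    hJ (fun _ => hI) (fun x => ⟨(), ?_⟩) hAB hBA hA hB
  · rw [Fintype.sum_unique]
    exact NTree_mono _ hI.rle
  · rw [one_mul, hkf]
  · rw [Fintype.card_unit, hNf]
  · exact (Nat.mul_le_mul_right _ (Nat.pow_le_pow_right two_pos hI.rle)).trans (hcov x)

end Pool.Agent.MP_f7db47_al.GN

end
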