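import Pool.Agent.Mg.Ff7db47.G1dc99b
import Pool.Agent.Mg.Ff7db47.G3f6dcb

/-!
Twisted coefficients: part CMain.
-/

set_option linter.unusedSectionVars false

universe u u' v w

section

namespace Pool.Agent.MP_f7db47_al.TW

open GN

open Matrix

variable {R : Type v} [Ring R]

section Gen

variable {J V X Y Z : Type} [DecidableEq J] [Fintype J] {A : Type v} [Ring A]

variable {p : X → J × Finset V} {q : Y → J × Finset V} {r : Z → J × Finset V}
  {S : J → Finset (Finset V)}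

variable {G : Type} [Group G] [MulSemiringAction G R]

lemma CMain_msup_sum {U : X → Y → Set G} {ι : Type} (s : Finset ι)
    (f : ι → Matrix X Y (SkewMonoidAlgebra R G)) (h : ∀ i ∈ s, MSup2 U (f i)) :
    MSup2 U (∑ i ∈ s, f i) :=
  Finset.sum_induction f (MSup2 U) (fun _ _ => MSup2.add) (msup2_zero U) h

lemma CMain_msup_E {U : X → Y → Set G} {i j : J} {c : Finset V → (Finset V →₀ ℤ)} {g : G} (u : R)
    (h : ∀ x y, (p x).1 = i → (q y).1 = j → c (q y).2 (p x).2 ≠ 0 → g ∈ U x y) :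
    MSup2 U (CMainE p q i j c (SkewMonoidAlgebra.single g u)) := by
  intro x y
  unfold CMainE
  split_ifs with h1
  · by_cases h0 : c (q y).2 (p x).2 = 0
    · rw [h0, zero_smul]
      exact sup_zero _
    · rw [← Sk.singleAddHom_apply, ← map_zsmul, Sk.singleAddHom_apply]
      exact sup_single (h x y h1.1 h1.2 h0) _
  · exact sup_zero _

/-- Twisting one entry. -/
noncomputable def CMainU (p : X → J × Finset V) (q : Y → J × Finset V) (i j : J)
    (c : G → Finset V → (Finset V →₀ ℤ)) :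
    SkewMonoidAlgebra R G →+ Matrix X Y (SkewMonoidAlgebra R G) :=
  AddMonoidHom.mk' (fun u => u.coeff.sum fun g t => CMainE p q i j (c g) (SkewMonoidAlgebra.single g t))
    fun u w => by
      rw [SkewMonoidAlgebra.coeff_add]
      exact Finsupp.sum_add_index' (fun g => by rw [SkewMonoidAlgebra.single_zero, CMainE_zero'])
        fun g t t' => by rw [SkewMonoidAlgebra.single_add, CMainE_add']

lemma CMainU_single (i j : J) (c : G → Finset V → (Finset V →₀ ℤ)) (g : G) (t : R) :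
    CMainU p q i j c (SkewMonoidAlgebra.single g t) = CMainE p q i j (c g) (SkewMonoidAlgebra.single g t) :=
  Finsupp.sum_single_index (h := fun g t => CMainE p q i j (c g) (SkewMonoidAlgebra.single g t))
    (by rw [SkewMonoidAlgebra.single_zero, CMainE_zero'])

/-- The twisted matrix. -/
noncomputable def CMainT (p : X → J × Finset V) (q : Y → J × Finset V)
    (a : Matrix J J (SkewMonoidAlgebra R G)) (c : J → G → J → Finset V → (Finset V →₀ ℤ)) :
    Matrix X Y (SkewMonoidAlgebra R G) :=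
  ∑ i, ∑ j, ∑ g ∈ (a i j).coeff.support,
    CMainE p q i j (c i g j) (SkewMonoidAlgebra.single g ((a i j).coeff g))

/-- The twisted product. -/
noncomputable def CMainW (p : X → J × Finset V) (q : Y → J × Finset V)
    (a b : Matrix J J (SkewMonoidAlgebra R G))
    (e : J → G → J → G → J → Finset V → (Finset V →₀ ℤ)) : Matrix X Y (SkewMonoidAlgebra R G) :=
  ∑ i, ∑ j, ∑ g ∈ (a i j).coeff.support, ∑ k, ∑ g' ∈ (b j k).coeff.support,
    CMainE p q i k (e i g j g' k) (SkewMonoidAlgebra.single (g * g') ((a i j).coeff g * g • (b j k).coeff g'))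

variable {a b : Matrix J J (SkewMonoidAlgebra R G)}

lemma CMainT_mul_T [Fintype Y] (hq : CMainSum (SkewMonoidAlgebra R G) q S)
    (c c' : J → G → J → Finset V → (Finset V →₀ ℤ)) :
    CMainT p q a c * CMainT q r b c' =
      CMainW p r a b fun i g j g' k => CMainC (S j) (c i g j) (c' j g' k) := by
  rw [CMainT, CMainW]
  simp only [Matrix.sum_mul]
  refine Finset.sum_congr rfl fun i _ => Finset.sum_congr rfl fun j _ =>
    Finset.sum_congr rfl fun g _ => ?_
  rw [CMainT, Matrix.mul_sum, Finset.sum_eq_single j (fun j' _ hj => by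
    simp only [Matrix.mul_sum, CMainE_mul_ne (Ne.symm hj), Finset.sum_const_zero]) (by simp)]
  simp only [Matrix.mul_sum, CMainE_mul hq, SkewMonoidAlgebra.single_mul_single]

lemma CMainT_mul (c : J → G → J → Finset V → (Finset V →₀ ℤ)) :
    CMainT p q (a * b) c = CMainW p q a b fun i g _ g' k => c i (g * g') k := by
  rw [CMainT, CMainW]
  refine Finset.sum_congr rfl fun i _ => ?_
  have h : ∀ k, ∑ g ∈ ((a * b) i k).coeff.support,
      CMainE p q i k (c i g k) (SkewMonoidAlgebra.single g (((a * b) i k).coeff g)) =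
      ∑ j, ∑ g ∈ (a i j).coeff.support, ∑ g' ∈ (b j k).coeff.support,
        CMainE p q i k (c i (g * g') k)
          (SkewMonoidAlgebra.single (g * g') ((a i j).coeff g * g • (b j k).coeff g')) := fun k => by
    change CMainU p q i k (fun g => c i g k) ((a * b) i k) = _
    rw [Matrix.mul_apply, map_sum]
    refine Finset.sum_congr rfl fun j _ => ?_
    rw [SkewMonoidAlgebra.mul_def]
    simp only [SkewMonoidAlgebra.sum_def, Finsupp.sum, map_sum, CMainU_single]
  simp only [h]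
  rw [Finset.sum_comm]
  exact Finset.sum_congr rfl fun j _ => Finset.sum_comm

lemma CMainT_one (c : J → G → J → Finset V → (Finset V →₀ ℤ)) :
    CMainT p q (1 : Matrix J J (SkewMonoidAlgebra R G)) c =
      CMainB (SkewMonoidAlgebra R G) p q fun j => c j 1 j := by
  rw [CMainT, CMainB]
  refine Finset.sum_congr rfl fun i _ => ?_
  rw [Finset.sum_eq_single i (fun j _ hj => by simp [Matrix.one_apply_ne' hj]) (by simp)]
  change CMainU p q i i (fun g => c i g i) ((1 : Matrix J J (SkewMonoidAlgebra R G)) i i) = _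
  rw [Matrix.one_apply_eq, SkewMonoidAlgebra.one_def, CMainU_single]

lemma CMainT_base (c : J → G → J → Finset V → (Finset V →₀ ℤ)) (hc : ∀ i g j, c i g j ∅ ∅ = 1) :
    CMainT (fun j => (j, (∅ : Finset V))) (fun j => (j, (∅ : Finset V))) a c = a := by
  ext1 x y
  simp only [CMainT, Matrix.sum_apply, CMainE, hc, one_smul]
  rw [Finset.sum_eq_single x (fun i _ hi => by simp [Ne.symm hi]) (by simp),
    Finset.sum_eq_single y (fun i _ hi => by simp [Ne.symm hi]) (by simp)]
  simp only [and_self, if_true]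
  exact Sk.sum_coeff_single _

lemma CMainB_mul_T [Fintype Y] (hq : CMainSum (SkewMonoidAlgebra R G) q S)
    (c : J → Finset V → (Finset V →₀ ℤ)) (c' : J → G → J → Finset V → (Finset V →₀ ℤ)) :
    CMainB (SkewMonoidAlgebra R G) p q c * CMainT q r a c' = CMainT p r a fun i g j => CMainC (S i) (c i) (c' i g j) := by
  unfold CMainT
  simp only [Matrix.mul_sum, CMainB_mul_E hq]

lemma CMainT_mul_B [Fintype Y] (hq : CMainSum (SkewMonoidAlgebra R G) q S)
    (c : J → G → J → Finset V → (Finset V →₀ ℤ)) (c' : J → Finset V → (Finset V →₀ ℤ)) :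
    CMainT p q a c * CMainB (SkewMonoidAlgebra R G) q r c' = CMainT p r a fun i g j => CMainC (S j) (c i g j) (c' j) := by
  unfold CMainT
  simp only [Matrix.sum_mul, CMainE_mul_B hq]

lemma CMainB_mul_W [Fintype Y] (hq : CMainSum (SkewMonoidAlgebra R G) q S)
    (c : J → Finset V → (Finset V →₀ ℤ)) (e : J → G → J → G → J → Finset V → (Finset V →₀ ℤ)) :
    CMainB (SkewMonoidAlgebra R G) p q c * CMainW q r a b e =
      CMainW p r a b fun i g j g' k => CMainC (S i) (c i) (e i g j g' k) := by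
  unfold CMainW
  simp only [Matrix.mul_sum, CMainB_mul_E hq]

lemma CMainW_mul_B [Fintype Y] (hq : CMainSum (SkewMonoidAlgebra R G) q S)
    (e : J → G → J → G → J → Finset V → (Finset V →₀ ℤ)) (c : J → Finset V → (Finset V →₀ ℤ)) :
    CMainW p q a b e * CMainB (SkewMonoidAlgebra R G) q r c =
      CMainW p r a b fun i g j g' k => CMainC (S k) (e i g j g' k) (c k) := by
  unfold CMainW
  simp only [Matrix.sum_mul, CMainE_mul_B hq]

lemma CMainW_add (e e' : J → G → J → G → J → Finset V → (Finset V →₀ ℤ)) :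
    CMainW p q a b e + CMainW p q a b e' = CMainW p q a b (e + e') := by
  simp only [CMainW, ← Finset.sum_add_distrib, CMainE_add]
  rfl

lemma CMainT_congr {c c' : J → G → J → Finset V → (Finset V →₀ ℤ)}
    (h : ∀ i g j, (a i j).coeff g ≠ 0 → ∀ x y, (p x).1 = i → (q y).1 = j →
      c i g j (q y).2 (p x).2 = c' i g j (q y).2 (p x).2) : CMainT p q a c = CMainT p q a c' :=
  Finset.sum_congr rfl fun i _ => Finset.sum_congr rfl fun j _ => Finset.sum_congr rfl fun g hg =>
    CMainE_congr _ (h i g j (Finsupp.mem_support_iff.1 hg))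

lemma CMainW_congr {e e' : J → G → J → G → J → Finset V → (Finset V →₀ ℤ)}
    (h : ∀ i g j g' k, (a i j).coeff g ≠ 0 → (b j k).coeff g' ≠ 0 → ∀ x y, (p x).1 = i →
      (q y).1 = k → e i g j g' k (q y).2 (p x).2 = e' i g j g' k (q y).2 (p x).2) :
    CMainW p q a b e = CMainW p q a b e' :=
  Finset.sum_congr rfl fun i _ => Finset.sum_congr rfl fun j _ => Finset.sum_congr rfl fun g hg =>
    Finset.sum_congr rfl fun k _ => Finset.sum_congr rfl fun g' hg' =>
      CMainE_congr _ (h i g j g' k (Finsupp.mem_support_iff.1 hg) (Finsupp.mem_support_iff.1 hg'))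

lemma CMainZ_T {Q : X → Y → Prop} {c : J → G → J → Finset V → (Finset V →₀ ℤ)}
    (h : ∀ i g j, (a i j).coeff g ≠ 0 → ∀ x y, (p x).1 = i → (q y).1 = j →
      c i g j (q y).2 (p x).2 ≠ 0 → Q x y) : CMainZ Q (CMainT p q a c) :=
  CMainZ_sum _ _ fun i _ => CMainZ_sum _ _ fun j _ => CMainZ_sum _ _ fun g hg =>
    CMainZ_E _ (h i g j (Finsupp.mem_support_iff.1 hg))

lemma CMainZ_W {Q : X → Y → Prop} {e : J → G → J → G → J → Finset V → (Finset V →₀ ℤ)}
    (h : ∀ i g j g' k, (a i j).coeff g ≠ 0 → (b j k).coeff g' ≠ 0 → ∀ x y, (p x).1 = i →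
      (q y).1 = k → e i g j g' k (q y).2 (p x).2 ≠ 0 → Q x y) : CMainZ Q (CMainW p q a b e) :=
  CMainZ_sum _ _ fun i _ => CMainZ_sum _ _ fun j _ => CMainZ_sum _ _ fun g hg =>
    CMainZ_sum _ _ fun k _ => CMainZ_sum _ _ fun g' hg' =>
      CMainZ_E _ (h i g j g' k (Finsupp.mem_support_iff.1 hg) (Finsupp.mem_support_iff.1 hg'))

lemma CMain_msup_B {U : X → Y → Set G} {c : J → Finset V → (Finset V →₀ ℤ)}
    (h : ∀ j x y, (p x).1 = j → (q y).1 = j → c j (q y).2 (p x).2 ≠ 0 → 1 ∈ U x y) :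
    MSup2 U (CMainB (SkewMonoidAlgebra R G) p q c) :=
  CMain_msup_sum _ _ fun j _ => CMain_msup_E (g := 1) (1 : R) (h j)

lemma CMain_msup_T {U : X → Y → Set G} {c : J → G → J → Finset V → (Finset V →₀ ℤ)}
    (h : ∀ i g j, (a i j).coeff g ≠ 0 → ∀ x y, (p x).1 = i → (q y).1 = j →
      c i g j (q y).2 (p x).2 ≠ 0 → g ∈ U x y) : MSup2 U (CMainT p q a c) :=
  CMain_msup_sum _ _ fun i _ => CMain_msup_sum _ _ fun j _ => CMain_msup_sum _ _ fun g hg =>
    CMain_msup_E _ (h i g j (Finsupp.mem_support_iff.1 hg))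

lemma CMain_msup_W {U : X → Y → Set G} {e : J → G → J → G → J → Finset V → (Finset V →₀ ℤ)}
    (h : ∀ i g j g' k, (a i j).coeff g ≠ 0 → (b j k).coeff g' ≠ 0 → ∀ x y, (p x).1 = i →
      (q y).1 = k → e i g j g' k (q y).2 (p x).2 ≠ 0 → g * g' ∈ U x y) :
    MSup2 U (CMainW p q a b e) :=
  CMain_msup_sum _ _ fun i _ => CMain_msup_sum _ _ fun j _ => CMain_msup_sum _ _ fun g hg =>
    CMain_msup_sum _ _ fun k _ => CMain_msup_sum _ _ fun g' hg' =>
      CMain_msup_E _ (h i g j g' k (Finsupp.mem_support_iff.1 hg) (Finsupp.mem_support_iff.1 hg'))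

lemma CMainB_base (c : J → Finset V → (Finset V →₀ ℤ)) :
    MSup {1} (CMainB (SkewMonoidAlgebra R G) p q c) :=
  CMain_msup_B (U := fun _ _ => {1}) fun _ _ _ _ _ _ => rfl

end Gen

section Cx

variable {V : Type} [LinearOrder V] {Adj : V → V → Prop} {B B' σ τ : Finset V}

end Cx

section Tr

variable {G J V : Type} [Group G] [MulSemiringAction G R] [Fintype J] [DecidableEq J] [LinearOrder V]
  {r₁ r₂ : J → G → J → Prop} {K : J → Finset V} {Adj : J → V → V → Prop}
  {C₁ C₂ : J → G → J → Finset V → Finset V} {n : ℕ}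

/-- Control of the given matrices. -/
def CMainR (r : J → G → J → Prop) (a : Matrix J J (SkewMonoidAlgebra R G)) : Prop :=
  ∀ i j g, (a i j).coeff g ≠ 0 → r i g j

variable {φ : J → G → J → Finset V → (Finset V →₀ ℤ)}
  {H : J → G → J → G → J → Finset V → (Finset V →₀ ℤ)} {a b : Matrix J J (SkewMonoidAlgebra R G)}

lemma CMain_chain (hD : TrD r₁ r₂ K Adj C₁ C₂ n) (h0 : ∀ i g j, φ i g j ∅ = Finsupp.single ∅ 1)
    (hφ : ∀ i g j σ, r₂ i g j → Clq (Adj j) (K j) σ → σ.Nonempty →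
      Ch (Adj i) (C₁ i g j σ) σ.card (φ i g j σ) ∧ bd (φ i g j σ) = lin (φ i g j) (bd1 σ))
    (ha : CMainR r₁ a) :
    CMainB (SkewMonoidAlgebra R G) (Subtype.val : CMainP K Adj → _) (Subtype.val : CMainP K Adj → _)
      (fun _ => bd1) * CMainT (Subtype.val : CMainP K Adj → _) (Subtype.val : CMainP K Adj → _) a φ =
    CMainT (Subtype.val : CMainP K Adj → _) (Subtype.val : CMainP K Adj → _) a φ *
      CMainB (SkewMonoidAlgebra R G) (Subtype.val : CMainP K Adj → _) (Subtype.val : CMainP K Adj → _)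
        (fun _ => bd1) := by
  rw [CMainB_mul_T (CMain_sum_P _), CMainT_mul_B (CMain_sum_P _)]
  refine CMainT_congr ?_
  rintro _ g _ hg x y rfl rfl
  have hr := hD.r12 (ha _ _ g hg)
  obtain ⟨h1, h2⟩ := hφ _ g _ _ hr (CMain_P y).1 (CMain_P y).2
  rw [CMain_C_bd _ _ fun σ hσ => CMain_clq_mono (h1 σ hσ).1 (hD.sub₁ _ hr),
    CMain_C_bd' _ (CMain_P y).1, h2, h0]
  simp [(CMain_P x).2.ne_empty.symm]

lemma CMain_aug (hD : TrD r₁ r₂ K Adj C₁ C₂ n) (h0 : ∀ i g j, φ i g j ∅ = Finsupp.single ∅ 1)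
    (hφ : ∀ i g j σ, r₂ i g j → Clq (Adj j) (K j) σ → σ.Nonempty →
      Ch (Adj i) (C₁ i g j σ) σ.card (φ i g j σ) ∧ bd (φ i g j σ) = lin (φ i g j) (bd1 σ))
    (ha : CMainR r₁ a) :
    CMainB (SkewMonoidAlgebra R G) (fun j => (j, (∅ : Finset V))) (Subtype.val : CMainP K Adj → _)
      (fun _ => bd1) * CMainT (Subtype.val : CMainP K Adj → _) (Subtype.val : CMainP K Adj → _) a φ =
    a * CMainB (SkewMonoidAlgebra R G) (fun j => (j, (∅ : Finset V))) (Subtype.val : CMainP K Adj → _)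
        (fun _ => bd1) := by
  conv_rhs => rw [← CMainT_base (a := a) φ fun i g j => by simp [h0]]
  rw [CMainB_mul_T (CMain_sum_P _), CMainT_mul_B (CMain_sum_J _)]
  refine CMainT_congr ?_
  rintro _ g _ hg x y rfl rfl
  have hr := hD.r12 (ha _ _ g hg)
  obtain ⟨h1, h2⟩ := hφ _ g _ _ hr (CMain_P y).1 (CMain_P y).2
  rw [CMain_C_bd _ _ fun σ hσ => CMain_clq_mono (h1 σ hσ).1 (hD.sub₁ _ hr), h2,
    ← sub_add_cancel (lin _ _) (bd1 y.1.2 ∅ • φ x g y.1.1 ∅), ← CMain_C_bd' _ (CMain_P y).1]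
  simp only [CMainC, Finset.sum_singleton, Finsupp.add_apply, Finsupp.finsetSum_apply,
    add_eq_right]
  refine Finset.sum_eq_zero fun σ hσ => ?_
  obtain ⟨h3, h4⟩ := CMain_mem_S.1 hσ
  rw [Finsupp.smul_apply, CMain_ch_empty (hφ _ g _ σ hr h3 h4).1 h4.card_pos, smul_zero]

lemma CMain_htpy (hD : TrD r₁ r₂ K Adj C₁ C₂ n) (h1 : ∀ j σ, φ j 1 j σ = Finsupp.single σ 1)
    (hφ : ∀ i g j σ, r₂ i g j → Clq (Adj j) (K j) σ → σ.Nonempty →
      Ch (Adj i) (C₁ i g j σ) σ.card (φ i g j σ) ∧ bd (φ i g j σ) = lin (φ i g j) (bd1 σ))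
    (H0 : ∀ i g j g' k, H i g j g' k ∅ = 0)
    (hH : ∀ i g j g' k σ, r₁ i g j → r₁ j g' k → Clq (Adj k) (K k) σ → σ.Nonempty →
      Ch (Adj i) (C₂ i (g * g') k σ) (σ.card + 1) (H i g j g' k σ) ∧
      bd (H i g j g' k σ) + lin (H i g j g' k) (bd1 σ) =
        lin (φ i g j) (φ j g' k σ) - φ i (g * g') k σ)
    (ha : CMainR r₁ a) (hb : CMainR r₁ b) (hab : a * b = 1) :
    CMainT (Subtype.val : CMainP K Adj → _) (Subtype.val : CMainP K Adj → _) a φ *
      CMainT (Subtype.val : CMainP K Adj → _) (Subtype.val : CMainP K Adj → _) b φ =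
    1 + CMainB (SkewMonoidAlgebra R G) (Subtype.val : CMainP K Adj → _)
      (Subtype.val : CMainP K Adj → _) (fun _ => bd1) *
      CMainW (Subtype.val : CMainP K Adj → _) (Subtype.val : CMainP K Adj → _) a b H +
      CMainW (Subtype.val : CMainP K Adj → _) (Subtype.val : CMainP K Adj → _) a b H *
      CMainB (SkewMonoidAlgebra R G) (Subtype.val : CMainP K Adj → _) (Subtype.val : CMainP K Adj → _)
        (fun _ => bd1) := by
  have e1 : (1 : Matrix (CMainP K Adj) (CMainP K Adj) (SkewMonoidAlgebra R G)) =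
      CMainT Subtype.val Subtype.val (a * b) φ := by
    rw [hab, CMainT_one, ← CMainB_one Subtype.val_injective]
    exact CMainB_congr fun j x y _ _ => by rw [h1]
  rw [e1, CMainT_mul, CMainT_mul_T (CMain_sum_P _), CMainB_mul_W (CMain_sum_P _),
    CMainW_mul_B (CMain_sum_P _), CMainW_add, CMainW_add]
  refine CMainW_congr ?_
  rintro _ g j g' _ hg hg' x y rfl rfl
  have hr := ha _ _ g hg
  have hr' := hb _ _ g' hg'
  obtain ⟨h2, h3⟩ := hH _ g j g' _ _ hr hr' (CMain_P y).1 (CMain_P y).2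
  have h4 := (hφ _ g' _ _ (hD.r12 hr') (CMain_P y).1 (CMain_P y).2).1
  simp only [Pi.add_apply]
  rw [CMain_C _ _ _ fun σ hσ => CMain_clq_mono (h4 σ hσ).1 (hD.sub₁ _ (hD.r12 hr')),
    CMain_C_bd _ _ fun σ hσ => CMain_clq_mono (h2 σ hσ).1 (hD.sub₂ _ (hD.rmul hr hr')),
    CMain_C_bd' _ (CMain_P y).1, H0, CMain_ch_empty h4 (CMain_P y).2.card_pos, add_assoc,
    smul_zero, zero_smul, sub_zero, sub_zero, h3, add_sub_cancel]

end Tr

theorem transfer (n : ℕ) : ∃ c : ℕ, 0 < c ∧ ∀ (G : Type) [Group G] [MulSemiringAction G R] (J V : Type) [Fintype J]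
    [DecidableEq J] [LinearOrder V] (r₁ r₂ : J → G → J → Prop) (K : J → Finset V)
    (Adj : J → V → V → Prop) (C₁ C₂ : J → G → J → Finset V → Finset V)
    (F : GN.FR G {p : J × V // p.2 ∈ K p.1}) (κ M : ℕ), TrD r₁ r₂ K Adj C₁ C₂ n →
    (∀ j, (K j).card ≤ M) →
    (∀ (x y : {p : J × V // p.2 ∈ K p.1}), x.1.1 = y.1.1 → Adj x.1.1 x.1.2 y.1.2 →
      F.rel κ x 1 y) →
    (∀ (x y : {p : J × V // p.2 ∈ K p.1}) g σ, r₂ x.1.1 g y.1.1 → Clq (Adj y.1.1) (K y.1.1) σ →
      y.1.2 ∈ σ → x.1.2 ∈ C₂ x.1.1 g y.1.1 σ → F.rel κ x g y) →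
    ∀ a b : Matrix J J (SkewMonoidAlgebra R G), a * b = 1 → b * a = 1 → Ctl r₁ id id a →
    Ctl r₁ id id b →
    ∃ (J' : Type) (_ : Fintype J') (_ : DecidableEq J') (l : J' → {p : J × V // p.2 ∈ K p.1})
      (A B : Matrix J' J' (SkewMonoidAlgebra R G)), Fintype.card J' ≤ Fintype.card J * (M + 1) ^ n ∧
      A * B = 1 ∧ B * A = 1 ∧ Ctl (F.rel (c * κ)) l l A ∧ Ctl (F.rel (c * κ)) l l B ∧
      (T A → T a) := by
  obtain ⟨c, hc, ht⟩ := torsion (R := R) n
  refine ⟨c, hc, fun G _ _ J V _ _ _ r₁ r₂ K Adj C₁ C₂ F κ M hD hM hA hC a b hab hba ha hb => ?_⟩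
  replace ha : CMainR r₁ a := ha
  replace hb : CMainR r₁ b := hb
  obtain ⟨φ, H, o, s, h1, h0, hφ, H0, hH, ho, hs⟩ := hD.chain
  have dT : ∀ a : Matrix J J (SkewMonoidAlgebra R G), CMainR r₁ a →
      Dg (fun x : CMainP K Adj => x.1.2.card - 1) 0 (CMainT Subtype.val Subtype.val a φ) :=
    fun a ha => CMain_dg (CMainZ_T (by
      rintro _ g _ hg x y rfl rfl h
      rw [((hφ _ g _ _ (hD.r12 (ha _ _ g hg)) (CMain_P y).1 (CMain_P y).2).1 _ h).2, add_zero]))
  have dW : ∀ a b : Matrix J J (SkewMonoidAlgebra R G), CMainR r₁ a → CMainR r₁ b →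
      Dg (fun x : CMainP K Adj => x.1.2.card - 1) 1 (CMainW Subtype.val Subtype.val a b H) :=
    fun a b ha hb => CMain_dg (CMainZ_W (by
      rintro _ g j g' _ hg hg' x y rfl rfl h
      rw [((hH _ g j g' _ _ (ha _ _ g hg) (hb _ _ g' hg') (CMain_P y).1 (CMain_P y).2).1 _ h).2]
      rfl))
  have cT : ∀ a : Matrix J J (SkewMonoidAlgebra R G), CMainR r₁ a →
      Ctl (F.rel κ) (CMainL (K := K) (Adj := Adj)) (CMainL (K := K) (Adj := Adj))
        (CMainT Subtype.val Subtype.val a φ) :=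
    fun a ha => CMain_msup_T (by
      rintro _ g _ hg x y rfl rfl h
      have hr := hD.r12 (ha _ _ g hg)
      exact hC (CMainL x) (CMainL y) g y.1.2 hr (CMain_P y).1 (CMainL_mem y) (hD.le₁₂ _ hr
        (((hφ _ g _ _ hr (CMain_P y).1 (CMain_P y).2).1 _ h).1.1 (CMainL_mem x))))
  have cW : ∀ a b : Matrix J J (SkewMonoidAlgebra R G), CMainR r₁ a → CMainR r₁ b →
      Ctl (F.rel κ) (CMainL (K := K) (Adj := Adj)) (CMainL (K := K) (Adj := Adj))
        (CMainW Subtype.val Subtype.val a b H) :=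
    fun a b ha hb => CMain_msup_W (by
      rintro _ g j g' _ hg hg' x y rfl rfl h
      have hr := ha _ _ g hg
      have hr' := hb _ _ g' hg'
      exact hC (CMainL x) (CMainL y) (g * g') y.1.2 (hD.rmul hr hr') (CMain_P y).1 (CMainL_mem y)
        (((hH _ g j g' _ _ hr hr' (CMain_P y).1 (CMain_P y).2).1 _ h).1.1 (CMainL_mem x)))
  have dd : ∀ (X : Type) (p : X → J × Finset V),
      CMainB (SkewMonoidAlgebra R G) p (Subtype.val : CMainP K Adj → _) (fun _ => bd1) *
        CMainB (SkewMonoidAlgebra R G) (Subtype.val : CMainP K Adj → _)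
          (Subtype.val : CMainP K Adj → _) (fun _ => bd1) = 0 := fun X p => by
    rw [CMainB_mul_B (CMain_sum_P _), ← CMainB_zero (p := p) (q := Subtype.val)]
    refine CMainB_congr ?_
    rintro _ x y - rfl
    rw [CMain_C_bd' _ (CMain_P y).1, CMain_bd1_empty, smul_zero, sub_zero, ← CMain_bd_single]
    exact congrArg (fun c : Finset V →₀ ℤ => c (p x).2) (bd_bd _)
  obtain ⟨A, B, h⟩ := ht G _ (CMainP K Adj) J F κ CMainL (fun x => x.1.2.card - 1)
    (CMainB _ Subtype.val Subtype.val fun _ => bd1) (CMainT Subtype.val Subtype.val a φ)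
    (CMainT Subtype.val Subtype.val b φ) (CMainW Subtype.val Subtype.val b a H)
    (CMainW Subtype.val Subtype.val a b H) (CMainB _ Subtype.val Subtype.val s) a b
    (CMainB _ Subtype.val (fun j => (j, ∅)) s) (CMainB _ (fun j => (j, ∅)) Subtype.val fun _ => bd1)
    (fun x => (Nat.sub_le _ _).trans (hD.dim _ _ (CMain_P x).1))
    (CMain_dg (CMainZ_B fun j x y _ _ h => by have := (CMain_bd1 h).2; omega))
    (dT a ha) (dT b hb) (dW b a hb ha) (dW a b ha hb)
    (CMain_dg (CMainZ_B (by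
      rintro _ x y - rfl h
      rw [((hs _ _ (CMain_P y).1 (CMain_P y).2).1 _ h).2]
      rfl)))
    (CMainZ_B (Q := fun (x : CMainP K Adj) (_ : J) => x.1.2.card - 1 = 0) (by
      rintro _ x y - rfl h
      rw [(ho _).2] at h
      rw [(Finsupp.single_apply_ne_zero.1 h).1, Finset.card_singleton]))
    (CMainZ_B (Q := fun (_ : J) (x : CMainP K Adj) => x.1.2.card - 1 = 0) fun j x y _ _ h => by
      rw [← (CMain_bd1 h).2, Finset.card_empty])
    (CMain_msup_B (by
      rintro _ x y e rfl h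
      have hx := (CMain_bd1 h).1 (CMainL_mem x)
      by_cases e' : (CMainL x).1.2 = (CMainL y).1.2
      · have e2 : CMainL x = CMainL y := Subtype.ext (Prod.ext e e')
        change F.rel κ (CMainL x) 1 (CMainL y)
        rw [e2]
        exact F.mono (Nat.zero_le _) (F.refl _)
      · refine hA (CMainL x) (CMainL y) e ?_
        change Adj x.1.1 _ _
        rw [e]
        exact (CMain_P y).1.2 _ hx _ (CMainL_mem y) e'))
    (cT a ha) (cT b hb) (cW b a hb ha) (cW a b ha hb) (dd _ _) (CMain_chain hD h0 hφ ha)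
    (CMain_chain hD h0 hφ hb) (CMain_htpy hD h1 hφ H0 hH hb ha hba)
    (CMain_htpy hD h1 hφ H0 hH ha hb hab) hab hba
    (by
      rw [CMainB_mul_B (CMain_sum_P _), ← CMainB_one (p := fun j : J => (j, (∅ : Finset V)))
        fun _ _ e => congrArg Prod.fst e]
      refine CMainB_congr ?_
      rintro _ x y - rfl
      have hcl : ∀ σ, s y ∅ σ ≠ 0 → Clq (Adj y) (K y) σ := fun σ hσ => by
        rw [(ho _).2] at hσ
        rw [(Finsupp.single_apply_ne_zero.1 hσ).1]
        exact ⟨Finset.singleton_subset_iff.2 (ho _).1, by simp⟩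
      rw [CMain_C_bd _ _ hcl, (ho _).2, CMain_bd_single]
      simp [bd1, Finset.filter_singleton])
    (dd _ _)
    (by
      rw [eq_sub_iff_add_eq, CMainB_mul_B (CMain_sum_P _), CMainB_mul_B (CMain_sum_P _),
        CMainB_mul_B (CMain_sum_J _), CMainB_add, CMainB_add, ← CMainB_one Subtype.val_injective]
      refine CMainB_congr ?_
      rintro _ x y - rfl
      obtain ⟨h2, h3⟩ := hs _ _ (CMain_P y).1 (CMain_P y).2
      simp only [Pi.add_apply]
      rw [CMain_C_bd _ _ fun σ hσ => (h2 σ hσ).1, CMain_C_bd' _ (CMain_P y).1, ← h3, CMainC,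
        Finset.sum_singleton, add_assoc, sub_add_cancel])
    (CMain_aug hD h0 hφ ha) (CMainB_base _) (CMainB_base _) (CMainB_base _) (CMainB_base _)
  exact ⟨_, inferInstance, inferInstance, CMainL, A, B, CMain_card_P hD.dim hM, h⟩

end Pool.Agent.MP_f7db47_al.TW

end
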