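import Pool.Agent.Mg.Ff7db47.Gcfb1bc
import Pool.Agent.Mg.Ff7db47.G42fc5e

/-!
Twisted coefficients: part Bass.
-/

set_option linter.unusedSectionVars false

universe u u' v w

section

namespace Pool.Agent.MP_f7db47_al.TW

open Matrix Function

variable {R : Type v} [Ring R] {G : Type u} [Group G] [MulSemiringAction G R] {N : Type u} [Group N] [MulSemiringAction N R]

/-- Data of a central Laurent extension that is compatible with the actions. -/
structure Laur (R : Type v) [Ring R] (N G : Type u) [Group N] [Group G] [MulSemiringAction N R]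
    [MulSemiringAction G R] extends Pool.Agent.MP_f7db47_al.Laur N G where
  cp : Cp R f
  tr : ∀ r : R, t • r = r

namespace Laur

variable (D : Laur R N G)

instance : Cp R D.f := D.cp

lemma tr_inv (r : R) : D.t⁻¹ • r = r := by rw [inv_smul_eq_iff, D.tr]

lemma tr_pow (k : ℕ) (r : R) : D.t ^ k • r = r := by
  induction k with
  | zero => rw [pow_zero, one_smul]
  | succ k ih => rw [pow_succ, mul_smul, D.tr, ih]

variable (R) in
/-- The inclusion of group rings. -/
noncomputable abbrev φ : SkewMonoidAlgebra R N →+* SkewMonoidAlgebra R G :=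
  mapR R D.f

lemma sup_φ (x : SkewMonoidAlgebra R N) : Sup {g | D.dg g = 0} (D.φ R x) :=
  D.range_eq ▸ sup_mapDomain D.f x

/-- Degree zero part. -/
noncomputable def c0 (x : SkewMonoidAlgebra R G) : SkewMonoidAlgebra R N :=
  Sk.comapDomain D.f D.hf (pr {g | D.dg g = 0} x)

lemma φ_c0 (x : SkewMonoidAlgebra R G) : D.φ R (D.c0 x) = pr {g | D.dg g = 0} x :=
  Sk.mapDomain_comapDomain
    (fun g hg => D.range_eq ▸ sup_pr _ x g (Finsupp.mem_support_iff.1 hg)) D.hf

variable (R) in
/-- Vectors over the big ring, as a module over the small ring. -/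
def FS (_ : Laur R N G) (J : Type) : Type (max u v) := J → SkewMonoidAlgebra R G

noncomputable instance (J : Type) : AddCommGroup (D.FS R J) :=
  inferInstanceAs (AddCommGroup (J → SkewMonoidAlgebra R G))

noncomputable instance (J : Type) : Module (SkewMonoidAlgebra R N) (D.FS R J) :=
  Module.compHom (J → SkewMonoidAlgebra R G) (D.φ R)

variable (R) in
/-- Vectors of nonnegative degree. -/
def Fp (J : Type) : Submodule (SkewMonoidAlgebra R N) (D.FS R J) where
  carrier := {v | VSup {g | 0 ≤ D.dg g} (show J → SkewMonoidAlgebra R G from v)}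
  zero_mem' := fun _ => sup_zero _
  add_mem' := fun hx hy i => (hx i).add (hy i)
  smul_mem' := fun c v hv i => (D.sup_φ c).mul (hv i) fun a ha b hb => by
    simp only [Set.mem_ofPred_eq, D.hadd] at *; omega

variable {J : Type} [Fintype J] [DecidableEq J]

/-- The underlying vector. -/
def vec (v : D.Fp R J) : J → SkewMonoidAlgebra R G := v.1

lemma vec_sup (v : D.Fp R J) : VSup {g | 0 ≤ D.dg g} (D.vec v) := v.2

lemma vec_injective : Injective (D.vec : D.Fp R J → _) := fun _ _ h => Subtype.ext h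

lemma vsup_vecMul {S S' U : Set G} {v : J → SkewMonoidAlgebra R G}
    {A : Matrix J J (SkewMonoidAlgebra R G)} (hv : VSup S v) (hA : MSup S' A)
    (h : ∀ a ∈ S, ∀ b ∈ S', a * b ∈ U) : VSup U (v ᵥ* A) := fun j =>
  sup_sum _ _ fun i _ => (hv i).mul (hA i j) h

/-- Right multiplication by a matrix of nonnegative degree. -/
noncomputable def mulP (A : Matrix J J (SkewMonoidAlgebra R G)) (hA : MSup {g | 0 ≤ D.dg g} A) :
    D.Fp R J →ₗ[SkewMonoidAlgebra R N] D.Fp R J where
  toFun v := ⟨D.vec v ᵥ* A, vsup_vecMul (D.vec_sup v) hA fun a ha b hb => by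
    simp only [Set.mem_ofPred_eq, D.hadd] at *; omega⟩
  map_add' v w := Subtype.ext (add_vecMul A (D.vec v) (D.vec w))
  map_smul' c v := Subtype.ext (smul_vecMul (D.φ R c) (D.vec v) A)

lemma vec_mulP (A : Matrix J J (SkewMonoidAlgebra R G)) (hA : MSup {g | 0 ≤ D.dg g} A)
    (v : D.Fp R J) : D.vec (D.mulP A hA v) = D.vec v ᵥ* A := rfl

lemma msup_mul {A B : Matrix J J (SkewMonoidAlgebra R G)} (hA : MSup {g | 0 ≤ D.dg g} A)
    (hB : MSup {g | 0 ≤ D.dg g} B) : MSup {g | 0 ≤ D.dg g} (A * B) :=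
  hA.mul hB fun a ha b hb => by simp only [Set.mem_ofPred_eq, D.hadd] at *; omega

lemma mulP_mul {A B : Matrix J J (SkewMonoidAlgebra R G)} (hA : MSup {g | 0 ≤ D.dg g} A)
    (hB : MSup {g | 0 ≤ D.dg g} B) :
    D.mulP (A * B) (D.msup_mul hA hB) = D.mulP B hB ∘ₗ D.mulP A hA := by
  ext1 v
  exact D.vec_injective (vecMul_vecMul _ _ _).symm

lemma mulP_injective {B : Matrix J J (SkewMonoidAlgebra R G)} (hB : MSup {g | 0 ≤ D.dg g} B)
    (hu : IsUnit B) : Injective (D.mulP B hB) := by
  obtain ⟨u, rfl⟩ := hu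
  intro v w h
  apply D.vec_injective
  have := congrArg (fun z => D.vec z ᵥ* (u⁻¹ : Units _).val) h
  simpa [vec_mulP] using this

/-- The cokernel. -/
abbrev Cok (A : Matrix J J (SkewMonoidAlgebra R G)) (hA : MSup {g | 0 ≤ D.dg g} A) :=
  D.Fp R J ⧸ LinearMap.range (D.mulP A hA)

/-- The scalar matrix `t`. -/
noncomputable abbrev sc (J : Type) [DecidableEq J] (g : G) : Matrix J J (SkewMonoidAlgebra R G) :=
  (1 : Matrix J J R).map (SkewMonoidAlgebra.single g)

lemma sc_mul (g h : G) : (sc J g : Matrix J J (SkewMonoidAlgebra R G)) * sc J h = sc J (g * h) := by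
  rw [sc, sc, sc, ← map_sz_one, ← map_sz_one, ← map_sz_one, map_sz_mul, mul_one]

lemma sc_one : (sc J (1 : G) : Matrix J J (SkewMonoidAlgebra R G)) = 1 := map_single_one_one

lemma sc_comm {g : G} (hg : ∀ x, g * x = x * g) (hr : ∀ r : R, g • r = r)
    (A : Matrix J J (SkewMonoidAlgebra R G)) :
    sc J g * A = A * sc J g := by
  have : (sc J g : Matrix J J (SkewMonoidAlgebra R G)) =
      diagonal fun _ => SkewMonoidAlgebra.single g 1 := by
    ext1 i j
    by_cases h : i = j
    · subst h; simp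
    · simp [Matrix.one_apply_ne h, diagonal_apply_ne _ h]
  rw [this]
  ext1 i j
  rw [diagonal_mul, mul_diagonal]
  exact Sk.single_commute hg hr _

lemma msup_basic {ε : Matrix J J (SkewMonoidAlgebra R N)} :
    MSup {g | 0 ≤ D.dg g} (1 - ε.map (D.φ R) + ε.map (D.φ R) * sc J D.t) := by
  have h0 : MSup {g | 0 ≤ D.dg g} (ε.map (D.φ R)) := fun i j =>
    (D.sup_φ _).mono fun g hg => le_of_eq (Eq.symm hg)
  exact ((msup_one (by simp [dg_one D.dg D.hadd])).sub h0).add
    (D.msup_mul h0 (msup_map_single (by simp [D.ht]) _))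

lemma basic {ε : Matrix J J (SkewMonoidAlgebra R N)} (hε : ε * ε = ε) :
    Nonempty (D.Cok _ (D.msup_basic (ε := ε)) ≃ₗ[SkewMonoidAlgebra R N]
      LinearMap.range ε.vecMulLinear) := by
  have hinj := mapDomain_inj (R := R) D.f D.hf
  set E := ε.map (D.φ R) with hE
  have hEs : MSup {g | D.dg g = 0} E := fun i j => D.sup_φ _
  have hEE : E * E = E := by rw [hE, ← Matrix.map_mul, hε]
  let c : D.Fp R J →ₗ[SkewMonoidAlgebra R N] (J → SkewMonoidAlgebra R N) :=
    { toFun := fun v i => D.c0 (D.vec v i)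
      map_add' := fun v w => funext fun i => hinj (by
        rw [Pi.add_apply, map_add, φ_c0, φ_c0, φ_c0, ← map_add]; rfl)
      map_smul' := fun a v => funext fun i => hinj (by
        rw [Pi.smul_apply, RingHom.id_apply, smul_eq_mul, map_mul, φ_c0, φ_c0,
          ← pr_mul_left (S := {g | D.dg g = 0}) _ (D.sup_φ a)]
        · rfl
        · intro k hk g
          simp only [Set.mem_ofPred_eq, D.hadd] at *; omega) }
  have hc : ∀ v, (D.φ R) ∘ c v = prv {g | D.dg g = 0} (D.vec v) :=
    fun v => funext fun i => D.φ_c0 _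
  have hker : ∀ v, c v ᵥ* ε = 0 ↔ prv {g | D.dg g = 0} (D.vec v ᵥ* E) = 0 := by
    intro v
    rw [prv_vecMul_right (S₁ := {g | D.dg g = 0}) _ hEs (fun g k hk => by
      simp only [Set.mem_ofPred_eq, D.hadd] at *; omega), ← hc, hE]
    constructor
    · intro h
      funext j
      rw [← RingHom.map_vecMul, h]; simp
    · intro h
      funext j
      apply hinj
      rw [RingHom.map_vecMul, h]; simp
  let p := ε.vecMulLinear.rangeRestrict ∘ₗ c
  have hp : Surjective p := by
    rintro ⟨_, w, rfl⟩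
    refine ⟨⟨(D.φ R) ∘ w, fun i => (D.sup_φ _).mono fun g hg => le_of_eq (Eq.symm hg)⟩,
      Subtype.ext ?_⟩
    change c _ ᵥ* ε = w ᵥ* ε
    congr 1
    funext i
    apply hinj
    exact (D.φ_c0 _).trans (D.sup_φ _).pr_eq
  have hk : LinearMap.range (D.mulP _ (D.msup_basic (ε := ε))) = LinearMap.ker p := by
    ext v
    rw [LinearMap.mem_ker, Subtype.ext_iff]
    change _ ↔ c v ᵥ* ε = 0
    rw [hker]
    constructor
    · rintro ⟨w, rfl⟩
      rw [vec_mulP, vecMul_vecMul, ← hE, add_mul, sub_mul, one_mul, hEE, sub_self, zero_add,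
        mul_assoc, sc_comm D.hc D.tr, ← mul_assoc, hEE]
      funext i
      refine (vsup_vecMul (U := {g | 1 ≤ D.dg g}) (D.vec_sup w)
        (hEs.mul (U := {g | D.dg g = 1}) (msup_map_single (S := {D.t}) rfl _) ?_) ?_ i).pr_eq_zero
        ?_
      · rintro a ha b rfl
        simp only [Set.mem_ofPred_eq, D.hadd, D.ht] at *; omega
      · intro a ha b hb
        simp only [Set.mem_ofPred_eq, D.hadd] at *; omega
      · intro g hg
        simp only [Set.mem_ofPred_eq] at *; omega
    · intro h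
      have h1 : VSup {g | 1 ≤ D.dg g} (D.vec v ᵥ* E) := by
        intro i g hg
        have e1 := vsup_vecMul (U := {g | 0 ≤ D.dg g}) (D.vec_sup v) hEs (fun a ha b hb => by
          simp only [Set.mem_ofPred_eq, D.hadd] at *; omega) i g hg
        have e2 := congrArg (fun x => x.coeff g) (congrFun h i)
        simp only [prv, coeff_pr, Set.mem_ofPred_eq, Pi.zero_apply, SkewMonoidAlgebra.coeff_zero,
          Finsupp.coe_zero, ite_eq_right_iff] at e1 e2 ⊢
        by_contra h3
        exact hg (e2 (by omega))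
      refine ⟨⟨D.vec v ᵥ* (1 - E + E * sc J D.t⁻¹), ?_⟩, D.vec_injective ?_⟩
      · change VSup _ (D.vec v ᵥ* (1 - E + E * sc J D.t⁻¹))
        rw [vecMul_add, vecMul_sub, vecMul_one, ← vecMul_vecMul]
        intro i
        refine ((D.vec_sup v i).sub ((h1 i).mono fun g hg => ?_)).add
          (vsup_vecMul h1 (msup_map_single (S := {D.t⁻¹}) rfl _) ?_ i)
        · simp only [Set.mem_ofPred_eq] at *; omega
        · rintro a ha b rfl
          simp only [Set.mem_ofPred_eq, D.hadd, dg_inv D.dg D.hadd, D.ht] at *; omega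
      · rw [vec_mulP]
        change D.vec v ᵥ* (1 - E + E * sc J D.t⁻¹) ᵥ* _ = _
        have hc' : ∀ x, D.t⁻¹ * x = x * D.t⁻¹ := fun x => by
          rw [inv_mul_eq_iff_eq_mul, ← mul_assoc, D.hc, mul_inv_cancel_right]
        have e1 : E * sc J D.t⁻¹ * E = E * sc J D.t⁻¹ := by
          rw [mul_assoc, sc_comm hc' D.tr_inv, ← mul_assoc, hEE]
        have e2 : (1 - E + E * sc J D.t⁻¹) * (1 - E + E * sc J D.t) = 1 := by
          simp only [mul_add, add_mul, mul_sub, sub_mul, one_mul, mul_one, ← mul_assoc, e1, hEE]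
          rw [mul_assoc E, sc_mul, inv_mul_cancel, sc_one, mul_one]
          abel
        rw [vecMul_vecMul, ← hE, e2, vecMul_one]
  exact ⟨(Submodule.quotEquivOfEq _ _ hk).trans (p.quotKerEquivOfSurjective hp)⟩

variable (R N) in
/-- The constants. -/
noncomputable abbrev ρ : ℤ →+* SkewMonoidAlgebra R N := Int.castRingHom _

lemma map_ρ {I K : Type} (e : Matrix I K ℤ) : e.map (ρ R N) = e.map (sz R 1) := by
  ext1 i j
  exact (sz_cast _).symm

/-- The cokernel is induced. -/
def Z0 (A : Matrix J J (SkewMonoidAlgebra R G)) : Prop :=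
  ∃ hA : MSup {g | 0 ≤ D.dg g} A, Ind (ρ R N) (D.Cok A hA)

lemma Z0.mul {A B : Matrix J J (SkewMonoidAlgebra R G)} (hA : D.Z0 A) (hB : D.Z0 B)
    (hu : IsUnit B) : D.Z0 (A * B) := by
  obtain ⟨hA, iA⟩ := hA
  obtain ⟨hB, iB⟩ := hB
  obtain ⟨a, b, h1, h2, h3⟩ := exists_ses (D.mulP A hA) (D.mulP B hB) (D.mulP_injective hB hu)
  refine ⟨D.msup_mul hA hB, ?_⟩
  unfold Cok
  rw [D.mulP_mul hA hB]
  exact Ind.ext h1 h2 h3 iA iB

lemma z0_of_inv {A B : Matrix J J (SkewMonoidAlgebra R G)} (hA : MSup {g | 0 ≤ D.dg g} A)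
    (hB : MSup {g | 0 ≤ D.dg g} B) (h : B * A = 1) : D.Z0 A := by
  refine ⟨hA, Empty, inferInstance, 0, 0, by simp, fun x => ⟨0, ?_⟩, fun v => ?_⟩
  · obtain ⟨x, rfl⟩ := Submodule.Quotient.mk_surjective _ x
    rw [LinearMap.zero_apply, eq_comm, Submodule.Quotient.mk_eq_zero]
    exact ⟨D.mulP B hB x, D.vec_injective (by rw [vec_mulP, vec_mulP, vecMul_vecMul, h,
      vecMul_one])⟩
  · simp [Subsingleton.elim (v ᵥ* _) 0]

lemma z0_idem (e : Matrix J J ℤ) (he : e * e = e) :
    D.Z0 (1 - e.map (sz R (1 : G)) + e.map (sz R D.t)) := by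
  have h1 : (e.map (ρ R N)).map (D.φ R) = e.map (sz R (1 : G)) := by
    rw [map_ρ]; ext1 i j; simp
  obtain ⟨i⟩ := D.basic (ε := e.map (ρ R N)) (by rw [← Matrix.map_mul, he])
  have h2 : e.map (sz R D.t) = (e.map (ρ R N)).map (D.φ R) * sc J D.t := by
    rw [h1, sc, ← map_sz_one, map_sz_mul, mul_one, one_mul]
  rw [h2, ← h1]
  exact ⟨_, (ind_range e he).iso i.symm⟩

/-- The cokernel is induced after multiplying by a power of `t`. -/
def Z (A : Matrix J J (SkewMonoidAlgebra R G)) : Prop := ∃ k : ℕ, D.Z0 (A * sc J (D.t ^ k))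

lemma Z0.z {A : Matrix J J (SkewMonoidAlgebra R G)} (h : D.Z0 A) : D.Z A :=
  ⟨0, by rwa [pow_zero, sc, map_single_one_one, mul_one]⟩

lemma Z.mul {A B : Matrix J J (SkewMonoidAlgebra R G)} (hA : D.Z A) (hB : D.Z B)
    (hu : IsUnit B) : D.Z (A * B) := by
  obtain ⟨k, hk⟩ := hA
  obtain ⟨l, hl⟩ := hB
  refine ⟨k + l, ?_⟩
  have := hk.mul D hl (hu.mul (T_scalar _).isUnit)
  rwa [mul_assoc, ← mul_assoc _ B, sc_comm (D.hc_pow k) (D.tr_pow k), mul_assoc, sc_mul, ← pow_add,
    ← mul_assoc] at this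

lemma z_idem_zpow (e : Matrix J J ℤ) (he : e * e = e) (n : ℤ) :
    D.Z (1 - e.map (sz R (1 : G)) + e.map (sz R (D.t ^ n))) := by
  induction n using Int.induction_on with
  | zero =>
    rw [zpow_zero, sub_add_cancel]
    have := msup_one (R := R) (I := J) (S := {g | 0 ≤ D.dg g}) (by simp [dg_one D.dg D.hadd])
    exact (D.z0_of_inv this this (one_mul _)).z
  | succ n ih =>
    rw [_root_.zpow_add_one, ← idem_mul e he]
    exact ih.mul D (D.z0_idem e he).z (T_gen (Gen.idem e he _)).isUnit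
  | pred n ih =>
    rw [_root_.zpow_sub_one, ← idem_mul e he]
    refine ih.mul D ⟨1, ?_⟩ (T_gen (Gen.idem e he _)).isUnit
    have := D.z0_idem (1 - e) (by simp [sub_mul, mul_sub, he])
    convert this using 1
    rw [pow_one, sc, ← map_sz_one, add_mul, sub_mul, one_mul, map_sz_mul, map_sz_mul, map_sz_sub,
      map_sz_sub, map_sz_one_one]
    simp only [mul_one, one_mul, inv_mul_cancel]
    abel

lemma z_gen {A : Matrix J J (SkewMonoidAlgebra R G)} (h : Gen R G J A) : D.Z A := by
  have h00 : (1 : G) ∈ {g | 0 ≤ D.dg g} := by simp [dg_one D.dg D.hadd]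
  cases h with
  | elem i j hij c =>
    have key : ∀ c d : SkewMonoidAlgebra R G,
        (1 + single i j c) * (1 + single i j d) = (1 + single i j (c + d) : Matrix J J _) := by
      intro c d
      simp only [mul_add, add_mul, one_mul, mul_one, single_mul_single_of_ne _ _ _ _ hij.symm,
        add_zero, single_add, add_assoc]
    induction c using Sk.induction_linear with
    | zero =>
      rw [single_zero, add_zero]
      exact (D.z0_of_inv (msup_one h00) (msup_one h00) (one_mul _)).z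
    | add a b ha hb =>
      rw [← key]
      exact ha.mul D hb (T_gen (Gen.elem i j hij b)).isUnit
    | single g r =>
      obtain ⟨x, n, hx, rfl⟩ := D.decomp g
      have hs : ∀ c : SkewMonoidAlgebra R G, Sup {g | 0 ≤ D.dg g} c →
          MSup {g | 0 ≤ D.dg g} (1 + single i j c : Matrix J J _) := by
        intro c hc
        refine (msup_one h00).add fun a b => ?_
        rw [Matrix.single_apply]
        split_ifs
        exacts [hc, sup_zero _]
      have hx' : Sup {g | 0 ≤ D.dg g} (SkewMonoidAlgebra.single x r) :=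
        sup_single (S := {g | 0 ≤ D.dg g}) (le_of_eq hx.symm) r
      have z1 := (D.z0_of_inv (hs _ hx') (hs _ hx'.neg) (by rw [key]; simp)).z
      have hE : (single j j (1 : ℤ) : Matrix J J ℤ) * single j j 1 = single j j 1 := by simp
      have z2 := (D.z_idem_zpow _ hE (-n)).mul D (z1.mul D (D.z_idem_zpow _ hE n)
        (T_gen (Gen.idem _ hE _)).isUnit)
        ((T_gen (Gen.elem i j hij _)).isUnit.mul (T_gen (Gen.idem _ hE _)).isUnit)
      convert z2 using 1
      rw [add_mul 1, one_mul, mul_add _ _ (single i j _ * _), idem_mul _ hE, ← _root_.zpow_add,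
        neg_add_cancel, zpow_zero, sub_add_cancel]
      congr 1
      have hm : ∀ g : G, (single j j (1 : ℤ) : Matrix J J ℤ).map (sz R g) =
          single j j (SkewMonoidAlgebra.single g 1) :=
        fun g => (Matrix.map_single _ _ _ (szA R g)).trans (by rw [szA_apply, sz_one])
      simp only [hm, mul_add, add_mul, mul_sub, sub_mul, one_mul, mul_one, single_mul_single_same,
        single_mul_single_of_ne _ _ _ _ hij.symm, SkewMonoidAlgebra.single_mul_single]
      simp
  | base U V hUV hVU =>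
    exact (D.z0_of_inv (msup_map_single h00 U) (msup_map_single h00 V)
      (by rw [map_single_mul, hVU, map_single_one_one])).z
  | idem e he g =>
    obtain ⟨x, n, hx, rfl⟩ := D.decomp g
    rw [← idem_mul e he]
    have hs : ∀ y : G, D.dg y = 0 → MSup {g | 0 ≤ D.dg g}
        (1 - e.map (sz R (1 : G)) + e.map (sz R y)) :=
      fun y hy => ((msup_one h00).sub (msup_map_sz h00 e)).add
        (msup_map_sz (S := {g | 0 ≤ D.dg g}) (le_of_eq hy.symm) e)
    refine (D.z0_of_inv (hs x hx) (hs x⁻¹ (by rw [dg_inv D.dg D.hadd, hx, neg_zero])) ?_).z.mul D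
      (D.z_idem_zpow e he n) (T_gen (Gen.idem e he _)).isUnit
    rw [idem_mul e he, inv_mul_cancel, sub_add_cancel]

lemma z_of_mem {A : Matrix J J (SkewMonoidAlgebra R G)} (h : A ∈ HG R G J) : D.Z A := by
  induction h using Submonoid.closure_induction with
  | mem x hx => exact D.z_gen hx
  | one =>
    have := msup_one (R := R) (I := J) (S := {g | 0 ≤ D.dg g}) (by simp [dg_one D.dg D.hadd])
    exact (D.z0_of_inv this this (one_mul _)).z
  | mul x y _ hy ihx ihy => exact ihx.mul D ihy (T_of_mem hy).isUnit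

lemma stInd_of_z {A : Matrix J J (SkewMonoidAlgebra R G)} (hA : MSup {g | 0 ≤ D.dg g} A)
    (h : D.Z A) : StInd (ρ R N) (D.Cok A hA) := by
  obtain ⟨k, hk, h'⟩ := h
  have h := h'.stInd
  clear h'
  have hτ : (sc J D.t : Matrix J J (SkewMonoidAlgebra R G)) =
      1 - (1 : Matrix J J (SkewMonoidAlgebra R N)).map (D.φ R) +
        (1 : Matrix J J (SkewMonoidAlgebra R N)).map (D.φ R) * sc J D.t := by
    rw [Matrix.map_one _ (map_zero _) (map_one _)]; simp
  have hτs : MSup {g | 0 ≤ D.dg g} (sc J D.t : Matrix J J (SkewMonoidAlgebra R G)) :=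
    msup_map_single (by simp [D.ht]) _
  have hfree : Nonempty (D.Cok _ hτs ≃ₗ[SkewMonoidAlgebra R N] (J → SkewMonoidAlgebra R N)) := by
    obtain ⟨i⟩ := D.basic (ε := (1 : Matrix J J (SkewMonoidAlgebra R N))) (one_mul _)
    have e1 : LinearMap.range (1 : Matrix J J (SkewMonoidAlgebra R N)).vecMulLinear = ⊤ := by
      rw [LinearMap.range_eq_top]
      intro v; exact ⟨v, by simp⟩
    have e2 : LinearMap.range (D.mulP _ hτs) =
        LinearMap.range (D.mulP _ (D.msup_basic (ε := (1 : Matrix J J (SkewMonoidAlgebra R N))))) := by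
      congr 2
    exact ⟨(Submodule.quotEquivOfEq _ _ e2).trans (i.trans
      ((LinearEquiv.ofEq _ _ e1).trans Submodule.topEquiv))⟩
  obtain ⟨fr⟩ := hfree
  induction k with
  | zero =>
    have e : A * sc J (D.t ^ 0) = A := by rw [pow_zero, sc, map_single_one_one, mul_one]
    have e2 : LinearMap.range (D.mulP _ hk) = LinearMap.range (D.mulP _ hA) := by congr 2
    exact h.iso (Submodule.quotEquivOfEq _ _ e2)
  | succ k ih =>
    have hk' : MSup {g | 0 ≤ D.dg g} (A * sc J (D.t ^ k)) :=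
      D.msup_mul hA (msup_map_single (by simp [dg_pow D.dg D.hadd, D.ht]) _)
    apply ih hk'
    obtain ⟨a, b, h1, h2, h3⟩ := exists_ses (D.mulP _ hk') (D.mulP _ hτs)
      (D.mulP_injective hτs (T_scalar (R := R) _).isUnit)
    refine StInd.of_ses (ρ := ρ R N) h1 h2 h3 fr ?_
    rw [← D.mulP_mul hk' hτs]
    have e : A * sc J (D.t ^ (k + 1)) = A * sc J (D.t ^ k) * sc J D.t := by
      rw [mul_assoc, sc_mul (R := R), pow_succ]
    have e2 : LinearMap.range (D.mulP _ hk) =
        LinearMap.range (D.mulP _ (D.msup_mul hk' hτs)) := by congr 2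
    exact h.iso (Submodule.quotEquivOfEq _ _ e2)

include D in
/-- The argument of Bass. -/
theorem bass (h : G1 R G) : G0 R N := by
  intro J _ _ ε hε
  have hc' : ∀ x, D.t⁻¹ * x = x * D.t⁻¹ := fun x => by
    rw [inv_mul_eq_iff_eq_mul, ← mul_assoc, D.hc, mul_inv_cancel_right]
  set E := ε.map (D.φ R) with hE
  have hEE : E * E = E := by rw [hE, ← Matrix.map_mul, hε]
  have key : ∀ a b : G, (∀ x, a * x = x * a) → (∀ r : R, a • r = r) → a * b = 1 →
      (1 - E + E * sc J a) * (1 - E + E * sc J b) = 1 := by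
    intro a b ha hr hab
    have e1 : E * sc J a * E = E * sc J a := by rw [mul_assoc, sc_comm ha hr, ← mul_assoc, hEE]
    simp only [mul_add, add_mul, mul_sub, sub_mul, one_mul, mul_one, ← mul_assoc, e1, hEE]
    rw [mul_assoc E, sc_mul, hab, sc_one, mul_one]
    abel
  obtain ⟨ι, _, _, hM⟩ := h J _ _ (key _ _ D.hc D.tr (mul_inv_cancel _))
    (key _ _ hc' D.tr_inv (inv_mul_cancel _))
  set ε1 : Matrix (J ⊕ ι) (J ⊕ ι) (SkewMonoidAlgebra R N) := fromBlocks ε 0 0 0 with hε1
  have hε11 : ε1 * ε1 = ε1 := by simp [hε1, fromBlocks_multiply, hε]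
  have hM' : fromBlocks (1 - E + E * sc J D.t) 0 0 (1 : Matrix ι ι _) =
      1 - ε1.map (D.φ R) + ε1.map (D.φ R) * sc (J ⊕ ι) D.t := by
    have : (sc (J ⊕ ι) D.t : Matrix _ _ (SkewMonoidAlgebra R G)) =
        fromBlocks (sc J D.t) 0 0 (sc ι D.t) := by
      rw [sc, ← fromBlocks_one, fromBlocks_map, map_single_zero, map_single_zero]
    rw [this, hε1, fromBlocks_map, ← hE, ← fromBlocks_one (l := J) (m := ι), sub_eq_add_neg,
      sub_eq_add_neg, fromBlocks_multiply, fromBlocks_neg, fromBlocks_add, fromBlocks_add]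
    simp
  rw [hM'] at hM
  obtain ⟨i⟩ := D.basic hε11
  obtain ⟨a, m, _, _, _, e, X, Y, he, h1, h2⟩ :=
    ((D.stInd_of_z _ (D.z_of_mem hM)).iso i).idem ε1 hε11
  classical
  let s : J ⊕ a → (J ⊕ ι) ⊕ a := Sum.map Sum.inl id
  have hX : ∀ (k : ι) (c : m), (X * Y * X) (Sum.inl (Sum.inr k)) c = 0 := by
    intro k c
    rw [h1]
    simp [Matrix.mul_apply, hε1]
  refine ⟨a, inferInstance, inferInstance, m, inferInstance, inferInstance, e,
    (X * Y * X).submatrix s id, Y.submatrix id s, he, ?_, ?_⟩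
  · have : (X * Y * X).submatrix s id * Y.submatrix id s = (X * Y * X * Y).submatrix s s :=
      (submatrix_mul _ _ s id s bijective_id).symm
    rw [this, Matrix.mul_assoc, h1]
    simp only [fromBlocks_multiply, Matrix.mul_zero, Matrix.zero_mul, add_zero, zero_add,
      Matrix.mul_one, hε11]
    ext1 x y
    rcases x with x | x <;> rcases y with y | y <;> simp [s, hε1]
  · have e1 : Y * (X * Y * X) = e.map (sz R 1) := by
      rw [← Matrix.mul_assoc, ← Matrix.mul_assoc, h2, Matrix.mul_assoc, h2, ← Matrix.map_mul, he,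
        map_ρ]
    rw [← e1]
    ext1 x y
    simp only [Matrix.mul_apply (M := Y), Matrix.mul_apply (M := Y.submatrix id s),
      Fintype.sum_sum_type, submatrix_apply, s, Sum.map_inl, Sum.map_inr, id, hX, mul_zero,
      Finset.sum_const_zero, add_zero]

end Laur

/-- `K_0` of `N` from `K_1` of `N × ℤ`. -/
theorem G0_of_G1_prod (h : G1 R (N × Multiplicative ℤ)) : G0 R N :=
  Laur.bass
    { f := MonoidHom.inl N (Multiplicative ℤ)
      hf := fun _ _ h => congrArg Prod.fst h
      dg := fun g => g.2.toAdd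
      hadd := fun _ _ => rfl
      hr := fun g => ⟨by rintro ⟨n, rfl⟩; rfl, fun h => ⟨g.1, Prod.ext rfl h.symm⟩⟩
      t := (1, Multiplicative.ofAdd 1)
      ht := rfl
      hc := fun g => Prod.ext (by simp) (mul_comm _ _)
      cp := inferInstance
      tr := fun r => one_smul N r } h

end Pool.Agent.MP_f7db47_al.TW

end
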