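import Pool.Agent.Mg.Ff7db47.Gff0e1c

section

/-!
General position.
-/

namespace Pool.Agent.MP_f7db47_al.GF

open MeasureTheory Filter Topology Set in
theorem FGen_null {P : Type} [PseudoMetricSpace P] {s : Set P} {m : ℕ} (hs : Cov s m)
    (f : P → Fin (m + 1) → ℝ) {L : ℝ} (hL : 0 ≤ L) (hf : ∀ x y, dist (f x) (f y) ≤ L * dist x y) :
    volume (f '' s) = 0 := by
  obtain ⟨A, hA⟩ := hs
  have h1 : Tendsto (fun ε : ℝ => ENNReal.ofReal (A * ((2 * L) ^ (m + 1) * ε))) (𝓝[>] 0)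
      (𝓝 0) := by
    have h2 : Continuous fun ε : ℝ => ENNReal.ofReal (A * ((2 * L) ^ (m + 1) * ε)) :=
      ENNReal.continuous_ofReal.comp (by fun_prop)
    simpa using (h2.tendsto 0).mono_left (nhdsWithin_le_nhds (s := Ioi 0))
  refine nonpos_iff_eq_zero.1 (ge_of_tendsto h1 ?_)
  filter_upwards [Ioc_mem_nhdsGT (zero_lt_one' ℝ)] with ε hε
  obtain ⟨E, h2, h3⟩ := hA ε hε.1 hε.2
  have h0 := hε.1
  calc volume (f '' s) ≤ volume (⋃ c ∈ E, Metric.closedBall (f c) (L * ε)) := by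
        refine measure_mono ?_
        rintro _ ⟨x, hx, rfl⟩
        obtain ⟨c, hc, h4⟩ := h3 x hx
        exact mem_biUnion hc ((hf x c).trans (mul_le_mul_of_nonneg_left h4 hL))
    _ ≤ ∑ c ∈ E, volume (Metric.closedBall (f c) (L * ε)) := measure_biUnion_finset_le _ _
    _ = ENNReal.ofReal (E.card * (2 * (L * ε)) ^ (m + 1)) := by
        rw [Finset.sum_congr rfl fun c _ => Real.volume_pi_closedBall (f c) (by positivity),
          Finset.sum_const, Fintype.card_fin, nsmul_eq_mul, ENNReal.ofReal_mul (by positivity),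
          ENNReal.ofReal_natCast]
    _ ≤ _ := by
        refine ENNReal.ofReal_le_ofReal (le_trans (le_of_eq (by ring))
          (mul_le_mul_of_nonneg_right h2 (by positivity : 0 ≤ (2 * L) ^ (m + 1) * ε)))

open MeasureTheory in
theorem FGen_ae {k n : ℕ} (e : Fin k ↪ Fin n) {N : Set (Fin k → ℝ)} (hN : volume N = 0) :
    ∀ᵐ θ : Fin n → ℝ, θ ∘ e ∉ N := by
  obtain ⟨N', h1, h2, h3⟩ := exists_measurable_superset_of_null hN
  have h4 := (ae_comp_linearMap_mem_iff (LinearMap.funLeft ℝ ℝ e) volume volume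
    (LinearMap.funLeft_surjective_of_injective ℝ ℝ e e.injective) h2.compl).2
    (measure_eq_zero_iff_ae_notMem.1 h3)
  filter_upwards [h4] with θ h h' using h (h1 h')

theorem generic {P : Type} [PseudoMetricSpace P] {s : Set P} {m : ℕ} (hs : Cov s m) {Z : Type}
    [Countable Z] (ψ : Z → P → ℝ) (L : ℝ) (hψ : ∀ z x y, ψ z x ≤ ψ z y + L * dist x y) (n : ℕ) :
    ∃ θ : Fin n → ℝ, ∀ x ∈ s, {i | ∃ (z : Z) (q : ℚ), ψ z x = θ i + q}.ncard ≤ m := by
  have h1 : ∀ᵐ θ : Fin n → ℝ, ∀ t : (Fin (m + 1) ↪ Fin n) × (Fin (m + 1) → Z × ℚ),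
      θ ∘ t.1 ∉ (fun x k => ψ (t.2 k).1 x - (t.2 k).2) '' s := by
    refine MeasureTheory.ae_all_iff.2 fun t => FGen_ae t.1 (FGen_null hs _ (abs_nonneg L)
      fun x y => (dist_pi_le_iff (by positivity)).2 fun k => ?_)
    have h2 := hψ (t.2 k).1 x y
    have h3 := hψ (t.2 k).1 y x
    have h4 := mul_le_mul_of_nonneg_right (le_abs_self L) (dist_nonneg (x := x) (y := y))
    rw [dist_comm] at h3
    rw [Real.dist_eq, abs_le]
    constructor <;> linarith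
  obtain ⟨θ, hθ⟩ := h1.exists
  refine ⟨θ, fun x hx => not_lt.1 fun h => ?_⟩
  obtain ⟨t, h2, h3⟩ := Set.exists_subset_card_eq (Nat.succ_le_of_lt h)
  have h4 : (Set.toFinite t).toFinset.card = m + 1 := by
    rw [← Set.ncard_eq_toFinset_card, h3]
  let e := (Set.toFinite t).toFinset.orderEmbOfFin h4
  have h5 : ∀ k, ∃ (z : Z) (q : ℚ), ψ z x = θ (e k) + q := fun k =>
    h2 ((Set.Finite.mem_toFinset _).1 (Finset.orderEmbOfFin_mem _ h4 k))
  choose z q h6 using h5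
  exact hθ (e.toEmbedding, fun k => (z k, q k)) ⟨x, hx, funext fun k => by simp [h6]⟩

end Pool.Agent.MP_f7db47_al.GF

end

section

/-!
The greedy choice of open sets in general position.
-/

namespace Pool.Agent.MP_f7db47_al.GF

open Metric

/-- The invariant of the greedy construction after `k` steps. -/
def FGreedy_Inv {Y : Type} [MetricSpace Y] (s Zs : Set Y) (m : ℕ) (ψ : Y → Y → ℝ) {n : ℕ}
    (θ : Fin n → ℝ) (z : Fin n → Y) (δ : Fin n → ℝ) (k : ℕ) (T : Fin n → Finset (Y × ℝ)) : Prop :=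
  (∀ i, ∀ c ∈ T i, c.1 ∈ Zs ∧ ∃ q : ℚ, c.2 = θ i + q) ∧
  (∀ i, ∀ c ∈ T i, ball c.1 c.2 ⊆ ball (z i) (2 * δ i)) ∧
  (∀ x ∈ s, ∀ i : Fin n, i.val < k → dist x (z i) ≤ δ i → ∃ j, ∃ c ∈ T j, ψ c.1 x < c.2) ∧
  (∀ i, ∀ c ∈ T i, ∀ x ∈ ball c.1 c.2,
    {j | j < i ∧ ∃ c' ∈ T j, ψ c'.1 x < c'.2}.ncard ≤ m) ∧
  (∀ i : Fin n, k ≤ i.val → T i = ∅)

theorem FGreedy_open {Y : Type} [MetricSpace Y] (m : ℕ) (ψ : Y → Y → ℝ)
    (hcont : ∀ c, Continuous (ψ c)) {n : ℕ} (T : Fin n → Finset (Y × ℝ)) :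
    IsOpen {x | {j | ∃ c ∈ T j, ψ c.1 x ≤ c.2}.ncard ≤ m} := by
  rw [isOpen_iff_mem_nhds]
  intro x hx
  have h : ∀ᶠ y in nhds x, ∀ j, ∀ c ∈ T j, c.2 < ψ c.1 x → c.2 < ψ c.1 y := by
    rw [Filter.eventually_all]
    intro j
    rw [Filter.eventually_all_finset]
    intro c _
    by_cases h : c.2 < ψ c.1 x
    · have := (hcont c.1).continuousAt.eventually (lt_mem_nhds h)
      exact this.mono fun y hy _ => hy
    · exact Filter.Eventually.of_forall fun y hy => absurd hy h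
  refine h.mono fun y hy => ?_
  refine le_trans (Set.ncard_le_ncard ?_ (Set.toFinite _)) hx
  rintro j ⟨c, hc, hle⟩
  refine ⟨c, hc, ?_⟩
  by_contra hlt
  exact absurd (hy j c hc (lt_of_not_ge hlt)) (not_lt.mpr hle)

theorem FGreedy_step {Y : Type} [MetricSpace Y] {s Zs : Set Y} {m : ℕ} (hc : IsCompact s)
    (hZ : s ⊆ closure Zs) (ψ : Y → Y → ℝ) (hcont : ∀ c, Continuous (ψ c))
    (hd : ∀ z x, ψ z x ≤ dist x z) {n : ℕ} (θ : Fin n → ℝ)
    (hθ : ∀ x ∈ s, {i | ∃ (c : Zs) (q : ℚ), ψ c x = θ i + q}.ncard ≤ m)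
    (z : Fin n → Y) (δ : Fin n → ℝ) (hδ : ∀ i, 0 < δ i) (k : ℕ) (T : Fin n → Finset (Y × ℝ))
    (hT : FGreedy_Inv s Zs m ψ θ z δ k T) : ∃ T', FGreedy_Inv s Zs m ψ θ z δ (k + 1) T' := by
  classical
  obtain ⟨ha, hb, hcov, hcnt, he⟩ := hT
  by_cases hk : k < n
  swap
  · refine ⟨T, ha, hb, fun x hx i _ hi => hcov x hx i (by have := i.2; omega) hi, hcnt,
      fun i hi => he i (by omega)⟩
  set κ : Fin n := ⟨k, hk⟩ with hκ
  set K : Set Y := s ∩ (closedBall (z κ) (δ κ) ∩ {x | ∀ j, ∀ c ∈ T j, c.2 ≤ ψ c.1 x}) with hK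
  set U : Set Y := {x | {j | ∃ c ∈ T j, ψ c.1 x ≤ c.2}.ncard ≤ m} ∩ ball (z κ) (2 * δ κ) with hU
  have hKc : IsCompact K := by
    refine hc.inter_right (isClosed_closedBall.inter ?_)
    have : {x | ∀ j, ∀ c ∈ T j, c.2 ≤ ψ c.1 x} = ⋂ j, ⋂ c ∈ T j, {x | c.2 ≤ ψ c.1 x} := by
      ext x; simp
    rw [this]
    exact isClosed_iInter fun j => isClosed_biInter fun c _ =>
      isClosed_le continuous_const (hcont c.1)
  have hUo : IsOpen U := (FGreedy_open m ψ hcont T).inter isOpen_ball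
  have hKU : K ⊆ U := by
    rintro x ⟨hxs, hxb, hxT⟩
    refine ⟨le_trans (Set.ncard_le_ncard ?_ (Set.toFinite _)) (hθ x hxs), ?_⟩
    · rintro j ⟨c, hcT, hle⟩
      obtain ⟨hcZ, q, hq⟩ := ha j c hcT
      exact ⟨⟨c.1, hcZ⟩, q, by rw [← hq]; exact le_antisymm hle (hxT j c hcT)⟩
    · rw [mem_closedBall] at hxb
      rw [mem_ball]
      have := hδ κ
      linarith
  let I := {p : Y × ℝ // (p.1 ∈ Zs ∧ ∃ q : ℚ, p.2 = θ κ + q) ∧ ball p.1 p.2 ⊆ U}
  have hcover : K ⊆ ⋃ p : I, ball p.1.1 p.1.2 := by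
    intro x hx
    obtain ⟨ε, hε, hεU⟩ := Metric.isOpen_iff.mp hUo x (hKU hx)
    obtain ⟨c, hcZ, hxc⟩ := Metric.mem_closure_iff.mp (hZ hx.1) (ε / 4) (by positivity)
    obtain ⟨q, hq1, hq2⟩ := exists_rat_btwn (show ε / 4 - θ κ < ε / 2 - θ κ by linarith)
    refine Set.mem_iUnion.mpr ⟨⟨(c, θ κ + q), ⟨hcZ, q, rfl⟩, ?_⟩, ?_⟩
    · intro y hy
      apply hεU
      rw [mem_ball] at hy ⊢
      have h1 := dist_triangle y c x
      rw [dist_comm c x] at h1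
      simp only at hy
      linarith
    · rw [mem_ball]
      simp only
      linarith
  obtain ⟨t, ht⟩ := hKc.elim_finite_subcover _ (fun p : I => isOpen_ball) hcover
  set F : Finset (Y × ℝ) := t.image Subtype.val with hF
  have hFI : ∀ c ∈ F, (c.1 ∈ Zs ∧ ∃ q : ℚ, c.2 = θ κ + q) ∧ ball c.1 c.2 ⊆ U := by
    intro c hcF
    obtain ⟨p, _, rfl⟩ := Finset.mem_image.mp hcF
    exact p.2
  have hTκ : T κ = ∅ := he κ le_rfl
  refine ⟨Function.update T κ F, ?_, ?_, ?_, ?_, ?_⟩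
  · intro i c hci
    by_cases hi : i = κ
    · subst hi
      rw [Function.update_self] at hci
      exact (hFI c hci).1
    · rw [Function.update_of_ne hi] at hci
      exact ha i c hci
  · intro i c hci
    by_cases hi : i = κ
    · subst hi
      rw [Function.update_self] at hci
      exact (hFI c hci).2.trans Set.inter_subset_right
    · rw [Function.update_of_ne hi] at hci
      exact hb i c hci
  · intro x hx i hi hxi
    by_cases hsh : ∃ j, ∃ c ∈ T j, ψ c.1 x < c.2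
    · obtain ⟨j, c, hcj, hlt⟩ := hsh
      have hj : j ≠ κ := by
        rintro rfl
        rw [hTκ] at hcj
        exact absurd hcj (Finset.notMem_empty _)
      exact ⟨j, c, by rw [Function.update_of_ne hj]; exact hcj, hlt⟩
    · have hik : i = κ := by
        by_contra hne
        have : i.val ≠ k := fun h => hne (Fin.ext h)
        exact hsh (hcov x hx i (by omega) hxi)
      subst hik
      have hxK : x ∈ K := by
        refine ⟨hx, hxi, fun j c hcj => ?_⟩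
        by_contra hlt
        exact hsh ⟨j, c, hcj, lt_of_not_ge hlt⟩
      obtain ⟨p, hp, hxp⟩ := Set.mem_iUnion₂.mp (ht hxK)
      refine ⟨κ, p.1, ?_, lt_of_le_of_lt (hd _ _) hxp⟩
      rw [Function.update_self]
      exact Finset.mem_image_of_mem _ hp
  · intro i c hci x hx
    by_cases hi : i = κ
    · subst hi
      rw [Function.update_self] at hci
      refine le_trans (Set.ncard_le_ncard ?_ (Set.toFinite _)) ((hFI c hci).2 hx).1
      rintro j ⟨hj, c', hc', hlt⟩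
      rw [Function.update_of_ne hj.ne] at hc'
      exact ⟨c', hc', hlt.le⟩
    · rw [Function.update_of_ne hi] at hci
      have hik : i.val < k := by
        by_contra hge
        rw [he i (not_lt.mp hge)] at hci
        exact absurd hci (Finset.notMem_empty _)
      refine le_trans (Set.ncard_le_ncard ?_ (Set.toFinite _)) (hcnt i c hci x hx)
      rintro j ⟨hj, c', hc', hlt⟩
      have hjκ : j ≠ κ := by
        rintro rfl
        have : k < i.val := hj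
        omega
      rw [Function.update_of_ne hjκ] at hc'
      exact ⟨hj, c', hc', hlt⟩
  · intro i hi
    have hne : i ≠ κ := by
      rintro rfl
      exact absurd (show k + 1 ≤ k from hi) (by omega)
    rw [Function.update_of_ne hne]
    exact he i (by omega)

theorem greedy {Y : Type} [MetricSpace Y] {s : Set Y} {m : ℕ} (hc : IsCompact s) (hs : Cov s m)
    (ψ : Y → Y → ℝ) (L : ℝ) (hψ : ∀ z x y, ψ z x ≤ ψ z y + L * dist x y)
    (hd : ∀ z x, ψ z x ≤ dist x z) (n : ℕ) (z : Fin n → Y) (δ : Fin n → ℝ) (hδ : ∀ i, 0 < δ i)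
    (hz : ∀ x ∈ s, ∃ i, dist x (z i) ≤ δ i) :
    ∃ T : Fin n → Finset (Y × ℝ), (∀ i, ∀ c ∈ T i, ball c.1 c.2 ⊆ ball (z i) (2 * δ i)) ∧
      (∀ x ∈ s, ∃ i, ∃ c ∈ T i, ψ c.1 x < c.2) ∧
      ∀ i, ∀ c ∈ T i, ∀ x ∈ ball c.1 c.2,
        {j | j < i ∧ ∃ c' ∈ T j, ψ c'.1 x < c'.2}.ncard ≤ m := by
  obtain ⟨Zs, hZc, hZ⟩ := hc.isSeparable
  have : Countable Zs := hZc.to_subtype
  obtain ⟨θ, hθ⟩ := generic hs (Z := Zs) (fun c => ψ c) L (fun c x y => hψ c x y) n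
  have hcont : ∀ c, Continuous (ψ c) := fun c =>
    (LipschitzWith.of_le_add_mul' L (hψ c)).continuous
  have key : ∀ k : ℕ, ∃ T, FGreedy_Inv s Zs m ψ θ z δ k T := by
    intro k
    induction k with
    | zero =>
      refine ⟨fun _ => ∅, ?_, ?_, ?_, ?_, fun _ _ => rfl⟩
      · intro i c hc; exact absurd hc (Finset.notMem_empty _)
      · intro i c hc; exact absurd hc (Finset.notMem_empty _)
      · intro x _ i hi; exact absurd hi (Nat.not_lt_zero _)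
      · intro i c hc; exact absurd hc (Finset.notMem_empty _)
    | succ k ih =>
      obtain ⟨T, hT⟩ := ih
      exact FGreedy_step hc hZ ψ hcont hd θ hθ z δ hδ k T hT
  obtain ⟨T, -, hb, hcov, hcnt, -⟩ := key n
  refine ⟨T, hb, fun x hx => ?_, hcnt⟩
  obtain ⟨i, hi⟩ := hz x hx
  exact hcov x hx i i.2 hi

end Pool.Agent.MP_f7db47_al.GF

end

section

/-!
Long thin boxes, shadows and periodic lines.
-/

namespace Pool.Agent.MP_f7db47_al.GF

variable {Γ : Type} [Group Γ] {Y : Type} [MetricSpace Y] [MulAction Γ Y] (F : Flow Γ Y)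

theorem FBox_move (t : ℝ) (y : Y) : dist (F.Φ t y) y ≤ |t| := by
  have h := F.spd t 0 y
  rwa [F.zero, sub_zero] at h

theorem FBox_cont (y z : Y) : Continuous fun t : ℝ => dist (F.Φ t y) z := by
  have h : LipschitzWith 1 fun t : ℝ => F.Φ t y :=
    LipschitzWith.mk_one fun s t => by simpa [Real.dist_eq] using F.spd s t y
  exact h.continuous.dist continuous_const

theorem FBox_lip {a t : ℝ} (ht : |t| ≤ a) (γ : Γ) (x y : Y) :
    dist (F.Φ t (γ • x)) (F.Φ t (γ • y)) ≤ Real.exp (F.κ * a) * dist x y := by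
  have h := F.lip t (γ • x) (γ • y)
  rw [F.iso] at h
  refine h.trans (mul_le_mul_of_nonneg_right ?_ dist_nonneg)
  exact Real.exp_le_exp.2 (mul_le_mul_of_nonneg_left ht F.hκ)

theorem FBox_min {a : ℝ} (ha : 0 ≤ a) (y z : Y) :
    ∃ t, |t| ≤ a ∧ ∀ s, |s| ≤ a → dist (F.Φ t y) z ≤ dist (F.Φ s y) z := by
  obtain ⟨t, ht, hm⟩ := (isCompact_Icc (a := -a) (b := a)).exists_isMinOn
    ⟨0, by constructor <;> linarith⟩ (FBox_cont F y z).continuousOn
  exact ⟨t, abs_le.2 ht, fun s hs => hm (abs_le.1 hs)⟩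

theorem FBox_fin {ι : Type} (S : Set ι) (hS : S.Finite) (c : ι → ℝ) (hc : ∀ i ∈ S, 0 < c i) :
    ∃ d, 0 < d ∧ ∀ i ∈ S, d ≤ c i := by
  rcases S.eq_empty_or_nonempty with rfl | hne
  · exact ⟨1, one_pos, by simp⟩
  · obtain ⟨i, hi, h⟩ := Set.exists_min_image S c hS hne
    exact ⟨c i, hc i hi, h⟩

theorem Flow.box (z : Y) (a : ℝ) : ∃ δ : ℝ, 0 < δ ∧ ∀ (γ : Γ) (t : ℝ) (x : Y), |t| ≤ a →
    dist x z ≤ δ → dist (F.Φ t (γ • x)) z ≤ δ → γ ∈ F.Per z := by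
  rcases lt_or_ge a 0 with ha | ha
  · exact ⟨1, one_pos, fun γ t x ht => absurd ((abs_nonneg t).trans ht) (not_le.2 ha)⟩
  choose T hT hm using fun γ : Γ => FBox_min F ha (γ • z) z
  obtain ⟨c, hc, hcS⟩ := FBox_fin {γ : Γ | dist (γ • z) z ≤ a + 2 ∧ γ ∉ F.Per z}
    ((F.prp z (a + 2)).subset fun γ h => h.1) (fun γ => dist (F.Φ (T γ) (γ • z)) z) (by
      intro γ hγ
      refine dist_pos.2 fun h => hγ.2 ⟨-T γ, ?_⟩
      have h2 := congrArg (F.Φ (-T γ)) h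
      rwa [← F.add, neg_add_cancel, F.zero] at h2)
  have hE : 0 < Real.exp (F.κ * a) := Real.exp_pos _
  refine ⟨min 1 (c / (2 * (Real.exp (F.κ * a) + 1))), lt_min one_pos (by positivity), ?_⟩
  intro γ t x ht hx hy
  by_contra hγ
  have h1 := min_le_left 1 (c / (2 * (Real.exp (F.κ * a) + 1)))
  have h2 := min_le_right 1 (c / (2 * (Real.exp (F.κ * a) + 1)))
  set δ := min 1 (c / (2 * (Real.exp (F.κ * a) + 1))) with hδ
  have hS : dist (γ • z) z ≤ a + 2 := by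
    have e1 : dist (γ • z) (γ • x) ≤ 1 := by rw [F.iso, dist_comm]; linarith
    have e2 : dist (γ • x) (F.Φ t (γ • x)) ≤ a := by
      rw [dist_comm]; exact (FBox_move F t _).trans ht
    have e3 := dist_triangle4 (γ • z) (γ • x) (F.Φ t (γ • x)) z
    linarith
  have h3 : c ≤ dist (F.Φ t (γ • z)) z := (hcS γ ⟨hS, hγ⟩).trans (hm γ t ht)
  have h4 := FBox_lip F ht γ z x
  have h5 := dist_triangle (F.Φ t (γ • z)) (F.Φ t (γ • x)) z
  have h6 : Real.exp (F.κ * a) * dist z x ≤ Real.exp (F.κ * a) * δ := by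
    rw [dist_comm]; exact mul_le_mul_of_nonneg_left hx hE.le
  rw [le_div_iff₀ (by positivity)] at h2
  nlinarith

theorem FBox_best {a : ℝ} (ha : 0 ≤ a) (z x : Y) : ∃ (γ : Γ) (t : ℝ), |t| ≤ a ∧
    ∀ (γ' : Γ) (s : ℝ), |s| ≤ a → dist (F.Φ t (γ • x)) z ≤ dist (F.Φ s (γ' • x)) z := by
  choose T hT hm using fun γ : Γ => FBox_min F ha (γ • x) z
  have h1 : (1 : Γ) ∈ {γ : Γ | dist (γ • x) x ≤ 2 * dist x z + a} := by
    have : (0 : ℝ) ≤ dist x z := dist_nonneg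
    simp only [Set.mem_ofPred_eq, one_smul, dist_self]
    linarith
  obtain ⟨γ, -, hγ⟩ := Set.exists_min_image _ (fun γ => dist (F.Φ (T γ) (γ • x)) z)
    (F.prp x (2 * dist x z + a)) ⟨1, h1⟩
  refine ⟨γ, T γ, hT γ, fun γ' s hs => ?_⟩
  by_cases h : dist (γ' • x) x ≤ 2 * dist x z + a
  · exact (hγ γ' h).trans (hm γ' s hs)
  · have e1 := hγ 1 h1
    have e2 := hm 1 0 (by simpa using ha)
    rw [F.zero, one_smul] at e2
    have e3 : dist (γ' • x) (F.Φ s (γ' • x)) ≤ a := by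
      rw [dist_comm]; exact (FBox_move F s _).trans hs
    have e4 := dist_triangle4 (γ' • x) (F.Φ s (γ' • x)) z x
    rw [dist_comm z x] at e4
    simp only [one_smul] at e1
    push Not at h
    linarith

theorem Flow.psi (a : ℝ) (ha : 0 ≤ a) : ∃ ψ : Y → Y → ℝ,
    (∀ z x y, ψ z x ≤ ψ z y + Real.exp (F.κ * a) * dist x y) ∧
    (∀ z x (γ : Γ) (t : ℝ), |t| ≤ a → ψ z x ≤ dist (F.Φ t (γ • x)) z) ∧
    ∀ z x, ∃ (γ : Γ) (t : ℝ), |t| ≤ a ∧ ψ z x = dist (F.Φ t (γ • x)) z := by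
  choose G T hT hm using fun z x : Y => FBox_best F ha z x
  refine ⟨fun z x => dist (F.Φ (T z x) (G z x • x)) z, fun z x y => ?_, fun z x => hm z x,
    fun z x => ⟨G z x, T z x, hT z x, rfl⟩⟩
  have h1 := hm z x (G z y) (T z y) (hT z y)
  have h2 := FBox_lip F (hT z y) (G z y) x y
  have h3 := dist_triangle (F.Φ (T z y) (G z y • x)) (F.Φ (T z y) (G z y • y)) z
  linarith

theorem FBox_back {T : ℝ} {z : Y} (h : F.Φ T z = z) : F.Φ (-T) z = z := by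
  have h2 := congrArg (F.Φ (-T)) h
  rw [← F.add, neg_add_cancel, F.zero] at h2
  exact h2.symm

theorem FBox_int {T : ℝ} {z : Y} (h : F.Φ T z = z) (n : ℤ) : F.Φ (n * T) z = z := by
  induction n using Int.induction_on with
  | zero => simpa using F.zero z
  | succ n ih =>
    have e : (((n : ℤ) + 1 : ℤ) : ℝ) * T = ((n : ℤ) : ℝ) * T + T := by push_cast; ring
    rw [e, F.add, h, ih]
  | pred n ih =>
    have e : ((-(n : ℤ) - 1 : ℤ) : ℝ) * T = ((-(n : ℤ) : ℤ) : ℝ) * T + -T := by push_cast; ring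
    rw [e, F.add, FBox_back F h, ih]

theorem FBox_bdd {T : ℝ} (hT : 0 < T) {z : Y} (h : F.Φ T z = z) (t : ℝ) :
    dist (F.Φ t z) z ≤ T := by
  have e : t = Int.fract (t / T) * T + (⌊t / T⌋ : ℝ) * T := by
    rw [← add_mul, Int.fract_add_floor, div_mul_cancel₀ _ hT.ne']
  rw [e, F.add, FBox_int F h]
  refine (FBox_move F _ _).trans ?_
  have h0 := Int.fract_nonneg (t / T)
  have h1 := Int.fract_lt_one (t / T)
  rw [abs_of_nonneg (by positivity)]
  nlinarith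

theorem FBox_fix (z : Y) (g : F.Per z) (h : (g : Γ) • z = z) : IsOfFinOrder g := by
  have h1 : IsOfFinOrder (g : Γ) := by
    refine finite_powers.1 ((F.prp z 0).subset ?_)
    rintro _ ⟨n, rfl⟩
    have : (g : Γ) ^ n • z = z := MulAction.mem_stabilizer_iff.1
      ((MulAction.stabilizer Γ z).pow_mem (MulAction.mem_stabilizer_iff.2 h) n)
    simp [this]
  exact ((F.Per z).subtype_injective.isOfFinOrder_iff).1 h1

theorem Flow.per (z : Y) : ∃ φ : F.Per z →* GN.MZ, ∀ g, φ g = 1 → IsOfFinOrder g := by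
  by_cases hp : ∃ T : ℝ, 0 < T ∧ F.Φ T z = z
  · obtain ⟨T, hT, h⟩ := hp
    have hf : (F.Per z : Set Γ).Finite := by
      refine (F.prp z T).subset ?_
      rintro γ ⟨t, ht⟩
      simp only [Set.mem_ofPred_eq, ht]
      exact FBox_bdd F hT h t
    have : Finite (F.Per z) := hf
    exact ⟨1, fun g _ => isOfFinOrder_of_finite g⟩
  have hinj : ∀ s t : ℝ, F.Φ s z = F.Φ t z → s = t := by
    intro s t h
    have h2 := congrArg (F.Φ (-t)) h
    rw [← F.add, ← F.add, neg_add_cancel, F.zero] at h2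
    by_contra hne
    rcases lt_or_gt_of_ne hne with hl | hl
    · exact hp ⟨-(-t + s), by linarith, FBox_back F h2⟩
    · exact hp ⟨-t + s, by linarith, h2⟩
  choose τ hτ using fun g : F.Per z => (g.2 : ∃ t, (g : Γ) • z = F.Φ t z)
  have hmul : ∀ g h : F.Per z, τ (g * h) = τ g + τ h := by
    intro g h
    apply hinj
    rw [← hτ, Subgroup.coe_mul, mul_smul, hτ h, ← F.smul, hτ g, ← F.add, add_comm]
  have hzero : ∀ g : F.Per z, τ g = 0 → IsOfFinOrder g := fun g hg =>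
    FBox_fix F z g (by rw [hτ g, hg, F.zero])
  have h1 : τ 1 = 0 := by
    have := hmul 1 1
    rw [mul_one] at this
    linarith
  let H : AddSubgroup ℝ :=
    { carrier := Set.range τ
      zero_mem' := ⟨1, h1⟩
      add_mem' := by
        rintro _ _ ⟨g, rfl⟩ ⟨h, rfl⟩
        exact ⟨g * h, hmul g h⟩
      neg_mem' := by
        rintro _ ⟨g, rfl⟩
        refine ⟨g⁻¹, ?_⟩
        have := hmul g g⁻¹
        rw [mul_inv_cancel, h1] at this
        linarith }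
  have hfin : {g : F.Per z | 0 < τ g ∧ τ g ≤ 1}.Finite := by
    refine ((F.prp z 1).preimage (Subtype.val_injective (p := fun γ => γ ∈ F.Per z)).injOn).subset ?_
    rintro g ⟨h0, h2⟩
    simp only [Set.mem_preimage, Set.mem_ofPred_eq, hτ g]
    exact (FBox_move F _ _).trans (by rwa [abs_of_pos h0])
  obtain ⟨d, hd, hdS⟩ := FBox_fin _ hfin τ fun g hg => hg.1
  obtain ⟨b, hb⟩ := AddSubgroup.cyclic_of_isolated_zero (H := H) (lt_min hd one_pos) (by
    rw [Set.disjoint_left]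
    rintro _ ⟨g, rfl⟩ ⟨h0, h2⟩
    have := hdS g ⟨h0, (h2.trans_le (min_le_right _ _)).le⟩
    exact absurd (h2.trans_le (min_le_left _ _)) (not_lt.2 this))
  have hn : ∀ g : F.Per z, ∃ n : ℤ, (n : ℝ) * b = τ g := by
    intro g
    have hg : τ g ∈ H := ⟨g, rfl⟩
    rw [hb, AddSubgroup.mem_closure_singleton] at hg
    simpa [zsmul_eq_mul] using hg
  choose n hn using hn
  by_cases hb0 : b = 0
  · exact ⟨1, fun g _ => hzero g (by rw [← hn g, hb0, mul_zero])⟩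
  refine ⟨MonoidHom.mk' (fun g => Multiplicative.ofAdd (n g)) fun g h => ?_, fun g hg => ?_⟩
  · rw [← ofAdd_add]
    congr 1
    have e : ((n (g * h) : ℤ) : ℝ) * b = ((n g + n h : ℤ) : ℝ) * b := by
      push_cast
      rw [add_mul, hn, hn, hn, hmul]
    exact_mod_cast mul_right_cancel₀ hb0 e
  · have e : n g = 0 := by simpa using hg
    exact hzero g (by rw [← hn g, e]; simp)

theorem Flow.per_smul (z : Y) (γ g : Γ) (h : g ∈ F.Per z) : γ * g * γ⁻¹ ∈ F.Per (γ • z) := by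
  obtain ⟨t, ht⟩ := h
  exact ⟨t, by rw [mul_smul, mul_smul, inv_smul_smul, ht, F.smul]⟩

end Pool.Agent.MP_f7db47_al.GF

end

section

/-!
Long thin covers of flow spaces.
-/

namespace Pool.Agent.MP_f7db47_al.GF

variable {Γ : Type} [Group Γ] {Y : Type} [MetricSpace Y] [MulAction Γ Y] (F : Flow Γ Y)

theorem FCover_shift (g h : Γ) (t t' : ℝ) (y : Y) :
    F.Φ (t' - t) ((h * g⁻¹) • F.Φ t (g • y)) = F.Φ t' (h • y) := by
  rw [← F.smul, ← F.add, sub_add_cancel, ← mul_smul, inv_mul_cancel_right]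

theorem FCover_cont (g : Γ) (t : ℝ) : Continuous fun y : Y => F.Φ t (g • y) := by
  refine (LipschitzWith.of_dist_le_mul (K := ⟨Real.exp (F.κ * |t|), (Real.exp_pos _).le⟩)
    fun y y' => ?_).continuous
  have h := F.lip t (g • y) (g • y')
  rw [F.iso] at h
  exact h

theorem Flow.cover (y₀ : Y) (ρ α : ℝ) : ∃ δ : ℝ, 0 < δ ∧ ∃ (n : ℕ) (U : Fin n → Set Y)
    (z : Fin n → Y), (∀ i, ∀ γ ∈ F.Per (z i), ∀ y ∈ U i, γ • y ∈ U i) ∧
    (∀ i (γ : Γ), ∀ y ∈ U i, γ • y ∈ U i → γ ∈ F.Per (z i)) ∧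
    (∀ y, {i | ∃ γ : Γ, γ • y ∈ U i}.ncard ≤ 4 * (F.m + 1)) ∧
    ∀ y, dist y y₀ ≤ ρ → ∃ i, ∃ γ : Γ, ∀ s y', |s| ≤ α → dist (F.Φ s y) y' ≤ δ →
      γ • y' ∈ U i := by
  classical
  obtain ⟨a, ha1, haα⟩ : ∃ a : ℝ, 1 ≤ a ∧ α ≤ a := ⟨max α 1, le_max_right _ _, le_max_left _ _⟩
  have ha : 0 ≤ a := by linarith
  choose δz hδz hbox using fun z => F.box z (4 * a)
  have hc := F.cpt y₀ ρ
  obtain ⟨t, -, ht⟩ := hc.elim_nhds_subcover (fun z => Metric.ball z (δz z / 2))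
    fun x _ => Metric.ball_mem_nhds x (half_pos (hδz x))
  obtain ⟨ψ, hψ1, hψ2, hψ3⟩ := F.psi a ha
  let z : Fin t.card → Y := fun i => (t.equivFin.symm i).1
  have hd : ∀ w x, ψ w x ≤ dist x w := fun w x => by
    have h := hψ2 w x 1 0 (by simpa using ha)
    rwa [one_smul, F.zero] at h
  have hz : ∀ x ∈ Metric.closedBall y₀ ρ, ∃ i, dist x (z i) ≤ δz (z i) / 2 := fun x hx => by
    have h := ht hx
    simp only [Set.mem_iUnion] at h
    obtain ⟨w, hw, hx⟩ := h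
    refine ⟨t.equivFin ⟨w, hw⟩, ?_⟩
    simp only [z, Equiv.symm_apply_apply]
    exact (Metric.mem_ball.1 hx).le
  obtain ⟨T, hT1, hT2, hT3⟩ := greedy hc (F.cov y₀ ρ) ψ _ hψ1 hd t.card z
    (fun i => δz (z i) / 2) (fun i => half_pos (hδz _)) hz
  let A : Fin t.card → Set Y := fun i => {x | ∃ c ∈ T i, x ∈ Metric.ball c.1 c.2}
  have hAo : ∀ i, IsOpen (A i) := fun i => by
    have : A i = ⋃ c ∈ T i, Metric.ball c.1 c.2 := by
      ext x
      simp only [A, Set.mem_setOf_eq, Set.mem_iUnion, exists_prop]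
    rw [this]
    exact isOpen_biUnion fun _ _ => Metric.isOpen_ball
  have hAz : ∀ i, ∀ x ∈ A i, dist x (z i) ≤ δz (z i) := fun i x hx => by
    obtain ⟨c, hc, hx⟩ := hx
    have h := Metric.mem_ball.1 (hT1 i c hc hx)
    linarith
  let V : Fin t.card × Γ × {r : ℝ // |r| ≤ a} → Set Y :=
    fun p => {y | F.Φ p.2.2.1 (p.2.1 • y) ∈ A p.1}
  have hVo : ∀ p, IsOpen (V p) := fun p => (hAo p.1).preimage (FCover_cont F p.2.1 p.2.2.1)
  have hVc : Metric.closedBall y₀ ρ ⊆ ⋃ p, V p := fun x hx => by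
    obtain ⟨i, c, hc, h⟩ := hT2 x hx
    obtain ⟨γ, r, hr, e⟩ := hψ3 c.1 x
    refine Set.mem_iUnion.2 ⟨(i, γ, ⟨r, hr⟩), c, hc, ?_⟩
    rw [e] at h
    exact Metric.mem_ball.2 h
  obtain ⟨d, hd0, hdV⟩ := lebesgue_number_lemma_of_metric hc hVo hVc
  refine ⟨d * Real.exp (-(F.κ * a)) / 2, by positivity, t.card,
    fun i => {y | ∃ γ ∈ F.Per (z i), ∃ r : ℝ, |r| ≤ 2 * a ∧ F.Φ r (γ • y) ∈ A i}, z,
    ?_, ?_, ?_, ?_⟩
  · rintro i γ hγ y ⟨g, hg, r, hr, hy⟩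
    refine ⟨g * γ⁻¹, mul_mem hg (inv_mem hγ), r, hr, ?_⟩
    rwa [← mul_smul, inv_mul_cancel_right]
  · rintro i γ y ⟨g, hg, r, hr, hy⟩ ⟨g', hg', r', hr', hy'⟩
    rw [← mul_smul, ← FCover_shift F g (g' * γ) r r' y] at hy'
    have hrr : |r' - r| ≤ 4 * a := by
      rw [abs_le] at hr hr' ⊢
      constructor <;> linarith [hr.1, hr.2, hr'.1, hr'.2]
    have h := hbox (z i) _ _ _ hrr (hAz i _ hy) (hAz i _ hy')
    have e : γ = g'⁻¹ * (g' * γ * g⁻¹) * g := by group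
    rw [e]
    exact mul_mem (mul_mem (inv_mem hg') h) hg
  · intro y
    let S : ℝ → Set (Fin t.card) :=
      fun l => {i | ∃ (γ : Γ) (r : ℝ), l ≤ r ∧ r ≤ l + a ∧ F.Φ r (γ • y) ∈ A i}
    have hS : ∀ l, (S l).ncard ≤ F.m + 1 := fun l => by
      rcases (S l).eq_empty_or_nonempty with h | h
      · rw [h, Set.ncard_empty]
        exact Nat.zero_le _
      obtain ⟨i, ⟨γ, r, hr1, hr2, c, hc, hx⟩, hi⟩ :=
        Set.exists_max_image (S l) id (Set.toFinite _) h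
      have h3 := hT3 i c hc _ hx
      refine le_trans (Set.ncard_le_ncard (t := insert i
        {j | j < i ∧ ∃ c' ∈ T j, ψ c'.1 (F.Φ r (γ • y)) < c'.2}) ?_ (Set.toFinite _)) ?_
      · intro j hj
        rcases (hi j hj).eq_or_lt with e | e
        · exact Or.inl e
        obtain ⟨γ', r', hr1', hr2', c', hc', hx'⟩ := hj
        refine Or.inr ⟨e, c', hc', ?_⟩
        have hrr : |r' - r| ≤ a := by
          rw [abs_le]
          constructor <;> linarith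
        have h4 := hψ2 c'.1 (F.Φ r (γ • y)) (γ' * γ⁻¹) (r' - r) hrr
        rw [FCover_shift] at h4
        exact h4.trans_lt (Metric.mem_ball.1 hx')
      · exact (Set.ncard_insert_le _ _).trans (Nat.add_le_add_right h3 1)
    refine le_trans (Set.ncard_le_ncard
      (t := (S (-2 * a) ∪ S (-a)) ∪ (S 0 ∪ S a)) ?_ (Set.toFinite _)) ?_
    · rintro i ⟨γ, g, -, r, hr, hy⟩
      rw [← mul_smul] at hy
      rw [abs_le] at hr
      by_cases h1 : r ≤ -a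
      · exact Or.inl (Or.inl ⟨_, r, by linarith [hr.1], by linarith, hy⟩)
      by_cases h2 : r ≤ 0
      · exact Or.inl (Or.inr ⟨_, r, by linarith, by linarith, hy⟩)
      by_cases h3 : r ≤ a
      · exact Or.inr (Or.inl ⟨_, r, by linarith, by linarith, hy⟩)
      · exact Or.inr (Or.inr ⟨_, r, by linarith, by linarith [hr.2], hy⟩)
    · have h1 := Set.ncard_union_le (S (-2 * a) ∪ S (-a)) (S 0 ∪ S a)
      have h2 := Set.ncard_union_le (S (-2 * a)) (S (-a))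
      have h3 := Set.ncard_union_le (S 0) (S a)
      have h4 := hS (-2 * a)
      have h5 := hS (-a)
      have h6 := hS 0
      have h7 := hS a
      omega
  · intro y hy
    obtain ⟨⟨i, γ, r, hr⟩, hp⟩ := hdV y (Metric.mem_closedBall.2 hy)
    refine ⟨i, γ, fun s y' hs hy' => ⟨1, one_mem _, r - s, ?_, ?_⟩⟩
    · rw [abs_le] at hr hs ⊢
      constructor <;> linarith [hr.1, hr.2, hs.1, hs.2]
    · have h1 := F.lip (-s) y' (F.Φ s y)
      rw [← F.add, neg_add_cancel, F.zero, abs_neg, dist_comm y'] at h1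
      have h2 : Real.exp (F.κ * |s|) ≤ Real.exp (F.κ * a) :=
        Real.exp_le_exp.2 (mul_le_mul_of_nonneg_left (hs.trans haα) F.hκ)
      have h3 : Real.exp (F.κ * |s|) * dist (F.Φ s y) y' ≤
          Real.exp (F.κ * a) * (d * Real.exp (-(F.κ * a)) / 2) :=
        mul_le_mul h2 hy' dist_nonneg (Real.exp_pos _).le
      have h4 : Real.exp (F.κ * a) * (d * Real.exp (-(F.κ * a)) / 2) = d / 2 := by
        rw [Real.exp_neg]
        field_simp
      have h5 : F.Φ (-s) y' ∈ Metric.ball y d := Metric.mem_ball.2 (by linarith)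
      have h6 : F.Φ r (γ • F.Φ (-s) y') ∈ A i := hp h5
      rw [one_smul, sub_eq_add_neg, F.add, F.smul]
      exact h6

end Pool.Agent.MP_f7db47_al.GF

end

section

/-!
Spiders from long thin covers.
-/

namespace Pool.Agent.MP_f7db47_al.GF

open GN

variable {Γ : Type} [Group Γ] {Y : Type} [MetricSpace Y] [MulAction Γ Y] (F : Flow Γ Y)

theorem FSpi_exp {b s : ℝ} (j : ℕ) (h : |s| ≤ j * b) :
    Real.exp (F.κ * |s|) ≤ Real.exp (F.κ * b) ^ j := by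
  rw [← Real.exp_nat_mul]
  exact Real.exp_le_exp.2 (by nlinarith [F.hκ])

theorem FSpi_one {b : ℝ} (hb : 0 ≤ b) : 1 ≤ Real.exp (F.κ * b) :=
  Real.one_le_exp (mul_nonneg F.hκ hb)

theorem FSpi_both {β ε : ℝ} {x y : Y} (h : F.Mv β ε x y) :
    F.Mv |β| (ε * Real.exp (F.κ * |β|)) x y ∧ F.Mv |β| (ε * Real.exp (F.κ * |β|)) y x := by
  obtain ⟨s, h1, h2⟩ := h
  have h3 := h1.trans (le_abs_self β)
  have h4 : 0 ≤ ε := dist_nonneg.trans h2
  refine ⟨⟨s, h3, h2.trans (le_mul_of_one_le_right h4 (FSpi_one F (abs_nonneg β)))⟩,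
    -s, by rwa [abs_neg], ?_⟩
  have h5 := F.lip (-s) y (F.Φ s x)
  rw [← F.add, neg_add_cancel, F.zero, dist_comm y, mul_comm] at h5
  refine h5.trans (mul_le_mul h2 ?_ (Real.exp_pos _).le h4)
  simpa using FSpi_exp F 1 (s := -s) (b := |β|) (by simpa using h3)

/-- Closeness after `j` steps. -/
def FSpi_Cl (b ε : ℝ) (j : ℕ) (x y : Y) : Prop :=
  F.Mv (j * b) (j * (ε * Real.exp (F.κ * b) ^ j)) x y

theorem FSpi_refl {b ε : ℝ} (hb : 0 ≤ b) (hε : 0 ≤ ε) (j : ℕ) (y : Y) : FSpi_Cl F b ε j y y :=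
  ⟨0, by rw [abs_zero]; positivity, by rw [F.zero, dist_self]; positivity⟩

theorem FSpi_smul {b ε : ℝ} {j : ℕ} {x y : Y} (γ : Γ) (h : FSpi_Cl F b ε j x y) :
    FSpi_Cl F b ε j (γ • x) (γ • y) := by
  obtain ⟨s, h1, h2⟩ := h
  exact ⟨s, h1, by rwa [F.smul, F.iso]⟩

theorem FSpi_step {b ε : ℝ} (hb : 0 ≤ b) (hε : 0 ≤ ε) {j : ℕ} {y x w : Y}
    (h : F.Mv b (ε * Real.exp (F.κ * b)) y x) (h' : FSpi_Cl F b ε j x w) :
    FSpi_Cl F b ε (j + 1) y w := by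
  obtain ⟨s, h1, h2⟩ := h
  obtain ⟨t, h3, h4⟩ := h'
  refine ⟨t + s, (abs_add_le t s).trans (by push_cast; linarith), ?_⟩
  have h5 := (F.lip t (F.Φ s y) x).trans
    (mul_le_mul (FSpi_exp F j h3) h2 dist_nonneg (by positivity))
  have h6 : ε * Real.exp (F.κ * b) ^ j ≤ ε * Real.exp (F.κ * b) ^ (j + 1) :=
    mul_le_mul_of_nonneg_left (pow_le_pow_right₀ (FSpi_one F hb) j.le_succ) hε
  have h7 := mul_le_mul_of_nonneg_left h6 (Nat.cast_nonneg j)
  have h8 := dist_triangle (F.Φ t (F.Φ s y)) (F.Φ t x) w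
  rw [F.add]
  push_cast
  rw [pow_succ] at h7 ⊢
  linarith

/-- The neighbourhood of depth `j` lies in a translate of `U`. -/
def FSpi_P (U : Set Y) (b ε : ℝ) (y : Y) (j : ℕ) : Prop :=
  ∃ γ : Γ, ∀ w, FSpi_Cl F b ε j y w → γ • w ∈ U

theorem FSpi_inv {U : Set Y} {b ε : ℝ} {y : Y} {j : ℕ} (γ : Γ) (h : FSpi_P F U b ε (γ • y) j) :
    FSpi_P F U b ε y j := by
  obtain ⟨g, hg⟩ := h
  exact ⟨g * γ, fun w hw => by rw [mul_smul]; exact hg _ (FSpi_smul F γ hw)⟩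

open Classical in
/-- The spider of a set of the cover. -/
noncomputable def FSpi_S (U : Set Y) (H : Subgroup Γ) (h1 : ∀ γ ∈ H, ∀ y ∈ U, γ • y ∈ U)
    (h2 : ∀ γ : Γ, ∀ y ∈ U, γ • y ∈ U → γ ∈ H) (b ε : ℝ) (r : ℕ) : Spi Γ Y where
  ht y := Nat.findGreatest (FSpi_P F U b ε y) r
  leg :=
    { r := fun y g y' => (∃ γ : Γ, γ • y ∈ U ∧ (γ * g) • y' ∈ U) ∨ (g = 1 ∧ y = y')
      refl := fun _ => Or.inr ⟨rfl, rfl⟩
      symm := by
        rintro y g y' (⟨γ, a1, a2⟩ | ⟨rfl, rfl⟩)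
        · exact Or.inl ⟨γ * g, a2, by rwa [mul_inv_cancel_right]⟩
        · exact Or.inr ⟨inv_one, rfl⟩
      trans := by
        rintro y g y' g' y'' (⟨γ, a1, a2⟩ | ⟨rfl, rfl⟩) h
        · rcases h with ⟨γ', b1, b2⟩ | ⟨rfl, rfl⟩
          · have h3 := h1 _ (h2 (γ * g * γ'⁻¹) _ b1
              (by rwa [← mul_smul, inv_mul_cancel_right])) _ b2
            rw [← mul_smul] at h3
            exact Or.inl ⟨γ, a1, by simpa [mul_assoc] using h3⟩
          · exact Or.inl ⟨γ, a1, by rwa [mul_one]⟩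
        · rwa [one_mul] }

section
variable {U : Set Y} {H : Subgroup Γ} {h1 : ∀ γ ∈ H, ∀ y ∈ U, γ • y ∈ U}
  {h2 : ∀ γ : Γ, ∀ y ∈ U, γ • y ∈ U → γ ∈ H} {b ε : ℝ} {r : ℕ}

open Classical in
theorem FSpi_le {y : Y} {j : ℕ} (hj : j ≤ r) (h : FSpi_P F U b ε y j) :
    j ≤ (FSpi_S F U H h1 h2 b ε r).ht y := Nat.le_findGreatest hj h

open Classical in
theorem FSpi_spec {y : Y} {j : ℕ} (h : (FSpi_S F U H h1 h2 b ε r).ht y = j + 1) :
    j + 1 ≤ r ∧ FSpi_P F U b ε y (j + 1) :=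
  ⟨h ▸ Nat.findGreatest_le r, Nat.findGreatest_of_ne_zero h j.succ_ne_zero⟩

theorem FSpi_mem (hb : 0 ≤ b) (hε : 0 ≤ ε) {y : Y} (h : 0 < (FSpi_S F U H h1 h2 b ε r).ht y) :
    ∃ γ : Γ, γ • y ∈ U := by
  obtain ⟨j, hj⟩ := Nat.exists_eq_succ_of_ne_zero h.ne'
  obtain ⟨γ, hγ⟩ := (FSpi_spec F hj).2
  exact ⟨γ, hγ y (FSpi_refl F hb hε _ y)⟩

theorem FSpi_half (hb : 0 ≤ b) (hε : 0 ≤ ε) {y y' : Y} {g g' : Γ}
    (h : F.Mv b (ε * Real.exp (F.κ * b)) (g • y) (g' • y')) :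
    (FSpi_S F U H h1 h2 b ε r).ht y ≤ (FSpi_S F U H h1 h2 b ε r).ht y' + 1 ∧
      (0 < (FSpi_S F U H h1 h2 b ε r).ht y → ∃ γ : Γ, γ • g • y ∈ U ∧ γ • g' • y' ∈ U) := by
  rcases hj : (FSpi_S F U H h1 h2 b ε r).ht y with _ | j
  · exact ⟨Nat.zero_le _, fun h => absurd h (lt_irrefl 0)⟩
  obtain ⟨h3, h4⟩ := FSpi_spec F hj
  obtain ⟨γ, hγ⟩ := FSpi_inv F (y := g • y) g⁻¹ (by rwa [inv_smul_smul])
  exact ⟨Nat.succ_le_succ (FSpi_le F (by omega) (FSpi_inv F g'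
    ⟨γ, fun w hw => hγ w (FSpi_step F hb hε h hw)⟩)), fun _ => ⟨γ, hγ _ (FSpi_refl F hb hε _ _),
      hγ _ (FSpi_step F hb hε h (FSpi_refl F hb hε _ _))⟩⟩

end

theorem Flow.spiders (y₀ : Y) (ρ β : ℝ) (r : ℕ) : ∃ ε : ℝ, 0 < ε ∧ ∃ (n : ℕ)
    (S : Fin n → Spi Γ Y), (∀ y, {i | 0 < (S i).ht y}.ncard ≤ 4 * (F.m + 1)) ∧
    (∀ i y (γ : Γ) y', F.Mv β ε y (γ • y') → (S i).rel 1 y γ y') ∧
    (∀ i y, 0 < (S i).ht y → ∃ z, (S i).leg.grp y ≤ F.Per z) ∧
    ∀ y (γ : Γ), dist (γ • y) y₀ ≤ ρ → ∃ i, r ≤ (S i).ht y := by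
  obtain ⟨δ, hδ, n, U, z, h1, h2, h3, h4⟩ := F.cover y₀ ρ (r * |β|)
  have hb := abs_nonneg β
  obtain ⟨ε, hε, e⟩ : ∃ ε : ℝ, 0 < ε ∧ ε * Real.exp (F.κ * |β|) ^ r = δ / (r + 1) :=
    ⟨δ / ((r + 1) * Real.exp (F.κ * |β|) ^ r), by positivity, by field_simp⟩
  refine ⟨ε, hε, n, fun i => FSpi_S F (U i) (F.Per (z i)) (h1 i) (h2 i) |β| ε r, fun y => ?_,
    fun i y γ y' h => ?_, fun i y h => ?_, fun y γ h => ?_⟩
  · exact (Set.ncard_le_ncard (fun i hi => FSpi_mem F hb hε.le hi) (Set.toFinite _)).trans (h3 y)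
  · obtain ⟨a1, a2⟩ := FSpi_both F h
    rw [← one_smul Γ y] at a1 a2
    have b1 := FSpi_half F (h1 := h1 i) (h2 := h2 i) (r := r) hb hε.le a1
    have b2 := FSpi_half F (h1 := h1 i) (h2 := h2 i) (r := r) hb hε.le a2
    refine ⟨b1.1, b2.1, fun hn => ?_⟩
    by_contra hc
    beta_reduce at hc
    refine hn (Or.inl ?_)
    rcases Nat.eq_zero_or_pos ((FSpi_S F (U i) (F.Per (z i)) (h1 i) (h2 i) |β| ε r).ht y)
      with h0 | h0
    · obtain ⟨g, c1, c2⟩ := b2.2 (by omega)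
      exact ⟨g, by rwa [one_smul] at c2, by rwa [mul_smul]⟩
    · obtain ⟨g, c1, c2⟩ := b1.2 h0
      exact ⟨g, by rwa [one_smul] at c1, by rwa [mul_smul]⟩
  · obtain ⟨γ₀, h0⟩ := FSpi_mem F hb hε.le h
    refine ⟨γ₀⁻¹ • z i, ?_⟩
    rintro g (⟨γ, a1, a2⟩ | ⟨rfl, -⟩)
    · have b1 := h2 i (γ * γ₀⁻¹) _ h0 (by rwa [← mul_smul, inv_mul_cancel_right])
      have b2 := h2 i (γ * g * γ₀⁻¹) _ h0 (by rwa [← mul_smul, inv_mul_cancel_right])
      obtain ⟨t, ht⟩ := mul_mem (inv_mem b1) b2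
      refine ⟨t, ?_⟩
      rw [F.smul, ← ht, ← mul_smul, ← mul_smul]
      congr 1
      group
    · exact one_mem _
  · obtain ⟨i, g, hg⟩ := h4 _ h
    refine ⟨i, FSpi_le F le_rfl (FSpi_inv F γ ⟨g, ?_⟩)⟩
    rintro w ⟨s, a1, a2⟩
    refine hg s w a1 (a2.trans ?_)
    rw [e, mul_div_assoc', div_le_iff₀ (by positivity)]
    linarith

end Pool.Agent.MP_f7db47_al.GF

end
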