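import Pool.Agent.Mg.Ff7db47.G7b930a
import Pool.Agent.Mg.Ff7db47.Gff0e1c
import Pool.Agent.Mg.Ff7db47.Gbd4f41
import Pool.Agent.Mg.Ff7db47.G870f0c

section

/-!
Reduction to virtually cyclic subgroups: definitions.
-/

namespace Pool.Agent.MP_f7db47_al.VC

open GN GF Matrix

universe w

/-- Finite-by-cyclic groups. -/
def IsVC (B : Type) [Group B] : Prop := ∃ φ : B →* MZ, Finite φ.ker

/-- A `G`-set that is controlled over spiders. -/
def Ctrl {G : Type} [Group G] (P : Subgroup G → Prop) (N r : ℕ) (S₀ : Finset G) {X : Type}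
    (σ : G →* Equiv.Perm X) : Prop :=
  ∃ (ι : Type) (_ : Finite ι) (S : ι → Spi G X), (∀ x, {i | 0 < (S i).ht x}.ncard ≤ N) ∧
    (∀ i x, 0 < (S i).ht x → P ((S i).leg.grp x)) ∧ (∀ x, ∃ i, r ≤ (S i).ht x) ∧
    ∀ g ∈ S₀, ∀ x i, (S i).rel 1 (σ g x) g x

/-- The data for the method of Farrell and Hsiang. -/
def FHD {G : Type} [Group G] (P : Subgroup G → Prop) (N r : ℕ) (S₀ : Finset G) (π : ℕ) : Prop :=
  ∃ (s : ℕ) (X₀ : Type) (_ : Finite X₀) (σ₀ : G →* Equiv.Perm X₀) (X : Fin s → Type)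
    (_ : ∀ i, Finite (X i)) (σ : ∀ i, G →* Equiv.Perm (X i)), Ctrl P N r S₀ σ₀ ∧
    (∀ i, Ctrl P N r S₀ (σ i)) ∧ (∀ i, ¬ π ∣ Nat.card (X i)) ∧
    ∀ g, (∃! x, σ₀ g x = x) ∨ ∃ i, σ i g = 1

/-- A property of groups over `G₀` that behaves like the vanishing of obstruction groups. -/
structure Thy (G₀ : Type) [Group G₀] where
  Q : ∀ (G : Type) [Group G], (G →* G₀) → Prop
  sub : ∀ {G H : Type} [Group G] [Group H] {i : H →* G₀} (f : G →* H), Function.Injective f →
    Q H i → Q G (i.comp f)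
  loc : ∀ {G : Type} [Group G] {i : G →* G₀},
    (∀ K : Subgroup G, K.FG → Q K (i.comp K.subtype)) → Q G i
  flow : ∀ {Γ G : Type} [Group Γ] [Group G] {i : G →* G₀} {Fam : Set (Subgroup Γ)},
    HasPack Γ Fam → ∀ f : G →* Γ, (∀ (B : Subgroup Γ) (φ : B →* MZ),
      (∀ g, φ g = 1 → IsOfFinOrder g) → Q (B.comap f) (i.comp (B.comap f).subtype)) →
    (∀ B ∈ Fam, Q (B.comap f) (i.comp (B.comap f).subtype)) → Q G i
  ext : ∀ {G : Type} [Group G] {i : G →* G₀} (ψ : G →* MZ) (ι : Type) (K : ι → Subgroup G)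
    (r : ι → ι → Prop), WellFounded r → (∀ j, K j ≤ ψ.ker) →
    (∀ M : Subgroup G, M.FG → M ≤ ψ.ker → ∃ j, M ≤ K j) → Q ψ.ker (i.comp ψ.ker.subtype) →
    (∀ j x, x ∉ ψ.ker →
      Q ↥(K j ⊔ Subgroup.zpowers x) (i.comp (K j ⊔ Subgroup.zpowers x).subtype) ∨
        Drops K r j x ∨ Drops K r j x⁻¹) → Q G i
  fh : Q PUnit.{1} 1 → ∀ N : ℕ, ∃ r : ℕ, ∀ (G : Type) [Group G] (i : G →* G₀),
    (∀ (S₀ : Finset G) (π : ℕ), π.Prime →
      FHD (fun K => Q K (i.comp K.subtype)) N r S₀ π) → Q G i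
  gl : ∀ {G A : Type} [Group G] [CommRing A] {i : G →* G₀} {n : ℕ} (f : G →* GL (Fin n) A),
    (∀ (H : Subgroup G) (φ : H →* MZ), (∀ g : H, φ g = 1 → QU (f g).val) →
      Q H (i.comp H.subtype)) → Q G i

/-- The fibred reduction to finite-by-cyclic subgroups holds for `Γ`. -/
def FJ (Γ : Type) [Group Γ] : Prop :=
  ∀ (G₀ : Type) [Group G₀] (T : Thy G₀) (G : Type) [Group G] (i : G →* G₀) (f : G →* Γ),
    (∀ B : Subgroup Γ, IsVC B → T.Q (B.comap f) (i.comp (B.comap f).subtype)) → T.Q G i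

/-- An additive invariant of integral representations. -/
structure Swan (G : Type) [Group G] (W : Type w) [AddCommGroup W] where
  κ : ∀ {m : Type} [Fintype m] [DecidableEq m], (G →* Matrix m m ℤ) → W
  conj : ∀ {m m' : Type} [Fintype m] [DecidableEq m] [Fintype m'] [DecidableEq m']
    (a : G →* Matrix m m ℤ) (b : G →* Matrix m' m' ℤ) (S : Matrix m' m ℤ) (S' : Matrix m m' ℤ),
    S * S' = 1 → S' * S = 1 → (∀ g, S * a g = b g * S) → κ a = κ b
  block : ∀ {m m' : Type} [Fintype m] [DecidableEq m] [Fintype m'] [DecidableEq m']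
    (c : G →* Matrix (m ⊕ m') (m ⊕ m') ℤ) (a : G →* Matrix m m ℤ) (d : G →* Matrix m' m' ℤ)
    (b : G → Matrix m m' ℤ), (∀ g, c g = fromBlocks (a g) (b g) 0 (d g)) → κ c = κ a + κ d

/-- An additive invariant of lattices. -/
structure SwanM (k : Type) [CommRing k] (G : Type) [Group G] (W : Type w) [AddCommGroup W] where
  κ : ∀ {M : Type} [AddCommGroup M] [Module k M] [Module.Free k M] [Module.Finite k M],
    Representation k G M → W
  ses : ∀ {M₁ M₂ M₃ : Type} [AddCommGroup M₁] [Module k M₁] [Module.Free k M₁]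
    [Module.Finite k M₁] [AddCommGroup M₂] [Module k M₂] [Module.Free k M₂] [Module.Finite k M₂]
    [AddCommGroup M₃] [Module k M₃] [Module.Free k M₃] [Module.Finite k M₃]
    (ρ₁ : Representation k G M₁) (ρ₂ : Representation k G M₂) (ρ₃ : Representation k G M₃)
    (f : M₁ →ₗ[k] M₂) (p : M₂ →ₗ[k] M₃), (∀ g x, f (ρ₁ g x) = ρ₂ g (f x)) →
    (∀ g x, p (ρ₂ g x) = ρ₃ g (p x)) → Function.Injective f → Function.Surjective p →
    Function.Exact f p → κ ρ₂ = κ ρ₁ + κ ρ₃

/-- Permutation matrices. -/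
def permRep {G X : Type} [Group G] [Fintype X] [DecidableEq X] (σ : G →* Equiv.Perm X) :
    G →* Matrix X X ℤ where
  toFun g := fun x y => if σ g y = x then 1 else 0
  map_one' := by
    ext x y
    simp [Matrix.one_apply, eq_comm]
  map_mul' g h := by
    ext x y
    simp [Matrix.mul_apply]

/-- The lattice given by a matrix representation. -/
noncomputable def matRep {G m : Type} [Group G] [Fintype m] [DecidableEq m]
    (a : G →* Matrix m m ℤ) : Representation ℤ G (m → ℤ) :=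
  (Matrix.toLinAlgEquiv' (R := ℤ) (n := m)).toMonoidHom.comp a

/-- The diagonal action on a product. -/
def permProd {G X Y : Type} [Group G] (σ : G →* Equiv.Perm X) (τ : G →* Equiv.Perm Y) :
    G →* Equiv.Perm (X × Y) where
  toFun g := Equiv.prodCongr (σ g) (τ g)
  map_one' := by
    ext x <;> simp
  map_mul' g h := by
    ext x <;> simp

/-- A flow with a weaker Lipschitz condition. -/
structure WFlow (Γ : Type) [Group Γ] (Y : Type) [MetricSpace Y] [MulAction Γ Y] where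
  Φ : ℝ → Y → Y
  κ : ℝ
  A : ℝ
  m : ℕ
  hκ : 0 ≤ κ
  zero : ∀ y, Φ 0 y = y
  add : ∀ s t y, Φ (s + t) y = Φ s (Φ t y)
  smul : ∀ (γ : Γ) s y, Φ s (γ • y) = γ • Φ s y
  iso : ∀ (γ : Γ) (y y' : Y), dist (γ • y) (γ • y') = dist y y'
  lip : ∀ s y y', dist (Φ s y) (Φ s y') ≤ A * Real.exp (κ * |s|) * dist y y'
  spd : ∀ s t y, dist (Φ s y) (Φ t y) ≤ |s - t|
  prp : ∀ (y : Y) (r : ℝ), {γ : Γ | dist (γ • y) y ≤ r}.Finite
  cpt : ∀ (y : Y) (r : ℝ), IsCompact (Metric.closedBall y r)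
  cov : ∀ (y : Y) (r : ℝ), Cov (Metric.closedBall y r) m

/-- The value of a homomorphism to `ℤ`, as a real number. -/
def dg {Γ : Type} [Group Γ] (ψ : Γ →* MZ) (g : Γ) : ℝ := (((ψ g).toAdd : ℤ) : ℝ)

/-- Affine groups over a subring of `ℚ`. -/
@[ext] structure Aff {V ι : Type} [Group V] [Fintype ι] [DecidableEq ι] {Z : Subring ℚ}
    (L : V →* GLZ Z ι) where
  a : ι → ℚ
  mem : ∀ i, a i ∈ Z
  g : V

namespace Aff

variable {V ι : Type} [Group V] [Fintype ι] [DecidableEq ι] {Z : Subring ℚ} {L : V →* GLZ Z ι}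

theorem mulVec_mem (g : V) {a : ι → ℚ} (ha : ∀ i, a i ∈ Z) (i : ι) :
    ((L g).1.val *ᵥ a) i ∈ Z :=
  Z.sum_mem fun j _ => Z.mul_mem ((L g).2.1 i j) (ha j)

theorem mulVec_mul (g h : V) (a : ι → ℚ) :
    (L (g * h)).1.val *ᵥ a = (L g).1.val *ᵥ ((L h).1.val *ᵥ a) := by
  rw [map_mul, mulVec_mulVec]
  rfl

theorem mulVec_one (a : ι → ℚ) : (L 1).1.val *ᵥ a = a := by
  rw [map_one]
  exact Matrix.one_mulVec a

instance : Mul (Aff L) :=
  ⟨fun x y => ⟨x.a + (L x.g).1.val *ᵥ y.a,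
    fun i => Z.add_mem (x.mem i) (mulVec_mem x.g y.mem i), x.g * y.g⟩⟩

instance : One (Aff L) := ⟨⟨0, fun _ => Z.zero_mem, 1⟩⟩

instance : Inv (Aff L) :=
  ⟨fun x => ⟨-((L x.g⁻¹).1.val *ᵥ x.a), fun i => Z.neg_mem (mulVec_mem x.g⁻¹ x.mem i), x.g⁻¹⟩⟩

theorem mul_a (x y : Aff L) : (x * y).a = x.a + (L x.g).1.val *ᵥ y.a := rfl

theorem mul_g (x y : Aff L) : (x * y).g = x.g * y.g := rfl

theorem one_a : (1 : Aff L).a = 0 := rfl

theorem one_g : (1 : Aff L).g = 1 := rfl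

theorem inv_a (x : Aff L) : (x⁻¹).a = -((L x.g⁻¹).1.val *ᵥ x.a) := rfl

theorem inv_g (x : Aff L) : (x⁻¹).g = x.g⁻¹ := rfl

instance : Group (Aff L) :=
  Group.ofLeftAxioms
    (fun x y z => Aff.ext (by simp only [mul_a, mul_g, mulVec_mul, mulVec_add, add_assoc])
      (mul_assoc _ _ _))
    (fun x => Aff.ext (by rw [mul_a, one_a, one_g, mulVec_one, zero_add]) (one_mul _))
    fun x => Aff.ext (by rw [mul_a, inv_a, inv_g, one_a, neg_add_cancel]) (inv_mul_cancel _)

variable (L) in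
/-- The linear part. -/
def lin : Aff L →* V where
  toFun := Aff.g
  map_one' := rfl
  map_mul' _ _ := rfl

/-- The action on the reduction modulo `p`. -/
def IsAct (p : ℕ) [Fact p.Prime] (σ : Aff L →* Equiv.Perm (ι → ZMod p)) : Prop :=
  ∀ x z i, σ x z i = ((x.a i : ℚ) : ZMod p) + ∑ j, (((L x.g).1.val i j : ℚ) : ZMod p) * z j

end Aff

/-- The wreath product of `ℤ` with a symmetric group. -/
@[ext] structure Wr (ι : Type) where
  b : ι → ℤ
  σ : Equiv.Perm ι

namespace Wr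

variable {ι : Type}

instance : Mul (Wr ι) := ⟨fun x y => ⟨fun i => x.b i + y.b (x.σ⁻¹ i), x.σ * y.σ⟩⟩

instance : One (Wr ι) := ⟨⟨0, 1⟩⟩

instance : Inv (Wr ι) := ⟨fun x => ⟨fun i => -x.b (x.σ i), x.σ⁻¹⟩⟩

theorem mul_b (x y : Wr ι) (i : ι) : (x * y).b i = x.b i + y.b (x.σ⁻¹ i) := rfl

theorem mul_σ (x y : Wr ι) : (x * y).σ = x.σ * y.σ := rfl

theorem one_b (i : ι) : (1 : Wr ι).b i = 0 := rfl

theorem one_σ : (1 : Wr ι).σ = 1 := rfl

theorem inv_b (x : Wr ι) (i : ι) : (x⁻¹).b i = -x.b (x.σ i) := rfl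

theorem inv_σ (x : Wr ι) : (x⁻¹).σ = x.σ⁻¹ := rfl

instance : Group (Wr ι) :=
  Group.ofLeftAxioms
    (fun x y z => Wr.ext (funext fun i => by simp [mul_b, mul_σ, add_assoc]) (mul_assoc _ _ _))
    (fun x => Wr.ext (funext fun i => by simp [mul_b, one_b, one_σ]) (one_mul _))
    fun x => Wr.ext (funext fun i => by simp [mul_b, inv_b, inv_σ, one_b]) (inv_mul_cancel _)

end Wr

/-- An abelian normal subgroup with finite-by-cyclic quotient, embedded in a rational vector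
space. -/
structure Lin (Γ : Type) [Group Γ] (U : Type) [AddCommGroup U] [Module ℚ U] where
  ψ : Γ →* MZ
  A : Subgroup Γ
  L : Γ →* (U ≃ₗ[ℚ] U)
  e : Γ → U
  normal : A.Normal
  le : A ≤ ψ.ker
  idx : A.relIndex ψ.ker ≠ 0
  add : ∀ a ∈ A, ∀ b ∈ A, e (a * b) = e a + e b
  inj : ∀ a ∈ A, e a = 0 → a = 1
  conj : ∀ γ, ∀ a ∈ A, e (γ * a * γ⁻¹) = L γ (e a)
  triv : ∀ a ∈ A, L a = 1

end Pool.Agent.MP_f7db47_al.VC

end

section

/-!
Basic facts on finite-by-cyclic groups and on theories.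
-/

namespace Pool.Agent.MP_f7db47_al.VC

open GN GF

variable {G H : Type} [Group G] [Group H]

theorem IsVC.sub (j : G →* H) (hj : Function.Injective j) (h : IsVC H) : IsVC G := by
  obtain ⟨φ, hφ⟩ := h
  refine ⟨φ.comp j, Finite.of_injective (fun x : (φ.comp j).ker => (⟨j x, x.2⟩ : φ.ker)) ?_⟩
  exact fun x y e => Subtype.ext (hj (congrArg Subtype.val e))

theorem IsVC.of_finite [Finite G] : IsVC G := ⟨1, inferInstance⟩

theorem IsVC.of_le {K K' : Subgroup G} (h : K ≤ K') (h' : IsVC K') : IsVC K :=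
  h'.sub (Subgroup.inclusion h) (Subgroup.inclusion_injective h)

theorem dg_one (ψ : G →* MZ) : dg ψ 1 = 0 := by simp [dg]

theorem dg_mul (ψ : G →* MZ) (g h : G) : dg ψ (g * h) = dg ψ g + dg ψ h := by simp [dg]

theorem dg_inv (ψ : G →* MZ) (g : G) : dg ψ g⁻¹ = -dg ψ g := by simp [dg]

theorem dg_eq_zero (ψ : G →* MZ) (g : G) : dg ψ g = 0 ↔ ψ g = 1 := by simp [dg]

theorem vc_fib (ψ : G →* MZ) (hψ : Finite ψ.ker) (n : MZ) : {g | ψ g = n}.Finite := by
  rcases Set.eq_empty_or_nonempty {g | ψ g = n} with h | ⟨g₀, h₀⟩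
  · rw [h]
    exact Set.finite_empty
  refine ((Set.finite_coe_iff.1 hψ).image (g₀ * ·)).subset fun g hg => ⟨g₀⁻¹ * g, ?_, by simp⟩
  change ψ _ = 1
  rw [map_mul, map_inv, show ψ g = n from hg, show ψ g₀ = n from h₀, inv_mul_cancel]

theorem vc_ball (ψ : G →* MZ) (hψ : Finite ψ.ker) (r : ℝ) : {g | |dg ψ g| ≤ r}.Finite := by
  refine ((Set.finite_Icc (-⌈r⌉) ⌈r⌉).biUnion fun n _ =>
    vc_fib ψ hψ (Multiplicative.ofAdd n)).subset fun g hg => ?_
  have h1 : |(((ψ g).toAdd : ℤ) : ℝ)| ≤ (⌈r⌉ : ℤ) := le_trans hg (Int.le_ceil r)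
  have h2 : |(ψ g).toAdd| ≤ ⌈r⌉ := by exact_mod_cast h1
  exact Set.mem_biUnion (abs_le.1 h2) rfl

theorem exists_gen (ψ : G →* MZ) : ∃ u : G, ∀ g, ∃ n : ℤ, ψ g = ψ u ^ n := by
  obtain ⟨⟨_, u, rfl⟩, hu⟩ := IsCyclic.exists_generator (α := ψ.range)
  refine ⟨u, fun g => ?_⟩
  obtain ⟨n, hn⟩ := hu ⟨ψ g, g, rfl⟩
  exact ⟨n, (congrArg Subtype.val hn).symm⟩

theorem Ctrl.mono {P P' : Subgroup G → Prop} {N N' r : ℕ} {S₀ : Finset G} {X : Type}
    {σ : G →* Equiv.Perm X} (h : Ctrl P N r S₀ σ) (hP : ∀ K, P K → P' K) (hN : N ≤ N') :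
    Ctrl P' N' r S₀ σ := by
  obtain ⟨ι, hι, S, h1, h2, h3, h4⟩ := h
  exact ⟨ι, hι, S, fun x => (h1 x).trans hN, fun i x hx => hP _ (h2 i x hx), h3, h4⟩

theorem Ctrl.pull {P : Subgroup H → Prop} {P' : Subgroup G → Prop} {N r : ℕ} {S₀ : Finset G}
    {S₁ : Finset H} {X : Type} {σ : H →* Equiv.Perm X} (h : Ctrl P N r S₁ σ) (f : G →* H)
    (hS : ∀ g ∈ S₀, f g ∈ S₁) (hP : ∀ K, P K → P' (K.comap f)) : Ctrl P' N r S₀ (σ.comp f) := by
  obtain ⟨ι, hι, S, h1, h2, h3, h4⟩ := h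
  exact ⟨ι, hι, fun i => (S i).pull f id, h1, fun i x hx => hP _ (h2 i x hx), h3,
    fun g hg x i => h4 (f g) (hS g hg) x i⟩

theorem FHD.pull {P : Subgroup H → Prop} {P' : Subgroup G → Prop} {N r π : ℕ} {S₀ : Finset G}
    {S₁ : Finset H} (h : FHD P N r S₁ π) (f : G →* H) (hS : ∀ g ∈ S₀, f g ∈ S₁)
    (hP : ∀ K, P K → P' (K.comap f)) : FHD P' N r S₀ π := by
  obtain ⟨s, X₀, h₀, σ₀, X, hX, σ, h1, h2, h3, h4⟩ := h
  exact ⟨s, X₀, h₀, σ₀.comp f, X, hX, fun i => (σ i).comp f, h1.pull f hS hP,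
    fun i => (h2 i).pull f hS hP, h3, fun g => h4 (f g)⟩

variable {G₀ : Type} [Group G₀] (T : Thy G₀)

theorem Thy.sub' {i : G →* G₀} {i' : H →* G₀} (f : G →* H) (hf : Function.Injective f)
    (e : ∀ g, i g = i' (f g)) (h : T.Q H i') : T.Q G i := by
  rw [show i = i'.comp f from MonoidHom.ext e]
  exact T.sub f hf h

theorem Thy.le {i : G →* G₀} {K K' : Subgroup G} (h : K ≤ K')
    (h' : T.Q K' (i.comp K'.subtype)) : T.Q K (i.comp K.subtype) :=
  T.sub' (Subgroup.inclusion h) (Subgroup.inclusion_injective h) (fun _ => rfl) h'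

theorem Thy.top {i : G →* G₀} {K : Subgroup G} (h : ∀ g, g ∈ K)
    (h' : T.Q K (i.comp K.subtype)) : T.Q G i :=
  T.sub' ((MonoidHom.id G).codRestrict K h) (fun _ _ e => congrArg Subtype.val e)
    (fun _ => rfl) h'

end Pool.Agent.MP_f7db47_al.VC

end

section

/-!
From matrix representations to lattices.
-/

namespace Pool.Agent.MP_f7db47_al.VC

open Matrix

universe w

variable {G : Type} [Group G] {W : Type w} [AddCommGroup W]

/-- The matrices of a representation in a basis. -/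
noncomputable def SwA_mat {k : Type} [CommRing k] {M : Type} [AddCommGroup M] [Module k M]
    {m : Type} [Fintype m] [DecidableEq m] (b : Module.Basis m k M) (ρ : Representation k G M) :
    G →* Matrix m m k where
  toFun g := LinearMap.toMatrix b b (ρ g)
  map_one' := by rw [map_one, Module.End.one_eq_id, LinearMap.toMatrix_id]
  map_mul' g h := by rw [map_mul, LinearMap.toMatrix_mul]

theorem SwA_mat_apply {k : Type} [CommRing k] {M : Type} [AddCommGroup M] [Module k M]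
    {m : Type} [Fintype m] [DecidableEq m] (b : Module.Basis m k M) (ρ : Representation k G M)
    (g : G) : SwA_mat b ρ g = LinearMap.toMatrix b b (ρ g) := rfl

theorem SwA_chg {k : Type} [CommRing k] {M : Type} [AddCommGroup M] [Module k M]
    {m m' : Type} [Fintype m] [DecidableEq m] [Fintype m'] [DecidableEq m']
    (b : Module.Basis m k M) (b' : Module.Basis m' k M) (ρ : Representation k G M) :
    ∃ (A : Matrix m' m k) (A' : Matrix m m' k), A * A' = 1 ∧ A' * A = 1 ∧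
      ∀ g, A * SwA_mat b ρ g = SwA_mat b' ρ g * A := by
  refine ⟨LinearMap.toMatrix b b' LinearMap.id, LinearMap.toMatrix b' b LinearMap.id, ?_, ?_,
    fun g => ?_⟩
  · rw [← LinearMap.toMatrix_comp, LinearMap.id_comp, LinearMap.toMatrix_id]
  · rw [← LinearMap.toMatrix_comp, LinearMap.id_comp, LinearMap.toMatrix_id]
  · rw [SwA_mat_apply, SwA_mat_apply, ← LinearMap.toMatrix_comp, ← LinearMap.toMatrix_comp,
      LinearMap.id_comp, LinearMap.comp_id]

theorem SwA_blk {k : Type} [CommRing k] {M₁ M₂ M₃ : Type} [AddCommGroup M₁] [Module k M₁]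
    [AddCommGroup M₂] [Module k M₂] [AddCommGroup M₃] [Module k M₃]
    {m m' : Type} [Fintype m] [DecidableEq m] [Fintype m'] [DecidableEq m']
    (b₁ : Module.Basis m k M₁) (b₃ : Module.Basis m' k M₃)
    (ρ₁ : Representation k G M₁) (ρ₂ : Representation k G M₂) (ρ₃ : Representation k G M₃)
    (f : M₁ →ₗ[k] M₂) (p : M₂ →ₗ[k] M₃) (hf : ∀ g x, f (ρ₁ g x) = ρ₂ g (f x))
    (hp : ∀ g x, p (ρ₂ g x) = ρ₃ g (p x)) (fi : Function.Injective f)
    (ps : Function.Surjective p) (ex : Function.Exact f p) :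
    ∃ (b : Module.Basis (m ⊕ m') k M₂) (B : G → Matrix m m' k),
      ∀ g, SwA_mat b ρ₂ g = fromBlocks (SwA_mat b₁ ρ₁ g) (B g) 0 (SwA_mat b₃ ρ₃ g) := by
  choose t ht using fun j => ps (b₃ j)
  let s : M₃ →ₗ[k] M₂ := b₃.constr k t
  have hs : ∀ z, p (s z) = z := by
    have : p ∘ₗ s = LinearMap.id := b₃.ext fun j => by simp [s, ht]
    exact fun z => LinearMap.congr_fun this z
  have hpf : ∀ x, p (f x) = 0 := fun x => ex.apply_apply_eq_zero x
  have hb : Function.Bijective (f.coprod s) := by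
    constructor
    · rw [injective_iff_map_eq_zero]
      rintro ⟨x, z⟩ h
      have h' : f x + s z = 0 := h
      have hz : z = 0 := by
        have := congrArg p h'
        rwa [map_add, hpf, hs, zero_add, map_zero] at this
      rw [hz, map_zero, add_zero] at h'
      rw [hz, (injective_iff_map_eq_zero f).1 fi x h']
      rfl
    · intro y
      obtain ⟨x, hx⟩ := (ex (y - s (p y))).1 (by rw [map_sub, hs, sub_self])
      exact ⟨(x, p y), by simp [hx]⟩
  let e : (M₁ × M₃) ≃ₗ[k] M₂ := LinearEquiv.ofBijective _ hb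
  have he : ∀ x z, e (x, z) = f x + s z := fun x z => rfl
  have e1 : ∀ x, e.symm (f x) = (x, 0) := fun x => by
    rw [LinearEquiv.symm_apply_eq, he, map_zero, add_zero]
  have e2 : ∀ y, (e.symm y).2 = p y := fun y => by
    obtain ⟨⟨x, z⟩, rfl⟩ := e.surjective y
    rw [e.symm_apply_apply, he, map_add, hpf, hs, zero_add]
  have b1 : ∀ j, ((b₁.prod b₃).map e) (.inl j) = f (b₁ j) := fun j => by
    simp [he]
  have b2 : ∀ j, ((b₁.prod b₃).map e) (.inr j) = s (b₃ j) := fun j => by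
    simp [he]
  have r1 : ∀ y i, ((b₁.prod b₃).map e).repr y (.inl i) = b₁.repr (e.symm y).1 i :=
    fun y i => by simp
  have r2 : ∀ y i, ((b₁.prod b₃).map e).repr y (.inr i) = b₃.repr (p y) i := fun y i => by
    rw [← e2]
    simp
  refine ⟨(b₁.prod b₃).map e, fun g => (SwA_mat ((b₁.prod b₃).map e) ρ₂ g).toBlocks₁₂,
    fun g => ?_⟩
  ext (i | i) (j | j)
  · rw [fromBlocks_apply₁₁, SwA_mat_apply, SwA_mat_apply, LinearMap.toMatrix_apply,
      LinearMap.toMatrix_apply, b1, r1, ← hf, e1]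
  · rfl
  · rw [fromBlocks_apply₂₁, SwA_mat_apply, LinearMap.toMatrix_apply, b1, r2, ← hf, hpf]
    simp
  · rw [fromBlocks_apply₂₂, SwA_mat_apply, SwA_mat_apply, LinearMap.toMatrix_apply,
      LinearMap.toMatrix_apply, b2, r2, hp, hs]

theorem SwA_indep (S : Swan G W) {M : Type} [AddCommGroup M] [Module ℤ M]
    {m m' : Type} [Fintype m] [DecidableEq m] [Fintype m'] [DecidableEq m']
    (b : Module.Basis m ℤ M) (b' : Module.Basis m' ℤ M) (ρ : Representation ℤ G M) :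
    S.κ (SwA_mat b ρ) = S.κ (SwA_mat b' ρ) := by
  obtain ⟨A, A', h1, h2, h3⟩ := SwA_chg b b' ρ
  exact S.conj _ _ A A' h1 h2 h3

open Classical in
theorem Swan.toM (S : Swan G W) : ∃ S' : SwanM ℤ G W,
    ∀ (m : Type) [Fintype m] [DecidableEq m] (a : G →* Matrix m m ℤ),
      S'.κ (matRep a) = S.κ a := by
  refine ⟨⟨fun {M} _ _ _ _ ρ => S.κ (SwA_mat (Module.Free.chooseBasis ℤ M) ρ), ?_⟩, ?_⟩
  · intro M₁ M₂ M₃ _ _ _ _ _ _ _ _ _ _ _ _ ρ₁ ρ₂ ρ₃ f p hf hp fi ps ex
    obtain ⟨b, B, hB⟩ := SwA_blk (Module.Free.chooseBasis ℤ M₁) (Module.Free.chooseBasis ℤ M₃)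
      ρ₁ ρ₂ ρ₃ f p hf hp fi ps ex
    rw [SwA_indep S _ b]
    exact S.block _ _ _ B hB
  · intro m _ _ a
    change S.κ (SwA_mat (Module.Free.chooseBasis ℤ (m → ℤ)) (matRep a)) = _
    rw [SwA_indep S _ (Pi.basisFun ℤ m)]
    congr 1
    ext g i j
    simp [SwA_mat_apply, matRep]

theorem Swan.perm_equiv (S : Swan G W) {X Y : Type} [Fintype X] [DecidableEq X] [Fintype Y]
    [DecidableEq Y] (σ : G →* Equiv.Perm X) (τ : G →* Equiv.Perm Y) (e : X ≃ Y)
    (he : ∀ g x, e (σ g x) = τ g (e x)) : S.κ (permRep σ) = S.κ (permRep τ) := by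
  refine S.conj _ _ (fun y x => if x = e.symm y then 1 else 0)
    (fun x y => if y = e x then 1 else 0) ?_ ?_ fun g => ?_
  · ext y y'
    rw [Matrix.mul_apply, Finset.sum_eq_single (e.symm y) (fun x _ hx => by simp [hx]) (by simp)]
    simp [Matrix.one_apply, eq_comm]
  · ext x x'
    rw [Matrix.mul_apply, Finset.sum_eq_single (e x) (fun y _ hy => by simp [hy]) (by simp)]
    simp [Matrix.one_apply, eq_comm]
  · ext y x
    simp [Matrix.mul_apply, permRep, ← he, Equiv.eq_symm_apply]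

theorem Swan.perm_sum (S : Swan G W) {X Y Z : Type} [Fintype X] [DecidableEq X] [Fintype Y]
    [DecidableEq Y] [Fintype Z] [DecidableEq Z] (σ : G →* Equiv.Perm X) (τ : G →* Equiv.Perm Y)
    (ρ : G →* Equiv.Perm Z) (e : X ⊕ Y ≃ Z) (h1 : ∀ g x, e (.inl (σ g x)) = ρ g (e (.inl x)))
    (h2 : ∀ g y, e (.inr (τ g y)) = ρ g (e (.inr y))) :
    S.κ (permRep ρ) = S.κ (permRep σ) + S.κ (permRep τ) := by
  let μ : G →* Equiv.Perm (X ⊕ Y) :=
    { toFun := fun g => Equiv.sumCongr (σ g) (τ g)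
      map_one' := by ext (x | x) <;> simp
      map_mul' := fun g h => by ext (x | x) <;> simp }
  have hμ : ∀ g, μ g = Equiv.sumCongr (σ g) (τ g) := fun g => rfl
  rw [← S.perm_equiv μ ρ e (by rintro g (x | x) <;> simp [hμ, h1, h2])]
  refine S.block _ _ _ (fun _ => 0) fun g => ?_
  ext (x | x) (y | y) <;> simp [permRep, hμ]

end Pool.Agent.MP_f7db47_al.VC

end

section

/-!
Additive invariants of lattices: sublattices with isomorphic quotients.
-/

namespace Pool.Agent.MP_f7db47_al.VC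

open Function

universe w

variable {k : Type} [CommRing k] [IsDomain k] [IsPrincipalIdealRing k] {G : Type} [Group G]
  {W : Type w} [AddCommGroup W] (S : SwanM k G W) {M M' N N' X X₁ X₂ X₃ : Type}
  [AddCommGroup M] [Module k M] [Module.Free k M] [Module.Finite k M]
  [AddCommGroup M'] [Module k M'] [Module.Free k M'] [Module.Finite k M']
  [AddCommGroup N] [Module k N] [Module.Free k N] [Module.Finite k N]
  [AddCommGroup N'] [Module k N'] [Module.Free k N'] [Module.Finite k N']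
  [AddCommGroup X] [Module k X] [Module.Free k X] [Module.Finite k X]
  [AddCommGroup X₁] [Module k X₁] [Module.Free k X₁] [Module.Finite k X₁]
  [AddCommGroup X₂] [Module k X₂] [Module.Free k X₂] [Module.Finite k X₂]
  [AddCommGroup X₃] [Module k X₃] [Module.Free k X₃] [Module.Finite k X₃]

theorem SwanM.iso (ρ : Representation k G M) (τ : Representation k G N) (e : M ≃ₗ[k] N)
    (he : ∀ g x, e (ρ g x) = τ g (e x)) : S.κ ρ = S.κ τ := by
  have h0 : S.κ (1 : Representation k G PUnit.{1}) = 0 := by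
    have := S.ses (1 : Representation k G PUnit.{1}) (1 : Representation k G PUnit.{1})
      (1 : Representation k G PUnit.{1}) 0 0 (fun _ _ => rfl) (fun _ _ => rfl)
      (fun _ _ _ => rfl) (fun x => ⟨x, rfl⟩) fun x => ⟨fun _ => ⟨x, rfl⟩, fun _ => rfl⟩
    exact left_eq_add.1 this
  have := S.ses ρ τ (1 : Representation k G PUnit.{1}) e.toLinearMap 0 he (fun _ _ => rfl)
    e.injective (fun _ => ⟨0, rfl⟩) fun x => ⟨fun _ => e.surjective x, fun _ => rfl⟩
  rw [this, h0, add_zero]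

theorem SwB_quot {T : Type} [AddCommGroup T] [Module k T]
    (ρ : Representation k G M) (ρ' : Representation k G M') (τ : Representation k G N)
    (τ' : Representation k G N')
    (i : M' →ₗ[k] M) (j : N' →ₗ[k] N) (p : M →ₗ[k] T) (q : N →ₗ[k] T)
    (hi : ∀ g x, i (ρ' g x) = ρ g (i x)) (hj : ∀ g x, j (τ' g x) = τ g (j x))
    (hpq : ∀ g x y, p x = q y → p (ρ g x) = q (τ g y)) (i1 : Injective i)
    (j1 : Injective j) (p1 : ∀ y, ∃ x, p x = q y) (q1 : ∀ x, ∃ y, p x = q y) (e1 : Exact i p)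
    (e2 : Exact j q) : S.κ ρ + S.κ τ' = S.κ τ + S.κ ρ' := by
  let P : Submodule k (M × N) :=
    LinearMap.eqLocus (p ∘ₗ LinearMap.fst k M N) (q ∘ₗ LinearMap.snd k M N)
  have hP : ∀ x : M × N, x ∈ P ↔ p x.1 = q x.2 := fun _ => Iff.rfl
  let σ : Representation k G P :=
    (ρ.prod τ).subrepresentation P fun g x hx => hpq g x.1 x.2 hx
  have hσ : ∀ g (x : P), (σ g x).1 = (ρ g x.1.1, τ g x.1.2) := fun _ _ => rfl
  have a1 := S.ses τ' σ ρ
    (LinearMap.codRestrict P (LinearMap.inr k M N ∘ₗ j) fun y => by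
      rw [hP]
      simpa using (e2.apply_apply_eq_zero y).symm)
    (LinearMap.fst k M N ∘ₗ P.subtype)
    (fun g x => Subtype.ext (by rw [hσ]; simp [hj])) (fun _ _ => rfl)
    (fun x y h => j1 (congrArg (fun z : P => z.1.2) h))
    (fun x => by
      obtain ⟨y, hy⟩ := q1 x
      exact ⟨⟨(x, y), hy⟩, rfl⟩)
    (fun x => by
      constructor
      · intro h
        have h1 : x.1.1 = 0 := h
        have h2 : p x.1.1 = q x.1.2 := x.2
        rw [h1, map_zero] at h2
        obtain ⟨y, hy⟩ := (e2 _).1 h2.symm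
        exact ⟨y, Subtype.ext (Prod.ext h1.symm hy)⟩
      · rintro ⟨y, rfl⟩
        rfl)
  have a2 := S.ses ρ' σ τ
    (LinearMap.codRestrict P (LinearMap.inl k M N ∘ₗ i) fun y => by
      rw [hP]
      simpa using e1.apply_apply_eq_zero y)
    (LinearMap.snd k M N ∘ₗ P.subtype)
    (fun g x => Subtype.ext (by rw [hσ]; simp [hi])) (fun _ _ => rfl)
    (fun x y h => i1 (congrArg (fun z : P => z.1.1) h))
    (fun y => by
      obtain ⟨x, hx⟩ := p1 y
      exact ⟨⟨(x, y), hx⟩, rfl⟩)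
    (fun x => by
      constructor
      · intro h
        have h1 : x.1.2 = 0 := h
        have h2 : p x.1.1 = q x.1.2 := x.2
        rw [h1, map_zero] at h2
        obtain ⟨y, hy⟩ := (e1 _).1 h2
        exact ⟨y, Subtype.ext (Prod.ext hy h1.symm)⟩
      · rintro ⟨y, rfl⟩
        rfl)
  rw [add_comm, ← a1, a2, add_comm]

theorem SwanM.quot {T : Type} [AddCommGroup T] [Module k T] (a : G → T → T)
    (ρ : Representation k G M) (ρ' : Representation k G M') (τ : Representation k G N)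
    (τ' : Representation k G N')
    (i : M' →ₗ[k] M) (j : N' →ₗ[k] N) (p : M →ₗ[k] T) (q : N →ₗ[k] T)
    (hi : ∀ g x, i (ρ' g x) = ρ g (i x)) (hj : ∀ g x, j (τ' g x) = τ g (j x))
    (hp : ∀ g x, p (ρ g x) = a g (p x)) (hq : ∀ g x, q (τ g x) = a g (q x)) (i1 : Injective i)
    (j1 : Injective j) (p1 : Surjective p) (q1 : Surjective q) (e1 : Exact i p)
    (e2 : Exact j q) : S.κ ρ + S.κ τ' = S.κ τ + S.κ ρ' :=
  SwB_quot S ρ ρ' τ τ' i j p q hi hj (fun g x y h => by rw [hp, hq, h]) i1 j1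
    (fun y => p1 (q y)) (fun x => (q1 (p x)).imp fun _ h => h.symm) e1 e2

theorem SwanM.square (ρ : Representation k G X) (ρ₁ : Representation k G X₁)
    (ρ₂ : Representation k G X₂) (ρ₃ : Representation k G X₃) (i₁ : X₁ →ₗ[k] X)
    (i₂ : X₂ →ₗ[k] X) (i₃ : X₃ →ₗ[k] X) (h₁ : ∀ g x, i₁ (ρ₁ g x) = ρ g (i₁ x))
    (h₂ : ∀ g x, i₂ (ρ₂ g x) = ρ g (i₂ x)) (h₃ : ∀ g x, i₃ (ρ₃ g x) = ρ g (i₃ x))
    (j₁ : Injective i₁) (j₂ : Injective i₂) (j₃ : Injective i₃) (n : k)
    (hI : ∀ x, (x ∈ i₁.range ∧ x ∈ i₂.range) ↔ ∃ y, ∃ z ∈ i₃.range, x = n • y + z)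
    (hS : ∀ x, n • x ∈ i₃.range ↔ x ∈ i₁.range ⊔ i₂.range) :
    S.κ ρ + S.κ ρ₃ = S.κ ρ₁ + S.κ ρ₂ := by
  have r₁ : ∀ g x, x ∈ i₁.range → ρ g x ∈ i₁.range := by
    rintro g _ ⟨y, rfl⟩
    exact ⟨ρ₁ g y, h₁ g y⟩
  have r₂ : ∀ g x, x ∈ i₂.range → ρ g x ∈ i₂.range := by
    rintro g _ ⟨y, rfl⟩
    exact ⟨ρ₂ g y, h₂ g y⟩
  have r₃ : ∀ g x, x ∈ i₃.range → ρ g x ∈ i₃.range := by
    rintro g _ ⟨y, rfl⟩
    exact ⟨ρ₃ g y, h₃ g y⟩
  let I : Submodule k X := i₁.range ⊓ i₂.range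
  let U : Submodule k X := i₁.range ⊔ i₂.range
  let σ : Representation k G I :=
    ρ.subrepresentation I fun g x hx => ⟨r₁ g x hx.1, r₂ g x hx.2⟩
  let υ : Representation k G U :=
    ρ.subrepresentation U fun g => sup_le
      (fun x hx => Submodule.mem_sup_left (r₁ g x hx))
      fun x hx => Submodule.mem_sup_right (r₂ g x hx)
  obtain ⟨j, hj⟩ : ∃ j : I →ₗ[k] X₂, ∀ x, i₂ (j x) = x :=
    ⟨LinearMap.codRestrictOfInjective I.subtype i₂ j₂ fun x => x.2.2,
      fun x => LinearMap.codRestrictOfInjective_comp_apply _ _ _ _ x⟩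
  have a1 := SwB_quot S υ ρ₁ ρ₂ σ
    (LinearMap.codRestrict U i₁ fun y => Submodule.mem_sup_left ⟨y, rfl⟩) j
    (i₁.range.mkQ ∘ₗ U.subtype) (i₁.range.mkQ ∘ₗ i₂)
    (fun g x => Subtype.ext (h₁ g x))
    (fun g x => j₂ (by rw [hj, h₂, hj]; rfl))
    (fun g x y h => by
      have h' := r₁ g _ ((Submodule.Quotient.eq _).1 h)
      rw [map_sub, ← h₂] at h'
      exact (Submodule.Quotient.eq _).2 h')
    (fun x y h => j₁ (congrArg Subtype.val h))
    (fun x y h => Subtype.ext (by rw [← hj, ← hj, h]))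
    (fun y => ⟨⟨i₂ y, Submodule.mem_sup_right ⟨y, rfl⟩⟩, rfl⟩)
    (fun x => by
      obtain ⟨a, ha, _, ⟨y, rfl⟩, e⟩ := Submodule.mem_sup.1 x.2
      refine ⟨y, (Submodule.Quotient.eq _).2 ?_⟩
      change x.1 - i₂ y ∈ _
      rwa [← e, add_sub_cancel_right])
    (fun x => by
      constructor
      · intro h
        obtain ⟨y, hy⟩ := (Submodule.Quotient.mk_eq_zero _).1 h
        exact ⟨y, Subtype.ext hy⟩
      · rintro ⟨y, rfl⟩
        exact (Submodule.Quotient.mk_eq_zero _).2 ⟨y, rfl⟩)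
    (fun x => by
      constructor
      · intro h
        exact ⟨⟨i₂ x, (Submodule.Quotient.mk_eq_zero _).1 h, x, rfl⟩, j₂ (hj _)⟩
      · rintro ⟨y, rfl⟩
        refine (Submodule.Quotient.mk_eq_zero _).2 ?_
        rw [hj]
        exact y.2.1)
  have a2 := SwB_quot S ρ υ σ ρ₃ U.subtype
    (LinearMap.codRestrict I i₃ fun y => (hI _).2 ⟨0, i₃ y, ⟨y, rfl⟩, by simp⟩)
    (i₃.range.mkQ ∘ₗ (n • LinearMap.id)) (i₃.range.mkQ ∘ₗ I.subtype)
    (fun _ _ => rfl) (fun g x => Subtype.ext (h₃ g x))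
    (fun g x y h => by
      have h' : ρ g (n • x - y.1) ∈ _ := r₃ g _ ((Submodule.Quotient.eq _).1 h)
      rw [map_sub, map_smul] at h'
      exact (Submodule.Quotient.eq _).2 h')
    Subtype.val_injective (fun x y h => j₃ (congrArg Subtype.val h))
    (fun y => by
      obtain ⟨x, z, hz, e⟩ := (hI y.1).1 y.2
      refine ⟨x, (Submodule.Quotient.eq _).2 ?_⟩
      change n • x - y.1 ∈ _
      rw [e, sub_add_cancel_left]
      exact neg_mem hz)
    (fun x => ⟨⟨n • x, (hI _).2 ⟨x, 0, zero_mem _, (add_zero _).symm⟩⟩, rfl⟩)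
    (fun x => by
      constructor
      · intro h
        exact ⟨⟨x, (hS x).1 ((Submodule.Quotient.mk_eq_zero _).1 h)⟩, rfl⟩
      · rintro ⟨y, rfl⟩
        exact (Submodule.Quotient.mk_eq_zero _).2 ((hS y.1).2 y.2))
    (fun x => by
      constructor
      · intro h
        obtain ⟨y, hy⟩ := (Submodule.Quotient.mk_eq_zero _).1 h
        exact ⟨y, Subtype.ext hy⟩
      · rintro ⟨y, rfl⟩
        exact (Submodule.Quotient.mk_eq_zero _).2 ⟨y, rfl⟩)
  rw [a2, add_comm, a1, add_comm]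

end Pool.Agent.MP_f7db47_al.VC

end

section

/-!
The square of two inclusions of prime exponent.
-/

namespace Pool.Agent.MP_f7db47_al.VC

open Function TensorProduct

universe w

variable {k : Type} [CommRing k] [IsDomain k] [IsPrincipalIdealRing k] {G : Type} [Group G]
  {W : Type w} [AddCommGroup W] (S : SwanM k G W) {A A' B B' : Type}
  [AddCommGroup A] [Module k A] [Module.Free k A] [Module.Finite k A]
  [AddCommGroup A'] [Module k A'] [Module.Free k A'] [Module.Finite k A']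
  [AddCommGroup B] [Module k B] [Module.Free k B] [Module.Finite k B]
  [AddCommGroup B'] [Module k B'] [Module.Free k B'] [Module.Finite k B']

omit [IsDomain k] [IsPrincipalIdealRing k] in
theorem SwC_repr {X X' ι : Type} [AddCommGroup X] [Module k X] [AddCommGroup X'] [Module k X']
    (c : Module.Basis ι k X) (c' : Module.Basis ι k X') (i : X' →ₗ[k] X) (d : ι → k)
    (hd : ∀ j, i (c' j) = d j • c j) (y : X') (j : ι) :
    c.repr (i y) j = d j * c'.repr y j := by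
  have : c.coord j ∘ₗ i = d j • c'.coord j := by
    refine c'.ext fun l => ?_
    by_cases hl : l = j
    · subst hl
      simp [hd]
    · simp [hd, Finsupp.single_eq_of_ne' hl]
  exact LinearMap.congr_fun this y

omit [IsDomain k] [IsPrincipalIdealRing k] in
theorem SwC_range {X X' ι : Type} [Finite ι] [AddCommGroup X] [Module k X] [AddCommGroup X']
    [Module k X'] (c : Module.Basis ι k X) (c' : Module.Basis ι k X') (i : X' →ₗ[k] X) (d : ι → k)
    (hd : ∀ j, i (c' j) = d j • c j) (x : X) :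
    x ∈ i.range ↔ ∀ j, d j ∣ c.repr x j := by
  constructor
  · rintro ⟨y, rfl⟩ j
    rw [SwC_repr c c' i d hd]
    exact dvd_mul_right _ _
  · intro h
    choose u hu using h
    refine ⟨c'.equivFun.symm u, c.ext_elem fun j => ?_⟩
    rw [SwC_repr c c' i d hd, hu, ← c'.equivFun_apply, LinearEquiv.apply_symm_apply]

omit [Module.Free k A'] in
theorem SwC_snf (f : A' →ₗ[k] A) (f1 : Injective f) (p : k) (hp : p ≠ 0)
    (f2 : ∀ x, p • x ∈ f.range) :
    ∃ (ι : Type) (_ : Finite ι) (e : Module.Basis ι k A) (e' : Module.Basis ι k A') (a : ι → k),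
      (∀ i, f (e' i) = a i • e i) ∧ ∀ i, a i ∣ p := by
  have hr : Module.finrank k f.range = Module.finrank k A := by
    refine le_antisymm (Submodule.finrank_le _) ?_
    refine LinearMap.finrank_le_finrank_of_injective
      (f := LinearMap.codRestrict f.range (p • LinearMap.id) f2) fun x y hxy => ?_
    exact smul_right_injective A hp (congrArg Subtype.val hxy)
  obtain ⟨e, a, b, hb⟩ :=
    Submodule.exists_smith_normal_form_of_rank_eq (Module.Free.chooseBasis k A) hr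
  have h1 : ∀ i, f (b.map (LinearEquiv.ofInjective f f1).symm i) = a i • e i := fun i => by
    rw [← hb, Module.Basis.map_apply]
    exact congrArg Subtype.val ((LinearEquiv.ofInjective f f1).apply_symm_apply (b i))
  refine ⟨_, inferInstance, e, _, a, h1, fun i => ?_⟩
  simpa using (SwC_range e _ f a h1 _).1 (f2 (e i)) i

omit [IsPrincipalIdealRing k] in
theorem SwC_ar1 {n a b : k} (hn : n ≠ 0)
    (h : (IsCoprime a b ∧ a * b ∣ n) ∨ (Associated a n ∧ Associated b n)) (x : k) :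
    ((a ∣ x ∧ b ∣ x) ↔ ∃ y z, x = n * y + a * b * z) ∧
      (a * b ∣ n * x ↔ ∃ u v, x = a * u + b * v) := by
  rcases h with ⟨h1, h2⟩ | ⟨h1, h2⟩
  · refine ⟨⟨fun h => ?_, ?_⟩, ⟨fun _ => ?_, fun _ => h2.mul_right _⟩⟩
    · obtain ⟨z, hz⟩ := h1.mul_dvd h.1 h.2
      exact ⟨0, z, by rw [hz]; ring⟩
    · rintro ⟨y, z, rfl⟩
      have : a * b ∣ n * y + a * b * z := dvd_add (h2.mul_right _) (dvd_mul_right _ _)
      exact ⟨(dvd_mul_right _ _).trans this, (dvd_mul_left _ _).trans this⟩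
    · obtain ⟨u, v, huv⟩ := h1
      exact ⟨u * x, v * x, by linear_combination (-x) * huv⟩
  · refine ⟨⟨fun h => ?_, ?_⟩, ⟨fun h => ?_, ?_⟩⟩
    · obtain ⟨y, hy⟩ := h1.symm.dvd.trans h.1
      exact ⟨y, 0, by rw [hy]; ring⟩
    · rintro ⟨y, z, rfl⟩
      exact ⟨dvd_add (h1.dvd.mul_right _) ((dvd_mul_right a b).mul_right _),
        dvd_add (h2.dvd.mul_right _) ((dvd_mul_left b a).mul_right _)⟩
    · obtain ⟨v, hv⟩ := (mul_dvd_mul_iff_left hn).1 ((h1.symm.mul_right b).dvd.trans h)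
      exact ⟨0, v, by rw [hv]; ring⟩
    · rintro ⟨u, v, rfl⟩
      refine mul_dvd_mul h1.dvd (dvd_add ?_ (dvd_mul_right _ _))
      exact (h2.trans h1.symm).dvd.mul_right _

theorem SwC_ar2 {p q : k} (hp : Prime p) (hq : Prime q) : ∃ n, n ≠ 0 ∧ ∀ a b, a ∣ p → b ∣ q →
    (IsCoprime a b ∧ a * b ∣ n) ∨ (Associated a n ∧ Associated b n) := by
  by_cases h : Associated p q
  · refine ⟨p, hp.ne_zero, fun a b ha hb => ?_⟩
    rcases hp.irreducible.dvd_iff.1 ha with h1 | h1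
    · refine Or.inl ⟨(isCoprime_comm.1 ?_), (h1.mul_left_dvd).2 (hb.trans h.symm.dvd)⟩
      simpa using (isCoprime_mul_unit_left_right h1 b 1).2 isCoprime_one_right
    · rcases hq.irreducible.dvd_iff.1 hb with h2 | h2
      · refine Or.inl ⟨?_, (h2.mul_right_dvd).2 ha⟩
        simpa using (isCoprime_mul_unit_left_right h2 a 1).2 isCoprime_one_right
      · exact Or.inr ⟨h1.symm, h2.symm.trans h.symm⟩
  · refine ⟨p * q, mul_ne_zero hp.ne_zero hq.ne_zero, fun a b ha hb => Or.inl ⟨?_, ?_⟩⟩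
    · have : IsCoprime p q := hp.irreducible.coprime_iff_not_dvd.2 fun h' =>
        h (hp.associated_of_dvd hq h')
      exact (this.of_isCoprime_of_dvd_left ha).of_isCoprime_of_dvd_right hb
    · exact mul_dvd_mul ha hb

theorem SwanM.sq_prime (α : Representation k G A) (α' : Representation k G A')
    (β : Representation k G B) (β' : Representation k G B') (f : A' →ₗ[k] A) (h : B' →ₗ[k] B)
    (hf : ∀ g x, f (α' g x) = α g (f x)) (hh : ∀ g x, h (β' g x) = β g (h x)) (f1 : Injective f)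
    (h1 : Injective h) (p q : k) (hp : Prime p) (hq : Prime q) (f2 : ∀ x, p • x ∈ f.range)
    (h2 : ∀ x, q • x ∈ h.range) :
    S.κ (α.tprod β) + S.κ (α'.tprod β') = S.κ (α'.tprod β) + S.κ (α.tprod β') := by
  obtain ⟨ι, _, e, e', a, he, ha⟩ := SwC_snf f f1 p hp.ne_zero f2
  obtain ⟨ι', _, c, c', b, hc, hb⟩ := SwC_snf h h1 q hq.ne_zero h2
  obtain ⟨n, hn, H⟩ := SwC_ar2 hp hq
  have K := fun (j : ι × ι') => SwC_ar1 hn (H _ _ (ha j.1) (hb j.2))
  have r1 := SwC_range (e.tensorProduct c) (e'.tensorProduct c) (f.rTensor B) (fun j => a j.1)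
    fun j => by simp [Module.Basis.tensorProduct_apply', he, smul_tmul']
  have r2 := SwC_range (e.tensorProduct c) (e.tensorProduct c') (h.lTensor A) (fun j => b j.2)
    fun j => by simp [Module.Basis.tensorProduct_apply', hc]
  have r3 := SwC_range (e.tensorProduct c) (e'.tensorProduct c') (TensorProduct.map f h)
    (fun j => a j.1 * b j.2)
    fun j => by
      simp only [Module.Basis.tensorProduct_apply', map_tmul, he, hc, smul_tmul_smul]
  have j1 : Injective (f.rTensor B) := Module.Flat.rTensor_preserves_injective_linearMap f f1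
  have j2 : Injective (h.lTensor A) := Module.Flat.lTensor_preserves_injective_linearMap h h1
  have j3 : Injective (TensorProduct.map f h) := by
    rw [← LinearMap.rTensor_comp_lTensor]
    exact j1.comp (Module.Flat.lTensor_preserves_injective_linearMap h h1)
  have hs : ∀ (u : ι × ι' → k) j,
      (e.tensorProduct c).repr ((e.tensorProduct c).equivFun.symm u) j = u j := fun u j => by
    rw [← Module.Basis.equivFun_apply, LinearEquiv.apply_symm_apply]
  refine S.square (α.tprod β) (α'.tprod β) (α.tprod β') (α'.tprod β') (f.rTensor B) (h.lTensor A)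
    (TensorProduct.map f h) (fun g x => ?_) (fun g x => ?_) (fun g x => ?_) j1 j2 j3 n
    (fun x => ?_) fun x => ?_
  · induction x using TensorProduct.induction_on with
    | zero => simp
    | tmul x y => simp [hf]
    | add x y hx hy => simp only [map_add, hx, hy]
  · induction x using TensorProduct.induction_on with
    | zero => simp
    | tmul x y => simp [hh]
    | add x y hx hy => simp only [map_add, hx, hy]
  · induction x using TensorProduct.induction_on with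
    | zero => simp
    | tmul x y => simp [hf, hh]
    | add x y hx hy => simp only [map_add, hx, hy]
  · rw [r1, r2]
    constructor
    · rintro ⟨x1, x2⟩
      choose y z hz using fun j => (K j _).1.1 ⟨x1 j, x2 j⟩
      refine ⟨(e.tensorProduct c).equivFun.symm y,
        (e.tensorProduct c).equivFun.symm fun j => a j.1 * b j.2 * z j, (r3 _).2 fun j => ?_,
        (e.tensorProduct c).ext_elem fun j => ?_⟩
      · rw [hs]
        exact dvd_mul_right _ _
      · rw [map_add, map_smul, Finsupp.add_apply, Finsupp.smul_apply, hs, hs, hz, smul_eq_mul]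
    · rintro ⟨y, z, hz, rfl⟩
      choose w hw using (r3 _).1 hz
      have := fun j => (K j ((e.tensorProduct c).repr (n • y + z) j)).1.2
        ⟨(e.tensorProduct c).repr y j, w j, by
          rw [map_add, map_smul, Finsupp.add_apply, Finsupp.smul_apply, hw, smul_eq_mul]⟩
      exact ⟨fun j => (this j).1, fun j => (this j).2⟩
  · rw [r3, Submodule.mem_sup]
    simp only [map_smul, Finsupp.smul_apply, smul_eq_mul]
    constructor
    · intro hx
      choose u v huv using fun j => (K j _).2.1 (hx j)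
      refine ⟨(e.tensorProduct c).equivFun.symm fun j => a j.1 * u j, (r1 _).2 fun j => ?_,
        (e.tensorProduct c).equivFun.symm fun j => b j.2 * v j, (r2 _).2 fun j => ?_,
        (e.tensorProduct c).ext_elem fun j => ?_⟩
      · rw [hs]
        exact dvd_mul_right _ _
      · rw [hs]
        exact dvd_mul_right _ _
      · rw [map_add, Finsupp.add_apply, hs, hs, huv]
    · rintro ⟨y, hy, z, hz, rfl⟩ j
      obtain ⟨u, hu⟩ := (r1 _).1 hy j
      obtain ⟨v, hv⟩ := (r2 _).1 hz j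
      exact (K j _).2.2 ⟨u, v, by rw [map_add, Finsupp.add_apply, hu, hv]⟩

end Pool.Agent.MP_f7db47_al.VC

end

section

/-!
The square of two inclusions of finite index.
-/

namespace Pool.Agent.MP_f7db47_al.VC

open Function TensorProduct

universe w

variable {k : Type} [CommRing k] [IsDomain k] [IsPrincipalIdealRing k] {G : Type} [Group G]
  {W : Type w} [AddCommGroup W] (S : SwanM k G W) {A A' B B' : Type}
  [AddCommGroup A] [Module k A] [Module.Free k A] [Module.Finite k A]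
  [AddCommGroup A'] [Module k A'] [Module.Free k A'] [Module.Finite k A']
  [AddCommGroup B] [Module k B] [Module.Free k B] [Module.Finite k B]
  [AddCommGroup B'] [Module k B'] [Module.Free k B'] [Module.Finite k B']

omit [AddCommGroup W] in
theorem SwD_dev
    (D : ∀ {M : Type} [AddCommGroup M] [Module k M] [Module.Free k M] [Module.Finite k M],
      Representation k G M → W)
    (hiso : ∀ {M N : Type} [AddCommGroup M] [Module k M] [Module.Free k M] [Module.Finite k M]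
      [AddCommGroup N] [Module k N] [Module.Free k N] [Module.Finite k N]
      (ρ : Representation k G M) (τ : Representation k G N) (e : M ≃ₗ[k] N),
      (∀ g x, e (ρ g x) = τ g (e x)) → D ρ = D τ)
    (hpr : ∀ {M N : Type} [AddCommGroup M] [Module k M] [Module.Free k M] [Module.Finite k M]
      [AddCommGroup N] [Module k N] [Module.Free k N] [Module.Finite k N]
      (ρ : Representation k G M) (τ : Representation k G N) (f : N →ₗ[k] M),
      (∀ g x, f (τ g x) = ρ g (f x)) → Injective f → ∀ p : k, Prime p →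
      (∀ x : M, p • x ∈ f.range) → D ρ = D τ)
    (p : k) : p ≠ 0 → ∀ {M N : Type} [AddCommGroup M] [Module k M] [Module.Free k M]
      [Module.Finite k M] [AddCommGroup N] [Module k N] [Module.Free k N] [Module.Finite k N]
      (ρ : Representation k G M) (τ : Representation k G N) (f : N →ₗ[k] M),
      (∀ g x, f (τ g x) = ρ g (f x)) → Injective f → (∀ x : M, p • x ∈ f.range) →
      D ρ = D τ := by
  induction p using UniqueFactorizationMonoid.induction_on_prime with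
  | h₁ => exact fun h => absurd rfl h
  | h₂ u hu =>
    intro _ M N _ _ _ _ _ _ _ _ ρ τ f hf f1 f2
    obtain ⟨u, rfl⟩ := hu
    have hs : Surjective f := fun x => by
      obtain ⟨y, hy⟩ := f2 (((u⁻¹ : kˣ) : k) • x)
      exact ⟨y, by rw [hy, smul_smul, Units.mul_inv, one_smul]⟩
    exact (hiso τ ρ (LinearEquiv.ofBijective f ⟨f1, hs⟩) hf).symm
  | h₃ a p ha hp ih =>
    intro _ M N _ _ _ _ _ _ _ _ ρ τ f hf f1 f2
    let P : Submodule k M := f.range ⊔ (p • (LinearMap.id : M →ₗ[k] M)).range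
    have hP : ∀ x, x ∈ P ↔ ∃ y z, f y + p • z = x := fun x => by
      constructor
      · intro hx
        obtain ⟨_, ⟨y, rfl⟩, _, ⟨z, rfl⟩, e⟩ := Submodule.mem_sup.1 hx
        exact ⟨y, z, e⟩
      · rintro ⟨y, z, rfl⟩
        exact Submodule.add_mem_sup ⟨y, rfl⟩ ⟨z, rfl⟩
    have hinv : ∀ g, P ≤ P.comap (ρ g) := fun g x hx => by
      obtain ⟨y, z, rfl⟩ := (hP x).1 hx
      exact (hP _).2 ⟨τ g y, ρ g z, by rw [hf, map_add, map_smul]⟩
    have hfP : ∀ y, f y ∈ P := fun y => (hP _).2 ⟨y, 0, by simp⟩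
    have e1 : D ρ = D (ρ.subrepresentation P hinv) :=
      hpr ρ _ P.subtype (fun _ _ => rfl) P.injective_subtype p hp fun x =>
        ⟨⟨p • x, (hP _).2 ⟨0, x, by simp⟩⟩, rfl⟩
    have e2 : D (ρ.subrepresentation P hinv) = D τ := by
      refine ih ha _ τ (f.codRestrict P hfP) (fun g x => Subtype.ext (hf g x))
        (fun x y e => f1 (congrArg Subtype.val e)) fun x => ?_
      obtain ⟨y, z, e⟩ := (hP _).1 x.2
      obtain ⟨v, hv⟩ := f2 z
      refine ⟨a • y + v, Subtype.ext ?_⟩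
      change f (a • y + v) = a • (x : M)
      rw [← e, map_add, map_smul, hv, smul_add, smul_smul, mul_comm]
    exact e1.trans e2

theorem SwD_right (α : Representation k G A) (β : Representation k G B)
    (β' : Representation k G B') (e : B ≃ₗ[k] B') (he : ∀ g x, e (β g x) = β' g (e x)) :
    S.κ (α.tprod β) = S.κ (α.tprod β') := by
  refine S.iso _ _ (TensorProduct.congr (LinearEquiv.refl k A) e) fun g x => ?_
  induction x using TensorProduct.induction_on with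
  | zero => simp
  | tmul a b => simp [he]
  | add x y hx hy => simp only [map_add, hx, hy]

theorem SwD_left (α : Representation k G A) (α' : Representation k G A')
    (β : Representation k G B) (e : A ≃ₗ[k] A') (he : ∀ g x, e (α g x) = α' g (e x)) :
    S.κ (α.tprod β) = S.κ (α'.tprod β) := by
  refine S.iso _ _ (TensorProduct.congr e (LinearEquiv.refl k B)) fun g x => ?_
  induction x using TensorProduct.induction_on with
  | zero => simp
  | tmul a b => simp [he]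
  | add x y hx hy => simp only [map_add, hx, hy]

theorem SwD_one (α : Representation k G A) (α' : Representation k G A')
    (β : Representation k G B) (β' : Representation k G B') (f : A' →ₗ[k] A) (h : B' →ₗ[k] B)
    (hf : ∀ g x, f (α' g x) = α g (f x)) (hh : ∀ g x, h (β' g x) = β g (h x)) (f1 : Injective f)
    (h1 : Injective h) (p q : k) (hp : Prime p) (hq : q ≠ 0) (f2 : ∀ x, p • x ∈ f.range)
    (h2 : ∀ x, q • x ∈ h.range) :
    S.κ (α.tprod β) - S.κ (α'.tprod β) = S.κ (α.tprod β') - S.κ (α'.tprod β') := by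
  refine SwD_dev (fun ρ => S.κ (α.tprod ρ) - S.κ (α'.tprod ρ)) ?_ ?_ q hq β β' h hh h1 h2
  · intro M N _ _ _ _ _ _ _ _ ρ τ e he
    rw [SwD_right S α ρ τ e he, SwD_right S α' ρ τ e he]
  · intro M N _ _ _ _ _ _ _ _ ρ τ j hj j1 r hr j2
    have := S.sq_prime α α' ρ τ f j hf hj f1 j1 p r hp hr f2 j2
    rw [sub_eq_sub_iff_add_eq_add, this, add_comm]

theorem SwanM.sq (α : Representation k G A) (α' : Representation k G A')
    (β : Representation k G B) (β' : Representation k G B') (f : A' →ₗ[k] A) (h : B' →ₗ[k] B)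
    (hf : ∀ g x, f (α' g x) = α g (f x)) (hh : ∀ g x, h (β' g x) = β g (h x)) (f1 : Injective f)
    (h1 : Injective h) (p q : k) (hp : p ≠ 0) (hq : q ≠ 0) (f2 : ∀ x, p • x ∈ f.range)
    (h2 : ∀ x, q • x ∈ h.range) :
    S.κ (α.tprod β) + S.κ (α'.tprod β') = S.κ (α'.tprod β) + S.κ (α.tprod β') := by
  have key : S.κ (α.tprod β) - S.κ (α.tprod β') = S.κ (α'.tprod β) - S.κ (α'.tprod β') := by
    refine SwD_dev (fun ρ => S.κ (ρ.tprod β) - S.κ (ρ.tprod β')) ?_ ?_ p hp α α' f hf f1 f2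
    · intro M N _ _ _ _ _ _ _ _ ρ τ e he
      rw [SwD_left S ρ τ β e he, SwD_left S ρ τ β' e he]
    · intro M N _ _ _ _ _ _ _ _ ρ τ j hj j1 r hr j2
      have := SwD_one S ρ τ β β' j h hj hh j1 h1 r q hr hq j2 h2
      rw [sub_eq_sub_iff_add_eq_add] at this ⊢
      rw [this, add_comm]
  exact sub_eq_sub_iff_add_eq_add.1 key

end Pool.Agent.MP_f7db47_al.VC

end

section

/-!
Rational representations with equal characters.
-/

namespace Pool.Agent.MP_f7db47_al.VC

open Matrix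

/-- Trace of a restriction through a projection. -/
theorem SwE_trace_restrict {V : Type} [AddCommGroup V] [Module ℚ V] [FiniteDimensional ℚ V]
    (W : Submodule ℚ V) (f p : V →ₗ[ℚ] V) (hf : W ≤ W.comap f) (hp : ∀ v, p v ∈ W)
    (hp' : ∀ w ∈ W, p w = w) :
    LinearMap.trace ℚ W (f.restrict hf) = LinearMap.trace ℚ V (f ∘ₗ p) := by
  have e1 : f ∘ₗ p = W.subtype ∘ₗ (f.restrict hf ∘ₗ p.codRestrict W hp) := by
    ext v; simp [LinearMap.restrict_apply]
  have e2 : (f.restrict hf ∘ₗ p.codRestrict W hp) ∘ₗ W.subtype = f.restrict hf := by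
    ext w
    simp [LinearMap.restrict_apply, hp' w w.2]
  rw [e1, LinearMap.trace_comp_comm', e2]

/-- An equivariant map has an equivariant generalised inverse. -/
theorem SwE_ginv {G V V' : Type} [Group G] [Finite G] [AddCommGroup V] [Module ℚ V]
    [AddCommGroup V'] [Module ℚ V']
    (ρ : Representation ℚ G V) (ρ' : Representation ℚ G V') (φ : V →ₗ[ℚ] V')
    (hφ : ∀ g x, φ (ρ g x) = ρ' g (φ x)) :
    ∃ s : V' →ₗ[ℚ] V, (∀ g y, s (ρ' g y) = ρ g (s y)) ∧ ∀ x, φ (s (φ x)) = φ x := by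
  classical
  have := Fintype.ofFinite G
  obtain ⟨r, hr⟩ := φ.rangeRestrict.exists_rightInverse_of_surjective φ.range_rangeRestrict
  obtain ⟨l, hl⟩ := (LinearMap.range φ).subtype.exists_leftInverse_of_injective
    (Submodule.ker_subtype _)
  have ht : ∀ x, φ (r (l (φ x))) = φ x := by
    intro x
    have h1 : l (φ x) = ⟨φ x, LinearMap.mem_range_self φ x⟩ :=
      LinearMap.congr_fun hl ⟨φ x, LinearMap.mem_range_self φ x⟩
    have h2 := LinearMap.congr_fun hr ⟨φ x, LinearMap.mem_range_self φ x⟩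
    rw [h1]
    exact congrArg Subtype.val h2
  have hc : (Fintype.card G : ℚ) ≠ 0 := Nat.cast_ne_zero.mpr Fintype.card_ne_zero
  refine ⟨(Fintype.card G : ℚ)⁻¹ • ∑ g : G, (ρ g ∘ₗ (r ∘ₗ l) ∘ₗ ρ' g⁻¹), ?_, ?_⟩
  · intro a y
    simp only [LinearMap.smul_apply, LinearMap.sum_apply, LinearMap.comp_apply, map_smul, map_sum]
    congr 1
    refine (Fintype.sum_bijective (fun g => a * g) (Group.mulLeft_bijective a) _ _ ?_).symm
    intro g
    have e : ρ' (a * g)⁻¹ (ρ' a y) = ρ' g⁻¹ y := by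
      rw [← Module.End.mul_apply, ← map_mul]; simp
    rw [e, map_mul, Module.End.mul_apply]
  · intro x
    simp only [LinearMap.smul_apply, LinearMap.sum_apply, LinearMap.comp_apply, map_smul, map_sum]
    have e : ∀ g : G, φ (ρ g (r (l (ρ' g⁻¹ (φ x))))) = φ x := by
      intro g
      rw [hφ, ← hφ g⁻¹, ht, hφ, ← Module.End.mul_apply, ← map_mul]; simp
    simp only [e, Finset.sum_const, Finset.card_univ]
    rw [← Nat.cast_smul_eq_nsmul ℚ, smul_smul, inv_mul_cancel₀ hc, one_smul]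

/-- Equal characters of nonzero representations give a nonzero equivariant map. -/
theorem SwE_nonzero {G V V' : Type} [Group G] [Finite G] [AddCommGroup V] [Module ℚ V]
    [FiniteDimensional ℚ V] [AddCommGroup V'] [Module ℚ V'] [FiniteDimensional ℚ V']
    (ρ : Representation ℚ G V) (ρ' : Representation ℚ G V')
    (h : ∀ g, LinearMap.trace ℚ V (ρ g) = LinearMap.trace ℚ V' (ρ' g)) (v : V) (hv : v ≠ 0) :
    ∃ ψ : V →ₗ[ℚ] V', (∀ g x, ψ (ρ g x) = ρ' g (ψ x)) ∧ ∃ x, ψ x ≠ 0 := by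
  classical
  have := Fintype.ofFinite G
  have hc : (Nat.card G : ℚ) ≠ 0 := Nat.cast_ne_zero.mpr Nat.card_pos.ne'
  let _ : Invertible (Nat.card G : ℚ) := invertibleOfNonzero hc
  have h1 := Representation.card_inv_mul_sum_char_mul_char_eq_finrank ρ ρ'
  have h2 := Representation.card_inv_mul_sum_char_mul_char_eq_finrank ρ ρ
  have h3 : ρ'.character = ρ.character := funext fun g => (h g).symm
  rw [h3, h2] at h1
  have h4 : Module.finrank ℚ (ρ.IntertwiningMap ρ) = Module.finrank ℚ (ρ.IntertwiningMap ρ') := by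
    exact_mod_cast h1
  by_contra hn
  have hs : Subsingleton (ρ.IntertwiningMap ρ') := by
    refine subsingleton_of_forall_eq 0 fun f => ?_
    apply Representation.IntertwiningMap.ext
    ext x
    by_contra hx
    exact hn ⟨f.toLinearMap, fun g y => f.isIntertwining ρ ρ' g y, x, hx⟩
  have hf : FiniteDimensional ℚ (ρ.IntertwiningMap ρ) :=
    (Representation.invariantsEquivIntertwiningMap ρ ρ).finiteDimensional
  rw [Module.finrank_zero_of_subsingleton (M := ρ.IntertwiningMap ρ'),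
    Module.finrank_zero_iff] at h4
  have h5 : Representation.IntertwiningMap.id ρ = 0 := Subsingleton.elim _ _
  have h6 : Representation.IntertwiningMap.id ρ v = (0 : ρ.IntertwiningMap ρ) v := by rw [h5]
  exact hv h6

theorem rep_iso {G V V' : Type} [Group G] [Finite G] [AddCommGroup V] [Module ℚ V]
    [FiniteDimensional ℚ V] [AddCommGroup V'] [Module ℚ V'] [FiniteDimensional ℚ V']
    (ρ : Representation ℚ G V) (ρ' : Representation ℚ G V')
    (h : ∀ g, LinearMap.trace ℚ V (ρ g) = LinearMap.trace ℚ V' (ρ' g)) :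
    ∃ e : V ≃ₗ[ℚ] V', ∀ g x, e (ρ g x) = ρ' g (e x) := by
  classical
  have hex : ∃ n, ∃ φ : V →ₗ[ℚ] V', (∀ g x, φ (ρ g x) = ρ' g (φ x)) ∧
      Module.finrank ℚ (LinearMap.ker φ) = n := ⟨_, 0, by simp, rfl⟩
  obtain ⟨φ, hφ, hn⟩ := Nat.find_spec hex
  have hinj : Function.Injective φ := by
    rw [← LinearMap.ker_eq_bot]
    by_contra hk
    obtain ⟨v, hvK, hv0⟩ := Submodule.exists_mem_ne_zero_of_ne_bot hk
    obtain ⟨s, hs, hsφ⟩ := SwE_ginv ρ ρ' φ hφ
    set p : V →ₗ[ℚ] V := LinearMap.id - s ∘ₗ φ with hp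
    set q : V' →ₗ[ℚ] V' := LinearMap.id - φ ∘ₗ s with hq
    have pa : ∀ x, p x = x - s (φ x) := fun x => rfl
    have qa : ∀ y, q y = y - φ (s y) := fun y => rfl
    have hK : ∀ g, LinearMap.ker φ ≤ (LinearMap.ker φ).comap (ρ g) := by
      intro g x hx
      rw [Submodule.mem_comap, LinearMap.mem_ker, hφ, LinearMap.mem_ker.mp hx, map_zero]
    have qe : ∀ g y, q (ρ' g y) = ρ' g (q y) := by
      intro g y; rw [qa, qa, hs, hφ, map_sub]
    have pe : ∀ g x, p (ρ g x) = ρ g (p x) := by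
      intro g x; rw [pa, pa, hφ, hs, map_sub]
    have hC : ∀ g, LinearMap.range q ≤ (LinearMap.range q).comap (ρ' g) := by
      rintro g _ ⟨y, rfl⟩
      exact ⟨ρ' g y, qe g y⟩
    have pK : ∀ x, p x ∈ LinearMap.ker φ := by
      intro x; rw [LinearMap.mem_ker, pa, map_sub, hsφ, sub_self]
    have pK' : ∀ w ∈ LinearMap.ker φ, p w = w := by
      intro w hw; rw [pa, LinearMap.mem_ker.mp hw, map_zero, sub_zero]
    have qφ : ∀ x, q (φ x) = 0 := by
      intro x; rw [qa, hsφ, sub_self]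
    have qC' : ∀ w ∈ LinearMap.range q, q w = w := by
      rintro _ ⟨y, rfl⟩
      conv_lhs => rw [qa y, map_sub, qφ, sub_zero]
    have htr : ∀ g, LinearMap.trace ℚ _ (ρ.subrepresentation _ hK g) =
        LinearMap.trace ℚ _ (ρ'.subrepresentation _ hC g) := by
      intro g
      have a1 := SwE_trace_restrict _ (ρ g) p (hK g) pK pK'
      have a2 := SwE_trace_restrict _ (ρ' g) q (hC g) (fun y => LinearMap.mem_range_self q y) qC'
      have a3 : ρ g ∘ₗ p = ρ g - (ρ g ∘ₗ s) ∘ₗ φ := by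
        ext x; simp [pa]
      have a4 : ρ' g ∘ₗ q = ρ' g - φ ∘ₗ (ρ g ∘ₗ s) := by
        ext y; simp [qa, hφ]
      rw [a3, map_sub, h g, LinearMap.trace_comp_comm'] at a1
      rw [a4, map_sub] at a2
      exact a1.trans a2.symm
    obtain ⟨ψ, hψ, x, hx⟩ := SwE_nonzero _ _ htr ⟨v, hvK⟩
      (fun e => hv0 (congrArg Subtype.val e))
    let φ' : V →ₗ[ℚ] V' :=
      φ + (LinearMap.range q).subtype ∘ₗ ψ ∘ₗ p.codRestrict _ pK
    have fa : ∀ y, φ' y = φ y + (ψ ⟨p y, pK y⟩ : V') := fun y => rfl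
    have he : ∀ g y, φ' (ρ g y) = ρ' g (φ' y) := by
      intro g y
      have e : (⟨p (ρ g y), pK _⟩ : LinearMap.ker φ) =
          ρ.subrepresentation _ hK g ⟨p y, pK y⟩ := Subtype.ext (pe g y)
      rw [fa, fa, e, hψ, hφ, map_add]
      rfl
    have hlt : LinearMap.ker φ' < LinearMap.ker φ := by
      refine lt_of_le_of_ne ?_ ?_
      · intro y hy
        rw [LinearMap.mem_ker, fa] at hy
        have h1 := congrArg q hy
        rw [map_add, qφ, zero_add, qC' _ (ψ ⟨p y, pK y⟩).2, map_zero] at h1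
        rw [h1, add_zero] at hy
        exact hy
      · intro e
        have h1 : (x : V) ∈ LinearMap.ker φ' := by rw [e]; exact x.2
        have h2 : (⟨p x, pK x⟩ : LinearMap.ker φ) = x := Subtype.ext (pK' x x.2)
        rw [LinearMap.mem_ker, fa, h2, LinearMap.mem_ker.mp x.2, zero_add] at h1
        exact hx (Subtype.ext h1)
    have h1 := Submodule.finrank_lt_finrank_of_lt hlt
    have h2 := Nat.find_min' hex ⟨φ', he, rfl⟩
    omega
  have hd : Module.finrank ℚ V = Module.finrank ℚ V' := by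
    have h1 := h 1
    rw [map_one ρ, map_one ρ', LinearMap.trace_one, LinearMap.trace_one] at h1
    exact_mod_cast h1
  exact ⟨LinearEquiv.ofBijective φ
    ⟨hinj, (LinearMap.injective_iff_surjective_of_finrank_eq_finrank hd).mp hinj⟩, hφ⟩

end Pool.Agent.MP_f7db47_al.VC

end

section

/-!
The difference of two finite sets with equal characters has square zero.
-/

namespace Pool.Agent.MP_f7db47_al.VC

open Matrix

universe w

variable {G : Type} [Group G] {X Y : Type} [Fintype X] [DecidableEq X] [Fintype Y]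
  [DecidableEq Y] (σ : G →* Equiv.Perm X) (τ : G →* Equiv.Perm Y)

/-- The rational permutation representation. -/
noncomputable def SwF_q : Representation ℚ G (X → ℚ) :=
  (Matrix.toLinAlgEquiv' (R := ℚ) (n := X)).toMonoidHom.comp
    ((Int.castRingHom ℚ).mapMatrix.toMonoidHom.comp (permRep σ))

theorem SwF_q_apply (g : G) :
    SwF_q σ g = Matrix.toLin' ((permRep σ g).map (Int.castRingHom ℚ)) := rfl

theorem SwF_trace (g : G) :
    LinearMap.trace ℚ _ (SwF_q σ g) = Nat.card {x // σ g x = x} := by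
  rw [SwF_q_apply, Matrix.trace_toLin'_eq, Nat.card_eq_fintype_card, Fintype.card_subtype,
    Finset.card_filter]
  simp [Matrix.trace, permRep]

omit [DecidableEq X] [DecidableEq Y] in
theorem SwF_den (F : Matrix X Y ℚ) : ∃ (c : ℕ) (f : Matrix X Y ℤ), 0 < c ∧
    f.map (Int.castRingHom ℚ) = (c : ℚ) • F := by
  have h1 : ∀ x y, ∃ k : ℕ, ∏ p : X × Y, (F p.1 p.2).den = (F x y).den * k := fun x y =>
    Finset.dvd_prod_of_mem (fun p : X × Y => (F p.1 p.2).den) (Finset.mem_univ (x, y))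
  choose k hk using h1
  refine ⟨∏ p : X × Y, (F p.1 p.2).den, Matrix.of fun x y => (F x y).num * k x y,
    Finset.prod_pos fun p _ => Rat.den_pos _, ?_⟩
  ext x y
  rw [Matrix.smul_apply, hk x y, Matrix.map_apply, Matrix.of_apply, smul_eq_mul]
  have h2 := Rat.mul_den_eq_num (F x y)
  simp only [eq_intCast, Int.cast_mul, Int.cast_natCast, Nat.cast_mul]
  linear_combination (-(k x y : ℚ)) * h2

theorem SwF_app (g : G) (v : X → ℤ) (x : X) : matRep (permRep σ) g v x = v ((σ g).symm x) := by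
  change (permRep σ g *ᵥ v) x = _
  simp [permRep, Matrix.mulVec, dotProduct, ← Equiv.eq_symm_apply]

theorem SwF_tp {W : Type w} [AddCommGroup W] (S : SwanM ℤ G W) :
    S.κ ((matRep (permRep σ)).tprod (matRep (permRep τ))) =
      S.κ (matRep (permRep (permProd σ τ))) := by
  refine S.iso _ _ ((Pi.basisFun ℤ X).tensorProduct (Pi.basisFun ℤ Y)).equivFun fun g x => ?_
  induction x using TensorProduct.induction_on with
  | zero => simp
  | add x y hx hy => simp only [map_add, hx, hy]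
  | tmul x y =>
    funext p
    obtain ⟨i, j⟩ := p
    rw [SwF_app]
    simp [permProd, SwF_app]

theorem perm_inter (h : ∀ g, Nat.card {x // σ g x = x} = Nat.card {y // τ g y = y}) :
    ∃ (n : ℕ) (f : Matrix X Y ℤ) (f' : Matrix Y X ℤ), 0 < n ∧ f * f' = (n : ℤ) • 1 ∧
      f' * f = (n : ℤ) • 1 ∧ ∀ g, f * permRep τ g = permRep σ g * f := by
  let σ' : (σ.prod τ).range →* Equiv.Perm X := (MonoidHom.fst _ _).comp (σ.prod τ).range.subtype
  let τ' : (σ.prod τ).range →* Equiv.Perm Y := (MonoidHom.snd _ _).comp (σ.prod τ).range.subtype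
  obtain ⟨e, he⟩ := rep_iso (SwF_q τ') (SwF_q σ') (by
    rintro ⟨_, g, rfl⟩
    rw [SwF_trace, SwF_trace]
    exact congrArg Nat.cast (h g).symm)
  obtain ⟨c, f, hc, hf⟩ := SwF_den (LinearMap.toMatrix' e.toLinearMap)
  obtain ⟨c', f', hc', hf'⟩ := SwF_den (LinearMap.toMatrix' e.symm.toLinearMap)
  have hi : Function.Injective (Int.castRingHom ℚ) := Int.cast_injective
  refine ⟨c * c', f, f', Nat.mul_pos hc hc', ?_, ?_, fun g => ?_⟩
  · apply Matrix.map_injective hi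
    change (f * f').map _ = Matrix.map _ _
    rw [Matrix.map_mul, hf, hf', Matrix.smul_mul, Matrix.mul_smul, ← LinearMap.toMatrix'_comp,
      LinearEquiv.comp_coe, LinearEquiv.symm_trans_self]
    ext x y
    rw [Matrix.map_apply, Matrix.smul_apply, Matrix.smul_apply, Matrix.smul_apply]
    by_cases hxy : x = y <;> simp [Matrix.one_apply, hxy]
  · apply Matrix.map_injective hi
    change (f' * f).map _ = Matrix.map _ _
    rw [Matrix.map_mul, hf, hf', Matrix.smul_mul, Matrix.mul_smul, ← LinearMap.toMatrix'_comp,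
      LinearEquiv.comp_coe, LinearEquiv.self_trans_symm]
    ext x y
    rw [Matrix.map_apply, Matrix.smul_apply, Matrix.smul_apply, Matrix.smul_apply]
    by_cases hxy : x = y <;> simp [Matrix.one_apply, hxy, mul_comm]
  · apply Matrix.map_injective hi
    change (f * permRep τ g).map _ = (permRep σ g * f).map _
    have h1 : e.toLinearMap ∘ₗ Matrix.toLin' ((permRep τ g).map (Int.castRingHom ℚ)) =
        Matrix.toLin' ((permRep σ g).map (Int.castRingHom ℚ)) ∘ₗ e.toLinearMap :=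
      LinearMap.ext (he ⟨_, g, rfl⟩)
    have h2 := congrArg LinearMap.toMatrix' h1
    rw [LinearMap.toMatrix'_comp, LinearMap.toMatrix'_comp, LinearMap.toMatrix'_toLin',
      LinearMap.toMatrix'_toLin'] at h2
    rw [Matrix.map_mul, Matrix.map_mul, hf, Matrix.smul_mul, Matrix.mul_smul, h2]

theorem swan_sq {W : Type w} [AddCommGroup W] (S : Swan G W)
    (h : ∀ g, Nat.card {x // σ g x = x} = Nat.card {y // τ g y = y}) :
    S.κ (permRep (permProd σ σ)) + S.κ (permRep (permProd τ τ)) =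
      S.κ (permRep (permProd τ σ)) + S.κ (permRep (permProd σ τ)) := by
  obtain ⟨S', hS⟩ := S.toM
  obtain ⟨n, f, f', hn, h1, h2, h3⟩ := perm_inter σ τ h
  have hn' : (n : ℤ) ≠ 0 := by exact_mod_cast hn.ne'
  have e1 : ∀ g x, Matrix.toLin' f (matRep (permRep τ) g x) =
      matRep (permRep σ) g (Matrix.toLin' f x) := fun g x => by
    change f *ᵥ (permRep τ g *ᵥ x) = permRep σ g *ᵥ (f *ᵥ x)
    rw [Matrix.mulVec_mulVec, Matrix.mulVec_mulVec, h3]
  have e2 : Function.Injective (Matrix.toLin' f) := fun x y hxy => by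
    have h4 : f' *ᵥ (f *ᵥ x) = f' *ᵥ (f *ᵥ y) := congrArg (f' *ᵥ ·) hxy
    rw [Matrix.mulVec_mulVec, Matrix.mulVec_mulVec, h2, Matrix.smul_mulVec, Matrix.smul_mulVec,
      Matrix.one_mulVec, Matrix.one_mulVec] at h4
    exact smul_right_injective _ hn' h4
  have e3 : ∀ x, (n : ℤ) • x ∈ (Matrix.toLin' f).range := fun x => ⟨f' *ᵥ x, by
    rw [Matrix.toLin'_apply, Matrix.mulVec_mulVec, h1, Matrix.smul_mulVec, Matrix.one_mulVec]⟩
  have h5 := S'.sq (matRep (permRep σ)) (matRep (permRep τ)) (matRep (permRep σ))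
    (matRep (permRep τ)) _ _ e1 e1 e2 e2 n n hn' hn' e3 e3
  simpa only [SwF_tp, hS] using h5

end Pool.Agent.MP_f7db47_al.VC

end

section

/-!
The induction theorem used in the method of Farrell and Hsiang.
-/

namespace Pool.Agent.MP_f7db47_al.VC

open Matrix

universe w

section

variable {G : Type} [Group G] {W : Type w} [AddCommGroup W] (S : Swan G W)
  {X Y X' Y' : Type} [Finite X] [Finite Y] [Finite X'] [Finite Y']

open Classical in
/-- The invariant of a finite set with an action. -/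
noncomputable def SwG_k (σ : G →* Equiv.Perm X) : W :=
  @Swan.κ G _ W _ S X (Fintype.ofFinite X) _ (@permRep G X _ (Fintype.ofFinite X) _ σ)

theorem SwG_k_eq {Z : Type} [i : Fintype Z] [d : DecidableEq Z] (τ : G →* Equiv.Perm Z) :
    SwG_k S τ = S.κ (permRep τ) := by
  obtain rfl : d = fun a b => Classical.propDecidable (a = b) := Subsingleton.elim _ _
  unfold SwG_k
  rw [Subsingleton.elim (Fintype.ofFinite Z) i]

theorem SwG_equiv (σ : G →* Equiv.Perm X) (τ : G →* Equiv.Perm Y) (e : X ≃ Y)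
    (he : ∀ g x, e (σ g x) = τ g (e x)) : SwG_k S σ = SwG_k S τ := by
  classical
  cases nonempty_fintype X
  cases nonempty_fintype Y
  rw [SwG_k_eq, SwG_k_eq, S.perm_equiv σ τ e he]

/-- The action on a disjoint union. -/
def SwG_sum {X Y : Type} (σ : G →* Equiv.Perm X) (τ : G →* Equiv.Perm Y) :
    G →* Equiv.Perm (X ⊕ Y) :=
  (Equiv.Perm.sumCongrHom X Y).comp (σ.prod τ)

theorem SwG_k_sum (σ : G →* Equiv.Perm X) (τ : G →* Equiv.Perm Y) :
    SwG_k S (SwG_sum σ τ) = SwG_k S σ + SwG_k S τ := by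
  classical
  cases nonempty_fintype X
  cases nonempty_fintype Y
  rw [SwG_k_eq, SwG_k_eq, SwG_k_eq,
    S.perm_sum σ τ (SwG_sum σ τ) (Equiv.refl _) (fun _ _ => rfl) fun _ _ => rfl]

/-- The product with `σ` multiplies the invariant by `n`. -/
def SwG_Val (σ : G →* Equiv.Perm X) (n : ℤ) : Prop :=
  ∀ (Z : Type) [Finite Z] (ρ : G →* Equiv.Perm Z), SwG_k S (permProd σ ρ) = n • SwG_k S ρ

variable {S} {σ : G →* Equiv.Perm X} {τ : G →* Equiv.Perm Y} {a b : ℤ}

theorem SwG_val_sum (h : SwG_Val S σ a) (h' : SwG_Val S τ b) :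
    SwG_Val S (SwG_sum σ τ) (a + b) := fun Z _ ρ => by
  rw [add_smul, ← h, ← h', ← SwG_k_sum]
  exact SwG_equiv S _ _ (Equiv.sumProdDistrib X Y Z) (by rintro g ⟨x | y, z⟩ <;> rfl)

theorem SwG_val_prod (h : SwG_Val S σ a) (h' : SwG_Val S τ b) :
    SwG_Val S (permProd σ τ) (a * b) := fun Z _ ρ => by
  rw [mul_smul, ← h', ← h]
  exact SwG_equiv S _ _ (Equiv.prodAssoc X Y Z) fun _ _ => rfl

theorem SwG_val_equiv (h : SwG_Val S σ a) (e : Y ≃ X) (he : ∀ g y, e (τ g y) = σ g (e y)) :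
    SwG_Val S τ a := fun Z _ ρ => by
  rw [← h]
  exact SwG_equiv S _ _ (e.prodCongr (Equiv.refl Z)) fun g y => Prod.ext (he g y.1) rfl

theorem SwG_val_one [Unique X] : SwG_Val S (1 : G →* Equiv.Perm X) 1 := fun Z _ ρ => by
  rw [one_smul]
  exact SwG_equiv S _ _ (Equiv.uniqueProd Z X) fun _ _ => rfl

theorem SwG_val_fin (n : ℕ) : SwG_Val S (1 : G →* Equiv.Perm (Fin n)) n := by
  induction n with
  | zero =>
    intro Z _ ρ
    have h := SwG_k_sum S (permProd (1 : G →* Equiv.Perm (Fin 0)) ρ)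
      (permProd (1 : G →* Equiv.Perm (Fin 0)) ρ)
    rw [SwG_equiv S _ (permProd (1 : G →* Equiv.Perm (Fin 0)) ρ) (Equiv.equivOfIsEmpty _ _)
      fun _ x => isEmptyElim x] at h
    rw [Nat.cast_zero, zero_smul]
    exact left_eq_add.1 h
  | succ n ih =>
    rw [Nat.cast_succ]
    refine SwG_val_equiv (SwG_val_sum ih (SwG_val_one (X := Fin 1))) finSumFinEquiv.symm
      fun g y => ?_
    change finSumFinEquiv.symm y = _
    rcases finSumFinEquiv.symm y with x | x <;> rfl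

theorem SwG_val_triv : SwG_Val S (1 : G →* Equiv.Perm X) (Nat.card X) :=
  SwG_val_equiv (SwG_val_fin _) (Finite.equivFin X) fun _ _ => rfl

/-- The number of fixed points. -/
noncomputable def SwG_fix {X : Type} (σ : G →* Equiv.Perm X) (g : G) : ℤ :=
  Nat.card {x // σ g x = x}

theorem SwG_fix_sum (σ : G →* Equiv.Perm X) (τ : G →* Equiv.Perm Y) (g : G) :
    SwG_fix (SwG_sum σ τ) g = SwG_fix σ g + SwG_fix τ g := by
  rw [SwG_fix, SwG_fix, SwG_fix, ← Nat.cast_add, ← Nat.card_sum]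
  exact congrArg _ (Nat.card_congr (Equiv.subtypeSum.trans (Equiv.sumCongr
    (Equiv.subtypeEquivRight fun _ => Sum.inl_injective.eq_iff)
    (Equiv.subtypeEquivRight fun _ => Sum.inr_injective.eq_iff))))

theorem SwG_fix_prod {X Y : Type} (σ : G →* Equiv.Perm X) (τ : G →* Equiv.Perm Y) (g : G) :
    SwG_fix (permProd σ τ) g = SwG_fix σ g * SwG_fix τ g := by
  rw [SwG_fix, SwG_fix, SwG_fix, ← Nat.cast_mul, ← Nat.card_prod]
  exact congrArg _ (Nat.card_congr ((Equiv.subtypeEquivRight fun _ => Prod.ext_iff).trans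
    (Equiv.subtypeProdEquivProd (p := fun x => σ g x = x) (q := fun y => τ g y = y))))

theorem SwG_fix_one {X : Type} {σ : G →* Equiv.Perm X} {g : G} (h : σ g = 1) :
    SwG_fix σ g = Nat.card X :=
  congrArg _ (Nat.card_congr (Equiv.subtypeUnivEquiv fun x => by rw [h]; rfl))

variable (S) in
/-- Differences of finite sets with value `n` and character `c`. -/
def SwG_Vir (n : ℤ) (c : G → ℤ) : Prop :=
  ∃ (P M : Type) (_ : Finite P) (_ : Finite M) (σ : G →* Equiv.Perm P) (τ : G →* Equiv.Perm M)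
    (a b : ℤ), SwG_Val S σ a ∧ SwG_Val S τ b ∧ a - b = n ∧ ∀ g, SwG_fix σ g - SwG_fix τ g = c g

theorem SwG_vir_mul {n n' : ℤ} {c c' : G → ℤ} (h : SwG_Vir S n c) (h' : SwG_Vir S n' c') :
    SwG_Vir S (n * n') fun g => c g * c' g := by
  obtain ⟨P, M, _, _, σ, τ, a, b, h1, h2, rfl, h3⟩ := h
  obtain ⟨P', M', _, _, σ', τ', a', b', h1', h2', rfl, h3'⟩ := h'
  refine ⟨_, _, inferInstance, inferInstance, _, _, _, _,
    SwG_val_sum (SwG_val_prod h1 h1') (SwG_val_prod h2 h2'),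
    SwG_val_sum (SwG_val_prod h1 h2') (SwG_val_prod h2 h1'), by ring, fun g => ?_⟩
  simp only [SwG_fix_sum, SwG_fix_prod, ← h3, ← h3']
  ring

theorem SwG_vir_zero {n : ℤ} {c : G → ℤ} (h : SwG_Vir S n c) (hc : ∀ g, c g = 0) :
    n ^ 2 • SwG_k S (1 : G →* Equiv.Perm Unit) = 0 := by
  classical
  obtain ⟨P, M, _, _, σ, τ, a, b, h1, h2, rfl, h3⟩ := h
  cases nonempty_fintype P
  cases nonempty_fintype M
  have h4 := swan_sq σ τ S fun g =>
    Nat.cast_injective (R := ℤ) (sub_eq_zero.1 ((h3 g).trans (hc g)))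
  have h5 := (SwG_equiv S _ σ (Equiv.prodUnique P Unit) fun _ _ => rfl).symm.trans (h1 Unit 1)
  have h6 := (SwG_equiv S _ τ (Equiv.prodUnique M Unit) fun _ _ => rfl).symm.trans (h2 Unit 1)
  simp only [← SwG_k_eq] at h4
  rw [h1, h2, h1, h2, h5, h6] at h4
  linear_combination (norm := module) h4

end

theorem swan_fh {G : Type} [Group G] {W : Type w} [AddCommGroup W] (S : Swan G W) {s : ℕ}
    {X₀ : Type} [Finite X₀] (σ₀ : G →* Equiv.Perm X₀) {X : Fin s → Type} [∀ i, Finite (X i)]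
    (σ : ∀ i, G →* Equiv.Perm (X i))
    (h₀ : ∀ (Z : Type) [Fintype Z] [DecidableEq Z] (τ : G →* Equiv.Perm Z) (u : Z → X₀),
      (∀ g z, u (τ g z) = σ₀ g (u z)) → S.κ (permRep τ) = 0)
    (h : ∀ (i : Fin s) (Z : Type) [Fintype Z] [DecidableEq Z] (τ : G →* Equiv.Perm Z)
      (u : Z → X i), (∀ g z, u (τ g z) = σ i g (u z)) → S.κ (permRep τ) = 0)
    (hg : ∀ g, (∃! x, σ₀ g x = x) ∨ ∃ i, σ i g = 1) :
    (∏ i, Nat.card (X i)) ^ 2 • S.κ (1 : G →* Matrix Unit Unit ℤ) = 0 := by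
  classical
  have hv₀ : SwG_Val S σ₀ 0 := fun Z _ ρ => by
    cases nonempty_fintype (X₀ × Z)
    rw [SwG_k_eq, zero_smul]
    exact h₀ _ _ Prod.fst fun _ _ => rfl
  have hv : ∀ i, SwG_Val S (σ i) 0 := fun i Z _ ρ => by
    cases nonempty_fintype (X i × Z)
    rw [SwG_k_eq, zero_smul]
    exact h i _ _ Prod.fst fun _ _ => rfl
  have h1 : ∀ t : Finset (Fin s), SwG_Vir S (-∏ i ∈ t, (Nat.card (X i) : ℤ))
      fun g => (SwG_fix σ₀ g - 1) * ∏ i ∈ t, ((Nat.card (X i) : ℤ) - SwG_fix (σ i) g) := by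
    intro t
    induction t using Finset.induction_on with
    | empty =>
      refine ⟨X₀, Unit, inferInstance, inferInstance, σ₀, 1, 0, 1, hv₀, SwG_val_one, by simp,
        fun g => ?_⟩
      rw [SwG_fix_one (σ := (1 : G →* Equiv.Perm Unit)) rfl]
      simp
    | insert i t hi ih =>
      have h2 : SwG_Vir S (Nat.card (X i)) fun g => Nat.card (X i) - SwG_fix (σ i) g :=
        ⟨X i, X i, inferInstance, inferInstance, 1, σ i, _, 0, SwG_val_triv, hv i, sub_zero _,
          fun g => by rw [SwG_fix_one (σ := (1 : G →* Equiv.Perm (X i))) rfl]⟩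
      have h3 := SwG_vir_mul h2 ih
      simp only [Finset.prod_insert hi]
      convert h3 using 2 <;> ring
  have h2 := SwG_vir_zero (h1 Finset.univ) fun g => by
    rcases hg g with h3 | ⟨i, h3⟩
    · have h4 : Nat.card {x // σ₀ g x = x} = 1 :=
        Nat.card_eq_one_iff_exists.2
          (h3.elim fun x hx hx' => ⟨⟨x, hx⟩, fun y => Subtype.ext (hx' y y.2)⟩)
      rw [SwG_fix, h4, Nat.cast_one, sub_self, zero_mul]
    · rw [Finset.prod_eq_zero (Finset.mem_univ i) (by rw [SwG_fix_one h3, sub_self]), mul_zero]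
  have h3 : permRep (1 : G →* Equiv.Perm Unit) = 1 := by
    ext g x y
    simp [permRep]
  rw [SwG_k_eq, h3, neg_sq, ← Nat.cast_prod, ← Nat.cast_pow, natCast_zsmul] at h2
  exact h2

end Pool.Agent.MP_f7db47_al.VC

end

section

/-!
Constructions of linear data.
-/

namespace Pool.Agent.MP_f7db47_al.VC

open GN GF Function

variable {Γ : Type} [Group Γ]

/-- A representation by endomorphisms is a representation by automorphisms. -/
noncomputable def Lin1_eqv {G V : Type} [Group G] [AddCommGroup V] [Module ℚ V]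
    (ρ : G →* Module.End ℚ V) : G →* (V ≃ₗ[ℚ] V) :=
  (LinearMap.GeneralLinearGroup.generalLinearEquiv ℚ V).toMonoidHom.comp ρ.toHomUnits

theorem Lin1_eqv_apply {G V : Type} [Group G] [AddCommGroup V] [Module ℚ V]
    (ρ : G →* Module.End ℚ V) (g : G) (v : V) : Lin1_eqv ρ g v = ρ g v := rfl

theorem Lin1_eqv_one {G V : Type} [Group G] [AddCommGroup V] [Module ℚ V]
    (ρ : G →* Module.End ℚ V) (g : G) (h : ρ g = 1) : Lin1_eqv ρ g = 1 :=
  LinearEquiv.ext fun v => by rw [Lin1_eqv_apply, h]; rfl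

theorem Lin1_base {G M : Type} [Group G] [AddCommGroup M] (c : G →* Module.End ℤ M)
    (ht : ∀ (n : ℤ) (m : M), n ≠ 0 → n • m = 0 → m = 0) :
    ∃ (U : Type) (_ : AddCommGroup U) (_ : Module ℚ U) (L : G →* (U ≃ₗ[ℚ] U)) (ε : M →+ U),
      (∀ m, ε m = 0 → m = 0) ∧ (∀ g m, ε (c g m) = L g (ε m)) ∧ ∀ g, c g = 1 → L g = 1 := by
  let ρ : G →* Module.End ℚ (TensorProduct ℤ ℚ M) :=
    { toFun := fun g => LinearMap.baseChange ℚ (c g)
      map_one' := by rw [map_one, LinearMap.baseChange_one]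
      map_mul' := fun g h => by rw [map_mul, LinearMap.baseChange_mul] }
  refine ⟨TensorProduct ℤ ℚ M, inferInstance, inferInstance, Lin1_eqv ρ,
    (TensorProduct.mk ℤ ℚ M 1).toAddMonoidHom, fun m hm => ?_, fun g m => ?_, fun g hg => ?_⟩
  · obtain ⟨n, hn⟩ := (IsLocalizedModule.eq_zero_iff (nonZeroDivisors ℤ)
      (TensorProduct.mk ℤ ℚ M 1)).1 hm
    exact ht n m (nonZeroDivisors.coe_ne_zero n) hn
  · rw [Lin1_eqv_apply]
    exact (LinearMap.baseChange_tmul (c g) 1 m).symm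
  · refine Lin1_eqv_one ρ g ?_
    show LinearMap.baseChange ℚ (c g) = 1
    rw [hg, LinearMap.baseChange_one]

theorem exists_lin (ψ : Γ →* MZ) (A : Subgroup Γ) (hA : A.Normal) (hle : A ≤ ψ.ker)
    (hi : A.relIndex ψ.ker ≠ 0) (hc : ∀ a ∈ A, ∀ b ∈ A, a * b = b * a)
    (ht : ∀ a ∈ A, IsOfFinOrder a → a = 1) :
    ∃ (U : Type) (_ : AddCommGroup U) (_ : Module ℚ U), Nonempty (Lin Γ U) := by
  classical
  let _ : CommGroup A :=
    { (inferInstance : Group A) with mul_comm := fun a b => Subtype.ext (hc a a.2 b b.2) }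
  let c : Γ →* Module.End ℤ (Additive A) :=
    { toFun := fun g =>
        (MonoidHom.toAdditive (MulAut.conjNormal (H := A) g).toMonoidHom).toIntLinearMap
      map_one' := by
        ext a
        simp
      map_mul' := fun g h => by
        ext a
        simp [mul_assoc] }
  have hcv (g : Γ) (a : A) : c g (Additive.ofMul a) = Additive.ofMul (MulAut.conjNormal g a) := rfl
  obtain ⟨U, i1, i2, L, ε, h1, h2, h3⟩ := Lin1_base c fun n m hn hm => by
    have h : (Additive.toMul m) ^ n = 1 := congrArg Additive.toMul hm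
    have h' : ((Additive.toMul m : A) : Γ) ^ n = 1 := by
      rw [← Subgroup.coe_zpow, h, Subgroup.coe_one]
    have := ht _ (Additive.toMul m).2 (isOfFinOrder_iff_zpow_eq_one.2 ⟨n, hn, h'⟩)
    exact congrArg Additive.ofMul (Subtype.ext this : Additive.toMul m = 1)
  let e : Γ → U := fun g => if h : g ∈ A then ε (Additive.ofMul ⟨g, h⟩) else 0
  have he (a : Γ) (ha : a ∈ A) : e a = ε (Additive.ofMul ⟨a, ha⟩) := dif_pos ha
  refine ⟨U, i1, i2, ⟨⟨ψ, A, L, e, hA, hle, hi, fun a ha b hb => ?_, fun a ha h => ?_,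
    fun γ a ha => ?_, fun a ha => h3 a ?_⟩⟩⟩
  · rw [he a ha, he b hb, he _ (A.mul_mem ha hb), ← map_add]
    rfl
  · rw [he a ha] at h
    exact congrArg (fun m : Additive A => ((Additive.toMul m : A) : Γ)) (h1 _ h)
  · rw [he a ha, he _ (hA.conj_mem a ha γ), ← h2, hcv]
    rfl
  · refine LinearMap.ext fun m => ?_
    show Additive.ofMul (MulAut.conjNormal a (Additive.toMul m)) = m
    refine congrArg Additive.ofMul (Subtype.ext ?_ : _ = Additive.toMul m)
    rw [MulAut.conjNormal_apply, hc a ha _ (Additive.toMul m).2, mul_inv_cancel_right]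

variable {U : Type} [AddCommGroup U] [Module ℚ U] (D : Lin Γ U)

theorem Lin.e_one : D.e 1 = 0 := by
  have h := D.add 1 D.A.one_mem 1 D.A.one_mem
  rw [mul_one] at h
  exact left_eq_add.1 h

theorem Lin.e_inv {a : Γ} (ha : a ∈ D.A) : D.e a⁻¹ = -D.e a := by
  have h := D.add a⁻¹ (D.A.inv_mem ha) a ha
  rw [inv_mul_cancel, D.e_one] at h
  exact eq_neg_of_add_eq_zero_left h.symm

theorem Lin.e_inj {a b : Γ} (ha : a ∈ D.A) (hb : b ∈ D.A) (h : D.e a = D.e b) : a = b := by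
  refine mul_inv_eq_one.1 (D.inj _ (D.A.mul_mem ha (D.A.inv_mem hb)) ?_)
  rw [D.add a ha _ (D.A.inv_mem hb), D.e_inv hb, h, add_neg_cancel]

theorem Lin.comm {a b : Γ} (ha : a ∈ D.A) (hb : b ∈ D.A) : a * b = b * a := by
  refine D.e_inj (D.A.mul_mem ha hb) (D.A.mul_mem hb ha) ?_
  rw [D.add a ha b hb, D.add b hb a ha, add_comm]

/-- The elements of `A` that lie in a subspace. -/
def Lin.AW (W : Submodule ℚ U) : Subgroup Γ where
  carrier := {a | a ∈ D.A ∧ D.e a ∈ W}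
  one_mem' := ⟨D.A.one_mem, D.e_one ▸ W.zero_mem⟩
  mul_mem' ha hb := ⟨D.A.mul_mem ha.1 hb.1, D.add _ ha.1 _ hb.1 ▸ W.add_mem ha.2 hb.2⟩
  inv_mem' ha := ⟨D.A.inv_mem ha.1, D.e_inv ha.1 ▸ W.neg_mem ha.2⟩

theorem Lin.mem_AW {W : Submodule ℚ U} {a : Γ} : a ∈ D.AW W ↔ a ∈ D.A ∧ D.e a ∈ W := Iff.rfl

theorem Lin.restrict {H : Type} [Group H] (j : H →* Γ) (hj : Injective j) (W : Submodule ℚ U)
    (hW : ∀ h, ∀ u ∈ W, D.L (j h) u ∈ W) (ψ : H →* MZ) (h1 : (D.AW W).comap j ≤ ψ.ker)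
    (h2 : ((D.AW W).comap j).relIndex ψ.ker ≠ 0) : Nonempty (Lin H W) := by
  classical
  let ρ : H →* Module.End ℚ W :=
    { toFun := fun h => (D.L (j h)).toLinearMap.restrict (hW h)
      map_one' := by
        ext u
        simp
      map_mul' := fun g h => by
        ext u
        simp }
  have hρ (h : H) (u : W) : ((Lin1_eqv ρ h u : W) : U) = D.L (j h) u := rfl
  let e : H → W := fun h => if hh : D.e (j h) ∈ W then ⟨_, hh⟩ else 0
  have he (a : H) (ha : a ∈ (D.AW W).comap j) : (e a : U) = D.e (j a) :=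
    congrArg Subtype.val (dif_pos ha.2 : e a = ⟨_, ha.2⟩)
  have hN : ((D.AW W).comap j).Normal := ⟨fun a ha γ => by
    refine ⟨?_, ?_⟩
    · rw [map_mul, map_mul, map_inv]
      exact D.normal.conj_mem _ ha.1 _
    · rw [map_mul, map_mul, map_inv, D.conj _ _ ha.1]
      exact hW γ _ ha.2⟩
  refine ⟨⟨ψ, (D.AW W).comap j, Lin1_eqv ρ, e, hN, h1, h2, fun a ha b hb => Subtype.ext ?_,
    fun a ha h => hj ?_, fun γ a ha => Subtype.ext ?_, fun a ha => ?_⟩⟩
  · rw [Submodule.coe_add, he a ha, he b hb, he _ (Subgroup.mul_mem _ ha hb), map_mul,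
      D.add _ ha.1 _ hb.1]
  · rw [map_one]
    refine D.inj _ ha.1 ?_
    rw [← he a ha, h, Submodule.coe_zero]
  · rw [hρ, he a ha, he _ (hN.conj_mem a ha γ), map_mul, map_mul, map_inv, D.conj _ _ ha.1]
  · refine LinearEquiv.ext fun u => Subtype.ext ?_
    rw [hρ, D.triv _ ha.1]
    rfl

theorem Lin.quot (W : Submodule ℚ U) (hW : ∀ γ, ∀ u ∈ W, D.L γ u ∈ W) :
    ∃ (Γ' : Type) (_ : Group Γ') (p : Γ →* Γ'), p.ker = D.AW W ∧ Nonempty (Lin Γ' (U ⧸ W)) := by
  classical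
  have hN : (D.AW W).Normal := ⟨fun a ha γ =>
    ⟨D.normal.conj_mem _ ha.1 _, by rw [D.conj _ _ ha.1]; exact hW γ _ ha.2⟩⟩
  have hle : D.AW W ≤ D.A := fun a ha => ha.1
  let p := QuotientGroup.mk' (D.AW W)
  have hp : p.ker = D.AW W := QuotientGroup.ker_mk' _
  have hps : Surjective p := QuotientGroup.mk'_surjective _
  let ρ₀ : Γ →* Module.End ℚ (U ⧸ W) :=
    { toFun := fun g => W.mapQ W (D.L g).toLinearMap (hW g)
      map_one' := by
        ext u
        simp
      map_mul' := fun g h => by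
        ext u
        simp }
  have hρ₀ (g : Γ) (u : U) : ρ₀ g (W.mkQ u) = W.mkQ (D.L g u) := rfl
  have hρ₁ (a : Γ) (ha : a ∈ D.A) : ρ₀ a = 1 := by
    ext u
    show ρ₀ a (W.mkQ u) = W.mkQ u
    rw [hρ₀, D.triv a ha]
    rfl
  let L : Γ ⧸ D.AW W →* ((U ⧸ W) ≃ₗ[ℚ] (U ⧸ W)) :=
    QuotientGroup.lift (D.AW W) (Lin1_eqv ρ₀) fun a ha => Lin1_eqv_one ρ₀ a (hρ₁ a ha.1)
  have hL (g : Γ) : L (p g) = Lin1_eqv ρ₀ g := rfl
  let ψ : Γ ⧸ D.AW W →* MZ := QuotientGroup.lift (D.AW W) D.ψ fun a ha => D.le ha.1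
  have hψ (g : Γ) : ψ (p g) = D.ψ g := rfl
  let e : Γ ⧸ D.AW W → U ⧸ W := fun x => W.mkQ (D.e x.out)
  have he (a : Γ) (ha : a ∈ D.A) : e (p a) = W.mkQ (D.e a) := by
    obtain ⟨h, hh⟩ := QuotientGroup.mk_out_eq_mul (D.AW W) a
    show W.mkQ (D.e (QuotientGroup.mk a : Γ ⧸ D.AW W).out) = _
    rw [hh, D.add a ha _ h.2.1, map_add, W.mkQ_apply (D.e h),
      (Submodule.Quotient.mk_eq_zero W).2 h.2.2, add_zero]
  have hk : ψ.ker = D.ψ.ker.map p := by
    ext x
    obtain ⟨g, rfl⟩ := hps x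
    refine ⟨fun h => ⟨g, h, rfl⟩, ?_⟩
    rintro ⟨g', h, h'⟩
    rw [← h']
    exact h
  refine ⟨Γ ⧸ D.AW W, inferInstance, p, hp, ⟨⟨ψ, D.A.map p, L, e, D.normal.map p hps, ?_, ?_, ?_,
    ?_, ?_, ?_⟩⟩⟩
  · rw [hk]
    exact Subgroup.map_mono D.le
  · rw [hk, Subgroup.relIndex_map_map, hp, sup_eq_left.2 hle, sup_eq_left.2 (hle.trans D.le)]
    exact D.idx
  · rintro _ ⟨a, ha, rfl⟩ _ ⟨b, hb, rfl⟩
    rw [← map_mul, he a ha, he b hb, he _ (D.A.mul_mem ha hb), D.add a ha b hb, map_add]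
  · rintro _ ⟨a, ha, rfl⟩ h
    rw [he a ha] at h
    have : a ∈ p.ker := by
      rw [hp]
      exact ⟨ha, (Submodule.Quotient.mk_eq_zero W).1 h⟩
    exact this
  · rintro x _ ⟨a, ha, rfl⟩
    obtain ⟨g, rfl⟩ := hps x
    rw [← map_inv, ← map_mul, ← map_mul, he a ha, he _ (D.normal.conj_mem a ha g), hL,
      Lin1_eqv_apply, hρ₀, D.conj g a ha]
  · rintro _ ⟨a, ha, rfl⟩
    rw [hL]
    exact Lin1_eqv_one ρ₀ a (hρ₁ a ha)

end Pool.Agent.MP_f7db47_al.VC

end

section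

/-!
Improving the Lipschitz constant of a flow.
-/

namespace Pool.Agent.MP_f7db47_al.VC

open GN GF Metric

/-- A copy of the space. -/
def WF_Y (Y : Type) : Type := Y

/-- The identity map to the copy. -/
def WF_e (Y : Type) : Y ≃ WF_Y Y := Equiv.refl Y

section

variable {Γ Y : Type} [Group Γ] [MetricSpace Y] [MulAction Γ Y] (F : WFlow Γ Y)

/-- The new distance. -/
noncomputable def WF_d (y y' : Y) : ℝ :=
  ⨆ s : ℝ, Real.exp (-(F.κ * |s|)) * dist (F.Φ s y) (F.Φ s y')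

theorem WF_iff {κ r x t : ℝ} :
    Real.exp (-(κ * |t|)) * x ≤ r ↔ x ≤ r * Real.exp (κ * |t|) := by
  rw [Real.exp_neg, inv_mul_le_iff₀ (Real.exp_pos _), mul_comm]

theorem WF_lip (s : ℝ) (y y' : Y) :
    dist (F.Φ s y) (F.Φ s y') ≤ F.A * dist y y' * Real.exp (F.κ * |s|) :=
  (F.lip s y y').trans_eq (mul_right_comm _ _ _)

theorem WF_le (y y' : Y) (r : ℝ) :
    WF_d F y y' ≤ r ↔ ∀ s, dist (F.Φ s y) (F.Φ s y') ≤ r * Real.exp (F.κ * |s|) := by
  unfold WF_d
  rw [ciSup_le_iff ⟨F.A * dist y y', by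
    rintro _ ⟨s, rfl⟩
    exact WF_iff.2 (WF_lip F s y y')⟩]
  exact forall_congr' fun t => WF_iff

theorem WF_pt (y y' : Y) (s : ℝ) :
    dist (F.Φ s y) (F.Φ s y') ≤ WF_d F y y' * Real.exp (F.κ * |s|) :=
  (WF_le F y y' _).1 le_rfl s

theorem WF_zero (y y' : Y) : dist y y' ≤ WF_d F y y' := by
  simpa [F.zero] using WF_pt F y y' 0

theorem WF_up (y y' : Y) : WF_d F y y' ≤ F.A * dist y y' :=
  (WF_le F y y' _).2 fun s => WF_lip F s y y'

theorem WF_comm (y y' : Y) : WF_d F y y' = WF_d F y' y := by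
  unfold WF_d
  simp only [dist_comm]

/-- The new metric. -/
@[reducible] noncomputable def WF_met : MetricSpace (WF_Y Y) where
  dist := WF_d (Y := Y) F
  dist_self c := le_antisymm ((WF_le F c c 0).2 fun t => by simp)
    (dist_nonneg.trans (WF_zero F c c))
  dist_comm c c' := WF_comm F c c'
  dist_triangle c c' c'' := (WF_le F c c'' _).2 fun t => by
    rw [add_mul]
    exact (dist_triangle _ (F.Φ t c') _).trans (add_le_add (WF_pt F c c' t) (WF_pt F c' c'' t))
  eq_of_dist_eq_zero := fun {c c'} e =>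
    (dist_le_zero (γ := Y)).1 ((WF_zero F c c').trans_eq e)

theorem WF_ball (y : Y) (r : ℝ) :
    letI := WF_met F
    IsCompact (closedBall (WF_e Y y) r) ∧ Cov (closedBall (WF_e Y y) r) F.m := by
  let _ := WF_met F
  have hf : ∀ p p' : Y, dist (WF_e Y p) (WF_e Y p') ≤ F.A * dist p p' := WF_up F
  have hs : closedBall (WF_e Y y) r ⊆ WF_e Y '' closedBall y r := fun c hc =>
    ⟨c, (WF_zero F c y).trans hc, rfl⟩
  have hc : Continuous (WF_e Y) := (LipschitzWith.of_dist_le' hf).continuous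
  exact ⟨((F.cpt y r).image hc).of_isClosed_subset isClosed_closedBall hs,
    ((F.cov y r).image _ F.A fun p _ p' _ => hf p p').subset hs⟩

end

theorem WFlow.toFlow {Γ Y : Type} [Group Γ] [MetricSpace Y] [MulAction Γ Y] (F : WFlow Γ Y) :
    ∃ (Y' : Type) (_ : MetricSpace Y') (_ : MulAction Γ Y') (F' : Flow Γ Y') (e : Y ≃ Y'),
      (∀ (γ : Γ) y, e (γ • y) = γ • e y) ∧ (∀ s y, e (F.Φ s y) = F'.Φ s (e y)) ∧
      ∀ y y', dist (e y) (e y') ≤ F.A * dist y y' := by
  have h1 : ∀ (γ : Γ) (y y' : Y), WF_d F (γ • y) (γ • y') = WF_d F y y' := fun γ y y' => by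
    unfold WF_d
    simp only [F.smul, F.iso]
  have h2 : ∀ (s : ℝ) (y y' : Y),
      WF_d F (F.Φ s y) (F.Φ s y') ≤ Real.exp (F.κ * |s|) * WF_d F y y' := fun s y y' =>
    (WF_le F _ _ _).2 fun t => by
      have h3 : Real.exp (F.κ * |t + s|) ≤ Real.exp (F.κ * |s|) * Real.exp (F.κ * |t|) := by
        rw [← Real.exp_add, Real.exp_le_exp, ← mul_add, add_comm |s|]
        exact mul_le_mul_of_nonneg_left (abs_add_le t s) F.hκ
      rw [← F.add, ← F.add]
      refine (WF_pt F y y' (t + s)).trans ((mul_le_mul_of_nonneg_left h3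
        (dist_nonneg.trans (WF_zero F y y'))).trans_eq ?_)
      ring
  have h3 : ∀ (s t : ℝ) (y : Y), WF_d F (F.Φ s y) (F.Φ t y) ≤ |s - t| := fun s t y =>
    (WF_le F _ _ _).2 fun u => by
      have h4 := F.spd (u + s) (u + t) y
      rw [add_sub_add_left_eq_sub] at h4
      rw [← F.add, ← F.add]
      exact h4.trans (le_mul_of_one_le_right (abs_nonneg _)
        (Real.one_le_exp (mul_nonneg F.hκ (abs_nonneg u))))
  let _ := WF_met F
  let _ : MulAction Γ (WF_Y Y) := inferInstanceAs (MulAction Γ Y)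
  exact ⟨WF_Y Y, inferInstance, inferInstance,
    { Φ := F.Φ
      κ := F.κ
      m := F.m
      hκ := F.hκ
      zero := F.zero
      add := F.add
      smul := F.smul
      iso := h1
      lip := h2
      spd := h3
      prp := fun y r => (F.prp y r).subset fun γ hγ => (WF_zero F _ _).trans hγ
      cpt := fun y r => (WF_ball F y r).1
      cov := fun y r => (WF_ball F y r).2 }, WF_e Y, fun _ _ => rfl, fun _ _ => rfl, WF_up F⟩

end Pool.Agent.MP_f7db47_al.VC

end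

section

/-!
The flow space of an affine action.
-/

namespace Pool.Agent.MP_f7db47_al.VC

open GN GF Metric

/-- The data of an affine action. -/
structure AF1_D (Γ E : Type) [Group Γ] [NormedAddCommGroup E] where
  ψ : Γ →* MZ
  L : Γ →* AddMonoid.End E
  b : Γ → E
  hb : ∀ g h, b (g * h) = b g + L g (b h)
  C : ℝ
  κ : ℝ
  hC : 0 ≤ C
  hκ : 0 < κ
  hL : ∀ g x, ‖L g x‖ ≤ C * Real.exp (κ * |dg ψ g|) * ‖x‖

theorem AF1_exp {κ a b c : ℝ} (hκ : 0 ≤ κ) (h : a ≤ b + c) :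
    Real.exp (κ * a) ≤ Real.exp (κ * b) * Real.exp (κ * c) := by
  rw [← Real.exp_add, Real.exp_le_exp, ← mul_add]
  exact mul_le_mul_of_nonneg_left h hκ

theorem AF1_log {c t : ℝ} (hc : 1 ≤ c) (ht : 0 ≤ t) :
    Real.log (1 + c * t) ≤ c * Real.log (1 + t) := by
  rw [← Real.log_rpow (by linarith)]
  exact Real.log_le_log (by positivity) (one_add_mul_self_le_rpow_one_add (by linarith) hc)

namespace AF1_D

variable {Γ E : Type} [Group Γ] [NormedAddCommGroup E] (D : AF1_D Γ E)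

theorem L_mul (g h : Γ) (x : E) : D.L (g * h) x = D.L g (D.L h x) := by
  rw [map_mul]
  rfl

theorem L_one (x : E) : D.L 1 x = x := by
  rw [map_one]
  rfl

theorem b_one : D.b 1 = 0 := by
  have := D.hb 1 1
  rw [one_mul, D.L_one] at this
  exact left_eq_add.1 this

/-- The norm at height `τ`. -/
noncomputable def n (τ : ℝ) (x : E) : ℝ :=
  ⨆ g : Γ, Real.exp (-(D.κ * |τ - dg D.ψ g|)) * ‖D.L g⁻¹ x‖

theorem bd (τ : ℝ) (x : E) (g : Γ) : ‖D.L g⁻¹ x‖ ≤
    D.C * Real.exp (D.κ * |τ|) * ‖x‖ * Real.exp (D.κ * |τ - dg D.ψ g|) := by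
  have h1 : |dg D.ψ g⁻¹| ≤ |τ| + |τ - dg D.ψ g| := by
    rw [dg_inv, abs_neg]
    simpa using abs_sub τ (τ - dg D.ψ g)
  refine (D.hL _ x).trans ((mul_le_mul_of_nonneg_right (mul_le_mul_of_nonneg_left
    (AF1_exp D.hκ.le h1) D.hC) (norm_nonneg x)).trans_eq ?_)
  ring

theorem n_le (τ : ℝ) (x : E) (r : ℝ) :
    D.n τ x ≤ r ↔ ∀ g, ‖D.L g⁻¹ x‖ ≤ r * Real.exp (D.κ * |τ - dg D.ψ g|) := by
  unfold n
  rw [ciSup_le_iff ⟨D.C * Real.exp (D.κ * |τ|) * ‖x‖, by
    rintro _ ⟨g, rfl⟩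
    exact WF_iff.2 (D.bd τ x g)⟩]
  exact forall_congr' fun t => WF_iff

theorem n_pt (τ : ℝ) (x : E) (g : Γ) :
    ‖D.L g⁻¹ x‖ ≤ D.n τ x * Real.exp (D.κ * |τ - dg D.ψ g|) :=
  (D.n_le τ x _).1 le_rfl g

theorem n_low (τ : ℝ) (x : E) : ‖x‖ ≤ D.n τ x * Real.exp (D.κ * |τ|) := by
  simpa only [inv_one, D.L_one, dg_one, sub_zero] using D.n_pt τ x 1

theorem n_nonneg (τ : ℝ) (x : E) : 0 ≤ D.n τ x :=
  nonneg_of_mul_nonneg_left ((norm_nonneg x).trans (D.n_low τ x)) (Real.exp_pos _)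

theorem n_time (τ τ' : ℝ) (x : E) : D.n τ' x ≤ Real.exp (D.κ * |τ - τ'|) * D.n τ x :=
  (D.n_le _ _ _).2 fun g => by
    refine (D.n_pt τ x g).trans ((mul_le_mul_of_nonneg_left
      (AF1_exp D.hκ.le (abs_sub_le τ τ' _)) (D.n_nonneg τ x)).trans_eq ?_)
    ring

theorem n_act (τ : ℝ) (x : E) (h : Γ) : D.n (τ + dg D.ψ h) (D.L h x) = D.n τ x := by
  have key : ∀ (τ : ℝ) (x : E) (h : Γ), D.n (τ + dg D.ψ h) (D.L h x) ≤ D.n τ x := fun τ x h =>
    (D.n_le _ _ _).2 fun g => by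
      have := D.n_pt τ x (h⁻¹ * g)
      rw [mul_inv_rev, inv_inv, D.L_mul, dg_mul, dg_inv] at this
      rwa [show τ + dg D.ψ h - dg D.ψ g = τ - (-dg D.ψ h + dg D.ψ g) by ring]
  refine le_antisymm (key τ x h) ?_
  have := key (τ + dg D.ψ h) (D.L h x) h⁻¹
  rwa [← D.L_mul, inv_mul_cancel, D.L_one, dg_inv, add_neg_cancel_right] at this

/-- The logarithmic norm at height `τ`. -/
noncomputable def l (τ : ℝ) (x : E) : ℝ := Real.log (1 + D.n τ x) / D.κ

theorem l_nonneg (τ : ℝ) (x : E) : 0 ≤ D.l τ x :=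
  div_nonneg (Real.log_nonneg (by linarith [D.n_nonneg τ x])) D.hκ.le

theorem l_up (τ : ℝ) (x : E) : D.l τ x ≤ D.C / D.κ * Real.exp (D.κ * |τ|) * ‖x‖ := by
  have h1 := Real.log_le_sub_one_of_pos (x := 1 + D.n τ x) (by linarith [D.n_nonneg τ x])
  have h2 := (D.n_le τ x _).2 (D.bd τ x)
  refine (div_le_div_of_nonneg_right (b := D.C * Real.exp (D.κ * |τ|) * ‖x‖) (by linarith)
    D.hκ.le).trans_eq ?_
  ring

theorem l_low {τ r : ℝ} {x : E} (h : D.l τ x ≤ r) :
    ‖x‖ ≤ (Real.exp (D.κ * r) - 1) * Real.exp (D.κ * |τ|) := by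
  rw [l, div_le_iff₀' D.hκ, Real.log_le_iff_le_exp (by linarith [D.n_nonneg τ x])] at h
  exact (D.n_low τ x).trans (mul_le_mul_of_nonneg_right (by linarith) (Real.exp_pos _).le)

theorem l_add (τ : ℝ) (x y : E) : D.l τ (x + y) ≤ D.l τ x + D.l τ y := by
  have h1 : D.n τ (x + y) ≤ D.n τ x + D.n τ y := (D.n_le _ _ _).2 fun g => by
    rw [map_add, add_mul]
    exact (norm_add_le _ _).trans (add_le_add (D.n_pt τ x g) (D.n_pt τ y g))
  have h2 := D.n_nonneg τ x
  have h3 := D.n_nonneg τ y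
  have h4 := D.n_nonneg τ (x + y)
  unfold l
  rw [← add_div, ← Real.log_mul (by positivity) (by positivity)]
  exact div_le_div_of_nonneg_right (Real.log_le_log (by positivity)
    (by nlinarith [mul_nonneg h2 h3])) D.hκ.le

theorem l_comm (τ : ℝ) (x y : E) : D.l τ (x - y) = D.l τ (y - x) := by
  unfold l n
  simp only [map_sub, norm_sub_rev (D.L _ x)]

theorem l_time (τ τ' : ℝ) (x : E) : D.l τ' x ≤ |τ - τ'| + D.l τ x := by
  have h1 := D.n_time τ τ' x
  have h2 := D.n_nonneg τ x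
  have h3 := D.n_nonneg τ' x
  have h4 := Real.one_le_exp (mul_nonneg D.hκ.le (abs_nonneg (τ - τ')))
  unfold l
  rw [div_le_iff₀' D.hκ, mul_add, mul_div_cancel₀ _ D.hκ.ne', Real.log_le_iff_le_exp
    (by positivity), Real.exp_add, Real.exp_log (by positivity)]
  linarith

theorem l_lip (τ s : ℝ) (x : E) : D.l (τ + s) x ≤ Real.exp (D.κ * |s|) * D.l τ x := by
  have h1 := D.n_time τ (τ + s) x
  rw [sub_add_cancel_left, abs_neg] at h1
  have h2 := D.n_nonneg (τ + s) x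
  unfold l
  rw [← mul_div_assoc]
  exact div_le_div_of_nonneg_right ((Real.log_le_log (by positivity) (by linarith)).trans
    (AF1_log (Real.one_le_exp (mul_nonneg D.hκ.le (abs_nonneg s))) (D.n_nonneg τ x))) D.hκ.le

/-- The test functions. -/
noncomputable def f : Option E → E × ℝ → ℝ
  | none, y => y.2
  | some c, y => D.l y.2 (y.1 - c)

theorem f_le (c : Option E) (y y' : E × ℝ) :
    |D.f c y - D.f c y'| ≤ |y.2 - y'.2| + D.l y.2 (y.1 - y'.1) := by
  cases c with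
  | none => exact le_add_of_nonneg_right (D.l_nonneg _ _)
  | some c =>
    have h1 := D.l_add y.2 (y.1 - y'.1) (y'.1 - c)
    have h2 := D.l_add y.2 (y'.1 - y.1) (y.1 - c)
    have h3 := D.l_time y.2 y'.2 (y'.1 - c)
    have h4 := D.l_time y'.2 y.2 (y'.1 - c)
    rw [sub_add_sub_cancel] at h1 h2
    rw [D.l_comm _ y'.1 y.1] at h2
    rw [abs_sub_comm] at h4
    exact abs_le.2 ⟨by simp only [f]; linarith, by simp only [f]; linarith⟩

/-- The distance. -/
noncomputable def d (y y' : E × ℝ) : ℝ := ⨆ c, |D.f c y - D.f c y'|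

theorem d_le (y y' : E × ℝ) (r : ℝ) : D.d y y' ≤ r ↔ ∀ c, |D.f c y - D.f c y'| ≤ r :=
  ciSup_le_iff ⟨_, by
    rintro _ ⟨c, rfl⟩
    exact D.f_le c y y'⟩

theorem d_pt (y y' : E × ℝ) (c : Option E) : |D.f c y - D.f c y'| ≤ D.d y y' :=
  (D.d_le y y' _).1 le_rfl c

theorem d_up (y y' : E × ℝ) : D.d y y' ≤ |y.2 - y'.2| + D.l y.2 (y.1 - y'.1) :=
  (D.d_le _ _ _).2 fun c => D.f_le c y y'

theorem d_t (y y' : E × ℝ) : |y.2 - y'.2| ≤ D.d y y' := D.d_pt y y' none

theorem l_zero (τ : ℝ) (x : E) : D.l τ (x - x) = 0 :=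
  le_antisymm ((D.l_up _ _).trans_eq (by simp)) (D.l_nonneg _ _)

theorem d_low (y y' : E × ℝ) : D.l y.2 (y.1 - y'.1) ≤ D.d y y' := by
  have := D.d_pt y y' (some y'.1)
  simp only [f, D.l_zero, sub_zero] at this
  exact (le_abs_self _).trans this

theorem d_comm (y y' : E × ℝ) : D.d y y' = D.d y' y := by
  unfold d
  simp only [abs_sub_comm (D.f _ y)]

/-- The metric. -/
@[reducible] noncomputable def met : MetricSpace (WF_Y (E × ℝ)) where
  dist := D.d
  dist_self c := le_antisymm ((D.d_le c c 0).2 fun t => by simp)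
    ((abs_nonneg _).trans (D.d_t c c))
  dist_comm c c' := D.d_comm c c'
  dist_triangle c c' c'' := (D.d_le c c'' _).2 fun t =>
    (abs_sub_le _ (D.f t c') _).trans (add_le_add (D.d_pt c c' t) (D.d_pt c' c'' t))
  eq_of_dist_eq_zero := fun {c c'} e => by
    have h1 := D.l_low ((D.d_low c c').trans_eq e)
    rw [mul_zero, Real.exp_zero, sub_self, zero_mul, norm_le_zero_iff, sub_eq_zero] at h1
    exact Prod.ext h1 (sub_eq_zero.1 (abs_nonpos_iff.1 ((D.d_t c c').trans_eq e)))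

/-- The action. -/
def act (g : Γ) (y : E × ℝ) : E × ℝ := (D.b g + D.L g y.1, y.2 + dg D.ψ g)

theorem act_one (y : E × ℝ) : D.act 1 y = y := by
  simp only [act, D.b_one, D.L_one, dg_one, zero_add, add_zero]

theorem act_mul (g h : Γ) (y : E × ℝ) : D.act (g * h) y = D.act g (D.act h y) := by
  simp only [act, D.hb, D.L_mul, dg_mul, map_add, add_assoc, add_comm (dg D.ψ g)]

theorem act_iso (g : Γ) (y y' : E × ℝ) : D.d (D.act g y) (D.act g y') = D.d y y' := by
  have key : ∀ (g : Γ) (y y' : E × ℝ), D.d (D.act g y) (D.act g y') ≤ D.d y y' := fun g y y' =>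
    (D.d_le _ _ _).2 fun c => by
      cases c with
      | none => simpa only [f, act, add_sub_add_right_eq_sub] using D.d_t y y'
      | some c =>
        have h1 : ∀ z : E × ℝ, D.f (some c) (D.act g z) =
            D.f (some (D.L g⁻¹ (c - D.b g))) z := fun z => by
          simp only [f, act, l]
          rw [← D.n_act z.2 _ g, map_sub, ← D.L_mul, mul_inv_cancel, D.L_one]
          congr 4
          abel
        rw [h1, h1]
        exact D.d_pt y y' _
  refine le_antisymm (key g y y') ?_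
  have := key g⁻¹ (D.act g y) (D.act g y')
  rwa [← D.act_mul, ← D.act_mul, inv_mul_cancel, D.act_one, D.act_one] at this

theorem prp (hp : ∀ r : ℝ, {g | |dg D.ψ g| ≤ r ∧ ‖D.b g‖ ≤ r}.Finite) (y : E × ℝ) (r : ℝ) :
    {g : Γ | D.d (D.act g y) y ≤ r}.Finite := by
  refine (hp (max r (‖y.1‖ + D.C * Real.exp (D.κ * r) * ‖y.1‖ +
    (Real.exp (D.κ * r) - 1) * Real.exp (D.κ * |y.2|)))).subset fun g hg => ?_
  have h1 : |dg D.ψ g| ≤ r := by
    simpa only [act, add_sub_cancel_left] using (D.d_t _ _).trans hg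
  have h2 := D.l_low ((D.d_low y (D.act g y)).trans ((D.d_comm _ _).trans_le hg))
  have h3 := (D.hL g y.1).trans (mul_le_mul_of_nonneg_right (mul_le_mul_of_nonneg_left
    (Real.exp_le_exp.2 (mul_le_mul_of_nonneg_left h1 D.hκ.le)) D.hC) (norm_nonneg _))
  refine ⟨h1.trans (le_max_left _ _), le_trans ?_ (le_max_right _ _)⟩
  have h4 : D.b g = y.1 - D.L g y.1 - (y.1 - (D.act g y).1) := by
    simp only [act]
    abel
  rw [h4]
  exact (norm_sub_le _ _).trans (add_le_add ((norm_sub_le _ _).trans (add_le_add le_rfl h3)) h2)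

theorem ball [ProperSpace E] {m : ℕ} (hE : ∀ r : ℝ, Cov (closedBall (0 : E) r) m)
    (y : E × ℝ) (r : ℝ) :
    letI := D.met
    IsCompact (closedBall (WF_e _ y) r) ∧ Cov (closedBall (WF_e _ y) r) (m + 1) := by
  let _ := D.met
  set R := max (‖y.1‖ + (Real.exp (D.κ * r) - 1) * Real.exp (D.κ * |y.2|)) (|y.2| + r)
  have hA : 0 ≤ D.C / D.κ := div_nonneg D.hC D.hκ.le
  have hf : ∀ p ∈ closedBall (0 : E) R ×ˢ closedBall (0 : ℝ) R,
      ∀ p' ∈ closedBall (0 : E) R ×ˢ closedBall (0 : ℝ) R,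
      dist (WF_e _ p) (WF_e _ p') ≤ (1 + D.C / D.κ * Real.exp (D.κ * R)) * dist p p' := by
    intro p hp p' _
    have h1 : |p.2| ≤ R := mem_closedBall_zero_iff.1 hp.2
    have h2 : |p.2 - p'.2| ≤ dist p p' := le_max_right (dist p.1 p'.1) (dist p.2 p'.2)
    have h3 : ‖p.1 - p'.1‖ ≤ dist p p' :=
      (dist_eq_norm _ _).symm.trans_le (le_max_left (dist p.1 p'.1) (dist p.2 p'.2))
    rw [add_mul, one_mul]
    refine (D.d_up p p').trans (add_le_add h2 ((D.l_up _ _).trans ?_))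
    exact mul_le_mul (mul_le_mul_of_nonneg_left (Real.exp_le_exp.2
      (mul_le_mul_of_nonneg_left h1 D.hκ.le)) hA) h3 (norm_nonneg _) (by positivity)
  have hs : closedBall (WF_e _ y) r ⊆
      WF_e _ '' (closedBall (0 : E) R ×ˢ closedBall (0 : ℝ) R) := fun c hc => by
    have h0 : D.d y c ≤ r := (D.d_comm y c).trans_le hc
    have h1 := D.l_low ((D.d_low y c).trans h0)
    have h2 := (D.d_t y c).trans h0
    refine ⟨c, ⟨mem_closedBall_zero_iff.2 (le_trans ?_ (le_max_left _ _)),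
      mem_closedBall_zero_iff.2 (le_trans ?_ (le_max_right _ _))⟩, rfl⟩
    · exact (norm_le_insert y.1 _).trans (add_le_add le_rfl h1)
    · exact (norm_le_insert y.2 _).trans (add_le_add le_rfl h2)
  exact ⟨(((isCompact_closedBall _ _).prod (isCompact_closedBall _ _)).image_of_continuousOn
    (LipschitzOnWith.of_dist_le' hf).continuousOn).of_isClosed_subset isClosed_closedBall hs,
    (((hE R).prod (cov_real R)).image _ _ hf).subset hs⟩

end AF1_D

theorem exists_aflow {Γ E : Type} [Group Γ] [NormedAddCommGroup E] [ProperSpace E] {m : ℕ}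
    (hE : ∀ r : ℝ, Cov (closedBall (0 : E) r) m) (ψ : Γ →* MZ) (L : Γ →* AddMonoid.End E)
    (b : Γ → E) (hb : ∀ g h, b (g * h) = b g + L g (b h)) (C κ : ℝ) (hκ : 0 < κ)
    (hL : ∀ g x, ‖L g x‖ ≤ C * Real.exp (κ * |dg ψ g|) * ‖x‖)
    (hp : ∀ r : ℝ, {g | |dg ψ g| ≤ r ∧ ‖b g‖ ≤ r}.Finite) :
    ∃ (Y : Type) (_ : MetricSpace Y) (_ : MulAction Γ Y) (F : Flow Γ Y) (pt : E × ℝ ≃ Y) (A : ℝ),
      (∀ (g : Γ) x τ, g • pt (x, τ) = pt (b g + L g x, τ + dg ψ g)) ∧
      (∀ s x τ, F.Φ s (pt (x, τ)) = pt (x, τ + s)) ∧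
      ∀ x x' τ, dist (pt (x, τ)) (pt (x', τ)) ≤ A * Real.exp (κ * |τ|) * ‖x - x'‖ := by
  let D : AF1_D Γ E := ⟨ψ, L, b, hb, max C 0, κ, le_max_right _ _, hκ, fun g x =>
    (hL g x).trans (mul_le_mul_of_nonneg_right (mul_le_mul_of_nonneg_right (le_max_left _ _)
      (Real.exp_pos _).le) (norm_nonneg _))⟩
  let _ := D.met
  let _ : MulAction Γ (WF_Y (E × ℝ)) :=
    { smul := D.act
      one_smul := D.act_one
      mul_smul := D.act_mul }
  let Φ : ℝ → E × ℝ → E × ℝ := fun s y => (y.1, y.2 + s)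
  have h1 : ∀ s y y', D.d (Φ s y) (Φ s y') ≤ 2 * Real.exp (κ * |s|) * D.d y y' := by
    intro s y y'
    have h2 := D.d_up (Φ s y) (Φ s y')
    simp only [Φ, add_sub_add_right_eq_sub] at h2
    have h3 := D.l_lip y.2 s (y.1 - y'.1)
    have h4 := Real.one_le_exp (mul_nonneg hκ.le (abs_nonneg s))
    have h5 := mul_le_mul_of_nonneg_left (D.d_low y y') (Real.exp_pos (κ * |s|)).le
    have h6 := D.d_t y y'
    have h7 := le_mul_of_one_le_left ((abs_nonneg _).trans h6) h4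
    have h8 : D.κ = κ := rfl
    rw [h8] at h3
    linarith
  let F : WFlow Γ (WF_Y (E × ℝ)) :=
    { Φ := Φ
      κ := κ
      A := 2
      m := m + 1
      hκ := hκ.le
      zero := fun y => Prod.ext rfl (add_zero _)
      add := fun s t y => Prod.ext rfl (by simp only [Φ]; ring)
      smul := fun g s y => Prod.ext rfl (add_right_comm _ _ _)
      iso := D.act_iso
      lip := h1
      spd := fun s t y => (D.d_up _ _).trans_eq (by
        simp only [Φ, D.l_zero, add_zero, add_sub_add_left_eq_sub])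
      prp := D.prp hp
      cpt := fun y r => (D.ball hE y r).1
      cov := fun y r => (D.ball hE y r).2 }
  obtain ⟨Y, i1, i2, F', e, e1, e2, e3⟩ := F.toFlow
  refine ⟨Y, i1, i2, F', (WF_e _).trans e, 2 * (D.C / κ), fun g x τ => (e1 g _).symm,
    fun s x τ => (e2 s _).symm, fun x x' τ => (e3 _ _).trans ?_⟩
  have h2 := D.d_up (x, τ) (x', τ)
  rw [sub_self, abs_zero, zero_add] at h2
  rw [mul_assoc, mul_assoc, ← mul_assoc (D.C / κ)]
  exact mul_le_mul_of_nonneg_left (h2.trans (D.l_up _ _)) zero_le_two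

end Pool.Agent.MP_f7db47_al.VC

end

section

/-!
The flow space of an arithmetic affine group.
-/

namespace Pool.Agent.MP_f7db47_al.VC

open GN GF Metric Matrix

theorem exp_bound {V E : Type} [Group V] [NormedAddCommGroup E] (ψ : V →* MZ)
    (hψ : Finite ψ.ker) (L : V →* AddMonoid.End E) (h : ∀ g, ∃ C : ℝ, ∀ x, ‖L g x‖ ≤ C * ‖x‖) :
    ∃ C κ : ℝ, 0 < κ ∧ ∀ g x, ‖L g x‖ ≤ C * Real.exp (κ * |dg ψ g|) * ‖x‖ := by
  choose C hC using h
  obtain ⟨u, hu⟩ := exists_gen ψ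
  obtain ⟨C₀, h₀⟩ := Finite.bddAbove_range fun f : ψ.ker => |C f|
  have hC₀ : ∀ f, ψ f = 1 → |C f| ≤ C₀ := fun f hf => h₀ ⟨⟨f, hf⟩, rfl⟩
  obtain ⟨D, hD, h1, h2⟩ : ∃ D : ℝ, 1 < D ∧ C u ≤ D ∧ C u⁻¹ ≤ D :=
    ⟨max 2 (max (C u) (C u⁻¹)), lt_max_of_lt_left one_lt_two,
      le_max_of_le_right (le_max_left _ _), le_max_of_le_right (le_max_right _ _)⟩
  have hD0 : 0 < D := one_pos.trans hD
  have hp : ∀ v, C v ≤ D → ∀ (n : ℕ) x, ‖L (v ^ n) x‖ ≤ D ^ n * ‖x‖ := by
    intro v hv n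
    induction n with
    | zero => intro x; simp
    | succ n ih =>
      intro x
      rw [pow_succ, map_mul, pow_succ, mul_assoc]
      exact (ih (L v x)).trans (mul_le_mul_of_nonneg_left
        ((hC v x).trans (mul_le_mul_of_nonneg_right hv (norm_nonneg _))) (by positivity))
  have hz : ∀ (n : ℤ) x, ‖L (u ^ n) x‖ ≤ D ^ n.natAbs * ‖x‖ := by
    intro n x
    obtain ⟨k, rfl | rfl⟩ := n.eq_nat_or_neg
    · simpa using hp u h1 k x
    · simpa using hp u⁻¹ h2 k x
  refine ⟨C₀, Real.log D, Real.log_pos hD, fun g x => ?_⟩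
  obtain ⟨n, hn, hl⟩ : ∃ n : ℤ, ψ g = ψ u ^ n ∧ (n.natAbs : ℝ) ≤ |dg ψ g| := by
    obtain ⟨n, hn⟩ := hu g
    by_cases h : ψ u = 1
    · exact ⟨0, by simp [hn, h], by simp [dg, hn, h]⟩
    refine ⟨n, hn, ?_⟩
    have h3 : 1 ≤ |(ψ u).toAdd| := Int.one_le_abs (by simpa using h)
    have h4 : |n| ≤ |(ψ g).toAdd| := by
      rw [hn, toAdd_zpow, smul_eq_mul, abs_mul]
      exact le_mul_of_one_le_right (abs_nonneg _) h3
    rw [dg, Nat.cast_natAbs]
    exact_mod_cast h4
  have hf : ψ (g * (u ^ n)⁻¹) = 1 := by rw [map_mul, map_inv, map_zpow, hn, mul_inv_cancel]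
  have e : L g x = L (g * (u ^ n)⁻¹) (L (u ^ n) x) := by
    change _ = (L (g * (u ^ n)⁻¹) * L (u ^ n)) x
    rw [← map_mul, inv_mul_cancel_right]
  have h5 : D ^ n.natAbs ≤ Real.exp (Real.log D * |dg ψ g|) := by
    rw [← Real.rpow_def_of_pos hD0, ← Real.rpow_natCast]
    exact Real.rpow_le_rpow_of_exponent_le hD.le hl
  rw [e, mul_assoc]
  refine (hC _ _).trans (mul_le_mul ((le_abs_self _).trans (hC₀ _ hf)) ((hz n x).trans
    (mul_le_mul_of_nonneg_right h5 (norm_nonneg _))) (norm_nonneg _)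
    ((abs_nonneg _).trans (hC₀ _ hf)))

/-- The data at one place. -/
def AF2_Loc (ι : Type) [Fintype ι] [DecidableEq ι] (av : ℚ → ℝ) : Prop :=
  ∃ (E : Type) (_ : NormedAddCommGroup E) (_ : ProperSpace E) (m : ℕ) (j : (ι → ℚ) →+ E)
    (Λ : Matrix ι ι ℚ →* AddMonoid.End E), (∀ r : ℝ, Cov (closedBall (0 : E) r) m) ∧
    (∀ a (c : ℝ), 0 ≤ c → (‖j a‖ ≤ c ↔ ∀ i, av (a i) ≤ c)) ∧
    (∀ M a, Λ M (j a) = j (M *ᵥ a)) ∧ ∀ M, ∃ C : ℝ, ∀ x, ‖Λ M x‖ ≤ C * ‖x‖

theorem AF2_cov {J : Type} [Fintype J] {E : J → Type} [∀ v, NormedAddCommGroup (E v)]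
    {m : J → ℕ} (h : ∀ v (r : ℝ), Cov (closedBall (0 : E v) r) (m v)) (r : ℝ) :
    Cov (closedBall (0 : ∀ v, E v) r) (∑ v, m v) :=
  (Cov.pi fun v => h v r).subset fun x hx v _ =>
    mem_closedBall_zero_iff.2 ((norm_le_pi_norm x v).trans (mem_closedBall_zero_iff.1 hx))

theorem AF2_field (K : Type) [NormedField K] [CharZero K] [ProperSpace K]
    (hK : ∀ r : ℝ, Cov (closedBall (0 : K) r) 1) (ι : Type) [Fintype ι] [DecidableEq ι]
    (av : ℚ → ℝ) (hav : ∀ a : ℚ, ‖(a : K)‖ = av a) : AF2_Loc ι av := by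
  refine ⟨ι → K, inferInstance, inferInstance, _,
    { toFun := fun a i => (a i : K)
      map_zero' := funext fun i => Rat.cast_zero
      map_add' := fun a b => funext fun i => Rat.cast_add _ _ },
    { toFun := fun M =>
        { toFun := fun x => M.map (Rat.castHom K) *ᵥ x
          map_zero' := mulVec_zero _
          map_add' := mulVec_add _ }
      map_one' := AddMonoidHom.ext fun x => ?_
      map_mul' := fun M N => AddMonoidHom.ext fun x => ?_ },
    AF2_cov fun _ => hK, fun a c hc => ?_, fun M a => funext fun i => ?_, fun M => ?_⟩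
  · change Matrix.map 1 (Rat.castHom K) *ᵥ x = x
    rw [Matrix.map_one _ (map_zero _) (map_one _), one_mulVec]
  · change (M * N).map (Rat.castHom K) *ᵥ x = M.map (Rat.castHom K) *ᵥ (N.map (Rat.castHom K) *ᵥ x)
    rw [Matrix.map_mul, mulVec_mulVec]
  · rw [pi_norm_le_iff_of_nonneg hc]
    exact forall_congr' fun i => by rw [← hav]; rfl
  · exact (RingHom.map_mulVec (Rat.castHom K) M a i).symm
  · refine ⟨∑ i, ∑ k, ‖(M i k : K)‖, fun x => (pi_norm_le_iff_of_nonneg (by positivity)).2 fun i => ?_⟩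
    change ‖∑ k, (M i k : K) * x k‖ ≤ _
    refine (norm_sum_le _ _).trans (le_trans ?_ (mul_le_mul_of_nonneg_right
      (Finset.single_le_sum (f := fun i => ∑ k, ‖(M i k : K)‖) (fun _ _ => by positivity)
        (Finset.mem_univ i)) (norm_nonneg _)))
    rw [Finset.sum_mul]
    refine Finset.sum_le_sum fun k _ => ?_
    rw [norm_mul]
    exact mul_le_mul_of_nonneg_left (norm_le_pi_norm x k) (norm_nonneg _)

theorem exists_adele (q : ℕ) (ι : Type) [Fintype ι] [DecidableEq ι] :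
    ∃ (E : Type) (_ : NormedAddCommGroup E) (_ : ProperSpace E) (m : ℕ) (j : (ι → ℚ) →+ E)
      (Λ : Matrix ι ι ℚ →* AddMonoid.End E), (∀ r : ℝ, Cov (closedBall (0 : E) r) m) ∧
      (∀ a (c : ℝ), 0 ≤ c → (‖j a‖ ≤ c ↔ ∀ v i, avQ q v (a i) ≤ c)) ∧
      (∀ M a, Λ M (j a) = j (M *ᵥ a)) ∧ ∀ M, ∃ C : ℝ, ∀ x, ‖Λ M x‖ ≤ C * ‖x‖ := by
  have h : ∀ v, AF2_Loc ι (avQ q v) := by
    rintro (_ | p)
    · exact AF2_field ℝ cov_real ι _ fun a => rfl
    · have := Fact.mk (Nat.prime_of_mem_primeFactors p.2)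
      exact AF2_field ℚ_[p.1] (cov_padic p.1) ι _ fun a => Padic.eq_padicNorm a
  choose E i1 i2 m j Λ h1 h2 h3 C h4 using h
  refine ⟨∀ v, E v, inferInstance, inferInstance, _, AddMonoidHom.pi j,
    { toFun := fun M =>
        { toFun := fun x v => Λ v M (x v)
          map_zero' := funext fun v => map_zero _
          map_add' := fun x y => funext fun v => map_add _ _ _ }
      map_one' := AddMonoidHom.ext fun x => funext fun v => ?_
      map_mul' := fun M N => AddMonoidHom.ext fun x => funext fun v => ?_ },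
    AF2_cov h1, fun a c hc => ?_, fun M a => funext fun v => h3 v M a, fun M => ?_⟩
  · change Λ v 1 (x v) = x v
    rw [map_one]
    rfl
  · change Λ v (M * N) (x v) = Λ v M (Λ v N (x v))
    rw [map_mul]
    rfl
  · rw [pi_norm_le_iff_of_nonneg hc]
    exact forall_congr' fun v => h2 v a c hc
  · refine ⟨∑ v, |C v M|, fun x => (pi_norm_le_iff_of_nonneg (by positivity)).2 fun v => ?_⟩
    exact (h4 v M (x v)).trans (mul_le_mul ((le_abs_self _).trans
      (Finset.single_le_sum (f := fun v => |C v M|) (fun _ _ => abs_nonneg _) (Finset.mem_univ v)))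
      (norm_le_pi_norm x v) (norm_nonneg _) (by positivity))

theorem aff_flow {q : ℕ} (hq : 0 < q) {V ι : Type} [Group V] [Fintype ι] [DecidableEq ι]
    (L : V →* GLZ (ZQ q) ι) (ψ : V →* MZ) (hψ : Finite ψ.ker) :
    ∃ (Y : Type) (_ : MetricSpace Y) (_ : MulAction (Aff L) Y) (F : Flow (Aff L) Y)
      (pt : (ι → ℚ) → ℝ → Y) (A κ : ℝ),
      (∀ (γ : Aff L) x τ, γ • pt x τ = pt (γ.a + (L γ.g).1.val *ᵥ x) (τ + dg ψ γ.g)) ∧
      (∀ s x τ, F.Φ s (pt x τ) = pt x (τ + s)) ∧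
      (∀ x x' τ (c : ℝ), 0 ≤ c → (∀ v i, avQ q v (x i - x' i) ≤ c) →
        dist (pt x τ) (pt x' τ) ≤ A * Real.exp (κ * |τ|) * c) ∧
      ∀ z, {γ | γ ∈ F.Per z ∧ ψ γ.g = 1}.Finite := by
  obtain ⟨E, _, _, m, j, Λ, h1, h2, h3, h4⟩ := exists_adele q ι
  let L₀ : V →* AddMonoid.End E := Λ.comp ((Units.coeHom _).comp ((GLZ (ZQ q) ι).subtype.comp L))
  obtain ⟨C, κ, hκ, hC⟩ := exp_bound ψ hψ L₀ fun g => h4 _
  have hp : ∀ r : ℝ, {g : Aff L | |dg (ψ.comp (Aff.lin L)) g| ≤ r ∧ ‖j g.a‖ ≤ r}.Finite := by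
    intro r
    refine Set.Finite.of_finite_image (f := fun g => (g.a, g.g))
      (((Set.Finite.pi' fun _ : ι => avQ_finite hq r).prod (vc_ball ψ hψ r)).subset ?_)
      fun g _ g' _ e => Aff.ext (congrArg Prod.fst e) (congrArg Prod.snd e)
    rintro _ ⟨g, hg, rfl⟩
    exact ⟨fun i => ⟨g.mem i, fun v => (h2 _ r ((norm_nonneg _).trans hg.2)).1 hg.2 v i⟩, hg.1⟩
  obtain ⟨Y, _, _, F, pt, A, a1, a2, a3⟩ := exists_aflow h1 (ψ.comp (Aff.lin L))
    (L₀.comp (Aff.lin L)) (fun g => j g.a)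
    (fun g h => by rw [Aff.mul_a, map_add, ← h3]; rfl) C κ hκ (fun g x => hC g.g x) hp
  refine ⟨Y, inferInstance, inferInstance, F, fun x τ => pt (j x, τ), |A|, κ, fun γ x τ => ?_,
    fun s x τ => a2 s _ τ, fun x x' τ c hc h => (a3 _ _ τ).trans ?_, fun z => ?_⟩
  · simp only [a1, map_add, ← h3]
    rfl
  · rw [← map_sub]
    exact mul_le_mul (mul_le_mul_of_nonneg_right (le_abs_self A) (Real.exp_pos _).le)
      ((h2 _ c hc).2 h) (norm_nonneg _) (by positivity)
  · refine (F.prp z 0).subset ?_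
    rintro γ ⟨⟨t, ht⟩, hγ⟩
    obtain ⟨⟨x, τ⟩, rfl⟩ := pt.surjective z
    have e := ht
    rw [a1, a2] at e
    have e1 : τ + dg (ψ.comp (Aff.lin L)) γ = τ + t := congrArg Prod.snd (pt.injective e)
    rw [(dg_eq_zero (ψ.comp (Aff.lin L)) γ).2 hγ] at e1
    change dist _ _ ≤ 0
    rw [ht, ← add_left_cancel e1, F.zero, dist_self]

end Pool.Agent.MP_f7db47_al.VC

end

section

/-!
Reduction modulo a prime.
-/

namespace Pool.Agent.MP_f7db47_al.VC

open GN GF Matrix

variable {q p : ℕ} [Fact p.Prime]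

theorem Red_q (h : ¬ p ∣ q) : (q : ZMod p) ≠ 0 := fun e =>
  h ((ZMod.natCast_eq_zero_iff q p).1 e)

theorem Red_den (h : ¬ p ∣ q) {a : ℚ} (ha : a ∈ ZQ q) : (a.den : ZMod p) ≠ 0 := by
  obtain ⟨e, z, hz⟩ := ha
  have hq : q ≠ 0 := by
    rintro rfl
    exact h (dvd_zero p)
  have hq' : ((q : ℚ) ^ e) ≠ 0 := pow_ne_zero _ (by exact_mod_cast hq)
  have h1 : a = Rat.divInt z ((q : ℤ) ^ e) := by
    rw [Rat.divInt_eq_div]
    push_cast
    rw [eq_div_iff hq', mul_comm, hz]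
  have h2 : (a.den : ℤ) ∣ (q : ℤ) ^ e := by
    rw [h1]
    exact Rat.den_dvd _ _
  have h3 : a.den ∣ q ^ e := by exact_mod_cast h2
  intro h0
  have h4 : p ∣ a.den := (ZMod.natCast_eq_zero_iff _ p).1 h0
  exact h ((Fact.out : p.Prime).dvd_of_dvd_pow (h4.trans h3))

theorem exists_red (h : ¬ p ∣ q) : ∃ ρ : ZQ q →+* ZMod p, ∀ a, ρ a = ((a : ℚ) : ZMod p) := by
  refine ⟨⟨⟨⟨fun a => ((a : ℚ) : ZMod p), ?_⟩, fun a b => ?_⟩, ?_, fun a b => ?_⟩, fun _ => rfl⟩
  · simp
  · exact Rat.cast_mul_of_ne_zero (Red_den h a.2) (Red_den h b.2)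
  · simp
  · exact Rat.cast_add_of_ne_zero (Red_den h a.2) (Red_den h b.2)

theorem red_div (h : ¬ p ∣ q) {a : ℚ} (ha : a ∈ ZQ q) (h0 : (a : ZMod p) = 0) :
    a / p ∈ ZQ q := by
  have hd := Red_den h ha
  obtain ⟨e, z, hz⟩ := ha
  have h1 : (z : ZMod p) = 0 := by
    have h2 : (((q : ℚ) ^ e * a : ℚ) : ZMod p) = ((z : ℚ) : ZMod p) := by rw [hz]
    rw [Rat.cast_mul_of_ne_zero _ hd, h0, mul_zero, Rat.cast_intCast] at h2
    · exact h2.symm
    · have h3 : ((q : ℚ) ^ e) = ((q ^ e : ℕ) : ℚ) := by push_cast; rfl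
      rw [h3, Rat.den_natCast]
      simp
  obtain ⟨w, rfl⟩ := (ZMod.intCast_zmod_eq_zero_iff_dvd z p).1 h1
  have hp : (p : ℚ) ≠ 0 := by exact_mod_cast (Fact.out : p.Prime).ne_zero
  refine ⟨e, w, ?_⟩
  rw [← mul_div_assoc, hz]
  push_cast
  field_simp

theorem red_ne (T : Finset ℚ) (hT : ∀ a ∈ T, a ≠ 0) :
    ∃ p₀ : ℕ, ∀ (p : ℕ) [Fact p.Prime], p₀ ≤ p → ∀ a ∈ T, (a : ZMod p) ≠ 0 := by
  refine ⟨T.sup (fun a => a.num.natAbs + a.den) + 1, fun p _ hp a ha => ?_⟩
  have h1 : a.num.natAbs + a.den ≤ T.sup (fun a => a.num.natAbs + a.den) :=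
    Finset.le_sup (f := fun a : ℚ => a.num.natAbs + a.den) ha
  have h2 : 0 < a.num.natAbs := Int.natAbs_pos.2 (Rat.num_ne_zero.2 (hT a ha))
  have h3 : 0 < a.den := a.den_pos
  rw [Rat.cast_def]
  refine div_ne_zero (fun e => ?_) fun e => ?_
  · have h4 : (p : ℤ) ∣ a.num := (ZMod.intCast_zmod_eq_zero_iff_dvd _ p).1 e
    have h5 : p ∣ a.num.natAbs := Int.natCast_dvd.1 h4
    have := Nat.le_of_dvd h2 h5
    omega
  · have h4 : p ∣ a.den := (ZMod.natCast_eq_zero_iff _ p).1 e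
    have := Nat.le_of_dvd h3 h4
    omega

variable {V ι : Type} [Group V] [Fintype ι] [DecidableEq ι] (L : V →* GLZ (ZQ q) ι)

/-- The matrix over the subring. -/
def Red_M (g : V) : Matrix ι ι (ZQ q) := fun i j => ⟨(L g).1.val i j, (L g).2.1 i j⟩

theorem Red_M_map (g : V) : (ZQ q).subtype.mapMatrix (Red_M L g) = (L g).1.val := by
  ext i j
  rfl

theorem Red_inj : Function.Injective ((ZQ q).subtype.mapMatrix (m := ι)) := fun A B e => by
  ext i j
  exact congrFun (congrFun e i) j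

/-- The matrix over the subring, as a homomorphism. -/
def Red_hom : V →* Matrix ι ι (ZQ q) where
  toFun := Red_M L
  map_one' := Red_inj (by rw [Red_M_map, map_one, map_one]; rfl)
  map_mul' g h := Red_inj (by rw [map_mul, Red_M_map, Red_M_map, Red_M_map, map_mul]; rfl)

theorem exists_redL (h : ¬ p ∣ q) : ∃ f : V →* GL ι (ZMod p),
    (∀ g i j, (f g).val i j = (((L g).1.val i j : ℚ) : ZMod p)) ∧
    ∀ g, ((f g).val - 1).det = ((((L g).1.val - 1).det : ℚ) : ZMod p) := by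
  obtain ⟨ρ, hρ⟩ := exists_red h
  refine ⟨((ρ.mapMatrix (m := ι)).toMonoidHom.comp (Red_hom L)).toHomUnits,
    fun g i j => hρ _, fun g => ?_⟩
  have h1 : (((ρ.mapMatrix (m := ι)).toMonoidHom.comp (Red_hom L)).toHomUnits g).val - 1 =
      ρ.mapMatrix (Red_M L g - 1) := by
    rw [map_sub, map_one]
    rfl
  have h2 : (L g).1.val - 1 = (ZQ q).subtype.mapMatrix (Red_M L g - 1) := by
    rw [map_sub, map_one, Red_M_map]
  rw [h1, h2, ← RingHom.map_det, ← RingHom.map_det, hρ]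
  rfl

theorem exists_act (h : ¬ p ∣ q) : ∃ σ : Aff L →* Equiv.Perm (ι → ZMod p), Aff.IsAct p σ := by
  obtain ⟨ρ, hρ⟩ := exists_red h
  obtain ⟨f, hf, -⟩ := exists_redL L h
  let c : Aff L → ι → ZMod p := fun x i => ((x.a i : ℚ) : ZMod p)
  have hc : ∀ x y : Aff L, c (x * y) = c x + (f x.g).val *ᵥ c y := by
    intro x y
    funext i
    have h1 : (⟨(x * y).a i, (x * y).mem i⟩ : ZQ q) =
        ⟨x.a i, x.mem i⟩ + ∑ j, Red_M L x.g i j * ⟨y.a j, y.mem j⟩ := by
      apply Subtype.ext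
      push_cast
      rfl
    have h2 := congrArg ρ h1
    rw [map_add, map_sum, hρ, hρ] at h2
    simp only [map_mul] at h2
    refine h2.trans ?_
    simp only [Pi.add_apply, Matrix.mulVec, dotProduct, hρ, hf]
    rfl
  let F : Aff L →* Function.End (ι → ZMod p) :=
    { toFun := fun x z => c x + (f x.g).val *ᵥ z
      map_one' := by
        funext z
        have h1 : c 1 = 0 := by
          funext i
          simp [c, Aff.one_a]
        rw [h1, Aff.one_g, map_one, zero_add]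
        exact Matrix.one_mulVec z
      map_mul' := fun x y => by
        funext z
        change c (x * y) + (f (x * y).g).val *ᵥ z =
          c x + (f x.g).val *ᵥ (c y + (f y.g).val *ᵥ z)
        rw [hc, Aff.mul_g, map_mul, Units.val_mul, mulVec_add, mulVec_mulVec, add_assoc] }
  refine ⟨F.toHomPerm, fun x z i => ?_⟩
  change (c x + (f x.g).val *ᵥ z) i = _
  simp only [Pi.add_apply, Matrix.mulVec, dotProduct, hf]
  rfl

theorem act_fix (h : ¬ p ∣ q) {σ : Aff L →* Equiv.Perm (ι → ZMod p)} (hσ : Aff.IsAct p σ)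
    (γ : Aff L) (hγ : ((((L γ.g).1.val - 1).det : ℚ) : ZMod p) ≠ 0) : ∃! z, σ γ z = z := by
  obtain ⟨f, hf, hd⟩ := exists_redL L h
  rw [← hd] at hγ
  have hu : IsUnit ((f γ.g).val - 1) :=
    (Matrix.isUnit_iff_isUnit_det _).2 (isUnit_iff_ne_zero.2 hγ)
  let c : ι → ZMod p := fun i => ((γ.a i : ℚ) : ZMod p)
  have h1 : ∀ z, σ γ z = c + (f γ.g).val *ᵥ z := fun z => by
    funext i
    rw [hσ]
    simp only [Pi.add_apply, Matrix.mulVec, dotProduct, hf]
    rfl
  have h2 : ∀ z, σ γ z = z ↔ ((f γ.g).val - 1) *ᵥ z = -c := fun z => by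
    rw [h1, sub_mulVec, one_mulVec]
    constructor
    · intro e
      rw [← sub_eq_zero] at e ⊢
      rw [← e]
      abel
    · intro e
      rw [← sub_eq_zero] at e ⊢
      rw [← e]
      abel
  have hb : Function.Bijective ((f γ.g).val - 1).mulVec :=
    ⟨Matrix.mulVec_injective_iff_isUnit.2 hu, Matrix.mulVec_surjective_iff_isUnit.2 hu⟩
  simp only [h2]
  exact hb.existsUnique _

end Pool.Agent.MP_f7db47_al.VC

end

section

/-!
The reductions modulo large primes are controlled.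
-/

namespace Pool.Agent.MP_f7db47_al.VC

open GN GF Matrix

section

variable {V ι X Y : Type} [Group V] [Fintype ι] [DecidableEq ι] {Z : Subring ℚ}
  {L : V →* GLZ Z ι}

/-- The spider on the labels. -/
def Deep_spi (t : ℚ) (w : X → ι → ℚ) (y : X → Y) (S : Spi (Aff L) Y) : Spi (Aff L) X where
  ht x := S.ht (y x)
  leg :=
    { r := fun x g x' => ∃ d : Aff L, d.g = g.g ∧
        t • d.a = -w x + g.a + (L g.g).1.val *ᵥ w x' ∧ S.leg.r (y x) d (y x')
      refl := fun x => ⟨1, rfl, by simp [Aff.one_a, Aff.one_g], S.leg.refl _⟩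
      symm := by
        rintro x g x' ⟨d, h1, h2, h3⟩
        refine ⟨d⁻¹, congrArg (·⁻¹) h1, ?_, S.leg.symm h3⟩
        rw [Aff.inv_a, Aff.inv_a, Aff.inv_g, smul_neg, ← mulVec_smul, h2, h1, mulVec_add,
          mulVec_add, ← Aff.mulVec_mul, inv_mul_cancel, Aff.mulVec_one, mulVec_neg]
        abel
      trans := by
        rintro x g x' g' x'' ⟨d, h1, h2, h3⟩ ⟨d', h1', h2', h3'⟩
        refine ⟨d * d', congrArg₂ (· * ·) h1 h1', ?_, S.leg.trans h3 h3'⟩
        rw [Aff.mul_a, Aff.mul_a, Aff.mul_g, smul_add, ← mulVec_smul, h2, h2', h1, mulVec_add,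
          mulVec_add, Aff.mulVec_mul, mulVec_neg]
        abel }

theorem Deep_vc (ψ : V →* MZ) (t : ℚ) (w : X → ι → ℚ) (y : X → Y) (S : Spi (Aff L) Y) (x : X)
    {P : Subgroup (Aff L)} (h : S.leg.grp (y x) ≤ P) (hP : {γ | γ ∈ P ∧ ψ γ.g = 1}.Finite) :
    IsVC ((Deep_spi t w y S).leg.grp x) := by
  have h1 := hP.biUnion (t := fun d => {g : Aff L | d.g = g.g ∧
      t • d.a = -w x + g.a + (L g.g).1.val *ᵥ w x}) fun d _ => Set.Subsingleton.finite (by
    rintro g ⟨a1, a2⟩ g' ⟨b1, b2⟩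
    rw [← a1] at a2
    rw [← b1, a2] at b2
    exact Aff.ext (add_left_cancel (add_right_cancel b2)) (a1.symm.trans b1))
  refine ⟨(ψ.comp (Aff.lin L)).comp (Subgroup.subtype _), @Finite.of_injective _ _ h1.to_subtype
    (fun g => ⟨g.1.1, ?_⟩) fun g g' e => Subtype.ext (Subtype.ext (by simpa using e))⟩
  obtain ⟨⟨g, d, a1, a2, a3⟩, hg⟩ := g
  exact Set.mem_biUnion (x := d) ⟨h a3, (congrArg ψ a1).trans hg⟩ ⟨a1, a2⟩

end

theorem Deep_av {q p : ℕ} [Fact p.Prime] (h : ¬ p ∣ q) (l : q.primeFactors) (a : ℚ) :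
    avQ q (some l) (a / p) = padicNorm l a := by
  have := Fact.mk (Nat.prime_of_mem_primeFactors l.2)
  have h1 : l.1 ≠ p := fun e => h (e ▸ Nat.dvd_of_mem_primeFactors l.2)
  show ((padicNorm l (a / p) : ℚ) : ℝ) = _
  rw [padicNorm.div, padicNorm.padicNorm_of_prime_of_ne h1, div_one]

theorem aff_deep {q : ℕ} (hq : 0 < q) {V ι : Type} [Group V] [Fintype ι] [DecidableEq ι]
    (L : V →* GLZ (ZQ q) ι) (ψ : V →* MZ) (hψ : Finite ψ.ker) :
    ∃ N : ℕ, ∀ (r : ℕ) (S₀ : Finset (Aff L)), ∃ p₀ : ℕ, ∀ (p : ℕ) [Fact p.Prime], p₀ ≤ p →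
      ¬ p ∣ q → ∀ σ : Aff L →* Equiv.Perm (ι → ZMod p), Aff.IsAct p σ →
        Ctrl (fun K => IsVC K) N r S₀ σ := by
  obtain ⟨Y, _, _, F, pt, A, κ, f1, f2, f3, f4⟩ := aff_flow hq L ψ hψ
  refine ⟨4 * (F.m + 1), fun r S₀ => ?_⟩
  obtain ⟨β, hβ⟩ := (S₀.finite_toSet.image fun g => |dg ψ g.g|).bddAbove
  obtain ⟨ε, hε, n, S, s1, s2, s3, s4⟩ :=
    F.spiders (pt 0 0) (A * Real.exp (κ * |(0 : ℝ)|) * 1) β r
  obtain ⟨C₀, hC₀⟩ := ((S₀.finite_toSet.prod (Set.finite_univ (α := Option q.primeFactors × ι))).image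
    fun u => avQ q u.2.1 (u.1.a u.2.2)).bddAbove
  obtain ⟨C, C0, hC⟩ : ∃ C : ℝ, 0 < C ∧ ∀ g ∈ S₀, ∀ v i, avQ q v (g.a i) ≤ C :=
    ⟨max C₀ 1, lt_max_of_lt_right one_pos, fun g hg v i =>
      le_max_of_le_left (hC₀ ⟨(g, v, i), ⟨hg, trivial⟩, rfl⟩)⟩
  obtain ⟨c, c0, hc⟩ : ∃ c : ℝ, 0 < c ∧ (|A| + 1) * Real.exp (|κ| * β) * c = ε :=
    ⟨ε / ((|A| + 1) * Real.exp (|κ| * β)), by positivity, by field_simp⟩
  obtain ⟨k, hk⟩ := ZQ_shrink q (c / C) (by positivity)
  refine ⟨⌈(q : ℝ) ^ k * C / c⌉₊, fun p _ hp hpq σ hσ => ?_⟩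
  have p0 : 0 < p := (Fact.out : p.Prime).pos
  have p1 : (0 : ℝ) < p := Nat.cast_pos.2 p0
  have p2 : (p : ℚ) ≠ 0 := Nat.cast_ne_zero.2 p0.ne'
  have q1 : (q : ℚ) ^ k ≠ 0 := by positivity
  have q2 : (q : ZMod p) ^ k ≠ 0 := pow_ne_zero _ fun e => hpq ((ZMod.natCast_eq_zero_iff _ _).1 e)
  obtain ⟨ρ, hρ⟩ := exists_red hpq
  let W : (ι → ZMod p) → ι → ZQ q := fun z i =>
    ⟨(((q : ZMod p) ^ k * z i).val : ℚ) / (q : ℚ) ^ k, k, (((q : ZMod p) ^ k * z i).val : ℕ), by
      rw [mul_div_cancel₀ _ q1, Int.cast_natCast]⟩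
  have hW : ∀ z i, ρ (W z i) = z i := fun z i => by
    have e : (q : ZQ q) ^ k * W z i = (((q : ZMod p) ^ k * z i).val : ℕ) :=
      Subtype.ext (by
        rw [Subring.coe_mul, Subring.coe_pow, Subring.coe_natCast, Subring.coe_natCast]
        exact mul_div_cancel₀ _ q1)
    have := congrArg ρ e
    rw [map_mul, map_pow, map_natCast, map_natCast, ZMod.natCast_zmod_val] at this
    exact mul_left_cancel₀ q2 this
  let t : ℚ := p / (q : ℚ) ^ k
  have t0 : t ≠ 0 := div_ne_zero p2 q1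
  let w : (ι → ZMod p) → ι → ℚ := fun z i => W z i
  let y : (ι → ZMod p) → Y := fun z => pt (-(t⁻¹ • w z)) 0
  refine ⟨Fin n, inferInstance, fun i => Deep_spi t w y (S i), fun x => s1 (y x),
    fun i x hx => ?_, fun x => s4 (y x) 1 ?_, fun g hg x i => ?_⟩
  · obtain ⟨z, hz⟩ := s3 i (y x) hx
    exact Deep_vc ψ t w y (S i) x hz (f4 z)
  · rw [one_smul]
    refine f3 _ _ _ 1 zero_le_one fun v i => ?_
    have e : (-(t⁻¹ • w x)) i - (0 : ι → ℚ) i = -((((q : ZMod p) ^ k * x i).val : ℚ) / p) := by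
      simp only [t, w, W, Pi.neg_apply, Pi.smul_apply, smul_eq_mul, Pi.zero_apply]
      field_simp
      ring
    rw [e, avQ_neg]
    cases v with
    | none =>
      show |(((_ : ℚ) / p : ℚ) : ℝ)| ≤ 1
      push_cast
      rw [abs_of_nonneg (by positivity), div_le_one p1]
      exact_mod_cast (ZMod.val_lt _).le
    | some l =>
      have := Fact.mk (Nat.prime_of_mem_primeFactors l.2)
      rw [Deep_av hpq]
      exact_mod_cast padicNorm.of_nat _
  · let u : ι → ℚ := -w (σ g x) + g.a + (L g.g).1.val *ᵥ w x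
    have hu : ∀ j, (t⁻¹ • u) j ∈ ZQ q := fun j => by
      let U : ZQ q := -W (σ g x) j + ⟨g.a j, g.mem j⟩ +
        ∑ l, (⟨(L g.g).1.val j l, (L g.g).2.1 j l⟩ : ZQ q) * W x l
      have e : (U : ℚ) = u j := by simp [U, u, w, mulVec, dotProduct]
      have h0 : ρ U = 0 := by
        simp only [U, map_add, map_neg, map_sum, map_mul, hW, hσ g x j]
        simp only [hρ]
        ring
      have h1 := (ZQ q).mul_mem ((ZQ q).pow_mem (natCast_mem _ q) k)
        (red_div hpq U.2 ((hρ U).symm.trans h0))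
      convert h1 using 1
      simp only [e, t, Pi.smul_apply, smul_eq_mul]
      field_simp
    let d : Aff L := ⟨t⁻¹ • u, hu, g.g⟩
    have hb : |dg ψ g.g| ≤ β := hβ ⟨g, hg, rfl⟩
    have h1 := s2 i (y (σ g x)) d (y x) ⟨dg ψ g.g, hb, by
      simp only [y, f1, f2]
      refine (f3 _ _ _ c c0.le fun v j => ?_).trans ?_
      · have e : (-(t⁻¹ • w (σ g x))) j - (d.a + (L d.g).1.val *ᵥ (-(t⁻¹ • w x))) j =
            -((q : ℚ) ^ k / p * g.a j) := by
          simp only [d, u, t, mulVec_neg, mulVec_smul, Pi.neg_apply, Pi.add_apply, Pi.smul_apply,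
            smul_eq_mul, inv_div]
          ring
        rw [e, avQ_neg, avQ_mul]
        refine (mul_le_mul (b := c / C) ?_ (hC g hg v j) (avQ_nonneg _ _ _)
          (by positivity)).trans_eq (by field_simp)
        cases v with
        | none =>
          show |(((_ : ℚ) / p : ℚ) : ℝ)| ≤ _
          push_cast
          have h2 := Nat.ceil_le.1 hp
          rw [div_le_iff₀ c0] at h2
          rw [abs_of_nonneg (by positivity), div_le_div_iff₀ p1 C0]
          linarith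
        | some l =>
          rw [Deep_av hpq]
          exact hk l l.2
      · rw [← hc, zero_add]
        have h2 : κ * |dg ψ g.g| ≤ |κ| * β :=
          mul_le_mul (le_abs_self κ) hb (abs_nonneg _) (abs_nonneg _)
        have h3 : A ≤ |A| + 1 := by linarith [le_abs_self A]
        gcongr⟩
    exact ⟨h1.1, h1.2.1, fun h => h1.2.2 fun h2 => h ⟨d, rfl, smul_inv_smul₀ t0 u, h2⟩⟩

end Pool.Agent.MP_f7db47_al.VC

end

section

/-!
Long circles are controlled.
-/

namespace Pool.Agent.MP_f7db47_al.VC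

open GN GF

theorem Circ_three {l : ℕ} [NeZero l] (a b : ZMod l) (n : ℤ) (h : a = b + n) (hn : |n| ≤ l) :
    (a.val : ℤ) = b.val + n ∨ (a.val : ℤ) = b.val + n + l ∨ (a.val : ℤ) + l = b.val + n := by
  have h1 : (l : ℤ) ∣ a.val - (b.val + n) := by
    rw [← ZMod.intCast_eq_intCast_iff_dvd_sub]
    simp [h]
  obtain ⟨t, ht⟩ := h1
  have ha : (a.val : ℤ) < l := by exact_mod_cast a.val_lt
  have hb : (b.val : ℤ) < l := by exact_mod_cast b.val_lt
  have ha' : (0 : ℤ) ≤ a.val := Nat.cast_nonneg _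
  have hb' : (0 : ℤ) ≤ b.val := Nat.cast_nonneg _
  rw [abs_le] at hn
  have h2 : t < 2 := by nlinarith
  have h3 : -2 < t := by nlinarith
  interval_cases t <;> omega

theorem Circ_div {D x y : ℕ} (hD : 0 < D) (h : x ≤ y + D) : x / D ≤ y / D + 1 :=
  (Nat.div_le_div_right h).trans_eq (Nat.add_div_right y hD)

theorem Circ_sum {D x y : ℕ} (hD : 0 < D) (h : x + y ≤ D) : x / D + y / D ≤ 1 :=
  (Nat.add_div_le_add_div x y D).trans ((Nat.div_le_div_right h).trans_eq (Nat.div_self hD))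

/-- The circle cut at `o`. -/
def Circ_spi {G : Type} [Group G] (ψ : G →* MZ) {l : ℕ} (D : ℕ) (o : ZMod l) : Spi G (ZMod l) where
  leg :=
    { r := fun x g x' => ((x - o).val : ℤ) = (x' - o).val + (ψ g).toAdd
      refl := fun a => by simp
      symm := fun h => by rw [h, map_inv, toAdd_inv, add_neg_cancel_right]
      trans := fun h h' => by
        rw [h, h', map_mul, toAdd_mul]
        ring }
  ht x := min (x - o).val (l - (x - o).val) / D

theorem Circ_rel {G : Type} [Group G] (ψ : G →* MZ) {l D : ℕ} [NeZero l] (hD : 0 < D) (hl : D ≤ l)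
    (o x : ZMod l) (g : G) (hg : |(ψ g).toAdd| ≤ D) :
    (Circ_spi ψ D o).rel 1 (x + (((ψ g).toAdd : ℤ) : ZMod l)) g x := by
  have h := Circ_three (x + (((ψ g).toAdd : ℤ) : ZMod l) - o) (x - o) (ψ g).toAdd (by ring)
    (hg.trans (by exact_mod_cast hl))
  have ha := (x + (((ψ g).toAdd : ℤ) : ZMod l) - o).val_lt
  have hb := (x - o).val_lt
  rw [abs_le] at hg
  refine ⟨Circ_div hD ?_, Circ_div hD ?_, fun e => Circ_sum hD ?_⟩
  · omega
  · omega
  · change ¬ ((x + (((ψ g).toAdd : ℤ) : ZMod l) - o).val : ℤ) =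
      (x - o).val + (ψ g).toAdd at e
    omega

theorem circle {G : Type} [Group G] (ψ : G →* MZ) (r : ℕ) (S₀ : Finset G) :
    ∃ l₀ : ℕ, 0 < l₀ ∧ ∀ l : ℕ, l₀ ≤ l → ∃ σ : G →* Equiv.Perm (ZMod l),
      (∀ g, (l : ℤ) ∣ (ψ g).toAdd → σ g = 1) ∧ Ctrl (fun K => K ≤ ψ.ker) 2 r S₀ σ := by
  obtain ⟨D, hD, hS⟩ : ∃ D : ℕ, 0 < D ∧ ∀ g ∈ S₀, |(ψ g).toAdd| ≤ D := by
    refine ⟨S₀.sup (fun g => (ψ g).toAdd.natAbs) + 1, Nat.succ_pos _, fun g hg => ?_⟩
    have h := Finset.le_sup (f := fun g => (ψ g).toAdd.natAbs) hg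
    rw [← Int.natCast_natAbs]
    exact_mod_cast h.trans (Nat.le_succ _)
  refine ⟨4 * (r * D) + 4 * D + 4, by omega, fun l hl => ?_⟩
  have : NeZero l := ⟨by omega⟩
  refine ⟨{ toFun := fun g => Equiv.addRight (((ψ g).toAdd : ℤ) : ZMod l)
            map_one' := by ext x; simp
            map_mul' := fun g h => by ext x; simp [add_assoc, add_left_comm, add_comm] }, fun g hg => ?_,
    Bool, inferInstance, fun i => Circ_spi ψ D (cond i (((l / 2 : ℕ) : ℤ) : ZMod l) 0),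
    fun x => ?_, fun i x _ g hg => ?_, fun x => ?_, fun g hg x i => ?_⟩
  · ext x
    simp [(ZMod.intCast_zmod_eq_zero_iff_dvd _ l).2 hg]
  · exact (Set.ncard_le_card _).trans (by simp)
  · have h : ((x - _).val : ℤ) = (x - _).val + (ψ g).toAdd := hg
    exact toAdd_eq_zero.1 (left_eq_add.1 h)
  · have h := Circ_three (x - 0) (x - (((l / 2 : ℕ) : ℤ) : ZMod l)) ((l / 2 : ℕ) : ℤ) (by ring)
      (by rw [abs_le]; omega)
    have ha := (x - 0).val_lt
    have hb := (x - (((l / 2 : ℕ) : ℤ) : ZMod l)).val_lt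
    by_cases h1 : r * D ≤ min (x - 0).val (l - (x - 0).val)
    · exact ⟨false, (Nat.le_div_iff_mul_le hD).2 h1⟩
    · refine ⟨true, (Nat.le_div_iff_mul_le hD).2 ?_⟩
      change r * D ≤ min (x - (((l / 2 : ℕ) : ℤ) : ZMod l)).val
        (l - (x - (((l / 2 : ℕ) : ℤ) : ZMod l)).val)
      omega
  · exact Circ_rel ψ hD (by omega) _ x g (hS g hg)

end Pool.Agent.MP_f7db47_al.VC

end
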