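import Pool.Agent.Mg.Ff7db47.G922e1f
import Pool.Agent.Mg.Ff7db47.G0ffa8c

section

set_option linter.unusedSectionVars false

namespace Pool.Agent.MP_f7db47_al.PT

universe u

variable {G : Type u} [Group G] {V : Type u} [MulAction G V]

/-- Oriented edges. -/
@[ext] structure OE (X : SimpleGraph V) where
  a : V
  b : V
  adj : X.Adj a b

instance {X : SimpleGraph V} [h : Fact (TreeAction G X)] : MulAction G (OE X) where
  smul g p := ⟨g • p.a, g • p.b, h.out.2.1 g _ _ p.adj⟩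
  one_smul _ := OE.ext (one_smul _ _) (one_smul _ _)
  mul_smul _ _ _ := OE.ext (mul_smul _ _ _) (mul_smul _ _ _)

lemma OE.smul_a {X : SimpleGraph V} [Fact (TreeAction G X)] (g : G) (p : OE X) :
    (g • p).a = g • p.a := rfl

lemma OE.smul_b {X : SimpleGraph V} [Fact (TreeAction G X)] (g : G) (p : OE X) :
    (g • p).b = g • p.b := rfl

section Aux

variable {X : SimpleGraph V}

lemma TreeCS_cross (hX : X.IsTree) {a b u w : V} (h : X.Adj a b) (hu : u ∈ Side X a b)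
    (hw : w ∉ Side X a b) : X.dist u w = X.dist u b + 1 + X.dist a w := by
  have hba : X.dist b a = 1 := SimpleGraph.dist_eq_one_iff_adj.2 h.symm
  have key : ∀ (n : ℕ) (u : V), X.dist w u = n → u ∈ Side X a b →
      X.dist u b + 1 + X.dist a w ≤ n := by
    intro n
    induction n using Nat.strong_induction_on with
    | _ n ih =>
      intro u hn hu
      have hne : u ≠ w := fun e => hw (e ▸ hu)
      obtain ⟨u', h1, h2⟩ := tree_closer hX hne
      by_cases hu' : u' ∈ Side X a b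
      · have e1 := ih _ (hn ▸ h2) u' rfl hu'
        have e2 := hX.dist_eq_dist_add_one_of_adj b h1
        rw [X.dist_comm (u := b), X.dist_comm (u := b)] at e2
        omega
      · obtain ⟨rfl, rfl⟩ := side_tri hX h h1 hu hu'
        rw [SimpleGraph.dist_self, X.dist_comm (v := w)]
        omega
  have e1 := key _ u rfl hu
  have e2 := hX.connected.dist_triangle (u := u) (v := b) (w := w)
  have e3 := hX.connected.dist_triangle (u := b) (v := a) (w := w)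
  rw [X.dist_comm (u := w)] at e1
  omega

lemma TreeCS_not_mem (a b : V) : a ∉ Side X a b := by
  simp [Side]

lemma TreeCS_crit (hX : X.IsTree) (p q : OE X) (h1 : q.b ∈ Side X p.a p.b)
    (h2 : p.a ∉ Side X q.a q.b) : Side X q.a q.b ⊆ Side X p.a p.b := by
  intro z hz
  by_contra hz'
  have e1 := TreeCS_cross hX p.adj h1 hz'
  have e2 := TreeCS_cross hX q.adj hz h2
  rw [X.dist_comm (u := z), X.dist_comm (u := z)] at e2
  omega

lemma TreeCS_fa (hX : X.IsTree) {p q : OE X} (h : Side X q.a q.b ⊆ Side X p.a p.b) :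
    X.dist q.b p.a = X.dist p.a q.a + 1 := by
  have e := TreeCS_cross hX q.adj (mem_side hX q.adj) fun h' => TreeCS_not_mem p.a p.b (h h')
  rw [SimpleGraph.dist_self, X.dist_comm (u := q.a)] at e
  omega

lemma TreeCS_fb (hX : X.IsTree) {p q : OE X} (h : Side X q.a q.b ⊆ Side X p.a p.b) :
    X.dist q.b p.b = X.dist p.a q.a := by
  have e := TreeCS_cross hX p.adj (h (mem_side hX q.adj)) (TreeCS_not_mem p.a p.b)
  have e' := TreeCS_fa hX h
  rw [SimpleGraph.dist_self] at e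
  omega

lemma TreeCS_add (hX : X.IsTree) {x y z : OE X} (h1 : Side X z.a z.b ⊆ Side X y.a y.b)
    (h2 : Side X y.a y.b ⊆ Side X x.a x.b) :
    X.dist x.a z.a = X.dist x.a y.a + X.dist y.a z.a := by
  have e1 := TreeCS_cross hX y.adj (h1 (mem_side hX z.adj))
    fun h' => TreeCS_not_mem x.a x.b (h2 h')
  have e2 := TreeCS_fa hX (h1.trans h2)
  have e3 := TreeCS_fb hX h1
  rw [X.dist_comm (u := y.a)] at e1
  omega

lemma TreeCS_step (hX : X.IsTree) {x z : OE X} (h : Side X z.a z.b ⊆ Side X x.a x.b)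
    (hd : 0 < X.dist x.a z.a) : ∃ y : OE X, Side X z.a z.b ⊆ Side X y.a y.b ∧
      Side X y.a y.b ⊆ Side X x.a x.b ∧ X.dist x.a y.a = 1 := by
  have e1 := TreeCS_fa hX h
  have e2 := TreeCS_fb hX h
  have hab : X.dist x.a x.b = 1 := SimpleGraph.dist_eq_one_iff_adj.2 x.adj
  have hne : x.b ≠ z.b := by
    intro e
    rw [e, SimpleGraph.dist_self] at e2
    omega
  obtain ⟨c, h1, h2⟩ := tree_closer hX hne
  refine ⟨⟨x.b, c, h1⟩, TreeCS_crit hX ⟨x.b, c, h1⟩ z h2 fun h' => ?_,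
    side_nest hX x.adj h1 fun e => ?_, hab⟩
  · have e3 := TreeCS_cross hX z.adj h' fun h'' => TreeCS_not_mem x.a x.b (h h'')
    change X.dist x.b x.a = X.dist x.b z.b + 1 + X.dist z.a x.a at e3
    rw [X.dist_comm (u := x.b), X.dist_comm (u := z.a)] at e3
    omega
  · have e' : c = x.a := e
    rw [e'] at h2
    omega

lemma TreeCS_mid (hX : X.IsTree) (a : ℕ) : ∀ {x z : OE X}, Side X z.a z.b ⊆ Side X x.a x.b →
    a ≤ X.dist x.a z.a → ∃ y : OE X, Side X z.a z.b ⊆ Side X y.a y.b ∧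
      Side X y.a y.b ⊆ Side X x.a x.b ∧ X.dist x.a y.a = a := by
  induction a with
  | zero => exact fun {x z} h _ => ⟨x, h, subset_rfl, SimpleGraph.dist_self⟩
  | succ a ih =>
    intro x z h ha
    obtain ⟨y1, h1, h2, h3⟩ := TreeCS_step hX h (by omega)
    have e := TreeCS_add hX h1 h2
    obtain ⟨y, h4, h5, h6⟩ := ih h1 (by omega)
    have e' := TreeCS_add hX h5 h2
    exact ⟨y, h4, h5.trans h2, by omega⟩

lemma TreeCS_lin (hX : X.IsTree) {x y y' z : OE X} (h1 : Side X z.a z.b ⊆ Side X y.a y.b)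
    (h2 : Side X y.a y.b ⊆ Side X x.a x.b) (h3 : Side X z.a z.b ⊆ Side X y'.a y'.b)
    (h4 : Side X y'.a y'.b ⊆ Side X x.a x.b) (hd : X.dist x.a y.a ≤ X.dist x.a y'.a) :
    Side X y'.a y'.b ⊆ Side X y.a y.b := by
  refine TreeCS_crit hX y y' ?_ fun h => ?_
  · by_contra h
    have e1 := TreeCS_cross hX y.adj (h1 (mem_side hX z.adj)) h
    have e2 := TreeCS_fb hX h1
    have e3 := TreeCS_fb hX h3
    have e4 := TreeCS_add hX h1 h2
    have e5 := TreeCS_add hX h3 h4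
    omega
  · have e1 := TreeCS_cross hX y'.adj h fun h' => TreeCS_not_mem x.a x.b (h4 h')
    rw [X.dist_comm (u := y.a), X.dist_comm (u := y'.a)] at e1
    omega

end Aux

theorem exists_CS (X : SimpleGraph V) [h : Fact (TreeAction G X)] :
    ∃ c : CS G (OE X), ∀ p q, c.le p q ↔ Side X p.a p.b ⊆ Side X q.a q.b := by
  have hX : X.IsTree := h.out.1
  refine ⟨{ le := fun p q => Side X p.a p.b ⊆ Side X q.a q.b
            dep := fun p q => X.dist p.a q.a
            refl := fun _ => subset_rfl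
            trans := fun h1 h2 => h1.trans h2
            smul := fun g x y hxy z hz => ?_
            dep_smul := fun g x y => h.out.dist_smul g _ _
            add := fun h1 h2 => TreeCS_add hX h1 h2
            zero := fun {x y} h1 h2 => ?_
            mid := fun a h1 h2 => TreeCS_mid hX a h1 h2
            lin := fun h1 h2 h3 h4 h5 => TreeCS_lin hX h1 h2 h3 h4 h5 }, fun _ _ => Iff.rfl⟩
  · rw [← smul_inv_smul g z] at hz ⊢
    exact (h.out.smul_side g _ _ _).2 (hxy ((h.out.smul_side g _ _ _).1 hz))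
  · have e := TreeCS_fb hX h1
    exact OE.ext (hX.connected.dist_eq_zero_iff.1 h2).symm
      (hX.connected.dist_eq_zero_iff.1 (e.trans h2))

theorem exists_TB' {X : SimpleGraph V} (hX : TreeAction G X) : ∃ D : TB G V,
    (∀ τ s, X.Adj (D.ep τ (!s)) (D.ep τ s)) ∧
    (∀ τ s, D.H τ s = Side X (D.ep τ (!s)) (D.ep τ s)) ∧
    ∀ a b, X.Adj a b → Nonempty D.E := by
  let ep : Quotient (edgeRel X G) → Bool → V := fun τ => τ.out.1
  have adj : ∀ τ s, X.Adj (ep τ (!s)) (ep τ s) := by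
    intro τ s
    cases s
    · exact τ.out.2.symm
    · exact τ.out.2
  have same : ∀ τ τ' (k : G) s s', k • ep τ' s' = ep τ s → k • ep τ' (!s') = ep τ (!s) →
      τ' = τ ∧ ∀ s, k • ep τ s = ep τ s := by
    intro τ τ' k s s' h1 h2
    have : τ' = τ := by
      rw [← Quotient.out_eq τ, ← Quotient.out_eq τ']
      refine Quotient.sound ⟨k, xor s' s, fun t => ?_⟩
      cases t <;> cases s <;> cases s' <;> first | exact h1 | exact h2
    subst this
    refine ⟨rfl, ?_⟩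
    by_cases hs : s' = s
    · subst hs
      intro t
      cases t <;> cases s' <;> first | exact h1 | exact h2
    · rw [Bool.eq_not.2 hs] at h1 h2
      rw [Bool.not_not] at h2
      exact absurd ⟨h1, h2⟩ (hX.2.2 k _ _ (adj τ' s))
  have rep : ∀ a b, X.Adj a b → ∃ (k : G) (τ : Quotient (edgeRel X G)) (s : Bool),
      k • ep τ s = a ∧ k • ep τ (!s) = b := by
    intro a b h
    obtain ⟨g, c, hg⟩ := Quotient.mk_out (s := edgeRel X G) ⟨fun s => cond s b a, h⟩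
    refine ⟨g, _, c, (hg c).trans (by simp), (hg (!c)).trans (by simp)⟩
  refine ⟨{ E := Quotient (edgeRel X G)
            ep := ep
            H := fun τ s => Side X (ep τ (!s)) (ep τ s)
            hmem := fun τ s => mem_side hX.1 (adj τ s)
            hcompl := fun τ s z => by rw [Bool.not_not]; exact side_compl hX.1 (adj τ s) z
            tri := ?_
            hC := fun τ c hc s z hz => by
              rw [← hc s, ← hc (!s)]; exact (hX.smul_side c _ _ z).2 hz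
            nest := ?_
            μ := fun τ z => X.dist (ep τ false) z
            lin := ?_ }, adj, fun _ _ => rfl,
    fun a b h => ⟨Quotient.mk _ ⟨fun s => cond s b a, h⟩⟩⟩
  · intro τ τ' k
    by_contra h
    rw [not_or] at h
    refine h.2 fun s s₁ s₂ h1 => ?_
    by_contra h2
    have hs : s₂ = !s₁ := Bool.eq_not.2 fun e => h2 (e ▸ h1)
    subst hs
    obtain ⟨e1, e2⟩ := side_tri hX.1 (adj τ s) (hX.2.1 k _ _ (adj τ' s₁).symm) h1 h2
    exact h.1 (same τ τ' k s s₁ e1 e2)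
  · intro τ τ' s s' g h1 h2 z hz
    refine side_nest hX.1 (adj τ s) (c := g • ep τ' s') (h1 ▸ hX.2.1 g _ _ (adj τ' s'))
      (fun h3 => h2 (same τ τ' g s (!s') h1 (by rwa [Bool.not_not]))) ?_
    rw [← h1]
    exact (hX.smul_side g _ _ z).2 hz
  · intro τ z
    by_cases h : z = ep τ false
    · exact Or.inl ⟨_, h⟩
    · obtain ⟨z', h1, h2⟩ := tree_closer hX.1 h
      obtain ⟨k, τ', s, e1, e2⟩ := rep z z' h1
      exact Or.inr ⟨k, τ', s, e1, by rwa [e2]⟩

end Pool.Agent.MP_f7db47_al.PT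

end

section

namespace Pool.Agent.MP_f7db47_al.PT

universe u

/-- The barycentric subdivision. -/
def Subdiv_graph {V : Type u} (X : SimpleGraph V) : SimpleGraph (V ⊕ X.edgeSet) where
  Adj x y := match x, y with
    | .inl v, .inr e => v ∈ e.1
    | .inr e, .inl v => v ∈ e.1
    | _, _ => False
  symm := ⟨by rintro (x | x) (y | y) h <;> exact h⟩
  loopless := ⟨by rintro (x | x) h <;> exact h⟩

/-- The action on the subdivision. -/
@[reducible] def Subdiv_act {G V : Type u} [Group G] {X : SimpleGraph V} (ρ : G →* (X ≃g X)) :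
    MulAction G (V ⊕ X.edgeSet) where
  smul g := Sum.map (ρ g) fun e => ⟨e.1.map (ρ g), (ρ g).map_mem_edgeSet_iff.2 e.2⟩
  one_smul := by
    rintro (v | e)
    · exact congrArg Sum.inl (by rw [map_one]; rfl)
    · refine congrArg Sum.inr (Subtype.ext ?_)
      change e.1.map (ρ 1) = e.1
      rw [map_one]
      exact congrFun Sym2.map_id' _
  mul_smul g h := by
    rintro (v | e)
    · exact congrArg Sum.inl (by rw [map_mul]; rfl)
    · refine congrArg Sum.inr (Subtype.ext ?_)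
      change e.1.map (ρ (g * h)) = (e.1.map (ρ h)).map (ρ g)
      rw [map_mul, Sym2.map_map]
      rfl

theorem Subdiv_edge {V : Type u} {X : SimpleGraph V} (e : X.edgeSet) {v : V} (h : v ∈ e.1) :
    ∃ (w : V) (hw : X.Adj v w), e = ⟨s(v, w), hw⟩ := by
  obtain ⟨e, he⟩ := e
  obtain ⟨w, rfl⟩ := Sym2.mem_iff_exists.1 h
  exact ⟨w, he, rfl⟩

theorem Subdiv_tree {V : Type u} {X : SimpleGraph V} (hX : X.IsTree) : (Subdiv_graph X).IsTree := by
  obtain ⟨r⟩ := hX.connected.nonempty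
  refine ⟨?_, acyclic_of_height _ (Sum.elim (fun v => 2 * (X.dist r v : ℤ)) fun e =>
    Sym2.lift ⟨fun a b => (X.dist r a : ℤ) + X.dist r b, fun a b => add_comm _ _⟩ e.1) ?_ ?_⟩
  · have h1 : ∀ a b, X.Reachable a b → (Subdiv_graph X).Reachable (.inl a) (.inl b) := by
      rintro a b ⟨p⟩
      induction p with
      | nil => rfl
      | @cons a b c h p ih =>
        have h2 : (Subdiv_graph X).Adj (.inl a) (.inr ⟨s(a, b), h⟩) := Sym2.mem_mk_left a b
        have h3 : (Subdiv_graph X).Adj (.inr ⟨s(a, b), h⟩) (.inl b) := Sym2.mem_mk_right a b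
        exact (h2.reachable.trans h3.reachable).trans ih
    have h2 : ∀ x, (Subdiv_graph X).Reachable (.inl r) x := by
      rintro (v | e)
      · exact h1 _ _ (hX.connected r v)
      · have h3 : (Subdiv_graph X).Adj (.inl e.1.out.1) (.inr e) := Sym2.out_fst_mem e.1
        exact (h1 _ _ (hX.connected r _)).trans h3.reachable
    have : Nonempty (V ⊕ X.edgeSet) := ⟨.inl r⟩
    exact ⟨fun x y => (h2 x).symm.trans (h2 y)⟩
  · rintro (v | e) (w | e') h
    · exact h.elim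
    · obtain ⟨w, hw, rfl⟩ := Subdiv_edge e' h
      have := hX.dist_eq_dist_add_one_of_adj r hw
      simp only [Sum.elim_inl, Sum.elim_inr, Sym2.lift_mk]
      omega
    · obtain ⟨v, hv, rfl⟩ := Subdiv_edge e h
      have := hX.dist_eq_dist_add_one_of_adj r hv
      simp only [Sum.elim_inl, Sum.elim_inr, Sym2.lift_mk]
      omega
    · exact h.elim
  · rintro (v | e) (b | b) (c | c) hb hc h1 h2
    · exact hb.elim
    · exact hb.elim
    · exact hc.elim
    · obtain ⟨b, hb', rfl⟩ := Subdiv_edge b hb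
      obtain ⟨c, hc', rfl⟩ := Subdiv_edge c hc
      simp only [Sum.elim_inl, Sum.elim_inr, Sym2.lift_mk] at h1 h2
      obtain rfl := tree_uniq hX (z := r) hb' hc' (by omega) (by omega)
      rfl
    · obtain ⟨w, hw, rfl⟩ := Subdiv_edge e hb
      simp only [Sum.elim_inl, Sum.elim_inr, Sym2.lift_mk] at h1 h2
      rcases Sym2.mem_iff.1 hc with rfl | rfl
      · rfl
      · omega
    · exact hc.elim
    · exact hb.elim
    · exact hb.elim

theorem exists_subdiv {G V : Type u} [Group G] (X : SimpleGraph V) (hX : X.IsTree)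
    (ρ : G →* (X ≃g X)) :
    ∃ (V' : Type u) (_ : MulAction G V') (X' : SimpleGraph V'), TreeAction G X' ∧
      (∀ (g : G) (y : V'), g • y = y → ∃ v, ρ (g ^ 2) v = v) ∧
      ∀ g : G, ρ g = 1 ↔ ∀ y : V', g • y = y := by
  refine ⟨V ⊕ X.edgeSet, Subdiv_act ρ, Subdiv_graph X, ⟨Subdiv_tree hX, ?_, ?_⟩, ?_, fun g => ?_⟩
  · rintro g (v | e) (w | e') h
    · exact h.elim
    · exact Sym2.mem_map.2 ⟨v, h, rfl⟩
    · exact Sym2.mem_map.2 ⟨w, h, rfl⟩
    · exact h.elim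
  · rintro g (v | e) (w | e') h ⟨h1, -⟩
    · exact h.elim
    · exact Sum.inl_ne_inr h1
    · exact Sum.inr_ne_inl h1
    · exact h.elim
  · have h2 : ∀ g v, ρ (g ^ 2) v = ρ g (ρ g v) := fun g v => by rw [pow_two, map_mul]; rfl
    rintro g (v | ⟨e, he⟩) h
    · have h1 : ρ g v = v := Sum.inl_injective h
      exact ⟨v, by rw [h2, h1, h1]⟩
    · have h1 : e.map (ρ g) = e := congrArg Subtype.val (Sum.inr_injective h)
      induction e using Sym2.ind with
      | h a b =>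
        refine ⟨a, ?_⟩
        rcases Sym2.eq_iff.1 h1 with ⟨h3, -⟩ | ⟨h3, h4⟩
        · rw [h2, h3, h3]
        · rw [h2, h3, h4]
  · refine ⟨fun h => ?_, fun h => RelIso.ext fun v => Sum.inl_injective (h (.inl v))⟩
    rintro (v | e)
    · exact congrArg Sum.inl (by rw [h]; rfl)
    · refine congrArg Sum.inr (Subtype.ext ?_)
      change e.1.map (ρ g) = e.1
      rw [h]
      exact congrFun Sym2.map_id' _

end Pool.Agent.MP_f7db47_al.PT

end

section

namespace Pool.Agent.MP_f7db47_al.PT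

open scoped WithZero

section

open WithZero Matrix

variable {K : Type} [Field K] (v : Valuation K ℤᵐ⁰)

/-- size of a row -/
noncomputable def BTr (i : Fin 2) (g : GL (Fin 2) K) : ℤ := log (max (v (g.val i 0)) (v (g.val i 1)))

/-- size of a matrix -/
noncomputable def BTn (g : GL (Fin 2) K) : ℤ := max (BTr v 0 g) (BTr v 1 g)

/-- size of the determinant -/
noncomputable def BTd (g : GL (Fin 2) K) : ℤ := log (v g.val.det)

/-- displacement of the base point -/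
noncomputable def BTδ (g : GL (Fin 2) K) : ℤ := 2 * BTn v g - BTd v g

/-- height -/
noncomputable def BTh (g : GL (Fin 2) K) : ℤ := 2 * BTr v 1 g - BTd v g

theorem BT_det_ne (g : GL (Fin 2) K) : g.val.det ≠ 0 := g.det_ne_zero

theorem BT_vdet (g : GL (Fin 2) K) : v g.val.det = exp (BTd v g) :=
  (exp_log ((Valuation.ne_zero_iff v).2 (BT_det_ne g))).symm

theorem BT_row_ne (i : Fin 2) (g : GL (Fin 2) K) : max (v (g.val i 0)) (v (g.val i 1)) ≠ 0 := by
  intro h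
  have h0 : g.val i 0 = 0 := by simpa using (le_max_left _ _).trans h.le
  have h1 : g.val i 1 = 0 := by simpa using (le_max_right _ _).trans h.le
  refine BT_det_ne g (det_eq_zero_of_row_eq_zero i fun j => ?_)
  fin_cases j <;> assumption

theorem BTr_le_iff {i : Fin 2} {g : GL (Fin 2) K} {u : ℤ} :
    BTr v i g ≤ u ↔ ∀ j, v (g.val i j) ≤ exp u := by
  rw [BTr, log_le_iff_le_exp (BT_row_ne v i g), max_le_iff, Fin.forall_fin_two]

theorem BTn_le_iff {g : GL (Fin 2) K} {u : ℤ} : BTn v g ≤ u ↔ ∀ i j, v (g.val i j) ≤ exp u := by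
  rw [BTn, max_le_iff, BTr_le_iff, BTr_le_iff, Fin.forall_fin_two (p := fun i => ∀ j, _)]

theorem BT_le_r (g : GL (Fin 2) K) (i j : Fin 2) : v (g.val i j) ≤ exp (BTr v i g) :=
  (BTr_le_iff v).1 le_rfl j

theorem BT_le_n (g : GL (Fin 2) K) (i j : Fin 2) : v (g.val i j) ≤ exp (BTn v g) :=
  (BTn_le_iff v).1 le_rfl i j

theorem BTd_mul (g h : GL (Fin 2) K) : BTd v (g * h) = BTd v g + BTd v h := by
  apply exp_injective
  rw [exp_add, ← BT_vdet, ← BT_vdet, ← BT_vdet, Units.val_mul, det_mul, map_mul]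

theorem BTd_one : BTd v 1 = 0 := by simp [BTd]

theorem BTd_inv (g : GL (Fin 2) K) : BTd v g⁻¹ = -BTd v g := by
  have := BTd_mul v g⁻¹ g
  rw [inv_mul_cancel, BTd_one] at this
  omega

theorem BTr_mul (i : Fin 2) (g h : GL (Fin 2) K) : BTr v i (g * h) ≤ BTr v i g + BTn v h := by
  refine (BTr_le_iff v).2 fun j => ?_
  rw [Units.val_mul, mul_apply, Fin.sum_univ_two, exp_add]
  refine v.map_add_le ?_ ?_ <;> rw [map_mul] <;> exact mul_le_mul' (BT_le_r v _ _ _) (BT_le_n v _ _ _)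

theorem BTn_mul (g h : GL (Fin 2) K) : BTn v (g * h) ≤ BTn v g + BTn v h := by
  have h0 := BTr_mul v 0 g h
  have h1 := BTr_mul v 1 g h
  unfold BTn at *
  omega

theorem BTd_le (g : GL (Fin 2) K) : BTd v g ≤ BTr v 0 g + BTr v 1 g := by
  rw [← exp_le_exp, ← BT_vdet, det_fin_two, exp_add]
  refine v.map_sub_le ?_ ?_ <;> rw [map_mul] <;> exact mul_le_mul' (BT_le_r v _ _ _) (BT_le_r v _ _ _)

theorem BTδ_nonneg (g : GL (Fin 2) K) : 0 ≤ BTδ v g := by
  have := BTd_le v g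
  unfold BTδ BTn
  omega

theorem BTn_inv (g : GL (Fin 2) K) : BTn v g⁻¹ ≤ BTn v g - BTd v g := by
  refine (BTn_le_iff v).2 fun i j => ?_
  rw [coe_units_inv, inv_def, Ring.inverse_eq_inv', adjugate_fin_two, Matrix.smul_apply, smul_eq_mul,
    map_mul, map_inv₀, BT_vdet, exp_sub, div_eq_inv_mul]
  refine mul_le_mul' le_rfl ?_
  fin_cases i <;> fin_cases j <;> simpa using BT_le_n v g _ _

theorem BTδ_inv (g : GL (Fin 2) K) : BTδ v g⁻¹ = BTδ v g := by
  have h1 := BTn_inv v g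
  have h2 := BTn_inv v g⁻¹
  have h3 := BTd_inv v g
  rw [inv_inv] at h2
  unfold BTδ
  omega

theorem BTδ_mul (g h : GL (Fin 2) K) : BTδ v (g * h) ≤ BTδ v g + BTδ v h := by
  have h1 := BTn_mul v g h
  have h2 := BTd_mul v g h
  unfold BTδ
  omega

theorem BTδ_zero {g : GL (Fin 2) K} (u : ℤ) (h1 : ∀ i j, v (g.val i j) ≤ exp u)
    (h2 : v g.val.det = exp (u + u)) : BTδ v g = 0 := by
  have h3 := (BTn_le_iff v).2 h1
  have h4 := BTδ_nonneg v g
  rw [BT_vdet, exp_inj] at h2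
  unfold BTδ at *
  omega

/-- the stabiliser of the base point -/
def BTH : Subgroup (GL (Fin 2) K) where
  carrier := {g | BTδ v g = 0}
  one_mem' := BTδ_zero v 0 (fun i j => by fin_cases i <;> fin_cases j <;> simp) (by simp)
  mul_mem' := fun {a b} ha hb => by
    have h1 := BTδ_mul v a b
    have h2 := BTδ_nonneg v (a * b)
    simp only [Set.mem_ofPred_eq] at *
    omega
  inv_mem' := fun {a} ha => (BTδ_inv v a).trans ha

theorem BTδ_right (g : GL (Fin 2) K) {h : GL (Fin 2) K} (hh : h ∈ BTH v) :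
    BTδ v (g * h) = BTδ v g := by
  have h1 := BTδ_mul v g h
  have h2 := BTδ_mul v (g * h) h⁻¹
  have h3 : BTδ v h = 0 := hh
  rw [mul_inv_cancel_right, BTδ_inv] at h2
  omega

theorem BTδ_left (g : GL (Fin 2) K) {h : GL (Fin 2) K} (hh : h ∈ BTH v) :
    BTδ v (h * g) = BTδ v g := by
  rw [← BTδ_inv, _root_.mul_inv_rev, BTδ_right v _ (inv_mem hh), BTδ_inv]

theorem BTh_mul (g h : GL (Fin 2) K) : BTh v (g * h) ≤ BTh v g + BTδ v h := by
  have h1 := BTr_mul v 1 g h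
  have h2 := BTd_mul v g h
  unfold BTδ BTh
  omega

theorem BTh_right (g : GL (Fin 2) K) {h : GL (Fin 2) K} (hh : h ∈ BTH v) :
    BTh v (g * h) = BTh v g := by
  have h1 := BTh_mul v g h
  have h2 := BTh_mul v (g * h) h⁻¹
  have h3 : BTδ v h = 0 := hh
  rw [mul_inv_cancel_right, BTδ_inv] at h2
  omega

theorem BTh_one : BTh v 1 = 0 := by simp [BTh, BTr, BTd]

theorem BTr_upper {b : GL (Fin 2) K} (hb : b.val 1 0 = 0) (x : GL (Fin 2) K) :
    BTr v 1 (b * x) = BTr v 1 b + BTr v 1 x := by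
  have h1 : v (b.val 1 1) ≠ 0 := by simpa [hb] using BT_row_ne v 1 b
  have h2 : BTr v 1 b = log (v (b.val 1 1)) := by simp [BTr, hb]
  rw [h2, BTr, BTr, ← log_mul h1 (BT_row_ne v 1 x), mul_max]
  simp [mul_apply, Fin.sum_univ_two, hb]

theorem BTh_upper {b : GL (Fin 2) K} (hb : b.val 1 0 = 0) (x : GL (Fin 2) K) :
    BTh v (b * x) = BTh v b + BTh v x := by
  have h1 := BTr_upper v hb x
  have h2 := BTd_mul v b x
  unfold BTh
  omega

theorem BT_iwasawa (g : GL (Fin 2) K) : ∃ h ∈ BTH v, (g * h).val 1 0 = 0 := by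
  rcases le_total (v (g.val 1 0)) (v (g.val 1 1)) with h | h
  · have h1 : g.val 1 1 ≠ 0 := by simpa [h] using BT_row_ne v 1 g
    have h2 : v (g.val 1 0 / g.val 1 1) ≤ 1 := by
      rw [map_div₀]; exact div_le_one_of_le₀ h zero_le
    refine ⟨GeneralLinearGroup.mkOfDetNeZero !![1, 0; -(g.val 1 0 / g.val 1 1), 1] (by simp),
      BTδ_zero v 0 (fun i j => ?_) ?_, ?_⟩
    · change v (!![1, 0; -(g.val 1 0 / g.val 1 1), 1] i j) ≤ _
      fin_cases i <;> fin_cases j <;> simp [-map_div₀, h2]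
    · change v (det !![1, 0; -(g.val 1 0 / g.val 1 1), 1]) = _
      simp
    · change (g.val * !![1, 0; -(g.val 1 0 / g.val 1 1), 1]) 1 0 = 0
      simp [mul_apply, Fin.sum_univ_two]
      field_simp
      ring
  · have h1 : g.val 1 0 ≠ 0 := by simpa [h] using BT_row_ne v 1 g
    have h2 : v (g.val 1 1 / g.val 1 0) ≤ 1 := by
      rw [map_div₀]; exact div_le_one_of_le₀ h zero_le
    refine ⟨GeneralLinearGroup.mkOfDetNeZero !![-(g.val 1 1 / g.val 1 0), 1; 1, 0] (by simp),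
      BTδ_zero v 0 (fun i j => ?_) ?_, ?_⟩
    · change v (!![-(g.val 1 1 / g.val 1 0), 1; 1, 0] i j) ≤ _
      fin_cases i <;> fin_cases j <;> simp [-map_div₀, h2]
    · change v (det !![-(g.val 1 1 / g.val 1 0), 1; 1, 0]) = _
      simp
    · change (g.val * !![-(g.val 1 1 / g.val 1 0), 1; 1, 0]) 1 0 = 0
      simp [mul_apply, Fin.sum_univ_two]
      field_simp
      ring

/-- diagonal matrices -/
def BTD : Kˣ →* GL (Fin 2) K where
  toFun x := ⟨!![x, 0; 0, 1], !![x⁻¹, 0; 0, 1], by simp [one_fin_two], by simp [one_fin_two]⟩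
  map_one' := Units.ext (by simp [one_fin_two])
  map_mul' x y := Units.ext (by simp)

theorem BTD_val (x : Kˣ) : (BTD x).val = !![(x : K), 0; 0, 1] := rfl

theorem BTd_D {x : Kˣ} {m : ℤ} (hx : v x = exp m) : BTd v (BTD x) = m := by
  simp [BTd, BTD_val, hx]

theorem BTδ_D {x : Kˣ} (hx : v x = exp 1) : BTδ v (BTD x) = 1 := by
  rw [BTδ, BTd_D v hx]
  simp [BTn, BTr, BTD_val, hx]

theorem BT_low {x : Kˣ} (hx : v x = exp 1) {k : GL (Fin 2) K} (h1 : BTδ v k = 1)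
    (h2 : BTh v k < 0) : (BTD x)⁻¹ * k ∈ BTH v := by
  have hx' : v (x⁻¹ : Kˣ) = exp (-1) := by simp [hx]
  rw [← map_inv]
  refine BTδ_zero v (BTn v k - 1) (fun i j => ?_) ?_
  · have a1 : BTr v 1 k ≤ BTn v k - 1 := by unfold BTδ BTh at *; omega
    have a2 := (BTr_le_iff v).1 a1 j
    have a3 : exp (-1) * v (k.val 0 j) ≤ exp (BTn v k - 1) := by
      rw [sub_eq_neg_add, exp_add]
      exact mul_le_mul' le_rfl (BT_le_n v k 0 j)
    rw [← hx', ← map_mul] at a3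
    rw [Units.val_mul, BTD_val, mul_apply, Fin.sum_univ_two]
    fin_cases i
    · simpa using a3
    · simpa using a2
  · rw [BT_vdet, BTd_mul, BTd_D v hx', exp_inj]
    unfold BTδ at h1
    omega

theorem BT_cartan {x : Kˣ} (hx : v x = exp 1) {b : GL (Fin 2) K} (hb : b.val 1 0 = 0) :
    ∃ m n : ℤ, (BTD x ^ m)⁻¹ * (b * BTD x ^ n) ∈ BTH v := by
  have hz : ∀ m : ℤ, v (x ^ m : Kˣ) = exp m := fun m => by
    rw [Units.val_zpow_eq_zpow_val, map_zpow₀, hx, ← WithZero.exp_zsmul]; simp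
  have h1 : v (b.val 1 1) = exp (BTr v 1 b) := by
    have h1 : v (b.val 1 1) ≠ 0 := by simpa [hb] using BT_row_ne v 1 b
    simp [BTr, hb, exp_log h1]
  have h0 : v (b.val 0 0) = exp (BTd v b - BTr v 1 b) := by
    rw [exp_sub, ← h1, ← BT_vdet, det_fin_two, hb, mul_zero, sub_zero, map_mul, h1,
      mul_div_cancel_right₀ _ exp_ne_zero]
  refine ⟨BTn v b - BTr v 1 b, BTn v b + BTr v 1 b - BTd v b, ?_⟩
  rw [← map_zpow, ← map_zpow, ← map_inv, ← _root_.zpow_neg]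
  refine BTδ_zero v (BTr v 1 b) (fun i j => ?_) ?_
  · have a1 := hz (-(BTn v b - BTr v 1 b))
    have a2 := hz (BTn v b + BTr v 1 b - BTd v b)
    generalize x ^ (-(BTn v b - BTr v 1 b)) = y at a1
    generalize x ^ (BTn v b + BTr v 1 b - BTd v b) = z at a2
    have a3 : v (y * (b.val 0 0 * z)) ≤ exp (BTr v 1 b) := by
      rw [map_mul, map_mul, a1, a2, h0, ← exp_add, ← exp_add, exp_le_exp]; omega
    have a4 : v (y * b.val 0 1) ≤ exp (BTr v 1 b) := by
      rw [map_mul, a1]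
      refine (mul_le_mul' le_rfl (BT_le_n v b 0 1)).trans ?_
      rw [← exp_add, exp_le_exp]; omega
    rw [Units.val_mul, Units.val_mul, BTD_val, BTD_val]
    fin_cases i <;> fin_cases j
    · simpa [mul_apply, Fin.sum_univ_two] using a3
    · simpa [mul_apply, Fin.sum_univ_two] using a4
    · simp [mul_apply, Fin.sum_univ_two, hb]
    · simpa [mul_apply, Fin.sum_univ_two] using h1.le
  · rw [BT_vdet, BTd_mul, BTd_mul, BTd_D v (hz _), BTd_D v (hz _), exp_inj]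
    omega

/-- the distance of two vertices -/
noncomputable def BTdist (x y : GL (Fin 2) K ⧸ BTH v) : ℤ := BTδ v (x.out⁻¹ * y.out)

theorem BTdist_mk (g g' : GL (Fin 2) K) : BTdist v g g' = BTδ v (g⁻¹ * g') := by
  obtain ⟨h, hh⟩ := QuotientGroup.mk_out_eq_mul (BTH v) g
  obtain ⟨h', hh'⟩ := QuotientGroup.mk_out_eq_mul (BTH v) g'
  rw [BTdist, hh, hh', _root_.mul_inv_rev, mul_assoc, BTδ_left v _ (inv_mem h.2), ← mul_assoc,
    BTδ_right v _ h'.2]

/-- the tree -/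
def BTX : SimpleGraph (GL (Fin 2) K ⧸ BTH v) where
  Adj x y := BTdist v x y = 1
  symm := ⟨fun x y h => by rw [BTdist, ← BTδ_inv, _root_.mul_inv_rev, inv_inv]; exact h⟩
  loopless := ⟨fun x h => by
    have : BTδ v 1 = 0 := (BTH v).one_mem
    rw [BTdist, inv_mul_cancel, this] at h
    omega⟩

theorem BTX_adj (g g' : GL (Fin 2) K) : (BTX v).Adj g g' ↔ BTδ v (g⁻¹ * g') = 1 := by
  rw [← BTdist_mk]; rfl

theorem BTh_mk (g : GL (Fin 2) K) : BTh v (g : GL (Fin 2) K ⧸ BTH v).out = BTh v g := by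
  obtain ⟨h, hh⟩ := QuotientGroup.mk_out_eq_mul (BTH v) g
  rw [hh, BTh_right v _ h.2]

theorem BT_rep (a : GL (Fin 2) K ⧸ BTH v) : ∃ b : GL (Fin 2) K, b.val 1 0 = 0 ∧ a = b := by
  obtain ⟨g, rfl⟩ := QuotientGroup.mk_surjective a
  obtain ⟨h, hh, h0⟩ := BT_iwasawa v g
  exact ⟨g * h, h0, (QuotientGroup.mk_mul_of_mem g hh).symm⟩

theorem BT_acyclic {x : Kˣ} (hx : v x = exp 1) : (BTX v).IsAcyclic := by
  refine acyclic_of_height _ (fun a => BTh v a.out) (fun a b h => ?_) fun a b c hb hc h1 h2 => ?_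
  · have h1 : BTδ v (a.out⁻¹ * b.out) = 1 := h
    have h2 := BTd_mul v a.out⁻¹ b.out
    have h3 := BTd_inv v a.out
    unfold BTδ BTh at *
    omega
  · obtain ⟨a, ha, rfl⟩ := BT_rep v a
    have key : ∀ b : GL (Fin 2) K ⧸ BTH v, (BTX v).Adj a b →
        BTh v b.out < BTh v (a : GL (Fin 2) K ⧸ BTH v).out → (a * BTD x : GL (Fin 2) K) = b := by
      intro b hb h
      obtain ⟨g, rfl⟩ := QuotientGroup.mk_surjective b
      rw [BTh_mk, BTh_mk] at h
      have h3 := BTh_upper v ha (a⁻¹ * g)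
      rw [mul_inv_cancel_left] at h3
      have := BT_low v hx ((BTX_adj v _ _).1 hb) (by omega)
      rwa [QuotientGroup.eq, _root_.mul_inv_rev, mul_assoc]
    exact (key b hb h1).symm.trans (key c hc h2)

theorem BT_reach {t : GL (Fin 2) K} (ht : BTδ v t = 1) (g : GL (Fin 2) K) (n : ℤ) :
    (BTX v).Reachable g (g * t ^ n : GL (Fin 2) K) := by
  have step : ∀ m : ℤ, (BTX v).Adj (g * t ^ m : GL (Fin 2) K) (g * t ^ (m + 1) : GL (Fin 2) K) :=
    fun m => by rwa [BTX_adj, _root_.zpow_add_one, ← mul_assoc g, inv_mul_cancel_left]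
  induction n using Int.induction_on with
  | zero => simp
  | succ n ih => exact ih.trans (step _).reachable
  | pred n ih =>
    have := step (-n - 1)
    rw [sub_add_cancel] at this
    exact ih.trans this.symm.reachable

theorem BT_conn {x : Kˣ} (hx : v x = exp 1) : (BTX v).Connected := by
  have key : ∀ a, (BTX v).Reachable a ((1 : GL (Fin 2) K) : GL (Fin 2) K ⧸ BTH v) := by
    intro a
    obtain ⟨b, hb, rfl⟩ := BT_rep v a
    obtain ⟨m, n, h⟩ := BT_cartan v hx hb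
    have h1 := BT_reach v (BTδ_D v hx) b n
    have h2 := BT_reach v (BTδ_D v hx) 1 m
    rw [one_mul, QuotientGroup.eq.2 h] at h2
    exact h1.trans h2.symm
  exact ⟨fun a b => (key a).trans (key b).symm⟩

/-- the action -/
noncomputable def BTρ : GL (Fin 2) K →* (BTX v ≃g BTX v) where
  toFun g :=
    { toEquiv := MulAction.toPerm g
      map_rel_iff' := fun {a b} => by
        obtain ⟨a, rfl⟩ := QuotientGroup.mk_surjective a
        obtain ⟨b, rfl⟩ := QuotientGroup.mk_surjective b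
        change (BTX v).Adj (g * a : GL (Fin 2) K) (g * b : GL (Fin 2) K) ↔ _
        rw [BTX_adj, BTX_adj, _root_.mul_inv_rev, mul_assoc, inv_mul_cancel_left] }
  map_one' := RelIso.ext fun a => one_smul (GL (Fin 2) K) a
  map_mul' g h := RelIso.ext fun a => mul_smul g h a

end

/-- The Bruhat-Tits tree of a discrete valuation. -/
theorem exists_BT {K : Type} [Field K] (v : Valuation K ℤᵐ⁰) (π : K)
    (hπ : v π = WithZero.exp (-1)) :
    ∃ (V : Type) (X : SimpleGraph V) (ρ : GL (Fin 2) K →* (X ≃g X)), X.IsTree ∧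
      ∀ g : GL (Fin 2) K, (∃ x, ρ g x = x) → v g.val.det = 1 → v g.val.trace ≤ 1 := by
  have h0 : π ≠ 0 := fun h => by rw [h, map_zero] at hπ; exact WithZero.exp_ne_zero hπ.symm
  have hx : v ((Units.mk0 π h0)⁻¹ : Kˣ) = WithZero.exp 1 := by simp [hπ]
  refine ⟨_, BTX v, BTρ v, ⟨BT_conn v hx, BT_acyclic v hx⟩, ?_⟩
  rintro g ⟨a, ha⟩ hd
  obtain ⟨a, rfl⟩ := QuotientGroup.mk_surjective a
  have h1 : ((g * a : GL (Fin 2) K) : GL (Fin 2) K ⧸ BTH v) = a := ha
  have h2 : BTδ v (a⁻¹ * (g * a)) = 0 := QuotientGroup.eq.1 h1.symm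
  have h3 : BTd v g = 0 := by simp [BTd, hd]
  rw [BTδ, BTd_mul, BTd_mul, BTd_inv] at h2
  have h4 := (BTn_le_iff v (g := a⁻¹ * (g * a)) (u := 0)).1 (by omega)
  have h5 : g.val.trace = (a⁻¹ * (g * a)).val.trace := by
    rw [Units.val_mul, Matrix.trace_mul_comm, ← Units.val_mul, mul_inv_cancel_right]
  rw [h5, Matrix.trace_fin_two]
  exact v.map_add_le (h4 0 0) (h4 1 1)

end Pool.Agent.MP_f7db47_al.PT

end

section

/-!
A forest that covers a bipartite graph without squares.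
-/

namespace Pool.Agent.MP_f7db47_al.PT

theorem ZCovA_step {E : Type} [DecidableEq E] (t : E × Bool) (w : FreeGroup E) :
    FreeGroup.norm (FreeGroup.mk [t] * w) = FreeGroup.norm w + 1 ∨
      (FreeGroup.norm (FreeGroup.mk [t] * w) + 1 = FreeGroup.norm w ∧
        (FreeGroup.toWord w).head? = some (t.1, !t.2)) := by
  have h1 : FreeGroup.toWord (FreeGroup.mk [t] * w) =
      FreeGroup.reduce (t :: FreeGroup.toWord w) := by
    rw [FreeGroup.toWord_mul, FreeGroup.toWord_mk, FreeGroup.reduce_singleton]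
    rfl
  rw [FreeGroup.reduce.cons, FreeGroup.reduce_toWord] at h1
  unfold FreeGroup.norm
  rw [h1]
  rcases FreeGroup.toWord w with _ | ⟨hd, tl⟩
  · left
    rfl
  · by_cases h : t.1 = hd.1 ∧ t.2 = !hd.2
    · right
      refine ⟨by simp [h], ?_⟩
      obtain ⟨h1, h2⟩ := h
      simp [h1, h2]
    · left
      simp [h]

theorem ZCovA_step' {E : Type} [DecidableEq E] (t : E × Bool) (u : FreeGroup E) :
    FreeGroup.norm (u * FreeGroup.mk [t]) = FreeGroup.norm u + 1 ∨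
      (FreeGroup.norm (u * FreeGroup.mk [t]) + 1 = FreeGroup.norm u ∧
        (FreeGroup.toWord u⁻¹).head? = some t) := by
  have h1 : (u * FreeGroup.mk [t])⁻¹ = FreeGroup.mk [(t.1, !t.2)] * u⁻¹ := by
    rw [mul_inv_rev, FreeGroup.inv_mk]
    rfl
  have h2 := ZCovA_step (t.1, !t.2) u⁻¹
  rw [← h1, FreeGroup.norm_inv_eq, FreeGroup.norm_inv_eq] at h2
  simpa using h2

theorem ZCovA_phi {G E : Type} [Group G] [MulAction G E] :
    ∃ φ : G →* MulAut (FreeGroup E), ∀ g e, φ g (FreeGroup.of e) = FreeGroup.of (g • e) := by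
  refine ⟨MonoidHom.mk' (fun g => FreeGroup.freeGroupCongr (MulAction.toPerm g)) fun a b => ?_,
    fun g e => by simp⟩
  apply MulEquiv.toMonoidHom_injective
  ext e
  simp [mul_smul]

theorem ZCovA_main {G Ω F : Type} [Group G] [MulAction G Ω] [Group F] (X : SimpleGraph Ω)
    (hadj : ∀ (g : G) a b, X.Adj a b → X.Adj (g • a) (g • b))
    (ty : Ω → Prop) (hty' : ∀ a b, X.Adj a b → (ty a ↔ ¬ ty b))
    (hfour : ∀ a b b' c, X.Adj a b → X.Adj b c → X.Adj a b' → X.Adj b' c → a ≠ c → b = b')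
    (φ : G →* MulAut F) (c : Ω → Ω → F) (n : F → ℤ)
    (hinv : ∀ a b, c b a = (c a b)⁻¹) (hφ : ∀ g a b, φ g (c a b) = c (g • a) (g • b))
    (hone : ∀ a, c a a = 1)
    (hn1 : ∀ u a b, X.Adj a b → n u ≠ n (u * c a b))
    (hn2 : ∀ u a b b', X.Adj a b → X.Adj a b' → n (u * c a b) < n u → n (u * c a b') < n u →
      b = b')
    (htriv : ∀ g : G, (∀ a : Ω, g • a = a) → φ g = 1) :
    ∃ (Γ : Type) (_ : Group Γ) (p : Γ →* G) (V : Type) (_ : MulAction Γ V) (Y : SimpleGraph V)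
      (q : V → Ω) (o : Ω → V) (s s₂ : Ω → Ω → G → Γ),
      Y.IsAcyclic ∧ (∀ (γ : Γ) a b, Y.Adj a b → Y.Adj (γ • a) (γ • b)) ∧
      (∀ (γ : Γ) z, q (γ • z) = p γ • q z) ∧ (∀ z z', Y.Adj z z' → X.Adj (q z) (q z')) ∧
      (∀ z z' z'', Y.Adj z z' → Y.Adj z z'' → q z' = q z'' → z' = z'') ∧
      (∀ (γ : Γ) (z : V), γ • z = z → p γ = 1 → γ = 1) ∧
      (∀ (γ : Γ) (z : V), γ • z = z → (∀ a : Ω, p γ • a = a) → ∀ z' : V, γ • z' = z') ∧
      (∀ a, q (o a) = a) ∧ (∀ x y g, p (s x y g) = g) ∧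
      (∀ x y (g : G), Near X (g • y) x → Y.Reachable (s x y g • o y) (o x)) ∧
      (∀ x y z (g h : G), Near X (g • y) x → Near X (h • z) y →
        s x y g * s y z h = s₂ x z (g * h)) ∧
      ∀ x, s₂ x x 1 = 1 := by
  classical
  letI act : MulAction (F ⋊[φ] G) (F × Ω) :=
    { smul := fun γ z => (γ.left * φ γ.right z.1, γ.right • z.2)
      one_smul := fun z => by
        change ((1 : F) * φ 1 z.1, (1 : G) • z.2) = z
        simp
      mul_smul := fun γ δ z => by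
        change ((γ * δ).left * φ (γ * δ).right z.1, (γ * δ).right • z.2) =
          (γ.left * φ γ.right (δ.left * φ δ.right z.1), γ.right • δ.right • z.2)
        simp [mul_smul, mul_assoc] }
  have hs : ∀ (γ : F ⋊[φ] G) (z : F × Ω),
      γ • z = (γ.left * φ γ.right z.1, γ.right • z.2) := fun _ _ => rfl
  let Y : SimpleGraph (F × Ω) :=
    { Adj := fun z z' => X.Adj z.2 z'.2 ∧ z'.1 = z.1 * c z.2 z'.2
      symm := ⟨fun z z' h => ⟨h.1.symm, by rw [h.2, hinv z.2 z'.2]; simp⟩⟩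
      loopless := ⟨fun z h => h.1.ne rfl⟩ }
  have hY : ∀ z z', Y.Adj z z' ↔ X.Adj z.2 z'.2 ∧ z'.1 = z.1 * c z.2 z'.2 := fun _ _ => Iff.rfl
  have hind : ∀ x y y' z, Near X y x → Near X z y → Near X y' x → Near X z y' →
      c x y * c y z = c x y' * c y' z := by
    intro x y y' z h1 h2 h3 h4
    by_cases hxz : x = z
    · subst hxz
      rw [hinv x y, hinv x y', mul_inv_cancel, mul_inv_cancel]
    by_cases ha : X.Adj x z
    · have key : ∀ y, Near X y x → Near X z y → c x y * c y z = c x z := by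
        intro y h1 h2
        rcases h1 with rfl | h1
        · rw [hone, one_mul]
        rcases h2 with rfl | h2
        · rw [hone, mul_one]
        have t1 := hty' _ _ h1
        have t2 := hty' _ _ h2
        have t3 := hty' _ _ ha
        tauto
      rw [key y h1 h2, key y' h3 h4]
    · have key : ∀ y, Near X y x → Near X z y → X.Adj x y ∧ X.Adj y z := by
        intro y h1 h2
        rcases h1 with rfl | h1
        · rcases h2 with rfl | h2
          · exact absurd rfl hxz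
          · exact absurd h2.symm ha
        rcases h2 with rfl | h2
        · exact absurd h1.symm ha
        exact ⟨h1.symm, h2.symm⟩
      obtain ⟨a1, a2⟩ := key y h1 h2
      obtain ⟨a3, a4⟩ := key y' h3 h4
      rw [hfour x y y' z a1 a2 a3 a4 hxz]
  let c2 : Ω → Ω → F := fun x z =>
    if h : ∃ y, Near X y x ∧ Near X z y then c x h.choose * c h.choose z else 1
  have hc2 : ∀ x y z, Near X y x → Near X z y → c2 x z = c x y * c y z := by
    intro x y z h1 h2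
    have h : ∃ y, Near X y x ∧ Near X z y := ⟨y, h1, h2⟩
    simp only [c2, dif_pos h]
    exact hind x _ y z h.choose_spec.1 h.choose_spec.2 h1 h2
  refine ⟨F ⋊[φ] G, inferInstance, SemidirectProduct.rightHom, F × Ω, act, Y, Prod.snd,
    fun a => (1, a), fun x y g => ⟨c x (g • y), g⟩, fun x z g => ⟨c2 x (g • z), g⟩,
    ?_, ?_, fun _ _ => rfl, fun _ _ h => h.1, ?_, ?_, ?_, fun _ => rfl, fun _ _ _ => rfl,
    ?_, ?_, ?_⟩
  · refine acyclic_of_height Y (fun z => n z.1) (fun z z' h => ?_) fun z z' z'' h h' l l' => ?_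
    · rw [h.2]
      exact hn1 _ _ _ h.1
    · rw [h.2] at l
      rw [h'.2] at l'
      have e := hn2 _ _ _ _ h.1 h'.1 l l'
      exact Prod.ext (by rw [h.2, h'.2, e]) e
  · intro γ a b h
    rw [hY, hs, hs]
    refine ⟨hadj _ _ _ h.1, ?_⟩
    change γ.left * φ γ.right b.1 = γ.left * φ γ.right a.1 * c (γ.right • a.2) (γ.right • b.2)
    rw [h.2, map_mul, hφ, mul_assoc]
  · intro z z' z'' h h' e
    exact Prod.ext (by rw [h.2, h'.2, e]) e
  · intro γ z h hp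
    have hp' : γ.right = 1 := hp
    have h1 := congrArg Prod.fst h
    rw [hs, hp'] at h1
    ext
    · simpa using h1
    · simpa using hp'
  · intro γ z h hp z'
    have hp' : ∀ a : Ω, γ.right • a = a := hp
    have h0 := htriv _ hp'
    have h1 := congrArg Prod.fst h
    rw [hs, h0] at h1
    have h2 : γ.left = 1 := by simpa using h1
    rw [hs, h0, h2, hp']
    simp
  · intro x y g h
    rw [hs]
    change Y.Reachable (c x (g • y) * φ g 1, g • y) (1, x)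
    rw [map_one, mul_one]
    rcases h with h | h
    · rw [h, hone]
    · refine SimpleGraph.Adj.reachable (SimpleGraph.Adj.symm ?_)
      exact ⟨h.symm, (one_mul _).symm⟩
  · intro x y z g h h1 h2
    have h3 : Near X ((g * h) • z) (g • y) := by
      rw [mul_smul]
      rcases h2 with h2 | h2
      · exact Or.inl (by rw [h2])
      · exact Or.inr (hadj _ _ _ h2)
    ext
    · change c x (g • y) * φ g (c y (h • z)) = c2 x ((g * h) • z)
      rw [hc2 x (g • y) _ h1 h3, hφ, mul_smul]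
    · rfl
  · intro x
    ext
    · change c2 x ((1 : G) • x) = 1
      rw [one_smul, hc2 x x x (Or.inl rfl) (Or.inl rfl), hone, one_mul]
    · rfl

theorem exists_cover {G Ω : Type} [Group G] [MulAction G Ω] (X : SimpleGraph Ω)
    (hadj : ∀ (g : G) a b, X.Adj a b → X.Adj (g • a) (g • b))
    (ty : Ω → Prop) (hty : ∀ (g : G) a, ty (g • a) ↔ ty a)
    (hty' : ∀ a b, X.Adj a b → (ty a ↔ ¬ ty b))
    (hfour : ∀ a b b' c, X.Adj a b → X.Adj b c → X.Adj a b' → X.Adj b' c → a ≠ c → b = b') :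
    ∃ (Γ : Type) (_ : Group Γ) (p : Γ →* G) (V : Type) (_ : MulAction Γ V) (Y : SimpleGraph V)
      (q : V → Ω) (o : Ω → V) (s s₂ : Ω → Ω → G → Γ),
      Y.IsAcyclic ∧ (∀ (γ : Γ) a b, Y.Adj a b → Y.Adj (γ • a) (γ • b)) ∧
      (∀ (γ : Γ) z, q (γ • z) = p γ • q z) ∧ (∀ z z', Y.Adj z z' → X.Adj (q z) (q z')) ∧
      (∀ z z' z'', Y.Adj z z' → Y.Adj z z'' → q z' = q z'' → z' = z'') ∧
      (∀ (γ : Γ) (z : V), γ • z = z → p γ = 1 → γ = 1) ∧
      (∀ (γ : Γ) (z : V), γ • z = z → (∀ a : Ω, p γ • a = a) → ∀ z' : V, γ • z' = z') ∧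
      (∀ a, q (o a) = a) ∧ (∀ x y g, p (s x y g) = g) ∧
      (∀ x y (g : G), Near X (g • y) x → Y.Reachable (s x y g • o y) (o x)) ∧
      (∀ x y z (g h : G), Near X (g • y) x → Near X (h • z) y →
        s x y g * s y z h = s₂ x z (g * h)) ∧
      ∀ x, s₂ x x 1 = 1 := by
  classical
  letI act : MulAction G {p : Ω × Ω // X.Adj p.1 p.2 ∧ ty p.1} :=
    { smul := fun g p => ⟨(g • p.1.1, g • p.1.2), hadj _ _ _ p.2.1, (hty _ _).2 p.2.2⟩
      one_smul := fun p => Subtype.ext (Prod.ext (one_smul _ _) (one_smul _ _))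
      mul_smul := fun g h p => Subtype.ext (Prod.ext (mul_smul _ _ _) (mul_smul _ _ _)) }
  obtain ⟨φ, hφ⟩ := ZCovA_phi (G := G) (E := {p : Ω × Ω // X.Adj p.1 p.2 ∧ ty p.1})
  let l : ∀ a b, X.Adj a b → {p : Ω × Ω // X.Adj p.1 p.2 ∧ ty p.1} × Bool := fun a b h =>
    if ht : ty a then (⟨(a, b), h, ht⟩, true)
    else (⟨(b, a), h.symm, (hty' _ _ h.symm).2 ht⟩, false)
  let c : Ω → Ω → FreeGroup {p : Ω × Ω // X.Adj p.1 p.2 ∧ ty p.1} := fun a b =>
    if h : X.Adj a b then FreeGroup.mk [l a b h] else 1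
  have hc : ∀ a b (h : X.Adj a b), c a b = FreeGroup.mk [l a b h] := fun a b h => dif_pos h
  have hc0 : ∀ a b, ¬ X.Adj a b → c a b = 1 := fun a b h => dif_neg h
  have hc1 : ∀ a b (h : X.Adj a b) (ht : ty a), c a b = FreeGroup.of ⟨(a, b), h, ht⟩ := by
    intro a b h ht
    rw [hc a b h]
    simp only [l, dif_pos ht]
    rfl
  have hc2 : ∀ a b (h : X.Adj b a) (ht : ty b), c a b = (FreeGroup.of ⟨(b, a), h, ht⟩)⁻¹ := by
    intro a b h ht
    have ht' : ¬ ty a := (hty' _ _ h).1 ht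
    rw [hc a b h.symm]
    simp only [l, dif_neg ht']
    rfl
  have hl : ∀ a b b' (h : X.Adj a b) (h' : X.Adj a b'), l a b h = l a b' h' → b = b' := by
    intro a b b' h h' e
    by_cases ht : ty a
    · simp only [l, dif_pos ht] at e
      exact congrArg (fun x => x.1.1.2) e
    · simp only [l, dif_neg ht] at e
      exact congrArg (fun x => x.1.1.1) e
  refine ZCovA_main X hadj ty hty' hfour φ c (fun u => (FreeGroup.norm u : ℤ)) ?_ ?_
    (fun a => hc0 a a X.irrefl) ?_ ?_ ?_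
  · intro a b
    by_cases h : X.Adj a b
    · by_cases ht : ty a
      · rw [hc1 a b h ht, hc2 b a h ht]
      · have ht' : ty b := (hty' _ _ h.symm).2 ht
        rw [hc1 b a h.symm ht', hc2 a b h.symm ht', inv_inv]
    · rw [hc0 a b h, hc0 b a fun h' => h h'.symm, inv_one]
  · intro g a b
    by_cases h : X.Adj a b
    · by_cases ht : ty a
      · rw [hc1 a b h ht, hc1 _ _ (hadj g _ _ h) ((hty _ _).2 ht), hφ]
        rfl
      · have ht' : ty b := (hty' _ _ h.symm).2 ht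
        rw [hc2 a b h.symm ht', hc2 _ _ (hadj g _ _ h.symm) ((hty _ _).2 ht'), map_inv, hφ]
        rfl
    · rw [hc0 a b h, hc0 _ _ fun h' => h (by simpa using hadj g⁻¹ _ _ h'), map_one]
  · intro u a b h
    rw [hc a b h]
    rcases ZCovA_step' (l a b h) u with e | ⟨e, -⟩ <;> omega
  · intro u a b b' h h' e e'
    rw [hc a b h] at e
    rw [hc a b' h'] at e'
    rcases ZCovA_step' (l a b h) u with e1 | ⟨-, e1⟩
    · omega
    rcases ZCovA_step' (l a b' h') u with e2 | ⟨-, e2⟩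
    · omega
    exact hl a b b' h h' (Option.some.inj (e1.symm.trans e2))
  · intro g hg
    apply MulEquiv.toMonoidHom_injective
    ext e
    have : g • e = e := Subtype.ext (Prod.ext (hg _) (hg _))
    simp [hφ, this]

end Pool.Agent.MP_f7db47_al.PT

end

section

/-!
The incidence geometry of `GL_2` over a field of characteristic zero.
-/

namespace Pool.Agent.MP_f7db47_al.PT

section alg

variable {K : Type} [Field K]

/-- Two by two matrices. -/
abbrev ZGeo_M (K : Type) : Type := Matrix (Fin 2) (Fin 2) K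

/-- The trace form. -/
def ZGeo_B (x y : ZGeo_M K) : K := (x * y).trace

/-- Twice the traceless part. -/
def ZGeo_tl (h : ZGeo_M K) : ZGeo_M K := (2 : K) • h - h.trace • (1 : ZGeo_M K)

/-- Conjugation. -/
def ZGeo_cj (g : GL (Fin 2) K) (x : ZGeo_M K) : ZGeo_M K := g.val * x * (g⁻¹).val

theorem ZGeo_e11 {x : ZGeo_M K} (h : x.trace = 0) : x 1 1 = -x 0 0 := by
  rw [Matrix.trace_fin_two] at h
  linear_combination h

theorem ZGeo_B_comm (x y : ZGeo_M K) : ZGeo_B x y = ZGeo_B y x := Matrix.trace_mul_comm x y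

theorem ZGeo_B_smul (c d : K) (x y : ZGeo_M K) :
    ZGeo_B (c • x) (d • y) = c * d * ZGeo_B x y := by
  simp [ZGeo_B, mul_assoc, mul_left_comm]

theorem ZGeo_tl_trace (h : ZGeo_M K) : (ZGeo_tl h).trace = 0 := by
  simp [ZGeo_tl, Matrix.trace_fin_two]
  ring

theorem ZGeo_tl_smul (c : K) (h : ZGeo_M K) : ZGeo_tl (c • h) = c • ZGeo_tl h := by
  simp [ZGeo_tl, smul_sub, smul_smul, mul_comm]

theorem ZGeo_tl_comm {h n : ZGeo_M K} (e : h * n = n * h) : ZGeo_tl h * n = n * ZGeo_tl h := by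
  simp [ZGeo_tl, sub_mul, mul_sub, e]

theorem ZGeo_cj_mul (g : GL (Fin 2) K) (x y : ZGeo_M K) :
    ZGeo_cj g (x * y) = ZGeo_cj g x * ZGeo_cj g y := by
  simp only [ZGeo_cj, mul_assoc, Units.inv_mul_cancel_left]

theorem ZGeo_cj_sub (g : GL (Fin 2) K) (x y : ZGeo_M K) :
    ZGeo_cj g (x - y) = ZGeo_cj g x - ZGeo_cj g y := by
  simp only [ZGeo_cj, mul_sub, sub_mul]

theorem ZGeo_cj_smul (g : GL (Fin 2) K) (c : K) (x : ZGeo_M K) :
    ZGeo_cj g (c • x) = c • ZGeo_cj g x := by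
  simp only [ZGeo_cj, mul_smul_comm, smul_mul_assoc]

theorem ZGeo_cj_one (x : ZGeo_M K) : ZGeo_cj 1 x = x := by
  simp [ZGeo_cj]

theorem ZGeo_cj_cj (g h : GL (Fin 2) K) (x : ZGeo_M K) :
    ZGeo_cj (g * h) x = ZGeo_cj g (ZGeo_cj h x) := by
  simp only [ZGeo_cj, mul_inv_rev, Units.val_mul, mul_assoc]

theorem ZGeo_cj_trace (g : GL (Fin 2) K) (x : ZGeo_M K) : (ZGeo_cj g x).trace = x.trace := by
  rw [ZGeo_cj, Matrix.trace_mul_comm, ← mul_assoc, Units.inv_mul, one_mul]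

theorem ZGeo_cj_eq_zero {g : GL (Fin 2) K} {x : ZGeo_M K} (h : ZGeo_cj g x = 0) : x = 0 := by
  have h1 := congrArg (ZGeo_cj g⁻¹) h
  rw [← ZGeo_cj_cj, inv_mul_cancel, ZGeo_cj_one] at h1
  rw [h1]
  simp [ZGeo_cj]

theorem ZGeo_cj_B (g : GL (Fin 2) K) (x y : ZGeo_M K) :
    ZGeo_B (ZGeo_cj g x) (ZGeo_cj g y) = ZGeo_B x y := by
  rw [ZGeo_B, ← ZGeo_cj_mul, ZGeo_cj_trace, ZGeo_B]

theorem ZGeo_cj_tl (g : GL (Fin 2) K) (x : ZGeo_M K) :
    ZGeo_tl (ZGeo_cj g x) = ZGeo_cj g (ZGeo_tl x) := by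
  rw [ZGeo_tl, ZGeo_tl, ZGeo_cj_sub, ZGeo_cj_smul, ZGeo_cj_smul, ZGeo_cj_trace]
  simp [ZGeo_cj]

theorem ZGeo_cj_val (a h : GL (Fin 2) K) : (a * h * a⁻¹).val = ZGeo_cj a h.val := by
  simp only [ZGeo_cj, Units.val_mul]

theorem ZGeo_cj_eq {g : GL (Fin 2) K} {x y : ZGeo_M K} :
    ZGeo_cj g x = y ↔ g.val * x = y * g.val := by
  constructor
  · rintro rfl
    simp only [ZGeo_cj, mul_assoc, Units.inv_mul, mul_one]
  · intro h
    rw [ZGeo_cj, h, mul_assoc, Units.mul_inv, mul_one]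

theorem ZGeo_br_trace (x y : ZGeo_M K) : (x * y - y * x).trace = 0 := by
  rw [Matrix.trace_sub, Matrix.trace_mul_comm, sub_self]

theorem ZGeo_triple {x x' y : ZGeo_M K} (hx : x.trace = 0) (hx' : x'.trace = 0)
    (hy : y.trace = 0) : y * (x * x' - x' * x) - (x * x' - x' * x) * y =
      (2 * ZGeo_B y x) • x' - (2 * ZGeo_B y x') • x := by
  have h1 := ZGeo_e11 hx
  have h2 := ZGeo_e11 hx'
  have h3 := ZGeo_e11 hy
  ext i j
  fin_cases i <;> fin_cases j <;>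
    simp [ZGeo_B, Matrix.mul_apply, Fin.sum_univ_two, Matrix.trace_fin_two, h1, h2, h3] <;> ring

theorem ZGeo_anti {x y : ZGeo_M K} (hx : x.trace = 0) (hy : y.trace = 0) :
    x * y + y * x = ZGeo_B x y • (1 : ZGeo_M K) := by
  have h1 := ZGeo_e11 hx
  have h2 := ZGeo_e11 hy
  ext i j
  fin_cases i <;> fin_cases j <;>
    simp [ZGeo_B, Matrix.mul_apply, Fin.sum_univ_two, Matrix.trace_fin_two, h1, h2] <;> ring

theorem ZGeo_gram (a b : ZGeo_M K) :
    ZGeo_B (ZGeo_tl a) (ZGeo_tl b) ^ 2 - ZGeo_B (ZGeo_tl a) (ZGeo_tl a) *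
      ZGeo_B (ZGeo_tl b) (ZGeo_tl b) = -16 * (a * b - b * a).det := by
  simp [ZGeo_B, ZGeo_tl, Matrix.mul_apply, Fin.sum_univ_two, Matrix.trace_fin_two,
    Matrix.det_fin_two]
  ring

theorem ZGeo_disc (a : ZGeo_M K) :
    ZGeo_B (ZGeo_tl a) (ZGeo_tl a) = 2 * (a.trace ^ 2 - 4 * a.det) := by
  simp [ZGeo_B, ZGeo_tl, Matrix.mul_apply, Fin.sum_univ_two, Matrix.trace_fin_two,
    Matrix.det_fin_two]
  ring

theorem ZGeo_det_sub_one (a : ZGeo_M K) : (a - 1).det = a.det - a.trace + 1 := by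
  simp [Matrix.trace_fin_two, Matrix.det_fin_two]
  ring

variable [CharZero K]

theorem ZGeo_prop {x y : ZGeo_M K} (hx : x.trace = 0) (hy : y.trace = 0) (hy0 : y ≠ 0)
    (h : x * y = y * x) : ∃ c : K, x = c • y := by
  have h1 := ZGeo_e11 hx
  have h2 := ZGeo_e11 hy
  have e00 := congrFun (congrFun h 0) 0
  have e01 := congrFun (congrFun h 0) 1
  have e10 := congrFun (congrFun h 1) 0
  simp only [Matrix.mul_apply, Fin.sum_univ_two, h1, h2] at e00 e01 e10
  have f1 : x 0 1 * y 1 0 = y 0 1 * x 1 0 := by linear_combination e00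
  have f2 : x 0 0 * y 0 1 = y 0 0 * x 0 1 := by linear_combination e01 / 2
  have f3 : x 1 0 * y 0 0 = y 1 0 * x 0 0 := by linear_combination e10 / 2
  have key : ∀ c : K, x 0 0 = c * y 0 0 → x 0 1 = c * y 0 1 → x 1 0 = c * y 1 0 →
      ∃ c : K, x = c • y := by
    intro c g1 g2 g3
    refine ⟨c, ?_⟩
    ext i j
    fin_cases i <;> fin_cases j <;> simp [h1, h2, g1, g2, g3]
  by_cases k1 : y 0 0 = 0
  · by_cases k2 : y 0 1 = 0
    · by_cases k3 : y 1 0 = 0
      · refine absurd ?_ hy0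
        ext i j
        fin_cases i <;> fin_cases j <;> simp [h2, k1, k2, k3]
      · refine key (x 1 0 / y 1 0) ?_ ?_ ?_
        · field_simp
          linear_combination -f3
        · field_simp
          linear_combination f1
        · field_simp
    · refine key (x 0 1 / y 0 1) ?_ ?_ ?_
      · field_simp
        linear_combination f2
      · field_simp
      · field_simp
        linear_combination -f1
  · refine key (x 0 0 / y 0 0) ?_ ?_ ?_
    · field_simp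
    · field_simp
      linear_combination -f2
    · field_simp
      linear_combination f3

theorem ZGeo_tl_eq_zero {h : ZGeo_M K} :
    ZGeo_tl h = 0 ↔ ∃ c : K, h = c • (1 : ZGeo_M K) := by
  constructor
  · intro e
    refine ⟨h.trace / 2, ?_⟩
    have h1 : (2 : K) • h = h.trace • (1 : ZGeo_M K) := sub_eq_zero.mp e
    have h2 : h = (2 : K)⁻¹ • ((2 : K) • h) := by
      rw [smul_smul, inv_mul_cancel₀ two_ne_zero, one_smul]
    rw [h1, smul_smul] at h2
    rw [div_eq_inv_mul]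
    exact h2
  · rintro ⟨c, rfl⟩
    rw [ZGeo_tl_smul]
    have : ZGeo_tl (1 : ZGeo_M K) = 0 := by simp [ZGeo_tl]
    rw [this, smul_zero]

theorem ZGeo_orth {x x' y : ZGeo_M K} (hx : x.trace = 0) (hx' : x'.trace = 0)
    (hy : y.trace = 0) (hne : x * x' - x' * x ≠ 0) (h1 : ZGeo_B y x = 0) (h2 : ZGeo_B y x' = 0) :
    ∃ c : K, y = c • (x * x' - x' * x) := by
  refine ZGeo_prop hy (ZGeo_br_trace _ _) hne (sub_eq_zero.mp ?_)
  rw [ZGeo_triple hx hx' hy, h1, h2]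
  simp

theorem ZGeo_nil {x y : ZGeo_M K} (hx : x.trace = 0) (hy : y.trace = 0) (hy0 : y ≠ 0)
    (h1 : ZGeo_B x x = 0) (h2 : ZGeo_B y y = 0) (h3 : ZGeo_B x y = 0) : ∃ c : K, x = c • y := by
  refine ZGeo_prop hx hy hy0 ?_
  by_contra hne
  have hne' : x * y - y * x ≠ 0 := sub_ne_zero.mpr hne
  obtain ⟨c, hc⟩ := ZGeo_orth hx hy hx hne' h1 h3
  obtain ⟨d, hd⟩ := ZGeo_orth hx hy hy hne' (by rw [ZGeo_B_comm]; exact h3) h2
  generalize x * y - y * x = u at hc hd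
  apply hne
  rw [hc, hd]
  simp only [mul_smul_comm, smul_mul_assoc, smul_smul, mul_comm c d]

theorem ZGeo_fix {x y : ZGeo_M K} (hx : x.trace = 0) (hy : y.trace = 0) (hx0 : x ≠ 0)
    (h1 : ZGeo_B x x = 0) (h2 : ZGeo_B y y ≠ 0) (h3 : ZGeo_B x y = 0) {g : GL (Fin 2) K}
    {l c : K} (gx : ZGeo_cj g x = l • x) (gy : ZGeo_cj g y = c • y) : g.val * y = y * g.val := by
  have h4 : (x * y - y * x) * x = x * (x * y - y * x) := by
    refine (sub_eq_zero.mp ?_).symm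
    rw [ZGeo_triple hx hy hx, h1, h3]
    simp
  obtain ⟨μ, hμ⟩ := ZGeo_prop (ZGeo_br_trace x y) hx hx0 h4
  have hμ0 : μ ≠ 0 := by
    rintro rfl
    rw [zero_smul, sub_eq_zero] at hμ
    obtain ⟨t, ht⟩ := ZGeo_prop hy hx hx0 hμ.symm
    apply h2
    rw [ht, ZGeo_B_smul, h1, mul_zero]
  have hl0 : l ≠ 0 := by
    rintro rfl
    rw [zero_smul] at gx
    exact hx0 (ZGeo_cj_eq_zero gx)
  have h5 := congrArg (ZGeo_cj g) hμ
  rw [ZGeo_cj_sub, ZGeo_cj_mul, ZGeo_cj_mul, ZGeo_cj_smul, gx, gy] at h5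
  have h6 : (l * c) • (x * y - y * x) = (μ * l) • x := by
    rw [mul_smul μ l x, ← h5]
    simp only [mul_smul_comm, smul_mul_assoc, smul_smul, smul_sub, mul_comm c l]
  rw [hμ, smul_smul] at h6
  have h7 : l * c * μ = μ * l := smul_left_injective K hx0 h6
  have h8 : c = 1 := by
    have : l * μ * (c - 1) = 0 := by linear_combination h7
    exact sub_eq_zero.mp ((mul_eq_zero.mp this).resolve_left (mul_ne_zero hl0 hμ0))
  rw [h8, one_smul] at gy
  exact ZGeo_cj_eq.mp gy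

end alg

section om

variable (K : Type) [Field K]

/-- Nonzero traceless matrices. -/
def ZGeo_NZ : Type := {n : ZGeo_M K // n ≠ 0 ∧ n.trace = 0}

/-- Proportionality. -/
def ZGeo_st : Setoid (ZGeo_NZ K) where
  r x y := ∃ c : K, x.1 = c • y.1
  iseqv := by
    refine ⟨fun x => ⟨1, (one_smul _ _).symm⟩, ?_, ?_⟩
    · rintro x y ⟨c, hc⟩
      have hc0 : c ≠ 0 := by
        rintro rfl
        exact x.2.1 (by rw [hc, zero_smul])
      exact ⟨c⁻¹, by rw [hc, smul_smul, inv_mul_cancel₀ hc0, one_smul]⟩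
    · rintro x y z ⟨c, hc⟩ ⟨d, hd⟩
      exact ⟨c * d, by rw [hc, hd, smul_smul]⟩

/-- The lines. -/
def ZGeo_Om : Type := Quotient (ZGeo_st K)

variable {K}

/-- The line through a matrix. -/
def ZGeo_mk (x : ZGeo_NZ K) : ZGeo_Om K := Quotient.mk (ZGeo_st K) x

theorem ZGeo_mk_eq {x y : ZGeo_NZ K} : ZGeo_mk x = ZGeo_mk y ↔ ∃ c : K, x.1 = c • y.1 :=
  Quotient.eq (r := ZGeo_st K)

theorem ZGeo_surj (ω : ZGeo_Om K) : ∃ x, ZGeo_mk x = ω := Quotient.exists_rep ω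

/-- Conjugation of nonzero traceless matrices. -/
def ZGeo_act (g : GL (Fin 2) K) (x : ZGeo_NZ K) : ZGeo_NZ K :=
  ⟨ZGeo_cj g x.1, fun h => x.2.1 (ZGeo_cj_eq_zero h), by rw [ZGeo_cj_trace]; exact x.2.2⟩

/-- The action on lines. -/
@[reducible] def ZGeo_ma : MulAction (GL (Fin 2) K) (ZGeo_Om K) where
  smul g := Quotient.map (sa := ZGeo_st K) (sb := ZGeo_st K) (ZGeo_act g) (by
    rintro x y ⟨c, hc⟩
    exact ⟨c, by change ZGeo_cj g x.1 = c • ZGeo_cj g y.1; rw [hc, ZGeo_cj_smul]⟩)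
  one_smul ω := by
    obtain ⟨x, rfl⟩ := ZGeo_surj ω
    change ZGeo_mk (ZGeo_act 1 x) = ZGeo_mk x
    exact congrArg ZGeo_mk (Subtype.ext (ZGeo_cj_one _))
  mul_smul g h ω := by
    obtain ⟨x, rfl⟩ := ZGeo_surj ω
    change ZGeo_mk (ZGeo_act (g * h) x) = ZGeo_mk (ZGeo_act g (ZGeo_act h x))
    exact congrArg ZGeo_mk (Subtype.ext (ZGeo_cj_cj _ _ _))

attribute [local instance] ZGeo_ma

theorem ZGeo_smul_mk (g : GL (Fin 2) K) (x : ZGeo_NZ K) :
    g • ZGeo_mk x = ZGeo_mk (ZGeo_act g x) := rfl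

theorem ZGeo_fix_iff {g : GL (Fin 2) K} {x : ZGeo_NZ K} :
    g • ZGeo_mk x = ZGeo_mk x ↔ ∃ c : K, ZGeo_cj g x.1 = c • x.1 := by
  rw [ZGeo_smul_mk, ZGeo_mk_eq]
  rfl

/-- Orthogonal lines. -/
def ZGeo_Or (a b : ZGeo_Om K) : Prop :=
  ∀ x y, ZGeo_mk x = a → ZGeo_mk y = b → ZGeo_B x.1 y.1 = 0

theorem ZGeo_or_mk {x y : ZGeo_NZ K} :
    ZGeo_Or (ZGeo_mk x) (ZGeo_mk y) ↔ ZGeo_B x.1 y.1 = 0 := by
  refine ⟨fun h => h x y rfl rfl, fun h x' y' h1 h2 => ?_⟩
  obtain ⟨c, hc⟩ := ZGeo_mk_eq.mp h1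
  obtain ⟨d, hd⟩ := ZGeo_mk_eq.mp h2
  rw [hc, hd, ZGeo_B_smul, h, mul_zero]

theorem ZGeo_or_smul (g : GL (Fin 2) K) (a b : ZGeo_Om K) :
    ZGeo_Or (g • a) (g • b) ↔ ZGeo_Or a b := by
  obtain ⟨x, rfl⟩ := ZGeo_surj a
  obtain ⟨y, rfl⟩ := ZGeo_surj b
  rw [ZGeo_smul_mk, ZGeo_smul_mk, ZGeo_or_mk, ZGeo_or_mk]
  change ZGeo_B (ZGeo_cj g x.1) (ZGeo_cj g y.1) = 0 ↔ _
  rw [ZGeo_cj_B]

theorem ZGeo_or_symm {a b : ZGeo_Om K} (h : ZGeo_Or a b) : ZGeo_Or b a :=
  fun x y h1 h2 => by rw [ZGeo_B_comm]; exact h y x h2 h1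

/-- The incidence graph. -/
def ZGeo_X : SimpleGraph (ZGeo_Om K) where
  Adj a b := ZGeo_Or a b ∧ (ZGeo_Or a a ↔ ¬ ZGeo_Or b b)
  symm := ⟨fun a b h => ⟨ZGeo_or_symm h.1, by have := h.2; tauto⟩⟩
  loopless := ⟨fun a h => by have := h.2; tauto⟩

open Classical in
/-- The line through the traceless part. -/
noncomputable def ZGeo_om (h : GL (Fin 2) K) : ZGeo_Om K :=
  if e : ZGeo_tl h.val = 0 then
    ZGeo_mk ⟨!![0, 1; 0, 0], fun e => by simpa using congrFun (congrFun e 0) 1, by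
      simp [Matrix.trace_fin_two]⟩
  else ZGeo_mk ⟨ZGeo_tl h.val, e, ZGeo_tl_trace _⟩

theorem ZGeo_om_eq {h : GL (Fin 2) K} (e : ¬ ZGeo_tl h.val = 0) :
    ZGeo_om h = ZGeo_mk ⟨ZGeo_tl h.val, e, ZGeo_tl_trace _⟩ := dif_neg e

variable [CharZero K]

theorem ZGeo_triv {g : GL (Fin 2) K} (h : ZGeo_tl g.val = 0) (a : ZGeo_Om K) : g • a = a := by
  obtain ⟨x, rfl⟩ := ZGeo_surj a
  obtain ⟨c, hc⟩ := ZGeo_tl_eq_zero.mp h
  refine ZGeo_fix_iff.mpr ⟨1, ?_⟩
  rw [one_smul, ZGeo_cj_eq, hc]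
  simp

theorem ZGeo_rig {g : GL (Fin 2) K} {a b c : ZGeo_Om K} (hb : ZGeo_Or b b)
    (h1 : ZGeo_X.Adj b a) (h2 : ZGeo_X.Adj b c) (hne : a ≠ c) (ga : g • a = a) (gb : g • b = b)
    (gc : g • c = c) (z : ZGeo_Om K) : g • z = z := by
  refine ZGeo_triv ?_ z
  by_contra h0
  have key : ∀ d, ZGeo_X.Adj b d → g • d = d →
      ZGeo_mk ⟨ZGeo_tl g.val, h0, ZGeo_tl_trace _⟩ = d := by
    intro d hd gd
    obtain ⟨x, rfl⟩ := ZGeo_surj b
    obtain ⟨y, rfl⟩ := ZGeo_surj d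
    obtain ⟨l, hl⟩ := ZGeo_fix_iff.mp gb
    obtain ⟨t, ht⟩ := ZGeo_fix_iff.mp gd
    have h3 := ZGeo_fix x.2.2 y.2.2 x.2.1 (ZGeo_or_mk.mp hb)
      (fun e => hd.2.mp hb (ZGeo_or_mk.mpr e)) (ZGeo_or_mk.mp hd.1) hl ht
    exact ZGeo_mk_eq.mpr (ZGeo_prop (ZGeo_tl_trace _) y.2.2 y.2.1 (ZGeo_tl_comm h3))
  exact hne ((key a h1 ga).symm.trans (key c h2 gc))

theorem ZGeo_cz_sq {g : GL (Fin 2) K} (h : ZGeo_tl g.val = 0) : ZGeo_tl (g * g).val = 0 := by
  obtain ⟨c, hc⟩ := ZGeo_tl_eq_zero.mp h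
  refine ZGeo_tl_eq_zero.mpr ⟨c * c, ?_⟩
  rw [Units.val_mul, hc]
  simp [smul_smul]

theorem ZGeo_near {γ h : GL (Fin 2) K} (h1 : ¬ ZGeo_tl (γ * γ).val = 0)
    (h2 : ¬ ZGeo_tl h.val = 0) (h3 : γ • ZGeo_om h = ZGeo_om h) :
    ZGeo_om γ = ZGeo_om h ∨ ((¬ ZGeo_tl h.val = 0 ∧
      ZGeo_B (ZGeo_tl h.val) (ZGeo_tl h.val) = 0) ∧ ZGeo_X.Adj (ZGeo_om γ) (ZGeo_om h)) := by
  have h4 : ¬ ZGeo_tl γ.val = 0 := fun e => h1 (ZGeo_cz_sq e)
  rw [ZGeo_om_eq h2] at h3 ⊢
  rw [ZGeo_om_eq h4]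
  obtain ⟨c, hc⟩ := ZGeo_fix_iff.mp h3
  change ZGeo_cj γ (ZGeo_tl h.val) = c • ZGeo_tl h.val at hc
  have tn := ZGeo_tl_trace h.val
  have tm := ZGeo_tl_trace γ.val
  by_cases hc1 : c = 1
  · rw [hc1, one_smul, ZGeo_cj_eq] at hc
    exact Or.inl (ZGeo_mk_eq.mpr (ZGeo_prop tm tn h2 (ZGeo_tl_comm hc)))
  have hm : ZGeo_cj γ (ZGeo_tl γ.val) = (1 : K) • ZGeo_tl γ.val := by
    rw [one_smul, ZGeo_cj_eq]
    exact (ZGeo_tl_comm rfl).symm
  have hB : ZGeo_B (ZGeo_tl γ.val) (ZGeo_tl h.val) = 0 := by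
    have h5 := ZGeo_cj_B γ (ZGeo_tl γ.val) (ZGeo_tl h.val)
    rw [hm, hc, ZGeo_B_smul] at h5
    have h6 : (c - 1) * ZGeo_B (ZGeo_tl γ.val) (ZGeo_tl h.val) = 0 := by linear_combination h5
    exact (mul_eq_zero.mp h6).resolve_left (sub_ne_zero.mpr hc1)
  by_cases hn : ZGeo_B (ZGeo_tl h.val) (ZGeo_tl h.val) = 0
  · by_cases hm0 : ZGeo_B (ZGeo_tl γ.val) (ZGeo_tl γ.val) = 0
    · exact Or.inl (ZGeo_mk_eq.mpr (ZGeo_nil tm tn h2 hm0 hn hB))
    · refine Or.inr ⟨⟨h2, hn⟩, ZGeo_or_mk.mpr hB, ?_⟩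
      rw [ZGeo_or_mk, ZGeo_or_mk]
      exact ⟨fun e => absurd e hm0, fun e => absurd hn e⟩
  · exfalso
    have h5 := ZGeo_cj_B γ (ZGeo_tl h.val) (ZGeo_tl h.val)
    rw [hc, ZGeo_B_smul] at h5
    have h6 : (c - 1) * (c + 1) * ZGeo_B (ZGeo_tl h.val) (ZGeo_tl h.val) = 0 := by
      linear_combination h5
    have h7 : c = -1 := eq_neg_of_add_eq_zero_left
      ((mul_eq_zero.mp ((mul_eq_zero.mp h6).resolve_right hn)).resolve_left (sub_ne_zero.mpr hc1))
    rw [h7, ZGeo_cj_eq] at hc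
    have h8 := ZGeo_anti tm tn
    rw [hB, zero_smul] at h8
    clear h3
    generalize ZGeo_tl h.val = n at h8 hc h2
    have h9 : (2 * γ.val.trace) • n = 0 := by
      have h10 : ZGeo_tl γ.val * n + n * ZGeo_tl γ.val =
          (2 : K) • (γ.val * n + n * γ.val) - (2 * γ.val.trace) • n := by
        simp only [ZGeo_tl, sub_mul, mul_sub, smul_mul_assoc, mul_smul_comm, one_mul, mul_one]
        module
      rw [h10, hc] at h8
      simpa using h8
    have h11 : γ.val.trace = 0 := by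
      have := (smul_eq_zero.mp h9).resolve_right h2
      exact (mul_eq_zero.mp this).resolve_left two_ne_zero
    refine h1 (ZGeo_tl_eq_zero.mpr ⟨(2 : K)⁻¹ * ZGeo_B γ.val γ.val, ?_⟩)
    rw [mul_smul, ← ZGeo_anti h11 h11, ← two_smul K, smul_smul, inv_mul_cancel₀ two_ne_zero,
      one_smul, Units.val_mul]

/-- The geometry. -/
noncomputable def ZGeo_D : Geo (GL (Fin 2) K) (ZGeo_Om K) where
  X := ZGeo_X
  ty a := ZGeo_Or a a
  Cz g := ZGeo_tl g.val = 0
  Un g := ¬ ZGeo_tl g.val = 0 ∧ ZGeo_B (ZGeo_tl g.val) (ZGeo_tl g.val) = 0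
  om := ZGeo_om
  adj_smul g a b h := ⟨(ZGeo_or_smul g a b).mpr h.1, by
    rw [ZGeo_or_smul, ZGeo_or_smul]; exact h.2⟩
  ty_smul g a := ZGeo_or_smul g a a
  ty_adj _ _ h := h.2
  four a b b' c h1 h2 h3 h4 hne := by
    obtain ⟨x, rfl⟩ := ZGeo_surj a
    obtain ⟨x', rfl⟩ := ZGeo_surj c
    have hu : x.1 * x'.1 - x'.1 * x.1 ≠ 0 := fun e =>
      hne (ZGeo_mk_eq.mpr (ZGeo_prop x.2.2 x'.2.2 x'.2.1 (sub_eq_zero.mp e)))
    have key : ∀ d, ZGeo_Or (ZGeo_mk x) d → ZGeo_Or d (ZGeo_mk x') →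
        d = ZGeo_mk ⟨_, hu, ZGeo_br_trace _ _⟩ := by
      intro d e1 e2
      obtain ⟨y, rfl⟩ := ZGeo_surj d
      exact ZGeo_mk_eq.mpr (ZGeo_orth x.2.2 x'.2.2 y.2.2 hu
        (ZGeo_or_mk.mp (ZGeo_or_symm e1)) (ZGeo_or_mk.mp e2))
    exact (key b h1.1 h2.1).trans (key b' h3.1 h4.1).symm
  rigid g a b c d h1 h2 h3 n1 n2 ga gb gc gd := by
    by_cases hb : ZGeo_Or b b
    · exact ZGeo_rig hb h1.symm h2 n1 ga gb gc
    · exact ZGeo_rig (h2.symm.2.mpr hb) h2.symm h3 n2 gb gc gd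
  cz_triv _ a h := ZGeo_triv h a
  cz_sq _ h := ZGeo_cz_sq h
  cz_conj a h e := by
    rw [ZGeo_cj_val, ZGeo_cj_tl] at e
    exact ZGeo_cj_eq_zero e
  un_conj a h e := by
    rw [ZGeo_cj_val, ZGeo_cj_tl, ZGeo_cj_B]
    exact ⟨fun e' => e.1 (ZGeo_cj_eq_zero e'), e.2⟩
  un_ncz _ e := e.1
  om_conj a h e := by
    have e' : ¬ ZGeo_tl (a * h * a⁻¹).val = 0 := by
      rw [ZGeo_cj_val, ZGeo_cj_tl]
      exact fun e' => e (ZGeo_cj_eq_zero e')
    rw [ZGeo_om_eq e, ZGeo_om_eq e', ZGeo_smul_mk]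
    refine congrArg ZGeo_mk (Subtype.ext ?_)
    change ZGeo_tl (a * h * a⁻¹).val = ZGeo_cj a (ZGeo_tl h.val)
    rw [ZGeo_cj_val, ZGeo_cj_tl]
  om_comm a h e e' := by
    obtain ⟨c, hc⟩ := ZGeo_tl_eq_zero.mp e'
    rw [ZGeo_om_eq e]
    refine ZGeo_fix_iff.mpr ⟨c, ?_⟩
    change ZGeo_cj a (ZGeo_tl h.val) = c • ZGeo_tl h.val
    have h1 : (a * h * a⁻¹).val = c • h.val := by
      have h2 : a * h * a⁻¹ = a * h * a⁻¹ * h⁻¹ * h := by group
      rw [h2, Units.val_mul, hc]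
      simp
    rw [← ZGeo_cj_tl, ← ZGeo_cj_val, h1, ZGeo_tl_smul]
  om_near _ _ h1 h2 h3 := ZGeo_near h1 h2 h3

theorem ZGeo_comm2 (a b : GL (Fin 2) K) (h : (a * b * a⁻¹ * b⁻¹).val.trace = 2) :
    (ZGeo_D (K := K)).Comm2 a b := by
  have hdet : (a * b * a⁻¹ * b⁻¹).val.det = 1 := by
    have h1 : Matrix.GeneralLinearGroup.det (a * b * a⁻¹ * b⁻¹) = 1 := by
      simp only [map_mul, map_inv]
      rw [mul_comm (Matrix.GeneralLinearGroup.det a)]
      group
    have h2 := congrArg Units.val h1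
    rw [Matrix.GeneralLinearGroup.val_det_apply] at h2
    exact h2
  have hw : a.val * b.val = (a * b * a⁻¹ * b⁻¹).val * (b.val * a.val) := by
    rw [← Units.val_mul, ← Units.val_mul, ← Units.val_mul]
    congr 1
    group
  constructor
  · rintro ⟨a1, a2⟩ ⟨b1, b2⟩
    change ZGeo_om a = ZGeo_om b
    rw [ZGeo_om_eq a1, ZGeo_om_eq b1]
    have h1 : (a.val * b.val - b.val * a.val).det = 0 := by
      have h2 : a.val * b.val - b.val * a.val =
          ((a * b * a⁻¹ * b⁻¹).val - 1) * (b.val * a.val) := by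
        rw [sub_mul, ← hw, one_mul]
      rw [h2, Matrix.det_mul, ZGeo_det_sub_one, hdet, h]
      ring
    have h3 := ZGeo_gram a.val b.val
    rw [h1, a2, zero_mul, sub_zero, mul_zero] at h3
    exact ZGeo_mk_eq.mpr (ZGeo_nil (ZGeo_tl_trace _) (ZGeo_tl_trace _) b1 a2 b2
      (pow_eq_zero_iff two_ne_zero |>.mp h3))
  · intro a1 b1
    by_cases hz : ZGeo_tl (a * b * a⁻¹ * b⁻¹).val = 0
    · right
      change ZGeo_om a = ZGeo_om b
      rw [ZGeo_om_eq a1, ZGeo_om_eq b1]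
      obtain ⟨c, hc⟩ := ZGeo_tl_eq_zero.mp hz
      have hc1 : c = 1 := by
        rw [hc, Matrix.trace_smul, Matrix.trace_one] at h
        simp only [Fintype.card_fin, Nat.cast_ofNat, smul_eq_mul] at h
        linear_combination h / 2
      rw [hc, hc1, one_smul, one_mul] at hw
      exact ZGeo_mk_eq.mpr (ZGeo_prop (ZGeo_tl_trace _) (ZGeo_tl_trace _) b1
        (ZGeo_tl_comm (ZGeo_tl_comm hw.symm).symm))
    · left
      refine ⟨hz, ?_⟩
      rw [ZGeo_disc, hdet, h]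
      ring

end om

theorem exists_geo (K : Type) [Field K] [CharZero K] :
    ∃ (Ω : Type) (_ : MulAction (GL (Fin 2) K) Ω) (D : Geo (GL (Fin 2) K) Ω),
      (∀ g, D.Cz g → ∃ c : K, g.val = c • (1 : Matrix (Fin 2) (Fin 2) K)) ∧
      (∀ a b : GL (Fin 2) K, (a * b * a⁻¹ * b⁻¹).val.trace = 2 → D.Comm2 a b) ∧
      ∀ ω : Ω, ∃ n : Matrix (Fin 2) (Fin 2) K, n ≠ 0 ∧ n.trace = 0 ∧
        ∀ g : GL (Fin 2) K, g • ω = ω → ∃ c : K, g.val * n = c • (n * g.val) := by
  refine ⟨ZGeo_Om K, ZGeo_ma, ZGeo_D, fun g h => ZGeo_tl_eq_zero.mp h, ZGeo_comm2, fun ω => ?_⟩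
  obtain ⟨x, rfl⟩ := ZGeo_surj ω
  refine ⟨x.1, x.2.1, x.2.2, fun g hg => ?_⟩
  obtain ⟨c, hc⟩ := ZGeo_fix_iff.mp hg
  exact ⟨c, by rw [ZGeo_cj_eq.mp hc, smul_mul_assoc]⟩

end Pool.Agent.MP_f7db47_al.PT

end

section

/-!
The subdivided Bruhat-Tits tree, with its vertex and edge stabilisers.
-/

namespace Pool.Agent.MP_f7db47_al.PT

open scoped WithZero

section

open WithZero Matrix

variable {K : Type} [Field K] (v : Valuation K ℤᵐ⁰)

/-- the Iwahori condition -/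
def ZBT_I (g : GL (Fin 2) K) (u : ℤ) : Prop :=
  (∀ i j, v (g.val i j) ≤ exp u) ∧ v (g.val 1 0) < exp u ∧ BTd v g = u + u

theorem ZBT_lt {a b : K} {u u' : ℤ} (ha : v a ≤ exp u) (hb : v b < exp u') :
    v (a * b) < exp (u + u') := by
  rw [map_mul, exp_add]
  exact (mul_le_mul' ha le_rfl).trans_lt (mul_lt_mul_of_pos_left hb (zero_lt_iff.2 exp_ne_zero))

theorem ZBT_iw {x : Kˣ} (hx : v x = exp 1) {g : GL (Fin 2) K} (h1 : g ∈ BTH v)
    (h2 : (BTD x)⁻¹ * g * BTD x ∈ BTH v) : ZBT_I v g (BTn v g) := by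
  have e1 : BTδ v g = 0 := h1
  have e2 : BTδ v ((BTD x)⁻¹ * g * BTD x) = 0 := h2
  rw [BTδ, BTd_mul, BTd_mul, BTd_inv] at e2
  rw [BTδ] at e1
  refine ⟨BT_le_n v g, ?_, by omega⟩
  have e3 := (BTn_le_iff v (g := (BTD x)⁻¹ * g * BTD x) (u := BTn v g)).1 (by omega) 1 0
  have e4 : ((BTD x)⁻¹ * g * BTD x).val 1 0 = g.val 1 0 * x := by
    rw [← map_inv, Units.val_mul, Units.val_mul, BTD_val, BTD_val]
    simp [mul_apply, Fin.sum_univ_two, vecMul, dotProduct]
  rw [e4, map_mul, hx, ← le_div_iff₀ (zero_lt_iff.2 exp_ne_zero), ← exp_sub] at e3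
  exact e3.trans_lt (exp_lt_exp.2 (by omega))

theorem ZBT_diag {g h : GL (Fin 2) K} {u u' : ℤ} (hg : ZBT_I v g u) (hh : ZBT_I v h u')
    (i : Fin 2) : v ((g * h).val i i - g.val i i * h.val i i) < exp (u + u') := by
  rw [Units.val_mul, mul_apply, Fin.sum_univ_two]
  fin_cases i
  · simpa using ZBT_lt v (hg.1 0 1) hh.2.1
  · have := ZBT_lt v (hh.1 0 1) hg.2.1
    rw [add_comm, mul_comm] at this
    simpa using this

theorem ZBT_unit {g : GL (Fin 2) K} {u : ℤ} (hg : ZBT_I v g u) (i : Fin 2) :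
    exp u ≤ v (g.val i i) := by
  by_contra h
  rw [not_le] at h
  have h1 : v (g.val 0 0 * g.val 1 1) < exp (u + u) := by
    fin_cases i
    · rw [mul_comm]
      exact ZBT_lt v (hg.1 1 1) h
    · exact ZBT_lt v (hg.1 0 0) h
  have h2 := v.map_sub_lt h1 (ZBT_lt v (hg.1 0 1) hg.2.1)
  rw [← det_fin_two, BT_vdet, hg.2.2] at h2
  exact lt_irrefl _ h2

theorem ZBT_core {g h w : GL (Fin 2) K} {u u' U t : ℤ} (hg : ZBT_I v g u) (hh : ZBT_I v h u')
    (hp : ZBT_I v (h * g) U) (hw : ZBT_I v w t) (e : w * (h * g) = g * h) :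
    v (w.val.trace - 2) < 1 := by
  have d1 := BTd_mul v h g
  have d2 := BTd_mul v g h
  have d3 := BTd_mul v w (h * g)
  rw [e, d2, hw.2.2, d1] at d3
  rw [hp.2.2, hg.2.2, hh.2.2] at d1
  obtain rfl : t = 0 := by omega
  obtain rfl : U = u + u' := by omega
  have key : ∀ i, v (w.val i i - 1) < 1 := fun i => by
    have a1 := ZBT_diag v hg hh i
    have a2 := ZBT_diag v hh hg i
    have a3 := ZBT_diag v hw hp i
    rw [add_comm] at a2
    rw [e, zero_add] at a3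
    have a4 := v.map_sub_lt (v.map_sub_lt a1 a2) a3
    rw [show (g * h).val i i - g.val i i * h.val i i - ((h * g).val i i - h.val i i * g.val i i) -
      ((g * h).val i i - w.val i i * (h * g).val i i) = (h * g).val i i * (w.val i i - 1) by ring,
      map_mul] at a4
    by_contra a5
    exact absurd a4 (not_lt.2 ((mul_one _).symm.trans_le
      (mul_le_mul' (ZBT_unit v hp i) (not_lt.1 a5))))
  rw [trace_fin_two, show w.val 0 0 + w.val 1 1 - 2 = (w.val 0 0 - 1) + (w.val 1 1 - 1) by ring]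
  exact v.map_add_lt (key 0) (key 1)

theorem ZBT_fix {g k : GL (Fin 2) K}
    (h : g • (k : GL (Fin 2) K ⧸ BTH v) = k) : k⁻¹ * g * k ∈ BTH v := by
  rw [mul_assoc]
  exact QuotientGroup.eq.1 h.symm

theorem ZBT_trace (g k : GL (Fin 2) K) : (k⁻¹ * g * k).val.trace = g.val.trace := by
  rw [Units.val_mul, trace_mul_comm, ← Units.val_mul, ← mul_assoc, mul_inv_cancel, one_mul]

theorem ZBT_low {x : Kˣ} (hx : v x = exp 1) {a b : GL (Fin 2) K ⧸ BTH v} (hab : (BTX v).Adj a b)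
    (h : BTh v b.out < BTh v a.out) :
    ∃ k : GL (Fin 2) K, a = k ∧ b = (k * BTD x : GL (Fin 2) K) := by
  obtain ⟨a, ha, rfl⟩ := BT_rep v a
  obtain ⟨g, rfl⟩ := QuotientGroup.mk_surjective b
  rw [BTh_mk, BTh_mk] at h
  have h3 := BTh_upper v ha (a⁻¹ * g)
  rw [mul_inv_cancel_left] at h3
  have := BT_low v hx ((BTX_adj v _ _).1 hab) (by omega)
  refine ⟨a, rfl, Eq.symm ?_⟩
  rwa [QuotientGroup.eq, _root_.mul_inv_rev, mul_assoc]

theorem ZBT_edge {x : Kˣ} (hx : v x = exp 1) {a b : GL (Fin 2) K ⧸ BTH v} (hab : (BTX v).Adj a b)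
    {g h : GL (Fin 2) K} (ga : g • a = a) (gb : g • b = b) (ha : h • a = a) (hb : h • b = b) :
    v ((g * h * g⁻¹ * h⁻¹).val.trace - 2) < 1 := by
  wlog hl : BTh v b.out < BTh v a.out generalizing a b
  · refine this hab.symm gb ga hb ha ?_
    have h1 : BTδ v (a.out⁻¹ * b.out) = 1 := hab
    have h2 := BTd_mul v a.out⁻¹ b.out
    have h3 := BTd_inv v a.out
    unfold BTδ BTh at *
    omega
  have key : ∀ y ∈ MulAction.stabilizer (GL (Fin 2) K) a ⊓ MulAction.stabilizer (GL (Fin 2) K) b,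
      ∀ k : GL (Fin 2) K, a = k → b = (k * BTD x : GL (Fin 2) K) →
        ZBT_I v (k⁻¹ * y * k) (BTn v (k⁻¹ * y * k)) := by
    rintro y ⟨h1, h2⟩ k rfl rfl
    refine ZBT_iw v hx (ZBT_fix v h1) ?_
    have := ZBT_fix v h2
    rwa [_root_.mul_inv_rev, ← mul_assoc, mul_assoc _ k⁻¹, mul_assoc _ _ k] at this
  obtain ⟨k, h1, h2⟩ := ZBT_low v hx hab hl
  have mg : g ∈ MulAction.stabilizer (GL (Fin 2) K) a ⊓ MulAction.stabilizer (GL (Fin 2) K) b :=
    ⟨ga, gb⟩
  have mh : h ∈ MulAction.stabilizer (GL (Fin 2) K) a ⊓ MulAction.stabilizer (GL (Fin 2) K) b :=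
    ⟨ha, hb⟩
  have h3 := key _ (mul_mem mh mg) k h1 h2
  rw [show k⁻¹ * (h * g) * k = k⁻¹ * h * k * (k⁻¹ * g * k) by group] at h3
  rw [← ZBT_trace _ k]
  exact ZBT_core v (key g mg k h1 h2) (key h mh k h1 h2) h3
    (key _ (mul_mem (mul_mem (mul_mem mg mh) (inv_mem mg)) (inv_mem mh)) k h1 h2) (by group)

theorem ZBT_vert {g : GL (Fin 2) K} {a : GL (Fin 2) K ⧸ BTH v} (h : g • g • a = a) :
    v (g.val.trace ^ 2 / g.val.det) ≤ 1 := by
  obtain ⟨k, rfl⟩ := QuotientGroup.mk_surjective a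
  rw [← mul_smul] at h
  have h1 : BTδ v (k⁻¹ * (g * g) * k) = 0 := ZBT_fix v h
  rw [BTδ, BTd_mul, BTd_mul, BTd_mul, BTd_inv] at h1
  have h2 := (BTn_le_iff v (g := k⁻¹ * (g * g) * k) (u := BTd v g)).1 (by omega)
  have h3 := v.map_add_le (h2 0 0) (h2 1 1)
  rw [← trace_fin_two, ZBT_trace, ← BT_vdet] at h3
  have h4 : g.val.trace ^ 2 = (g * g).val.trace + g.val.det + g.val.det := by
    simp only [Units.val_mul, trace_fin_two, mul_apply, Fin.sum_univ_two, det_fin_two]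
    ring
  rw [map_div₀, h4]
  exact div_le_one_of_le₀ (v.map_add_le (v.map_add_le h3 le_rfl) le_rfl) zero_le

theorem ZBT_scal {g : GL (Fin 2) K} {c : K} (h : g.val = c • (1 : Matrix (Fin 2) (Fin 2) K))
    (a : GL (Fin 2) K ⧸ BTH v) : g • a = a := by
  obtain ⟨k, rfl⟩ := QuotientGroup.mk_surjective a
  have h1 : g * k = k * g := Units.ext (by simp [h])
  have h2 : g.val.det = c * c := by simp [h, sq]
  have h3 : v c ≠ 0 := fun e => BT_det_ne g (by rw [h2, (Valuation.zero_iff v).1 e, mul_zero])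
  have h4 : g ∈ BTH v := BTδ_zero v (log (v c)) (fun i j => by
    rw [exp_log h3, h]
    fin_cases i <;> fin_cases j <;> simp) (by rw [h2, map_mul, exp_add, exp_log h3])
  change ((g * k : GL (Fin 2) K) : GL (Fin 2) K ⧸ BTH v) = k
  rw [h1, QuotientGroup.mk_mul_of_mem k h4]

theorem ZBT_half {x : Kˣ} (hx : v x = exp 1) {a : GL (Fin 2) K ⧸ BTH v} {e : (BTX v).edgeSet}
    (hae : a ∈ e.1) {g h : GL (Fin 2) K} (ga : g • a = a) (ge : e.1.map (g • ·) = e.1)
    (ha : h • a = a) (he : e.1.map (h • ·) = e.1) :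
    v ((g * h * g⁻¹ * h⁻¹).val.trace - 2) < 1 := by
  obtain ⟨b, hab, rfl⟩ := Subdiv_edge e hae
  have key : ∀ y : GL (Fin 2) K, y • a = a → s(a, b).map (y • ·) = s(a, b) → y • b = b := by
    intro y h1 h2
    rcases Sym2.eq_iff.1 h2 with ⟨-, h3⟩ | ⟨h3, -⟩
    · exact h3
    · exact absurd (h1.symm.trans h3) hab.ne
  exact ZBT_edge v hx hab ga (key g ga ge) ha (key h ha he)

end

theorem exists_BT0 {K : Type} [Field K] (v : Valuation K ℤᵐ⁰) (π : K)
    (hπ : v π = WithZero.exp (-1)) :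
    ∃ (V : Type) (_ : MulAction (GL (Fin 2) K) V) (X : SimpleGraph V),
      TreeAction (GL (Fin 2) K) X ∧
      (∀ (g : GL (Fin 2) K) (c : K), g.val = c • (1 : Matrix (Fin 2) (Fin 2) K) →
        ∀ y : V, g • y = y) ∧
      (∀ (g : GL (Fin 2) K) (y : V), g • y = y → v (g.val.trace ^ 2 / g.val.det) ≤ 1) ∧
      ∀ (g h : GL (Fin 2) K) (a b : V), X.Adj a b → g • a = a → g • b = b → h • a = a →
        h • b = b → v ((g * h * g⁻¹ * h⁻¹).val.trace - 2) < 1 := by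
  have h0 : π ≠ 0 := fun h => by rw [h, map_zero] at hπ; exact WithZero.exp_ne_zero hπ.symm
  have hx : v ((Units.mk0 π h0)⁻¹ : Kˣ) = WithZero.exp 1 := by simp [hπ]
  refine ⟨_ ⊕ (BTX v).edgeSet, Subdiv_act (BTρ v), Subdiv_graph (BTX v),
    ⟨Subdiv_tree ⟨BT_conn v hx, BT_acyclic v hx⟩, ?_, ?_⟩, ?_, ?_, ?_⟩
  · rintro g (a | e) (w | e') h
    · exact h.elim
    · exact Sym2.mem_map.2 ⟨a, h, rfl⟩
    · exact Sym2.mem_map.2 ⟨w, h, rfl⟩
    · exact h.elim
  · rintro g (a | e) (w | e') h ⟨h1, -⟩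
    · exact h.elim
    · exact Sum.inl_ne_inr h1
    · exact Sum.inr_ne_inl h1
    · exact h.elim
  · rintro g c h (a | e)
    · exact congrArg Sum.inl (ZBT_scal v h a)
    · refine congrArg Sum.inr (Subtype.ext ?_)
      change e.1.map (g • ·) = e.1
      rw [funext (ZBT_scal v h)]
      exact congrFun Sym2.map_id' _
  · rintro g (a | ⟨e, he⟩) h
    · have h1 : g • a = a := Sum.inl_injective h
      exact ZBT_vert v (a := a) (by rw [h1, h1])
    · have h1 : e.map (g • ·) = e := congrArg Subtype.val (Sum.inr_injective h)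
      induction e using Sym2.ind with
      | h a b =>
        refine ZBT_vert v (a := a) ?_
        rcases Sym2.eq_iff.1 h1 with ⟨h3, -⟩ | ⟨h3, h4⟩
        · rw [show g • a = a from h3, show g • a = a from h3]
        · rw [show g • a = b from h3, show g • b = a from h4]
  · rintro g h (a | e) (b | e') hab h1 h2 h3 h4
    · exact hab.elim
    · exact ZBT_half v hx hab (Sum.inl_injective h1) (congrArg Subtype.val (Sum.inr_injective h2))
        (Sum.inl_injective h3) (congrArg Subtype.val (Sum.inr_injective h4))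
    · exact ZBT_half v hx hab (Sum.inl_injective h2) (congrArg Subtype.val (Sum.inr_injective h1))
        (Sum.inl_injective h4) (congrArg Subtype.val (Sum.inr_injective h3))
    · exact hab.elim

end Pool.Agent.MP_f7db47_al.PT

end

section

/-!
The tree of bases and superbases of the plane lattice.
-/

namespace Pool.Agent.MP_f7db47_al.PT

/-- positive binary forms of discriminant `-3` -/
@[ext] structure ZTop_V where
  a : ℤ
  b : ℤ
  c : ℤ
  disc : 4 * (a * c) = b * b + 3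
  pos : 0 < a

theorem ZTop_det (g : GL (Fin 2) ℤ) : (g 0 0 * g 1 1 - g 0 1 * g 1 0) ^ 2 = 1 := by
  have h := (Matrix.isUnit_iff_isUnit_det _).1 g.isUnit
  rw [Matrix.det_fin_two] at h
  exact Int.isUnit_sq h

theorem ZTop_pos {a b c p q A B C : ℤ} (h : 4 * (a * c) = b * b + 3) (ha : 0 < a)
    (hA : A = p * p * a + p * q * b + q * q * c) (h' : 4 * (A * C) = B * B + 3) : 0 < A := by
  have h1 : 4 * (a * A) = (2 * p * a + q * b) ^ 2 + 3 * q ^ 2 := by
    rw [hA]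
    linear_combination q ^ 2 * h
  have h2 : 0 ≤ a * A := by nlinarith [sq_nonneg (2 * p * a + q * b), sq_nonneg q]
  refine lt_of_le_of_ne (nonneg_of_mul_nonneg_right h2 ha) ?_
  rintro rfl
  nlinarith [mul_self_nonneg B]

theorem ZTop_disc (g : GL (Fin 2) ℤ) (x : ZTop_V) :
    4 * ((g 0 0 * g 0 0 * x.a + g 0 0 * g 0 1 * x.b + g 0 1 * g 0 1 * x.c) *
      (g 1 0 * g 1 0 * x.a + g 1 0 * g 1 1 * x.b + g 1 1 * g 1 1 * x.c)) =
    (2 * g 0 0 * g 1 0 * x.a + (g 0 0 * g 1 1 + g 0 1 * g 1 0) * x.b + 2 * g 0 1 * g 1 1 * x.c) *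
      (2 * g 0 0 * g 1 0 * x.a + (g 0 0 * g 1 1 + g 0 1 * g 1 0) * x.b + 2 * g 0 1 * g 1 1 * x.c)
      + 3 := by
  linear_combination (g 0 0 * g 1 1 - g 0 1 * g 1 0) ^ 2 * x.disc + 3 * ZTop_det g

/-- change of variables -/
def ZTop_act (g : GL (Fin 2) ℤ) (x : ZTop_V) : ZTop_V :=
  ⟨_, _, _, ZTop_disc g x, ZTop_pos x.disc x.pos rfl (ZTop_disc g x)⟩

instance ZTop_mulAction : MulAction (GL (Fin 2) ℤ) ZTop_V where
  smul := ZTop_act
  one_smul x := by
    change ZTop_act 1 x = x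
    ext <;> simp [ZTop_act]
  mul_smul g h x := by
    change ZTop_act (g * h) x = ZTop_act g (ZTop_act h x)
    ext <;> simp only [ZTop_act, Units.val_mul, Matrix.mul_apply, Fin.sum_univ_two] <;> ring

/-- the invariant pairing -/
def ZTop_P (x y : ZTop_V) : ℤ := 2 * (x.a * y.c) + 2 * (x.c * y.a) - x.b * y.b

theorem ZTop_P_smul (g : GL (Fin 2) ℤ) (x y : ZTop_V) : ZTop_P (g • x) (g • y) = ZTop_P x y := by
  change ZTop_P (ZTop_act g x) (ZTop_act g y) = _
  simp only [ZTop_P, ZTop_act]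
  linear_combination (2 * (x.a * y.c) + 2 * (x.c * y.a) - x.b * y.b) * ZTop_det g

/-- the trivalent tree -/
def ZTop_X : SimpleGraph ZTop_V where
  Adj x y := ZTop_P x y = 5
  symm := ⟨fun x y h => by
    simp only [ZTop_P] at h ⊢
    linear_combination h⟩
  loopless := ⟨fun x h => by
    have := x.disc
    simp only [ZTop_P] at h
    linarith [mul_comm x.a x.c]⟩

theorem ZTop_adj (g : GL (Fin 2) ℤ) (x y : ZTop_V) :
    ZTop_X.Adj (g • x) (g • y) ↔ ZTop_X.Adj x y := by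
  change ZTop_P _ _ = 5 ↔ ZTop_P _ _ = 5
  rw [ZTop_P_smul]

/-- the base point -/
def ZTop_o : ZTop_V := ⟨1, 1, 1, by norm_num, one_pos⟩

theorem ZTop_nbr {y : ZTop_V} (h : ZTop_X.Adj ZTop_o y) :
    (y.a = 1 ∧ y.b = -1 ∧ y.c = 1) ∨ (y.a = 3 ∧ y.b = 3 ∧ y.c = 1) ∨
      (y.a = 1 ∧ y.b = 3 ∧ y.c = 3) := by
  obtain ⟨a, b, c, h1, h2⟩ := y
  change 2 * (1 * c) + 2 * (1 * a) - 1 * b = 5 at h
  obtain rfl : b = 2 * a + 2 * c - 5 := by omega
  have h3 : a ≤ 3 := by nlinarith [sq_nonneg (a + 2 * c - 5)]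
  have h4 : c ≤ 3 := by nlinarith [sq_nonneg (c + 2 * a - 5)]
  have h5 : 0 < c := by nlinarith [sq_nonneg (c + 2 * a - 5)]
  dsimp only
  interval_cases a <;> interval_cases c <;> omega

theorem ZTop_facts (x : ZTop_V) :
    0 < x.c ∧ x.b % 2 = 1 ∧ ¬ (2 * x.a < x.b ∧ 2 * x.c < x.b) ∧ x.b < 2 * x.a + 2 * x.c := by
  obtain ⟨a, b, c, h1, h2⟩ := x
  have h3 : 0 < c := by nlinarith [mul_self_nonneg b]
  refine ⟨h3, ?_, fun h => ?_, ?_⟩
  · change b % 2 = 1
    by_contra h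
    obtain ⟨k, rfl⟩ : ∃ k, b = 2 * k := ⟨b / 2, by omega⟩
    have : 4 * (a * c) = 4 * (k * k) + 3 := by linear_combination h1
    omega
  · change 2 * a < b ∧ 2 * c < b at h
    nlinarith [h.1, h.2]
  · change b < 2 * a + 2 * c
    by_contra h
    nlinarith [mul_pos h2 h3, mul_pos h2 h2, mul_pos h3 h3]

theorem ZTop_low (x : ZTop_V) (hx : x ≠ ZTop_o) : ∃ t : GL (Fin 2) ℤ,
    ZTop_X.Adj (t • ZTop_o) ZTop_o ∧ ZTop_P x (t • ZTop_o) < ZTop_P x ZTop_o := by
  obtain ⟨h1, h2, -, -⟩ := ZTop_facts x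
  by_cases e1 : x.b < 0
  · refine ⟨Matrix.GeneralLinearGroup.mk'' !![1, 0; 0, -1] (by simp), (rfl : ZTop_P _ _ = 5), ?_⟩
    change 2 * (x.a * 1) + 2 * (x.c * 1) - x.b * -1 < 2 * (x.a * 1) + 2 * (x.c * 1) - x.b * 1
    omega
  by_cases e2 : 2 * x.c < x.b
  · refine ⟨Matrix.GeneralLinearGroup.mk'' !![1, 1; 0, 1] (by simp), (rfl : ZTop_P _ _ = 5), ?_⟩
    change 2 * (x.a * 1) + 2 * (x.c * 3) - x.b * 3 < 2 * (x.a * 1) + 2 * (x.c * 1) - x.b * 1
    omega
  by_cases e3 : 2 * x.a < x.b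
  · refine ⟨Matrix.GeneralLinearGroup.mk'' !![1, 0; 1, 1] (by simp), (rfl : ZTop_P _ _ = 5), ?_⟩
    change 2 * (x.a * 3) + 2 * (x.c * 1) - x.b * 3 < 2 * (x.a * 1) + 2 * (x.c * 1) - x.b * 1
    omega
  obtain ⟨a, b, c, h3, h4⟩ := x
  change b % 2 = 1 at h2
  change ¬ b < 0 at e1
  change ¬ 2 * c < b at e2
  change ¬ 2 * a < b at e3
  have h5 : (b + 1) * (b + 1) ≤ (2 * a) * (2 * c) :=
    mul_le_mul (by omega) (by omega) (by omega) (by omega)
  obtain rfl : b = 1 := by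
    have : b ≤ 1 := by nlinarith
    omega
  have h6 : a * c = 1 := by omega
  exact (hx (ZTop_V.ext (Int.eq_one_of_mul_eq_one_right h4.le h6) rfl
    (Int.eq_one_of_mul_eq_one_left h1.le h6))).elim

theorem ZTop_reach (n : ℕ) : ∀ x : ZTop_V, ZTop_P x ZTop_o < n →
    ZTop_X.Reachable x ZTop_o ∧ ∃ g : GL (Fin 2) ℤ, g • x = ZTop_o := by
  induction n with
  | zero =>
    intro x h
    have := (ZTop_facts x).2.2.2
    change 2 * (x.a * 1) + 2 * (x.c * 1) - x.b * 1 < _ at h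
    omega
  | succ n ih =>
    intro x h
    by_cases hx : x = ZTop_o
    · exact ⟨hx ▸ SimpleGraph.Reachable.refl _, 1, by rw [one_smul, hx]⟩
    obtain ⟨t, h1, h2⟩ := ZTop_low x hx
    have h3 := ZTop_P_smul t (t⁻¹ • x) ZTop_o
    rw [smul_inv_smul] at h3
    obtain ⟨h4, g, hg⟩ := ih (t⁻¹ • x) (by omega)
    have h5 := h4.map (G' := ZTop_X) ⟨(t • ·), fun h => (ZTop_adj t _ _).2 h⟩
    change ZTop_X.Reachable (t • t⁻¹ • x) (t • ZTop_o) at h5
    rw [smul_inv_smul] at h5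
    exact ⟨h5.trans h1.reachable, g * t⁻¹, by rw [mul_smul, hg]⟩

theorem ZTop_trans (x : ZTop_V) :
    ZTop_X.Reachable x ZTop_o ∧ ∃ g : GL (Fin 2) ℤ, g • x = ZTop_o :=
  ZTop_reach ((ZTop_P x ZTop_o).toNat + 1) x (by omega)

theorem ZTop_tree : ZTop_X.IsTree := by
  have : Nonempty ZTop_V := ⟨ZTop_o⟩
  refine ⟨⟨fun x y => (ZTop_trans x).1.trans (ZTop_trans y).1.symm⟩,
    acyclic_of_height _ (fun x => ZTop_P x ZTop_o) (fun x y h => ?_) fun x y z h h' l l' => ?_⟩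
  · obtain ⟨g, hg⟩ := (ZTop_trans x).2
    have h1 := (ZTop_adj g x y).2 h
    rw [← ZTop_P_smul g x, ← ZTop_P_smul g y]
    rw [hg] at h1 ⊢
    have h2 := (ZTop_facts (g • ZTop_o)).2.1
    generalize g • ZTop_o = N at h2 ⊢
    change 2 * (1 * N.c) + 2 * (1 * N.a) - 1 * N.b ≠ _
    rcases ZTop_nbr h1 with e | e | e <;> rw [ZTop_P, e.1, e.2.1, e.2.2] <;> omega
  · obtain ⟨g, hg⟩ := (ZTop_trans x).2
    have h1 := (ZTop_adj g x y).2 h
    have h2 := (ZTop_adj g x z).2 h'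
    rw [← ZTop_P_smul g x, ← ZTop_P_smul g y] at l
    rw [← ZTop_P_smul g x, ← ZTop_P_smul g z] at l'
    rw [hg] at h1 h2 l l'
    obtain ⟨h3, -, h4, -⟩ := ZTop_facts (g • ZTop_o)
    have h5 := (g • ZTop_o).pos
    generalize g • ZTop_o = N at h3 h4 h5 l l'
    change _ < 2 * (1 * N.c) + 2 * (1 * N.a) - 1 * N.b at l l'
    refine MulAction.injective g ?_
    change g • y = g • z
    rcases ZTop_nbr h1 with e | e | e <;> rcases ZTop_nbr h2 with e' | e' | e' <;>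
      rw [ZTop_P, e.1, e.2.1, e.2.2] at l <;> rw [ZTop_P, e'.1, e'.2.1, e'.2.2] at l' <;>
      first
        | omega
        | exact ZTop_V.ext (e.1.trans e'.1.symm) (e.2.1.trans e'.2.1.symm)
            (e.2.2.trans e'.2.2.symm)

theorem ZTop_bd {p q : ℤ} (h : p * p * 1 + p * q * 1 + q * q * 1 = 1) :
    p ∈ Set.Icc (-1 : ℤ) 1 ∧ q ∈ Set.Icc (-1 : ℤ) 1 :=
  ⟨⟨by nlinarith [sq_nonneg (p + 2 * q)], by nlinarith [sq_nonneg (p + 2 * q)]⟩,
    by nlinarith [sq_nonneg (q + 2 * p)], by nlinarith [sq_nonneg (q + 2 * p)]⟩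

theorem ZTop_fin {g : GL (Fin 2) ℤ} {x : ZTop_V} (h : g • x = x) : IsOfFinOrder g := by
  obtain ⟨k, hk⟩ := (ZTop_trans x).2
  have h1 : (k * g * k⁻¹) • ZTop_o = ZTop_o := by
    rw [← hk, mul_smul, mul_smul, inv_smul_smul, h]
  have h2 : {M : Matrix (Fin 2) (Fin 2) ℤ | ∀ i j, M i j ∈ Set.Icc (-1 : ℤ) 1}.Finite :=
    Set.Finite.pi' fun _ => Set.Finite.pi' fun _ => Set.finite_Icc _ _
  have h3 : IsOfFinOrder (k * g * k⁻¹) := by
    refine finite_powers.1 ((h2.preimage Units.val_injective.injOn).subset ?_)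
    rintro _ ⟨n, rfl⟩
    have h4 : ((k * g * k⁻¹) ^ n) • ZTop_o = ZTop_o :=
      (MulAction.stabilizer _ ZTop_o).pow_mem h1 n
    have h5 := ZTop_bd (congrArg ZTop_V.a h4)
    have h6 := ZTop_bd (congrArg ZTop_V.c h4)
    exact Fin.forall_fin_two.2 ⟨Fin.forall_fin_two.2 h5, Fin.forall_fin_two.2 h6⟩
  have h4 := (MulAut.conj k⁻¹).toMonoidHom.isOfFinOrder h3
  simpa [mul_assoc] using h4

theorem exists_topo : ∃ (V : Type) (_ : MulAction (GL (Fin 2) ℤ) V) (X : SimpleGraph V),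
    TreeAction (GL (Fin 2) ℤ) X ∧
      ∀ (g : GL (Fin 2) ℤ) (y : V), g • y = y → IsOfFinOrder g := by
  obtain ⟨V, _, X, h1, h2, -⟩ := exists_subdiv ZTop_X ZTop_tree
    (MonoidHom.mk' (fun g : GL (Fin 2) ℤ =>
      (⟨MulAction.toPerm g, ZTop_adj g _ _⟩ : ZTop_X ≃g ZTop_X)) fun a b => by
        ext1 x
        exact mul_smul a b x)
  refine ⟨V, inferInstance, X, h1, fun g y h => ?_⟩
  obtain ⟨v, hv⟩ := h2 g y h
  exact (isOfFinOrder_pow.1 (ZTop_fin hv)).resolve_right two_ne_zero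

end Pool.Agent.MP_f7db47_al.PT

end
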