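import Pool.Agent.Mg.Ff7db47.G922e1f
import Pool.Agent.Mg.Ff7db47.G699c82
import Pool.Agent.Mg.Ff7db47.G5f5d4c
import Pool.Agent.Mg.Ff7db47.Gda730f
import Pool.Agent.Mg.Ff7db47.G9c9b66
import Pool.Agent.MP_f7db47_al.Defs
import Pool.Agent.Mg.Ff7db47.G0ffa8c
import Pool.Agent.Mg.Ff7db47.G5f614c
import Pool.Agent.Mg.Ff7db47.Ge4af1c

section

/-!
The splitting theorem for trees, for matrices typed by a preordered set.
-/

set_option linter.unusedSectionVars false

namespace Pool.Agent.MP_f7db47_al.PT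

open Matrix

universe u v w w'

variable {R : Type v} [Ring R] {G : Type u} [Group G] {V : Type w} [MulAction G V]
variable {Ω : Type w'} [MulAction G Ω]

variable (R) in
/-- Nilpotent matrices typed by `le` and by half trees give trivial unipotent matrices. -/
def NilT (D : TB G V) (le : Ω → Ω → Prop) : Prop :=
  ∀ (J : Type) [Fintype J] [DecidableEq J] (l : J → Ω) (o : J → D.E × Bool)
    (ν : Matrix J J (MonoidAlgebra R G)),
    MSup2 (fun i j => {g | le (g • l j) (l i) ∧
      ∀ z ∈ D.H (o j).1 (o j).2, g • z ∈ D.H (o i).1 (o i).2}) ν → IsNilpotent ν → T (1 - ν)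

lemma lin_nil {D : TB G V} {J : Type} [Fintype J] [DecidableEq J] (L : D.Lin R J) :
    IsNilpotent (Matrix.of fun a b : J × Bool => L.n a.2 b.2 a.1 b.1) := by
  obtain ⟨k, hk⟩ := TB.exists_top (D := D) (e := L.e) (n := fun a : Bool × Bool => L.n a.1 a.2)
    fun g τ f hf => ⟨_, L.mem_itV _ g τ f hf le_rfl⟩
  set ν : Matrix (J × Bool) (J × Bool) (MonoidAlgebra R G) :=
    Matrix.of fun a b : J × Bool => L.n a.2 b.2 a.1 b.1 with hν
  have key : ∀ (m : ℕ) (s s' : Bool), (TB.filtV hk).Low (m + 1)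
      (Matrix.of fun i j => (ν ^ (m + 1)) (i, s) (j, s')) := by
    intro m
    induction m with
    | zero =>
      intro s s'
      rw [zero_add, pow_one]
      exact TB.low_n hk (s, s')
    | succ m ih =>
      intro s s'
      have e : (Matrix.of fun i j => (ν ^ (m + 1 + 1)) (i, s) (j, s')) =
          ∑ t : Bool, (Matrix.of fun i j => (ν ^ (m + 1)) (i, s) (j, t)) * L.n t s' := by
        ext1 i j
        rw [pow_succ, Matrix.sum_apply, of_apply, Matrix.mul_apply, Fintype.sum_prod_type,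
          Finset.sum_comm]
        rfl
      rw [e]
      refine Filt.low_sum _ _ fun t _ => ?_
      have := (ih s t).mul (TB.low_n hk (t, s'))
      rwa [add_comm] at this
  refine ⟨k + 1, ?_⟩
  ext1 a b
  exact congrFun (congrFun ((key k a.2 b.2).eq_zero (Nat.le_succ k)) a.1) b.1

lemma typ_linear {D : TB G V} (hsplit : D.SplitT (stdTS R G)) {le : Ω → Ω → Prop}
    (htrans : ∀ x y z, le x y → le y z → le x z)
    (hsmul : ∀ (g : G) x y, le x y → le (g • x) (g • y)) (hnil : NilT R D le)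
    {J : Type} [Fintype J] [DecidableEq J] (l : J → Ω) (e : J → D.E) (z : J → V)
    {a b : Matrix J J (MonoidAlgebra R G)} (hab : a * b = 1) (hba : b * a = 1)
    (ha : MSup2 (fun i j => {g | le (g • l j) (l i)}) a)
    (hb : MSup2 (fun i j => {g | le (g • l j) (l i)}) b)
    (hA : MSup2 (fun i j => {x | ∃ s, x • z j = D.ep (e i) s}) a) : T a := by
  let Θ : Bool → Matrix J J (MonoidAlgebra R G) := fun s =>
    mpr2 (fun i j => {x | x • z j = D.ep (e i) s}) a
  have hsum : ∀ s, Θ s + Θ (!s) = a := by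
    intro s
    rw [← hA.mpr2_eq]
    refine (mpr2_union _ (fun i j g => ⟨?_, ?_⟩) fun i j g h h' => ?_).symm
    · rintro ⟨s', h⟩
      by_cases hs : s' = s
      · exact Or.inl (hs ▸ h)
      · exact Or.inr (Bool.eq_not.2 hs ▸ h)
    · rintro (h | h) <;> exact ⟨_, h⟩
    · simpa using D.ep_inj (h.symm.trans h')
  let L : D.Lin R J := ⟨e, z, Θ, b, fun s => msup2_mpr2 _ _,
    fun s => by rw [hsum, hab], fun s => by rw [hsum, hba]⟩
  have h1 : T ((L.Θ false + L.Θ true) * (L.U false + L.U true)) := by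
    let X : Matrix J (J × Bool) (MonoidAlgebra R G) := Matrix.of fun i a => L.p (!a.2) i a.1
    let Y : Matrix (J × Bool) J (MonoidAlgebra R G) :=
      Matrix.of fun a j => (L.n a.2 false + L.n a.2 true) a.1 j
    have hXY : X * Y = ∑ s : Bool, L.p (!s) * (L.n s false + L.n s true) := by
      ext1 i j
      rw [Matrix.sum_apply, Matrix.mul_apply, Fintype.sum_prod_type, Finset.sum_comm]
      rfl
    have hYX : Y * X = Matrix.of fun a b : J × Bool => L.n a.2 b.2 a.1 b.1 := by
      ext1 a b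
      have : (L.n a.2 false + L.n a.2 true) * L.p (!b.2) = L.n a.2 b.2 := by
        have h3 := L.n_mul_p a.2
        have h4 := L.n_mul_p' a.2
        rw [add_mul]
        cases b.2
        · rw [h4, Bool.not_false, h3, add_zero]
        · rw [h4, Bool.not_true, h3, zero_add]
      rw [of_apply, ← this]
      rfl
    have hT : T (1 - Y * X) := by
      rw [hYX]
      refine hnil _ (fun a => l a.1) (fun a => (e a.1, a.2)) _ (fun a b => ?_) (lin_nil L)
      have h3 : MSup2 (fun i j => {g | le (g • l j) (l i)}) (L.Θ a.2 * L.Γ) :=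
        ha.mpr2.mul hb fun i j k x hx y hy => by
          simp only [Set.mem_ofPred_eq] at hx hy ⊢
          rw [mul_smul]
          exact htrans _ _ _ (hsmul x _ _ hy) hx
      intro g hg
      have h4 := (msup2_mpr2 (L.Sb a.2 b.2) (L.Θ a.2 * L.Γ)).neg a.1 b.1 g hg
      exact ⟨(h3.mpr2 (S' := L.Sb a.2 b.2)).neg a.1 b.1 g hg, D.nest _ _ _ _ g h4.1 h4.2⟩
    have := T_one_sub_comm X Y hT
    convert this using 1
    rw [add_mul, L.Θ_mul_UU, L.Θ_mul_UU, hXY, Fintype.sum_bool, mul_add, mul_add, L.p_mul_n',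
      L.p_mul_n', L.p_mul_n', L.p_mul_n', ← L.p_add false, Bool.not_false]
    abel
  have hp : L.p true = 1 - L.p false := by rw [← L.p_add false, Bool.not_false]; abel
  have hW : L.W = L.p false * L.Θ false + (1 - L.p false) * L.Θ true := by rw [← hp]; rfl
  have h2 : T L.W := by
    rw [hW]
    refine hsplit J e z _ _ _ (L.hΘ false) (L.hΘ true) (L.msup_p false) (L.p_idem false) ?_
    rw [← hW]
    exact ⟨⟨_, _, L.W_mul_U, L.U_mul_W⟩, rfl⟩
  have := T_mul h1 h2
  rw [mul_assoc, L.U_mul_W, mul_one] at this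
  exact hsum false ▸ this

theorem typ_core {D : TB G V} (hsplit : D.SplitT (stdTS R G)) (e₀ : D.E) {le : Ω → Ω → Prop}
    (hrefl : ∀ x, le x x) (htrans : ∀ x y z, le x y → le y z → le x z)
    (hsmul : ∀ (g : G) x y, le x y → le (g • x) (g • y)) (hnil : NilT R D le) :
    TypT R G le := by
  have hlin : ∀ (τ : D.E) (y : V), ∃ (k : G) (τ' : D.E) (s : Bool), k • D.ep τ' s = y ∧
      ((¬ ∃ s, y = D.ep τ s) → D.μ τ (k • D.ep τ' (!s)) < D.μ τ y) := by
    intro τ y
    rcases D.lin τ y with ⟨s, h⟩ | ⟨k, τ', s, h1, h2⟩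
    · exact ⟨1, τ, s, by rw [one_smul, h], fun h' => absurd ⟨s, h⟩ h'⟩
    · exact ⟨k, τ', s, h1, fun _ => h2⟩
  choose kk tt ss hk1 hk2 using hlin
  have main : ∀ (n : ℕ) (J : Type) [Fintype J] [DecidableEq J] (l : J → Ω) (e : J → D.E)
      (z : J → V) (A A' : Matrix J J (MonoidAlgebra R G)), A * A' = 1 → A' * A = 1 →
      MSup2 (fun i j => {g | le (g • l j) (l i)}) A →
      MSup2 (fun i j => {g | le (g • l j) (l i)}) A' →
      MSup2 (fun i j => {x | (∃ s, x • z j = D.ep (e i) s) ∨ D.μ (e i) (x • z j) < n}) A →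
      T A := by
    intro n
    induction n with
    | zero =>
      intro J _ _ l e z A A' h1 h2 h3 h4 hA
      exact typ_linear hsplit htrans hsmul hnil l e z h1 h2 h3 h4
        (hA.mono fun i j x hx => hx.resolve_right (by omega))
    | succ n ih =>
      intro J _ _ l e z A Ai hAi hiA hty hty' hA
      classical
      set A' := mpr2 (fun i j => {x | ∃ s, x • z j = D.ep (e i) s}ᶜ) A with hA'
      set A₀ := mpr2 (fun i j => {x | ∃ s, x • z j = D.ep (e i) s}) A with hA₀
      have hsum : A = A₀ + A' := by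
        ext1 i j; exact (pr_add_pr_compl _ _).symm
      obtain ⟨s, hs, -⟩ := exists_finset_msup A'
      let el : Fin s.card → G := fun i => (s.equivFin.symm i : G)
      let y : J × J × Fin s.card → V := fun l => el l.2.2 • z l.2.1
      let k : J × J × Fin s.card → G := fun l => kk (e l.1) (y l)
      let B : Matrix J (J × J × Fin s.card) (MonoidAlgebra R G) := fun i l =>
        if i = l.1 then MonoidAlgebra.single (k l) ((A' l.1 l.2.1).coeff (el l.2.2)) else 0
      let Sm : Matrix (J × J × Fin s.card) J (MonoidAlgebra R G) := fun l j =>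
        if l.2.1 = j ∧ (A' l.1 l.2.1).coeff (el l.2.2) ≠ 0 then
          MonoidAlgebra.single ((k l)⁻¹ * el l.2.2) 1 else 0
      have hBS : B * Sm = A' := by
        ext1 i j
        rw [Matrix.mul_apply, Fintype.sum_prod_type, Finset.sum_eq_single i,
          Fintype.sum_prod_type, Finset.sum_eq_single j]
        · have : ∀ x : Fin s.card, B i (i, j, x) * Sm (i, j, x) j =
              MonoidAlgebra.single (el x) ((A' i j).coeff (el x)) := by
            intro x
            by_cases h0 : (A' i j).coeff (el x) = 0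
            · simp [B, h0]
            · simp only [B, Sm, if_true, true_and, ne_eq, h0, not_false_eq_true,
                MonoidAlgebra.single_mul_single, mul_one, mul_inv_cancel_left]
          simp only [this]
          rw [← Equiv.sum_comp s.equivFin]
          simp only [el, Equiv.symm_apply_apply]
          rw [Finset.sum_coe_sort s fun g => MonoidAlgebra.single g ((A' i j).coeff g)]
          conv_rhs => rw [← MonoidAlgebra.sum_coeff_single (A' i j)]
          rw [Finsupp.sum_of_support_subset _ (s := s)]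
          · intro g hg; exact hs i j g (Finsupp.mem_support_iff.1 hg)
          · intro g _; simp
        · intro j' _ hj'
          simp [Sm, hj']
        · simp
        · intro i' _ hi'
          simp [B, Ne.symm hi']
        · simp
      have hprod : fromBlocks 1 (-B) 0 1 * fromBlocks A 0 0 1 * fromBlocks 1 0 Sm 1 =
          fromBlocks A₀ (-B) Sm 1 := by
        simp only [fromBlocks_multiply, fromBlocks_inj, Matrix.one_mul, Matrix.mul_one,
          Matrix.zero_mul, Matrix.mul_zero, add_zero, zero_add, and_true, Matrix.neg_mul]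
        rw [hBS]
        conv_lhs => rw [hsum]
        abel
      let l' : J ⊕ J × J × Fin s.card → Ω := Sum.elim l fun x => (k x)⁻¹ • l x.1
      have hmul : ∀ i j m, ∀ a ∈ {g : G | le (g • l' j) (l' i)},
          ∀ b ∈ {g : G | le (g • l' m) (l' j)}, a * b ∈ {g : G | le (g • l' m) (l' i)} := by
        intro i j m a ha b hb
        simp only [Set.mem_ofPred_eq] at ha hb ⊢
        rw [mul_smul]
        exact htrans _ _ _ (hsmul a _ _ hb) ha
      have hone : ∀ x : Ω, (1 : G) ∈ {g : G | le (g • x) x} := fun x => by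
        simpa using hrefl x
      have tyB : ∀ i x, Sup {g : G | le (g • l' (.inr x)) (l' (.inl i))} (B i x) := by
        intro i x
        simp only [B]
        split_ifs with h
        · refine sup_single ?_ _
          subst h
          simpa [l'] using hrefl _
        · exact sup_zero _
      have tyS : ∀ x j, Sup {g : G | le (g • l' (.inl j)) (l' (.inr x))} (Sm x j) := by
        intro x j
        simp only [Sm]
        split_ifs with h
        · refine sup_single ?_ _
          obtain ⟨h1, h2⟩ := h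
          subst h1
          have := hsmul (k x)⁻¹ _ _ (hty.mpr2 _ _ _ h2)
          simpa [l', mul_smul] using this
        · exact sup_zero _
      have tyU : ∀ X : Matrix J (J × J × Fin s.card) (MonoidAlgebra R G),
          (∀ i x, Sup {g : G | le (g • l' (.inr x)) (l' (.inl i))} (X i x)) →
          MSup2 (fun i j => {g : G | le (g • l' j) (l' i)}) (fromBlocks 1 X 0 1) := by
        rintro X hX (i | i) (j | j)
        · exact msup2_one (S := fun i j => {g : G | le (g • l' (.inl j)) (l' (.inl i))})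
            (fun _ => hone _) i j
        · exact hX i j
        · exact sup_zero _
        · exact msup2_one (S := fun i j => {g : G | le (g • l' (.inr j)) (l' (.inr i))})
            (fun _ => hone _) i j
      have tyL : ∀ X : Matrix (J × J × Fin s.card) J (MonoidAlgebra R G),
          (∀ x j, Sup {g : G | le (g • l' (.inl j)) (l' (.inr x))} (X x j)) →
          MSup2 (fun i j => {g : G | le (g • l' j) (l' i)}) (fromBlocks 1 0 X 1) := by
        rintro X hX (i | i) (j | j)
        · exact msup2_one (S := fun i j => {g : G | le (g • l' (.inl j)) (l' (.inl i))})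
            (fun _ => hone _) i j
        · exact sup_zero _
        · exact hX i j
        · exact msup2_one (S := fun i j => {g : G | le (g • l' (.inr j)) (l' (.inr i))})
            (fun _ => hone _) i j
      have tyD : ∀ X : Matrix J J (MonoidAlgebra R G),
          MSup2 (fun i j => {g | le (g • l j) (l i)}) X →
          MSup2 (fun i j => {g : G | le (g • l' j) (l' i)}) (fromBlocks X 0 0 1) := by
        rintro X hX (i | i) (j | j)
        · exact hX i j
        · exact sup_zero _
        · exact sup_zero _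
        · exact msup2_one (S := fun i j => {g : G | le (g • l' (.inr j)) (l' (.inr i))})
            (fun _ => hone _) i j
      have hT : T (fromBlocks A₀ (-B) Sm 1) := by
        refine ih _ l' (Sum.elim e fun l => tt (e l.1) (y l))
          (Sum.elim z fun l => D.ep (tt (e l.1) (y l)) (!ss (e l.1) (y l))) _
          (fromBlocks 1 0 (-Sm) 1 * fromBlocks Ai 0 0 1 * fromBlocks 1 B 0 1) ?_ ?_ ?_ ?_ ?_
        · rw [← hprod]
          have e1 : (fromBlocks 1 0 Sm 1 : Matrix (J ⊕ J × J × Fin s.card)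
              (J ⊕ J × J × Fin s.card) (MonoidAlgebra R G)) *
              fromBlocks 1 0 (-Sm) 1 = 1 := by simp [fromBlocks_multiply]
          have e2 : (fromBlocks A 0 0 1 :
              Matrix (J ⊕ J × J × Fin s.card) (J ⊕ J × J × Fin s.card) _) *
              fromBlocks Ai 0 0 1 = 1 := by simp [fromBlocks_multiply, hAi]
          have e3 : (fromBlocks 1 (-B) 0 1 : Matrix (J ⊕ J × J × Fin s.card)
              (J ⊕ J × J × Fin s.card) (MonoidAlgebra R G)) *
              fromBlocks 1 B 0 1 = 1 := by simp [fromBlocks_multiply]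
          simp only [mul_assoc]
          rw [← mul_assoc (fromBlocks 1 0 Sm 1), e1, one_mul, ← mul_assoc (fromBlocks A 0 0 1),
            e2, one_mul, e3]
        · rw [← hprod]
          have e1 : (fromBlocks 1 0 (-Sm) 1 : Matrix (J ⊕ J × J × Fin s.card)
              (J ⊕ J × J × Fin s.card) (MonoidAlgebra R G)) *
              fromBlocks 1 0 Sm 1 = 1 := by simp [fromBlocks_multiply]
          have e2 : (fromBlocks Ai 0 0 1 :
              Matrix (J ⊕ J × J × Fin s.card) (J ⊕ J × J × Fin s.card) _) *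
              fromBlocks A 0 0 1 = 1 := by simp [fromBlocks_multiply, hiA]
          have e3 : (fromBlocks 1 B 0 1 : Matrix (J ⊕ J × J × Fin s.card)
              (J ⊕ J × J × Fin s.card) (MonoidAlgebra R G)) *
              fromBlocks 1 (-B) 0 1 = 1 := by simp [fromBlocks_multiply]
          simp only [mul_assoc]
          rw [← mul_assoc (fromBlocks 1 B 0 1), e3, one_mul, ← mul_assoc (fromBlocks Ai 0 0 1),
            e2, one_mul, e1]
        · rw [← hprod]
          exact ((tyU _ fun i x => (tyB i x).neg).mul (tyD _ hty) hmul).mul (tyL _ tyS) hmul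
        · exact ((tyL _ fun x j => (tyS x j).neg).mul (tyD _ hty') hmul).mul (tyU _ tyB) hmul
        · rintro (i | l) (j | l')
          · rw [fromBlocks_apply₁₁, hA₀]
            exact (msup2_mpr2 _ A i j).mono fun x hx => Or.inl hx
          · rw [fromBlocks_apply₁₂, Matrix.neg_apply]
            refine Sup.neg ?_
            simp only [B]
            split_ifs with h
            · by_cases h0 : (A' l'.1 l'.2.1).coeff (el l'.2.2) = 0
              · rw [h0, MonoidAlgebra.single_zero]; exact sup_zero _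
              · have h1 := msup2_mpr2 _ _ _ _ _ h0
                have h2 := (hA.mpr2 _ _ _ h0).resolve_left h1
                have h3 := hk2 (e l'.1) (y l') h1
                refine sup_single ?_ _
                subst h
                exact Or.inr <| lt_of_lt_of_le h3 (Nat.lt_succ_iff.1 h2)
            · exact sup_zero _
          · simp only [fromBlocks_apply₂₁, Sm]
            split_ifs with h
            · refine sup_single ?_ _
              refine Or.inl ⟨ss (e l.1) (y l), ?_⟩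
              obtain ⟨h, -⟩ := h
              subst h
              simp only [Sum.elim_inl, Sum.elim_inr]
              rw [mul_smul, inv_smul_eq_iff]
              exact (hk1 _ _).symm
            · exact sup_zero _
          · exact msup2_one (S := fun l l' => {x : G | (∃ s, x • D.ep (tt (e l'.1) (y l'))
              (!ss (e l'.1) (y l')) = D.ep (tt (e l.1) (y l)) s) ∨ D.μ (tt (e l.1) (y l))
              (x • D.ep (tt (e l'.1) (y l')) (!ss (e l'.1) (y l'))) < n})
              (fun l => Or.inl ⟨_, one_smul _ _⟩) l l'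
      rw [← hprod] at hT
      exact T_of_stab (T_cancel_left (T_upper _) (T_cancel_right (T_lower _) hT))
  intro J _ _ l A A' h1 h2 h3 h4
  obtain ⟨s, hs, -⟩ := exists_finset_msup A
  refine main (s.sup (fun g => D.μ e₀ (g • D.ep e₀ false)) + 1) J l (fun _ => e₀)
    (fun _ => D.ep e₀ false) A A' h1 h2 h3 h4 fun i j => (hs i j).mono fun g hg => Or.inr ?_
  exact Nat.lt_succ_of_le (Finset.le_sup (f := fun g => D.μ e₀ (g • D.ep e₀ false)) hg)

end Pool.Agent.MP_f7db47_al.PT

end

section

set_option linter.unusedSectionVars false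

namespace Pool.Agent.MP_f7db47_al.PT

open Matrix

universe u v w

variable {R : Type v} [Ring R] {G : Type u} [Group G]
variable {ι : Type} {V : ι → Type w} [∀ τ, MulAction G (V τ)] (c : ∀ τ, CS G (V τ))

lemma Posit_antisymm {E : Type w} [MulAction G E] (d : CS G E) {x y : E} (h1 : d.le y x)
    (h2 : d.le x y) : y = x := by
  have e0 := d.add (d.refl x) (d.refl x)
  have e1 := d.add h2 h1
  exact d.zero h1 (by omega)

lemma Posit_mul {J : Type} (l : J → ∀ τ, V τ) {I₁ I₂ I₃ : Set ι} (hI : I₃ ⊆ I₁ ∪ I₂) (i j k : J) :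
    ∀ a ∈ Pos c I₁ l l i j, ∀ b ∈ Pos c I₂ l l j k, a * b ∈ Pos c I₃ l l i k := by
  rintro a ⟨ha1, ha2⟩ b ⟨hb1, hb2⟩
  have h1 : ∀ σ, (c σ).le ((a * b) • l k σ) (a • l j σ) := fun σ => by
    rw [mul_smul]; exact (c σ).smul a (hb1 σ)
  refine ⟨fun σ => (c σ).trans (h1 σ) (ha1 σ), fun σ hσ e => ?_⟩
  have e1 : a • l j σ = l i σ := Posit_antisymm (c σ) (ha1 σ) (e ▸ h1 σ)
  rcases hI hσ with h | h
  · exact ha2 σ h e1
  · rw [← e1, mul_smul] at e
    exact hb2 σ h (smul_left_cancel a e)

lemma Posit_mono {J : Type} (l : J → ∀ τ, V τ) {I₁ I₂ : Set ι} (hI : I₂ ⊆ I₁)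
    {A : Matrix J J (MonoidAlgebra R G)} (hA : MSup2 (Pos c I₁ l l) A) :
    MSup2 (Pos c I₂ l l) A :=
  hA.mono fun _ _ _ hg => ⟨hg.1, fun σ hσ => hg.2 σ (hI hσ)⟩

lemma Posit_one {J : Type} [DecidableEq J] (l : J → ∀ τ, V τ) :
    MSup2 (Pos c ∅ l l) (1 : Matrix J J (MonoidAlgebra R G)) :=
  msup2_one fun i => ⟨fun σ => by rw [one_smul]; exact (c σ).refl _, fun _ h => h.elim⟩

lemma Posit_rest {J : Type} (l : J → ∀ τ, V τ) (I : Set ι) (τ : ι)
    {A : Matrix J J (MonoidAlgebra R G)} (hA : MSup2 (Pos c I l l) A) :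
    MSup2 (Pos c (insert τ I) l l) (A - mpr2 (fun i j => {g : G | g • l j τ = l i τ}) A) := by
  intro i j g hg
  have e : (A - mpr2 (fun i j => {g : G | g • l j τ = l i τ}) A) i j =
      pr {g : G | g • l j τ = l i τ}ᶜ (A i j) := by
    rw [Matrix.sub_apply, sub_eq_iff_eq_add']
    exact (pr_add_pr_compl _ _).symm
  rw [e] at hg
  have h1 := (hA i j).pr g hg
  have h2 := sup_pr _ _ g hg
  refine ⟨h1.1, fun σ hσ => ?_⟩
  rcases hσ with rfl | hσ
  · exact h2
  · exact h1.2 σ hσ

lemma Posit_mpr {J : Type} [Fintype J] (l : J → ∀ τ, V τ) (τ : ι)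
    {A B : Matrix J J (MonoidAlgebra R G)} (hA : MSup2 (Pos c ∅ l l) A)
    (hB : MSup2 (Pos c ∅ l l) B) :
    mpr2 (fun i j => {g : G | g • l j τ = l i τ}) (A * B) =
      mpr2 (fun i j => {g : G | g • l j τ = l i τ}) A *
        mpr2 (fun i j => {g : G | g • l j τ = l i τ}) B := by
  have hA1 := Posit_rest c l ∅ τ hA
  have hB1 := Posit_rest c l ∅ τ hB
  have hA0 := msup2_mpr2 (fun i j => {g : G | g • l j τ = l i τ}) A
  have hB0 := msup2_mpr2 (fun i j => {g : G | g • l j τ = l i τ}) B
  have hA2 := hA.mpr2 (S' := fun i j => {g : G | g • l j τ = l i τ})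
  generalize mpr2 (fun i j => {g : G | g • l j τ = l i τ}) A = A₀ at hA1 hA0 hA2 ⊢
  generalize mpr2 (fun i j => {g : G | g • l j τ = l i τ}) B = B₀ at hB1 hB0 ⊢
  have e : A * B = A₀ * B₀ + ((A - A₀) * B + A₀ * (B - B₀)) := by noncomm_ring
  have h0 : MSup2 (fun i j => {g : G | g • l j τ = l i τ}) (A₀ * B₀) :=
    hA0.mul hB0 fun i j k a ha b hb => by
      change (a * b) • l k τ = l i τ
      rw [mul_smul, show b • l k τ = l j τ from hb]
      exact ha
  have h1 : MSup2 (Pos c (insert τ ∅) l l) ((A - A₀) * B + A₀ * (B - B₀)) :=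
    (hA1.mul hB (Posit_mul c l Set.subset_union_left)).add
      (hA2.mul hB1 (Posit_mul c l Set.subset_union_right))
  rw [e, mpr2_add, h0.mpr2_eq,
    h1.mpr2_eq_zero (S := fun i j => {g : G | g • l j τ = l i τ})
      fun i j g hg => hg.2 τ (Set.mem_insert _ _), add_zero]

theorem posT_step (I : Set ι) (τ : ι) (hG : ∀ e : V τ, G1 R (MulAction.stabilizer G e))
    (h : PosT R c (insert τ I)) : PosT R c I := by
  intro J _ _ l ν β h1 h2 hν hβ
  have hZ : MSup2 (fun i j => {g : G | g • l j τ = l i τ}) (1 : Matrix J J (MonoidAlgebra R G)) :=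
    msup2_one fun i => one_smul G (l i τ)
  have hν0 := (Posit_one c l).sub (Posit_mono c l (Set.empty_subset I) hν)
  have hβ0 := (Posit_one c l).add (Posit_mono c l (Set.empty_subset I) hβ)
  have k1 := Posit_mpr c l τ hν0 hβ0
  have k2 := Posit_mpr c l τ hβ0 hν0
  rw [h1, mpr2_sub, mpr2_add, hZ.mpr2_eq] at k1
  rw [h2, mpr2_sub, mpr2_add, hZ.mpr2_eq] at k2
  have hν1 := Posit_rest c l I τ hν
  have hZν := hZ.sub (msup2_mpr2 (fun i j => {g : G | g • l j τ = l i τ}) ν)
  have hν2 := (Posit_one c l).sub ((Posit_mono c l (Set.empty_subset I) hν).mpr2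
    (S' := fun i j => {g : G | g • l j τ = l i τ}))
  have hβ2 := (Posit_one c l).add ((Posit_mono c l (Set.empty_subset I) hβ).mpr2
    (S' := fun i j => {g : G | g • l j τ = l i τ}))
  generalize mpr2 (fun i j => {g : G | g • l j τ = l i τ}) ν = ν₀ at k1 k2 hν1 hZν hν2
  generalize mpr2 (fun i j => {g : G | g • l j τ = l i τ}) β = β₀ at k1 k2 hβ2
  have t0 : T (1 - ν₀) :=
    T_of_orbit (fun j => l j τ) (fun j => hG _) hZν ⟨⟨_, _, k1.symm, k2.symm⟩, rfl⟩
  have e1 : 1 - (1 + β₀) * (ν - ν₀) = (1 + β₀) * (1 - ν) := by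
    have : (1 + β₀) * (1 - ν) = (1 + β₀) * (1 - ν₀) - (1 + β₀) * (ν - ν₀) := by noncomm_ring
    rw [this, ← k2]
  have e2 : 1 + ((1 + β) * (1 - ν₀) - 1) = (1 + β) * (1 - ν₀) := add_sub_cancel _ _
  have i1 : (1 - (1 + β₀) * (ν - ν₀)) * (1 + ((1 + β) * (1 - ν₀) - 1)) = 1 := by
    rw [e1, e2, mul_assoc, ← mul_assoc (1 - ν), h1, one_mul, ← k2]
  have i2 : (1 + ((1 + β) * (1 - ν₀) - 1)) * (1 - (1 + β₀) * (ν - ν₀)) = 1 := by
    rw [e1, e2, mul_assoc, ← mul_assoc (1 - ν₀), ← k1, one_mul, h2]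
  have s1 : MSup2 (Pos c (insert τ I) l l) ((1 + β₀) * (ν - ν₀)) :=
    hβ2.mul hν1 (Posit_mul c l Set.subset_union_right)
  have s2 : MSup2 (Pos c (insert τ I) l l) ((1 + β) * (1 - ν₀) - 1) := by
    have e3 : (1 + β) * (1 - ν₀) - 1 = (1 + β₀) * (ν - ν₀) * ((1 + β) * (1 - ν₀)) := by
      rw [e2, sub_mul, one_mul, sub_eq_iff_eq_add'] at i1
      exact sub_eq_iff_eq_add.2 i1
    rw [e3]
    exact s1.mul (hβ0.mul hν2 (Posit_mul c l Set.subset_union_left))
      (Posit_mul c l Set.subset_union_left)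
  have t1 := h J l _ _ i1 i2 s1 s2
  have t2 := T_mul t0 t1
  rwa [e1, ← mul_assoc, ← k1, one_mul] at t2

theorem typT_of_posT [Fintype ι] (hG : ∀ (τ : ι) (e : V τ), G1 R (MulAction.stabilizer G e))
    (h : PosT R c Set.univ) :
    TypT R G fun x y : ∀ τ, V τ => ∀ τ, (c τ).le (x τ) (y τ) := by
  classical
  have key : ∀ s : Finset ι, PosT R c (s : Set ι)ᶜ := by
    intro s
    induction s using Finset.induction_on with
    | empty => rwa [Finset.coe_empty, Set.compl_empty]
    | insert τ s hs ih =>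
      refine posT_step c _ τ (hG τ) ?_
      have e : insert τ ((insert τ s : Finset ι) : Set ι)ᶜ = (s : Set ι)ᶜ := by
        ext σ
        by_cases hσ : σ = τ
        · simp [hσ, hs]
        · simp [hσ]
      rwa [e]
  have h0 := key Finset.univ
  rw [Finset.coe_univ, Set.compl_univ] at h0
  intro J _ _ l a b h1 h2 ha hb
  have ha' : MSup2 (Pos c ∅ l l) a := ha.mono fun _ _ _ hg => ⟨hg, fun _ h => h.elim⟩
  have hb' : MSup2 (Pos c ∅ l l) b := hb.mono fun _ _ _ hg => ⟨hg, fun _ h => h.elim⟩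
  have := h0 J l (1 - a) (b - 1) (by rwa [sub_sub_cancel, add_sub_cancel])
    (by rwa [sub_sub_cancel, add_sub_cancel]) ((Posit_one c l).sub ha') (hb'.sub (Posit_one c l))
  rwa [sub_sub_cancel] at this

end Pool.Agent.MP_f7db47_al.PT

end

section

/-!
The theorem for actions on finite products of trees.
-/

set_option linter.unusedSectionVars false

namespace Pool.Agent.MP_f7db47_al.PT

open Matrix

universe v

variable {R : Type v} [Ring R]

lemma typT_nil {G : Type} [Group G] {Ω : Type} [MulAction G Ω] {le : Ω → Ω → Prop}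
    (hrefl : ∀ x, le x x) (htrans : ∀ x y z, le x y → le y z → le x z)
    (hsmul : ∀ (g : G) x y, le x y → le (g • x) (g • y)) (h : TypT R G le)
    {J : Type} [Fintype J] [DecidableEq J] (l : J → Ω) {ν : Matrix J J (MonoidAlgebra R G)}
    (hν : MSup2 (fun i j => {g | le (g • l j) (l i)}) ν) (hn : IsNilpotent ν) : T (1 - ν) := by
  obtain ⟨k, hk⟩ := hn
  have h1 : MSup2 (fun i j => {g : G | le (g • l j) (l i)})
      (1 : Matrix J J (MonoidAlgebra R G)) := msup2_one fun i => by simpa using hrefl _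
  have hpow : ∀ n : ℕ, MSup2 (fun i j => {g | le (g • l j) (l i)}) (ν ^ n) := by
    intro n
    induction n with
    | zero => rw [pow_zero]; exact h1
    | succ n ih =>
      rw [pow_succ]
      refine ih.mul hν fun i j m a ha b hb => ?_
      simp only [Set.mem_ofPred_eq] at ha hb ⊢
      rw [mul_smul]
      exact htrans _ _ _ (hsmul a _ _ hb) ha
  refine h J l _ (∑ i ∈ Finset.range k, ν ^ i) (by rw [mul_neg_geom_sum, hk, sub_zero])
    (by rw [geom_sum_mul_neg, hk, sub_zero]) (h1.sub hν) ?_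
  exact Finset.sum_induction _ _ (fun _ _ => MSup2.add) (msup2_zero _) fun i _ => hpow i

theorem g1_step {ι : Type} [Fintype ι] {G : Type} [Group G] {V : ι → Type}
    [∀ τ, MulAction G (V τ)] (X : ∀ τ, SimpleGraph (V τ)) (hX : ∀ τ, TreeAction G (X τ))
    (hfree : FreeM G V) (hcomm : CommG1 R G V)
    (hV : ∀ (τ : ι) (y : V τ), QQ R (MulAction.stabilizer G y)) : G1 R G := by
  classical
  by_cases hE : ∀ τ, Nonempty (OE (X τ))
  swap
  · obtain ⟨τ, hτ⟩ := not_forall.1 hE
    obtain ⟨y⟩ := (hX τ).1.connected.nonempty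
    rw [G1_iff]
    intro J _ _ A hu
    refine T_of_isUnit_msup _ (hV τ y).g1 (fun i j g _ => ?_) hu
    by_contra h
    obtain ⟨z', h1, -⟩ := tree_closer (hX τ).1 (z := g • y) (a := y) h
    exact hτ ⟨⟨_, _, h1⟩⟩
  have := fun τ => Fact.mk (hX τ)
  let x₀ : ∀ τ, OE (X τ) := fun τ => (hE τ).some
  choose c hc using fun τ => exists_CS (G := G) (X τ)
  have hfree' : FreeM G fun τ => OE (X τ) := fun g x hx τ y =>
    have h := hfree g (fun τ => (x τ).a) (fun τ => congrArg OE.a (hx τ)) τ
    OE.ext (h _) (h _)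
  have hcomm' : CommG1 R G fun τ => OE (X τ) := fun H hH => hcomm H fun a ha b hb =>
    hfree.eq (fun τ => (x₀ τ).a) fun τ => congrArg OE.a (hH a ha b hb τ (x₀ τ))
  have hstab : ∀ (τ : ι) (e : OE (X τ)), G1 R (MulAction.stabilizer G e) := fun τ e =>
    ((hV τ e.a).sub (Subgroup.inclusion (H := MulAction.stabilizer G e)
      fun g hg => congrArg OE.a hg) (Subgroup.inclusion_injective _)).g1
  have htop := typT_of_posT c hstab (posT_univ c hfree' hcomm')
  let le : Finset ι → (∀ τ, OE (X τ)) → (∀ τ, OE (X τ)) → Prop :=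
    fun I x y => ∀ τ ∈ I, (c τ).le (x τ) (y τ)
  have hrefl : ∀ I x, le I x x := fun I x τ _ => (c τ).refl _
  have htrans : ∀ I x y z, le I x y → le I y z → le I x z :=
    fun I x y z h1 h2 τ hτ => (c τ).trans (h1 τ hτ) (h2 τ hτ)
  have hsmul : ∀ I (g : G) x y, le I x y → le I (g • x) (g • y) :=
    fun I g x y h τ hτ => (c τ).smul g (h τ hτ)
  have main : ∀ I : Finset ι, TypT R G (le I) → TypT R G (le ∅) := by
    intro I
    induction I using Finset.induction_on with
    | empty => exact id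
    | insert τ I hτ ih =>
      intro h
      obtain ⟨D, hadj, hH, hne⟩ := exists_TB' (hX τ)
      obtain ⟨e₀⟩ := hne _ _ (x₀ τ).adj
      refine ih (typ_core (TB.splitT_std (fun y => (hV τ y).g1) fun σ => ?_) e₀ (hrefl I)
        (htrans I) (hsmul I) fun J _ _ l o ν hν hn => ?_)
      · exact ((hV τ (D.ep σ false)).sub (Subgroup.inclusion (H := D.C σ) fun g hg => hg false)
          (Subgroup.inclusion_injective _)).g0
      · refine typT_nil (hrefl _) (htrans _) (hsmul _) h
          (fun j => Function.update (l j) τ ⟨_, _, hadj (o j).1 (o j).2⟩)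
          (hν.mono fun i j g hg σ hσ => ?_) hn
        rw [Pi.smul_apply]
        rcases Finset.mem_insert.1 hσ with rfl | hσ
        · rw [Function.update_self, Function.update_self, hc]
          intro z hz
          have := hg.2 (g⁻¹ • z) (by
            rw [hH, ← (hX σ).smul_side g, smul_inv_smul]; exact hz)
          rwa [smul_inv_smul, hH] at this
        · have hne : σ ≠ τ := fun e => hτ (e ▸ hσ)
          rw [Function.update_of_ne hne, Function.update_of_ne hne]
          exact hg.1 σ hσ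
  have h0 := main Finset.univ fun J _ _ l a b h1 h2 ha hb => htop J l a b h1 h2
    (ha.mono fun i j g hg τ => hg τ (Finset.mem_univ τ))
    (hb.mono fun i j g hg τ => hg τ (Finset.mem_univ τ))
  intro J _ _ A B h1 h2
  exact h0 J (fun _ => x₀) A B h1 h2 (fun i j g _ τ hτ => absurd hτ (Finset.notMem_empty τ))
    fun i j g _ τ hτ => absurd hτ (Finset.notMem_empty τ)

theorem qq_trees (k : ℕ) : ∀ (ι : Type) [Fintype ι], Fintype.card ι = k →
    ∀ (G : Type) [Group G] (V : ι → Type) [∀ τ, MulAction G (V τ)]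
      (X : ∀ τ, SimpleGraph (V τ)), (∀ τ, TreeAction G (X τ)) → FreeM G V →
      (∀ H : Subgroup G, (∀ a ∈ H, ∀ b ∈ H, ∀ (τ : ι) (y : V τ), (a * b) • y = (b * a) • y) →
        QQ R H) → QQ R G := by
  induction k using Nat.strong_induction_on with
  | _ k ih =>
  intro ι _ hk G _ V _ X hX hfree hcomm P _ hP Δ _ f hf
  classical
  let p : Δ →* G := (MonoidHom.fst _ _).comp f
  let _ : ∀ τ, MulAction Δ (V τ) := fun τ => MulAction.compHom (V τ) p
  have hp : ∀ (τ : ι) (g : Δ) (y : V τ), g • y = p g • y := fun _ _ _ => rfl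
  have hX' : ∀ τ, TreeAction Δ (X τ) := fun τ =>
    ⟨(hX τ).1, fun g => (hX τ).2.1 (p g), fun g => (hX τ).2.2 (p g)⟩
  have hfree' : FreeM Δ V := fun g => hfree (p g)
  have hcomm' : ∀ H : Subgroup Δ,
      (∀ a ∈ H, ∀ b ∈ H, ∀ (τ : ι) (y : V τ), (a * b) • y = (b * a) • y) → QQ R H := by
    intro H hH
    refine qq_of_le' hP f hf (H.map p) (hcomm _ ?_) H fun x hx => ⟨x, hx, rfl⟩
    rintro _ ⟨a, ha, rfl⟩ _ ⟨b, hb, rfl⟩ τ y
    rw [← map_mul, ← map_mul]
    exact hH a ha b hb τ y
  refine g1_step X hX' hfree' (fun H hH => (hcomm' H hH).g1) fun τ y => ?_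
  have ext : ∀ x : ∀ σ : {σ // σ ≠ τ}, V σ.1, ∃ x' : ∀ σ, V σ, x' τ = y ∧
      ∀ σ (h : σ ≠ τ), x' σ = x ⟨σ, h⟩ := fun x =>
    ⟨fun σ => if h : σ = τ then h ▸ y else x ⟨σ, h⟩, by simp, fun σ h => dif_neg h⟩
  refine ih _ (hk ▸ Fintype.card_subtype_lt (p := fun σ => σ ≠ τ) (x := τ) (by simp))
    {σ // σ ≠ τ} rfl (MulAction.stabilizer Δ y) (fun σ => V σ.1) (fun σ => X σ.1)
    (fun σ => ⟨(hX σ.1).1, fun g => (hX' σ.1).2.1 g.1, fun g => (hX' σ.1).2.2 g.1⟩)
    (fun g x hx σ z => ?_) fun H hH => ?_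
  · obtain ⟨x', h1, h2⟩ := ext x
    refine hfree' g.1 x' (fun σ => ?_) σ.1 z
    by_cases h : σ = τ
    · subst h; rw [h1]; exact g.2
    · rw [h2 σ h]; exact hx ⟨σ, h⟩
  · refine (hcomm' (H.map (MulAction.stabilizer Δ y).subtype) ?_).sub
      (H.equivMapOfInjective _ (Subgroup.subtype_injective _)).toMonoidHom (MulEquiv.injective _)
    rintro _ ⟨a, ha, rfl⟩ _ ⟨b, hb, rfl⟩
    obtain ⟨x', h1, h2⟩ := ext fun σ => (hX σ.1).1.connected.nonempty.some
    refine hfree'.eq x' fun σ => ?_
    by_cases h : σ = τ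
    · subst h; rw [h1]; exact (a * b).2.trans (b * a).2.symm
    · rw [h2 σ h]; exact hH a ha b hb ⟨σ, h⟩ _

end Pool.Agent.MP_f7db47_al.PT

end

section

/-!
The class of groups for the theorem on products of trees.
-/

namespace Pool.Agent.MP_f7db47_al

/-- The class `P`: the least class that contains the poly-`ℤ` groups and the torsion-free
abelian groups, is closed under subgroups, products with poly-`ℤ` groups and directed unions,
and contains `G` whenever `G` acts on a finite product of trees freely modulo the kernel, or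
maps to `GL_2` in positive characteristic with torsion-free image, with all subgroups of abelian
image in the class. -/
inductive ClassP : (G : Type) → [Group G] → Prop
  | poly (G : Type) [Group G] (h : PolyZ G) : ClassP G
  | ab (G : Type) [Group G] (hc : ∀ a b : G, a * b = b * a)
      (ht : ∀ g : G, IsOfFinOrder g → g = 1) : ClassP G
  | sub (G H : Type) [Group G] [Group H] (f : G →* H) (hf : Function.Injective f)
      (hH : ClassP H) : ClassP G
  | prod (G P : Type) [Group G] [Group P] (hG : ClassP G) (hP : PolyZ P) : ClassP (G × P)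
  | loc (G : Type) [Group G] (h : ∀ K : Subgroup G, K.FG → ClassP K) : ClassP G
  | trees (G : Type) [Group G] (k : ℕ) (V : Fin k → Type) (X : ∀ i, SimpleGraph (V i))
      (hX : ∀ i, (X i).IsTree) (ρ : ∀ i, G →* (X i ≃g X i))
      (hfree : ∀ g : G, (∀ i, ∃ v, ρ i (g ^ 2) v = v) → ∀ i, ρ i g = 1)
      (hab : ∀ H : Subgroup G, (∀ a ∈ H, ∀ b ∈ H, ∀ i, ρ i (a * b) = ρ i (b * a)) → ClassP H) :
      ClassP G
  | gl2 (G : Type) [Group G] (A : Type) [CommRing A] (N : ℕ) (hN : 0 < N) (hA : (N : A) = 0)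
      (f : G →* GL (Fin 2) A) (ht : ∀ g : G, IsOfFinOrder (f g) → f g = 1)
      (hab : ∀ H : Subgroup G, (∀ a ∈ H, ∀ b ∈ H, f (a * b) = f (b * a)) → ClassP H) :
      ClassP G

end Pool.Agent.MP_f7db47_al

end

section

namespace Pool.Agent.MP_f7db47_al.PT

open scoped WithZero in
theorem GLb_line {K : Type} [Field K] (v : Valuation K ℤᵐ⁰) :
    ∃ (V : Type) (X : SimpleGraph V) (ρ : GL (Fin 2) K →* (X ≃g X)), X.IsTree ∧
      ∀ g : GL (Fin 2) K, (∃ x, ρ g x = x) → v g.val.det = 1 := by
  obtain ⟨X, ρ, h1, h2⟩ := exists_line (G := GL (Fin 2) K)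
    (WithZero.unitsWithZeroEquiv.toMonoidHom.comp
      ((Units.map v.toMonoidWithZeroHom.toMonoidHom).comp Matrix.GeneralLinearGroup.det))
  refine ⟨ℤ, X, ρ, h1, fun g ⟨x, hx⟩ => ?_⟩
  rw [h2, add_eq_left, toAdd_eq_zero] at hx
  have h3 := WithZero.unitsWithZeroEquiv.map_eq_one_iff.1 hx
  exact congrArg Units.val h3

theorem gl2_trees_domain (p : ℕ) [Fact p.Prime] (A : Type) [CommRing A] [IsDomain A]
    [Algebra (ZMod p) A] [Algebra.FiniteType (ZMod p) A] :
    ∃ (k : ℕ) (V : Fin k → Type) (X : ∀ i, SimpleGraph (V i))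
      (ρ : ∀ i, GL (Fin 2) A →* (X i ≃g X i)), (∀ i, (X i).IsTree) ∧
      ∀ g, (∀ i, ∃ v, ρ i g v = v) → IsOfFinOrder g := by
  obtain ⟨L, _, φ, m, v, -, h1, h2⟩ := exists_vals p A
  have key : ∀ s : Fin m ⊕ Fin m, ∃ (V : Type) (X : SimpleGraph V)
      (ρ : GL (Fin 2) L →* (X ≃g X)), X.IsTree ∧ ∀ g : GL (Fin 2) L, (∃ x, ρ g x = x) →
        s.elim (fun i => v i g.val.det = 1) fun i => v i g.val.det = 1 → v i g.val.trace ≤ 1 := by
    rintro (i | i)
    · exact GLb_line (v i)
    · obtain ⟨π, hπ⟩ := h1 i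
      exact exists_BT (v i) π hπ
  choose V X ρ hX hρ using key
  refine ⟨m + m, fun i => V (finSumFinEquiv.symm i), fun i => X _,
    fun i => (ρ _).comp (Matrix.GeneralLinearGroup.map φ), fun i => hX _, fun g hg => ?_⟩
  have h3 : ∀ s, ∃ x, ρ s (Matrix.GeneralLinearGroup.map φ g) x = x := fun s => by
    obtain ⟨i, rfl⟩ := finSumFinEquiv.symm.surjective s
    exact hg i
  have hd : (Matrix.GeneralLinearGroup.map φ g).val.det = φ g.val.det := (φ.map_det _).symm
  have ht : (Matrix.GeneralLinearGroup.map φ g).val.trace = φ g.val.trace :=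
    (AddMonoidHom.map_trace φ _).symm
  have h4 : ∀ i, v i (Matrix.GeneralLinearGroup.map φ g).val.det = 1 := fun i =>
    hρ (Sum.inl i) _ (h3 _)
  refine finOrder_of_integral p A g (h2 _ fun i => ?_) (h2 _ fun i => ?_)
  · rw [← ht]
    exact hρ (Sum.inr i) _ (h3 _) (h4 i)
  · rw [← hd]
    exact (h4 i).le

end Pool.Agent.MP_f7db47_al.PT

end

section

namespace Pool.Agent.MP_f7db47_al.PT

theorem GLc_prime (A : Type) [CommRing A] (hfg : Algebra.FiniteType ℤ A) (N : ℕ) (hN : 0 < N)
    (hA : (N : A) = 0) (P : Ideal A) (hP : P.IsPrime) :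
    ∃ (k : ℕ) (V : Fin k → Type) (X : ∀ i, SimpleGraph (V i))
      (ρ : ∀ i, GL (Fin 2) (A ⧸ P) →* (X i ≃g X i)), (∀ i, (X i).IsTree) ∧
      ∀ g, (∀ i, ∃ v, ρ i g v = v) → IsOfFinOrder g := by
  have hc : CharP (A ⧸ P) (ringChar (A ⧸ P)) := ringChar.charP _
  have hN' : (N : A ⧸ P) = 0 := by rw [← map_natCast (Ideal.Quotient.mk P), hA, map_zero]
  have hp : (ringChar (A ⧸ P)).Prime := by
    refine (CharP.char_is_prime_or_zero (A ⧸ P) _).resolve_right fun h => ?_
    have := (ringChar.spec (A ⧸ P) N).1 hN'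
    rw [h, zero_dvd_iff] at this
    omega
  have : Fact (ringChar (A ⧸ P)).Prime := ⟨hp⟩
  letI := ZMod.algebra (A ⧸ P) (ringChar (A ⧸ P))
  have h1 : Algebra.FiniteType ℤ (A ⧸ P) :=
    hfg.of_surjective (Ideal.Quotient.mk P).toIntAlgHom Ideal.Quotient.mk_surjective
  have h2 : Algebra.FiniteType (ZMod (ringChar (A ⧸ P))) (A ⧸ P) :=
    Algebra.FiniteType.of_restrictScalars_finiteType ℤ _ _
  exact gl2_trees_domain (ringChar (A ⧸ P)) (A ⧸ P)

theorem gl2_trees (A : Type) [CommRing A] (hfg : Algebra.FiniteType ℤ A) (N : ℕ) (hN : 0 < N)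
    (hA : (N : A) = 0) :
    ∃ (k : ℕ) (V : Fin k → Type) (X : ∀ i, SimpleGraph (V i))
      (ρ : ∀ i, GL (Fin 2) A →* (X i ≃g X i)), (∀ i, (X i).IsTree) ∧
      ∀ g, (∀ i, ∃ v, ρ i g v = v) → IsOfFinOrder g := by
  have hno : IsNoetherianRing A := Algebra.FiniteType.isNoetherianRing ℤ A
  have hfin : Finite (minimalPrimes A) := (minimalPrimes.finite_of_isNoetherianRing A).to_subtype
  have := Fintype.ofFinite (minimalPrimes A)
  choose k V X ρ h1 h2 using fun P : minimalPrimes A =>
    GLc_prime A hfg N hN hA P.1 (Ideal.minimalPrimes_isPrime P.2)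
  let e := (Fintype.equivFin (Σ P : minimalPrimes A, Fin (k P))).symm
  refine ⟨_, fun i => V (e i).1 (e i).2, fun i => X (e i).1 (e i).2, fun i =>
    (ρ (e i).1 (e i).2).comp (Matrix.GeneralLinearGroup.map (Ideal.Quotient.mk (e i).1.1)),
    fun i => h1 _ _, fun g hg => ?_⟩
  have h3 : ∀ P : minimalPrimes A, ∃ n : ℕ, 0 < n ∧
      Matrix.GeneralLinearGroup.map (Ideal.Quotient.mk P.1) g ^ n = 1 := fun P => by
    refine isOfFinOrder_iff_pow_eq_one.1 (h2 P _ fun i => ?_)
    have := hg (e.symm ⟨P, i⟩)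
    have h4 : ∀ c : (Σ P : minimalPrimes A, Fin (k P)), c = ⟨P, i⟩ →
        (∃ v, ρ c.1 c.2 (Matrix.GeneralLinearGroup.map (Ideal.Quotient.mk c.1.1) g) v = v) →
        ∃ v, ρ P i (Matrix.GeneralLinearGroup.map (Ideal.Quotient.mk P.1) g) v = v := by
      rintro c rfl h
      exact h
    exact h4 _ (e.apply_symm_apply _) this
  choose n hn h4 using h3
  have hpos : 0 < ∏ P, n P := Finset.prod_pos fun P _ => hn P
  refine IsOfFinOrder.of_pow (n := ∏ P, n P) (finOrder_of_nil A N hN hA _ fun i j => ?_) hpos.ne'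
  rw [← mem_nilradical, nilradical, ← Ideal.sInf_minimalPrimes, Ideal.mem_sInf]
  intro P hP
  obtain ⟨c, hc⟩ := Finset.dvd_prod_of_mem n (Finset.mem_univ ⟨P, hP⟩)
  have h5 : Matrix.GeneralLinearGroup.map (Ideal.Quotient.mk P) (g ^ ∏ P, n P) = 1 := by
    rw [map_pow, hc, pow_mul, h4 ⟨P, hP⟩, one_pow]
  have h6 : Ideal.Quotient.mk P ((g ^ ∏ P, n P).val i j) =
      (1 : Matrix (Fin 2) (Fin 2) (A ⧸ P)) i j :=
    congrArg (fun g : GL (Fin 2) (A ⧸ P) => g.val i j) h5
  rw [← Ideal.Quotient.eq_zero_iff_mem, Matrix.sub_apply, map_sub, h6, sub_eq_zero,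
    Matrix.one_apply, Matrix.one_apply]
  split_ifs <;> simp

end Pool.Agent.MP_f7db47_al.PT

end

section

/-!
The class `P` satisfies the inductive property.
-/

namespace Pool.Agent.MP_f7db47_al.PT

universe v

variable {R : Type v} [Ring R]

theorem qq_aut {G : Type} [Group G] {k : ℕ} {V : Fin k → Type} (X : ∀ i, SimpleGraph (V i))
    (hX : ∀ i, (X i).IsTree) (ρ : ∀ i, G →* (X i ≃g X i))
    (hfree : ∀ g : G, (∀ i, ∃ v, ρ i (g ^ 2) v = v) → ∀ i, ρ i g = 1)
    (hab : ∀ H : Subgroup G, (∀ a ∈ H, ∀ b ∈ H, ∀ i, ρ i (a * b) = ρ i (b * a)) → QQ R H) :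
    QQ R G := by
  choose V' act X' h1 h2 h3 using fun i => exists_subdiv (X i) (hX i) (ρ i)
  refine qq_trees _ (Fin k) rfl G V' X' h1
    (fun g x hx i => (h3 i g).1 (hfree g (fun j => h2 j g _ (hx j)) i)) fun H hH => ?_
  refine hab H fun a ha b hb i => ?_
  rw [← inv_mul_eq_one, ← map_inv, ← map_mul, h3]
  intro y
  rw [mul_smul, inv_smul_eq_iff]
  exact (hH a ha b hb i y).symm

theorem qq_gl2 {G : Type} [Group G] {A : Type} [CommRing A] {N : ℕ} (hN : 0 < N)
    (hA : (N : A) = 0) (f : G →* GL (Fin 2) A) (ht : ∀ g : G, IsOfFinOrder (f g) → f g = 1)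
    (hab : ∀ H : Subgroup G, (∀ a ∈ H, ∀ b ∈ H, f (a * b) = f (b * a)) → QQ R H) : QQ R G := by
  refine qq_loc fun K hK => ?_
  obtain ⟨A₀, f₀, hfg, hf₀⟩ := exists_fg_subring ((Group.fg_iff_subgroup_fg K).2 hK) A
    (f.comp K.subtype)
  obtain ⟨k, V, X, ρ, hX, hρ⟩ := gl2_trees A₀ hfg N hN (Subtype.ext (by simpa using hA))
  have hinj : ∀ g : K, f g = 1 → f₀ g = 1 := by
    intro g hg
    have := (hf₀ g).trans hg
    ext i j
    simpa [Matrix.one_apply, apply_ite] using congrArg (fun M : GL (Fin 2) A => M.val i j) this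
  have key : ∀ g : K, IsOfFinOrder (f₀ g) → f g = 1 := fun g hg =>
    ht g ((hf₀ g) ▸ MonoidHom.isOfFinOrder _ hg)
  refine qq_aut X hX (fun i => (ρ i).comp f₀) (fun g hg i => ?_) fun H hH => ?_
  · have := hρ (f₀ (g ^ 2)) hg
    rw [map_pow] at this
    rw [MonoidHom.comp_apply, hinj g (key g (this.of_pow two_ne_zero)), map_one]
  · refine (hab (H.map K.subtype) ?_).sub
      (H.equivMapOfInjective _ (Subgroup.subtype_injective _)).toMonoidHom (MulEquiv.injective _)
    rintro _ ⟨a, ha, rfl⟩ _ ⟨b, hb, rfl⟩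
    have := key ((a * b)⁻¹ * (b * a)) (hρ _ fun i => ⟨(hX i).connected.nonempty.some, by
      have h := hH a ha b hb i
      simp only [MonoidHom.comp_apply] at h
      rw [map_mul, map_mul, map_inv, map_inv, h, inv_mul_cancel]
      rfl⟩)
    rwa [Subgroup.coe_mul, map_mul, Subgroup.coe_inv, map_inv, inv_mul_eq_one] at this

theorem qq_classP (hR : RegularRing R) {G : Type} [Group G] (hG : ClassP G) : QQ R G := by
  induction hG with
  | poly G h => exact qq_poly hR h
  | ab G hc ht => exact qq_ab hR hc ht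
  | sub G H f hf _ ih => exact ih.sub f hf
  | prod G P _ hP ih => exact ih.prod_poly hP
  | loc G _ ih => exact qq_loc ih
  | trees G k V X hX ρ hfree _ ih => exact qq_aut X hX ρ hfree ih
  | gl2 G A N hN hA f ht _ ih => exact qq_gl2 hN hA f ht ih

end Pool.Agent.MP_f7db47_al.PT

end
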