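import Pool.Agent.Mg.Ff7db47.G36cf4d
import Pool.Agent.Mg.Ff7db47.G922e1f
import Pool.Agent.Mg.Ff7db47.Gda730f
import Pool.Agent.Mg.Ff7db47.G5f5d4c

section

/-!
Acylindrical actions on forests.
-/

namespace Pool.Agent.MP_f7db47_al.PT

universe v

variable {R : Type v} [Ring R]

lemma ZFor_pow {G V : Type} [Group G] [MulAction G V] {X : SimpleGraph V} (hX : TreeAction G X)
    {a b : V} {x : G} (hx : Pushes X a b x) (n : ℕ) :
    Side X (x ^ (n + 1) • a) (x ^ (n + 1) • b) ⊆ Side X (x • a) (x • b) := by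
  induction n with
  | zero => rw [zero_add, pow_one]
  | succ n ih =>
    intro z hz
    rw [pow_succ', mul_smul, mul_smul, ← smul_inv_smul x z, hX.smul_side] at hz
    rw [← smul_inv_smul x z, hX.smul_side]
    exact hx.1 (ih hz)

lemma ZFor_inf {G V : Type} [Group G] [MulAction G V] {X : SimpleGraph V} (hX : TreeAction G X)
    {a b : V} {x : G} (hx : Pushes X a b x) (n : ℤ) (h : ∀ z : V, x ^ n • z = z) : n = 0 := by
  have key : ∀ m : ℕ, (∀ z : V, x ^ m • z = z) → m = 0 := by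
    intro m hm
    cases m with
    | zero => rfl
    | succ m =>
      have h1 := ZFor_pow hX hx m
      rw [hm, hm] at h1
      exact absurd h1 hx.2
  obtain ⟨m, rfl | rfl⟩ := Int.eq_nat_or_neg n
  · rw [key m fun z => by rw [← zpow_natCast]; exact h z, Nat.cast_zero]
  · rw [key m fun z => by
      have h1 := h z
      rw [zpow_neg, zpow_natCast, inv_smul_eq_iff] at h1
      exact h1.symm, Nat.cast_zero, neg_zero]

lemma ZFor_path {G V : Type} [Group G] [MulAction G V] {X : SimpleGraph V} (hX : TreeAction G X)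
    (ty : V → Prop) (hty : ∀ (g : G) a, ty (g • a) ↔ ty a)
    (hty' : ∀ a b, X.Adj a b → (ty a ↔ ¬ ty b)) {a b : V} (hab : X.Adj a b) {x : G}
    (hx : Pushes X a b x) : ∃ c e, X.Adj b c ∧ X.Adj c e ∧ a ≠ c ∧ b ≠ e ∧
      ∀ g : G, g • b = b → g • x • b = x • b → g • c = c ∧ g • e = e := by
  have e1 : X.dist (x • b) a = X.dist a (x • a) + 1 :=
    TreeCS_fa hX.1 (p := ⟨a, b, hab⟩) (q := ⟨x • a, x • b, hX.2.1 x _ _ hab⟩) hx.1
  have e2 : X.dist (x • b) b = X.dist a (x • a) :=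
    TreeCS_fb hX.1 (p := ⟨a, b, hab⟩) (q := ⟨x • a, x • b, hX.2.1 x _ _ hab⟩) hx.1
  have d0 : X.dist a (x • a) ≠ 0 := fun h => by
    have h1 := hX.1.connected.dist_eq_zero_iff.1 h
    have h2 := hX.1.connected.dist_eq_zero_iff.1 (e2.trans h)
    apply hx.2
    rw [← h1, h2]
  have d1 : X.dist a (x • a) ≠ 1 := fun h => by
    have h1 := hty' _ _ (SimpleGraph.dist_eq_one_iff_adj.1 h)
    rw [hty] at h1
    exact iff_not_self h1
  have hb : b ≠ x • b := fun h => by
    rw [← h, SimpleGraph.dist_self] at e2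
    exact d0 e2.symm
  obtain ⟨c, hc, hc'⟩ := tree_closer hX.1 hb
  have e3 := hX.1.dist_eq_dist_add_one_of_adj (x • b) hc
  have hc0 : c ≠ x • b := fun h => by
    rw [h, SimpleGraph.dist_self] at e3
    omega
  obtain ⟨e, he, he'⟩ := tree_closer hX.1 hc0
  refine ⟨c, e, hc, he, fun h => ?_, fun h => ?_, fun g h1 h2 => ?_⟩
  · rw [← h] at hc'
    omega
  · rw [← h] at he'
    omega
  · have key : ∀ u w, g • u = u → X.Adj u w → X.dist (x • b) w < X.dist (x • b) u →
        g • w = w := by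
      intro u w hu huw hd
      have h3 := hX.2.1 g _ _ huw
      have h4 := hX.dist_smul g (x • b) w
      rw [hu] at h3
      rw [h2] at h4
      exact tree_uniq hX.1 h3 huw (h4 ▸ hd) hd
    have h5 := key b c h1 hc hc'
    exact ⟨h5, key c e h5 he he'⟩

lemma ZFor_tree {G V : Type} [Group G] [MulAction G V] {X : SimpleGraph V} (hX : TreeAction G X)
    (ty : V → Prop) (hty : ∀ (g : G) a, ty (g • a) ↔ ty a)
    (hty' : ∀ a b, X.Adj a b → (ty a ↔ ¬ ty b)) (N : Subgroup G)
    (hN : ∀ g ∈ N, ∀ z : V, g • z = z)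
    (hrig : ∀ (g : G) a b c d, X.Adj a b → X.Adj b c → X.Adj c d → a ≠ c → b ≠ d →
      g • a = a → g • b = b → g • c = c → g • d = d → g ∈ N)
    (hV : ∀ y : V, QQ R (MulAction.stabilizer G y))
    (hF : ∀ x : G, (∀ n : ℤ, (∀ z : V, x ^ n • z = z) → n = 0) →
      QQ R (N ⊔ Subgroup.zpowers x : Subgroup G)) : QQ R G := by
  refine qq_tame hX (F := {H | QQ R H}) (Z := ∅) (fun a b hab => ?_)
    (fun K hK => absurd hK (Set.notMem_empty K)) hV fun H hH => hH
  refine ⟨Bool, fun i => cond i (MulAction.stabilizer G a ⊓ MulAction.stabilizer G b) N,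
    (· < ·), wellFounded_lt, fun i => ?_, fun M _ hM => ⟨true, hM⟩,
    fun i => Or.inr fun x hx => ?_⟩
  · cases i
    · exact fun g hg => ⟨hN g hg a, hN g hg b⟩
    · exact le_rfl
  · cases i
    · exact Or.inl (hF x (ZFor_inf hX hx))
    · refine Or.inr (Or.inl fun M _ hM => ⟨false, Bool.false_lt_true, fun g hg => ?_⟩)
      obtain ⟨⟨h1, h2⟩, h, ⟨-, h3⟩, h4⟩ := hM hg
      obtain ⟨c, e, hc, he, hac, hbe, h5⟩ := ZFor_path hX ty hty hty' hab hx
      have h6 : g • x • b = x • b := by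
        have h7 : x * h * x⁻¹ = g := h4
        have h8 : h • b = b := h3
        rw [← h7, mul_smul, mul_smul, inv_smul_smul, h8]
      obtain ⟨h9, h10⟩ := h5 g h2 h6
      exact hrig g a b c e hab hc he hac hbe h1 h2 h9 h10

lemma ZFor_conn {V : Type} (X : SimpleGraph V) (y : V) (P : V → Prop)
    (hP : ∀ z, P z ↔ X.Reachable z y) :
    (X.comap (Subtype.val : {z // P z} → V)).Connected := by
  have key : ∀ (u v : V) (p : X.Walk u v) (hu : P u) (hv : P v),
      (X.comap (Subtype.val : {z // P z} → V)).Reachable ⟨u, hu⟩ ⟨v, hv⟩ := by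
    intro u v p
    induction p with
    | nil => exact fun _ _ => SimpleGraph.Reachable.refl _
    | @cons u w v h p ih =>
      intro hu hv
      have hw : P w := (hP w).2 (h.symm.reachable.trans ((hP u).1 hu))
      exact (SimpleGraph.Adj.reachable (G := X.comap (Subtype.val : {z // P z} → V))
        (u := ⟨u, hu⟩) (v := ⟨w, hw⟩) h).trans (ih hw hv)
  refine (SimpleGraph.connected_iff_exists_forall_reachable _).2
    ⟨⟨y, (hP y).2 (SimpleGraph.Reachable.refl y)⟩, fun w => ?_⟩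
  obtain ⟨p⟩ := ((hP w).1 w.2).symm
  exact key _ _ p _ w.2

theorem T_of_forest {G V : Type} [Group G] [MulAction G V] (X : SimpleGraph V)
    (hX : X.IsAcyclic) (hadj : ∀ (g : G) a b, X.Adj a b → X.Adj (g • a) (g • b))
    (ty : V → Prop) (hty : ∀ (g : G) a, ty (g • a) ↔ ty a)
    (hty' : ∀ a b, X.Adj a b → (ty a ↔ ¬ ty b))
    (hrig : ∀ (g : G) a b c d, X.Adj a b → X.Adj b c → X.Adj c d → a ≠ c → b ≠ d →
      g • a = a → g • b = b → g • c = c → g • d = d → ∀ z : V, g • z = z)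
    (hV : ∀ y : V, QQ R (MulAction.stabilizer G y))
    (hF : ∀ x : G, (∀ n : ℤ, (∀ z : V, x ^ n • z = z) → n = 0) →
      QQ R ((MulAction.toPermHom G V).ker ⊔ Subgroup.zpowers x : Subgroup G))
    {J : Type} [Fintype J] [DecidableEq J] (y : J → V) {A : Matrix J J (MonoidAlgebra R G)}
    (hA : MSup2 (fun i j => {g : G | X.Reachable (g • y j) (y i)}) A) (hu : IsUnit A) :
    T A := by
  have hr : ∀ (g : G) a b, X.Reachable a b → X.Reachable (g • a) (g • b) := fun g a b h =>
    h.map (G' := X) ⟨fun v => g • v, fun h => hadj g _ _ h⟩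
  refine T_of_groupoid _ (fun i => ?_) (fun i j k a ha b hb => ?_) (fun i j a ha => ?_)
    (fun i H hH => QQ.g1 ?_) hA hu
  · simp only [Set.mem_ofPred_eq, one_smul]
    exact SimpleGraph.Reachable.refl _
  · simp only [Set.mem_ofPred_eq] at *
    rw [mul_smul]
    exact (hr a _ _ hb).trans ha
  · simp only [Set.mem_ofPred_eq] at *
    have h1 := hr a⁻¹ _ _ ha.symm
    rwa [inv_smul_smul] at h1
  · have hH' : ∀ g : H, X.Reachable (g.1 • y i) (y i) := fun g => by
      have h1 : g.1 ∈ (H : Set G) := g.2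
      rwa [hH] at h1
    let C : SubMulAction H V :=
      { carrier := {z | X.Reachable z (y i)}
        smul_mem' := fun g z hz => (hr g.1 _ _ hz).trans (hH' g) }
    have hs : ∀ (g : H) (z : C), ((g • z : C) : V) = g.1 • (z : V) := fun _ _ => rfl
    have hT : TreeAction H (X.comap (Subtype.val : C → V)) := by
      refine ⟨⟨ZFor_conn X (y i) _ fun _ => Iff.rfl,
        hX.comap (SimpleGraph.Hom.comap _ X) Subtype.val_injective⟩,
        fun g a b h => hadj g.1 _ _ h, fun g a b h h' => ?_⟩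
      have h1 := hty' _ _ h
      rw [← h'.1, hs, hty] at h1
      exact iff_not_self h1
    refine ZFor_tree hT (fun z => ty z.1) (fun g a => hty g.1 a.1) (fun a b h => hty' _ _ h)
      ((MulAction.toPermHom G V).ker.subgroupOf H) (fun g hg z => Subtype.ext ?_)
      (fun g a b c d h1 h2 h3 h4 h5 h6 h7 h8 h9 => ?_) (fun z => ?_) fun x hx => ?_
    · exact congrArg (fun σ : Equiv.Perm V => σ z.1) (Subgroup.mem_subgroupOf.1 hg)
    · refine Subgroup.mem_subgroupOf.2 (Equiv.ext ?_)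
      exact hrig g.1 a.1 b.1 c.1 d.1 h1 h2 h3 (fun h => h4 (Subtype.ext h))
        (fun h => h5 (Subtype.ext h)) (congrArg Subtype.val h6) (congrArg Subtype.val h7)
        (congrArg Subtype.val h8) (congrArg Subtype.val h9)
    · exact (hV z.1).sub ((H.subtype.comp (MulAction.stabilizer H z).subtype).codRestrict _
        fun g => congrArg Subtype.val g.2) fun g g' h =>
          Subtype.ext (Subtype.ext (Subtype.ext_iff.1 h :))
    · have h1 := hF x.1 fun n hn => hx n fun z => Subtype.ext (hn z.1)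
      have h2 : (MulAction.toPermHom G V).ker.subgroupOf H ⊔ Subgroup.zpowers x ≤
          ((MulAction.toPermHom G V).ker ⊔ Subgroup.zpowers x.1).comap H.subtype :=
        sup_le (fun g hg => Subgroup.mem_sup_left (Subgroup.mem_subgroupOf.1 hg))
          (Subgroup.zpowers_le.2 (Subgroup.mem_sup_right (Subgroup.mem_zpowers x.1)))
      exact h1.sub ((H.subtype.comp (Subgroup.subtype _)).codRestrict _ fun g => h2 g.2)
        fun g g' h => Subtype.ext (Subtype.ext (Subtype.ext_iff.1 h :))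

end Pool.Agent.MP_f7db47_al.PT

end

section

/-!
Matrices with short arrows over a bipartite graph without squares.
-/

namespace Pool.Agent.MP_f7db47_al.PT

universe v

variable {R : Type v} [Ring R]

/-- The additive map induced by a map of the underlying sets. -/
noncomputable def ZCovB_md {G Γ : Type} (f : G → Γ) :
    MonoidAlgebra R G →+ MonoidAlgebra R Γ where
  toFun := MonoidAlgebra.mapDomain f
  map_zero' := MonoidAlgebra.mapDomain_zero f
  map_add' := MonoidAlgebra.mapDomain_add f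

lemma ZCovB_md_single {G Γ : Type} (f : G → Γ) (g : G) (r : R) :
    ZCovB_md f (MonoidAlgebra.single g r) = MonoidAlgebra.single (f g) r :=
  MonoidAlgebra.mapDomain_single

lemma ZCovB_md_mul {G Γ : Type} [Group G] [Group Γ] {S S' : Set G} (f f' f'' : G → Γ)
    (h : ∀ g ∈ S, ∀ k ∈ S', f g * f' k = f'' (g * k)) {x z : MonoidAlgebra R G}
    (hx : Sup S x) (hz : Sup S' z) : ZCovB_md f x * ZCovB_md f' z = ZCovB_md f'' (x * z) := by
  refine hx.induction (P := fun x => ZCovB_md f x * ZCovB_md f' z = ZCovB_md f'' (x * z))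
    (by simp) (fun a b ha hb => ?_) fun g hg r => ?_
  · simp only [map_add, add_mul, ha, hb]
  refine hz.induction (P := fun z => ZCovB_md f (MonoidAlgebra.single g r) * ZCovB_md f' z =
    ZCovB_md f'' (MonoidAlgebra.single g r * z)) (by simp) (fun a b ha hb => ?_) fun k hk t => ?_
  · simp only [map_add, mul_add, ha, hb]
  rw [MonoidAlgebra.single_mul_single, ZCovB_md_single, ZCovB_md_single, ZCovB_md_single,
    MonoidAlgebra.single_mul_single, h g hg k hk]

lemma ZCovB_md_sup {G Γ : Type} [Group G] [Group Γ] {S : Set G} (f : G → Γ)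
    {x : MonoidAlgebra R G} (hx : Sup S x) : Sup (f '' S) (ZCovB_md f x) := by
  refine hx.induction (P := fun x => Sup (f '' S) (ZCovB_md f x)) ?_ (fun a b ha hb => ?_)
    fun g hg r => ?_
  · rw [map_zero]; exact sup_zero _
  · rw [map_add]; exact ha.add hb
  · rw [ZCovB_md_single]; exact sup_single (Set.mem_image_of_mem f hg) r

lemma ZCovB_md_back {G Γ : Type} [Group G] [Group Γ] (p : Γ →* G) (f : G → Γ)
    (hp : ∀ g, p (f g) = g) (x : MonoidAlgebra R G) :
    MonoidAlgebra.mapDomainRingHom R p (ZCovB_md f x) = x := by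
  induction x using MonoidAlgebra.induction_linear with
  | zero => rw [map_zero, map_zero]
  | add a b ha hb => rw [map_add, map_add, ha, hb]
  | single g r =>
    rw [ZCovB_md_single, MonoidAlgebra.mapDomainRingHom_apply, MonoidAlgebra.mapDomain_single, hp]

lemma ZCovB_inv {G Γ : Type} [Group G] [Group Γ] {J : Type} [Fintype J]
    [DecidableEq J] (S : J → J → Set G) (s s₂ : J → J → G → Γ)
    (hs : ∀ i j k, ∀ g ∈ S i j, ∀ h ∈ S j k, s i j g * s j k h = s₂ i k (g * h))
    (h1 : ∀ i, s₂ i i 1 = 1) {a b : Matrix J J (MonoidAlgebra R G)} (hab : a * b = 1)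
    (ha : MSup2 S a) (hb : MSup2 S b) :
    (Matrix.of fun i j => ZCovB_md (s i j) (a i j)) *
      (Matrix.of fun i j => ZCovB_md (s i j) (b i j)) = 1 := by
  ext1 i k
  have e : ∑ j, ZCovB_md (s i j) (a i j) * ZCovB_md (s j k) (b j k) =
      ZCovB_md (s₂ i k) ((a * b) i k) := by
    rw [Matrix.mul_apply, map_sum]
    exact Finset.sum_congr rfl fun j _ => ZCovB_md_mul _ _ _ (hs i j k) (ha i j) (hb j k)
  rw [Matrix.mul_apply]
  simp only [Matrix.of_apply]
  rw [e, hab]
  by_cases h : i = k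
  · subst h
    rw [Matrix.one_apply_eq, Matrix.one_apply_eq, MonoidAlgebra.one_def, ZCovB_md_single, h1]
    rfl
  · rw [Matrix.one_apply_ne h, Matrix.one_apply_ne h, map_zero]

lemma ZCovB_poly {Γ V : Type} [Group Γ] [MulAction Γ V] (x : Γ)
    (hx : ∀ n : ℤ, (∀ z : V, x ^ n • z = z) → n = 0) :
    PolyZ (Subgroup.zpowers (MulAction.toPermHom Γ V x)) := by
  have : Group.FG (Subgroup.zpowers (MulAction.toPermHom Γ V x)) :=
    (Group.fg_iff_subgroup_fg _).2 ((Subgroup.fg_iff _).2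
      ⟨{MulAction.toPermHom Γ V x}, (Subgroup.zpowers_eq_closure _).symm, Set.finite_singleton _⟩)
  refine Ab_poly (fun a b => mul_comm' a b) ?_
  rintro ⟨_, n, rfl⟩ hg
  obtain ⟨m, hm, h⟩ := isOfFinOrder_iff_pow_eq_one.1 hg
  have h2 : MulAction.toPermHom Γ V (x ^ (n * m)) = 1 := by
    rw [map_zpow, zpow_mul, zpow_natCast]
    exact congrArg Subtype.val h
  have h3 := hx (n * m) fun z => by
    have := congrArg (fun e : Equiv.Perm V => e z) h2
    simpa using this
  have h4 : n = 0 := by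
    rcases mul_eq_zero.1 h3 with h | h
    · exact h
    · omega
  subst h4
  exact Subtype.ext (zpow_zero _)

/-- Lifting a pair of inverse matrices along a cocycle. -/
theorem T_of_lift {G Γ : Type} [Group G] [Group Γ] (p : Γ →* G) {J : Type} [Fintype J]
    [DecidableEq J] (S : J → J → Set G) (s s₂ : J → J → G → Γ) (hp : ∀ i j g, p (s i j g) = g)
    (hs : ∀ i j k, ∀ g ∈ S i j, ∀ h ∈ S j k, s i j g * s j k h = s₂ i k (g * h))
    (h1 : ∀ i, s₂ i i 1 = 1)
    (hT : ∀ A : Matrix J J (MonoidAlgebra R Γ), MSup2 (fun i j => s i j '' S i j) A →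
      IsUnit A → T A)
    {a b : Matrix J J (MonoidAlgebra R G)} (hab : a * b = 1) (hba : b * a = 1)
    (ha : MSup2 S a) (hb : MSup2 S b) : T a := by
  have h := T_map p (hT (Matrix.of fun i j => ZCovB_md (s i j) (a i j))
    (fun i j => ZCovB_md_sup _ (ha i j))
    ⟨⟨_, _, ZCovB_inv S s s₂ hs h1 hab ha hb, ZCovB_inv S s s₂ hs h1 hba hb ha⟩, rfl⟩)
  have e : (Matrix.of fun i j => ZCovB_md (s i j) (a i j)).map
      (MonoidAlgebra.mapDomainRingHom R p) = a := by
    ext1 i j
    exact ZCovB_md_back p _ (hp i j) _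
  rwa [e] at h

theorem T_of_geo {G Ω : Type} [Group G] [MulAction G Ω] (X : SimpleGraph Ω)
    (hadj : ∀ (g : G) a b, X.Adj a b → X.Adj (g • a) (g • b))
    (ty : Ω → Prop) (hty : ∀ (g : G) a, ty (g • a) ↔ ty a)
    (hty' : ∀ a b, X.Adj a b → (ty a ↔ ¬ ty b))
    (hfour : ∀ a b b' c, X.Adj a b → X.Adj b c → X.Adj a b' → X.Adj b' c → a ≠ c → b = b')
    (hrig : ∀ (g : G) a b c d, X.Adj a b → X.Adj b c → X.Adj c d → a ≠ c → b ≠ d →
      g • a = a → g • b = b → g • c = c → g • d = d → ∀ z : Ω, g • z = z)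
    (hfix : ∀ g : G, ∃ a : Ω, g • a = a) (hV : ∀ a : Ω, QQ R (MulAction.stabilizer G a))
    {J : Type} [Fintype J] [DecidableEq J] (l : J → Ω)
    {a b : Matrix J J (MonoidAlgebra R G)} (hab : a * b = 1) (hba : b * a = 1)
    (ha : MSup2 (fun i j => {g : G | Near X (g • l j) (l i)}) a)
    (hb : MSup2 (fun i j => {g : G | Near X (g • l j) (l i)}) b) : T a := by
  obtain ⟨Γ, _, p, V, _, Y, q, o, s, s₂, c1, c2, c3, c4, c5, c6, c7, c8, c9, c10, c11, c12⟩ :=
    exists_cover X hadj ty hty hty' hfour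
  refine T_of_lift p (fun i j => {g : G | Near X (g • l j) (l i)}) (fun i j => s (l i) (l j))
    (fun i j => s₂ (l i) (l j)) (fun i j g => c9 _ _ g)
    (fun i j k g hg h hh => c11 _ _ _ g h hg hh) (fun i => c12 _) (fun A hA hu => ?_)
    hab hba ha hb
  have hfx : ∀ (γ : Γ) (z : V), γ • z = z → p γ • q z = q z := fun γ z h => by rw [← c3, h]
  refine T_of_forest Y c1 c2 (fun z => ty (q z)) (fun γ z => by rw [c3, hty])
    (fun z z' h => hty' _ _ (c4 _ _ h)) ?_ (fun z => ?_) (fun x hx => ?_) (fun j => o (l j))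
    (fun i j => (hA i j).mono ?_) hu
  · intro γ z₁ z₂ z₃ z₄ a12 a23 a34 n13 n24 f1 f2 f3 f4
    refine c7 γ z₁ f1 (hrig (p γ) _ _ _ _ (c4 _ _ a12) (c4 _ _ a23) (c4 _ _ a34)
      (fun h => n13 (c5 _ _ _ a12.symm a23 h)) (fun h => n24 (c5 _ _ _ a23.symm a34 h))
      (hfx _ _ f1) (hfx _ _ f2) (hfx _ _ f3) (hfx _ _ f4))
  · refine (hV (q z)).sub ((p.comp (MulAction.stabilizer Γ z).subtype).codRestrict _
      fun γ => hfx _ _ γ.2) ?_
    rw [injective_iff_map_eq_one]
    intro γ hγ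
    exact Subtype.ext (c6 γ z γ.2 (congrArg Subtype.val hγ))
  · obtain ⟨w, hw⟩ := hfix (p x)
    have hk : ∀ γ ∈ (MulAction.toPermHom Γ V).ker, ∀ z : V, γ • z = z := fun γ hγ z => by
      have := congrArg (fun e : Equiv.Perm V => e z) (MonoidHom.mem_ker.1 hγ)
      simpa using this
    have l1 : (MulAction.toPermHom Γ V).ker ⊔ Subgroup.zpowers x ≤
        (MulAction.stabilizer G w).comap p := by
      refine sup_le (fun γ hγ => ?_) ((Subgroup.zpowers_le (G := Γ)).2 hw)
      have := hfx γ (o w) (hk γ hγ _)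
      rwa [c8] at this
    have l2 : (MulAction.toPermHom Γ V).ker ⊔ Subgroup.zpowers x ≤
        (Subgroup.zpowers (MulAction.toPermHom Γ V x)).comap (MulAction.toPermHom Γ V) :=
      sup_le (Subgroup.ker_le_comap _ _)
        ((Subgroup.zpowers_le (G := Γ)).2 (Subgroup.mem_zpowers _))
    refine ((hV w).prod_poly (ZCovB_poly x hx)).sub
      (((p.comp (Subgroup.subtype _)).codRestrict _ fun γ => l1 γ.2).prod
        (((MulAction.toPermHom Γ V).comp (Subgroup.subtype _)).codRestrict _ fun γ => l2 γ.2)) ?_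
    rw [injective_iff_map_eq_one]
    intro γ hγ
    have e1 : p γ = 1 := congrArg (fun t => (t.1 : G)) hγ
    have e2 : MulAction.toPermHom Γ V γ = 1 := congrArg (fun t => (t.2 : Equiv.Perm V)) hγ
    exact Subtype.ext (c6 γ (o w) (hk γ e2 _) e1)
  · rintro _ ⟨g, hg, rfl⟩
    exact c10 _ _ g hg

end Pool.Agent.MP_f7db47_al.PT

end

section

/-!
The elimination theorem for windows, for actions that are not free.
-/

set_option linter.unusedSectionVars false

namespace Pool.Agent.MP_f7db47_al.PT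

open Matrix

universe v

variable {R : Type v} [Ring R] {G : Type} [Group G]
variable {ι : Type} [Fintype ι] {V : ι → Type} [∀ τ, MulAction G (V τ)]
variable {Q : Type} [Group Q] {Ω : Type} [MulAction Q Ω] {D : Geo Q Ω} {f : G →* Q}

lemma Geo.fix (D : Geo Q Ω) (g : Q) : g • D.om g = D.om g := by
  by_cases h : D.Cz g
  · exact D.cz_triv _ _ h
  · rw [← D.om_conj _ _ h, mul_inv_cancel_right]

theorem T_of_geo' (hsol : ZS R f Ω) {J : Type} [Fintype J] [DecidableEq J] (l : J → Ω)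
    {a b : Matrix J J (MonoidAlgebra R G)} (hab : a * b = 1) (hba : b * a = 1)
    (ha : MSup2 (fun i j => {g : G | Near D.X (f g • l j) (l i)}) a)
    (hb : MSup2 (fun i j => {g : G | Near D.X (f g • l j) (l i)}) b) : T a := by
  let _ : MulAction G Ω := MulAction.compHom Ω f
  exact T_of_geo D.X (fun g => D.adj_smul (f g)) D.ty (fun g => D.ty_smul (f g)) D.ty_adj D.four
    (fun g => D.rigid (f g)) (fun g => ⟨_, D.fix (f g)⟩) (fun ω => hsol ω _ fun g hg => hg) l
    hab hba ha hb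

theorem winZ_core [Nonempty ι] (hU : ZU V D f)
    (hZ : ∀ g, D.Cz (f g) → ∀ (τ : ι) (y : V τ), g • y = y) (hsol : ZS R f Ω) (r₀ : ℕ)
    (hr : 3 ≤ r₀) :
    ∃ S : ℕ, ∀ n : ℕ, ∃ ρ : ℕ, S ≤ ρ ∧ ∀ (cand : Fin n → Win V) (J : Type) [Fintype J]
      [DecidableEq J] (l : J → Win V), (∀ j, Good ρ (l j)) →
      (∀ j, ∃ i, ∀ (τ : ι) (s : ℤ), |s| ≤ S → l j τ s = cand i τ s) →
      ∀ a b : Matrix J J (MonoidAlgebra R G), a * b = 1 → b * a = 1 →
        MSup2 (fun i j => Sp G ρ r₀ r₀ (l i) (l j)) a →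
        MSup2 (fun i j => Sp G ρ r₀ r₀ (l i) (l j)) b → T a := by
  obtain ⟨C, hC⟩ : ∃ C, C = 8 * r₀ + 2 := ⟨_, rfl⟩
  obtain ⟨N, hN⟩ : ∃ N, N = (2 * C + 1) ^ Fintype.card ι + 1 := ⟨_, rfl⟩
  obtain ⟨t, ht⟩ : ∃ t, t = 3 ^ N * r₀ := ⟨_, rfl⟩
  obtain ⟨A, hA⟩ : ∃ A, A = C * t := ⟨_, rfl⟩
  have hA' : A = 8 * t * r₀ + 2 * t := by rw [hA, hC]; ring
  obtain ⟨S, hS⟩ : ∃ S, S = 4 * A + 2 * t := ⟨_, rfl⟩
  refine ⟨S, fun n => ?_⟩
  obtain ⟨L, hL⟩ : ∃ L, L = N * n * A + S := ⟨_, rfl⟩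
  refine ⟨4 * t * r₀ + t + L, by omega, fun cand J _ _ l hg hl a b hab hba ha hb => ?_⟩
  have hex := exists_Marks (G := G) S A t C n hA.le (by omega) cand
  rw [← hN, ← hL] at hex
  obtain ⟨M, hM⟩ := hex
  refine elim_loop' (Sp G (4 * t * r₀ + t + L) r₀) (fun r r' h x y => Sp.mono h x y)
    (fun r r' x y z a ha b hb => Sp.mul ha hb) N r₀
    {x | Good (4 * t * r₀ + t + L) x ∧ ∃ i, ∀ (τ : ι) (s : ℤ), |s| ≤ S → x τ s = cand i τ s}
    (fun q => M.piece r₀ t q) ?_ ?_ ?_ J l (fun j => ⟨hg j, hl j⟩) a b hab hba ha hb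
  · rw [← ht]
    intro J _ _ l hl a b hab hba ha hb
    have hp : ∀ j, PosPer G S A (l j) := fun j => by
      by_contra h
      obtain ⟨q, hq, m, h1, h2⟩ := hM _ (hl j).1.2 h
      exact (hl j).2 q hq (M.cover hr h1 h2)
    obtain ⟨lab, hlab⟩ := exists_label (ρ := 4 * t * r₀ + t + L) (r₀ := r₀) (r := t) (S := S)
      (A := A) hU hZ (by omega) (by omega)
    have h := fun i j => hlab (l i) (l j) (hl i).1.1 (hp i) (hl j).1.1 (hp j)
    exact T_of_geo' hsol (fun j => lab (l j)) hab hba (ha.mono h) (hb.mono h)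
  · rw [← ht]
    intro q _ c x c' hc hc' h1 h2
    exact M.conv (by omega) (by omega) le_rfl hc hc' h1 h2
  · rw [← ht]
    intro q _ J _ _ l a hl ha hu
    exact M.holZ hU hsol (by omega) (by omega) (by omega) le_rfl J l hl a ha hu

end Pool.Agent.MP_f7db47_al.PT

end
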