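import Pool.Agent.MP_f7db47_al.TameDefs
import Pool.Agent.Mg.Ff7db47.G5f5d4c
import Pool.Agent.Mg.Ff7db47.Gfb1fe6
import Pool.Agent.Mg.Ff7db47.Gc0af32
import Pool.Agent.Mg.Ff7db47.Gda730f
import Pool.Agent.Mg.Ff7db47.G0ffa8c
import Pool.Agent.Mg.Ff7db47.G57cb76
import Pool.Agent.Mg.Ff7db47.G5f614c

section

/-!
The class of groups for the theorem on products of trees and on `GL_2`.
-/

namespace Pool.Agent.MP_f7db47_al

universe v

/-- The class `X` for the ring `R`. -/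
inductive ClassX (R : Type v) [Ring R] : (G : Type) → [Group G] → Prop
  | ab (G : Type) [Group G] (hc : ∀ a b : G, a * b = b * a)
      (ht : ∀ g : G, IsOfFinOrder g → g = 1) : ClassX R G
  | gl2Z (A : Type) [CommRing A] [IsDomain A] (ev : A →+* ℤ)
      (hA : ∀ a : A, IsAlgebraic ℤ a → ∃ n : ℤ, a = n) (G : Subgroup (GL (Fin 2) A))
      (ht : ∀ g : G, IsOfFinOrder g → g = 1) : ClassX R G
  | base (G : Type) [Group G]
      (h : ∀ (P : Type) [Group P], PolyZ P → ∀ L : Subgroup (G × P), K1Onto R L) : ClassX R G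
  | sub (G H : Type) [Group G] [Group H] (f : G →* H) (hf : Function.Injective f)
      (hH : ClassX R H) : ClassX R G
  | prod (G P : Type) [Group G] [Group P] (hG : ClassX R G) (hP : PolyZ P) : ClassX R (G × P)
  | loc (G : Type) [Group G] (h : ∀ K : Subgroup G, K.FG → ClassX R K) : ClassX R G
  | tree (G : Type) [Group G] (V : Type) [MulAction G V] (X : SimpleGraph V)
      (hX : TreeAction G X) (hV : ∀ v : V, ClassX R (MulAction.stabilizer G v))
      (hE : ∀ a b, X.Adj a b → ∀ (P : Type) [Group P], PolyZ P →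
        ∀ L : Subgroup ((MulAction.stabilizer G a ⊓ MulAction.stabilizer G b : Subgroup G) × P),
          RegularCoherent (MonoidAlgebra R L)) : ClassX R G
  | abq (G Q : Type) [Group G] [CommGroup Q] (hQ : ∀ q : Q, IsOfFinOrder q → q = 1)
      (f : G →* Q) (h : ∀ H : Subgroup G, IsCyclic (H.map f) → ClassX R H) : ClassX R G
  | trees (G : Type) [Group G] (k : ℕ) (V : Fin k → Type) (X : ∀ i, SimpleGraph (V i))
      (hX : ∀ i, (X i).IsTree) (ρ : ∀ i, G →* (X i ≃g X i))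
      (hfree : ∀ g : G, (∀ i, ∃ v, ρ i (g ^ 2) v = v) → ∀ i, ρ i g = 1)
      (hab : ∀ H : Subgroup G, (∀ a ∈ H, ∀ b ∈ H, ∀ i, ρ i (a * b) = ρ i (b * a)) →
        ClassX R H) : ClassX R G
  | gl2 (G : Type) [Group G] (A : Type) [CommRing A] (N : ℕ) (hN : 0 < N) (hA : (N : A) = 0)
      (f : G →* GL (Fin 2) A) (ht : ∀ g : G, IsOfFinOrder (f g) → f g = 1)
      (hab : ∀ H : Subgroup G, (∀ a ∈ H, ∀ b ∈ H, f (a * b) = f (b * a)) → ClassX R H) :
      ClassX R G
  | gl2F (G : Type) [Group G] (K : Type) [Field K] [CharZero K] (f : G →* GL (Fin 2) K)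
      (hm : ∀ H : Subgroup G, (∀ a ∈ H, ∀ b ∈ H, ∀ c ∈ H, ∀ d ∈ H,
        Commute (f (a * b * a⁻¹ * b⁻¹)) (f (c * d * c⁻¹ * d⁻¹))) → ClassX R H)
      (ha : ∀ H : Subgroup G,
        (∀ g ∈ H, IsAlgebraic ℤ ((f g).val.trace ^ 2 / (f g).val.det)) → ClassX R H) :
      ClassX R G

end Pool.Agent.MP_f7db47_al

end

section

/-!
Positive matrices, for actions that are not free.
-/

set_option linter.unusedSectionVars false

namespace Pool.Agent.MP_f7db47_al.PT

open Matrix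

universe v

variable {R : Type v} [Ring R] {G : Type} [Group G]
variable {ι : Type} [Fintype ι] {V : ι → Type} [∀ τ, MulAction G (V τ)] (c : ∀ τ, CS G (V τ))
variable {Q : Type} [Group Q] {Ω : Type} [MulAction Q Ω] {D : Geo Q Ω} {f : G →* Q}

lemma Lab.good {J : Type} {l : J → ∀ τ, V τ} {Φ : J → J → Set G} {ρ : ℕ} (y : Lab c l Φ ρ ρ) :
    Good ρ (y.win c) := by
  intro τ s t hs ht h
  rw [abs_le] at hs ht
  have h1 := (y.win_spec τ hs.2).2.2
  have h2 := (y.win_spec τ ht.2).2.2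
  rw [h] at h1
  omega

theorem posT_univZ [Nonempty ι] (hU : ZU V D f)
    (hZ : ∀ g, D.Cz (f g) → ∀ (τ : ι) (y : V τ), g • y = y) (hsol : ZS R f Ω) :
    PosT R c Set.univ := by
  intro J _ _ l ν β h1 h2 hν hβ
  classical
  let Φ : J → J → Set G := fun i j => {g | (ν i j).coeff g ≠ 0 ∨ (β i j).coeff g ≠ 0}
  have hΦ : ∀ i j, (Φ i j).Finite := fun i j =>
    ((ν i j).coeff.support ∪ (β i j).coeff.support).finite_toSet.subset fun g hg => by
      simpa [Φ] using hg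
  have hs : Str c l Φ := by
    intro i j g hg τ
    have : g ∈ Pos c Set.univ l l i j := hg.elim (hν i j g) (hβ i j g)
    exact ⟨this.1 τ, Nat.pos_of_ne_zero fun h => this.2 τ trivial ((c τ).zero (this.1 τ) h)⟩
  have hfin := fun m n => Lab.finite (c := c) (l := l) hΦ m n
  let _ : ∀ m n, Fintype (Lab c l Φ m n) := fun m n => Fintype.ofFinite _
  have sν : ∀ m n m' n', m' ≤ m + 1 → n ≤ n' + 1 → MSup2 (Stq Φ m n m' n') ν :=
    fun m n m' n' a b i j g hg => Or.inl ⟨Or.inl hg, a, b⟩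
  have sβ : ∀ m n m' n', m' ≤ m + 1 → n ≤ n' + 1 → MSup2 (Stq Φ m n m' n') β :=
    fun m n m' n' a b i j g hg => Or.inl ⟨Or.inr hg, a, b⟩
  have s1 : ∀ m n m' n', m' ≤ m → n ≤ n' →
      MSup2 (Stq Φ m n m' n') (1 : Matrix J J (MonoidAlgebra R G)) :=
    fun m n m' n' a b => msup2_one fun i => Or.inr ⟨rfl, rfl, a, b⟩
  obtain ⟨r₀, hr, hr'⟩ : ∃ r₀, 3 ≤ r₀ ∧ ∀ i j, ∀ g ∈ Φ i j, ∀ τ,
      (c τ).dep (l i τ) (g • l j τ) ≤ r₀ := by
    have : (⋃ i, ⋃ j, ⋃ τ, (fun g => (c τ).dep (l i τ) (g • l j τ)) '' Φ i j).Finite :=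
      Set.finite_iUnion fun i => Set.finite_iUnion fun j => Set.finite_iUnion fun τ =>
        (hΦ i j).image _
    obtain ⟨b, hb⟩ := this.bddAbove
    refine ⟨max 3 b, le_max_left _ _, fun i j g hg τ => le_max_of_le_right (hb ?_)⟩
    simp only [Set.mem_iUnion]
    exact ⟨i, j, τ, g, hg, rfl⟩
  obtain ⟨S, hS⟩ := winZ_core hU hZ hsol r₀ hr
  obtain ⟨ρ, hρ, hcore⟩ := hS (Fintype.card (Lab c l Φ S S))
  have sup : ∀ A : Matrix J J (MonoidAlgebra R G), MSup2 (Stq Φ ρ ρ ρ ρ) A →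
      MSup2 (fun y y' : Lab c l Φ ρ ρ => Sp G ρ r₀ r₀ (y.win c) (y'.win c)) (lf ρ ρ ρ ρ A) := by
    intro A hA y y' g hg
    have h3 : g ∈ Rl y y' := sup_pr _ _ g hg
    have h4 : g ∈ Stq Φ ρ ρ ρ ρ _ _ := (hA y.1.1 y'.1.1).pr g hg
    refine ⟨_, ?_, fun τ => ?_, Lab.arr h3 fun τ => ((Stq.up h4).spec hs τ).1⟩
    · refine ⟨fun τ => Int.natCast_nonneg _, fun τ σ => ?_⟩
      rcases h4 with ⟨h4, -⟩ | ⟨h4, rfl, -⟩
      · have e1 := hr' _ _ g h4 τ
        have e2 := (hs _ _ g h4 σ).2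
        dsimp only
        exact_mod_cast e1.trans (Nat.le_mul_of_pos_right _ e2)
      · simp [h4, CS.dep_self]
    · rcases h4 with ⟨h4, -⟩ | ⟨h4, rfl, -⟩
      · exact_mod_cast hr' _ _ g h4 τ
      · simp [h4, CS.dep_self]
  have a1 := (s1 ρ ρ ρ ρ le_rfl le_rfl).sub (sν ρ ρ ρ ρ (by omega) (by omega))
  have a2 := (s1 ρ ρ ρ ρ le_rfl le_rfl).add (sβ ρ ρ ρ ρ (by omega) (by omega))
  have hT := hcore (fun i => ((Fintype.equivFin _).symm i).win c) (Lab c l Φ ρ ρ)
    (fun y => y.win c) (fun y => y.good c) (fun y => by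
      obtain ⟨y', hy'⟩ := Lab.trunc hs hρ y
      exact ⟨Fintype.equivFin _ y', by simpa using hy'⟩)
    (lf ρ ρ ρ ρ (1 - ν)) (lf ρ ρ ρ ρ (1 + β)) ((lf_mul hs a1 a2).trans (by rw [h1, lf_one]))
    ((lf_mul hs a2 a1).trans (by rw [h2, lf_one])) (sup _ a1) (sup _ a2)
  rw [lf_sub, lf_one] at hT
  have stepU : ∀ m n, T (1 - (lf (m + 1) n (m + 1) n ν : Matrix (Lab c l Φ _ _) _ _)) →
      T (1 - (lf m n m n ν : Matrix (Lab c l Φ _ _) _ _)) := by
    intro m n h
    have e1 := lf_mul hs (s1 (m + 1) n m n (by omega) le_rfl) (sν m n (m + 1) n le_rfl (by omega))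
    have e2 := lf_mul hs (sν m n (m + 1) n le_rfl (by omega)) (s1 (m + 1) n m n (by omega) le_rfl)
    rw [one_mul] at e1
    rw [mul_one] at e2
    exact e2 ▸ T_one_sub_comm _ _ (e1 ▸ h)
  have stepD : ∀ m n, T (1 - (lf m (n + 1) m (n + 1) ν : Matrix (Lab c l Φ _ _) _ _)) →
      T (1 - (lf m n m n ν : Matrix (Lab c l Φ _ _) _ _)) := by
    intro m n h
    have e1 := lf_mul hs (sν m (n + 1) m n (by omega) le_rfl) (s1 m n m (n + 1) le_rfl (by omega))
    have e2 := lf_mul hs (s1 m n m (n + 1) le_rfl (by omega)) (sν m (n + 1) m n (by omega) le_rfl)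
    rw [mul_one] at e1
    rw [one_mul] at e2
    exact e2 ▸ T_one_sub_comm _ _ (e1 ▸ h)
  have down : ∀ m, T (1 - (lf m m m m ν : Matrix (Lab c l Φ _ _) _ _)) →
      T (1 - (lf 0 0 0 0 ν : Matrix (Lab c l Φ _ _) _ _)) := by
    intro m
    induction m with
    | zero => exact id
    | succ m ih => exact fun h => ih (stepU _ _ (stepD _ _ h))
  have h0 := down ρ hT
  let e : Lab c l Φ 0 0 ≃ J :=
    { toFun := fun y => y.1.1
      invFun := fun j => ⟨(j, l j, l j), rfl, rfl⟩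
      left_inv := fun y => Subtype.ext (Prod.ext rfl (Prod.ext y.2.1.symm y.2.2.symm))
      right_inv := fun _ => rfl }
  refine T_of_submatrix e ?_
  convert h0 using 1
  rw [submatrix_sub, Pi.sub_apply, Pi.sub_apply, submatrix_one_equiv]
  congr 1
  ext1 y y'
  refine (Sup.pr_eq fun g hg => ?_).symm
  have h3 := (hν y.1.1 y'.1.1 g hg).1
  have e1 : y.1.2.1 = l y.1.1 := y.2.1
  have e2 : y.1.2.2 = l y.1.1 := y.2.2
  have e3 : y'.1.2.1 = l y'.1.1 := y'.2.1
  have e4 : y'.1.2.2 = l y'.1.1 := y'.2.2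
  exact ⟨by rw [e1, e3]; exact h3, by rw [e2, e4]; exact h3⟩

end Pool.Agent.MP_f7db47_al.PT

end

section

/-!
Actions on finite products of trees that are not free.
-/

set_option linter.unusedSectionVars false

namespace Pool.Agent.MP_f7db47_al.PT

open Matrix

universe v

variable {R : Type v} [Ring R] {Q : Type} [Group Q] {Ω : Type} [MulAction Q Ω]

theorem g1_stepZ {ι : Type} [Fintype ι] [Nonempty ι] {G : Type} [Group G] {V : ι → Type}
    [∀ τ, MulAction G (V τ)] (X : ∀ τ, SimpleGraph (V τ)) (hX : ∀ τ, TreeAction G (X τ))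
    (D₀ : Geo Q Ω) (f : G →* Q) (hZ : ∀ g, D₀.Cz (f g) → ∀ (τ : ι) (y : V τ), g • y = y)
    (hU : ∀ a b : ∀ τ, V τ, (∀ τ, (X τ).Adj (a τ) (b τ)) → ∀ g h : G,
      (∀ τ, g • a τ = a τ ∧ g • b τ = b τ) → (∀ τ, h • a τ = a τ ∧ h • b τ = b τ) →
      D₀.Comm2 (f g) (f h)) (hsol : ZS R f Ω)
    (hV : ∀ (τ : ι) (y : V τ), QQ R (MulAction.stabilizer G y)) : G1 R G := by
  classical
  by_cases hE : ∀ τ, Nonempty (OE (X τ))
  swap
  · obtain ⟨τ, hτ⟩ := not_forall.1 hE
    obtain ⟨y⟩ := (hX τ).1.connected.nonempty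
    rw [G1_iff]
    intro J _ _ A hu
    refine T_of_isUnit_msup _ (hV τ y).g1 (fun i j g _ => ?_) hu
    by_contra h
    obtain ⟨z', h1, -⟩ := tree_closer (hX τ).1 (z := g • y) (a := y) h
    exact hτ ⟨⟨_, _, h1⟩⟩
  have := fun τ => Fact.mk (hX τ)
  let x₀ : ∀ τ, OE (X τ) := fun τ => (hE τ).some
  choose c hc using fun τ => exists_CS (G := G) (X τ)
  have hU' : ZU (fun τ => OE (X τ)) D₀ f := fun x g h hg hh =>
    hU (fun τ => (x τ).a) (fun τ => (x τ).b) (fun τ => (x τ).adj) g h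
      (fun τ => ⟨congrArg OE.a (hg τ), congrArg OE.b (hg τ)⟩)
      fun τ => ⟨congrArg OE.a (hh τ), congrArg OE.b (hh τ)⟩
  have hZ' : ∀ g, D₀.Cz (f g) → ∀ (τ : ι) (y : OE (X τ)), g • y = y := fun g hg τ y =>
    OE.ext (hZ g hg τ _) (hZ g hg τ _)
  have hstab : ∀ (τ : ι) (e : OE (X τ)), G1 R (MulAction.stabilizer G e) := fun τ e =>
    ((hV τ e.a).sub (Subgroup.inclusion (H := MulAction.stabilizer G e)
      fun g hg => congrArg OE.a hg) (Subgroup.inclusion_injective _)).g1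
  have htop := typT_of_posT c hstab (posT_univZ c hU' hZ' hsol)
  let le : Finset ι → (∀ τ, OE (X τ)) → (∀ τ, OE (X τ)) → Prop :=
    fun I x y => ∀ τ ∈ I, (c τ).le (x τ) (y τ)
  have hrefl : ∀ I x, le I x x := fun I x τ _ => (c τ).refl _
  have htrans : ∀ I x y z, le I x y → le I y z → le I x z :=
    fun I x y z h1 h2 τ hτ => (c τ).trans (h1 τ hτ) (h2 τ hτ)
  have hsmul : ∀ I (g : G) x y, le I x y → le I (g • x) (g • y) :=
    fun I g x y h τ hτ => (c τ).smul g (h τ hτ)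
  have main : ∀ I : Finset ι, TypT R G (le I) → TypT R G (le ∅) := by
    intro I
    induction I using Finset.induction_on with
    | empty => exact id
    | insert τ I hτ ih =>
      intro h
      obtain ⟨D, hadj, hH, hne⟩ := exists_TB' (hX τ)
      obtain ⟨e₀⟩ := hne _ _ (x₀ τ).adj
      refine ih (typ_core (TB.splitT_std (fun y => (hV τ y).g1) fun σ => ?_) e₀ (hrefl I)
        (htrans I) (hsmul I) fun J _ _ l o ν hν hn => ?_)
      · exact ((hV τ (D.ep σ false)).sub (Subgroup.inclusion (H := D.C σ) fun g hg => hg false)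
          (Subgroup.inclusion_injective _)).g0
      · refine typT_nil (hrefl _) (htrans _) (hsmul _) h
          (fun j => Function.update (l j) τ ⟨_, _, hadj (o j).1 (o j).2⟩)
          (hν.mono fun i j g hg σ hσ => ?_) hn
        rw [Pi.smul_apply]
        rcases Finset.mem_insert.1 hσ with rfl | hσ
        · rw [Function.update_self, Function.update_self, hc]
          intro z hz
          have := hg.2 (g⁻¹ • z) (by
            rw [hH, ← (hX σ).smul_side g, smul_inv_smul]; exact hz)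
          rwa [smul_inv_smul, hH] at this
        · have hne : σ ≠ τ := fun e => hτ (e ▸ hσ)
          rw [Function.update_of_ne hne, Function.update_of_ne hne]
          exact hg.1 σ hσ
  have h0 := main Finset.univ fun J _ _ l a b h1 h2 ha hb => htop J l a b h1 h2
    (ha.mono fun i j g hg τ => hg τ (Finset.mem_univ τ))
    (hb.mono fun i j g hg τ => hg τ (Finset.mem_univ τ))
  intro J _ _ A B h1 h2
  exact h0 J (fun _ => x₀) A B h1 h2 (fun i j g _ τ hτ => absurd hτ (Finset.notMem_empty τ))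
    fun i j g _ τ hτ => absurd hτ (Finset.notMem_empty τ)

theorem qqZ_trees (D : Geo Q Ω) (Alg : Q → Prop) (k : ℕ) : ∀ (ι : Type) [Fintype ι],
    Fintype.card ι = k → ∀ (G : Type) [Group G] (f : G →* Q) (V : ι → Type)
      [∀ τ, MulAction G (V τ)] (X : ∀ τ, SimpleGraph (V τ)), (∀ τ, TreeAction G (X τ)) →
      (∀ g, D.Cz (f g) → ∀ (τ : ι) (y : V τ), g • y = y) →
      (∀ (x : ∀ τ, V τ) (g : G), (∀ τ, g • x τ = x τ) → Alg (f g)) →
      (∀ (τ : ι) (a b : V τ), (X τ).Adj a b → ∀ g h : G, g • a = a → g • b = b → h • a = a →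
        h • b = b → Alg (f (g * h * g⁻¹ * h⁻¹)) → D.Comm2 (f g) (f h)) →
      ZS R f Ω → (∀ H : Subgroup G, (∀ g ∈ H, Alg (f g)) → QQ R H) → QQ R G := by
  induction k using Nat.strong_induction_on with
  | _ k ih =>
  intro ι _ hk G _ f₀ V _ X hX hZ h2 h3 hsol halg
  rcases isEmpty_or_nonempty ι with hι | hι
  · exact (halg ⊤ fun g _ => h2 (fun τ => isEmptyElim τ) g fun τ => isEmptyElim τ).sub
      Subgroup.topEquiv.symm.toMonoidHom (MulEquiv.injective _)
  intro P _ hP Δ _ f hf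
  classical
  let p : Δ →* G := (MonoidHom.fst _ _).comp f
  let _ : ∀ τ, MulAction Δ (V τ) := fun τ => MulAction.compHom (V τ) p
  have hX' : ∀ τ, TreeAction Δ (X τ) := fun τ =>
    ⟨(hX τ).1, fun g => (hX τ).2.1 (p g), fun g => (hX τ).2.2 (p g)⟩
  have key : ∀ (C : Q → Prop), (∀ H : Subgroup G, (∀ g ∈ H, C (f₀ g)) → QQ R H) →
      ∀ H : Subgroup Δ, (∀ g ∈ H, C (f₀ (p g))) → QQ R H := by
    intro C hC H hH
    refine qq_of_le' hP f hf (H.map p) (hC _ ?_) H fun x hx => ⟨x, hx, rfl⟩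
    rintro _ ⟨a, ha, rfl⟩
    exact hH a ha
  have key' : ∀ (C : Q → Prop), (∀ H : Subgroup G, (∀ g ∈ H, C (f₀ g)) → QQ R H) →
      ∀ (K : Subgroup Δ) (H : Subgroup K), (∀ g ∈ H, C (f₀ (p g.1))) → QQ R H := by
    intro C hC K H hH
    refine (key C hC (H.map K.subtype) ?_).sub
      (H.equivMapOfInjective _ (Subgroup.subtype_injective _)).toMonoidHom (MulEquiv.injective _)
    rintro _ ⟨a, ha, rfl⟩
    exact hH a ha
  have h3' : ∀ (τ : ι) (a b : V τ), (X τ).Adj a b → ∀ g h : Δ, g • a = a → g • b = b →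
      h • a = a → h • b = b → Alg (f₀ (p (g * h * g⁻¹ * h⁻¹))) →
      D.Comm2 (f₀ (p g)) (f₀ (p h)) := fun τ a b hab g h e1 e2 e3 e4 e5 =>
    h3 τ a b hab (p g) (p h) e1 e2 e3 e4 (by simpa only [map_mul, map_inv] using e5)
  refine g1_stepZ X hX' D (f₀.comp p) (fun g => hZ (p g)) (fun a b hab g h hg hh => ?_)
    (fun ω => key (fun q => q • ω = ω) (hsol ω)) fun τ y => ?_
  · obtain ⟨τ⟩ := hι
    refine h3' τ _ _ (hab τ) g h (hg τ).1 (hg τ).2 (hh τ).1 (hh τ).2 (h2 a _ fun σ => ?_)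
    have e1 : g ∈ MulAction.stabilizer Δ (a σ) := (hg σ).1
    have e2 : h ∈ MulAction.stabilizer Δ (a σ) := (hh σ).1
    exact mul_mem (mul_mem (mul_mem e1 e2) (inv_mem e1)) (inv_mem e2)
  have ext : ∀ x : ∀ σ : {σ // σ ≠ τ}, V σ.1, ∃ x' : ∀ σ, V σ, x' τ = y ∧
      ∀ σ (h : σ ≠ τ), x' σ = x ⟨σ, h⟩ := fun x =>
    ⟨fun σ => if h : σ = τ then h ▸ y else x ⟨σ, h⟩, by simp, fun σ h => dif_neg h⟩
  refine ih _ (hk ▸ Fintype.card_subtype_lt (p := fun σ => σ ≠ τ) (x := τ) (by simp))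
    {σ // σ ≠ τ} rfl (MulAction.stabilizer Δ y)
    ((f₀.comp p).comp (MulAction.stabilizer Δ y).subtype) (fun σ => V σ.1) (fun σ => X σ.1)
    (fun σ => ⟨(hX σ.1).1, fun g => (hX' σ.1).2.1 g.1, fun g => (hX' σ.1).2.2 g.1⟩)
    (fun g hg σ => hZ (p g.1) hg σ.1) (fun x g hx => ?_)
    (fun σ a b hab g h => h3' σ.1 a b hab g.1 h.1) (fun ω => key' (fun q => q • ω = ω) (hsol ω) _)
    (key' Alg halg _)
  obtain ⟨x', h1, h4⟩ := ext x
  refine h2 x' (p g.1) fun σ => ?_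
  by_cases h : σ = τ
  · subst h; rw [h1]; exact g.2
  · rw [h4 σ h]; exact hx ⟨σ, h⟩

end Pool.Agent.MP_f7db47_al.PT

end

section

/-!
Subgroups of `GL_2` in characteristic zero.
-/

namespace Pool.Agent.MP_f7db47_al.PT

open Matrix Function

universe v

variable {R : Type v} [Ring R]

lemma ZInt_inj {A B : Type} [CommRing A] [CommRing B] {φ : A →+* B} (h : Injective φ) :
    Injective (GeneralLinearGroup.map (n := Fin 2) φ) := fun _ _ e =>
  Units.ext (Matrix.ext fun i j => h (congrArg (fun g : GL (Fin 2) B => g.val i j) e))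

lemma ZInt_det {A B : Type} [CommRing A] [CommRing B] (φ : A →+* B) (g : GL (Fin 2) A) :
    (GeneralLinearGroup.map φ g).val.det = φ g.val.det := (φ.map_det _).symm

lemma ZInt_tr {A B : Type} [CommRing A] [CommRing B] (φ : A →+* B) (g : GL (Fin 2) A) :
    (GeneralLinearGroup.map φ g).val.trace = φ g.val.trace := (AddMonoidHom.map_trace φ _).symm

lemma ZInt_comm {A : Type} [CommRing A] (a b : GL (Fin 2) A) :
    (a * b * a⁻¹ * b⁻¹).val.det = 1 := by
  have h : GeneralLinearGroup.det (a * b * a⁻¹ * b⁻¹) = 1 := by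
    simp only [map_mul, map_inv]
    rw [mul_comm (GeneralLinearGroup.det a), mul_inv_cancel_right, mul_inv_cancel]
  exact congrArg Units.val h

lemma ZInt_s {A L : Type} [CommRing A] [Field L] (φ : A →+* L) (g : GL (Fin 2) A) :
    (GeneralLinearGroup.map φ g).val.trace ^ 2 / (GeneralLinearGroup.map φ g).val.det =
      φ (g.val.trace ^ 2 * (g⁻¹).val.det) := by
  have h : φ g.val.det * φ (g⁻¹).val.det = 1 := by
    rw [← map_mul, ← det_mul, Units.mul_inv, det_one, map_one]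
  rw [ZInt_det, ZInt_tr, map_mul, map_pow, div_eq_mul_inv, eq_inv_of_mul_eq_one_right h]

theorem qq_gl2_fg {G : Type} [Group G] {A : Type} [CommRing A] [IsDomain A] [CharZero A]
    (hfg : Algebra.FiniteType ℤ A) (f : G →* GL (Fin 2) A)
    (hsol : ∀ (L : Type) [Field L] [CharZero L] (φ : A →+* L), Injective φ →
      ∀ (H : Subgroup G) (n : Matrix (Fin 2) (Fin 2) L), n ≠ 0 → n.trace = 0 →
      (∀ g ∈ H, ∃ x : L, (GeneralLinearGroup.map φ (f g)).val * n =
        x • (n * (GeneralLinearGroup.map φ (f g)).val)) → QQ R H)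
    (halg : ∀ H : Subgroup G,
      (∀ g ∈ H, IsAlgebraic ℤ ((f g).val.trace ^ 2 * ((f g)⁻¹).val.det)) → QQ R H) :
    QQ R G := by
  obtain ⟨L, _, _, φ, m, v, hφ, h1, h2, h3⟩ := exists_vals0 A hfg
  obtain ⟨Ω, _, D, d1, d2, d3⟩ := exists_geo L
  choose π hπ using h1
  choose V act X b1 b2 b3 b4 using fun i => exists_BT0 (v i) (π i) (hπ i)
  let f' : G →* GL (Fin 2) L := (GeneralLinearGroup.map φ).comp f
  let _ : ∀ i, MulAction G (V i) := fun i => MulAction.compHom (V i) f'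
  have hiff : ∀ a : A, IsAlgebraic ℤ (φ a) ↔ IsAlgebraic ℤ a := fun a =>
    isAlgebraic_algHom_iff φ.toIntAlgHom hφ
  refine qqZ_trees D (fun q => IsAlgebraic ℤ (q.val.trace ^ 2 / q.val.det)) _ (Fin m) rfl G f' V X
    (fun i => ⟨(b1 i).1, fun g => (b1 i).2.1 (f' g), fun g => (b1 i).2.2 (f' g)⟩)
    (fun g hg i => ?_) (fun x g hg => ?_) (fun i a b hab g h e1 e2 e3 e4 e5 => d2 _ _ ?_)
    (fun ω H hH => ?_) fun H hH => halg H fun g hg => ?_
  · obtain ⟨c, hc⟩ := d1 _ hg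
    exact b2 i _ c hc
  · change IsAlgebraic ℤ ((GeneralLinearGroup.map φ (f g)).val.trace ^ 2 /
      (GeneralLinearGroup.map φ (f g)).val.det)
    rw [ZInt_s, hiff]
    refine h2 _ fun i => ?_
    rw [← ZInt_s]
    exact b3 i (f' g) (x i) (hg i)
  · simp only [map_mul, map_inv, ZInt_comm, div_one] at e5
    have e6 := e5.of_pow two_pos
    exact sub_eq_zero.1 (h3 i _ (e6.sub (isAlgebraic_natCast 2)) (b4 i _ _ a b hab e1 e2 e3 e4))
  · obtain ⟨n, n1, n2, n3⟩ := d3 ω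
    exact hsol L φ hφ H n n1 n2 fun g hg => n3 _ (hH g hg)
  · rw [← hiff, ← ZInt_s]
    exact hH g hg

lemma ZInt_sub {G : Type} [Group G] {K : Subgroup G} {H : Subgroup K}
    (h : QQ R (H.map K.subtype)) : QQ R H :=
  h.sub (H.equivMapOfInjective _ (Subgroup.subtype_injective _)).toMonoidHom
    (MulEquiv.injective _)

theorem qq_gl2F {G : Type} [Group G] {K : Type} [Field K] [CharZero K] (f : G →* GL (Fin 2) K)
    (hm : ∀ H : Subgroup G, (∀ a ∈ H, ∀ b ∈ H, ∀ c ∈ H, ∀ d ∈ H,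
      Commute (f (a * b * a⁻¹ * b⁻¹)) (f (c * d * c⁻¹ * d⁻¹))) → QQ R H)
    (ha : ∀ H : Subgroup G,
      (∀ g ∈ H, IsAlgebraic ℤ ((f g).val.trace ^ 2 / (f g).val.det)) → QQ R H) : QQ R G := by
  refine qq_loc fun M hM => ?_
  obtain ⟨A₀, f₀, hfg, hf₀⟩ := exists_fg_subring ((Group.fg_iff_subgroup_fg M).2 hM) K
    (f.comp M.subtype)
  have hf : ∀ g : M, f g = GeneralLinearGroup.map A₀.subtype (f₀ g) := fun g => (hf₀ g).symm
  refine qq_gl2_fg hfg f₀ (fun L _ _ φ hφ H n n1 n2 n3 => ZInt_sub (hm _ ?_))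
    fun H hH => ZInt_sub (ha _ ?_)
  · rintro _ ⟨a, ha, rfl⟩ _ ⟨b, hb, rfl⟩ _ ⟨c, hc, rfl⟩ _ ⟨d, hd, rfl⟩
    have h1 := metab_of_norm n1 n2 (n3 a ha) (n3 b hb) (n3 c hc) (n3 d hd)
    simp only [← map_mul, ← map_inv] at h1
    have h2 := (Commute.of_map (ZInt_inj hφ) h1).map (GeneralLinearGroup.map A₀.subtype)
    rw [← hf, ← hf] at h2
    exact h2
  · rintro _ ⟨g, hg, rfl⟩
    have h1 := (isAlgebraic_algHom_iff A₀.subtype.toIntAlgHom A₀.subtype_injective).2 (hH g hg)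
    have h2 := ZInt_s A₀.subtype (f₀ g)
    rw [← hf] at h2
    exact h2 ▸ h1

theorem qq_int (hR : RegularRing R) {H : Type} [Group H] {A : Type} [CommRing A] [IsDomain A]
    [CharZero A] (ev : A →+* ℤ) (f : H →* GL (Fin 2) A) (hf : Injective f)
    (ht : ∀ g : H, IsOfFinOrder g → g = 1)
    (hs : ∀ g : H, (f g).val.det = 1 → ∃ n : ℤ, (f g).val.trace = n) : QQ R H := by
  let L := FractionRing A
  have hφ : Injective (algebraMap A L) := IsFractionRing.injective A L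
  have : CharZero L := charZero_of_injective_algebraMap hφ
  obtain ⟨Ω, _, D, d1, d2, d3⟩ := exists_geo L
  let f' : H →* GL (Fin 2) L := (GeneralLinearGroup.map (algebraMap A L)).comp f
  have hf' : Injective f' := (ZInt_inj hφ).comp hf
  let e : H →* GL (Fin 2) ℤ := (GeneralLinearGroup.map ev).comp f
  have hC : ∀ a ∈ e.ker, ∀ b ∈ e.ker, D.Comm2 (f' a) (f' b) := by
    intro a ha b hb
    have h1 : a * b * a⁻¹ * b⁻¹ ∈ e.ker :=
      mul_mem (mul_mem (mul_mem ha hb) (inv_mem ha)) (inv_mem hb)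
    obtain ⟨n, hn⟩ := hs (a * b * a⁻¹ * b⁻¹) (by simp only [map_mul, map_inv, ZInt_comm])
    have h2 := ZInt_tr ev (f (a * b * a⁻¹ * b⁻¹))
    rw [show GeneralLinearGroup.map ev (f (a * b * a⁻¹ * b⁻¹)) = 1 from h1, hn] at h2
    have h3 : n = 2 := by simpa using h2.symm
    have h4 := ZInt_tr (algebraMap A L) (f (a * b * a⁻¹ * b⁻¹))
    rw [hn, h3] at h4
    refine d2 _ _ ?_
    rw [← map_inv, ← map_inv, ← map_mul, ← map_mul, ← map_mul]
    exact h4.trans (by rw [map_intCast]; simp)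
  have hconj : ∀ h : H, ∀ u ∈ e.ker, h * u * h⁻¹ ∈ e.ker := fun h u hu =>
    (MonoidHom.normal_ker e).conj_mem u hu h
  by_cases hc : ∀ u ∈ e.ker, D.Cz (f' u)
  swap
  · have key : ∃ ω : Ω, ∀ h : H, f' h • ω = ω := by
      by_cases h1 : ∃ u ∈ e.ker, D.Un (f' u)
      · obtain ⟨u, hu, h2⟩ := h1
        refine ⟨D.om (f' u), fun h => ?_⟩
        have h3 := (hC _ (hconj h u hu) u hu).1
        simp only [map_mul, map_inv] at h3
        rw [← D.om_conj _ _ (D.un_ncz _ h2)]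
        exact h3 (D.un_conj _ _ h2) h2
      · push Not at hc
        obtain ⟨u, hu, h2⟩ := hc
        refine ⟨D.om (f' u), fun h => ?_⟩
        have h3 := (hC _ (hconj h u hu) u hu).2
        have h4 := hconj h u hu
        have h5 : ¬ D.Un (f' (h * u * h⁻¹ * u * (h * u * h⁻¹)⁻¹ * u⁻¹)) := fun h5 =>
          h1 ⟨_, mul_mem (mul_mem (mul_mem h4 hu) (inv_mem h4)) (inv_mem hu), h5⟩
        simp only [map_mul, map_inv] at h3 h5
        rw [← D.om_conj _ _ h2]
        exact (h3 (fun h6 => h2 (D.cz_conj _ _ h6)) h2).resolve_left h5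
    obtain ⟨ω, hω⟩ := key
    obtain ⟨n, n1, n2, n3⟩ := d3 ω
    exact qq_norm hR f' hf' ht n1 n2 fun g => n3 _ (hω g)
  obtain ⟨V, _, X, hX, hfin⟩ := exists_topo
  let _ : MulAction H V := MulAction.compHom V e
  have hab : ∀ (y : V), ∀ a ∈ MulAction.stabilizer H y, ∀ b ∈ MulAction.stabilizer H y,
      a * b = b * a := by
    intro y a ha b hb
    have h1 : a * b * a⁻¹ * b⁻¹ ∈ MulAction.stabilizer H y :=
      mul_mem (mul_mem (mul_mem ha hb) (inv_mem ha)) (inv_mem hb)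
    obtain ⟨k, hk, h2⟩ := isOfFinOrder_iff_pow_eq_one.1 (hfin _ y h1)
    obtain ⟨c, h3⟩ := d1 _ (hc ((a * b * a⁻¹ * b⁻¹) ^ k) (by rwa [MonoidHom.mem_ker, map_pow]))
    have h4 : c ^ 2 = 1 := by
      have := congrArg det h3
      rw [map_pow, Units.val_pow_eq_pow_val, det_pow] at this
      simp only [map_mul, map_inv, ZInt_comm] at this
      simpa using this.symm
    have h5 : f' ((a * b * a⁻¹ * b⁻¹) ^ (k * 2)) = f' 1 := by
      rw [pow_mul, map_pow, map_one]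
      refine Units.ext ?_
      rw [Units.val_pow_eq_pow_val, h3, smul_pow, h4, one_pow, one_smul, Units.val_one]
    have h6 := ht _ (isOfFinOrder_iff_pow_eq_one.2 ⟨k * 2, by omega, hf' h5⟩)
    rw [mul_inv_eq_one, mul_inv_eq_iff_eq_mul] at h6
    exact h6
  refine qq_tree_loc hR (X := X) ⟨hX.1, fun g => hX.2.1 (e g), fun g => hX.2.2 (e g)⟩
    (fun y => qq_ab hR (fun a b => Subtype.ext (hab y _ a.2 _ b.2)) fun g hg =>
      Subtype.ext (ht _ ((MulAction.stabilizer H y).subtype.isOfFinOrder hg)))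
    fun a b _ M hM hle => ?_
  have : Group.FG M := (Group.fg_iff_subgroup_fg M).2 hM
  exact Ab_poly (fun x y => Subtype.ext (hab a _ (hle x.2).1 _ (hle y.2).1)) fun g hg =>
    Subtype.ext (ht _ (M.subtype.isOfFinOrder hg))

theorem qq_gl2Z (hR : RegularRing R) {G : Type} [Group G] {A : Type} [CommRing A] [IsDomain A]
    (ev : A →+* ℤ) (hA : ∀ a : A, IsAlgebraic ℤ a → ∃ n : ℤ, a = n) (f : G →* GL (Fin 2) A)
    (hf : Injective f) (ht : ∀ g : G, IsOfFinOrder g → g = 1) : QQ R G := by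
  have : CharZero A := ev.charZero
  refine qq_loc fun M hM => ?_
  obtain ⟨A₀, f₀, hfg, hf₀⟩ := exists_fg_subring ((Group.fg_iff_subgroup_fg M).2 hM) A
    (f.comp M.subtype)
  have hinj : Injective f₀ := fun a b h => Subtype.ext (hf (by
    have := congrArg (GeneralLinearGroup.map A₀.subtype) h
    rwa [hf₀, hf₀] at this))
  have htor : ∀ (H : Subgroup M) (g : H), IsOfFinOrder g → g = 1 := fun H g hg =>
    Subtype.ext (Subtype.ext (ht _ ((M.subtype.comp H.subtype).isOfFinOrder hg)))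
  refine qq_gl2_fg hfg f₀ (fun L _ _ φ hφ H n n1 n2 n3 => ?_) fun H hH => ?_
  · exact qq_norm hR ((GeneralLinearGroup.map φ).comp (f₀.comp H.subtype))
      ((ZInt_inj hφ).comp (hinj.comp H.subtype_injective)) (htor H) n1 n2 fun g => n3 g g.2
  · refine qq_int hR (ev.comp A₀.subtype) (f₀.comp H.subtype) (hinj.comp H.subtype_injective)
      (htor H) fun g hg => ?_
    have h1 := hH g g.2
    have h2 : ((f₀ g)⁻¹).val.det = 1 := by
      have h3 : (f₀ g).val.det * ((f₀ g)⁻¹).val.det = 1 := by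
        rw [← det_mul, Units.mul_inv, det_one]
      rwa [show (f₀ g).val.det = 1 from hg, one_mul] at h3
    rw [h2, mul_one] at h1
    obtain ⟨n, hn⟩ := hA _ ((isAlgebraic_algHom_iff A₀.subtype.toIntAlgHom
      A₀.subtype_injective).2 (h1.of_pow two_pos))
    exact ⟨n, Subtype.ext (by simpa using hn)⟩

end Pool.Agent.MP_f7db47_al.PT

end

section

/-!
The class `X` satisfies the inductive property.
-/

namespace Pool.Agent.MP_f7db47_al

open Matrix Function

universe u v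

variable {R : Type v} [Ring R]

lemma G1_of_k1Onto {G : Type u} [Group G] (h : K1Onto R G) : G1 R G := by
  intro J _ _ A B h1 h2
  let e := (Fintype.equivFin J).symm
  obtain ⟨m, hm⟩ := h _ (A.submatrix e e) (B.submatrix e e)
    (by rw [submatrix_mul_equiv, h1, submatrix_one_equiv])
    (by rw [submatrix_mul_equiv, h2, submatrix_one_equiv])
  exact T_of_submatrix e ⟨Fin m, inferInstance, inferInstance, hm⟩

lemma qq_base {G : Type} [Group G]
    (h : ∀ (P : Type) [Group P], PolyZ P → ∀ L : Subgroup (G × P), K1Onto R L) : QQ R G := by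
  intro P _ hP Δ _ f hf J _ _ A B h1 h2
  let e := (MonoidHom.ofInjective hf).symm
  exact T_of_msup e.toMonoidHom e.injective (G1_of_k1Onto (h P hP f.range))
    (fun _ _ g _ => e.surjective g) (fun _ _ g _ => e.surjective g) h1 h2

theorem ClassX.qq (hR : RegularRing R) {G : Type} [Group G] (hG : ClassX R G) : QQ R G := by
  induction hG with
  | ab G hc ht => exact PT.qq_ab hR hc ht
  | gl2Z A ev hA G ht => exact PT.qq_gl2Z hR ev hA G.subtype G.subtype_injective ht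
  | base G h => exact qq_base h
  | sub G H f hf _ ih => exact ih.sub f hf
  | prod G P _ hP ih => exact ih.prod_poly hP
  | loc G _ ih => exact PT.qq_loc ih
  | tree G V X hX _ hE ih =>
    refine PT.qq_tame hX (F := ∅) (Z := {K | ∃ a b, X.Adj a b ∧
      K = MulAction.stabilizer G a ⊓ MulAction.stabilizer G b}) (fun a b hab => ?_) ?_ ih
      fun _ h => h.elim
    · exact ⟨PUnit, fun _ => MulAction.stabilizer G a ⊓ MulAction.stabilizer G b,
        fun _ _ => False, ⟨fun i => ⟨i, fun _ h => h.elim⟩⟩, fun _ => le_rfl,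
        fun M _ h => ⟨PUnit.unit, h⟩, fun _ => Or.inl ⟨a, b, hab, rfl⟩⟩
    · rintro _ ⟨a, b, hab, rfl⟩
      exact hE a b hab
  | abq G Q hQ f _ ih => exact PT.qq_abq hQ f ih
  | trees G k V X hX ρ hfree _ ih => exact PT.qq_aut X hX ρ hfree ih
  | gl2 G A N hN hA f ht _ ih => exact PT.qq_gl2 hN hA f ht ih
  | gl2F G K f _ _ ih ih' => exact PT.qq_gl2F f ih ih'

end Pool.Agent.MP_f7db47_al

end
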