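import Pool.Agent.Mg.Ff7db47.Gacfef7

section

/-!
Twisted group rings: basic tools and the predicates.
-/

namespace Pool.Agent.MP_f7db47_al.TW

open Function

universe u v

variable {R : Type v} [Ring R]

/-- The action of a product through the first factor. -/
instance prodAct {G P : Type*} [Group G] [Group P] [MulSemiringAction G R] :
    MulSemiringAction (G × P) R := MulSemiringAction.compHom R (MonoidHom.fst G P)

/-- The action of the trivial group. -/
instance punitAct : MulSemiringAction PUnit R where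
  smul _ r := r
  one_smul _ := rfl
  mul_smul _ _ _ := rfl
  smul_zero _ := rfl
  smul_add _ _ _ := rfl
  smul_one _ := rfl
  smul_mul _ _ _ := rfl

@[simp] lemma prod_smul {G P : Type*} [Group G] [Group P] [MulSemiringAction G R] (x : G × P)
    (r : R) : x • r = x.1 • r := rfl

variable (R) in
/-- A homomorphism that is compatible with the actions. -/
class Cp {H G : Type*} [Group H] [Group G] [MulSemiringAction H R] [MulSemiringAction G R]
    (f : H →* G) : Prop where
  eq : ∀ (a : H) (x : R), a • x = f a • x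

section Cp

variable {G H K P Q : Type*} [Group G] [Group H] [Group K] [Group P] [Group Q]
  [MulSemiringAction G R] [MulSemiringAction H R] [MulSemiringAction K R]

instance cpSub (S : Subgroup G) : Cp R S.subtype := ⟨fun _ _ => rfl⟩

instance cpIncl {S S' : Subgroup G} (h : S ≤ S') : Cp R (Subgroup.inclusion h) := ⟨fun _ _ => rfl⟩

instance cpId : Cp R (MonoidHom.id G) := ⟨fun _ _ => rfl⟩

instance cpInl : Cp R (MonoidHom.inl G P) := ⟨fun _ _ => rfl⟩

instance cpFst : Cp R (MonoidHom.fst G P) := ⟨fun _ _ => rfl⟩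

instance cpComp (f : H →* G) (g : K →* H) [h : Cp R f] [h' : Cp R g] : Cp R (f.comp g) :=
  ⟨fun a x => (h'.eq a x).trans (h.eq _ x)⟩

instance cpProdMap (f : H →* G) (g : P →* Q) [h : Cp R f] : Cp R (f.prodMap g) :=
  ⟨fun a x => h.eq a.1 x⟩

instance cpProd (f : H →* G) (g : H →* Q) [h : Cp R f] : Cp R (f.prod g) := ⟨fun a x => h.eq a x⟩

instance cpCod (f : H →* G) (S : Subgroup G) (hS : ∀ x, f x ∈ S) [h : Cp R f] :
    Cp R (f.codRestrict S hS) := ⟨fun a x => h.eq a x⟩

instance cpAssoc : Cp R (MulEquiv.prodAssoc (M := G) (N := P) (P := Q)).toMonoidHom :=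
  ⟨fun _ _ => rfl⟩

variable (R) in
/-- The map of twisted group rings. -/
noncomputable def mapR (f : H →* G) [h : Cp R f] :
    SkewMonoidAlgebra R H →+* SkewMonoidAlgebra R G :=
  SkewMonoidAlgebra.mapDomainRingHom (f := f) h.eq

@[simp] lemma mapR_single (f : H →* G) [Cp R f] (a : H) (r : R) :
    mapR R f (SkewMonoidAlgebra.single a r) = SkewMonoidAlgebra.single (f a) r :=
  SkewMonoidAlgebra.mapDomain_single

end Cp

namespace Sk

variable {G H : Type*}

theorem induction_linear {motive : SkewMonoidAlgebra R G → Prop} (x : SkewMonoidAlgebra R G)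
    (zero : motive 0) (add : ∀ x y : SkewMonoidAlgebra R G, motive x → motive y → motive (x + y))
    (single : ∀ m r, motive (SkewMonoidAlgebra.single m r)) : motive x :=
  SkewMonoidAlgebra.induction_on x zero single add

theorem mapDomainRingHom_apply [Group G] [Group H] [MulSemiringAction G R]
    [MulSemiringAction H R] (f : H →* G) [Cp R f] (x : SkewMonoidAlgebra R H) :
    mapR R f x = SkewMonoidAlgebra.mapDomain f x := rfl

theorem sum_coeff_single (x : SkewMonoidAlgebra R G) :
    x.coeff.sum SkewMonoidAlgebra.single = x := SkewMonoidAlgebra.sum_single x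

theorem singleAddHom_apply (g : G) (r : R) :
    SkewMonoidAlgebra.singleAddHom g r = SkewMonoidAlgebra.single g r := rfl

theorem single_right_injective {g : G} :
    Injective (SkewMonoidAlgebra.single g : R → SkewMonoidAlgebra R G) :=
  SkewMonoidAlgebra.single_injective g

/-- Pull back along an injective map. -/
noncomputable def comapDomain (f : H → G) (hf : Injective f) (x : SkewMonoidAlgebra R G) :
    SkewMonoidAlgebra R H := SkewMonoidAlgebra.ofCoeff (x.coeff.comapDomain f hf.injOn)

@[simp] lemma coeff_comapDomain (f : H → G) (hf : Injective f) (x : SkewMonoidAlgebra R G) :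
    (comapDomain f hf x).coeff = x.coeff.comapDomain f hf.injOn := rfl

/-- Pull back along an injective map, as an additive map. -/
noncomputable def comapDomainAddMonoidHom (f : H → G) (hf : Injective f) :
    SkewMonoidAlgebra R G →+ SkewMonoidAlgebra R H where
  toFun := comapDomain f hf
  map_zero' := by ext; simp
  map_add' x y := by ext; simp

@[simp] lemma comapDomainAddMonoidHom_apply (f : H → G) (hf : Injective f)
    (x : SkewMonoidAlgebra R G) : comapDomainAddMonoidHom f hf x = comapDomain f hf x := rfl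

lemma comapDomain_single_of_not_mem_range {f : H → G} {r : R} {n : G} (hn : n ∉ Set.range f)
    (hf : Injective f) : comapDomain f hf (SkewMonoidAlgebra.single n r) = 0 := by
  ext a
  have : n ≠ f a := fun h => hn ⟨a, h.symm⟩
  simp [Finsupp.single_eq_of_ne' this]

lemma comapDomain_single_map (f : H → G) (hf : Injective f) (m : H) (r : R) :
    comapDomain f hf (SkewMonoidAlgebra.single (f m) r) = SkewMonoidAlgebra.single m r := by
  ext; simp [Finsupp.single_apply_left hf]

lemma mapDomain_comapDomain {f : H → G} {x : SkewMonoidAlgebra R G}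
    (hx : ↑x.coeff.support ⊆ Set.range f) (hf : Injective f) :
    SkewMonoidAlgebra.mapDomain f (comapDomain f hf x) = x := by
  apply SkewMonoidAlgebra.coeff_injective
  rw [SkewMonoidAlgebra.coeff_mapDomain]
  exact Finsupp.mapDomain_comapDomain _ hf _ hx

lemma mapDomain_injective {f : H → G} (hf : Injective f) :
    Injective (SkewMonoidAlgebra.mapDomain (k := R) f) := fun x y h => by
  apply SkewMonoidAlgebra.coeff_injective
  apply Finsupp.mapDomain_injective hf
  rw [← SkewMonoidAlgebra.coeff_mapDomain, ← SkewMonoidAlgebra.coeff_mapDomain, h]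

lemma single_commute [Group G] [MulSemiringAction G R] {g : G} (hg : ∀ x, g * x = x * g)
    (hr : ∀ r : R, g • r = r) (x : SkewMonoidAlgebra R G) :
    SkewMonoidAlgebra.single g 1 * x = x * SkewMonoidAlgebra.single g 1 := by
  induction x using induction_linear with
  | zero => simp
  | add x y hx hy => rw [mul_add, add_mul, hx, hy]
  | single a r => simp [SkewMonoidAlgebra.single_mul_single, hg, hr]

end Sk

variable (R) (G : Type u) [Group G] [MulSemiringAction G R]

variable {G} in
/-- The element `n g` for an integer `n`. -/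
noncomputable def sz (g : G) (n : ℤ) : SkewMonoidAlgebra R G := SkewMonoidAlgebra.single g (n : R)

/-- The generators: elementary matrices, invertible matrices over `R`, and the matrices
`1 - e + e g` with `e` an idempotent integer matrix. -/
inductive Gen (R : Type v) [Ring R] (G : Type u) [Group G] [MulSemiringAction G R] (ι : Type)
    [Fintype ι] [DecidableEq ι] : Matrix ι ι (SkewMonoidAlgebra R G) → Prop
  | elem (i j : ι) (hij : i ≠ j) (c : SkewMonoidAlgebra R G) :
      Gen R G ι (1 + Matrix.single i j c)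
  | base (U V : Matrix ι ι R) (hUV : U * V = 1) (hVU : V * U = 1) :
      Gen R G ι (U.map (SkewMonoidAlgebra.single 1))
  | idem (e : Matrix ι ι ℤ) (he : e * e = e) (g : G) :
      Gen R G ι (1 - e.map (sz R 1) + e.map (sz R g))

/-- The submonoid generated by the generators. -/
noncomputable def HG (ι : Type) [Fintype ι] [DecidableEq ι] :
    Submonoid (Matrix ι ι (SkewMonoidAlgebra R G)) :=
  Submonoid.closure {M | Gen R G ι M}

variable {R G} in
/-- Stably a product of generators. -/
def T {J : Type} [Fintype J] [DecidableEq J] (A : Matrix J J (SkewMonoidAlgebra R G)) : Prop :=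
  ∃ (ι : Type) (_ : Fintype ι) (_ : DecidableEq ι),
    Matrix.fromBlocks A 0 0 (1 : Matrix ι ι (SkewMonoidAlgebra R G)) ∈ HG R G (J ⊕ ι)

/-- All invertible matrices are trivial. -/
def G1 : Prop :=
  ∀ (J : Type) [Fintype J] [DecidableEq J] (A B : Matrix J J (SkewMonoidAlgebra R G)),
    A * B = 1 → B * A = 1 → T A

variable {R G} in
/-- Stably induced idempotent. -/
def SI {J : Type} [Fintype J] [DecidableEq J] (p : Matrix J J (SkewMonoidAlgebra R G)) : Prop :=
  ∃ (ι : Type) (_ : Fintype ι) (_ : DecidableEq ι) (κ : Type) (_ : Fintype κ) (_ : DecidableEq κ)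
    (e : Matrix κ κ ℤ) (X : Matrix (J ⊕ ι) κ (SkewMonoidAlgebra R G))
    (Y : Matrix κ (J ⊕ ι) (SkewMonoidAlgebra R G)),
    e * e = e ∧ X * Y = Matrix.fromBlocks p 0 0 1 ∧ Y * X = e.map (sz R 1)

/-- All idempotent matrices are stably induced. -/
def G0 : Prop :=
  ∀ (J : Type) [Fintype J] [DecidableEq J] (p : Matrix J J (SkewMonoidAlgebra R G)),
    p * p = p → SI p

/-- The free modules of rank one and two are isomorphic. -/
class NR : Prop where
  ex : ∃ (u : Matrix Unit (Unit ⊕ Unit) R) (w : Matrix (Unit ⊕ Unit) Unit R),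
    u * w = 1 ∧ w * u = 1

variable {R G}

@[simp] lemma sz_zero (g : G) : sz R g 0 = 0 := by simp [sz]

lemma sz_one (g : G) : sz R g 1 = SkewMonoidAlgebra.single g 1 := by simp [sz]

@[simp] lemma sz_one_one : sz R (1 : G) 1 = 1 := sz_one 1

lemma sz_cast (n : ℤ) : sz R (1 : G) n = n := (SkewMonoidAlgebra.intCast_def n).symm

lemma sz_mul (g h : G) (a b : ℤ) : sz R g a * sz R h b = sz R (g * h) (a * b) := by
  have : g • (b : R) = b := map_intCast (MulSemiringAction.toRingHom G R g) b
  simp [sz, SkewMonoidAlgebra.single_mul_single, this]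

variable (R) in
/-- The additive map `n ↦ n g`. -/
noncomputable def szA (g : G) : ℤ →+ SkewMonoidAlgebra R G :=
  (SkewMonoidAlgebra.singleAddHom g).comp (Int.castAddHom R)

lemma szA_apply (g : G) (n : ℤ) : szA R g n = sz R g n := rfl

@[simp] lemma mapR_sz {G' : Type*} [Group G'] [MulSemiringAction G' R] (f : G →* G') [Cp R f]
    (g : G) (n : ℤ) : mapR R f (sz R g n) = sz R (f g) n := mapR_single f g _

end Pool.Agent.MP_f7db47_al.TW

end

section

/-!
Twisted coefficients: part Calc.
-/

set_option linter.unusedSectionVars false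

universe u u' v w

section

namespace Pool.Agent.MP_f7db47_al.TW

open Matrix

variable {R : Type v} [Ring R] {G : Type u} [Group G] [MulSemiringAction G R]

section Basic

variable {J K L : Type}

lemma map_single_mul [Fintype K] (A : Matrix J K R) (B : Matrix K L R) (h : G) :
    A.map (SkewMonoidAlgebra.single (1 : G)) * B.map (SkewMonoidAlgebra.single h) =
      (A * B).map (SkewMonoidAlgebra.single h) := by
  ext1 i j
  simp only [Matrix.mul_apply, Matrix.map_apply, SkewMonoidAlgebra.single_mul_single, one_mul,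
    one_smul]
  exact (map_sum (SkewMonoidAlgebra.singleAddHom (k := R) h) _ _).symm

lemma map_sz_mul [Fintype K] (A : Matrix J K ℤ) (B : Matrix K L ℤ) (g h : G) :
    A.map (sz R g) * B.map (sz R h) = (A * B).map (sz R (g * h)) := by
  ext1 i j
  simp only [Matrix.mul_apply, Matrix.map_apply, sz_mul]
  exact (map_sum (szA R (g * h)) _ _).symm

lemma map_sz_one (g : G) [DecidableEq J] :
    (1 : Matrix J J ℤ).map (sz R g) = (1 : Matrix J J R).map (SkewMonoidAlgebra.single g) := by
  ext1 i j
  by_cases h : i = j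
  · subst h; simp [sz_one]
  · simp [Matrix.one_apply_ne h]

lemma map_sz_one_one [DecidableEq J] : (1 : Matrix J J ℤ).map (sz R (1 : G)) = 1 :=
  Matrix.map_one _ (sz_zero _) sz_one_one

lemma map_sz_zero (g : G) : (0 : Matrix J K ℤ).map (sz R g) = 0 := by
  ext1 i j; simp

lemma map_sz_sub (A B : Matrix J K ℤ) (g : G) :
    (A - B).map (sz R g) = A.map (sz R g) - B.map (sz R g) := by
  ext1 i j
  simp only [Matrix.map_apply, Matrix.sub_apply]
  exact map_sub (szA R g) _ _

lemma map_sz_eq (A : Matrix J K ℤ) (g : G) :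
    A.map (sz R g) = (A.map (Int.castRingHom R)).map (SkewMonoidAlgebra.single g) := rfl

lemma map_single_one_one [DecidableEq J] :
    (1 : Matrix J J R).map (SkewMonoidAlgebra.single (1 : G)) = 1 := by
  ext1 i j
  by_cases h : i = j
  · subst h; simp
  · simp [Matrix.one_apply_ne h]

lemma map_single_zero (g : G) : (0 : Matrix J K R).map (SkewMonoidAlgebra.single g) = 0 := by
  ext1 i j; simp

lemma map_single_sub (A B : Matrix J K R) (g : G) :
    (A - B).map (SkewMonoidAlgebra.single g) =
      A.map (SkewMonoidAlgebra.single g) - B.map (SkewMonoidAlgebra.single g) := by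
  ext1 i j
  simp only [Matrix.map_apply, Matrix.sub_apply]
  exact map_sub (SkewMonoidAlgebra.singleAddHom (k := R) g) _ _

lemma idem_mul [Fintype J] [DecidableEq J] (e : Matrix J J ℤ) (he : e * e = e) (g h : G) :
    (1 - e.map (sz R (1 : G)) + e.map (sz R g)) * (1 - e.map (sz R 1) + e.map (sz R h)) =
      1 - e.map (sz R 1) + e.map (sz R (g * h)) := by
  simp only [mul_add, add_mul, mul_sub, sub_mul, one_mul, mul_one, map_sz_mul, he]
  abel

end Basic

section HGlemmas

variable {J K : Type} [Fintype J] [DecidableEq J] [Fintype K] [DecidableEq K]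

lemma gen_mem {M : Matrix J J (SkewMonoidAlgebra R G)} (h : Gen R G J M) : M ∈ HG R G J :=
  Submonoid.subset_closure h

lemma gen_inv {M : Matrix J J (SkewMonoidAlgebra R G)} (h : Gen R G J M) :
    ∃ N, Gen R G J N ∧ M * N = 1 ∧ N * M = 1 := by
  cases h with
  | elem i j hij c =>
    have key : ∀ c d : SkewMonoidAlgebra R G, c + d = 0 →
        (1 + single i j c) * (1 + single i j d) = (1 : Matrix J J _) := by
      intro c d hcd
      simp only [mul_add, add_mul, one_mul, mul_one, single_mul_single_of_ne _ _ _ _ hij.symm,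
        add_zero]
      rw [add_assoc, ← single_add, hcd, single_zero, add_zero]
    exact ⟨_, Gen.elem i j hij (-c), key _ _ (add_neg_cancel c), key _ _ (neg_add_cancel c)⟩
  | base U V hUV hVU =>
    exact ⟨_, Gen.base V U hVU hUV, by rw [map_single_mul, hUV, map_single_one_one],
      by rw [map_single_mul, hVU, map_single_one_one]⟩
  | idem e he g =>
    exact ⟨_, Gen.idem e he g⁻¹, by rw [idem_mul e he]; simp, by rw [idem_mul e he]; simp⟩

lemma HG_inv {M : Matrix J J (SkewMonoidAlgebra R G)} (h : M ∈ HG R G J) :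
    ∃ N ∈ HG R G J, M * N = 1 ∧ N * M = 1 := by
  induction h using Submonoid.closure_induction with
  | mem x hx =>
    obtain ⟨N, h1, h2⟩ := gen_inv hx
    exact ⟨N, gen_mem h1, h2⟩
  | one => exact ⟨1, one_mem _, one_mul _, one_mul _⟩
  | mul x y _ _ hx hy =>
    obtain ⟨N, h1, h2, h3⟩ := hx
    obtain ⟨N', h1', h2', h3'⟩ := hy
    refine ⟨N' * N, mul_mem h1' h1, ?_, ?_⟩
    · rw [mul_assoc, ← mul_assoc y, h2', one_mul, h2]
    · rw [mul_assoc, ← mul_assoc N, h3, one_mul, h3']

lemma HG_submatrix (e : K ≃ J) {M : Matrix J J (SkewMonoidAlgebra R G)} (h : M ∈ HG R G J) :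
    M.submatrix e e ∈ HG R G K := by
  induction h using Submonoid.closure_induction with
  | mem x hx =>
    apply gen_mem
    cases hx with
    | elem i j hij c =>
      have : (1 + single i j c : Matrix J J _).submatrix e e =
          1 + single (e.symm i) (e.symm j) c := by
        rw [submatrix_add, Pi.add_apply, Pi.add_apply, submatrix_one_equiv,
          submatrix_single_equiv]
      rw [this]
      exact Gen.elem _ _ (fun h => hij (e.symm.injective h)) c
    | base U V hUV hVU =>
      exact Gen.base (U.submatrix e e) (V.submatrix e e)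
        (by rw [submatrix_mul_equiv, hUV, submatrix_one_equiv])
        (by rw [submatrix_mul_equiv, hVU, submatrix_one_equiv])
    | idem p hp g =>
      have : (1 - p.map (sz R (1 : G)) +
          p.map (sz R g)).submatrix e e =
          1 - (p.submatrix e e).map (sz R (1 : G)) +
          (p.submatrix e e).map (sz R g) := by
        ext1 i j
        simp [Matrix.one_apply]
      rw [this]
      exact Gen.idem _ (by rw [submatrix_mul_equiv, hp]) g
  | one => rw [submatrix_one_equiv]; exact one_mem _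
  | mul x y _ _ hx hy => rw [← submatrix_mul_equiv x y e e e]; exact mul_mem hx hy

lemma HG_stab {M : Matrix J J (SkewMonoidAlgebra R G)} (h : M ∈ HG R G J) :
    fromBlocks M 0 0 (1 : Matrix K K _) ∈ HG R G (J ⊕ K) := by
  induction h using Submonoid.closure_induction with
  | mem x hx =>
    apply gen_mem
    cases hx with
    | elem i j hij c =>
      have : fromBlocks (1 + single i j c : Matrix J J (SkewMonoidAlgebra R G)) 0 0
          (1 : Matrix K K _) = 1 + single (Sum.inl i) (Sum.inl j) c := by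
        ext1 a b
        rcases a with a | a <;> rcases b with b | b <;>
          simp [Matrix.one_apply, Matrix.single_apply]
      rw [this]
      exact Gen.elem _ _ (fun h => hij (Sum.inl_injective h)) c
    | base U V hUV hVU =>
      have : fromBlocks (U.map (SkewMonoidAlgebra.single (1 : G))) 0 0 (1 : Matrix K K _) =
          (fromBlocks U 0 0 1).map (SkewMonoidAlgebra.single (1 : G)) := by
        rw [fromBlocks_map, map_single_zero, map_single_zero, map_single_one_one]
      rw [this]
      exact Gen.base _ (fromBlocks V 0 0 1) (by simp [fromBlocks_multiply, hUV])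
        (by simp [fromBlocks_multiply, hVU])
    | idem p hp g =>
      have : fromBlocks (1 - p.map (sz R (1 : G)) +
          p.map (sz R g)) 0 0 (1 : Matrix K K _) =
          1 - (fromBlocks p 0 0 0).map (sz R (1 : G)) +
          (fromBlocks p 0 0 0).map (sz R g) := by
        ext1 a b
        rcases a with a | a <;> rcases b with b | b <;> simp [Matrix.one_apply]
      rw [this]
      exact Gen.idem _ (by simp [fromBlocks_multiply, hp]) g
  | one => rw [fromBlocks_one]; exact one_mem _
  | mul x y _ _ hx hy =>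
    have := mul_mem hx hy
    simpa [fromBlocks_multiply] using this

lemma HG_upper (X : Matrix J K (SkewMonoidAlgebra R G)) :
    fromBlocks 1 X 0 1 ∈ HG R G (J ⊕ K) := by
  induction X using Matrix.induction_on' with
  | h_zero => rw [fromBlocks_one]; exact one_mem _
  | h_add X Y hX hY =>
    have := mul_mem hX hY
    simpa [fromBlocks_multiply, add_comm] using this
  | h_std_basis i j c =>
    have : fromBlocks (1 : Matrix J J (SkewMonoidAlgebra R G)) (single i j c) 0
        (1 : Matrix K K _) = 1 + single (Sum.inl i) (Sum.inr j) c := by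
      ext1 a b
      rcases a with a | a <;> rcases b with b | b <;>
        simp [Matrix.one_apply, Matrix.single_apply]
    rw [this]
    exact gen_mem (Gen.elem _ _ Sum.inl_ne_inr c)

lemma HG_lower (X : Matrix K J (SkewMonoidAlgebra R G)) :
    fromBlocks 1 0 X 1 ∈ HG R G (J ⊕ K) := by
  have := HG_submatrix (Equiv.sumComm J K) (HG_upper (J := K) (K := J) X)
  simpa using this

lemma HG_map {G' : Type*} [Group G'] [MulSemiringAction G' R] (f : G →* G') [Cp R f] {M : Matrix J J (SkewMonoidAlgebra R G)}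
    (h : M ∈ HG R G J) : M.map (mapR R f) ∈ HG R G' J := by
  induction h using Submonoid.closure_induction with
  | mem x hx =>
    apply gen_mem
    cases hx with
    | elem i j hij c =>
      have : (1 + single i j c : Matrix J J _).map (mapR R f) =
          1 + single i j (mapR R f c) := by
        rw [Matrix.map_add _ (map_add _), Matrix.map_one _ (map_zero _) (map_one _),
          Matrix.map_single]
      rw [this]
      exact Gen.elem _ _ hij _
    | base U V hUV hVU =>
      have : (U.map (SkewMonoidAlgebra.single (1 : G))).map (mapR R f) =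
          U.map (SkewMonoidAlgebra.single (1 : G')) := by
        ext1 a b; simp
      rw [this]
      exact Gen.base U V hUV hVU
    | idem p hp g =>
      have : (1 - p.map (sz R (1 : G)) +
          p.map (sz R g)).map (mapR R f) =
          1 - p.map (sz R (1 : G')) + p.map (sz R (f g)) := by
        rw [Matrix.map_add _ (map_add _), Matrix.map_sub _ (map_sub _),
          Matrix.map_one _ (map_zero _) (map_one _)]
        congr 1
        · congr 1; ext1 a b; simp
        · ext1 a b; simp
      rw [this]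
      exact Gen.idem p hp _
  | one => rw [Matrix.map_one _ (map_zero _) (map_one _)]; exact one_mem _
  | mul x y _ _ hx hy => rw [Matrix.map_mul]; exact mul_mem hx hy

end HGlemmas

section Tlemmas

variable {J K : Type} [Fintype J] [DecidableEq J] [Fintype K] [DecidableEq K]

lemma T_of_mem {M : Matrix J J (SkewMonoidAlgebra R G)} (h : M ∈ HG R G J) : T M :=
  ⟨Empty, inferInstance, inferInstance, HG_stab h⟩

lemma T_gen {M : Matrix J J (SkewMonoidAlgebra R G)} (h : Gen R G J M) : T M := T_of_mem (gen_mem h)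

lemma T_one : T (1 : Matrix J J (SkewMonoidAlgebra R G)) := T_of_mem (one_mem _)

lemma stab_left {ι κ : Type} [Fintype ι] [DecidableEq ι] [Fintype κ] [DecidableEq κ]
    {A : Matrix J J (SkewMonoidAlgebra R G)}
    (h : fromBlocks A 0 0 (1 : Matrix ι ι _) ∈ HG R G (J ⊕ ι)) :
    fromBlocks A 0 0 (1 : Matrix (ι ⊕ κ) (ι ⊕ κ) _) ∈ HG R G (J ⊕ (ι ⊕ κ)) := by
  have := HG_submatrix (Equiv.sumAssoc J ι κ).symm (HG_stab (K := κ) h)
  convert this using 1
  ext1 a b
  rcases a with a | a | a <;> rcases b with b | b | b <;> simp [Matrix.one_apply]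

lemma stab_equiv {ι κ : Type} [Fintype ι] [DecidableEq ι] [Fintype κ] [DecidableEq κ]
    (e : κ ≃ ι) {A : Matrix J J (SkewMonoidAlgebra R G)}
    (h : fromBlocks A 0 0 (1 : Matrix ι ι _) ∈ HG R G (J ⊕ ι)) :
    fromBlocks A 0 0 (1 : Matrix κ κ _) ∈ HG R G (J ⊕ κ) := by
  have := HG_submatrix (Equiv.sumCongr (Equiv.refl J) e) h
  convert this using 1
  ext1 a b
  rcases a with a | a <;> rcases b with b | b <;> simp [Matrix.one_apply]

lemma T_mul {A B : Matrix J J (SkewMonoidAlgebra R G)} (hA : T A) (hB : T B) : T (A * B) := by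
  obtain ⟨ι, _, _, hA⟩ := hA
  obtain ⟨κ, _, _, hB⟩ := hB
  have := mul_mem (stab_left (κ := κ) hA) (stab_equiv (Equiv.sumComm ι κ) (stab_left hB))
  exact ⟨ι ⊕ κ, inferInstance, inferInstance, by simpa [fromBlocks_multiply] using this⟩

lemma T_unit {A : Matrix J J (SkewMonoidAlgebra R G)} (hA : T A) :
    ∃ B, T B ∧ A * B = 1 ∧ B * A = 1 := by
  obtain ⟨ι, _, _, hA⟩ := hA
  obtain ⟨N, hN, h1, h2⟩ := HG_inv hA
  rw [← fromBlocks_toBlocks N] at hN h1 h2
  rw [fromBlocks_multiply, ← fromBlocks_one, fromBlocks_inj] at h1 h2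
  simp only [Matrix.zero_mul, Matrix.mul_zero, add_zero, zero_add, Matrix.one_mul,
    Matrix.mul_one] at h1 h2
  refine ⟨N.toBlocks₁₁, ⟨ι, inferInstance, inferInstance, ?_⟩, h1.1, h2.1⟩
  rw [h2.2.1, h1.2.2.1, h1.2.2.2] at hN
  exact hN

lemma T_inv {A B : Matrix J J (SkewMonoidAlgebra R G)} (hA : T A) (h : A * B = 1) : T B := by
  obtain ⟨C, hC, -, h2⟩ := T_unit hA
  have : B = C := by rw [← one_mul B, ← h2, mul_assoc, h, mul_one]
  rwa [this]

lemma T_cancel_left {A B : Matrix J J (SkewMonoidAlgebra R G)} (hA : T A) (h : T (A * B)) : T B := by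
  obtain ⟨C, hC, -, h2⟩ := T_unit hA
  have := T_mul hC h
  rwa [← mul_assoc, h2, one_mul] at this

lemma T_cancel_right {A B : Matrix J J (SkewMonoidAlgebra R G)} (hB : T B) (h : T (A * B)) : T A := by
  obtain ⟨C, hC, h1, -⟩ := T_unit hB
  have := T_mul h hC
  rwa [mul_assoc, h1, mul_one] at this

lemma T_pow {A : Matrix J J (SkewMonoidAlgebra R G)} (hA : T A) (n : ℕ) : T (A ^ n) := by
  induction n with
  | zero => rw [pow_zero]; exact T_one
  | succ n ih => rw [pow_succ]; exact T_mul ih hA

lemma T_submatrix (e : K ≃ J) {A : Matrix J J (SkewMonoidAlgebra R G)} (hA : T A) :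
    T (A.submatrix e e) := by
  obtain ⟨ι, _, _, hA⟩ := hA
  refine ⟨ι, inferInstance, inferInstance, ?_⟩
  have := HG_submatrix (Equiv.sumCongr e (Equiv.refl ι)) hA
  convert this using 1
  ext1 a b
  rcases a with a | a <;> rcases b with b | b <;> simp [Matrix.one_apply]

lemma T_of_submatrix (e : K ≃ J) {A : Matrix J J (SkewMonoidAlgebra R G)}
    (hA : T (A.submatrix e e)) : T A := by
  simpa using T_submatrix e.symm hA

lemma T_stab {A : Matrix J J (SkewMonoidAlgebra R G)} (hA : T A) :
    T (fromBlocks A 0 0 (1 : Matrix K K _)) := by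
  obtain ⟨ι, _, _, hA⟩ := hA
  refine ⟨ι, inferInstance, inferInstance, ?_⟩
  have := HG_submatrix (Equiv.sumAssoc J K ι)
    (stab_equiv (Equiv.sumComm K ι) (stab_left (κ := K) hA))
  convert this using 1
  ext1 a b
  rcases a with (a | a) | a <;> rcases b with (b | b) | b <;> simp [Matrix.one_apply]

lemma T_of_stab {A : Matrix J J (SkewMonoidAlgebra R G)}
    (hA : T (fromBlocks A 0 0 (1 : Matrix K K _))) : T A := by
  obtain ⟨ι, _, _, hA⟩ := hA
  refine ⟨K ⊕ ι, inferInstance, inferInstance, ?_⟩
  have := HG_submatrix (Equiv.sumAssoc J K ι).symm hA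
  convert this using 1
  ext1 a b
  rcases a with a | a | a <;> rcases b with b | b | b <;> simp [Matrix.one_apply]

lemma T_stab' {A : Matrix J J (SkewMonoidAlgebra R G)} (hA : T A) :
    T (fromBlocks (1 : Matrix K K _) 0 0 A) := by
  simpa using T_submatrix (Equiv.sumComm K J) (T_stab (K := K) hA)

lemma T_of_stab' {A : Matrix J J (SkewMonoidAlgebra R G)}
    (hA : T (fromBlocks (1 : Matrix K K _) 0 0 A)) : T A := by
  apply T_of_stab (K := K)
  simpa using T_submatrix (Equiv.sumComm J K) hA

lemma T_upper (X : Matrix J K (SkewMonoidAlgebra R G)) : T (fromBlocks 1 X 0 1) :=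
  T_of_mem (HG_upper X)

lemma T_lower (X : Matrix K J (SkewMonoidAlgebra R G)) : T (fromBlocks 1 0 X 1) :=
  T_of_mem (HG_lower X)

/-- Conjugation invariance, with rectangular conjugating matrices. -/
lemma T_conj {A : Matrix K K (SkewMonoidAlgebra R G)} (X : Matrix J K (SkewMonoidAlgebra R G))
    (Y : Matrix K J (SkewMonoidAlgebra R G)) (hXY : X * Y = 1) (hYX : Y * X = 1) (hA : T A) :
    T (X * A * Y) := by
  have hW : ∀ (X : Matrix J K (SkewMonoidAlgebra R G)) (Y : Matrix K J (SkewMonoidAlgebra R G)),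
      X * Y = 1 → Y * X = 1 → T (fromBlocks 0 X (-Y) 0) := by
    intro X Y hXY hYX
    have := T_mul (T_mul (T_upper X) (T_lower (-Y))) (T_upper X)
    simpa [fromBlocks_multiply, hXY, hYX] using this
  have h1 := hW X Y hXY hYX
  have h2 := hW (-X) (-Y) (by simpa using hXY) (by simpa using hYX)
  have := T_mul (T_mul h1 (T_stab' (K := J) hA)) h2
  apply T_of_stab (K := K)
  simpa [fromBlocks_multiply, hYX] using this

/-- `1 - X Y` and `1 - Y X` are simultaneously trivial. -/
lemma T_one_sub_comm (X : Matrix J K (SkewMonoidAlgebra R G)) (Y : Matrix K J (SkewMonoidAlgebra R G))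
    (h : T (1 - Y * X)) : T (1 - X * Y) := by
  have := T_mul (T_mul (T_mul (T_mul (T_upper (-X)) (T_lower Y)) (T_stab' (K := J) h))
    (T_upper X)) (T_lower (-Y))
  apply T_of_stab (K := K)
  convert this using 1
  simp only [fromBlocks_multiply, fromBlocks_inj, Matrix.one_mul, Matrix.mul_one,
    Matrix.zero_mul, Matrix.mul_zero, add_zero, zero_add, Matrix.neg_mul, Matrix.mul_neg,
    Matrix.add_mul, Matrix.mul_sub, Matrix.sub_mul, Matrix.mul_assoc]
  refine ⟨?_, ?_, ?_, ?_⟩ <;> abel

lemma T_upper_block {A : Matrix J J (SkewMonoidAlgebra R G)} {D : Matrix K K (SkewMonoidAlgebra R G)}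
    (B : Matrix J K (SkewMonoidAlgebra R G)) (hA : T A) (hD : T D) : T (fromBlocks A B 0 D) := by
  have := T_mul (T_mul (T_stab' (K := J) hD) (T_upper B)) (T_stab (K := K) hA)
  simpa [fromBlocks_multiply] using this

lemma T_lower_block {A : Matrix J J (SkewMonoidAlgebra R G)} {D : Matrix K K (SkewMonoidAlgebra R G)}
    (C : Matrix K J (SkewMonoidAlgebra R G)) (hA : T A) (hD : T D) : T (fromBlocks A 0 C D) := by
  simpa using T_submatrix (Equiv.sumComm J K) (T_upper_block C hD hA)

lemma T_upper_block_right {A : Matrix J J (SkewMonoidAlgebra R G)}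
    {D : Matrix K K (SkewMonoidAlgebra R G)} {B : Matrix J K (SkewMonoidAlgebra R G)}
    (h : T (fromBlocks A B 0 D)) (hA : T A) : T D := by
  apply T_of_stab' (K := J)
  apply T_cancel_right (T_mul (T_upper B) (T_stab (K := K) hA))
  simpa [fromBlocks_multiply] using h

lemma T_upper_block_left {A : Matrix J J (SkewMonoidAlgebra R G)}
    {D : Matrix K K (SkewMonoidAlgebra R G)} {B : Matrix J K (SkewMonoidAlgebra R G)}
    (h : T (fromBlocks A B 0 D)) (hD : T D) : T A := by
  apply T_of_stab (K := K)
  apply T_cancel_left (T_mul (T_stab' (K := J) hD) (T_upper B))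
  simpa [fromBlocks_multiply] using h

lemma T_lower_block_right {A : Matrix J J (SkewMonoidAlgebra R G)}
    {D : Matrix K K (SkewMonoidAlgebra R G)} {C : Matrix K J (SkewMonoidAlgebra R G)}
    (h : T (fromBlocks A 0 C D)) (hA : T A) : T D := by
  have := T_submatrix (Equiv.sumComm K J) h
  exact T_upper_block_left (B := C) (by simpa using this) hA

lemma T_lower_block_left {A : Matrix J J (SkewMonoidAlgebra R G)}
    {D : Matrix K K (SkewMonoidAlgebra R G)} {C : Matrix K J (SkewMonoidAlgebra R G)}
    (h : T (fromBlocks A 0 C D)) (hD : T D) : T A := by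
  have := T_submatrix (Equiv.sumComm K J) h
  exact T_upper_block_right (B := C) (by simpa using this) hD

lemma T_map {G' : Type*} [Group G'] [MulSemiringAction G' R] (f : G →* G') [Cp R f] {A : Matrix J J (SkewMonoidAlgebra R G)}
    (hA : T A) : T (A.map (mapR R f)) := by
  obtain ⟨ι, _, _, hA⟩ := hA
  refine ⟨ι, inferInstance, inferInstance, ?_⟩
  have := HG_map f hA
  rwa [fromBlocks_map, Matrix.map_zero _ (map_zero _), Matrix.map_zero _ (map_zero _),
    Matrix.map_one _ (map_zero _) (map_one _)] at this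

lemma T_scalar (g : G) :
    T ((1 : Matrix J J R).map (SkewMonoidAlgebra.single g)) := by
  have := T_gen (Gen.idem (R := R) (1 : Matrix J J ℤ) (one_mul _) g)
  rwa [map_sz_one_one, sub_self, zero_add, map_sz_one] at this

end Tlemmas

end Pool.Agent.MP_f7db47_al.TW

end

end

section

/-!
Twisted coefficients: part Pr.
-/

set_option linter.unusedSectionVars false

universe u u' v w

section

namespace Pool.Agent.MP_f7db47_al.TW

open Matrix

variable {R : Type v} [Ring R] {G : Type u} [Group G] [MulSemiringAction G R]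

open Classical in
/-- The part of `x` supported on `S`. -/
noncomputable def pr (S : Set G) : SkewMonoidAlgebra R G →+ SkewMonoidAlgebra R G where
  toFun x := SkewMonoidAlgebra.ofCoeff (x.coeff.filter (· ∈ S))
  map_zero' := by ext; simp [Finsupp.filter_zero]
  map_add' x y := by ext g; simp [Finsupp.filter_add]

open Classical in
lemma coeff_pr (S : Set G) (x : SkewMonoidAlgebra R G) (g : G) :
    (pr S x).coeff g = if g ∈ S then x.coeff g else 0 := by
  simp [pr, Finsupp.filter_apply]

lemma pr_single_of_mem {S : Set G} {g : G} (hg : g ∈ S) (r : R) :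
    pr S (SkewMonoidAlgebra.single g r) = SkewMonoidAlgebra.single g r := by
  classical
  ext k
  rw [coeff_pr]
  split_ifs with h
  · rfl
  · rw [SkewMonoidAlgebra.coeff_single, Finsupp.single_apply, if_neg]
    rintro rfl; exact h hg

lemma pr_single_of_not_mem {S : Set G} {g : G} (hg : g ∉ S) (r : R) :
    pr S (SkewMonoidAlgebra.single g r) = 0 := by
  classical
  ext k
  rw [coeff_pr]
  split_ifs with h
  · rw [SkewMonoidAlgebra.coeff_single, Finsupp.single_apply, if_neg]
    · rfl
    · rintro rfl; exact hg h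
  · rfl

/-- `x` is supported in `S`. -/
def Sup (S : Set G) (x : SkewMonoidAlgebra R G) : Prop := ∀ g, x.coeff g ≠ 0 → g ∈ S

lemma Sup.pr_eq {S : Set G} {x : SkewMonoidAlgebra R G} (h : Sup S x) : pr S x = x := by
  ext g
  rw [coeff_pr]
  split_ifs with hg
  · rfl
  · by_contra h0
    exact hg (h g (Ne.symm h0))

lemma sup_pr (S : Set G) (x : SkewMonoidAlgebra R G) : Sup S (pr S x) := by
  intro g hg
  rw [coeff_pr] at hg
  by_contra h
  exact hg (if_neg h)

lemma Sup.pr {S S' : Set G} {x : SkewMonoidAlgebra R G} (h : Sup S x) : Sup S (pr S' x) := by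
  intro g hg
  rw [coeff_pr] at hg
  apply h g
  intro h0
  exact hg (by simp [h0])

lemma pr_pr (S S' : Set G) (x : SkewMonoidAlgebra R G) : pr S (pr S' x) = pr (S ∩ S') x := by
  ext g
  simp only [coeff_pr, Set.mem_inter_iff]
  by_cases h1 : g ∈ S <;> by_cases h2 : g ∈ S' <;> simp [h1, h2]

lemma pr_univ (x : SkewMonoidAlgebra R G) : pr Set.univ x = x := by
  ext g; simp [coeff_pr]

lemma pr_congr {S S' U : Set G} {x : SkewMonoidAlgebra R G} (hx : Sup U x)
    (h : ∀ g ∈ U, g ∈ S ↔ g ∈ S') : pr S x = pr S' x := by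
  ext g
  simp only [coeff_pr]
  by_cases h0 : x.coeff g = 0
  · simp [h0]
  · by_cases h1 : g ∈ S
    · rw [if_pos h1, if_pos ((h g (hx g h0)).1 h1)]
    · rw [if_neg h1, if_neg fun h2 => h1 ((h g (hx g h0)).2 h2)]

lemma Sup.pr_eq_zero {S U : Set G} {x : SkewMonoidAlgebra R G} (hx : Sup U x)
    (h : ∀ g ∈ U, g ∉ S) : Pool.Agent.MP_f7db47_al.TW.pr S x = 0 := by
  ext g
  simp only [coeff_pr]
  by_cases h0 : x.coeff g = 0
  · simp [h0]
  · simp [h g (hx g h0)]

lemma pr_add_pr_compl (S : Set G) (x : SkewMonoidAlgebra R G) : pr S x + pr Sᶜ x = x := by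
  ext g
  simp only [SkewMonoidAlgebra.coeff_add, Finsupp.add_apply, coeff_pr, Set.mem_compl_iff]
  by_cases h : g ∈ S <;> simp [h]

lemma Sup.mono {S S' : Set G} {x : SkewMonoidAlgebra R G} (hx : Sup S x) (h : S ⊆ S') : Sup S' x :=
  fun g hg => h (hx g hg)

lemma sup_univ (x : SkewMonoidAlgebra R G) : Sup Set.univ x := fun _ _ => trivial

lemma sup_zero (S : Set G) : Sup S (0 : SkewMonoidAlgebra R G) := fun g hg => absurd (by simp) hg

lemma Sup.eq_zero {S S' : Set G} {x : SkewMonoidAlgebra R G} (h : Sup S x) (h' : Sup S' x)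
    (hd : ∀ g ∈ S, g ∉ S') : x = 0 := by
  ext g
  by_contra h0
  exact hd g (h g h0) (h' g h0)

lemma Sup.add {S : Set G} {x y : SkewMonoidAlgebra R G} (hx : Sup S x) (hy : Sup S y) :
    Sup S (x + y) := by
  intro g hg
  by_contra h
  have h1 : x.coeff g = 0 := by by_contra h1; exact h (hx g h1)
  have h2 : y.coeff g = 0 := by by_contra h2; exact h (hy g h2)
  exact hg (by simp [h1, h2])

lemma Sup.neg {S : Set G} {x : SkewMonoidAlgebra R G} (hx : Sup S x) : Sup S (-x) := by
  intro g hg
  exact hx g (by simpa using hg)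

lemma Sup.sub {S : Set G} {x y : SkewMonoidAlgebra R G} (hx : Sup S x) (hy : Sup S y) :
    Sup S (x - y) := by
  rw [sub_eq_add_neg]; exact hx.add hy.neg

lemma sup_sum {S : Set G} {ι : Type*} (s : Finset ι) (f : ι → SkewMonoidAlgebra R G)
    (h : ∀ i ∈ s, Sup S (f i)) : Sup S (∑ i ∈ s, f i) :=
  Finset.sum_induction f (Sup S) (fun _ _ => Sup.add) (sup_zero S) h

lemma sup_single {S : Set G} {g : G} (hg : g ∈ S) (r : R) :
    Sup S (SkewMonoidAlgebra.single g r) := by
  classical
  intro k hk
  rw [SkewMonoidAlgebra.coeff_single, Finsupp.single_apply] at hk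
  by_cases h : g = k
  · exact h ▸ hg
  · exact absurd (if_neg h) hk

lemma sup_one {S : Set G} (hg : (1 : G) ∈ S) : Sup S (1 : SkewMonoidAlgebra R G) :=
  sup_single hg 1

lemma Sup.induction {S : Set G} {P : SkewMonoidAlgebra R G → Prop} {x : SkewMonoidAlgebra R G}
    (hx : Sup S x) (h0 : P 0) (hadd : ∀ a b, P a → P b → P (a + b))
    (hs : ∀ g ∈ S, ∀ r, P (SkewMonoidAlgebra.single g r)) : P x := by
  rw [← Sk.sum_coeff_single x, Finsupp.sum]
  exact Finset.sum_induction _ P hadd h0
    fun g hg => hs g (hx g (Finsupp.mem_support_iff.1 hg)) _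

lemma Sup.mul {S S' U : Set G} {x y : SkewMonoidAlgebra R G} (hx : Sup S x) (hy : Sup S' y)
    (h : ∀ a ∈ S, ∀ b ∈ S', a * b ∈ U) : Sup U (x * y) := by
  refine hx.induction (P := fun x => Sup U (x * y)) (by simpa using sup_zero U)
    (fun a b ha hb => by simpa [add_mul] using ha.add hb) fun g hg r => ?_
  refine hy.induction (P := fun y => Sup U (SkewMonoidAlgebra.single g r * y))
    (by simpa using sup_zero U)
    (fun a b ha hb => by simpa [mul_add] using ha.add hb) fun k hk s => ?_
  rw [SkewMonoidAlgebra.single_mul_single]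
  exact sup_single (h g hg k hk) _

lemma pr_mul_right {S S₁ U : Set G} (x : SkewMonoidAlgebra R G) {y : SkewMonoidAlgebra R G}
    (hy : Sup U y) (h : ∀ g, ∀ k ∈ U, g * k ∈ S ↔ g ∈ S₁) : pr S (x * y) = pr S₁ x * y := by
  conv_lhs => rw [← pr_add_pr_compl S₁ x, add_mul, map_add]
  rw [((sup_pr S₁ x).mul hy fun a ha b hb => (h a b hb).2 ha).pr_eq,
    ((sup_pr S₁ᶜ x).mul (U := Sᶜ) hy fun a ha b hb hab => ha ((h a b hb).1 hab)).pr_eq_zero
      fun g hg => hg, add_zero]

lemma pr_mul_left {S S₁ U : Set G} {x : SkewMonoidAlgebra R G} (y : SkewMonoidAlgebra R G)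
    (hx : Sup U x) (h : ∀ k ∈ U, ∀ g, k * g ∈ S ↔ g ∈ S₁) : pr S (x * y) = x * pr S₁ y := by
  conv_lhs => rw [← pr_add_pr_compl S₁ y, mul_add, map_add]
  rw [(hx.mul (sup_pr S₁ y) fun a ha b hb => (h a ha b).2 hb).pr_eq,
    (hx.mul (U := Sᶜ) (sup_pr S₁ᶜ y) fun a ha b hb hab => hb ((h a ha b).1 hab)).pr_eq_zero
      fun g hg => hg, add_zero]

section Mat

variable {I J K : Type}

/-- All entries are supported in `S`. -/
def MSup (S : Set G) (A : Matrix I J (SkewMonoidAlgebra R G)) : Prop := ∀ i j, Sup S (A i j)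

/-- Entrywise restriction of support. -/
noncomputable def mpr (S : Set G) (A : Matrix I J (SkewMonoidAlgebra R G)) :
    Matrix I J (SkewMonoidAlgebra R G) := A.map (pr S)

lemma msup_mpr (S : Set G) (A : Matrix I J (SkewMonoidAlgebra R G)) : MSup S (mpr S A) :=
  fun i j => sup_pr S (A i j)

lemma MSup.mpr {S S' : Set G} {A : Matrix I J (SkewMonoidAlgebra R G)} (h : MSup S A) :
    MSup S (mpr S' A) := fun i j => (h i j).pr

lemma MSup.mpr_eq {S : Set G} {A : Matrix I J (SkewMonoidAlgebra R G)} (h : MSup S A) :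
    Pool.Agent.MP_f7db47_al.TW.mpr S A = A := by
  ext1 i j; exact (h i j).pr_eq

lemma MSup.mpr_eq_zero {S U : Set G} {A : Matrix I J (SkewMonoidAlgebra R G)} (h : MSup U A)
    (hd : ∀ g ∈ U, g ∉ S) : Pool.Agent.MP_f7db47_al.TW.mpr S A = 0 := by
  ext1 i j; exact (h i j).pr_eq_zero hd

lemma MSup.eq_zero {S S' : Set G} {A : Matrix I J (SkewMonoidAlgebra R G)} (h : MSup S A)
    (h' : MSup S' A) (hd : ∀ g ∈ S, g ∉ S') : A = 0 := by
  ext1 i j; exact (h i j).eq_zero (h' i j) hd

lemma mpr_add (S : Set G) (A B : Matrix I J (SkewMonoidAlgebra R G)) :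
    mpr S (A + B) = mpr S A + mpr S B := by
  ext1 i j; exact map_add (pr S) _ _

lemma mpr_sub (S : Set G) (A B : Matrix I J (SkewMonoidAlgebra R G)) :
    mpr S (A - B) = mpr S A - mpr S B := by
  ext1 i j; exact map_sub (pr S) _ _

lemma mpr_mpr (S S' : Set G) (A : Matrix I J (SkewMonoidAlgebra R G)) :
    mpr S (mpr S' A) = mpr (S ∩ S') A := by
  ext1 i j; exact pr_pr _ _ _

lemma mpr_add_mpr_compl (S : Set G) (A : Matrix I J (SkewMonoidAlgebra R G)) :
    mpr S A + mpr Sᶜ A = A := by
  ext1 i j; exact pr_add_pr_compl _ _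

lemma mpr_congr {S S' U : Set G} {A : Matrix I J (SkewMonoidAlgebra R G)} (hA : MSup U A)
    (h : ∀ g ∈ U, g ∈ S ↔ g ∈ S') : mpr S A = mpr S' A := by
  ext1 i j; exact pr_congr (hA i j) h

lemma MSup.mono {S S' : Set G} {A : Matrix I J (SkewMonoidAlgebra R G)} (hA : MSup S A)
    (h : S ⊆ S') : MSup S' A := fun i j => (hA i j).mono h

lemma msup_zero (S : Set G) : MSup S (0 : Matrix I J (SkewMonoidAlgebra R G)) :=
  fun _ _ => sup_zero S

lemma msup_univ (A : Matrix I J (SkewMonoidAlgebra R G)) : MSup Set.univ A := fun _ _ => sup_univ _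

lemma MSup.add {S : Set G} {A B : Matrix I J (SkewMonoidAlgebra R G)} (hA : MSup S A)
    (hB : MSup S B) : MSup S (A + B) := fun i j => (hA i j).add (hB i j)

lemma MSup.neg {S : Set G} {A : Matrix I J (SkewMonoidAlgebra R G)} (hA : MSup S A) :
    MSup S (-A) := fun i j => (hA i j).neg

lemma MSup.sub {S : Set G} {A B : Matrix I J (SkewMonoidAlgebra R G)} (hA : MSup S A)
    (hB : MSup S B) : MSup S (A - B) := fun i j => (hA i j).sub (hB i j)

lemma msup_sum {S : Set G} {ι : Type*} (s : Finset ι) (f : ι → Matrix I J (SkewMonoidAlgebra R G))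
    (h : ∀ i ∈ s, MSup S (f i)) : MSup S (∑ i ∈ s, f i) :=
  Finset.sum_induction f (MSup S) (fun _ _ => MSup.add) (msup_zero S) h

lemma msup_one [DecidableEq I] {S : Set G} (h : (1 : G) ∈ S) :
    MSup S (1 : Matrix I I (SkewMonoidAlgebra R G)) := by
  intro i j
  by_cases hij : i = j
  · subst hij; rw [Matrix.one_apply_eq]; exact sup_one h
  · rw [Matrix.one_apply_ne hij]; exact sup_zero S

lemma msup_map_single {S : Set G} {g : G} (hg : g ∈ S) (e : Matrix I J R) :
    MSup S (e.map (SkewMonoidAlgebra.single g)) := fun _ _ => sup_single hg _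

lemma msup_map_sz {S : Set G} {g : G} (hg : g ∈ S) (e : Matrix I J ℤ) :
    MSup S (e.map (sz R g)) := fun _ _ => sup_single hg _

lemma MSup.mul [Fintype J] {S S' U : Set G} {A : Matrix I J (SkewMonoidAlgebra R G)}
    {B : Matrix J K (SkewMonoidAlgebra R G)} (hA : MSup S A) (hB : MSup S' B)
    (h : ∀ a ∈ S, ∀ b ∈ S', a * b ∈ U) : MSup U (A * B) := fun i j => by
  rw [Matrix.mul_apply]
  exact sup_sum _ _ fun k _ => (hA i k).mul (hB k j) h

lemma MSup.fromBlocks {L : Type} {S : Set G} {A : Matrix I K (SkewMonoidAlgebra R G)}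
    {B : Matrix I L (SkewMonoidAlgebra R G)} {C : Matrix J K (SkewMonoidAlgebra R G)}
    {D : Matrix J L (SkewMonoidAlgebra R G)} (hA : MSup S A) (hB : MSup S B) (hC : MSup S C)
    (hD : MSup S D) : MSup S (fromBlocks A B C D) := by
  rintro (i | i) (j | j)
  exacts [hA i j, hB i j, hC i j, hD i j]

lemma mpr_mul_right [Fintype J] {S S₁ U : Set G} (A : Matrix I J (SkewMonoidAlgebra R G))
    {B : Matrix J K (SkewMonoidAlgebra R G)} (hB : MSup U B)
    (h : ∀ g, ∀ k ∈ U, g * k ∈ S ↔ g ∈ S₁) : mpr S (A * B) = mpr S₁ A * B := by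
  ext1 i j
  simp only [mpr, Matrix.map_apply, Matrix.mul_apply, map_sum]
  exact Finset.sum_congr rfl fun k _ => pr_mul_right _ (hB k j) h

lemma mpr_mul_left [Fintype J] {S S₁ U : Set G} {A : Matrix I J (SkewMonoidAlgebra R G)}
    (B : Matrix J K (SkewMonoidAlgebra R G)) (hA : MSup U A)
    (h : ∀ k ∈ U, ∀ g, k * g ∈ S ↔ g ∈ S₁) : mpr S (A * B) = A * mpr S₁ B := by
  ext1 i j
  simp only [mpr, Matrix.map_apply, Matrix.mul_apply, map_sum]
  exact Finset.sum_congr rfl fun k _ => pr_mul_left _ (hA i k) h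

/-- The finite set of group elements occurring in a matrix. -/
lemma exists_finset_msup [Fintype I] [Fintype J] (A : Matrix I J (SkewMonoidAlgebra R G)) :
    ∃ s : Finset G, MSup (s : Set G) A ∧ ∀ S : Set G, MSup S A → (s : Set G) ⊆ S := by
  classical
  refine ⟨Finset.univ.biUnion fun p : I × J => (A p.1 p.2).coeff.support, ?_, ?_⟩
  · intro i j g hg
    simp only [Finset.coe_biUnion, Finset.coe_univ, Set.mem_univ, Set.iUnion_true,
      Set.mem_iUnion, Finset.mem_coe, Finsupp.mem_support_iff]
    exact ⟨(i, j), hg⟩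
  · intro S hS g hg
    simp only [Finset.coe_biUnion, Finset.coe_univ, Set.mem_univ, Set.iUnion_true,
      Set.mem_iUnion, Finset.mem_coe, Finsupp.mem_support_iff] at hg
    obtain ⟨p, hp⟩ := hg
    exact hS _ _ g hp

/-- A matrix supported in the range of an injective homomorphism comes from the source. -/
lemma exists_map_of_msup {H : Type*} [Group H] [MulSemiringAction H R] (f : H →* G) [Cp R f] (hf : Function.Injective f)
    {A : Matrix I J (SkewMonoidAlgebra R G)} (hA : MSup (Set.range f) A) :
    ∃ B : Matrix I J (SkewMonoidAlgebra R H), B.map (mapR R f) = A := by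
  refine ⟨fun i j => Sk.comapDomain f hf (A i j), ?_⟩
  ext1 i j
  exact Sk.mapDomain_comapDomain
    (fun g hg => hA i j g (Finsupp.mem_support_iff.1 hg)) hf

lemma mapDomain_inj {H : Type*} [Group H] [MulSemiringAction H R] (f : H →* G) [Cp R f] (hf : Function.Injective f) :
    Function.Injective (mapR R f) := by
  intro x y hxy
  exact Sk.mapDomain_injective hf hxy

lemma sup_mapDomain {H : Type*} [Group H] [MulSemiringAction H R] (f : H →* G) [Cp R f] (x : SkewMonoidAlgebra R H) :
    Sup (Set.range f) (mapR R f x) := by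
  induction x using Sk.induction_linear with
  | zero => rw [map_zero]; exact sup_zero _
  | add a b ha hb => rw [map_add]; exact ha.add hb
  | single g r =>
    rw [Sk.mapDomainRingHom_apply, SkewMonoidAlgebra.mapDomain_single]
    exact sup_single (Set.mem_range_self g) r

/-- If `G1` holds for a subgroup, invertible matrices supported on it are trivial. -/
lemma T_of_msup {H : Type*} [Group H] [MulSemiringAction H R] (f : H →* G) [Cp R f] (hf : Function.Injective f)
    (hH : G1 R H) [Fintype I] [DecidableEq I] {A B : Matrix I I (SkewMonoidAlgebra R G)}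
    (hA : MSup (Set.range f) A) (hB : MSup (Set.range f) B) (h1 : A * B = 1) (h2 : B * A = 1) :
    T A := by
  obtain ⟨A', rfl⟩ := exists_map_of_msup f hf hA
  obtain ⟨B', rfl⟩ := exists_map_of_msup f hf hB
  have hinj : Function.Injective fun M : Matrix I I (SkewMonoidAlgebra R H) =>
      M.map (mapR R f) := Matrix.map_injective (mapDomain_inj f hf)
  apply T_map
  refine hH _ A' B' (hinj ?_) (hinj ?_)
  · simpa [Matrix.map_mul, Matrix.map_one _ (map_zero _) (map_one _)] using h1
  · simpa [Matrix.map_mul, Matrix.map_one _ (map_zero _) (map_one _)] using h2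

end Mat

end Pool.Agent.MP_f7db47_al.TW

end

section

namespace Pool.Agent.MP_f7db47_al.TW

open Matrix

variable {R : Type v} [Ring R] {G : Type u} [Group G] [MulSemiringAction G R]

variable {I J : Type}

/-- Restriction of the support of a vector. -/
noncomputable def prv (S : Set G) (v : J → SkewMonoidAlgebra R G) : J → SkewMonoidAlgebra R G :=
  fun i => pr S (v i)

/-- A vector supported in `S`. -/
def VSup (S : Set G) (v : J → SkewMonoidAlgebra R G) : Prop := ∀ i, Sup S (v i)

lemma prv_vecMul_right [Fintype I] {S S₁ U : Set G} (v : I → SkewMonoidAlgebra R G)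
    {B : Matrix I J (SkewMonoidAlgebra R G)} (hB : MSup U B)
    (h : ∀ g, ∀ k ∈ U, g * k ∈ S ↔ g ∈ S₁) : prv S (v ᵥ* B) = prv S₁ v ᵥ* B := by
  funext j
  simp only [prv, vecMul, dotProduct, map_sum]
  exact Finset.sum_congr rfl fun k _ => pr_mul_right _ (hB k j) h

variable [Fintype J] [DecidableEq J] {K : Subgroup G}


end Pool.Agent.MP_f7db47_al.TW

end

section

namespace Pool.Agent.MP_f7db47_al.TW

open Matrix

variable {R : Type v} [Ring R] {G : Type u} [Group G] [MulSemiringAction G R]

variable {I J K : Type}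

/-- Entry `(i, j)` is supported in `S i j`. -/
def MSup2 (S : I → J → Set G) (A : Matrix I J (SkewMonoidAlgebra R G)) : Prop :=
  ∀ i j, Sup (S i j) (A i j)

/-- Entrywise restriction of support, depending on the position. -/
noncomputable def mpr2 (S : I → J → Set G) (A : Matrix I J (SkewMonoidAlgebra R G)) :
    Matrix I J (SkewMonoidAlgebra R G) := fun i j => pr (S i j) (A i j)

lemma msup2_mpr2 (S : I → J → Set G) (A : Matrix I J (SkewMonoidAlgebra R G)) :
    MSup2 S (mpr2 S A) := fun i j => sup_pr _ (A i j)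

lemma MSup2.mpr2 {S S' : I → J → Set G} {A : Matrix I J (SkewMonoidAlgebra R G)} (h : MSup2 S A) :
    MSup2 S (mpr2 S' A) := fun i j => (h i j).pr

lemma MSup2.mpr2_eq {S : I → J → Set G} {A : Matrix I J (SkewMonoidAlgebra R G)} (h : MSup2 S A) :
    Pool.Agent.MP_f7db47_al.TW.mpr2 S A = A := by
  ext1 i j; exact (h i j).pr_eq

lemma MSup2.mono {S S' : I → J → Set G} {A : Matrix I J (SkewMonoidAlgebra R G)} (hA : MSup2 S A)
    (h : ∀ i j, S i j ⊆ S' i j) : MSup2 S' A := fun i j => (hA i j).mono (h i j)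

lemma msup2_zero (S : I → J → Set G) : MSup2 S (0 : Matrix I J (SkewMonoidAlgebra R G)) :=
  fun _ _ => sup_zero _

lemma MSup2.add {S : I → J → Set G} {A B : Matrix I J (SkewMonoidAlgebra R G)} (hA : MSup2 S A)
    (hB : MSup2 S B) : MSup2 S (A + B) := fun i j => (hA i j).add (hB i j)

lemma MSup2.neg {S : I → J → Set G} {A : Matrix I J (SkewMonoidAlgebra R G)} (hA : MSup2 S A) :
    MSup2 S (-A) := fun i j => (hA i j).neg

lemma MSup2.sub {S : I → J → Set G} {A B : Matrix I J (SkewMonoidAlgebra R G)} (hA : MSup2 S A)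
    (hB : MSup2 S B) : MSup2 S (A - B) := fun i j => (hA i j).sub (hB i j)

lemma msup2_one [DecidableEq I] {S : I → I → Set G} (h : ∀ i, (1 : G) ∈ S i i) :
    MSup2 S (1 : Matrix I I (SkewMonoidAlgebra R G)) := by
  intro i j
  by_cases hij : i = j
  · subst hij; rw [Matrix.one_apply_eq]; exact sup_one (h i)
  · rw [Matrix.one_apply_ne hij]; exact sup_zero _

lemma msup2_diagonal [DecidableEq I] {S : I → I → Set G} {d : I → SkewMonoidAlgebra R G}
    (h : ∀ i, Sup (S i i) (d i)) : MSup2 S (diagonal d) := by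
  intro i j
  by_cases hij : i = j
  · subst hij; rw [diagonal_apply_eq]; exact h i
  · rw [diagonal_apply_ne _ hij]; exact sup_zero _

lemma MSup2.mul [Fintype J] {S : I → J → Set G} {S' : J → K → Set G} {U : I → K → Set G}
    {A : Matrix I J (SkewMonoidAlgebra R G)} {B : Matrix J K (SkewMonoidAlgebra R G)} (hA : MSup2 S A)
    (hB : MSup2 S' B) (h : ∀ i j k, ∀ a ∈ S i j, ∀ b ∈ S' j k, a * b ∈ U i k) :
    MSup2 U (A * B) := fun i k => by
  rw [Matrix.mul_apply]
  exact sup_sum _ _ fun j _ => (hA i j).mul (hB j k) (h i j k)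

section Elim

variable [Fintype J] [DecidableEq J]

variable {Λ : Type w} [Ring Λ] {Y : Type*} (c : J → Y)

end Elim

end Pool.Agent.MP_f7db47_al.TW

end

end

section

/-!
Twisted coefficients: part ZExt.
-/

set_option linter.unusedSectionVars false

universe u u' v w

section

namespace Pool.Agent.MP_f7db47_al.TW

open Matrix

variable {R : Type v} [Ring R] {G : Type u} [Group G] [MulSemiringAction G R]

variable {J : Type} [Fintype J] [DecidableEq J]

lemma T.isUnit {A : Matrix J J (SkewMonoidAlgebra R G)} (hA : T A) : IsUnit A := by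
  obtain ⟨B, -, h1, h2⟩ := T_unit hA
  exact ⟨⟨A, B, h1, h2⟩, rfl⟩

lemma G1_iff : G1 R G ↔ ∀ (J : Type) [Fintype J] [DecidableEq J]
    (A : Matrix J J (SkewMonoidAlgebra R G)), IsUnit A → T A := by
  constructor
  · rintro h J _ _ A ⟨u, rfl⟩
    exact h J _ _ u.mul_inv u.inv_mul
  · intro h J _ _ A B h1 h2
    exact h J A ⟨⟨A, B, h1, h2⟩, rfl⟩

lemma T_of_isUnit_msup (N : Subgroup G) (hN : G1 R N) {M : Matrix J J (SkewMonoidAlgebra R G)}
    (hM : MSup (N : Set G) M) (hu : IsUnit M) : T M := by
  obtain ⟨u, rfl⟩ := hu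
  have hr : Set.range N.subtype = (N : Set G) := by simp
  have h1 : mpr (N : Set G) (1 : Matrix J J (SkewMonoidAlgebra R G)) = 1 :=
    (msup_one N.one_mem).mpr_eq
  refine T_of_msup N.subtype N.subtype_injective hN (B := mpr N (u⁻¹ : Units _).val)
    (hr ▸ hM) (hr ▸ msup_mpr _ _) ?_ ?_
  · rw [← mpr_mul_left (S := N) _ hM fun k hk g => N.mul_mem_cancel_left hk, u.mul_inv, h1]
  · rw [← mpr_mul_right (S := N) _ hM fun g k hk => N.mul_mem_cancel_right hk, u.inv_mul, h1]

section Graded

variable (dg : G → ℤ) (hadd : ∀ a b, dg (a * b) = dg a + dg b)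

include hadd

variable (N : Subgroup G) (hN : ∀ g, g ∈ N ↔ dg g = 0) (t : G) (ht : dg t = 1)

include hN ht

lemma T_split (h1 : G1 R N) (h0 : G0 R N) {a b ε : Matrix J J (SkewMonoidAlgebra R G)}
    (ha : MSup {g | dg g = 0} a) (hb : MSup {g | dg g = 1} b) (hε : MSup {g | dg g = 0} ε)
    (hεε : ε * ε = ε) (hu : IsUnit ((1 - ε) * a + ε * b)) : T ((1 - ε) * a + ε * b) := by
  have hr : Set.range N.subtype = {g | dg g = 0} := by ext g; simp [hN]
  obtain ⟨ε', rfl⟩ := exists_map_of_msup N.subtype N.subtype_injective (hr ▸ hε)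
  have hinj : Function.Injective fun M : Matrix J J (SkewMonoidAlgebra R N) =>
      M.map (mapR R N.subtype) :=
    Matrix.map_injective (mapDomain_inj _ N.subtype_injective)
  obtain ⟨ι, _, _, κ, _, _, e, X', Y', he, hXY, hYX⟩ :=
    h0 J ε' (hinj (by simpa [Matrix.map_mul] using hεε))
  set φ := mapR R N.subtype with hφ
  set ε := ε'.map φ with hεdef
  set X := X'.map φ with hXdef
  set Y := Y'.map φ with hYdef
  have hX : MSup {g | dg g = 0} X := fun i j => hr ▸ sup_mapDomain _ _
  have hY : MSup {g | dg g = 0} Y := fun i j => hr ▸ sup_mapDomain _ _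
  set ε1 : Matrix (J ⊕ ι) (J ⊕ ι) (SkewMonoidAlgebra R G) := fromBlocks ε 0 0 1 with hε1
  have hXY' : X * Y = ε1 := by
    rw [hXdef, hYdef, ← Matrix.map_mul, hXY, fromBlocks_map, Matrix.map_zero _ (map_zero _),
      Matrix.map_zero _ (map_zero _), Matrix.map_one _ (map_zero _) (map_one _)]
  have hYX' : Y * X = e.map (sz R 1) := by
    rw [hXdef, hYdef, ← Matrix.map_mul, hYX]
    ext1 i j; simp [hφ]
  have hε11 : ε1 * ε1 = ε1 := by simp [hε1, fromBlocks_multiply, hεε]
  set τ : Matrix ι ι (SkewMonoidAlgebra R G) := (1 : Matrix ι ι R).map (SkewMonoidAlgebra.single t)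
  set V := (1 - ε) * a + ε * b with hV
  set a1 : Matrix (J ⊕ ι) (J ⊕ ι) (SkewMonoidAlgebra R G) := fromBlocks a 0 0 0
  set b1 : Matrix (J ⊕ ι) (J ⊕ ι) (SkewMonoidAlgebra R G) := fromBlocks b 0 0 τ
  have hV1 : fromBlocks V 0 0 τ = (1 - ε1) * a1 + ε1 * b1 := by
    rw [sub_mul, one_mul, sub_eq_add_neg]
    simp [a1, b1, hε1, fromBlocks_multiply, fromBlocks_add, fromBlocks_neg, hV,
      sub_eq_add_neg, add_mul]
  set e1 : Matrix κ κ (SkewMonoidAlgebra R G) := e.map (sz R 1)
  set eg : Matrix κ κ (SkewMonoidAlgebra R G) := e.map (sz R t⁻¹)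
  have heg : eg * e1 = eg := by simp only [eg, e1, map_sz_mul, he, mul_one]
  have he1 : e1 * e1 = e1 := by simp only [e1, map_sz_mul, he, mul_one]
  have hD : T (1 - X * ((e1 - eg) * Y)) := by
    apply T_one_sub_comm
    rw [Matrix.mul_assoc, hYX', sub_mul, he1, heg, ← sub_add]
    exact T_gen (Gen.idem e he _)
  have hD' : 1 - X * ((e1 - eg) * Y) = 1 - ε1 + X * eg * Y := by
    rw [Matrix.sub_mul, Matrix.mul_sub, ← hYX', Matrix.mul_assoc Y, hXY', ← Matrix.mul_assoc X Y,
      hXY', hε11, Matrix.mul_assoc]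
    abel
  have hz : X * eg * Y * (1 - ε1) = 0 := by
    rw [← heg, ← hYX']
    simp only [Matrix.mul_assoc]
    rw [← Matrix.mul_assoc X Y, hXY', mul_sub, mul_one, hε11, sub_self]
    simp
  have hprod : (1 - ε1 + X * eg * Y) * ((1 - ε1) * a1 + ε1 * b1) =
      (1 - ε1) * a1 + X * eg * Y * ε1 * b1 := by
    have h2 : (1 - ε1) * (1 - ε1) = 1 - ε1 := by
      rw [mul_sub, mul_one, sub_mul, one_mul, hε11, sub_self, sub_zero]
    have h3 : (1 - ε1) * ε1 = 0 := by rw [sub_mul, one_mul, hε11, sub_self]
    rw [add_mul, mul_add, mul_add, ← mul_assoc, ← mul_assoc, ← mul_assoc, ← mul_assoc, h2, h3, hz]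
    simp
  have hτ : T τ := T_scalar t
  have hVu : IsUnit (fromBlocks V 0 0 τ) := isUnit_fromBlocks_diag hu hτ.isUnit
  have h00 : (1 : G) ∈ {g | dg g = 0} := dg_one dg hadd
  have hε1s : MSup {g | dg g = 0} ε1 :=
    hε.fromBlocks (msup_zero _) (msup_zero _) (msup_one h00)
  have hmain : T ((1 - ε1) * a1 + X * eg * Y * ε1 * b1) := by
    refine T_of_isUnit_msup N h1 ?_ ?_
    · have hNs : (N : Set G) = {g | dg g = 0} := by ext g; simp [hN]
      rw [hNs]
      refine MSup.add (((msup_one h00).sub hε1s).mul (S' := {g | dg g = 0})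
        (ha.fromBlocks (msup_zero _) (msup_zero _) (msup_zero _)) ?_) ?_
      · intro x hx y hy
        simp only [Set.mem_ofPred_eq, hadd] at *; omega
      · refine MSup.mul (S := {g | dg g = -1}) (S' := {g | dg g = 1}) ?_
          (hb.fromBlocks (msup_zero _) (msup_zero _)
            (msup_map_single (S := {g | dg g = 1}) ht _)) ?_
        · refine MSup.mul (S := {g | dg g = -1}) ?_ hε1s ?_
          · refine MSup.mul (S := {g | dg g = -1}) ?_ hY ?_
            · refine hX.mul (S' := {g | dg g = -1}) (msup_map_single ?_ _) ?_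
              · show dg t⁻¹ = -1
                rw [dg_inv dg hadd, ht]
              · intro x hx y hy
                simp only [Set.mem_ofPred_eq, hadd] at *; omega
            · intro x hx y hy
              simp only [Set.mem_ofPred_eq, hadd] at *; omega
          · intro x hx y hy
            simp only [Set.mem_ofPred_eq, hadd] at *; omega
        · intro x hx y hy
          simp only [Set.mem_ofPred_eq, hadd] at *; omega
    · rw [← hprod, ← hD', ← hV1]
      exact hD.isUnit.mul hVu
  rw [← hprod, ← hD', ← hV1] at hmain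
  exact T_upper_block_left (T_cancel_left hD hmain) hτ

end Graded

end Pool.Agent.MP_f7db47_al.TW

end

section

namespace Pool.Agent.MP_f7db47_al.TW

open Matrix

/-- The concrete calculus. -/
def stdTS (R : Type v) [Ring R] (G : Type u) [Group G] [MulSemiringAction G R] : TS (SkewMonoidAlgebra R G) where
  T := T
  one := T_one
  mul := T_mul
  unit := T_unit
  of_stab := T_of_stab
  upper := T_upper
  lower := T_lower
  comm := T_one_sub_comm

end Pool.Agent.MP_f7db47_al.TW

end

end
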