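import Pool.Agent.Mg.Ff7db47.G88cbfa

/-!
The filtration attached to a family of matrices, graded by the edges.
-/

set_option linter.unusedSectionVars false

namespace Pool.Agent.MP_f7db47_al

open Matrix

universe u v w

namespace TB

variable {R : Type v} [Ring R] {G : Type u} [Group G] {V : Type w} [MulAction G V] {D : TB G V}
variable {J : Type} [Fintype J] [DecidableEq J] {e : J → D.E} {A : Type}

lemma on_smul (g₀ h : G) (τ : D.E) :
    (fun j => {y | h * y ∈ D.On e g₀ τ j}) = D.On e (h⁻¹ * g₀) τ := by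
  funext j; ext y; simp [On, mul_assoc]

variable (D e) in
/-- One step of the iterated filtration. -/
def stepV (n : A → Matrix J J (MonoidAlgebra R G))
    (W : Submodule (MonoidAlgebra R G) (J → MonoidAlgebra R G)) :
    Submodule (MonoidAlgebra R G) (J → MonoidAlgebra R G) where
  carrier := {f | ∀ g τ a, prv2 (D.On e g τ) f ᵥ* n a ∈ W}
  zero_mem' g τ a := by rw [prv2_zero, zero_vecMul]; exact zero_mem _
  add_mem' {x y} hx hy g τ a := by
    rw [prv2_add, add_vecMul]; exact add_mem (hx g τ a) (hy g τ a)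
  smul_mem' c f hf g τ a := by
    refine (sup_univ c).induction (P := fun c => prv2 (D.On e g τ) (c • f) ᵥ* n a ∈ W)
      (by rw [zero_smul, prv2_zero, zero_vecMul]; exact zero_mem _)
      (fun x y hx hy => by rw [add_smul, prv2_add, add_vecMul]; exact add_mem hx hy)
      fun h _ r => ?_
    rw [prv2_single_smul, smul_vecMul, on_smul]
    exact Submodule.smul_mem _ _ (hf _ _ _)

variable (D e) in
/-- The iterated filtration. -/
noncomputable def itV (n : A → Matrix J J (MonoidAlgebra R G)) :
    ℕ → Submodule (MonoidAlgebra R G) (J → MonoidAlgebra R G)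
  | 0 => ⊥
  | j + 1 => D.stepV e n (itV n j)

variable {n : A → Matrix J J (MonoidAlgebra R G)}

lemma mem_itV_succ {j : ℕ} {f : J → MonoidAlgebra R G} :
    f ∈ D.itV e n (j + 1) ↔ ∀ g τ a, prv2 (D.On e g τ) f ᵥ* n a ∈ D.itV e n j := Iff.rfl

lemma itV_mono : Monotone (D.itV e n) := by
  refine monotone_nat_of_le_succ fun j => ?_
  induction j with
  | zero => exact bot_le
  | succ j ih => exact fun f hf g τ a => ih (hf g τ a)

lemma itV_graded {S : J → Set G} (hS : D.Sat e S) {j : ℕ} {f : J → MonoidAlgebra R G}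
    (hf : f ∈ D.itV e n j) : prv2 S f ∈ D.itV e n j := by
  cases j with
  | zero =>
    change f ∈ (⊥ : Submodule _ _) at hf
    rw [Submodule.mem_bot] at hf
    rw [hf, prv2_zero]; exact zero_mem _
  | succ j =>
    intro g τ a
    rcases hS.prv2_on g τ f with h | ⟨-, h⟩
    · rw [h, zero_vecMul]; exact zero_mem _
    · rw [h]; exact hf g τ a

lemma itV_low {j : ℕ} {f : J → MonoidAlgebra R G} (hf : f ∈ D.itV e n (j + 1)) (a : A) :
    f ᵥ* n a ∈ D.itV e n j :=
  on_induction (D := D) (e := e) (P := fun z => z ᵥ* n a ∈ D.itV e n j) (by simp)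
    (fun x y hx hy => by rw [add_vecMul]; exact add_mem hx hy) f fun i g => hf g _ a

lemma vecMul_proj (τ : D.E) (f : J → MonoidAlgebra R G) :
    f ᵥ* proj (MonoidAlgebra R G) e τ = prv2 (fun i => {_x | e i = τ}) f := by
  funext i
  rw [proj, vecMul_diagonal, prv2]
  split_ifs with h
  · rw [mul_one]; exact (Sup.pr_eq fun _ _ => h).symm
  · rw [mul_zero]; exact ((sup_univ _).pr_eq_zero fun _ _ => h).symm

lemma sat_type (τ : D.E) : D.Sat e fun i => {_x | e i = τ} :=
  fun _ _ _ _ h _ hx => h.trans hx

/-- The iterated filtration as an ungraded filtration. -/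
noncomputable def filtV {k : ℕ} (hk : D.itV e n k = ⊤) : Filt R (⊤ : Subgroup G) J where
  V := D.itV e n
  k := k
  zero := rfl
  top := hk
  mono := itV_mono
  graded j S hS f hf := by
    by_cases h : (1 : G) ∈ S
    · have : S = Set.univ := Set.eq_univ_of_forall fun g => by
        simpa using (hS 1 g trivial).2 h
      rwa [this, prv_univ]
    · have : prv S f = 0 := funext fun i => (sup_univ _).pr_eq_zero fun g _ hg =>
        h ((hS 1 g trivial).1 (by simpa using hg))
      rw [this]; exact zero_mem _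

lemma low_n {k : ℕ} (hk : D.itV e n k = ⊤) (a : A) : (filtV hk).Low 1 (n a) :=
  fun _ _ hf => itV_low hf a

lemma low_proj {k : ℕ} (hk : D.itV e n k = ⊤) (τ : D.E) :
    (filtV hk).Low 0 (proj (MonoidAlgebra R G) e τ) := fun _ f hf => by
  rw [vecMul_proj]; exact itV_graded (sat_type τ) hf

/-- A block of one type is path nilpotent for the edge group. -/
lemma pn_of_low {k : ℕ} (hk : D.itV e n k = ⊤) (τ : D.E) {a : Matrix J J (MonoidAlgebra R G)}
    (h1 : proj _ e τ * a = a) (h2 : a * proj _ e τ = a) (hl : (filtV hk).Low 1 a) :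
    PN (D.C τ) a := by
  let U : ℕ → Submodule (MonoidAlgebra R G) (J → MonoidAlgebra R G) := fun j =>
    (D.itV e n j).comap (proj (MonoidAlgebra R G) e τ).vecMulLinear
  have hU : ∀ j f, f ∈ U j ↔ f ᵥ* proj (MonoidAlgebra R G) e τ ∈ D.itV e n j := fun _ _ => Iff.rfl
  let V' : ℕ → Submodule (MonoidAlgebra R G) (J → MonoidAlgebra R G) := fun j =>
    Nat.casesOn j ⊥ U
  refine ⟨⟨V', k + 1, rfl, ?_, ?_, ?_⟩, ?_⟩
  · rw [eq_top_iff]
    intro f _
    change f ∈ U k
    rw [hU, hk]; trivial
  · refine monotone_nat_of_le_succ fun j => ?_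
    cases j with
    | zero => exact bot_le
    | succ j => exact fun f hf => itV_mono (Nat.le_succ j) hf
  · intro j S hS f hf
    cases j with
    | zero =>
      change f ∈ (⊥ : Submodule _ _) at hf
      rw [Submodule.mem_bot] at hf
      rw [hf, prv_zero]; exact zero_mem _
    | succ j =>
      change f ∈ U j at hf
      change prv S f ∈ U j
      rw [hU, vecMul_proj] at hf ⊢
      have := itV_graded (S := fun i => {x | e i = τ ∧ x ∈ S})
        (fun i i' x c h hc hx => ⟨h.trans hx.1, (hS x c (hx.1 ▸ hc)).2 hx.2⟩) hf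
      convert this using 1
      change prv2 _ (prv2 (fun _ => S) f) = _
      rw [prv2_prv2, prv2_prv2]
      exact prv2_congr _ fun i x => ⟨fun h => ⟨h, h.1⟩, fun h => h.1⟩
  · intro j f hf
    change f ∈ U j at hf
    rw [hU] at hf
    rw [← h1, ← vecMul_vecMul]
    cases j with
    | zero =>
      change _ ∈ (⊥ : Submodule _ _) at hf
      rw [Submodule.mem_bot] at hf
      rw [hf, zero_vecMul]; exact zero_mem _
    | succ j =>
      change _ ∈ U j
      rw [hU, vecMul_vecMul _ a, h2]
      exact hl j _ hf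

/-- The filtration is exhaustive as soon as it contains all vectors on single edges. -/
lemma exists_top (h : ∀ g τ f, VSup2 (D.On e g τ) f → ∃ m, f ∈ D.itV e n m) :
    ∃ k, D.itV e n k = ⊤ := by
  have : ∀ i : J, ∃ m, (Pi.single i 1 : J → MonoidAlgebra R G) ∈ D.itV e n m := by
    intro i
    refine h 1 (e i) _ fun j => ?_
    by_cases hij : j = i
    · subst hij; rw [Pi.single_eq_same]; exact sup_one (mem_on_self j 1)
    · rw [Pi.single_eq_of_ne hij]; exact sup_zero _
  choose m hm using this
  refine ⟨Finset.univ.sup m, eq_top_iff.2 fun f _ => ?_⟩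
  rw [pi_eq_sum_univ' f]
  exact Submodule.sum_mem _ fun i _ => Submodule.smul_mem _ _
    (itV_mono (Finset.le_sup (f := m) (Finset.mem_univ i)) (hm i))

end TB

end Pool.Agent.MP_f7db47_al
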