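import Mathlib

section

/-! Groups of order automorphisms of a line without infinite towers. -/

namespace Pool.Agent.MP_f7db47_al

open Equiv

variable {X : Type} [ConditionallyCompleteLinearOrder X]

/-- `(a, b)` is an orbital of `L`. -/
def Orb (L : Subgroup (Perm X)) (a b : X) : Prop :=
  a < b ∧ (∀ g ∈ L, g a = a ∧ g b = b) ∧ ∀ x, a < x → x < b → ∃ g ∈ L, g x ≠ x

/-- Trivial immediately to the right of `a`. -/
def TR (g : Perm X) (a : X) : Prop := ∃ c, a < c ∧ ∀ x, a < x → x < c → g x = x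

/-- Trivial immediately to the left of `b`. -/
def TL (g : Perm X) (b : X) : Prop := ∃ c, c < b ∧ ∀ x, c < x → x < b → g x = x

/-- One step down in a tower. -/
def Rel (M L : Subgroup (Perm X) × X × X) : Prop :=
  M.1 ≤ L.1 ∧ M.1.FG ∧ Orb M.1 M.2.1 M.2.2 ∧ L.2.1 < M.2.1 ∧ M.2.2 < L.2.2

/-- The order theoretic properties of piecewise linear groups without infinite towers. -/
structure Tame (G : Subgroup (Perm X)) : Prop where
  mono : ∀ g ∈ G, StrictMono g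
  bdd : ∃ lo hi : X, ∀ g ∈ G, ∀ x, x ≤ lo ∨ hi ≤ x → g x = x
  right : ∀ g ∈ G, ∀ a, TR g a ∨ ∃ c, a < c ∧ ∀ x, a < x → x < c → g x ≠ x
  left : ∀ g ∈ G, ∀ b, TL g b ∨ ∃ c, c < b ∧ ∀ x, c < x → x < b → g x ≠ x
  commR : ∀ g ∈ G, ∀ h ∈ G, ∀ a, g a = a → h a = a → TR (g * h * g⁻¹ * h⁻¹) a
  commL : ∀ g ∈ G, ∀ h ∈ G, ∀ a, g a = a → h a = a → TL (g * h * g⁻¹ * h⁻¹) a
  acc : ∀ L a b, L ≤ G → L.FG → Orb L a b → Acc Rel (L, a, b)

theorem Orb.dual {L : Subgroup (Perm X)} {a b : X} (h : Orb L a b) : Orb (X := Xᵒᵈ) L b a :=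
  ⟨h.1, fun g hg => (h.2.1 g hg).symm, fun x h1 h2 => h.2.2 x h2 h1⟩

theorem TR.dual {g : Perm X} {a : X} (h : TR g a) : TL (X := Xᵒᵈ) g a :=
  h.imp fun _ h => ⟨h.1, fun x h1 h2 => h.2 x h2 h1⟩

theorem TL.dual {g : Perm X} {a : X} (h : TL g a) : TR (X := Xᵒᵈ) g a :=
  h.imp fun _ h => ⟨h.1, fun x h1 h2 => h.2 x h2 h1⟩

theorem Tame.dual {G : Subgroup (Perm X)} (T : Tame G) : Tame (X := Xᵒᵈ) G where
  mono g hg := (T.mono g hg).dual
  bdd := by
    obtain ⟨lo, hi, h⟩ := T.bdd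
    exact ⟨hi, lo, fun g hg x hx => h g hg x hx.symm⟩
  right g hg a := (T.left g hg a).imp (TL.dual (X := X))
    fun h => h.imp fun _ h => ⟨h.1, fun x h1 h2 => h.2 x h2 h1⟩
  left g hg a := (T.right g hg a).imp (TR.dual (X := X))
    fun h => h.imp fun _ h => ⟨h.1, fun x h1 h2 => h.2 x h2 h1⟩
  commR g hg h hh a h1 h2 := (T.commL g hg h hh a h1 h2).dual
  commL g hg h hh a h1 h2 := (T.commR g hg h hh a h1 h2).dual
  acc L a b h1 h2 h3 := by
    have := InvImage.accessible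
      (fun t : Subgroup (Perm X) × X × X => (t.1, t.2.2, t.2.1)) (a := (L, a, b))
      (T.acc L b a h1 h2 (Orb.dual (X := Xᵒᵈ) h3))
    exact Subrelation.accessible
      (fun h => ⟨h.1, h.2.1, Orb.dual (X := Xᵒᵈ) h.2.2.1, h.2.2.2.2, h.2.2.2.1⟩) this

theorem Tame.sub {G H : Subgroup (Perm X)} (T : Tame G) (h : H ≤ G) : Tame H where
  mono g hg := T.mono g (h hg)
  bdd := T.bdd.imp fun _ k => k.imp fun _ k g hg => k g (h hg)
  right g hg := T.right g (h hg)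
  left g hg := T.left g (h hg)
  commR g hg k hk := T.commR g (h hg) k (h hk)
  commL g hg k hk := T.commL g (h hg) k (h hk)
  acc L a b h1 := T.acc L a b (h1.trans h)

section
variable {g : Perm X} (hg : StrictMono g) {x y : X}
include hg

theorem inv_lt' : g⁻¹ x < y ↔ x < g y := by rw [← hg.lt_iff_lt]; simp
theorem lt_inv' : y < g⁻¹ x ↔ g y < x := by rw [← hg.lt_iff_lt]; simp
theorem inv_le' : g⁻¹ x ≤ y ↔ x ≤ g y := by rw [← hg.le_iff_le]; simp
theorem le_inv' : y ≤ g⁻¹ x ↔ g y ≤ x := by rw [← hg.le_iff_le]; simp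

theorem fix_sSup {s : Set X} (hne : s.Nonempty) (hb : BddAbove s) (hs : ∀ x ∈ s, g x ∈ s)
    (hs' : ∀ x ∈ s, g⁻¹ x ∈ s) : g (sSup s) = sSup s := by
  apply le_antisymm
  · rw [← le_inv' hg]
    exact csSup_le hne fun x hx => (le_inv' hg).2 (le_csSup hb (hs x hx))
  · exact csSup_le hne fun x hx => (inv_le' hg).1 (le_csSup hb (hs' x hx))

end

omit [ConditionallyCompleteLinearOrder X] in
theorem inv_fix {g : Perm X} {x : X} (h : g x = x) : g⁻¹ x = x := Perm.inv_eq_iff_eq.2 h.symm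

variable {G L : Subgroup (Perm X)} {a b : X}

theorem Tame.orbit_gt (T : Tame L) (h : Orb L a b) {y z : X} (hy : a < y) (hy' : y < b)
    (hz : z < b) : ∃ g ∈ L, z < g y := by
  let s : Set X := {x | ∃ g ∈ L, g y = x}
  have hne : s.Nonempty := ⟨y, 1, one_mem _, rfl⟩
  have hle : ∀ x ∈ s, x ≤ b := by
    rintro _ ⟨g, hg, rfl⟩
    rw [← (h.2.1 g hg).2]; exact (T.mono g hg).monotone hy'.le
  have hb : BddAbove s := ⟨b, hle⟩
  have hm : ∀ g ∈ L, ∀ x ∈ s, g x ∈ s := by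
    rintro g hg _ ⟨k, hk, rfl⟩; exact ⟨g * k, mul_mem hg hk, rfl⟩
  have hfix : ∀ g ∈ L, g (sSup s) = sSup s := fun g hg =>
    fix_sSup (T.mono g hg) hne hb (hm g hg) (hm _ (inv_mem hg))
  have e : sSup s = b := by
    refine (csSup_le hne hle).eq_or_lt.resolve_right fun hlt => ?_
    obtain ⟨g, hg, k⟩ := h.2.2 _ (hy.trans_le (le_csSup hb ⟨1, one_mem _, rfl⟩)) hlt
    exact k (hfix g hg)
  obtain ⟨_, ⟨g, hg, rfl⟩, k⟩ := exists_lt_of_lt_csSup hne (e ▸ hz)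
  exact ⟨g, hg, k⟩

theorem Tame.orbit_lt (T : Tame L) (h : Orb L a b) {y z : X} (hy : a < y) (hy' : y < b)
    (hz : a < z) : ∃ g ∈ L, g y < z :=
  T.dual.orbit_gt h.dual hy' hy hz

theorem Tame.exists_left (T : Tame L) {y : X} (hy : ∃ g ∈ L, g y ≠ y) :
    ∃ a, a < y ∧ (∀ g ∈ L, g a = a) ∧ ∀ x, a < x → x ≤ y → ∃ g ∈ L, g x ≠ x := by
  obtain ⟨lo, hi, hb⟩ := T.bdd
  let s : Set X := {x | x ≤ y ∧ ∀ g ∈ L, g x = x}
  have hne : s.Nonempty := ⟨min lo y, min_le_right _ _, fun g hg =>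
    hb g hg _ (Or.inl (min_le_left _ _))⟩
  have hbd : BddAbove s := ⟨y, fun x hx => hx.1⟩
  have hfix : ∀ g ∈ L, g (sSup s) = sSup s := fun g hg =>
    fix_sSup (T.mono g hg) hne hbd (fun x hx => by rwa [hx.2 g hg])
      (fun x hx => by rwa [hx.2 _ (inv_mem hg)])
  refine ⟨sSup s, (csSup_le hne fun x hx => hx.1).lt_of_ne fun e => ?_, hfix, fun x h1 h2 => ?_⟩
  · obtain ⟨g, hg, k⟩ := hy
    exact k (e ▸ hfix g hg)
  · by_contra hc
    push Not at hc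
    exact h1.not_ge (le_csSup hbd ⟨h2, hc⟩)

theorem Tame.exists_orb (T : Tame L) {y : X} (hy : ∃ g ∈ L, g y ≠ y) :
    ∃ a b, a < y ∧ y < b ∧ Orb L a b := by
  obtain ⟨a, h1, h2, h3⟩ := T.exists_left hy
  obtain ⟨b, k1, k2, k3⟩ := T.dual.exists_left (y := y) hy
  exact ⟨a, b, h1, k1, h1.trans k1, fun g hg => ⟨h2 g hg, k2 g hg⟩, fun x l1 l2 =>
    (le_total x y).elim (h3 x l1) (k3 x l2)⟩

/-- The pointwise stabiliser of a set. -/
def fixer {X : Type} (s : Set X) : Subgroup (Perm X) where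
  carrier := {g | ∀ x ∈ s, g x = x}
  one_mem' := fun _ _ => rfl
  mul_mem' := fun h k x hx => by rw [Perm.mul_apply, k x hx, h x hx]
  inv_mem' := fun h x hx => Perm.inv_eq_iff_eq.2 (h x hx).symm

theorem TL_closure [NoMinOrder X] (S : Finset (Perm X)) (b : X) (h : ∀ g ∈ S, TL g b) :
    ∃ c, c < b ∧ ∀ g ∈ Subgroup.closure (S : Set (Perm X)), ∀ x, c < x → x < b → g x = x := by
  classical
  suffices ∃ c, c < b ∧ ∀ g ∈ S, ∀ x, c < x → x < b → g x = x by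
    obtain ⟨c, h1, h2⟩ := this
    have : Subgroup.closure (S : Set (Perm X)) ≤ fixer (Set.Ioo c b) :=
      (Subgroup.closure_le _).2 fun g hg x hx => h2 g hg x hx.1 hx.2
    exact ⟨c, h1, fun g hg x k1 k2 => this hg x ⟨k1, k2⟩⟩
  induction S using Finset.induction_on with
  | empty => exact (exists_lt b).imp fun c hc => ⟨hc, by simp⟩
  | insert g S _ ih =>
    obtain ⟨c, h1, h2⟩ := ih fun k hk => h k (Finset.mem_insert_of_mem hk)
    obtain ⟨d, k1, k2⟩ := h g (Finset.mem_insert_self _ _)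
    refine ⟨max c d, max_lt h1 k1, fun k hk x l1 l2 => ?_⟩
    rcases Finset.mem_insert.1 hk with rfl | hk
    · exact k2 x ((le_max_right _ _).trans_lt l1) l2
    · exact h2 k hk x ((le_max_left _ _).trans_lt l1) l2

theorem TL_fg [NoMinOrder X] (hL : L.FG) (h : ∀ g ∈ L, TL g b) :
    ∃ c, c < b ∧ ∀ g ∈ L, ∀ x, c < x → x < b → g x = x := by
  obtain ⟨S, rfl⟩ := hL
  exact TL_closure S b fun g hg => h g (Subgroup.subset_closure hg)

theorem TR_fg [NoMaxOrder X] (hL : L.FG) (h : ∀ g ∈ L, TR g a) :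
    ∃ c, a < c ∧ ∀ g ∈ L, ∀ x, a < x → x < c → g x = x :=
  (TL_fg (X := Xᵒᵈ) hL fun g hg => (h g hg).dual).imp fun _ h =>
    ⟨h.1, fun g hg x k1 k2 => h.2 g hg x k2 k1⟩

variable [DenselyOrdered X]

theorem Tame.half (T : Tame L) (h : Orb L a b) {al : Perm X} (hal : al ∈ L) {d e p : X}
    (hd : ∀ x, a < x → x < d → al x ≠ x) (he : ∀ x, e ≤ x → x ≤ b → al x = x)
    (h1 : a < p) (h2 : p < d) (h3 : d ≤ e) (h4 : e < b) :
    ∃ u ∈ L, ∃ l, a < l ∧ l < p ∧ u l = l ∧ (∀ x, l < x → x < d → u x ≠ x) ∧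
      ∀ x, e ≤ x → x ≤ b → u x = x := by
  have hae : a < e := h1.trans (h2.trans_le h3)
  obtain ⟨g, hg, hge⟩ := T.orbit_lt h hae h4 h1
  have mg := T.mono g hg
  have hu : al * g * al⁻¹ * g⁻¹ ∈ L := mul_mem (mul_mem (mul_mem hal hg) (inv_mem hal)) (inv_mem hg)
  obtain ⟨c, hc, hc'⟩ := T.commR al hal g hg a (h.2.1 _ hal).1 (h.2.1 _ hg).1
  set u := al * g * al⁻¹ * g⁻¹
  have key : ∀ x, g e ≤ x → x ≤ b → u x = al x := fun x k1 k2 => by
    show al (g (al⁻¹ (g⁻¹ x))) = al x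
    rw [inv_fix (he _ ((le_inv' mg).2 k1) ((inv_le' mg).2 (by rwa [(h.2.1 _ hg).2])))]
    simp
  let s : Set X := {x | x ≤ g e ∧ u x = x}
  have hage : a < g e := by rw [← (h.2.1 _ hg).1]; exact mg hae
  obtain ⟨z, hz1, hz2⟩ := exists_between (lt_min hc hage)
  have hz : z ∈ s := ⟨(hz2.trans_le (min_le_right _ _)).le, hc' z hz1 (hz2.trans_le (min_le_left _ _))⟩
  have hbd : BddAbove s := ⟨g e, fun x hx => hx.1⟩
  refine ⟨u, hu, sSup s, hz1.trans_le (le_csSup hbd hz),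
    (csSup_le ⟨z, hz⟩ fun x hx => hx.1).trans_lt hge,
    fix_sSup (T.mono u hu) ⟨z, hz⟩ hbd (fun x hx => by rwa [hx.2])
      (fun x hx => by rwa [inv_fix hx.2]), fun x k1 k2 k3 => ?_, fun x k1 k2 => ?_⟩
  · by_cases hx : x ≤ g e
    · exact k1.not_ge (le_csSup hbd ⟨hx, k3⟩)
    · rw [key x (not_le.1 hx).le (k2.trans_le (h3.trans h4.le)).le] at k3
      exact hd x (hage.trans (not_le.1 hx)) k2 k3
  · rw [key x ((hge.trans (h2.trans_le h3)).le.trans k1) k2, he x k1 k2]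

theorem Tame.no_chain (T : Tame G) {p₀ p d e : X} (h1 : p₀ ≤ p) (h2 : p < d) (h3 : d ≤ e)
    {al be : Perm X} (hal : al ∈ G) (hbe : be ∈ G) (k1 : al a = a)
    (k2 : ∀ x, a < x → x < d → al x ≠ x) (k3 : ∀ x, e ≤ x → x ≤ b → al x = x) (k4 : be b = b)
    (k5 : ∀ x, p < x → x < b → be x ≠ x) (k6 : ∀ x, a ≤ x → x ≤ p₀ → be x = x) (k7 : a < p₀)
    (k8 : e < b) : False := by
  have horb : ∀ {al be : Perm X} {a b : X}, al a = a → (∀ x, a < x → x < d → al x ≠ x) →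
      (∀ x, e ≤ x → x ≤ b → al x = x) → be b = b → (∀ x, p < x → x < b → be x ≠ x) →
      (∀ x, a ≤ x → x ≤ p₀ → be x = x) → a < p₀ → e < b →
      Orb (Subgroup.closure {al, be}) a b := by
    intro al be a b k1 k2 k3 k4 k5 k6 k7 k8
    have : Subgroup.closure {al, be} ≤ fixer {a, b} := (Subgroup.closure_le _).2 (by
      rintro _ (rfl | rfl) _ (rfl | rfl)
      exacts [k1, k3 _ k8.le le_rfl, k6 _ le_rfl k7.le, k4])
    refine ⟨k7.trans_le (h1.trans (h2.le.trans (h3.trans k8.le))),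
      fun g hg => ⟨this hg a (by simp), this hg b (by simp)⟩, fun x l1 l2 => ?_⟩
    by_cases hx : x < d
    · exact ⟨al, Subgroup.subset_closure (by simp), k2 x l1 hx⟩
    · exact ⟨be, Subgroup.subset_closure (by simp), k5 x (h2.trans_le (not_lt.1 hx)) l2⟩
  have hle : ∀ {al be : Perm X} {H : Subgroup (Perm X)}, al ∈ H → be ∈ H →
      Subgroup.closure {al, be} ≤ H := fun hal hbe => (Subgroup.closure_le _).2 (by
    rintro _ (rfl | rfl); exacts [hal, hbe])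
  have hfg : ∀ al be : Perm X, (Subgroup.closure {al, be}).FG := fun al be =>
    (Subgroup.fg_iff _).2 ⟨_, rfl, Set.toFinite _⟩
  have hacc := T.acc _ a b (hle hal hbe) (hfg _ _) (horb k1 k2 k3 k4 k5 k6 k7 k8)
  generalize ht : (Subgroup.closure {al, be}, a, b) = t at hacc
  induction hacc generalizing al be a b with
  | intro t _ ih =>
    subst ht
    have T' := T.sub (hle hal hbe)
    have ho := horb k1 k2 k3 k4 k5 k6 k7 k8
    obtain ⟨u, hu, l, l1, l2, l3, l4, l5⟩ := T'.half ho (Subgroup.subset_closure (by simp)) k2 k3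
      k7 (h1.trans_lt h2) h3 k8
    have hbe' : be ∈ Subgroup.closure {al, be} := Subgroup.subset_closure (by simp)
    obtain ⟨v, hv, r, r1, r2, r3, r4, r5⟩ := T'.dual.half ho.dual (al := be) hbe' (d := p)
      (e := p₀) (p := e)
      (fun x a b => k5 x b a) (fun x a b => k6 x b a) k8 (h2.trans_le h3) h1 k7
    have m3 : ∀ x, e ≤ x → x ≤ r → u x = x := fun x a b => l5 x a (b.trans (le_of_lt r1))
    have m5 : ∀ x, p < x → x < r → v x ≠ x := fun x a b => r4 x b a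
    have m6 : ∀ x, l ≤ x → x ≤ p₀ → v x = x := fun x a b => r5 x b (l1.le.trans a)
    exact ih (Subgroup.closure {u, v}, l, r)
      ⟨hle hu hv, hfg _ _, horb l3 l4 m3 r3 m5 m6 l2 r2, l1, r1⟩ (hle hal hbe hu) (hle hal hbe hv)
      l3 l4 m3 r3 m5 m6 l2 r2 rfl

/-- An element which is trivial near one end of an orbital is trivial near the other end. -/
theorem Tame.balanced (T : Tame L) (h : Orb L a b) {u : Perm X} (hu : u ∈ L) (hb : TL u b) :
    TR u a := by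
  refine (T.right u hu a).resolve_right ?_
  rintro ⟨c, hc, hc'⟩
  obtain ⟨c', hb1, hb2⟩ := hb
  obtain ⟨e, he1, he2⟩ := exists_between (max_lt h.1 hb1)
  have hae : a < e := (le_max_left _ _).trans_lt he1
  have he : ∀ x, e ≤ x → x ≤ b → u x = x := fun x k1 k2 => k2.eq_or_lt.elim
    (fun k => by rw [k, (h.2.1 u hu).2]) (hb2 x (((le_max_right _ _).trans_lt he1).trans_le k1))
  have hz : Subgroup.zpowers u ≤ L := Subgroup.zpowers_le.2 hu
  obtain ⟨y, hy1, hy2⟩ := exists_between hc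
  obtain ⟨a', d, o1, o2, ho⟩ := (T.sub hz).exists_orb ⟨u, Subgroup.mem_zpowers u, hc' y hy1 hy2⟩
  have hfix : ∀ x, u x = x → ∀ g ∈ Subgroup.zpowers u, g x = x := fun x hx g hg =>
    (Subgroup.zpowers_le (H := fixer {x})).2 (by rintro _ rfl; exact hx) hg x rfl
  have hmv : ∀ x, a' < x → x < d → u x ≠ x := fun x k1 k2 k3 => by
    obtain ⟨g, hg, k⟩ := ho.2.2 x k1 k2
    exact k (hfix x k3 g hg)
  obtain rfl : a = a' := by
    rcases lt_trichotomy a a' with k | k | k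
    · exact absurd (ho.2.1 u (Subgroup.mem_zpowers u)).1 (hc' a' k (o1.trans hy2))
    · exact k
    · exact absurd (h.2.1 u hu).1 (hmv a k (hy1.trans o2))
  have hde : d ≤ e := not_lt.1 fun k => hmv e hae k (he e le_rfl he2.le)
  have hud : u d = d := (ho.2.1 u (Subgroup.mem_zpowers u)).2
  obtain ⟨g, hg, hge⟩ := T.orbit_lt h hae he2 ho.1
  have mg := T.mono g hg
  have ga : g a = a := (h.2.1 g hg).1
  have hage : a < g e := by rw [← ga]; exact mg hae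
  have hagd : a < g d := by rw [← ga]; exact mg ho.1
  obtain ⟨c₁, hc1, hc2⟩ := T.commR u hu g hg a (h.2.1 _ hu).1 ga
  have hw : u * g * u⁻¹ * g⁻¹ ∈ L := mul_mem (mul_mem (mul_mem hu hg) (inv_mem hu)) (inv_mem hg)
  set w := u * g * u⁻¹ * g⁻¹
  have hin : ∀ x, g e ≤ x → x ≤ d → u (g⁻¹ x) = g⁻¹ x := fun x k1 k2 =>
    he _ ((le_inv' mg).2 k1) ((inv_le' mg).2 (by
      rw [(h.2.1 _ hg).2]; exact k2.trans (hde.trans he2.le)))
  have key : ∀ x, g e ≤ x → x ≤ d → w x = u x := fun x k1 k2 => by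
    show u (g (u⁻¹ (g⁻¹ x))) = u x
    rw [inv_fix (hin x k1 k2)]; simp
  obtain ⟨p, hp1, hp2⟩ := exists_between (lt_min hc1 hage)
  obtain ⟨v, hv, hvg⟩ := (T.sub hz).orbit_lt ho hage hge hagd
  have mv := T.mono v (hz hv)
  have va : v a = a := (ho.2.1 v hv).1
  have vd : v d = d := (ho.2.1 v hv).2
  refine T.no_chain (a := a) (b := d) (p₀ := v p) (p := v (g e)) (d := g d) (e := g e)
    (mv.monotone (hp2.le.trans (min_le_right _ _))) hvg (mg.monotone hde)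
    (al := g * u * g⁻¹) (be := v * w * v⁻¹) (mul_mem (mul_mem hg hu) (inv_mem hg))
    (mul_mem (mul_mem (hz hv) hw) (inv_mem (hz hv))) ?_ (fun x k1 k2 k3 => ?_)
    (fun x k1 k2 => ?_) ?_ (fun x k1 k2 k3 => ?_) (fun x k1 k2 => ?_) ?_ hge
  · exact (h.2.1 _ (mul_mem (mul_mem hg hu) (inv_mem hg))).1
  · refine hmv (g⁻¹ x) ((lt_inv' mg).2 (by rwa [ga])) ((inv_lt' mg).2 k2) ?_
    exact g.injective (k3.trans (by simp))
  · show g (u (g⁻¹ x)) = x
    rw [hin x k1 k2]; simp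
  · show v (w (v⁻¹ d)) = d
    rw [inv_fix vd, key d hge.le le_rfl, hud, vd]
  · have l1 : g e < v⁻¹ x := (lt_inv' mv).2 k1
    have l2 : v⁻¹ x < d := (inv_lt' mv).2 (by rwa [vd])
    refine hmv (v⁻¹ x) (hage.trans l1) l2 ?_
    rw [← key _ l1.le l2.le]
    exact v.injective (k3.trans (by simp))
  · show v (w (v⁻¹ x)) = x
    have l1 : a ≤ v⁻¹ x := (le_inv' mv).2 (by rwa [va])
    have l2 : v⁻¹ x ≤ p := (inv_le' mv).2 k2
    have : w (v⁻¹ x) = v⁻¹ x := l1.eq_or_lt.elim (fun k => by rw [← k, (h.2.1 w hw).1])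
      fun k => hc2 _ k (l2.trans_lt (hp2.trans_le (min_le_left _ _)))
    rw [this]; simp
  · rw [← va]; exact mv hp1

theorem Tame.balanced' (T : Tame L) (h : Orb L a b) {u : Perm X} (hu : u ∈ L) (ha : TR u a) :
    TL u b :=
  TR.dual (X := Xᵒᵈ) (T.dual.balanced h.dual hu ha.dual)

end Pool.Agent.MP_f7db47_al

end

section

/-! Hulls of supports, and restriction to an invariant interval. -/

namespace Pool.Agent.MP_f7db47_al

open Equiv

variable {X : Type} [ConditionallyCompleteLinearOrder X] {G L M : Subgroup (Perm X)} {a b p q : X}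

/-- The set of points moved by `L`. -/
def supp {X : Type} (L : Subgroup (Perm X)) : Set X := {x | ∃ g ∈ L, g x ≠ x}

/-- Left end of the hull of the support. -/
noncomputable def lo (L : Subgroup (Perm X)) : X := sInf (supp L)

/-- Right end of the hull of the support. -/
noncomputable def hi (L : Subgroup (Perm X)) : X := sSup (supp L)

omit [ConditionallyCompleteLinearOrder X] in
theorem supp_nonempty (h : L ≠ ⊥) : (supp L).Nonempty := by
  by_contra hc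
  refine h ((Subgroup.eq_bot_iff_forall _).2 fun g hg => Equiv.ext fun x => ?_)
  by_contra hx
  exact hc ⟨x, g, hg, hx⟩

theorem Tame.bddAbove (T : Tame L) : BddAbove (supp L) := by
  obtain ⟨l, h, k⟩ := T.bdd
  exact ⟨h, fun x ⟨g, hg, hx⟩ => not_lt.1 fun c => hx (k g hg x (Or.inr c.le))⟩

theorem Tame.hi_fix (T : Tame L) (h : L ≠ ⊥) {g : Perm X} (hg : g ∈ L) {x : X} (hx : hi L ≤ x) :
    g x = x := by
  rcases hx.eq_or_lt with rfl | hx
  · have : ∀ g ∈ L, ∀ x ∈ supp L, g x ∈ supp L := by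
      rintro g hg x ⟨k, hk, e⟩
      exact ⟨g * k * g⁻¹, mul_mem (mul_mem hg hk) (inv_mem hg), by simpa using e⟩
    exact fix_sSup (T.mono g hg) (supp_nonempty h) T.bddAbove (this g hg) (this _ (inv_mem hg))
  · by_contra hc
    exact hx.not_ge (le_csSup T.bddAbove ⟨g, hg, hc⟩)

theorem Tame.lo_fix (T : Tame L) (h : L ≠ ⊥) {g : Perm X} (hg : g ∈ L) {x : X} (hx : x ≤ lo L) :
    g x = x :=
  T.dual.hi_fix h hg hx

theorem Tame.lt_hi (T : Tame L) (h : L ≠ ⊥) {x : X} (hx : x ∈ supp L) : x < hi L :=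
  not_le.1 fun c => hx.elim fun _ k => k.2 (T.hi_fix h k.1 c)

theorem Tame.lo_lt (T : Tame L) (h : L ≠ ⊥) {x : X} (hx : x ∈ supp L) : lo L < x :=
  T.dual.lt_hi h hx

theorem hi_le (h : L ≠ ⊥) {y : X} (hy : ∀ g ∈ L, ∀ x, y < x → g x = x) : hi L ≤ y :=
  csSup_le (supp_nonempty h) fun x ⟨g, hg, e⟩ => not_lt.1 fun c => e (hy g hg x c)

theorem le_lo (h : L ≠ ⊥) {y : X} (hy : ∀ g ∈ L, ∀ x, x < y → g x = x) : y ≤ lo L :=
  hi_le (X := Xᵒᵈ) h hy

variable [DenselyOrdered X] [NoMinOrder X] [NoMaxOrder X]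

omit [NoMaxOrder X] in
theorem Tame.wf_lo (T : Tame G) : WellFounded fun M L : Subgroup (Perm X) =>
    M ≤ L ∧ L ≤ G ∧ L.FG ∧ M ≠ ⊥ ∧ lo L < lo M := by
  refine wellFounded_iff_isEmpty_descending_chain.2 ⟨fun ⟨f, hf⟩ => ?_⟩
  have hanti : Antitone f := antitone_nat_of_succ_le fun n => (hf n).1
  have hmono : StrictMono fun n => lo (f n) := strictMono_nat_of_lt_succ fun n => (hf n).2.2.2.2
  have hne : ∀ n, f n ≠ ⊥ := fun n e => (hf n).2.2.2.1 (le_bot_iff.1 (e ▸ (hf n).1))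
  have Tf : ∀ n, Tame (f n) := fun n => T.sub (hf n).2.1
  have hbd : BddAbove (Set.range fun n => lo (f n)) := by
    obtain ⟨h, hh⟩ := T.bddAbove
    refine ⟨h, ?_⟩
    rintro _ ⟨n, rfl⟩
    obtain ⟨x, g, hg, e⟩ := supp_nonempty (hne n)
    exact ((Tf n).lo_lt (hne n) ⟨g, hg, e⟩).le.trans (hh ⟨g, (hf n).2.1 hg, e⟩)
  set l := sSup (Set.range fun n => lo (f n))
  have hl : ∀ n, lo (f n) < l := fun n => (hmono n.lt_succ_self).trans_le (le_csSup hbd ⟨_, rfl⟩)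
  have hl' : ∀ c, c < l → ∀ i, ∃ j, i ≤ j ∧ c < lo (f j) := fun c hc i => by
    obtain ⟨_, ⟨j, rfl⟩, k⟩ := exists_lt_of_lt_csSup (Set.range_nonempty _) hc
    exact ⟨max i j, le_max_left _ _, k.trans_le (hmono.monotone (le_max_right _ _))⟩
  have horb : ∀ i, ∃ a b, Orb (f i) a b ∧ a < l ∧ l ≤ b := fun i => by
    by_cases hc : ∀ g ∈ f i, TL g l
    · obtain ⟨c, h1, h2⟩ := TL_fg (hf i).2.2.1 hc
      obtain ⟨j, hj, k⟩ := hl' c h1 i
      obtain ⟨x, ⟨g, hg, e⟩, hx⟩ := exists_lt_of_csInf_lt (supp_nonempty (hne j)) (hl j)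
      exact absurd (h2 g (hanti hj hg) x (k.trans ((Tf j).lo_lt (hne j) ⟨g, hg, e⟩)) hx) e
    · push Not at hc
      obtain ⟨g, hg, hc⟩ := hc
      obtain ⟨c, h1, h2⟩ := ((Tf i).left g hg l).resolve_left hc
      obtain ⟨y, k1, k2⟩ := exists_between h1
      obtain ⟨a, b, o1, o2, ho⟩ := (Tf i).exists_orb ⟨g, hg, h2 y k1 k2⟩
      exact ⟨a, b, ho, o1.trans k2, not_lt.1 fun k => h2 b (k1.trans o2) k (ho.2.1 g hg).2⟩
  obtain ⟨a, b, ho, h1, h2⟩ := horb 0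
  have hacc := T.acc _ a b (hf 0).2.1 (hf 0).2.2.1 ho
  generalize 0 = i at ho hacc
  generalize ht : (f i, a, b) = t at hacc
  induction hacc generalizing i a b with
  | intro t _ ih =>
    subst ht
    obtain ⟨j, hj, k⟩ := hl' a h1 i
    obtain ⟨a', b', ho', h1', h2'⟩ := horb j
    obtain ⟨e, he1, he2⟩ := TL_fg (b := b) (hf j).2.2.1 fun g hg =>
      (Tf i).balanced' ho (hanti hj hg) ⟨_, k, fun x _ hx => (Tf j).lo_fix (hne j) hg hx.le⟩
    refine ih (f j, a', b') ⟨hanti hj, (hf j).2.2.1, ho', k.trans_le (not_lt.1 fun c => ?_),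
      not_le.1 fun c => ?_⟩ a' b' h1' h2' j ho' rfl
    · obtain ⟨z, z1, z2⟩ := exists_between (lt_min c ho'.1)
      obtain ⟨g, hg, e⟩ := ho'.2.2 z z1 (z2.trans_le (min_le_right _ _))
      exact e ((Tf j).lo_fix (hne j) hg (z2.le.trans (min_le_left _ _)))
    · obtain ⟨z, z1, z2⟩ := exists_between (max_lt he1 (h1'.trans_le h2))
      obtain ⟨g, hg, e⟩ := ho'.2.2 z ((le_max_right _ _).trans_lt z1) (z2.trans_le c)
      exact e (he2 g hg z ((le_max_left _ _).trans_lt z1) z2)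

omit [NoMinOrder X] in
theorem Tame.wf_hi (T : Tame G) : WellFounded fun M L : Subgroup (Perm X) =>
    M ≤ L ∧ L ≤ G ∧ L.FG ∧ M ≠ ⊥ ∧ hi M < hi L :=
  T.dual.wf_lo

/-- The well founded relation used for the extension step. -/
def Hull (G M L : Subgroup (Perm X)) : Prop :=
  M ≤ L ∧ L ≤ G ∧ L.FG ∧ L ≠ ⊥ ∧ (M = ⊥ ∨ lo L < lo M ∨ hi M < hi L)

theorem Tame.wf_hull (T : Tame G) : WellFounded (Hull G) := by
  have hbot : Acc (Hull G) ⊥ := ⟨_, fun M h => absurd rfl h.2.2.2.1⟩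
  refine ⟨fun L => ?_⟩
  by_cases hL : L ≤ G ∧ L.FG
  swap
  · exact ⟨_, fun M h => absurd ⟨h.2.1, h.2.2.1⟩ hL⟩
  suffices ∀ L, L ≤ G → L.FG → ∀ M, M ≤ L → Acc (Hull G) M from this L hL.1 hL.2 L le_rfl
  intro L
  induction L using T.wf_lo.induction with
  | _ L ih =>
    intro h1 h2 M
    induction M using T.wf_hi.induction with
    | _ M ih' =>
      intro hM
      refine ⟨_, fun M' h => ?_⟩
      by_cases hb : M' = ⊥
      · rw [hb]; exact hbot
      by_cases hfg : M'.FG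
      swap
      · exact ⟨_, fun _ k => absurd k.2.2.1 hfg⟩
      rcases h.2.2.2.2 with k | k | k
      · exact absurd k hb
      · refine ih M' ⟨h.1.trans hM, h1, h2, hb, lt_of_le_of_lt ?_ k⟩ (h.1.trans h.2.1) hfg M' le_rfl
        have hL0 : L ≠ ⊥ := fun e => h.2.2.2.1 (le_bot_iff.1 (e ▸ hM))
        exact le_lo h.2.2.2.1 fun g hg x hx => (T.sub h1).lo_fix hL0 (hM hg) hx.le
      · exact ih' M' ⟨h.1, h.2.1, h.2.2.1, hb, k⟩ (h.1.trans hM)

omit [DenselyOrdered X] [NoMinOrder X] [NoMaxOrder X]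

/-- Increasing permutations fixing two points. -/
def Fix2 (p q : X) : Subgroup (Perm X) where
  carrier := {g | StrictMono g ∧ g p = p ∧ g q = q}
  one_mem' := ⟨strictMono_id, rfl, rfl⟩
  mul_mem' := fun h k => ⟨h.1.comp k.1, by rw [Perm.mul_apply, k.2.1, h.2.1],
    by rw [Perm.mul_apply, k.2.2, h.2.2]⟩
  inv_mem' := fun h => ⟨fun x y hxy => (inv_lt' h.1).2 (by simpa using hxy), inv_fix h.2.1,
    inv_fix h.2.2⟩

/-- Cutting a map to an interval. -/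
noncomputable def cutFun (p q : X) (g : Perm X) (x : X) : X := if p ≤ x ∧ x ≤ q then g x else x

theorem cutFun_in {g : Perm X} {x : X} (h1 : p ≤ x) (h2 : x ≤ q) : cutFun p q g x = g x :=
  if_pos ⟨h1, h2⟩

theorem cutFun_out {g : Perm X} {x : X} (h : ¬ (p ≤ x ∧ x ≤ q)) : cutFun p q g x = x := if_neg h

theorem Fix2_mem {g : Perm X} (hg : g ∈ Fix2 p q) {x : X} :
    (p ≤ g x ∧ g x ≤ q) ↔ (p ≤ x ∧ x ≤ q) := by
  conv_lhs => rw [← hg.2.1, ← hg.2.2, hg.1.le_iff_le, hg.1.le_iff_le]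

/-- Cutting as a homomorphism. -/
noncomputable def cut (p q : X) : Fix2 p q →* Perm X :=
  MonoidHom.toHomPerm
    { toFun := fun g => cutFun p q g
      map_one' := funext fun x => by simp [cutFun]; rfl
      map_mul' := fun g h => funext fun x => by
        show cutFun p q (g * h) x = cutFun p q g (cutFun p q h x)
        by_cases hx : p ≤ x ∧ x ≤ q
        · have := (Fix2_mem h.2).2 hx
          rw [cutFun_in hx.1 hx.2, cutFun_in hx.1 hx.2, cutFun_in this.1 this.2]; rfl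
        · rw [cutFun_out hx, cutFun_out hx, cutFun_out hx] }

theorem cut_apply (g : Fix2 p q) (x : X) : cut p q g x = cutFun p q g x := rfl

/-- The restriction of a group to an interval. -/
noncomputable def res (L : Subgroup (Perm X)) (p q : X) : Subgroup (Perm X) :=
  (L.subgroupOf (Fix2 p q)).map (cut p q)

theorem mem_res {σ : Perm X} :
    σ ∈ res L p q ↔ ∃ g ∈ L, g ∈ Fix2 p q ∧ ∀ x, σ x = cutFun p q g x :=
  ⟨fun ⟨g, hg, e⟩ => ⟨g, hg, g.2, fun _ => by rw [← e]; rfl⟩,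
    fun ⟨g, h1, h2, e⟩ => ⟨⟨g, h2⟩, h1, Equiv.ext fun x => (e x).symm⟩⟩

theorem cut_mem_res {g : Perm X} (h : g ∈ L) (h' : g ∈ Fix2 p q) : cut p q ⟨g, h'⟩ ∈ res L p q :=
  ⟨⟨g, h'⟩, h, rfl⟩

theorem res_mono (h : M ≤ L) : res M p q ≤ res L p q :=
  Subgroup.map_mono (Subgroup.comap_mono h)

theorem res_fg (h : L ≤ Fix2 p q) (hL : L.FG) : (res L p q).FG := by
  rw [← Group.fg_iff_subgroup_fg] at hL ⊢
  refine Group.fg_of_surjective (f := ((cut p q).comp (Subgroup.inclusion h)).codRestrict _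
    fun g => cut_mem_res g.2 (h g.2)) ?_
  rintro ⟨_, ⟨g, hg⟩, k, rfl⟩
  exact ⟨⟨g, k⟩, rfl⟩

theorem res_lift {M' : Subgroup (Perm X)} (h : M' ≤ res L p q) (hM : M'.FG) :
    ∃ M, M ≤ L ∧ M ≤ Fix2 p q ∧ M.FG ∧ res M p q = M' := by
  classical
  obtain ⟨S, rfl⟩ := hM
  choose! g hg using fun σ (hσ : σ ∈ S) => mem_res.1 (h (Subgroup.subset_closure hσ))
  have h1 : Subgroup.closure (S.image g : Set (Perm X)) ≤ Fix2 p q :=
    (Subgroup.closure_le _).2 fun x hx => by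
      obtain ⟨σ, hσ, rfl⟩ := Finset.mem_image.1 hx
      exact (hg σ hσ).2.1
  refine ⟨Subgroup.closure (S.image g), (Subgroup.closure_le _).2 fun x hx => ?_, h1, ⟨_, rfl⟩,
    le_antisymm ?_ ((Subgroup.closure_le _).2 fun σ hσ => ?_)⟩
  · obtain ⟨σ, hσ, rfl⟩ := Finset.mem_image.1 hx
    exact (hg σ hσ).1
  · rintro _ ⟨⟨k, hk⟩, hk', rfl⟩
    replace hk' : k ∈ Subgroup.closure (S.image g : Set (Perm X)) := hk'
    induction hk' using Subgroup.closure_induction with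
    | mem x hx =>
      obtain ⟨σ, hσ, rfl⟩ := Finset.mem_image.1 hx
      have : cut p q ⟨g σ, hk⟩ = σ := Equiv.ext fun x => ((hg σ hσ).2.2 x).symm
      rw [this]
      exact Subgroup.subset_closure hσ
    | one =>
      have : cut p q ⟨1, hk⟩ = 1 := map_one _
      rw [this]; exact one_mem _
    | mul x y hx hy ihx ihy =>
      exact (map_mul (cut p q) ⟨x, h1 hx⟩ ⟨y, h1 hy⟩) ▸ mul_mem (ihx _) (ihy _)
    | inv x hx ih => exact (map_inv (cut p q) ⟨x, h1 hx⟩) ▸ inv_mem (ih _)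
  · exact mem_res.2 ⟨g σ, Subgroup.subset_closure (Finset.mem_image_of_mem g hσ), (hg σ hσ).2⟩

theorem res_res (h1 : p ≤ a) (h2 : a ≤ q) (h3 : p ≤ b) (h4 : b ≤ q) :
    res (res L p q) a b ≤ res L a b := by
  intro σ hσ
  obtain ⟨τ, hτ, k1, k2⟩ := mem_res.1 hσ
  obtain ⟨g, hg, l1, l2⟩ := mem_res.1 hτ
  refine mem_res.2 ⟨g, hg, ⟨l1.1, ?_, ?_⟩, fun x => ?_⟩
  · rw [← cutFun_in h1 h2, ← l2, k1.2.1]
  · rw [← cutFun_in h3 h4, ← l2, k1.2.2]
  · rw [k2]
    by_cases hx : a ≤ x ∧ x ≤ b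
    · rw [cutFun_in hx.1 hx.2, cutFun_in hx.1 hx.2, l2, cutFun_in (h1.trans hx.1) (hx.2.trans h4)]
    · rw [cutFun_out hx, cutFun_out hx]

theorem le_res (h : L ≤ Fix2 p q) (hs : ∀ g ∈ L, ∀ x, ¬ (p ≤ x ∧ x ≤ q) → g x = x) :
    L ≤ res L p q := fun g hg => mem_res.2 ⟨g, hg, h hg, fun x => by
  by_cases hx : p ≤ x ∧ x ≤ q
  · rw [cutFun_in hx.1 hx.2]
  · rw [cutFun_out hx, hs g hg x hx]⟩

theorem res_out {σ : Perm X} (h : σ ∈ res L p q) {x : X} (hx : ¬ (p ≤ x ∧ x ≤ q)) : σ x = x := by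
  obtain ⟨g, -, -, e⟩ := mem_res.1 h
  rw [e, cutFun_out hx]

theorem res_fix {σ : Perm X} (h : σ ∈ res L p q) {x : X} (hx : ∀ g ∈ L, g x = x) : σ x = x := by
  obtain ⟨g, hg, -, e⟩ := mem_res.1 h
  rw [e, cutFun]
  split_ifs
  exacts [hx g hg, rfl]

theorem res_strictMono {σ : Perm X} (h : σ ∈ res L p q) : StrictMono σ := by
  obtain ⟨g, -, hg, e⟩ := mem_res.1 h
  intro x y hxy
  rw [e, e]
  by_cases hx : p ≤ x ∧ x ≤ q <;> by_cases hy : p ≤ y ∧ y ≤ q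
  · rw [cutFun_in hx.1 hx.2, cutFun_in hy.1 hy.2]; exact hg.1 hxy
  · rw [cutFun_in hx.1 hx.2, cutFun_out hy]
    exact ((Fix2_mem hg).2 hx).2.trans_lt (not_le.1 fun c => hy ⟨hx.1.trans hxy.le, c⟩)
  · rw [cutFun_in hy.1 hy.2, cutFun_out hx]
    exact (not_le.1 fun c => hx ⟨c, hxy.le.trans hy.2⟩).trans_le ((Fix2_mem hg).2 hy).1
  · rwa [cutFun_out hx, cutFun_out hy]

theorem Orb.res (h : Orb L a b) (hL : L ≤ Fix2 p q) (h1 : p ≤ a) (h2 : b ≤ q) :
    Orb (res L p q) a b :=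
  ⟨h.1, fun _ hσ => ⟨res_fix hσ fun g hg => (h.2.1 g hg).1, res_fix hσ fun g hg => (h.2.1 g hg).2⟩,
    fun x k1 k2 => (h.2.2 x k1 k2).elim fun g hg => ⟨_, cut_mem_res hg.1 (hL hg.1), by
      rw [cut_apply, cutFun_in (h1.trans k1.le) (k2.le.trans h2)]; exact hg.2⟩⟩

theorem Orb.of_res [DenselyOrdered X] (h : Orb (MP_f7db47_al.res L p q) a b) (hL : L ≤ Fix2 p q) :
    Orb L a b ∧ p ≤ a ∧ b ≤ q := by
  have h1 : p ≤ a := not_lt.1 fun c => by
    obtain ⟨z, z1, z2⟩ := exists_between (lt_min c h.1)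
    obtain ⟨g, hg, e⟩ := h.2.2 z z1 (z2.trans_le (min_le_right _ _))
    exact e (res_out hg fun k => (z2.trans_le (min_le_left _ _)).not_ge k.1)
  have h2 : b ≤ q := not_lt.1 fun c => by
    obtain ⟨z, z1, z2⟩ := exists_between (max_lt c h.1)
    obtain ⟨g, hg, e⟩ := h.2.2 z ((le_max_right _ _).trans_lt z1) z2
    exact e (res_out hg fun k => ((le_max_left _ _).trans_lt z1).not_ge k.2)
  refine ⟨⟨h.1, fun g hg => ?_, fun x k1 k2 => ?_⟩, h1, h2⟩
  · have := h.2.1 _ (cut_mem_res hg (hL hg))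
    rwa [cut_apply, cut_apply, cutFun_in h1 (h.1.le.trans h2), cutFun_in (h1.trans h.1.le) h2]
      at this
  · by_contra hc
    push Not at hc
    obtain ⟨σ, hσ, e⟩ := h.2.2 x k1 k2
    exact e (res_fix hσ hc)

theorem acc_res [DenselyOrdered X] {t : Subgroup (Perm X) × X × X} (h : Acc Rel t) :
    Acc Rel (res t.1 p q, t.2) := by
  induction h with
  | intro t _ ih =>
    refine ⟨_, fun ⟨M', a, b⟩ ⟨h1, h2, h3, h4⟩ => ?_⟩
    obtain ⟨M, k1, k2, k3, rfl⟩ := res_lift h1 h2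
    exact ih (M, a, b) ⟨k1, k3, (h3.of_res k2).1, h4⟩

end Pool.Agent.MP_f7db47_al

end
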